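import Pool.Agent.Helper805.Chain.Free
import Pool.Agent.Helper805.Nuc.Tens
set_option autoImplicit false

/-! Elementary facts on nuclear elements of alternative rings. -/

namespace Pool.Agent.Helper805.Chain.Alt
open Pool.Agent.Helper805.Nuc.Tens Pool.Agent.Helper805.Chain.Free

lemma freeAlt_isAlt {Φ : Type} [CommRing Φ] {X : Type} : IsAlt (FreeAlt Φ X) :=
  ⟨fun a b => (FreeAlt.alternative a b).1, fun a b => (FreeAlt.alternative a b).2⟩

variable {Q : Type} [NonUnitalNonAssocRing Q]

lemma cocycle (a b c d : Q) :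
    a * as b c d - as (a * b) c d + as a (b * c) d - as a b (c * d) + as a b c * d = 0 := by
  unfold as; simp only [mul_sub, sub_mul]; abel

lemma as_sub1 (a a' b c : Q) : as (a - a') b c = as a b c - as a' b c := by
  unfold as; simp only [sub_mul]; abel

variable (hQ : IsAlt Q)
include hQ

lemma p12 (a b c : Q) : as a b c = - as b a c := hQ.as_left a b c
lemma p23 (a b c : Q) : as a b c = - as a c b := hQ.as_right a b c
lemma pc1 (a b c : Q) : as a b c = as b c a := by
  rw [p12 hQ a b c, p23 hQ b a c, neg_neg]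
lemma pc2 (a b c : Q) : as a b c = as c a b := by
  rw [p23 hQ a b c, p12 hQ a c b, neg_neg]

omit hQ in
/-- nuclear elements, left form -/
def IsNuc (n : Q) : Prop := ∀ a b : Q, as n a b = 0

lemma IsNuc.two {n : Q} (hn : IsNuc n) (a b : Q) : as a n b = 0 := by
  rw [p12 hQ, hn, neg_zero]

lemma IsNuc.three {n : Q} (hn : IsNuc n) (a b : Q) : as a b n = 0 := by
  rw [pc2 hQ, hn]

lemma IsNuc.mul_left {n : Q} (hn : IsNuc n) (a b c : Q) : as (n * a) b c = n * as a b c := by
  have h := cocycle n a b c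
  rw [hn, hn, hn, zero_mul] at h
  linear_combination (norm := abel) - h

lemma IsNuc.mul_right {n : Q} (hn : IsNuc n) (a b c : Q) : as (a * n) b c = n * as a b c := by
  have h := cocycle a n b c
  rw [hn, hn.two hQ, hn.two hQ, zero_mul, mul_zero, p12 hQ a (n * b) c, hn.mul_left hQ,
    p12 hQ b a c, mul_neg] at h
  linear_combination (norm := abel) - h

lemma IsNuc.comm {n : Q} (hn : IsNuc n) (t : Q) : IsNuc (br n t) := by
  intro a b
  unfold br
  rw [as_sub1, hn.mul_left hQ, hn.mul_right hQ, sub_self]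

lemma mem_nucleus {Φ : Type} [CommRing Φ] [Module Φ Q] [IsScalarTower Φ Q Q] [SMulCommClass Φ Q Q] {n : Q} :
    n ∈ nucleus Φ Q ↔ IsNuc n :=
  ⟨fun h a b => (h a b).1, fun h a b => ⟨h a b, IsNuc.two hQ h a b, IsNuc.three hQ h a b⟩⟩

end Pool.Agent.Helper805.Chain.Alt
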