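import Pool.Agent.Helper805.Chain.C5M
set_option autoImplicit false
set_option maxRecDepth 100000

/-! Certificate data (found by computer). -/

namespace Pool.Agent.Helper805.Chain.C5
open Pool.Agent.Helper805.Chain

def c_000 : Cert := (.node [⟨.x, .z, (B (A2 (K (.ofNat 988095270))) (B N N (K (.negSucc 275308485)) (K (.negSucc 477164407))) (B (K (.negSucc 889470493)) (K (.negSucc 113510521)) N N) (B (K (.negSucc 1752481707)) (K (.negSucc 93105311)) N N))⟩,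
  ⟨.x, T0, (B N N (K (.negSucc 103873559)) (K (.negSucc 350811167)))⟩,
  ⟨.x, T1, (B N N (K (.negSucc 760717387)) (K (.ofNat 22180088)))⟩,
  ⟨.x, T2, (B (K (.negSucc 2069462363)) (K (.negSucc 161906379)) N N)⟩,
  ⟨.z, T0, (A0 (K (.negSucc 2892035097)))⟩,
  ⟨.x, T6, (K (.ofNat 19900944))⟩,
  ⟨.x, T10, (K (.ofNat 7606844))⟩,
  ⟨.x, T12, (K (.negSucc 124320355))⟩,
  ⟨.x, T13, (K (.ofNat 31731028))⟩,
  ⟨.z, T8, (K (.negSucc 105898147))⟩,
  ⟨.z, T9, (K (.negSucc 25932115))⟩] (.node [⟨.x, .z, (B N N (K (.negSucc 61514299)) (K (.ofNat 668570724)))⟩,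
  ⟨.x, T2, (K (.ofNat 699203088))⟩,
  ⟨.z, T0, (K (.ofNat 655908480))⟩] .nil .nil (.node [⟨.x, .z, (K (.negSucc 35748215))⟩] .nil .nil .nil .nil .nil .nil) (.node [⟨.x, .z, (K (.negSucc 626198043))⟩] .nil .nil .nil .nil .nil .nil) .nil .nil) (.node [⟨.x, .z, (B N N (K (.negSucc 1499874633)) (K (.negSucc 328066907)))⟩,
  ⟨.x, T2, (K (.negSucc 670449925))⟩,
  ⟨.z, T0, (K (.negSucc 1949440883))⟩] .nil .nil (.node [⟨.x, .z, (K (.ofNat 758647854))⟩] .nil .nil .nil .nil .nil .nil) (.node [⟨.x, .z, (K (.ofNat 734410690))⟩] .nil .nil .nil .nil .nil .nil) .nil .nil) (.node [⟨.x, .z, (B (K (.ofNat 90620408)) (K (.negSucc 728922759)) N N)⟩,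
  ⟨.x, T0, (K (.negSucc 786127011))⟩,
  ⟨.x, T1, (K (.ofNat 18422208))⟩] (.node [⟨.x, .z, (K (.ofNat 18422208))⟩] .nil .nil .nil .nil .nil .nil) (.node [⟨.x, .z, (K (.ofNat 1077236002))⟩] .nil .nil .nil .nil .nil .nil) .nil .nil .nil .nil) (.node [⟨.x, .z, (B (K (.ofNat 2591243250)) (K (.ofNat 1224112758)) N N)⟩,
  ⟨.x, T0, (K (.ofNat 168104528))⟩,
  ⟨.x, T1, (K (.negSucc 926376217))⟩] (.node [⟨.x, .z, (K (.negSucc 939646649))⟩] .nil .nil .nil .nil .nil .nil) (.node [⟨.x, .z, (K (.negSucc 566363031))⟩] .nil .nil .nil .nil .nil .nil) .nil .nil .nil .nil) .nil .nil)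

def c_001 : Cert := (.node [⟨.x, .z, (B (A2 (K (.negSucc 580315259))) (B N N (K (.ofNat 250399474)) (K (.ofNat 96049226))) (B (K (.ofNat 2753951038)) (K (.ofNat 614451476)) N N) (B (K (.negSucc 67158791)) (K (.negSucc 613588169)) N N))⟩,
  ⟨.x, T0, (B N N (K (.ofNat 46186830)) (K (.ofNat 644632758)))⟩,
  ⟨.x, T1, (B N N (K (.ofNat 646658822)) (K (.negSucc 87646477)))⟩,
  ⟨.x, T2, (B (K (.ofNat 172718506)) (K (.negSucc 403529737)) N N)⟩,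
  ⟨.z, T0, (A0 (K (.ofNat 2711091312)))⟩,
  ⟨.x, T6, (K (.ofNat 69321228))⟩,
  ⟨.x, T10, (K (.negSucc 282101761))⟩,
  ⟨.x, T12, (K (.negSucc 119616063))⟩,
  ⟨.x, T13, (K (.ofNat 204919166))⟩,
  ⟨.z, T8, (K (.ofNat 139818860))⟩,
  ⟨.z, T9, (K (.negSucc 1050855))⟩] (.node [⟨.x, .z, (B N N (K (.negSucc 269070621)) (K (.negSucc 189618575)))⟩,
  ⟨.x, T2, (K (.negSucc 569318039))⟩,
  ⟨.z, T0, (K (.negSucc 876065357))⟩] .nil .nil (.node [⟨.x, .z, (K (.negSucc 556658237))⟩] .nil .nil .nil .nil .nil .nil) (.node [⟨.x, .z, (K (.ofNat 1246521232))⟩] .nil .nil .nil .nil .nil .nil) .nil .nil) (.node [⟨.x, .z, (B N N (K (.negSucc 334001215)) (K (.negSucc 136099547)))⟩,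
  ⟨.x, T2, (K (.negSucc 357658371))⟩,
  ⟨.z, T0, (K (.negSucc 427973987))⟩] .nil .nil (.node [⟨.x, .z, (K (.negSucc 1084018307))⟩] .nil .nil .nil .nil .nil .nil) (.node [⟨.x, .z, (K (.ofNat 557815832))⟩] .nil .nil .nil .nil .nil .nil) .nil .nil) (.node [⟨.x, .z, (B (K (.negSucc 1677619279)) (K (.negSucc 2282564179)) N N)⟩,
  ⟨.x, T0, (K (.negSucc 440465455))⟩,
  ⟨.x, T1, (K (.ofNat 753655836))⟩] (.node [⟨.x, .z, (K (.ofNat 1172158170))⟩] .nil .nil .nil .nil .nil .nil) (.node [⟨.x, .z, (K (.negSucc 724702839))⟩] .nil .nil .nil .nil .nil .nil) .nil .nil .nil .nil) (.node [⟨.x, .z, (B (K (.negSucc 122225049)) (K (.ofNat 377984202)) N N)⟩,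
  ⟨.x, T0, (K (.negSucc 270245731))⟩,
  ⟨.x, T1, (K (.ofNat 106746452))⟩] (.node [⟨.x, .z, (K (.ofNat 632419704))⟩] .nil .nil .nil .nil .nil .nil) (.node [⟨.x, .z, (K (.negSucc 113195371))⟩] .nil .nil .nil .nil .nil .nil) .nil .nil .nil .nil) .nil .nil)

def c_00 : Cert := (.node [⟨.x, .z, (B (B (A2 (K (.negSucc 291039959))) N (B (K (.negSucc 2064076021)) (K (.negSucc 895205207)) N N) N) (B (A2 (K (.negSucc 263079893))) (B N N (K (.ofNat 413582598)) (K (.negSucc 449071403))) (B (K (.negSucc 282599897)) (K (.ofNat 416460258)) N N) (B (K (.ofNat 1271415040)) (K (.ofNat 1215386448)) N N)) (B (B (K (.ofNat 1991003052)) (K (.ofNat 1478893182)) N N) (B (K (.negSucc 161240557)) (K (.ofNat 420724020)) N N) N N) (B (B (K (.ofNat 800652088)) (K (.ofNat 1999841756)) N N) (B (K (.ofNat 190788414)) (K (.ofNat 11141424)) N N) N N))⟩,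
  ⟨.x, T0, (B (A2 (K (.negSucc 189671105))) (B N N (K (.ofNat 416167770)) (K (.ofNat 291744912))) (B (K (.ofNat 274614706)) (K (.ofNat 338111352)) N N) (B (K (.ofNat 878542114)) (K (.ofNat 1250720124)) N N))⟩,
  ⟨.x, T1, (B (A2 (K (.ofNat 394992846))) (B N N (K (.negSucc 51178025)) (K (.negSucc 389623133))) (B (K (.ofNat 1847463930)) (K (.ofNat 775460142)) N N) (B (K (.ofNat 345691050)) (K (.ofNat 45084060)) N N))⟩,
  ⟨.x, T2, (B (B (K (.ofNat 443090020)) (K (.ofNat 2145998120)) N N) (B (K (.ofNat 283025656)) (K (.ofNat 36228276)) N N) N N)⟩,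
  ⟨.z, T0, (A0 (B (K (.ofNat 2325648878)) (K (.ofNat 2980440380)) N N))⟩,
  ⟨.x, T5, (B N N (K (.negSucc 18944699)) (K (.ofNat 3313548)))⟩,
  ⟨.x, T6, (A1 (K (.negSucc 39559967)))⟩,
  ⟨.x, T8, (B N N (K (.ofNat 238350390)) (K (.negSucc 762341399)))⟩,
  ⟨.x, T9, (B N N (K (.negSucc 215438339)) (K (.ofNat 392805138)))⟩,
  ⟨.x, T10, (B (K (.ofNat 52290704)) (K (.negSucc 24053645)) N N)⟩,
  ⟨.x, T11, (A3 (K (.ofNat 19783008)))⟩,
  ⟨.x, T12, (B (K (.ofNat 329649438)) (K (.ofNat 17233524)) N N)⟩,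
  ⟨.x, T13, (B (K (.negSucc 128210021)) (K (.negSucc 50892659)) N N)⟩,
  ⟨.z, T8, (A0 (K (.ofNat 47419056)))⟩,
  ⟨.z, T9, (A0 (K (.negSucc 9715697)))⟩,
  ⟨.x, T31, (K (.negSucc 39240935))⟩,
  ⟨.x, T19, (K (.ofNat 50310798))⟩,
  ⟨.x, T21, (K (.ofNat 12724488))⟩,
  ⟨.x, T22, (K (.negSucc 16874927))⟩,
  ⟨.x, T41, (K (.negSucc 35048915))⟩,
  ⟨.x, T25, (K (.negSucc 15008363))⟩,
  ⟨.x, T26, (K (.negSucc 182195))⟩,
  ⟨.z, T17, (K (.negSucc 10309067))⟩] c_000 c_001 (.node [⟨.x, .z, (B (B (K (.ofNat 49048536)) (K (.negSucc 30463829)) N N) (B (K (.ofNat 1769407220)) (K (.ofNat 1015512432)) N N) N N)⟩,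
  ⟨.x, T0, (B (K (.ofNat 1827084374)) (K (.ofNat 857052318)) N N)⟩,
  ⟨.x, T1, (B (K (.negSucc 73688795)) (K (.ofNat 21756348)) N N)⟩,
  ⟨.x, T5, (K (.negSucc 18441107))⟩,
  ⟨.x, T8, (K (.ofNat 174925038))⟩,
  ⟨.x, T9, (K (.negSucc 12908123))⟩,
  ⟨.x, T11, (K (.negSucc 1524095))⟩] (.node [⟨.x, .z, (B (K (.negSucc 58478075)) (K (.ofNat 27107136)) N N)⟩,
  ⟨.x, T0, (K (.ofNat 2865996))⟩,
  ⟨.x, T1, (K (.negSucc 16734815))⟩] (.node [⟨.x, .z, (K (.negSucc 18258911))⟩] .nil .nil .nil .nil .nil .nil) (.node [⟨.x, .z, (K (.negSucc 438763523))⟩] .nil .nil .nil .nil .nil .nil) .nil .nil .nil .nil) (.node [⟨.x, .z, (B (K (.negSucc 1953769647)) (K (.negSucc 1354241171)) N N)⟩,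
  ⟨.x, T0, (K (.negSucc 119707277))⟩,
  ⟨.x, T1, (K (.ofNat 420353520))⟩] (.node [⟨.x, .z, (K (.ofNat 427675956))⟩] .nil .nil .nil .nil .nil .nil) (.node [⟨.x, .z, (K (.ofNat 368866758))⟩] .nil .nil .nil .nil .nil .nil) .nil .nil .nil .nil) .nil .nil .nil .nil) (.node [⟨.x, .z, (B (B (K (.negSucc 1796197401)) (K (.negSucc 3628737913)) N N) (B (K (.negSucc 928357357)) (K (.negSucc 1463548919)) N N) N N)⟩,
  ⟨.x, T0, (B (K (.ofNat 625319194)) (K (.negSucc 699172457)) N N)⟩,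
  ⟨.x, T1, (B (K (.ofNat 1034597586)) (K (.ofNat 836363478)) N N)⟩,
  ⟨.x, T5, (K (.negSucc 68468813))⟩,
  ⟨.x, T8, (K (.ofNat 158078382))⟩,
  ⟨.x, T9, (K (.negSucc 8450627))⟩,
  ⟨.x, T11, (K (.negSucc 320097041))⟩] (.node [⟨.x, .z, (B (K (.ofNat 1056532752)) (K (.ofNat 1578684354)) N N)⟩,
  ⟨.x, T0, (K (.ofNat 49791444))⟩,
  ⟨.x, T1, (K (.negSucc 397983737))⟩] (.node [⟨.x, .z, (K (.negSucc 97448951))⟩] .nil .nil .nil .nil .nil .nil) (.node [⟨.x, .z, (K (.negSucc 459610103))⟩] .nil .nil .nil .nil .nil .nil) .nil .nil .nil .nil) (.node [⟨.x, .z, (B (K (.negSucc 164644203)) (K (.ofNat 25016586)) N N)⟩,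
  ⟨.x, T0, (K (.ofNat 105129156))⟩,
  ⟨.x, T1, (K (.negSucc 20469677))⟩] (.node [⟨.x, .z, (K (.ofNat 277850724))⟩] .nil .nil .nil .nil .nil .nil) (.node [⟨.x, .z, (K (.negSucc 470747141))⟩] .nil .nil .nil .nil .nil .nil) .nil .nil .nil .nil) .nil .nil .nil .nil) .nil .nil)

def c_010 : Cert := (.node [⟨.x, .z, (B (A2 (K (.negSucc 2058056279))) (B N N (K (.negSucc 270358345)) (K (.ofNat 1713161108))) (B (K (.ofNat 1791334220)) (K (.negSucc 427399275)) N N) (B (K (.ofNat 2125062148)) (K (.ofNat 267236394)) N N))⟩,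
  ⟨.x, T0, (B N N (K (.ofNat 131217732)) (K (.ofNat 1401543588)))⟩,
  ⟨.x, T1, (B N N (K (.ofNat 2047982810)) (K (.negSucc 420217543)))⟩,
  ⟨.x, T2, (B (K (.ofNat 2036339492)) (K (.negSucc 51119821)) N N)⟩,
  ⟨.z, T0, (A0 (K (.ofNat 4157967938)))⟩,
  ⟨.x, T6, (K (.ofNat 68925324))⟩,
  ⟨.x, T10, (K (.ofNat 164136850))⟩,
  ⟨.x, T12, (K (.ofNat 9271928))⟩,
  ⟨.x, T13, (K (.ofNat 149219492))⟩,
  ⟨.z, T8, (K (.ofNat 48527762))⟩,
  ⟨.z, T9, (K (.ofNat 4569110))⟩] (.node [⟨.x, .z, (B N N (K (.ofNat 181664654)) (K (.negSucc 1496080109)))⟩,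
  ⟨.x, T2, (K (.negSucc 1656578759))⟩,
  ⟨.z, T0, (K (.negSucc 1509325217))⟩] .nil .nil (.node [⟨.x, .z, (K (.negSucc 135717737))⟩] .nil .nil .nil .nil .nil .nil) (.node [⟨.x, .z, (K (.ofNat 2181078676))⟩] .nil .nil .nil .nil .nil .nil) .nil .nil) (.node [⟨.x, .z, (B N N (K (.ofNat 1635556690)) (K (.negSucc 229587311)))⟩,
  ⟨.x, T2, (K (.negSucc 539832945))⟩,
  ⟨.z, T0, (K (.ofNat 1243070436))⟩] .nil .nil (.node [⟨.x, .z, (K (.negSucc 818621657))⟩] .nil .nil .nil .nil .nil .nil) (.node [⟨.x, .z, (K (.ofNat 1013177684))⟩] .nil .nil .nil .nil .nil .nil) .nil .nil) (.node [⟨.x, .z, (B (K (.ofNat 855440792)) (K (.ofNat 1418672674)) N N)⟩,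
  ⟨.x, T0, (K (.ofNat 1509369394))⟩,
  ⟨.x, T1, (K (.negSucc 98461583))⟩] (.node [⟨.x, .z, (K (.negSucc 131626001))⟩] .nil .nil .nil .nil .nil .nil) (.node [⟨.x, .z, (K (.negSucc 1654814349))⟩] .nil .nil .nil .nil .nil .nil) .nil .nil .nil .nil) (.node [⟨.x, .z, (B (K (.negSucc 3095083899)) (K (.negSucc 2202091649)) N N)⟩,
  ⟨.x, T0, (K (.negSucc 770461879))⟩,
  ⟨.x, T1, (K (.ofNat 1453296488))⟩] (.node [⟨.x, .z, (K (.ofNat 1364092884))⟩] .nil .nil .nil .nil .nil .nil) (.node [⟨.x, .z, (K (.negSucc 596289103))⟩] .nil .nil .nil .nil .nil .nil) .nil .nil .nil .nil) .nil .nil)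

def c_011 : Cert := (.node [⟨.x, .z, (B (A2 (K (.ofNat 2049321948))) (B N N (K (.ofNat 525587006)) (K (.negSucc 2262691471))) (B (K (.negSucc 4190415263)) (K (.negSucc 1661180797)) N N) (B (K (.negSucc 667689243)) (K (.ofNat 2190150402)) N N))⟩,
  ⟨.x, T0, (B N N (K (.ofNat 303012300)) (K (.negSucc 2542468013)))⟩,
  ⟨.x, T1, (B N N (K (.negSucc 1799789725)) (K (.negSucc 1035060789)))⟩,
  ⟨.x, T2, (B (K (.ofNat 139841894)) (K (.ofNat 2193737858)) N N)⟩,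
  ⟨.z, T0, (A0 (K (.negSucc 4467984825)))⟩,
  ⟨.x, T6, (K (.ofNat 208710492))⟩,
  ⟨.x, T10, (K (.negSucc 277968375))⟩,
  ⟨.x, T12, (K (.ofNat 47040676))⟩,
  ⟨.x, T13, (K (.ofNat 223521718))⟩,
  ⟨.z, T8, (K (.ofNat 75060898))⟩,
  ⟨.z, T9, (K (.negSucc 85491697))⟩] (.node [⟨.x, .z, (B N N (K (.ofNat 210159652)) (K (.ofNat 2281771830)))⟩,
  ⟨.x, T2, (K (.ofNat 2036169612))⟩,
  ⟨.z, T0, (K (.ofNat 1942941258))⟩] .nil .nil (.node [⟨.x, .z, (K (.ofNat 588049104))⟩] .nil .nil .nil .nil .nil .nil) (.node [⟨.x, .z, (K (.negSucc 617200461))⟩] .nil .nil .nil .nil .nil .nil) .nil .nil) (.node [⟨.x, .z, (B N N (K (.negSucc 2461669359)) (K (.negSucc 361569971)))⟩,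
  ⟨.x, T2, (K (.negSucc 328344265))⟩,
  ⟨.z, T0, (K (.negSucc 2951236871))⟩] .nil .nil (.node [⟨.x, .z, (K (.ofNat 2318978046))⟩] .nil .nil .nil .nil .nil .nil) (.node [⟨.x, .z, (K (.ofNat 565129120))⟩] .nil .nil .nil .nil .nil .nil) .nil .nil) (.node [⟨.x, .z, (B (K (.ofNat 1927206650)) (K (.negSucc 1218943005)) N N)⟩,
  ⟨.x, T0, (K (.negSucc 2184975321))⟩,
  ⟨.x, T1, (K (.ofNat 486115812))⟩] (.node [⟨.x, .z, (K (.ofNat 725754834))⟩] .nil .nil .nil .nil .nil .nil) (.node [⟨.x, .z, (K (.ofNat 2052914128))⟩] .nil .nil .nil .nil .nil .nil) .nil .nil .nil .nil) (.node [⟨.x, .z, (B (K (.ofNat 2549906866)) (K (.ofNat 774899064)) N N)⟩,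
  ⟨.x, T0, (K (.negSucc 86710521))⟩,
  ⟨.x, T1, (K (.negSucc 2758869481))⟩] (.node [⟨.x, .z, (K (.negSucc 1569661367))⟩] .nil .nil .nil .nil .nil .nil) (.node [⟨.x, .z, (K (.negSucc 33662013))⟩] .nil .nil .nil .nil .nil .nil) .nil .nil .nil .nil) .nil .nil)

def c_01 : Cert := (.node [⟨.x, .z, (B (B (A2 (K (.ofNat 296357226))) N (B (K (.ofNat 2567860968)) (K (.ofNat 1533350712)) N N) N) (B (A2 (K (.negSucc 168762455))) (B N N (K (.negSucc 734495285)) (K (.negSucc 9177989))) (B (K (.ofNat 799239500)) (K (.ofNat 173079342)) N N) (B (K (.negSucc 1788633381)) (K (.negSucc 1956597701)) N N)) (B (B (K (.negSucc 2509870393)) (K (.negSucc 3553474735)) N N) (B (K (.negSucc 1174641627)) (K (.negSucc 996019163)) N N) N N) (B (B (K (.negSucc 360886163)) (K (.ofNat 597412686)) N N) (B (K (.ofNat 2899206334)) (K (.ofNat 1402482372)) N N) N N))⟩,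
  ⟨.x, T0, (B (A2 (K (.negSucc 65544491))) (B N N (K (.negSucc 796252019)) (K (.negSucc 492837053))) (B (K (.ofNat 307893638)) (K (.negSucc 983875715)) N N) (B (K (.negSucc 2307985651)) (K (.negSucc 1635675239)) N N))⟩,
  ⟨.x, T1, (B (A2 (K (.negSucc 418667813))) (B N N (K (.negSucc 1851991811)) (K (.negSucc 1254534479))) (B (K (.negSucc 2461274091)) (K (.negSucc 3218673989)) N N) (B (K (.negSucc 152794361)) (K (.ofNat 42649518)) N N))⟩,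
  ⟨.x, T2, (B (B (K (.ofNat 27477270)) (K (.ofNat 202857846)) N N) (B (K (.ofNat 2315500314)) (K (.ofNat 1708739322)) N N) N N)⟩,
  ⟨.z, T0, (A0 (B (K (.negSucc 2524846693)) (K (.negSucc 4032396409)) N N))⟩,
  ⟨.x, T5, (B N N (K (.ofNat 207907014)) (K (.negSucc 233830655)))⟩,
  ⟨.x, T6, (A1 (K (.negSucc 70813943)))⟩,
  ⟨.x, T8, (B N N (K (.negSucc 26939975)) (K (.negSucc 103902347)))⟩,
  ⟨.x, T9, (B N N (K (.ofNat 130348080)) (K (.ofNat 758201568)))⟩,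
  ⟨.x, T10, (B (K (.ofNat 96625170)) (K (.negSucc 249455825)) N N)⟩,
  ⟨.x, T11, (A3 (K (.negSucc 492364919)))⟩,
  ⟨.x, T12, (B (K (.ofNat 167757678)) (K (.negSucc 167168885)) N N)⟩,
  ⟨.x, T13, (B (K (.negSucc 156531377)) (K (.negSucc 52076459)) N N)⟩,
  ⟨.z, T8, (A0 (K (.negSucc 92966693)))⟩,
  ⟨.z, T9, (A0 (K (.ofNat 8756694)))⟩,
  ⟨.x, T31, (K (.negSucc 8799839))⟩,
  ⟨.x, T19, (K (.ofNat 61970922))⟩,
  ⟨.x, T21, (K (.negSucc 22397885))⟩,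
  ⟨.x, T22, (K (.negSucc 17452637))⟩,
  ⟨.x, T41, (K (.negSucc 33024599))⟩,
  ⟨.x, T25, (K (.negSucc 40557383))⟩,
  ⟨.x, T26, (K (.ofNat 2394504))⟩,
  ⟨.z, T17, (K (.ofNat 16817472))⟩] c_010 c_011 (.node [⟨.x, .z, (B (B (K (.ofNat 302850918)) (K (.ofNat 1643461136)) N N) (B (K (.negSucc 1769671717)) (K (.negSucc 1694288057)) N N) N N)⟩,
  ⟨.x, T0, (B (K (.negSucc 4579557795)) (K (.negSucc 1611953867)) N N)⟩,
  ⟨.x, T1, (B (K (.negSucc 90280411)) (K (.ofNat 1462998198)) N N)⟩,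
  ⟨.x, T5, (K (.negSucc 641248289))⟩,
  ⟨.x, T8, (K (.ofNat 704818998))⟩,
  ⟨.x, T9, (K (.negSucc 830061935))⟩,
  ⟨.x, T11, (K (.ofNat 394489230))⟩] (.node [⟨.x, .z, (B (K (.negSucc 439089309)) (K (.negSucc 1370830103)) N N)⟩,
  ⟨.x, T0, (K (.negSucc 1150616483))⟩,
  ⟨.x, T1, (K (.ofNat 599121744))⟩] (.node [⟨.x, .z, (K (.ofNat 152332434))⟩] .nil .nil .nil .nil .nil .nil) (.node [⟨.x, .z, (K (.negSucc 1234820993))⟩] .nil .nil .nil .nil .nil .nil) .nil .nil .nil .nil) (.node [⟨.x, .z, (B (K (.ofNat 1896376416)) (K (.ofNat 829207290)) N N)⟩,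
  ⟨.x, T0, (K (.negSucc 831890159))⟩,
  ⟨.x, T1, (K (.ofNat 669866436))⟩] (.node [⟨.x, .z, (K (.negSucc 821889761))⟩] .nil .nil .nil .nil .nil .nil) (.node [⟨.x, .z, (K (.negSucc 776174525))⟩] .nil .nil .nil .nil .nil .nil) .nil .nil .nil .nil) .nil .nil .nil .nil) (.node [⟨.x, .z, (B (B (K (.ofNat 2312229186)) (K (.ofNat 1583750910)) N N) (B (K (.negSucc 82969497)) (K (.negSucc 276687983)) N N) N N)⟩,
  ⟨.x, T0, (B (K (.negSucc 867792951)) (K (.negSucc 864689741)) N N)⟩,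
  ⟨.x, T1, (B (K (.negSucc 3055832027)) (K (.negSucc 1910098607)) N N)⟩,
  ⟨.x, T5, (K (.negSucc 549701669))⟩,
  ⟨.x, T8, (K (.ofNat 513581976))⟩,
  ⟨.x, T9, (K (.negSucc 111879083))⟩,
  ⟨.x, T11, (K (.negSucc 156921119))⟩] (.node [⟨.x, .z, (B (K (.negSucc 1528304845)) (K (.negSucc 2861749463)) N N)⟩,
  ⟨.x, T0, (K (.negSucc 1727436785))⟩,
  ⟨.x, T1, (K (.negSucc 639028703))⟩] (.node [⟨.x, .z, (K (.negSucc 1037441255))⟩] .nil .nil .nil .nil .nil .nil) (.node [⟨.x, .z, (K (.negSucc 1498096517))⟩] .nil .nil .nil .nil .nil .nil) .nil .nil .nil .nil) (.node [⟨.x, .z, (B (K (.negSucc 40930697)) (K (.negSucc 802506179)) N N)⟩,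
  ⟨.x, T0, (K (.negSucc 879786197))⟩,
  ⟨.x, T1, (K (.negSucc 58893461))⟩] (.node [⟨.x, .z, (K (.negSucc 769611137))⟩] .nil .nil .nil .nil .nil .nil) (.node [⟨.x, .z, (K (.negSucc 340108139))⟩] .nil .nil .nil .nil .nil .nil) .nil .nil .nil .nil) .nil .nil .nil .nil) .nil .nil)

def c_02 : Cert := (.node [⟨.x, .z, (B (B (B (K (.negSucc 139470427)) (K (.ofNat 40993722)) N N) (B (K (.negSucc 146147659)) (K (.ofNat 21969888)) N N) N N) (B (B (K (.negSucc 592228013)) (K (.negSucc 1196306041)) N N) (B (K (.negSucc 1630377851)) (K (.negSucc 481343351)) N N) N N) N N)⟩,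
  ⟨.x, T0, (B (B (K (.negSucc 491527401)) (K (.negSucc 1419324115)) N N) (B (K (.negSucc 1435615675)) (K (.negSucc 688343507)) N N) N N)⟩,
  ⟨.x, T1, (B (B (K (.ofNat 8075798)) (K (.ofNat 46386582)) N N) (B (K (.negSucc 83172219)) (K (.ofNat 135573258)) N N) N N)⟩,
  ⟨.x, T4, (B N N (K (.ofNat 18384624)) (K (.negSucc 18529937)))⟩,
  ⟨.x, T5, (A1 (K (.ofNat 7437528)))⟩,
  ⟨.x, T7, (B N N (K (.ofNat 83584482)) (K (.negSucc 69042233)))⟩,
  ⟨.x, T8, (B (K (.negSucc 265420845)) (K (.ofNat 203574606)) N N)⟩,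
  ⟨.x, T9, (B (K (.ofNat 116294194)) (K (.negSucc 99472535)) N N)⟩,
  ⟨.x, T11, (A1 (K (.ofNat 52970532)))⟩,
  ⟨.x, T15, (K (.ofNat 33430320))⟩,
  ⟨.x, T17, (K (.ofNat 7677066))⟩,
  ⟨.x, T18, (K (.ofNat 21618786))⟩,
  ⟨.x, T20, (K (.ofNat 31289964))⟩,
  ⟨.x, T23, (K (.negSucc 9551303))⟩,
  ⟨.x, T24, (K (.negSucc 21680567))⟩] (.node [⟨.x, .z, (B (B (K (.negSucc 79001193)) (K (.negSucc 32591795)) N N) (B (K (.negSucc 4844501)) (K (.ofNat 6236940)) N N) N N)⟩,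
  ⟨.x, T0, (B (K (.negSucc 24285209)) (K (.negSucc 129772697)) N N)⟩,
  ⟨.x, T1, (B (K (.ofNat 24613248)) (K (.ofNat 49007310)) N N)⟩,
  ⟨.x, T5, (K (.ofNat 15680196))⟩,
  ⟨.x, T8, (K (.ofNat 131882634))⟩,
  ⟨.x, T9, (K (.negSucc 63982157))⟩] (.node [⟨.x, .z, (B (K (.ofNat 60063600)) (K (.negSucc 71404631)) N N)⟩,
  ⟨.x, T0, (K (.negSucc 16870571))⟩,
  ⟨.x, T1, (K (.ofNat 27013392))⟩] (.node [⟨.x, .z, (K (.negSucc 4218479))⟩] .nil .nil .nil .nil .nil .nil) (.node [⟨.x, .z, (K (.negSucc 17688341))⟩] .nil .nil .nil .nil .nil .nil) .nil .nil .nil .nil) (.node [⟨.x, .z, (B (K (.negSucc 24466823)) (K (.negSucc 103955501)) N N)⟩,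
  ⟨.x, T0, (K (.ofNat 195433548))⟩,
  ⟨.x, T1, (K (.ofNat 72795276))⟩] (.node [⟨.x, .z, (K (.negSucc 75400571))⟩] .nil .nil .nil .nil .nil .nil) (.node [⟨.x, .z, (K (.negSucc 91119323))⟩] .nil .nil .nil .nil .nil .nil) .nil .nil .nil .nil) .nil .nil .nil .nil) (.node [⟨.x, .z, (B (B (K (.negSucc 141702853)) (K (.ofNat 2579730458)) N N) (B (K (.ofNat 746222006)) (K (.ofNat 982891644)) N N) N N)⟩,
  ⟨.x, T0, (B (K (.negSucc 1741113651)) (K (.negSucc 23742221)) N N)⟩,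
  ⟨.x, T1, (B (K (.negSucc 291631495)) (K (.negSucc 117839921)) N N)⟩,
  ⟨.x, T5, (K (.negSucc 238780829))⟩,
  ⟨.x, T8, (K (.ofNat 246381564))⟩,
  ⟨.x, T9, (K (.ofNat 289622514))⟩,
  ⟨.x, T11, (K (.negSucc 48023561))⟩] (.node [⟨.x, .z, (B (K (.negSucc 72709719)) (K (.negSucc 420125057)) N N)⟩,
  ⟨.x, T0, (K (.negSucc 360668141))⟩,
  ⟨.x, T1, (K (.ofNat 130918068))⟩] (.node [⟨.x, .z, (K (.negSucc 16048895))⟩] .nil .nil .nil .nil .nil .nil) (.node [⟨.x, .z, (K (.ofNat 196491684))⟩] .nil .nil .nil .nil .nil .nil) .nil .nil .nil .nil) (.node [⟨.x, .z, (B (K (.ofNat 130955564)) (K (.negSucc 955957571)) N N)⟩,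
  ⟨.x, T0, (K (.negSucc 575626463))⟩,
  ⟨.x, T1, (K (.ofNat 105388710))⟩] (.node [⟨.x, .z, (K (.ofNat 273598572))⟩] .nil .nil .nil .nil .nil .nil) (.node [⟨.x, .z, (K (.ofNat 304620990))⟩] .nil .nil .nil .nil .nil .nil) .nil .nil .nil .nil) .nil .nil .nil .nil) (.node [⟨.x, T4, (K (.negSucc 15615935))⟩,
  ⟨.x, T7, (K (.negSucc 46905899))⟩] .nil .nil .nil .nil .nil .nil) (.node [⟨.x, T4, (K (.ofNat 160151973))⟩,
  ⟨.x, T7, (K (.ofNat 234909657))⟩] .nil .nil .nil .nil .nil .nil) .nil .nil)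

def c_03 : Cert := (.node [⟨.x, .z, (B (B (B (K (.ofNat 4082680836)) (K (.ofNat 1798712110)) N N) (B (K (.ofNat 3960343659)) (K (.negSucc 3080414012)) N N) N N) (B (B (K (.ofNat 2514454144)) (K (.negSucc 139061543)) N N) (B (K (.negSucc 1926799205)) (K (.negSucc 1198562129)) N N) N N) N N)⟩,
  ⟨.x, T0, (B (B (K (.negSucc 904896861)) (K (.ofNat 21445387)) N N) (B (K (.negSucc 3562546057)) (K (.negSucc 1364779337)) N N) N N)⟩,
  ⟨.x, T1, (B (B (K (.negSucc 1147023237)) (K (.negSucc 1490346280)) N N) (B (K (.negSucc 2481602314)) (K (.ofNat 440300857)) N N) N N)⟩,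
  ⟨.x, T4, (B N N (K (.negSucc 388250752)) (K (.negSucc 454357998)))⟩,
  ⟨.x, T5, (A1 (K (.ofNat 160906140)))⟩,
  ⟨.x, T7, (B N N (K (.negSucc 758122790)) (K (.ofNat 895642609)))⟩,
  ⟨.x, T8, (B (K (.negSucc 64261491)) (K (.ofNat 388438160)) N N)⟩,
  ⟨.x, T9, (B (K (.ofNat 5266819)) (K (.negSucc 2092801534)) N N)⟩,
  ⟨.x, T11, (A1 (K (.ofNat 7648273)))⟩,
  ⟨.x, T15, (K (.ofNat 923603706))⟩,
  ⟨.x, T17, (K (.ofNat 326661120))⟩,
  ⟨.x, T18, (K (.negSucc 776454995))⟩,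
  ⟨.x, T20, (K (.ofNat 410437163))⟩,
  ⟨.x, T23, (K (.negSucc 626327081))⟩,
  ⟨.x, T24, (K (.negSucc 505894447))⟩] (.node [⟨.x, .z, (B (B (K (.negSucc 1155783565)) (K (.negSucc 1045090823)) N N) (B (K (.ofNat 213208890)) (K (.ofNat 1225739292)) N N) N N)⟩,
  ⟨.x, T0, (B (K (.ofNat 547524282)) (K (.ofNat 768897140)) N N)⟩,
  ⟨.x, T1, (B (K (.negSucc 1789777817)) (K (.negSucc 2054231095)) N N)⟩,
  ⟨.x, T5, (K (.ofNat 1145237050))⟩,
  ⟨.x, T8, (K (.negSucc 412062239))⟩,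
  ⟨.x, T9, (K (.ofNat 1830645110))⟩,
  ⟨.x, T11, (K (.ofNat 485576340))⟩] (.node [⟨.x, .z, (B (K (.negSucc 988373051)) (K (.ofNat 1613455928)) N N)⟩,
  ⟨.x, T0, (K (.ofNat 2205404064))⟩,
  ⟨.x, T1, (K (.ofNat 1388305426))⟩] (.node [⟨.x, .z, (K (.negSucc 192859707))⟩] .nil .nil .nil .nil .nil .nil) (.node [⟨.x, .z, (K (.ofNat 752177258))⟩] .nil .nil .nil .nil .nil .nil) .nil .nil .nil .nil) (.node [⟨.x, .z, (B (K (.ofNat 2470081127)) (K (.ofNat 2756178918)) N N)⟩,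
  ⟨.x, T0, (K (.ofNat 3639976256))⟩,
  ⟨.x, T1, (K (.negSucc 1123666658))⟩] (.node [⟨.x, .z, (K (.negSucc 212042217))⟩] .nil .nil .nil .nil .nil .nil) (.node [⟨.x, .z, (K (.ofNat 124931130))⟩] .nil .nil .nil .nil .nil .nil) .nil .nil .nil .nil) .nil .nil .nil .nil) (.node [⟨.x, .z, (B (B (K (.negSucc 531887946)) (K (.negSucc 3225392184)) N N) (B (K (.negSucc 1247054365)) (K (.ofNat 3156501140)) N N) N N)⟩,
  ⟨.x, T0, (B (K (.negSucc 560717985)) (K (.ofNat 2445252058)) N N)⟩,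
  ⟨.x, T1, (B (K (.ofNat 670424289)) (K (.ofNat 3872352097)) N N)⟩,
  ⟨.x, T5, (K (.negSucc 177277801))⟩,
  ⟨.x, T8, (K (.ofNat 815338388))⟩,
  ⟨.x, T9, (K (.negSucc 1867514237))⟩,
  ⟨.x, T11, (K (.ofNat 1883447964))⟩] (.node [⟨.x, .z, (B (K (.ofNat 1603652085)) (K (.ofNat 318808588)) N N)⟩,
  ⟨.x, T0, (K (.ofNat 1617615204))⟩,
  ⟨.x, T1, (K (.ofNat 602923967))⟩] (.node [⟨.x, .z, (K (.negSucc 1801314107))⟩] .nil .nil .nil .nil .nil .nil) (.node [⟨.x, .z, (K (.negSucc 2718480403))⟩] .nil .nil .nil .nil .nil .nil) .nil .nil .nil .nil) (.node [⟨.x, .z, (B (K (.negSucc 57833442)) (K (.ofNat 1271195434)) N N)⟩,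
  ⟨.x, T0, (K (.ofNat 1963237036))⟩,
  ⟨.x, T1, (K (.ofNat 891421527))⟩] (.node [⟨.x, .z, (K (.negSucc 2771557267))⟩] .nil .nil .nil .nil .nil .nil) (.node [⟨.x, .z, (K (.negSucc 2113062427))⟩] .nil .nil .nil .nil .nil .nil) .nil .nil .nil .nil) .nil .nil .nil .nil) (.node [⟨.x, T4, (K (.negSucc 397850880))⟩,
  ⟨.x, T7, (K (.negSucc 814287785))⟩] .nil .nil .nil .nil .nil .nil) (.node [⟨.x, T4, (K (.negSucc 247492102))⟩,
  ⟨.x, T7, (K (.negSucc 1105906106))⟩] .nil .nil .nil .nil .nil .nil) .nil .nil)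

def c_0 : Cert := (.node [⟨.x, .z, (B (B (B (A2 (K (.negSucc 359326529))) N (A0 (K (.ofNat 284802542))) N) N (B (B (K (.ofNat 437413416)) (K (.ofNat 2356790096)) N N) (B (K (.ofNat 1269519898)) (K (.ofNat 1426820268)) N N) N N) N) (B (B (A2 (K (.negSucc 317785751))) N (B (K (.ofNat 1253823654)) (K (.negSucc 1161672575)) N N) N) (B (A2 (K (.ofNat 1143312156))) (B N N (K (.ofNat 355823100)) (K (.ofNat 454086708))) (B (K (.negSucc 1838718363)) (K (.ofNat 1752407706)) N N) (B (K (.ofNat 630042362)) (K (.negSucc 301233947)) N N)) (B (B (K (.negSucc 1104707529)) (K (.ofNat 68818782)) N N) (B (K (.negSucc 877019871)) (K (.ofNat 1512690876)) N N) N N) (B (B (K (.ofNat 255758508)) (K (.negSucc 3171503473)) N N) (B (K (.negSucc 3196496347)) (K (.negSucc 468673247)) N N) N N)) (B (B (B (K (.negSucc 388828981)) (K (.negSucc 1400216395)) N N) (B (K (.negSucc 803099181)) (K (.negSucc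 527661305)) N N) N N) (B (B (K (.negSucc 519328821)) (K (.negSucc 1314840887)) N N) (B (K (.negSucc 920043615)) (K (.ofNat 163069998)) N N) N N) N N) (B (B (B (K (.negSucc 1614279707)) (K (.ofNat 689031582)) N N) (B (K (.negSucc 893386121)) (K (.ofNat 741938582)) N N) N N) (B (B (K (.negSucc 1579451167)) (K (.ofNat 79717326)) N N) (B (K (.negSucc 28185593)) (K (.negSucc 1180115)) N N) N N) N N))⟩,
  ⟨.x, T0, (B (B (A2 (K (.negSucc 130903535))) N (B (K (.ofNat 171707822)) (K (.negSucc 530257583)) N N) N) (B (A2 (K (.ofNat 857928162))) (B N N (K (.ofNat 322133640)) (K (.ofNat 434434470))) (B (K (.negSucc 2046892431)) (K (.ofNat 1475121414)) N N) (B (K (.ofNat 13056224)) (K (.ofNat 115261938)) N N)) (B (B (K (.negSucc 40693763)) (K (.ofNat 495299676)) N N) (B (K (.negSucc 1357324327)) (K (.ofNat 1191471120)) N N) N N) (B (B (K (.ofNat 240113486)) (K (.negSucc 2384357929))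 N N) (B (K (.negSucc 2328905695)) (K (.negSucc 471798551)) N N) N N))⟩,
  ⟨.x, T1, (B (B (A2 (K (.ofNat 89245158))) N (B (K (.negSucc 240726187)) (K (.ofNat 50742240)) N N) N) (B (A2 (K (.ofNat 309679938))) (B N N (K (.negSucc 412134935)) (K (.ofNat 115137294))) (B (K (.negSucc 538353047)) (K (.negSucc 166317101)) N N) (B (K (.negSucc 205415517)) (K (.negSucc 95725043)) N N)) (B (B (K (.negSucc 422022145)) (K (.negSucc 1738069843)) N N) (B (K (.negSucc 2253979781)) (K (.negSucc 695306765)) N N) N N) (B (B (K (.ofNat 55542114)) (K (.negSucc 46444859)) N N) (B (K (.negSucc 154188203)) (K (.ofNat 13499892)) N N) N N))⟩,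
  ⟨.x, T2, (B (B (B (K (.negSucc 921826217)) (K (.ofNat 291239796)) N N) (B (K (.ofNat 211502388)) (K (.ofNat 778494116)) N N) N N) (B (B (K (.negSucc 69350171)) (K (.ofNat 782737494)) N N) (B (K (.ofNat 845041314)) (K (.ofNat 385636380)) N N) N N) N N)⟩,
  ⟨.z, T0, (A0 (B (B (K (.negSucc 1178710449)) (K (.negSucc 1901283559)) N N) (B (K (.negSucc 1675684073)) (K (.negSucc 428606109)) N N) N N))⟩,
  ⟨.x, T4, (B N N (B N N (K (.ofNat 38100858)) (K (.negSucc 114771731))) (B N N (K (.ofNat 7333260)) (K (.negSucc 18268739))))⟩,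
  ⟨.x, T5, (B N (B N N (K (.negSucc 5140283)) (K (.negSucc 12067271))) (B (K (.ofNat 84733858)) (K (.negSucc 24485159)) N N) (A1 (K (.ofNat 20322792))))⟩,
  ⟨.x, T6, (A1 (B (K (.ofNat 45049584)) (K (.negSucc 13246631)) N N))⟩,
  ⟨.x, T7, (B N N (B N N (K (.negSucc 17018285)) (K (.ofNat 117662358))) (B N N (K (.negSucc 115516397)) (K (.ofNat 61239294))))⟩,
  ⟨.x, T8, (B (A2 (K (.ofNat 33344952))) (B N N (K (.ofNat 15669294)) (K (.ofNat 60502656))) (B (K (.negSucc 198549377)) (K (.ofNat 152788848)) N N) (B (K (.ofNat 546765678)) (K (.negSucc 404839877)) N N))⟩,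
  ⟨.x, T9, (B (A2 (K (.ofNat 92817012))) (B N N (K (.ofNat 396248340)) (K (.negSucc 98001587))) (B (K (.ofNat 140331008)) (K (.ofNat 4080720)) N N) (B (K (.ofNat 220109890)) (K (.ofNat 115054452)) N N))⟩,
  ⟨.x, T10, (B (B (K (.ofNat 8585530)) (K (.negSucc 761143781)) N N) (B (K (.negSucc 779049035)) (K (.negSucc 457112069)) N N) N N)⟩,
  ⟨.x, T11, (B N (B N N (K (.negSucc 93853991)) (K (.ofNat 1025892))) N (A1 (K (.ofNat 5423544))))⟩,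
  ⟨.x, T12, (B (B (K (.negSucc 104923475)) (K (.ofNat 8933982)) N N) (B (K (.negSucc 54200567)) (K (.ofNat 13615560)) N N) N N)⟩,
  ⟨.x, T13, (B (B (K (.ofNat 155898474)) (K (.ofNat 22011822)) N N) (B (K (.ofNat 127172292)) (K (.negSucc 9246635)) N N) N N)⟩,
  ⟨.z, T8, (A0 (B (K (.ofNat 131136492)) (K (.negSucc 93105161)) N N))⟩,
  ⟨.x, T15, (A3 (K (.negSucc 10820627)))⟩,
  ⟨.x, T31, (A1 (K (.negSucc 11276495)))⟩,
  ⟨.x, T17, (B N N (K (.negSucc 50492987)) (K (.ofNat 35187978)))⟩,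
  ⟨.x, T18, (B N N (K (.negSucc 4981859)) (K (.ofNat 33164418)))⟩,
  ⟨.x, T19, (B (K (.ofNat 77604432)) (K (.negSucc 22483865)) N N)⟩,
  ⟨.x, T20, (A2 (K (.negSucc 8871539)))⟩,
  ⟨.x, T21, (A0 (K (.negSucc 43105229)))⟩,
  ⟨.x, T22, (A0 (K (.ofNat 238518)))⟩,
  ⟨.x, T23, (A3 (K (.negSucc 14353415)))⟩,
  ⟨.x, T24, (A3 (K (.negSucc 17373635)))⟩,
  ⟨.x, T25, (B (K (.negSucc 12214691)) (K (.negSucc 25229231)) N N)⟩,
  ⟨.x, T26, (A1 (K (.ofNat 19329408)))⟩,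
  ⟨.z, T17, (A0 (K (.ofNat 17081820)))⟩,
  ⟨.x, T32, (K (.negSucc 23082947))⟩,
  ⟨.x, T33, (K (.ofNat 14795676))⟩,
  ⟨.x, T34, (K (.ofNat 7301448))⟩,
  ⟨.x, T35, (K (.ofNat 15781500))⟩,
  ⟨.x, T36, (K (.ofNat 22097124))⟩,
  ⟨.x, T38, (K (.negSucc 7429967))⟩,
  ⟨.x, T39, (K (.ofNat 7301448))⟩,
  ⟨.x, T40, (K (.negSucc 22097123))⟩] c_00 c_01 c_02 c_03 .nil .nil)

def c_100 : Cert := (.node [⟨.x, .z, (B (A2 (K (.negSucc 1579476343))) (B N N (K (.negSucc 129994207)) (K (.ofNat 2090732018))) (B (K (.ofNat 813458942)) (K (.ofNat 672642220)) N N) (B (K (.ofNat 417805066)) (K (.negSucc 172777037)) N N))⟩,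
  ⟨.x, T0, (B N N (K (.negSucc 282731235)) (K (.ofNat 1430468472)))⟩,
  ⟨.x, T1, (B N N (K (.ofNat 1469382954)) (K (.negSucc 742344259)))⟩,
  ⟨.x, T2, (B (K (.ofNat 684358488)) (K (.negSucc 626097533)) N N)⟩,
  ⟨.z, T0, (A0 (K (.ofNat 2130528306)))⟩,
  ⟨.x, T6, (K (.ofNat 19263120))⟩,
  ⟨.x, T10, (K (.ofNat 365630750))⟩,
  ⟨.x, T12, (K (.negSucc 46337421))⟩,
  ⟨.x, T13, (K (.ofNat 74979248))⟩,
  ⟨.z, T8, (K (.negSucc 8690565))⟩,
  ⟨.z, T9, (K (.ofNat 41267780))⟩] (.node [⟨.x, .z, (B N N (K (.negSucc 834461)) (K (.negSucc 1620640367)))⟩,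
  ⟨.x, T2, (K (.negSucc 1463358983))⟩,
  ⟨.z, T0, (K (.negSucc 1418191439))⟩] .nil .nil (.node [⟨.x, .z, (K (.negSucc 82316723))⟩] .nil .nil .nil .nil .nil .nil) (.node [⟨.x, .z, (K (.ofNat 2181628348))⟩] .nil .nil .nil .nil .nil .nil) .nil .nil) (.node [⟨.x, .z, (B N N (K (.ofNat 1445488244)) (K (.negSucc 46622027)))⟩,
  ⟨.x, T2, (K (.negSucc 331314455))⟩,
  ⟨.z, T0, (K (.ofNat 1271709424))⟩] .nil .nil (.node [⟨.x, .z, (K (.negSucc 1572160497))⟩] .nil .nil .nil .nil .nil .nil) (.node [⟨.x, .z, (K (.ofNat 383931634))⟩] .nil .nil .nil .nil .nil .nil) .nil .nil) (.node [⟨.x, .z, (B (K (.ofNat 339908896)) (K (.ofNat 2224698144)) N N)⟩,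
  ⟨.x, T0, (K (.ofNat 1704731598))⟩,
  ⟨.x, T1, (K (.negSucc 402080351))⟩] (.node [⟨.x, .z, (K (.negSucc 404795147))⟩] .nil .nil .nil .nil .nil .nil) (.node [⟨.x, .z, (K (.negSucc 1857174195))⟩] .nil .nil .nil .nil .nil .nil) .nil .nil .nil .nil) (.node [⟨.x, .z, (B (K (.negSucc 2385163509)) (K (.negSucc 2057621659)) N N)⟩,
  ⟨.x, T0, (K (.negSucc 278125331))⟩,
  ⟨.x, T1, (K (.ofNat 1783232496))⟩] (.node [⟨.x, .z, (K (.ofNat 2012608828))⟩] .nil .nil .nil .nil .nil .nil) (.node [⟨.x, .z, (K (.negSucc 365153643))⟩] .nil .nil .nil .nil .nil .nil) .nil .nil .nil .nil) .nil .nil)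

def c_101 : Cert := (.node [⟨.x, .z, (B (A2 (K (.ofNat 184569826))) (B N N (K (.ofNat 195635916)) (K (.ofNat 569900842))) (B (K (.negSucc 1293884393)) (K (.ofNat 367836880)) N N) (B (K (.negSucc 189826407)) (K (.negSucc 32460029)) N N))⟩,
  ⟨.x, T0, (B N N (K (.negSucc 141634501)) (K (.ofNat 549184750)))⟩,
  ⟨.x, T1, (B N N (K (.negSucc 203566645)) (K (.ofNat 23410400)))⟩,
  ⟨.x, T2, (B (K (.negSucc 187856311)) (K (.negSucc 3967919)) N N)⟩,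
  ⟨.z, T0, (A0 (K (.negSucc 1436760779)))⟩,
  ⟨.x, T6, (K (.ofNat 46938204))⟩,
  ⟨.x, T10, (K (.negSucc 26870517))⟩,
  ⟨.x, T12, (K (.negSucc 222601))⟩,
  ⟨.x, T13, (K (.ofNat 50160280))⟩,
  ⟨.z, T8, (K (.ofNat 26825896))⟩,
  ⟨.z, T9, (K (.negSucc 13325803))⟩] (.node [⟨.x, .z, (B N N (K (.negSucc 169341593)) (K (.negSucc 496000241)))⟩,
  ⟨.x, T2, (K (.negSucc 659007607))⟩,
  ⟨.z, T0, (K (.negSucc 765394317))⟩] .nil .nil (.node [⟨.x, .z, (K (.ofNat 285414770))⟩] .nil .nil .nil .nil .nil .nil) (.node [⟨.x, .z, (K (.ofNat 1116162678))⟩] .nil .nil .nil .nil .nil .nil) .nil .nil) (.node [⟨.x, .z, (B N N (K (.ofNat 172837164)) (K (.negSucc 127956235)))⟩,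
  ⟨.x, T2, (K (.negSucc 268017239))⟩,
  ⟨.z, T0, (K (.negSucc 126660743))⟩] .nil .nil (.node [⟨.x, .z, (K (.negSucc 190199299))⟩] .nil .nil .nil .nil .nil .nil) (.node [⟨.x, .z, (K (.negSucc 103953537))⟩] .nil .nil .nil .nil .nil .nil) .nil .nil) (.node [⟨.x, .z, (B (K (.ofNat 675390880)) (K (.ofNat 1776475804)) N N)⟩,
  ⟨.x, T0, (K (.ofNat 1295211926))⟩,
  ⟨.x, T1, (K (.ofNat 755932898))⟩] (.node [⟨.x, .z, (K (.ofNat 546496480))⟩] .nil .nil .nil .nil .nil .nil) (.node [⟨.x, .z, (K (.negSucc 812142567))⟩] .nil .nil .nil .nil .nil .nil) .nil .nil .nil .nil) (.node [⟨.x, .z, (B (K (.negSucc 77305859)) (K (.negSucc 636647941)) N N)⟩,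
  ⟨.x, T0, (K (.ofNat 263863050))⟩,
  ⟨.x, T1, (K (.ofNat 692105430))⟩] (.node [⟨.x, .z, (K (.ofNat 452791240))⟩] .nil .nil .nil .nil .nil .nil) (.node [⟨.x, .z, (K (.negSucc 75221625))⟩] .nil .nil .nil .nil .nil .nil) .nil .nil .nil .nil) .nil .nil)

def c_10 : Cert := (.node [⟨.x, .z, (B (B (A2 (K (.negSucc 154716019))) N (B (K (.ofNat 1466646782)) (K (.ofNat 803789652)) N N) N) (B (A2 (K (.negSucc 507849797))) (B N N (K (.ofNat 156614920)) (K (.negSucc 288179323))) (B (K (.ofNat 4831208)) (K (.ofNat 743943652)) N N) (B (K (.negSucc 1103469609)) (K (.negSucc 1492044073)) N N)) (B (B (K (.negSucc 1180066899)) (K (.negSucc 661170023)) N N) (B (K (.ofNat 514212718)) (K (.ofNat 363617278)) N N) N N) (B (B (K (.negSucc 156043097)) (K (.negSucc 1532193401)) N N) (B (K (.ofNat 855459976)) (K (.ofNat 450751074)) N N) N N))⟩,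
  ⟨.x, T0, (B (A2 (K (.negSucc 305875999))) (B N N (K (.ofNat 293253124)) (K (.negSucc 592014643))) (B (K (.ofNat 80046136)) (K (.negSucc 507843141)) N N) (B (K (.negSucc 1397118919)) (K (.negSucc 1364001289)) N N))⟩,
  ⟨.x, T1, (B (A2 (K (.negSucc 393227511))) (B N N (K (.negSucc 932192459)) (K (.negSucc 866011405))) (B (K (.negSucc 1335444037)) (K (.negSucc 1985771757)) N N) (B (K (.negSucc 264613001)) (K (.ofNat 131063454)) N N))⟩,
  ⟨.x, T2, (B (B (K (.negSucc 846506253)) (K (.negSucc 2119251779)) N N) (B (K (.ofNat 27531718)) (K (.ofNat 95900046)) N N) N N)⟩,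
  ⟨.z, T0, (A0 (B (K (.negSucc 1748362727)) (K (.negSucc 3155874933)) N N))⟩,
  ⟨.x, T5, (B N N (K (.ofNat 187567616)) (K (.negSucc 255400091)))⟩,
  ⟨.x, T6, (A1 (K (.negSucc 115863527)))⟩,
  ⟨.x, T8, (B N N (K (.ofNat 68296344)) (K (.negSucc 203470487)))⟩,
  ⟨.x, T9, (B N N (K (.ofNat 213236968)) (K (.ofNat 335654714)))⟩,
  ⟨.x, T10, (B (K (.ofNat 172715540)) (K (.ofNat 312574338)) N N)⟩,
  ⟨.x, T11, (A3 (K (.negSucc 528489623)))⟩,
  ⟨.x, T12, (B (K (.negSucc 12223865)) (K (.ofNat 8400234)) N N)⟩,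
  ⟨.x, T13, (B (K (.negSucc 62228501)) (K (.negSucc 137907521)) N N)⟩,
  ⟨.z, T8, (A0 (K (.negSucc 108034559)))⟩,
  ⟨.z, T9, (A0 (K (.ofNat 8756694)))⟩,
  ⟨.x, T31, (K (.ofNat 2476656))⟩,
  ⟨.x, T19, (K (.ofNat 37427532))⟩,
  ⟨.x, T21, (K (.ofNat 20707344))⟩,
  ⟨.x, T22, (K (.negSucc 17691155))⟩,
  ⟨.x, T41, (K (.negSucc 18357443))⟩,
  ⟨.x, T25, (K (.ofNat 10503612))⟩,
  ⟨.x, T26, (K (.negSucc 16934903))⟩,
  ⟨.z, T17, (K (.negSucc 264347))⟩] c_100 c_101 (.node [⟨.x, .z, (B (B (K (.ofNat 606866610)) (K (.negSucc 980817579)) N N) (B (K (.negSucc 1409645127)) (K (.negSucc 2017580049)) N N) N N)⟩,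
  ⟨.x, T0, (B (K (.negSucc 1687744903)) (K (.negSucc 961433275)) N N)⟩,
  ⟨.x, T1, (B (K (.ofNat 163473228)) (K (.ofNat 1572536152)) N N)⟩,
  ⟨.x, T5, (K (.negSucc 392154863))⟩,
  ⟨.x, T8, (K (.ofNat 390580756))⟩,
  ⟨.x, T9, (K (.negSucc 1083143025))⟩,
  ⟨.x, T11, (K (.ofNat 452064096))⟩] (.node [⟨.x, .z, (B (K (.negSucc 314200661)) (K (.negSucc 988610285)) N N)⟩,
  ⟨.x, T0, (K (.negSucc 461457179))⟩,
  ⟨.x, T1, (K (.ofNat 531360552))⟩] (.node [⟨.x, .z, (K (.ofNat 82344648))⟩] .nil .nil .nil .nil .nil .nil) (.node [⟨.x, .z, (K (.negSucc 1126089659))⟩] .nil .nil .nil .nil .nil .nil) .nil .nil .nil .nil) (.node [⟨.x, .z, (B (K (.ofNat 672517892)) (K (.ofNat 1010787620)) N N)⟩,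
  ⟨.x, T0, (K (.ofNat 76622434))⟩,
  ⟨.x, T1, (K (.ofNat 778977116))⟩] (.node [⟨.x, .z, (K (.negSucc 1021212397))⟩] .nil .nil .nil .nil .nil .nil) (.node [⟨.x, .z, (K (.negSucc 1002276337))⟩] .nil .nil .nil .nil .nil .nil) .nil .nil .nil .nil) .nil .nil .nil .nil) (.node [⟨.x, .z, (B (B (K (.ofNat 270570046)) (K (.ofNat 4150983252)) N N) (B (K (.negSucc 2780171809)) (K (.negSucc 699464123)) N N) N N)⟩,
  ⟨.x, T0, (B (K (.negSucc 3969558193)) (K (.negSucc 2598268105)) N N)⟩,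
  ⟨.x, T1, (B (K (.negSucc 2021578033)) (K (.negSucc 3610390655)) N N)⟩,
  ⟨.x, T5, (K (.negSucc 1055084275))⟩,
  ⟨.x, T8, (K (.ofNat 1156126728))⟩,
  ⟨.x, T9, (K (.ofNat 1386962024))⟩,
  ⟨.x, T11, (K (.negSucc 1075917455))⟩] (.node [⟨.x, .z, (B (K (.negSucc 839988509)) (K (.negSucc 3974162985)) N N)⟩,
  ⟨.x, T0, (K (.negSucc 3009911413))⟩,
  ⟨.x, T1, (K (.negSucc 362874601))⟩] (.node [⟨.x, .z, (K (.ofNat 258892222))⟩] .nil .nil .nil .nil .nil .nil) (.node [⟨.x, .z, (K (.ofNat 333627162))⟩] .nil .nil .nil .nil .nil .nil) .nil .nil .nil .nil) (.node [⟨.x, .z, (B (K (.ofNat 1557727702)) (K (.negSucc 2491742337)) N N)⟩,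
  ⟨.x, T0, (K (.negSucc 2520552931))⟩,
  ⟨.x, T1, (K (.negSucc 1161408451))⟩] (.node [⟨.x, .z, (K (.ofNat 558718296))⟩] .nil .nil .nil .nil .nil .nil) (.node [⟨.x, .z, (K (.ofNat 849008352))⟩] .nil .nil .nil .nil .nil .nil) .nil .nil .nil .nil) .nil .nil .nil .nil) .nil .nil)

def c_110 : Cert := (.node [⟨.x, .z, (B (A2 (K (.negSucc 2587482749))) (B N N (K (.ofNat 239918068)) (K (.ofNat 2131299672))) (B (K (.ofNat 1653986384)) (K (.ofNat 1485806044)) N N) (B (K (.negSucc 1437126625)) (K (.negSucc 1087408405)) N N))⟩,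
  ⟨.x, T0, (B N N (K (.negSucc 259352355)) (K (.ofNat 2122389286)))⟩,
  ⟨.x, T1, (B N N (K (.ofNat 2134341396)) (K (.ofNat 33151436)))⟩,
  ⟨.x, T2, (B (K (.negSucc 1829733379)) (K (.negSucc 2066522251)) N N)⟩,
  ⟨.z, T0, (A0 (K (.ofNat 1066479086)))⟩,
  ⟨.x, T6, (K (.negSucc 44805383))⟩,
  ⟨.x, T10, (K (.ofNat 1014569582))⟩,
  ⟨.x, T12, (K (.negSucc 230607703))⟩,
  ⟨.x, T13, (K (.ofNat 17473888))⟩,
  ⟨.z, T8, (K (.negSucc 184451725))⟩,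
  ⟨.z, T9, (K (.ofNat 89775682))⟩] (.node [⟨.x, .z, (B N N (K (.negSucc 356781193)) (K (.negSucc 3176736383)))⟩,
  ⟨.x, T2, (K (.negSucc 3171193457))⟩,
  ⟨.z, T0, (K (.negSucc 3029265175))⟩] .nil .nil (.node [⟨.x, .z, (K (.ofNat 49739802))⟩] .nil .nil .nil .nil .nil .nil) (.node [⟨.x, .z, (K (.ofNat 4310438930))⟩] .nil .nil .nil .nil .nil .nil) .nil .nil) (.node [⟨.x, .z, (B N N (K (.ofNat 4022247612)) (K (.negSucc 77029135)))⟩,
  ⟨.x, T2, (K (.negSucc 155952037))⟩,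
  ⟨.z, T0, (K (.ofNat 3734999990))⟩] .nil .nil (.node [⟨.x, .z, (K (.negSucc 668275559))⟩] .nil .nil .nil .nil .nil .nil) (.node [⟨.x, .z, (K (.ofNat 1078791706))⟩] .nil .nil .nil .nil .nil .nil) .nil .nil) (.node [⟨.x, .z, (B (K (.negSucc 106854027)) (K (.ofNat 3791374084)) N N)⟩,
  ⟨.x, T0, (K (.ofNat 3109242990))⟩,
  ⟨.x, T1, (K (.ofNat 125886118))⟩] (.node [⟨.x, .z, (K (.ofNat 149501242))⟩] .nil .nil .nil .nil .nil .nil) (.node [⟨.x, .z, (K (.negSucc 3054350705))⟩] .nil .nil .nil .nil .nil .nil) .nil .nil .nil .nil) (.node [⟨.x, .z, (B (K (.ofNat 703055218)) (K (.negSucc 134735181)) N N)⟩,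
  ⟨.x, T0, (K (.ofNat 2133817704))⟩,
  ⟨.x, T1, (K (.ofNat 2165434902))⟩] (.node [⟨.x, .z, (K (.ofNat 1235577860))⟩] .nil .nil .nil .nil .nil .nil) (.node [⟨.x, .z, (K (.negSucc 1383020885))⟩] .nil .nil .nil .nil .nil .nil) .nil .nil .nil .nil) .nil .nil)

def c_111 : Cert := (.node [⟨.x, .z, (B (A2 (K (.ofNat 1194478822))) (B N N (K (.ofNat 685325536)) (K (.negSucc 478365101))) (B (K (.ofNat 115721322)) (K (.ofNat 325372114)) N N) (B (K (.negSucc 318614135)) (K (.ofNat 450143858)) N N))⟩,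
  ⟨.x, T0, (B N N (K (.ofNat 306777024)) (K (.negSucc 826562617)))⟩,
  ⟨.x, T1, (B N N (K (.negSucc 652233193)) (K (.negSucc 961377643)))⟩,
  ⟨.x, T2, (B (K (.ofNat 137715884)) (K (.ofNat 371589574)) N N)⟩,
  ⟨.z, T0, (A0 (K (.ofNat 261620242)))⟩,
  ⟨.x, T6, (K (.ofNat 71496540))⟩,
  ⟨.x, T10, (K (.negSucc 205982821))⟩,
  ⟨.x, T12, (K (.negSucc 150582465))⟩,
  ⟨.x, T13, (K (.ofNat 242771168))⟩,
  ⟨.z, T8, (K (.ofNat 224816060))⟩,
  ⟨.z, T9, (K (.negSucc 76307049))⟩] (.node [⟨.x, .z, (B N N (K (.ofNat 1089697362)) (K (.ofNat 434066978)))⟩,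
  ⟨.x, T2, (K (.ofNat 639327598))⟩,
  ⟨.z, T0, (K (.ofNat 1277741172))⟩] .nil .nil (.node [⟨.x, .z, (K (.ofNat 1763227790))⟩] .nil .nil .nil .nil .nil .nil) (.node [⟨.x, .z, (K (.ofNat 1604008900))⟩] .nil .nil .nil .nil .nil .nil) .nil .nil) (.node [⟨.x, .z, (B N N (K (.ofNat 428368528)) (K (.negSucc 389817643)))⟩,
  ⟨.x, T2, (K (.ofNat 196729004))⟩,
  ⟨.z, T0, (K (.ofNat 175671642))⟩] .nil .nil (.node [⟨.x, .z, (K (.ofNat 1871183932))⟩] .nil .nil .nil .nil .nil .nil) (.node [⟨.x, .z, (K (.ofNat 219973358))⟩] .nil .nil .nil .nil .nil .nil) .nil .nil) (.node [⟨.x, .z, (B (K (.negSucc 3870701251)) (K (.negSucc 1096080389)) N N)⟩,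
  ⟨.x, T0, (K (.negSucc 1573752971))⟩,
  ⟨.x, T1, (K (.ofNat 1521494254))⟩] (.node [⟨.x, .z, (K (.ofNat 1460712134))⟩] .nil .nil .nil .nil .nil .nil) (.node [⟨.x, .z, (K (.ofNat 1564581270))⟩] .nil .nil .nil .nil .nil .nil) .nil .nil .nil .nil) (.node [⟨.x, .z, (B (K (.ofNat 745933636)) (K (.negSucc 119534555)) N N)⟩,
  ⟨.x, T0, (K (.negSucc 196024807))⟩,
  ⟨.x, T1, (K (.negSucc 822520983))⟩] (.node [⟨.x, .z, (K (.ofNat 1767490))⟩] .nil .nil .nil .nil .nil .nil) (.node [⟨.x, .z, (K (.negSucc 156662659))⟩] .nil .nil .nil .nil .nil .nil) .nil .nil .nil .nil) .nil .nil)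

def c_11 : Cert := (.node [⟨.x, .z, (B (B (A2 (K (.negSucc 21138247))) N (B (K (.negSucc 460877977)) (K (.negSucc 388936695)) N N) N) (B (A2 (K (.ofNat 1995354704))) (B N N (K (.negSucc 403563043)) (K (.ofNat 776523272))) (B (K (.negSucc 669402957)) (K (.ofNat 912112114)) N N) (B (K (.ofNat 2968351490)) (K (.negSucc 1027656063)) N N)) (B (B (K (.ofNat 1958887654)) (K (.ofNat 2246415854)) N N) (B (K (.ofNat 1322971952)) (K (.ofNat 88506634)) N N) N N) (B (B (K (.negSucc 491569523)) (K (.negSucc 672412591)) N N) (B (K (.negSucc 2117410011)) (K (.ofNat 187766788)) N N) N N))⟩,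
  ⟨.x, T0, (B (A2 (K (.ofNat 331703352))) (B N N (K (.negSucc 1764855061)) (K (.negSucc 432633255))) (B (K (.ofNat 14851924)) (K (.negSucc 1609518375)) N N) (B (K (.ofNat 2806999040)) (K (.negSucc 1223660899)) N N))⟩,
  ⟨.x, T1, (B (A2 (K (.ofNat 31970972))) (B N N (K (.negSucc 1278531009)) (K (.negSucc 1927069071))) (B (K (.ofNat 396587400)) (K (.negSucc 2483615121)) N N) (B (K (.ofNat 627253728)) (K (.ofNat 364628280)) N N))⟩,
  ⟨.x, T2, (B (B (K (.negSucc 256431431)) (K (.ofNat 132959808)) N N) (B (K (.negSucc 1072561729)) (K (.ofNat 462570826)) N N) N N)⟩,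
  ⟨.z, T0, (A0 (B (K (.ofNat 1700213840)) (K (.ofNat 974504720)) N N))⟩,
  ⟨.x, T5, (B N N (K (.ofNat 363880602)) (K (.negSucc 467735147)))⟩,
  ⟨.x, T6, (A1 (K (.negSucc 232006799)))⟩,
  ⟨.x, T8, (B N N (K (.negSucc 435131207)) (K (.ofNat 716005972)))⟩,
  ⟨.x, T9, (B N N (K (.ofNat 374100084)) (K (.ofNat 921126880)))⟩,
  ⟨.x, T10, (B (K (.ofNat 68521584)) (K (.negSucc 460136783)) N N)⟩,
  ⟨.x, T11, (A3 (K (.negSucc 1040637551)))⟩,
  ⟨.x, T12, (B (K (.ofNat 78540186)) (K (.ofNat 281065098)) N N)⟩,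
  ⟨.x, T13, (B (K (.negSucc 117820595)) (K (.negSucc 423564653)) N N)⟩,
  ⟨.z, T8, (A0 (K (.negSucc 79001381)))⟩,
  ⟨.z, T9, (A0 (K (.ofNat 58697262)))⟩,
  ⟨.x, T31, (K (.ofNat 31130568))⟩,
  ⟨.x, T19, (K (.ofNat 17301438))⟩,
  ⟨.x, T21, (K (.ofNat 93208374))⟩,
  ⟨.x, T22, (K (.negSucc 61538525))⟩,
  ⟨.x, T41, (K (.ofNat 13966848))⟩,
  ⟨.x, T25, (K (.negSucc 67196303))⟩,
  ⟨.x, T26, (K (.ofNat 35113428))⟩,
  ⟨.z, T17, (K (.negSucc 22818599))⟩] c_110 c_111 (.node [⟨.x, .z, (B (B (K (.ofNat 1388877706)) (K (.negSucc 4308691485)) N N) (B (K (.ofNat 3301356540)) (K (.negSucc 1056143765)) N N) N N)⟩,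
  ⟨.x, T0, (B (K (.ofNat 4038344760)) (K (.ofNat 1479364808)) N N)⟩,
  ⟨.x, T1, (B (K (.ofNat 421174970)) (K (.ofNat 4176294838)) N N)⟩,
  ⟨.x, T5, (K (.ofNat 245733448))⟩,
  ⟨.x, T8, (K (.negSucc 426338901))⟩,
  ⟨.x, T9, (K (.negSucc 2864323893))⟩,
  ⟨.x, T11, (K (.ofNat 1482654860))⟩] (.node [⟨.x, .z, (B (K (.negSucc 8433415)) (K (.negSucc 300808951)) N N)⟩,
  ⟨.x, T0, (K (.ofNat 946281408))⟩,
  ⟨.x, T1, (K (.ofNat 669555032))⟩] (.node [⟨.x, .z, (K (.negSucc 744095171))⟩] .nil .nil .nil .nil .nil .nil) (.node [⟨.x, .z, (K (.negSucc 3545528441))⟩] .nil .nil .nil .nil .nil .nil) .nil .nil .nil .nil) (.node [⟨.x, .z, (B (K (.negSucc 5862376681)) (K (.ofNat 2298252406)) N N)⟩,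
  ⟨.x, T0, (K (.ofNat 41014632))⟩,
  ⟨.x, T1, (K (.ofNat 2376321060))⟩] (.node [⟨.x, .z, (K (.negSucc 2395731761))⟩] .nil .nil .nil .nil .nil .nil) (.node [⟨.x, .z, (K (.negSucc 2342923193))⟩] .nil .nil .nil .nil .nil .nil) .nil .nil .nil .nil) .nil .nil .nil .nil) (.node [⟨.x, .z, (B (B (K (.negSucc 794054023)) (K (.negSucc 341892701)) N N) (B (K (.ofNat 60937360)) (K (.negSucc 100130057)) N N) N N)⟩,
  ⟨.x, T0, (B (K (.ofNat 482125812)) (K (.negSucc 147881775)) N N)⟩,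
  ⟨.x, T1, (B (K (.ofNat 1155168406)) (K (.ofNat 476375120)) N N)⟩,
  ⟨.x, T5, (K (.negSucc 163073725))⟩,
  ⟨.x, T8, (K (.ofNat 108864368))⟩,
  ⟨.x, T9, (K (.negSucc 684894807))⟩,
  ⟨.x, T11, (K (.ofNat 545785904))⟩] (.node [⟨.x, .z, (B (K (.ofNat 3074736814)) (K (.ofNat 1025277048)) N N)⟩,
  ⟨.x, T0, (K (.ofNat 1313361540))⟩,
  ⟨.x, T1, (K (.negSucc 1240748983))⟩] (.node [⟨.x, .z, (K (.negSucc 2772646695))⟩] .nil .nil .nil .nil .nil .nil) (.node [⟨.x, .z, (K (.negSucc 3401629403))⟩] .nil .nil .nil .nil .nil .nil) .nil .nil .nil .nil) (.node [⟨.x, .z, (B (K (.negSucc 835544731)) (K (.negSucc 50053377)) N N)⟩,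
  ⟨.x, T0, (K (.negSucc 44376433))⟩,
  ⟨.x, T1, (K (.ofNat 801608040))⟩] (.node [⟨.x, .z, (K (.negSucc 1896308387))⟩] .nil .nil .nil .nil .nil .nil) (.node [⟨.x, .z, (K (.negSucc 189290167))⟩] .nil .nil .nil .nil .nil .nil) .nil .nil .nil .nil) .nil .nil .nil .nil) .nil .nil)

def c_12 : Cert := (.node [⟨.x, .z, (B (B (B (K (.negSucc 3575554179)) (K (.negSucc 424256671)) N N) (B (K (.negSucc 2581917814)) (K (.ofNat 3467405771)) N N) N N) (B (B (K (.negSucc 2315788587)) (K (.ofNat 2286392504)) N N) (B (K (.ofNat 3205946756)) (K (.ofNat 1502257982)) N N) N N) N N)⟩,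
  ⟨.x, T0, (B (B (K (.ofNat 1128224228)) (K (.ofNat 2816465251)) N N) (B (K (.ofNat 4631746890)) (K (.ofNat 2706320966)) N N) N N)⟩,
  ⟨.x, T1, (B (B (K (.ofNat 697979174)) (K (.ofNat 330461141)) N N) (B (K (.ofNat 1240007435)) (K (.negSucc 1078265642)) N N) N N)⟩,
  ⟨.x, T4, (B N N (K (.ofNat 119189359)) (K (.ofNat 835652005)))⟩,
  ⟨.x, T5, (A1 (K (.ofNat 20683164)))⟩,
  ⟨.x, T7, (B N N (K (.ofNat 412031295)) (K (.negSucc 51297892)))⟩,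
  ⟨.x, T8, (B (K (.ofNat 370761590)) (K (.negSucc 1245335251)) N N)⟩,
  ⟨.x, T9, (B (K (.negSucc 207760920)) (K (.ofNat 2446187497)) N N)⟩,
  ⟨.x, T11, (A1 (K (.negSucc 42718980)))⟩,
  ⟨.x, T15, (K (.negSucc 913946561))⟩,
  ⟨.x, T17, (K (.negSucc 280544279))⟩,
  ⟨.x, T18, (K (.ofNat 784252068))⟩,
  ⟨.x, T20, (K (.negSucc 391403722))⟩,
  ⟨.x, T23, (K (.ofNat 666386262))⟩,
  ⟨.x, T24, (K (.ofNat 531135272))⟩] (.node [⟨.x, .z, (B (B (K (.ofNat 1067362830)) (K (.negSucc 792799359)) N N) (B (K (.negSucc 1031894215)) (K (.negSucc 844291991)) N N) N N)⟩,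
  ⟨.x, T0, (B (K (.ofNat 601560450)) (K (.negSucc 729911241)) N N)⟩,
  ⟨.x, T1, (B (K (.ofNat 786080662)) (K (.ofNat 205263112)) N N)⟩,
  ⟨.x, T5, (K (.negSucc 1036057839))⟩,
  ⟨.x, T8, (K (.negSucc 107501949))⟩,
  ⟨.x, T9, (K (.negSucc 953642835))⟩,
  ⟨.x, T11, (K (.negSucc 1334822165))⟩] (.node [⟨.x, .z, (B (K (.ofNat 553504888)) (K (.negSucc 435044399)) N N)⟩,
  ⟨.x, T0, (K (.negSucc 1644312963))⟩,
  ⟨.x, T1, (K (.negSucc 2155180209))⟩] (.node [⟨.x, .z, (K (.ofNat 369876406))⟩] .nil .nil .nil .nil .nil .nil) (.node [⟨.x, .z, (K (.negSucc 1031638697))⟩] .nil .nil .nil .nil .nil .nil) .nil .nil .nil .nil) (.node [⟨.x, .z, (B (K (.negSucc 1640935364)) (K (.ofNat 1093298454)) N N)⟩,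
  ⟨.x, T0, (K (.negSucc 2197892925))⟩,
  ⟨.x, T1, (K (.negSucc 1712185298))⟩] (.node [⟨.x, .z, (K (.negSucc 391583425))⟩] .nil .nil .nil .nil .nil .nil) (.node [⟨.x, .z, (K (.negSucc 43431083))⟩] .nil .nil .nil .nil .nil .nil) .nil .nil .nil .nil) .nil .nil .nil .nil) (.node [⟨.x, .z, (B (B (K (.ofNat 1786273781)) (K (.negSucc 638444170)) N N) (B (K (.ofNat 3702181538)) (K (.negSucc 3297668013)) N N) N N)⟩,
  ⟨.x, T0, (B (K (.ofNat 3955096500)) (K (.ofNat 225462236)) N N)⟩,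
  ⟨.x, T1, (B (K (.ofNat 420501783)) (K (.ofNat 509222299)) N N)⟩,
  ⟨.x, T5, (K (.ofNat 605592880))⟩,
  ⟨.x, T8, (K (.negSucc 1149242249))⟩,
  ⟨.x, T9, (K (.negSucc 861242423))⟩,
  ⟨.x, T11, (K (.negSucc 153809243))⟩] (.node [⟨.x, .z, (B (K (.negSucc 1291839220)) (K (.ofNat 3216825560)) N N)⟩,
  ⟨.x, T0, (K (.ofNat 423615858))⟩,
  ⟨.x, T1, (K (.negSucc 1817647428))⟩] (.node [⟨.x, .z, (K (.ofNat 592597838))⟩] .nil .nil .nil .nil .nil .nil) (.node [⟨.x, .z, (K (.ofNat 1249993252))⟩] .nil .nil .nil .nil .nil .nil) .nil .nil .nil .nil) (.node [⟨.x, .z, (B (K (.negSucc 2301799614)) (K (.ofNat 2150504750)) N N)⟩,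
  ⟨.x, T0, (K (.negSucc 231583233))⟩,
  ⟨.x, T1, (K (.ofNat 193078243))⟩] (.node [⟨.x, .z, (K (.ofNat 1087125544))⟩] .nil .nil .nil .nil .nil .nil) (.node [⟨.x, .z, (K (.ofNat 448285882))⟩] .nil .nil .nil .nil .nil .nil) .nil .nil .nil .nil) .nil .nil .nil .nil) (.node [⟨.x, T4, (K (.ofNat 605816869))⟩,
  ⟨.x, T7, (K (.ofNat 1011615726))⟩] .nil .nil .nil .nil .nil .nil) (.node [⟨.x, T4, (K (.ofNat 565410125))⟩,
  ⟨.x, T7, (K (.ofNat 1264708209))⟩] .nil .nil .nil .nil .nil .nil) .nil .nil)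

def c_13 : Cert := (.node [⟨.x, .z, (B (B (B (K (.negSucc 521038427)) (K (.negSucc 1881266131)) N N) (B (K (.negSucc 1112615255)) (K (.negSucc 1483271943)) N N) N N) (B (B (K (.negSucc 11762459)) (K (.negSucc 80836015)) N N) (B (K (.negSucc 1208923)) (K (.negSucc 72141803)) N N) N N) N N)⟩,
  ⟨.x, T0, (B (B (K (.ofNat 157274838)) (K (.ofNat 765634018)) N N) (B (K (.ofNat 151081510)) (K (.ofNat 186485074)) N N) N N)⟩,
  ⟨.x, T1, (B (B (K (.ofNat 498500436)) (K (.ofNat 2569446924)) N N) (B (K (.ofNat 1266755686)) (K (.ofNat 1489712136)) N N) N N)⟩,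
  ⟨.x, T4, (B N N (K (.negSucc 174959667)) (K (.ofNat 219731212)))⟩,
  ⟨.x, T5, (A1 (K (.ofNat 163627580)))⟩,
  ⟨.x, T7, (B N N (K (.ofNat 18259290)) (K (.negSucc 27874907)))⟩,
  ⟨.x, T8, (B (K (.ofNat 1274490)) (K (.negSucc 72483505)) N N)⟩,
  ⟨.x, T9, (B (K (.ofNat 11366964)) (K (.negSucc 500985163)) N N)⟩,
  ⟨.x, T11, (A1 (K (.ofNat 586779878)))⟩,
  ⟨.x, T15, (K (.negSucc 21985991))⟩,
  ⟨.x, T17, (K (.ofNat 2624328))⟩,
  ⟨.x, T18, (K (.ofNat 9604728))⟩,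
  ⟨.x, T20, (K (.negSucc 12764933))⟩,
  ⟨.x, T23, (K (.ofNat 4645368))⟩,
  ⟨.x, T24, (K (.ofNat 12009564))⟩] (.node [⟨.x, .z, (B (B (K (.negSucc 940327023)) (K (.ofNat 3309327614)) N N) (B (K (.negSucc 2538166905)) (K (.negSucc 381324811)) N N) N N)⟩,
  ⟨.x, T0, (B (K (.negSucc 3203909229)) (K (.negSucc 1585888281)) N N)⟩,
  ⟨.x, T1, (B (K (.negSucc 76241847)) (K (.negSucc 2274363421)) N N)⟩,
  ⟨.x, T5, (K (.negSucc 594142259))⟩,
  ⟨.x, T8, (K (.ofNat 641684050))⟩,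
  ⟨.x, T9, (K (.ofNat 1524436542))⟩,
  ⟨.x, T11, (K (.negSucc 958656587))⟩] (.node [⟨.x, .z, (B (K (.ofNat 371690044)) (K (.negSucc 1544061275)) N N)⟩,
  ⟨.x, T0, (K (.negSucc 1575676923))⟩,
  ⟨.x, T1, (K (.negSucc 415237663))⟩] (.node [⟨.x, .z, (K (.ofNat 528740680))⟩] .nil .nil .nil .nil .nil .nil) (.node [⟨.x, .z, (K (.ofNat 1349735894))⟩] .nil .nil .nil .nil .nil .nil) .nil .nil .nil .nil) (.node [⟨.x, .z, (B (K (.ofNat 2045152280)) (K (.negSucc 2823698583)) N N)⟩,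
  ⟨.x, T0, (K (.negSucc 2342508763))⟩,
  ⟨.x, T1, (K (.negSucc 1315721725))⟩] (.node [⟨.x, .z, (K (.ofNat 899444130))⟩] .nil .nil .nil .nil .nil .nil) (.node [⟨.x, .z, (K (.ofNat 1346414186))⟩] .nil .nil .nil .nil .nil .nil) .nil .nil .nil .nil) .nil .nil .nil .nil) (.node [⟨.x, .z, (B (B (K (.negSucc 8068277)) (K (.negSucc 453523975)) N N) (B (K (.negSucc 9976245)) (K (.ofNat 59318476)) N N) N N)⟩,
  ⟨.x, T0, (B (K (.ofNat 44681150)) (K (.ofNat 104539734)) N N)⟩,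
  ⟨.x, T1, (B (K (.ofNat 253679700)) (K (.ofNat 505090952)) N N)⟩,
  ⟨.x, T5, (K (.negSucc 53310561))⟩,
  ⟨.x, T8, (K (.ofNat 21545962))⟩,
  ⟨.x, T9, (K (.negSucc 87718389))⟩,
  ⟨.x, T11, (K (.ofNat 18745020))⟩] (.node [⟨.x, .z, (B (K (.ofNat 503627026)) (K (.negSucc 1186585029)) N N)⟩,
  ⟨.x, T0, (K (.negSucc 683782891))⟩,
  ⟨.x, T1, (K (.negSucc 202272093))⟩] (.node [⟨.x, .z, (K (.negSucc 254924703))⟩] .nil .nil .nil .nil .nil .nil) (.node [⟨.x, .z, (K (.ofNat 143424462))⟩] .nil .nil .nil .nil .nil .nil) .nil .nil .nil .nil) (.node [⟨.x, .z, (B (K (.negSucc 153761925)) (K (.ofNat 70094226)) N N)⟩,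
  ⟨.x, T0, (K (.negSucc 78721737))⟩,
  ⟨.x, T1, (K (.ofNat 83749938))⟩] (.node [⟨.x, .z, (K (.negSucc 28388745))⟩] .nil .nil .nil .nil .nil .nil) (.node [⟨.x, .z, (K (.negSucc 20745105))⟩] .nil .nil .nil .nil .nil .nil) .nil .nil .nil .nil) .nil .nil .nil .nil) (.node [⟨.x, T4, (K (.negSucc 35409120))⟩,
  ⟨.x, T7, (K (.negSucc 60428684))⟩] .nil .nil .nil .nil .nil .nil) (.node [⟨.x, T4, (K (.ofNat 75527028))⟩,
  ⟨.x, T7, (K (.ofNat 21222306))⟩] .nil .nil .nil .nil .nil .nil) .nil .nil)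

def c_1 : Cert := (.node [⟨.x, .z, (B (B (B (A2 (K (.ofNat 279121908))) N (A0 (K (.negSucc 217025477))) N) N (B (B (K (.negSucc 467520365)) (K (.negSucc 2718405099)) N N) (B (K (.negSucc 1298042991)) (K (.negSucc 1222608295)) N N) N N) N) (B (B (A2 (K (.ofNat 540917852))) N (B (K (.negSucc 700671763)) (K (.ofNat 249055896)) N N) N) (B (A2 (K (.negSucc 1190262687))) (B N N (K (.ofNat 144131736)) (K (.ofNat 397924112))) (B (K (.ofNat 2922064486)) (K (.negSucc 2732917555)) N N) (B (K (.negSucc 689913145)) (K (.ofNat 592628708)) N N)) (B (B (K (.ofNat 2439875142)) (K (.negSucc 108679619)) N N) (B (K (.negSucc 448691845)) (K (.negSucc 3352543635)) N N) N N) (B (B (K (.negSucc 282509477)) (K (.ofNat 5020093080)) N N) (B (K (.ofNat 3835788890)) (K (.ofNat 319018616)) N N) N N)) (B (B (B (K (.ofNat 1454294928)) (K (.ofNat 1800474874)) N N) (B (K (.negSucc 392859903)) (K (.ofNat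 410246820)) N N) N N) (B (B (K (.ofNat 1877421774)) (K (.ofNat 3488764702)) N N) (B (K (.ofNat 268279704)) (K (.ofNat 21162816)) N N) N N) N N) (B (B (B (K (.ofNat 433333016)) (K (.ofNat 586442596)) N N) (B (K (.ofNat 2126511578)) (K (.ofNat 1897173616)) N N) N N) (B (B (K (.ofNat 1328846002)) (K (.negSucc 332202363)) N N) (B (K (.negSucc 1052856695)) (K (.negSucc 678992015)) N N) N N) N N))⟩,
  ⟨.x, T0, (B (B (A2 (K (.ofNat 29953728))) N (B (K (.negSucc 67335859)) (K (.negSucc 228069011)) N N) N) (B (A2 (K (.negSucc 837929311))) (B N N (K (.negSucc 64074235)) (K (.ofNat 471893236))) (B (K (.ofNat 230683680)) (K (.negSucc 341527011)) N N) (B (K (.negSucc 279956377)) (K (.negSucc 102784971)) N N)) (B (B (K (.ofNat 26744468)) (K (.ofNat 274071310)) N N) (B (K (.ofNat 733895812)) (K (.negSucc 41162631)) N N) N N) (B (B (K (.ofNat 339044068)) (K (.ofNat 2849042020)) N N)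 (B (K (.ofNat 1328413944)) (K (.ofNat 523985060)) N N) N N))⟩,
  ⟨.x, T1, (B (B (A2 (K (.negSucc 269373287))) N (B (K (.ofNat 184660866)) (K (.negSucc 291180715)) N N) N) (B (A2 (K (.negSucc 430834191))) (B N N (K (.ofNat 1275498332)) (K (.negSucc 339598491))) (B (K (.negSucc 326294611)) (K (.negSucc 12112879)) N N) (B (K (.negSucc 243062799)) (K (.ofNat 294315808)) N N)) (B (B (K (.ofNat 349766396)) (K (.ofNat 2654250912)) N N) (B (K (.ofNat 1491838246)) (K (.ofNat 1235701160)) N N) N N) (B (B (K (.ofNat 638820516)) (K (.ofNat 194591392)) N N) (B (K (.ofNat 327759778)) (K (.ofNat 21345096)) N N) N N))⟩,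
  ⟨.x, T2, (B (B (B (K (.negSucc 123382595)) (K (.negSucc 29736937)) N N) (B (K (.negSucc 9378831)) (K (.ofNat 470877096)) N N) N N) (B (B (K (.negSucc 517154525)) (K (.negSucc 1785452549)) N N) (B (K (.negSucc 1185025417)) (K (.negSucc 279550795)) N N) N N) N N)⟩,
  ⟨.z, T0, (A0 (B (B (K (.ofNat 1315268928)) (K (.ofNat 2790863338)) N N) (B (K (.ofNat 1462193572)) (K (.ofNat 1158948260)) N N) N N))⟩,
  ⟨.x, T4, (B N N (B N N (K (.ofNat 89634158)) (K (.negSucc 246321277))) (B N N (K (.negSucc 74086965)) (K (.ofNat 117292008))))⟩,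
  ⟨.x, T5, (B N (B N N (K (.ofNat 257221660)) (K (.ofNat 16702308))) (B (K (.negSucc 43337269)) (K (.ofNat 236676176)) N N) (A1 (K (.negSucc 19021715))))⟩,
  ⟨.x, T6, (A1 (B (K (.ofNat 54239652)) (K (.negSucc 86403203)) N N))⟩,
  ⟨.x, T7, (B N N (B N N (K (.negSucc 10922309)) (K (.ofNat 30495770))) (B N N (K (.ofNat 314066330)) (K (.negSucc 604953851))))⟩,
  ⟨.x, T8, (B (A2 (K (.negSucc 10801475))) (B N N (K (.negSucc 393164175)) (K (.ofNat 150347704))) (B (K (.ofNat 24842864)) (K (.negSucc 264431687)) N N) (B (K (.negSucc 251100383)) (K (.ofNat 792171696)) N N))⟩,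
  ⟨.x, T9, (B (A2 (K (.ofNat 32342940))) (B N N (K (.negSucc 719773395)) (K (.ofNat 348396868))) (B (K (.negSucc 29153827)) (K (.ofNat 198185284)) N N) (B (K (.ofNat 225547036)) (K (.negSucc 310823823)) N N))⟩,
  ⟨.x, T10, (B (B (K (.ofNat 139532274)) (K (.negSucc 80789705)) N N) (B (K (.negSucc 74670817)) (K (.negSucc 380961255)) N N) N N)⟩,
  ⟨.x, T11, (B N (B N N (K (.ofNat 805761512)) (K (.ofNat 2261196))) N (A1 (K (.ofNat 5423544))))⟩,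
  ⟨.x, T12, (B (B (K (.ofNat 186079572)) (K (.negSucc 76947533)) N N) (B (K (.ofNat 239244402)) (K (.negSucc 158770199)) N N) N N)⟩,
  ⟨.x, T13, (B (B (K (.negSucc 155414195)) (K (.ofNat 71848440)) N N) (B (K (.negSucc 61558463)) (K (.negSucc 34742927)) N N) N N)⟩,
  ⟨.z, T8, (A0 (B (K (.negSucc 158623793)) (K (.ofNat 95119116)) N N))⟩,
  ⟨.x, T15, (A3 (K (.ofNat 14154588)))⟩,
  ⟨.x, T31, (A1 (K (.ofNat 11276496)))⟩,
  ⟨.x, T17, (B N N (K (.negSucc 1238327)) (K (.ofNat 13829736)))⟩,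
  ⟨.x, T18, (B N N (K (.ofNat 24358824)) (K (.negSucc 26329919)))⟩,
  ⟨.x, T19, (B (K (.negSucc 14368913)) (K (.negSucc 40751651)) N N)⟩,
  ⟨.x, T20, (A2 (K (.negSucc 11354867)))⟩,
  ⟨.x, T21, (A0 (K (.ofNat 43105230)))⟩,
  ⟨.x, T22, (A0 (K (.negSucc 238517)))⟩,
  ⟨.x, T23, (A3 (K (.ofNat 21771288)))⟩,
  ⟨.x, T24, (A3 (K (.ofNat 17515764)))⟩,
  ⟨.x, T25, (B (K (.negSucc 12133043)) (K (.ofNat 49576968)) N N)⟩,
  ⟨.x, T26, (A1 (K (.negSucc 19329407)))⟩,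
  ⟨.z, T17, (A0 (K (.negSucc 17081819)))⟩,
  ⟨.x, T32, (K (.ofNat 23082948))⟩,
  ⟨.x, T33, (K (.negSucc 14795675))⟩,
  ⟨.x, T34, (K (.negSucc 7301447))⟩,
  ⟨.x, T35, (K (.negSucc 15781499))⟩,
  ⟨.x, T36, (K (.negSucc 22097123))⟩,
  ⟨.x, T38, (K (.ofNat 7429968))⟩,
  ⟨.x, T39, (K (.negSucc 7301447))⟩,
  ⟨.x, T40, (K (.ofNat 22097124))⟩] c_10 c_11 c_12 c_13 .nil .nil)

def c_20 : Cert := (.node [⟨.x, .z, (B (B (B (K (.ofNat 36489432)) (K (.negSucc 82364975)) N N) (B (K (.negSucc 86302053)) (K (.negSucc 57900383)) N N) N N) (B (B (K (.ofNat 40010846)) (K (.negSucc 677844233)) N N) (B (K (.negSucc 772767807)) (K (.negSucc 459936491)) N N) N N) N N)⟩,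
  ⟨.x, T0, (B (B (K (.ofNat 237878)) (K (.negSucc 733869281)) N N) (B (K (.negSucc 828746465)) (K (.negSucc 332134487)) N N) N N)⟩,
  ⟨.x, T1, (B (B (K (.ofNat 54652756)) (K (.negSucc 82601357)) N N) (B (K (.negSucc 36137131)) (K (.negSucc 69695309)) N N) N N)⟩,
  ⟨.x, T4, (B N N (K (.ofNat 40878846)) (K (.negSucc 22167053)))⟩,
  ⟨.x, T5, (A1 (K (.ofNat 35547120)))⟩,
  ⟨.x, T7, (B N N (K (.negSucc 164852657)) (K (.ofNat 288245142)))⟩,
  ⟨.x, T8, (B (K (.negSucc 12176913)) (K (.negSucc 62431763)) N N)⟩,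
  ⟨.x, T9, (B (K (.ofNat 20498000)) (K (.ofNat 51053502)) N N)⟩,
  ⟨.x, T11, (A1 (K (.ofNat 18138966)))⟩,
  ⟨.x, T15, (K (.ofNat 36764280))⟩,
  ⟨.x, T17, (K (.ofNat 47284452))⟩,
  ⟨.x, T18, (K (.negSucc 31873319))⟩,
  ⟨.x, T20, (K (.ofNat 8460654))⟩,
  ⟨.x, T23, (K (.ofNat 1930068))⟩,
  ⟨.x, T24, (K (.negSucc 9678311))⟩] (.node [⟨.x, .z, (B (B (K (.ofNat 11168092)) (K (.negSucc 65524199)) N N) (B (K (.ofNat 78928976)) (K (.ofNat 58235268)) N N) N N)⟩,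
  ⟨.x, T0, (B (K (.negSucc 4396263)) (K (.negSucc 33897635)) N N)⟩,
  ⟨.x, T1, (B (K (.ofNat 24939984)) (K (.ofNat 83531892)) N N)⟩,
  ⟨.x, T5, (K (.ofNat 3771684))⟩,
  ⟨.x, T8, (K (.ofNat 115116060))⟩,
  ⟨.x, T9, (K (.negSucc 68176775))⟩,
  ⟨.x, T11, (K (.ofNat 1524096))⟩] (.node [⟨.x, .z, (B (K (.ofNat 2948700)) (K (.negSucc 139020911)) N N)⟩,
  ⟨.x, T0, (K (.negSucc 110978603))⟩,
  ⟨.x, T1, (K (.ofNat 39011868))⟩] (.node [⟨.x, .z, (K (.ofNat 29944404))⟩] .nil .nil .nil .nil .nil .nil) (.node [⟨.x, .z, (K (.negSucc 280158479))⟩] .nil .nil .nil .nil .nil .nil) .nil .nil .nil .nil) (.node [⟨.x, .z, (B (K (.ofNat 598292748)) (K (.ofNat 634303404)) N N)⟩,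
  ⟨.x, T0, (K (.negSucc 51113099))⟩,
  ⟨.x, T1, (K (.negSucc 588954497))⟩] (.node [⟨.x, .z, (K (.negSucc 399129395))⟩] .nil .nil .nil .nil .nil .nil) (.node [⟨.x, .z, (K (.negSucc 352358651))⟩] .nil .nil .nil .nil .nil .nil) .nil .nil .nil .nil) .nil .nil .nil .nil) (.node [⟨.x, .z, (B (B (K (.negSucc 873631)) (K (.negSucc 32700989)) N N) (B (K (.ofNat 148524786)) (K (.ofNat 330537924)) N N) N N)⟩,
  ⟨.x, T0, (B (K (.ofNat 1181264484)) (K (.ofNat 628168572)) N N)⟩,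
  ⟨.x, T1, (B (K (.ofNat 1032098086)) (K (.ofNat 359033046)) N N)⟩,
  ⟨.x, T5, (K (.ofNat 459799524))⟩,
  ⟨.x, T8, (K (.negSucc 415282643))⟩,
  ⟨.x, T9, (K (.negSucc 77344019))⟩,
  ⟨.x, T11, (K (.ofNat 352445556))⟩] (.node [⟨.x, .z, (B (K (.ofNat 479317922)) (K (.ofNat 1696886064)) N N)⟩,
  ⟨.x, T0, (K (.ofNat 1291397604))⟩,
  ⟨.x, T1, (K (.negSucc 279383933))⟩] (.node [⟨.x, .z, (K (.negSucc 134905091))⟩] .nil .nil .nil .nil .nil .nil) (.node [⟨.x, .z, (K (.ofNat 186826572))⟩] .nil .nil .nil .nil .nil .nil) .nil .nil .nil .nil) (.node [⟨.x, .z, (B (K (.ofNat 208319606)) (K (.ofNat 1044910464)) N N)⟩,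
  ⟨.x, T0, (K (.ofNat 895823880))⟩,
  ⟨.x, T1, (K (.ofNat 52194510))⟩] (.node [⟨.x, .z, (K (.ofNat 95302140))⟩] .nil .nil .nil .nil .nil .nil) (.node [⟨.x, .z, (K (.ofNat 27580368))⟩] .nil .nil .nil .nil .nil .nil) .nil .nil .nil .nil) .nil .nil .nil .nil) (.node [⟨.x, T4, (K (.negSucc 3874121))⟩,
  ⟨.x, T7, (K (.negSucc 28116275))⟩] .nil .nil .nil .nil .nil .nil) (.node [⟨.x, T4, (K (.negSucc 122592614))⟩,
  ⟨.x, T7, (K (.negSucc 117541826))⟩] .nil .nil .nil .nil .nil .nil) .nil .nil)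

def c_21 : Cert := (.node [⟨.x, .z, (B (B (B (K (.negSucc 3770556601)) (K (.negSucc 276477751)) N N) (B (K (.negSucc 2416897992)) (K (.ofNat 3983851525)) N N) N N) (B (B (K (.negSucc 2829851659)) (K (.ofNat 426788706)) N N) (B (K (.ofNat 2024602578)) (K (.ofNat 1387589758)) N N) N N) N N)⟩,
  ⟨.x, T0, (B (B (K (.ofNat 557386654)) (K (.ofNat 410415619)) N N) (B (K (.ofNat 3647627240)) (K (.ofNat 1780988786)) N N) N N)⟩,
  ⟨.x, T1, (B (B (K (.ofNat 646410920)) (K (.ofNat 397356949)) N N) (B (K (.ofNat 995767761)) (K (.negSucc 839886804)) N N) N N)⟩,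
  ⟨.x, T4, (B N N (K (.ofNat 156534861)) (K (.ofNat 680961751)))⟩,
  ⟨.x, T5, (A1 (K (.ofNat 3850068)))⟩,
  ⟨.x, T7, (B N N (K (.ofNat 651969945)) (K (.negSucc 706400354)))⟩,
  ⟨.x, T8, (B (K (.ofNat 160450808)) (K (.negSucc 402698195)) N N)⟩,
  ⟨.x, T9, (B (K (.ofNat 21055059)) (K (.ofNat 2162133947)) N N)⟩,
  ⟨.x, T11, (A1 (K (.negSucc 8691102)))⟩,
  ⟨.x, T15, (K (.negSucc 906004025))⟩,
  ⟨.x, T17, (K (.negSucc 274131359))⟩,
  ⟨.x, T18, (K (.ofNat 778530612))⟩,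
  ⟨.x, T20, (K (.negSucc 368421700))⟩,
  ⟨.x, T23, (K (.ofNat 649504026))⟩,
  ⟨.x, T24, (K (.ofNat 523397612))⟩] (.node [⟨.x, .z, (B (B (K (.ofNat 1120247570)) (K (.negSucc 970970509)) N N) (B (K (.negSucc 874137645)) (K (.negSucc 1355846367)) N N) N N)⟩,
  ⟨.x, T0, (B (K (.ofNat 1818532148)) (K (.negSucc 875454021)) N N)⟩,
  ⟨.x, T1, (B (K (.ofNat 1773737102)) (K (.ofNat 606621524)) N N)⟩,
  ⟨.x, T5, (K (.negSucc 561795279))⟩,
  ⟨.x, T8, (K (.negSucc 544668409))⟩,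
  ⟨.x, T9, (K (.negSucc 1021324843))⟩,
  ⟨.x, T11, (K (.negSucc 980446541))⟩] (.node [⟨.x, .z, (B (K (.ofNat 317855538)) (K (.ofNat 722178188)) N N)⟩,
  ⟨.x, T0, (K (.negSucc 314164903))⟩,
  ⟨.x, T1, (K (.negSucc 1817313021))⟩] (.node [⟨.x, .z, (K (.ofNat 363642010))⟩] .nil .nil .nil .nil .nil .nil) (.node [⟨.x, .z, (K (.negSucc 286716629))⟩] .nil .nil .nil .nil .nil .nil) .nil .nil .nil .nil) (.node [⟨.x, .z, (B (K (.negSucc 2117116736)) (K (.negSucc 91842809)) N N)⟩,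
  ⟨.x, T0, (K (.negSucc 1339936077))⟩,
  ⟨.x, T1, (K (.negSucc 50404312))⟩] (.node [⟨.x, .z, (K (.ofNat 325265022))⟩] .nil .nil .nil .nil .nil .nil) (.node [⟨.x, .z, (K (.ofNat 211106228))⟩] .nil .nil .nil .nil .nil .nil) .nil .nil .nil .nil) .nil .nil .nil .nil) (.node [⟨.x, .z, (B (B (K (.ofNat 628645213)) (K (.ofNat 3046290871)) N N) (B (K (.ofNat 1094323304)) (K (.negSucc 2686629325)) N N) N N)⟩,
  ⟨.x, T0, (B (K (.ofNat 1331957204)) (K (.negSucc 1878215603)) N N)⟩,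
  ⟨.x, T1, (B (K (.ofNat 39612523)) (K (.negSucc 3380275862)) N N)⟩,
  ⟨.x, T5, (K (.ofNat 368557716))⟩,
  ⟨.x, T8, (K (.negSucc 970575041))⟩,
  ⟨.x, T9, (K (.ofNat 1639459536))⟩,
  ⟨.x, T11, (K (.negSucc 1660824055))⟩] (.node [⟨.x, .z, (B (K (.negSucc 1890502416)) (K (.ofNat 1872856704)) N N)⟩,
  ⟨.x, T0, (K (.ofNat 10632810))⟩,
  ⟨.x, T1, (K (.negSucc 911716994))⟩] (.node [⟨.x, .z, (K (.ofNat 1658469882))⟩] .nil .nil .nil .nil .nil .nil) (.node [⟨.x, .z, (K (.ofNat 2971232964))⟩] .nil .nil .nil .nil .nil .nil) .nil .nil .nil .nil) (.node [⟨.x, .z, (B (K (.negSucc 250266056)) (K (.negSucc 707153993)) N N)⟩,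
  ⟨.x, T0, (K (.negSucc 1294905725))⟩,
  ⟨.x, T1, (K (.negSucc 593618678))⟩] (.node [⟨.x, .z, (K (.ofNat 2956428840))⟩] .nil .nil .nil .nil .nil .nil) (.node [⟨.x, .z, (K (.ofNat 2167324026))⟩] .nil .nil .nil .nil .nil .nil) .nil .nil .nil .nil) .nil .nil .nil .nil) (.node [⟨.x, T4, (K (.ofNat 458998723))⟩,
  ⟨.x, T7, (K (.ofNat 755070042))⟩] .nil .nil .nil .nil .nil .nil) (.node [⟨.x, T4, (K (.ofNat 626125042))⟩,
  ⟨.x, T7, (K (.ofNat 1352332536))⟩] .nil .nil .nil .nil .nil .nil) .nil .nil)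

def c_2 : Cert := (.node [⟨.x, .z, (B (B (B (A0 (K (.negSucc 87278655))) (A1 (K (.ofNat 475986))) N N) (B (B (K (.negSucc 181406817)) (K (.ofNat 550858302)) N N) (B (K (.ofNat 547737056)) (K (.ofNat 293852070)) N N) N N) N N) (B (B (B (K (.ofNat 700115420)) (K (.ofNat 352094844)) N N) (B (K (.ofNat 397142680)) (K (.negSucc 476648863)) N N) N N) (B (B (K (.ofNat 484916200)) (K (.ofNat 978742184)) N N) (B (K (.ofNat 1296093018)) (K (.ofNat 391698072)) N N) N N) N N) N N)⟩,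
  ⟨.x, T0, (B (B (B (K (.ofNat 971519660)) (K (.negSucc 279123905)) N N) (B (K (.ofNat 36281376)) (K (.negSucc 892197109)) N N) N N) (B (B (K (.ofNat 835291510)) (K (.ofNat 227387966)) N N) (B (K (.ofNat 877233136)) (K (.negSucc 38675531)) N N) N N) N N)⟩,
  ⟨.x, T1, (B (B (B (K (.ofNat 83393944)) (K (.negSucc 74441567)) N N) (B (K (.ofNat 9349706)) (K (.negSucc 93724037)) N N) N N) (B (B (K (.ofNat 118058350)) (K (.negSucc 132531131)) N N) (B (K (.negSucc 102455277)) (K (.negSucc 56338403)) N N) N N) N N)⟩,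
  ⟨.x, T4, (B (A2 (K (.negSucc 50338349))) (B N N (K (.ofNat 117399648)) (K (.ofNat 12529566))) (B (K (.negSucc 39059271)) (K (.ofNat 165960294)) N N) (B (K (.negSucc 131395625)) (K (.negSucc 14402177)) N N))⟩,
  ⟨.x, T5, (A1 (A1 (K (.ofNat 12427128))))⟩,
  ⟨.x, T7, (B (A2 (K (.negSucc 123911609))) (B N N (K (.negSucc 456678335)) (K (.negSucc 35201549))) (B (K (.negSucc 3803465)) (K (.negSucc 363453101)) N N) (B (K (.negSucc 448442937)) (K (.ofNat 113333634)) N N))⟩,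
  ⟨.x, T8, (B (B (K (.negSucc 92110717)) (K (.ofNat 676937940)) N N) (B (K (.ofNat 481310858)) (K (.ofNat 452502192)) N N) N N)⟩,
  ⟨.x, T9, (B (B (K (.negSucc 118466979)) (K (.ofNat 63181962)) N N) (B (K (.negSucc 40006447)) (K (.ofNat 122757756)) N N) N N)⟩,
  ⟨.x, T11, (A1 (B (K (.negSucc 1939955)) (K (.ofNat 31870692)) N N))⟩,
  ⟨.x, T14, (A3 (K (.ofNat 10058580)))⟩,
  ⟨.x, T15, (A1 (K (.ofNat 11276496)))⟩,
  ⟨.x, T16, (B N N (K (.ofNat 68656296)) (K (.negSucc 70010183)))⟩,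
  ⟨.x, T17, (B (K (.negSucc 13337501)) (K (.ofNat 18764388)) N N)⟩,
  ⟨.x, T18, (B (K (.negSucc 99392909)) (K (.negSucc 414071)) N N)⟩,
  ⟨.x, T20, (A0 (K (.ofNat 152712)))⟩,
  ⟨.x, T23, (A1 (K (.ofNat 2029104)))⟩,
  ⟨.x, T24, (A1 (K (.negSucc 3165371)))⟩,
  ⟨.x, T27, (K (.negSucc 7937243))⟩,
  ⟨.x, T28, (K (.ofNat 40593420))⟩,
  ⟨.x, T29, (K (.ofNat 15781500))⟩,
  ⟨.x, T42, (K (.negSucc 22097123))⟩,
  ⟨.x, T44, (K (.ofNat 7429968))⟩,
  ⟨.x, T30, (K (.ofNat 17510472))⟩] c_20 c_21 (.node [⟨.x, T4, (B (K (.negSucc 28216751)) (K (.negSucc 9092411)) N N)⟩,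
  ⟨.x, T7, (B (K (.ofNat 5814240)) (K (.ofNat 2618844)) N N)⟩,
  ⟨.x, T14, (K (.negSucc 31715711))⟩,
  ⟨.x, T16, (K (.negSucc 27185783))⟩] (.node [⟨.x, T4, (K (.negSucc 1421657))⟩,
  ⟨.x, T7, (K (.negSucc 30669377))⟩] .nil .nil .nil .nil .nil .nil) (.node [⟨.x, T4, (K (.negSucc 96345509))⟩,
  ⟨.x, T7, (K (.negSucc 213427097))⟩] .nil .nil .nil .nil .nil .nil) .nil .nil .nil .nil) (.node [⟨.x, T4, (B (K (.ofNat 52131632)) (K (.negSucc 56011205)) N N)⟩,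
  ⟨.x, T7, (B (K (.negSucc 75390661)) (K (.ofNat 34886550)) N N)⟩,
  ⟨.x, T14, (K (.negSucc 9561887))⟩,
  ⟨.x, T16, (K (.negSucc 18940001))⟩] (.node [⟨.x, T4, (K (.negSucc 39210575))⟩,
  ⟨.x, T7, (K (.ofNat 60879188))⟩] .nil .nil .nil .nil .nil .nil) (.node [⟨.x, T4, (K (.negSucc 178939520))⟩,
  ⟨.x, T7, (K (.negSucc 285202232))⟩] .nil .nil .nil .nil .nil .nil) .nil .nil .nil .nil) .nil .nil)

def c_30 : Cert := (.node [⟨.x, .z, (B (B (B (K (.ofNat 3472766740)) (K (.ofNat 892289616)) N N) (B (K (.ofNat 2460494471)) (K (.negSucc 3816480576)) N N) N N) (B (B (K (.ofNat 2402203966)) (K (.ofNat 179114568)) N N) (B (K (.negSucc 2192737653)) (K (.negSucc 1078473733)) N N) N N) N N)⟩,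
  ⟨.x, T0, (B (B (K (.negSucc 841066267)) (K (.ofNat 496606981)) N N) (B (K (.negSucc 3578627985)) (K (.negSucc 1299977897)) N N) N N)⟩,
  ⟨.x, T1, (B (B (K (.negSucc 742987645)) (K (.ofNat 457781229)) N N) (B (K (.negSucc 1053522072)) (K (.ofNat 1608798565)) N N) N N)⟩,
  ⟨.x, T4, (B N N (K (.negSucc 274130510)) (K (.negSucc 569293086)))⟩,
  ⟨.x, T5, (A1 (K (.ofNat 138411768)))⟩,
  ⟨.x, T7, (B N N (K (.negSucc 727022688)) (K (.ofNat 741912265)))⟩,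
  ⟨.x, T8, (B (K (.negSucc 86639603)) (K (.ofNat 413326488)) N N)⟩,
  ⟨.x, T9, (B (K (.ofNat 130019715)) (K (.negSucc 2701850890)) N N)⟩,
  ⟨.x, T11, (A1 (K (.ofNat 72735451)))⟩,
  ⟨.x, T15, (K (.ofNat 908993250))⟩,
  ⟨.x, T17, (K (.ofNat 296043120))⟩,
  ⟨.x, T18, (K (.negSucc 743843999))⟩,
  ⟨.x, T20, (K (.ofNat 402919121))⟩,
  ⟨.x, T23, (K (.negSucc 645552161))⟩,
  ⟨.x, T24, (K (.negSucc 522491671))⟩] (.node [⟨.x, .z, (B (B (K (.negSucc 1452821257)) (K (.ofNat 1396871430)) N N) (B (K (.ofNat 996373472)) (K (.ofNat 2485197536)) N N) N N)⟩,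
  ⟨.x, T0, (B (K (.negSucc 51846609)) (K (.ofNat 1201930166)) N N)⟩,
  ⟨.x, T1, (B (K (.negSucc 794367885)) (K (.negSucc 1707903187)) N N)⟩,
  ⟨.x, T5, (K (.ofNat 1224637720))⟩,
  ⟨.x, T8, (K (.negSucc 403035609))⟩,
  ⟨.x, T9, (K (.ofNat 1695222500))⟩,
  ⟨.x, T11, (K (.ofNat 825456390))⟩] (.node [⟨.x, .z, (B (K (.negSucc 118480347)) (K (.ofNat 1076999764)) N N)⟩,
  ⟨.x, T0, (K (.ofNat 2088543212))⟩,
  ⟨.x, T1, (K (.ofNat 1665963118))⟩] (.node [⟨.x, .z, (K (.negSucc 321740853))⟩] .nil .nil .nil .nil .nil .nil) (.node [⟨.x, .z, (K (.ofNat 857621054))⟩] .nil .nil .nil .nil .nil .nil) .nil .nil .nil .nil) (.node [⟨.x, .z, (B (K (.ofNat 2502630071)) (K (.ofNat 691762022)) N N)⟩,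
  ⟨.x, T0, (K (.ofNat 2590588314))⟩,
  ⟨.x, T1, (K (.negSucc 102614818))⟩] (.node [⟨.x, .z, (K (.ofNat 304524804))⟩] .nil .nil .nil .nil .nil .nil) (.node [⟨.x, .z, (K (.ofNat 399785632))⟩] .nil .nil .nil .nil .nil .nil) .nil .nil .nil .nil) .nil .nil .nil .nil) (.node [⟨.x, .z, (B (B (K (.negSucc 798715324)) (K (.negSucc 3729275602)) N N) (B (K (.negSucc 1107341927)) (K (.ofNat 4183686334)) N N) N N)⟩,
  ⟨.x, T0, (B (K (.ofNat 379365178)) (K (.ofNat 2322078668)) N N)⟩,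
  ⟨.x, T1, (B (K (.ofNat 690662381)) (K (.ofNat 3501756207)) N N)⟩,
  ⟨.x, T5, (K (.ofNat 259705900))⟩,
  ⟨.x, T8, (K (.ofNat 136714314))⟩,
  ⟨.x, T9, (K (.negSucc 1098558251))⟩,
  ⟨.x, T11, (K (.ofNat 1574680312))⟩] (.node [⟨.x, .z, (B (K (.ofNat 2347285499)) (K (.negSucc 122654655)) N N)⟩,
  ⟨.x, T0, (K (.ofNat 1835215510))⟩,
  ⟨.x, T1, (K (.ofNat 727174423))⟩] (.node [⟨.x, .z, (K (.negSucc 1691856511))⟩] .nil .nil .nil .nil .nil .nil) (.node [⟨.x, .z, (K (.negSucc 2406148355))⟩] .nil .nil .nil .nil .nil .nil) .nil .nil .nil .nil) (.node [⟨.x, .z, (B (K (.ofNat 255278475)) (K (.ofNat 870761906)) N N)⟩,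
  ⟨.x, T0, (K (.ofNat 2096011122))⟩,
  ⟨.x, T1, (K (.ofNat 682464819))⟩] (.node [⟨.x, .z, (K (.negSucc 2167475081))⟩] .nil .nil .nil .nil .nil .nil) (.node [⟨.x, .z, (K (.negSucc 1494839069))⟩] .nil .nil .nil .nil .nil .nil) .nil .nil .nil .nil) .nil .nil .nil .nil) (.node [⟨.x, T4, (K (.negSucc 596965041))⟩,
  ⟨.x, T7, (K (.negSucc 1021918322))⟩] .nil .nil .nil .nil .nil .nil) (.node [⟨.x, T4, (K (.ofNat 84234225))⟩,
  ⟨.x, T7, (K (.negSucc 1010158408))⟩] .nil .nil .nil .nil .nil .nil) .nil .nil)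

def c_31 : Cert := (.node [⟨.x, .z, (B (B (B (K (.ofNat 20587914)) (K (.ofNat 67844506)) N N) (B (K (.ofNat 410826094)) (K (.ofNat 1716625124)) N N) N N) (B (B (K (.negSucc 45963675)) (K (.ofNat 377832218)) N N) (B (K (.ofNat 196065490)) (K (.ofNat 110123516)) N N) N N) N N)⟩,
  ⟨.x, T0, (B (B (K (.negSucc 65015)) (K (.negSucc 63819615)) N N) (B (K (.ofNat 91288612)) (K (.ofNat 398670412)) N N) N N)⟩,
  ⟨.x, T1, (B (B (K (.negSucc 88382597)) (K (.negSucc 259994747)) N N) (B (K (.negSucc 519753369)) (K (.negSucc 1199457647)) N N) N N)⟩,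
  ⟨.x, T4, (B N N (K (.negSucc 227193843)) (K (.ofNat 261079856)))⟩,
  ⟨.x, T5, (A1 (K (.ofNat 270800732)))⟩,
  ⟨.x, T7, (B N N (K (.ofNat 21224196)) (K (.ofNat 74633580)))⟩,
  ⟨.x, T8, (B (K (.negSucc 1621619)) (K (.negSucc 149912643)) N N)⟩,
  ⟨.x, T9, (B (K (.ofNat 17195724)) (K (.ofNat 489290824)) N N)⟩,
  ⟨.x, T11, (A1 (K (.negSucc 428166331)))⟩,
  ⟨.x, T15, (K (.negSucc 21985991))⟩,
  ⟨.x, T17, (K (.negSucc 10064375))⟩,
  ⟨.x, T18, (K (.ofNat 9995832))⟩,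
  ⟨.x, T20, (K (.negSucc 4895603))⟩,
  ⟨.x, T23, (K (.ofNat 21853440))⟩,
  ⟨.x, T24, (K (.ofNat 24200064))⟩] (.node [⟨.x, .z, (B (B (K (.negSucc 386231967)) (K (.negSucc 24374155)) N N) (B (K (.negSucc 55666353)) (K (.ofNat 1048548536)) N N) N N)⟩,
  ⟨.x, T0, (B (K (.ofNat 719156982)) (K (.ofNat 104963244)) N N)⟩,
  ⟨.x, T1, (B (K (.negSucc 212666981)) (K (.negSucc 874147759)) N N)⟩,
  ⟨.x, T5, (K (.ofNat 295290548))⟩,
  ⟨.x, T8, (K (.negSucc 666478987))⟩,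
  ⟨.x, T9, (K (.ofNat 894302828))⟩,
  ⟨.x, T11, (K (.negSucc 396627439))⟩] (.node [⟨.x, .z, (B (K (.ofNat 529504802)) (K (.ofNat 1607712496)) N N)⟩,
  ⟨.x, T0, (K (.ofNat 1081754536))⟩,
  ⟨.x, T1, (K (.negSucc 670154687))⟩] (.node [⟨.x, .z, (K (.negSucc 266939967))⟩] .nil .nil .nil .nil .nil .nil) (.node [⟨.x, .z, (K (.ofNat 407136118))⟩] .nil .nil .nil .nil .nil .nil) .nil .nil .nil .nil) (.node [⟨.x, .z, (B (K (.ofNat 930692426)) (K (.ofNat 957282556)) N N)⟩,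
  ⟨.x, T0, (K (.ofNat 817039856))⟩,
  ⟨.x, T1, (K (.negSucc 965366455))⟩] (.node [⟨.x, .z, (K (.ofNat 161121924))⟩] .nil .nil .nil .nil .nil .nil) (.node [⟨.x, .z, (K (.ofNat 690952210))⟩] .nil .nil .nil .nil .nil .nil) .nil .nil .nil .nil) .nil .nil .nil .nil) (.node [⟨.x, .z, (B (B (K (.ofNat 136938446)) (K (.negSucc 307085035)) N N) (B (K (.negSucc 160556097)) (K (.ofNat 134793012)) N N) N N)⟩,
  ⟨.x, T0, (B (K (.ofNat 68398948)) (K (.ofNat 189024068)) N N)⟩,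
  ⟨.x, T1, (B (K (.ofNat 30290014)) (K (.ofNat 468308252)) N N)⟩,
  ⟨.x, T5, (K (.negSucc 104970499))⟩,
  ⟨.x, T8, (K (.ofNat 65749220))⟩,
  ⟨.x, T9, (K (.negSucc 241811035))⟩,
  ⟨.x, T11, (K (.ofNat 151730208))⟩] (.node [⟨.x, .z, (B (K (.ofNat 450553426)) (K (.ofNat 1175276360)) N N)⟩,
  ⟨.x, T0, (K (.ofNat 650123864))⟩,
  ⟨.x, T1, (K (.negSucc 493964811))⟩] (.node [⟨.x, .z, (K (.negSucc 447365727))⟩] .nil .nil .nil .nil .nil .nil) (.node [⟨.x, .z, (K (.negSucc 32342809))⟩] .nil .nil .nil .nil .nil .nil) .nil .nil .nil .nil) (.node [⟨.x, .z, (B (K (.negSucc 192937855)) (K (.ofNat 121284932)) N N)⟩,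
  ⟨.x, T0, (K (.negSucc 126750859))⟩,
  ⟨.x, T1, (K (.ofNat 78092232))⟩] (.node [⟨.x, .z, (K (.negSucc 119733715))⟩] .nil .nil .nil .nil .nil .nil) (.node [⟨.x, .z, (K (.negSucc 77544583))⟩] .nil .nil .nil .nil .nil .nil) .nil .nil .nil .nil) .nil .nil .nil .nil) (.node [⟨.x, T4, (K (.negSucc 426777968))⟩,
  ⟨.x, T7, (K (.negSucc 8988750))⟩] .nil .nil .nil .nil .nil .nil) (.node [⟨.x, T4, (K (.ofNat 143677006))⟩,
  ⟨.x, T7, (K (.ofNat 10459890))⟩] .nil .nil .nil .nil .nil .nil) .nil .nil)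

def c_3 : Cert := (.node [⟨.x, .z, (B (B (B (A0 (K (.negSucc 842880431))) (A1 (K (.ofNat 709683244))) N N) (B (B (K (.negSucc 1066666067)) (K (.negSucc 199288837)) N N) (B (K (.negSucc 9263755)) (K (.ofNat 1596410930)) N N) N N) N N) (B (B (B (K (.ofNat 20956508)) (K (.negSucc 53317707)) N N) (B (K (.ofNat 996539616)) (K (.negSucc 286212633)) N N) N N) (B (B (K (.ofNat 193762404)) (K (.negSucc 1085324777)) N N) (B (K (.ofNat 122708894)) (K (.negSucc 309702403)) N N) N N) N N) N N)⟩,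
  ⟨.x, T0, (B (B (B (K (.negSucc 21869699)) (K (.negSucc 69533993)) N N) (B (K (.negSucc 518810643)) (K (.negSucc 556025351)) N N) N N) (B (B (K (.ofNat 52461362)) (K (.ofNat 377204230)) N N) (B (K (.ofNat 171775278)) (K (.negSucc 156514467)) N N) N N) N N)⟩,
  ⟨.x, T1, (B (B (B (K (.ofNat 842751912)) (K (.ofNat 835359866)) N N) (B (K (.ofNat 114373922)) (K (.negSucc 641966121)) N N) N N) (B (B (K (.ofNat 585226992)) (K (.ofNat 1439592574)) N N) (B (K (.ofNat 582324012)) (K (.negSucc 1037181295)) N N) N N) N N)⟩,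
  ⟨.x, T4, (B (A2 (K (.negSucc 116633353))) (B N N (K (.ofNat 76735610)) (K (.negSucc 108238679))) (B (K (.ofNat 69955442)) (K (.ofNat 49815888)) N N) (B (K (.negSucc 280482349)) (K (.ofNat 98657226)) N N))⟩,
  ⟨.x, T5, (A1 (A1 (K (.ofNat 29631144))))⟩,
  ⟨.x, T7, (B (A2 (K (.negSucc 5190695))) (B N N (K (.negSucc 44919315)) (K (.ofNat 65613196))) (B (K (.ofNat 4651542)) (K (.negSucc 20696545)) N N) (B (K (.ofNat 74218678)) (K (.negSucc 506159329)) N N))⟩,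
  ⟨.x, T8, (B (B (K (.ofNat 30976596)) (K (.ofNat 82038664)) N N) (B (K (.ofNat 81707670)) (K (.negSucc 93283527)) N N) N N)⟩,
  ⟨.x, T9, (B (B (K (.ofNat 10770228)) (K (.negSucc 39285571)) N N) (B (K (.ofNat 288758856)) (K (.ofNat 1125418976)) N N) N N)⟩,
  ⟨.x, T11, (A1 (B (K (.negSucc 458274795)) (K (.negSucc 491512511)) N N))⟩,
  ⟨.x, T14, (A3 (K (.negSucc 10058579)))⟩,
  ⟨.x, T15, (A1 (K (.negSucc 14610455)))⟩,
  ⟨.x, T16, (B N N (K (.negSucc 10940453)) (K (.ofNat 25158318)))⟩,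
  ⟨.x, T17, (B (K (.ofNat 16322040)) (K (.negSucc 19035323)) N N)⟩,
  ⟨.x, T18, (B (K (.ofNat 41927256)) (K (.ofNat 31668264)) N N)⟩,
  ⟨.x, T20, (A0 (K (.ofNat 351288)))⟩,
  ⟨.x, T23, (A1 (K (.negSucc 9446975)))⟩,
  ⟨.x, T24, (A1 (K (.ofNat 3023244)))⟩,
  ⟨.x, T27, (K (.ofNat 21654108))⟩,
  ⟨.x, T28, (K (.negSucc 40593419))⟩,
  ⟨.x, T29, (K (.negSucc 25354727))⟩,
  ⟨.x, T42, (K (.ofNat 22097124))⟩,
  ⟨.x, T44, (K (.negSucc 7429967))⟩,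
  ⟨.x, T30, (K (.negSucc 14795675))⟩] c_30 c_31 (.node [⟨.x, T4, (B (K (.ofNat 2239470)) (K (.negSucc 17704943)) N N)⟩,
  ⟨.x, T7, (B (K (.negSucc 134197649)) (K (.ofNat 569653736)) N N)⟩,
  ⟨.x, T14, (K (.ofNat 2476656))⟩,
  ⟨.x, T16, (K (.ofNat 21089970))⟩] (.node [⟨.x, T4, (K (.ofNat 33710157))⟩,
  ⟨.x, T7, (K (.ofNat 95429481))⟩] .nil .nil .nil .nil .nil .nil) (.node [⟨.x, T4, (K (.negSucc 608727691))⟩,
  ⟨.x, T7, (K (.negSucc 240744177))⟩] .nil .nil .nil .nil .nil .nil) .nil .nil .nil .nil) (.node [⟨.x, T4, (B (K (.ofNat 58124714)) (K (.negSucc 147375813)) N N)⟩,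
  ⟨.x, T7, (B (K (.negSucc 15604973)) (K (.negSucc 4739937)) N N)⟩,
  ⟨.x, T14, (K (.ofNat 12841416))⟩,
  ⟨.x, T16, (K (.negSucc 4927607))⟩] (.node [⟨.x, T4, (K (.ofNat 448178224))⟩,
  ⟨.x, T7, (K (.ofNat 89575532))⟩] .nil .nil .nil .nil .nil .nil) (.node [⟨.x, T4, (K (.negSucc 56833825))⟩,
  ⟨.x, T7, (K (.ofNat 15754662))⟩] .nil .nil .nil .nil .nil .nil) .nil .nil .nil .nil) .nil .nil)

def cert : Cert := (.node [⟨.x, .z, (B (B (B (B (A2 (K (.ofNat 267033180))) N (A0 (K (.negSucc 5025929))) N) N (A0 (A0 (K (.ofNat 112424870)))) N) N (B (B (A0 (K (.negSucc 926836543))) (A1 (K (.ofNat 1238378226))) N N) (B (A0 (K (.negSucc 982932283))) (B (K (.ofNat 401760338)) (K (.ofNat 1112711786)) N N) N N) N N) N) (B (B (B (A2 (K (.ofNat 141704580))) N (A0 (K (.negSucc 312134683))) N) N (B (B (K (.ofNat 522008758)) (K (.negSucc 1046854149)) N N) (B (K (.negSucc 1084149015)) (K (.negSucc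 2763554077)) N N) N N) N) (B (B (A2 (K (.negSucc 522108803))) N (B (K (.negSucc 1169121655)) (K (.ofNat 1637502132)) N N) N) (B (A2 (K (.negSucc 270106343))) (B N N (K (.negSucc 94558079)) (K (.negSucc 202762763))) (B (K (.negSucc 1435703729)) (K (.ofNat 1036174662)) N N) (B (K (.negSucc 559426027)) (K (.ofNat 176877504)) N N)) (B (B (K (.ofNat 368043526)) (K (.negSucc 1470549005)) N N) (B (K (.negSucc 1737571389)) (K (.ofNat 1820227050)) N N) N N) (B (B (K (.ofNat 827733378)) (K (.negSucc 914009135)) N N) (B (K (.negSucc 712872739)) (K (.negSucc 462903203)) N N) N N)) (B (B (B (K (.ofNat 1192317394)) (K (.negSucc 1834557029)) N N) (B (K (.ofNat 2868873500)) (K (.negSucc 1047572399)) N N) N N) (B (B (K (.ofNat 608018458)) (K (.negSucc 3987745325)) N N) (B (K (.negSucc 2090319967)) (K (.negSucc 798659761)) N N) N N) N N) (B (B (B (K (.ofNat 1810788924)) (K (.negSucc 839308149))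 N N) (B (K (.ofNat 586015466)) (K (.negSucc 3550621543)) N N) N N) (B (B (K (.ofNat 1620807184)) (K (.negSucc 1781075435)) N N) (B (K (.ofNat 1100311176)) (K (.ofNat 553169808)) N N) N N) N N)) (B (B (B (A0 (K (.ofNat 1091180748))) (A1 (K (.negSucc 1543301467))) N N) (B (B (K (.ofNat 1352069788)) (K (.ofNat 1108172756)) N N) (B (K (.negSucc 153747281)) (K (.negSucc 864827181)) N N) N N) N N) (B (B (B (K (.ofNat 2206988166)) (K (.negSucc 1064635981)) N N) (B (K (.ofNat 2294694776)) (K (.negSucc 3037910941)) N N) N N) (B (B (K (.ofNat 1186233630)) (K (.negSucc 1614575115)) N N) (B (K (.negSucc 275288357)) (K (.negSucc 603966769)) N N) N N) N N) N N) (B (B (B (A0 (K (.negSucc 712255319))) (A1 (K (.ofNat 1397529244))) N N) (B (B (K (.negSucc 466873105)) (K (.negSucc 1131714543)) N N) (B (K (.ofNat 1393637150)) (K (.ofNat 469699836)) N N) N N) N N) (B (B (B (K (.negSucc 1577255125))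 (K (.negSucc 1537573701)) N N) (B (K (.ofNat 572648810)) (K (.ofNat 2057674842)) N N) N N) (B (B (K (.negSucc 2022310871)) (K (.negSucc 492168089)) N N) (B (K (.negSucc 1559446877)) (K (.ofNat 18152316)) N N) N N) N N) N N))⟩,
  ⟨.x, T0, (B (B (B (A2 (K (.ofNat 6700428))) N (A0 (K (.ofNat 6685812))) N) N (B (B (K (.ofNat 9687848)) (K (.ofNat 759084600)) N N) (B (K (.ofNat 185943084)) (K (.ofNat 965905896)) N N) N N) N) (B (B (A2 (K (.negSucc 334366871))) N (B (K (.ofNat 784675190)) (K (.negSucc 726675263)) N N) N) (B (A2 (K (.ofNat 47685660))) (B N N (K (.ofNat 216687996)) (K (.ofNat 286276272))) (B (K (.negSucc 164766951)) (K (.negSucc 22111283)) N N) (B (K (.negSucc 559200165)) (K (.ofNat 139357248)) N N)) (B (B (K (.negSucc 820559967)) (K (.ofNat 75103176)) N N) (B (K (.negSucc 570120061)) (K (.ofNat 2139959088)) N N) N N) (B (B (K (.ofNat 424976856)) (K (.negSucc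 189960287)) N N) (B (K (.negSucc 374962621)) (K (.ofNat 163169472)) N N) N N)) (B (B (B (K (.negSucc 25491311)) (K (.negSucc 503892011)) N N) (B (K (.negSucc 473633835)) (K (.ofNat 502077582)) N N) N N) (B (B (K (.negSucc 744143951)) (K (.ofNat 583581042)) N N) (B (K (.negSucc 272999959)) (K (.ofNat 1936497036)) N N) N N) N N) (B (B (B (K (.ofNat 1023955700)) (K (.ofNat 739637868)) N N) (B (K (.ofNat 429050348)) (K (.negSucc 1235943901)) N N) N N) (B (B (K (.negSucc 66368887)) (K (.ofNat 632936384)) N N) (B (K (.ofNat 1137984740)) (K (.ofNat 545168304)) N N) N N) N N))⟩,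
  ⟨.x, T1, (B (B (B (A2 (K (.negSucc 271605467))) N (A0 (K (.ofNat 5025930))) N) N (B (B (K (.negSucc 107852581)) (K (.ofNat 462333516)) N N) (B (K (.ofNat 5087360)) (K (.ofNat 361544208)) N N) N N) N) (B (B (A2 (K (.negSucc 358731047))) N (B (K (.ofNat 159516106)) (K (.ofNat 261468792)) N N) N) (B (A2 (K (.ofNat 561857664))) (B N N (K (.ofNat 323059092)) (K (.negSucc 183186023))) (B (K (.ofNat 32780032)) (K (.negSucc 648082895)) N N) (B (K (.ofNat 273527134)) (K (.negSucc 32043443)) N N)) (B (B (K (.ofNat 15684828)) (K (.ofNat 179840016)) N N) (B (K (.negSucc 207552657)) (K (.ofNat 850655964)) N N) N N) (B (B (K (.negSucc 104626131)) (K (.negSucc 127035029)) N N) (B (K (.negSucc 214833387)) (K (.negSucc 12625871)) N N) N N)) (B (B (B (K (.ofNat 948398804)) (K (.ofNat 805043904)) N N) (B (K (.ofNat 312556224)) (K (.negSucc 83758747)) N N) N N) (B (B (K (.negSucc 53883369))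 (K (.ofNat 1036251224)) N N) (B (K (.ofNat 664536998)) (K (.ofNat 1065280080)) N N) N N) N N) (B (B (B (K (.negSucc 716268551)) (K (.ofNat 119444550)) N N) (B (K (.negSucc 294868023)) (K (.negSucc 260802269)) N N) N N) (B (B (K (.negSucc 371335863)) (K (.negSucc 245078765)) N N) (B (K (.negSucc 38416871)) (K (.ofNat 23938740)) N N) N N) N N))⟩,
  ⟨.x, T2, (B (B (B (A0 (K (.ofNat 6728028))) (A1 (K (.negSucc 66450503))) N N) (B (B (K (.ofNat 290830494)) (K (.negSucc 458484949)) N N) (B (K (.negSucc 323907951)) (K (.negSucc 429082913)) N N) N N) N N) (B (B (B (K (.negSucc 771282299)) (K (.negSucc 185230071)) N N) (B (K (.negSucc 330439507)) (K (.ofNat 425746482)) N N) N N) (B (B (K (.negSucc 405686621)) (K (.negSucc 944371589)) N N) (B (K (.negSucc 1068667749)) (K (.negSucc 542270435)) N N) N N) N N) N N)⟩,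
  ⟨.z, T0, (B (B (B (A0 (K (.ofNat 1123212348))) (A1 (K (.negSucc 667830427))) N N) (B (B (K (.ofNat 1187838340)) (K (.ofNat 824605260)) N N) (A0 (K (.ofNat 1003124522))) N N) N N) (A0 (A0 (A1 (K (.negSucc 460796733))))) N N)⟩,
  ⟨.x, T4, (B (A2 (A2 (K (.negSucc 108660323)))) (B N N (A3 (K (.ofNat 153964038))) (B N N (K (.ofNat 279312414)) (K (.ofNat 6167826)))) (B (A2 (K (.ofNat 96220644))) (B N N (K (.ofNat 152905218)) (K (.negSucc 26183207))) (B (K (.negSucc 69297427)) (K (.ofNat 299348598)) N N) (B (K (.ofNat 32635412)) (K (.ofNat 148310352)) N N)) (B (A2 (K (.ofNat 203769864))) (B N N (K (.negSucc 155182697)) (K (.ofNat 1014930))) (B (K (.negSucc 241982101)) (K (.ofNat 78010560)) N N) (B (K (.negSucc 100053695)) (K (.negSucc 4122467)) N N)))⟩,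
  ⟨.x, T5, (B N (B N (B N N (K (.negSucc 150790559)) (K (.ofNat 4432428))) (B (K (.negSucc 153214131)) (K (.negSucc 98867243)) N N) (A1 (K (.negSucc 7111691)))) (B (B (K (.ofNat 14481896)) (K (.negSucc 272198399)) N N) (A0 (K (.negSucc 286232935))) N N) (A1 (A1 (K (.negSucc 1679075)))))⟩,
  ⟨.x, T6, (A1 (B (B (K (.ofNat 97783008)) (K (.negSucc 99289235)) N N) (B (K (.ofNat 3253812)) (K (.negSucc 2893211)) N N) N N))⟩,
  ⟨.x, T7, (B (A2 (A2 (K (.ofNat 3429216)))) (B N N (A3 (K (.ofNat 51583860))) (B N N (K (.negSucc 105715451)) (K (.ofNat 198749994)))) (B (A2 (K (.ofNat 4289544))) (B N N (K (.negSucc 59301611)) (K (.ofNat 186306684))) (B (K (.ofNat 223020)) (K (.negSucc 30723707)) N N) (B (K (.negSucc 41899477)) (K (.ofNat 28464174)) N N)) (B (A2 (K (.ofNat 136945806))) (B N N (K (.ofNat 503405202)) (K (.ofNat 979398))) (B (K (.negSucc 40128265)) (K (.ofNat 365812926))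 N N) (B (K (.ofNat 347245038)) (K (.negSucc 1301075)) N N)))⟩,
  ⟨.x, T8, (B (B (A2 (K (.negSucc 20146643))) N (B (K (.negSucc 3138407)) (K (.ofNat 495256632)) N N) N) (B (A2 (K (.negSucc 522520319))) (B N N (K (.negSucc 299583791)) (K (.negSucc 413128139))) (B (K (.ofNat 983611354)) (K (.negSucc 1142210231)) N N) (B (K (.negSucc 202261023)) (K (.ofNat 61351788)) N N)) (B (B (K (.negSucc 7257307)) (K (.negSucc 172881095)) N N) (B (K (.ofNat 539240736)) (K (.negSucc 512832131)) N N) N N) (B (B (K (.ofNat 59409686)) (K (.negSucc 60330347)) N N) (B (K (.ofNat 216093282)) (K (.negSucc 627751751)) N N) N N))⟩,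
  ⟨.x, T9, (B (B (A2 (K (.ofNat 11570580))) N (B (K (.ofNat 2915388)) (K (.negSucc 206074115)) N N) N) (B (A2 (K (.negSucc 143833091))) (B N N (K (.negSucc 193192487)) (K (.ofNat 200208516))) (B (K (.negSucc 710548579)) (K (.ofNat 1112072412)) N N) (B (K (.negSucc 332941251)) (K (.ofNat 82545972)) N N)) (B (B (K (.negSucc 2970615)) (K (.ofNat 45130416)) N N) (B (K (.negSucc 465836679)) (K (.ofNat 478805664)) N N) N N) (B (B (K (.ofNat 97958212)) (K (.negSucc 458350661)) N N) (B (K (.negSucc 373373695)) (K (.ofNat 17269224)) N N) N N))⟩,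
  ⟨.x, T10, (B (B (B (K (.ofNat 5883060)) (K (.ofNat 53179590)) N N) (B (K (.negSucc 63935219)) (K (.ofNat 164935968)) N N) N N) (B (B (K (.negSucc 215662509)) (K (.ofNat 877622274)) N N) (B (K (.ofNat 541620874)) (K (.ofNat 539377224)) N N) N N) N N)⟩,
  ⟨.x, T11, (B N (B (A2 (K (.ofNat 217557444))) (B N N (K (.negSucc 23852459)) (K (.ofNat 9245880))) (B (K (.negSucc 16064515)) (K (.negSucc 478285559)) N N) (A1 (K (.negSucc 2602151)))) N (A1 (A1 (K (.negSucc 4572287)))))⟩,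
  ⟨.x, T12, (B (B (B (K (.negSucc 32031599)) (K (.ofNat 25886250)) N N) (B (K (.negSucc 47388887)) (K (.ofNat 16878480)) N N) N N) (B (B (K (.ofNat 18144054)) (K (.negSucc 12133229)) N N) (B (K (.negSucc 43332983)) (K (.ofNat 18152316)) N N) N N) N N)⟩,
  ⟨.x, T13, (B (B (B (K (.ofNat 6728028)) (K (.negSucc 67291793)) N N) (B (K (.ofNat 78330354)) (K (.negSucc 116946641)) N N) N N) (B (B (K (.ofNat 97978650)) (K (.negSucc 143944181)) N N) (B (K (.ofNat 27142836)) (K (.negSucc 23938739)) N N) N N) N N)⟩,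
  ⟨.z, T8, (A0 (B (B (K (.ofNat 25076148)) (K (.ofNat 2411154)) N N) (B (K (.ofNat 125521716)) (K (.negSucc 127535669)) N N) N N))⟩,
  ⟨.x, T14, (A3 (A3 (K (.ofNat 7525224))))⟩,
  ⟨.x, T15, (B N (A3 (K (.negSucc 2476655))) N (A1 (K (.negSucc 5810615))))⟩,
  ⟨.x, T16, (B N N (B N N (K (.ofNat 2381400)) (K (.negSucc 10370741))) (B N N (K (.ofNat 47345100)) (K (.negSucc 54609173))))⟩,
  ⟨.x, T17, (B (A2 (K (.negSucc 4435451))) (B N N (K (.ofNat 12090312)) (K (.ofNat 75860244))) (B (K (.negSucc 446039)) (K (.ofNat 62547012)) N N) (B (K (.negSucc 1004873)) (K (.ofNat 25132608)) N N))⟩,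
  ⟨.x, T18, (B (A2 (K (.ofNat 3423168))) (B N N (K (.ofNat 25663752)) (K (.ofNat 5919120))) (B (K (.ofNat 2692368)) (K (.ofNat 9732384)) N N) (B (K (.negSucc 56734853)) (K (.ofNat 53104680)) N N))⟩,
  ⟨.x, T19, (B (B (K (.negSucc 7224587)) (K (.ofNat 6811020)) N N) (A0 (K (.ofNat 70046538))) N N)⟩,
  ⟨.x, T20, (B (A2 (K (.negSucc 4274423))) N (B (K (.negSucc 3770423)) (K (.ofNat 19722408)) N N) N)⟩,
  ⟨.x, T21, (A0 (A0 (K (.ofNat 15021972))))⟩,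
  ⟨.x, T22, (A0 (A0 (K (.negSucc 12692483))))⟩,
  ⟨.x, T23, (B N (A3 (K (.ofNat 1994328))) N (A1 (K (.negSucc 5423543))))⟩,
  ⟨.x, T24, (B N (A3 (K (.negSucc 2679263))) N (A1 (K (.negSucc 2821391))))⟩,
  ⟨.x, T25, (B (B (K (.ofNat 3513888)) (K (.ofNat 24347736)) N N) (A1 (K (.negSucc 8001503))) N N)⟩,
  ⟨.x, T26, (A1 (A1 (K (.ofNat 13787928))))⟩,
  ⟨.x, T27, (B N N (K (.negSucc 6858431)) (K (.negSucc 6858431)))⟩,
  ⟨.x, T28, (B N N (K (.ofNat 2714796)) (K (.negSucc 2714795)))⟩,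
  ⟨.x, T29, (A2 (K (.ofNat 9573228)))⟩,
  ⟨.x, T30, (A3 (K (.negSucc 2714795)))⟩] c_0 c_1 c_2 c_3 .nil .nil)

end Pool.Agent.Helper805.Chain.C5
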