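import Pool.Agent.Helper805.Chain.Target
set_option autoImplicit false

/-! Checking that a polynomial is zero in pieces. -/

namespace Pool.Agent.Helper805.Chain
open Tri

/-- constant coefficient -/
noncomputable def cst (t : Tri) : ℤ := Tri.casesOn (motive := fun _ => ℤ) t 0 (fun k _ _ _ _ _ _ => k)
noncomputable def c0 (t : Tri) : Tri := Tri.casesOn (motive := fun _ => Tri) t .nil (fun _ a _ _ _ _ _ => a)
noncomputable def c1 (t : Tri) : Tri := Tri.casesOn (motive := fun _ => Tri) t .nil (fun _ _ a _ _ _ _ => a)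
noncomputable def c2 (t : Tri) : Tri := Tri.casesOn (motive := fun _ => Tri) t .nil (fun _ _ _ a _ _ _ => a)
noncomputable def c3 (t : Tri) : Tri := Tri.casesOn (motive := fun _ => Tri) t .nil (fun _ _ _ _ a _ _ => a)
noncomputable def c4 (t : Tri) : Tri := Tri.casesOn (motive := fun _ => Tri) t .nil (fun _ _ _ _ _ a _ => a)
noncomputable def c5 (t : Tri) : Tri := Tri.casesOn (motive := fun _ => Tri) t .nil (fun _ _ _ _ _ _ a => a)

/-- a polynomial is zero if all its parts are zero -/
theorem isZ_split (t : Tri) (h : isz (cst t) = true) (h0 : isZ (c0 t) = true) (h1 : isZ (c1 t) = true)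
    (h2 : isZ (c2 t) = true) (h3 : isZ (c3 t) = true) (h4 : isZ (c4 t) = true) (h5 : isZ (c5 t) = true) :
    isZ t = true := by
  cases t with
  | nil => rfl
  | node k a b c d g e =>
    rw [isZ_node]
    simp only [Bool.and_eq_true]
    exact ⟨h, h0, h1, h2, h3, h4, h5⟩

end Pool.Agent.Helper805.Chain
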