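import Pool.Agent.Helper805.Chain.C5D0
import Pool.Agent.Helper805.Chain.Split
set_option autoImplicit false

/-! The kernel check of the certificate, in pieces. -/

namespace Pool.Agent.Helper805.Chain.C5
open Pool.Agent.Helper805.Chain

/-- the polynomial to be checked -/
noncomputable def pol : Tri := Tri.add (Tri.smul (Int.ofNat 381024) tC5) (total true cert)

theorem ck : Tri.isz (cst pol) = true := by decide +kernel

end Pool.Agent.Helper805.Chain.C5
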