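import Pool.Agent.Helper805.Chain.C6aE
set_option autoImplicit false

/-! The kernel check of the certificate, in pieces. -/

namespace Pool.Agent.Helper805.Chain.C6a
open Pool.Agent.Helper805.Chain

theorem ck1k : Tri.isz (cst (c1 pol)) = true := by decide +kernel
theorem ck10 : Tri.isZ (c0 (c1 pol)) = true := by decide +kernel
theorem ck11 : Tri.isZ (c1 (c1 pol)) = true := by decide +kernel
theorem ck12 : Tri.isZ (c2 (c1 pol)) = true := by decide +kernel
theorem ck13 : Tri.isZ (c3 (c1 pol)) = true := by decide +kernel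
theorem ck14 : Tri.isZ (c4 (c1 pol)) = true := by decide +kernel
theorem ck15 : Tri.isZ (c5 (c1 pol)) = true := by decide +kernel
theorem ck1 : Tri.isZ (c1 pol) = true :=
  isZ_split _ ck1k ck10 ck11 ck12 ck13 ck14 ck15

end Pool.Agent.Helper805.Chain.C6a
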