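import Pool.Agent.Helper805.Chain.C6aE0
import Pool.Agent.Helper805.Chain.C6aE1
import Pool.Agent.Helper805.Chain.C6aE2
import Pool.Agent.Helper805.Chain.C6aE3
import Pool.Agent.Helper805.Chain.C6aE4
import Pool.Agent.Helper805.Chain.C6aE5
set_option autoImplicit false

namespace Pool.Agent.Helper805.Chain.C6a
open Pool.Agent.Helper805.Chain

theorem check : Tri.isZ (Tri.add (Tri.smul (Int.ofNat 139905045504) tC6) (total false cert)) = true :=
  isZ_split pol ck ck0 ck1 ck2 ck3 ck4 ck5

end Pool.Agent.Helper805.Chain.C6a
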