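import Pool.Agent.Helper805.Chain.C6aM
set_option autoImplicit false
set_option maxRecDepth 100000

/-! Certificate data (found by computer). -/

namespace Pool.Agent.Helper805.Chain.C6a
open Pool.Agent.Helper805.Chain

def c_0000 : Cert := (.node [⟨.x, .z, (B (B N N (K (.negSucc 26833920510435827)) (K (.negSucc 17807218494156343))) (B N N (K (.ofNat 4292791483257476)) (K (.ofNat 28314168434845224))) (B (K (.ofNat 1267634174224940)) (K (.ofNat 29624159026963372)) N N) (A1 (K (.negSucc 3093514077421439))))⟩,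
  ⟨.z, .z, (B (B (K (.ofNat 20882254607342500)) (K (.ofNat 35492250743563674)) N N) (B (K (.ofNat 26418712784343080)) (K (.negSucc 12492997092756143)) N N) N N)⟩,
  ⟨.x, T0, (B N N (K (.negSucc 16168700733507887)) (K (.negSucc 20449307079047759)))⟩,
  ⟨.x, T1, (B N N (K (.ofNat 18513608176802064)) (K (.negSucc 11101778141618459)))⟩,
  ⟨.x, T2, (B (K (.ofNat 14401639336672304)) (K (.negSucc 18988622205334451)) N N)⟩,
  ⟨.z, T0, (A0 (K (.ofNat 15419832586465468)))⟩,
  ⟨.x, T9, (K (.ofNat 9652474899909012))⟩] (.node [⟨.x, .z, (B N N (K (.negSucc 2423624010044419)) (K (.ofNat 4740850956417416)))⟩,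
  ⟨.z, .z, (B (K (.negSucc 9940602530995197)) (K (.ofNat 6389757795381616)) N N)⟩,
  ⟨.x, T2, (K (.negSucc 1817695324754803))⟩,
  ⟨.z, T0, (K (.ofNat 1457091730471676))⟩] (.node [⟨.z, .z, (K (.ofNat 8953420030619712))⟩] .nil .nil .nil .nil .nil .nil) (.node [⟨.z, .z, (K (.ofNat 5338854680641912))⟩] .nil .nil .nil .nil .nil .nil) (.node [⟨.x, .z, (K (.ofNat 360603594283128))⟩] .nil .nil .nil .nil .nil .nil) (.node [⟨.x, .z, (K (.ofNat 16181974875996148))⟩] .nil .nil .nil .nil .nil .nil) .nil .nil) (.node [⟨.x, .z, (B N N (K (.negSucc 11486014533485943)) (K (.negSucc 39081044289371995)))⟩,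
  ⟨.z, .z, (B (K (.negSucc 2923002449520665)) (K (.negSucc 31579245859898733)) N N)⟩,
  ⟨.x, T2, (K (.ofNat 15724081740465344))⟩,
  ⟨.z, T0, (K (.ofNat 5552079534039304))⟩] (.node [⟨.z, .z, (K (.ofNat 19800978409590192))⟩] .nil .nil .nil .nil .nil .nil) (.node [⟨.z, .z, (K (.negSucc 2915540230553841))⟩] .nil .nil .nil .nil .nil .nil) (.node [⟨.x, .z, (K (.negSucc 56803725564499))⟩] .nil .nil .nil .nil .nil .nil) (.node [⟨.x, .z, (K (.negSucc 15723801930374335))⟩] .nil .nil .nil .nil .nil .nil) .nil .nil) (.node [⟨.x, .z, (B (K (.negSucc 37359785430959)) (K (.ofNat 33220549373570568)) N N)⟩,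
  ⟨.x, T0, (K (.negSucc 23884402068145127))⟩] .nil (.node [⟨.x, .z, (K (.ofNat 3594711486061148))⟩] .nil .nil .nil .nil .nil .nil) .nil .nil .nil .nil) (.node [⟨.x, .z, (B (K (.negSucc 82522652446785151)) (K (.negSucc 40879279972811939)) N N)⟩,
  ⟨.x, T0, (K (.ofNat 7441100617597572))⟩,
  ⟨.x, T1, (K (.ofNat 26370470537247736))⟩] (.node [⟨.x, .z, (K (.negSucc 85254008756784775))⟩] .nil .nil .nil .nil .nil .nil) (.node [⟨.x, .z, (K (.negSucc 2807474931316583))⟩] .nil .nil .nil .nil .nil .nil) .nil .nil .nil .nil) .nil .nil)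

def c_0001 : Cert := (.node [⟨.x, .z, (B (B N N (K (.ofNat 67202653634992248)) (K (.ofNat 54546678109864048))) (B N N (K (.ofNat 22148635659597896)) (K (.ofNat 14359423018852020))) (B (K (.ofNat 8605032334751708)) (K (.ofNat 1823603724725392)) N N) (A1 (K (.ofNat 739862308209000))))⟩,
  ⟨.z, .z, (B (B (K (.negSucc 34320464928264753)) (K (.ofNat 6676499123969374)) N N) (B (K (.ofNat 15878377102579694)) (K (.ofNat 2102116547402526)) N N) N N)⟩,
  ⟨.x, T0, (B N N (K (.negSucc 14944940925437015)) (K (.negSucc 50613244598404127)))⟩,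
  ⟨.x, T1, (B N N (K (.negSucc 27485309217252251)) (K (.ofNat 14028487482506496)))⟩,
  ⟨.x, T2, (B (K (.negSucc 25521421221700191)) (K (.negSucc 26744831020847399)) N N)⟩,
  ⟨.z, T0, (A0 (K (.negSucc 11222266287128731)))⟩,
  ⟨.x, T9, (K (.ofNat 5979407355825240))⟩,
  ⟨.x, T11, (K (.negSucc 13207888725060935))⟩] (.node [⟨.x, .z, (B N N (K (.ofNat 36806296244767812)) (K (.ofNat 4180379541007560)))⟩,
  ⟨.z, .z, (B (K (.negSucc 12821206882079471)) (K (.negSucc 33674905491938789)) N N)⟩,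
  ⟨.x, T2, (K (.negSucc 30665597815960955))⟩,
  ⟨.z, T0, (K (.ofNat 36269117274524184))⟩] (.node [⟨.z, .z, (K (.ofNat 38731342752139812))⟩] .nil .nil .nil .nil .nil .nil) (.node [⟨.z, .z, (K (.ofNat 4957029622910670))⟩] .nil .nil .nil .nil .nil .nil) (.node [⟨.x, .z, (K (.negSucc 12555589288004303))⟩] .nil .nil .nil .nil .nil .nil) (.node [⟨.x, .z, (K (.ofNat 2337820903308212))⟩] .nil .nil .nil .nil .nil .nil) .nil .nil) (.node [⟨.x, .z, (B N N (K (.ofNat 193311778496904)) (K (.negSucc 18895503024098711)))⟩,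
  ⟨.z, .z, (B (K (.negSucc 6188554364604231)) (K (.negSucc 10893772498911347)) N N)⟩,
  ⟨.x, T2, (K (.negSucc 9969726478296047))⟩,
  ⟨.z, T0, (K (.negSucc 3324641019845639))⟩] (.node [⟨.z, .z, (K (.ofNat 7087281124782036))⟩] .nil .nil .nil .nil .nil .nil) (.node [⟨.z, .z, (K (.ofNat 9752494996825344))⟩] .nil .nil .nil .nil .nil .nil) (.node [⟨.x, .z, (K (.negSucc 5370481282178443))⟩] .nil .nil .nil .nil .nil .nil) (.node [⟨.x, .z, (K (.ofNat 9970845718660080))⟩] .nil .nil .nil .nil .nil .nil) .nil .nil) (.node [⟨.x, .z, (B (K (.negSucc 47118134268514355)) (K (.ofNat 15067644376951476)) N N)⟩,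
  ⟨.x, T0, (K (.ofNat 5763475599519936))⟩,
  ⟨.x, T1, (K (.negSucc 17509281210332535))⟩] (.node [⟨.x, .z, (K (.negSucc 47080214862901379))⟩] .nil .nil .nil .nil .nil .nil) (.node [⟨.x, .z, (K (.ofNat 3798347951049644))⟩] .nil .nil .nil .nil .nil .nil) .nil .nil .nil .nil) (.node [⟨.x, .z, (B (K (.ofNat 32559786913294072)) (K (.ofNat 31014760427101704)) N N)⟩,
  ⟨.x, T0, (K (.negSucc 5979407355825239))⟩,
  ⟨.x, T1, (K (.negSucc 7038365691593879))⟩] (.node [⟨.x, .z, (K (.ofNat 32597146698725032))⟩] .nil .nil .nil .nil .nil .nil) (.node [⟨.x, .z, (K (.negSucc 13208728155333959))⟩] .nil .nil .nil .nil .nil .nil) .nil .nil .nil .nil) .nil .nil)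

def c_000 : Cert := (.node [⟨.x, .z, (B (B (B N N (K (.negSucc 21876058812889295)) (K (.ofNat 20700165092150960))) (B N N (K (.negSucc 125254840051222823)) (K (.negSucc 99944047669442187))) (B (K (.ofNat 15613581915333084)) (K (.ofNat 179771071596708576)) N N) (A1 (K (.ofNat 10448508570865232)))) (B (B N N (K (.negSucc 14925394091735327)) (K (.negSucc 110588581903138059))) (B N N (K (.ofNat 23869321207670196)) (K (.ofNat 50817135102014988))) (B (K (.negSucc 9244626656242579)) (K (.ofNat 18268178898237720)) N N) (A1 (K (.ofNat 65150639317720584)))) (B (B (K (.ofNat 64590055693415932)) (K (.ofNat 65736930205197860)) N N) (A0 (K (.ofNat 113404275999144204))) N N) (A1 (A1 (K (.ofNat 10769531690127648)))))⟩,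
  ⟨.z, .z, (B (B (B (K (.ofNat 19608162576132776)) (K (.negSucc 42959715481541625)) N N) (B (K (.negSucc 9010127527488407)) (K (.negSucc 45400954914593411)) N N) N N) (B (B (K (.negSucc 49775323988667865)) (K (.negSucc 33428872652004757)) N N) (B (K (.negSucc 3574336849824389)) (K (.ofNat 5792726524559184)) N N) N N) N N)⟩,
  ⟨.x, T0, (B (B N N (K (.ofNat 15386037725942544)) (K (.ofNat 32955927467461920))) (B N N (K (.ofNat 26982898951045896)) (K (.negSucc 1999778971072523))) (B (K (.negSucc 4192448544975983)) (K (.negSucc 35113910233748915)) N N) (A1 (K (.negSucc 78470977959900095))))⟩,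
  ⟨.x, T1, (B (B N N (K (.ofNat 25866688705635564)) (K (.ofNat 2157280705531644))) (B N N (K (.ofNat 27179301982240428)) (K (.ofNat 22546463463595836))) (B (K (.negSucc 4928665144515203)) (K (.negSucc 42001322593065575)) N N) (A1 (K (.ofNat 1975058063459784))))⟩,
  ⟨.x, T2, (B (B (K (.negSucc 41750542572865111)) (K (.negSucc 21920789469162391)) N N) (B (K (.negSucc 9679763535552707)) (K (.negSucc 15966807315322775)) N N) N N)⟩,
  ⟨.z, T0, (A0 (B (K (.ofNat 25241194577343452)) (K (.negSucc 29640174402325767)) N N))⟩,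
  ⟨.x, T5, (A3 (K (.negSucc 3788725969308419)))⟩,
  ⟨.x, T7, (B N N (K (.ofNat 23759240026292544)) (K (.ofNat 42784719033076260)))⟩,
  ⟨.x, T8, (B N N (K (.ofNat 38404184491562412)) (K (.ofNat 26490428240412972)))⟩,
  ⟨.x, T9, (A0 (K (.negSucc 7413811981953875)))⟩,
  ⟨.x, T10, (A3 (K (.ofNat 1156680454825248)))⟩,
  ⟨.x, T11, (A1 (K (.ofNat 565655945255808)))⟩,
  ⟨.x, T20, (K (.negSucc 19546595419630703))⟩,
  ⟨.x, T24, (K (.negSucc 6603980501616719))⟩,
  ⟨.x, T37, (K (.negSucc 5422128436814207))⟩,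
  ⟨.x, T15, (K (.ofNat 8776355695748712))⟩,
  ⟨.x, T33, (K (.ofNat 2768436285339576))⟩,
  ⟨.z, T13, (K (.negSucc 8446097617200863))⟩] c_0000 c_0001 (.node [⟨.x, .z, (B (B (K (.ofNat 7451563438154208)) (K (.ofNat 2460445600241592)) N N) (B (K (.ofNat 5889009556391796)) (K (.negSucc 58389042007451039)) N N) N N)⟩,
  ⟨.x, T0, (B (K (.ofNat 2725949778771852)) (K (.ofNat 50592493386257808)) N N)⟩,
  ⟨.x, T1, (B (K (.negSucc 7451563438154207)) (K (.negSucc 10105255589628839)) N N)⟩,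
  ⟨.x, T5, (K (.ofNat 3930153321802968))⟩,
  ⟨.x, T7, (K (.ofNat 1130642736428136))⟩,
  ⟨.x, T8, (K (.negSucc 11381716759957175))⟩] (.node [⟨.x, .z, (B (K (.ofNat 8613280474617600)) (K (.negSucc 113065273318895)) N N)⟩,
  ⟨.x, T0, (K (.ofNat 2766757424793528))⟩,
  ⟨.x, T1, (K (.negSucc 1161717036463391))⟩] (.node [⟨.x, .z, (K (.ofNat 1161717036463392))⟩] .nil .nil .nil .nil .nil .nil) (.node [⟨.x, .z, (K (.ofNat 5887401398742240))⟩] .nil .nil .nil .nil .nil .nil) .nil .nil .nil .nil) (.node [⟨.x, .z, (B (K (.negSucc 106718600160488795)) (K (.negSucc 44372356830805739)) N N)⟩,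
  ⟨.x, T0, (K (.ofNat 12844657090003788))⟩,
  ⟨.x, T1, (K (.ofNat 80907878576515444))⟩] (.node [⟨.x, .z, (K (.negSucc 92253599212013867))⟩] .nil .nil .nil .nil .nil .nil) (.node [⟨.x, .z, (K (.ofNat 11667453963957192))⟩] .nil .nil .nil .nil .nil .nil) .nil .nil .nil .nil) .nil .nil .nil .nil) (.node [⟨.x, .z, (B (B (K (.negSucc 50983206724008271)) (K (.negSucc 83896621940877075)) N N) (B (K (.ofNat 73416011050453916)) (K (.negSucc 136627111386204447)) N N) N N)⟩,
  ⟨.x, T0, (B (K (.negSucc 138233795894344135)) (K (.negSucc 45453529751820763)) N N)⟩,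
  ⟨.x, T1, (B (K (.ofNat 117154418102848496)) (K (.ofNat 180262098319561584)) N N)⟩,
  ⟨.x, T5, (K (.ofNat 105410753722821096))⟩,
  ⟨.x, T7, (K (.negSucc 92089182116314715))⟩,
  ⟨.x, T8, (K (.negSucc 35402985609106479))⟩,
  ⟨.x, T10, (K (.ofNat 36608438065261856))⟩] (.node [⟨.x, .z, (B (K (.ofNat 169078707161232744)) (K (.ofNat 12967964385229740)) N N)⟩,
  ⟨.x, T0, (K (.ofNat 92450994814464252))⟩,
  ⟨.x, T1, (K (.negSucc 253901915665163295))⟩] (.node [⟨.x, .z, (K (.ofNat 244615196426986968))⟩] .nil .nil .nil .nil .nil .nil) (.node [⟨.x, .z, (K (.ofNat 144933259434624936))⟩] .nil .nil .nil .nil .nil .nil) .nil .nil .nil .nil) (.node [⟨.x, .z, (B (K (.negSucc 76561233044810323)) (K (.negSucc 40592591490448035)) N N)⟩,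
  ⟨.x, T0, (K (.ofNat 101473621420252296))⟩,
  ⟨.x, T1, (K (.ofNat 7318245655781564))⟩] (.node [⟨.x, .z, (K (.ofNat 100969215928150556))⟩] .nil .nil .nil .nil .nil .nil) (.node [⟨.x, .z, (K (.ofNat 66763921950235932))⟩] .nil .nil .nil .nil .nil .nil) .nil .nil .nil .nil) .nil .nil .nil .nil) .nil .nil)

def c_0010 : Cert := (.node [⟨.x, .z, (B (B N N (K (.negSucc 33056072511948887)) (K (.negSucc 89405011325458571))) (B N N (K (.negSucc 44830252801239467)) (K (.negSucc 57381044739173555))) (B (K (.negSucc 22100479837378547)) (K (.negSucc 13193924430454307)) N N) (A1 (K (.negSucc 65187914353957511))))⟩,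
  ⟨.z, .z, (B (B (K (.ofNat 7371371541645846)) (K (.ofNat 26243564588433084)) N N) (B (K (.ofNat 45727342460477004)) (K (.ofNat 516828170519406)) N N) N N)⟩,
  ⟨.x, T0, (B N N (K (.ofNat 21255721225989528)) (K (.ofNat 71366257559289492)))⟩,
  ⟨.x, T1, (B N N (K (.ofNat 42057477311632728)) (K (.ofNat 9463373395142484)))⟩,
  ⟨.x, T2, (B (K (.ofNat 67435926222972660)) (K (.ofNat 67218259223467320)) N N)⟩,
  ⟨.z, T0, (A0 (K (.ofNat 182906659707876)))⟩,
  ⟨.x, T9, (K (.negSucc 38434320577575359))⟩,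
  ⟨.x, T11, (K (.negSucc 36987932170280423))⟩] (.node [⟨.x, .z, (B N N (K (.ofNat 20201203638213444)) (K (.negSucc 48194248660164839)))⟩,
  ⟨.z, .z, (B (K (.negSucc 30117036842625749)) (K (.ofNat 7011622344948324)) N N)⟩,
  ⟨.x, T2, (K (.ofNat 16874095070597676))⟩,
  ⟨.z, T0, (K (.ofNat 912126313821840))⟩] (.node [⟨.z, .z, (K (.ofNat 15458339043009048))⟩] .nil .nil .nil .nil .nil .nil) (.node [⟨.z, .z, (K (.ofNat 28176303900818598))⟩] .nil .nil .nil .nil .nil .nil) (.node [⟨.x, .z, (K (.negSucc 27450195281464067))⟩] .nil .nil .nil .nil .nil .nil) (.node [⟨.x, .z, (K (.ofNat 55216446404190060))⟩] .nil .nil .nil .nil .nil .nil) .nil .nil) (.node [⟨.x, .z, (B N N (K (.ofNat 10453146619188228)) (K (.negSucc 94543161314408111)))⟩,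
  ⟨.z, .z, (B (K (.ofNat 34107838333735626)) (K (.negSucc 28838491996397447)) N N)⟩,
  ⟨.x, T2, (K (.ofNat 58884889515743832))⟩,
  ⟨.z, T0, (K (.ofNat 17923130397101088))⟩] (.node [⟨.z, .z, (K (.ofNat 16506304383731886))⟩] .nil .nil .nil .nil .nil .nil) (.node [⟨.z, .z, (K (.negSucc 9778862653122233))⟩] .nil .nil .nil .nil .nil .nil) (.node [⟨.x, .z, (K (.ofNat 31794689216937132))⟩] .nil .nil .nil .nil .nil .nil) (.node [⟨.x, .z, (K (.negSucc 58886568376289879))⟩] .nil .nil .nil .nil .nil .nil) .nil .nil) (.node [⟨.x, .z, (B (K (.negSucc 135632415001862699)) (K (.ofNat 39655957348704672)) N N)⟩,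
  ⟨.x, T0, (K (.negSucc 31282756052896307))⟩,
  ⟨.x, T1, (K (.ofNat 49857806465388924))⟩] (.node [⟨.x, .z, (K (.negSucc 140284791772949711))⟩] .nil .nil .nil .nil .nil .nil) (.node [⟨.x, .z, (K (.ofNat 2717907388323744))⟩] .nil .nil .nil .nil .nil .nil) .nil .nil .nil .nil) (.node [⟨.x, .z, (B (K (.negSucc 7056817729276995)) (K (.ofNat 64837316100713880)) N N)⟩,
  ⟨.x, T0, (K (.ofNat 13952360375941452))⟩,
  ⟨.x, T1, (K (.negSucc 72678581987813383))⟩] (.node [⟨.x, .z, (K (.negSucc 16929950386911819))⟩] .nil .nil .nil .nil .nil .nil) (.node [⟨.x, .z, (K (.negSucc 35312458698338303))⟩] .nil .nil .nil .nil .nil .nil) .nil .nil .nil .nil) .nil .nil)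

def c_0011 : Cert := (.node [⟨.x, .z, (B (B N N (K (.negSucc 70127626503071939)) (K (.negSucc 69050407894428343))) (B N N (K (.negSucc 112558812425108391)) (K (.negSucc 123897010053822719))) (B (K (.negSucc 47141973900049683)) (K (.ofNat 37389164947827808)) N N) (A1 (K (.negSucc 109217195210291267))))⟩,
  ⟨.z, .z, (B (B (K (.ofNat 64223139852379882)) (K (.ofNat 50809257623391832)) N N) (B (K (.ofNat 57873953934781430)) (K (.ofNat 6919804440449028)) N N) N N)⟩,
  ⟨.x, T0, (B N N (K (.ofNat 4073585385879552)) (K (.ofNat 108668203510271328)))⟩,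
  ⟨.x, T1, (B N N (K (.ofNat 91918183501897740)) (K (.negSucc 9303630961207823)))⟩,
  ⟨.x, T2, (B (K (.ofNat 97901378706045140)) (K (.ofNat 76669262676897516)) N N)⟩,
  ⟨.z, T0, (A0 (K (.ofNat 51702448075161160)))⟩,
  ⟨.x, T9, (K (.negSucc 857325337471223))⟩,
  ⟨.x, T11, (K (.negSucc 14531601540453035))⟩] (.node [⟨.x, .z, (B N N (K (.negSucc 29305555199930503)) (K (.negSucc 51066182564631939)))⟩,
  ⟨.z, .z, (B (K (.negSucc 45313806785205519)) (K (.ofNat 14652213929572564)) N N)⟩,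
  ⟨.x, T2, (K (.ofNat 21126513191203288))⟩,
  ⟨.z, T0, (K (.negSucc 35967822400641531))⟩] (.node [⟨.z, .z, (K (.ofNat 21219334442787618))⟩] .nil .nil .nil .nil .nil .nil) (.node [⟨.z, .z, (K (.ofNat 34635577356638236))⟩] .nil .nil .nil .nil .nil .nil) (.node [⟨.x, .z, (K (.ofNat 27544357388797344))⟩] .nil .nil .nil .nil .nil .nil) (.node [⟨.x, .z, (K (.ofNat 76208724880109116))⟩] .nil .nil .nil .nil .nil .nil) .nil .nil) (.node [⟨.x, .z, (B N N (K (.negSucc 25974822658463499)) (K (.negSucc 70943181904155475)))⟩,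
  ⟨.z, .z, (B (K (.negSucc 17010914639408033)) (K (.negSucc 29493698408445579)) N N)⟩,
  ⟨.x, T2, (K (.ofNat 56008793442022220))⟩,
  ⟨.z, T0, (K (.ofNat 33364225588213708))⟩] (.node [⟨.z, .z, (K (.ofNat 5871733589188002))⟩] .nil .nil .nil .nil .nil .nil) (.node [⟨.z, .z, (K (.negSucc 27129731951450007))⟩] .nil .nil .nil .nil .nil .nil) (.node [⟨.x, .z, (K (.ofNat 51920617934483548))⟩] .nil .nil .nil .nil .nil .nil) (.node [⟨.x, .z, (K (.negSucc 56009353062204235))⟩] .nil .nil .nil .nil .nil .nil) .nil .nil) (.node [⟨.x, .z, (B (K (.negSucc 78401537024556247)) (K (.ofNat 89290957094643168)) N N)⟩,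
  ⟨.x, T0, (K (.negSucc 86811674242129895))⟩,
  ⟨.x, T1, (K (.ofNat 50117329624597604))⟩] (.node [⟨.x, .z, (K (.negSucc 83054473415825275))⟩] .nil .nil .nil .nil .nil .nil) (.node [⟨.x, .z, (K (.negSucc 60151192277834295))⟩] .nil .nil .nil .nil .nil .nil) .nil .nil .nil .nil) (.node [⟨.x, .z, (B (K (.negSucc 551192797114747)) (K (.ofNat 15461566395940104)) N N)⟩,
  ⟨.x, T0, (K (.ofNat 857325337471224))⟩,
  ⟨.x, T1, (K (.negSucc 97350185908930391))⟩] (.node [⟨.x, .z, (K (.negSucc 5207766719566879))⟩] .nil .nil .nil .nil .nil .nil) (.node [⟨.x, .z, (K (.negSucc 14532720780817067))⟩] .nil .nil .nil .nil .nil .nil) .nil .nil .nil .nil) .nil .nil)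

def c_001 : Cert := (.node [⟨.x, .z, (B (B (B N N (K (.ofNat 3285863242596204)) (K (.ofNat 26126734492498680))) (B N N (K (.ofNat 32642210224710368)) (K (.negSucc 27377078321784375))) (B (K (.negSucc 46413341854421015)) (K (.ofNat 8277412597490704)) N N) (A1 (K (.negSucc 41833220498009187)))) (B (B N N (K (.negSucc 16445346441422867)) (K (.negSucc 86338196672970531))) (B N N (K (.ofNat 32295457180211616)) (K (.negSucc 12872377413887747))) (B (K (.negSucc 127844196894965915)) (K (.negSucc 70574198873503679)) N N) (A1 (K (.negSucc 54906052199015999)))) (B (B (K (.ofNat 23930331327711156)) (K (.negSucc 17578415685266115)) N N) (A0 (K (.ofNat 86039884296323596))) N N) (A1 (A1 (K (.negSucc 29546290081950647)))))⟩,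
  ⟨.z, .z, (B (B (B (K (.ofNat 69918464582350070)) (K (.ofNat 16662677432113116)) N N) (B (K (.ofNat 72613246634174582)) (K (.ofNat 23972626948245466)) N N) N N) (B (B (K (.ofNat 37422444410360280)) (K (.ofNat 12777183227282446)) N N) (B (K (.ofNat 24630915088880928)) (K (.ofNat 22600617565199268)) N N) N N) N N)⟩,
  ⟨.x, T0, (B (B N N (K (.ofNat 18554602153524480)) (K (.ofNat 61759420050258972))) (B N N (K (.negSucc 21402085499224991)) (K (.negSucc 4533352906199855))) (B (K (.ofNat 19207971739588560)) (K (.ofNat 23272315859106672)) N N) (A1 (K (.ofNat 46326456256886724))))⟩,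
  ⟨.x, T1, (B (B N N (K (.negSucc 329295183046859)) (K (.negSucc 10356510109195295))) (B N N (K (.negSucc 67732714653203711)) (K (.ofNat 16764932923290192))) (B (K (.ofNat 27775832995139388)) (K (.ofNat 34643809463599080)) N N) (A1 (K (.negSucc 4404386728207655))))⟩,
  ⟨.x, T2, (B (B (K (.negSucc 12299473494117719)) (K (.ofNat 64596350172460588)) N N) (B (K (.ofNat 50229643203514368)) (K (.ofNat 55993799913604308)) N N) N N)⟩,
  ⟨.z, T0, (A0 (B (K (.negSucc 14116825168287023)) (K (.ofNat 41472496683514196)) N N))⟩,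
  ⟨.x, T5, (A3 (K (.ofNat 5912907068671020)))⟩,
  ⟨.x, T7, (B N N (K (.ofNat 12070634653717164)) (K (.ofNat 30412674436605144)))⟩,
  ⟨.x, T8, (B N N (K (.ofNat 10533067580912172)) (K (.ofNat 26245931835020796)))⟩,
  ⟨.x, T9, (A0 (K (.negSucc 25747683001880459)))⟩,
  ⟨.x, T10, (A3 (K (.ofNat 12450174411477768)))⟩,
  ⟨.x, T11, (A1 (K (.negSucc 13803141790138127)))⟩,
  ⟨.x, T20, (K (.negSucc 4886834366947499))⟩,
  ⟨.x, T24, (K (.ofNat 5792407959741528))⟩,
  ⟨.x, T37, (K (.negSucc 11024317798981727))⟩,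
  ⟨.x, T15, (K (.ofNat 69047391641580))⟩,
  ⟨.x, T33, (K (.ofNat 5219356836092772))⟩,
  ⟨.z, T13, (K (.ofNat 723884321704680))⟩] c_0010 c_0011 (.node [⟨.x, .z, (B (B (K (.ofNat 91844897501528584)) (K (.negSucc 4164972503024087)) N N) (B (K (.ofNat 36306089560461292)) (K (.ofNat 110591924190572620)) N N) N N)⟩,
  ⟨.x, T0, (B (K (.ofNat 42336587545716248)) (K (.ofNat 21401295461660264)) N N)⟩,
  ⟨.x, T1, (B (K (.negSucc 37079848728317527)) (K (.ofNat 18820594069419960)) N N)⟩,
  ⟨.x, T5, (K (.negSucc 75814266609601331))⟩,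
  ⟨.x, T7, (K (.ofNat 79912366549242408))⟩,
  ⟨.x, T8, (K (.ofNat 117659023999459240))⟩,
  ⟨.x, T10, (K (.negSucc 23029124181305647))⟩] (.node [⟨.x, .z, (B (K (.negSucc 80898103467325187)) (K (.ofNat 30592879859672172)) N N)⟩,
  ⟨.x, T0, (K (.negSucc 140406219168766991))⟩,
  ⟨.x, T1, (K (.ofNat 195772125150159420))⟩] (.node [⟨.x, .z, (K (.negSucc 97193240221922003))⟩] .nil .nil .nil .nil .nil .nil) (.node [⟨.x, .z, (K (.negSucc 170439915277282079))⟩] .nil .nil .nil .nil .nil .nil) .nil .nil .nil .nil) (.node [⟨.x, .z, (B (K (.ofNat 236838457694891428)) (K (.ofNat 70214262944326444)) N N)⟩,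
  ⟨.x, T0, (K (.negSucc 151519697577205091))⟩,
  ⟨.x, T1, (K (.negSucc 78756983782089891))⟩] (.node [⟨.x, .z, (K (.negSucc 49584728299816763))⟩] .nil .nil .nil .nil .nil .nil) (.node [⟨.x, .z, (K (.negSucc 147436001999591939))⟩] .nil .nil .nil .nil .nil .nil) .nil .nil .nil .nil) .nil .nil .nil .nil) (.node [⟨.x, .z, (B (B (K (.ofNat 23958054620129124)) (K (.negSucc 33574940931914115)) N N) (B (K (.negSucc 42026323897063859)) (K (.negSucc 25079111131413227)) N N) N N)⟩,
  ⟨.x, T0, (B (K (.ofNat 103205306090989872)) (K (.ofNat 68783004433455744)) N N)⟩,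
  ⟨.x, T1, (B (K (.negSucc 80441585559467147)) (K (.negSucc 99804413674002215)) N N)⟩,
  ⟨.x, T5, (K (.negSucc 8674618655653667))⟩,
  ⟨.x, T7, (K (.ofNat 13561453022601168))⟩,
  ⟨.x, T8, (K (.negSucc 16374778047155675))⟩,
  ⟨.x, T10, (K (.negSucc 68783004433455743))⟩] (.node [⟨.x, .z, (B (K (.ofNat 65279151946067548)) (K (.ofNat 8854202888918988)) N N)⟩,
  ⟨.x, T0, (K (.negSucc 52975662887475503))⟩,
  ⟨.x, T1, (K (.ofNat 32681263943610092))⟩] (.node [⟨.x, .z, (K (.ofNat 46158760447015492))⟩] .nil .nil .nil .nil .nil .nil) (.node [⟨.x, .z, (K (.negSucc 84225051435183875))⟩] .nil .nil .nil .nil .nil .nil) .nil .nil .nil .nil) (.node [⟨.x, .z, (B (K (.negSucc 27133026063546863)) (K (.negSucc 24561389806529315)) N N)⟩,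
  ⟨.x, T0, (K (.negSucc 58200634346041595))⟩,
  ⟨.x, T1, (K (.ofNat 84760609285939704))⟩] (.node [⟨.x, .z, (K (.negSucc 93306986549359919))⟩] .nil .nil .nil .nil .nil .nil) (.node [⟨.x, .z, (K (.negSucc 67841408615260775))⟩] .nil .nil .nil .nil .nil .nil) .nil .nil .nil .nil) .nil .nil .nil .nil) .nil .nil)

def c_002 : Cert := (.node [⟨.x, .z, (B (B (B (K (.negSucc 13328468307006083)) (K (.negSucc 28604260042163231)) N N) (B (K (.negSucc 50996313726837587)) (K (.ofNat 9347244540319152)) N N) N N) (B (B (K (.negSucc 71970722826679823)) (K (.ofNat 41153701523538852)) N N) (B (K (.negSucc 16360158353520767)) (K (.ofNat 8662506321866328)) N N) N N) N N)⟩,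
  ⟨.x, T0, (B (B (K (.ofNat 41986399902649212)) (K (.negSucc 70158886680858563)) N N) (B (K (.negSucc 20571560893773263)) (K (.negSucc 11159509765656263)) N N) N N)⟩,
  ⟨.x, T1, (B (B (K (.ofNat 12108080034138132)) (K (.ofNat 8974779021414456)) N N) (B (K (.ofNat 32156415173265576)) (K (.negSucc 23078367877807067)) N N) N N)⟩,
  ⟨.x, T4, (B N N (K (.ofNat 1555803691229310)) (K (.negSucc 1059472405511009)))⟩,
  ⟨.x, T5, (A1 (K (.ofNat 7390519756104648)))⟩,
  ⟨.x, T6, (B N N (K (.ofNat 7853319419222430)) (K (.negSucc 1041018853247549)))⟩,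
  ⟨.x, T7, (B (K (.negSucc 18041700877319615)) (K (.negSucc 20262357720421799)) N N)⟩,
  ⟨.x, T8, (B (K (.negSucc 6719866832121359)) (K (.negSucc 37292022740077127)) N N)⟩,
  ⟨.x, T10, (A1 (K (.negSucc 17445437084201291)))⟩,
  ⟨.x, T29, (K (.ofNat 1740733602482664))⟩,
  ⟨.x, T13, (K (.ofNat 4512430148628816))⟩,
  ⟨.x, T14, (K (.ofNat 19361922743732772))⟩,
  ⟨.x, T30, (K (.ofNat 18827946866259492))⟩,
  ⟨.x, T31, (K (.ofNat 2602898054926152))⟩,
  ⟨.x, T32, (K (.negSucc 1382509782058199))⟩] (.node [⟨.x, .z, (B (B (K (.negSucc 9231673797603383)) (K (.negSucc 9715273471750991)) N N) (B (K (.negSucc 38326650046788779)) (K (.negSucc 26315868654833315)) N N) N N)⟩,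
  ⟨.x, T0, (B (K (.ofNat 20562919848799584)) (K (.ofNat 30544169276550768)) N N)⟩,
  ⟨.x, T1, (B (K (.negSucc 5317182782270651)) (K (.negSucc 22874394407396591)) N N)⟩,
  ⟨.x, T5, (K (.negSucc 4069186740965303))⟩,
  ⟨.x, T7, (K (.ofNat 1200171614783868))⟩,
  ⟨.x, T8, (K (.negSucc 18869185182555455))⟩] (.node [⟨.x, .z, (B (K (.negSucc 2581086781570595)) (K (.negSucc 423508946208035)) N N)⟩,
  ⟨.x, T0, (K (.negSucc 502633022359619))⟩,
  ⟨.x, T1, (K (.ofNat 5457493018105344))⟩] (.node [⟨.x, .z, (K (.negSucc 6677881290973295))⟩] .nil .nil .nil .nil .nil .nil) (.node [⟨.x, .z, (K (.ofNat 12172850339318700))⟩] .nil .nil .nil .nil .nil .nil) .nil .nil .nil .nil) (.node [⟨.x, .z, (B (K (.negSucc 44589325312971635)) (K (.negSucc 33876090843026927)) N N)⟩,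
  ⟨.x, T0, (K (.ofNat 17648796909687504))⟩,
  ⟨.x, T1, (K (.ofNat 25720140130416180))⟩] (.node [⟨.x, .z, (K (.negSucc 37030938083572595))⟩] .nil .nil .nil .nil .nil .nil) (.node [⟨.x, .z, (K (.negSucc 1063838324875283))⟩] .nil .nil .nil .nil .nil .nil) .nil .nil .nil .nil) .nil .nil .nil .nil) (.node [⟨.x, .z, (B (B (K (.ofNat 23641801852877480)) (K (.negSucc 140243337959368763)) N N) (B (K (.ofNat 83737335392533436)) (K (.negSucc 128720070975835623)) N N) N N)⟩,
  ⟨.x, T0, (B (K (.negSucc 227328440405585707)) (K (.negSucc 100527506733122443)) N N)⟩,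
  ⟨.x, T1, (B (K (.ofNat 138743187030715916)) (K (.ofNat 219650363977291704)) N N)⟩,
  ⟨.x, T5, (K (.ofNat 118599276763338696))⟩,
  ⟨.x, T7, (K (.negSucc 125920938662230187))⟩,
  ⟨.x, T8, (K (.negSucc 32939924716026339))⟩,
  ⟨.x, T10, (K (.ofNat 120374092388998280))⟩] (.node [⟨.x, .z, (B (K (.ofNat 155078215770393180)) (K (.negSucc 104575609584341063)) N N)⟩,
  ⟨.x, T0, (K (.ofNat 229958842950193968))⟩,
  ⟨.x, T1, (K (.negSucc 264452562218125391))⟩] (.node [⟨.x, .z, (K (.ofNat 193531460778291732))⟩] .nil .nil .nil .nil .nil .nil) (.node [⟨.x, .z, (K (.ofNat 187937220939147336))⟩] .nil .nil .nil .nil .nil .nil) .nil .nil .nil .nil) (.node [⟨.x, .z, (B (K (.negSucc 99693433485815935)) (K (.negSucc 62709947336818299)) N N)⟩,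
  ⟨.x, T0, (K (.ofNat 183421755067092960))⟩,
  ⟨.x, T1, (K (.negSucc 74121012814562871))⟩] (.node [⟨.x, .z, (K (.ofNat 131589393913350536))⟩] .nil .nil .nil .nil .nil .nil) (.node [⟨.x, .z, (K (.ofNat 145355913077927244))⟩] .nil .nil .nil .nil .nil .nil) .nil .nil .nil .nil) .nil .nil .nil .nil) (.node [⟨.x, T4, (K (.negSucc 610194136433975))⟩,
  ⟨.x, T6, (K (.negSucc 19438141002693467))⟩] .nil .nil .nil .nil .nil .nil) (.node [⟨.x, T4, (K (.ofNat 2409710055515760))⟩,
  ⟨.x, T6, (K (.ofNat 3731277844733232))⟩] .nil .nil .nil .nil .nil .nil) .nil .nil)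

def c_003 : Cert := (.node [⟨.x, .z, (B (B (B (K (.ofNat 537943697642273274)) (K (.ofNat 437638832481388882)) N N) (B (K (.ofNat 649580694464032873)) (K (.negSucc 29429935513399636)) N N) N N) (B (B (K (.ofNat 420782572456212746)) (K (.ofNat 402046080538053450)) N N) (B (K (.ofNat 199912931835430064)) (K (.ofNat 46072910855787428)) N N) N N) N N)⟩,
  ⟨.x, T0, (B (B (K (.negSucc 233958175418741611)) (K (.negSucc 429851974718508484)) N N) (B (K (.negSucc 198437071620882353)) (K (.negSucc 62829826017602725)) N N) N N)⟩,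
  ⟨.x, T1, (B (B (K (.negSucc 300720385228713913)) (K (.negSucc 79598884184409848)) N N) (B (K (.negSucc 579411545286240226)) (K (.negSucc 6269354734039396)) N N) N N)⟩,
  ⟨.x, T4, (B N N (K (.ofNat 12304789662959198)) (K (.ofNat 8343779722354305)))⟩,
  ⟨.x, T5, (A1 (K (.negSucc 7137378443827405)))⟩,
  ⟨.x, T6, (B N N (K (.ofNat 88694947460079064)) (K (.negSucc 11338836269971774)))⟩,
  ⟨.x, T7, (B (K (.negSucc 302500893533671527)) (K (.negSucc 185047866939071425)) N N)⟩,
  ⟨.x, T8, (B (K (.negSucc 316461476316910408)) (K (.ofNat 124583806152042227)) N N)⟩,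
  ⟨.x, T10, (A1 (K (.ofNat 218414239018525331)))⟩,
  ⟨.x, T29, (K (.negSucc 60099959182399529))⟩,
  ⟨.x, T13, (K (.ofNat 91128844452900852))⟩,
  ⟨.x, T14, (K (.ofNat 48188349003979740))⟩,
  ⟨.x, T30, (K (.negSucc 174035989479714284))⟩,
  ⟨.x, T31, (K (.ofNat 67728860495339210))⟩,
  ⟨.x, T32, (K (.negSucc 125314074168626929))⟩] (.node [⟨.x, .z, (B (B (K (.ofNat 426153395534645612)) (K (.ofNat 131150958013194154)) N N) (B (K (.ofNat 182920883222160316)) (K (.negSucc 73660980537328551)) N N) N N)⟩,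
  ⟨.x, T0, (B (K (.negSucc 81585191112079695)) (K (.negSucc 81026002564957465)) N N)⟩,
  ⟨.x, T1, (B (K (.ofNat 326139002736925154)) (K (.ofNat 342336045503657556)) N N)⟩,
  ⟨.x, T5, (K (.negSucc 86596381821314225))⟩,
  ⟨.x, T7, (K (.negSucc 157144352933650299))⟩,
  ⟨.x, T8, (K (.ofNat 224113132575054674))⟩,
  ⟨.x, T10, (K (.ofNat 156763486956009772))⟩] (.node [⟨.x, .z, (B (K (.negSucc 45666161016912405)) (K (.negSucc 13074081483886013)) N N)⟩,
  ⟨.x, T0, (K (.negSucc 46169171739000669))⟩,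
  ⟨.x, T1, (K (.ofNat 12095189500523508))⟩] (.node [⟨.x, .z, (K (.ofNat 73735289943323640))⟩] .nil .nil .nil .nil .nil .nil) (.node [⟨.x, .z, (K (.negSucc 17919228881004937))⟩] .nil .nil .nil .nil .nil .nil) .nil .nil .nil .nil) (.node [⟨.x, .z, (B (K (.ofNat 717055640200746751)) (K (.ofNat 192450124160028762)) N N)⟩,
  ⟨.x, T0, (K (.negSucc 152471555609143653))⟩,
  ⟨.x, T1, (K (.negSucc 462169408880101892))⟩] (.node [⟨.x, .z, (K (.ofNat 180342808785447024))⟩] .nil .nil .nil .nil .nil .nil) (.node [⟨.x, .z, (K (.ofNat 15429980321271400))⟩] .nil .nil .nil .nil .nil .nil) .nil .nil .nil .nil) .nil .nil .nil .nil) (.node [⟨.x, .z, (B (B (K (.negSucc 179136556434232492)) (K (.ofNat 273555808624963131)) N N) (B (K (.ofNat 157284526041586162)) (K (.negSucc 227151884621738017)) N N) N N)⟩,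
  ⟨.x, T0, (B (K (.negSucc 64846737279171653)) (K (.ofNat 115967812305789430)) N N)⟩,
  ⟨.x, T1, (B (K (.ofNat 57043470545755379)) (K (.negSucc 481176120597750842)) N N)⟩,
  ⟨.x, T5, (K (.ofNat 78485797237583842))⟩,
  ⟨.x, T7, (K (.negSucc 239780000065673185))⟩,
  ⟨.x, T8, (K (.negSucc 291699685075485135))⟩,
  ⟨.x, T10, (K (.negSucc 37252812724568709))⟩] (.node [⟨.x, .z, (B (K (.ofNat 455309536197743987)) (K (.negSucc 107344548982785837)) N N)⟩,
  ⟨.x, T0, (K (.ofNat 74902942527677162))⟩,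
  ⟨.x, T1, (K (.negSucc 141383566892877144))⟩] (.node [⟨.x, .z, (K (.ofNat 134450601500119040))⟩] .nil .nil .nil .nil .nil .nil) (.node [⟨.x, .z, (K (.ofNat 202108307002215402))⟩] .nil .nil .nil .nil .nil .nil) .nil .nil .nil .nil) (.node [⟨.x, .z, (B (K (.negSucc 66773626650376418)) (K (.ofNat 2609626359946544)) N N)⟩,
  ⟨.x, T0, (K (.negSucc 100664001677907107))⟩,
  ⟨.x, T1, (K (.ofNat 263207565979121399))⟩] (.node [⟨.x, .z, (K (.ofNat 34837431957700032))⟩] .nil .nil .nil .nil .nil .nil) (.node [⟨.x, .z, (K (.ofNat 279628017392524914))⟩] .nil .nil .nil .nil .nil .nil) .nil .nil .nil .nil) .nil .nil .nil .nil) (.node [⟨.x, T4, (K (.negSucc 6048159203405759))⟩,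
  ⟨.x, T6, (K (.ofNat 97693341993352713))⟩] .nil .nil .nil .nil .nil .nil) (.node [⟨.x, T4, (K (.negSucc 22325190888208160))⟩,
  ⟨.x, T6, (K (.negSucc 17529845289294056))⟩] .nil .nil .nil .nil .nil .nil) .nil .nil)

def c_00 : Cert := (.node [⟨.x, .z, (B (B (B (B N N (K (.ofNat 15453364752638748)) (K (.ofNat 15889264546269916))) (B N N (K (.ofNat 223827579886811292)) (K (.ofNat 234120964388531052))) (B (K (.ofNat 23424388440694404)) (K (.negSucc 211665953481426599)) N N) (A1 (K (.negSucc 766922598798487)))) (B (B N N (K (.negSucc 28645701385236515)) (K (.ofNat 58968430057918480))) (B N N (K (.ofNat 140370859849992612)) (K (.ofNat 126635225481957512))) (B (K (.negSucc 88478845326896651)) (K (.negSucc 148437476575938607)) N N) (A1 (K (.negSucc 104414964570852607)))) (B (B (K (.ofNat 99000359055123288)) (K (.negSucc 120012868725548651)) N N) (A0 (K (.ofNat 969186004113492))) N N) (A1 (A1 (K (.negSucc 10025522250397311))))) (B (B (B N N (K (.ofNat 6349401712629564))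 (K (.negSucc 94286135394442063))) (B N N (K (.ofNat 108989091990291344)) (K (.negSucc 78928612488718023))) (B (K (.ofNat 6006118268217096)) (K (.ofNat 4073466787692500)) N N) (A1 (K (.negSucc 166235704438316455)))) (B (B N N (K (.ofNat 33312965147077320)) (K (.negSucc 210933287225010275))) (B N N (K (.ofNat 81083304804957960)) (K (.ofNat 40151735326331448))) (B (K (.negSucc 70277525756999759)) (K (.negSucc 58239213948473999)) N N) (A1 (K (.ofNat 24423828923301072)))) (B (B (K (.ofNat 183359310503505488)) (K (.ofNat 176945483980824584)) N N) (A0 (K (.ofNat 240535403999976972))) N N) (A1 (A1 (K (.negSucc 11226778362005123))))) (A0 (B (B (K (.negSucc 77794172954516703)) (K (.negSucc 150720998235806367)) N N) (A0 (K (.ofNat 6163073282457092))) N N)) (A1 (A1 (A1 (K (.ofNat 5259617301951780))))))⟩,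
  ⟨.z, .z, (B (B (B (B (K (.negSucc 102235744217213431)) (K (.ofNat 3312686478209264)) N N) (B (K (.negSucc 64834342827540847)) (K (.ofNat 22872384258805274)) N N) N N) (B (B (K (.negSucc 93377455719040091)) (K (.ofNat 40739526898593054)) N N) (B (K (.negSucc 20530956670199243)) (K (.ofNat 15057154487909610)) N N) N N) N N) (B (B (B (K (.negSucc 16259893017865197)) (K (.ofNat 26242252140198790)) N N) (B (K (.ofNat 12430870543144958)) (K (.negSucc 8418036229589665)) N N) N N) (B (A0 (K (.negSucc 6812047024490135))) (A1 (K (.negSucc 4041561231349967))) N N) N N) N N)⟩,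
  ⟨.x, T0, (B (B (B N N (K (.ofNat 3466721435505372)) (K (.negSucc 85059232324104539))) (B N N (K (.ofNat 93075290923103616)) (K (.ofNat 23154584036127948))) (B (K (.negSucc 26160191844067763)) (K (.negSucc 122786469145752707)) N N) (A1 (K (.ofNat 61895362724897772)))) (B (B N N (K (.ofNat 39351731065706436)) (K (.ofNat 5081822338419468))) (B N N (K (.negSucc 5983635851411567)) (K (.negSucc 32819417249163743))) (B (K (.ofNat 43843035475315224)) (K (.negSucc 19109041609115735)) N N) (A1 (K (.negSucc 7565600063296703)))) (B (B (K (.negSucc 3490641362633447)) (K (.negSucc 70840542223873475)) N N) (A0 (K (.negSucc 108124974430303559))) N N) (A1 (A1 (K (.ofNat 20144901692383560)))))⟩,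
  ⟨.x, T1, (B (B (B N N (K (.ofNat 16908574687734996)) (K (.ofNat 7660661990459892))) (B N N (K (.ofNat 67104638039005776)) (K (.ofNat 51523506924068652))) (B (K (.ofNat 3841621605469380)) (K (.negSucc 57723826986269915)) N N) (A1 (K (.ofNat 1781382281225688)))) (B (B N N (K (.negSucc 11689693714709663)) (K (.ofNat 35495382117549204))) (B N N (K (.ofNat 61441234588105212)) (K (.ofNat 15613978539649572))) (B (K (.ofNat 3554657988917844)) (K (.ofNat 17271945424755852)) N N) (A1 (K (.ofNat 10781272285653000)))) (B (B (K (.negSucc 78977728388268347)) (K (.ofNat 26032182403874652)) N N) (A0 (K (.negSucc 22270289509258331))) N N) N)⟩,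
  ⟨.x, T2, (B (B (B (K (.negSucc 12187769259286743)) (K (.ofNat 37836248844260260)) N N) (B (K (.ofNat 36103037544327176)) (K (.ofNat 7104476215793008)) N N) N N) (B (B (K (.negSucc 9677718713164895)) (K (.negSucc 8702108760760499)) N N) (B (K (.ofNat 16040517251870832)) (K (.negSucc 6769925901903875)) N N) N N) N N)⟩,
  ⟨.z, T0, (A0 (B (B (K (.negSucc 72664193277773383)) (K (.ofNat 18495989071998632)) N N) (B (K (.negSucc 23459780068230703)) (K (.ofNat 14025519415718204)) N N) N N))⟩,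
  ⟨.x, T4, (B N N (B N N (K (.ofNat 6106758829252872)) (K (.ofNat 7596790508871828))) (A3 (K (.negSucc 3497017492601003))))⟩,
  ⟨.x, T5, (B N (A3 (K (.negSucc 7866621264765587))) N (A1 (K (.negSucc 9876914704514231))))⟩,
  ⟨.x, T6, (B N N (B N N (K (.negSucc 2430419873946863)) (K (.negSucc 11509426542619097))) (A3 (K (.ofNat 4683172169243214))))⟩,
  ⟨.x, T7, (B (B N N (K (.ofNat 3470773106507076)) (K (.negSucc 15305176039448615))) (B N N (K (.ofNat 6667527397135224)) (K (.ofNat 8256187915255968))) (B (K (.negSucc 19535167338568823)) (K (.negSucc 3838005869455679)) N N) (A1 (K (.ofNat 20932483046350548))))⟩,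
  ⟨.x, T8, (B (B N N (K (.ofNat 21543123867075876)) (K (.negSucc 7256336624762279))) (B N N (K (.ofNat 68257944692560308)) (K (.ofNat 17651711421345144))) (B (K (.negSucc 2226467388756851)) (K (.negSucc 10670421618379019)) N N) (A1 (K (.ofNat 19589897887186200))))⟩,
  ⟨.x, T9, (A0 (B (K (.ofNat 13306134801379956)) (K (.ofNat 17547200447319408)) N N))⟩,
  ⟨.x, T10, (B N (B N N (K (.ofNat 21113481276426756)) (K (.negSucc 1414430272154483))) N (A1 (K (.ofNat 1403990030461032))))⟩,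
  ⟨.x, T11, (A1 (B (K (.negSucc 10337842074695855)) (K (.negSucc 1928942108593067)) N N))⟩,
  ⟨.x, T29, (A3 (K (.ofNat 10912496522336400)))⟩,
  ⟨.x, T13, (B N N (K (.negSucc 5064921043840739)) (K (.ofNat 642294773627796)))⟩,
  ⟨.x, T14, (B N N (K (.negSucc 13640282498378651)) (K (.negSucc 2248135274466911)))⟩,
  ⟨.x, T20, (A0 (K (.ofNat 9815493438746508)))⟩,
  ⟨.x, T30, (A2 (K (.negSucc 2803031823742547)))⟩,
  ⟨.x, T24, (A0 (K (.ofNat 12520375169571384)))⟩,
  ⟨.x, T31, (A3 (K (.ofNat 2087024320925736)))⟩,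
  ⟨.x, T37, (A1 (K (.ofNat 1630355334614520)))⟩,
  ⟨.x, T32, (A3 (K (.ofNat 4108302776598468)))⟩,
  ⟨.x, T15, (B (K (.ofNat 6927094941397812)) (K (.ofNat 4102799178950568)) N N)⟩,
  ⟨.x, T33, (A1 (K (.negSucc 8808205886396687)))⟩,
  ⟨.z, T13, (A0 (K (.negSucc 5387903884426067)))⟩,
  ⟨.x, T21, (K (.ofNat 4030805308086792))⟩,
  ⟨.x, T25, (K (.negSucc 1819024664611319))⟩,
  ⟨.x, T38, (K (.negSucc 6496526154936851))⟩,
  ⟨.x, T39, (K (.negSucc 11784514591070351))⟩,
  ⟨.x, T41, (K (.negSucc 849387424104287))⟩,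
  ⟨.x, T36, (K (.ofNat 2863709128044108))⟩,
  ⟨.x, T42, (K (.ofNat 2240494866310824))⟩,
  ⟨.z, T16, (K (.negSucc 2717608747290731))⟩,
  ⟨.z, T18, (K (.negSucc 5369534745933527))⟩] c_000 c_001 c_002 c_003 .nil .nil)

def c_0100 : Cert := (.node [⟨.x, .z, (B (B N N (K (.negSucc 54498611501249759)) (K (.negSucc 38467360049572451))) (B N N (K (.negSucc 3181694911615079)) (K (.negSucc 1696947100224059))) (B (K (.negSucc 35631284161844759)) (K (.ofNat 7096137705857040)) N N) (A1 (K (.ofNat 3533086414639008))))⟩,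
  ⟨.z, .z, (B (B (K (.ofNat 31366073644496808)) (K (.ofNat 30444611126380620)) N N) (B (K (.ofNat 30051504174827040)) (K (.negSucc 22351369073641235)) N N) N N)⟩,
  ⟨.x, T0, (B N N (K (.ofNat 18649474288628892)) (K (.ofNat 27359666660778840)))⟩,
  ⟨.x, T1, (B N N (K (.ofNat 1953459504024888)) (K (.negSucc 23534492040930059)))⟩,
  ⟨.x, T2, (B (K (.ofNat 53312065161454128)) (K (.ofNat 19350985980441636)) N N)⟩,
  ⟨.z, T0, (A0 (K (.negSucc 26072279561681243)))⟩,
  ⟨.x, T9, (K (.negSucc 29362254500205803))⟩,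
  ⟨.x, T11, (K (.ofNat 5115929224390848))⟩] (.node [⟨.x, .z, (B N N (K (.negSucc 31582216625964327)) (K (.negSucc 9668504287991923)))⟩,
  ⟨.z, .z, (B (K (.negSucc 8693802774895291)) (K (.ofNat 8754174985913882)) N N)⟩,
  ⟨.x, T2, (K (.ofNat 39043209996806468))⟩,
  ⟨.z, T0, (K (.negSucc 25890149301239167))⟩] (.node [⟨.z, .z, (K (.negSucc 34018344539078441))⟩] .nil .nil .nil .nil .nil .nil) (.node [⟨.z, .z, (K (.negSucc 4080706036792113))⟩] .nil .nil .nil .nil .nil .nil) (.node [⟨.x, .z, (K (.negSucc 20837526156695363))⟩] .nil .nil .nil .nil .nil .nil) (.node [⟨.x, .z, (K (.ofNat 24066243522206608))⟩] .nil .nil .nil .nil .nil .nil) .nil .nil) (.node [⟨.x, .z, (B N N (K (.ofNat 22399954904547208)) (K (.negSucc 28661559936516663)))⟩,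
  ⟨.z, .z, (B (K (.negSucc 16027221174037461)) (K (.negSucc 45722983455190351)) N N)⟩,
  ⟨.x, T2, (K (.negSucc 9638545962285955))⟩,
  ⟨.z, T0, (K (.negSucc 3933487081920267))⟩] (.node [⟨.z, .z, (K (.ofNat 32504355800059656))⟩] .nil .nil .nil .nil .nil .nil) (.node [⟨.z, .z, (K (.ofNat 24677209152166918))⟩] .nil .nil .nil .nil .nil .nil) (.node [⟨.x, .z, (K (.ofNat 10517930284603572))⟩] .nil .nil .nil .nil .nil .nil) (.node [⟨.x, .z, (K (.ofNat 9637706532012932))⟩] .nil .nil .nil .nil .nil .nil) .nil .nil) (.node [⟨.x, .z, (B (K (.negSucc 67755513360827)) (K (.ofNat 3185543875092720)) N N)⟩,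
  ⟨.x, T0, (K (.ofNat 1775030263676952))⟩,
  ⟨.x, T1, (K (.negSucc 3435535311165143))⟩] (.node [⟨.x, .z, (K (.negSucc 9866263111283807))⟩] .nil .nil .nil .nil .nil .nil) (.node [⟨.x, .z, (K (.ofNat 12875291807399028))⟩] .nil .nil .nil .nil .nil .nil) .nil .nil .nil .nil) (.node [⟨.x, .z, (B (K (.negSucc 62782189603841119)) (K (.negSucc 51295385705277995)) N N)⟩,
  ⟨.x, T0, (K (.ofNat 38340313022185608))⟩,
  ⟨.x, T1, (K (.negSucc 12641249166139363))⟩] (.node [⟨.x, .z, (K (.negSucc 81809735392319263))⟩] .nil .nil .nil .nil .nil .nil) (.node [⟨.x, .z, (K (.ofNat 5683160151030600))⟩] .nil .nil .nil .nil .nil .nil) .nil .nil .nil .nil) .nil .nil)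

def c_0101 : Cert := (.node [⟨.x, .z, (B (B N N (K (.ofNat 82390421277120660)) (K (.ofNat 144066355675627680))) (B N N (K (.ofNat 149340764538816360)) (K (.ofNat 155410572524406768))) (B (K (.negSucc 46764744362016695)) (K (.negSucc 29787183290180483)) N N) (A1 (K (.ofNat 31483869550643772))))⟩,
  ⟨.z, .z, (B (B (K (.negSucc 48510863522628009)) (K (.negSucc 137658775846309897)) N N) (B (K (.negSucc 58590321435556733)) (K (.negSucc 53970428190500933)) N N) N N)⟩,
  ⟨.x, T0, (B N N (K (.negSucc 66622853478559871)) (K (.negSucc 189261843211349603)))⟩,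
  ⟨.x, T1, (B N N (K (.negSucc 71575726015489259)) (K (.negSucc 22940746153433087)))⟩,
  ⟨.x, T2, (B (K (.negSucc 61267979195089007)) (K (.negSucc 123806787246124547)) N N)⟩,
  ⟨.z, T0, (A0 (K (.negSucc 48868993297596143)))⟩,
  ⟨.x, T9, (K (.ofNat 53636219719067928))⟩,
  ⟨.x, T11, (K (.ofNat 56427930351377532))⟩] (.node [⟨.x, .z, (B N N (K (.ofNat 39558197981478804)) (K (.ofNat 36545000762053020)))⟩,
  ⟨.z, .z, (B (K (.negSucc 3088643612757215)) (K (.negSucc 20405044558476017)) N N)⟩,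
  ⟨.x, T2, (K (.negSucc 15302293378674983))⟩,
  ⟨.z, T0, (K (.negSucc 3001131825864755))⟩] (.node [⟨.z, .z, (K (.ofNat 3007602501004380))⟩] .nil .nil .nil .nil .nil .nil) (.node [⟨.z, .z, (K (.negSucc 48415196336054405))⟩] .nil .nil .nil .nil .nil .nil) (.node [⟨.x, .z, (K (.ofNat 9082817110683480))⟩] .nil .nil .nil .nil .nil .nil) (.node [⟨.x, .z, (K (.negSucc 45398175079683263))⟩] .nil .nil .nil .nil .nil .nil) .nil .nil) (.node [⟨.x, .z, (B N N (K (.ofNat 20776509414420204)) (K (.ofNat 125770554317496480)))⟩,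
  ⟨.z, .z, (B (K (.negSucc 79301050965759737)) (K (.ofNat 43250084364438198)) N N)⟩,
  ⟨.x, T2, (K (.negSucc 127784020382468255))⟩,
  ⟨.z, T0, (K (.negSucc 66163831870062743))⟩] (.node [⟨.z, .z, (K (.ofNat 23039651764883256))⟩] .nil .nil .nil .nil .nil .nil) (.node [⟨.z, .z, (K (.ofNat 43989732469459734))⟩] .nil .nil .nil .nil .nil .nil) (.node [⟨.x, .z, (K (.negSucc 25293817298734799))⟩] .nil .nil .nil .nil .nil .nil) (.node [⟨.x, .z, (K (.ofNat 127784020382468256))⟩] .nil .nil .nil .nil .nil .nil) .nil .nil) (.node [⟨.x, .z, (B (K (.ofNat 111356740438465460)) (K (.negSucc 48084269477061983)) N N)⟩,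
  ⟨.x, T0, (K (.ofNat 130758065358528576))⟩,
  ⟨.x, T1, (K (.negSucc 120380136407237931))⟩] (.node [⟨.x, .z, (K (.ofNat 101558232840542480))⟩] .nil .nil .nil .nil .nil .nil) (.node [⟨.x, .z, (K (.ofNat 9792244194029676))⟩] .nil .nil .nil .nil .nil .nil) .nil .nil .nil .nil) (.node [⟨.x, .z, (B (K (.negSucc 24939491400583691)) (K (.ofNat 28369159219532652)) N N)⟩,
  ⟨.x, T0, (K (.negSucc 53636219719067927))⟩,
  ⟨.x, T1, (K (.ofNat 86207470595672700))⟩] (.node [⟨.x, .z, (K (.negSucc 34737159568233647))⟩] .nil .nil .nil .nil .nil .nil) (.node [⟨.x, .z, (K (.ofNat 56427090921104508))⟩] .nil .nil .nil .nil .nil .nil) .nil .nil .nil .nil) .nil .nil)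

def c_010 : Cert := (.node [⟨.x, .z, (B (B (B N N (K (.negSucc 56994567998300243)) (K (.ofNat 34075729725067912))) (B N N (K (.negSucc 44265764423542459)) (K (.negSucc 68050166189130255))) (B (K (.negSucc 22218132163903415)) (K (.ofNat 95950861761360380)) N N) (A1 (K (.negSucc 56039687169147)))) (B (B N N (K (.negSucc 52133544040356119)) (K (.negSucc 48054888608657967))) (B N N (K (.ofNat 28461252242750940)) (K (.negSucc 30558866912993195))) (B (K (.negSucc 29706970121656359)) (K (.negSucc 1250093379987899)) N N) (A1 (K (.negSucc 6332102523864587)))) (B (B (K (.ofNat 7963109220204440)) (K (.ofNat 97586371801664804)) N N) (A0 (K (.ofNat 101452617401388644))) N N) (A1 (A1 (K (.negSucc 10000261508408075)))))⟩,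
  ⟨.z, .z, (B (B (B (K (.negSucc 760918366203187)) (K (.ofNat 51049277985963062)) N N) (B (K (.ofNat 30051306035408640)) (K (.negSucc 2006735843938247)) N N) N N) (B (B (K (.ofNat 2519250740435744)) (K (.negSucc 27440463788650771)) N N) (B (K (.ofNat 20692466481054450)) (K (.ofNat 8635719997511748)) N N) N N) N N)⟩,
  ⟨.x, T0, (B (B N N (K (.ofNat 68000746024753380)) (K (.negSucc 4667912578542911))) (B N N (K (.ofNat 28508680646008092)) (K (.ofNat 33083147574161508))) (B (K (.negSucc 47473740450796247)) (K (.negSucc 49976048104046855)) N N) (A1 (K (.negSucc 1299309252572915))))⟩,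
  ⟨.x, T1, (B (B N N (K (.ofNat 423372092497464)) (K (.negSucc 7441427757449267))) (B N N (K (.negSucc 15677847589780403)) (K (.ofNat 39706774108541604))) (B (K (.ofNat 32390038729454064)) (K (.negSucc 39804932001918071)) N N) (A1 (K (.negSucc 2900258010323855))))⟩,
  ⟨.x, T2, (B (B (K (.negSucc 22111373608526355)) (K (.negSucc 46050463683086239)) N N) (B (K (.negSucc 38450865089303339)) (K (.ofNat 17054758901524416)) N N) N N)⟩,
  ⟨.z, T0, (A0 (B (K (.ofNat 13945300599043732)) (K (.ofNat 26678952352535360)) N N))⟩,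
  ⟨.x, T5, (A3 (K (.ofNat 11503746430352904)))⟩,
  ⟨.x, T7, (B N N (K (.ofNat 16268592069018564)) (K (.ofNat 15356764562620236)))⟩,
  ⟨.x, T8, (B N N (K (.negSucc 9299263440858395)) (K (.ofNat 37724969451617832)))⟩,
  ⟨.x, T9, (A0 (K (.ofNat 29472806567323536)))⟩,
  ⟨.x, T10, (A3 (K (.ofNat 3012557439148104)))⟩,
  ⟨.x, T11, (A1 (K (.negSucc 13988289132189743)))⟩,
  ⟨.x, T20, (K (.negSucc 10317782604097307))⟩,
  ⟨.x, T24, (K (.negSucc 12638811705196799))⟩,
  ⟨.x, T37, (K (.ofNat 6012249487339128))⟩,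
  ⟨.x, T15, (K (.ofNat 7947177094533384))⟩,
  ⟨.x, T33, (K (.ofNat 9230157430919196))⟩,
  ⟨.z, T13, (K (.negSucc 7141395680116451))⟩] c_0100 c_0101 (.node [⟨.x, .z, (B (B (K (.ofNat 159068527409827188)) (K (.negSucc 85265769120763187)) N N) (B (K (.ofNat 166334093791397952)) (K (.negSucc 96232675405099499)) N N) N N)⟩,
  ⟨.x, T0, (B (K (.negSucc 218146745534154911)) (K (.negSucc 32082883897667315)) N N)⟩,
  ⟨.x, T1, (B (K (.ofNat 93819219281498988)) (K (.ofNat 209353471159485252)) N N)⟩,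
  ⟨.x, T5, (K (.ofNat 36707427159300108))⟩,
  ⟨.x, T7, (K (.negSucc 59985729398807507))⟩,
  ⟨.x, T8, (K (.ofNat 69145572431895120))⟩,
  ⟨.x, T10, (K (.ofNat 97938144020188944))⟩] (.node [⟨.x, .z, (B (K (.ofNat 149253560757166080)) (K (.negSucc 64107405292939799)) N N)⟩,
  ⟨.x, T0, (K (.ofNat 92639003640747024))⟩,
  ⟨.x, T1, (K (.negSucc 88123177367527835))⟩] (.node [⟨.x, .z, (K (.ofNat 145135755258840156))⟩] .nil .nil .nil .nil .nil .nil) (.node [⟨.x, .z, (K (.ofNat 21761061105382164))⟩] .nil .nil .nil .nil .nil .nil) .nil .nil .nil .nil) (.node [⟨.x, .z, (B (K (.ofNat 39258147752709904)) (K (.negSucc 32320135363825775)) N N)⟩,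
  ⟨.x, T0, (K (.ofNat 46028974745690364))⟩,
  ⟨.x, T1, (K (.negSucc 77033508760149259))⟩] (.node [⟨.x, .z, (K (.negSucc 7558013406799267))⟩] .nil .nil .nil .nil .nil .nil) (.node [⟨.x, .z, (K (.ofNat 31873646702148768))⟩] .nil .nil .nil .nil .nil .nil) .nil .nil .nil .nil) .nil .nil .nil .nil) (.node [⟨.x, .z, (B (B (K (.ofNat 14817369474717100)) (K (.negSucc 211572462818218119)) N N) (B (K (.negSucc 47293307664220151)) (K (.negSucc 68222007591493151)) N N) N N)⟩,
  ⟨.x, T0, (B (K (.ofNat 37823486105676576)) (K (.ofNat 152598257334155820)) N N)⟩,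
  ⟨.x, T1, (B (K (.ofNat 47470293114703768)) (K (.ofNat 123609101263892968)) N N)⟩,
  ⟨.x, T5, (K (.negSucc 31995786693227171))⟩,
  ⟨.x, T7, (K (.ofNat 87037793163988884))⟩,
  ⟨.x, T8, (K (.ofNat 158128023061056304))⟩,
  ⟨.x, T10, (K (.negSucc 49817307271111163))⟩] (.node [⟨.x, .z, (B (K (.ofNat 145753793585656076)) (K (.ofNat 88097826600944908)) N N)⟩,
  ⟨.x, T0, (K (.negSucc 110583408089579331))⟩,
  ⟨.x, T1, (K (.negSucc 71888959408908615))⟩] (.node [⟨.x, .z, (K (.ofNat 234944328291833292))⟩] .nil .nil .nil .nil .nil .nil) (.node [⟨.x, .z, (K (.negSucc 113309777065290875))⟩] .nil .nil .nil .nil .nil .nil) .nil .nil .nil .nil) (.node [⟨.x, .z, (B (K (.ofNat 198449086160406992)) (K (.ofNat 26332773967160944)) N N)⟩,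
  ⟨.x, T0, (K (.negSucc 204078156211277403))⟩,
  ⟨.x, T1, (K (.ofNat 18726401602679672))⟩] (.node [⟨.x, .z, (K (.negSucc 72421483039300435))⟩] .nil .nil .nil .nil .nil .nil) (.node [⟨.x, .z, (K (.negSucc 195601615861896687))⟩] .nil .nil .nil .nil .nil .nil) .nil .nil .nil .nil) .nil .nil .nil .nil) .nil .nil)

def c_0110 : Cert := (.node [⟨.x, .z, (B (B N N (K (.ofNat 74160402252306288)) (K (.ofNat 80083484786606220))) (B N N (K (.ofNat 144474511204034172)) (K (.ofNat 95050859580250860))) (B (K (.ofNat 46314713093600196)) (K (.negSucc 96485555004214715)) N N) (A1 (K (.ofNat 9001752825875820))))⟩,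
  ⟨.z, .z, (B (B (K (.ofNat 16206464591855988)) (K (.negSucc 97608321834359201)) N N) (B (K (.negSucc 64102494951549119)) (K (.negSucc 35492053303699775)) N N) N N)⟩,
  ⟨.x, T0, (B N N (K (.negSucc 36460667236239827)) (K (.negSucc 72775384620565343)))⟩,
  ⟨.x, T1, (B N N (K (.negSucc 82546297868515919)) (K (.negSucc 5018746807477499)))⟩,
  ⟨.x, T2, (B (K (.negSucc 51746118070816151)) (K (.negSucc 51213829078312847)) N N)⟩,
  ⟨.z, T0, (A0 (K (.negSucc 21598541283010415)))⟩,
  ⟨.x, T9, (K (.ofNat 8592490948210464))⟩,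
  ⟨.x, T11, (K (.ofNat 5368487489899992))⟩] (.node [⟨.x, .z, (B N N (K (.ofNat 68751239569636916)) (K (.ofNat 33694574713147840)))⟩,
  ⟨.z, .z, (B (K (.ofNat 24930877805335108)) (K (.negSucc 6738549113261601)) N N)⟩,
  ⟨.x, T2, (K (.ofNat 16024837162870580))⟩,
  ⟨.z, T0, (K (.ofNat 23893995788511688))⟩] (.node [⟨.z, .z, (K (.negSucc 6719937656364383))⟩] .nil .nil .nil .nil .nil .nil) (.node [⟨.z, .z, (K (.negSucc 52200864592392183))⟩] .nil .nil .nil .nil .nil .nil) (.node [⟨.x, .z, (K (.negSucc 18639422525989643))⟩] .nil .nil .nil .nil .nil .nil) (.node [⟨.x, .z, (K (.negSucc 53384562456526987))⟩] .nil .nil .nil .nil .nil .nil) .nil .nil) (.node [⟨.x, .z, (B N N (K (.ofNat 72409110210300412)) (K (.ofNat 128893624013916992)))⟩,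
  ⟨.z, .z, (B (K (.negSucc 47936155639288407)) (K (.ofNat 2816661418886770)) N N)⟩,
  ⟨.x, T2, (K (.negSucc 94998890820462247))⟩,
  ⟨.z, T0, (K (.negSucc 49253850219262719))⟩] (.node [⟨.z, .z, (K (.ofNat 56230901981420478))⟩] .nil .nil .nil .nil .nil .nil) (.node [⟨.z, .z, (K (.ofNat 58289791645696990))⟩] .nil .nil .nil .nil .nil .nil) (.node [⟨.x, .z, (K (.negSucc 72346922602575575))⟩] .nil .nil .nil .nil .nil .nil) (.node [⟨.x, .z, (K (.ofNat 94996372529643176))⟩] .nil .nil .nil .nil .nil .nil) .nil .nil) (.node [⟨.x, .z, (B (K (.ofNat 77150388502953216)) (K (.negSucc 101468769030081647)) N N)⟩,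
  ⟨.x, T0, (K (.ofNat 156853934515658508))⟩,
  ⟨.x, T1, (K (.negSucc 80280773722936403))⟩] (.node [⟨.x, .z, (K (.ofNat 62761197624883392))⟩] .nil .nil .nil .nil .nil .nil) (.node [⟨.x, .z, (K (.ofNat 16247253031718988))⟩] .nil .nil .nil .nil .nil .nil) .nil .nil .nil .nil) (.node [⟨.x, .z, (B (K (.negSucc 40695537151321739)) (K (.negSucc 23647448864664419)) N N)⟩,
  ⟨.x, T0, (K (.ofNat 70757546091589680))⟩,
  ⟨.x, T1, (K (.ofNat 26055978893413596))⟩] (.node [⟨.x, .z, (K (.negSucc 70039220111921099))⟩] .nil .nil .nil .nil .nil .nil) (.node [⟨.x, .z, (K (.ofNat 3669814724067792))⟩] .nil .nil .nil .nil .nil .nil) .nil .nil .nil .nil) .nil .nil)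

def c_0111 : Cert := (.node [⟨.x, .z, (B (B N N (K (.negSucc 30914349516997787)) (K (.ofNat 62201236423095696))) (B N N (K (.negSucc 55457046842215619)) (K (.negSucc 7954996659177143))) (B (K (.negSucc 26325215227406855)) (K (.ofNat 57617116526253504)) N N) (A1 (K (.negSucc 74806379589276767))))⟩,
  ⟨.z, .z, (B (B (K (.ofNat 16275723615783336)) (K (.ofNat 24825579590358384)) N N) (B (K (.ofNat 47952508420014000)) (K (.negSucc 12040636570510805)) N N) N N)⟩,
  ⟨.x, T0, (B N N (K (.negSucc 47640190180333559)) (K (.negSucc 8528766459013955)))⟩,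
  ⟨.x, T1, (B N N (K (.ofNat 40079107111743828)) (K (.negSucc 12762074671966091)))⟩,
  ⟨.x, T2, (B (K (.negSucc 40485298605941411)) (K (.negSucc 4881670359123563)) N N)⟩,
  ⟨.z, T0, (A0 (K (.negSucc 17123887375094987)))⟩,
  ⟨.x, T9, (K (.ofNat 47661347629849008))⟩,
  ⟨.x, T11, (K (.ofNat 38397318917963616))⟩] (.node [⟨.x, .z, (B N N (K (.ofNat 8826622969740848)) (K (.ofNat 26783467512544468)))⟩,
  ⟨.z, .z, (B (K (.negSucc 19686851532027475)) (K (.negSucc 3292265857805481)) N N)⟩,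
  ⟨.x, T2, (K (.ofNat 15126164817082808))⟩,
  ⟨.z, T0, (K (.negSucc 37186035698879035))⟩] (.node [⟨.z, .z, (K (.ofNat 34985868649035018))⟩] .nil .nil .nil .nil .nil .nil) (.node [⟨.z, .z, (K (.ofNat 3355487220876710))⟩] .nil .nil .nil .nil .nil .nil) (.node [⟨.x, .z, (K (.negSucc 68130663315615107))⟩] .nil .nil .nil .nil .nil .nil) (.node [⟨.x, .z, (K (.negSucc 56179003108211995))⟩] .nil .nil .nil .nil .nil .nil) .nil .nil) (.node [⟨.x, .z, (B N N (K (.negSucc 8184377489880895)) (K (.ofNat 75927873642174152)))⟩,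
  ⟨.z, .z, (B (K (.negSucc 15454215420046989)) (K (.negSucc 10202549604617011)) N N)⟩,
  ⟨.x, T2, (K (.negSucc 24115277758201891))⟩,
  ⟨.z, T0, (K (.negSucc 25527002896401531))⟩] (.node [⟨.z, .z, (K (.ofNat 22270485844464744))⟩] .nil .nil .nil .nil .nil .nil) (.node [⟨.z, .z, (K (.ofNat 3313137058611028))⟩] .nil .nil .nil .nil .nil .nil) (.node [⟨.x, .z, (K (.negSucc 26210126293641587))⟩] .nil .nil .nil .nil .nil .nil) (.node [⟨.x, .z, (K (.ofNat 24115277758201892))⟩] .nil .nil .nil .nil .nil .nil) .nil .nil) (.node [⟨.x, .z, (B (K (.negSucc 19646761791242831)) (K (.ofNat 35853650449810236)) N N)⟩,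
  ⟨.x, T0, (K (.negSucc 32783119104941447))⟩,
  ⟨.x, T1, (K (.negSucc 16828768335288647))⟩] (.node [⟨.x, .z, (K (.negSucc 34036512289494671))⟩] .nil .nil .nil .nil .nil .nil) (.node [⟨.x, .z, (K (.ofNat 13745368270411980))⟩] .nil .nil .nil .nil .nil .nil) .nil .nil .nil .nil) (.node [⟨.x, .z, (B (K (.ofNat 77208726163043568)) (K (.ofNat 26650605833696184)) N N)⟩,
  ⟨.x, T0, (K (.negSucc 47661347629849007))⟩,
  ⟨.x, T1, (K (.negSucc 36723427557102155))⟩] (.node [⟨.x, .z, (K (.ofNat 62818695854700720))⟩] .nil .nil .nil .nil .nil .nil) (.node [⟨.x, .z, (K (.ofNat 38397318917963616))⟩] .nil .nil .nil .nil .nil .nil) .nil .nil .nil .nil) .nil .nil)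

def c_011 : Cert := (.node [⟨.x, .z, (B (B (B N N (K (.negSucc 55628993438054027)) (K (.ofNat 97141793747520624))) (B N N (K (.ofNat 12160830313331304)) (K (.ofNat 8556344922202008))) (B (K (.ofNat 55725464552572236)) (K (.negSucc 50272921519083743)) N N) (A1 (K (.negSucc 45355369735892567)))) (B (B N N (K (.ofNat 126899599474608)) (K (.ofNat 170001183971239380))) (B N N (K (.negSucc 30485623447834967)) (K (.negSucc 91470923021899439))) (B (K (.ofNat 121407484146100800)) (K (.ofNat 9444450148248)) N N) (A1 (K (.negSucc 95176488285388667)))) (B (B (K (.ofNat 49987931473089492)) (K (.negSucc 32321139901570859)) N N) (A0 (K (.negSucc 102728815226425727))) N N) (A1 (A1 (K (.negSucc 42463145552417807)))))⟩,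
  ⟨.z, .z, (B (B (B (K (.negSucc 77933539965832939)) (K (.ofNat 38862322754160754)) N N) (B (K (.negSucc 73717882204411879)) (K (.ofNat 77168986433481018)) N N) N N) (B (B (K (.negSucc 69635114295373985)) (K (.ofNat 88698648962095194)) N N) (B (K (.negSucc 10026847948850327)) (K (.ofNat 39203047093783566)) N N) N N) N N)⟩,
  ⟨.x, T0, (B (B N N (K (.ofNat 44432377489326168)) (K (.negSucc 129678624082217291))) (B N N (K (.ofNat 144096908820482676)) (K (.ofNat 22181611955866680))) (B (K (.negSucc 4359821439028595)) (K (.negSucc 141533182229231687)) N N) (A1 (K (.ofNat 74317750758644700))))⟩,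
  ⟨.x, T1, (B (B N N (K (.ofNat 21989519300540724)) (K (.ofNat 5014123344612456))) (B N N (K (.ofNat 13992072987433008)) (K (.ofNat 40998340820308692))) (B (K (.negSucc 69724280912348795)) (K (.ofNat 63121943351690976)) N N) (A1 (K (.negSucc 3374964792128447))))⟩,
  ⟨.x, T2, (B (B (K (.negSucc 66385676328724295)) (K (.negSucc 33850806967034135)) N N) (B (K (.negSucc 57127193550271895)) (K (.ofNat 33177522852366132)) N N) N N)⟩,
  ⟨.z, T0, (A0 (B (K (.negSucc 38620588345163051)) (K (.negSucc 2817334748131295)) N N))⟩,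
  ⟨.x, T5, (A3 (K (.ofNat 33543829433729316)))⟩,
  ⟨.x, T7, (B N N (K (.ofNat 34103876016446784)) (K (.negSucc 37608571347315503)))⟩,
  ⟨.x, T8, (B N N (K (.negSucc 6846030622708979)) (K (.ofNat 7177236887548128)))⟩,
  ⟨.x, T9, (A0 (K (.negSucc 22222843489528247)))⟩,
  ⟨.x, T10, (A3 (K (.ofNat 15278113017334704)))⟩,
  ⟨.x, T11, (A1 (K (.negSucc 18759908588942543)))⟩,
  ⟨.x, T20, (K (.negSucc 26657902697265323))⟩,
  ⟨.x, T24, (K (.negSucc 3406174339435427))⟩,
  ⟨.x, T37, (K (.negSucc 15051885349703591))⟩,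
  ⟨.x, T15, (K (.negSucc 2571763899312971))⟩,
  ⟨.x, T33, (K (.ofNat 14954492082529536))⟩,
  ⟨.z, T13, (K (.ofNat 7418908622070036))⟩] c_0110 c_0111 (.node [⟨.x, .z, (B (B (K (.ofNat 130229695274218212)) (K (.negSucc 5939463875531039)) N N) (B (K (.ofNat 39622319802018696)) (K (.ofNat 60830178910483476)) N N) N N)⟩,
  ⟨.x, T0, (B (K (.negSucc 39065393348287283)) (K (.negSucc 189176355012652751)) N N)⟩,
  ⟨.x, T1, (B (K (.ofNat 9355673203711940)) (K (.ofNat 100117697303442272)) N N)⟩,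
  ⟨.x, T5, (K (.ofNat 28979680517517396))⟩,
  ⟨.x, T7, (K (.negSucc 47390457226779995))⟩,
  ⟨.x, T8, (K (.negSucc 24977275704457263))⟩,
  ⟨.x, T10, (K (.ofNat 84525788019718020))⟩] (.node [⟨.x, .z, (B (K (.ofNat 107036868473981580)) (K (.negSucc 78829727038242507)) N N)⟩,
  ⟨.x, T0, (K (.ofNat 103592868879792064))⟩,
  ⟨.x, T1, (K (.negSucc 61332961219481387))⟩] (.node [⟨.x, .z, (K (.ofNat 33000964649621012))⟩] .nil .nil .nil .nil .nil .nil) (.node [⟨.x, .z, (K (.ofNat 52354061575048308))⟩] .nil .nil .nil .nil .nil .nil) .nil .nil .nil .nil) (.node [⟨.x, .z, (B (K (.ofNat 4737444122919808)) (K (.ofNat 1404656505779348)) N N)⟩,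
  ⟨.x, T0, (K (.ofNat 109322395606823572))⟩,
  ⟨.x, T1, (K (.negSucc 84886884735696319))⟩] (.node [⟨.x, .z, (K (.ofNat 80370948066866204))⟩] .nil .nil .nil .nil .nil .nil) (.node [⟨.x, .z, (K (.ofNat 118243460953282432))⟩] .nil .nil .nil .nil .nil .nil) .nil .nil .nil .nil) .nil .nil .nil .nil) (.node [⟨.x, .z, (B (B (K (.negSucc 2072293276350671)) (K (.ofNat 95234357013028512)) N N) (B (K (.ofNat 22936215176882508)) (K (.ofNat 60910714728950364)) N N) N N)⟩,
  ⟨.x, T0, (B (K (.negSucc 43537410159929675)) (K (.negSucc 46447754500301879)) N N)⟩,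
  ⟨.x, T1, (B (K (.ofNat 114905724105376848)) (K (.negSucc 14935795545692495)) N N)⟩,
  ⟨.x, T5, (K (.ofNat 19312499149156044))⟩,
  ⟨.x, T7, (K (.ofNat 7345403548109280))⟩,
  ⟨.x, T8, (K (.ofNat 29578259427103776))⟩,
  ⟨.x, T10, (K (.ofNat 46447754500301880))⟩] (.node [⟨.x, .z, (B (K (.negSucc 83029511724906851)) (K (.ofNat 13847926619390352)) N N)⟩,
  ⟨.x, T0, (K (.negSucc 13589783390342219))⟩,
  ⟨.x, T1, (K (.ofNat 49463956030783836))⟩] (.node [⟨.x, .z, (K (.negSucc 28390424160260867))⟩] .nil .nil .nil .nil .nil .nil) (.node [⟨.x, .z, (K (.ofNat 58153131573244632))⟩] .nil .nil .nil .nil .nil .nil) .nil .nil .nil .nil) (.node [⟨.x, .z, (B (K (.ofNat 81885953013302004)) (K (.ofNat 33547784997255684)) N N)⟩,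
  ⟨.x, T0, (K (.ofNat 20275669412633532))⟩,
  ⟨.x, T1, (K (.negSucc 83800956003970571))⟩] (.node [⟨.x, .z, (K (.ofNat 108763551444065700))⟩] .nil .nil .nil .nil .nil .nil) (.node [⟨.x, .z, (K (.ofNat 1512029326744500))⟩] .nil .nil .nil .nil .nil .nil) .nil .nil .nil .nil) .nil .nil .nil .nil) .nil .nil)

def c_012 : Cert := (.node [⟨.x, .z, (B (B (B (K (.ofNat 233906353669255510)) (K (.ofNat 71431067038612918)) N N) (B (K (.ofNat 72815916390809439)) (K (.negSucc 345028384210427134)) N N) N N) (B (B (K (.ofNat 277785227755109722)) (K (.ofNat 98611778981532954)) N N) (B (K (.negSucc 84156855904926559)) (K (.negSucc 621549564273222355)) N N) N N) N N)⟩,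
  ⟨.x, T0, (B (B (K (.negSucc 15007628073081267)) (K (.negSucc 66157272671453742)) N N) (B (K (.ofNat 289373894433770646)) (K (.ofNat 126696360372119774)) N N) N N)⟩,
  ⟨.x, T1, (B (B (K (.negSucc 99889415869134285)) (K (.negSucc 275076103580243702)) N N) (B (K (.negSucc 160741584791530344)) (K (.negSucc 70503769355993514)) N N) N N)⟩,
  ⟨.x, T4, (B N N (K (.negSucc 220449413919496513)) (K (.negSucc 47622554275510178)))⟩,
  ⟨.x, T5, (A1 (K (.ofNat 231820985228177918)))⟩,
  ⟨.x, T6, (B N N (K (.negSucc 58519918466056731)) (K (.negSucc 173863194023682066)))⟩,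
  ⟨.x, T7, (B (K (.negSucc 273521610807185095)) (K (.negSucc 584634250432759125)) N N)⟩,
  ⟨.x, T8, (B (K (.ofNat 68455847748224033)) (K (.negSucc 221404939501709326)) N N)⟩,
  ⟨.x, T10, (A1 (K (.ofNat 37746842353970221)))⟩,
  ⟨.x, T29, (K (.negSucc 155695852184449565))⟩,
  ⟨.x, T13, (K (.ofNat 154208645648947380))⟩,
  ⟨.x, T14, (K (.negSucc 1060460015327927))⟩,
  ⟨.x, T30, (K (.negSucc 17526129543071102))⟩,
  ⟨.x, T31, (K (.ofNat 58514404290884182))⟩,
  ⟨.x, T32, (K (.negSucc 56595899084726181))⟩] (.node [⟨.x, .z, (B (B (K (.ofNat 278996407120587392)) (K (.ofNat 383899757751597086)) N N) (B (K (.ofNat 151152966792581712)) (K (.negSucc 811528267983784251)) N N) N N)⟩,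
  ⟨.x, T0, (B (K (.negSucc 92787314419680779)) (K (.ofNat 431515820820275818)) N N)⟩,
  ⟨.x, T1, (B (K (.negSucc 139556936352973737)) (K (.negSucc 483752185510251323)) N N)⟩,
  ⟨.x, T5, (K (.negSucc 34148390782455713))⟩,
  ⟨.x, T7, (K (.negSucc 487259441589206947))⟩,
  ⟨.x, T8, (K (.negSucc 267907689006124233))⟩,
  ⟨.x, T10, (K (.negSucc 92548377695483855))⟩] (.node [⟨.x, .z, (B (K (.negSucc 110557921433724661)) (K (.negSucc 456546767305448165)) N N)⟩,
  ⟨.x, T0, (K (.ofNat 182631488026559686))⟩,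
  ⟨.x, T1, (K (.ofNat 382213290380661624))⟩] (.node [⟨.x, .z, (K (.negSucc 155647974885056543))⟩] .nil .nil .nil .nil .nil .nil) (.node [⟨.x, .z, (K (.ofNat 71755972808788346))⟩] .nil .nil .nil .nil .nil .nil) .nil .nil .nil .nil) (.node [⟨.x, .z, (B (K (.negSucc 271754663717299306)) (K (.ofNat 108748676644319686)) N N)⟩,
  ⟨.x, T0, (K (.ofNat 369504484764252550))⟩,
  ⟨.x, T1, (K (.negSucc 54423781667628286))⟩] (.node [⟨.x, .z, (K (.ofNat 195938031291503368))⟩] .nil .nil .nil .nil .nil .nil) (.node [⟨.x, .z, (K (.ofNat 235929935015462240))⟩] .nil .nil .nil .nil .nil .nil) .nil .nil .nil .nil) .nil .nil .nil .nil) (.node [⟨.x, .z, (B (B (K (.ofNat 26688177406161773)) (K (.negSucc 455225916750396470)) N N) (B (K (.ofNat 1888245327042506)) (K (.negSucc 195873756229405377)) N N) N N)⟩,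
  ⟨.x, T0, (B (K (.negSucc 54775130148141425)) (K (.ofNat 320298502430928818)) N N)⟩,
  ⟨.x, T1, (B (K (.negSucc 39830478257294190)) (K (.ofNat 128345345994229243)) N N)⟩,
  ⟨.x, T5, (K (.negSucc 7536515642177637))⟩,
  ⟨.x, T7, (K (.negSucc 85562098538216949))⟩,
  ⟨.x, T8, (K (.ofNat 121552035764034188))⟩,
  ⟨.x, T10, (K (.negSucc 46031287289986885))⟩] (.node [⟨.x, .z, (B (K (.ofNat 18985030763362477)) (K (.ofNat 71827466553054842)) N N)⟩,
  ⟨.x, T0, (K (.ofNat 165899345866944654))⟩,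
  ⟨.x, T1, (K (.negSucc 164480087874397138))⟩] (.node [⟨.x, .z, (K (.ofNat 129297502326825764))⟩] .nil .nil .nil .nil .nil .nil) (.node [⟨.x, .z, (K (.negSucc 197942022812315513))⟩] .nil .nil .nil .nil .nil .nil) .nil .nil .nil .nil) (.node [⟨.x, .z, (B (K (.ofNat 215265607149675683)) (K (.ofNat 421389792422617712)) N N)⟩,
  ⟨.x, T0, (K (.negSucc 206572147087014075))⟩,
  ⟨.x, T1, (K (.negSucc 90429635270346902))⟩] (.node [⟨.x, .z, (K (.negSucc 95774877216268063))⟩] .nil .nil .nil .nil .nil .nil) (.node [⟨.x, .z, (K (.negSucc 184135331583629661))⟩] .nil .nil .nil .nil .nil .nil) .nil .nil .nil .nil) .nil .nil .nil .nil) (.node [⟨.x, T4, (K (.ofNat 4328151368948166))⟩,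
  ⟨.x, T6, (K (.ofNat 151580716893590673))⟩] .nil .nil .nil .nil .nil .nil) (.node [⟨.x, T4, (K (.ofNat 144969531335492889))⟩,
  ⟨.x, T6, (K (.ofNat 29100609172675881))⟩] .nil .nil .nil .nil .nil .nil) .nil .nil)

def c_013 : Cert := (.node [⟨.x, .z, (B (B (B (K (.ofNat 292952615969382008)) (K (.ofNat 321199030918363004)) N N) (B (K (.ofNat 372675270920661926)) (K (.negSucc 98417803893248237)) N N) N N) (B (B (K (.ofNat 384544928921553192)) (K (.ofNat 375600563025521616)) N N) (B (K (.ofNat 80144745700396176)) (K (.negSucc 137872892551247135)) N N) N N) N N)⟩,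
  ⟨.x, T0, (B (B (K (.negSucc 73616797928964143)) (K (.negSucc 345251492255381513)) N N) (B (K (.ofNat 42679722134896944)) (K (.negSucc 63142691030670635)) N N) N N)⟩,
  ⟨.x, T1, (B (B (K (.negSucc 306038600855894219)) (K (.negSucc 59668853449245113)) N N) (B (K (.negSucc 474613614309201773)) (K (.ofNat 52035746631368406)) N N) N N)⟩,
  ⟨.x, T4, (B N N (K (.negSucc 114093028060761587)) (K (.negSucc 40864464984673163)))⟩,
  ⟨.x, T5, (A1 (K (.ofNat 80212091689306608)))⟩,
  ⟨.x, T6, (B N N (K (.ofNat 65439376127570820)) (K (.negSucc 97099550654025083)))⟩,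
  ⟨.x, T7, (B (K (.negSucc 243273639109758443)) (K (.negSucc 286443676317313667)) N N)⟩,
  ⟨.x, T8, (B (K (.negSucc 170320111051381409)) (K (.ofNat 94788734478941850)) N N)⟩,
  ⟨.x, T10, (A1 (K (.ofNat 187461666059297682)))⟩,
  ⟨.x, T29, (K (.negSucc 119522314258315487))⟩,
  ⟨.x, T13, (K (.ofNat 47833942220753604))⟩,
  ⟨.x, T14, (K (.ofNat 12278871846481008))⟩,
  ⟨.x, T30, (K (.negSucc 118384375303259777))⟩,
  ⟨.x, T31, (K (.ofNat 61694686768573164))⟩,
  ⟨.x, T32, (K (.negSucc 138602298134066627))⟩] (.node [⟨.x, .z, (B (B (K (.ofNat 284734170449167872)) (K (.ofNat 318674848266554028)) N N) (B (K (.ofNat 93051795205580256)) (K (.negSucc 272572973399412887)) N N) N N)⟩,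
  ⟨.x, T0, (B (K (.negSucc 8138586157925495)) (K (.ofNat 91771274212032576)) N N)⟩,
  ⟨.x, T1, (B (K (.ofNat 63136605762838772)) (K (.negSucc 139542273772641207)) N N)⟩,
  ⟨.x, T5, (K (.negSucc 113363790989967131))⟩,
  ⟨.x, T7, (K (.negSucc 257114331763019819))⟩,
  ⟨.x, T8, (K (.negSucc 59675549413632927))⟩,
  ⟨.x, T10, (K (.negSucc 21989451122868827))⟩] (.node [⟨.x, .z, (B (K (.negSucc 370486266236442827)) (K (.negSucc 239976697683667275)) N N)⟩,
  ⟨.x, T0, (K (.ofNat 33169318180971880))⟩,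
  ⟨.x, T1, (K (.ofNat 372304378703866788))⟩] (.node [⟨.x, .z, (K (.negSucc 368732812812594675))⟩] .nil .nil .nil .nil .nil .nil) (.node [⟨.x, .z, (K (.negSucc 21119804821951367))⟩] .nil .nil .nil .nil .nil .nil) .nil .nil .nil .nil) (.node [⟨.x, .z, (B (K (.ofNat 131470772473332070)) (K (.ofNat 130255412112913340)) N N)⟩,
  ⟨.x, T0, (K (.ofNat 105210850942064908))⟩,
  ⟨.x, T1, (K (.negSucc 185357893514067721))⟩] (.node [⟨.x, .z, (K (.ofNat 47986331083532816))⟩] .nil .nil .nil .nil .nil .nil) (.node [⟨.x, .z, (K (.ofNat 160459916327115520))⟩] .nil .nil .nil .nil .nil .nil) .nil .nil .nil .nil) .nil .nil .nil .nil) (.node [⟨.x, .z, (B (B (K (.ofNat 93500744062614)) (K (.ofNat 184883013109770858)) N N) (B (K (.ofNat 266542035739334604)) (K (.negSucc 274751930478958247)) N N) N N)⟩,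
  ⟨.x, T0, (B (K (.negSucc 183562542303893387)) (K (.ofNat 95412609868472292)) N N)⟩,
  ⟨.x, T1, (B (K (.ofNat 22138696585192758)) (K (.negSucc 331295337523786601)) N N)⟩,
  ⟨.x, T5, (K (.ofNat 107234126384131404))⟩,
  ⟨.x, T7, (K (.negSucc 303147133836408947))⟩,
  ⟨.x, T8, (K (.negSucc 224617909472400815))⟩,
  ⟨.x, T10, (K (.negSucc 2739678288116459))⟩] (.node [⟨.x, .z, (B (K (.ofNat 336953058881248998)) (K (.negSucc 111551476220987879)) N N)⟩,
  ⟨.x, T0, (K (.ofNat 224942249931582180))⟩,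
  ⟨.x, T1, (K (.negSucc 192279663394141073))⟩] (.node [⟨.x, .z, (K (.ofNat 128354123781305136))⟩] .nil .nil .nil .nil .nil .nil) (.node [⟨.x, .z, (K (.ofNat 174825076596078276))⟩] .nil .nil .nil .nil .nil .nil) .nil .nil .nil .nil) (.node [⟨.x, .z, (B (K (.negSucc 10929700744180805)) (K (.ofNat 131859724222840764)) N N)⟩,
  ⟨.x, T0, (K (.negSucc 18106612160740427))⟩,
  ⟨.x, T1, (K (.ofNat 69925679937136074))⟩] (.node [⟨.x, .z, (K (.ofNat 88387663885284720))⟩] .nil .nil .nil .nil .nil .nil) (.node [⟨.x, .z, (K (.ofNat 270232205648464656))⟩] .nil .nil .nil .nil .nil .nil) .nil .nil .nil .nil) .nil .nil .nil .nil) (.node [⟨.x, T4, (K (.ofNat 49122490499521374))⟩,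
  ⟨.x, T6, (K (.ofNat 156421015811567640))⟩] .nil .nil .nil .nil .nil .nil) (.node [⟨.x, T4, (K (.ofNat 43517808960986742))⟩,
  ⟨.x, T6, (K (.ofNat 37583209235619474))⟩] .nil .nil .nil .nil .nil .nil) .nil .nil)

def c_01 : Cert := (.node [⟨.x, .z, (B (B (B (B N N (K (.negSucc 21257108959339295)) (K (.negSucc 138048336125649663))) (B N N (K (.ofNat 222248275107688200)) (K (.ofNat 125396849103636072))) (B (K (.ofNat 452947448471616)) (K (.negSucc 266028538097198511)) N N) (A1 (K (.ofNat 120078177257440416)))) (B (B N N (K (.ofNat 17399047334255708)) (K (.ofNat 72382316926314632))) (B N N (K (.ofNat 65684549093916056)) (K (.ofNat 80968768775749788))) (B (K (.ofNat 105382500104998716)) (K (.ofNat 93644493306223696)) N N) (A1 (K (.negSucc 24703310114894759)))) (B (B (K (.ofNat 18161474158611060)) (K (.negSucc 13673331888140579)) N N) (A0 (K (.negSucc 113212160423105923))) N N) (A1 (A1 (K (.negSucc 44731197084849827))))) (B (B (B N N (K (.negSucc 3531770796090455))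 (K (.negSucc 92825561132872107))) (B N N (K (.ofNat 61639474680761148)) (K (.ofNat 91220891640573688))) (B (K (.ofNat 42388024556190076)) (K (.negSucc 40749363573182991)) N N) (A1 (K (.ofNat 54122455382647704)))) (B (B N N (K (.negSucc 24496798588496247)) (K (.ofNat 61141923558370348))) (B N N (K (.negSucc 112577296119588823)) (K (.ofNat 1325258561158260))) (B (K (.ofNat 109584246558073636)) (K (.ofNat 149032479187123172)) N N) (A1 (K (.negSucc 12800852139070139)))) (B (B (K (.negSucc 6931334145120995)) (K (.ofNat 127266849938091768)) N N) (A0 (K (.negSucc 29146847517290643))) N N) (A1 (A1 (K (.negSucc 7763261190808235))))) (A0 (B (B (K (.negSucc 46683249207435523)) (K (.ofNat 13912398304403824)) N N) (A0 (K (.negSucc 50111222330161159))) N N)) (A1 (A1 (A1 (K (.ofNat 10633419412670352))))))⟩,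
  ⟨.z, .z, (B (B (B (B (K (.ofNat 20163408431847614)) (K (.negSucc 33389182918702983)) N N) (B (K (.negSucc 14242677249839889)) (K (.negSucc 40373158531226861)) N N) N N) (B (B (K (.negSucc 11931140505948695)) (K (.negSucc 89701358310017903)) N N) (B (K (.negSucc 62489642363170301)) (K (.negSucc 43265759410554047)) N N) N N) N N) (B (B (B (K (.negSucc 9712211828923387)) (K (.negSucc 85103239290347395)) N N) (B (K (.negSucc 66472588443943291)) (K (.negSucc 34499311140436769)) N N) N N) (B (A0 (K (.ofNat 22062555264323736))) (A1 (K (.negSucc 8028201379193753))) N N) N N) N N)⟩,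
  ⟨.x, T0, (B (B (B N N (K (.negSucc 18336537233407367)) (K (.ofNat 26015969615350152))) (B N N (K (.negSucc 137230193090849327)) (K (.negSucc 77361941128436051))) (B (K (.ofNat 22508159549004972)) (K (.ofNat 105949590665057904)) N N) (A1 (K (.negSucc 71889118137381623)))) (B (B N N (K (.negSucc 90431602848741203)) (K (.negSucc 91367501009343647))) (B N N (K (.negSucc 57255364044803879)) (K (.negSucc 19559517575843339))) (B (K (.negSucc 56872596334303775)) (K (.ofNat 33152541319342020)) N N) (A1 (K (.ofNat 14765628339268356)))) (B (B (K (.negSucc 11560159846094351)) (K (.ofNat 56768783842454448)) N N) (A0 (K (.ofNat 139932670949478264))) N N) (A1 (A1 (K (.ofNat 30823858358212824)))))⟩,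
  ⟨.x, T1, (B (B (B N N (K (.ofNat 16137509693089332)) (K (.ofNat 14916782323307628))) (B N N (K (.negSucc 18227766212682179)) (K (.negSucc 6880173896684951))) (B (K (.negSucc 21404043389728403)) (K (.ofNat 25059871435866864)) N N) (A1 (K (.negSucc 96475100766911)))) (B (B N N (K (.negSucc 10936519238680799)) (K (.negSucc 14365309398393131))) (B N N (K (.negSucc 65166967802617091)) (K (.negSucc 40521313466690387))) (B (K (.negSucc 18116972357541767)) (K (.negSucc 6015813671499659)) N N) (A1 (K (.ofNat 31591689358380552)))) (B (B (K (.negSucc 14199782490583259)) (K (.negSucc 79972552364180447)) N N) (A0 (K (.negSucc 26655055337126339))) N N) N)⟩,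
  ⟨.x, T2, (B (B (B (K (.ofNat 89993596252005676)) (K (.negSucc 84196517966300227)) N N) (B (K (.ofNat 34309056894599416)) (K (.negSucc 33270956672628911)) N N) N N) (B (B (K (.ofNat 4335883025201760)) (K (.negSucc 122857404632361467)) N N) (B (K (.negSucc 46103465446622291)) (K (.negSucc 15997333294297919)) N N) N N) N N)⟩,
  ⟨.z, T0, (A0 (B (B (K (.ofNat 53491265310706616)) (K (.negSucc 36795309092108667)) N N) (B (K (.ofNat 1584883264786304)) (K (.ofNat 703363078322412)) N N) N N))⟩,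
  ⟨.x, T4, (B N N (B N N (K (.ofNat 12337778129151816)) (K (.negSucc 2047276584651011))) (A3 (K (.ofNat 646461964584684))))⟩,
  ⟨.x, T5, (B N (A3 (K (.ofNat 6163176080340108))) N (A1 (K (.ofNat 12563115966056664))))⟩,
  ⟨.x, T6, (B N N (B N N (K (.negSucc 3062971981686695)) (K (.ofNat 30563466983588496))) (A3 (K (.ofNat 17580629073594192))))⟩,
  ⟨.x, T7, (B (B N N (K (.negSucc 16784158624028243)) (K (.ofNat 8702192355345792))) (B N N (K (.negSucc 17595888004806611)) (K (.negSucc 3911422970018435))) (B (K (.ofNat 7535382109669020)) (K (.ofNat 21067302629855880)) N N) (A1 (K (.negSucc 3791718000182531))))⟩,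
  ⟨.x, T8, (B (B N N (K (.negSucc 12797044303266239)) (K (.negSucc 8543933907103523))) (B N N (K (.negSucc 44285048868509051)) (K (.negSucc 20795075686602923))) (B (K (.ofNat 520025514667344)) (K (.negSucc 4612770978516215)) N N) (A1 (K (.ofNat 23388742834386000))))⟩,
  ⟨.x, T9, (A0 (B (K (.ofNat 10180918266136464)) (K (.ofNat 20076454569316812)) N N))⟩,
  ⟨.x, T10, (B N (B N N (K (.negSucc 30908446800966899)) (K (.negSucc 16470688366934519))) N (A1 (K (.ofNat 1591344030174696))))⟩,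
  ⟨.x, T11, (A1 (B (K (.ofNat 1173169406240184)) (K (.negSucc 19237333315067339)) N N))⟩,
  ⟨.x, T29, (A3 (K (.negSucc 11817664670025671)))⟩,
  ⟨.x, T13, (B N N (K (.ofNat 12317655354667140)) (K (.negSucc 2443586044441067)))⟩,
  ⟨.x, T14, (B N N (K (.ofNat 17882088723104784)) (K (.negSucc 12992151736553279)))⟩,
  ⟨.x, T20, (A0 (K (.negSucc 1379241579957887)))⟩,
  ⟨.x, T30, (A2 (K (.negSucc 284052323447567)))⟩,
  ⟨.x, T24, (A0 (K (.negSucc 7598468178066551)))⟩,
  ⟨.x, T31, (A3 (K (.negSucc 6423629482041431)))⟩,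
  ⟨.x, T37, (A1 (K (.negSucc 1566635769119255)))⟩,
  ⟨.x, T32, (A3 (K (.negSucc 4888866439084139)))⟩,
  ⟨.x, T15, (B (K (.ofNat 3315504117797964)) (K (.ofNat 6033294817830072)) N N)⟩,
  ⟨.x, T33, (A1 (K (.ofNat 10694972223029712)))⟩,
  ⟨.z, T13, (A0 (K (.ofNat 2553627000808980)))⟩,
  ⟨.x, T21, (K (.negSucc 3478046433677063))⟩,
  ⟨.x, T25, (K (.negSucc 7894894396118759))⟩,
  ⟨.x, T38, (K (.negSucc 3216092738505227))⟩,
  ⟨.x, T39, (K (.ofNat 15189907769947440))⟩,
  ⟨.x, T41, (K (.negSucc 2345914437763967))⟩,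
  ⟨.x, T36, (K (.negSucc 1901688242617835))⟩,
  ⟨.x, T42, (K (.negSucc 1133091751281479))⟩,
  ⟨.z, T16, (K (.ofNat 2642796777583404))⟩,
  ⟨.z, T18, (K (.ofNat 5332459965266520))⟩] c_010 c_011 c_012 c_013 .nil .nil)

def c_020 : Cert := (.node [⟨.x, .z, (B (B (B (K (.ofNat 21927645743492280)) (K (.ofNat 4692856739460876)) N N) (B (K (.negSucc 11326704517407527)) (K (.negSucc 24604633457241911)) N N) N N) (B (B (K (.ofNat 81426082330519500)) (K (.ofNat 66700441374213408)) N N) (B (K (.ofNat 26431627715044824)) (K (.ofNat 20255601439633824)) N N) N N) N N)⟩,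
  ⟨.x, T0, (B (B (K (.negSucc 25946528193361691)) (K (.negSucc 40960108225354595)) N N) (B (K (.ofNat 17708811092925576)) (K (.negSucc 22898409301982675)) N N) N N)⟩,
  ⟨.x, T1, (B (B (K (.ofNat 22330968863300124)) (K (.ofNat 10313773563468648)) N N) (B (K (.ofNat 13507598247150012)) (K (.ofNat 52925375688325848)) N N) N N)⟩,
  ⟨.x, T4, (B N N (K (.ofNat 9383849441734242)) (K (.negSucc 3236965478037137)))⟩,
  ⟨.x, T5, (A1 (K (.negSucc 1301185649541971)))⟩,
  ⟨.x, T6, (B N N (K (.ofNat 8508770183446308)) (K (.ofNat 101454583773546)))⟩,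
  ⟨.x, T7, (B (K (.ofNat 17631832976827152)) (K (.ofNat 10770868798239504)) N N)⟩,
  ⟨.x, T8, (B (K (.ofNat 47720659974166800)) (K (.ofNat 53858888683745988)) N N)⟩,
  ⟨.x, T10, (A1 (K (.ofNat 3083776884255384)))⟩,
  ⟨.x, T29, (K (.ofNat 1147572855159744))⟩,
  ⟨.x, T13, (K (.negSucc 11143017749415851))⟩,
  ⟨.x, T14, (K (.negSucc 3050419207164911))⟩,
  ⟨.x, T30, (K (.ofNat 102360135020820))⟩,
  ⟨.x, T31, (K (.negSucc 3824931068146295))⟩,
  ⟨.x, T32, (K (.negSucc 3186416829367211))⟩] (.node [⟨.x, .z, (B (B (K (.negSucc 21323091060957179)) (K (.negSucc 13309342842268175)) N N) (B (K (.negSucc 19027441709433743)) (K (.ofNat 39278941009857024)) N N) N N)⟩,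
  ⟨.x, T0, (B (K (.ofNat 16596808634643384)) (K (.ofNat 11431172773800540)) N N)⟩,
  ⟨.x, T1, (B (K (.ofNat 13014398277547560)) (K (.ofNat 22716960819101676)) N N)⟩,
  ⟨.x, T5, (K (.negSucc 6945150040867955))⟩,
  ⟨.x, T7, (K (.ofNat 46380008563411224))⟩,
  ⟨.x, T8, (K (.ofNat 30166006817514732))⟩,
  ⟨.x, T10, (K (.negSucc 1678860546047))⟩] (.node [⟨.x, .z, (B (K (.negSucc 4790678718683795)) (K (.ofNat 28818696465828972)) N N)⟩,
  ⟨.x, T0, (K (.negSucc 33773815155178859))⟩,
  ⟨.x, T1, (K (.ofNat 5798836331117748))⟩] (.node [⟨.x, .z, (K (.ofNat 8062645091388468))⟩] .nil .nil .nil .nil .nil .nil) (.node [⟨.x, .z, (K (.negSucc 10786642883504831))⟩] .nil .nil .nil .nil .nil .nil) .nil .nil .nil .nil) (.node [⟨.x, .z, (B (K (.ofNat 24166013285706216)) (K (.negSucc 15539346978211379)) N N)⟩,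
  ⟨.x, T0, (K (.negSucc 6449726942660555))⟩,
  ⟨.x, T1, (K (.negSucc 19492757239306499))⟩] (.node [⟨.x, .z, (K (.ofNat 27457283401716696))⟩] .nil .nil .nil .nil .nil .nil) (.node [⟨.x, .z, (K (.negSucc 17885519407764791))⟩] .nil .nil .nil .nil .nil .nil) .nil .nil .nil .nil) .nil .nil .nil .nil) (.node [⟨.x, .z, (B (B (K (.ofNat 101290908704060016)) (K (.ofNat 29520593327787972)) N N) (B (K (.ofNat 42509937321675840)) (K (.ofNat 37620745463635272)) N N) N N)⟩,
  ⟨.x, T0, (B (K (.negSucc 146713216211030279)) (K (.negSucc 94398491626368827)) N N)⟩,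
  ⟨.x, T1, (B (K (.ofNat 32180716103269584)) (K (.ofNat 71932580374941948)) N N)⟩,
  ⟨.x, T5, (K (.ofNat 30383739138471540))⟩,
  ⟨.x, T7, (K (.negSucc 4492685906981711))⟩,
  ⟨.x, T8, (K (.ofNat 65884786291420956))⟩,
  ⟨.x, T10, (K (.ofNat 122856627704675940))⟩] (.node [⟨.x, .z, (B (K (.ofNat 34780362979721580)) (K (.negSucc 1189581539075075)) N N)⟩,
  ⟨.x, T0, (K (.ofNat 59707803209292060))⟩,
  ⟨.x, T1, (K (.negSucc 70196068177036019))⟩] (.node [⟨.x, .z, (K (.negSucc 38775852095870363))⟩] .nil .nil .nil .nil .nil .nil) (.node [⟨.x, .z, (K (.negSucc 23696990764511003))⟩] .nil .nil .nil .nil .nil .nil) .nil .nil .nil .nil) (.node [⟨.x, .z, (B (K (.ofNat 101606309709012960)) (K (.ofNat 23303588047341048)) N N)⟩,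
  ⟨.x, T0, (K (.ofNat 77176970489929764))⟩,
  ⟨.x, T1, (K (.negSucc 177861358974267731))⟩] (.node [⟨.x, .z, (K (.ofNat 35693183679513444))⟩] .nil .nil .nil .nil .nil .nil) (.node [⟨.x, .z, (K (.ofNat 81458517975207468))⟩] .nil .nil .nil .nil .nil .nil) .nil .nil .nil .nil) .nil .nil .nil .nil) (.node [⟨.x, T4, (K (.ofNat 3505534043711250))⟩,
  ⟨.x, T6, (K (.ofNat 14102437550166618))⟩] .nil .nil .nil .nil .nil .nil) (.node [⟨.x, T4, (K (.negSucc 21936651609764003))⟩,
  ⟨.x, T6, (K (.negSucc 33653523516328259))⟩] .nil .nil .nil .nil .nil .nil) .nil .nil)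

def c_021 : Cert := (.node [⟨.x, .z, (B (B (B (K (.ofNat 5543361965336774)) (K (.ofNat 64999177823586974)) N N) (B (K (.ofNat 191534153269097721)) (K (.ofNat 220513301266906343)) N N) N N) (B (B (K (.negSucc 34637717170892601)) (K (.negSucc 7475188898274557)) N N) (B (K (.ofNat 54637329759627056)) (K (.ofNat 230531399799889208)) N N) N N) N N)⟩,
  ⟨.x, T0, (B (B (K (.negSucc 153772069255690027)) (K (.negSucc 89433399211440148)) N N) (B (K (.negSucc 314217636599198765)) (K (.negSucc 42524413526607913)) N N) N N)⟩,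
  ⟨.x, T1, (B (B (K (.ofNat 9040454390222854)) (K (.ofNat 180221554367000211)) N N) (B (K (.negSucc 39615037891037962)) (K (.negSucc 58208533584020032)) N N) N N)⟩,
  ⟨.x, T4, (B N N (K (.ofNat 135151654297373708)) (K (.ofNat 47030860829857695)))⟩,
  ⟨.x, T5, (A1 (K (.negSucc 105722762682267313)))⟩,
  ⟨.x, T6, (B N N (K (.ofNat 10051414434826978)) (K (.ofNat 151647254534118163)))⟩,
  ⟨.x, T7, (B (K (.negSucc 20777399395461327)) (K (.ofNat 142398218308289254)) N N)⟩,
  ⟨.x, T8, (B (K (.negSucc 122274767482722172)) (K (.ofNat 10838992476071495)) N N)⟩,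
  ⟨.x, T10, (A1 (K (.ofNat 25386680339522171)))⟩,
  ⟨.x, T29, (K (.ofNat 59208650914600374))⟩,
  ⟨.x, T13, (K (.ofNat 42750045552132888))⟩,
  ⟨.x, T14, (K (.ofNat 34007227216840536))⟩,
  ⟨.x, T30, (K (.negSucc 57926633675181692))⟩,
  ⟨.x, T31, (K (.ofNat 2484834465183122))⟩,
  ⟨.x, T32, (K (.ofNat 19825275472294162))⟩] (.node [⟨.x, .z, (B (B (K (.negSucc 19384384819114747)) (K (.negSucc 114923536314114877)) N N) (B (K (.negSucc 954870594222443)) (K (.ofNat 237028620600811900)) N N) N N)⟩,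
  ⟨.x, T0, (B (K (.negSucc 83516665017216359)) (K (.negSucc 358410357266921073)) N N)⟩,
  ⟨.x, T1, (B (K (.ofNat 151152495731026474)) (K (.ofNat 318650308843794060)) N N)⟩,
  ⟨.x, T5, (K (.ofNat 115435758370702914))⟩,
  ⟨.x, T7, (K (.ofNat 34101820934425472))⟩,
  ⟨.x, T8, (K (.ofNat 38938214983433038))⟩,
  ⟨.x, T10, (K (.ofNat 219277359365790348))⟩] (.node [⟨.x, .z, (B (K (.ofNat 201372260524682450)) (K (.ofNat 234123613760153334)) N N)⟩,
  ⟨.x, T0, (K (.ofNat 21939909759104498))⟩,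
  ⟨.x, T1, (K (.negSucc 419537747575709699))⟩] (.node [⟨.x, .z, (K (.ofNat 148085155345300956))⟩] .nil .nil .nil .nil .nil .nil) (.node [⟨.x, .z, (K (.ofNat 139558407403195462))⟩] .nil .nil .nil .nil .nil .nil) .nil .nil .nil .nil) (.node [⟨.x, .z, (B (K (.ofNat 16815902415879323)) (K (.negSucc 26998618356362361)) N N)⟩,
  ⟨.x, T0, (K (.negSucc 72926535558421557))⟩,
  ⟨.x, T1, (K (.negSucc 12486674237938536))⟩] (.node [⟨.x, .z, (K (.negSucc 42122721449492655))⟩] .nil .nil .nil .nil .nil .nil) (.node [⟨.x, .z, (K (.ofNat 138795743299165048))⟩] .nil .nil .nil .nil .nil .nil) .nil .nil .nil .nil) .nil .nil .nil .nil) (.node [⟨.x, .z, (B (B (K (.negSucc 95813824196680312)) (K (.ofNat 61293678773481675)) N N) (B (K (.negSucc 57793213785611809)) (K (.ofNat 82906230793713478)) N N) N N)⟩,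
  ⟨.x, T0, (B (K (.negSucc 83470269780250841)) (K (.negSucc 90533416450817257)) N N)⟩,
  ⟨.x, T1, (B (K (.ofNat 118399846367369651)) (K (.negSucc 18543228799096274)) N N)⟩,
  ⟨.x, T5, (K (.ofNat 18315158191635766))⟩,
  ⟨.x, T7, (K (.ofNat 22873936444751686))⟩,
  ⟨.x, T8, (K (.negSucc 3841917057406707))⟩,
  ⟨.x, T10, (K (.ofNat 115803780309610394))⟩] (.node [⟨.x, .z, (B (K (.negSucc 102327877157898912)) (K (.negSucc 5569821752530569)) N N)⟩,
  ⟨.x, T0, (K (.negSucc 150703745699748249))⟩,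
  ⟨.x, T1, (K (.ofNat 179677010164772099))⟩] (.node [⟨.x, .z, (K (.negSucc 294146638358420151))⟩] .nil .nil .nil .nil .nil .nil) (.node [⟨.x, .z, (K (.ofNat 6612850376392470))⟩] .nil .nil .nil .nil .nil .nil) .nil .nil .nil .nil) (.node [⟨.x, .z, (B (K (.negSucc 30679647623096942)) (K (.negSucc 133550509734832539)) N N)⟩,
  ⟨.x, T0, (K (.negSucc 6827721995091239))⟩,
  ⟨.x, T1, (K (.ofNat 76711289291119595))⟩] (.node [⟨.x, .z, (K (.negSucc 94751476335094679))⟩] .nil .nil .nil .nil .nil .nil) (.node [⟨.x, .z, (K (.ofNat 75886402616484246))⟩] .nil .nil .nil .nil .nil .nil) .nil .nil .nil .nil) .nil .nil .nil .nil) (.node [⟨.x, T4, (K (.ofNat 2104699588273314))⟩,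
  ⟨.x, T6, (K (.negSucc 137007978720478772))⟩] .nil .nil .nil .nil .nil .nil) (.node [⟨.x, T4, (K (.negSucc 65241685854989540))⟩,
  ⟨.x, T6, (K (.negSucc 61334015203995512))⟩] .nil .nil .nil .nil .nil .nil) .nil .nil)

def c_02 : Cert := (.node [⟨.x, .z, (B (B (B (B (K (.ofNat 30397412994377196)) (K (.negSucc 51778151227752707)) N N) (B (K (.ofNat 35393769378651348)) (K (.negSucc 40404990605833199)) N N) N N) (B (B (K (.ofNat 71700514809004080)) (K (.negSucc 91525835697398483)) N N) (B (K (.negSucc 162445406195037467)) (K (.negSucc 97245205897907291)) N N) N N) N N) (B (B (B (K (.ofNat 112103397772312896)) (K (.negSucc 63389201299994567)) N N) (B (K (.ofNat 12560596542581196)) (K (.negSucc 52677716390953919)) N N) N N) (B (A0 (K (.ofNat 77403694560193968))) (A1 (K (.negSucc 5645144836308911))) N N) N N) N N)⟩,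
  ⟨.x, T0, (B (B (B (K (.negSucc 117024632977359323)) (K (.ofNat 35379537580450020)) N N) (B (K (.negSucc 127093013510728019)) (K (.ofNat 74620120160178492)) N N) N N) (B (B (K (.negSucc 24187818879855359)) (K (.ofNat 90903599864818128)) N N) (B (K (.negSucc 28946785268389631)) (K (.ofNat 44596774011662424)) N N) N N) N N)⟩,
  ⟨.x, T1, (B (B (B (K (.negSucc 37247126804233391)) (K (.ofNat 4074847948138500)) N N) (B (K (.ofNat 21340610378107800)) (K (.negSucc 10166250259158395)) N N) N N) (B (B (K (.negSucc 74619172787071451)) (K (.ofNat 846495990378744)) N N) (B (K (.ofNat 145083077207232300)) (K (.ofNat 43827413089865112)) N N) N N) N N)⟩,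
  ⟨.x, T4, (B (B N N (K (.negSucc 9937909008609407)) (K (.ofNat 13754793154366692))) (B N N (K (.negSucc 13192413296952113)) (K (.ofNat 4578985903619874))) (B (K (.negSucc 3525164503999601)) (K (.ofNat 19080024774687978)) N N) (A1 (K (.ofNat 3962053979037570))))⟩,
  ⟨.x, T5, (A1 (A1 (K (.negSucc 1719784294178363))))⟩,
  ⟨.x, T6, (B (B N N (K (.ofNat 14666590421977650)) (K (.negSucc 32518460177354243))) (B N N (K (.ofNat 77688401320845714)) (K (.ofNat 2456472090580842))) (B (K (.ofNat 4690737996307146)) (K (.negSucc 41938330565090129)) N N) (A1 (K (.negSucc 37681123046728313))))⟩,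
  ⟨.x, T7, (B (B (K (.ofNat 33792492412844676)) (K (.ofNat 52647220841782668)) N N) (B (K (.ofNat 39431159833829568)) (K (.ofNat 32810220245260176)) N N) N N)⟩,
  ⟨.x, T8, (B (B (K (.ofNat 30821653620758412)) (K (.ofNat 58682195920542612)) N N) (B (K (.ofNat 157479430373500944)) (K (.ofNat 52566260884410900)) N N) N N)⟩,
  ⟨.x, T10, (A1 (B (K (.ofNat 54753662334049800)) (K (.negSucc 17038046856990827)) N N))⟩,
  ⟨.x, T28, (A3 (K (.ofNat 8741254334100720)))⟩,
  ⟨.x, T29, (A1 (K (.ofNat 656529416608800)))⟩,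
  ⟨.x, T12, (B N N (K (.negSucc 595569114535265)) (K (.ofNat 12853468068982740)))⟩,
  ⟨.x, T13, (B (K (.negSucc 930950658602783)) (K (.negSucc 1421779332993083)) N N)⟩,
  ⟨.x, T14, (B (K (.negSucc 14791808269092779)) (K (.negSucc 13382105238656819)) N N)⟩,
  ⟨.x, T30, (A0 (K (.negSucc 24054409601076983)))⟩,
  ⟨.x, T31, (A1 (K (.ofNat 1069930332758952)))⟩,
  ⟨.x, T32, (A1 (K (.ofNat 2512993667949912)))⟩,
  ⟨.x, T16, (K (.negSucc 2286400779731807))⟩,
  ⟨.x, T18, (K (.negSucc 5442185896996319))⟩,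
  ⟨.x, T34, (K (.negSucc 10699263641476187))⟩,
  ⟨.x, T43, (K (.negSucc 9228007659147407))⟩,
  ⟨.x, T45, (K (.negSucc 322395491363615))⟩,
  ⟨.x, T35, (K (.ofNat 2701109055791340))⟩] c_020 c_021 (.node [⟨.x, T4, (B (K (.ofNat 6658328523221274)) (K (.negSucc 6869140616052251)) N N)⟩,
  ⟨.x, T6, (B (K (.ofNat 50092525239211140)) (K (.ofNat 33662794046861580)) N N)⟩,
  ⟨.x, T28, (K (.negSucc 605513701066631))⟩,
  ⟨.x, T12, (K (.negSucc 4852382476428077))⟩] (.node [⟨.x, T4, (K (.negSucc 3424926857450849))⟩,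
  ⟨.x, T6, (K (.ofNat 14743832855328768))⟩] .nil .nil .nil .nil .nil .nil) (.node [⟨.x, T4, (K (.negSucc 25008094623094685))⟩,
  ⟨.x, T6, (K (.negSucc 21327090482374973))⟩] .nil .nil .nil .nil .nil .nil) .nil .nil .nil .nil) (.node [⟨.x, T4, (B (K (.negSucc 3312504886043687)) (K (.negSucc 50838180108470051)) N N)⟩,
  ⟨.x, T6, (B (K (.ofNat 51602270138808138)) (K (.ofNat 50004080440274820)) N N)⟩,
  ⟨.x, T28, (K (.negSucc 59731971172489679))⟩,
  ⟨.x, T12, (K (.ofNat 19675104476655750))⟩] (.node [⟨.x, T4, (K (.ofNat 56276247895131276))⟩,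
  ⟨.x, T6, (K (.negSucc 62718866182963241))⟩] .nil .nil .nil .nil .nil .nil) (.node [⟨.x, T4, (K (.ofNat 72547230573462774))⟩,
  ⟨.x, T6, (K (.negSucc 18382384122429029))⟩] .nil .nil .nil .nil .nil .nil) .nil .nil .nil .nil) .nil .nil)

def c_030 : Cert := (.node [⟨.x, .z, (B (B (B (K (.negSucc 205754041318867401)) (K (.negSucc 852921369880587577)) N N) (B (K (.negSucc 947687434047675044)) (K (.negSucc 599760083504479642)) N N) N N) (B (B (K (.negSucc 125616062608791417)) (K (.negSucc 1091957235669066225)) N N) (B (K (.negSucc 1585157386394552847)) (K (.negSucc 1696463095796565475)) N N) N N) N N)⟩,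
  ⟨.x, T0, (B (B (K (.ofNat 173685702098214224)) (K (.ofNat 978832008079060989)) N N) (B (K (.ofNat 1512360681359921258)) (K (.ofNat 813754524490137502)) N N) N N)⟩,
  ⟨.x, T1, (B (B (K (.negSucc 340952049011965)) (K (.negSucc 292464589890033730)) N N) (B (K (.ofNat 124924515054209587)) (K (.negSucc 377216829441485094)) N N) N N)⟩,
  ⟨.x, T4, (B N N (K (.negSucc 610964454412321341)) (K (.ofNat 18227565860532119)))⟩,
  ⟨.x, T5, (A1 (K (.ofNat 375120404682915238)))⟩,
  ⟨.x, T6, (B N N (K (.ofNat 27129946419629952)) (K (.ofNat 45860800459637461)))⟩,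
  ⟨.x, T7, (B (K (.negSucc 379362453386287163)) (K (.negSucc 903187198270192073)) N N)⟩,
  ⟨.x, T8, (B (K (.negSucc 127485773471964690)) (K (.negSucc 692425403367936438)) N N)⟩,
  ⟨.x, T10, (A1 (K (.ofNat 80676063183230665)))⟩,
  ⟨.x, T29, (K (.negSucc 252960328588053949))⟩,
  ⟨.x, T13, (K (.ofNat 148432364644250844))⟩,
  ⟨.x, T14, (K (.ofNat 45296382193518168))⟩,
  ⟨.x, T30, (K (.ofNat 5065531861197137))⟩,
  ⟨.x, T31, (K (.negSucc 51258139377719593))⟩,
  ⟨.x, T32, (K (.negSucc 114439366459203749))⟩] (.node [⟨.x, .z, (B (B (K (.ofNat 873686873906701480)) (K (.ofNat 304002291423398814)) N N) (B (K (.ofNat 610938439581890968)) (K (.negSucc 2110924226524593631)) N N) N N)⟩,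
  ⟨.x, T0, (B (K (.negSucc 872465542830804403)) (K (.ofNat 640122413276753998)) N N)⟩,
  ⟨.x, T1, (B (K (.negSucc 734690694531784245)) (K (.negSucc 1304068424633976911)) N N)⟩,
  ⟨.x, T5, (K (.ofNat 157089313790753306))⟩,
  ⟨.x, T7, (K (.negSucc 1478419337342846199))⟩,
  ⟨.x, T8, (K (.negSucc 1207872383394777949))⟩,
  ⟨.x, T10, (K (.negSucc 93175821239670251))⟩] (.node [⟨.x, .z, (B (K (.ofNat 693401465856369362)) (K (.negSucc 1509818405835504485)) N N)⟩,
  ⟨.x, T0, (K (.ofNat 1333914351427997930))⟩,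
  ⟨.x, T1, (K (.ofNat 272549659644801540))⟩] (.node [⟨.x, .z, (K (.negSucc 99535644888053079))⟩] .nil .nil .nil .nil .nil .nil) (.node [⟨.x, .z, (K (.ofNat 363491009705132746))⟩] .nil .nil .nil .nil .nil .nil) .nil .nil .nil .nil) (.node [⟨.x, .z, (B (K (.negSucc 675261920243485706)) (K (.ofNat 780348391869586218)) N N)⟩,
  ⟨.x, T0, (K (.ofNat 1050134689815103030))⟩,
  ⟨.x, T1, (K (.negSucc 317929187762101858))⟩] (.node [⟨.x, .z, (K (.ofNat 681590277187313712))⟩] .nil .nil .nil .nil .nil .nil) (.node [⟨.x, .z, (K (.ofNat 1283259003077814416))⟩] .nil .nil .nil .nil .nil .nil) .nil .nil .nil .nil) .nil .nil .nil .nil) (.node [⟨.x, .z, (B (B (K (.negSucc 267584434676370162)) (K (.negSucc 1441664899764034122)) N N) (B (K (.negSucc 88497812107875293)) (K (.negSucc 454385630075326113)) N N) N N)⟩,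
  ⟨.x, T0, (B (K (.ofNat 222762222196672646)) (K (.ofNat 760555403189181702)) N N)⟩,
  ⟨.x, T1, (B (K (.ofNat 29252107334037521)) (K (.ofNat 564159648560806903)) N N)⟩,
  ⟨.x, T5, (K (.negSucc 311888143047231817))⟩,
  ⟨.x, T7, (K (.negSucc 198391569674201361))⟩,
  ⟨.x, T8, (K (.ofNat 231889423344019816))⟩,
  ⟨.x, T10, (K (.negSucc 509004482037737797))⟩] (.node [⟨.x, .z, (B (K (.ofNat 303943310909414785)) (K (.ofNat 874087323257746326)) N N)⟩,
  ⟨.x, T0, (K (.negSucc 341266154830920017))⟩,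
  ⟨.x, T1, (K (.negSucc 233940345991920034))⟩] (.node [⟨.x, .z, (K (.ofNat 678178884923973368))⟩] .nil .nil .nil .nil .nil .nil) (.node [⟨.x, .z, (K (.negSucc 275662342723725881))⟩] .nil .nil .nil .nil .nil .nil) .nil .nil .nil .nil) (.node [⟨.x, .z, (B (K (.ofNat 505237349647360547)) (K (.ofNat 1077742981217306416)) N N)⟩,
  ⟨.x, T0, (K (.negSucc 678746563363740307))⟩,
  ⟨.x, T1, (K (.negSucc 10197557652882746))⟩] (.node [⟨.x, .z, (K (.negSucc 103403824312046207))⟩] .nil .nil .nil .nil .nil .nil) (.node [⟨.x, .z, (K (.negSucc 794356175648830317))⟩] .nil .nil .nil .nil .nil .nil) .nil .nil .nil .nil) .nil .nil .nil .nil) (.node [⟨.x, T4, (K (.ofNat 69488935367029042))⟩,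
  ⟨.x, T6, (K (.ofNat 24865215881867417))⟩] .nil .nil .nil .nil .nil .nil) (.node [⟨.x, T4, (K (.ofNat 1022381468380461385))⟩,
  ⟨.x, T6, (K (.ofNat 503021464693422045))⟩] .nil .nil .nil .nil .nil .nil) .nil .nil)

def c_031 : Cert := (.node [⟨.x, .z, (B (B (B (K (.negSucc 14797614957733687)) (K (.ofNat 654982692527171776)) N N) (B (K (.negSucc 9102928505285237)) (K (.ofNat 309910069930715458)) N N) N N) (B (B (K (.negSucc 430213214454399891)) (K (.ofNat 428222686052849472)) N N) (B (K (.ofNat 339461991398203708)) (K (.ofNat 1194028591571308252)) N N) N N) N N)⟩,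
  ⟨.x, T0, (B (B (K (.ofNat 212100786563180812)) (K (.negSucc 29617815422153477)) N N) (B (K (.negSucc 94254065576760531)) (K (.negSucc 497004262450064327)) N N) N N)⟩,
  ⟨.x, T1, (B (B (K (.negSucc 318776195053836839)) (K (.negSucc 145900058163621309)) N N) (B (K (.negSucc 231640431152176369)) (K (.ofNat 578398969929683342)) N N) N N)⟩,
  ⟨.x, T4, (B N N (K (.ofNat 320565988147062682)) (K (.negSucc 293445578609456255)))⟩,
  ⟨.x, T5, (A1 (K (.negSucc 201678131010667359)))⟩,
  ⟨.x, T6, (B N N (K (.ofNat 16503618401758834)) (K (.negSucc 4065568271135471)))⟩,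
  ⟨.x, T7, (B (K (.ofNat 391053463713426124)) (K (.ofNat 832647729064263680)) N N)⟩,
  ⟨.x, T8, (B (K (.ofNat 12051883367467830)) (K (.ofNat 786286562458858838)) N N)⟩,
  ⟨.x, T10, (A1 (K (.ofNat 81434774019090146)))⟩,
  ⟨.x, T29, (K (.ofNat 189956671894712224))⟩,
  ⟨.x, T13, (K (.negSucc 316879870855497923))⟩,
  ⟨.x, T14, (K (.negSucc 195898347669900419))⟩,
  ⟨.x, T30, (K (.ofNat 30092822586213294))⟩,
  ⟨.x, T31, (K (.ofNat 21556697312302236))⟩,
  ⟨.x, T32, (K (.ofNat 185610595875990028))⟩] (.node [⟨.x, .z, (B (B (K (.negSucc 387641093989893951)) (K (.negSucc 159110596410334879)) N N) (B (K (.ofNat 204857490277201744)) (K (.ofNat 1096725133781836208)) N N) N N)⟩,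
  ⟨.x, T0, (B (K (.ofNat 577585498982075784)) (K (.negSucc 94343552317506811)) N N)⟩,
  ⟨.x, T1, (B (K (.ofNat 4386330092060528)) (K (.ofNat 289883261228687108)) N N)⟩,
  ⟨.x, T5, (K (.negSucc 256449675215907891))⟩,
  ⟨.x, T7, (K (.ofNat 515891174579025780))⟩,
  ⟨.x, T8, (K (.ofNat 483988984330233536))⟩,
  ⟨.x, T10, (K (.negSucc 484567179127485707))⟩] (.node [⟨.x, .z, (B (K (.negSucc 631636283787642463)) (K (.ofNat 237924472933485432)) N N)⟩,
  ⟨.x, T0, (K (.negSucc 852484311535616119))⟩,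
  ⟨.x, T1, (K (.ofNat 444225740536583420))⟩] (.node [⟨.x, .z, (K (.negSucc 290583388193436735))⟩] .nil .nil .nil .nil .nil .nil) (.node [⟨.x, .z, (K (.negSucc 719914948571657151))⟩] .nil .nil .nil .nil .nil .nil) .nil .nil .nil .nil) (.node [⟨.x, .z, (B (K (.ofNat 110399162406285134)) (K (.negSucc 906569739454723051)) N N)⟩,
  ⟨.x, T0, (K (.negSucc 451558502815377715))⟩,
  ⟨.x, T1, (K (.ofNat 439705486277996326))⟩] (.node [⟨.x, .z, (K (.negSucc 847071265525553259))⟩] .nil .nil .nil .nil .nil .nil) (.node [⟨.x, .z, (K (.negSucc 1122600747529558499))⟩] .nil .nil .nil .nil .nil .nil) .nil .nil .nil .nil) .nil .nil .nil .nil) (.node [⟨.x, .z, (B (B (K (.negSucc 476513519549353245)) (K (.ofNat 1455539065956399730)) N N) (B (K (.ofNat 421537497354698816)) (K (.ofNat 3360643456017676)) N N) N N)⟩,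
  ⟨.x, T0, (B (K (.ofNat 370082198280266560)) (K (.negSucc 295682914310258159)) N N)⟩,
  ⟨.x, T1, (B (K (.negSucc 341133431766029157)) (K (.negSucc 1263618342659674945)) N N)⟩,
  ⟨.x, T5, (K (.ofNat 417561753813756944))⟩,
  ⟨.x, T7, (K (.negSucc 271694446658014395))⟩,
  ⟨.x, T8, (K (.negSucc 1136618762105627883))⟩,
  ⟨.x, T10, (K (.negSucc 586890004029514475))⟩] (.node [⟨.x, .z, (B (K (.ofNat 169087101675671634)) (K (.negSucc 1096902432056523923)) N N)⟩,
  ⟨.x, T0, (K (.ofNat 495473887877907272))⟩,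
  ⟨.x, T1, (K (.negSucc 201338631888180041))⟩] (.node [⟨.x, .z, (K (.ofNat 177417329190789468))⟩] .nil .nil .nil .nil .nil .nil) (.node [⟨.x, .z, (K (.ofNat 501001051783211244))⟩] .nil .nil .nil .nil .nil .nil) .nil .nil .nil .nil) (.node [⟨.x, .z, (B (K (.negSucc 1244522979764545261)) (K (.negSucc 1036797927898190983)) N N)⟩,
  ⟨.x, T0, (K (.ofNat 787634134098088900))⟩,
  ⟨.x, T1, (K (.ofNat 703693263946395070))⟩] (.node [⟨.x, .z, (K (.ofNat 353106111185020104))⟩] .nil .nil .nil .nil .nil .nil) (.node [⟨.x, .z, (K (.ofNat 374133492608928588))⟩] .nil .nil .nil .nil .nil .nil) .nil .nil .nil .nil) .nil .nil .nil .nil) (.node [⟨.x, T4, (K (.negSucc 26974035765299749))⟩,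
  ⟨.x, T6, (K (.negSucc 146917814359406103))⟩] .nil .nil .nil .nil .nil .nil) (.node [⟨.x, T4, (K (.negSucc 368697488493465213))⟩,
  ⟨.x, T6, (K (.negSucc 23367219617554429))⟩] .nil .nil .nil .nil .nil .nil) .nil .nil)

def c_03 : Cert := (.node [⟨.x, .z, (B (B (B (B (K (.negSucc 385506523631277511)) (K (.ofNat 738198845843218076)) N N) (B (K (.negSucc 617863979726724527)) (K (.ofNat 866433538493168912)) N N) N N) (B (B (K (.negSucc 911951300883413471)) (K (.ofNat 1052651970807600700)) N N) (B (K (.ofNat 247174744133962544)) (K (.ofNat 560181675005104264)) N N) N N) N N) (B (B (B (K (.ofNat 387930176471868972)) (K (.ofNat 815598395114735048)) N N) (B (K (.ofNat 861041521125068068)) (K (.ofNat 250724994096904008)) N N) N N) (B (A0 (K (.ofNat 139042837667313752))) (A1 (K (.negSucc 206413370993112499))) N N) N N) N N)⟩,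
  ⟨.x, T0, (B (B (B (K (.negSucc 9883003130817783)) (K (.negSucc 768534048299474143)) N N) (B (K (.negSucc 178616338153552183)) (K (.negSucc 465869777618666763)) N N) N N) (B (B (K (.ofNat 303560877407038008)) (K (.negSucc 523686042742983623)) N N) (B (K (.negSucc 44861707645744879)) (K (.negSucc 147997523930829959)) N N) N N) N N)⟩,
  ⟨.x, T1, (B (B (B (K (.ofNat 272224618755257432)) (K (.negSucc 19496958637343387)) N N) (B (K (.ofNat 285926802454736816)) (K (.negSucc 202828700903054707)) N N) N N) (B (B (K (.ofNat 738349420039665484)) (K (.ofNat 148715505715877852)) N N) (B (K (.negSucc 48327256770703055)) (K (.negSucc 96480133484567219)) N N) N N) N N)⟩,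
  ⟨.x, T4, (B (B N N (K (.ofNat 272201900911589284)) (K (.negSucc 30255203920438731))) (B N N (K (.ofNat 408722954325670230)) (K (.ofNat 193937219943295804))) (B (K (.negSucc 115146499535978917)) (K (.negSucc 607726241230483233)) N N) (A1 (K (.negSucc 32798496188230063))))⟩,
  ⟨.x, T5, (A1 (A1 (K (.negSucc 46730776212226415))))⟩,
  ⟨.x, T6, (B (B N N (K (.ofNat 8168215344585816)) (K (.negSucc 196087295557317641))) (B N N (K (.negSucc 146203331899693625)) (K (.ofNat 6448128957751988))) (B (K (.ofNat 81329168567400642)) (K (.negSucc 18104957012472349)) N N) (A1 (K (.ofNat 278511460686922784))))⟩,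
  ⟨.x, T7, (B (B (K (.ofNat 82622385023004108)) (K (.negSucc 466887135073593555)) N N) (B (K (.negSucc 548079802209973287)) (K (.negSucc 377092232641226475)) N N) N N)⟩,
  ⟨.x, T8, (B (B (K (.negSucc 52714086206593475)) (K (.negSucc 17394458744383507)) N N) (B (K (.negSucc 559699021346669599)) (K (.negSucc 3415603236131227)) N N) N N)⟩,
  ⟨.x, T10, (A1 (B (K (.negSucc 213116063419087635)) (K (.ofNat 134651673863352404)) N N))⟩,
  ⟨.x, T28, (A3 (K (.ofNat 206263654789573336)))⟩,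
  ⟨.x, T29, (A1 (K (.ofNat 42197824877392144)))⟩,
  ⟨.x, T12, (B N N (K (.negSucc 52346711790960979)) (K (.negSucc 156471329568893589)))⟩,
  ⟨.x, T13, (B (K (.negSucc 27955785840487799)) (K (.ofNat 59521780137300168)) N N)⟩,
  ⟨.x, T14, (B (K (.ofNat 144686225308336392)) (K (.ofNat 99574721326156824)) N N)⟩,
  ⟨.x, T30, (A0 (K (.ofNat 87411351719752228)))⟩,
  ⟨.x, T31, (A1 (K (.ofNat 38709589185240624)))⟩,
  ⟨.x, T32, (A1 (K (.ofNat 64941984878508904)))⟩,
  ⟨.x, T16, (K (.ofNat 46847636611426656))⟩,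
  ⟨.x, T18, (K (.ofNat 178037965989494208))⟩,
  ⟨.x, T34, (K (.ofNat 177718471704139368))⟩,
  ⟨.x, T43, (K (.ofNat 53932883736915720))⟩,
  ⟨.x, T45, (K (.negSucc 58679052747439439))⟩,
  ⟨.x, T35, (K (.negSucc 8965896745314023))⟩] c_030 c_031 (.node [⟨.x, T4, (B (K (.negSucc 150392179075597321)) (K (.negSucc 71007537230238083)) N N)⟩,
  ⟨.x, T6, (B (K (.negSucc 182127211640291961)) (K (.negSucc 203090751796539855)) N N)⟩,
  ⟨.x, T28, (K (.negSucc 39929379390021775))⟩,
  ⟨.x, T12, (K (.negSucc 140327928294123631))⟩] (.node [⟨.x, T4, (K (.negSucc 35661476075965925))⟩,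
  ⟨.x, T6, (K (.negSucc 84142058994233137))⟩] .nil .nil .nil .nil .nil .nil) (.node [⟨.x, T4, (K (.ofNat 108669984240273564))⟩,
  ⟨.x, T6, (K (.ofNat 413387714153893692))⟩] .nil .nil .nil .nil .nil .nil) .nil .nil .nil .nil) (.node [⟨.x, T4, (B (K (.ofNat 36710656106809312)) (K (.ofNat 88478418416213704)) N N)⟩,
  ⟨.x, T6, (B (K (.negSucc 21011875697355815)) (K (.negSucc 189544857490214347)) N N)⟩,
  ⟨.x, T28, (K (.negSucc 15671825872818823))⟩,
  ⟨.x, T12, (K (.negSucc 64121788325977671))⟩] (.node [⟨.x, T4, (K (.negSucc 374193926612030771))⟩,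
  ⟨.x, T6, (K (.negSucc 320923100139759935))⟩] .nil .nil .nil .nil .nil .nil) (.node [⟨.x, T4, (K (.negSucc 232434284734241095))⟩,
  ⟨.x, T6, (K (.ofNat 40714138826067928))⟩] .nil .nil .nil .nil .nil .nil) .nil .nil .nil .nil) .nil .nil)

def c_0 : Cert := (.node [⟨.x, .z, (B (B (B (B (B N N (K (.ofNat 29524628154160836)) (K (.negSucc 150835280321533463))) (B N N (K (.ofNat 679206463748794404)) (K (.ofNat 647287348131577028))) (B (K (.ofNat 7408140416836632)) (K (.negSucc 517888187151847319)) N N) (A1 (K (.ofNat 101632986784680300)))) (B (B N N (K (.ofNat 2471380495724900)) (K (.ofNat 143887080022286376))) (B N N (K (.ofNat 371322100750199220)) (K (.ofNat 418633236040178512))) (B (K (.negSucc 83079236106480459)) (K (.negSucc 140277427150581699)) N N) (A1 (K (.negSucc 137722730042759703)))) (B (B (K (.ofNat 13379930716861656)) (K (.negSucc 309887439760496327)) N N) (A0 (K (.negSucc 222049924363275491))) N N) (A1 (A1 (K (.negSucc 13601281943175395)))))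 (B (B (B N N (K (.negSucc 9304940833892149)) (K (.negSucc 220179309867143129))) (B N N (K (.ofNat 323972272293606600)) (K (.ofNat 319135005367058082))) (B (K (.ofNat 3044563138478494)) (K (.negSucc 96839170376206183)) N N) (A1 (K (.negSucc 182254758472906081)))) (B (B N N (K (.ofNat 13362599764005454)) (K (.negSucc 146014984834178007))) (B N N (K (.ofNat 78649350291036630)) (K (.ofNat 115245778765929714))) (B (K (.negSucc 78214212351968413)) (K (.ofNat 22896039197035360)) N N) (A1 (K (.ofNat 7695166111264246)))) (B (B (K (.negSucc 6097761380009477)) (K (.ofNat 108587376863502876)) N N) (A0 (K (.ofNat 224742286039058292))) N N) (A1 (A1 (K (.ofNat 99404117057903742))))) (A0 (B (B (K (.negSucc 158834697483066695)) (K (.negSucc 279491466902020307)) N N) (A0 (K (.negSucc 37356837311634191))) N N)) (A1 (A1 (A1 (K (.ofNat 27964436475411540)))))) (B (B (B (B N N (K (.ofNat 151614414309739862)) (K (.ofNat 113278557962719826))) (B N N (K (.ofNat 102549804427406868))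 (K (.ofNat 212100518366969310))) (B (K (.ofNat 4180901831248898)) (K (.negSucc 40665934599792591)) N N) (A1 (K (.ofNat 22268040768314090)))) (B (B N N (K (.ofNat 203614811769277898)) (K (.ofNat 195781529010670360))) (B N N (K (.ofNat 125892754057604718)) (K (.ofNat 114824176730863566))) (B (K (.negSucc 103700613703656405)) (K (.negSucc 81504645455145219)) N N) (A1 (K (.ofNat 48429734634956654)))) (B (B (K (.negSucc 265810312134885413)) (K (.negSucc 161934791193161207)) N N) (A0 (K (.negSucc 64625333634381155))) N N) (A1 (A1 (K (.ofNat 44016295465364130))))) (B (B (B N N (K (.ofNat 124481240040655900)) (K (.ofNat 17387964958121752))) N (B (K (.negSucc 66354532783738927)) (K (.negSucc 70504508401912807)) N N) (A1 (K (.ofNat 32376681940773280)))) (B N (B N N (K (.ofNat 5279332169055552)) (K (.ofNat 12626792219569980))) (A0 (K (.negSucc 20502828199481075))) (A1 (K (.negSucc 1307845414339559)))) (A0 (A0 (K (.negSucc 129516577063387535)))) (A1 (A1 (K (.ofNat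 8430923899216116))))) (A0 (B (A0 (K (.negSucc 211365546068452355))) (A0 (K (.negSucc 120483770238884087))) N N)) (A1 (A1 (A1 (K (.ofNat 28693360133040636)))))) (A0 (A0 (B (B (K (.negSucc 135935443006279223)) (K (.negSucc 137628826247839307)) N N) (A0 (K (.negSucc 44807588049101315))) N N))) (A1 (A1 (A1 (A1 (K (.negSucc 1294145776522511)))))))⟩,
  ⟨.z, .z, (B (B (B (B (B (K (.ofNat 32813852610833376)) (K (.negSucc 44592928915364321)) N N) (B (K (.ofNat 39239076633446460)) (K (.negSucc 22002681680459369)) N N) N N) (B (B (K (.ofNat 47892125905585056)) (K (.negSucc 53354304757600211)) N N) (B (K (.ofNat 22098596425100496)) (K (.negSucc 3502773785912723)) N N) N N) N N) (B (B (B (K (.ofNat 54990150449169222)) (K (.ofNat 24696913136484168)) N N) (B (K (.ofNat 22032342283608036)) (K (.ofNat 27617498078760936)) N N) N N) (B (A0 (K (.negSucc 27014053244498873))) (A1 (K (.ofNat 14296096591762914))) N N) N N) N N) (B (B (B (B (K (.ofNat 115079935956562614))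 (K (.ofNat 87507025301962482)) N N) (B (K (.ofNat 101057180957015568)) (K (.negSucc 2138925587233715)) N N) N N) (B (A1 (K (.ofNat 4406131342051230))) (A0 (K (.ofNat 26036726196392946))) N N) N N) (B (A0 (A0 (K (.ofNat 8215249287387528)))) (A1 (A1 (K (.ofNat 630355125395592)))) N N) N N) N N)⟩,
  ⟨.x, T0, (B (B (B (B N N (K (.negSucc 2468903320310207)) (K (.ofNat 147881399689521096))) (B N N (K (.negSucc 165427785419949083)) (K (.negSucc 98224796692088051))) (B (K (.negSucc 1859848957252547)) (K (.ofNat 211098218542640208)) N N) (A1 (K (.negSucc 68506455754574963)))) (B (B N N (K (.ofNat 5165659841998224)) (K (.ofNat 36528117931278948))) (B N N (K (.ofNat 3127429709766456)) (K (.negSucc 81210546590244779))) (B (K (.negSucc 37488692906321939)) (K (.ofNat 15283769350696380)) N N) (A1 (K (.ofNat 11957582428533396)))) (B (B (K (.negSucc 294911186651)) (K (.ofNat 94987380156632316)) N N) (A0 (K (.ofNat 106251368565970980))) N N) (A1 (A1 (K (.ofNat 33356524062105900)))))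 (B (B (B N N (K (.ofNat 6594347860341036)) (K (.ofNat 126544950437559300))) (B N N (K (.negSucc 2116809167756591)) (K (.negSucc 21092557107181931))) (B (K (.negSucc 24849690639330383)) (K (.ofNat 55784294219473344)) N N) (A1 (K (.ofNat 12645173681845956)))) (B (B N N (K (.ofNat 14347549922331468)) (K (.ofNat 81153802811590392))) (B N N (K (.ofNat 70289210421707412)) (K (.ofNat 17199706397428620))) (B (K (.negSucc 20062277805465107)) (K (.negSucc 52413496669292219)) N N) (A1 (K (.ofNat 1476707269377528)))) (B (B (K (.negSucc 81543354929606015)) (K (.negSucc 94517587492490375)) N N) (A0 (K (.negSucc 84150309539384639))) N N) (A1 (A1 (K (.negSucc 23308795864505015))))) (A0 (B (B (K (.ofNat 10693110915200556)) (K (.ofNat 95749704730836828)) N N) (A0 (K (.ofNat 23311560055499100))) N N)) (A1 (A1 (A1 (K (.negSucc 32940328264557011))))))⟩,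
  ⟨.x, T1, (B (B (B (B N N (K (.negSucc 29677906123859843)) (K (.negSucc 17559862760740835))) (B N N (K (.negSucc 89301335963796383)) (K (.negSucc 58096801993993991))) (B (K (.negSucc 6927508171557431)) (K (.ofNat 13507324698922632)) N N) (A1 (K (.negSucc 4403967013071143)))) (B (B N N (K (.negSucc 55429416210543383)) (K (.ofNat 2295146671972980))) (B N N (K (.negSucc 114898660321672091)) (K (.negSucc 79676926912790519))) (B (K (.ofNat 15149654378619840)) (K (.ofNat 136547159368507020)) N N) (A1 (K (.negSucc 19277735268658391)))) (B (B (K (.negSucc 11937545069703479)) (K (.negSucc 16026425655576551)) N N) (A0 (K (.ofNat 14889751411447224))) N N) N) (B (B (B N N (K (.negSucc 32852898244777631)) (K (.ofNat 7979355434310996))) (B N N (K (.negSucc 160829514583456739)) (K (.negSucc 28331591008098467))) (B (K (.ofNat 44729861352490512)) (K (.ofNat 108038730811804632)) N N) (A1 (K (.negSucc 1553881178944979)))) (B (B N N (K (.negSucc 25944015985818695)) (K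 (.ofNat 80634579993285876))) (B N N (K (.negSucc 68068108821189431)) (K (.ofNat 21684568346108244))) (B (K (.ofNat 42957033467912820)) (K (.ofNat 104207396303020284)) N N) (A1 (K (.ofNat 7924268914086780)))) (B (B (K (.negSucc 55671152800349879)) (K (.negSucc 38275522550382959)) N N) (A0 (K (.negSucc 57199405702013135))) N N) (A1 (A1 (K (.negSucc 16985024404165583))))) (A0 (B (B (K (.ofNat 146573271420360624)) (K (.ofNat 87950167520883912)) N N) (A0 (K (.ofNat 71399814883054488))) N N)) N)⟩,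
  ⟨.x, T2, (B (B (B (B (K (.ofNat 167450329480984896)) (K (.ofNat 75226362673009920)) N N) (B (K (.ofNat 169205701618544928)) (K (.negSucc 49894584851534183)) N N) N N) (B (B (K (.ofNat 57594600439960320)) (K (.negSucc 26018853123710291)) N N) (B (K (.ofNat 55762434734144436)) (K (.negSucc 18245861913380759)) N N) N N) N N) (B (B (B (K (.ofNat 66959772650697060)) (K (.ofNat 40804094246279148)) N N) (B (K (.ofNat 68739884915817024)) (K (.ofNat 3976151509720332)) N N) N N) (B (A0 (K (.ofNat 8494429804621344))) (A1 (K (.ofNat 1331799779858832))) N N) N N) N N)⟩,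
  ⟨.z, T0, (A0 (B (B (B (K (.ofNat 24833389694155224)) (K (.negSucc 40162240628635271)) N N) (B (K (.negSucc 20992546706999387)) (K (.ofNat 3562977596128200)) N N) N N) (A0 (B (K (.ofNat 35525430436849884)) (K (.negSucc 5591980773082811)) N N)) N N))⟩,
  ⟨.x, T4, (B (B N N (B N N (K (.negSucc 3208895671344587)) (K (.negSucc 6531711780360467))) (A3 (K (.ofNat 3616235961281664)))) (B N N (B N N (K (.negSucc 4297962052254401)) (K (.negSucc 5789443607497925))) (A3 (K (.ofNat 563883440424618)))) (B (B N N (K (.negSucc 11349313849600811)) (K (.negSucc 4743564149784083))) (B N N (K (.ofNat 3004786414220610)) (K (.ofNat 9828658342483566))) (A0 (K (.ofNat 851612731112520))) N) (B N (A3 (K (.negSucc 1597611083768753))) N (A1 (K (.ofNat 142627103204184)))))⟩,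
  ⟨.x, T5, (B N (B N (B N N (K (.negSucc 10881348969517487)) (K (.negSucc 3453830560787435))) N (A1 (K (.ofNat 2349943212698856)))) N (A1 (A1 (K (.ofNat 647072888261256)))))⟩,
  ⟨.x, T6, (B (B N N (B N N (K (.negSucc 201035221987823)) (K (.negSucc 13577038050603329))) (A3 (K (.negSucc 9341480986178201)))) (B N N (B N N (K (.negSucc 25652746972045325)) (K (.negSucc 7049254901808857))) (A3 (K (.negSucc 6978034602388541)))) (B (B N N (K (.negSucc 115986961494863)) (K (.negSucc 2419454439595799))) (B N N (K (.ofNat 29533943599237086)) (K (.negSucc 2261542290619397))) (A0 (K (.negSucc 1042406966184695))) (A1 (K (.negSucc 31099576711410911)))) (B N (A3 (K (.negSucc 14815664096865833))) N (A1 (K (.negSucc 1546617133665215)))))⟩,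
  ⟨.x, T7, (B (B (B N N (K (.ofNat 317917875897360)) (K (.negSucc 16520763842733095))) (B N N (K (.ofNat 932134744277064)) (K (.negSucc 2081910397518587))) (B (K (.negSucc 3919363841059631)) (K (.ofNat 12296404272351456)) N N) (A1 (K (.negSucc 10662726508149455)))) (B (B N N (K (.negSucc 1395401990612399)) (K (.ofNat 7167505095587760))) (B N N (K (.ofNat 5294271621380148)) (K (.ofNat 19720893591609288))) (B (K (.ofNat 16888635783925128)) (K (.ofNat 11667438122953428)) N N) (A1 (K (.negSucc 5401441906162919)))) (B (B (K (.negSucc 4011614134650107)) (K (.ofNat 7373191629011940)) N N) (A0 (K (.negSucc 14012069600517983))) N N) (A1 (A1 (K (.negSucc 14230799077027643)))))⟩,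
  ⟨.x, T8, (B (B (B N N (K (.negSucc 906139536075575)) (K (.negSucc 29328105158967851))) (B N N (K (.negSucc 1666525925502515)) (K (.ofNat 14629116948208536))) (B (K (.negSucc 2795178207172679)) (K (.negSucc 28333511625060395)) N N) (A1 (K (.ofNat 19907536484817756)))) (B (B N N (K (.ofNat 1216684456745892)) (K (.ofNat 31060256453475636))) (B N N (K (.ofNat 15342119692933992)) (K (.ofNat 20747539144296444))) (B (K (.negSucc 12755923562029247)) (K (.ofNat 41157462808330668)) N N) (A1 (K (.negSucc 290631653119727)))) (B (B (K (.negSucc 2443004075957939)) (K (.negSucc 23462545413978827)) N N) (A0 (K (.negSucc 11977325541355931))) N N) (A1 (A1 (K (.negSucc 22526138312204471)))))⟩,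
  ⟨.x, T9, (A0 (B (B (K (.negSucc 6681496780550447)) (K (.negSucc 4945290895917143)) N N) (B (K (.negSucc 10112844832338635)) (K (.ofNat 9680079370157244)) N N) N N))⟩,
  ⟨.x, T10, (A1 (B (B N N (K (.ofNat 24587372509579392)) (K (.ofNat 8506227647518584))) (B N N (K (.ofNat 8611743094861752)) (K (.negSucc 2443619822550167))) (A0 (K (.negSucc 611177214044303))) (A1 (K (.ofNat 3092954457239424)))))⟩,
  ⟨.x, T11, (A1 (B (B (K (.ofNat 26636475117648816)) (K (.ofNat 15115433285262384)) N N) (B (K (.ofNat 14620592503491624)) (K (.negSucc 1134105337895183)) N N) N N))⟩,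
  ⟨.x, T28, (A3 (A3 (K (.ofNat 331297473899496))))⟩,
  ⟨.x, T29, (B N (A3 (K (.ofNat 2249367985082784))) N (A1 (K (.negSucc 803151197726759))))⟩,
  ⟨.x, T12, (B N N (B N N (K (.negSucc 185313106790507)) (K (.ofNat 2348741798388642))) (A3 (K (.negSucc 2769643724593421))))⟩,
  ⟨.x, T13, (B (B N N (K (.negSucc 362835762483491)) (K (.negSucc 928832170202531))) (B N N (K (.ofNat 4882954706214480)) (K (.ofNat 8066011733384724))) (B (K (.ofNat 2258197287537744)) (K (.negSucc 7880900757682175)) N N) (A1 (K (.ofNat 7115626773195192))))⟩,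
  ⟨.x, T14, (B (B N N (K (.ofNat 1564668633298428)) (K (.ofNat 4323646973597616))) (B N N (K (.ofNat 2253967029166356)) (K (.ofNat 2655969564271788))) (B (K (.ofNat 2070974233333152)) (K (.negSucc 1932362777303999)) N N) (A1 (K (.ofNat 5122645635194604))))⟩,
  ⟨.x, T20, (A0 (B (K (.ofNat 4011614134650108)) (K (.negSucc 3937656317846795)) N N))⟩,
  ⟨.x, T30, (B (B N N (K (.ofNat 1664409419001672)) (K (.ofNat 7299639729415740))) N (A0 (K (.negSucc 1345244168198339))) N)⟩,
  ⟨.x, T24, (A0 (A0 (K (.negSucc 1568315147505515))))⟩,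
  ⟨.x, T31, (B N (A3 (K (.ofNat 608806854155304))) N (A1 (K (.ofNat 1403990030461032))))⟩,
  ⟨.x, T32, (B N (A3 (K (.ofNat 3054105537251520))) N (A1 (K (.negSucc 1688684616687383))))⟩,
  ⟨.x, T15, (B (B (K (.negSucc 3885094811929463)) (K (.negSucc 24111879093791)) N N) (B (K (.negSucc 542368914458111)) (K (.ofNat 4246968131516376)) N N) N N)⟩,
  ⟨.x, T33, (A1 (A1 (K (.ofNat 5541113908038888))))⟩,
  ⟨.x, T16, (B N N (K (.ofNat 429356490121440)) (K (.negSucc 801695190568607)))⟩,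
  ⟨.x, T18, (B N N (K (.ofNat 1067795071142436)) (K (.negSucc 723420314680643)))⟩,
  ⟨.x, T34, (A2 (K (.negSucc 468492173343683)))⟩,
  ⟨.x, T35, (A3 (K (.ofNat 466850793596292)))⟩,
  ⟨.x, T36, (A0 (K (.negSucc 78691914594719)))⟩,
  ⟨.z, T16, (A0 (K (.ofNat 262784975840352)))⟩,
  ⟨.z, T18, (A0 (K (.ofNat 565301204459712)))⟩,
  ⟨.x, T22, (K (.negSucc 37654003336319))⟩,
  ⟨.x, T26, (K (.negSucc 160040438627327))⟩,
  ⟨.z, T17, (K (.ofNat 33435525731328))⟩] c_00 c_01 c_02 c_03 .nil .nil)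

def c_1000 : Cert := (.node [⟨.x, .z, (B (B N N (K (.ofNat 37716344646070740)) (K (.ofNat 82410585924375416))) (B N N (K (.ofNat 37048337977818556)) (K (.ofNat 56915180908118616))) (B (K (.negSucc 6522256446679627)) (K (.negSucc 43599214726622859)) N N) (A1 (K (.ofNat 35039799350472960))))⟩,
  ⟨.z, .z, (B (B (K (.negSucc 8400233966333475)) (K (.negSucc 38506359575251865)) N N) (B (K (.negSucc 25339781715180727)) (K (.negSucc 3344149919057759)) N N) N N)⟩,
  ⟨.x, T0, (B N N (K (.ofNat 31776783771853392)) (K (.negSucc 60110378761627343)))⟩,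
  ⟨.x, T1, (B N N (K (.negSucc 54152461676341199)) (K (.negSucc 21549440246731331)))⟩,
  ⟨.x, T2, (B (K (.negSucc 37222604355587695)) (K (.negSucc 16627144741971659)) N N)⟩,
  ⟨.z, T0, (A0 (K (.negSucc 28456103619927003)))⟩,
  ⟨.x, T9, (K (.negSucc 3750965423933555))⟩,
  ⟨.x, T11, (K (.ofNat 33156384069961152))⟩] (.node [⟨.x, .z, (B N N (K (.negSucc 12442269392405403)) (K (.ofNat 44795989700124760)))⟩,
  ⟨.z, .z, (B (K (.ofNat 10497092905436542)) (K (.negSucc 11142395697528351)) N N)⟩,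
  ⟨.x, T2, (K (.negSucc 6456262800264747))⟩,
  ⟨.z, T0, (K (.ofNat 9764824792806148))⟩] (.node [⟨.z, .z, (K (.negSucc 30069653849377439))⟩] .nil .nil .nil .nil .nil .nil) (.node [⟨.z, .z, (K (.negSucc 21973735966435479))⟩] .nil .nil .nil .nil .nil .nil) (.node [⟨.x, .z, (K (.negSucc 3311080283360471))⟩] .nil .nil .nil .nil .nil .nil) (.node [⟨.x, .z, (K (.negSucc 31264255430558067))⟩] .nil .nil .nil .nil .nil .nil) .nil .nil) (.node [⟨.x, .z, (B N N (K (.ofNat 39908829176784376)) (K (.ofNat 85122370482357980)))⟩,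
  ⟨.z, .z, (B (K (.negSucc 36164295618815333)) (K (.ofNat 20446072120128526)) N N)⟩,
  ⟨.x, T2, (K (.negSucc 85157102979393823))⟩,
  ⟨.z, T0, (K (.negSucc 49733890821400743))⟩] (.node [⟨.z, .z, (K (.ofNat 10597464481918752))⟩] .nil .nil .nil .nil .nil .nil) (.node [⟨.z, .z, (K (.ofNat 33350492345439874))⟩] .nil .nil .nil .nil .nil .nil) (.node [⟨.x, .z, (K (.negSucc 27598873753741515))⟩] .nil .nil .nil .nil .nil .nil) (.node [⟨.x, .z, (K (.ofNat 85159341460121888))⟩] .nil .nil .nil .nil .nil .nil) .nil .nil) (.node [⟨.x, .z, (B (K (.negSucc 2426908812258287)) (K (.negSucc 66030024037874471)) N N)⟩,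
  ⟨.x, T0, (K (.ofNat 53245454406770856))⟩] (.node [⟨.x, .z, (K (.negSucc 1928994937023167))⟩] .nil .nil .nil .nil .nil .nil) (.node [⟨.x, .z, (K (.ofNat 10727253619255588))⟩] .nil .nil .nil .nil .nil .nil) .nil .nil .nil .nil) (.node [⟨.x, .z, (B (K (.negSucc 17608490553875199)) (K (.negSucc 24370454793191483)) N N)⟩,
  ⟨.x, T0, (K (.ofNat 10048478603603676))⟩,
  ⟨.x, T1, (K (.ofNat 47781320397262280))⟩] (.node [⟨.x, .z, (K (.negSucc 14913990037572759))⟩] .nil .nil .nil .nil .nil .nil) (.node [⟨.x, .z, (K (.ofNat 34853098165156296))⟩] .nil .nil .nil .nil .nil .nil) .nil .nil .nil .nil) .nil .nil)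

def c_1001 : Cert := (.node [⟨.x, .z, (B (B N N (K (.negSucc 5103454678573847)) (K (.ofNat 32859329227936880))) (B N N (K (.ofNat 31639577779302520)) (K (.ofNat 54363096160394892))) (B (K (.negSucc 5961263107273531)) (K (.negSucc 7002174336434991)) N N) (A1 (K (.ofNat 25305187031203992))))⟩,
  ⟨.z, .z, (B (B (K (.ofNat 6571421535231442)) (K (.negSucc 34263920921499261)) N N) (B (K (.negSucc 23707987426475053)) (K (.negSucc 11727313394699549)) N N) N N)⟩,
  ⟨.x, T0, (B N N (K (.negSucc 4507942960437191)) (K (.negSucc 49691519692284479)))⟩,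
  ⟨.x, T1, (B N N (K (.negSucc 33585363557998403)) (K (.negSucc 19418451794137247)))⟩,
  ⟨.x, T2, (B (K (.negSucc 31455666318096511)) (K (.negSucc 27026024784323159)) N N)⟩,
  ⟨.z, T0, (A0 (K (.negSucc 22650092830349379)))⟩,
  ⟨.x, T9, (K (.ofNat 12794955889034472))⟩,
  ⟨.x, T11, (K (.ofNat 37861776820030440))⟩] (.node [⟨.x, .z, (B N N (K (.negSucc 2743265144966723)) (K (.ofNat 31379593716198264)))⟩,
  ⟨.z, .z, (B (K (.ofNat 9595694357697408)) (K (.ofNat 8312219889410166)) N N)⟩,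
  ⟨.x, T2, (K (.negSucc 7050227288774723))⟩,
  ⟨.z, T0, (K (.negSucc 20925846522639863))⟩] (.node [⟨.z, .z, (K (.negSucc 29151653844526259))⟩] .nil .nil .nil .nil .nil .nil) (.node [⟨.z, .z, (K (.negSucc 28931918083000061))⟩] .nil .nil .nil .nil .nil .nil) (.node [⟨.x, .z, (K (.ofNat 3207694668035280))⟩] .nil .nil .nil .nil .nil .nil) (.node [⟨.x, .z, (K (.negSucc 22705647023125555))⟩] .nil .nil .nil .nil .nil .nil) .nil .nil) (.node [⟨.x, .z, (B N N (K (.ofNat 15525954848423736)) (K (.ofNat 58928183609290776)))⟩,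
  ⟨.z, .z, (B (K (.negSucc 13250233563096055)) (K (.ofNat 23918970871636068)) N N)⟩,
  ⟨.x, T2, (K (.negSucc 47786502799381007))⟩,
  ⟨.z, T0, (K (.negSucc 35856810120729431))⟩] (.node [⟨.z, .z, (K (.negSucc 6046663847136131))⟩] .nil .nil .nil .nil .nil .nil) (.node [⟨.z, .z, (K (.ofNat 8210855319965136))⟩] .nil .nil .nil .nil .nil .nil) (.node [⟨.x, .z, (K (.negSucc 13014762353966451))⟩] .nil .nil .nil .nil .nil .nil) (.node [⟨.x, .z, (K (.ofNat 47788741280109072))⟩] .nil .nil .nil .nil .nil .nil) .nil .nil) (.node [⟨.x, .z, (B (K (.ofNat 48525214517786004)) (K (.negSucc 18788297543428211)) N N)⟩,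
  ⟨.x, T0, (K (.ofNat 29209112435421600))⟩,
  ⟨.x, T1, (K (.negSucc 22010389609720999))⟩] (.node [⟨.x, .z, (K (.ofNat 49024247633385156))⟩] .nil .nil .nil .nil .nil .nil) (.node [⟨.x, .z, (K (.ofNat 13019039932213204))⟩] .nil .nil .nil .nil .nil .nil) .nil .nil .nil .nil) (.node [⟨.x, .z, (B (K (.ofNat 1994478694425800)) (K (.negSucc 238856008371239)) N N)⟩,
  ⟨.x, T0, (K (.negSucc 12794955889034471))⟩,
  ⟨.x, T1, (K (.ofNat 29461187623670712))⟩] (.node [⟨.x, .z, (K (.ofNat 2494071430206968))⟩] .nil .nil .nil .nil .nil .nil) (.node [⟨.x, .z, (K (.ofNat 37860937389757416))⟩] .nil .nil .nil .nil .nil .nil) .nil .nil .nil .nil) .nil .nil)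

def c_100 : Cert := (.node [⟨.x, .z, (B (B (B N N (K (.ofNat 16460877333161808)) (K (.ofNat 24920835315796144))) (B N N (K (.ofNat 27455012980811400)) (K (.ofNat 16514731940897164))) (B (K (.negSucc 4151040586226075)) (K (.negSucc 16794913356221375)) N N) (A1 (K (.negSucc 7698435658742191)))) (B (B N N (K (.ofNat 39488212953605568)) (K (.ofNat 71237777216911852))) (B N N (K (.negSucc 42759007560727379)) (K (.negSucc 47538824670817451))) (B (K (.ofNat 21349812258588500)) (K (.ofNat 17212177269745608)) N N) (A1 (K (.negSucc 20961295762267655)))) (B (B (K (.negSucc 28941733720323291)) (K (.negSucc 503594199080419)) N N) (A0 (K (.negSucc 28666623283305899))) N N) (A1 (A1 (K (.negSucc 8397202501774271)))))⟩,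
  ⟨.z, .z, (B (B (B (K (.negSucc 17738985316125991)) (K (.negSucc 9890069294910421)) N N) (B (K (.negSucc 11195626412373431)) (K (.negSucc 13900729681977563)) N N) N N) (B (B (K (.ofNat 54916431532441466)) (K (.ofNat 5896660403178326)) N N) (B (K (.ofNat 17623359496541238)) (K (.negSucc 18468225902160719)) N N) N N) N N)⟩,
  ⟨.x, T0, (B (B N N (K (.negSucc 28836696409167215)) (K (.negSucc 57235353603446015))) (B N N (K (.ofNat 11924690548677048)) (K (.ofNat 16249418653224300))) (B (K (.negSucc 7785961094238383)) (K (.negSucc 24000380205017387)) N N) (A1 (K (.ofNat 31716104857105344))))⟩,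
  ⟨.x, T1, (B (B N N (K (.negSucc 7235446505071787)) (K (.negSucc 5857608719135291))) (B N N (K (.negSucc 11721343333954091)) (K (.negSucc 1386882254424059))) (B (K (.negSucc 3246961291814651)) (K (.negSucc 4265216896556567)) N N) (A1 (K (.negSucc 2251891911665159))))⟩,
  ⟨.x, T2, (B (B (K (.negSucc 7049774512200615)) (K (.negSucc 6107558191906887)) N N) (B (K (.negSucc 31192532014612475)) (K (.ofNat 14366381317561752)) N N) N N)⟩,
  ⟨.z, T0, (A0 (B (K (.negSucc 16413387295386235)) (K (.ofNat 8598701777894152)) N N))⟩,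
  ⟨.x, T5, (A3 (K (.ofNat 2548525884046884)))⟩,
  ⟨.x, T7, (B N N (K (.negSucc 42194167793812415)) (K (.negSucc 41306103711148739)))⟩,
  ⟨.x, T8, (B N N (K (.negSucc 31264102088031467)) (K (.negSucc 4582771562538731)))⟩,
  ⟨.x, T9, (A0 (K (.ofNat 24895018834942356)))⟩,
  ⟨.x, T10, (A3 (K (.negSucc 4409410571324159)))⟩,
  ⟨.x, T11, (A1 (K (.negSucc 4211303081076959)))⟩,
  ⟨.x, T20, (K (.ofNat 22205264946856080))⟩,
  ⟨.x, T24, (K (.ofNat 693136006249776))⟩,
  ⟨.x, T37, (K (.ofNat 11455149042574944))⟩,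
  ⟨.x, T15, (K (.ofNat 3369811220976024))⟩,
  ⟨.x, T33, (K (.negSucc 2196306830976311))⟩,
  ⟨.z, T13, (K (.negSucc 4807086269046335))⟩] c_1000 c_1001 (.node [⟨.x, .z, (B (B (K (.ofNat 29658250586180256)) (K (.ofNat 1420533740681064)) N N) (B (K (.ofNat 21544662783434796)) (K (.negSucc 15363483257675135)) N N) N N)⟩,
  ⟨.x, T0, (B (K (.negSucc 28965913499043467)) (K (.negSucc 21755604019978127)) N N)⟩,
  ⟨.x, T1, (B (K (.negSucc 18085845467981183)) (K (.negSucc 6795864302424311)) N N)⟩,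
  ⟨.x, T5, (K (.ofNat 3192703783312392))⟩,
  ⟨.x, T7, (K (.negSucc 33782318701954823))⟩,
  ⟨.x, T8, (K (.negSucc 22443484164757799))⟩,
  ⟨.x, T10, (K (.ofNat 3196073867422464))⟩] (.node [⟨.x, .z, (B (K (.ofNat 28345451858551872)) (K (.negSucc 38419731989023535)) N N)⟩,
  ⟨.x, T0, (K (.ofNat 31895873834324712))⟩,
  ⟨.x, T1, (K (.negSucc 1883275139794079))⟩] (.node [⟨.x, .z, (K (.ofNat 7060174802056128))⟩] .nil .nil .nil .nil .nil .nil) (.node [⟨.x, .z, (K (.ofNat 310813012452384))⟩] .nil .nil .nil .nil .nil .nil) .nil .nil .nil .nil) (.node [⟨.x, .z, (B (K (.negSucc 4873924651127555)) (K (.negSucc 3612485829441395)) N N)⟩,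
  ⟨.x, T0, (K (.ofNat 29928721926161268))⟩,
  ⟨.x, T1, (K (.negSucc 4887670743479571))⟩] (.node [⟨.x, .z, (K (.ofNat 19577086621277772))⟩] .nil .nil .nil .nil .nil .nil) (.node [⟨.x, .z, (K (.ofNat 25092182008384440))⟩] .nil .nil .nil .nil .nil .nil) .nil .nil .nil .nil) .nil .nil .nil .nil) (.node [⟨.x, .z, (B (B (K (.negSucc 22529872008846159)) (K (.ofNat 82583893275646996)) N N) (B (K (.negSucc 120512269964958715)) (K (.ofNat 110347587048504640)) N N) N N)⟩,
  ⟨.x, T0, (B (K (.ofNat 195530441560559336)) (K (.ofNat 70077577741185308)) N N)⟩,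
  ⟨.x, T1, (B (K (.negSucc 55068365293490575)) (K (.negSucc 147102739686113711)) N N)⟩,
  ⟨.x, T5, (K (.negSucc 99148388612860583))⟩,
  ⟨.x, T7, (K (.ofNat 118258754023535388))⟩,
  ⟨.x, T8, (K (.ofNat 23172990028727344))⟩,
  ⟨.x, T10, (K (.negSucc 67971478993794175))⟩] (.node [⟨.x, .z, (B (K (.negSucc 103254820924827719)) (K (.ofNat 102790378555193940)) N N)⟩,
  ⟨.x, T0, (K (.negSucc 189265980739741115))⟩,
  ⟨.x, T1, (K (.ofNat 146500121078799424))⟩] (.node [⟨.x, .z, (K (.negSucc 87024267312903383))⟩] .nil .nil .nil .nil .nil .nil) (.node [⟨.x, .z, (K (.negSucc 65157159323763431))⟩] .nil .nil .nil .nil .nil .nil) .nil .nil .nil .nil) (.node [⟨.x, .z, (B (K (.ofNat 33557619185275604)) (K (.ofNat 6173326075471300)) N N)⟩,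
  ⟨.x, T0, (K (.negSucc 100560095235049223))⟩,
  ⟨.x, T1, (K (.ofNat 55390543006269604))⟩] (.node [⟨.x, .z, (K (.negSucc 53075816072020027))⟩] .nil .nil .nil .nil .nil .nil) (.node [⟨.x, .z, (K (.negSucc 79101108556174139))⟩] .nil .nil .nil .nil .nil .nil) .nil .nil .nil .nil) .nil .nil .nil .nil) .nil .nil)

def c_1010 : Cert := (.node [⟨.x, .z, (B (B N N (K (.ofNat 81608874123480504)) (K (.ofNat 116744900725001292))) (B N N (K (.ofNat 139772447249429004)) (K (.ofNat 144164717406732948))) (B (K (.negSucc 3307638583113419)) (K (.negSucc 89715727140380891)) N N) (A1 (K (.ofNat 56240013669080904))))⟩,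
  ⟨.z, .z, (B (B (K (.negSucc 31027110474992309)) (K (.negSucc 98211512880516395)) N N) (B (K (.negSucc 59809331004192011)) (K (.negSucc 10918254052169117)) N N) N N)⟩,
  ⟨.x, T0, (B N N (K (.negSucc 34065283034215703)) (K (.negSucc 162585500978542643)))⟩,
  ⟨.x, T1, (B N N (K (.negSucc 101274571154973335)) (K (.negSucc 16062564137453363)))⟩,
  ⟨.x, T2, (B (K (.negSucc 81232482890855795)) (K (.negSucc 67256414009912759)) N N)⟩,
  ⟨.z, T0, (A0 (K (.negSucc 43307147800169027)))⟩,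
  ⟨.x, T9, (K (.ofNat 40146874457293440))⟩,
  ⟨.x, T11, (K (.ofNat 51798092647275048))⟩] (.node [⟨.x, .z, (B N N (K (.ofNat 13793392773091260)) (K (.ofNat 78986972724117096)))⟩,
  ⟨.z, .z, (B (K (.ofNat 49842546531559638)) (K (.negSucc 14724892940563859)) N N)⟩,
  ⟨.x, T2, (K (.negSucc 16697419880460971))⟩,
  ⟨.z, T0, (K (.ofNat 18738769689205680))⟩] (.node [⟨.z, .z, (K (.negSucc 26439036529288295))⟩] .nil .nil .nil .nil .nil .nil) (.node [⟨.z, .z, (K (.negSucc 60312931887024725))⟩] .nil .nil .nil .nil .nil .nil) (.node [⟨.x, .z, (K (.ofNat 31220496820600452))⟩] .nil .nil .nil .nil .nil .nil) (.node [⟨.x, .z, (K (.negSucc 68401588943186795))⟩] .nil .nil .nil .nil .nil .nil) .nil .nil) (.node [⟨.x, .z, (B N N (K (.ofNat 15130842778346844)) (K (.ofNat 131771655346794384)))⟩,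
  ⟨.z, .z, (B (K (.negSucc 6866550408926681)) (K (.ofNat 53247842421693816)) N N)⟩,
  ⟨.x, T2, (K (.negSucc 92902790495003063))⟩,
  ⟨.z, T0, (K (.negSucc 50841116414183519))⟩] (.node [⟨.z, .z, (K (.negSucc 14198821835136605))⟩] .nil .nil .nil .nil .nil .nil) (.node [⟨.z, .z, (K (.ofNat 29392436350211466))⟩] .nil .nil .nil .nil .nil .nil) (.node [⟨.x, .z, (K (.negSucc 16567552041171371))⟩] .nil .nil .nil .nil .nil .nil) (.node [⟨.x, .z, (K (.ofNat 92903629925276088))⟩] .nil .nil .nil .nil .nil .nil) .nil .nil) (.node [⟨.x, .z, (B (K (.ofNat 92854763785704492)) (K (.negSucc 87043934163917663)) N N)⟩,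
  ⟨.x, T0, (K (.ofNat 80653383342317172))⟩,
  ⟨.x, T1, (K (.negSucc 29316798676202171))⟩] (.node [⟨.x, .z, (K (.ofNat 96722408958860496))⟩] .nil .nil .nil .nil .nil .nil) (.node [⟨.x, .z, (K (.ofNat 40929062696551392))⟩] .nil .nil .nil .nil .nil .nil) .nil .nil .nil .nil) (.node [⟨.x, .z, (B (K (.ofNat 49253201066988676)) (K (.ofNat 10172012150405256)) N N)⟩,
  ⟨.x, T0, (K (.negSucc 40297673056063019))⟩,
  ⟨.x, T1, (K (.ofNat 64722301842954632))⟩] (.node [⟨.x, .z, (K (.ofNat 57553512807669388))⟩] .nil .nil .nil .nil .nil .nil) (.node [⟨.x, .z, (K (.ofNat 51230022290362272))⟩] .nil .nil .nil .nil .nil .nil) .nil .nil .nil .nil) .nil .nil)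

def c_1011 : Cert := (.node [⟨.x, .z, (B (B N N (K (.negSucc 68741076914516315)) (K (.negSucc 92099245586071143))) (B N N (K (.negSucc 45011829324284311)) (K (.negSucc 52946852994700607))) (B (K (.negSucc 847551680003659)) (K (.ofNat 2694973590723488)) N N) (A1 (K (.negSucc 9629066754250619))))⟩,
  ⟨.z, .z, (B (B (K (.ofNat 15762648317479046)) (K (.ofNat 44601643837110824)) N N) (B (K (.ofNat 29985257633880586)) (K (.ofNat 19138946292452124)) N N) N N)⟩,
  ⟨.x, T0, (B N N (K (.ofNat 838971991780800)) (K (.ofNat 48022481736946080)))⟩,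
  ⟨.x, T1, (B N N (K (.ofNat 53414014560994548)) (K (.ofNat 37053475160314896)))⟩,
  ⟨.x, T2, (B (K (.ofNat 46519934931582796)) (K (.ofNat 48907027301813748)) N N)⟩,
  ⟨.z, T0, (A0 (K (.ofNat 29361608895576632)))⟩,
  ⟨.x, T9, (K (.negSucc 12957031502996903))⟩,
  ⟨.x, T11, (K (.negSucc 3006998643516275))⟩] (.node [⟨.x, .z, (B N N (K (.negSucc 29165008244103159)) (K (.negSucc 11956467904441627)))⟩,
  ⟨.z, .z, (B (K (.ofNat 4997298774002320)) (K (.ofNat 26480663278539020)) N N)⟩,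
  ⟨.x, T2, (K (.ofNat 22414528113958952))⟩,
  ⟨.z, T0, (K (.negSucc 8187359977948099))⟩] (.node [⟨.z, .z, (K (.ofNat 3411693863083278))⟩] .nil .nil .nil .nil .nil .nil) (.node [⟨.z, .z, (K (.ofNat 25244329999154372))⟩] .nil .nil .nil .nil .nil .nil) (.node [⟨.x, .z, (K (.ofNat 31796927095452480))⟩] .nil .nil .nil .nil .nil .nil) (.node [⟨.x, .z, (K (.ofNat 24671547452356580))⟩] .nil .nil .nil .nil .nil .nil) .nil .nil) (.node [⟨.x, .z, (B N N (K (.negSucc 24503585148095539)) (K (.negSucc 45477855829816683)))⟩,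
  ⟨.z, .z, (B (K (.ofNat 14757067363443666)) (K (.negSucc 12605243704896547)) N N)⟩,
  ⟨.x, T2, (K (.ofNat 57634264551252436))⟩,
  ⟨.z, T0, (K (.ofNat 31586747352887252))⟩] (.node [⟨.z, .z, (K (.negSucc 5389296818674961))⟩] .nil .nil .nil .nil .nil .nil) (.node [⟨.z, .z, (K (.negSucc 19324557907907623))⟩] .nil .nil .nil .nil .nil .nil) (.node [⟨.x, .z, (K (.ofNat 11412362673468164))⟩] .nil .nil .nil .nil .nil .nil) (.node [⟨.x, .z, (K (.negSucc 57633704931070419))⟩] .nil .nil .nil .nil .nil .nil) .nil .nil) (.node [⟨.x, .z, (B (K (.negSucc 10089160137904743)) (K (.ofNat 11283056684957088)) N N)⟩,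
  ⟨.x, T0, (K (.negSucc 32866997074051703))⟩,
  ⟨.x, T1, (K (.ofNat 40530217604551516))⟩] (.node [⟨.x, .z, (K (.negSucc 6220955344566723))⟩] .nil .nil .nil .nil .nil .nil) (.node [⟨.x, .z, (K (.negSucc 8042914472414119))⟩] .nil .nil .nil .nil .nil .nil) .nil .nil .nil .nil) (.node [⟨.x, .z, (B (K (.ofNat 1691066685427964)) (K (.ofNat 3736920692812728)) N N)⟩,
  ⟨.x, T0, (K (.ofNat 12957031502996904))⟩,
  ⟨.x, T1, (K (.negSucc 48211001617010759))⟩] (.node [⟨.x, .z, (K (.ofNat 5558711858583968))⟩] .nil .nil .nil .nil .nil .nil) (.node [⟨.x, .z, (K (.negSucc 3007558263698291))⟩] .nil .nil .nil .nil .nil .nil) .nil .nil .nil .nil) .nil .nil)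

def c_101 : Cert := (.node [⟨.x, .z, (B (B (B N N (K (.negSucc 24692509683814955)) (K (.negSucc 52570183112356823))) (B N N (K (.ofNat 47881685331129088)) (K (.ofNat 92496716247343096))) (B (K (.negSucc 17215043946509255)) (K (.negSucc 166111608800570799)) N N) (A1 (K (.ofNat 10431540996138916)))) (B (B N N (K (.negSucc 28643564699118539)) (K (.ofNat 73745899516033636))) (B N N (K (.negSucc 8867823988667327)) (K (.ofNat 9532590412682436))) (B (K (.ofNat 8338716008855100)) (K (.negSucc 4238351598340511)) N N) (A1 (K (.negSucc 14991709776839519)))) (B (B (K (.negSucc 12623430387247859)) (K (.negSucc 73882643591702971)) N N) (A0 (K (.negSucc 73658493777755979))) N N) (A1 (A1 (K (.negSucc 13647972642642695)))))⟩,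
  ⟨.z, .z, (B (B (B (K (.negSucc 36019803503996725)) (K (.negSucc 19486933893615563)) N N) (B (K (.negSucc 15863636207783797)) (K (.ofNat 3112964850042662)) N N) N N) (B (B (K (.ofNat 19249937609120136)) (K (.ofNat 32904056486837186)) N N) (B (K (.ofNat 8348372982140112)) (K (.negSucc 4244533974559955)) N N) N N) N N)⟩,
  ⟨.x, T0, (B (B N N (K (.negSucc 10069500839213375)) (K (.negSucc 1422611306470331))) (B N N (K (.negSucc 5997335916228479)) (K (.ofNat 13339644976750992))) (B (K (.negSucc 2165984799367631)) (K (.ofNat 15368472133683024)) N N) (A1 (K (.ofNat 33778154030040348))))⟩,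
  ⟨.x, T1, (B (B N N (K (.ofNat 13641931277127372)) (K (.ofNat 13458130265215584))) (B N N (K (.ofNat 33006157790303712)) (K (.negSucc 24389220344396015))) (B (K (.ofNat 28861523760466308)) (K (.ofNat 45599343603208056)) N N) (A1 (K (.ofNat 4498763253292008))))⟩,
  ⟨.x, T2, (B (B (K (.ofNat 32743020019087512)) (K (.ofNat 3204953605831412)) N N) (B (K (.negSucc 925193995870751)) (K (.negSucc 10000068711878195)) N N) N N)⟩,
  ⟨.z, T0, (A0 (B (K (.ofNat 21195582226479984)) (K (.ofNat 1487992991500)) N N))⟩,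
  ⟨.x, T5, (A3 (K (.negSucc 5957832505380011)))⟩,
  ⟨.x, T7, (B N N (K (.ofNat 2821330154176884)) (K (.negSucc 13343341993995479)))⟩,
  ⟨.x, T8, (B N N (K (.negSucc 15350616105084779)) (K (.negSucc 16065280420121627)))⟩,
  ⟨.x, T9, (A0 (K (.ofNat 1075992594640332)))⟩,
  ⟨.x, T10, (A3 (K (.negSucc 16123957222895591)))⟩,
  ⟨.x, T11, (A1 (K (.ofNat 4155175602395952)))⟩,
  ⟨.x, T20, (K (.negSucc 2434399805656403))⟩,
  ⟨.x, T24, (K (.ofNat 5040343527130248))⟩,
  ⟨.x, T37, (K (.ofNat 5265108075725088))⟩,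
  ⟨.x, T15, (K (.ofNat 483209073956628))⟩,
  ⟨.x, T33, (K (.negSucc 4432946377615715))⟩,
  ⟨.z, T13, (K (.ofNat 9695022680925432))⟩] c_1010 c_1011 (.node [⟨.x, .z, (B (B (K (.negSucc 65539421708814087)) (K (.ofNat 22022616152144664)) N N) (B (K (.negSucc 8594741144381739)) (K (.ofNat 105081878963341268)) N N) N N)⟩,
  ⟨.x, T0, (B (K (.negSucc 26944539336004759)) (K (.negSucc 81571990524404935)) N N)⟩,
  ⟨.x, T1, (B (K (.ofNat 4647147259822424)) (K (.negSucc 12864753468395351)) N N)⟩,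
  ⟨.x, T5, (K (.negSucc 2167021458054731))⟩,
  ⟨.x, T7, (K (.ofNat 14083663675796856))⟩,
  ⟨.x, T8, (K (.ofNat 10614381691862840))⟩,
  ⟨.x, T10, (K (.ofNat 28912836048564272))⟩] (.node [⟨.x, .z, (B (K (.negSucc 123920618992456283)) (K (.negSucc 38705096582225387)) N N)⟩,
  ⟨.x, T0, (K (.ofNat 57637947811073616))⟩,
  ⟨.x, T1, (K (.ofNat 29468361235077924))⟩] (.node [⟨.x, .z, (K (.negSucc 147056014130826731))⟩] .nil .nil .nil .nil .nil .nil) (.node [⟨.x, .z, (K (.ofNat 10921876775464224))⟩] .nil .nil .nil .nil .nil .nil) .nil .nil .nil .nil) (.node [⟨.x, .z, (B (K (.ofNat 73011599277124412)) (K (.ofNat 71603825982491636)) N N)⟩,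
  ⟨.x, T0, (K (.ofNat 9242172491124708))⟩,
  ⟨.x, T1, (K (.negSucc 121136994528064795))⟩] (.node [⟨.x, .z, (K (.ofNat 72750744193722012))⟩] .nil .nil .nil .nil .nil .nil) (.node [⟨.x, .z, (K (.ofNat 31043298915166788))⟩] .nil .nil .nil .nil .nil .nil) .nil .nil .nil .nil) .nil .nil .nil .nil) (.node [⟨.x, .z, (B (B (K (.ofNat 2574089388165276)) (K (.ofNat 31010620769868292)) N N) (B (K (.ofNat 29648113845167220)) (K (.ofNat 67365341081545452)) N N) N N)⟩,
  ⟨.x, T0, (B (K (.negSucc 60753068973542735)) (K (.negSucc 61838319559243007)) N N)⟩,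
  ⟨.x, T1, (B (K (.ofNat 26521210151990220)) (K (.ofNat 27622745183543304)) N N)⟩,
  ⟨.x, T5, (K (.negSucc 2161243180340603))⟩,
  ⟨.x, T7, (K (.ofNat 4595642985997008))⟩,
  ⟨.x, T8, (K (.ofNat 39410708345894460))⟩,
  ⟨.x, T10, (K (.ofNat 61838319559243008))⟩] (.node [⟨.x, .z, (B (K (.negSucc 119592801517868859)) (K (.negSucc 60279290832960491)) N N)⟩,
  ⟨.x, T0, (K (.ofNat 59827874977671984))⟩,
  ⟨.x, T1, (K (.ofNat 55895624969175412))⟩] (.node [⟨.x, .z, (K (.negSucc 149345271846679491))⟩] .nil .nil .nil .nil .nil .nil) (.node [⟨.x, .z, (K (.negSucc 1491680682824219))⟩] .nil .nil .nil .nil .nil .nil) .nil .nil .nil .nil) (.node [⟨.x, .z, (B (K (.ofNat 80186547297540144)) (K (.ofNat 44931014554041636)) N N)⟩,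
  ⟨.x, T0, (K (.ofNat 17387267686218300))⟩,
  ⟨.x, T1, (K (.negSucc 107047104888504407))⟩] (.node [⟨.x, .z, (K (.ofNat 38716927342181712))⟩] .nil .nil .nil .nil .nil .nil) (.node [⟨.x, .z, (K (.ofNat 30441552245411208))⟩] .nil .nil .nil .nil .nil .nil) .nil .nil .nil .nil) .nil .nil .nil .nil) .nil .nil)

def c_102 : Cert := (.node [⟨.x, .z, (B (B (B (K (.ofNat 256969422674169444)) (K (.ofNat 101030836437039264)) N N) (B (K (.ofNat 183604313721352500)) (K (.negSucc 309939345019521935)) N N) N N) (B (B (K (.ofNat 319222378961980368)) (K (.ofNat 170479822124730780)) N N) (B (K (.ofNat 52934498149203744)) (K (.negSucc 406836197443864727)) N N) N N) N N)⟩,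
  ⟨.x, T0, (B (B (K (.negSucc 137818564511367035)) (K (.negSucc 222800321913862523)) N N) (B (K (.ofNat 19099544567386224)) (K (.ofNat 117678266518770312)) N N) N N)⟩,
  ⟨.x, T1, (B (B (K (.negSucc 166667560608876083)) (K (.negSucc 68662339086213527)) N N) (B (K (.negSucc 222338308329276359)) (K (.ofNat 24882140716569564)) N N) N N)⟩,
  ⟨.x, T4, (B N N (K (.negSucc 83489372215261709)) (K (.ofNat 18467174113334514)))⟩,
  ⟨.x, T5, (A1 (K (.ofNat 124140507479759832)))⟩,
  ⟨.x, T6, (B N N (K (.negSucc 15041772920170925)) (K (.negSucc 67664570953837841)))⟩,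
  ⟨.x, T7, (B (K (.negSucc 277508740308106943)) (K (.negSucc 416018859935735639)) N N)⟩,
  ⟨.x, T8, (B (K (.negSucc 81090239026910447)) (K (.negSucc 81534082698093239)) N N)⟩,
  ⟨.x, T10, (A1 (K (.ofNat 110088398181672972)))⟩,
  ⟨.x, T29, (K (.negSucc 94683098998080647))⟩,
  ⟨.x, T13, (K (.ofNat 181958413880919024))⟩,
  ⟨.x, T14, (K (.ofNat 11667577905900924))⟩,
  ⟨.x, T30, (K (.negSucc 92105172954893219))⟩,
  ⟨.x, T31, (K (.ofNat 58566633512043576))⟩,
  ⟨.x, T32, (K (.negSucc 37766442265212935))⟩] (.node [⟨.x, .z, (B (B (K (.ofNat 242973948682436280)) (K (.ofNat 239146773510400656)) N N) (B (K (.ofNat 150936194264003244)) (K (.negSucc 621170158229002235)) N N) N N)⟩,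
  ⟨.x, T0, (B (K (.negSucc 103299854849736863)) (K (.ofNat 168376329496410960)) N N)⟩,
  ⟨.x, T1, (B (K (.negSucc 6757574167704227)) (K (.negSucc 214618652724791471)) N N)⟩,
  ⟨.x, T5, (K (.ofNat 50750015655393432))⟩,
  ⟨.x, T7, (K (.negSucc 438393326247160667))⟩,
  ⟨.x, T8, (K (.negSucc 227911620707018975))⟩,
  ⟨.x, T10, (K (.ofNat 47143087393248))⟩] (.node [⟨.x, .z, (B (K (.ofNat 51516202633233252)) (K (.negSucc 247820454978669947)) N N)⟩,
  ⟨.x, T0, (K (.ofNat 162834040704491364))⟩,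
  ⟨.x, T1, (K (.ofNat 24743042352933696))⟩] (.node [⟨.x, .z, (K (.ofNat 65509997764420368))⟩] .nil .nil .nil .nil .nil .nil) (.node [⟨.x, .z, (K (.ofNat 183389283134647860))⟩] .nil .nil .nil .nil .nil .nil) .nil .nil .nil .nil) (.node [⟨.x, .z, (B (K (.negSucc 211761984323321003)) (K (.ofNat 86498876347296720)) N N)⟩,
  ⟨.x, T0, (K (.ofNat 184996487186991696))⟩,
  ⟨.x, T1, (K (.negSucc 9668928098163635))⟩] (.node [⟨.x, .z, (K (.ofNat 165344937996667956))⟩] .nil .nil .nil .nil .nil .nil) (.node [⟨.x, .z, (K (.ofNat 258102495167411412))⟩] .nil .nil .nil .nil .nil .nil) .nil .nil .nil .nil) .nil .nil .nil .nil) (.node [⟨.x, .z, (B (B (K (.negSucc 97343679849426631)) (K (.negSucc 140672731155504035)) N N) (B (K (.negSucc 48457578360569179)) (K (.negSucc 74894524181662711)) N N) N N)⟩,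
  ⟨.x, T0, (B (K (.ofNat 66200060002911212)) (K (.ofNat 249589560356155820)) N N)⟩,
  ⟨.x, T1, (B (K (.negSucc 23889717137381995)) (K (.negSucc 175242082580842103)) N N)⟩,
  ⟨.x, T5, (K (.negSucc 49415888541650759))⟩,
  ⟨.x, T7, (K (.negSucc 26692196143692371))⟩,
  ⟨.x, T8, (K (.negSucc 10645066285530139))⟩,
  ⟨.x, T10, (K (.negSucc 57967079476389607))⟩] (.node [⟨.x, .z, (B (K (.negSucc 1207711849063067)) (K (.ofNat 94260059717289768)) N N)⟩,
  ⟨.x, T0, (K (.negSucc 74775348009411407))⟩,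
  ⟨.x, T1, (K (.ofNat 37781623969963152))⟩] (.node [⟨.x, .z, (K (.negSucc 87656329529359763))⟩] .nil .nil .nil .nil .nil .nil) (.node [⟨.x, .z, (K (.negSucc 156557668600840295))⟩] .nil .nil .nil .nil .nil .nil) .nil .nil .nil .nil) (.node [⟨.x, .z, (B (K (.ofNat 117781465569499904)) (K (.ofNat 246275599849541788)) N N)⟩,
  ⟨.x, T0, (K (.negSucc 234258450134890367))⟩,
  ⟨.x, T1, (K (.ofNat 90375573210259768))⟩] (.node [⟨.x, .z, (K (.negSucc 137666714189978695))⟩] .nil .nil .nil .nil .nil .nil) (.node [⟨.x, .z, (K (.negSucc 95969795352052523))⟩] .nil .nil .nil .nil .nil .nil) .nil .nil .nil .nil) .nil .nil .nil .nil) (.node [⟨.x, T4, (K (.negSucc 18705448572443783))⟩,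
  ⟨.x, T6, (K (.ofNat 67848344919916476))⟩] .nil .nil .nil .nil .nil .nil) (.node [⟨.x, T4, (K (.ofNat 176992788750005616))⟩,
  ⟨.x, T6, (K (.negSucc 26193885496286447))⟩] .nil .nil .nil .nil .nil .nil) .nil .nil)

def c_103 : Cert := (.node [⟨.x, .z, (B (B (B (K (.ofNat 108252694873955574)) (K (.ofNat 58410515293192670)) N N) (B (K (.ofNat 51207209973497855)) (K (.negSucc 334869077907303282)) N N) N N) (B (B (K (.ofNat 248550966428517862)) (K (.ofNat 195979251589097478)) N N) (B (K (.negSucc 96066122359658575)) (K (.negSucc 596743127573550499)) N N) N N) N N)⟩,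
  ⟨.x, T0, (B (B (K (.ofNat 105717972928260524)) (K (.negSucc 198470623938564162)) N N) (B (K (.ofNat 286894066579304514)) (K (.ofNat 87089569349944502)) N N) N N)⟩,
  ⟨.x, T1, (B (B (K (.negSucc 108791577284328789)) (K (.negSucc 206159720373631982)) N N) (B (K (.negSucc 180450638111250708)) (K (.negSucc 35994547734961122)) N N) N N)⟩,
  ⟨.x, T4, (B N N (K (.negSucc 214451995012232605)) (K (.negSucc 41648000258616056)))⟩,
  ⟨.x, T5, (A1 (K (.ofNat 229778424679173662)))⟩,
  ⟨.x, T6, (B N N (K (.ofNat 13172071180910552)) (K (.negSucc 144996754101752568)))⟩,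
  ⟨.x, T7, (B (K (.negSucc 213406702353366679)) (K (.negSucc 533906361905605293)) N N)⟩,
  ⟨.x, T8, (B (K (.ofNat 104453723397305249)) (K (.negSucc 101301410802535450)) N N)⟩,
  ⟨.x, T10, (A1 (K (.ofNat 85348829326648645)))⟩,
  ⟨.x, T29, (K (.negSucc 167592826936759781))⟩,
  ⟨.x, T13, (K (.ofNat 102706622043583212))⟩,
  ⟨.x, T14, (K (.negSucc 95596986028985723))⟩,
  ⟨.x, T30, (K (.negSucc 35433843063469178))⟩,
  ⟨.x, T31, (K (.ofNat 42376546662403654))⟩,
  ⟨.x, T32, (K (.negSucc 80743552051151325))⟩] (.node [⟨.x, .z, (B (B (K (.ofNat 232531077171354100)) (K (.ofNat 296481911166408422)) N N) (B (K (.ofNat 159539882504171300)) (K (.negSucc 833977792517184919)) N N) N N)⟩,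
  ⟨.x, T0, (B (K (.negSucc 175091604308755183)) (K (.ofNat 457773511631522858)) N N)⟩,
  ⟨.x, T1, (B (K (.negSucc 212238239588451985)) (K (.negSucc 445994819255570291)) N N)⟩,
  ⟨.x, T5, (K (.negSucc 24802447135044605))⟩,
  ⟨.x, T7, (K (.negSucc 481970841359994019))⟩,
  ⟨.x, T8, (K (.negSucc 246739725907055233))⟩,
  ⟨.x, T10, (K (.negSucc 126326862679801131))⟩] (.node [⟨.x, .z, (B (K (.negSucc 184973673425953273)) (K (.negSucc 542269824011617361)) N N)⟩,
  ⟨.x, T0, (K (.ofNat 265968027057760366))⟩,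
  ⟨.x, T1, (K (.ofNat 436173127744061196))⟩] (.node [⟨.x, .z, (K (.negSucc 316282349024177495))⟩] .nil .nil .nil .nil .nil .nil) (.node [⟨.x, .z, (K (.negSucc 52136748991273221))⟩] .nil .nil .nil .nil .nil .nil) .nil .nil .nil .nil) (.node [⟨.x, .z, (B (K (.negSucc 403081397360965254)) (K (.ofNat 125079922552723734)) N N)⟩,
  ⟨.x, T0, (K (.ofNat 334449538608871702))⟩,
  ⟨.x, T1, (K (.ofNat 105990168266827773))⟩] (.node [⟨.x, .z, (K (.ofNat 32813225601410832))⟩] .nil .nil .nil .nil .nil .nil) (.node [⟨.x, .z, (K (.ofNat 293769094260616664))⟩] .nil .nil .nil .nil .nil .nil) .nil .nil .nil .nil) .nil .nil .nil .nil) (.node [⟨.x, .z, (B (B (K (.ofNat 181090681584281285)) (K (.negSucc 291100579253844962)) N N) (B (K (.ofNat 256232762396097758)) (K (.negSucc 306700295757952461)) N N) N N)⟩,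
  ⟨.x, T0, (B (K (.negSucc 358175458464727817)) (K (.ofNat 104171225126121146)) N N)⟩,
  ⟨.x, T1, (B (K (.ofNat 85452745265420869)) (K (.ofNat 161057619685466979)) N N)⟩,
  ⟨.x, T5, (K (.ofNat 82874796151924622))⟩,
  ⟨.x, T7, (K (.negSucc 305374449088008621))⟩,
  ⟨.x, T8, (K (.ofNat 63325701222423376))⟩,
  ⟨.x, T10, (K (.ofNat 88288855000180054))⟩] (.node [⟨.x, .z, (B (K (.ofNat 123345148457486245)) (K (.negSucc 72412451161638241)) N N)⟩,
  ⟨.x, T0, (K (.ofNat 392833539968611942))⟩,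
  ⟨.x, T1, (K (.negSucc 216078425108587918))⟩] (.node [⟨.x, .z, (K (.ofNat 224872933937413024))⟩] .nil .nil .nil .nil .nil .nil) (.node [⟨.x, .z, (K (.ofNat 101915437895352006))⟩] .nil .nil .nil .nil .nil .nil) .nil .nil .nil .nil) (.node [⟨.x, .z, (B (K (.ofNat 214796237689331211)) (K (.ofNat 441136453615736752)) N N)⟩,
  ⟨.x, T0, (K (.negSucc 48578256173228795))⟩,
  ⟨.x, T1, (K (.negSucc 212584618678469854))⟩] (.node [⟨.x, .z, (K (.ofNat 178016795769290496))⟩] .nil .nil .nil .nil .nil .nil) (.node [⟨.x, .z, (K (.ofNat 141522057541829502))⟩] .nil .nil .nil .nil .nil .nil) .nil .nil .nil .nil) .nil .nil .nil .nil) (.node [⟨.x, T4, (K (.negSucc 46039995628558175))⟩,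
  ⟨.x, T6, (K (.ofNat 140928392148738783))⟩] .nil .nil .nil .nil .nil .nil) (.node [⟨.x, T4, (K (.ofNat 219207640713463929))⟩,
  ⟨.x, T6, (K (.ofNat 34262145882740481))⟩] .nil .nil .nil .nil .nil .nil) .nil .nil)

def c_10 : Cert := (.node [⟨.x, .z, (B (B (B (B N N (K (.negSucc 15671470338054395)) (K (.negSucc 4573476989582427))) (B N N (K (.negSucc 123272153279666747)) (K (.negSucc 111874162657258091))) (B (K (.negSucc 28053560651464643)) (K (.ofNat 50609401571254920)) N N) (A1 (K (.ofNat 8023517923363928)))) (B (B N N (K (.negSucc 27588945162968027)) (K (.ofNat 27019780798501616))) (B N N (K (.negSucc 125111017335004547)) (K (.negSucc 138717565670834119))) (B (K (.ofNat 21019693178813292)) (K (.ofNat 148567603388646416)) N N) (A1 (K (.ofNat 32478970965638240)))) (B (B (K (.negSucc 68736938126213111)) (K (.ofNat 35212281143950764)) N N) (A0 (K (.negSucc 2625266575606643))) N N) (A1 (A1 (K (.ofNat 5356153910938720))))) (B (B (B N N (K (.ofNat 2972318078807076))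 (K (.ofNat 104743520838830576))) (B N N (K (.negSucc 86228843883335599)) (K (.negSucc 26965285223399959))) (B (K (.negSucc 18131381309192039)) (K (.ofNat 69859193191824076)) N N) (A1 (K (.ofNat 62050554294780008)))) (B (B N N (K (.ofNat 18033905736255096)) (K (.ofNat 109850168776057188))) (B N N (K (.negSucc 32863356384438503)) (K (.negSucc 42013890534580727))) (B (K (.ofNat 28981692200128944)) (K (.ofNat 5130941385032016)) N N) (A1 (K (.negSucc 13898809776673967)))) (B (B (K (.negSucc 105350700538441807)) (K (.negSucc 57515426215595239)) N N) (A0 (K (.negSucc 86505487493781899))) N N) (A1 (A1 (K (.negSucc 1946965566045371))))) (A0 (B (B (K (.ofNat 98181441748332544)) (K (.ofNat 130093758932221216)) N N) (A0 (K (.ofNat 42291287404188892))) N N)) (A1 (A1 (A1 (K (.negSucc 7542935023185923))))))⟩,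
  ⟨.z, .z, (B (B (B (B (K (.ofNat 89323913900849768)) (K (.ofNat 37976018994588736)) N N) (B (K (.ofNat 39893931435585824)) (K (.ofNat 21388862907190390)) N N) N N) (B (B (K (.ofNat 55403247945006876)) (K (.ofNat 33801315168094194)) N N) (B (K (.ofNat 29376818257024332)) (K (.ofNat 25028649940592502)) N N) N N) N N) (B (B (B (K (.ofNat 33298474197849982)) (K (.ofNat 13471331698590938)) N N) (B (K (.ofNat 31046541747061090)) (K (.ofNat 25915561844604482)) N N) N N) (B (A0 (K (.ofNat 8796491604222744))) (A1 (K (.ofNat 6898250337964752))) N N) N N) N N)⟩,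
  ⟨.x, T0, (B (B (B N N (K (.negSucc 1016675883708731)) (K (.ofNat 46708844524077468))) (B N N (K (.negSucc 61798052698743935)) (K (.negSucc 8567554321993643))) (B (K (.ofNat 24304634054560692)) (K (.ofNat 85695849278955876)) N N) (A1 (K (.negSucc 34875034605134219)))) (B (B N N (K (.negSucc 32540172313045955)) (K (.ofNat 19653982220502324))) (B N N (K (.ofNat 2501577039453072)) (K (.ofNat 39688019148736416))) (B (K (.negSucc 4069250134783127)) (K (.ofNat 25484526486242136)) N N) (A1 (K (.ofNat 1291639057436352)))) (B (B (K (.ofNat 14812760182453032)) (K (.ofNat 28021431944188548)) N N) (A0 (K (.ofNat 40102727880437448))) N N) (A1 (A1 (K (.negSucc 6811816836539015)))))⟩,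
  ⟨.x, T1, (B (B (B N N (K (.negSucc 18045452141235539)) (K (.ofNat 862674362720652))) (B N N (K (.negSucc 27618928713862127)) (K (.negSucc 14898261650712107))) (B (K (.ofNat 134716429241340)) (K (.ofNat 16363452415397244)) N N) (A1 (K (.negSucc 1785159717454295)))) (B (B N N (K (.ofNat 1404389509727424)) (K (.ofNat 1754425249248780))) (B N N (K (.negSucc 23570255225262683)) (K (.negSucc 7071195341695139))) (B (K (.ofNat 2105757704954508)) (K (.negSucc 12239675500952939)) N N) (A1 (K (.ofNat 278831046975000)))) (B (B (K (.ofNat 42314095631043420)) (K (.negSucc 8949375792497627)) N N) (A0 (K (.ofNat 4615903766738652))) N N) N)⟩,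
  ⟨.x, T2, (B (B (B (K (.negSucc 16676532820743175)) (K (.negSucc 2654925608579427)) N N) (B (K (.negSucc 37456992835430695)) (K (.ofNat 41975202358345904)) N N) N N) (B (B (K (.negSucc 33175934708589215)) (K (.negSucc 2046068370206411)) N N) (B (K (.negSucc 46632528255335567)) (K (.ofNat 13101208519008804)) N N) N N) N N)⟩,
  ⟨.z, T0, (A0 (B (B (K (.ofNat 57363636712681544)) (K (.ofNat 7782731747240536)) N N) (B (K (.ofNat 25144100196530576)) (K (.ofNat 5014091378522308)) N N) N N))⟩,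
  ⟨.x, T4, (B N N (B N N (K (.negSucc 2661994298714855)) (K (.negSucc 9964694505509027))) (A3 (K (.ofNat 3371597385726396))))⟩,
  ⟨.x, T5, (B N (A3 (K (.ofNat 6263751307956180))) N (A1 (K (.ofNat 11016323951084568))))⟩,
  ⟨.x, T6, (B N N (B N N (K (.negSucc 541204504162319)) (K (.ofNat 5027395561677162))) (A3 (K (.ofNat 704699631430722))))⟩,
  ⟨.x, T7, (B (B N N (K (.negSucc 7281414328661891)) (K (.ofNat 16538332020029448))) (B N N (K (.negSucc 25709712719686103)) (K (.negSucc 10785430680731519))) (B (K (.ofNat 12187501079922264)) (K (.ofNat 18037272460740000)) N N) (A1 (K (.negSucc 13824301821057875))))⟩,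
  ⟨.x, T8, (B (B N N (K (.negSucc 22264576540050755)) (K (.ofNat 17014803128019528))) (B N N (K (.negSucc 51206969877533651)) (K (.negSucc 4852034391646199))) (B (K (.ofNat 1369268556170868)) (K (.ofNat 7676833782386028)) N N) (A1 (K (.negSucc 10107797872123895))))⟩,
  ⟨.x, T9, (A0 (B (K (.negSucc 20129658080257715)) (K (.negSucc 60030377184719)) N N))⟩,
  ⟨.x, T10, (B N (B N N (K (.negSucc 6932251505431811)) (K (.negSucc 1234778924167595))) N (A1 (K (.negSucc 1216915840838375))))⟩,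
  ⟨.x, T11, (A1 (B (K (.ofNat 1124022028211376)) (K (.negSucc 9784051618655507)) N N))⟩,
  ⟨.x, T29, (A3 (K (.negSucc 10371447882669647)))⟩,
  ⟨.x, T13, (B N N (K (.ofNat 12282865899396132)) (K (.ofNat 7148143659408876)))⟩,
  ⟨.x, T14, (B N N (K (.ofNat 20771540770456284)) (K (.negSucc 4669426771115135)))⟩,
  ⟨.x, T20, (A0 (K (.negSucc 5316897897804683)))⟩,
  ⟨.x, T30, (A2 (K (.ofNat 35112927355764)))⟩,
  ⟨.x, T24, (A0 (K (.negSucc 7598468178066551)))⟩,
  ⟨.x, T31, (A3 (K (.negSucc 4410832597425095)))⟩,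
  ⟨.x, T37, (A1 (K (.negSucc 1566635769119255)))⟩,
  ⟨.x, T32, (A3 (K (.negSucc 3523445518520003)))⟩,
  ⟨.x, T15, (B (K (.ofNat 3347151863297292)) (K (.ofNat 5515037782465752)) N N)⟩,
  ⟨.x, T33, (A1 (K (.ofNat 10694972223029712)))⟩,
  ⟨.z, T13, (A0 (K (.ofNat 2553627000808980)))⟩,
  ⟨.x, T21, (K (.negSucc 3638086872304391))⟩,
  ⟨.x, T25, (K (.negSucc 7734853957491431))⟩,
  ⟨.x, T38, (K (.negSucc 3216092738505227))⟩,
  ⟨.x, T39, (K (.ofNat 15189907769947440))⟩,
  ⟨.x, T41, (K (.negSucc 2345914437763967))⟩,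
  ⟨.x, T36, (K (.negSucc 1980380157212555))⟩,
  ⟨.x, T42, (K (.negSucc 1133091751281479))⟩,
  ⟨.z, T16, (K (.ofNat 2939017279155084))⟩,
  ⟨.z, T18, (K (.ofNat 5897761169726232))⟩] c_100 c_101 c_102 c_103 .nil .nil)

def c_1100 : Cert := (.node [⟨.x, .z, (B (B N N (K (.ofNat 86450797095452928)) (K (.ofNat 101051962186707012))) (B N N (K (.ofNat 99022258074922056)) (K (.ofNat 123650528114283708))) (B (K (.negSucc 56129752891450919)) (K (.negSucc 99350933562959855)) N N) (A1 (K (.ofNat 40265500145186880))))⟩,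
  ⟨.z, .z, (B (B (K (.negSucc 53939117446276775)) (K (.negSucc 90940126253397323)) N N) (B (K (.negSucc 22862563237259951)) (K (.negSucc 5975755607550491)) N N) N N)⟩,
  ⟨.x, T0, (B N N (K (.ofNat 19732538120874276)) (K (.negSucc 157129346793937751)))⟩,
  ⟨.x, T1, (B N N (K (.negSucc 71872472081220599)) (K (.negSucc 6432477250427891)))⟩,
  ⟨.x, T2, (B (K (.negSucc 57218199955133231)) (K (.negSucc 51122834586452771)) N N)⟩,
  ⟨.z, T0, (A0 (K (.negSucc 41875757112021731)))⟩,
  ⟨.x, T9, (K (.ofNat 29060553270340524))⟩,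
  ⟨.x, T11, (K (.ofNat 41151516400154304))⟩] (.node [⟨.x, .z, (B N N (K (.ofNat 26073957511179496)) (K (.ofNat 69989625102555764)))⟩,
  ⟨.z, .z, (B (K (.ofNat 24681538723756220)) (K (.negSucc 10737389746428505)) N N)⟩,
  ⟨.x, T2, (K (.negSucc 46659499465898659))⟩,
  ⟨.z, T0, (K (.ofNat 31120350064252352))⟩] (.node [⟨.z, .z, (K (.ofNat 109285848973914))⟩] .nil .nil .nil .nil .nil .nil) (.node [⟨.z, .z, (K (.negSucc 26924211911260381))⟩] .nil .nil .nil .nil .nil .nil) (.node [⟨.x, .z, (K (.ofNat 23069181811960932))⟩] .nil .nil .nil .nil .nil .nil) (.node [⟨.x, .z, (K (.negSucc 25970486195992143))⟩] .nil .nil .nil .nil .nil .nil) .nil .nil) (.node [⟨.x, .z, (B N N (K (.ofNat 28614446454660344)) (K (.ofNat 107313434996757496)))⟩,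
  ⟨.z, .z, (B (K (.ofNat 5631358005507574)) (K (.ofNat 69311484228777248)) N N)⟩,
  ⟨.x, T2, (K (.negSucc 92406881759185851))⟩,
  ⟨.z, T0, (K (.negSucc 69189707395464307))⟩] (.node [⟨.z, .z, (K (.negSucc 2125619774486615))⟩] .nil .nil .nil .nil .nil .nil) (.node [⟨.z, .z, (K (.ofNat 18759837539277194))⟩] .nil .nil .nil .nil .nil .nil) (.node [⟨.x, .z, (K (.ofNat 41218951829364108))⟩] .nil .nil .nil .nil .nil .nil) (.node [⟨.x, .z, (K (.ofNat 92407721189458876))⟩] .nil .nil .nil .nil .nil .nil) .nil .nil) (.node [⟨.x, .z, (B (K (.ofNat 10955874519278940)) (K (.negSucc 72015031448436335)) N N)⟩,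
  ⟨.x, T0, (K (.ofNat 52836637758216744))⟩,
  ⟨.x, T1, (K (.negSucc 1355397109198343))⟩] (.node [⟨.x, .z, (K (.ofNat 26368779466400544))⟩] .nil .nil .nil .nil .nil .nil) (.node [⟨.x, .z, (K (.ofNat 47659653758599596))⟩] .nil .nil .nil .nil .nil .nil) .nil .nil .nil .nil) (.node [⟨.x, .z, (B (K (.negSucc 533097869838015)) (K (.ofNat 26104910127942060)) N N)⟩,
  ⟨.x, T0, (K (.negSucc 48287795234699495))⟩,
  ⟨.x, T1, (K (.ofNat 77694594941159204))⟩] (.node [⟨.x, .z, (K (.ofNat 27518671011116384))⟩] .nil .nil .nil .nil .nil .nil) (.node [⟨.x, .z, (K (.ofNat 38375516716228440))⟩] .nil .nil .nil .nil .nil .nil) .nil .nil .nil .nil) .nil .nil)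

end Pool.Agent.Helper805.Chain.C6a
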