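import Pool.Agent.Helper805.Chain.C6aD0
set_option autoImplicit false
set_option maxRecDepth 100000

/-! Certificate data (found by computer). -/

namespace Pool.Agent.Helper805.Chain.C6a
open Pool.Agent.Helper805.Chain

def c_1101 : Cert := (.node [⟨.x, .z, (B (B N N (K (.negSucc 16990240881265907)) (K (.negSucc 69680276890759871))) (B N N (K (.ofNat 36837204652638552)) (K (.negSucc 8285068875740399))) (B (K (.negSucc 19612885370433479)) (K (.negSucc 88645367139644699)) N N) (A1 (K (.ofNat 18243669363116292))))⟩,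
  ⟨.z, .z, (B (B (K (.negSucc 4845589266062341)) (K (.ofNat 12642462209798762)) N N) (B (K (.negSucc 16160087343488369)) (K (.ofNat 14968596034720230)) N N) N N)⟩,
  ⟨.x, T0, (B N N (K (.ofNat 50238614469285120)) (K (.ofNat 7151387867762148)))⟩,
  ⟨.x, T1, (B N N (K (.negSucc 26730890352266675)) (K (.negSucc 8480395082969759)))⟩,
  ⟨.x, T2, (B (K (.ofNat 64457579919476400)) (K (.ofNat 27778800068286756)) N N)⟩,
  ⟨.z, T0, (A0 (K (.ofNat 33578496841767312)))⟩,
  ⟨.x, T9, (K (.negSucc 10637429458609559))⟩,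
  ⟨.x, T11, (K (.ofNat 11055885311335428))⟩] (.node [⟨.x, .z, (B N N (K (.negSucc 13875305155970675)) (K (.ofNat 16016087952731364)))⟩,
  ⟨.z, .z, (B (K (.ofNat 2273915570642880)) (K (.ofNat 28610407992907314)) N N)⟩,
  ⟨.x, T2, (K (.negSucc 10630325289654647))⟩,
  ⟨.z, T0, (K (.negSucc 2724393545090507))⟩] (.node [⟨.z, .z, (K (.negSucc 31673637035382683))⟩] .nil .nil .nil .nil .nil .nil) (.node [⟨.z, .z, (K (.negSucc 17499418260381065))⟩] .nil .nil .nil .nil .nil .nil) (.node [⟨.x, .z, (K (.ofNat 98717244382295592))⟩] .nil .nil .nil .nil .nil .nil) (.node [⟨.x, .z, (K (.ofNat 72312465145387200))⟩] .nil .nil .nil .nil .nil .nil) .nil .nil) (.node [⟨.x, .z, (B N N (K (.ofNat 780861047329716)) (K (.negSucc 26403675758879999)))⟩,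
  ⟨.z, .z, (B (K (.negSucc 21184001132405765)) (K (.negSucc 2761890453020357)) N N)⟩,
  ⟨.x, T2, (K (.ofNat 6599736717993120))⟩,
  ⟨.z, T0, (K (.negSucc 18339676201346759))⟩] (.node [⟨.z, .z, (K (.negSucc 27641800255728839))⟩] .nil .nil .nil .nil .nil .nil) (.node [⟨.z, .z, (K (.negSucc 14208557833179365))⟩] .nil .nil .nil .nil .nil .nil) (.node [⟨.x, .z, (K (.ofNat 25180852078483728))⟩] .nil .nil .nil .nil .nil .nil) (.node [⟨.x, .z, (K (.negSucc 6599736717993119))⟩] .nil .nil .nil .nil .nil .nil) .nil .nil) (.node [⟨.x, .z, (B (K (.negSucc 165812254926732211)) (K (.negSucc 105655917458709983)) N N)⟩,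
  ⟨.x, T0, (K (.ofNat 60639659994342048))⟩,
  ⟨.x, T1, (K (.ofNat 168749717960158252))⟩] (.node [⟨.x, .z, (K (.negSucc 150399349979610607))⟩] .nil .nil .nil .nil .nil .nil) (.node [⟨.x, .z, (K (.negSucc 6137791123294187))⟩] .nil .nil .nil .nil .nil .nil) .nil .nil .nil .nil) (.node [⟨.x, .z, (B (K (.negSucc 75031060727558387)) (K (.negSucc 25716494853537035)) N N)⟩,
  ⟨.x, T0, (K (.ofNat 10637429458609560))⟩,
  ⟨.x, T1, (K (.ofNat 10573480808081988))⟩] (.node [⟨.x, .z, (K (.negSucc 59616476919890735))⟩] .nil .nil .nil .nil .nil .nil) (.node [⟨.x, .z, (K (.ofNat 11055885311335428))⟩] .nil .nil .nil .nil .nil .nil) .nil .nil .nil .nil) .nil .nil)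

def c_110 : Cert := (.node [⟨.x, .z, (B (B (B N N (K (.ofNat 54496829905846164)) (K (.negSucc 43341721902342471))) (B N N (K (.ofNat 84438404521077020)) (K (.ofNat 93948209389993936))) (B (K (.negSucc 78370716349106279)) (K (.negSucc 150576186544941595)) N N) (A1 (K (.ofNat 7900398439378876)))) (B (B N N (K (.ofNat 46355198762819064)) (K (.negSucc 16340750728874863))) (B N N (K (.ofNat 27884115871823844)) (K (.ofNat 19623843709053228))) (B (K (.negSucc 132415586277911767)) (K (.negSucc 90619108064962595)) N N) (A1 (K (.negSucc 7079713832524883)))) (B (B (K (.ofNat 3256771977594568)) (K (.negSucc 87317945526411811)) N N) (A0 (K (.ofNat 61735348214671804))) N N) (A1 (A1 (K (.negSucc 6839542260303539)))))⟩,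
  ⟨.z, .z, (B (B (B (K (.ofNat 39745625329494788)) (K (.negSucc 40666358161751077)) N N) (B (K (.ofNat 66066518938271856)) (K (.ofNat 6200513811810216)) N N) N N) (B (B (K (.ofNat 60655866082840000)) (K (.ofNat 29571113050615268)) N N) (B (K (.ofNat 5904702509339454)) (K (.negSucc 6458771128904675)) N N) N N) N N)⟩,
  ⟨.x, T0, (B (B N N (K (.negSucc 86665846566111587)) (K (.ofNat 100354093284225696))) (B N N (K (.negSucc 118262163851787995)) (K (.negSucc 392880789022691))) (B (K (.ofNat 19882137236642136)) (K (.ofNat 125014771550706696)) N N) (A1 (K (.ofNat 25062436573856532))))⟩,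
  ⟨.x, T1, (B (B N N (K (.ofNat 13618866167711016)) (K (.ofNat 9618793993583028))) (B N N (K (.ofNat 7624979728912980)) (K (.negSucc 34156926494540675))) (B (K (.ofNat 95054946036430512)) (K (.ofNat 54035918815250424)) N N) (A1 (K (.ofNat 2809658921468112))))⟩,
  ⟨.x, T2, (B (B (K (.ofNat 19943297116187956)) (K (.ofNat 44153754397810400)) N N) (B (K (.negSucc 1701169449016979)) (K (.ofNat 20677151409921984)) N N) N N)⟩,
  ⟨.z, T0, (A0 (B (K (.ofNat 44173191785647244)) (K (.ofNat 5432500346592064)) N N))⟩,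
  ⟨.x, T5, (A3 (K (.negSucc 18755044989947111)))⟩,
  ⟨.x, T7, (B N N (K (.negSucc 52967657485617827)) (K (.negSucc 19486767963390251)))⟩,
  ⟨.x, T8, (B N N (K (.ofNat 2085994181694876)) (K (.negSucc 15475819277260487)))⟩,
  ⟨.x, T9, (A0 (K (.ofNat 20928411413375952)))⟩,
  ⟨.x, T10, (A3 (K (.negSucc 12560021312442023)))⟩,
  ⟨.x, T11, (A1 (K (.ofNat 4308165902599728)))⟩,
  ⟨.x, T20, (K (.ofNat 25784522445498492))⟩,
  ⟨.x, T24, (K (.ofNat 9728111845743456))⟩,
  ⟨.x, T37, (K (.ofNat 10637517002827080))⟩,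
  ⟨.x, T15, (K (.ofNat 2003072111831160))⟩,
  ⟨.x, T33, (K (.negSucc 12635786022831707))⟩,
  ⟨.z, T13, (K (.negSucc 4530136686012539))⟩] c_1100 c_1101 (.node [⟨.x, .z, (B (B (K (.negSucc 113043972799871027)) (K (.ofNat 66130655497064724)) N N) (B (K (.negSucc 32744245865295551)) (K (.ofNat 129971653884347724)) N N) N N)⟩,
  ⟨.x, T0, (B (K (.ofNat 103229059964401440)) (K (.ofNat 37160207677443732)) N N)⟩,
  ⟨.x, T1, (B (K (.negSucc 124863089357755115)) (K (.negSucc 198860889070598339)) N N)⟩,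
  ⟨.x, T5, (K (.negSucc 72831399771085739))⟩,
  ⟨.x, T7, (K (.ofNat 96529746050971284))⟩,
  ⟨.x, T8, (K (.negSucc 27921670984911311))⟩,
  ⟨.x, T10, (K (.negSucc 94620891468499055))⟩] (.node [⟨.x, .z, (B (K (.negSucc 185594024876471327)) (K (.ofNat 29967416121800760)) N N)⟩,
  ⟨.x, T0, (K (.negSucc 113074015980935567))⟩,
  ⟨.x, T1, (K (.ofNat 167170943545099356))⟩] (.node [⟨.x, .z, (K (.negSucc 215837342006091419))⟩] .nil .nil .nil .nil .nil .nil) (.node [⟨.x, .z, (K (.negSucc 95832118616424083))⟩] .nil .nil .nil .nil .nil .nil) .nil .nil .nil .nil) (.node [⟨.x, .z, (B (K (.negSucc 6148365894463887)) (K (.ofNat 45551021149859664)) N N)⟩,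
  ⟨.x, T0, (K (.negSucc 81625303117580411))⟩,
  ⟨.x, T1, (K (.ofNat 32322641618604236))⟩] (.node [⟨.x, .z, (K (.negSucc 76835932450266555))⟩] .nil .nil .nil .nil .nil .nil) (.node [⟨.x, .z, (K (.negSucc 70895622657476447))⟩] .nil .nil .nil .nil .nil .nil) .nil .nil .nil .nil) .nil .nil .nil .nil) (.node [⟨.x, .z, (B (B (K (.negSucc 98257900921962603)) (K (.ofNat 148355534206644712)) N N) (B (K (.negSucc 112514911349727239)) (K (.ofNat 118536948883169472)) N N) N N)⟩,
  ⟨.x, T0, (B (K (.ofNat 151587327936749568)) (K (.ofNat 7430918327358612)) N N)⟩,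
  ⟨.x, T1, (B (K (.negSucc 110802885719255415)) (K (.negSucc 202594104970473351)) N N)⟩,
  ⟨.x, T5, (K (.negSucc 61323307066389755))⟩,
  ⟨.x, T7, (K (.ofNat 75491492476723596))⟩,
  ⟨.x, T8, (K (.negSucc 51207038158796271))⟩,
  ⟨.x, T10, (K (.negSucc 54242238262459427))⟩] (.node [⟨.x, .z, (B (K (.negSucc 272584072094898187)) (K (.negSucc 7628628182710155)) N N)⟩,
  ⟨.x, T0, (K (.negSucc 56470862219447803))⟩,
  ⟨.x, T1, (K (.ofNat 215932623412563304))⟩] (.node [⟨.x, .z, (K (.negSucc 319854151758522155))⟩] .nil .nil .nil .nil .nil .nil) (.node [⟨.x, .z, (K (.negSucc 36890084219988131))⟩] .nil .nil .nil .nil .nil .nil) .nil .nil .nil .nil) (.node [⟨.x, .z, (B (K (.negSucc 67996378929953551)) (K (.negSucc 12481174868557551)) N N)⟩,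
  ⟨.x, T0, (K (.negSucc 8572859127154531))⟩,
  ⟨.x, T1, (K (.ofNat 58395793010785000))⟩] (.node [⟨.x, .z, (K (.negSucc 56456264105344299))⟩] .nil .nil .nil .nil .nil .nil) (.node [⟨.x, .z, (K (.ofNat 403253019758704))⟩] .nil .nil .nil .nil .nil .nil) .nil .nil .nil .nil) .nil .nil .nil .nil) .nil .nil)

def c_1110 : Cert := (.node [⟨.x, .z, (B (B N N (K (.ofNat 40236075684884784)) (K (.ofNat 91229308637977332))) (B N N (K (.ofNat 38399749510947300)) (K (.ofNat 111443689361773140))) (B (K (.ofNat 16327921945434876)) (K (.negSucc 10540687238162531)) N N) (A1 (K (.ofNat 41017720652120244))))⟩,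
  ⟨.z, .z, (B (B (K (.negSucc 15067480671369491)) (K (.negSucc 48368644596082349)) N N) (B (K (.negSucc 48397899177856175)) (K (.negSucc 238614255999503)) N N) N N)⟩,
  ⟨.x, T0, (B N N (K (.ofNat 12650347770692724)) (K (.negSucc 128677612311908543)))⟩,
  ⟨.x, T1, (B N N (K (.negSucc 61562535254104655)) (K (.negSucc 27262941550965155)))⟩,
  ⟨.x, T2, (B (K (.negSucc 67924011156652583)) (K (.negSucc 53044076344551407)) N N)⟩,
  ⟨.z, T0, (A0 (K (.negSucc 8172174570925871)))⟩,
  ⟨.x, T9, (K (.ofNat 34868395639125600))⟩,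
  ⟨.x, T11, (K (.ofNat 38225828704120488))⟩] (.node [⟨.x, .z, (B N N (K (.negSucc 26242542888292819)) (K (.ofNat 52269706934357792)))⟩,
  ⟨.z, .z, (B (K (.ofNat 8064143741494556)) (K (.negSucc 6974111339072989)) N N)⟩,
  ⟨.x, T2, (K (.negSucc 24611673251918803))⟩,
  ⟨.z, T0, (K (.ofNat 15950563473010040))⟩] (.node [⟨.z, .z, (K (.negSucc 33433405978864943))⟩] .nil .nil .nil .nil .nil .nil) (.node [⟨.z, .z, (K (.negSucc 37785008198718055))⟩] .nil .nil .nil .nil .nil .nil) (.node [⟨.x, .z, (K (.negSucc 2104978069143731))⟩] .nil .nil .nil .nil .nil .nil) (.node [⟨.x, .z, (K (.negSucc 47047628780266707))⟩] .nil .nil .nil .nil .nil .nil) .nil .nil) (.node [⟨.x, .z, (B N N (K (.negSucc 36762030933835419)) (K (.ofNat 10817349318144160)))⟩,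
  ⟨.z, .z, (B (K (.negSucc 15516050805097399)) (K (.ofNat 33562395048823886)) N N)⟩,
  ⟨.x, T2, (K (.negSucc 23585829872895159))⟩,
  ⟨.z, T0, (K (.negSucc 26087832486166783))⟩] (.node [⟨.z, .z, (K (.negSucc 57278591681647325))⟩] .nil .nil .nil .nil .nil .nil) (.node [⟨.z, .z, (K (.negSucc 11755700753247885))⟩] .nil .nil .nil .nil .nil .nil) (.node [⟨.x, .z, (K (.negSucc 54655588187131367))⟩] .nil .nil .nil .nil .nil .nil) (.node [⟨.x, .z, (K (.ofNat 23585829872895160))⟩] .nil .nil .nil .nil .nil .nil) .nil .nil) (.node [⟨.x, .z, (B (K (.negSucc 159963579736197407)) (K (.negSucc 106908868433091599)) N N)⟩,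
  ⟨.x, T0, (K (.ofNat 77896788232775412))⟩,
  ⟨.x, T1, (K (.ofNat 118154757464960148))⟩] (.node [⟨.x, .z, (K (.negSucc 156228848480846495))⟩] .nil .nil .nil .nil .nil .nil) (.node [⟨.x, .z, (K (.ofNat 9688503867349812))⟩] .nil .nil .nil .nil .nil .nil) .nil .nil .nil .nil) (.node [⟨.x, .z, (B (K (.negSucc 132557711566482899)) (K (.negSucc 67465119282122171)) N N)⟩,
  ⟨.x, T0, (K (.ofNat 2463008180590992))⟩,
  ⟨.x, T1, (K (.ofNat 154523901213010692))⟩] (.node [⟨.x, .z, (K (.negSucc 124521268990775315))⟩] .nil .nil .nil .nil .nil .nil) (.node [⟨.x, .z, (K (.ofNat 42133270227238800))⟩] .nil .nil .nil .nil .nil .nil) .nil .nil .nil .nil) .nil .nil)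

def c_1111 : Cert := (.node [⟨.x, .z, (B (B N N (K (.negSucc 6630427291116227)) (K (.negSucc 12746270147616623))) (B N N (K (.negSucc 58854020062149563)) (K (.negSucc 27926541091775399))) (B (K (.ofNat 35913403118073864)) (K (.ofNat 29221215939739968)) N N) (A1 (K (.ofNat 24504863274790464))))⟩,
  ⟨.z, .z, (B (B (K (.ofNat 28372384229040168)) (K (.ofNat 8667506005441824)) N N) (B (K (.ofNat 25251509309159856)) (K (.ofNat 20493784316875302)) N N) N N)⟩,
  ⟨.x, T0, (B N N (K (.ofNat 36429651212168184)) (K (.ofNat 34904627111127684)))⟩,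
  ⟨.x, T1, (B N N (K (.ofNat 326175034460364)) (K (.ofNat 22027576000409004)))⟩,
  ⟨.x, T2, (B (K (.ofNat 1620974678181732)) (K (.ofNat 33825529564754220)) N N)⟩,
  ⟨.z, T0, (A0 (K (.negSucc 1079095323734387)))⟩,
  ⟨.x, T9, (K (.negSucc 36610192683376751))⟩,
  ⟨.x, T11, (K (.negSucc 30103728457427423))⟩] (.node [⟨.x, .z, (B N N (K (.negSucc 30071248447509295)) (K (.negSucc 33568904022052851)))⟩,
  ⟨.z, .z, (B (K (.ofNat 7333583524404164)) (K (.ofNat 19112870968067434)) N N)⟩,
  ⟨.x, T2, (K (.ofNat 17319957471112360))⟩,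
  ⟨.z, T0, (K (.ofNat 28335073690917116))⟩] (.node [⟨.z, .z, (K (.negSucc 26008170719347481))⟩] .nil .nil .nil .nil .nil .nil) (.node [⟨.z, .z, (K (.ofNat 5152571520587194))⟩] .nil .nil .nil .nil .nil .nil) (.node [⟨.x, .z, (K (.negSucc 42614020402235675))⟩] .nil .nil .nil .nil .nil .nil) (.node [⟨.x, .z, (K (.negSucc 15133961398561923))⟩] .nil .nil .nil .nil .nil .nil) .nil .nil) (.node [⟨.x, .z, (B N N (K (.negSucc 21758723184065535)) (K (.negSucc 89527908579392167)))⟩,
  ⟨.z, .z, (B (K (.ofNat 47435849353831966)) (K (.negSucc 5412691381448379)) N N)⟩,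
  ⟨.x, T2, (K (.ofNat 59947721653275620))⟩,
  ⟨.z, T0, (K (.ofNat 42548675310135772))⟩] (.node [⟨.z, .z, (K (.negSucc 24860553931973351))⟩] .nil .nil .nil .nil .nil .nil) (.node [⟨.z, .z, (K (.negSucc 17783602070218611))⟩] .nil .nil .nil .nil .nil .nil) (.node [⟨.x, .z, (K (.negSucc 6304912241695979))⟩] .nil .nil .nil .nil .nil .nil) (.node [⟨.x, .z, (K (.negSucc 59947721653275619))⟩] .nil .nil .nil .nil .nil .nil) .nil .nil) (.node [⟨.x, .z, (B (K (.negSucc 57472811712779951)) (K (.negSucc 1195696307768795)) N N)⟩,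
  ⟨.x, T0, (K (.negSucc 14733525739861559))⟩,
  ⟨.x, T1, (K (.ofNat 31991788826742504))⟩] (.node [⟨.x, .z, (K (.negSucc 53737520837247023))⟩] .nil .nil .nil .nil .nil .nil) (.node [⟨.x, .z, (K (.ofNat 2190782627020884))⟩] .nil .nil .nil .nil .nil .nil) .nil .nil .nil .nil) (.node [⟨.x, .z, (B (K (.ofNat 16352676329505360)) (K (.negSucc 11551846097256503)) N N)⟩,
  ⟨.x, T0, (K (.ofNat 36610192683376752))⟩,
  ⟨.x, T1, (K (.negSucc 17973651007687091))⟩] (.node [⟨.x, .z, (K (.ofNat 20088247015129296))⟩] .nil .nil .nil .nil .nil .nil) (.node [⟨.x, .z, (K (.negSucc 30103728457427423))⟩] .nil .nil .nil .nil .nil .nil) .nil .nil .nil .nil) .nil .nil)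

def c_111 : Cert := (.node [⟨.x, .z, (B (B (B N N (K (.ofNat 25613654843281644)) (K (.ofNat 443438033920752))) (B N N (K (.negSucc 47025274795328615)) (K (.negSucc 35317647664098359))) (B (K (.ofNat 38277827295318420)) (K (.ofNat 114948927359328480)) N N) (A1 (K (.negSucc 55901035671305927)))) (B (B N N (K (.ofNat 63571838303967600)) (K (.negSucc 87580739244130163))) (B N N (K (.ofNat 34030837473345048)) (K (.ofNat 74908402408353456))) (B (K (.ofNat 87095125113857472)) (K (.negSucc 16220099104496471)) N N) (A1 (K (.ofNat 35743875704797404)))) (B (B (K (.ofNat 21657324548277228)) (K (.ofNat 64946592684073356)) N N) (A0 (K (.ofNat 30643368068290464))) N N) (A1 (A1 (K (.ofNat 18484047008312208)))))⟩,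
  ⟨.z, .z, (B (B (B (K (.ofNat 45352935327345356)) (K (.negSucc 36971151149690577)) N N) (B (K (.ofNat 4258099868648984)) (K (.negSucc 62776347909570713)) N N) N N) (B (B (K (.ofNat 17654591208061698)) (K (.negSucc 26703697715002217)) N N) (B (K (.ofNat 15747599055318600)) (K (.negSucc 15747962845301021)) N N) N N) N N)⟩,
  ⟨.x, T0, (B (B N N (K (.negSucc 14509631934703799)) (K (.ofNat 30480407878988940))) (B N N (K (.negSucc 19461060063563987)) (K (.negSucc 6797324315313911))) (B (K (.ofNat 6591782611856724)) (K (.ofNat 23709646659841800)) N N) (A1 (K (.negSucc 25299645119305499))))⟩,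
  ⟨.x, T1, (B (B N N (K (.negSucc 15627832204005491)) (K (.negSucc 3472165615320167))) (B N N (K (.negSucc 93604914047279)) (K (.negSucc 37275626264900339))) (B (K (.negSucc 36221801737929059)) (K (.negSucc 14171731718022623)) N N) (A1 (K (.ofNat 2812483077850944))))⟩,
  ⟨.x, T2, (B (B (K (.negSucc 45957821510124791)) (K (.ofNat 29714673126526488)) N N) (B (K (.negSucc 36324459238931399)) (K (.negSucc 24871291285039571)) N N) N N)⟩,
  ⟨.z, T0, (A0 (B (K (.negSucc 25307441542632755)) (K (.ofNat 9437069622368256)) N N))⟩,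
  ⟨.x, T5, (A3 (K (.negSucc 24606855716490083)))⟩,
  ⟨.x, T7, (B N N (K (.negSucc 5849349299102303)) (K (.ofNat 41452989604430352)))⟩,
  ⟨.x, T8, (B N N (K (.ofNat 4282045341961236)) (K (.negSucc 5813772353494463)))⟩,
  ⟨.x, T9, (A0 (K (.negSucc 1006944580785191)))⟩,
  ⟨.x, T10, (A3 (K (.negSucc 23285717737018895)))⟩,
  ⟨.x, T11, (A1 (K (.ofNat 11100666078295152)))⟩,
  ⟨.x, T20, (K (.ofNat 5559669019152684))⟩,
  ⟨.x, T24, (K (.ofNat 4342879032842820))⟩,
  ⟨.x, T37, (K (.ofNat 5238804909796680))⟩,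
  ⟨.x, T15, (K (.ofNat 3562859949368076))⟩,
  ⟨.x, T33, (K (.negSucc 4300032459810623))⟩,
  ⟨.z, T13, (K (.negSucc 272941494139187))⟩] c_1110 c_1111 (.node [⟨.x, .z, (B (B (K (.negSucc 14813542485096131)) (K (.negSucc 6061556308638815)) N N) (B (K (.negSucc 54232813788514823)) (K (.ofNat 21482675521845324)) N N) N N)⟩,
  ⟨.x, T0, (B (K (.ofNat 71460534774682164)) (K (.ofNat 52077914155650288)) N N)⟩,
  ⟨.x, T1, (B (K (.negSucc 71019152153199235)) (K (.negSucc 25904784129124927)) N N)⟩,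
  ⟨.x, T5, (K (.negSucc 29109793123815923))⟩,
  ⟨.x, T7, (K (.ofNat 16221838925104764))⟩,
  ⟨.x, T8, (K (.ofNat 39957634390391920))⟩,
  ⟨.x, T10, (K (.negSucc 15559560295332419))⟩] (.node [⟨.x, .z, (B (K (.negSucc 111265650567871499)) (K (.negSucc 33633399399023347)) N N)⟩,
  ⟨.x, T0, (K (.ofNat 9122077747883552))⟩,
  ⟨.x, T1, (K (.ofNat 112011668378107788))⟩] (.node [⟨.x, .z, (K (.negSucc 170068222174669939))⟩] .nil .nil .nil .nil .nil .nil) (.node [⟨.x, .z, (K (.negSucc 120149041402695827))⟩] .nil .nil .nil .nil .nil .nil) .nil .nil .nil .nil) (.node [⟨.x, .z, (B (K (.ofNat 109526579365959008)) (K (.ofNat 34634001757740172)) N N)⟩,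
  ⟨.x, T0, (K (.negSucc 53065662329721843))⟩,
  ⟨.x, T1, (K (.negSucc 30019731275981631))⟩] (.node [⟨.x, .z, (K (.negSucc 46673494334283451))⟩] .nil .nil .nil .nil .nil .nil) (.node [⟨.x, .z, (K (.negSucc 46774198580433951))⟩] .nil .nil .nil .nil .nil .nil) .nil .nil .nil .nil) .nil .nil .nil .nil) (.node [⟨.x, .z, (B (B (K (.ofNat 9412246767095568)) (K (.negSucc 39647790718998719)) N N) (B (K (.negSucc 28034414325346187)) (K (.negSucc 7981545101735195)) N N) N N)⟩,
  ⟨.x, T0, (B (K (.ofNat 70701651685653804)) (K (.ofNat 46181440743430872)) N N)⟩,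
  ⟨.x, T1, (B (K (.negSucc 9635866000401647)) (K (.negSucc 36248323150958639)) N N)⟩,
  ⟨.x, T5, (K (.negSucc 23513266361437739))⟩,
  ⟨.x, T7, (K (.ofNat 17953597342285056))⟩,
  ⟨.x, T8, (K (.negSucc 26074416781053119))⟩,
  ⟨.x, T10, (K (.negSucc 46181440743430871))⟩] (.node [⟨.x, .z, (B (K (.ofNat 136165516991818020)) (K (.ofNat 88657199024101968)) N N)⟩,
  ⟨.x, T0, (K (.negSucc 107026110924585203))⟩,
  ⟨.x, T1, (K (.negSucc 84871861941102203))⟩] (.node [⟨.x, .z, (K (.ofNat 173668424255817252))⟩] .nil .nil .nil .nil .nil .nil) (.node [⟨.x, .z, (K (.ofNat 18727806308481864))⟩] .nil .nil .nil .nil .nil .nil) .nil .nil .nil .nil) (.node [⟨.x, .z, (B (K (.negSucc 57029234208631187)) (K (.negSucc 19854151349282915)) N N)⟩,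
  ⟨.x, T0, (K (.negSucc 24449902995220571))⟩,
  ⟨.x, T1, (K (.ofNat 72836225711198316))⟩] (.node [⟨.x, .z, (K (.negSucc 8320129216159907))⟩] .nil .nil .nil .nil .nil .nil) (.node [⟨.x, .z, (K (.negSucc 17989080120348179))⟩] .nil .nil .nil .nil .nil .nil) .nil .nil .nil .nil) .nil .nil .nil .nil) .nil .nil)

def c_112 : Cert := (.node [⟨.x, .z, (B (B (B (K (.ofNat 394713522843614522)) (K (.ofNat 343632747455018042)) N N) (B (K (.ofNat 535141233922535673)) (K (.negSucc 108631553192846136)) N N) N N) (B (B (K (.ofNat 365263856221763894)) (K (.ofNat 418191834072251382)) N N) (B (K (.ofNat 191986136049090656)) (K (.ofNat 15399102268185428)) N N) N N) N N)⟩,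
  ⟨.x, T0, (B (B (K (.negSucc 135208167585891019)) (K (.negSucc 458543162850145096)) N N) (B (K (.negSucc 139469435137581509)) (K (.negSucc 36169856804431501)) N N) N N)⟩,
  ⟨.x, T1, (B (B (K (.negSucc 382458550797202561)) (K (.ofNat 16043723759489247)) N N) (B (K (.negSucc 581644713507177598)) (K (.ofNat 148778109765693523)) N N) N N)⟩,
  ⟨.x, T4, (B N N (K (.ofNat 46989496966659314)) (K (.ofNat 49248800054128395)))⟩,
  ⟨.x, T5, (A1 (K (.negSucc 5432924303328205)))⟩,
  ⟨.x, T6, (B N N (K (.ofNat 97793201759163196)) (K (.negSucc 13261356745414852)))⟩,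
  ⟨.x, T7, (B (K (.negSucc 259908893101622583)) (K (.negSucc 178262405246832313)) N N)⟩,
  ⟨.x, T8, (B (K (.negSucc 338532389786243896)) (K (.ofNat 140648191306934423)) N N)⟩,
  ⟨.x, T10, (A1 (K (.ofNat 226556835427350971)))⟩,
  ⟨.x, T29, (K (.negSucc 45628145370513905))⟩,
  ⟨.x, T13, (K (.ofNat 114802769711907276))⟩,
  ⟨.x, T14, (K (.ofNat 104401854521042328))⟩,
  ⟨.x, T30, (K (.negSucc 176994897899099864))⟩,
  ⟨.x, T31, (K (.ofNat 68725877097630266))⟩,
  ⟨.x, T32, (K (.negSucc 109620735834496873))⟩] (.node [⟨.x, .z, (B (B (K (.ofNat 216853779230337664)) (K (.ofNat 131306086140277042)) N N) (B (K (.ofNat 86839078282187952)) (K (.negSucc 104395139758544131)) N N) N N)⟩,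
  ⟨.x, T0, (B (K (.ofNat 3661844376889164)) (K (.negSucc 52623685838999481)) N N)⟩,
  ⟨.x, T1, (B (K (.ofNat 294186761061956410)) (K (.ofNat 169471005400672572)) N N)⟩,
  ⟨.x, T5, (K (.negSucc 36311876761869293))⟩,
  ⟨.x, T7, (K (.negSucc 152574297311927451))⟩,
  ⟨.x, T8, (K (.ofNat 68273407771152826))⟩,
  ⟨.x, T10, (K (.ofNat 75432158711812944))⟩] (.node [⟨.x, .z, (B (K (.negSucc 226145417525009049)) (K (.negSucc 32505058750237481)) N N)⟩,
  ⟨.x, T0, (K (.ofNat 1946776470886154))⟩,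
  ⟨.x, T1, (K (.negSucc 14891512753668791))⟩] (.node [⟨.x, .z, (K (.negSucc 48289031632824287))⟩] .nil .nil .nil .nil .nil .nil) (.node [⟨.x, .z, (K (.ofNat 116293177076488726))⟩] .nil .nil .nil .nil .nil .nil) .nil .nil .nil .nil) (.node [⟨.x, .z, (B (K (.ofNat 442510740295270835)) (K (.ofNat 87412645148016074)) N N)⟩,
  ⟨.x, T0, (K (.negSucc 103718721136605909))⟩,
  ⟨.x, T1, (K (.negSucc 316600754347789752))⟩] (.node [⟨.x, .z, (K (.ofNat 116320463530404728))⟩] .nil .nil .nil .nil .nil .nil) (.node [⟨.x, .z, (K (.ofNat 11266653637148896))⟩] .nil .nil .nil .nil .nil .nil) .nil .nil .nil .nil) .nil .nil .nil .nil) (.node [⟨.x, .z, (B (B (K (.negSucc 185859334668824548)) (K (.ofNat 273162366926399007)) N N) (B (K (.ofNat 121301357268503302)) (K (.negSucc 124852191977765869)) N N) N N)⟩,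
  ⟨.x, T0, (B (K (.negSucc 123871852408356413)) (K (.ofNat 32780712126021406)) N N)⟩,
  ⟨.x, T1, (B (K (.ofNat 178925351337677719)) (K (.negSucc 410280086918080194)) N N)⟩,
  ⟨.x, T5, (K (.ofNat 98393515577974390))⟩,
  ⟨.x, T7, (K (.negSucc 180165968279642905))⟩,
  ⟨.x, T8, (K (.negSucc 255658073035406059))⟩,
  ⟨.x, T10, (K (.ofNat 47318091997278038))⟩] (.node [⟨.x, .z, (B (K (.ofNat 332775820399544219)) (K (.negSucc 125454814756845097)) N N)⟩,
  ⟨.x, T0, (K (.ofNat 92609814565363362))⟩,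
  ⟨.x, T1, (K (.negSucc 198753974912304036))⟩] (.node [⟨.x, .z, (K (.ofNat 23580857863267228))⟩] .nil .nil .nil .nil .nil .nil) (.node [⟨.x, .z, (K (.ofNat 203670931775951946))⟩] .nil .nil .nil .nil .nil .nil) .nil .nil .nil .nil) (.node [⟨.x, .z, (B (K (.ofNat 23156815778989621)) (K (.ofNat 22654858948511152)) N N)⟩,
  ⟨.x, T0, (K (.negSucc 55687824024762883))⟩,
  ⟨.x, T1, (K (.ofNat 86483821834412127))⟩] (.node [⟨.x, .z, (K (.ofNat 137068409183325056))⟩] .nil .nil .nil .nil .nil .nil) (.node [⟨.x, .z, (K (.ofNat 242064225832241902))⟩] .nil .nil .nil .nil .nil .nil) .nil .nil .nil .nil) .nil .nil .nil .nil) (.node [⟨.x, T4, (K (.negSucc 54787577086451765))⟩,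
  ⟨.x, T6, (K (.ofNat 75188051941809111))⟩] .nil .nil .nil .nil .nil .nil) (.node [⟨.x, T4, (K (.ofNat 48896098351776735))⟩,
  ⟨.x, T6, (K (.negSucc 13011434516321360))⟩] .nil .nil .nil .nil .nil .nil) .nil .nil)

def c_113 : Cert := (.node [⟨.x, .z, (B (B (B (K (.ofNat 94249962139670824)) (K (.ofNat 1737835551014212)) N N) (B (K (.ofNat 50158242960669802)) (K (.negSucc 63007231363861889)) N N) N N) (B (B (K (.ofNat 20672479778415288)) (K (.ofNat 12723397024029840)) N N) (B (K (.ofNat 460369768310352)) (K (.negSucc 28687677594009983)) N N) N N) N N)⟩,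
  ⟨.x, T0, (B (B (K (.negSucc 584454929409167)) (K (.negSucc 12170895336086789)) N N) (B (K (.negSucc 1131656591487119)) (K (.ofNat 2654814826126764)) N N) N N)⟩,
  ⟨.x, T1, (B (B (K (.ofNat 34109651007623148)) (K (.negSucc 56486835586748597)) N N) (B (K (.ofNat 34327783954581342)) (K (.ofNat 8091945191879706)) N N) N N)⟩,
  ⟨.x, T4, (B N N (K (.ofNat 9772462190292612)) (K (.ofNat 2118066555432396)))⟩,
  ⟨.x, T5, (A1 (K (.ofNat 10557798557114064)))⟩,
  ⟨.x, T6, (B N N (K (.ofNat 3052825105838028)) (K (.negSucc 3948560572017539)))⟩,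
  ⟨.x, T7, (B (K (.negSucc 12002482031477939)) (K (.negSucc 20255099788084091)) N N)⟩,
  ⟨.x, T8, (B (K (.negSucc 4394844937901165)) (K (.negSucc 5936625194283689)) N N)⟩,
  ⟨.x, T10, (A1 (K (.ofNat 5503150062403998)))⟩,
  ⟨.x, T29, (K (.negSucc 3389282452551167))⟩,
  ⟨.x, T13, (K (.ofNat 4083431111496444))⟩,
  ⟨.x, T14, (K (.negSucc 1691021419504751))⟩,
  ⟨.x, T30, (K (.ofNat 292312267357746))⟩,
  ⟨.x, T31, (K (.ofNat 3881331095179092))⟩,
  ⟨.x, T32, (K (.ofNat 2634307020097572))⟩] (.node [⟨.x, .z, (B (B (K (.ofNat 141732906104699232)) (K (.negSucc 108813191821870091)) N N) (B (K (.ofNat 153608032565903808)) (K (.negSucc 120881920227257063)) N N) N N)⟩,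
  ⟨.x, T0, (B (K (.negSucc 223213759721766407)) (K (.negSucc 44812236492486623)) N N)⟩,
  ⟨.x, T1, (B (K (.ofNat 55599096807318124)) (K (.ofNat 206359042897573048)) N N)⟩,
  ⟨.x, T5, (K (.ofNat 62052711997611516))⟩,
  ⟨.x, T7, (K (.negSucc 115092003536965043))⟩,
  ⟨.x, T8, (K (.ofNat 68685551463292000))⟩,
  ⟨.x, T10, (K (.ofNat 109597678887623196))⟩] (.node [⟨.x, .z, (B (K (.ofNat 242495671082616108)) (K (.negSucc 87405165386018035)) N N)⟩,
  ⟨.x, T0, (K (.ofNat 145243370921791928))⟩,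
  ⟨.x, T1, (K (.negSucc 179592653366484515))⟩] (.node [⟨.x, .z, (K (.ofNat 204353216717010100))⟩] .nil .nil .nil .nil .nil .nil) (.node [⟨.x, .z, (K (.negSucc 4449881013838391))⟩] .nil .nil .nil .nil .nil .nil) .nil .nil .nil .nil) (.node [⟨.x, .z, (B (K (.ofNat 231404028392426762)) (K (.ofNat 86306013891032452)) N N)⟩,
  ⟨.x, T0, (K (.ofNat 2774123066564180))⟩,
  ⟨.x, T1, (K (.negSucc 237445832647158981))⟩] (.node [⟨.x, .z, (K (.ofNat 162785725519918576))⟩] .nil .nil .nil .nil .nil .nil) (.node [⟨.x, .z, (K (.ofNat 48199751856650048))⟩] .nil .nil .nil .nil .nil .nil) .nil .nil .nil .nil) .nil .nil .nil .nil) (.node [⟨.x, .z, (B (B (K (.negSucc 6073276675649189)) (K (.negSucc 19425104476876889)) N N) (B (K (.ofNat 8562531625409268)) (K (.negSucc 9685300367765111)) N N) N N)⟩,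
  ⟨.x, T0, (B (K (.negSucc 17487369242224595)) (K (.negSucc 628663444988771)) N N)⟩,
  ⟨.x, T1, (B (K (.ofNat 6938920056790074)) (K (.ofNat 12059566888692954)) N N)⟩,
  ⟨.x, T5, (K (.ofNat 7115921753884020))⟩,
  ⟨.x, T7, (K (.negSucc 9605305520328011))⟩,
  ⟨.x, T8, (K (.ofNat 3000368793991248))⟩,
  ⟨.x, T10, (K (.ofNat 12068438701676460))⟩] (.node [⟨.x, .z, (B (K (.ofNat 126974278641647466)) (K (.ofNat 31254172259797704)) N N)⟩,
  ⟨.x, T0, (K (.negSucc 10881859984775363))⟩,
  ⟨.x, T1, (K (.negSucc 104159804491968221))⟩] (.node [⟨.x, .z, (K (.ofNat 130963208590546128))⟩] .nil .nil .nil .nil .nil .nil) (.node [⟨.x, .z, (K (.ofNat 8994528680164380))⟩] .nil .nil .nil .nil .nil .nil) .nil .nil .nil .nil) (.node [⟨.x, .z, (B (K (.ofNat 12980291213695638)) (K (.ofNat 18197986842463236)) N N)⟩,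
  ⟨.x, T0, (K (.ofNat 4822175176879980))⟩,
  ⟨.x, T1, (K (.negSucc 14301413451600185))⟩] (.node [⟨.x, .z, (K (.ofNat 17197492723439856))⟩] .nil .nil .nil .nil .nil .nil) (.node [⟨.x, .z, (K (.ofNat 10448960449371120))⟩] .nil .nil .nil .nil .nil .nil) .nil .nil .nil .nil) .nil .nil .nil .nil) (.node [⟨.x, T4, (K (.negSucc 72647605493383421))⟩,
  ⟨.x, T6, (K (.negSucc 22811064935468039))⟩] .nil .nil .nil .nil .nil .nil) (.node [⟨.x, T4, (K (.ofNat 4789545043210266))⟩,
  ⟨.x, T6, (K (.negSucc 3660732112678241))⟩] .nil .nil .nil .nil .nil .nil) .nil .nil)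

def c_11 : Cert := (.node [⟨.x, .z, (B (B (B (B N N (K (.ofNat 30354572161182816)) (K (.ofNat 180344334400617472))) (B N N (K (.negSucc 238646801380023623)) (K (.negSucc 177755728132126343))) (B (K (.ofNat 10247078123930592)) (K (.ofNat 305523942872708944)) N N) (A1 (K (.negSucc 113223774062356607)))) (B (B N N (K (.ofNat 65129281319392708)) (K (.negSucc 122243972206626247))) (B N N (K (.ofNat 4665400975333480)) (K (.negSucc 139898120545739579))) (B (K (.negSucc 103913662127490779)) (K (.negSucc 117502302848562159)) N N) (A1 (K (.ofNat 40827315114653640)))) (B (B (K (.ofNat 42868425790219116)) (K (.ofNat 92812513064501508)) N N) (A0 (K (.ofNat 250866985370233412))) N N) (A1 (A1 (K (.ofNat 52613080547729604))))) (B (B (B N N (K (.ofNat 65188578547287576)) (K (.ofNat 136012151739675724))) (B N N (K (.negSucc 47176009945238267)) (K (.negSucc 122373828149296695))) (B (K (.negSucc 33084723147113211)) (K (.ofNat 138475613748008656)) N N) (A1 (K (.negSucc 68094760166187575))))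 (B (B N N (K (.ofNat 120385991588443672)) (K (.negSucc 30144866874905643))) (B N N (K (.ofNat 103943003948158136)) (K (.negSucc 16014742976626835))) (B (K (.negSucc 32131548613391715)) (K (.negSucc 136906298477169091)) N N) (A1 (K (.negSucc 6586029934760963)))) (B (B (K (.ofNat 31498424111788356)) (K (.negSucc 15829328055227639)) N N) (A0 (K (.ofNat 88028379996247636))) N N) (A1 (A1 (K (.ofNat 8382877665142380))))) (A0 (B (B (K (.ofNat 70273134342962948)) (K (.ofNat 64808021501345744)) N N) (A0 (K (.ofNat 113005042153873352))) N N)) (A1 (A1 (A1 (K (.ofNat 9115326210360912))))))⟩,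
  ⟨.z, .z, (B (B (B (B (K (.negSucc 38797738940830669)) (K (.negSucc 833605552318711)) N N) (B (K (.negSucc 65713046863513981)) (K (.ofNat 47077552156769454)) N N) N N) (B (B (K (.negSucc 11741505277300199)) (K (.ofNat 82388326243794384)) N N) (B (K (.negSucc 13460856484561457)) (K (.ofNat 39880357594544016)) N N) N N) N N) (B (B (B (K (.ofNat 17130543991471100)) (K (.ofNat 61673628022379876)) N N) (B (K (.ofNat 30102747592110188)) (K (.ofNat 12315864400196754)) N N) N N) (B (A0 (K (.negSucc 7803377987067719))) (A1 (K (.ofNat 4345410823236906))) N N) N N) N N)⟩,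
  ⟨.x, T0, (B (B (B N N (K (.ofNat 1311123552258600)) (K (.negSucc 97101260156853767))) (B N N (K (.ofNat 138254751066784752)) (K (.ofNat 119672008693655604))) (B (K (.negSucc 19327026226421195)) (K (.negSucc 205456429933428143)) N N) (A1 (K (.ofNat 116685902013774648)))) (B (B N N (K (.negSucc 21018305206439819)) (K (.ofNat 131864319728269728))) (B N N (K (.negSucc 33868932591446423)) (K (.ofNat 28361680312698828))) (B (K (.ofNat 4496112898376160)) (K (.ofNat 70361661425596476)) N N) (A1 (K (.negSucc 5255173013408867)))) (B (B (K (.ofNat 4147413554338512)) (K (.negSucc 119383221241356815)) N N) (A0 (K (.negSucc 137788013046661463))) N N) (A1 (A1 (K (.negSucc 20311736396840855)))))⟩,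
  ⟨.x, T1, (B (B (B N N (K (.negSucc 24864851241549299)) (K (.negSucc 4078794332369771))) (B N N (K (.negSucc 18024572815054427)) (K (.negSucc 5425962602730407))) (B (K (.ofNat 4776584793676884)) (K (.negSucc 3346223728200431)) N N) (A1 (K (.ofNat 188333335032192)))) (B (B N N (K (.negSucc 6959273129531615)) (K (.negSucc 5729193206351603))) (B N N (K (.ofNat 53927065226314692)) (K (.ofNat 23677387863047124))) (B (K (.ofNat 5691660924346632)) (K (.negSucc 13021936545577427)) N N) (A1 (K (.negSucc 16431285904500167)))) (B (B (K (.negSucc 41391366332537027)) (K (.ofNat 54045813522243648)) N N) (A0 (K (.negSucc 44711781193591163))) N N) N)⟩,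
  ⟨.x, T2, (B (B (B (K (.negSucc 134875251262570635)) (K (.ofNat 44157421896441188)) N N) (B (K (.negSucc 96817635166318743)) (K (.ofNat 47250327320144304)) N N) N N) (B (B (K (.negSucc 52847491745426591)) (K (.ofNat 46938253267902492)) N N) (B (K (.negSucc 39907996577343563)) (K (.ofNat 6708349724177568)) N N) N N) N N)⟩,
  ⟨.z, T0, (A0 (B (B (K (.negSucc 68704819195457431)) (K (.ofNat 29777178891818620)) N N) (B (K (.negSucc 41569567830462559)) (K (.ofNat 19967538698770260)) N N) N N))⟩,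
  ⟨.x, T4, (B N N (B N N (K (.negSucc 13911706204873271)) (K (.negSucc 2175009305001419))) (A3 (K (.ofNat 3748775358366756))))⟩,
  ⟨.x, T5, (B N (A3 (K (.negSucc 2248244371679435))) N (A1 (K (.negSucc 2836559349286775))))⟩,
  ⟨.x, T6, (B N N (B N N (K (.negSucc 2460969750591335)) (K (.negSucc 35339244420387647))) (A3 (K (.negSucc 16040488133210495))))⟩,
  ⟨.x, T7, (B (B N N (K (.ofNat 3123158345204724)) (K (.negSucc 22962215942350847))) (B N N (K (.ofNat 4513158229914996)) (K (.negSucc 8488439173583867))) (B (K (.negSucc 13751219083907099)) (K (.negSucc 17848297960497863)) N N) (A1 (K (.negSucc 1872760704037691))))⟩,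
  ⟨.x, T8, (B (B N N (K (.ofNat 9046540312797984)) (K (.ofNat 7236124151218500))) (B N N (K (.ofNat 26720061754727868)) (K (.ofNat 11204023325816076))) (B (K (.negSucc 497607407739791)) (K (.ofNat 7486970373392760)) N N) (A1 (K (.negSucc 14381668677575759))))⟩,
  ⟨.x, T9, (A0 (B (K (.negSucc 4102702275849743)) (K (.negSucc 126933332801675)) N N))⟩,
  ⟨.x, T10, (B N (B N N (K (.ofNat 19433815809329268)) (K (.ofNat 7773807570613656))) N (A1 (K (.negSucc 1028442600760679))))⟩,
  ⟨.x, T11, (A1 (B (K (.ofNat 1434020189768520)) (K (.ofNat 5858713231280844)) N N))⟩,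
  ⟨.x, T29, (A3 (K (.ofNat 3949991856434760)))⟩,
  ⟨.x, T13, (B N N (K (.negSucc 4715847592998851)) (K (.ofNat 6261712511598252)))⟩,
  ⟨.x, T14, (B N N (K (.negSucc 4854601571202959)) (K (.ofNat 3810689918648736)))⟩,
  ⟨.x, T20, (A0 (K (.ofNat 44711278488768)))⟩,
  ⟨.x, T30, (A2 (K (.ofNat 2450335506780816)))⟩,
  ⟨.x, T24, (A0 (K (.ofNat 5624473012020600)))⟩,
  ⟨.x, T31, (A3 (K (.ofNat 1060242596564280)))⟩,
  ⟨.x, T37, (A1 (K (.negSucc 851858188153031)))⟩,
  ⟨.x, T32, (A3 (K (.ofNat 23798559151404)))⟩,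
  ⟨.x, T15, (B (K (.ofNat 5295254088300084)) (K (.ofNat 1321057669388616)) N N)⟩,
  ⟨.x, T33, (A1 (K (.negSucc 4112869937993615)))⟩,
  ⟨.z, T13, (A0 (K (.negSucc 7079192239007123)))⟩,
  ⟨.x, T21, (K (.ofNat 6627315566411208))⟩,
  ⟨.x, T25, (K (.ofNat 448661728142280))⟩,
  ⟨.x, T38, (K (.negSucc 4830519265520723))⟩,
  ⟨.x, T39, (K (.negSucc 1921833587054735))⟩,
  ⟨.x, T41, (K (.negSucc 1666979737597151))⟩,
  ⟨.x, T36, (K (.ofNat 3382494798230892))⟩,
  ⟨.x, T42, (K (.ofNat 3341860508567592))⟩,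
  ⟨.z, T16, (K (.negSucc 3011310958043339))⟩,
  ⟨.z, T18, (K (.negSucc 5999188711036823))⟩] c_110 c_111 c_112 c_113 .nil .nil)

def c_120 : Cert := (.node [⟨.x, .z, (B (B (B (K (.negSucc 78868824156232047)) (K (.ofNat 484481805352764324)) N N) (B (K (.ofNat 536712936707442324)) (K (.ofNat 355207078277697468)) N N) N N) (B (B (K (.negSucc 204209745650785587)) (K (.ofNat 679288603921441648)) N N) (B (K (.ofNat 1328268827252170112)) (K (.ofNat 1114135188866367600)) N N) N N) N N)⟩,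
  ⟨.x, T0, (B (B (K (.negSucc 6793742730172691)) (K (.negSucc 661254063881216247)) N N) (B (K (.negSucc 1293095767362285439)) (K (.negSucc 490127081912654899)) N N) N N)⟩,
  ⟨.x, T1, (B (B (K (.ofNat 131010083672970412)) (K (.ofNat 176055935615712572)) N N) (B (K (.ofNat 186726448726751320)) (K (.ofNat 219207667922322372)) N N) N N)⟩,
  ⟨.x, T4, (B N N (K (.ofNat 471756532330747658)) (K (.negSucc 16340524170051541)))⟩,
  ⟨.x, T5, (A1 (K (.negSucc 219205720547474851)))⟩,
  ⟨.x, T6, (B N N (K (.negSucc 126805734191784723)) (K (.negSucc 121594644284374837)))⟩,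
  ⟨.x, T7, (B (K (.ofNat 335428658578721128)) (K (.ofNat 605247744658282016)) N N)⟩,
  ⟨.x, T8, (B (K (.ofNat 247643637529587420)) (K (.ofNat 312543898708022552)) N N)⟩,
  ⟨.x, T10, (A1 (K (.negSucc 204712277573858699)))⟩,
  ⟨.x, T29, (K (.ofNat 216745602684981728))⟩,
  ⟨.x, T13, (K (.negSucc 4208409167976419))⟩,
  ⟨.x, T14, (K (.negSucc 60454318063469999))⟩,
  ⟨.x, T30, (K (.ofNat 77268538165283320))⟩,
  ⟨.x, T31, (K (.ofNat 65504975501386704))⟩,
  ⟨.x, T32, (K (.ofNat 206305183279684916))⟩] (.node [⟨.x, .z, (B (B (K (.negSucc 1018147563026065627)) (K (.ofNat 17531154335462240)) N N) (B (K (.negSucc 658851079588664655)) (K (.ofNat 1594114574185252000)) N N) N N)⟩,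
  ⟨.x, T0, (B (K (.ofNat 994554434008594928)) (K (.negSucc 353463944691407771)) N N)⟩,
  ⟨.x, T1, (B (K (.ofNat 259862613059167176)) (K (.ofNat 501350536026219396)) N N)⟩,
  ⟨.x, T5, (K (.negSucc 123788340972341827))⟩,
  ⟨.x, T7, (K (.ofNat 1170363106997001440))⟩,
  ⟨.x, T8, (K (.ofNat 699488889702753532))⟩,
  ⟨.x, T10, (K (.negSucc 117596262915163871))⟩] (.node [⟨.x, .z, (B (K (.negSucc 749438346590693667)) (K (.ofNat 1245046659906096996)) N N)⟩,
  ⟨.x, T0, (K (.negSucc 1190446329914354667))⟩,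
  ⟨.x, T1, (K (.negSucc 20103989087601707))⟩] (.node [⟨.x, .z, (K (.negSucc 126813933390642091))⟩] .nil .nil .nil .nil .nil .nil) (.node [⟨.x, .z, (K (.negSucc 257575597364058727))⟩] .nil .nil .nil .nil .nil .nil) .nil .nil .nil .nil) (.node [⟨.x, .z, (B (K (.negSucc 83834811636450259)) (K (.negSucc 751266245330829211)) N N)⟩,
  ⟨.x, T0, (K (.negSucc 773597687910346163))⟩,
  ⟨.x, T1, (K (.ofNat 707016473182012296))⟩] (.node [⟨.x, .z, (K (.negSucc 669687884214467239))⟩] .nil .nil .nil .nil .nil .nil) (.node [⟨.x, .z, (K (.negSucc 1070338769081877287))⟩] .nil .nil .nil .nil .nil .nil) .nil .nil .nil .nil) .nil .nil .nil .nil) (.node [⟨.x, .z, (B (B (K (.ofNat 133499371828743336)) (K (.ofNat 917777106198626824)) N N) (B (K (.negSucc 89729715786024231)) (K (.ofNat 506645871328144344)) N N) N N)⟩,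
  ⟨.x, T0, (B (K (.negSucc 59406462058518511)) (K (.negSucc 593966841182562795)) N N)⟩,
  ⟨.x, T1, (B (K (.negSucc 113686866915669351)) (K (.negSucc 304236525934875495)) N N)⟩,
  ⟨.x, T5, (K (.ofNat 201139889573299492))⟩,
  ⟨.x, T7, (K (.ofNat 262143490045243008))⟩,
  ⟨.x, T8, (K (.negSucc 211941029136495587))⟩,
  ⟨.x, T10, (K (.ofNat 360594476985822060))⟩] (.node [⟨.x, .z, (B (K (.negSucc 696868871838098375)) (K (.negSucc 795543433896066211)) N N)⟩,
  ⟨.x, T0, (K (.ofNat 335530100870288572))⟩,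
  ⟨.x, T1, (K (.ofNat 396314678458743480))⟩] (.node [⟨.x, .z, (K (.negSucc 770455891484808459))⟩] .nil .nil .nil .nil .nil .nil) (.node [⟨.x, .z, (K (.ofNat 132731345729529564))⟩] .nil .nil .nil .nil .nil .nil) .nil .nil .nil .nil) (.node [⟨.x, .z, (B (K (.negSucc 595591245653890315)) (K (.negSucc 788472218101475087)) N N)⟩,
  ⟨.x, T0, (K (.ofNat 570502827356651708))⟩,
  ⟨.x, T1, (K (.ofNat 54624259021693600))⟩] (.node [⟨.x, .z, (K (.ofNat 72215122452868668))⟩] .nil .nil .nil .nil .nil .nil) (.node [⟨.x, .z, (K (.ofNat 504647609339209780))⟩] .nil .nil .nil .nil .nil .nil) .nil .nil .nil .nil) .nil .nil .nil .nil) (.node [⟨.x, T4, (K (.negSucc 96474357454981041))⟩,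
  ⟨.x, T6, (K (.negSucc 103903038489918781))⟩] .nil .nil .nil .nil .nil .nil) (.node [⟨.x, T4, (K (.negSucc 962610270505286079))⟩,
  ⟨.x, T6, (K (.negSucc 460138642951071455))⟩] .nil .nil .nil .nil .nil .nil) .nil .nil)

def c_121 : Cert := (.node [⟨.x, .z, (B (B (B (K (.ofNat 54303772850891790)) (K (.negSucc 648560687948533277)) N N) (B (K (.negSucc 246211688369136872)) (K (.negSucc 738924637419906170)) N N) N N) (B (B (K (.ofNat 525047758450823738)) (K (.negSucc 380198227566561425)) N N) (B (K (.negSucc 420061610831642255)) (K (.negSucc 1449395803769107871)) N N) N N) N N)⟩,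
  ⟨.x, T0, (B (B (K (.ofNat 897099055651228)) (K (.ofNat 85378810883299841)) N N) (B (K (.ofNat 583583937626510590)) (K (.ofNat 539207471179626290)) N N) N N)⟩,
  ⟨.x, T1, (B (B (K (.ofNat 304600611406827662)) (K (.negSucc 37880936758134646)) N N) (B (K (.ofNat 286811120917998163)) (K (.negSucc 344930122453069442)) N N) N N)⟩,
  ⟨.x, T4, (B N N (K (.negSucc 479630638297719335)) (K (.ofNat 275573685673288485)))⟩,
  ⟨.x, T5, (A1 (K (.ofNat 303058537165800090)))⟩,
  ⟨.x, T6, (B N N (K (.ofNat 19433035235901298)) (K (.negSucc 216672597540090462)))⟩,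
  ⟨.x, T7, (B (K (.negSucc 313817323152723455)) (K (.negSucc 953092878987009413)) N N)⟩,
  ⟨.x, T8, (B (K (.ofNat 165547627287326897)) (K (.negSucc 617578938377657802)) N N)⟩,
  ⟨.x, T10, (A1 (K (.negSucc 15642102160356774)))⟩,
  ⟨.x, T29, (K (.negSucc 264236204860139397))⟩,
  ⟨.x, T13, (K (.ofNat 207660840388794096))⟩,
  ⟨.x, T14, (K (.ofNat 72646963157731584))⟩,
  ⟨.x, T30, (K (.ofNat 27258309600797697))⟩,
  ⟨.x, T31, (K (.negSucc 51236722720191241))⟩,
  ⟨.x, T32, (K (.negSucc 231805127622946201))⟩] (.node [⟨.x, .z, (B (B (K (.ofNat 404184917029868736)) (K (.ofNat 356933489591244286)) N N) (B (K (.negSucc 108169290876667659)) (K (.negSucc 1396638168934040171)) N N) N N)⟩,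
  ⟨.x, T0, (B (K (.negSucc 532228308707095175)) (K (.ofNat 528398553320084730)) N N)⟩,
  ⟨.x, T1, (B (K (.negSucc 256949223392391101)) (K (.negSucc 741879637699361083)) N N)⟩,
  ⟨.x, T5, (K (.ofNat 111957562783402486))⟩,
  ⟨.x, T7, (K (.negSucc 621475440364464199))⟩,
  ⟨.x, T8, (K (.negSucc 650807523252794333))⟩,
  ⟨.x, T10, (K (.ofNat 108744556771970028))⟩] (.node [⟨.x, .z, (B (K (.ofNat 440265006651787926)) (K (.negSucc 579637776678586037)) N N)⟩,
  ⟨.x, T0, (K (.ofNat 860945419178375286))⟩,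
  ⟨.x, T1, (K (.ofNat 114481552917449284))⟩] (.node [⟨.x, .z, (K (.ofNat 142761468531572332))⟩] .nil .nil .nil .nil .nil .nil) (.node [⟨.x, .z, (K (.ofNat 556285624490614386))⟩] .nil .nil .nil .nil .nil .nil) .nil .nil .nil .nil) (.node [⟨.x, .z, (B (K (.negSucc 331746624909362334)) (K (.ofNat 920458712550361050)) N N)⟩,
  ⟨.x, T0, (K (.ofNat 615142220764329390))⟩,
  ⟨.x, T1, (K (.negSucc 248846385654034202))⟩] (.node [⟨.x, .z, (K (.ofNat 905844225503052248))⟩] .nil .nil .nil .nil .nil .nil) (.node [⟨.x, .z, (K (.ofNat 1059221090804273168))⟩] .nil .nil .nil .nil .nil .nil) .nil .nil .nil .nil) .nil .nil .nil .nil) (.node [⟨.x, .z, (B (B (K (.ofNat 595548118605295929)) (K (.negSucc 1262010922147993446)) N N) (B (K (.negSucc 255229713451839389)) (K (.negSucc 191509409754603013)) N N) N N)⟩,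
  ⟨.x, T0, (B (K (.negSucc 210909084196247829)) (K (.ofNat 445891995422152778)) N N)⟩,
  ⟨.x, T1, (B (K (.ofNat 160412220641813693)) (K (.ofNat 1009444113836689343)) N N)⟩,
  ⟨.x, T5, (K (.negSucc 443623763369959373))⟩,
  ⟨.x, T7, (K (.ofNat 163190913803918322))⟩,
  ⟨.x, T8, (K (.ofNat 984485513517655268))⟩,
  ⟨.x, T10, (K (.ofNat 327987529341885958))⟩] (.node [⟨.x, .z, (B (K (.ofNat 107898044076439333)) (K (.ofNat 1109639318732492530)) N N)⟩,
  ⟨.x, T0, (K (.negSucc 323338674396327741))⟩,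
  ⟨.x, T1, (K (.negSucc 12029544354145870))⟩] (.node [⟨.x, .z, (K (.ofNat 401287122705197152))⟩] .nil .nil .nil .nil .nil .nil) (.node [⟨.x, .z, (K (.negSucc 280115146859137421))⟩] .nil .nil .nil .nil .nil .nil) .nil .nil .nil .nil) (.node [⟨.x, .z, (B (K (.ofNat 1121659209317600795)) (K (.ofNat 1148435445199045500)) N N)⟩,
  ⟨.x, T0, (K (.negSucc 774027416934782151))⟩,
  ⟨.x, T1, (K (.negSucc 601180433022170630))⟩] (.node [⟨.x, .z, (K (.negSucc 91626663845888783))⟩] .nil .nil .nil .nil .nil .nil) (.node [⟨.x, .z, (K (.negSucc 305854476031727597))⟩] .nil .nil .nil .nil .nil .nil) .nil .nil .nil .nil) .nil .nil .nil .nil) (.node [⟨.x, T4, (K (.ofNat 170055473828250398))⟩,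
  ⟨.x, T6, (K (.ofNat 336024529293058849))⟩] .nil .nil .nil .nil .nil .nil) (.node [⟨.x, T4, (K (.ofNat 455428880797088641))⟩,
  ⟨.x, T6, (K (.ofNat 124417167322887005))⟩] .nil .nil .nil .nil .nil .nil) .nil .nil)

def c_12 : Cert := (.node [⟨.x, .z, (B (B (B (B (K (.ofNat 350600237004526196)) (K (.negSucc 851483453840860291)) N N) (B (K (.ofNat 468650996907945180)) (K (.negSucc 1093731578185921327)) N N) N N) (B (B (K (.ofNat 815932028286137316)) (K (.negSucc 1239918317482670499)) N N) (B (K (.negSucc 98142431324911855)) (K (.negSucc 637839977645560275)) N N) N N) N N) (B (B (B (K (.negSucc 489430595838249167)) (K (.negSucc 877226897363473903)) N N) (B (K (.negSucc 1051538344336688043)) (K (.negSucc 387924027935951807)) N N) N N) (B (A0 (K (.negSucc 225579141804037735))) (A1 (K (.ofNat 146775428835350144))) N N) N N) N N)⟩,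
  ⟨.x, T0, (B (B (B (K (.ofNat 130745719322860180)) (K (.ofNat 613553250717394436)) N N) (B (K (.ofNat 295331764269501848)) (K (.ofNat 292473829744609684)) N N) N N) (B (B (K (.negSucc 294373162981600175)) (K (.ofNat 396897920571693720)) N N) (B (K (.ofNat 123746550989157656)) (K (.ofNat 96813672325012728)) N N) N N) N N)⟩,
  ⟨.x, T1, (B (B (B (K (.negSucc 290010263734612927)) (K (.ofNat 90054306105891420)) N N) (B (K (.negSucc 365436372905842051)) (K (.ofNat 278255752356354476)) N N) N N) (B (B (K (.negSucc 579330189076615863)) (K (.ofNat 4975871333407192)) N N) (B (K (.negSucc 236720213961491591)) (K (.negSucc 49005388226803631)) N N) N N) N N)⟩,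
  ⟨.x, T4, (B (B N N (K (.negSucc 222479007224782971)) (K (.ofNat 2451581607593404))) (B N N (K (.negSucc 368700221377662137)) (K (.negSucc 210396286825462497))) (B (K (.ofNat 140281529511152570)) (K (.ofNat 553117791471320590)) N N) (A1 (K (.ofNat 24128702789044382))))⟩,
  ⟨.x, T5, (A1 (A1 (K (.ofNat 55227792945334836))))⟩,
  ⟨.x, T6, (B (B N N (K (.negSucc 25766739079120649)) (K (.ofNat 279460436738611536))) (B N N (K (.ofNat 40353731674122258)) (K (.ofNat 28933850254745998))) (B (K (.negSucc 87449271098478281)) (K (.ofNat 84067189316776802)) N N) (A1 (K (.negSucc 150855345482647645))))⟩,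
  ⟨.x, T7, (B (B (K (.negSucc 122889470347731779)) (K (.ofNat 373148134102033588)) N N) (B (K (.ofNat 460994747670180640)) (K (.ofNat 291407034061122184)) N N) N N)⟩,
  ⟨.x, T8, (B (B (K (.ofNat 11603427853400832)) (K (.negSucc 55074337148251803)) N N) (B (K (.ofNat 254884983794997596)) (K (.negSucc 161832475150786107)) N N) N N)⟩,
  ⟨.x, T10, (A1 (B (K (.ofNat 77663684356586620)) (K (.negSucc 140568165930200731)) N N))⟩,
  ⟨.x, T28, (A3 (K (.negSucc 223946783856760647)))⟩,
  ⟨.x, T29, (A1 (K (.negSucc 40786831873705959)))⟩,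
  ⟨.x, T12, (B N N (K (.ofNat 49043993643436670)) (K (.ofNat 146119352058354280)))⟩,
  ⟨.x, T13, (B (K (.ofNat 24814438524507696)) (K (.negSucc 71201831745260171)) N N)⟩,
  ⟨.x, T14, (B (K (.negSucc 124061955081463739)) (K (.negSucc 87013567622223611)) N N)⟩,
  ⟨.x, T30, (A0 (K (.negSucc 62267338552215219)))⟩,
  ⟨.x, T31, (A1 (K (.negSucc 45233279508879503)))⟩,
  ⟨.x, T32, (A1 (K (.negSucc 68997470408099967)))⟩,
  ⟨.x, T16, (K (.negSucc 42449551486939871))⟩,
  ⟨.x, T18, (K (.negSucc 167160924166419935))⟩,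
  ⟨.x, T34, (K (.negSucc 171967360046013515))⟩,
  ⟨.x, T43, (K (.negSucc 31834820650703687))⟩,
  ⟨.x, T45, (K (.ofNat 56092542466907568))⟩,
  ⟨.x, T35, (K (.ofNat 2391376700603340))⟩] c_120 c_121 (.node [⟨.x, T4, (B (K (.ofNat 97183884749812514)) (K (.ofNat 106535519586729960)) N N)⟩,
  ⟨.x, T6, (B (K (.ofNat 111163478901499192)) (K (.ofNat 125115303505512160)) N N)⟩,
  ⟨.x, T28, (K (.ofNat 81127386949216280))⟩,
  ⟨.x, T12, (K (.ofNat 197103720828811346))⟩] (.node [⟨.x, T4, (K (.negSucc 1642455929598725))⟩,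
  ⟨.x, T6, (K (.ofNat 61607107281179948))⟩] .nil .nil .nil .nil .nil .nil) (.node [⟨.x, T4, (K (.negSucc 193429296316980137))⟩,
  ⟨.x, T6, (K (.negSucc 380345958612651377))⟩] .nil .nil .nil .nil .nil .nil) .nil .nil .nil .nil) (.node [⟨.x, T4, (B (K (.negSucc 22749614310509667)) (K (.negSucc 8751928922071659)) N N)⟩,
  ⟨.x, T6, (B (K (.negSucc 60963968969137073)) (K (.ofNat 93064464103873844)) N N)⟩,
  ⟨.x, T28, (K (.ofNat 76845051587943416))⟩,
  ⟨.x, T12, (K (.ofNat 21134462910975502))⟩] (.node [⟨.x, T4, (K (.ofNat 455853231067431192))⟩,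
  ⟨.x, T6, (K (.ofNat 366846500045369274))⟩] .nil .nil .nil .nil .nil .nil) (.node [⟨.x, T4, (K (.ofNat 92006878201236086))⟩,
  ⟨.x, T6, (K (.negSucc 62354995390221))⟩] .nil .nil .nil .nil .nil .nil) .nil .nil .nil .nil) .nil .nil)

def c_130 : Cert := (.node [⟨.x, .z, (B (B (B (K (.ofNat 273743148669908978)) (K (.ofNat 317509324342632986)) N N) (B (K (.ofNat 391639897444345953)) (K (.ofNat 208226189490134351)) N N) N N) (B (B (K (.ofNat 249574523035646738)) (K (.ofNat 293147961405651378)) N N) (B (K (.ofNat 216188586819946520)) (K (.ofNat 503871091447664180)) N N) N N) N N)⟩,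
  ⟨.x, T0, (B (B (K (.negSucc 199896592430069599)) (K (.negSucc 230977741359327304)) N N) (B (K (.negSucc 252137214203236289)) (K (.negSucc 237176146241477413)) N N) N N)⟩,
  ⟨.x, T1, (B (B (K (.negSucc 224723761478376985)) (K (.ofNat 90974274683276343)) N N) (B (K (.negSucc 364167511453716574)) (K (.ofNat 177143900984028355)) N N) N N)⟩,
  ⟨.x, T4, (B N N (K (.ofNat 133220715351508082)) (K (.ofNat 16928823710150793)))⟩,
  ⟨.x, T5, (A1 (K (.negSucc 143509037988196765)))⟩,
  ⟨.x, T6, (B N N (K (.ofNat 54176396552521408)) (K (.ofNat 37794374407134943)))⟩,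
  ⟨.x, T7, (B (K (.negSucc 33911372574582555)) (K (.ofNat 244077048855499210)) N N)⟩,
  ⟨.x, T8, (B (K (.negSucc 239281395421446496)) (K (.ofNat 262292400155871251)) N N)⟩,
  ⟨.x, T10, (A1 (K (.ofNat 107760252842827043)))⟩,
  ⟨.x, T29, (K (.ofNat 46019926638157230))⟩,
  ⟨.x, T13, (K (.negSucc 69888973448528075))⟩,
  ⟨.x, T14, (K (.ofNat 112304320993648680))⟩,
  ⟨.x, T30, (K (.negSucc 78032261830951652))⟩,
  ⟨.x, T31, (K (.ofNat 8981466283352162))⟩,
  ⟨.x, T32, (K (.negSucc 68950736036992369))⟩] (.node [⟨.x, .z, (B (B (K (.ofNat 94629284061425488)) (K (.negSucc 197621236238228509)) N N) (B (K (.negSucc 3402687827498135)) (K (.ofNat 470225111666913664)) N N) N N)⟩,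
  ⟨.x, T0, (B (K (.negSucc 6773135092128083)) (K (.negSucc 313313394983416221)) N N)⟩,
  ⟨.x, T1, (B (K (.ofNat 481336225896896374)) (K (.ofNat 617375635203756864)) N N)⟩,
  ⟨.x, T5, (K (.negSucc 13785077236933649))⟩,
  ⟨.x, T7, (K (.ofNat 222603937656484448))⟩,
  ⟨.x, T8, (K (.ofNat 365066438542148710))⟩,
  ⟨.x, T10, (K (.ofNat 175717430631708300))⟩] (.node [⟨.x, .z, (B (K (.negSucc 32798661654876873)) (K (.ofNat 268144026724601574)) N N)⟩,
  ⟨.x, T0, (K (.negSucc 135497548418325921))⟩,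
  ⟨.x, T1, (K (.negSucc 272451862530597323))⟩] (.node [⟨.x, .z, (K (.ofNat 214034973125530704))⟩] .nil .nil .nil .nil .nil .nil) (.node [⟨.x, .z, (K (.ofNat 52311412863781390))⟩] .nil .nil .nil .nil .nil .nil) .nil .nil .nil .nil) (.node [⟨.x, .z, (B (K (.ofNat 734570409526147823)) (K (.negSucc 37374831862857033)) N N)⟩,
  ⟨.x, T0, (K (.negSucc 224828804157452037))⟩,
  ⟨.x, T1, (K (.negSucc 452072360459228712))⟩] (.node [⟨.x, .z, (K (.ofNat 75402881438871104))⟩] .nil .nil .nil .nil .nil .nil) (.node [⟨.x, .z, (K (.negSucc 224760470620606447))⟩] .nil .nil .nil .nil .nil .nil) .nil .nil .nil .nil) .nil .nil .nil .nil) (.node [⟨.x, .z, (B (B (K (.negSucc 9807513643742140)) (K (.ofNat 403835773369711287)) N N) (B (K (.ofNat 110976582449836150)) (K (.negSucc 87895656470553325)) N N) N N)⟩,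
  ⟨.x, T0, (B (K (.negSucc 42488728453609757)) (K (.negSucc 110149402133985133)) N N)⟩,
  ⟨.x, T1, (B (K (.ofNat 35976067795375439)) (K (.negSucc 284732093274620546)) N N)⟩,
  ⟨.x, T5, (K (.ofNat 120729891360158434))⟩,
  ⟨.x, T7, (K (.negSucc 83246509259371117))⟩,
  ⟨.x, T8, (K (.negSucc 178749727673765055))⟩,
  ⟨.x, T10, (K (.ofNat 53624837800495430))⟩] (.node [⟨.x, .z, (B (K (.ofNat 410068367453253971)) (K (.negSucc 126223256208096285)) N N)⟩,
  ⟨.x, T0, (K (.ofNat 37691310768974954))⟩,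
  ⟨.x, T1, (K (.negSucc 242210494280919528))⟩] (.node [⟨.x, .z, (K (.ofNat 75733384802284400))⟩] .nil .nil .nil .nil .nil .nil) (.node [⟨.x, .z, (K (.ofNat 90335960472317610))⟩] .nil .nil .nil .nil .nil .nil) .nil .nil .nil .nil) (.node [⟨.x, .z, (B (K (.negSucc 91746208798206542)) (K (.negSucc 317055581254816023)) N N)⟩,
  ⟨.x, T0, (K (.ofNat 126392092696657140))⟩,
  ⟨.x, T1, (K (.ofNat 75507714670661735))⟩] (.node [⟨.x, .z, (K (.negSucc 29393762586182015))⟩] .nil .nil .nil .nil .nil .nil) (.node [⟨.x, .z, (K (.ofNat 190936326786480414))⟩] .nil .nil .nil .nil .nil .nil) .nil .nil .nil .nil) .nil .nil .nil .nil) (.node [⟨.x, T4, (K (.ofNat 2656030098026910))⟩,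
  ⟨.x, T6, (K (.ofNat 37937834611565763))⟩] .nil .nil .nil .nil .nil .nil) (.node [⟨.x, T4, (K (.negSucc 76970406280228460))⟩,
  ⟨.x, T6, (K (.ofNat 14660673462011199))⟩] .nil .nil .nil .nil .nil .nil) .nil .nil)

def c_131 : Cert := (.node [⟨.x, .z, (B (B (B (K (.negSucc 39911331299470907)) (K (.negSucc 4704260077252943)) N N) (B (K (.ofNat 71358003576672702)) (K (.ofNat 225805514031197610)) N N) N N) (B (B (K (.negSucc 76464761510883131)) (K (.negSucc 40245913644910463)) N N) (B (K (.negSucc 40366939513237979)) (K (.ofNat 51002384741895660)) N N) N N) N N)⟩,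
  ⟨.x, T0, (B (B (K (.negSucc 10305620042755739)) (K (.ofNat 17022216249397074)) N N) (B (K (.negSucc 118177057002293195)) (K (.negSucc 47170628949630863)) N N) N N)⟩,
  ⟨.x, T1, (B (B (K (.ofNat 35674272132487476)) (K (.ofNat 410035012144026)) N N) (B (K (.ofNat 9814576070557890)) (K (.negSucc 169834337887735505)) N N) N N)⟩,
  ⟨.x, T4, (B N N (K (.ofNat 11393597234896818)) (K (.negSucc 33524146118579531)))⟩,
  ⟨.x, T5, (A1 (K (.negSucc 4554008976151319)))⟩,
  ⟨.x, T6, (B N N (K (.negSucc 5133950488478597)) (K (.ofNat 75108133523538804)))⟩,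
  ⟨.x, T7, (B (K (.negSucc 9161658742031867)) (K (.ofNat 21696236995483056)) N N)⟩,
  ⟨.x, T8, (B (K (.ofNat 570919091470926)) (K (.negSucc 100309191610862393)) N N)⟩,
  ⟨.x, T10, (A1 (K (.negSucc 62311734895241597)))⟩,
  ⟨.x, T29, (K (.negSucc 815413436630111))⟩,
  ⟨.x, T13, (K (.ofNat 8198065869985980))⟩,
  ⟨.x, T14, (K (.ofNat 2585628704307564))⟩,
  ⟨.x, T30, (K (.ofNat 2965048962511974))⟩,
  ⟨.x, T31, (K (.ofNat 6807244788682380))⟩,
  ⟨.x, T32, (K (.ofNat 7658923644712716))⟩] (.node [⟨.x, .z, (B (B (K (.ofNat 66317189760052236)) (K (.negSucc 121701356523898511)) N N) (B (K (.ofNat 12434221544244168)) (K (.negSucc 63013486959643967)) N N) N N)⟩,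
  ⟨.x, T0, (B (K (.negSucc 141535920045077687)) (K (.negSucc 136280868517164155)) N N)⟩,
  ⟨.x, T1, (B (K (.ofNat 111980026731227652)) (K (.ofNat 220623932102598924)) N N)⟩,
  ⟨.x, T5, (K (.ofNat 92363852166568428))⟩,
  ⟨.x, T7, (K (.negSucc 63518265134624267))⟩,
  ⟨.x, T8, (K (.ofNat 65792813189724096))⟩,
  ⟨.x, T10, (K (.ofNat 157472769728912052))⟩] (.node [⟨.x, .z, (B (K (.ofNat 197695691084216712)) (K (.ofNat 61729638645588792)) N N)⟩,
  ⟨.x, T0, (K (.ofNat 77722681186181952))⟩,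
  ⟨.x, T1, (K (.negSucc 260955985556473691))⟩] (.node [⟨.x, .z, (K (.ofNat 171199703575315512))⟩] .nil .nil .nil .nil .nil .nil) (.node [⟨.x, .z, (K (.ofNat 60150095365735416))⟩] .nil .nil .nil .nil .nil .nil) .nil .nil .nil .nil) (.node [⟨.x, .z, (B (K (.ofNat 10657803072077262)) (K (.ofNat 10839108633384348)) N N)⟩,
  ⟨.x, T0, (K (.ofNat 26104955003824812))⟩,
  ⟨.x, T1, (K (.negSucc 72301625249981129))⟩] (.node [⟨.x, .z, (K (.ofNat 12293674071221028))⟩] .nil .nil .nil .nil .nil .nil) (.node [⟨.x, .z, (K (.ofNat 88525363515684732))⟩] .nil .nil .nil .nil .nil .nil) .nil .nil .nil .nil) .nil .nil .nil .nil) (.node [⟨.x, .z, (B (B (K (.ofNat 49855462495459014)) (K (.negSucc 155168994756439325)) N N) (B (K (.ofNat 26007572299961616)) (K (.negSucc 45525271156972763)) N N) N N)⟩,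
  ⟨.x, T0, (B (K (.negSucc 162441933222949439)) (K (.negSucc 72352048868758847)) N N)⟩,
  ⟨.x, T1, (B (K (.ofNat 61074219114881886)) (K (.ofNat 190122286091094462)) N N)⟩,
  ⟨.x, T5, (K (.ofNat 46379262126758232))⟩,
  ⟨.x, T7, (K (.negSucc 47247820145254859))⟩,
  ⟨.x, T8, (K (.ofNat 67150256723799612))⟩,
  ⟨.x, T10, (K (.ofNat 114648375910938972))⟩] (.node [⟨.x, .z, (B (K (.negSucc 58898075575178237)) (K (.negSucc 30672783227587235)) N N)⟩,
  ⟨.x, T0, (K (.ofNat 47337290690926560))⟩,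
  ⟨.x, T1, (K (.ofNat 15313248198268878))⟩] (.node [⟨.x, .z, (K (.negSucc 101851981232688515))⟩] .nil .nil .nil .nil .nil .nil) (.node [⟨.x, .z, (K (.negSucc 17382797310579587))⟩] .nil .nil .nil .nil .nil .nil) .nil .nil .nil .nil) (.node [⟨.x, .z, (B (K (.ofNat 11447345642436618)) (K (.negSucc 19415955880418711)) N N)⟩,
  ⟨.x, T0, (K (.ofNat 49128227545239948))⟩,
  ⟨.x, T1, (K (.negSucc 59358168216237545))⟩] (.node [⟨.x, .z, (K (.negSucc 60517819604000543))⟩] .nil .nil .nil .nil .nil .nil) (.node [⟨.x, .z, (K (.ofNat 37539918906136860))⟩] .nil .nil .nil .nil .nil .nil) .nil .nil .nil .nil) .nil .nil .nil .nil) (.node [⟨.x, T4, (K (.negSucc 99231822419268761))⟩,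
  ⟨.x, T6, (K (.negSucc 65539967716994987))⟩] .nil .nil .nil .nil .nil .nil) (.node [⟨.x, T4, (K (.negSucc 17998140065144981))⟩,
  ⟨.x, T6, (K (.negSucc 5214461215371293))⟩] .nil .nil .nil .nil .nil .nil) .nil .nil)

def c_13 : Cert := (.node [⟨.x, .z, (B (B (B (B (K (.negSucc 12700692085882679)) (K (.ofNat 87037764629367564)) N N) (B (K (.negSucc 2502913454484575)) (K (.ofNat 212486778162973104)) N N) N N) (B (B (K (.ofNat 65429681341375452)) (K (.ofNat 209884782671525628)) N N) (B (K (.negSucc 61952283329063123)) (K (.ofNat 98042667102714600)) N N) N N) N N) (B (B (B (K (.ofNat 82564704876038724)) (K (.ofNat 106915798412608656)) N N) (B (K (.ofNat 184120964117459388)) (K (.ofNat 107347197336997944)) N N) N N) (B (A0 (K (.ofNat 71537872109287104))) (A1 (K (.ofNat 33593062851535908))) N N) N N) N N)⟩,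
  ⟨.x, T0, (B (B (B (K (.ofNat 13676851836094848)) (K (.ofNat 65739963629439192)) N N) (B (K (.negSucc 12063166843330619)) (K (.ofNat 65441484055003644)) N N) N N) (B (B (K (.ofNat 19197600888637176)) (K (.ofNat 52431459966592224)) N N) (B (K (.negSucc 1570197862698119)) (K (.ofNat 34620369459161880)) N N) N N) N N)⟩,
  ⟨.x, T1, (B (B (B (K (.ofNat 66532862802154296)) (K (.negSucc 34771572826406627)) N N) (B (K (.ofNat 58413896526112524)) (K (.negSucc 79277401950446651)) N N) N N) (B (B (K (.negSucc 54744158201549831)) (K (.negSucc 52704239159863307)) N N) (B (K (.ofNat 172147323274432092)) (K (.ofNat 75516432280229580)) N N) N N) N N)⟩,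
  ⟨.x, T4, (B (B N N (K (.negSucc 34160856861271943)) (K (.ofNat 6593381607106956))) (B N N (K (.negSucc 18807178690802201)) (K (.ofNat 8809479816438900))) (B (K (.negSucc 18781814318164337)) (K (.ofNat 26131790783906394)) N N) (A1 (K (.ofNat 1294639533126672))))⟩,
  ⟨.x, T5, (A1 (A1 (K (.negSucc 13826959288518023))))⟩,
  ⟨.x, T6, (B (B N N (K (.ofNat 2237275168965408)) (K (.negSucc 41907567630221297))) (B N N (K (.ofNat 36931421115614310)) (K (.negSucc 18321065200504859))) (B (K (.ofNat 1601372059930062)) (K (.negSucc 37545209461892321)) N N) (A1 (K (.negSucc 57857574748128839))))⟩,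
  ⟨.x, T7, (B (B (K (.ofNat 2852307306771732)) (K (.ofNat 43517181769891284)) N N) (B (K (.ofNat 34686863460903720)) (K (.ofNat 55181564002806132)) N N) N N)⟩,
  ⟨.x, T8, (B (B (K (.ofNat 591482745148680)) (K (.ofNat 36704344021163004)) N N) (B (K (.ofNat 127148483445687876)) (K (.ofNat 87928374750918564)) N N) N N)⟩,
  ⟨.x, T10, (A1 (B (K (.ofNat 62264100677164704)) (K (.negSucc 1874415191314955)) N N))⟩,
  ⟨.x, T28, (A3 (K (.ofNat 5257560502073568)))⟩,
  ⟨.x, T29, (A1 (K (.ofNat 2865999476917176)))⟩,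
  ⟨.x, T12, (B N N (K (.ofNat 917205989478360)) (K (.ofNat 6977467471475850)))⟩,
  ⟨.x, T13, (B (K (.ofNat 1891124362122696)) (K (.ofNat 10271709492107040)) N N)⟩,
  ⟨.x, T14, (B (K (.negSucc 6266900613357791)) (K (.negSucc 6091797307648967)) N N)⟩,
  ⟨.x, T30, (A0 (K (.negSucc 7883319371350919)))⟩,
  ⟨.x, T31, (A1 (K (.ofNat 2796772069617624)))⟩,
  ⟨.x, T32, (A1 (K (.ofNat 4165723273881696)))⟩,
  ⟨.x, T16, (K (.negSucc 1995227306974367))⟩,
  ⟨.x, T18, (K (.negSucc 5344606098517247))⟩,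
  ⟨.x, T34, (K (.negSucc 4300828997196383))⟩,
  ⟨.x, T43, (K (.negSucc 4257606005826191))⟩,
  ⟨.x, T45, (K (.negSucc 732656964517343))⟩,
  ⟨.x, T35, (K (.ofNat 3240852497024112))⟩] c_130 c_131 (.node [⟨.x, T4, (B (K (.negSucc 10550534526869585)) (K (.negSucc 52672829709154535)) N N)⟩,
  ⟨.x, T6, (B (K (.ofNat 105033062578052142)) (K (.ofNat 113855704301110020)) N N)⟩,
  ⟨.x, T28, (K (.negSucc 54452321959908287))⟩,
  ⟨.x, T12, (K (.ofNat 31319899948965900))⟩] (.node [⟨.x, T4, (K (.ofNat 32818980712215870))⟩,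
  ⟨.x, T6, (K (.negSucc 71275493838438473))⟩] .nil .nil .nil .nil .nil .nil) (.node [⟨.x, T4, (K (.ofNat 178077556927643580))⟩,
  ⟨.x, T6, (K (.negSucc 52532055506763611))⟩] .nil .nil .nil .nil .nil .nil) .nil .nil .nil .nil) (.node [⟨.x, T4, (B (K (.ofNat 17234606365697436)) (K (.negSucc 12367561620689159)) N N)⟩,
  ⟨.x, T6, (B (K (.ofNat 6479614362235056)) (K (.ofNat 12917301355932228)) N N)⟩,
  ⟨.x, T28, (K (.ofNat 763463463792864))⟩,
  ⟨.x, T12, (K (.ofNat 4667548949986212))⟩] (.node [⟨.x, T4, (K (.negSucc 112638315729169535))⟩,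
  ⟨.x, T6, (K (.negSucc 21829454925009647))⟩] .nil .nil .nil .nil .nil .nil) (.node [⟨.x, T4, (K (.ofNat 27049985577057516))⟩,
  ⟨.x, T6, (K (.negSucc 3692609686918547))⟩] .nil .nil .nil .nil .nil .nil) .nil .nil .nil .nil) .nil .nil)

def c_1 : Cert := (.node [⟨.x, .z, (B (B (B (B (B N N (K (.negSucc 30875215558635395)) (K (.ofNat 42917476141613016))) (B N N (K (.negSucc 446479428128453603)) (K (.negSucc 391810243741237027))) (B (K (.negSucc 7768023046543511)) (K (.ofNat 121057282067388888)) N N) (A1 (K (.negSucc 84214400512385483)))) (B (B N N (K (.negSucc 174865554074504611)) (K (.ofNat 116522337423122520))) (B N N (K (.negSucc 452282686424007731)) (K (.negSucc 230113271981639727))) (B (K (.ofNat 122052282594520684)) (K (.ofNat 386101774595936644)) N N) (A1 (K (.ofNat 64993629792071032)))) (B (B (K (.negSucc 25091514651614903)) (K (.ofNat 205413370164407688)) N N) (A0 (K (.negSucc 25857298158992123))) N N) (A1 (A1 (K (.negSucc 19974197384720507)))))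 (B (B (B N N (K (.ofNat 1426200100948454)) (K (.ofNat 132967007902363530))) (B N N (K (.negSucc 365169424209028871)) (K (.negSucc 440272375028974577))) (B (K (.negSucc 85052325005177805)) (K (.ofNat 250358008872249512)) N N) (A1 (K (.ofNat 105101611851421106)))) (B (B N N (K (.negSucc 20105694195254685)) (K (.negSucc 93241826151414727))) (B N N (K (.ofNat 43959451380699834)) (K (.ofNat 22436189597687166))) (B (K (.negSucc 104034040453630929)) (K (.ofNat 44721067474863872)) N N) (A1 (K (.ofNat 58012750188077882)))) (B (B (K (.ofNat 85299614883785334)) (K (.ofNat 130893921374099076)) N N) (A0 (K (.ofNat 195014111529889644))) N N) (A1 (A1 (K (.negSucc 229252224216009581))))) (A0 (B (B (K (.ofNat 147168747210237480)) (K (.ofNat 275996421580564116)) N N) (A0 (K (.ofNat 6402658270401360))) N N)) (A1 (A1 (A1 (K (.negSucc 19658219294450483)))))) (B (B (B (B N N (K (.negSucc 150677047629459397)) (K (.negSucc 207944660879838817))) (B N N (K (.negSucc 234577776829684595))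 (K (.negSucc 329288439896550701))) (B (K (.ofNat 12816055451170510)) (K (.ofNat 130415293566790672)) N N) (A1 (K (.negSucc 15357772188161305)))) (B (B N N (K (.negSucc 169737325979894521)) (K (.negSucc 362120801350994295))) (B N N (K (.negSucc 51136942310563229)) (K (.ofNat 35082207855587010))) (B (K (.negSucc 19778509164331417)) (K (.ofNat 61203475343737636)) N N) (A1 (K (.ofNat 21698819311490146)))) (B (B (K (.ofNat 353621261867314134)) (K (.ofNat 323578175880746232)) N N) (A0 (K (.ofNat 386561687074761156))) N N) (A1 (A1 (K (.negSucc 208309253687586161))))) (B (B (B N N (K (.negSucc 81348032414298267)) (K (.negSucc 131959391635693335))) N (B (K (.ofNat 99707881174668656)) (K (.negSucc 67751262054294903)) N N) (A1 (K (.negSucc 28142524133315967)))) (B N (B N N (K (.negSucc 3461011106501471)) (K (.negSucc 10829878225958459))) (A0 (K (.ofNat 19704948865962228))) (A1 (K (.ofNat 1770057034126344)))) (A0 (A0 (K (.ofNat 116374185537124656)))) (A1 (A1 (K (.ofNat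 1740712316255244))))) (A0 (B (A0 (K (.ofNat 190376036820389700))) (A0 (K (.ofNat 124311382692808536))) N N)) (A1 (A1 (A1 (K (.negSucc 8546273723171195)))))) (A0 (A0 (B (B (K (.ofNat 28639886690454648)) (K (.ofNat 3418689434869356)) N N) (A0 (K (.negSucc 81052363870422491))) N N))) (A1 (A1 (A1 (A1 (K (.ofNat 5602253966892720)))))))⟩,
  ⟨.z, .z, (B (B (B (B (B (K (.negSucc 61732085063038079)) (K (.negSucc 34463588219806637)) N N) (B (K (.negSucc 77658251257331003)) (K (.ofNat 15652260013878378)) N N) N N) (B (B (K (.ofNat 514521284430240)) (K (.ofNat 51886295215647636)) N N) (B (K (.negSucc 2095443020171087)) (K (.ofNat 8935096433001012)) N N) N N) N N) (B (B (B (K (.negSucc 69396328484832005)) (K (.negSucc 46958667007749047)) N N) (B (K (.negSucc 43762311198292499)) (K (.negSucc 14889624025777559)) N N) N N) (B (A0 (K (.ofNat 28361347264131498))) (A1 (K (.negSucc 8517166817522129))) N N) N N) N N) (B (B (B (B (K (.negSucc 97627076010811397)) (K (.negSucc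 65993352095986817)) N N) (B (K (.negSucc 74409109857363551)) (K (.ofNat 1484448614516484)) N N) N N) (B (A1 (K (.ofNat 6710637905473074))) (A0 (K (.negSucc 9441555439064705))) N N) N N) (B (A0 (A0 (K (.negSucc 25581739333594535)))) (A1 (A1 (K (.negSucc 2785668365990231)))) N N) N N) N N)⟩,
  ⟨.x, T0, (B (B (B (B N N (K (.ofNat 2423289153805728)) (K (.negSucc 152396470846776551))) (B N N (K (.ofNat 313370858080948476)) (K (.ofNat 186310967180060436))) (B (K (.ofNat 1473800079528612)) (K (.negSucc 354911482815821423)) N N) (A1 (K (.ofNat 46831039011929844)))) (B (B N N (K (.negSucc 57008016885223055)) (K (.ofNat 48255434328383196))) (B N N (K (.ofNat 29723317154175432)) (K (.ofNat 83048096562864204))) (B (K (.ofNat 32553924534526356)) (K (.ofNat 1416922531622820)) N N) (A1 (K (.negSucc 73674489252589235)))) (B (B (K (.negSucc 962943411915395)) (K (.negSucc 132354304251637211)) N N) (A0 (K (.negSucc 151209269069828579))) N N) (A1 (A1 (K (.negSucc 9814152525370379)))))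 (B (B (B N N (K (.negSucc 62770688414144267)) (K (.negSucc 110729414652109955))) (B N N (K (.ofNat 24326653886515632)) (K (.negSucc 13874752182695507))) (B (K (.ofNat 11951537722894800)) (K (.negSucc 44132822937098783)) N N) (A1 (K (.negSucc 78179338430411363)))) (B (B N N (K (.negSucc 41581159661473931)) (K (.negSucc 125376214064579255))) (B N N (K (.negSucc 53008476565164275)) (K (.negSucc 21449189100995531))) (B (K (.negSucc 8523477064854251)) (K (.ofNat 37544364529023996)) N N) (A1 (K (.negSucc 3891332247996023)))) (B (B (K (.ofNat 123091918851143808)) (K (.ofNat 111566160977373288)) N N) (A0 (K (.ofNat 118421861988741408))) N N) (A1 (A1 (K (.ofNat 10227325597715448))))) (A0 (B (B (K (.negSucc 2314261373604875)) (K (.negSucc 111262011454758779)) N N) (A0 (K (.ofNat 12311022017236068))) N N)) (A1 (A1 (A1 (K (.ofNat 11734257741018804))))))⟩,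
  ⟨.x, T1, (B (B (B (B N N (K (.ofNat 30929430670194564)) (K (.ofNat 20967294729568548))) (B N N (K (.ofNat 25560637585192032)) (K (.negSucc 2981701779804791))) (B (K (.ofNat 8037033796908792)) (K (.ofNat 63742681590934104)) N N) (A1 (K (.ofNat 4684998012641640)))) (B (B N N (K (.ofNat 73377155020565496)) (K (.negSucc 51918159946219475))) (B N N (K (.ofNat 95708583111523548)) (K (.ofNat 66870633127913592))) (B (K (.negSucc 8356198188837311)) (K (.negSucc 133666987177250603)) N N) (A1 (K (.ofNat 36744544694121048)))) (B (B (K (.ofNat 25578123941479896)) (K (.ofNat 38282764445986248)) N N) (A0 (K (.ofNat 27091700669785608))) N N) N) (B (B (B N N (K (.ofNat 39365127397833216)) (K (.negSucc 689272259034611))) (B N N (K (.ofNat 95186664232904580)) (K (.ofNat 25293771208081956))) (B (K (.negSucc 22235760638823887)) (K (.negSucc 81418111029838295)) N N) (A1 (K (.ofNat 16245544231536372)))) (B (B N N (K (.ofNat 3880083090695976)) (K (.negSucc 59132343946818419)))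 (B N N (K (.ofNat 42150216962033688)) (K (.negSucc 8836598154115475))) (B (K (.negSucc 44825924178558323)) (K (.negSucc 81573272423016731)) N N) (A1 (K (.negSucc 8510802618404123)))) (B (B (K (.ofNat 50166978335169048)) (K (.ofNat 7857532126412496)) N N) (A0 (K (.ofNat 44089172299990512))) N N) (A1 (A1 (K (.ofNat 4977555417795888))))) (A0 (B (B (K (.negSucc 143286170689127087)) (K (.negSucc 89349394501385639)) N N) (A0 (K (.negSucc 66855556468814327))) N N)) N)⟩,
  ⟨.x, T2, (B (B (B (B (K (.negSucc 55582420619864063)) (K (.ofNat 164295316022512800)) N N) (B (K (.ofNat 60621620519943552)) (K (.ofNat 101988418542233544)) N N) N N) (B (B (K (.negSucc 116729045783871263)) (K (.ofNat 130523804420068212)) N N) (B (K (.ofNat 45716950966476492)) (K (.ofNat 67881568369808376)) N N) N N) N N) (B (B (B (K (.negSucc 96110222372627939)) (K (.ofNat 38746932418295604)) N N) (B (K (.ofNat 39488748178358304)) (K (.ofNat 46452281391501876)) N N) N N) (B (A0 (K (.negSucc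 7476647768312543))) (A1 (K (.negSucc 5643685406457647))) N N) N N) N N)⟩,
  ⟨.z, T0, (A0 (B (B (B (K (.negSucc 28639886690454647)) (K (.ofNat 51237400882353000)) N N) (B (K (.ofNat 34001077555813308)) (K (.ofNat 9893350624430520)) N N) N N) (A0 (B (K (.negSucc 31656049676963675)) (K (.ofNat 3441132075903420)) N N)) N N))⟩,
  ⟨.x, T4, (B (B N N (B N N (K (.ofNat 4623775031836332)) (K (.ofNat 7673579319234180))) (A3 (K (.negSucc 4671572803433087)))) (B N N (B N N (K (.ofNat 3629050342231986)) (K (.ofNat 4942804584735414))) (A3 (K (.negSucc 79949552548745)))) (B (B N N (K (.ofNat 11527325079598476)) (K (.ofNat 5385510656534724))) (B N N (K (.negSucc 2733290711592977)) (K (.negSucc 9403119913947197))) (A0 (K (.negSucc 684373862808935))) N) (B N (A3 (K (.ofNat 1534006144614354))) N (A1 (K (.negSucc 188975935473335)))))⟩,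
  ⟨.x, T5, (B N (B N (B N N (K (.ofNat 10731848248256688)) (K (.ofNat 3455299563765228))) N (A1 (K (.negSucc 2349943212698855)))) N (A1 (A1 (K (.negSucc 647072888261255)))))⟩,
  ⟨.x, T6, (B (B N N (B N N (K (.ofNat 181022198641200)) (K (.ofNat 14987858327668242))) (A3 (K (.ofNat 10110022024036698)))) (B N N (B N N (K (.ofNat 12568924720081758)) (K (.ofNat 9400322864521194))) (A3 (K (.ofNat 9052238021266398)))) (B (B N N (K (.negSucc 7473454061039)) (K (.ofNat 3867687518469192))) (B N N (K (.negSucc 16277626236179309)) (K (.negSucc 1339556643484265))) (A0 (K (.ofNat 1013385293993016))) (A1 (K (.ofNat 30219437183564928)))) (B N (A3 (K (.ofNat 6160955138459274))) N (A1 (K (.ofNat 1781719016103072)))))⟩,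
  ⟨.x, T7, (B (B (B N N (K (.negSucc 461186225474831)) (K (.ofNat 31122722879363880))) (B N N (K (.negSucc 15410059122811463)) (K (.negSucc 7797606137657699))) (B (K (.ofNat 3917055407808816)) (K (.ofNat 10635976906509600)) N N) (A1 (K (.ofNat 5381023787704368)))) (B (B N N (K (.ofNat 9720818505884592)) (K (.negSucc 15817143843286799))) (B N N (K (.ofNat 2202997175240364)) (K (.negSucc 20900179235156711))) (B (K (.negSucc 24062453392331303)) (K (.negSucc 20830283046897299)) N N) (A1 (K (.ofNat 4210590253240296)))) (B (B (K (.ofNat 4011614134650108)) (K (.negSucc 2582259208648451)) N N) (A0 (K (.ofNat 25971992905217760))) N N) (A1 (A1 (K (.ofNat 11433972866428188)))))⟩,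
  ⟨.x, T8, (B (B (B N N (K (.ofNat 813094846363224)) (K (.ofNat 43475501527793964))) (B N N (K (.negSucc 34214315501967179)) (K (.negSucc 30537243785848439))) (B (K (.ofNat 3167586342959976)) (K (.ofNat 62785775206531404)) N N) (A1 (K (.negSucc 22187685079272059)))) (B (B N N (K (.negSucc 3001737023658275)) (K (.negSucc 39259272289977587))) (B N N (K (.negSucc 781542893966855)) (K (.negSucc 12116733277211867))) (B (K (.negSucc 14465768544330047)) (K (.negSucc 46392115619967083)) N N) (A1 (K (.ofNat 202453448311440)))) (B (B (K (.ofNat 3406242399059988)) (K (.ofNat 26302450720638060)) N N) (A0 (K (.ofNat 41666514818587164))) N N) (A1 (A1 (K (.ofNat 10518669325834776)))))⟩,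
  ⟨.x, T9, (A0 (B (B (K (.negSucc 1697352761045231)) (K (.ofNat 17382702436684056)) N N) (B (K (.ofNat 12963931497986220)) (K (.ofNat 1488657826097604)) N N) N N))⟩,
  ⟨.x, T10, (A1 (B (B N N (K (.negSucc 23608841415396287)) (K (.negSucc 267769983233399))) (B N N (K (.negSucc 1481310465135191)) (K (.ofNat 6663302438277432))) (A0 (K (.ofNat 1306093482417456))) (A1 (K (.negSucc 3587952235656383)))))⟩,
  ⟨.x, T11, (A1 (B (B (K (.negSucc 24452527873730543)) (K (.negSucc 5809839997117103)) N N) (B (K (.negSucc 3952285763948135)) (K (.ofNat 5848335911652336)) N N) N N))⟩,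
  ⟨.x, T28, (A3 (A3 (K (.negSucc 331297473899495))))⟩,
  ⟨.x, T29, (B N (A3 (K (.negSucc 2249367985082783))) N (A1 (K (.ofNat 803151197726760))))⟩,
  ⟨.x, T12, (B N N (B N N (K (.ofNat 281131330128492)) (K (.negSucc 2412321286718369))) (A3 (K (.ofNat 2708245847309070))))⟩,
  ⟨.x, T13, (B (B N N (K (.ofNat 489567614287140)) (K (.ofNat 864203412320676))) (B N N (K (.negSucc 4870782967255631)) (K (.negSucc 8019430726372883))) (B (K (.negSucc 2251062130217039)) (K (.ofNat 7734862009598976)) N N) (A1 (K (.negSucc 7097579022325175))))⟩,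
  ⟨.x, T14, (B (B N N (K (.negSucc 1564668633298427)) (K (.negSucc 4316092101140399))) (B N N (K (.negSucc 2253967029166355)) (K (.negSucc 2663524436729003))) (B (K (.negSucc 2070974233333151)) (K (.ofNat 1932362777304000)) N N) (A1 (K (.negSucc 5122645635194603))))⟩,
  ⟨.x, T20, (A0 (B (K (.negSucc 4011614134650107)) (K (.ofNat 3937656317846796)) N N))⟩,
  ⟨.x, T30, (B (B N N (K (.negSucc 1664409419001671)) (K (.negSucc 7299639729415739))) N (A0 (K (.ofNat 1345244168198340))) N)⟩,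
  ⟨.x, T24, (A0 (A0 (K (.ofNat 1568315147505516))))⟩,
  ⟨.x, T31, (B N (A3 (K (.negSucc 608806854155303))) N (A1 (K (.negSucc 1403990030461031))))⟩,
  ⟨.x, T32, (B N (A3 (K (.negSucc 3054105537251519))) N (A1 (K (.ofNat 1688684616687384))))⟩,
  ⟨.x, T15, (B (B (K (.ofNat 3882576521110392)) (K (.ofNat 24111879093792)) N N) (B (K (.ofNat 542368914458112)) (K (.negSucc 4246968131516375)) N N) N N)⟩,
  ⟨.x, T33, (A1 (A1 (K (.negSucc 5541113908038887))))⟩,
  ⟨.x, T16, (B N N (K (.negSucc 433133926350047)) (K (.ofNat 801695190568608)))⟩,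
  ⟨.x, T18, (B N N (K (.negSucc 1067795071142435)) (K (.ofNat 723420314680644)))⟩,
  ⟨.x, T34, (A2 (K (.ofNat 468492173343684)))⟩,
  ⟨.x, T35, (A3 (K (.negSucc 466850793596291)))⟩,
  ⟨.x, T36, (A0 (K (.ofNat 78691914594720)))⟩,
  ⟨.z, T16, (A0 (K (.negSucc 266562412068959)))⟩,
  ⟨.z, T18, (A0 (K (.negSucc 565301204459711)))⟩,
  ⟨.x, T22, (K (.ofNat 41431439564928))⟩,
  ⟨.x, T26, (K (.ofNat 160040438627328))⟩,
  ⟨.z, T17, (K (.negSucc 29658089502719))⟩] c_10 c_11 c_12 c_13 .nil .nil)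

def c_200 : Cert := (.node [⟨.x, .z, (B (B (B (K (.ofNat 43263002745486972)) (K (.negSucc 41526543051994139)) N N) (B (K (.ofNat 38011700881913976)) (K (.ofNat 22480958743138644)) N N) N N) (B (B (K (.ofNat 44089488483299280)) (K (.negSucc 72636036354411515)) N N) (B (K (.negSucc 124955325335363711)) (K (.ofNat 98454623375279892)) N N) N N) N N)⟩,
  ⟨.x, T0, (B (B (K (.negSucc 65568245683120655)) (K (.ofNat 62627129105592072)) N N) (B (K (.negSucc 37052735034595979)) (K (.negSucc 28516905536298815)) N N) N N)⟩,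
  ⟨.x, T1, (B (B (K (.negSucc 54249894380400179)) (K (.negSucc 1479995964973259)) N N) (B (K (.negSucc 44225505852202499)) (K (.negSucc 37345977968747951)) N N) N N)⟩,
  ⟨.x, T4, (B N N (K (.ofNat 9936104431981560)) (K (.ofNat 1668832644987060)))⟩,
  ⟨.x, T5, (A1 (K (.ofNat 570421631079720)))⟩,
  ⟨.x, T6, (B N N (K (.negSucc 5522964547268657)) (K (.ofNat 10198165958030568)))⟩,
  ⟨.x, T7, (B (K (.negSucc 124843497967549703)) (K (.ofNat 37031028844611816)) N N)⟩,
  ⟨.x, T8, (B (K (.negSucc 70007390465644379)) (K (.negSucc 28038656687517923)) N N)⟩,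
  ⟨.x, T10, (A1 (K (.negSucc 3415013747698391)))⟩,
  ⟨.x, T29, (K (.negSucc 687078379584743))⟩,
  ⟨.x, T13, (K (.ofNat 37761386033939904))⟩,
  ⟨.x, T14, (K (.negSucc 13175861013397151))⟩,
  ⟨.x, T30, (K (.ofNat 2932477953855324))⟩,
  ⟨.x, T31, (K (.negSucc 1005896275675199))⟩,
  ⟨.x, T32, (K (.ofNat 482535793843068))⟩] (.node [⟨.x, .z, (B (B (K (.ofNat 65235184765215360)) (K (.ofNat 14454464521172676)) N N) (B (K (.negSucc 19313160456043859)) (K (.ofNat 15257358320228220)) N N) N N)⟩,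
  ⟨.x, T0, (B (K (.ofNat 55366321325944944)) (K (.negSucc 51172467810828083)) N N)⟩,
  ⟨.x, T1, (B (K (.negSucc 9937030465650371)) (K (.negSucc 257052390301391)) N N)⟩,
  ⟨.x, T5, (K (.ofNat 1046069930730300))⟩,
  ⟨.x, T7, (K (.negSucc 32971419975814907))⟩,
  ⟨.x, T8, (K (.ofNat 156519652611924))⟩,
  ⟨.x, T10, (K (.ofNat 3357721092096))⟩] (.node [⟨.x, .z, (B (K (.ofNat 11355293319235488)) (K (.ofNat 19147036220399556)) N N)⟩,
  ⟨.x, T0, (K (.negSucc 17100504380054927))⟩,
  ⟨.x, T1, (K (.negSucc 371541889920851))⟩] (.node [⟨.x, .z, (K (.negSucc 1727313413723939))⟩] .nil .nil .nil .nil .nil .nil) (.node [⟨.x, .z, (K (.negSucc 12841742956790747))⟩] .nil .nil .nil .nil .nil .nil) .nil .nil .nil .nil) (.node [⟨.x, .z, (B (K (.negSucc 190859892957369383)) (K (.negSucc 151659025675069919)) N N)⟩,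
  ⟨.x, T0, (K (.negSucc 10495501526420147))⟩,
  ⟨.x, T1, (K (.ofNat 203841430741370184))⟩] (.node [⟨.x, .z, (K (.negSucc 261084829967071823))⟩] .nil .nil .nil .nil .nil .nil) (.node [⟨.x, .z, (K (.ofNat 10274284478632776))⟩] .nil .nil .nil .nil .nil .nil) .nil .nil .nil .nil) .nil .nil .nil .nil) (.node [⟨.x, .z, (B (B (K (.negSucc 23701878683533931)) (K (.negSucc 12559524138352883)) N N) (B (K (.ofNat 169806318701006148)) (K (.negSucc 113498543076592967)) N N) N N)⟩,
  ⟨.x, T0, (B (K (.negSucc 22456125150386423)) (K (.negSucc 2287148781583427)) N N)⟩,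
  ⟨.x, T1, (B (K (.negSucc 25970618979751571)) (K (.ofNat 13478389420777512)) N N)⟩,
  ⟨.x, T5, (K (.ofNat 46577888122204068))⟩,
  ⟨.x, T7, (K (.negSucc 78963563809507103))⟩,
  ⟨.x, T8, (K (.negSucc 102210669778077251))⟩,
  ⟨.x, T10, (K (.negSucc 41790209085251591))⟩] (.node [⟨.x, .z, (B (K (.negSucc 159483617354923511)) (K (.negSucc 252803954296813163)) N N)⟩,
  ⟨.x, T0, (K (.ofNat 134915750409877836))⟩,
  ⟨.x, T1, (K (.ofNat 198188802366035544))⟩] (.node [⟨.x, .z, (K (.negSucc 202340128914093407))⟩] .nil .nil .nil .nil .nil .nil) (.node [⟨.x, .z, (K (.ofNat 95075364986573664))⟩] .nil .nil .nil .nil .nil .nil) .nil .nil .nil .nil) (.node [⟨.x, .z, (B (K (.negSucc 249343100211163895)) (K (.negSucc 192409545453242459)) N N)⟩,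
  ⟨.x, T0, (K (.ofNat 39866347829624148))⟩,
  ⟨.x, T1, (K (.ofNat 255711776992772268))⟩] (.node [⟨.x, .z, (K (.negSucc 129733247873110559))⟩] .nil .nil .nil .nil .nil .nil) (.node [⟨.x, .z, (K (.ofNat 69598801116399996))⟩] .nil .nil .nil .nil .nil .nil) .nil .nil .nil .nil) .nil .nil .nil .nil) (.node [⟨.x, T4, (K (.ofNat 261680240916066))⟩,
  ⟨.x, T6, (K (.negSucc 12242448817814585))⟩] .nil .nil .nil .nil .nil .nil) (.node [⟨.x, T4, (K (.ofNat 221918509039557834))⟩,
  ⟨.x, T6, (K (.ofNat 196216385764331394))⟩] .nil .nil .nil .nil .nil .nil) .nil .nil)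

def c_201 : Cert := (.node [⟨.x, .z, (B (B (B (K (.negSucc 502107959297753003)) (K (.negSucc 343741024710843647)) N N) (B (K (.negSucc 689288087892090455)) (K (.ofNat 168614235140208816)) N N) N N) (B (B (K (.negSucc 371663558545016303)) (K (.negSucc 391247859759974531)) N N) (B (K (.negSucc 125313407073456587)) (K (.ofNat 307606576892100360)) N N) N N) N N)⟩,
  ⟨.x, T0, (B (B (K (.negSucc 36329233526611703)) (K (.ofNat 260440493206872720)) N N) (B (K (.negSucc 136870116361035119)) (K (.negSucc 34483631883330083)) N N) N N)⟩,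
  ⟨.x, T1, (B (B (K (.ofNat 466392718460975964)) (K (.ofNat 297256756780894428)) N N) (B (K (.ofNat 784889153715646980)) (K (.ofNat 56720461408125732)) N N) N N)⟩,
  ⟨.x, T4, (B N N (K (.ofNat 171718528688025186)) (K (.ofNat 44720664369768786)))⟩,
  ⟨.x, T5, (A1 (K (.negSucc 93801110789978927)))⟩,
  ⟨.x, T6, (B N N (K (.negSucc 98804241983359121)) (K (.ofNat 132079382371608042)))⟩,
  ⟨.x, T7, (B (K (.ofNat 107813948289511296)) (K (.ofNat 387184745873879016)) N N)⟩,
  ⟨.x, T8, (B (K (.ofNat 122994722962862352)) (K (.negSucc 6895606656392579)) N N)⟩,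
  ⟨.x, T10, (A1 (K (.negSucc 125061720522067055)))⟩,
  ⟨.x, T29, (K (.ofNat 119557819095603168))⟩,
  ⟨.x, T13, (K (.ofNat 8933783695116084))⟩,
  ⟨.x, T14, (K (.negSucc 12144128959984139))⟩,
  ⟨.x, T30, (K (.ofNat 110323493589167292))⟩,
  ⟨.x, T31, (K (.negSucc 54303349853796119))⟩,
  ⟨.x, T32, (K (.ofNat 150519197505585972))⟩] (.node [⟨.x, .z, (B (B (K (.negSucc 343165161967864067)) (K (.negSucc 185390543289146999)) N N) (B (K (.negSucc 155458546807524155)) (K (.ofNat 425761744640937936)) N N) N N)⟩,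
  ⟨.x, T0, (B (K (.ofNat 212483834993999604)) (K (.negSucc 249485230144591643)) N N)⟩,
  ⟨.x, T1, (B (K (.negSucc 171638369851919711)) (K (.negSucc 40323197281175423)) N N)⟩,
  ⟨.x, T5, (K (.ofNat 108215447645990832))⟩,
  ⟨.x, T7, (K (.ofNat 261727729922416716))⟩,
  ⟨.x, T8, (K (.negSucc 121686188771514779))⟩,
  ⟨.x, T10, (K (.negSucc 37764228146921555))⟩] (.node [⟨.x, .z, (B (K (.ofNat 540361704001027020)) (K (.ofNat 483757178981443164)) N N)⟩,
  ⟨.x, T0, (K (.negSucc 269353760946033287))⟩,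
  ⟨.x, T1, (K (.negSucc 440977229280614711))⟩] (.node [⟨.x, .z, (K (.ofNat 500516412192561240))⟩] .nil .nil .nil .nil .nil .nil) (.node [⟨.x, .z, (K (.ofNat 94849457329785480))⟩] .nil .nil .nil .nil .nil .nil) .nil .nil .nil .nil) (.node [⟨.x, .z, (B (K (.negSucc 331979878755273923)) (K (.negSucc 236891167269013319)) N N)⟩,
  ⟨.x, T0, (K (.negSucc 311261387450277431))⟩,
  ⟨.x, T1, (K (.ofNat 477181564876057944))⟩] (.node [⟨.x, .z, (K (.negSucc 33782442696190775))⟩] .nil .nil .nil .nil .nil .nil) (.node [⟨.x, .z, (K (.negSucc 58430041377805439))⟩] .nil .nil .nil .nil .nil .nil) .nil .nil .nil .nil) .nil .nil .nil .nil) (.node [⟨.x, .z, (B (B (K (.negSucc 93623296681510511)) (K (.negSucc 61840332359208059)) N N) (B (K (.negSucc 185388367550994467)) (K (.ofNat 248518454707407360)) N N) N N)⟩,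
  ⟨.x, T0, (B (K (.ofNat 108326198877352512)) (K (.negSucc 116573354836538627)) N N)⟩,
  ⟨.x, T1, (B (K (.ofNat 72230855773932072)) (K (.ofNat 238606430688567564)) N N)⟩,
  ⟨.x, T5, (K (.negSucc 51919431585513743))⟩,
  ⟨.x, T7, (K (.ofNat 256129711823453244))⟩,
  ⟨.x, T8, (K (.ofNat 148314358809646344))⟩,
  ⟨.x, T10, (K (.ofNat 4412196172204884))⟩] (.node [⟨.x, .z, (B (K (.negSucc 364088150818336895)) (K (.ofNat 16941536189612580)) N N)⟩,
  ⟨.x, T0, (K (.negSucc 375151643723113739))⟩,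
  ⟨.x, T1, (K (.ofNat 326668696330886448))⟩] (.node [⟨.x, .z, (K (.negSucc 116741126258456699))⟩] .nil .nil .nil .nil .nil .nil) (.node [⟨.x, .z, (K (.negSucc 53370769438081115))⟩] .nil .nil .nil .nil .nil .nil) .nil .nil .nil .nil) (.node [⟨.x, .z, (B (K (.negSucc 275963898274994579)) (K (.negSucc 423513855095951759)) N N)⟩,
  ⟨.x, T0, (K (.ofNat 86317315076041476))⟩,
  ⟨.x, T1, (K (.ofNat 187163823070469280))⟩] (.node [⟨.x, .z, (K (.negSucc 214929849665651483))⟩] .nil .nil .nil .nil .nil .nil) (.node [⟨.x, .z, (K (.negSucc 231953053266772067))⟩] .nil .nil .nil .nil .nil .nil) .nil .nil .nil .nil) .nil .nil .nil .nil) (.node [⟨.x, T4, (K (.negSucc 89404815212761061))⟩,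
  ⟨.x, T6, (K (.negSucc 361431884607149621))⟩] .nil .nil .nil .nil .nil .nil) (.node [⟨.x, T4, (K (.ofNat 24965877047912136))⟩,
  ⟨.x, T6, (K (.ofNat 34119639557101896))⟩] .nil .nil .nil .nil .nil .nil) .nil .nil)

def c_20 : Cert := (.node [⟨.x, .z, (B (B (B (B (K (.negSucc 131622703789825163)) (K (.ofNat 146364585747747780)) N N) (B (K (.negSucc 158107527060217055)) (K (.ofNat 156245632876019316)) N N) N N) (B (B (K (.negSucc 40936387195776323)) (K (.ofNat 365031380069008380)) N N) (B (K (.ofNat 290134998676791492)) (K (.ofNat 224857525405574796)) N N) N N) N N) (B (B (B (K (.ofNat 66929314907487900)) (K (.ofNat 217240839560125080)) N N) (B (K (.ofNat 158295392335842300)) (K (.ofNat 40684165038536964)) N N) N N) (B (A0 (K (.ofNat 54113435445785604))) (A1 (K (.ofNat 73331279737243332))) N N) N N) N N)⟩,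
  ⟨.x, T0, (B (B (B (K (.ofNat 57165674534255700)) (K (.negSucc 72934309913591615)) N N) (B (K (.ofNat 184551479309926092)) (K (.negSucc 62287133680049795)) N N) N N) (B (B (K (.ofNat 65537700636876216)) (K (.negSucc 104608748807317691)) N N) (B (K (.ofNat 169855525956427248)) (K (.negSucc 98834031631700315)) N N) N N) N N)⟩,
  ⟨.x, T1, (B (B (B (K (.ofNat 11509832401608828)) (K (.ofNat 54235802923438164)) N N) (B (K (.negSucc 31907714294362283)) (K (.ofNat 43533613892382348)) N N) N N) (B (B (K (.ofNat 47556966417141384)) (K (.ofNat 56606624977180068)) N N) (B (K (.negSucc 186917786780059103)) (K (.ofNat 6099264695044584)) N N) N N) N N)⟩,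
  ⟨.x, T4, (B (B N N (K (.ofNat 18907675605109452)) (K (.negSucc 6501360159902075))) (B N N (K (.ofNat 21700224999921510)) (K (.negSucc 1881945835945853))) (B (K (.negSucc 25226918409546461)) (K (.negSucc 22411882772713013)) N N) (A1 (K (.negSucc 2529689128922297))))⟩,
  ⟨.x, T5, (A1 (A1 (K (.negSucc 1300652930511815))))⟩,
  ⟨.x, T6, (B (B N N (K (.negSucc 4558699301111297)) (K (.ofNat 26594049485292450))) (B N N (K (.negSucc 60430513796415209)) (K (.ofNat 10087413285142704))) (B (K (.ofNat 22954300871497086)) (K (.ofNat 44437660380684732)) N N) (A1 (K (.ofNat 54414888885465864))))⟩,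
  ⟨.x, T7, (B (B (K (.negSucc 2915113581797507)) (K (.negSucc 75334641456042359)) N N) (B (K (.negSucc 79799582271345887)) (K (.negSucc 25402082054097839)) N N) N N)⟩,
  ⟨.x, T8, (B (B (K (.negSucc 61928379899828819)) (K (.ofNat 7050465335776716)) N N) (B (K (.negSucc 175514878878436103)) (K (.ofNat 7032962259315720)) N N) N N)⟩,
  ⟨.x, T10, (A1 (B (K (.negSucc 44897231108410547)) (K (.ofNat 8852160110947020)) N N))⟩,
  ⟨.x, T28, (A3 (K (.negSucc 2205232341065375)))⟩,
  ⟨.x, T29, (A1 (K (.ofNat 1567525819601952)))⟩,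
  ⟨.x, T12, (B N N (K (.ofNat 2841825421907682)) (K (.negSucc 10570366306164167)))⟩,
  ⟨.x, T13, (B (K (.ofNat 3007539486262836)) (K (.negSucc 642819722389235)) N N)⟩,
  ⟨.x, T14, (B (K (.ofNat 3889984945876848)) (K (.ofNat 1949643579204216)) N N)⟩,
  ⟨.x, T30, (A0 (K (.ofNat 8904972277122516)))⟩,
  ⟨.x, T31, (A1 (K (.ofNat 613969762489272)))⟩,
  ⟨.x, T32, (A1 (K (.ofNat 2207857991908716)))⟩,
  ⟨.x, T16, (K (.ofNat 1313294844750336))⟩,
  ⟨.x, T18, (K (.ofNat 1294909210830564))⟩,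
  ⟨.x, T34, (K (.ofNat 9573329965421376))⟩,
  ⟨.x, T43, (K (.ofNat 2702874400950528))⟩,
  ⟨.x, T45, (K (.ofNat 525056130510912))⟩,
  ⟨.x, T35, (K (.negSucc 608233036803587))⟩] c_200 c_201 (.node [⟨.x, T4, (B (K (.negSucc 13788503924998907)) (K (.negSucc 1027591819195241)) N N)⟩,
  ⟨.x, T6, (B (K (.negSucc 40124538151180433)) (K (.negSucc 37261718446070873)) N N)⟩,
  ⟨.x, T28, (K (.negSucc 2459887364998895))⟩,
  ⟨.x, T12, (K (.negSucc 5810162986707449))⟩] (.node [⟨.x, T4, (K (.ofNat 1310688177601950))⟩,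
  ⟨.x, T6, (K (.negSucc 20455876875597407))⟩] .nil .nil .nil .nil .nil .nil) (.node [⟨.x, T4, (K (.ofNat 62052948124273344))⟩,
  ⟨.x, T6, (K (.ofNat 102622999713524640))⟩] .nil .nil .nil .nil .nil .nil) .nil .nil .nil .nil) (.node [⟨.x, T4, (B (K (.ofNat 45784071419765952)) (K (.negSucc 6039271120774289)) N N)⟩,
  ⟨.x, T6, (B (K (.negSucc 45684446097095315)) (K (.negSucc 131383914059013881)) N N)⟩,
  ⟨.x, T28, (K (.ofNat 50068299760847676))⟩,
  ⟨.x, T12, (K (.negSucc 50011671837730259))⟩] (.node [⟨.x, T4, (K (.negSucc 327874819107015935))⟩,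
  ⟨.x, T6, (K (.negSucc 84572191600029167))⟩] .nil .nil .nil .nil .nil .nil) (.node [⟨.x, T4, (K (.ofNat 38519789091573930))⟩,
  ⟨.x, T6, (K (.ofNat 199410145624231206))⟩] .nil .nil .nil .nil .nil .nil) .nil .nil .nil .nil) .nil .nil)

def c_210 : Cert := (.node [⟨.x, .z, (B (B (B (K (.negSucc 367217856653203303)) (K (.negSucc 924278044286536967)) N N) (B (K (.negSucc 1091253360252937475)) (K (.negSucc 77164678183564523)) N N) N N) (B (B (K (.negSucc 245002986379561171)) (K (.negSucc 1258986848930860671)) N N) (B (K (.negSucc 1573445438372224507)) (K (.negSucc 932898825909899771)) N N) N N) N N)⟩,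
  ⟨.x, T0, (B (B (K (.negSucc 78457366730166227)) (K (.ofNat 1047315319262293228)) N N) (B (K (.ofNat 1093605901381076048)) (K (.ofNat 612201707236743512)) N N) N N)⟩,
  ⟨.x, T1, (B (B (K (.ofNat 362391951465435332)) (K (.ofNat 108169884867874816)) N N) (B (K (.ofNat 591066726984437480)) (K (.negSucc 364714364620050227)) N N) N N)⟩,
  ⟨.x, T4, (B N N (K (.negSucc 316434724333216747)) (K (.ofNat 53377911240934406)))⟩,
  ⟨.x, T5, (A1 (K (.ofNat 125131021935283112)))⟩,
  ⟨.x, T6, (B N N (K (.ofNat 21886320812529964)) (K (.ofNat 307312139532385904)))⟩,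
  ⟨.x, T7, (B (K (.negSucc 247653760100338227)) (K (.negSucc 235983379821946483)) N N)⟩,
  ⟨.x, T8, (B (K (.negSucc 111603044436974159)) (K (.negSucc 504233777598620887)) N N)⟩,
  ⟨.x, T10, (A1 (K (.ofNat 28858682584870572)))⟩,
  ⟨.x, T29, (K (.negSucc 96760582972783519))⟩,
  ⟨.x, T13, (K (.ofNat 27923096630754024))⟩,
  ⟨.x, T14, (K (.ofNat 55905327624901272))⟩,
  ⟨.x, T30, (K (.ofNat 41850230111919236))⟩,
  ⟨.x, T31, (K (.negSucc 115894480655058167))⟩,
  ⟨.x, T32, (K (.negSucc 49870278648388519))⟩] (.node [⟨.x, .z, (B (B (K (.ofNat 578720330805627668)) (K (.negSucc 165020735757803743)) N N) (B (K (.ofNat 292001644205643904)) (K (.negSucc 1107985394312479311)) N N) N N)⟩,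
  ⟨.x, T0, (B (K (.negSucc 697875001190445595)) (K (.ofNat 75750946132095276)) N N)⟩,
  ⟨.x, T1, (B (K (.negSucc 399866302408303163)) (K (.negSucc 612371144861916803)) N N)⟩,
  ⟨.x, T5, (K (.ofNat 191222819162066888))⟩,
  ⟨.x, T7, (K (.negSucc 906256073578517647))⟩,
  ⟨.x, T8, (K (.negSucc 811326048580059123))⟩,
  ⟨.x, T10, (K (.ofNat 120614668717272660))⟩] (.node [⟨.x, .z, (B (K (.ofNat 1251559855873206208)) (K (.negSucc 671279790192195323)) N N)⟩,
  ⟨.x, T0, (K (.ofNat 813780318176223328))⟩,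
  ⟨.x, T1, (K (.negSucc 431380922135589047))⟩] (.node [⟨.x, .z, (K (.ofNat 588125962905086816))⟩] .nil .nil .nil .nil .nil .nil) (.node [⟨.x, .z, (K (.ofNat 380040925488205100))⟩] .nil .nil .nil .nil .nil .nil) .nil .nil .nil .nil) (.node [⟨.x, .z, (B (K (.negSucc 288198961280720307)) (K (.ofNat 614612510824258352)) N N)⟩,
  ⟨.x, T0, (K (.ofNat 487232823358405320))⟩,
  ⟨.x, T1, (K (.negSucc 212936606545331171))⟩] (.node [⟨.x, .z, (K (.ofNat 624125679471721280))⟩] .nil .nil .nil .nil .nil .nil) (.node [⟨.x, .z, (K (.ofNat 1028544202452421704))⟩] .nil .nil .nil .nil .nil .nil) .nil .nil .nil .nil) .nil .nil .nil .nil) (.node [⟨.x, .z, (B (B (K (.negSucc 200808556479161987)) (K (.negSucc 1187134834827161835)) N N) (B (K (.negSucc 232288002072398467)) (K (.negSucc 204904782229237439)) N N) N N)⟩,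
  ⟨.x, T0, (B (K (.ofNat 302990395793255828)) (K (.ofNat 547484165023965064)) N N)⟩,
  ⟨.x, T1, (B (K (.ofNat 63513997452610768)) (K (.ofNat 655700685237031672)) N N)⟩,
  ⟨.x, T5, (K (.negSucc 312990862025955735))⟩,
  ⟨.x, T7, (K (.negSucc 28544914116091883))⟩,
  ⟨.x, T8, (K (.ofNat 354186459797554608))⟩,
  ⟨.x, T10, (K (.negSucc 400209718739609267))⟩] (.node [⟨.x, .z, (B (K (.ofNat 303361593803628360)) (K (.ofNat 895639376297956472)) N N)⟩,
  ⟨.x, T0, (K (.negSucc 866924672731697523))⟩,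
  ⟨.x, T1, (K (.ofNat 13550724839101968))⟩] (.node [⟨.x, .z, (K (.ofNat 591112944238511968))⟩] .nil .nil .nil .nil .nil .nil) (.node [⟨.x, .z, (K (.negSucc 309512779967602595))⟩] .nil .nil .nil .nil .nil .nil) .nil .nil .nil .nil) (.node [⟨.x, .z, (B (K (.ofNat 157554945626863484)) (K (.ofNat 372217221330242820)) N N)⟩,
  ⟨.x, T0, (K (.negSucc 491490869291666635))⟩,
  ⟨.x, T1, (K (.ofNat 300068739576010328))⟩] (.node [⟨.x, .z, (K (.negSucc 526120655116306487))⟩] .nil .nil .nil .nil .nil .nil) (.node [⟨.x, .z, (K (.negSucc 798455371896818943))⟩] .nil .nil .nil .nil .nil .nil) .nil .nil .nil .nil) .nil .nil .nil .nil) (.node [⟨.x, T4, (K (.ofNat 52113360669228082))⟩,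
  ⟨.x, T6, (K (.negSucc 230849009228328861))⟩] .nil .nil .nil .nil .nil .nil) (.node [⟨.x, T4, (K (.ofNat 967324385891365894))⟩,
  ⟨.x, T6, (K (.ofNat 561249849005723934))⟩] .nil .nil .nil .nil .nil .nil) .nil .nil)

def c_211 : Cert := (.node [⟨.x, .z, (B (B (B (K (.negSucc 716981208427171183)) (K (.ofNat 163793427949523092)) N N) (B (K (.negSucc 479103741825670751)) (K (.ofNat 714612037259176924)) N N) N N) (B (B (K (.negSucc 1076136310140512151)) (K (.negSucc 105900492330679283)) N N) (B (K (.ofNat 172383435001253644)) (K (.ofNat 1472429526093988084)) N N) N N) N N)⟩,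
  ⟨.x, T0, (B (B (K (.ofNat 259066501518629056)) (K (.ofNat 244893245832671436)) N N) (B (K (.negSucc 431202209061159423)) (K (.negSucc 466532460886329179)) N N) N N)⟩,
  ⟨.x, T1, (B (B (K (.ofNat 297330398916926844)) (K (.ofNat 253607732721823592)) N N) (B (K (.ofNat 536013817344667144)) (K (.ofNat 304298377110880040)) N N) N N)⟩,
  ⟨.x, T4, (B N N (K (.ofNat 484447939317993322)) (K (.negSucc 296085734455032983)))⟩,
  ⟨.x, T5, (A1 (K (.negSucc 300716090453994795)))⟩,
  ⟨.x, T6, (B N N (K (.negSucc 75083335830558733)) (K (.ofNat 333392209069159632)))⟩,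
  ⟨.x, T7, (B (K (.ofNat 617120745632164144)) (K (.ofNat 1201281102337967924)) N N)⟩,
  ⟨.x, T8, (B (K (.ofNat 178639035021387444)) (K (.ofNat 523322910437554724)) N N)⟩,
  ⟨.x, T10, (A1 (K (.negSucc 119949052703610171)))⟩,
  ⟨.x, T29, (K (.ofNat 309807666878405248))⟩,
  ⟨.x, T13, (K (.negSucc 338980182227810003))⟩,
  ⟨.x, T14, (K (.negSucc 197552467628939051))⟩,
  ⟨.x, T30, (K (.ofNat 147438785076019752))⟩,
  ⟨.x, T31, (K (.negSucc 25201851227833895))⟩,
  ⟨.x, T32, (K (.ofNat 342910675802006368))⟩] (.node [⟨.x, .z, (B (B (K (.negSucc 785570514368244555)) (K (.negSucc 498831955157494867)) N N) (B (K (.negSucc 171010475640151615)) (K (.ofNat 1617244527016126400)) N N) N N)⟩,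
  ⟨.x, T0, (B (K (.ofNat 792697620075507804)) (K (.negSucc 406554039668247295)) N N)⟩,
  ⟨.x, T1, (B (K (.negSucc 237259446525134655)) (K (.ofNat 390311147989269668)) N N)⟩,
  ⟨.x, T5, (K (.negSucc 138129948525524787))⟩,
  ⟨.x, T7, (K (.ofNat 822280224502489620))⟩,
  ⟨.x, T8, (K (.ofNat 442703899879106096))⟩,
  ⟨.x, T10, (K (.negSucc 324209968279968959))⟩] (.node [⟨.x, .z, (B (K (.ofNat 36721340243392840)) (K (.ofNat 834493338321061692)) N N)⟩,
  ⟨.x, T0, (K (.negSucc 1167666381770120035))⟩,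
  ⟨.x, T1, (K (.negSucc 184359010719413991))⟩] (.node [⟨.x, .z, (K (.ofNat 100656449165585432))⟩] .nil .nil .nil .nil .nil .nil) (.node [⟨.x, .z, (K (.negSucc 732631275377443875))⟩] .nil .nil .nil .nil .nil .nil) .nil .nil .nil .nil) (.node [⟨.x, .z, (B (K (.negSucc 147310481517034107)) (K (.negSucc 898598857843882831)) N N)⟩,
  ⟨.x, T0, (K (.negSucc 756935604795246715))⟩,
  ⟨.x, T1, (K (.ofNat 822150138034955128))⟩] (.node [⟨.x, .z, (K (.negSucc 955151559843640515))⟩] .nil .nil .nil .nil .nil .nil) (.node [⟨.x, .z, (K (.negSucc 1061255750896131503))⟩] .nil .nil .nil .nil .nil .nil) .nil .nil .nil .nil) .nil .nil .nil .nil) (.node [⟨.x, .z, (B (B (K (.negSucc 420659528969414223)) (K (.ofNat 960878247715861804)) N N) (B (K (.ofNat 122886595298316668)) (K (.ofNat 360699770768947204)) N N) N N)⟩,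
  ⟨.x, T0, (B (K (.ofNat 273051760413855052)) (K (.negSucc 482100674040187019)) N N)⟩,
  ⟨.x, T1, (B (K (.negSucc 184742920745353263)) (K (.negSucc 551617457318391211)) N N)⟩,
  ⟨.x, T5, (K (.ofNat 355251341240552624))⟩,
  ⟨.x, T7, (K (.negSucc 11013716491725639))⟩,
  ⟨.x, T8, (K (.negSucc 720097288311162579))⟩,
  ⟨.x, T10, (K (.negSucc 334848854448903647))⟩] (.node [⟨.x, .z, (B (K (.negSucc 160065911251526783)) (K (.negSucc 820115178500570987)) N N)⟩,
  ⟨.x, T0, (K (.negSucc 348384746089575))⟩,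
  ⟨.x, T1, (K (.ofNat 80814704188733592))⟩] (.node [⟨.x, .z, (K (.negSucc 11460282894909995))⟩] .nil .nil .nil .nil .nil .nil) (.node [⟨.x, .z, (K (.ofNat 261691465074837588))⟩] .nil .nil .nil .nil .nil .nil) .nil .nil .nil .nil) (.node [⟨.x, .z, (B (K (.negSucc 1273603371677302819)) (K (.negSucc 1257917581294679647)) N N)⟩,
  ⟨.x, T0, (K (.ofNat 853803569362224208))⟩,
  ⟨.x, T1, (K (.ofNat 620998634505359320))⟩] (.node [⟨.x, .z, (K (.negSucc 7598660267677583))⟩] .nil .nil .nil .nil .nil .nil) (.node [⟨.x, .z, (K (.ofNat 116102946056261724))⟩] .nil .nil .nil .nil .nil .nil) .nil .nil .nil .nil) .nil .nil .nil .nil) (.node [⟨.x, T4, (K (.negSucc 133469149105839175))⟩,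
  ⟨.x, T6, (K (.negSucc 578025120522563727))⟩] .nil .nil .nil .nil .nil .nil) (.node [⟨.x, T4, (K (.negSucc 480175107404730387))⟩,
  ⟨.x, T6, (K (.negSucc 77809735381315027))⟩] .nil .nil .nil .nil .nil .nil) .nil .nil)

def c_21 : Cert := (.node [⟨.x, .z, (B (B (B (B (K (.negSucc 337511941350683371)) (K (.ofNat 804962869472668004)) N N) (B (K (.negSucc 582403371464652947)) (K (.ofNat 1054845075680785424)) N N) N N) (B (B (K (.negSucc 986233648982302811)) (K (.ofNat 1290290977895204404)) N N) (B (K (.negSucc 115147351249115919)) (K (.ofNat 806025531234852796)) N N) N N) N N) (B (B (B (K (.ofNat 495907907492648280)) (K (.ofNat 890322802258959440)) N N) (B (K (.ofNat 1058802379736730916)) (K (.ofNat 404021550701087592)) N N) N N) (B (A0 (K (.ofNat 254378602632339416))) (A1 (K (.negSucc 184039167234019999))) N N) N N) N N)⟩,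
  ⟨.x, T0, (B (B (B (K (.ofNat 4913775966695792)) (K (.negSucc 717974785474993087)) N N) (B (K (.negSucc 215806508567580979)) (K (.negSucc 486801040995386151)) N N) N N) (B (B (K (.ofNat 461276441535472584)) (K (.negSucc 516130475781126443)) N N) (B (K (.ofNat 47847324809707108)) (K (.negSucc 191584671662454839)) N N) N N) N N)⟩,
  ⟨.x, T1, (B (B (B (K (.ofNat 272138071709960120)) (K (.negSucc 59711398934039915)) N N) (B (K (.ofNat 358595222801689244)) (K (.negSucc 281391346331036983)) N N) N N) (B (B (K (.ofNat 694333295003624416)) (K (.ofNat 24991699165354460)) N N) (B (K (.ofNat 307927740614362260)) (K (.negSucc 138873506957764823)) N N) N N) N N)⟩,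
  ⟨.x, T4, (B (B N N (K (.ofNat 243642726206113948)) (K (.ofNat 3059879457375860))) (B N N (K (.ofNat 369018450533509350)) (K (.ofNat 205262893090884244))) (B (K (.negSucc 133953397252330837)) (K (.negSucc 567028681773020865)) N N) (A1 (K (.negSucc 36547320085978099))))⟩,
  ⟨.x, T5, (A1 (A1 (K (.ofNat 3004871327030916))))⟩,
  ⟨.x, T6, (B (B N N (K (.ofNat 10954304320677144)) (K (.negSucc 340918512226618661))) (B N N (K (.negSucc 9654490438917617)) (K (.negSucc 9839622016631007))) (B (K (.ofNat 82433298022476282)) (K (.negSucc 153845636435450665)) N N) (A1 (K (.ofNat 246955633983535820))))⟩,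
  ⟨.x, T7, (B (B (K (.ofNat 85001693804506836)) (K (.negSucc 446699101285387299)) N N) (B (K (.negSucc 526475450169976131)) (K (.negSucc 413658075037211871)) N N) N N)⟩,
  ⟨.x, T8, (B (B (K (.negSucc 58817815581426299)) (K (.ofNat 2104303027922368)) N N) (B (K (.negSucc 296625541105261003)) (K (.negSucc 12529979105302315)) N N) N N)⟩,
  ⟨.x, T10, (A1 (B (K (.negSucc 71891203909211091)) (K (.ofNat 137473326575972240)) N N))⟩,
  ⟨.x, T28, (A3 (K (.ofNat 218251921640122720)))⟩,
  ⟨.x, T29, (A1 (K (.ofNat 38548281333189544)))⟩,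
  ⟨.x, T12, (B N N (K (.negSucc 47461083088839643)) (K (.negSucc 156815445274551657)))⟩,
  ⟨.x, T13, (B (K (.negSucc 24882364350818015)) (K (.ofNat 70809134178202392)) N N)⟩,
  ⟨.x, T14, (B (K (.ofNat 137517545284845852)) (K (.ofNat 96373510457288148)) N N)⟩,
  ⟨.x, T30, (A0 (K (.ofNat 77418767393035096)))⟩,
  ⟨.x, T31, (A1 (K (.ofNat 43560250891860528)))⟩,
  ⟨.x, T32, (A1 (K (.ofNat 64272994922164924)))⟩,
  ⟨.x, T16, (K (.ofNat 43760894145411744))⟩,
  ⟨.x, T18, (K (.ofNat 171789448908363804))⟩,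
  ⟨.x, T34, (K (.ofNat 173677565347925772))⟩,
  ⟨.x, T43, (K (.ofNat 38349082430671320))⟩,
  ⟨.x, T45, (K (.negSucc 56284331627825615))⟩,
  ⟨.x, T35, (K (.negSucc 4932711993483287))⟩] c_210 c_211 (.node [⟨.x, T4, (B (K (.negSucc 90558006672394645)) (K (.negSucc 113979562914440999)) N N)⟩,
  ⟨.x, T6, (B (K (.ofNat 8429467893176288)) (K (.negSucc 89196552966817407)) N N)⟩,
  ⟨.x, T28, (K (.negSucc 138376921864713139))⟩,
  ⟨.x, T12, (K (.negSucc 163753771829297677))⟩] (.node [⟨.x, T4, (K (.ofNat 96151726333688844))⟩,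
  ⟨.x, T6, (K (.negSucc 229416428190396061))⟩] .nil .nil .nil .nil .nil .nil) (.node [⟨.x, T4, (K (.ofNat 294290982857990580))⟩,
  ⟨.x, T6, (K (.ofNat 337130681755341012))⟩] .nil .nil .nil .nil .nil .nil) .nil .nil .nil .nil) (.node [⟨.x, T4, (B (K (.ofNat 41194124350745590)) (K (.ofNat 69993975249653560)) N N)⟩,
  ⟨.x, T6, (B (K (.negSucc 3699466044590693)) (K (.negSucc 169422864847721827)) N N)⟩,
  ⟨.x, T28, (K (.negSucc 28734264916069159))⟩,
  ⟨.x, T12, (K (.negSucc 60172285293844779))⟩] (.node [⟨.x, T4, (K (.negSucc 456299712115040639))⟩,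
  ⟨.x, T6, (K (.negSucc 336019101243247295))⟩] .nil .nil .nil .nil .nil .nil) (.node [⟨.x, T4, (K (.negSucc 203505886894294795))⟩,
  ⟨.x, T6, (K (.ofNat 38323771074543388))⟩] .nil .nil .nil .nil .nil .nil) .nil .nil .nil .nil) .nil .nil)

def c_22 : Cert := (.node [⟨.x, T4, (B (B (K (.negSucc 21138532998273725)) (K (.ofNat 7631190014915502)) N N) (B (K (.ofNat 2914678901705382)) (K (.ofNat 1791933211514628)) N N) N N)⟩,
  ⟨.x, T6, (B (B (K (.negSucc 65649710672722679)) (K (.ofNat 9088725711128406)) N N) (B (K (.negSucc 88765269309461261)) (K (.ofNat 11851257383940996)) N N) N N)⟩,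
  ⟨.x, T28, (A1 (K (.ofNat 1077532783857600)))⟩,
  ⟨.x, T12, (B (K (.negSucc 4748646506505341)) (K (.ofNat 2472420540938796)) N N)⟩] (.node [⟨.x, T4, (B (K (.negSucc 1240678690928711)) (K (.negSucc 1122837024835637)) N N)⟩,
  ⟨.x, T6, (B (K (.negSucc 39897293880080867)) (K (.ofNat 7623828148104630)) N N)⟩,
  ⟨.x, T28, (K (.negSucc 1786902917731847))⟩,
  ⟨.x, T12, (K (.ofNat 2219245102261278))⟩] (.node [⟨.x, T6, (K (.negSucc 4701721724482733))⟩] .nil .nil .nil .nil .nil .nil) (.node [⟨.x, T4, (K (.negSucc 120975604601730941))⟩,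
  ⟨.x, T6, (K (.negSucc 75695004302651453))⟩] .nil .nil .nil .nil .nil .nil) .nil .nil .nil .nil) (.node [⟨.x, T4, (B (K (.ofNat 6468914384478630)) (K (.ofNat 11747101674584052)) N N)⟩,
  ⟨.x, T6, (B (K (.negSucc 77639844932453033)) (K (.negSucc 122163122292223151)) N N)⟩,
  ⟨.x, T28, (K (.ofNat 63186619335304668))⟩,
  ⟨.x, T12, (K (.negSucc 27197190304684427))⟩] (.node [⟨.x, T4, (K (.negSucc 215728716302621885))⟩,
  ⟨.x, T6, (K (.ofNat 65587500846410214))⟩] .nil .nil .nil .nil .nil .nil) (.node [⟨.x, T4, (K (.negSucc 73693880671825133))⟩,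
  ⟨.x, T6, (K (.ofNat 132214876731570486))⟩] .nil .nil .nil .nil .nil .nil) .nil .nil .nil .nil) .nil .nil .nil .nil)

def c_23 : Cert := (.node [⟨.x, T4, (B (B (K (.negSucc 69010457552452205)) (K (.negSucc 156590548550683085)) N N) (B (K (.negSucc 23515385333005229)) (K (.negSucc 221264165276054207)) N N) N N)⟩,
  ⟨.x, T6, (B (B (K (.negSucc 23652355653709313)) (K (.ofNat 313611058212751740)) N N) (B (K (.ofNat 11554506432826350)) (K (.ofNat 227610150966608340)) N N) N N)⟩,
  ⟨.x, T28, (A1 (K (.negSucc 181705968805936007)))⟩,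
  ⟨.x, T12, (B (K (.negSucc 23038216257669647)) (K (.ofNat 158440621408634166)) N N)⟩] (.node [⟨.x, T4, (B (K (.negSucc 93536462000005373)) (K (.negSucc 474699487339727453)) N N)⟩,
  ⟨.x, T6, (B (K (.ofNat 1177856183705492004)) (K (.ofNat 574762094744643540)) N N)⟩,
  ⟨.x, T28, (K (.negSucc 609455788147354595))⟩,
  ⟨.x, T12, (K (.ofNat 850452947140119078))⟩] (.node [⟨.x, T4, (K (.negSucc 388146665030121773))⟩,
  ⟨.x, T6, (K (.negSucc 1341878671305744263))⟩] .nil .nil .nil .nil .nil .nil) (.node [⟨.x, T4, (K (.ofNat 512411896773607110))⟩,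
  ⟨.x, T6, (K (.negSucc 924064528696181081))⟩] .nil .nil .nil .nil .nil .nil) .nil .nil .nil .nil) (.node [⟨.x, T4, (B (K (.negSucc 110219665750472123)) (K (.ofNat 171256167882466296)) N N)⟩,
  ⟨.x, T6, (B (K (.ofNat 66691408604293788)) (K (.negSucc 166677002341339307)) N N)⟩,
  ⟨.x, T28, (K (.negSucc 53818155499070591))⟩,
  ⟨.x, T12, (K (.ofNat 16509116928247020))⟩] (.node [⟨.x, T4, (K (.ofNat 15310790544498372))⟩,
  ⟨.x, T6, (K (.ofNat 58405965165575412))⟩] .nil .nil .nil .nil .nil .nil) (.node [⟨.x, T4, (K (.negSucc 32221014428534903))⟩,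
  ⟨.x, T6, (K (.negSucc 16497774595472939))⟩] .nil .nil .nil .nil .nil .nil) .nil .nil .nil .nil) .nil .nil .nil .nil)

def c_2 : Cert := (.node [⟨.x, .z, (B (B (B (B (B (K (.negSucc 122733128503056203)) (K (.negSucc 455407988990727779)) N N) (B (K (.negSucc 252688451102012687)) (K (.negSucc 532960578411896879)) N N) N N) (B (B (K (.ofNat 149498110509432552)) (K (.negSucc 417708998341684727)) N N) (B (K (.negSucc 224624382208919783)) (K (.negSucc 484388666123676887)) N N) N N) N N) (B (B (B (K (.negSucc 222064742658353447)) (K (.negSucc 303766073697687971)) N N) (B (K (.negSucc 613376135922025559)) (K (.negSucc 387809987375631911)) N N) N N) (B (A0 (K (.ofNat 87166268972268864))) (A1 (K (.negSucc 107729802632683727))) N N) N N) N N) (B (B (B (B (K (.negSucc 60660540657307751)) (K (.negSucc 78517712332157195)) N N) (B (K (.ofNat 39760185779752284)) (K (.negSucc 226454629920516479)) N N) N N) (B (A1 (K (.negSucc 110045099622969755))) (A0 (K (.ofNat 180217695836230164)))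 N N) N N) (B (A0 (A0 (K (.negSucc 61989289931779727)))) (A1 (A1 (K (.ofNat 79641015416578476)))) N N) N N) N N)⟩,
  ⟨.x, T0, (B (B (B (B (K (.negSucc 110389616626934819)) (K (.negSucc 198337584578004395)) N N) (B (K (.negSucc 378979406859751319)) (K (.ofNat 40130440505020908)) N N) N N) (B (B (K (.ofNat 78469883562100800)) (K (.ofNat 19391903678085288)) N N) (B (K (.negSucc 193275191311837739)) (K (.negSucc 12129959109735767)) N N) N N) N N) (B (B (B (K (.ofNat 92223356772224076)) (K (.negSucc 37162329573051647)) N N) (B (K (.negSucc 84647363122139663)) (K (.negSucc 96593907535959287)) N N) N N) (B (A0 (K (.ofNat 61756020715445028))) (A1 (K (.negSucc 7738722989140079))) N N) N N) N N)⟩,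
  ⟨.x, T1, (B (B (B (B (K (.ofNat 122733548218192716)) (K (.ofNat 266026442740602012)) N N) (B (K (.ofNat 136347491808560760)) (K (.ofNat 276451848615762120)) N N) N N) (B (B (K (.negSucc 21902138212719407)) (K (.ofNat 410340407798229300)) N N) (B (K (.ofNat 169388710336050660)) (K (.ofNat 317071492467359280)) N N) N N) N N) (B (B (B (K (.ofNat 313284363850994844)) (K (.ofNat 205482762886464000)) N N) (B (K (.ofNat 476097254227932372)) (K (.ofNat 79680290831767080)) N N) N N) (B (A0 (K (.negSucc 34344389117257211))) (A1 (K (.ofNat 80961984430063464))) N N) N N) N N)⟩,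
  ⟨.x, T4, (B (B (B N N (K (.negSucc 6763558625209511)) (K (.negSucc 21009710649892691))) (B N N (K (.ofNat 97820049903276540)) (K (.ofNat 98814391387635168))) (B (K (.ofNat 47670548641659468)) (K (.negSucc 132526032834078869)) N N) (A1 (K (.ofNat 12354178971442896)))) (B (B N N (K (.negSucc 17183684577020345)) (K (.ofNat 97731468941049720))) (B N N (K (.negSucc 33742467306908639)) (K (.ofNat 1971445623872760))) (B (K (.ofNat 47879035708613130)) (K (.ofNat 75967316253585036)) N N) (A1 (K (.negSucc 1366114611586241)))) (B (B (K (.ofNat 11068300636233372)) (K (.negSucc 89831553175816661)) N N) (A0 (K (.negSucc 162961080103182143))) N N) (A1 (A1 (K (.ofNat 1022941823343090)))))⟩,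
  ⟨.x, T5, (A1 (A1 (B (K (.ofNat 53068166475346512)) (K (.ofNat 5216462912006892)) N N)))⟩,
  ⟨.x, T6, (B (B (B N N (K (.negSucc 57306183183647)) (K (.ofNat 65048830202679750))) (B N N (K (.negSucc 58364070605525327)) (K (.negSucc 82477717132998221))) (B (K (.ofNat 583042242283200)) (K (.ofNat 123556009780450044)) N N) (A1 (K (.negSucc 104332791708961157)))) (B (B N N (K (.ofNat 68777816248756398)) (K (.negSucc 34909477498308755))) (B N N (K (.ofNat 39244020678832452)) (K (.negSucc 5065593482955599))) (B (K (.ofNat 43597663187006838)) (K (.negSucc 40006591077486179)) N N) (A1 (K (.negSucc 23660722911624497)))) (B (B (K (.ofNat 643499015796000)) (K (.ofNat 75471408189900954)) N N) (A0 (K (.ofNat 7966451294694732))) N N) (A1 (A1 (K (.negSucc 15400866695710817)))))⟩,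
  ⟨.x, T7, (B (B (B (K (.negSucc 10714759782744779)) (K (.negSucc 28687352307411923)) N N) (B (K (.negSucc 134117850332162339)) (K (.ofNat 1285470517381680)) N N) N N) (B (B (K (.negSucc 103808575847868695)) (K (.negSucc 10270732471830851)) N N) (B (K (.negSucc 199810193256972395)) (K (.ofNat 33066732352402812)) N N) N N) N N)⟩,
  ⟨.x, T8, (B (B (B (K (.negSucc 9893690223068483)) (K (.ofNat 39679320045128400)) N N) (B (K (.negSucc 40144545942351395)) (K (.ofNat 43530862595479560)) N N) N N) (B (B (K (.negSucc 234260313695201723)) (K (.ofNat 63440863783044804)) N N) (B (K (.negSucc 194277718856424335)) (K (.ofNat 77901459266046276)) N N) N N) N N)⟩,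
  ⟨.x, T10, (A1 (B (B (K (.negSucc 84520674736257479)) (K (.ofNat 15576186591079548)) N N) (B (K (.ofNat 2541124638431568)) (K (.ofNat 4245894377150664)) N N) N N))⟩,
  ⟨.x, T28, (B N (A3 (K (.ofNat 1971445623872760))) N (A1 (K (.negSucc 1137533499628175))))⟩,
  ⟨.x, T29, (A1 (A1 (K (.negSucc 3082735006425479))))⟩,
  ⟨.x, T12, (B (B N N (K (.ofNat 1003303044991548)) (K (.ofNat 4065645164081130))) (B N N (K (.ofNat 20494670746806396)) (K (.ofNat 3301483037952834))) (B (K (.negSucc 630672663529607)) (K (.negSucc 17040125783164301)) N N) (A1 (K (.negSucc 15789179220603809))))⟩,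
  ⟨.x, T13, (B (B (K (.ofNat 735598788847524)) (K (.ofNat 43732786902865704)) N N) (B (K (.ofNat 42373991684882088)) (K (.ofNat 41713777422499140)) N N) N N)⟩,
  ⟨.x, T14, (B (B (K (.ofNat 381240672672384)) (K (.ofNat 684165746254788)) N N) (A0 (K (.negSucc 2508597439048259))) N N)⟩,
  ⟨.x, T30, (A0 (A0 (K (.negSucc 1329635861407391))))⟩,
  ⟨.x, T31, (A1 (A1 (K (.ofNat 870759704308032))))⟩,
  ⟨.x, T32, (A1 (A1 (K (.negSucc 3376813533388679))))⟩,
  ⟨.x, T16, (B (K (.negSucc 481528714911551)) (K (.ofNat 748402791984288)) N N)⟩,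
  ⟨.x, T18, (B (K (.negSucc 638996305136867)) (K (.ofNat 1120244360914980)) N N)⟩,
  ⟨.x, T34, (A0 (K (.ofNat 584271625857444)))⟩,
  ⟨.x, T35, (A1 (K (.negSucc 459330752121443)))⟩,
  ⟨.x, T46, (K (.ofNat 10871478229248))⟩,
  ⟨.x, T48, (K (.ofNat 538811481600))⟩,
  ⟨.x, T17, (K (.ofNat 7496939608704))⟩,
  ⟨.x, T19, (K (.ofNat 63865706808960))⟩] c_20 c_21 c_22 c_23 .nil .nil)

def c_300 : Cert := (.node [⟨.x, .z, (B (B (B (K (.negSucc 364046559716152851)) (K (.ofNat 410321987633198508)) N N) (B (K (.ofNat 315792505300844964)) (K (.ofNat 598805496247741440)) N N) N N) (B (B (K (.negSucc 431924558579646327)) (K (.ofNat 625771896625272460)) N N) (B (K (.ofNat 1478130848589406424)) (K (.ofNat 1454188553086175676)) N N) N N) N N)⟩,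
  ⟨.x, T0, (B (B (K (.ofNat 178972865569154496)) (K (.negSucc 512509327918457715)) N N) (B (K (.negSucc 1257941491899691339)) (K (.negSucc 624846980641488583)) N N) N N)⟩,
  ⟨.x, T1, (B (B (K (.ofNat 392742876311075164)) (K (.ofNat 258659149011109280)) N N) (B (K (.ofNat 486023840616548584)) (K (.ofNat 260064683304980988)) N N) N N)⟩,
  ⟨.x, T4, (B N N (K (.ofNat 557548905304987316)) (K (.negSucc 37546016711257291)))⟩,
  ⟨.x, T5, (A1 (K (.negSucc 357680213917960639)))⟩,
  ⟨.x, T6, (B N N (K (.negSucc 96479513867423469)) (K (.negSucc 41812258947097603)))⟩,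
  ⟨.x, T7, (B (K (.ofNat 795659694274621120)) (K (.ofNat 1023691710668761736)) N N)⟩,
  ⟨.x, T8, (B (K (.ofNat 468446573313654936)) (K (.ofNat 482512373378339024)) N N)⟩,
  ⟨.x, T10, (A1 (K (.negSucc 307004067697185515)))⟩,
  ⟨.x, T29, (K (.ofNat 311731077761129768))⟩,
  ⟨.x, T13, (K (.negSucc 260758571165805551))⟩,
  ⟨.x, T14, (K (.negSucc 90027176870412095))⟩,
  ⟨.x, T30, (K (.ofNat 155982536930008768))⟩,
  ⟨.x, T31, (K (.negSucc 4545301558579655))⟩,
  ⟨.x, T32, (K (.ofNat 243563855591788172))⟩] (.node [⟨.x, .z, (B (B (K (.negSucc 1313723743542432151)) (K (.negSucc 302748309212812371)) N N) (B (K (.negSucc 754276369081677483)) (K (.ofNat 2213231396647119268)) N N) N N)⟩,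
  ⟨.x, T0, (B (K (.ofNat 965878250572426520)) (K (.negSucc 482652554477926475)) N N)⟩,
  ⟨.x, T1, (B (K (.ofNat 276026503673225844)) (K (.ofNat 797040656732966688)) N N)⟩,
  ⟨.x, T5, (K (.negSucc 160654717756837555))⟩,
  ⟨.x, T7, (K (.ofNat 1673877663948293972))⟩,
  ⟨.x, T8, (K (.ofNat 964901236983786676))⟩,
  ⟨.x, T10, (K (.negSucc 99031029024045887))⟩] (.node [⟨.x, .z, (B (K (.negSucc 747700414491515127)) (K (.ofNat 1447818828587375244)) N N)⟩,
  ⟨.x, T0, (K (.negSucc 1296654713885026887))⟩,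
  ⟨.x, T1, (K (.negSucc 74248304475431939))⟩] (.node [⟨.x, .z, (K (.negSucc 151061506646241715))⟩] .nil .nil .nil .nil .nil .nil) (.node [⟨.x, .z, (K (.negSucc 456376721247435883))⟩] .nil .nil .nil .nil .nil .nil) .nil .nil .nil .nil) (.node [⟨.x, .z, (B (K (.ofNat 285643545924346540)) (K (.negSucc 718423371685795663)) N N)⟩,
  ⟨.x, T0, (K (.negSucc 945661789863265355))⟩,
  ⟨.x, T1, (K (.ofNat 546610880453627724))⟩] (.node [⟨.x, .z, (K (.negSucc 588082055809479391))⟩] .nil .nil .nil .nil .nil .nil) (.node [⟨.x, .z, (K (.negSucc 1321668985069429415))⟩] .nil .nil .nil .nil .nil .nil) .nil .nil .nil .nil) .nil .nil .nil .nil) (.node [⟨.x, .z, (B (B (K (.ofNat 276028869848472468)) (K (.ofNat 1193583927810501136)) N N) (B (K (.negSucc 315715386028021419)) (K (.ofNat 824962316109340584)) N N) N N)⟩,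
  ⟨.x, T0, (B (K (.ofNat 44072965435517536)) (K (.negSucc 797781288423633891)) N N)⟩,
  ⟨.x, T1, (B (K (.negSucc 144432123396266355)) (K (.negSucc 263351572904768739)) N N)⟩,
  ⟨.x, T5, (K (.ofNat 127441737781199380))⟩,
  ⟨.x, T7, (K (.ofNat 516227727160644240))⟩,
  ⟨.x, T8, (K (.negSucc 19183633494655811))⟩,
  ⟨.x, T10, (K (.ofNat 430729958263681944))⟩] (.node [⟨.x, .z, (B (K (.negSucc 629077945353003635)) (K (.negSucc 501654677308368667)) N N)⟩,
  ⟨.x, T0, (K (.ofNat 73003803685523788))⟩,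
  ⟨.x, T1, (K (.ofNat 298883334478266972))⟩] (.node [⟨.x, .z, (K (.negSucc 590792457541938567))⟩] .nil .nil .nil .nil .nil .nil) (.node [⟨.x, .z, (K (.ofNat 70715541916316640))⟩] .nil .nil .nil .nil .nil .nil) .nil .nil .nil .nil) (.node [⟨.x, .z, (B (K (.negSucc 392997504199267267)) (K (.negSucc 843147384651209819)) N N)⟩,
  ⟨.x, T0, (K (.ofNat 677275248378046220))⟩,
  ⟨.x, T1, (K (.negSucc 273567027559059247))⟩] (.node [⟨.x, .z, (K (.ofNat 229364991150599808))⟩] .nil .nil .nil .nil .nil .nil) (.node [⟨.x, .z, (K (.ofNat 463901176978356292))⟩] .nil .nil .nil .nil .nil .nil) .nil .nil .nil .nil) .nil .nil .nil .nil) (.node [⟨.x, T4, (K (.negSucc 73237275174025521))⟩,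
  ⟨.x, T6, (K (.negSucc 138520130334375817))⟩] .nil .nil .nil .nil .nil .nil) (.node [⟨.x, T4, (K (.negSucc 1345578160132438749))⟩,
  ⟨.x, T6, (K (.negSucc 666155991322251989))⟩] .nil .nil .nil .nil .nil .nil) .nil .nil)

def c_301 : Cert := (.node [⟨.x, .z, (B (B (B (K (.negSucc 68319844946877999)) (K (.negSucc 775389729588003375)) N N) (B (K (.negSucc 47861394686703359)) (K (.negSucc 362176683487757403)) N N) N N) (B (B (K (.ofNat 223579401304051072)) (K (.negSucc 561251704136359739)) N N) (B (K (.negSucc 302479338232069683)) (K (.negSucc 970945106999481039)) N N) N N) N N)⟩,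
  ⟨.x, T0, (B (B (K (.ofNat 28470316659109640)) (K (.ofNat 343755958715733732)) N N) (B (K (.ofNat 313974634055883472)) (K (.ofNat 511818311951744700)) N N) N N)⟩,
  ⟨.x, T1, (B (B (K (.ofNat 262050746643289800)) (K (.ofNat 100584683322234664)) N N) (B (K (.ofNat 197031135377901692)) (K (.negSucc 443928025539341503)) N N) N N)⟩,
  ⟨.x, T4, (B N N (K (.negSucc 316694966044738077)) (K (.ofNat 309176719477561866)))⟩,
  ⟨.x, T5, (A1 (K (.ofNat 74355185725915528)))⟩,
  ⟨.x, T6, (B N N (K (.ofNat 20124750672451670)) (K (.negSucc 44344218937045565)))⟩,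
  ⟨.x, T7, (B (K (.ofNat 50443415861532848)) (K (.negSucc 495300249406801495)) N N)⟩,
  ⟨.x, T8, (B (K (.ofNat 113275655657443020)) (K (.negSucc 630231206799514711)) N N)⟩,
  ⟨.x, T10, (A1 (K (.negSucc 166468586035483507)))⟩,
  ⟨.x, T29, (K (.negSucc 96877218562072479))⟩,
  ⟨.x, T13, (K (.ofNat 65272895930067924))⟩,
  ⟨.x, T14, (K (.ofNat 175679537751294948))⟩,
  ⟨.x, T30, (K (.ofNat 55748010189202800))⟩,
  ⟨.x, T31, (K (.negSucc 98713551271052591))⟩,
  ⟨.x, T32, (K (.negSucc 159211961772885195))⟩] (.node [⟨.x, .z, (B (B (K (.ofNat 90101081642173000)) (K (.ofNat 22885908666739496)) N N) (B (K (.negSucc 304058394264753435)) (K (.negSucc 542851587225072607)) N N) N N)⟩,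
  ⟨.x, T0, (B (K (.negSucc 517511578693955075)) (K (.ofNat 65288265029359988)) N N)⟩,
  ⟨.x, T1, (B (K (.negSucc 71993586810126211)) (K (.negSucc 240742915281249583)) N N)⟩,
  ⟨.x, T5, (K (.ofNat 158083014587872024))⟩,
  ⟨.x, T7, (K (.negSucc 107838568341719795))⟩,
  ⟨.x, T8, (K (.negSucc 328561249602247843))⟩,
  ⟨.x, T10, (K (.ofNat 350410294206068460))⟩] (.node [⟨.x, .z, (B (K (.ofNat 184048600067855852)) (K (.negSucc 300656306638834187)) N N)⟩,
  ⟨.x, T0, (K (.ofNat 886988423365326464))⟩,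
  ⟨.x, T1, (K (.negSucc 142888505608467751))⟩] (.node [⟨.x, .z, (K (.negSucc 146055877311722671))⟩] .nil .nil .nil .nil .nil .nil) (.node [⟨.x, .z, (K (.ofNat 514038249092710720))⟩] .nil .nil .nil .nil .nil .nil) .nil .nil .nil .nil) (.node [⟨.x, .z, (B (K (.ofNat 10184240096370088)) (K (.ofNat 891165848056067864)) N N)⟩,
  ⟨.x, T0, (K (.ofNat 534142752844281728))⟩,
  ⟨.x, T1, (K (.negSucc 531597485721089619))⟩] (.node [⟨.x, .z, (K (.ofNat 672611947550766496))⟩] .nil .nil .nil .nil .nil .nil) (.node [⟨.x, .z, (K (.ofNat 819172802367122280))⟩] .nil .nil .nil .nil .nil .nil) .nil .nil .nil .nil) .nil .nil .nil .nil) (.node [⟨.x, .z, (B (B (K (.ofNat 536210644388069560)) (K (.negSucc 1100697611187929943)) N N) (B (K (.negSucc 591316006075286155)) (K (.ofNat 214750062886521680)) N N) N N)⟩,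
  ⟨.x, T0, (B (K (.ofNat 62791780469699456)) (K (.ofNat 252164325154181748)) N N)⟩,
  ⟨.x, T1, (B (K (.ofNat 82882735937961904)) (K (.ofNat 1060085337627413720)) N N)⟩,
  ⟨.x, T5, (K (.negSucc 550439214912531895))⟩,
  ⟨.x, T7, (K (.ofNat 491662432029323884))⟩,
  ⟨.x, T8, (K (.ofNat 1081067003639641480))⟩,
  ⟨.x, T10, (K (.ofNat 374197812063401340))⟩] (.node [⟨.x, .z, (B (K (.negSucc 199527628883550995)) (K (.ofNat 1269578938228945428)) N N)⟩,
  ⟨.x, T0, (K (.negSucc 598810986501855931))⟩,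
  ⟨.x, T1, (K (.ofNat 205031468596301004))⟩] (.node [⟨.x, .z, (K (.negSucc 117719341572836219))⟩] .nil .nil .nil .nil .nil .nil) (.node [⟨.x, .z, (K (.negSucc 549390477682915595))⟩] .nil .nil .nil .nil .nil .nil) .nil .nil .nil .nil) (.node [⟨.x, .z, (B (K (.ofNat 1296701240488903256)) (K (.ofNat 1035866640017402480)) N N)⟩,
  ⟨.x, T0, (K (.negSucc 771495538192029363))⟩,
  ⟨.x, T1, (K (.negSucc 791461905531953907))⟩] (.node [⟨.x, .z, (K (.negSucc 164584819143164363))⟩] .nil .nil .nil .nil .nil .nil) (.node [⟨.x, .z, (K (.negSucc 467952982695926531))⟩] .nil .nil .nil .nil .nil .nil) .nil .nil .nil .nil) .nil .nil .nil .nil) (.node [⟨.x, T4, (K (.ofNat 284476307247027350))⟩,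
  ⟨.x, T6, (K (.ofNat 312367081800400522))⟩] .nil .nil .nil .nil .nil .nil) (.node [⟨.x, T4, (K (.ofNat 171018434825403340))⟩,
  ⟨.x, T6, (K (.ofNat 13309881217970708))⟩] .nil .nil .nil .nil .nil .nil) .nil .nil)

def c_30 : Cert := (.node [⟨.x, .z, (B (B (B (B (K (.ofNat 526217061058184972)) (K (.negSucc 1071944318038227115)) N N) (B (K (.ofNat 706097603817111408)) (K (.negSucc 1331574303013017811)) N N) N N) (B (B (K (.ofNat 932591029217647128)) (K (.negSucc 1708813122382623123)) N N) (B (K (.negSucc 486572016414237487)) (K (.negSucc 948979317091304379)) N N) N N) N N) (B (B (B (K (.negSucc 510888928845493547)) (K (.negSucc 1169165472332174575)) N N) (B (K (.negSucc 1243878471584733627)) (K (.negSucc 461631363983923811)) N N) N N) (B (A0 (K (.negSucc 251812784755435483))) (A1 (K (.ofNat 83601783776708876))) N N) N N) N N)⟩,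
  ⟨.x, T0, (B (B (B (K (.negSucc 66439148151852475)) (K (.ofNat 746324730449227496)) N N) (B (K (.ofNat 8353121933179352)) (K (.ofNat 451561566860172244)) N N) N N) (B (B (K (.negSucc 393513434966979431)) (K (.ofNat 571630791671155524)) N N) (B (K (.negSucc 102863169029751255)) (K (.ofNat 222999012547141068)) N N) N N) N N)⟩,
  ⟨.x, T1, (B (B (B (K (.negSucc 335593262413250827)) (K (.ofNat 27440992217338476)) N N) (B (K (.negSucc 328257659798033503)) (K (.ofNat 248316602980681508)) N N) N N) (B (B (K (.negSucc 714629438107106619)) (K (.negSucc 100472747293774099)) N N) (B (K (.ofNat 38427745394719716)) (K (.negSucc 910130445831263)) N N) N N) N N)⟩,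
  ⟨.x, T4, (B (B N N (K (.negSucc 256872850535438871)) (K (.ofNat 27044574933555340))) (B N N (K (.negSucc 405850184730853505)) (K (.negSucc 203061805382274033))) (B (K (.ofNat 158288234986684838)) (K (.ofNat 598224654471804094)) N N) (A1 (K (.ofNat 32077649382740906))))⟩,
  ⟨.x, T5, (A1 (A1 (K (.ofNat 61089376866261408))))⟩,
  ⟨.x, T6, (B (B N N (K (.negSucc 7015706491577909)) (K (.ofNat 222109722649080378))) (B N N (K (.ofNat 153800352676614462)) (K (.ofNat 4529710816136632))) (B (K (.negSucc 106513570710345917)) (K (.ofNat 26110365588433028)) N N) (A1 (K (.negSucc 256810451120849359))))⟩,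
  ⟨.x, T7, (B (B (K (.negSucc 91115715467974427)) (K (.ofNat 489616886462668216)) N N) (B (K (.ofNat 581158189590733216)) (K (.ofNat 348319892914332808)) N N) N N)⟩,
  ⟨.x, T8, (B (B (K (.ofNat 116860554922859328)) (K (.negSucc 30257686758320307)) N N) (B (K (.ofNat 574117351809332660)) (K (.negSucc 116805941958562863)) N N) N N)⟩,
  ⟨.x, T10, (A1 (B (K (.ofNat 171398270079447544)) (K (.negSucc 145481511360683539)) N N))⟩,
  ⟨.x, T28, (A3 (K (.negSucc 213462271730407671)))⟩,
  ⟨.x, T29, (A1 (K (.negSucc 45868096900958919)))⟩,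
  ⟨.x, T12, (B N N (K (.ofNat 47129004754706378)) (K (.ofNat 157685755184706532)))⟩,
  ⟨.x, T13, (B (K (.ofNat 24096402340808028)) (K (.negSucc 69674309062761395)) N N)⟩,
  ⟨.x, T14, (B (K (.negSucc 141627786948794999)) (K (.negSucc 95422436364636359)) N N)⟩,
  ⟨.x, T30, (A0 (K (.negSucc 79880719376016831)))⟩,
  ⟨.x, T31, (A1 (K (.negSucc 42406286165105183)))⟩,
  ⟨.x, T32, (A1 (K (.negSucc 71061692984662995)))⟩,
  ⟨.x, T16, (K (.negSucc 45300279056429375))⟩,
  ⟨.x, T18, (K (.negSucc 174037810659202979))⟩,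
  ⟨.x, T34, (K (.negSucc 176124045854740871))⟩,
  ⟨.x, T43, (K (.negSucc 47407750478718839))⟩,
  ⟨.x, T45, (K (.ofNat 58476392108292144))⟩,
  ⟨.x, T35, (K (.ofNat 6372734406998652))⟩] c_300 c_301 (.node [⟨.x, T4, (B (K (.ofNat 153723613452757880)) (K (.ofNat 120134083788883206)) N N)⟩,
  ⟨.x, T6, (B (K (.ofNat 127287824274013438)) (K (.ofNat 134812384691798422)) N N)⟩,
  ⟨.x, T28, (K (.ofNat 103819018654690304))⟩,
  ⟨.x, T12, (K (.ofNat 140224790585020526))⟩] (.node [⟨.x, T4, (K (.negSucc 114014466523397))⟩,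
  ⟨.x, T6, (K (.ofNat 166208688937687004))⟩] .nil .nil .nil .nil .nil .nil) (.node [⟨.x, T4, (K (.negSucc 346697377974515399))⟩,
  ⟨.x, T6, (K (.negSucc 467843066773425839))⟩] .nil .nil .nil .nil .nil .nil) .nil .nil .nil .nil) (.node [⟨.x, T4, (B (K (.negSucc 71744215411625931)) (K (.negSucc 109020528428336685)) N N)⟩,
  ⟨.x, T6, (B (K (.ofNat 76779900445782156)) (K (.ofNat 272997093591628994)) N N)⟩,
  ⟨.x, T28, (K (.negSucc 73452446074036371))⟩,
  ⟨.x, T12, (K (.ofNat 100860946959935176))⟩] (.node [⟨.x, T4, (K (.ofNat 832194574643278644))⟩,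
  ⟨.x, T6, (K (.ofNat 346861795646552592))⟩] .nil .nil .nil .nil .nil .nil) (.node [⟨.x, T4, (K (.ofNat 120083411374764194))⟩,
  ⟨.x, T6, (K (.negSucc 211830386870344185))⟩] .nil .nil .nil .nil .nil .nil) .nil .nil .nil .nil) .nil .nil)

def c_310 : Cert := (.node [⟨.x, .z, (B (B (B (K (.negSucc 200827440746885567)) (K (.negSucc 34407945661474055)) N N) (B (K (.negSucc 89467336128561047)) (K (.ofNat 142892235184302072)) N N) N N) (B (B (K (.negSucc 288730620758102627)) (K (.negSucc 42973912657442927)) N N) (B (K (.ofNat 84478494615089316)) (K (.ofNat 383117871216399564)) N N) N N) N N)⟩,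
  ⟨.x, T0, (B (B (K (.ofNat 278241362857131492)) (K (.ofNat 247907063668928832)) N N) (B (K (.ofNat 129148666554688872)) (K (.negSucc 159769081304767535)) N N) N N)⟩,
  ⟨.x, T1, (B (B (K (.negSucc 22821893433441899)) (K (.negSucc 50021181665978291)) N N) (B (K (.negSucc 23925052901664011)) (K (.ofNat 52811297395024392)) N N) N N)⟩,
  ⟨.x, T4, (B N N (K (.ofNat 23514569762512080)) (K (.negSucc 12781604421601133)))⟩,
  ⟨.x, T5, (A1 (K (.negSucc 129702720610702511)))⟩,
  ⟨.x, T6, (B N N (K (.ofNat 25617606172699044)) (K (.negSucc 11128439157426947)))⟩,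
  ⟨.x, T7, (B (K (.ofNat 434605544307669756)) (K (.ofNat 361034686779514692)) N N)⟩,
  ⟨.x, T8, (B (K (.ofNat 82403873402618964)) (K (.ofNat 162517552269157932)) N N)⟩,
  ⟨.x, T10, (A1 (K (.negSucc 122593577660335655)))⟩,
  ⟨.x, T29, (K (.ofNat 91452519697207200))⟩,
  ⟨.x, T13, (K (.negSucc 246580695438122807))⟩,
  ⟨.x, T14, (K (.negSucc 21436705046016791))⟩,
  ⟨.x, T30, (K (.ofNat 88460532164378976))⟩,
  ⟨.x, T31, (K (.negSucc 70314216476650271))⟩,
  ⟨.x, T32, (K (.ofNat 31171879137956928))⟩] (.node [⟨.x, .z, (B (B (K (.negSucc 107081765213246459)) (K (.negSucc 303552203941742447)) N N) (B (K (.ofNat 122390686493066208)) (K (.ofNat 461531166850697328)) N N) N N)⟩,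
  ⟨.x, T0, (B (K (.negSucc 152356063985281547)) (K (.negSucc 108778003551228395)) N N)⟩,
  ⟨.x, T1, (B (K (.negSucc 24312802432624019)) (K (.ofNat 335740516278234900)) N N)⟩,
  ⟨.x, T5, (K (.ofNat 2355040429786128))⟩,
  ⟨.x, T7, (K (.ofNat 379366811236080024))⟩,
  ⟨.x, T8, (K (.ofNat 256982348491229676))⟩,
  ⟨.x, T10, (K (.ofNat 8907131692758348))⟩] (.node [⟨.x, .z, (B (K (.negSucc 258772767266858375)) (K (.negSucc 101117647543913363)) N N)⟩,
  ⟨.x, T0, (K (.ofNat 196136245302121656))⟩,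
  ⟨.x, T1, (K (.ofNat 120316752245324880))⟩] (.node [⟨.x, .z, (K (.negSucc 329543277316311911))⟩] .nil .nil .nil .nil .nil .nil) (.node [⟨.x, .z, (K (.negSucc 249306851189737571))⟩] .nil .nil .nil .nil .nil .nil) .nil .nil .nil .nil) (.node [⟨.x, .z, (B (K (.ofNat 245163611438382672)) (K (.negSucc 74916361835420447)) N N)⟩,
  ⟨.x, T0, (K (.ofNat 36712633730652600))⟩,
  ⟨.x, T1, (K (.negSucc 189433818175731695))⟩] (.node [⟨.x, .z, (K (.negSucc 226828642223683247))⟩] .nil .nil .nil .nil .nil .nil) (.node [⟨.x, .z, (K (.negSucc 259993459488969863))⟩] .nil .nil .nil .nil .nil .nil) .nil .nil .nil .nil) .nil .nil .nil .nil) (.node [⟨.x, .z, (B (B (K (.ofNat 63657123275072460)) (K (.ofNat 332472098150591952)) N N) (B (K (.negSucc 5414613064925651)) (K (.ofNat 57210594964864320)) N N) N N)⟩,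
  ⟨.x, T0, (B (K (.ofNat 201227265305987844)) (K (.negSucc 102321570813998591)) N N)⟩,
  ⟨.x, T1, (B (K (.negSucc 132542070764801879)) (K (.negSucc 147653906662225403)) N N)⟩,
  ⟨.x, T5, (K (.negSucc 37316837449725791))⟩,
  ⟨.x, T7, (K (.ofNat 182597553431097084))⟩,
  ⟨.x, T8, (K (.negSucc 39187172403071783))⟩,
  ⟨.x, T10, (K (.negSucc 124068184544295515))⟩] (.node [⟨.x, .z, (B (K (.negSucc 31166240531192507)) (K (.ofNat 66724803105587088)) N N)⟩,
  ⟨.x, T0, (K (.ofNat 72687455828204700))⟩,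
  ⟨.x, T1, (K (.negSucc 39989407126025699))⟩] (.node [⟨.x, .z, (K (.ofNat 63559504127746536))⟩] .nil .nil .nil .nil .nil .nil) (.node [⟨.x, .z, (K (.ofNat 59165354424986628))⟩] .nil .nil .nil .nil .nil .nil) .nil .nil .nil .nil) (.node [⟨.x, .z, (B (K (.ofNat 94026618332989440)) (K (.negSucc 72652852492107467)) N N)⟩,
  ⟨.x, T0, (K (.ofNat 48426874423207980))⟩,
  ⟨.x, T1, (K (.negSucc 161922745915846355))⟩] (.node [⟨.x, .z, (K (.ofNat 286868337916744920))⟩] .nil .nil .nil .nil .nil .nil) (.node [⟨.x, .z, (K (.negSucc 23767698062991455))⟩] .nil .nil .nil .nil .nil .nil) .nil .nil .nil .nil) .nil .nil .nil .nil) (.node [⟨.x, T4, (K (.ofNat 84133210852630590))⟩,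
  ⟨.x, T6, (K (.ofNat 60506412260684418))⟩] .nil .nil .nil .nil .nil .nil) (.node [⟨.x, T4, (K (.negSucc 178920220164986033))⟩,
  ⟨.x, T6, (K (.negSucc 52631687785377833))⟩] .nil .nil .nil .nil .nil .nil) .nil .nil)

def c_311 : Cert := (.node [⟨.x, .z, (B (B (B (K (.ofNat 224104499153137596)) (K (.ofNat 98183885363210556)) N N) (B (K (.ofNat 97509423703323912)) (K (.ofNat 19655618472474768)) N N) N N) (B (B (K (.ofNat 149926393277483592)) (K (.ofNat 122217723149823924)) N N) (B (K (.ofNat 38541448424006388)) (K (.negSucc 37765347362008139)) N N) N N) N N)⟩,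
  ⟨.x, T0, (B (B (K (.negSucc 4644499075623119)) (K (.ofNat 82804192619339520)) N N) (B (K (.ofNat 118652088104024832)) (K (.negSucc 19114552995081179)) N N) N N)⟩,
  ⟨.x, T1, (B (B (K (.negSucc 218188121287496975)) (K (.negSucc 219394782771494315)) N N) (B (K (.negSucc 221115151443674711)) (K (.negSucc 24785209042679819)) N N) N N)⟩,
  ⟨.x, T4, (B N N (K (.negSucc 43807925566173341)) (K (.negSucc 7663447573967891)))⟩,
  ⟨.x, T5, (A1 (K (.ofNat 4690329657276564)))⟩,
  ⟨.x, T6, (B N N (K (.negSucc 857488003155461)) (K (.negSucc 122960322709582763)))⟩,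
  ⟨.x, T7, (B (K (.negSucc 4308302380029311)) (K (.negSucc 50658653110306499)) N N)⟩,
  ⟨.x, T8, (B (K (.negSucc 7347461416224719)) (K (.ofNat 28033120201865016)) N N)⟩,
  ⟨.x, T10, (A1 (K (.negSucc 65596157385273311)))⟩,
  ⟨.x, T29, (K (.ofNat 2233220972049312))⟩,
  ⟨.x, T13, (K (.negSucc 555558497567891))⟩,
  ⟨.x, T14, (K (.ofNat 7098760710192564))⟩,
  ⟨.x, T30, (K (.ofNat 587135882354028))⟩,
  ⟨.x, T31, (K (.negSucc 2114288042976143))⟩,
  ⟨.x, T32, (K (.negSucc 7095545766712199))⟩] (.node [⟨.x, .z, (B (B (K (.ofNat 144154357866215928)) (K (.negSucc 11091854065853147)) N N) (B (K (.ofNat 220410159123255864)) (K (.negSucc 162334928901617807)) N N) N N)⟩,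
  ⟨.x, T0, (B (K (.negSucc 229929146534469227)) (K (.ofNat 19677165188162664)) N N)⟩,
  ⟨.x, T1, (B (K (.ofNat 154210402618830516)) (K (.ofNat 136734560216114700)) N N)⟩,
  ⟨.x, T5, (K (.ofNat 50339933164407180))⟩,
  ⟨.x, T7, (K (.negSucc 37017396767779595))⟩,
  ⟨.x, T8, (K (.ofNat 110974710723710736))⟩,
  ⟨.x, T10, (K (.ofNat 38911288817237256))⟩] (.node [⟨.x, .z, (B (K (.negSucc 226273224882849983)) (K (.negSucc 238789554213016715)) N N)⟩,
  ⟨.x, T0, (K (.ofNat 282114972176508492))⟩,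
  ⟨.x, T1, (K (.ofNat 110963681919815592))⟩] (.node [⟨.x, .z, (K (.negSucc 120727602428827967))⟩] .nil .nil .nil .nil .nil .nil) (.node [⟨.x, .z, (K (.ofNat 38617613082799548))⟩] .nil .nil .nil .nil .nil .nil) .nil .nil .nil .nil) (.node [⟨.x, .z, (B (K (.ofNat 44405557980494424)) (K (.negSucc 125401900029686783)) N N)⟩,
  ⟨.x, T0, (K (.ofNat 188383071157754004))⟩,
  ⟨.x, T1, (K (.negSucc 183984989783145179))⟩] (.node [⟨.x, .z, (K (.negSucc 45279876269035715))⟩] .nil .nil .nil .nil .nil .nil) (.node [⟨.x, .z, (K (.negSucc 71337891043162295))⟩] .nil .nil .nil .nil .nil .nil) .nil .nil .nil .nil) .nil .nil .nil .nil) (.node [⟨.x, .z, (B (B (K (.ofNat 6261111788750616)) (K (.ofNat 138185267062547880)) N N) (B (K (.ofNat 37931152803526164)) (K (.negSucc 100106150346322259)) N N) N N)⟩,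
  ⟨.x, T0, (B (K (.ofNat 82401274746957684)) (K (.negSucc 3708921089816291)) N N)⟩,
  ⟨.x, T1, (B (K (.negSucc 92525041656429143)) (K (.negSucc 151771030886507255)) N N)⟩,
  ⟨.x, T5, (K (.ofNat 8474832962737176))⟩,
  ⟨.x, T7, (K (.negSucc 4235198454340223))⟩,
  ⟨.x, T8, (K (.negSucc 96668688037393499))⟩,
  ⟨.x, T10, (K (.negSucc 92042068304125967))⟩] (.node [⟨.x, .z, (B (K (.negSucc 97701891663606635)) (K (.negSucc 126963398598420971)) N N)⟩,
  ⟨.x, T0, (K (.ofNat 220503636687221328))⟩,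
  ⟨.x, T1, (K (.negSucc 17537394775262963))⟩] (.node [⟨.x, .z, (K (.negSucc 109856993803870907))⟩] .nil .nil .nil .nil .nil .nil) (.node [⟨.x, .z, (K (.ofNat 6143816619449460))⟩] .nil .nil .nil .nil .nil .nil) .nil .nil .nil .nil) (.node [⟨.x, .z, (B (K (.ofNat 63175890701446656)) (K (.ofNat 53083340729129760)) N N)⟩,
  ⟨.x, T0, (K (.ofNat 7923023019916032))⟩,
  ⟨.x, T1, (K (.negSucc 70620046944366947))⟩] (.node [⟨.x, .z, (K (.ofNat 158799649331391096))⟩] .nil .nil .nil .nil .nil .nil) (.node [⟨.x, .z, (K (.ofNat 7469796360646956))⟩] .nil .nil .nil .nil .nil .nil) .nil .nil .nil .nil) .nil .nil .nil .nil) (.node [⟨.x, T4, (K (.ofNat 4979975619599400))⟩,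
  ⟨.x, T6, (K (.ofNat 171641120910507948))⟩] .nil .nil .nil .nil .nil .nil) (.node [⟨.x, T4, (K (.ofNat 45367696208418528))⟩,
  ⟨.x, T6, (K (.negSucc 1838810693523719))⟩] .nil .nil .nil .nil .nil .nil) .nil .nil)

def c_31 : Cert := (.node [⟨.x, .z, (B (B (B (B (K (.negSucc 19505842769491091)) (K (.ofNat 109148561392597860)) N N) (B (K (.ofNat 89819367381228324)) (K (.ofNat 78233383011035280)) N N) N N) (B (B (K (.ofNat 131746709183389272)) (K (.ofNat 28480404046505796)) N N) (B (K (.ofNat 325705209123685356)) (K (.negSucc 109134054073930955)) N N) N N) N N) (B (B (B (K (.negSucc 77696322529170407)) (K (.ofNat 44739556477829640)) N N) (B (K (.ofNat 771920048342940)) (K (.ofNat 22429621764347448)) N N) N N) (B (A0 (K (.negSucc 70684401347988287))) (A1 (K (.ofNat 28711844187908784))) N N) N N) N N)⟩,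
  ⟨.x, T0, (B (B (B (K (.ofNat 1136102957123736)) (K (.ofNat 55910766061204824)) N N) (B (K (.ofNat 20969379817770048)) (K (.ofNat 95301468777611544)) N N) N N) (B (B (K (.negSucc 127969238829436535)) (K (.ofNat 72848745666858756)) N N) (B (K (.negSucc 108098070402700475)) (K (.ofNat 73204660192030920)) N N) N N) N N)⟩,
  ⟨.x, T1, (B (B (B (K (.ofNat 17744068957954584)) (K (.negSucc 35391188307720083)) N N) (B (K (.negSucc 20321195674258751)) (K (.ofNat 15209637883403880)) N N) N N) (B (B (K (.negSucc 89900463981280763)) (K (.negSucc 34477167131315243)) N N) (B (K (.negSucc 186745596465893639)) (K (.ofNat 158146655535555120)) N N) N N) N N)⟩,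
  ⟨.x, T4, (B (B N N (K (.negSucc 15451316582564351)) (K (.negSucc 15820787040978947))) (B N N (K (.ofNat 9021334977348582)) (K (.ofNat 2268297047072364))) (B (K (.negSucc 3090405951172721)) (K (.negSucc 84489856665941)) N N) (A1 (K (.ofNat 10568762322873636))))⟩,
  ⟨.x, T5, (A1 (A1 (K (.negSucc 55595836694909531))))⟩,
  ⟨.x, T6, (B (B N N (K (.negSucc 57417332901263)) (K (.ofNat 78924158163363450))) (B N N (K (.negSucc 81925521331581521)) (K (.negSucc 18575692511620439))) (B (K (.negSucc 327455057499065)) (K (.ofNat 88183582308938298)) N N) (A1 (K (.negSucc 67628373896244419))))⟩,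
  ⟨.x, T7, (B (B (K (.negSucc 1798665676378451)) (K (.ofNat 31911062109807300)) N N) (B (K (.ofNat 33621990631781412)) (K (.ofNat 95258663270950536)) N N) N N)⟩,
  ⟨.x, T8, (B (B (K (.negSucc 1813131319369439)) (K (.ofNat 14960863171575048)) N N) (B (K (.negSucc 74275496006019503)) (K (.ofNat 141204132910766772)) N N) N N)⟩,
  ⟨.x, T10, (A1 (B (K (.negSucc 46087124037380831)) (K (.ofNat 13129861321881528)) N N))⟩,
  ⟨.x, T28, (A3 (K (.ofNat 1099896662363352)))⟩,
  ⟨.x, T29, (A1 (K (.ofNat 818767850955264)))⟩,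
  ⟨.x, T12, (B N N (K (.ofNat 352720817032080)) (K (.ofNat 409362327102750)))⟩,
  ⟨.x, T13, (B (K (.negSucc 109642115035151)) (K (.ofNat 2403576870808176)) N N)⟩,
  ⟨.x, T14, (B (K (.ofNat 650917937421612)) (K (.ofNat 4019586042973788)) N N)⟩,
  ⟨.x, T30, (A0 (K (.ofNat 350695510750116)))⟩,
  ⟨.x, T31, (A1 (K (.ofNat 889053432017688)))⟩,
  ⟨.x, T32, (A1 (K (.ofNat 1957608658348812)))⟩,
  ⟨.x, T16, (K (.ofNat 102078156029472))⟩,
  ⟨.x, T18, (K (.ofNat 866980148676516))⟩,
  ⟨.x, T34, (K (.ofNat 2122131521940444))⟩,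
  ⟨.x, T43, (K (.negSucc 2256655774141439))⟩,
  ⟨.x, T45, (K (.ofNat 924446125435392))⟩,
  ⟨.x, T35, (K (.negSucc 199230884816543))⟩] c_310 c_311 (.node [⟨.x, T4, (B (K (.negSucc 12613654739369333)) (K (.ofNat 64522726559526732)) N N)⟩,
  ⟨.x, T6, (B (K (.negSucc 239536308272802491)) (K (.negSucc 97393988876913371)) N N)⟩,
  ⟨.x, T28, (K (.ofNat 103703632940558532))⟩,
  ⟨.x, T12, (K (.negSucc 87704357086160597))⟩] (.node [⟨.x, T4, (K (.negSucc 53100341188441091))⟩,
  ⟨.x, T6, (K (.ofNat 263848147799824434))⟩] .nil .nil .nil .nil .nil .nil) (.node [⟨.x, T4, (K (.negSucc 99221290759016075))⟩,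
  ⟨.x, T6, (K (.ofNat 133828539673547292))⟩] .nil .nil .nil .nil .nil .nil) .nil .nil .nil .nil) (.node [⟨.x, T4, (B (K (.ofNat 3619772845309446)) (K (.negSucc 7658253330770951)) N N)⟩,
  ⟨.x, T6, (B (K (.negSucc 3000840264882641)) (K (.ofNat 5114886567445452)) N N)⟩,
  ⟨.x, T28, (K (.ofNat 3814653864200928))⟩,
  ⟨.x, T12, (K (.negSucc 1478367503618039))⟩] (.node [⟨.x, T4, (K (.negSucc 44420055204598499))⟩,
  ⟨.x, T6, (K (.ofNat 33847452042289536))⟩] .nil .nil .nil .nil .nil .nil) (.node [⟨.x, T4, (K (.ofNat 13056489109602960))⟩,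
  ⟨.x, T6, (K (.ofNat 1394765999494056))⟩] .nil .nil .nil .nil .nil .nil) .nil .nil .nil .nil) .nil .nil)

def c_32 : Cert := (.node [⟨.x, T4, (B (B (K (.ofNat 80327379285323646)) (K (.ofNat 154702570007507634)) N N) (B (K (.ofNat 52231159038363354)) (K (.ofNat 176039152372836396)) N N) N N)⟩,
  ⟨.x, T6, (B (B (K (.ofNat 88870829227338984)) (K (.negSucc 330088186224125573)) N N) (B (K (.ofNat 40591634335756014)) (K (.negSucc 244684197240528275)) N N) N N)⟩,
  ⟨.x, T28, (A1 (K (.ofNat 178706119635746976)))⟩,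
  ⟨.x, T12, (B (K (.ofNat 28563243964314990)) (K (.negSucc 155788595641115387)) N N)⟩] (.node [⟨.x, T4, (B (K (.ofNat 77099947177575672)) (K (.ofNat 487478877615447606)) N N)⟩,
  ⟨.x, T6, (B (K (.negSucc 1072996048536701771)) (K (.negSucc 473436960064663013)) N N)⟩,
  ⟨.x, T28, (K (.ofNat 564923539527084360))⟩,
  ⟨.x, T12, (K (.negSucc 802678802523725357))⟩] (.node [⟨.x, T4, (K (.ofNat 482607772779123936))⟩,
  ⟨.x, T6, (K (.ofNat 1239349267114267806))⟩] .nil .nil .nil .nil .nil .nil) (.node [⟨.x, T4, (K (.negSucc 417759940774674833))⟩,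
  ⟨.x, T6, (K (.ofNat 815848848697694574))⟩] .nil .nil .nil .nil .nil .nil) .nil .nil .nil .nil) (.node [⟨.x, T4, (B (K (.ofNat 55650553167101130)) (K (.negSucc 218084329841069411)) N N)⟩,
  ⟨.x, T6, (B (K (.ofNat 97439317702304634)) (K (.ofNat 318672284621414304)) N N)⟩,
  ⟨.x, T28, (K (.negSucc 56237510556399227))⟩,
  ⟨.x, T12, (K (.ofNat 69768459911032428))⟩] (.node [⟨.x, T4, (K (.ofNat 196333415021343054))⟩,
  ⟨.x, T6, (K (.negSucc 212857867393573205))⟩] .nil .nil .nil .nil .nil .nil) (.node [⟨.x, T4, (K (.ofNat 117007391754493758))⟩,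
  ⟨.x, T6, (K (.negSucc 165486940639865669))⟩] .nil .nil .nil .nil .nil .nil) .nil .nil .nil .nil) .nil .nil .nil .nil)

def c_33 : Cert := (.node [⟨.x, T4, (B (B (K (.ofNat 11393880317639694)) (K (.negSucc 6087650032702769)) N N) (B (K (.negSucc 32419427653194833)) (K (.ofNat 43641939596143392)) N N) N N)⟩,
  ⟨.x, T6, (B (B (K (.negSucc 117405119735021)) (K (.ofNat 12853373711449236)) N N) (B (K (.ofNat 42249012349658898)) (K (.ofNat 6028136271571596)) N N) N N)⟩,
  ⟨.x, T28, (A1 (K (.ofNat 1922316386331432)))⟩,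
  ⟨.x, T12, (B (K (.negSucc 792178606718687)) (K (.negSucc 5143474198497893)) N N)⟩] (.node [⟨.x, T4, (B (K (.negSucc 7327709449625921)) (K (.ofNat 29847146095869438)) N N)⟩,
  ⟨.x, T6, (B (K (.negSucc 88121776635896387)) (K (.negSucc 77342010928392419)) N N)⟩,
  ⟨.x, T28, (K (.ofNat 84614154171795780))⟩,
  ⟨.x, T12, (K (.negSucc 45716307070400021))⟩] (.node [⟨.x, T4, (K (.negSucc 81357429519174689))⟩,
  ⟨.x, T6, (K (.ofNat 171154790194140648))⟩] .nil .nil .nil .nil .nil .nil) (.node [⟨.x, T4, (K (.ofNat 63463301329100106))⟩,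
  ⟨.x, T6, (K (.ofNat 170029545168657258))⟩] .nil .nil .nil .nil .nil .nil) .nil .nil .nil .nil) (.node [⟨.x, T4, (B (K (.ofNat 49193863557432300)) (K (.negSucc 16299513328716743)) N N)⟩,
  ⟨.x, T6, (B (K (.negSucc 515135307063803)) (K (.ofNat 5927244813442428)) N N)⟩,
  ⟨.x, T28, (K (.ofNat 1847069181244224))⟩,
  ⟨.x, T12, (K (.negSucc 146053505931227))⟩] (.node [⟨.x, T4, (K (.negSucc 43019772487707203))⟩,
  ⟨.x, T6, (K (.negSucc 8789318615355683))⟩] .nil .nil .nil .nil .nil .nil) (.node [⟨.x, T4, (K (.ofNat 957766952336040))⟩,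
  ⟨.x, T6, (K (.ofNat 137229463976220))⟩] .nil .nil .nil .nil .nil .nil) .nil .nil .nil .nil) .nil .nil .nil .nil)

def c_3 : Cert := (.node [⟨.x, .z, (B (B (B (B (B (K (.ofNat 173179624507452108)) (K (.ofNat 489432721120448868)) N N) (B (K (.ofNat 418917575777843184)) (K (.ofNat 443010478452146640)) N N) N N) (B (B (K (.negSucc 150932033483946119)) (K (.ofNat 361656580056790200)) N N) (B (K (.ofNat 304815936126957192)) (K (.ofNat 428521927292153688)) N N) N N) N N) (B (B (B (K (.ofNat 89505167234064456)) (K (.ofNat 283491896299890180)) N N) (B (K (.ofNat 555810177189397368)) (K (.ofNat 346273290582805320)) N N) N N) (B (A0 (K (.negSucc 163225190276655359))) (A1 (K (.ofNat 102154497222686832))) N N) N N) N N) (B (B (B (B (K (.ofNat 249535238621276328)) (K (.ofNat 306515030097024588)) N N) (B (K (.ofNat 233194591014009156)) (K (.ofNat 151912115785522848)) N N) N N) (B (A1 (K (.ofNat 108842549360745564))) (A0 (K (.negSucc 60868677936720275))) N N) N N) (B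 (A0 (A0 (K (.ofNat 31037937917934192)))) (A1 (A1 (K (.negSucc 79242503164888139)))) N N) N N) N N)⟩,
  ⟨.x, T0, (B (B (B (B (K (.negSucc 234250619288027)) (K (.negSucc 59872983420118931)) N N) (B (K (.ofNat 137651830560437592)) (K (.negSucc 98493202621142027)) N N) N N) (B (B (K (.ofNat 5528826124049760)) (K (.negSucc 103112152144037735)) N N) (B (K (.ofNat 105788569785384780)) (K (.negSucc 48553150049274695)) N N) N N) N N) (B (B (B (K (.negSucc 44879619964965323)) (K (.negSucc 16289615169741311)) N N) (B (K (.ofNat 13401241788449424)) (K (.ofNat 45580216043565336)) N N) N N) (B (A0 (K (.negSucc 47996780906390147))) (A1 (K (.ofNat 5620300670717040))) N N) N N) N N)⟩,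
  ⟨.x, T1, (B (B (B (B (K (.negSucc 241061374013664203)) (K (.negSucc 489167324575935515)) N N) (B (K (.negSucc 350584138935917879)) (K (.negSucc 302834056082996423)) N N) N N) (B (B (K (.ofNat 63346238236864464)) (K (.negSucc 509279059524810707)) N N) (B (K (.negSucc 276295567671532835)) (K (.negSucc 358068724422852911)) N N) N N) N N) (B (B (B (K (.negSucc 289203644345887739)) (K (.negSucc 260135397419165855)) N N) (B (K (.negSucc 553537751066440307)) (K (.negSucc 110230291242422567)) N N) N N) (B (A0 (K (.ofNat 26592068421271164))) (A1 (K (.negSucc 77102698443132935))) N N) N N) N N)⟩,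
  ⟨.x, T4, (B (B (B N N (K (.ofNat 5375275231928616)) (K (.ofNat 20437939220352276))) (B N N (K (.negSucc 97917600455931899)) (K (.negSucc 97630249334601311))) (B (K (.negSucc 48868607228405579)) (K (.ofNat 131581701577054806)) N N) (A1 (K (.negSucc 11308880404268495)))) (B (B N N (K (.ofNat 17730668219051466)) (K (.negSucc 97191601410918167))) (B N N (K (.ofNat 33911491991862240)) (K (.negSucc 2517872288005367))) (B (K (.negSucc 47090949493723001)) (K (.negSucc 75486969922981931)) N N) (A1 (K (.ofNat 845870166418242)))) (B (B (K (.negSucc 11054725331140763)) (K (.ofNat 89332871487213270)) N N) (A0 (K (.ofNat 162664092808392000))) N N) (A1 (A1 (K (.negSucc 1023361538479601)))))⟩,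
  ⟨.x, T5, (A1 (A1 (B (K (.negSucc 52918665754085711)) (K (.negSucc 5217931914984683)) N N)))⟩,
  ⟨.x, T6, (B (B (B N N (K (.ofNat 21732125688000)) (K (.negSucc 65231276728578533))) (B N N (K (.ofNat 52280765571373584)) (K (.ofNat 74559766332741102))) (B (K (.negSucc 205387667289503)) (K (.negSucc 115623038137267835)) N N) (A1 (K (.ofNat 105296993393585574)))) (B (B N N (K (.negSucc 66885732067111229)) (K (.ofNat 27299103531273588))) (B N N (K (.negSucc 39442559696072483)) (K (.ofNat 28196508264624))) (B (K (.negSucc 51654180021398597)) (K (.ofNat 44591752115502564)) N N) (A1 (K (.ofNat 23372952045233490)))) (B (B (K (.ofNat 383101546637376)) (K (.negSucc 81209562788457305)) N N) (A0 (K (.negSucc 5439240553514123))) N N) (A1 (A1 (K (.ofNat 14728717752831138)))))⟩,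
  ⟨.x, T7, (B (B (B (K (.ofNat 2429057508890796)) (K (.ofNat 44634734381426868)) N N) (B (K (.ofNat 139387967514391428)) (K (.ofNat 14607535019158032)) N N) N N) (B (B (K (.ofNat 86079404909163960)) (K (.ofNat 550903564693860)) N N) (B (K (.ofNat 181381009193543628)) (K (.negSucc 34788111422113307)) N N) N N) N N)⟩,
  ⟨.x, T8, (B (B (B (K (.ofNat 1095385242119364)) (K (.negSucc 10247262618945743)) N N) (B (K (.ofNat 48892636431743748)) (K (.negSucc 18984513084267527)) N N) N N) (B (B (K (.ofNat 208482221923209276)) (K (.negSucc 59750617435769987)) N N) (B (K (.ofNat 179695972106227248)) (K (.negSucc 74039235273160163)) N N) N N) N N)⟩,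
  ⟨.x, T10, (A1 (B (B (K (.ofNat 86177816372072040)) (K (.negSucc 13526627976871547)) N N) (B (K (.ofNat 1571790932936784)) (K (.negSucc 3840191708900231)) N N) N N))⟩,
  ⟨.x, T28, (B N (A3 (K (.negSucc 1971445623872759))) N (A1 (K (.ofNat 1137533499628176))))⟩,
  ⟨.x, T29, (A1 (A1 (K (.ofNat 3082735006425480))))⟩,
  ⟨.x, T12, (B (B N N (K (.negSucc 979589610942011)) (K (.negSucc 3993059780294633))) (B N N (K (.negSucc 20568381496951931)) (K (.negSucc 3185804460726593))) (B (K (.ofNat 569746095079560)) (K (.ofNat 17032436299935630)) N N) (A1 (K (.ofNat 15789179220603810))))⟩,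
  ⟨.x, T13, (B (B (K (.negSucc 859804976691107)) (K (.negSucc 43814196893067047)) N N) (B (K (.negSucc 42386163423840935)) (K (.negSucc 41713777422499139)) N N) N N)⟩,
  ⟨.x, T14, (B (B (K (.negSucc 345984601205375)) (K (.negSucc 687943182483395)) N N) (A0 (K (.ofNat 2508597439048260))) N N)⟩,
  ⟨.x, T30, (A0 (A0 (K (.ofNat 1329635861407392))))⟩,
  ⟨.x, T31, (A1 (A1 (K (.negSucc 870759704308031))))⟩,
  ⟨.x, T32, (A1 (A1 (K (.ofNat 3376813533388680))))⟩,
  ⟨.x, T16, (B (K (.ofNat 477751278682944)) (K (.negSucc 748402791984287)) N N)⟩,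
  ⟨.x, T18, (B (K (.ofNat 638996305136868)) (K (.negSucc 1116466924686371)) N N)⟩,
  ⟨.x, T34, (A0 (K (.negSucc 584271625857443)))⟩,
  ⟨.x, T35, (A1 (K (.ofNat 459330752121444)))⟩,
  ⟨.x, T46, (K (.negSucc 10871478229247))⟩,
  ⟨.x, T48, (K (.negSucc 538811481599))⟩,
  ⟨.x, T17, (K (.negSucc 7496939608703))⟩,
  ⟨.x, T19, (K (.negSucc 67643143037567))⟩] c_30 c_31 c_32 c_33 .nil .nil)

end Pool.Agent.Helper805.Chain.C6a
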