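import Pool.Agent.Helper805.Chain.C6aD1
set_option autoImplicit false
set_option maxRecDepth 100000

/-! Certificate data (found by computer). -/

namespace Pool.Agent.Helper805.Chain.C6a
open Pool.Agent.Helper805.Chain

def cert : Cert := (.node [⟨.x, .z, (B (B (B (B (B (B N N (K (.negSucc 120262159104191)) (K (.negSucc 69291874945597247))) (B N N (K (.ofNat 445294010653640064)) (K (.ofNat 475472718604791096))) (B (K (.ofNat 743976841301568)) (K (.negSucc 814916263635496847)) N N) (A1 (K (.negSucc 34075638005197823)))) (B (B N N (K (.negSucc 167485773787706303)) (K (.ofNat 956778260924705520))) (B N N (K (.ofNat 158218751558543088)) (K (.ofNat 454470373475343456))) (B (K (.ofNat 79262509777540320)) (K (.negSucc 376602497294985359)) N N) (A1 (K (.negSucc 255092769847600943)))) (B (B (K (.ofNat 1928994937023168)) (K (.negSucc 149239837435073615)) N N) (A0 (K (.negSucc 1047286780576058735))) N N) (A1 (A1 (K (.negSucc 12684067148150495))))) (B (B (B N N (K (.negSucc 61642460475110927)) (K (.ofNat 462331634314126752))) (B N N (K (.ofNat 193475320530980544))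 (K (.ofNat 116079409086639096))) (B (K (.negSucc 675070631082369311)) (K (.negSucc 553209263026529087)) N N) (A1 (K (.negSucc 90778852315390175)))) (B (B N N (K (.negSucc 54504128341150319)) (K (.negSucc 256685445512258951))) (B N N (K (.ofNat 695914519954530912)) (K (.ofNat 197557768941929424))) (B (K (.negSucc 735180854484102431)) (K (.negSucc 740692203242772815)) N N) (A1 (K (.negSucc 18619296797718959)))) (B (B (K (.ofNat 371220707269540128)) (K (.ofNat 213544040537597952)) N N) (A0 (K (.ofNat 816942498568424928))) N N) (A1 (A1 (K (.negSucc 140456756163597215))))) (A0 (B (B (K (.negSucc 8376331250776607)) (K (.negSucc 98348921134829567)) N N) (A0 (K (.negSucc 125048436192441215))) N N)) (A1 (A1 (A1 (K (.negSucc 14763656221552223)))))) (B (B (B (B N N (K (.negSucc 197828863202880335)) (K (.negSucc 373680667738637783))) (B N N (K (.negSucc 419827396454325047)) (K (.negSucc 53420215426304327))) (B (K (.ofNat 411394423152928656)) (K (.negSucc 185938239019658495)) N N) (A1 (K (.ofNat 250349611734385128)))) (B (B N N (K (.negSucc 502554208581075503))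 (K (.negSucc 173458987845255167))) (B N N (K (.negSucc 231757243576964279)) (K (.ofNat 134226816572708664))) (B (K (.negSucc 44726135319069119)) (K (.ofNat 133286433422144688)) N N) (A1 (K (.ofNat 26549649365829912)))) (B (B (K (.ofNat 603686212846733856)) (K (.ofNat 225014994371071632)) N N) (A0 (K (.ofNat 768586638734297712))) N N) (A1 (A1 (K (.negSucc 359781310069201607))))) (B (B (B N N (K (.ofNat 40080459672601824)) (K (.negSucc 127390451098645391))) N (B (K (.ofNat 477765887376573432)) (K (.negSucc 204490289416752191)) N N) (A1 (K (.negSucc 13289277167933759)))) (B N (B N N (K (.negSucc 170030542096511375)) (K (.ofNat 2604770692318368))) (A0 (K (.ofNat 157314464948463312))) (A1 (K (.ofNat 42786560042852304)))) (A0 (A0 (K (.negSucc 55381611644247167)))) (A1 (A1 (K (.negSucc 2968656738798239))))) (A0 (B (A0 (K (.negSucc 101641693785063767))) (A0 (K (.ofNat 88417437985465344))) N N)) (A1 (A1 (A1 (K (.ofNat 9419171663841408)))))) (A0 (A0 (B (B (K (.negSucc 111102053312123999)) (K (.negSucc 204509302928884799)) N N) (A0 (K (.negSucc 203960418836275583)))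 N N))) (A1 (A1 (A1 (A1 (K (.ofNat 4308108190370208))))))) (B (B (B (B (B N N (K (.ofNat 65538369149432592)) (K (.negSucc 458292575501656895))) (B N N (K (.negSucc 68063066252845607)) (K (.negSucc 599213889187891151))) (B (K (.ofNat 268757742633706704)) (K (.ofNat 166380635378227872)) N N) (A1 (K (.ofNat 94850789381651352)))) (B (B N N (K (.ofNat 116380097081725680)) (K (.negSucc 677287052049627095))) (B N N (K (.ofNat 77185241838815880)) (K (.negSucc 13136673818915303))) (B (K (.negSucc 135217547037791231)) (K (.ofNat 20229128441996880)) N N) (A1 (K (.negSucc 43431069918279623)))) (B (B (K (.ofNat 201454265925210816)) (K (.ofNat 30610943129720016)) N N) (A0 (K (.ofNat 599305640840298000))) N N) (A1 (A1 (K (.negSucc 239044748697175175))))) (B (B N (B N N (K (.negSucc 78914661473150159)) (K (.negSucc 184305252011130767))) (B (K (.ofNat 337542783540491256)) (K (.ofNat 20086393809110496)) N N) (A1 (K (.negSucc 101539815896260559)))) (B (B N N (K (.negSucc 6018751176352991)) (K (.negSucc 233229186625004639))) N (B (K (.ofNat 146995424989745808))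 (K (.negSucc 166986296572658639)) N N) (A1 (K (.ofNat 43023196678531440)))) (B (B (K (.negSucc 128002633444820735)) (K (.ofNat 94256148284463312)) N N) (A0 (K (.ofNat 96918525760610736))) N N) N) (A0 (A0 (A0 (K (.negSucc 106022198099694743))))) N) (B (A0 (B (A2 (K (.negSucc 36502404055012223))) N (A0 (K (.ofNat 58618353693525696))) N)) (B N (B N (B N N (K (.negSucc 1716042124857311)) (K (.ofNat 1092853328265216))) (A0 (K (.ofNat 4101455270080224))) (A1 (K (.ofNat 1043217038723328)))) (A0 (A0 (K (.negSucc 10118947288032575)))) (A1 (A1 (K (.negSucc 839430273023))))) (A0 (A0 (A0 (K (.negSucc 1283544912700511))))) (A1 (A1 (A1 (K (.negSucc 409060389342527)))))) (A0 (A0 (A0 (A0 (K (.negSucc 58194364632600671)))))) (A1 (A1 (A1 (A1 (K (.negSucc 406122383386943))))))) (A0 (A0 (A0 (B (B (K (.negSucc 33940874753106047)) (K (.negSucc 59113614128647679)) N N) (A0 (K (.negSucc 49590816981943103))) N N)))) N)⟩,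
  ⟨.z, .z, (B (B (B (B (B (B (K (.ofNat 33940874753106048)) (K (.negSucc 401153586013713455)) N N) (B (K (.negSucc 23510493352018511)) (K (.negSucc 664690266899093231)) N N) N N) (B (B (K (.negSucc 461485597599392687)) (K (.negSucc 1533303511287631775)) N N) (B (K (.negSucc 783593640396177407)) (K (.negSucc 762368024303394767)) N N) N N) N N) (B (B (B (K (.negSucc 271830492891863135)) (K (.negSucc 534998425165578863)) N N) (B (K (.negSucc 690031407965337647)) (K (.negSucc 485097354310251311)) N N) N N) (B (A0 (K (.negSucc 362354965599632543))) (A1 (K (.negSucc 13109866116868079))) N N) N N) N N) (B (B (B (B (K (.ofNat 616019124436412256)) (K (.ofNat 899945081212444848)) N N) (B (K (.ofNat 906458079591309168)) (K (.negSucc 21763401319366559)) N N) N N) (B (A1 (K (.negSucc 11059457514284591))) (A0 (K (.ofNat 300039769543104864))) N N) N N) (B (A0 (A0 (K (.ofNat 21617077891046400)))) (A1 (A1 (K (.ofNat 2155313240594640)))) N N) N N) N N) (A0 (B (B (B (B (K (.ofNat 48512610226220112)) (K (.ofNat 289675405924630992)) N N) (B (K (.ofNat 113234474556927360))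 (K (.ofNat 257682626731916064)) N N) N N) (B (B (K (.negSucc 42068014366373855)) (K (.ofNat 263660086497710448)) N N) (B (K (.ofNat 118303686266144400)) (K (.ofNat 71049427791261696)) N N) N N) N N) (A0 (A1 (B (K (.ofNat 102400104477358800)) (K (.ofNat 52711787658802608)) N N))) N N)) N N)⟩,
  ⟨.x, T0, (B (B (B (B (B N N (K (.ofNat 24557022056448)) (K (.ofNat 110597841221188608))) (B N N (K (.ofNat 15810229805956992)) (K (.negSucc 30542989160041343))) (B (K (.ofNat 5246439206400)) (K (.ofNat 186656169660123744)) N N) (A1 (K (.negSucc 2697651170762687)))) (B (B N N (K (.ofNat 314547273466800192)) (K (.negSucc 66358402002797183))) (B N N (K (.ofNat 218557505702690784)) (K (.ofNat 11818647167574240))) (B (K (.ofNat 55590342906901824)) (K (.negSucc 318438788408893151)) N N) (A1 (K (.ofNat 65337728804083008)))) (B (A1 (K (.ofNat 7443872336886048))) (A0 (K (.negSucc 30209209154885375))) N N) (A1 (A1 (K (.ofNat 17769738024418464))))) (B (B (B N N (K (.ofNat 36503698159299168)) (K (.ofNat 11363320523715552))) (B N N (K (.negSucc 14144059282385087))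 (K (.negSucc 791279637293375))) (B (K (.negSucc 819992899956383)) (K (.ofNat 4136030117773344)) N N) (A1 (K (.ofNat 5283149778260928)))) (B (B N N (K (.ofNat 50118084425808000)) (K (.negSucc 68160667468914719))) (B N N (K (.negSucc 83235213395498303)) (K (.negSucc 56054705959695743))) (B (K (.ofNat 38982253805151552)) (K (.negSucc 31787275384563551)) N N) (A1 (K (.ofNat 83335877728197696)))) (B (B (K (.negSucc 94156787642908031)) (K (.ofNat 35409394561953888)) N N) (A0 (K (.ofNat 31808669354233632))) N N) (A1 (A1 (K (.ofNat 68283317286059904))))) (A0 (B (A1 (K (.negSucc 7656391601649503))) (A0 (K (.negSucc 72775035391508351))) N N)) (A1 (A1 (A1 (K (.ofNat 10478155777510176)))))) (B (B (B (B N N (K (.negSucc 77258286208649951)) (K (.ofNat 55261699779333600))) (B N N (K (.negSucc 114910868078685503)) (K (.negSucc 69017755279888799))) (B (K (.negSucc 19075775153875775)) (K (.ofNat 234453589324299072)) N N) (A1 (K (.negSucc 53039095101310751)))) (B (B N N (K (.ofNat 15052488830697024)) (K (.negSucc 67678860903113375))) (B N N (K (.negSucc 54750081254375807))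 (K (.negSucc 62625939792589151))) (B (K (.negSucc 1762374013497215)) (K (.ofNat 16116197843908512)) N N) (A1 (K (.ofNat 46409723165040480)))) (B (B (K (.negSucc 28074905529947135)) (K (.ofNat 9208805971498560)) N N) (A0 (K (.ofNat 11566339354061856))) N N) (A1 (A1 (K (.ofNat 66217334387369760))))) (B (B (B N N (K (.negSucc 61004549580549119)) (K (.ofNat 51388676455306176))) N (B (K (.negSucc 31241141628669503)) (K (.ofNat 71502379854730272)) N N) (A1 (K (.negSucc 36570153285447263)))) (B N (B N N (K (.negSucc 1560424694959871)) (K (.ofNat 1322172506670624))) (A0 (K (.ofNat 201500031565728))) (A1 (K (.ofNat 781078459756896)))) (A0 (A0 (K (.ofNat 29294059317044256)))) (A1 (A1 (K (.ofNat 113007840718752))))) (A0 (B (A0 (K (.ofNat 21185613450195264))) (A0 (K (.ofNat 33938768250563904))) N N)) (A1 (A1 (A1 (K (.ofNat 1058984113668768)))))) (A0 (A0 (B (A1 (K (.ofNat 13684518484684992))) (A0 (K (.negSucc 16703138830585535))) N N))) (A1 (A1 (A1 (A1 (K (.ofNat 406122383386944)))))))⟩,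
  ⟨.x, T1, (B (B (B (B (B N N (K (.ofNat 120262159104192)) (K (.ofNat 1409286009112128))) (B N N (K (.negSucc 273333676210275743)) (K (.negSucc 219999010727166047))) (B (K (.negSucc 747334562393663)) (K (.ofNat 191489906112793344)) N N) (A1 (K (.negSucc 281450714707007)))) (B (B N N (K (.negSucc 151811171897003135)) (K (.negSucc 166707979076022047))) (B N N (K (.negSucc 231386061518349695)) (K (.negSucc 227045869904935871))) (B (K (.negSucc 47364094134540287)) (K (.ofNat 125239479225864192)) N N) (A1 (K (.ofNat 17996503847777280)))) (B (B (K (.negSucc 1928994937023167)) (K (.ofNat 72419295663350496)) N N) (A0 (K (.ofNat 219670645921374816))) N N) N) (B (B (B N N (K (.ofNat 11357172401178240)) (K (.ofNat 110721760135824096))) (B N N (K (.ofNat 40006675477220256)) (K (.ofNat 67429385350316640))) (B (K (.ofNat 17722810631600928)) (K (.negSucc 161463770651102975)) N N) (A1 (K (.ofNat 77824953616342464)))) (B (B N N (K (.negSucc 38136224970587519)) (K (.ofNat 221492592152614944))) (B N N (K (.negSucc 62259321042459071)) (K (.negSucc 154691688797317727)))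 (B (K (.ofNat 133185255439864320)) (K (.negSucc 69042141939131423)) N N) (A1 (K (.negSucc 136200527497470239)))) (B (B (K (.negSucc 16747426990732031)) (K (.negSucc 279009257278052447)) N N) (A0 (K (.negSucc 386706950028814463))) N N) (A1 (A1 (K (.ofNat 121612755414993696))))) (A0 (B (B (K (.ofNat 8376331250776608)) (K (.negSucc 688823331400511)) N N) (A0 (K (.ofNat 77422330232795520))) N N)) N) (B (B (B (B N N (K (.ofNat 82765100015795232)) (K (.ofNat 65108949938413920))) (B N N (K (.ofNat 235980452151249120)) (K (.ofNat 164934948096368352))) (B (K (.negSucc 81132397009161119)) (K (.negSucc 373551056879708735)) N N) (A1 (K (.ofNat 64348349536358496)))) (B (B N N (K (.negSucc 132163995986598239)) (K (.ofNat 168772386466192320))) (B N N (K (.negSucc 76595905148063615)) (K (.negSucc 146601562165934399))) (B (K (.ofNat 58272972787352736)) (K (.ofNat 50268394428251328)) N N) (A1 (K (.negSucc 84769395579487583)))) (B (B (K (.negSucc 101099300086322495)) (K (.negSucc 226168857646409663)) N N) (A0 (K (.negSucc 304251739452668447))) N N) (A1 (A1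 (K (.ofNat 119032044663887712))))) (B (B (B N N (K (.ofNat 18579080111034240)) (K (.ofNat 86757011237314656))) N (B (K (.negSucc 51236108190600479)) (K (.ofNat 111991209098073984)) N N) (A1 (K (.ofNat 52509725394761376)))) (B N (B N N (K (.ofNat 1312151233347360)) (K (.negSucc 2903386120967807))) (A0 (K (.negSucc 12577545976617215))) (A1 (K (.ofNat 1280483247107232)))) (A0 (A0 (K (.negSucc 56934201533987231)))) (A1 (A1 (K (.ofNat 113007840718752))))) (A0 (B (A0 (K (.negSucc 3123812663929439))) (A0 (K (.negSucc 78005580636352319))) N N)) (A1 (A1 (A1 (K (.negSucc 3655246460088383)))))) (A0 (A0 (B (B (K (.ofNat 111102053312124000)) (K (.ofNat 111962780952908256)) N N) (A0 (K (.ofNat 118536054751193184))) N N))) N)⟩,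
  ⟨.x, T2, (B (B (B (B (B (K (.ofNat 67881749506212096)) (K (.ofNat 162908373530820960)) N N) (B (K (.ofNat 153113977358967744)) (K (.ofNat 45410456331932832)) N N) N N) (B (B (K (.negSucc 13891508077928543)) (K (.ofNat 108645732156417120)) N N) (B (K (.ofNat 86260337281379520)) (K (.ofNat 25932620842154208)) N N) N N) N N) (B (B (B (K (.negSucc 27610335596616191)) (K (.ofNat 56178131838903648)) N N) (B (K (.ofNat 83697466600099296)) (K (.ofNat 28406439954107712)) N N) N N) (A1 (A1 (K (.negSucc 4308108190370207)))) N N) N N) (B (B (B (B (K (.ofNat 10844284744500480)) (K (.ofNat 27843326445416832)) N N) (B (K (.ofNat 35819623032792480)) (K (.ofNat 12402811241214912)) N N) N N) (B (A1 (K (.ofNat 1842361871535360))) (A0 (K (.ofNat 2032317030306528))) N N) N N) (A1 (A1 (A1 (K (.negSucc 1259145409535))))) N N) N N)⟩,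
  ⟨.z, T0, (A0 (B (B (B (B (K (.ofNat 33940874753106048)) (K (.ofNat 76786376819358528)) N N) (B (K (.ofNat 48688845584930208)) (K (.ofNat 5758275876339168)) N N) N N) (B (B (K (.negSucc 65585446275448511)) (K (.negSucc 36018687656941919)) N N) (A0 (K (.negSucc 34161522778847519))) N N) N N) (A0 (A0 (B (K (.ofNat 5073782168318976)) (K (.negSucc 772253450539199)) N N))) N N))⟩,
  ⟨.x, T4, (B (B (B N N (B N N (K (.negSucc 35014374880127)) (K (.ofNat 1569247683655680))) (A3 (K (.negSucc 1209100800940703)))) (B N N (B N N (K (.negSucc 585102588787583)) (K (.negSucc 1336059992582783))) (A3 (K (.ofNat 22917873083616)))) (B (B N N (K (.negSucc 93975641133695)) (K (.ofNat 1417340753377920))) (B N N (K (.ofNat 2105134034209920)) (K (.ofNat 42057539090784))) (A0 (K (.negSucc 62653262749055))) (A1 (K (.negSucc 1202860316276639)))) (B N (A3 (K (.ofNat 64024654290912))) N (A1 (K (.ofNat 46768547405664))))) (B (B N N (B N N (K (.negSucc 51476818952159)) (K (.negSucc 858676103866223))) (A3 (K (.ofNat 507691191232512)))) (A2 (B N N (K (.ofNat 86564268411264))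 (K (.ofNat 603061681768560)))) (B (B N N (K (.negSucc 152736970758623)) (K (.negSucc 426178033022447))) (B N N (K (.negSucc 945214903544687)) (K (.negSucc 56635017635951))) (A0 (K (.negSucc 104585605554527))) (A1 (K (.ofNat 521503590577536)))) (A3 (A1 (K (.negSucc 839430273023))))) (B (B (B N N (K (.negSucc 16959899480831)) (K (.ofNat 3384594388224))) (A2 (K (.ofNat 498681688603392))) N N) (A0 (B N N (K (.ofNat 567383070498048)) (K (.negSucc 270395775707903)))) N N) (A1 (A3 (A1 (K (.ofNat 419715136512))))))⟩,
  ⟨.x, T5, (A1 (A1 (B (A2 (K (.negSucc 149500721260799))) N N (A1 (K (.ofNat 1469002977792))))))⟩,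
  ⟨.x, T6, (B (B (B N N (B N N (K (.ofNat 1888718114304)) (K (.ofNat 60131079552096))) (A3 (K (.ofNat 704433146987808)))) (B N N (B N N (K (.ofNat 2982372525516384)) (K (.ofNat 9770084362257408))) (A3 (K (.negSucc 15909649176375359)))) (B (B N N (K (.ofNat 629572704768)) (K (.negSucc 371358847946015))) (B N N (K (.negSucc 10442958243613055)) (K (.ofNat 17117020026785952))) (A0 (K (.ofNat 839430273024))) (A1 (K (.negSucc 708613969224671)))) (B N (A3 (K (.ofNat 546399178385760))) N (A1 (K (.negSucc 141145072490015))))) (B (B N N (B N N (K (.negSucc 7439103691772255)) (K (.ofNat 26103725245691856))) (A3 (K (.negSucc 14974054514683487)))) (B N N (B N N (K (.negSucc 7226433585280223)) (K (.ofNat 8145136364947344))) (A3 (K (.ofNat 974583217935936)))) (B (B N N (K (.negSucc 6071949287373311)) (K (.ofNat 12455684118413424))) (B N N (K (.ofNat 6502492386624528)) (K (.negSucc 9143082836499023))) (A0 (K (.ofNat 1650685630912416))) (A1 (K (.ofNat 1634234956635456)))) (B N (A3 (K (.negSucc 130567599400895))) N (A1 (K (.negSucc 93537094811327))))) (B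 (B (B N N (K (.negSucc 2514604248575)) (K (.negSucc 1026394391435615))) (B N N (K (.ofNat 4365832400318592)) (K (.ofNat 15917170255977312))) (B (K (.ofNat 2308433250816)) (K (.negSucc 17616968022943295)) N N) (A1 (K (.negSucc 504167288754527)))) (B (B N N (K (.negSucc 7054047059149439)) (K (.ofNat 2575360886255136))) N (A0 (K (.negSucc 1624811822244575))) (A1 (K (.negSucc 533404807667423)))) N (A1 (A1 (K (.negSucc 3045400737109919))))) (A1 (B N (A3 (K (.ofNat 4212967173543072))) N (A1 (K (.negSucc 495417493553471))))))⟩,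
  ⟨.x, T7, (B (B (B (B N N (K (.ofNat 22671990512640)) (K (.ofNat 8257993701703200))) (B N N (K (.negSucc 35763344853068447)) (K (.negSucc 6257017297655711))) (B (K (.ofNat 8814017866752)) (K (.ofNat 20124713831789952)) N N) (A1 (K (.ofNat 6260446142810496)))) (B (B N N (K (.ofNat 741087693019296)) (K (.negSucc 13768680780721439))) (B N N (K (.negSucc 8873444129814431)) (K (.negSucc 4315237808926463))) (B (K (.negSucc 7459696585238687)) (K (.negSucc 4251805679378879)) N N) (A1 (K (.ofNat 6469113878349696)))) (B (A1 (K (.negSucc 3505735474494623))) (A0 (K (.ofNat 16382107404175968))) N N) (A1 (A1 (K (.negSucc 4921631796769631))))) (B (B (B N N (K (.ofNat 16227636346853568)) (K (.negSucc 6566652208535327))) (B N N (K (.negSucc 2117615449027679)) (K (.ofNat 3913583124247776))) (B (K (.ofNat 12432973017501792)) (K (.negSucc 4105913936578271)) N N) (A1 (K (.ofNat 6297252079874112)))) (B (B N N (K (.ofNat 7162605425864448)) (K (.ofNat 5534171856029376))) (B N N (K (.negSucc 1892092776757343)) (K (.ofNat 2415025834935840))) (B (K (.ofNat 10371995452998144))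 (K (.negSucc 1389410624697983)) N N) (A1 (K (.ofNat 1825764501458016)))) (B (B (K (.negSucc 4361008780886687)) (K (.ofNat 5732523088621056)) N N) (A0 (K (.negSucc 4647143543920415))) N N) (A1 (A1 (K (.ofNat 112168410445728))))) (A0 (B (A1 (K (.ofNat 3196073867422464))) (A0 (K (.negSucc 1164934913464223))) N N)) (A1 (A1 (A1 (K (.ofNat 649923724326240))))))⟩,
  ⟨.x, T8, (B (B (B (B N N (K (.ofNat 24557022056448)) (K (.ofNat 8769340949959296))) (B N N (K (.negSucc 62188293421838303)) (K (.negSucc 17743933792710719))) (B (K (.ofNat 4407008933376)) (K (.ofNat 30609026135434656)) N N) (A1 (K (.ofNat 5509475609490720)))) (B (B N N (K (.negSucc 13228779178008575)) (K (.negSucc 32518609526884319))) (B N N (K (.negSucc 19112424914723615)) (K (.negSucc 12172880352092543))) (B (K (.negSucc 21681865281436415)) (K (.negSucc 2407261133596031)) N N) (A1 (K (.ofNat 11726927640306144)))) (B (A1 (K (.ofNat 3475763759928096))) (A0 (K (.ofNat 51124416998832576))) N N) (A1 (A1 (K (.negSucc 2580710751105983))))) (B (B (B N N (K (.ofNat 16521065436808800)) (K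 (.negSucc 14007629754439775))) (B N N (K (.negSucc 5342745999068351)) (K (.ofNat 4396591544417856))) (B (K (.ofNat 25644279824882208)) (K (.negSucc 4494522910929407)) N N) (A1 (K (.ofNat 12310103623531392)))) (B (B N N (K (.ofNat 8249995213562592)) (K (.ofNat 20445372208941120))) (B N N (K (.negSucc 12665391393866399)) (K (.negSucc 2903386120967807))) (B (K (.ofNat 19749273112650816)) (K (.ofNat 13978801772623296)) N N) (A1 (K (.ofNat 1277545241151648)))) (B (B (K (.negSucc 2379623735258783)) (K (.negSucc 10560931750635839)) N N) (A0 (K (.negSucc 33862893784957439))) N N) (A1 (A1 (K (.ofNat 113007840718752))))) (A0 (B (A1 (K (.ofNat 10899608556465216))) (A0 (K (.ofNat 7556746498104384))) N N)) (A1 (A1 (A1 (K (.negSucc 3655246460088383))))))⟩,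
  ⟨.x, T9, (A0 (B (B (A1 (K (.ofNat 2926187413371936))) (B (K (.ofNat 11151759368052576)) (K (.negSucc 3172511140376255)) N N) N N) (A0 (B (K (.negSucc 976471910394623)) (K (.negSucc 7817220073895903)) N N)) N N))⟩,
  ⟨.x, T10, (A1 (B (B (B N N (K (.negSucc 1707413950884095)) (K (.ofNat 745188583442688))) (B N N (K (.negSucc 11650729729891391)) (K (.negSucc 4218003755181215))) (B (K (.negSucc 694916268373151)) (K (.ofNat 13324177092447648)) N N) (A1 (K (.ofNat 494997778416960)))) (B (A2 (K (.negSucc 1259784964107935))) (A2 (K (.negSucc 407381528796479))) (A0 (K (.negSucc 2853130607260415))) (A1 (K (.ofNat 1678860546048)))) N N))⟩,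
  ⟨.x, T11, (A1 (B (B (B (K (.ofNat 823194323479584)) (K (.ofNat 12029059659982176)) N N) (B (K (.ofNat 10668306739543488)) (K (.ofNat 4714230573757152)) N N) N N) (B (A0 (K (.negSucc 1991006904392351))) (A1 (K (.negSucc 2518290819071))) N N) N N))⟩,
  ⟨.x, T12, (B (B N N (B N N (K (.ofNat 9838395883008)) (K (.negSucc 57641682599423))) (A3 (K (.negSucc 40665763998719)))) (B N N (B N N (K (.ofNat 69050965971456)) (K (.negSucc 76924944069119))) (A3 (K (.negSucc 20732113285631)))) (B (B N N (K (.ofNat 18028893012480)) (K (.ofNat 70165263038976))) (B N N (K (.ofNat 10645044157440)) (K (.ofNat 821875299840))) (A0 (K (.negSucc 11745075686399))) N) N)⟩,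
  ⟨.x, T13, (B (B (B N N (K (.ofNat 3770063087616)) (K (.ofNat 123793845848064))) (A3 (K (.negSucc 46581007011839))) (B (K (.negSucc 7135157320703)) (K (.ofNat 146038748083200)) N N) (A1 (K (.negSucc 18047750870015)))) (A0 (A2 (K (.ofNat 12171738958848)))) N N)⟩,
  ⟨.x, T14, (A0 (B (B N N (K (.negSucc 26442053600255)) (K (.negSucc 8814017866751))) (A3 (K (.ofNat 7554872457216))) N N))⟩,
  ⟨.x, T15, (A0 (A0 (A1 (K (.negSucc 2518290819071)))))⟩,
  ⟨.x, T17, (A2 (K (.negSucc 5036581638143)))⟩,
  ⟨.x, T19, (A2 (K (.ofNat 1259145409536)))⟩,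
  ⟨.z, T17, (A0 (K (.ofNat 3777436228608)))⟩,
  ⟨.x, T23, (K (.ofNat 1259145409536))⟩,
  ⟨.x, T27, (K (.ofNat 2518290819072))⟩] c_0 c_1 c_2 c_3 .nil .nil)

end Pool.Agent.Helper805.Chain.C6a
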