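import Pool.Agent.Helper805.Chain.C6aE
set_option autoImplicit false

/-! The kernel check of the certificate, in pieces. -/

namespace Pool.Agent.Helper805.Chain.C6a
open Pool.Agent.Helper805.Chain

theorem ck0k : Tri.isz (cst (c0 pol)) = true := by decide +kernel
theorem ck00 : Tri.isZ (c0 (c0 pol)) = true := by decide +kernel
theorem ck01 : Tri.isZ (c1 (c0 pol)) = true := by decide +kernel
theorem ck02 : Tri.isZ (c2 (c0 pol)) = true := by decide +kernel
theorem ck03 : Tri.isZ (c3 (c0 pol)) = true := by decide +kernel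
theorem ck04 : Tri.isZ (c4 (c0 pol)) = true := by decide +kernel
theorem ck05 : Tri.isZ (c5 (c0 pol)) = true := by decide +kernel
theorem ck0 : Tri.isZ (c0 pol) = true :=
  isZ_split _ ck0k ck00 ck01 ck02 ck03 ck04 ck05

end Pool.Agent.Helper805.Chain.C6a
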