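import Pool.Agent.Helper805.Chain.C6bE
set_option autoImplicit false

/-! The kernel check of the certificate, in pieces. -/

namespace Pool.Agent.Helper805.Chain.C6b
open Pool.Agent.Helper805.Chain

theorem ck3k : Tri.isz (cst (c3 pol)) = true := by decide +kernel
theorem ck30 : Tri.isZ (c0 (c3 pol)) = true := by decide +kernel
theorem ck31 : Tri.isZ (c1 (c3 pol)) = true := by decide +kernel
theorem ck32 : Tri.isZ (c2 (c3 pol)) = true := by decide +kernel
theorem ck33 : Tri.isZ (c3 (c3 pol)) = true := by decide +kernel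
theorem ck34 : Tri.isZ (c4 (c3 pol)) = true := by decide +kernel
theorem ck35 : Tri.isZ (c5 (c3 pol)) = true := by decide +kernel
theorem ck3 : Tri.isZ (c3 pol) = true :=
  isZ_split _ ck3k ck30 ck31 ck32 ck33 ck34 ck35

end Pool.Agent.Helper805.Chain.C6b
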