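import Pool.Agent.Helper805.Chain.C6bE0
import Pool.Agent.Helper805.Chain.C6bE1
import Pool.Agent.Helper805.Chain.C6bE2
import Pool.Agent.Helper805.Chain.C6bE3
import Pool.Agent.Helper805.Chain.C6bE4
import Pool.Agent.Helper805.Chain.C6bE5
set_option autoImplicit false

namespace Pool.Agent.Helper805.Chain.C6b
open Pool.Agent.Helper805.Chain

theorem check : Tri.isZ (Tri.add (Tri.smul (Int.ofNat 898446753792) tC6) (total false cert)) = true :=
  isZ_split pol ck ck0 ck1 ck2 ck3 ck4 ck5

end Pool.Agent.Helper805.Chain.C6b
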