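import Pool.Agent.Helper805.Chain.C6bM
set_option autoImplicit false
set_option maxRecDepth 100000

/-! Certificate data (found by computer). -/

namespace Pool.Agent.Helper805.Chain.C6b
open Pool.Agent.Helper805.Chain

def c_0000 : Cert := (.node [⟨.x, .z, (B (A2 (K (.ofNat 522214939736000388))) (B N N (K (.negSucc 6777613701762323)) (K (.negSucc 624664942027676399))) (B (K (.negSucc 6732475169074075563)) (K (.negSucc 349200414636419435)) N N) (B (K (.negSucc 3600157853384717743)) (K (.ofNat 46948367210710464)) N N))⟩,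
  ⟨.z, .z, (B (B (K (.negSucc 3925481825301589771)) (K (.negSucc 946408233220206629)) N N) (B (K (.ofNat 2558588660896517360)) (K (.ofNat 374700249834946992)) N N) N N)⟩,
  ⟨.x, T0, (B N N (K (.ofNat 50854049175183840)) (K (.ofNat 417769517673482376)))⟩,
  ⟨.x, T1, (B N N (K (.negSucc 130085749027039895)) (K (.ofNat 237435591226968852)))⟩,
  ⟨.x, T2, (B (K (.ofNat 3210933414305080712)) (K (.negSucc 210181657750618835)) N N)⟩,
  ⟨.z, T0, (A0 (K (.negSucc 3950610298735883971)))⟩,
  ⟨.x, T9, (K (.ofNat 327501174118569396))⟩] (.node [⟨.x, .z, (B N N (K (.negSucc 229663299182891507)) (K (.negSucc 80299306398268367)))⟩,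
  ⟨.z, .z, (B (K (.ofNat 268068368811230010)) (K (.ofNat 131430210795769032)) N N)⟩,
  ⟨.x, T2, (K (.ofNat 209876448853174452))⟩,
  ⟨.z, T0, (K (.negSucc 68629488706616843))⟩] (.node [⟨.z, .z, (K (.negSucc 284815443871814303))⟩] .nil .nil .nil .nil .nil .nil) (.node [⟨.z, .z, (K (.negSucc 319560859984515155))⟩] .nil .nil .nil .nil .nil .nil) (.node [⟨.x, .z, (K (.negSucc 141246960146557607))⟩] .nil .nil .nil .nil .nil .nil) (.node [⟨.x, .z, (K (.negSucc 136839586330012031))⟩] .nil .nil .nil .nil .nil .nil) .nil .nil) (.node [⟨.x, .z, (B N N (K (.ofNat 457582776995465664)) (K (.ofNat 384283943313288960)))⟩,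
  ⟨.z, .z, (B (K (.ofNat 3631157014824757796)) (K (.ofNat 783174397925066688)) N N)⟩,
  ⟨.x, T2, (K (.negSucc 191785983266420747))⟩,
  ⟨.z, T0, (K (.negSucc 234517004077571015))⟩] (.node [⟨.z, .z, (K (.negSucc 355228422753714431))⟩] .nil .nil .nil .nil .nil .nil) (.node [⟨.z, .z, (K (.negSucc 103634576516157887))⟩] .nil .nil .nil .nil .nil .nil) (.node [⟨.x, .z, (K (.ofNat 532145802209336628))⟩] .nil .nil .nil .nil .nil .nil) (.node [⟨.x, .z, (K (.ofNat 308841692570045112))⟩] .nil .nil .nil .nil .nil .nil) .nil .nil) (.node [⟨.x, .z, (B (K (.ofNat 345207389192682672)) (K (.negSucc 525477295208359775)) N N)⟩,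
  ⟨.x, T0, (K (.ofNat 408157778840409216))⟩] .nil (.node [⟨.x, .z, (K (.negSucc 176287661932985843))⟩] .nil .nil .nil .nil .nil .nil) .nil .nil .nil .nil) (.node [⟨.x, .z, (B (K (.negSucc 2919834774975917515)) (K (.ofNat 583116411233411148)) N N)⟩,
  ⟨.x, T0, (K (.negSucc 552824680507034219))⟩,
  ⟨.x, T1, (K (.negSucc 207814398370233983))⟩] (.node [⟨.x, .z, (K (.ofNat 250880998710370428))⟩] .nil .nil .nil .nil .nil .nil) (.node [⟨.x, .z, (K (.negSucc 355842881173389815))⟩] .nil .nil .nil .nil .nil .nil) .nil .nil .nil .nil) .nil .nil)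

def c_0001 : Cert := (.node [⟨.x, .z, (B (A2 (K (.negSucc 317656189021545851))) (B N N (K (.ofNat 860636841038799912)) (K (.ofNat 243022035181388940))) (B (K (.negSucc 3641490315279058595)) (K (.ofNat 448300503857561112)) N N) (B (K (.negSucc 6808100087019740255)) (K (.ofNat 60550195490124432)) N N))⟩,
  ⟨.z, .z, (B (B (K (.negSucc 3153203772233410469)) (K (.negSucc 2512069594219460191)) N N) (B (K (.negSucc 4379475307595557607)) (K (.negSucc 510125872587515111)) N N) N N)⟩,
  ⟨.x, T0, (B N N (K (.negSucc 518530744291377095)) (K (.ofNat 370888036612014312)))⟩,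
  ⟨.x, T1, (B N N (K (.negSucc 245470537594725335)) (K (.negSucc 648156303156348095)))⟩,
  ⟨.x, T2, (B (K (.ofNat 6316530415131466512)) (K (.negSucc 570665071914720527)) N N)⟩,
  ⟨.z, T0, (A0 (K (.ofNat 3380271369071573220)))⟩,
  ⟨.x, T9, (K (.ofNat 753241657377678600))⟩,
  ⟨.x, T11, (K (.ofNat 751163985462506568))⟩] (.node [⟨.x, .z, (B N N (K (.negSucc 478892954822897153)) (K (.negSucc 88952246174413991)))⟩,
  ⟨.z, .z, (B (K (.ofNat 873180013657898481)) (K (.ofNat 939226625337987363)) N N)⟩,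
  ⟨.x, T2, (K (.ofNat 1010006808073295250))⟩,
  ⟨.z, T0, (K (.negSucc 18244869215275883))⟩] (.node [⟨.z, .z, (K (.negSucc 1226232136771379096))⟩] .nil .nil .nil .nil .nil .nil) (.node [⟨.z, .z, (K (.negSucc 1063769376218186222))⟩] .nil .nil .nil .nil .nil .nil) (.node [⟨.x, .z, (K (.ofNat 90565669917929412))⟩] .nil .nil .nil .nil .nil .nil) (.node [⟨.x, .z, (K (.negSucc 625414157305888967))⟩] .nil .nil .nil .nil .nil .nil) .nil .nil) (.node [⟨.x, .z, (B N N (K (.ofNat 493439611340641120)) (K (.ofNat 674025079453816628)))⟩,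
  ⟨.z, .z, (B (K (.negSucc 3237493677401543097)) (K (.ofNat 930283058218445170)) N N)⟩,
  ⟨.x, T2, (K (.ofNat 607566890555764))⟩,
  ⟨.z, T0, (K (.negSucc 428583685035765783))⟩] (.node [⟨.z, .z, (K (.negSucc 529755985572690305))⟩] .nil .nil .nil .nil .nil .nil) (.node [⟨.z, .z, (K (.negSucc 170224119701863933))⟩] .nil .nil .nil .nil .nil .nil) (.node [⟨.x, .z, (K (.negSucc 186682830797820947))⟩] .nil .nil .nil .nil .nil .nil) (.node [⟨.x, .z, (K (.negSucc 7822412195281395))⟩] .nil .nil .nil .nil .nil .nil) .nil .nil) (.node [⟨.x, .z, (B (K (.ofNat 12389105083076173236)) (K (.ofNat 1687100827687356468)) N N)⟩,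
  ⟨.x, T0, (K (.ofNat 1282244276513299104))⟩,
  ⟨.x, T1, (K (.negSucc 1282057534215476363))⟩] (.node [⟨.x, .z, (K (.ofNat 1230461853226484472))⟩] .nil .nil .nil .nil .nil .nil) (.node [⟨.x, .z, (K (.negSucc 161944255976886023))⟩] .nil .nil .nil .nil .nil .nil) .nil .nil .nil .nil) (.node [⟨.x, .z, (B (K (.negSucc 5304132713388397811)) (K (.ofNat 1241466336775390884)) N N)⟩,
  ⟨.x, T0, (K (.negSucc 478161362306905667))⟩,
  ⟨.x, T1, (K (.negSucc 1053033976864814039))⟩] (.node [⟨.x, .z, (K (.ofNat 353247851742829956))⟩] .nil .nil .nil .nil .nil .nil) (.node [⟨.x, .z, (K (.ofNat 630456820801413468))⟩] .nil .nil .nil .nil .nil .nil) .nil .nil .nil .nil) .nil .nil)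

def c_000 : Cert := (.node [⟨.x, .z, (B (B (A2 (K (.ofNat 499573236322090128))) N (B (K (.negSucc 10603644599687333483)) (K (.negSucc 1349563808161079459)) N N) N) (B (A2 (K (.ofNat 398429274535168236))) (B N N (K (.negSucc 469840485974759423)) (K (.negSucc 711558867323028227))) (B (K (.negSucc 21895831583441959031)) (K (.negSucc 2932499396413405271)) N N) (B (K (.negSucc 10504032123160408535)) (K (.negSucc 1417519550305760783)) N N)) (B (B (K (.ofNat 2173102957149312372)) (K (.ofNat 3281935724253279712)) N N) (B (K (.ofNat 21868898849218922388)) (K (.ofNat 2233786321086902484)) N N) N N) (B (B (K (.negSucc 4378215992822263127)) (K (.ofNat 963880572276534140)) N N) (B (K (.ofNat 419131715151013956)) (K (.negSucc 407882201854697087)) N N) N N))⟩,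
  ⟨.z, .z, (B (B (B (K (.ofNat 6556368813148887060)) (K (.ofNat 2524495606598136740)) N N) (B (K (.ofNat 10587401814807776214)) (K (.ofNat 512723090235177714)) N N) N N) (B (B (K (.ofNat 4735216019661665994)) (K (.negSucc 466825880708429557)) N N) (B (K (.ofNat 762016462932001674)) (K (.negSucc 119599540084899503)) N N) N N) N N)⟩,
  ⟨.x, T0, (B (A2 (K (.negSucc 253402354772508191))) (B N N (K (.negSucc 1242634142247398087)) (K (.ofNat 259682601856936212))) (B (K (.negSucc 136029498983701583)) (K (.ofNat 1805979877686619980)) N N) (B (K (.ofNat 9890873389338074664)) (K (.ofNat 1746870755830474392)) N N))⟩,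
  ⟨.x, T1, (B (A2 (K (.negSucc 820512219859277699))) (B N N (K (.negSucc 534338774103369575)) (K (.negSucc 86979153446432915))) (B (K (.ofNat 10269674262828964596)) (K (.ofNat 724978369459885236)) N N) (B (K (.ofNat 117053912410116780)) (K (.negSucc 21777858669546647)) N N))⟩,
  ⟨.x, T2, (B (B (K (.ofNat 4502136508902937680)) (K (.negSucc 839145964439857615)) N N) (B (K (.ofNat 575313752326021260)) (K (.ofNat 40465170487522920)) N N) N N)⟩,
  ⟨.z, T0, (A0 (B (K (.ofNat 6409776601939491852)) (K (.ofNat 1644163356881220872)) N N))⟩,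
  ⟨.x, T5, (A3 (K (.ofNat 76650803320217868)))⟩,
  ⟨.x, T7, (B N N (K (.negSucc 551359586065606367)) (K (.negSucc 342636726986359067)))⟩,
  ⟨.x, T8, (B N N (K (.negSucc 1085728556274027395)) (K (.negSucc 142708621731567491)))⟩,
  ⟨.x, T9, (A0 (K (.negSucc 494041666017797459)))⟩,
  ⟨.x, T10, (A3 (K (.negSucc 110123519020039775)))⟩,
  ⟨.x, T11, (A1 (K (.negSucc 4712565895692383)))⟩,
  ⟨.x, T20, (K (.ofNat 99895614209920560))⟩,
  ⟨.x, T24, (K (.ofNat 363074713596426576))⟩,
  ⟨.x, T37, (K (.ofNat 121712815223652576))⟩,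
  ⟨.x, T15, (K (.negSucc 173463210942976151))⟩,
  ⟨.x, T33, (K (.ofNat 84232893612239544))⟩,
  ⟨.z, T13, (K (.ofNat 187699851980890560))⟩] c_0000 c_0001 (.node [⟨.x, .z, (B (B (K (.negSucc 226779058023457103)) (K (.negSucc 120186701155181495)) N N) (B (K (.ofNat 10056953455782235644)) (K (.ofNat 1149573680514980664)) N N) N N)⟩,
  ⟨.x, T0, (B (K (.negSucc 10393812907381550507)) (K (.negSucc 780685225185170615)) N N)⟩,
  ⟨.x, T1, (B (K (.ofNat 226779058023457104)) (K (.ofNat 432724766859349224)) N N)⟩,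
  ⟨.x, T5, (K (.negSucc 25858281324663719))⟩,
  ⟨.x, T7, (K (.ofNat 23288624976367896))⟩,
  ⟨.x, T8, (K (.ofNat 252637339348120824))⟩] (.node [⟨.x, .z, (B (K (.negSucc 336870232960360367)) (K (.negSucc 290167821087086159)) N N)⟩,
  ⟨.x, T0, (K (.ofNat 84222112251194040))⟩,
  ⟨.x, T1, (K (.ofNat 110091174936903264))⟩] (.node [⟨.x, .z, (K (.negSucc 110091174936903263))⟩] .nil .nil .nil .nil .nil .nil) (.node [⟨.x, .z, (K (.negSucc 406683177122498987))⟩] .nil .nil .nil .nil .nil .nil) .nil .nil .nil .nil) (.node [⟨.x, .z, (B (K (.negSucc 11558108601096001367)) (K (.negSucc 1416638867229737603)) N N)⟩,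
  ⟨.x, T0, (K (.negSucc 459907663097115911))⟩,
  ⟨.x, T1, (K (.ofNat 571847344908744120))⟩] (.node [⟨.x, .z, (K (.negSucc 1161049225734916427))⟩] .nil .nil .nil .nil .nil .nil) (.node [⟨.x, .z, (K (.negSucc 824771860035510647))⟩] .nil .nil .nil .nil .nil .nil) .nil .nil .nil .nil) .nil .nil .nil .nil) (.node [⟨.x, .z, (B (B (K (.ofNat 6725526099231126972)) (K (.ofNat 1949114372703874532)) N N) (B (K (.ofNat 8790133312713155724)) (K (.negSucc 1516855813782119399)) N N) N N)⟩,
  ⟨.x, T0, (B (K (.ofNat 2178234034666370712)) (K (.ofNat 1189426642754892516)) N N)⟩,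
  ⟨.x, T1, (B (K (.negSucc 11047807640276445167)) (K (.negSucc 1207238639601904883)) N N)⟩,
  ⟨.x, T5, (K (.negSucc 938002566257378447))⟩,
  ⟨.x, T7, (K (.negSucc 24188532027202799))⟩,
  ⟨.x, T8, (K (.negSucc 72455541099326831))⟩,
  ⟨.x, T10, (K (.negSucc 15991928406708419))⟩] (.node [⟨.x, .z, (B (K (.ofNat 11097069856674315840)) (K (.ofNat 998871671646266772)) N N)⟩,
  ⟨.x, T0, (K (.negSucc 371189593003914635))⟩,
  ⟨.x, T1, (K (.ofNat 106897057398022224))⟩] (.node [⟨.x, .z, (K (.ofNat 85029794295042984))⟩] .nil .nil .nil .nil .nil .nil) (.node [⟨.x, .z, (K (.ofNat 214716907173838860))⟩] .nil .nil .nil .nil .nil .nil) .nil .nil .nil .nil) (.node [⟨.x, .z, (B (K (.ofNat 1129982159428302024)) (K (.ofNat 261406715114254152)) N N)⟩,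
  ⟨.x, T0, (K (.negSucc 967770244668863399))⟩,
  ⟨.x, T1, (K (.negSucc 133954259511600203))⟩] (.node [⟨.x, .z, (K (.ofNat 352638493772560032))⟩] .nil .nil .nil .nil .nil .nil) (.node [⟨.x, .z, (K (.ofNat 516930871177022640))⟩] .nil .nil .nil .nil .nil .nil) .nil .nil .nil .nil) .nil .nil .nil .nil) .nil .nil)

def c_0010 : Cert := (.node [⟨.x, .z, (B (A2 (K (.ofNat 2466729411129929436))) (B N N (K (.ofNat 5154489672926613432)) (K (.ofNat 660204434651223132))) (B (K (.ofNat 7407480393464709372)) (K (.negSucc 2038473255368874887)) N N) (B (K (.ofNat 6492594734764115844)) (K (.ofNat 1553654340055208520)) N N))⟩,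
  ⟨.z, .z, (B (B (K (.ofNat 1846892109056772918)) (K (.negSucc 1521845653919232323)) N N) (B (K (.negSucc 4759409991237431087)) (K (.negSucc 155617204605285389)) N N) N N)⟩,
  ⟨.x, T0, (B N N (K (.negSucc 2093270637296942567)) (K (.negSucc 446712892808979851)))⟩,
  ⟨.x, T1, (B N N (K (.negSucc 945497697047956811)) (K (.negSucc 611830042852550267)))⟩,
  ⟨.x, T2, (B (K (.negSucc 6316806194459078507)) (K (.negSucc 2915641496961552455)) N N)⟩,
  ⟨.z, T0, (A0 (K (.ofNat 3484166622795879876)))⟩,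
  ⟨.x, T9, (K (.ofNat 2472517263627669504))⟩,
  ⟨.x, T11, (K (.ofNat 917244743570933352))⟩] (.node [⟨.x, .z, (B N N (K (.negSucc 15851403327551365)) (K (.ofNat 38718515477043176)))⟩,
  ⟨.z, .z, (B (K (.ofNat 1520269489786336925)) (K (.negSucc 648513508343813164)) N N)⟩,
  ⟨.x, T2, (K (.negSucc 277677098139970801))⟩,
  ⟨.z, T0, (K (.negSucc 175298047913119851))⟩] (.node [⟨.z, .z, (K (.negSucc 450033153694204442))⟩] .nil .nil .nil .nil .nil .nil) (.node [⟨.z, .z, (K (.negSucc 1528863463164156502))⟩] .nil .nil .nil .nil .nil .nil) (.node [⟨.x, .z, (K (.ofNat 335601069271097724))⟩] .nil .nil .nil .nil .nil .nil) (.node [⟨.x, .z, (K (.ofNat 785201593297690868))⟩] .nil .nil .nil .nil .nil .nil) .nil .nil) (.node [⟨.x, .z, (B N N (K (.negSucc 100660012059079367)) (K (.ofNat 2352413825060944704)))⟩,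
  ⟨.z, .z, (B (K (.negSucc 3410517897353062367)) (K (.ofNat 1088959080910509630)) N N)⟩,
  ⟨.x, T2, (K (.negSucc 676129832351644643))⟩,
  ⟨.z, T0, (K (.negSucc 1819578858764741303))⟩] (.node [⟨.z, .z, (K (.negSucc 1653481126042798907))⟩] .nil .nil .nil .nil .nil .nil) (.node [⟨.z, .z, (K (.negSucc 384337897078053899))⟩] .nil .nil .nil .nil .nil .nil) (.node [⟨.x, .z, (K (.negSucc 2088675148416856607))⟩] .nil .nil .nil .nil .nil .nil) (.node [⟨.x, .z, (K (.ofNat 689822648794862196))⟩] .nil .nil .nil .nil .nil .nil) .nil .nil) (.node [⟨.x, .z, (B (K (.ofNat 578222005289240892)) (K (.negSucc 573826322515737191)) N N)⟩,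
  ⟨.x, T0, (K (.ofNat 1087382657759930268))⟩,
  ⟨.x, T1, (K (.negSucc 692391833805142295))⟩] (.node [⟨.x, .z, (K (.ofNat 608839859262633288))⟩] .nil .nil .nil .nil .nil .nil) (.node [⟨.x, .z, (K (.ofNat 2491831405371629208))⟩] .nil .nil .nil .nil .nil .nil) .nil .nil .nil .nil) (.node [⟨.x, .z, (B (K (.ofNat 5473161253612094712)) (K (.negSucc 1223272110057920939)) N N)⟩,
  ⟨.x, T0, (K (.negSucc 908511047557206899))⟩,
  ⟨.x, T1, (K (.ofNat 2284432013680156380))⟩] (.node [⟨.x, .z, (K (.negSucc 2180586546466003811))⟩] .nil .nil .nil .nil .nil .nil) (.node [⟨.x, .z, (K (.negSucc 640974073541474387))⟩] .nil .nil .nil .nil .nil .nil) .nil .nil .nil .nil) .nil .nil)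

def c_0011 : Cert := (.node [⟨.x, .z, (B (A2 (K (.ofNat 6446337771241528560))) (B N N (K (.ofNat 14120258304135068520)) (K (.ofNat 7591006616412085440))) (B (K (.ofNat 5517852467302446988)) (K (.negSucc 8503539145957484399)) N N) (B (K (.ofNat 11076657045425506232)) (K (.ofNat 5282749680720893124)) N N))⟩,
  ⟨.z, .z, (B (B (K (.ofNat 75424712487554434)) (K (.negSucc 3779293395221605015)) N N) (B (K (.negSucc 850950630888762349)) (K (.negSucc 1380895638565601855)) N N) N N)⟩,
  ⟨.x, T0, (B N N (K (.negSucc 1277213393096674775)) (K (.negSucc 5800985083947507143)))⟩,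
  ⟨.x, T1, (B N N (K (.negSucc 6810374864004936503)) (K (.negSucc 1260333375450116975)))⟩,
  ⟨.x, T2, (B (K (.negSucc 12444967034643609931)) (K (.negSucc 5222646832179604019)) N N)⟩,
  ⟨.z, T0, (A0 (K (.negSucc 6034001479176202287)))⟩,
  ⟨.x, T9, (K (.ofNat 1003476195629064624))⟩,
  ⟨.x, T11, (K (.ofNat 1317209940173923692))⟩] (.node [⟨.x, .z, (B N N (K (.ofNat 2891930177953111942)) (K (.ofNat 2311748738725261856)))⟩,
  ⟨.z, .z, (B (K (.ofNat 3531862522874230781)) (K (.negSucc 1418883513754795642)) N N)⟩,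
  ⟨.x, T2, (K (.negSucc 632619526158932281))⟩,
  ⟨.z, T0, (K (.ofNat 1601832073665723824))⟩] (.node [⟨.z, .z, (K (.negSucc 1957351762788726842))⟩] .nil .nil .nil .nil .nil .nil) (.node [⟨.z, .z, (K (.negSucc 3547976144926170766))⟩] .nil .nil .nil .nil .nil .nil) (.node [⟨.x, .z, (K (.ofNat 1110206661381733164))⟩] .nil .nil .nil .nil .nil .nil) (.node [⟨.x, .z, (K (.negSucc 147137740240986099))⟩] .nil .nil .nil .nil .nil .nil) .nil .nil) (.node [⟨.x, .z, (B N N (K (.ofNat 2174337811769020788)) (K (.ofNat 5878877113292920560)))⟩,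
  ⟨.z, .z, (B (K (.ofNat 3949395766789749388)) (K (.ofNat 1968329092897782786)) N N)⟩,
  ⟨.x, T2, (K (.negSucc 3937958045118323159))⟩,
  ⟨.z, T0, (K (.negSucc 2780828707707969059))⟩] (.node [⟨.z, .z, (K (.negSucc 1233276135968367995))⟩] .nil .nil .nil .nil .nil .nil) (.node [⟨.z, .z, (K (.ofNat 1703289338879341470))⟩] .nil .nil .nil .nil .nil .nil) (.node [⟨.x, .z, (K (.negSucc 5951092032187307531))⟩] .nil .nil .nil .nil .nil .nil) (.node [⟨.x, .z, (K (.ofNat 3930732418452552024))⟩] .nil .nil .nil .nil .nil .nil) .nil .nil) (.node [⟨.x, .z, (B (K (.negSucc 7575883755762072131)) (K (.negSucc 3929471433349371707)) N N)⟩,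
  ⟨.x, T0, (K (.ofNat 4649209163315207688))⟩,
  ⟨.x, T1, (K (.negSucc 2943895707151466423))⟩] (.node [⟨.x, .z, (K (.ofNat 4960087660363308192))⟩] .nil .nil .nil .nil .nil .nil) (.node [⟨.x, .z, (K (.ofNat 6941099160277912872))⟩] .nil .nil .nil .nil .nil .nil) .nil .nil .nil .nil) (.node [⟨.x, .z, (B (K (.ofNat 5861465033603997752)) (K (.negSucc 1104029416426967651)) N N)⟩,
  ⟨.x, T0, (K (.negSucc 1003476195629064623))⟩,
  ⟨.x, T1, (K (.ofNat 6583502001039612180))⟩] (.node [⟨.x, .z, (K (.negSucc 5827676665807777691))⟩] .nil .nil .nil .nil .nil .nil) (.node [⟨.x, .z, (K (.ofNat 1317202752599893356))⟩] .nil .nil .nil .nil .nil .nil) .nil .nil .nil .nil) .nil .nil)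

def c_001 : Cert := (.node [⟨.x, .z, (B (B (A2 (K (.ofNat 1043026506949835904))) N (B (K (.ofNat 11173731067438139592)) (K (.ofNat 1952863942611517440)) N N) N) (B (A2 (K (.ofNat 2561645274716464692))) (B N N (K (.ofNat 1643709196261149660)) (K (.ofNat 18867706769126868))) (B (K (.ofNat 24435403845551464992)) (K (.negSucc 308387824549004759)) N N) (B (K (.ofNat 10212042144583629924)) (K (.ofNat 2025987135025658928)) N N)) (B (B (K (.ofNat 6007706834842052396)) (K (.ofNat 3364148047781342632)) N N) (B (K (.negSucc 10996585789693215755)) (K (.negSucc 225632915545033559)) N N) N N) (B (B (K (.ofNat 13049757307714006540)) (K (.ofNat 2218778827488740444)) N N) (B (K (.ofNat 7765832568355698168)) (K (.ofNat 1217378479688806032)) N N) N N))⟩,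
  ⟨.z, .z, (B (B (B (K (.negSucc 892363824921962173)) (K (.ofNat 846244847814864526)) N N) (B (K (.negSucc 5002524771779144895)) (K (.negSucc 3147788465863701995)) N N) N N) (B (B (K (.negSucc 4000417158371578995)) (K (.ofNat 732412279152788806)) N N) (B (K (.negSucc 816087329372890619)) (K (.negSucc 784594894914075215)) N N) N N) N N)⟩,
  ⟨.x, T0, (B (A2 (K (.negSucc 837033317902434815))) (B N N (K (.negSucc 2484366317836966955)) (K (.negSucc 1107634403134157687))) (B (K (.ofNat 28568420771453952)) (K (.ofNat 2876357986483299132)) N N) (B (K (.negSucc 11917246410816275171)) (K (.negSucc 2373135325072303163)) N N))⟩,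
  ⟨.x, T1, (B (A2 (K (.negSucc 820531542391454063))) (B N N (K (.ofNat 388075259205393864)) (K (.negSucc 1105923603101237111))) (B (K (.negSucc 10814684074019458259)) (K (.negSucc 2162320690102564343)) N N) (B (K (.negSucc 588110745122727923)) (K (.ofNat 70985297121073848)) N N))⟩,
  ⟨.x, T2, (B (B (K (.negSucc 12276883316509231647)) (K (.negSucc 4461264200154020623)) N N) (B (K (.negSucc 11033692951966361003)) (K (.negSucc 1806156951957955943)) N N) N N)⟩,
  ⟨.z, T0, (A0 (B (K (.negSucc 6172805200167024895)) (K (.negSucc 3413430639069041667)) N N))⟩,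
  ⟨.x, T5, (A3 (K (.ofNat 191597233743955932)))⟩,
  ⟨.x, T7, (B N N (K (.negSucc 675699305801105123)) (K (.negSucc 1883532887532602567)))⟩,
  ⟨.x, T8, (B N N (K (.negSucc 443502105997612259)) (K (.negSucc 1300526326059430643)))⟩,
  ⟨.x, T9, (A0 (K (.ofNat 58921626270274932)))⟩,
  ⟨.x, T10, (A3 (K (.ofNat 542402630622925128)))⟩,
  ⟨.x, T11, (A1 (K (.ofNat 1329194706130347408)))⟩,
  ⟨.x, T20, (K (.negSucc 31014451678907195))⟩,
  ⟨.x, T24, (K (.ofNat 101954866481276664))⟩,
  ⟨.x, T37, (K (.ofNat 188669120675820672))⟩,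
  ⟨.x, T15, (K (.ofNat 48113684761183884))⟩,
  ⟨.x, T33, (K (.negSucc 256825752433040507))⟩,
  ⟨.z, T13, (K (.negSucc 156778109670285143))⟩] c_0010 c_0011 (.node [⟨.x, .z, (B (B (K (.negSucc 11052545529993757703)) (K (.negSucc 4136981082268303979)) N N) (B (K (.negSucc 21900647365856132435)) (K (.negSucc 790031798672109791)) N N) N N)⟩,
  ⟨.x, T0, (B (K (.ofNat 12475002964140633708)) (K (.ofNat 3789701182962113304)) N N)⟩,
  ⟨.x, T1, (B (K (.ofNat 2899923024767523168)) (K (.ofNat 2822874086188542792)) N N)⟩,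
  ⟨.x, T5, (K (.negSucc 130016189052196163))⟩,
  ⟨.x, T7, (K (.ofNat 3457607164750533408))⟩,
  ⟨.x, T8, (K (.ofNat 2818769084944718448))⟩,
  ⟨.x, T10, (K (.ofNat 678299755266693708))⟩] (.node [⟨.x, .z, (B (K (.negSucc 3185713952090938307)) (K (.ofNat 2455928489915231244)) N N)⟩,
  ⟨.x, T0, (K (.negSucc 1261849241114852459))⟩,
  ⟨.x, T1, (K (.negSucc 674954287683842039))⟩] (.node [⟨.x, .z, (K (.ofNat 62462342896450176))⟩] .nil .nil .nil .nil .nil .nil) (.node [⟨.x, .z, (K (.negSucc 986332696553828711))⟩] .nil .nil .nil .nil .nil .nil) .nil .nil .nil .nil) (.node [⟨.x, .z, (B (K (.ofNat 11083301860943174448)) (K (.ofNat 1572073770506306640)) N N)⟩,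
  ⟨.x, T0, (K (.negSucc 2340435436718844155))⟩,
  ⟨.x, T1, (K (.negSucc 53199890299764179))⟩] (.node [⟨.x, .z, (K (.negSucc 3538685962558932983))⟩] .nil .nil .nil .nil .nil .nil) (.node [⟨.x, .z, (K (.negSucc 2988819911925086471))⟩] .nil .nil .nil .nil .nil .nil) .nil .nil .nil .nil) .nil .nil .nil .nil) (.node [⟨.x, .z, (B (B (K (.ofNat 2055878996479120492)) (K (.ofNat 4070620372244583956)) N N) (B (K (.negSucc 1149475901020725887)) (K (.negSucc 2070985048565018183)) N N) N N)⟩,
  ⟨.x, T0, (B (K (.ofNat 3031978722999971964)) (K (.ofNat 968926115069532780)) N N)⟩,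
  ⟨.x, T1, (B (K (.ofNat 10104025967937993516)) (K (.ofNat 2204451102891414156)) N N)⟩,
  ⟨.x, T5, (K (.negSucc 1307352726635951099))⟩,
  ⟨.x, T7, (K (.ofNat 1029658291665697008))⟩,
  ⟨.x, T8, (K (.ofNat 505454365100035476))⟩,
  ⟨.x, T10, (K (.ofNat 474236065866448236))⟩] (.node [⟨.x, .z, (B (K (.negSucc 10671240506359649231)) (K (.ofNat 3910130860376792436)) N N)⟩,
  ⟨.x, T0, (K (.negSucc 3438085559047349411))⟩,
  ⟨.x, T1, (K (.negSucc 1780885976805863279))⟩] (.node [⟨.x, .z, (K (.ofNat 830051497008776592))⟩] .nil .nil .nil .nil .nil .nil) (.node [⟨.x, .z, (K (.ofNat 589994638644811440))⟩] .nil .nil .nil .nil .nil .nil) .nil .nil .nil .nil) (.node [⟨.x, .z, (B (K (.negSucc 254248853742013103)) (K (.ofNat 3008288934090840732)) N N)⟩,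
  ⟨.x, T0, (K (.negSucc 2509837828662750551))⟩,
  ⟨.x, T1, (K (.negSucc 10577250671486963))⟩] (.node [⟨.x, .z, (K (.negSucc 1606290596567778659))⟩] .nil .nil .nil .nil .nil .nil) (.node [⟨.x, .z, (K (.ofNat 767046490280779476))⟩] .nil .nil .nil .nil .nil .nil) .nil .nil .nil .nil) .nil .nil .nil .nil) .nil .nil)

def c_002 : Cert := (.node [⟨.x, .z, (B (B (B (K (.ofNat 1178243935067103228)) (K (.ofNat 851302153569911568)) N N) (B (K (.ofNat 1719061621102263852)) (K (.negSucc 1173601026923611631)) N N) N N) (B (B (K (.negSucc 7569250272616278455)) (K (.negSucc 3877205788172141663)) N N) (B (K (.negSucc 9545990659420049075)) (K (.ofNat 106137484983648516)) N N) N N) N N)⟩,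
  ⟨.x, T0, (B (B (K (.ofNat 8792416763482720740)) (K (.ofNat 5177768881558931088)) N N) (B (K (.ofNat 10844300493840549684)) (K (.ofNat 89233113512644908)) N N) N N)⟩,
  ⟨.x, T1, (B (B (K (.negSucc 1117177423729777259)) (K (.negSucc 384575966296726199)) N N) (B (K (.negSucc 1802248077243586007)) (K (.ofNat 1390421798103751380)) N N) N N)⟩,
  ⟨.x, T4, (B N N (K (.negSucc 113957986681524449)) (K (.ofNat 58246316113182822)))⟩,
  ⟨.x, T5, (A1 (K (.negSucc 114083161949956055)))⟩,
  ⟨.x, T6, (B N N (K (.negSucc 232374579958742141)) (K (.negSucc 91096385961415445)))⟩,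
  ⟨.x, T7, (B (K (.negSucc 704102621948230847)) (K (.ofNat 327040050037839048)) N N)⟩,
  ⟨.x, T8, (B (K (.negSucc 493173281553294479)) (K (.ofNat 1038581991343521384)) N N)⟩,
  ⟨.x, T10, (A1 (K (.ofNat 594835199213846580)))⟩,
  ⟨.x, T29, (K (.negSucc 76229314811471735))⟩,
  ⟨.x, T13, (K (.ofNat 185590174268769408))⟩,
  ⟨.x, T14, (K (.ofNat 68034434028221892))⟩,
  ⟨.x, T30, (K (.negSucc 624004142176482779))⟩,
  ⟨.x, T31, (K (.negSucc 90235454299962167))⟩,
  ⟨.x, T32, (K (.ofNat 29168942962636200))⟩] (.node [⟨.x, .z, (B (B (K (.ofNat 990180548736026664)) (K (.ofNat 838680979310527776)) N N) (B (K (.ofNat 1192985825464473876)) (K (.ofNat 270618569454631116)) N N) N N)⟩,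
  ⟨.x, T0, (B (K (.negSucc 163946562392387999)) (K (.negSucc 1135468546814127215)) N N)⟩,
  ⟨.x, T1, (B (K (.ofNat 249129897668402532)) (K (.ofNat 132025571521982160)) N N)⟩,
  ⟨.x, T5, (K (.ofNat 87126438218359176))⟩,
  ⟨.x, T7, (K (.negSucc 669254582417450579))⟩,
  ⟨.x, T8, (K (.ofNat 17739710610349728))⟩] (.node [⟨.x, .z, (B (K (.negSucc 59085685052545091)) (K (.negSucc 199219790401167011)) N N)⟩,
  ⟨.x, T0, (K (.ofNat 186066507196384188))⟩,
  ⟨.x, T1, (K (.negSucc 67911189941205503))⟩] (.node [⟨.x, .z, (K (.ofNat 128977701278531472))⟩] .nil .nil .nil .nil .nil .nil) (.node [⟨.x, .z, (K (.ofNat 260580692742780012))⟩] .nil .nil .nil .nil .nil .nil) .nil .nil .nil .nil) (.node [⟨.x, .z, (B (K (.negSucc 153498255581661167)) (K (.negSucc 906111172976378747)) N N)⟩,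
  ⟨.x, T0, (K (.negSucc 231753494343796691))⟩,
  ⟨.x, T1, (K (.ofNat 211874241313756236))⟩] (.node [⟨.x, .z, (K (.ofNat 267254797576795368))⟩] .nil .nil .nil .nil .nil .nil) (.node [⟨.x, .z, (K (.ofNat 269553029382679608))⟩] .nil .nil .nil .nil .nil .nil) .nil .nil .nil .nil) .nil .nil .nil .nil) (.node [⟨.x, .z, (B (B (K (.ofNat 9009452354874569892)) (K (.ofNat 5736059176990829628)) N N) (B (K (.ofNat 11147856671172515904)) (K (.ofNat 653474624800525524)) N N) N N)⟩,
  ⟨.x, T0, (B (K (.negSucc 1550796651136635551)) (K (.negSucc 1079391452166932303)) N N)⟩,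
  ⟨.x, T1, (B (K (.ofNat 268689288965030004)) (K (.negSucc 1358745490414582679)) N N)⟩,
  ⟨.x, T5, (K (.ofNat 318875383522319640))⟩,
  ⟨.x, T7, (K (.negSucc 1222405123471823327))⟩,
  ⟨.x, T8, (K (.negSucc 204177224967604715))⟩,
  ⟨.x, T10, (K (.negSucc 311418159738644591))⟩] (.node [⟨.x, .z, (B (K (.ofNat 1086523451684451312)) (K (.negSucc 1464718233675323027)) N N)⟩,
  ⟨.x, T0, (K (.ofNat 235753648890184500))⟩,
  ⟨.x, T1, (K (.ofNat 287076827472904380))⟩] (.node [⟨.x, .z, (K (.ofNat 181161266139831624))⟩] .nil .nil .nil .nil .nil .nil) (.node [⟨.x, .z, (K (.ofNat 190383314852282256))⟩] .nil .nil .nil .nil .nil .nil) .nil .nil .nil .nil) (.node [⟨.x, .z, (B (K (.ofNat 1155634541158592400)) (K (.negSucc 2183059526892144803)) N N)⟩,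
  ⟨.x, T0, (K (.ofNat 1139349574178200104))⟩,
  ⟨.x, T1, (K (.ofNat 509386242903471972))⟩] (.node [⟨.x, .z, (K (.ofNat 72774753995076948))⟩] .nil .nil .nil .nil .nil .nil) (.node [⟨.x, .z, (K (.negSucc 201874230698698559))⟩] .nil .nil .nil .nil .nil .nil) .nil .nil .nil .nil) .nil .nil .nil .nil) (.node [⟨.x, T4, (K (.ofNat 30533255668662984))⟩,
  ⟨.x, T6, (K (.ofNat 654537397845145764))⟩] .nil .nil .nil .nil .nil .nil) (.node [⟨.x, T4, (K (.ofNat 1484056573488669608))⟩,
  ⟨.x, T6, (K (.negSucc 3301653882936610735))⟩] .nil .nil .nil .nil .nil .nil) .nil .nil)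

def c_003 : Cert := (.node [⟨.x, .z, (B (B (B (K (.negSucc 29994617974943849807)) (K (.negSucc 22943579511289068679)) N N) (B (K (.negSucc 26296664188564810525)) (K (.ofNat 15812325525443021490)) N N) N N) (B (B (K (.negSucc 45042667599464044919)) (K (.negSucc 24146800865337212939)) N N) (B (K (.negSucc 16913016349736605451)) (K (.ofNat 57602586805295450844)) N N) N N) N N)⟩,
  ⟨.x, T0, (B (B (K (.ofNat 3286677475258838868)) (K (.ofNat 41044034168323021302)) N N) (B (K (.negSucc 4332047238101671475)) (K (.negSucc 6865129371804461687)) N N) N N)⟩,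
  ⟨.x, T1, (B (B (K (.ofNat 24791085335307409608)) (K (.ofNat 12563898341811256758)) N N) (B (K (.ofNat 35958993967089410766)) (K (.ofNat 111069691648938270)) N N) N N)⟩,
  ⟨.x, T4, (B N N (K (.ofNat 7213068333389512602)) (K (.negSucc 4634236253367788561)))⟩,
  ⟨.x, T5, (A1 (K (.negSucc 22595032690621391687)))⟩,
  ⟨.x, T6, (B N N (K (.negSucc 8901115139439047057)) (K (.ofNat 6871034317645059546)))⟩,
  ⟨.x, T7, (B (K (.ofNat 20133840997210952328)) (K (.ofNat 39767540193767306268)) N N)⟩,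
  ⟨.x, T8, (B (K (.negSucc 3279046839899983265)) (K (.ofNat 16954909399702635990)) N N)⟩,
  ⟨.x, T10, (A1 (K (.negSucc 26032335372026204633)))⟩,
  ⟨.x, T29, (K (.ofNat 18601091742861476976))⟩,
  ⟨.x, T13, (K (.negSucc 557486062920341291))⟩,
  ⟨.x, T14, (K (.negSucc 1421778714857041007))⟩,
  ⟨.x, T30, (K (.ofNat 10620452427284264670))⟩,
  ⟨.x, T31, (K (.negSucc 3250356291682012211))⟩,
  ⟨.x, T32, (K (.ofNat 12521284976533120716))⟩] (.node [⟨.x, .z, (B (B (K (.negSucc 35992086816647317919)) (K (.negSucc 7074973444362338735)) N N) (B (K (.negSucc 33866229845349305387)) (K (.ofNat 81748413634170308124)) N N) N N)⟩,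
  ⟨.x, T0, (B (K (.ofNat 30631149113077187952)) (K (.negSucc 44385529938564414311)) N N)⟩,
  ⟨.x, T1, (B (K (.negSucc 10608873346997386739)) (K (.negSucc 1253564630512405163)) N N)⟩,
  ⟨.x, T5, (K (.ofNat 3693949599149954244))⟩,
  ⟨.x, T7, (K (.ofNat 32879223220584581712))⟩,
  ⟨.x, T8, (K (.negSucc 1219424564507012231))⟩,
  ⟨.x, T10, (K (.negSucc 3111744319678577903))⟩] (.node [⟨.x, .z, (B (K (.ofNat 14167573365460673184)) (K (.ofNat 51533125920774717540)) N N)⟩,
  ⟨.x, T0, (K (.negSucc 26508740458176327455))⟩,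
  ⟨.x, T1, (K (.negSucc 21995128202700422867))⟩] (.node [⟨.x, .z, (K (.ofNat 15442234045433014356))⟩] .nil .nil .nil .nil .nil .nil) (.node [⟨.x, .z, (K (.ofNat 2168942125706318124))⟩] .nil .nil .nil .nil .nil .nil) .nil .nil .nil .nil) (.node [⟨.x, .z, (B (K (.ofNat 4532682009828972642)) (K (.negSucc 17498546382176585819)) N N)⟩,
  ⟨.x, T0, (K (.negSucc 14155226392041928031))⟩,
  ⟨.x, T1, (K (.ofNat 6193365501990503406))⟩] (.node [⟨.x, .z, (K (.ofNat 3301042248134076516))⟩] .nil .nil .nil .nil .nil .nil) (.node [⟨.x, .z, (K (.negSucc 12069756179538551051))⟩] .nil .nil .nil .nil .nil .nil) .nil .nil .nil .nil) .nil .nil .nil .nil) (.node [⟨.x, .z, (B (B (K (.negSucc 14042252742399341417)) (K (.ofNat 15027006435183649674)) N N) (B (K (.ofNat 6167606586906355644)) (K (.negSucc 6323953746597145655)) N N) N N)⟩,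
  ⟨.x, T0, (B (K (.ofNat 20200026178406129244)) (K (.negSucc 13774378092557676479)) N N)⟩,
  ⟨.x, T1, (B (K (.negSucc 12608612333245855937)) (K (.ofNat 31162456452996018510)) N N)⟩,
  ⟨.x, T5, (K (.negSucc 5990181085897351331))⟩,
  ⟨.x, T7, (K (.ofNat 23933572310739987588))⟩,
  ⟨.x, T8, (K (.ofNat 9342067805049707868))⟩,
  ⟨.x, T10, (K (.negSucc 4153835792265225167))⟩] (.node [⟨.x, .z, (B (K (.ofNat 9448814184203576346)) (K (.ofNat 4492502638873881468)) N N)⟩,
  ⟨.x, T0, (K (.negSucc 27266020742969757851))⟩,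
  ⟨.x, T1, (K (.negSucc 5522386906352768177))⟩] (.node [⟨.x, .z, (K (.ofNat 4585962336513316944))⟩] .nil .nil .nil .nil .nil .nil) (.node [⟨.x, .z, (K (.negSucc 18314016520982756195))⟩] .nil .nil .nil .nil .nil .nil) .nil .nil .nil .nil) (.node [⟨.x, .z, (B (K (.ofNat 2332226451887322738)) (K (.negSucc 56485411700027004611)) N N)⟩,
  ⟨.x, T0, (K (.ofNat 11362177571343982044))⟩,
  ⟨.x, T1, (K (.ofNat 4801413449387365590))⟩] (.node [⟨.x, .z, (K (.negSucc 18559197154371724895))⟩] .nil .nil .nil .nil .nil .nil) (.node [⟨.x, .z, (K (.negSucc 21690528712957417787))⟩] .nil .nil .nil .nil .nil .nil) .nil .nil .nil .nil) .nil .nil .nil .nil) (.node [⟨.x, T4, (K (.negSucc 6024925068254446141))⟩,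
  ⟨.x, T6, (K (.negSucc 12033088949554714791))⟩] .nil .nil .nil .nil .nil .nil) (.node [⟨.x, T4, (K (.negSucc 11072330717870858717))⟩,
  ⟨.x, T6, (K (.negSucc 9272645777012266709))⟩] .nil .nil .nil .nil .nil .nil) .nil .nil)

def c_00 : Cert := (.node [⟨.x, .z, (B (B (B (A2 (K (.negSucc 520447895003024123))) N (A0 (K (.negSucc 699040739404736795))) N) N (B (B (K (.ofNat 8106971281579513560)) (K (.ofNat 5091805294136183424)) N N) (B (K (.ofNat 9874925126167230732)) (K (.ofNat 297731608933952772)) N N) N N) N) (B (B (A2 (K (.negSucc 1328799221433208319))) N (B (K (.negSucc 905151812501717039)) (K (.ofNat 305779581708571380)) N N) N) (B (A2 (K (.ofNat 1671644300528340816))) (B N N (K (.ofNat 238243701403296240)) (K (.negSucc 483445541482962983))) (B (K (.ofNat 2563390988862833052)) (K (.negSucc 2593685251640603783)) N N) (B (K (.negSucc 705353910039041807)) (K (.negSucc 518961576951663647)) N N)) (B (B (K (.ofNat 15795780565774552560)) (K (.ofNat 8771135586942832116))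 N N) (B (K (.ofNat 17667051257795024592)) (K (.ofNat 2308243300670963616)) N N) N N) (B (B (K (.ofNat 9604840669327936272)) (K (.ofNat 2340998856714828240)) N N) (B (K (.ofNat 7881862686338010648)) (K (.negSucc 340812044743430543)) N N) N N)) (B (B (B (K (.negSucc 1489818228013537463)) (K (.ofNat 14559753781339748)) N N) (B (K (.negSucc 1615787290885478727)) (K (.ofNat 2305048927837979268)) N N) N N) (B (B (K (.negSucc 16360232063613371135)) (K (.negSucc 7425847251963957887)) N N) (B (K (.negSucc 19112623090615851875)) (K (.negSucc 812759214957975743)) N N) N N) N N) (B (B (B (K (.ofNat 4223669184171168444)) (K (.ofNat 1358071939611074980)) N N) (B (K (.ofNat 4788890043645125164)) (K (.ofNat 1088082173731905372)) N N) N N) (B (B (K (.ofNat 1727164627117647132)) (K (.ofNat 947062819775902092)) N N) (B (K (.ofNat 1702420794754967220)) (K (.negSucc 380349268607061371)) N N) N N) N N))⟩,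
  ⟨.z, .z, (B (B (B (A0 (K (.negSucc 4631481868354729667))) (A1 (K (.ofNat 4044750140926313246))) N N) (B (B (K (.negSucc 12836504828568709819)) (K (.negSucc 8369342076108317825)) N N) (B (K (.negSucc 11683294431972473759)) (K (.ofNat 2413779350265588362)) N N) N N) N N) (B (B (B (K (.negSucc 9244490990230042465)) (K (.negSucc 3958876023657571629)) N N) (B (K (.negSucc 7195193634887052405)) (K (.ofNat 3189968589800875478)) N N) N N) (B (B (K (.negSucc 6181357552858322431)) (K (.negSucc 4791698199618861127)) N N) (B (K (.negSucc 6761253780457257703)) (K (.ofNat 143053393497544608)) N N) N N) N N) N N)⟩,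
  ⟨.x, T0, (B (B (A2 (K (.ofNat 238612438988692380))) N (B (K (.ofNat 960122453043025692)) (K (.negSucc 181402682448281435)) N N) N) (B (A2 (K (.negSucc 1452534315476197703))) (B N N (K (.ofNat 184646570089000632)) (K (.negSucc 14879011109871839))) (B (K (.ofNat 470909525105232168)) (K (.ofNat 734124281268989292)) N N) (B (K (.ofNat 1451127282690267708)) (K (.ofNat 11740809115469424)) N N)) (B (B (K (.ofNat 271699887886768128)) (K (.negSucc 34407297191281091)) N N) (B (K (.ofNat 770585651248679400)) (K (.negSucc 38382828175545563)) N N) N N) (B (B (K (.negSucc 8556727123995063443)) (K (.negSucc 4410637634432020835)) N N) (B (K (.negSucc 9933326964923288015)) (K (.ofNat 20462738236312980)) N N) N N))⟩,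
  ⟨.x, T1, (B (B (A2 (K (.negSucc 159203425799991131))) N (B (K (.ofNat 4787533255844532)) (K (.ofNat 381691521535155468)) N N) N) (B (A2 (K (.negSucc 12942989781536879))) (B N N (K (.negSucc 751486935034814939)) (K (.ofNat 4891030571574432))) (B (K (.ofNat 215020458707011884)) (K (.ofNat 870489201509034432)) N N) (B (K (.ofNat 684810358715259468)) (K (.negSucc 125818045946177447)) N N)) (B (B (K (.negSucc 8732863513154634947)) (K (.negSucc 5805585186917273615)) N N) (B (K (.negSucc 11995210828259398271)) (K (.negSucc 1028464206574985939)) N N) N N) (B (B (K (.negSucc 40636275121745339)) (K (.negSucc 297999818391904139)) N N) (A0 (K (.negSucc 275080295070772931))) N N))⟩,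
  ⟨.x, T2, (B (B (B (K (.negSucc 3436607869948274663)) (K (.negSucc 2778921451657783779)) N N) (B (K (.negSucc 4612288545983996019)) (K (.negSucc 1327247118272538611)) N N) N N) (B (B (K (.negSucc 81558416159901767)) (K (.negSucc 1011458515263810947)) N N) (B (K (.negSucc 920255395424428559)) (K (.negSucc 59911492140543011)) N N) N N) N N)⟩,
  ⟨.z, T0, (A0 (B (B (K (.negSucc 5075702065436534951)) (K (.negSucc 2703685614179892163)) N N) (B (K (.negSucc 5956928119754717239)) (K (.ofNat 1807511967324277452)) N N) N N))⟩,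
  ⟨.x, T4, (B N N (A2 (K (.negSucc 213602524622341679))) (B N N (K (.negSucc 14174419801891883)) (K (.ofNat 56586561319701492))))⟩,
  ⟨.x, T5, (B N (A3 (K (.ofNat 193276146017180316))) N (A1 (K (.ofNat 289553448942819720))))⟩,
  ⟨.x, T6, (B N N (A2 (K (.ofNat 186638765740905720))) (B N N (K (.ofNat 133097755233355434)) (K (.negSucc 355659217534759913))))⟩,
  ⟨.x, T7, (B (A2 (K (.negSucc 14590687566833963))) (B N N (K (.ofNat 28506863782470336)) (K (.negSucc 460599649914720431))) (B (K (.ofNat 579883329805856856)) (K (.negSucc 180468858242415623)) N N) (B (K (.ofNat 643075554557047848)) (K (.negSucc 656177122411555403)) N N))⟩,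
  ⟨.x, T8, (B (A2 (K (.negSucc 625484884892300135))) (B N N (K (.negSucc 889288622635090475)) (K (.ofNat 216266614121673012))) (B (K (.ofNat 131891184354921228)) (K (.negSucc 146339012534883647)) N N) (B (K (.ofNat 805512132695829816)) (K (.negSucc 548433809885941559)) N N))⟩,
  ⟨.x, T9, (A0 (B (K (.negSucc 118020396441487715)) (K (.ofNat 334123162075705776)) N N))⟩,
  ⟨.x, T10, (B N (B N N (K (.negSucc 195385372545462119)) (K (.ofNat 114694555252155516))) N (A1 (K (.negSucc 24039625250624759))))⟩,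
  ⟨.x, T11, (A1 (B (K (.ofNat 325551937047980160)) (K (.negSucc 261445654961343659)) N N))⟩,
  ⟨.x, T29, (A3 (K (.negSucc 259871511160405391)))⟩,
  ⟨.x, T13, (B N N (K (.ofNat 393969465518116092)) (K (.ofNat 25729284445599780)))⟩,
  ⟨.x, T14, (B N N (K (.ofNat 395886125912456964)) (K (.negSucc 83544786968478671)))⟩,
  ⟨.x, T20, (A0 (K (.ofNat 228578801905039260)))⟩,
  ⟨.x, T30, (A2 (K (.negSucc 266035106702760599)))⟩,
  ⟨.x, T24, (A0 (K (.negSucc 285487117425238727)))⟩,
  ⟨.x, T31, (A3 (K (.negSucc 30967019936846327)))⟩,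
  ⟨.x, T37, (A1 (K (.negSucc 108111055607217479)))⟩,
  ⟨.x, T32, (A3 (K (.negSucc 124258874800550699)))⟩,
  ⟨.x, T15, (B (K (.negSucc 352614818763596267)) (K (.negSucc 155765757275827127)) N N)⟩,
  ⟨.x, T33, (A1 (K (.ofNat 422618459280025488)))⟩,
  ⟨.z, T13, (A0 (K (.ofNat 395352618318504108)))⟩,
  ⟨.x, T21, (K (.negSucc 484954947044673623))⟩,
  ⟨.x, T25, (K (.negSucc 159176502188435735))⟩,
  ⟨.x, T38, (K (.ofNat 324842909856821676))⟩,
  ⟨.x, T39, (K (.ofNat 310493276001824688))⟩,
  ⟨.x, T41, (K (.negSucc 2801878487798111))⟩,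
  ⟨.x, T36, (K (.negSucc 154294611114705587))⟩,
  ⟨.x, T42, (K (.negSucc 221066049299835383))⟩,
  ⟨.z, T16, (K (.ofNat 138936667909041396))⟩,
  ⟨.z, T18, (K (.ofNat 278080115834153448))⟩] c_000 c_001 c_002 c_003 .nil .nil)

def c_0100 : Cert := (.node [⟨.x, .z, (B (A2 (K (.ofNat 3892824066223738152))) (B N N (K (.ofNat 7282114930258430580)) (K (.ofNat 3303462189544415148))) (B (K (.ofNat 9032974593236266176)) (K (.negSucc 6598899358373588123)) N N) (B (K (.ofNat 7841928391050409620)) (K (.ofNat 458296413237737376)) N N))⟩,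
  ⟨.z, .z, (B (B (K (.ofNat 1097826961113822684)) (K (.negSucc 2719863212850743273)) N N) (B (K (.negSucc 5705734836026233031)) (K (.negSucc 279747696684381263)) N N) N N)⟩,
  ⟨.x, T0, (B N N (K (.negSucc 1027715326055322131)) (K (.negSucc 3133236090224301647)))⟩,
  ⟨.x, T1, (B N N (K (.negSucc 1492814110760125535)) (K (.negSucc 252102378481948187)))⟩,
  ⟨.x, T2, (B (K (.negSucc 7369739382564242135)) (K (.negSucc 1715895066771025355)) N N)⟩,
  ⟨.z, T0, (A0 (K (.ofNat 4231889392523259924)))⟩,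
  ⟨.x, T9, (K (.ofNat 1467856343780290020))⟩,
  ⟨.x, T11, (K (.ofNat 244842759512435232))⟩] (.node [⟨.x, .z, (B N N (K (.ofNat 1606855263360608068)) (K (.ofNat 737745063784276712)))⟩,
  ⟨.z, .z, (B (K (.ofNat 1205942524961292332)) (K (.negSucc 1210643153503216753)) N N)⟩,
  ⟨.x, T2, (K (.negSucc 1711594073668259971))⟩,
  ⟨.z, T0, (K (.ofNat 261730189889541872))⟩] (.node [⟨.z, .z, (K (.ofNat 837407005536534132))⟩] .nil .nil .nil .nil .nil .nil) (.node [⟨.z, .z, (K (.negSucc 913562095474160917))⟩] .nil .nil .nil .nil .nil .nil) (.node [⟨.x, .z, (K (.ofNat 536684624400792000))⟩] .nil .nil .nil .nil .nil .nil) (.node [⟨.x, .z, (K (.ofNat 1596992824083658160))⟩] .nil .nil .nil .nil .nil .nil) .nil .nil) (.node [⟨.x, .z, (B N N (K (.negSucc 267845400599252977)) (K (.ofNat 2682333240235925636)))⟩,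
  ⟨.z, .z, (B (K (.negSucc 2953965050189663808)) (K (.ofNat 1784766384882697519)) N N)⟩,
  ⟨.x, T2, (K (.negSucc 989517481008499549))⟩,
  ⟨.z, T0, (K (.negSucc 1663999516356088719))⟩] (.node [⟨.z, .z, (K (.negSucc 1881337102883445464))⟩] .nil .nil .nil .nil .nil .nil) (.node [⟨.z, .z, (K (.negSucc 557311741310641594))⟩] .nil .nil .nil .nil .nil .nil) (.node [⟨.x, .z, (K (.negSucc 5412979777544886671))⟩] .nil .nil .nil .nil .nil .nil) (.node [⟨.x, .z, (K (.ofNat 635046415110121256))⟩] .nil .nil .nil .nil .nil .nil) .nil .nil) (.node [⟨.x, .z, (B (K (.ofNat 127793051769875136)) (K (.negSucc 1005226840253262527)) N N)⟩,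
  ⟨.x, T0, (K (.ofNat 1231919023696542876))⟩,
  ⟨.x, T1, (K (.negSucc 443828890609161515))⟩] (.node [⟨.x, .z, (K (.ofNat 510158407147078176))⟩] .nil .nil .nil .nil .nil .nil) (.node [⟨.x, .z, (K (.ofNat 4759012780525802172))⟩] .nil .nil .nil .nil .nil .nil) .nil .nil .nil .nil) (.node [⟨.x, .z, (B (K (.ofNat 1693486368012617184)) (K (.negSucc 3831815095895131847)) N N)⟩,
  ⟨.x, T0, (K (.negSucc 1402694212129577687))⟩,
  ⟨.x, T1, (K (.ofNat 6038772482206473144))⟩] (.node [⟨.x, .z, (K (.negSucc 5169320304093706163))⟩] .nil .nil .nil .nil .nil .nil) (.node [⟨.x, .z, (K (.negSucc 1644793643540528315))⟩] .nil .nil .nil .nil .nil .nil) .nil .nil .nil .nil) .nil .nil)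

def c_0101 : Cert := (.node [⟨.x, .z, (B (A2 (K (.negSucc 644849202504213203))) (B N N (K (.negSucc 2342954630221570511)) (K (.ofNat 82362867715244616))) (B (K (.ofNat 6188480794912264784)) (K (.negSucc 497319925517566679)) N N) (B (K (.ofNat 4409893014849190264)) (K (.ofNat 729663439929918348)) N N))⟩,
  ⟨.z, .z, (B (B (K (.ofNat 3389352180803905078)) (K (.ofNat 2475223321062563390)) N N) (B (K (.ofNat 2953646239578856544)) (K (.ofNat 543758626689718680)) N N) N N)⟩,
  ⟨.x, T0, (B N N (K (.ofNat 1556184350953318584)) (K (.ofNat 1455260936059073772)))⟩,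
  ⟨.x, T1, (B N N (K (.negSucc 51931822036573811)) (K (.ofNat 594046774843151520)))⟩,
  ⟨.x, T2, (B (K (.negSucc 8333928761183134263)) (K (.ofNat 1987509554325589704)) N N)⟩,
  ⟨.z, T0, (A0 (K (.negSucc 3402213227937072871)))⟩,
  ⟨.x, T9, (K (.negSucc 1210737959555186687))⟩,
  ⟨.x, T11, (K (.negSucc 645325341699849851))⟩] (.node [⟨.x, .z, (B N N (K (.negSucc 472468271015070887)) (K (.ofNat 53152801786779180)))⟩,
  ⟨.z, .z, (B (K (.ofNat 2446550420030972094)) (K (.negSucc 550613951639705975)) N N)⟩,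
  ⟨.x, T2, (K (.ofNat 405580750381037148))⟩,
  ⟨.z, T0, (K (.negSucc 509003475049417355))⟩] (.node [⟨.z, .z, (K (.negSucc 826779797486772569))⟩] .nil .nil .nil .nil .nil .nil) (.node [⟨.z, .z, (K (.ofNat 249663397457939484))⟩] .nil .nil .nil .nil .nil .nil) (.node [⟨.x, .z, (K (.negSucc 449137945321164779))⟩] .nil .nil .nil .nil .nil .nil) (.node [⟨.x, .z, (K (.negSucc 3237738034556501483))⟩] .nil .nil .nil .nil .nil .nil) .nil .nil) (.node [⟨.x, .z, (B N N (K (.ofNat 127109301391636542)) (K (.ofNat 165342249991573104)))⟩,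
  ⟨.z, .z, (B (K (.ofNat 6338628178527153647)) (K (.negSucc 1028028064356197468)) N N)⟩,
  ⟨.x, T2, (K (.ofNat 1127600377226824302))⟩,
  ⟨.z, T0, (K (.ofNat 883338736086045804))⟩] (.node [⟨.z, .z, (K (.negSucc 699065946302574776))⟩] .nil .nil .nil .nil .nil .nil) (.node [⟨.z, .z, (K (.negSucc 576866601106178648))⟩] .nil .nil .nil .nil .nil .nil) (.node [⟨.x, .z, (K (.ofNat 1600176953155090848))⟩] .nil .nil .nil .nil .nil .nil) (.node [⟨.x, .z, (K (.negSucc 1423549256107234607))⟩] .nil .nil .nil .nil .nil .nil) .nil .nil) (.node [⟨.x, .z, (B (K (.negSucc 5891067668280352271)) (K (.ofNat 2197924625629627884)) N N)⟩,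
  ⟨.x, T0, (K (.negSucc 2305994823058757159))⟩,
  ⟨.x, T1, (K (.negSucc 1980083693676800939))⟩] (.node [⟨.x, .z, (K (.ofNat 5122561879392003540))⟩] .nil .nil .nil .nil .nil .nil) (.node [⟨.x, .z, (K (.ofNat 1295616507413153724))⟩] .nil .nil .nil .nil .nil .nil) .nil .nil .nil .nil) (.node [⟨.x, .z, (B (K (.ofNat 6672698254690883488)) (K (.negSucc 3219878765686047671)) N N)⟩,
  ⟨.x, T0, (K (.ofNat 674483798048979636))⟩,
  ⟨.x, T1, (K (.ofNat 2197099048852453056))⟩] (.node [⟨.x, .z, (K (.ofNat 1539384583155226632))⟩] .nil .nil .nil .nil .nil .nil) (.node [⟨.x, .z, (K (.negSucc 576212214180994679))⟩] .nil .nil .nil .nil .nil .nil) .nil .nil .nil .nil) .nil .nil)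

def c_010 : Cert := (.node [⟨.x, .z, (B (B (A2 (K (.ofNat 2522814481770641220))) N (B (K (.ofNat 11710046603218340328)) (K (.ofNat 711725872855058928)) N N) N) (B (A2 (K (.ofNat 3741398799273048360))) (B N N (K (.negSucc 176479554015210095)) (K (.ofNat 1272324382991109324))) (B (K (.ofNat 23056954656212014020)) (K (.negSucc 2828486311848178679)) N N) (B (K (.ofNat 9837278641050800340)) (K (.ofNat 353698694230252752)) N N)) (B (B (K (.negSucc 3611463174458366855)) (K (.negSucc 2191682751537988155)) N N) (B (K (.negSucc 22819888900232926355)) (K (.ofNat 2720951760388282032)) N N) N N) (B (B (K (.ofNat 1460147958720518556)) (K (.negSucc 2921844051664900435)) N N) (B (K (.negSucc 2751786396170331899)) (K (.ofNat 1215637448786408520)) N N) N N))⟩,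
  ⟨.z, .z, (B (B (B (K (.negSucc 5399985652875804803)) (K (.negSucc 2190411332440191439)) N N) (B (K (.negSucc 11362196157555136589)) (K (.ofNat 95254040416185138)) N N) N N) (B (B (K (.negSucc 3111001346354819699)) (K (.ofNat 1564766866327981676)) N N) (B (K (.negSucc 849395788372384625)) (K (.negSucc 264977276044402775)) N N) N N) N N)⟩,
  ⟨.x, T0, (B (A2 (K (.negSucc 2179734932348553059))) (B N N (K (.negSucc 1944852354809886155)) (K (.negSucc 2162685594183717059))) (B (K (.ofNat 2681100448331951088)) (K (.ofNat 2419229945023716864)) N N) (B (K (.negSucc 11206672148602373831)) (K (.negSucc 598154672679142751)) N N))⟩,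
  ⟨.x, T1, (B (A2 (K (.negSucc 1295406593455082159))) (B N N (K (.negSucc 804977786065954175)) (K (.negSucc 1887619917958171175))) (B (K (.negSucc 12684729853157795639)) (K (.ofNat 1006811032768479684)) N N) (B (K (.negSucc 674775205021948151)) (K (.ofNat 48087336522033648)) N N))⟩,
  ⟨.x, T2, (B (B (K (.negSucc 2342046390176015675)) (K (.ofNat 2527021801456693868)) N N) (B (K (.ofNat 1724277135666078132)) (K (.negSucc 447350860166827751)) N N) N N)⟩,
  ⟨.z, T0, (A0 (B (K (.negSucc 7508230621966693163)) (K (.negSucc 2024192342539898839)) N N))⟩,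
  ⟨.x, T5, (A3 (K (.negSucc 114965261343566423)))⟩,
  ⟨.x, T7, (B N N (K (.negSucc 1132177085410486811)) (K (.negSucc 939602134238136851)))⟩,
  ⟨.x, T8, (B N N (K (.negSucc 80443213017895619)) (K (.negSucc 2020880503676305415)))⟩,
  ⟨.x, T9, (A0 (K (.negSucc 1493919868993363847)))⟩,
  ⟨.x, T10, (A3 (K (.ofNat 626782606600900776)))⟩,
  ⟨.x, T11, (A1 (K (.ofNat 1076513505818948640)))⟩,
  ⟨.x, T20, (K (.ofNat 440103223198567860))⟩,
  ⟨.x, T24, (K (.ofNat 409575328604462112))⟩,
  ⟨.x, T37, (K (.negSucc 35905227155332103))⟩,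
  ⟨.x, T15, (K (.negSucc 59366834857057463))⟩,
  ⟨.x, T33, (K (.negSucc 428483762006572163))⟩,
  ⟨.z, T13, (K (.negSucc 167599161355570883))⟩] c_0100 c_0101 (.node [⟨.x, .z, (B (B (K (.negSucc 1944754174804516415)) (K (.negSucc 528322700227703615)) N N) (B (K (.negSucc 12603660692198135219)) (K (.ofNat 1043963312097692136)) N N) N N)⟩,
  ⟨.x, T0, (B (K (.ofNat 12070722763243862664)) (K (.ofNat 509127912566150196)) N N)⟩,
  ⟨.x, T1, (B (K (.ofNat 2997337326767791788)) (K (.ofNat 2308198840079159988)) N N)⟩,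
  ⟨.x, T5, (K (.ofNat 504103778329657548))⟩,
  ⟨.x, T7, (K (.ofNat 1650314181250211760))⟩,
  ⟨.x, T8, (K (.ofNat 2639143175521235376))⟩,
  ⟨.x, T10, (K (.ofNat 485821418116382388))⟩] (.node [⟨.x, .z, (B (K (.negSucc 1990456652830020719)) (K (.ofNat 1194974098761441096)) N N)⟩,
  ⟨.x, T0, (K (.ofNat 72592284670989324))⟩,
  ⟨.x, T1, (K (.negSucc 982987252707883739))⟩] (.node [⟨.x, .z, (K (.ofNat 497192787994115112))⟩] .nil .nil .nil .nil .nil .nil) (.node [⟨.x, .z, (K (.ofNat 431340406825829604))⟩] .nil .nil .nil .nil .nil .nil) .nil .nil .nil .nil) (.node [⟨.x, .z, (B (K (.ofNat 9668784401710903992)) (K (.negSucc 2375375626496825843)) N N)⟩,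
  ⟨.x, T0, (K (.ofNat 185573756831243244))⟩,
  ⟨.x, T1, (K (.ofNat 312425303182502760))⟩] (.node [⟨.x, .z, (K (.negSucc 3014442476118990395))⟩] .nil .nil .nil .nil .nil .nil) (.node [⟨.x, .z, (K (.negSucc 3755814674063412599))⟩] .nil .nil .nil .nil .nil .nil) .nil .nil .nil .nil) .nil .nil .nil .nil) (.node [⟨.x, .z, (B (B (K (.negSucc 8185763855332031291)) (K (.ofNat 1301582046352810564)) N N) (B (K (.negSucc 12489888627065022443)) (K (.negSucc 3992516049503885231)) N N) N N)⟩,
  ⟨.x, T0, (B (K (.ofNat 4788212387400814104)) (K (.ofNat 4697451157431347352)) N N)⟩,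
  ⟨.x, T1, (B (K (.ofNat 9848190593221869696)) (K (.negSucc 2573269361060182691)) N N)⟩,
  ⟨.x, T5, (K (.ofNat 216999190417405548))⟩,
  ⟨.x, T7, (K (.ofNat 87190962830572560))⟩,
  ⟨.x, T8, (K (.negSucc 3436722449502573251))⟩,
  ⟨.x, T10, (K (.negSucc 107282225421326195))⟩] (.node [⟨.x, .z, (B (K (.negSucc 8628722721733993319)) (K (.ofNat 3293865533052389520)) N N)⟩,
  ⟨.x, T0, (K (.negSucc 1471961395305015299))⟩,
  ⟨.x, T1, (K (.negSucc 2792763336166077935))⟩] (.node [⟨.x, .z, (K (.ofNat 2244076361111884464))⟩] .nil .nil .nil .nil .nil .nil) (.node [⟨.x, .z, (K (.ofNat 5332144861117920888))⟩] .nil .nil .nil .nil .nil .nil) .nil .nil .nil .nil) (.node [⟨.x, .z, (B (K (.negSucc 4558495602890955587)) (K (.ofNat 5442279348456916296)) N N)⟩,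
  ⟨.x, T0, (K (.negSucc 4218662491958077859))⟩,
  ⟨.x, T1, (K (.ofNat 1728440722131693588))⟩] (.node [⟨.x, .z, (K (.ofNat 1210860883561696224))⟩] .nil .nil .nil .nil .nil .nil) (.node [⟨.x, .z, (K (.ofNat 3135106140540373188))⟩] .nil .nil .nil .nil .nil .nil) .nil .nil .nil .nil) .nil .nil .nil .nil) .nil .nil)

def c_0110 : Cert := (.node [⟨.x, .z, (B (A2 (K (.negSucc 5947731543302072195))) (B N N (K (.negSucc 12822593266111797503)) (K (.negSucc 5478372843685430543))) (B (K (.negSucc 8016203402435833079)) (K (.ofNat 9631431728053285272)) N N) (B (K (.negSucc 8064066736432402367)) (K (.negSucc 795457873955266295)) N N))⟩,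
  ⟨.z, .z, (B (B (K (.negSucc 2579525649975186935)) (K (.ofNat 7149628811422017390)) N N) (B (K (.ofNat 7944752624757310842)) (K (.ofNat 1280251195687062006)) N N) N N)⟩,
  ⟨.x, T0, (B N N (K (.ofNat 1226755340511829788)) (K (.ofNat 5410029542701833180)))⟩,
  ⟨.x, T1, (B N N (K (.ofNat 6367789307971248948)) (K (.ofNat 462896898904199604)))⟩,
  ⟨.x, T2, (B (K (.ofNat 6293691609913058340)) (K (.ofNat 2390383486409864712)) N N)⟩,
  ⟨.z, T0, (A0 (K (.negSucc 1528535083800989183)))⟩,
  ⟨.x, T9, (K (.negSucc 404592890745950831))⟩,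
  ⟨.x, T11, (K (.negSucc 411654811999885655))⟩] (.node [⟨.x, .z, (B N N (K (.negSucc 3883162717182715863)) (K (.negSucc 1960850656411015159)))⟩,
  ⟨.z, .z, (B (K (.negSucc 923097358020117343)) (K (.ofNat 261429983325932450)) N N)⟩,
  ⟨.x, T2, (K (.ofNat 327568976987242112))⟩,
  ⟨.z, T0, (K (.negSucc 2790397682692940731))⟩] (.node [⟨.z, .z, (K (.ofNat 1238593729685436486))⟩] .nil .nil .nil .nil .nil .nil) (.node [⟨.z, .z, (K (.ofNat 3169676523237237098))⟩] .nil .nil .nil .nil .nil .nil) (.node [⟨.x, .z, (K (.ofNat 620997561506209368))⟩] .nil .nil .nil .nil .nil .nil) (.node [⟨.x, .z, (K (.negSucc 213995287135333063))⟩] .nil .nil .nil .nil .nil .nil) .nil .nil) (.node [⟨.x, .z, (B N N (K (.negSucc 2499035226648264385)) (K (.negSucc 5080082389591048767)))⟩,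
  ⟨.z, .z, (B (K (.ofNat 4767189175545928367)) (K (.negSucc 2065701434630049124)) N N)⟩,
  ⟨.x, T2, (K (.ofNat 3938680082533059226))⟩,
  ⟨.z, T0, (K (.ofNat 1749249812987611520))⟩] (.node [⟨.z, .z, (K (.negSucc 116016098089805450))⟩] .nil .nil .nil .nil .nil .nil) (.node [⟨.z, .z, (K (.negSucc 2466258225854725342))⟩] .nil .nil .nil .nil .nil .nil) (.node [⟨.x, .z, (K (.ofNat 6953264626377924348))⟩] .nil .nil .nil .nil .nil .nil) (.node [⟨.x, .z, (K (.negSucc 3049965398499540963))⟩] .nil .nil .nil .nil .nil .nil) .nil .nil) (.node [⟨.x, .z, (B (K (.ofNat 539450734521113940)) (K (.ofNat 4772536570815143484)) N N)⟩,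
  ⟨.x, T0, (K (.negSucc 6501582948006867743))⟩,
  ⟨.x, T1, (K (.negSucc 81595271972920367))⟩] (.node [⟨.x, .z, (K (.ofNat 504258180142598916))⟩] .nil .nil .nil .nil .nil .nil) (.node [⟨.x, .z, (K (.negSucc 5096072885001019703))⟩] .nil .nil .nil .nil .nil .nil) .nil .nil .nil .nil) (.node [⟨.x, .z, (B (K (.ofNat 685043014942572720)) (K (.ofNat 5429926471257867612)) N N)⟩,
  ⟨.x, T0, (K (.negSucc 2835304629244005467))⟩,
  ⟨.x, T1, (K (.negSucc 4690285714619968607))⟩] (.node [⟨.x, .z, (K (.ofNat 7449617153119810680))⟩] .nil .nil .nil .nil .nil .nil) (.node [⟨.x, .z, (K (.ofNat 757239431473059456))⟩] .nil .nil .nil .nil .nil .nil) .nil .nil .nil .nil) .nil .nil)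

def c_0111 : Cert := (.node [⟨.x, .z, (B (A2 (K (.ofNat 2008909058315381772))) (B N N (K (.ofNat 3085999100792533164)) (K (.ofNat 1685088554430380280))) (B (K (.negSucc 1422344873909311555)) (K (.negSucc 2194368594124475327)) N N) (B (K (.negSucc 7405194903962770935)) (K (.ofNat 4161750041699877540)) N N))⟩,
  ⟨.z, .z, (B (B (K (.negSucc 4162492231773567071)) (K (.negSucc 1126461784794667719)) N N) (B (K (.negSucc 5658630940502554447)) (K (.ofNat 751371467011750134)) N N) N N)⟩,
  ⟨.x, T0, (B N N (K (.ofNat 1713297846564315000)) (K (.negSucc 996241805397455411)))⟩,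
  ⟨.x, T1, (B N N (K (.negSucc 2201395839385347251)) (K (.negSucc 543764718928595099)))⟩,
  ⟨.x, T2, (B (K (.ofNat 6457148057892977332)) (K (.negSucc 1227020254542522875)) N N)⟩,
  ⟨.z, T0, (A0 (K (.ofNat 3188230910421629408)))⟩,
  ⟨.x, T9, (K (.negSucc 1768430401572055295))⟩,
  ⟨.x, T11, (K (.negSucc 1576147107664564655))⟩] (.node [⟨.x, .z, (B N N (K (.ofNat 1882077695726805788)) (K (.negSucc 364789186368423775)))⟩,
  ⟨.z, .z, (B (K (.ofNat 1368468118821843976)) (K (.negSucc 1309230147050442951)) N N)⟩,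
  ⟨.x, T2, (K (.negSucc 1696229169800771007))⟩,
  ⟨.z, T0, (K (.ofNat 146116356551647588))⟩] (.node [⟨.z, .z, (K (.ofNat 685427207985609168))⟩] .nil .nil .nil .nil .nil .nil) (.node [⟨.z, .z, (K (.ofNat 500052803833318208))⟩] .nil .nil .nil .nil .nil .nil) (.node [⟨.x, .z, (K (.ofNat 1466945531523741132))⟩] .nil .nil .nil .nil .nil .nil) (.node [⟨.x, .z, (K (.ofNat 3252525819231136528))⟩] .nil .nil .nil .nil .nil .nil) .nil .nil) (.node [⟨.x, .z, (B N N (K (.ofNat 1203283928666689568)) (K (.negSucc 476065659634644247)))⟩,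
  ⟨.z, .z, (B (K (.negSucc 2813028488432096793)) (K (.ofNat 343145088411207500)) N N)⟩,
  ⟨.x, T2, (K (.negSucc 928318044570081459))⟩,
  ⟨.z, T0, (K (.ofNat 215643183054445540))⟩] (.node [⟨.z, .z, (K (.ofNat 710177997471369966))⟩] .nil .nil .nil .nil .nil .nil) (.node [⟨.z, .z, (K (.ofNat 871144612430951156))⟩] .nil .nil .nil .nil .nil .nil) (.node [⟨.x, .z, (K (.negSucc 73069977269847299))⟩] .nil .nil .nil .nil .nil .nil) (.node [⟨.x, .z, (K (.ofNat 921096011691325492))⟩] .nil .nil .nil .nil .nil .nil) .nil .nil) (.node [⟨.x, .z, (B (K (.ofNat 9910239534009930708)) (K (.negSucc 11874039483756657227)) N N)⟩,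
  ⟨.x, T0, (K (.ofNat 4493856285302643564))⟩,
  ⟨.x, T1, (K (.ofNat 1412198334284326212))⟩] (.node [⟨.x, .z, (K (.negSucc 613924110638222015))⟩] .nil .nil .nil .nil .nil .nil) (.node [⟨.x, .z, (K (.ofNat 1779755963196320988))⟩] .nil .nil .nil .nil .nil .nil) .nil .nil .nil .nil) (.node [⟨.x, .z, (B (K (.negSucc 9405134809730116167)) (K (.negSucc 1100575411952725079)) N N)⟩,
  ⟨.x, T0, (K (.ofNat 1768430401572055296))⟩,
  ⟨.x, T1, (K (.ofNat 2947986751837138836))⟩] (.node [⟨.x, .z, (K (.negSucc 2693519474117057963))⟩] .nil .nil .nil .nil .nil .nil) (.node [⟨.x, .z, (K (.negSucc 1576147107664564655))⟩] .nil .nil .nil .nil .nil .nil) .nil .nil .nil .nil) .nil .nil)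

def c_011 : Cert := (.node [⟨.x, .z, (B (B (A2 (K (.ofNat 1665884292190029084))) N (B (K (.negSucc 11590299321609461111)) (K (.ofNat 3458544855491508852)) N N) N) (B (A2 (K (.negSucc 627212738220984851))) (B N N (K (.negSucc 776413873751004671)) (K (.ofNat 1395091145995856928))) (B (K (.negSucc 24199724697818109551)) (K (.ofNat 11942063658733036764)) N N) (B (K (.negSucc 11048908615601981351)) (K (.ofNat 5305757026556119356)) N N)) (B (B (K (.negSucc 7879154708035254943)) (K (.negSucc 1220487329144443035)) N N) (B (K (.ofNat 11288516670191583900)) (K (.negSucc 7445270864126212499)) N N) N N) (B (B (K (.negSucc 13788982215751811979)) (K (.ofNat 2167934093971084852)) N N) (B (K (.negSucc 10806561408951442163)) (K (.ofNat 4080996835285349988)) N N) N N))⟩,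
  ⟨.z, .z, (B (B (B (K (.ofNat 2533834545939508824)) (K (.negSucc 3426536579581925501)) N N) (B (K (.ofNat 5458181248027932936)) (K (.negSucc 2872935401028256215)) N N) N N) (B (B (K (.ofNat 5353740707950807870)) (K (.negSucc 5968143497646300171)) N N) (B (K (.negSucc 251568685447406687)) (K (.negSucc 1713557548410082439)) N N) N N) N N)⟩,
  ⟨.x, T0, (B (A2 (K (.negSucc 1160692733193642359))) (B N N (K (.negSucc 2297427721838078375)) (K (.negSucc 1117856765520702455))) (B (K (.ofNat 169349022998991084)) (K (.ofNat 2242717642955021796)) N N) (B (K (.ofNat 9913324137332872656)) (K (.negSucc 4824679073770628999)) N N))⟩,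
  ⟨.x, T1, (B (A2 (K (.negSucc 707862013225166579))) (B N N (K (.ofNat 842789228303731668)) (K (.ofNat 2122513985287467012))) (B (K (.ofNat 11978206120379696424)) (K (.negSucc 6477986645261891651)) N N) (B (K (.ofNat 575643359149749876)) (K (.ofNat 46942976530187712)) N N))⟩,
  ⟨.x, T2, (B (B (K (.ofNat 14833013226877129120)) (K (.negSucc 623724857035461735)) N N) (B (K (.ofNat 11185202129523562548)) (K (.negSucc 3170585459632742915)) N N) N N)⟩,
  ⟨.z, T0, (A0 (B (K (.ofNat 7396297975642684232)) (K (.negSucc 618419686580114167)) N N))⟩,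
  ⟨.x, T5, (A3 (K (.negSucc 418422318214688651)))⟩,
  ⟨.x, T7, (B N N (K (.negSucc 1027541334248205983)) (K (.ofNat 233776551016010976)))⟩,
  ⟨.x, T8, (B N N (K (.ofNat 256039757597493372)) (K (.ofNat 1498154026822261728)))⟩,
  ⟨.x, T9, (A0 (K (.ofNat 404989801570930632)))⟩,
  ⟨.x, T10, (A3 (K (.ofNat 1253368866276273744)))⟩,
  ⟨.x, T11, (A1 (K (.ofNat 829510117040022912)))⟩,
  ⟨.x, T20, (K (.ofNat 582228010231594164))⟩,
  ⟨.x, T24, (K (.negSucc 91990723123819811))⟩,
  ⟨.x, T37, (K (.ofNat 377966439528656856))⟩,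
  ⟨.x, T15, (K (.ofNat 146576581276544244))⟩,
  ⟨.x, T33, (K (.negSucc 620391085341890879))⟩,
  ⟨.z, T13, (K (.negSucc 407748636014268779))⟩] c_0110 c_0111 (.node [⟨.x, .z, (B (B (K (.ofNat 6424401896722512888)) (K (.ofNat 8257722121786915992)) N N) (B (K (.ofNat 22359670750286794152)) (K (.negSucc 1519368887937331043)) N N) N N)⟩,
  ⟨.x, T0, (B (K (.negSucc 11281229541349937891)) (K (.ofNat 302631803764282812)) N N)⟩,
  ⟨.x, T1, (B (K (.ofNat 3893293846311144612)) (K (.ofNat 1364121661885419720)) N N)⟩,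
  ⟨.x, T5, (K (.negSucc 416351031989297075))⟩,
  ⟨.x, T7, (K (.ofNat 170415302729119164))⟩,
  ⟨.x, T8, (K (.ofNat 3071252428686493332))⟩,
  ⟨.x, T10, (K (.ofNat 744257184804424572))⟩] (.node [⟨.x, .z, (B (K (.negSucc 3764639180671713515)) (K (.ofNat 4201181997875532012)) N N)⟩,
  ⟨.x, T0, (K (.ofNat 43242999166867068))⟩,
  ⟨.x, T1, (K (.negSucc 1222100702484918695))⟩] (.node [⟨.x, .z, (K (.ofNat 448655126912367648))⟩] .nil .nil .nil .nil .nil .nil) (.node [⟨.x, .z, (K (.negSucc 2601730347924728171))⟩] .nil .nil .nil .nil .nil .nil) .nil .nil .nil .nil) (.node [⟨.x, .z, (B (K (.negSucc 9034190419487968991)) (K (.ofNat 6140322119875969548)) N N)⟩,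
  ⟨.x, T0, (K (.negSucc 941557549141034543))⟩,
  ⟨.x, T1, (K (.negSucc 779851407871673651))⟩] (.node [⟨.x, .z, (K (.negSucc 2710180908863481155))⟩] .nil .nil .nil .nil .nil .nil) (.node [⟨.x, .z, (K (.negSucc 3355313086756868411))⟩] .nil .nil .nil .nil .nil .nil) .nil .nil .nil .nil) .nil .nil .nil .nil) (.node [⟨.x, .z, (B (B (K (.negSucc 2652934004979128067)) (K (.negSucc 4521471165802893991)) N N) (B (K (.ofNat 279039714615020148)) (K (.negSucc 1977950855366141987)) N N) N N)⟩,
  ⟨.x, T0, (B (K (.negSucc 182325455232267275)) (K (.ofNat 127218053921135880)) N N)⟩,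
  ⟨.x, T1, (B (K (.negSucc 12307297275819136931)) (K (.ofNat 5017977968917219848)) N N)⟩,
  ⟨.x, T5, (K (.negSucc 95446292417527475))⟩,
  ⟨.x, T7, (K (.negSucc 486781717814066687))⟩,
  ⟨.x, T8, (K (.negSucc 53031367271472191))⟩,
  ⟨.x, T10, (K (.negSucc 127218053921135879))⟩] (.node [⟨.x, .z, (B (K (.ofNat 9015294410300072508)) (K (.negSucc 7914258143782484567)) N N)⟩,
  ⟨.x, T0, (K (.ofNat 2433519251521123044))⟩,
  ⟨.x, T1, (K (.ofNat 900394415420718684))⟩] (.node [⟨.x, .z, (K (.negSucc 2055770454860888495))⟩] .nil .nil .nil .nil .nil .nil) (.node [⟨.x, .z, (K (.negSucc 1355163696900442379))⟩] .nil .nil .nil .nil .nil .nil) .nil .nil .nil .nil) (.node [⟨.x, .z, (B (K (.negSucc 861639109319883803)) (K (.ofNat 20902374991611300)) N N)⟩,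
  ⟨.x, T0, (K (.ofNat 17804036474156124))⟩,
  ⟨.x, T1, (K (.ofNat 315434710627656612))⟩] (.node [⟨.x, .z, (K (.negSucc 1063057093126975763))⟩] .nil .nil .nil .nil .nil .nil) (.node [⟨.x, .z, (K (.ofNat 249122764435295316))⟩] .nil .nil .nil .nil .nil .nil) .nil .nil .nil .nil) .nil .nil .nil .nil) .nil .nil)

def c_012 : Cert := (.node [⟨.x, .z, (B (B (B (K (.ofNat 34764309549913367592)) (K (.ofNat 23486769249356532708)) N N) (B (K (.ofNat 27941888546719848414)) (K (.negSucc 23782562205338315645)) N N) N N) (B (B (K (.ofNat 60863949977681823396)) (K (.ofNat 29428997924437522008)) N N) (B (K (.ofNat 26630615949353023116)) (K (.negSucc 65320466976035970407)) N N) N N) N N)⟩,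
  ⟨.x, T0, (B (B (K (.negSucc 11858141570877181091)) (K (.negSucc 49826308542222719837)) N N) (B (K (.negSucc 4816300337921060819)) (K (.ofNat 10331276973454497240)) N N) N N)⟩,
  ⟨.x, T1, (B (B (K (.negSucc 19615551484305888863)) (K (.negSucc 7066574296161027833)) N N) (B (K (.negSucc 28984416053523297377)) (K (.ofNat 3431584388630115438)) N N) N N)⟩,
  ⟨.x, T4, (B N N (K (.negSucc 7778397270445846685)) (K (.ofNat 4985490456331630632)))⟩,
  ⟨.x, T5, (A1 (K (.ofNat 24649418561198935896)))⟩,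
  ⟨.x, T6, (B N N (K (.ofNat 10412874616550917254)) (K (.negSucc 8750956396903904579)))⟩,
  ⟨.x, T7, (B (K (.negSucc 21781094352766384367)) (K (.negSucc 42780871823873054531)) N N)⟩,
  ⟨.x, T8, (B (K (.ofNat 2032261743977099370)) (K (.negSucc 14997441497628035453)) N N)⟩,
  ⟨.x, T10, (A1 (K (.ofNat 28967063848697836650)))⟩,
  ⟨.x, T29, (K (.negSucc 20288412305060253239))⟩,
  ⟨.x, T13, (K (.ofNat 610595023894700532))⟩,
  ⟨.x, T14, (K (.ofNat 578565445754473908))⟩,
  ⟨.x, T30, (K (.negSucc 11624118555993015065))⟩,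
  ⟨.x, T31, (K (.ofNat 3695047194506776116))⟩,
  ⟨.x, T32, (K (.negSucc 13700458010555609987))⟩] (.node [⟨.x, .z, (B (B (K (.ofNat 29210147150451358764)) (K (.negSucc 179732203948903847)) N N) (B (K (.ofNat 23741465010027068892)) (K (.negSucc 88283853731431980467)) N N) N N)⟩,
  ⟨.x, T0, (B (K (.negSucc 36827873639855779451)) (K (.ofNat 49669165854400650072)) N N)⟩,
  ⟨.x, T1, (B (K (.ofNat 13428375612593479764)) (K (.ofNat 2812080767643584736)) N N)⟩,
  ⟨.x, T5, (K (.negSucc 2751762277425328223))⟩,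
  ⟨.x, T7, (K (.negSucc 35069291427218313911))⟩,
  ⟨.x, T8, (K (.ofNat 2892945165561848544))⟩,
  ⟨.x, T10, (K (.ofNat 3699827829577618692))⟩] (.node [⟨.x, .z, (B (K (.negSucc 17246900628000348923)) (K (.negSucc 57686190060146345231)) N N)⟩,
  ⟨.x, T0, (K (.ofNat 30328788736925656536))⟩,
  ⟨.x, T1, (K (.ofNat 23868854818199337852))⟩] (.node [⟨.x, .z, (K (.negSucc 17523763661033321723))⟩] .nil .nil .nil .nil .nil .nil) (.node [⟨.x, .z, (K (.negSucc 2980396409018357099))⟩] .nil .nil .nil .nil .nil .nil) .nil .nil .nil .nil) (.node [⟨.x, .z, (B (K (.negSucc 4014420949262967917)) (K (.ofNat 21166363496876430672)) N N)⟩,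
  ⟨.x, T0, (K (.ofNat 14014933019451140436))⟩,
  ⟨.x, T1, (K (.negSucc 9241827347493248849))⟩] (.node [⟨.x, .z, (K (.negSucc 3697344273478543511))⟩] .nil .nil .nil .nil .nil .nil) (.node [⟨.x, .z, (K (.ofNat 13531176214945876536))⟩] .nil .nil .nil .nil .nil .nil) .nil .nil .nil .nil) .nil .nil .nil .nil) (.node [⟨.x, .z, (B (B (K (.ofNat 6100388893412308182)) (K (.negSucc 17700530751811703297)) N N) (B (K (.negSucc 15796124279517561299)) (K (.ofNat 205040608050062592)) N N) N N)⟩,
  ⟨.x, T0, (B (K (.negSucc 19368954224014339211)) (K (.ofNat 20792331948209540004)) N N)⟩,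
  ⟨.x, T1, (B (K (.ofNat 10305103361730486006)) (K (.negSucc 37672138552118946053)) N N)⟩,
  ⟨.x, T5, (K (.ofNat 6531926042663873856))⟩,
  ⟨.x, T7, (K (.negSucc 25758282596653553603))⟩,
  ⟨.x, T8, (K (.negSucc 13567446518182104251))⟩,
  ⟨.x, T10, (K (.ofNat 3726635086436315472))⟩] (.node [⟨.x, .z, (B (K (.negSucc 5314898167773703997)) (K (.negSucc 5313228603518080139)) N N)⟩,
  ⟨.x, T0, (K (.ofNat 28092804623555524860))⟩,
  ⟨.x, T1, (K (.ofNat 4495233805573520166))⟩] (.node [⟨.x, .z, (K (.negSucc 4401748444454322347))⟩] .nil .nil .nil .nil .nil .nil) (.node [⟨.x, .z, (K (.ofNat 22863324854188404144))⟩] .nil .nil .nil .nil .nil .nil) .nil .nil .nil .nil) (.node [⟨.x, .z, (B (K (.negSucc 2215369004711194553)) (K (.ofNat 65835746246534608356)) N N)⟩,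
  ⟨.x, T0, (K (.negSucc 16152714089955842855))⟩,
  ⟨.x, T1, (K (.negSucc 5477293675890405941))⟩] (.node [⟨.x, .z, (K (.ofNat 22833278140379006880))⟩] .nil .nil .nil .nil .nil .nil) (.node [⟨.x, .z, (K (.ofNat 26582445264800270472))⟩] .nil .nil .nil .nil .nil .nil) .nil .nil .nil .nil) .nil .nil .nil .nil) (.node [⟨.x, T4, (K (.ofNat 5064741227890170660))⟩,
  ⟨.x, T6, (K (.ofNat 16658117340663363426))⟩] .nil .nil .nil .nil .nil .nil) (.node [⟨.x, T4, (K (.ofNat 7625308583930889038))⟩,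
  ⟨.x, T6, (K (.ofNat 22524547761858460706))⟩] .nil .nil .nil .nil .nil .nil) .nil .nil)

def c_013 : Cert := (.node [⟨.x, .z, (B (B (B (K (.ofNat 4214189190911472704)) (K (.ofNat 415285563806357572)) N N) (B (K (.ofNat 4518929282799955098)) (K (.negSucc 1080663319432198045)) N N) N N) (B (B (K (.ofNat 8053761644167749576)) (K (.ofNat 913850012804245884)) N N) (B (K (.ofNat 1497877323459915240)) (K (.negSucc 8942974986652475747)) N N) N N) N N)⟩,
  ⟨.x, T0, (B (B (K (.negSucc 486684712587535823)) (K (.negSucc 3138660343606211477)) N N) (B (K (.ofNat 2505391334532253680)) (K (.ofNat 1398040119865584264)) N N) N N)⟩,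
  ⟨.x, T1, (B (B (K (.negSucc 13356701960578822931)) (K (.negSucc 7543811088202664021)) N N) (B (K (.negSucc 17743491765110894993)) (K (.ofNat 1297496843688568062)) N N) N N)⟩,
  ⟨.x, T4, (B N N (K (.negSucc 1153738693943130611)) (K (.ofNat 516871228187425332)))⟩,
  ⟨.x, T5, (A1 (K (.ofNat 2705402114917261488)))⟩,
  ⟨.x, T6, (B N N (K (.ofNat 1609446428315860980)) (K (.negSucc 1382541172568939339)))⟩,
  ⟨.x, T7, (B (K (.negSucc 2133407403228919499)) (K (.negSucc 4960580753840615555)) N N)⟩,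
  ⟨.x, T8, (B (K (.negSucc 223115476502448641)) (K (.negSucc 1468066092641727641)) N N)⟩,
  ⟨.x, T10, (A1 (K (.ofNat 2204444787786685278)))⟩,
  ⟨.x, T29, (K (.negSucc 2178255556130837759))⟩,
  ⟨.x, T13, (K (.negSucc 412966297981745435))⟩,
  ⟨.x, T14, (K (.negSucc 110756395481228879))⟩,
  ⟨.x, T30, (K (.negSucc 658678167708113729))⟩,
  ⟨.x, T31, (K (.ofNat 349619677764545388))⟩,
  ⟨.x, T32, (K (.negSucc 1775048474842784579))⟩] (.node [⟨.x, .z, (B (B (K (.ofNat 13559948158432970784)) (K (.ofNat 3564881351821492848)) N N) (B (K (.ofNat 13370411975027013000)) (K (.negSucc 8670370825214351615)) N N) N N)⟩,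
  ⟨.x, T0, (B (K (.negSucc 4771882258976825051)) (K (.ofNat 1737999513587098620)) N N)⟩,
  ⟨.x, T1, (B (K (.ofNat 3343911691148470572)) (K (.ofNat 2354004958419360948)) N N)⟩,
  ⟨.x, T5, (K (.negSucc 1474041802405070051))⟩,
  ⟨.x, T7, (K (.negSucc 4276792136504267015))⟩,
  ⟨.x, T8, (K (.ofNat 3332985851010196116))⟩,
  ⟨.x, T10, (K (.ofNat 752448584361582840))⟩] (.node [⟨.x, .z, (B (K (.negSucc 3474800931095767931)) (K (.negSucc 4792902966203697227)) N N)⟩,
  ⟨.x, T0, (K (.ofNat 3504205874922469104))⟩,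
  ⟨.x, T1, (K (.ofNat 2992131302196723240))⟩] (.node [⟨.x, .z, (K (.negSucc 1915212914641219007))⟩] .nil .nil .nil .nil .nil .nil) (.node [⟨.x, .z, (K (.negSucc 2665432040670493151))⟩] .nil .nil .nil .nil .nil .nil) .nil .nil .nil .nil) (.node [⟨.x, .z, (B (K (.ofNat 2533121790668146362)) (K (.ofNat 648442895927192508)) N N)⟩,
  ⟨.x, T0, (K (.ofNat 4488018202606386168))⟩,
  ⟨.x, T1, (K (.negSucc 3204031556864292497))⟩] (.node [⟨.x, .z, (K (.negSucc 1957049640745652939))⟩] .nil .nil .nil .nil .nil .nil) (.node [⟨.x, .z, (K (.negSucc 851254164503880539))⟩] .nil .nil .nil .nil .nil .nil) .nil .nil .nil .nil) .nil .nil .nil .nil) (.node [⟨.x, .z, (B (B (K (.ofNat 2553518602219322094)) (K (.negSucc 2651239635123024749)) N N) (B (K (.ofNat 2114517616368035724)) (K (.negSucc 1490055211475817563)) N N) N N)⟩,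
  ⟨.x, T0, (B (K (.negSucc 2389395709415192171)) (K (.ofNat 2305071316891998948)) N N)⟩,
  ⟨.x, T1, (B (K (.negSucc 451604137403954465)) (K (.negSucc 1861816697996571665)) N N)⟩,
  ⟨.x, T5, (K (.ofNat 482537962624693836))⟩,
  ⟨.x, T7, (K (.negSucc 2337998480463534611))⟩,
  ⟨.x, T8, (K (.negSucc 722723790547882799))⟩,
  ⟨.x, T10, (K (.ofNat 242771467331964084))⟩] (.node [⟨.x, .z, (B (K (.ofNat 599332699496709918)) (K (.negSucc 290200960348341971)) N N)⟩,
  ⟨.x, T0, (K (.ofNat 3607298677059790788))⟩,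
  ⟨.x, T1, (K (.negSucc 239072968927829777))⟩] (.node [⟨.x, .z, (K (.negSucc 233679336980893487))⟩] .nil .nil .nil .nil .nil .nil) (.node [⟨.x, .z, (K (.ofNat 2004395963476129872))⟩] .nil .nil .nil .nil .nil .nil) .nil .nil .nil .nil) (.node [⟨.x, .z, (B (K (.ofNat 1540887252073345050)) (K (.ofNat 7757482903613556828)) N N)⟩,
  ⟨.x, T0, (K (.negSucc 1863798235342726571))⟩,
  ⟨.x, T1, (K (.negSucc 2007205536457600181))⟩] (.node [⟨.x, .z, (K (.ofNat 2851024024421577312))⟩] .nil .nil .nil .nil .nil .nil) (.node [⟨.x, .z, (K (.ofNat 2972968046425114608))⟩] .nil .nil .nil .nil .nil .nil) .nil .nil .nil .nil) .nil .nil .nil .nil) (.node [⟨.x, T4, (K (.ofNat 4363553756404597510))⟩,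
  ⟨.x, T6, (K (.negSucc 7224487566111533275))⟩] .nil .nil .nil .nil .nil .nil) (.node [⟨.x, T4, (K (.ofNat 1790396016630891270))⟩,
  ⟨.x, T6, (K (.ofNat 1131430259088918978))⟩] .nil .nil .nil .nil .nil .nil) .nil .nil)

def c_01 : Cert := (.node [⟨.x, .z, (B (B (B (A2 (K (.ofNat 385000618387103784))) N (A0 (K (.negSucc 543281489767567655))) N) N (B (B (K (.negSucc 11054565161664482675)) (K (.negSucc 4750081787320764587)) N N) (B (K (.negSucc 14917608915552719903)) (K (.ofNat 3093082514626937820)) N N) N N) N) (B (B (A2 (K (.ofNat 1566157418761919844))) N (B (K (.negSucc 2453515936305226175)) (K (.ofNat 3369670639137153468)) N N) N) (B (A2 (K (.negSucc 1844544481295337395))) (B N N (K (.negSucc 236720936760798587)) (K (.ofNat 297477193098203508))) (B (K (.negSucc 6225494443686162923)) (K (.ofNat 6180817167901939776)) N N) (B (K (.ofNat 513341173433459736)) (K (.ofNat 878057638923110424)) N N)) (B (B (K (.negSucc 19664240296481944127)) (K (.negSucc 7031747028737563739))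 N N) (B (K (.negSucc 18924580245490964951)) (K (.negSucc 1803908035805390147)) N N) N N) (B (B (K (.negSucc 9861680928093492539)) (K (.negSucc 3267645557474647487)) N N) (B (K (.negSucc 9727905105397950371)) (K (.ofNat 1809498009800493252)) N N) N N)) (B (B (B (K (.negSucc 4833526476494042323)) (K (.negSucc 2865665944665909579)) N N) (B (K (.negSucc 6220197000420998507)) (K (.ofNat 1250897428377115844)) N N) N N) (B (B (K (.ofNat 9235061280848787996)) (K (.negSucc 646009843351353443)) N N) (B (K (.ofNat 11517987766880071764)) (K (.negSucc 4061733412167896423)) N N) N N) N N) (B (B (B (K (.negSucc 10836961823348396859)) (K (.negSucc 7908705273925308703)) N N) (B (K (.negSucc 12008414820563925695)) (K (.ofNat 366840482099787796)) N N) N N) (B (B (K (.negSucc 9180649398964402847)) (K (.negSucc 9453692194609289591)) N N) (B (K (.negSucc 13114180700233511951)) (K (.ofNat 536709652361025276)) N N) N N) N N))⟩,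
  ⟨.z, .z, (B (B (B (A0 (K (.ofNat 3401725751569056294))) (A1 (K (.negSucc 3524096606369074289))) N N) (B (B (K (.ofNat 11779493066601536330)) (K (.ofNat 8276749181041229856)) N N) (B (K (.ofNat 11857922844901034294)) (K (.negSucc 4475735493540003171)) N N) N N) N N) (B (B (B (K (.ofNat 13417220606770046892)) (K (.ofNat 6470724050078509802)) N N) (B (K (.ofNat 12526892444252211142)) (K (.negSucc 5328009385455821349)) N N) N N) (B (B (K (.ofNat 9336518794006308152)) (K (.ofNat 7275230754292107456)) N N) (B (K (.ofNat 10862505769969478066)) (K (.negSucc 192132774059275823)) N N) N N) N N) N N)⟩,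
  ⟨.x, T0, (B (B (A2 (K (.ofNat 567532692114886728))) N (B (K (.negSucc 916365386564224595)) (K (.ofNat 178190303950842000)) N N) N) (B (A2 (K (.ofNat 1145751941903510832))) (B N N (K (.negSucc 263267960239780115)) (K (.negSucc 37988956602998651))) (B (K (.ofNat 197251623046471884)) (K (.ofNat 341252679741889452)) N N) (B (K (.ofNat 65987807798487072)) (K (.negSucc 884181328510744991)) N N)) (B (B (K (.ofNat 349715625514954320)) (K (.ofNat 663666384801959544)) N N) (B (K (.negSucc 1182963319333903307)) (K (.ofNat 570507801465125220)) N N) N N) (B (B (K (.ofNat 9625421733859501968)) (K (.ofNat 6290016530766112212)) N N) (B (K (.ofNat 12508831732807139076)) (K (.negSucc 2223835888473356747)) N N) N N))⟩,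
  ⟨.x, T1, (B (B (A2 (K (.negSucc 303061070367979619))) N (B (K (.ofNat 1347946911314769204)) (K (.negSucc 1339687408701700403)) N N) N) (B (A2 (K (.ofNat 22928097456125748))) (B N N (K (.ofNat 1971473069049379776)) (K (.negSucc 40807107803193419))) (B (K (.ofNat 928516669803362556)) (K (.negSucc 1342290527125043783)) N N) (B (K (.ofNat 1317442407367000896)) (K (.negSucc 1296178242900073115)) N N)) (B (B (K (.ofNat 10856844768462592908)) (K (.ofNat 5935762303737178212)) N N) (B (K (.ofNat 13356130184927270088)) (K (.negSucc 75968451711344495)) N N) N N) (B (B (K (.ofNat 498594548598212904)) (K (.ofNat 631154815372303116)) N N) (A0 (K (.ofNat 631173682754132748))) N N))⟩,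
  ⟨.x, T2, (B (B (B (K (.ofNat 10530670268323861420)) (K (.ofNat 7177607075999448380)) N N) (B (K (.ofNat 12215977047004422216)) (K (.negSucc 2630516541410986875)) N N) N N) (B (B (K (.ofNat 8884692015816890664)) (K (.ofNat 6699726196819762944)) N N) (B (K (.ofNat 11731660002837299448)) (K (.negSucc 382184566966871435)) N N) N N) N N)⟩,
  ⟨.z, T0, (A0 (B (B (K (.ofNat 5174278012286279720)) (K (.ofNat 3049835803644337588)) N N) (B (K (.ofNat 7380082123280473200)) (K (.negSucc 2828395007538276691)) N N) N N))⟩,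
  ⟨.x, T4, (B N N (A2 (K (.negSucc 54963037609259663))) (B N N (K (.ofNat 212266378253248188)) (K (.negSucc 93156618123767315))))⟩,
  ⟨.x, T5, (B N (A3 (K (.negSucc 219352054929755363))) N (A1 (K (.negSucc 430349320269614663))))⟩,
  ⟨.x, T6, (B N N (A2 (K (.negSucc 35372505941484287))) (B N N (K (.negSucc 503933879825864135)) (K (.ofNat 616441240096634784))))⟩,
  ⟨.x, T7, (B (A2 (K (.ofNat 508106411508904812))) (B N N (K (.ofNat 708340240085539548)) (K (.ofNat 413992993846828476))) (B (K (.negSucc 546210644556075683)) (K (.negSucc 610805454841487927)) N N) (B (K (.ofNat 802773381875651784)) (K (.ofNat 160185325008724428)) N N))⟩,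
  ⟨.x, T8, (B (A2 (K (.ofNat 494442391293953472))) (B N N (K (.ofNat 1240949039169724452)) (K (.negSucc 309620889377576903))) (B (K (.negSucc 17462903427509903)) (K (.negSucc 380416385587814339)) N N) (B (K (.ofNat 1250183161329169212)) (K (.negSucc 811066567172120819)) N N))⟩,
  ⟨.x, T9, (A0 (B (K (.negSucc 522865779543539375)) (K (.negSucc 1003669561001159027)) N N))⟩,
  ⟨.x, T10, (B N (B N N (K (.ofNat 639776157890750328)) (K (.ofNat 14106969637761324))) N (A1 (K (.negSucc 24037828357117175))))⟩,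
  ⟨.x, T11, (A1 (B (K (.negSucc 333062367786614303)) (K (.ofNat 1096144469676823428)) N N))⟩,
  ⟨.x, T29, (A3 (K (.ofNat 307974971783533368)))⟩,
  ⟨.x, T13, (B N N (K (.negSucc 447031951481169995)) (K (.negSucc 155990540841789131)))⟩,
  ⟨.x, T14, (B N N (K (.negSucc 524790648928624223)) (K (.ofNat 356347766779822560)))⟩,
  ⟨.x, T20, (A0 (K (.negSucc 98250843568826207)))⟩,
  ⟨.x, T30, (A2 (K (.ofNat 84737032868516400)))⟩,
  ⟨.x, T24, (A0 (K (.ofNat 151995232313064552)))⟩,
  ⟨.x, T31, (A3 (K (.ofNat 63743153989492200)))⟩,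
  ⟨.x, T37, (A1 (K (.ofNat 159048128835645384)))⟩,
  ⟨.x, T32, (A3 (K (.ofNat 69138284027961348)))⟩,
  ⟨.x, T15, (B (K (.negSucc 85528796472442835)) (K (.negSucc 207044982581416199)) N N)⟩,
  ⟨.x, T33, (A1 (K (.negSucc 508023113028299375)))⟩,
  ⟨.z, T13, (A0 (K (.negSucc 300202537017100139)))⟩,
  ⟨.x, T21, (K (.ofNat 328361335934745240))⟩,
  ⟨.x, T25, (K (.ofNat 293312667949567704))⟩,
  ⟨.x, T38, (K (.ofNat 17728373359512468))⟩,
  ⟨.x, T39, (K (.negSucc 375272983239864047))⟩,
  ⟨.x, T41, (K (.ofNat 1610131810461120))⟩,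
  ⟨.x, T36, (K (.ofNat 133890579040306356))⟩,
  ⟨.x, T42, (K (.ofNat 162059047424534520))⟩,
  ⟨.z, T16, (K (.negSucc 115794693610615475))⟩,
  ⟨.z, T18, (K (.negSucc 231491065534350695))⟩] c_010 c_011 c_012 c_013 .nil .nil)

def c_020 : Cert := (.node [⟨.x, .z, (B (B (B (K (.negSucc 417790504081818575)) (K (.negSucc 652450581489498239)) N N) (B (K (.ofNat 838021219351218924)) (K (.ofNat 755892191549198844)) N N) N N) (B (B (K (.negSucc 1466916006903537035)) (K (.negSucc 947308936696008731)) N N) (B (K (.negSucc 132304756824360083)) (K (.ofNat 833921706664063524)) N N) N N) N N)⟩,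
  ⟨.x, T0, (B (B (K (.negSucc 179499698381755835)) (K (.ofNat 388566910870318968)) N N) (B (K (.negSucc 1459526070231821291)) (K (.negSucc 212492094669935351)) N N) N N)⟩,
  ⟨.x, T1, (B (B (K (.negSucc 308892662477713955)) (K (.negSucc 15195663823690391)) N N) (B (K (.ofNat 416078263148508636)) (K (.negSucc 1044570008617367975)) N N) N N)⟩,
  ⟨.x, T4, (B N N (K (.negSucc 107142108813611645)) (K (.ofNat 66091232274938502)))⟩,
  ⟨.x, T5, (A1 (K (.negSucc 56417458492241507)))⟩,
  ⟨.x, T6, (B N N (K (.negSucc 196078337364996335)) (K (.ofNat 618122662324863522)))⟩,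
  ⟨.x, T7, (B (K (.negSucc 312521555452095119)) (K (.ofNat 486044027043495264)) N N)⟩,
  ⟨.x, T8, (B (K (.negSucc 1013866572754770191)) (K (.negSucc 1389287925115154699)) N N)⟩,
  ⟨.x, T10, (A1 (K (.negSucc 370386702408192263)))⟩,
  ⟨.x, T29, (K (.ofNat 40684706101577568))⟩,
  ⟨.x, T13, (K (.ofNat 124239434613498468))⟩,
  ⟨.x, T14, (K (.ofNat 371597717672338896))⟩,
  ⟨.x, T30, (K (.ofNat 303604704302253540))⟩,
  ⟨.x, T31, (K (.ofNat 8872975681566408))⟩,
  ⟨.x, T32, (K (.ofNat 66780201212431140))⟩] (.node [⟨.x, .z, (B (B (K (.ofNat 162390166264351140)) (K (.ofNat 187718582817479568)) N N) (B (K (.negSucc 62344321382997599)) (K (.ofNat 254513538184603152)) N N) N N)⟩,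
  ⟨.x, T0, (B (K (.ofNat 84222553107930888)) (K (.negSucc 664812159416772467)) N N)⟩,
  ⟨.x, T1, (B (K (.negSucc 4806552914893655)) (K (.negSucc 621575488485956915)) N N)⟩,
  ⟨.x, T5, (K (.ofNat 52517228569272924))⟩,
  ⟨.x, T7, (K (.negSucc 433195005458071895))⟩,
  ⟨.x, T8, (K (.negSucc 647946415909346195))⟩,
  ⟨.x, T10, (K (.negSucc 10781361045503))⟩] (.node [⟨.x, .z, (B (K (.negSucc 53306850669788867)) (K (.negSucc 127822923406390931)) N N)⟩,
  ⟨.x, T0, (K (.ofNat 278724204330287700))⟩,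
  ⟨.x, T1, (K (.negSucc 93193848650066363))⟩] (.node [⟨.x, .z, (K (.negSucc 11911976772745979))⟩] .nil .nil .nil .nil .nil .nil) (.node [⟨.x, .z, (K (.ofNat 658562816257923240))⟩] .nil .nil .nil .nil .nil .nil) .nil .nil .nil .nil) (.node [⟨.x, .z, (B (K (.negSucc 1303071871774435259)) (K (.negSucc 752771178264575975)) N N)⟩,
  ⟨.x, T0, (K (.ofNat 68881130344184148))⟩,
  ⟨.x, T1, (K (.ofNat 1056490169606122800))⟩] (.node [⟨.x, .z, (K (.negSucc 253940615099774279))⟩] .nil .nil .nil .nil .nil .nil) (.node [⟨.x, .z, (K (.ofNat 224797593348003792))⟩] .nil .nil .nil .nil .nil .nil) .nil .nil .nil .nil) .nil .nil .nil .nil) (.node [⟨.x, .z, (B (B (K (.negSucc 2134540339192666475)) (K (.negSucc 2315528739887370815)) N N) (B (K (.ofNat 1065959947213038168)) (K (.ofNat 1823773576598365584)) N N) N N)⟩,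
  ⟨.x, T0, (B (K (.negSucc 2004002312339375867)) (K (.negSucc 1245909624997103327)) N N)⟩,
  ⟨.x, T1, (B (K (.ofNat 1337295310307003964)) (K (.ofNat 670228751973720312)) N N)⟩,
  ⟨.x, T5, (K (.ofNat 795278867165776044))⟩,
  ⟨.x, T7, (K (.negSucc 773328294307823183))⟩,
  ⟨.x, T8, (K (.negSucc 945180552717970955))⟩,
  ⟨.x, T10, (K (.negSucc 1124108127389445023))⟩] (.node [⟨.x, .z, (B (K (.negSucc 1173646258661668163)) (K (.negSucc 2812620734433757367)) N N)⟩,
  ⟨.x, T0, (K (.ofNat 2081449485413569776))⟩,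
  ⟨.x, T1, (K (.ofNat 763046924680331208))⟩] (.node [⟨.x, .z, (K (.negSucc 374021636121857747))⟩] .nil .nil .nil .nil .nil .nil) (.node [⟨.x, .z, (K (.negSucc 28570213338067199))⟩] .nil .nil .nil .nil .nil .nil) .nil .nil .nil .nil) (.node [⟨.x, .z, (B (K (.negSucc 1911957103593401615)) (K (.negSucc 3301600669497353855)) N N)⟩,
  ⟨.x, T0, (K (.ofNat 2250398482249930560))⟩,
  ⟨.x, T1, (K (.ofNat 2067381203795975496))⟩] (.node [⟨.x, .z, (K (.negSucc 541908565382475311))⟩] .nil .nil .nil .nil .nil .nil) (.node [⟨.x, .z, (K (.negSucc 976786418978449271))⟩] .nil .nil .nil .nil .nil .nil) .nil .nil .nil .nil) .nil .nil .nil .nil) (.node [⟨.x, T4, (K (.negSucc 37827486893752565))⟩,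
  ⟨.x, T6, (K (.negSucc 585116708077676477))⟩] .nil .nil .nil .nil .nil .nil) (.node [⟨.x, T4, (K (.ofNat 68300649678174756))⟩,
  ⟨.x, T6, (K (.ofNat 501196240322166492))⟩] .nil .nil .nil .nil .nil .nil) .nil .nil)

def c_021 : Cert := (.node [⟨.x, .z, (B (B (B (K (.negSucc 34291743699529502975)) (K (.negSucc 25078798879954794059)) N N) (B (K (.negSucc 31492096014956575049)) (K (.ofNat 20368411343946241542)) N N) N N) (B (B (K (.negSucc 49717111896254345483)) (K (.negSucc 24772268464977011099)) N N) (B (K (.negSucc 14782780788144167507)) (K (.ofNat 64478929196767754952)) N N) N N) N N)⟩,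
  ⟨.x, T0, (B (B (K (.ofNat 3086657342748897468)) (K (.ofNat 44764389581267885826)) N N) (B (K (.negSucc 6033474532770829763)) (K (.negSucc 7731579950820100175)) N N) N N)⟩,
  ⟨.x, T1, (B (B (K (.ofNat 17681409062236581132)) (K (.ofNat 8258939257000432158)) N N) (B (K (.ofNat 29382702175081457334)) (K (.negSucc 118578734680448225)) N N) N N)⟩,
  ⟨.x, T4, (B N N (K (.ofNat 7860702808448024784)) (K (.negSucc 4995434225442843995)))⟩,
  ⟨.x, T5, (A1 (K (.negSucc 24812062480131654299)))⟩,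
  ⟨.x, T6, (B N N (K (.negSucc 9931677074236081775)) (K (.ofNat 6813049949784712548)))⟩,
  ⟨.x, T7, (B (K (.ofNat 21752460095513221008)) (K (.ofNat 43691195288101337508)) N N)⟩,
  ⟨.x, T8, (B (K (.negSucc 3568462156441490837)) (K (.ofNat 18507273950773427706)) N N)⟩,
  ⟨.x, T10, (A1 (K (.negSucc 28591412743061115905)))⟩,
  ⟨.x, T29, (K (.ofNat 20787737110988851536))⟩,
  ⟨.x, T13, (K (.negSucc 726912846589202375))⟩,
  ⟨.x, T14, (K (.negSucc 1125079559335851155))⟩,
  ⟨.x, T30, (K (.ofNat 11837911997839734510))⟩,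
  ⟨.x, T31, (K (.negSucc 3621752176632009707))⟩,
  ⟨.x, T32, (K (.ofNat 13982862310326247584))⟩] (.node [⟨.x, .z, (B (B (K (.negSucc 29209733675137514147)) (K (.negSucc 3062054505614292371)) N N) (B (K (.negSucc 23384444100153993083)) (K (.ofNat 90455403596155584852)) N N) N N)⟩,
  ⟨.x, T0, (B (K (.ofNat 33313269766786181364)) (K (.negSucc 50263714910944799615)) N N)⟩,
  ⟨.x, T1, (B (K (.negSucc 11822788168843423559)) (K (.negSucc 1990605472662788531)) N N)⟩,
  ⟨.x, T5, (K (.ofNat 3694684150280710536))⟩,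
  ⟨.x, T7, (K (.ofNat 34930049822055430740))⟩,
  ⟨.x, T8, (K (.negSucc 2143618421641405571))⟩,
  ⟨.x, T10, (K (.negSucc 4801255891688638187))⟩] (.node [⟨.x, .z, (B (K (.ofNat 17420112648101963196)) (K (.ofNat 55878478922347885056)) N N)⟩,
  ⟨.x, T0, (K (.negSucc 27925575955234712363))⟩,
  ⟨.x, T1, (K (.negSucc 24608914681767027503))⟩] (.node [⟨.x, .z, (K (.ofNat 18176667946757598312))⟩] .nil .nil .nil .nil .nil .nil) (.node [⟨.x, .z, (K (.ofNat 2763844034624213844))⟩] .nil .nil .nil .nil .nil .nil) .nil .nil .nil .nil) (.node [⟨.x, .z, (B (K (.ofNat 6912883618654122150)) (K (.negSucc 22581269043108860087)) N N)⟩,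
  ⟨.x, T0, (K (.negSucc 11396353147259050895))⟩,
  ⟨.x, T1, (K (.ofNat 6501298754948455758))⟩] (.node [⟨.x, .z, (K (.ofNat 4597322033774832084))⟩] .nil .nil .nil .nil .nil .nil) (.node [⟨.x, .z, (K (.negSucc 14606492784779652335))⟩] .nil .nil .nil .nil .nil .nil) .nil .nil .nil .nil) .nil .nil .nil .nil) (.node [⟨.x, .z, (B (B (K (.negSucc 16977745832762549705)) (K (.ofNat 15460810356850687434)) N N) (B (K (.ofNat 6355913761758954132)) (K (.negSucc 3904365998486406659)) N N) N N)⟩,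
  ⟨.x, T0, (B (K (.ofNat 22505039390779038036)) (K (.negSucc 16153870145346217475)) N N)⟩,
  ⟨.x, T1, (B (K (.negSucc 13400852053916511221)) (K (.ofNat 32521822326368258754)) N N)⟩,
  ⟨.x, T5, (K (.negSucc 6372954094143083927))⟩,
  ⟨.x, T7, (K (.ofNat 26393990990540979948))⟩,
  ⟨.x, T8, (K (.ofNat 9269766756456829776))⟩,
  ⟨.x, T10, (K (.negSucc 6539605736960301203))⟩] (.node [⟨.x, .z, (B (K (.ofNat 10120350261590247234)) (K (.ofNat 3687529227246004044)) N N)⟩,
  ⟨.x, T0, (K (.negSucc 27591189562544254235))⟩,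
  ⟨.x, T1, (K (.negSucc 6914712850315294049))⟩] (.node [⟨.x, .z, (K (.ofNat 5506179162099219696))⟩] .nil .nil .nil .nil .nil .nil) (.node [⟨.x, .z, (K (.negSucc 21430487530784946311))⟩] .nil .nil .nil .nil .nil .nil) .nil .nil .nil .nil) (.node [⟨.x, .z, (B (K (.ofNat 2157227554779928842)) (K (.negSucc 65359890453811611683)) N N)⟩,
  ⟨.x, T0, (K (.ofNat 15218282616878247060))⟩,
  ⟨.x, T1, (K (.ofNat 6438319379588216178))⟩] (.node [⟨.x, .z, (K (.negSucc 20619350544660199343))⟩] .nil .nil .nil .nil .nil .nil) (.node [⟨.x, .z, (K (.negSucc 25263831687477345251))⟩] .nil .nil .nil .nil .nil .nil) .nil .nil .nil .nil) .nil .nil .nil .nil) (.node [⟨.x, T4, (K (.negSucc 4253443134786700091))⟩,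
  ⟨.x, T6, (K (.negSucc 19193668154999417813))⟩] .nil .nil .nil .nil .nil .nil) (.node [⟨.x, T4, (K (.negSucc 11707880047127360177))⟩,
  ⟨.x, T6, (K (.negSucc 13642756648001883533))⟩] .nil .nil .nil .nil .nil .nil) .nil .nil)

def c_02 : Cert := (.node [⟨.x, .z, (B (B (B (A0 (K (.negSucc 621575544243212603))) (A1 (K (.ofNat 55755838292167092))) N N) (B (B (K (.negSucc 744901849109870891)) (K (.ofNat 1540868341224819636)) N N) (B (K (.ofNat 4565343034339272504)) (K (.ofNat 1921605395931488220)) N N) N N) N N) (B (B (B (K (.ofNat 7117731801560776848)) (K (.ofNat 3817703782682236500)) N N) (B (K (.ofNat 8525332477388445300)) (K (.negSucc 3854711746381795799)) N N) N N) (B (B (K (.ofNat 8404875363290743944)) (K (.ofNat 3833047422880894380)) N N) (B (K (.ofNat 10269503188636185588)) (K (.ofNat 855883336909074180)) N N) N N) N N) N N)⟩,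
  ⟨.x, T0, (B (B (B (K (.negSucc 6673019802553420931)) (K (.negSucc 3297988287482892695)) N N) (B (K (.negSucc 5309012674717403303)) (K (.ofNat 3296979335155207956)) N N) N N) (B (B (K (.negSucc 9722223730894416359)) (K (.negSucc 5272492892985306947)) N N) (B (K (.negSucc 10444710458934478883)) (K (.negSucc 1140518867284538843)) N N) N N) N N)⟩,
  ⟨.x, T1, (B (B (B (K (.ofNat 651030888112288776)) (K (.ofNat 160677465822618240)) N N) (B (K (.negSucc 1589573357075199143)) (K (.ofNat 632091449497986144)) N N) N N) (B (B (K (.ofNat 1273423723754235048)) (K (.ofNat 260289697467833316)) N N) (B (K (.negSucc 4355140122445908443)) (K (.negSucc 772465001910404411)) N N) N N) N N)⟩,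
  ⟨.x, T4, (B (A2 (K (.negSucc 3787590288837527))) (B N N (K (.negSucc 98302931416032629)) (K (.negSucc 160835160977505653))) (B (K (.ofNat 189496955291377710)) (K (.ofNat 223559220354836334)) N N) (B (K (.negSucc 33830756471854427)) (K (.negSucc 67846107248910149)) N N))⟩,
  ⟨.x, T5, (A1 (A1 (K (.negSucc 49323508364844683))))⟩,
  ⟨.x, T6, (B (A2 (K (.negSucc 345443759250160217))) (B N N (K (.negSucc 1239452569942527641)) (K (.ofNat 88004000048104110))) (B (K (.ofNat 106002693281902410)) (K (.ofNat 685517764480354254)) N N) (B (K (.ofNat 1063484272488210696)) (K (.ofNat 1026886775859456846)) N N))⟩,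
  ⟨.x, T7, (B (B (K (.negSucc 573542020427949635)) (K (.negSucc 193985608004537123)) N N) (B (K (.negSucc 1171670064905918255)) (K (.ofNat 78952232398935648)) N N) N N)⟩,
  ⟨.x, T8, (B (B (K (.negSucc 769613346424146599)) (K (.negSucc 1198091773799079167)) N N) (B (K (.negSucc 4430853740127285767)) (K (.negSucc 836942652746869535)) N N) N N)⟩,
  ⟨.x, T10, (A1 (B (K (.negSucc 1090104529999610723)) (K (.ofNat 270520142359190676)) N N))⟩,
  ⟨.x, T28, (A3 (K (.negSucc 189729770850028271)))⟩,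
  ⟨.x, T29, (A1 (K (.ofNat 41872764409271040)))⟩,
  ⟨.x, T12, (B N N (K (.negSucc 166302703357387133)) (K (.negSucc 574566096298524587)))⟩,
  ⟨.x, T13, (B (K (.negSucc 44235532673246303)) (K (.negSucc 128311627068371483)) N N)⟩,
  ⟨.x, T14, (B (K (.ofNat 157690978220408868)) (K (.ofNat 302151763377885276)) N N)⟩,
  ⟨.x, T30, (A0 (K (.ofNat 291869303146689876)))⟩,
  ⟨.x, T31, (A1 (K (.negSucc 39897704697617591)))⟩,
  ⟨.x, T32, (A1 (K (.negSucc 23583013217277863)))⟩,
  ⟨.x, T16, (K (.ofNat 200997852293719008))⟩,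
  ⟨.x, T18, (K (.ofNat 219807465701087088))⟩,
  ⟨.x, T34, (K (.ofNat 243684516881670372))⟩,
  ⟨.x, T43, (K (.ofNat 182386633881459024))⟩,
  ⟨.x, T45, (K (.negSucc 63361583861513183))⟩,
  ⟨.x, T35, (K (.negSucc 89567010810608291))⟩] c_020 c_021 (.node [⟨.x, T4, (B (K (.negSucc 165264910811266469)) (K (.ofNat 94714595185193604)) N N)⟩,
  ⟨.x, T6, (B (K (.negSucc 877900675637616287)) (K (.negSucc 892832484878239763)) N N)⟩,
  ⟨.x, T28, (K (.ofNat 6919828648530744))⟩,
  ⟨.x, T12, (K (.ofNat 76395185866557930))⟩] (.node [⟨.x, T4, (K (.ofNat 14727222711161190))⟩,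
  ⟨.x, T6, (K (.negSucc 392199581671437263))⟩] .nil .nil .nil .nil .nil .nil) (.node [⟨.x, T4, (K (.negSucc 901583401607059373))⟩,
  ⟨.x, T6, (K (.ofNat 3492161700140187426))⟩] .nil .nil .nil .nil .nil .nil) .nil .nil .nil .nil) (.node [⟨.x, T4, (B (K (.negSucc 6588362987562883977)) (K (.negSucc 13381329263121438841)) N N)⟩,
  ⟨.x, T6, (B (K (.ofNat 29132998742197053290)) (K (.ofNat 16055631347642796046)) N N)⟩,
  ⟨.x, T28, (K (.negSucc 31194489573013550451))⟩,
  ⟨.x, T12, (K (.ofNat 20988700723508795432))⟩] (.node [⟨.x, T4, (K (.negSucc 33872948136207785))⟩,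
  ⟨.x, T6, (K (.negSucc 34847252461522396773))⟩] .nil .nil .nil .nil .nil .nil) (.node [⟨.x, T4, (K (.ofNat 13425186349444740396))⟩,
  ⟨.x, T6, (K (.negSucc 30255284929051762151))⟩] .nil .nil .nil .nil .nil .nil) .nil .nil .nil .nil) .nil .nil)

def c_030 : Cert := (.node [⟨.x, .z, (B (B (B (K (.ofNat 27531965218527648936)) (K (.ofNat 43899260743019251428)) N N) (B (K (.ofNat 25930935531759042150)) (K (.negSucc 15587825396885686949)) N N) N N) (B (B (K (.ofNat 37536514177321801968)) (K (.ofNat 26388973862846476692)) N N) (B (K (.ofNat 22240386337044053808)) (K (.negSucc 130548826404980534351)) N N) N N) N N)⟩,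
  ⟨.x, T0, (B (B (K (.negSucc 2981285420532116087)) (K (.negSucc 67471364624059832057)) N N) (B (K (.negSucc 13449994882831821047)) (K (.ofNat 75418608088921401612)) N N) N N)⟩,
  ⟨.x, T1, (B (B (K (.ofNat 8011440571729436832)) (K (.ofNat 7642537227967388874)) N N) (B (K (.ofNat 8111065687548241290)) (K (.negSucc 5831350243318361957)) N N) N N)⟩,
  ⟨.x, T4, (B N N (K (.negSucc 4973395395914619629)) (K (.negSucc 990668084327547293)))⟩,
  ⟨.x, T5, (A1 (K (.ofNat 10266088278050932488)))⟩,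
  ⟨.x, T6, (B N N (K (.ofNat 4165750229230643706)) (K (.negSucc 1018458045717968231)))⟩,
  ⟨.x, T7, (B (K (.negSucc 10026756260942575619)) (K (.negSucc 50796857551385669735)) N N)⟩,
  ⟨.x, T8, (B (K (.ofNat 16500290496814662498)) (K (.negSucc 14052173349551940905)) N N)⟩,
  ⟨.x, T10, (A1 (K (.ofNat 11675813520043789122)))⟩,
  ⟨.x, T29, (K (.negSucc 8803121947270535447))⟩,
  ⟨.x, T13, (K (.negSucc 1631502533322085763))⟩,
  ⟨.x, T14, (K (.ofNat 3081123303970414068))⟩,
  ⟨.x, T30, (K (.negSucc 3791995191211171037))⟩,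
  ⟨.x, T31, (K (.negSucc 2985441593743158035))⟩,
  ⟨.x, T32, (K (.negSucc 3430619582085070331))⟩] (.node [⟨.x, .z, (B (B (K (.ofNat 6227950978166327640)) (K (.negSucc 17292787572062481383)) N N) (B (K (.ofNat 22643696549972769936)) (K (.negSucc 108175081782809515259)) N N) N N)⟩,
  ⟨.x, T0, (B (K (.negSucc 17105929138919967419)) (K (.ofNat 74926812326766600780)) N N)⟩,
  ⟨.x, T1, (B (K (.ofNat 1570804812941508936)) (K (.ofNat 19619229845885328156)) N N)⟩,
  ⟨.x, T5, (K (.negSucc 9533691281358372827))⟩,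
  ⟨.x, T7, (K (.negSucc 7347259401423173351))⟩,
  ⟨.x, T8, (K (.ofNat 6768882282310641012))⟩,
  ⟨.x, T10, (K (.ofNat 3017623510426292052))⟩] (.node [⟨.x, .z, (B (K (.negSucc 7430647857173266271)) (K (.negSucc 36236835897021728351)) N N)⟩,
  ⟨.x, T0, (K (.negSucc 317514745954660547))⟩,
  ⟨.x, T1, (K (.ofNat 18692290201946702340))⟩] (.node [⟨.x, .z, (K (.ofNat 730545583481521860))⟩] .nil .nil .nil .nil .nil .nil) (.node [⟨.x, .z, (K (.negSucc 3359651110354084607))⟩] .nil .nil .nil .nil .nil .nil) .nil .nil .nil .nil) (.node [⟨.x, .z, (B (K (.ofNat 2563964242244547954)) (K (.ofNat 5345145663362245512)) N N)⟩,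
  ⟨.x, T0, (K (.ofNat 4501672124802216732))⟩,
  ⟨.x, T1, (K (.negSucc 4157674265622718109))⟩] (.node [⟨.x, .z, (K (.negSucc 4844839708808867657))⟩] .nil .nil .nil .nil .nil .nil) (.node [⟨.x, .z, (K (.negSucc 4517531281507147907))⟩] .nil .nil .nil .nil .nil .nil) .nil .nil .nil .nil) .nil .nil .nil .nil) (.node [⟨.x, .z, (B (B (K (.ofNat 51678879106498246710)) (K (.negSucc 24903299384823287633)) N N) (B (K (.negSucc 16532174995723055123)) (K (.ofNat 46969997210024388756)) N N) N N)⟩,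
  ⟨.x, T0, (B (K (.negSucc 16381286986467062243)) (K (.ofNat 38834477130424734696)) N N)⟩,
  ⟨.x, T1, (B (K (.negSucc 13082585590057064945)) (K (.negSucc 31736527542653195045)) N N)⟩,
  ⟨.x, T5, (K (.negSucc 605495038926347483))⟩,
  ⟨.x, T7, (K (.negSucc 8429348543891137115))⟩,
  ⟨.x, T8, (K (.negSucc 254573875492524587))⟩,
  ⟨.x, T10, (K (.negSucc 1325632814913364655))⟩] (.node [⟨.x, .z, (B (K (.negSucc 15237280795161050189)) (K (.negSucc 107093884114267895)) N N)⟩,
  ⟨.x, T0, (K (.ofNat 10742296249715110500))⟩,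
  ⟨.x, T1, (K (.ofNat 12651349208534259666))⟩] (.node [⟨.x, .z, (K (.ofNat 4080397470987178866))⟩] .nil .nil .nil .nil .nil .nil) (.node [⟨.x, .z, (K (.ofNat 13573673518162224852))⟩] .nil .nil .nil .nil .nil .nil) .nil .nil .nil .nil) (.node [⟨.x, .z, (B (K (.negSucc 8807947995291184817)) (K (.ofNat 66018116849395393032)) N N)⟩,
  ⟨.x, T0, (K (.negSucc 9339479249223084563))⟩,
  ⟨.x, T1, (K (.negSucc 11178030319282244825))⟩] (.node [⟨.x, .z, (K (.ofNat 12266520124874682534))⟩] .nil .nil .nil .nil .nil .nil) (.node [⟨.x, .z, (K (.ofNat 8075689774728236280))⟩] .nil .nil .nil .nil .nil .nil) .nil .nil .nil .nil) .nil .nil .nil .nil) (.node [⟨.x, T4, (K (.ofNat 3208026095680345224))⟩,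
  ⟨.x, T6, (K (.ofNat 3801535368139621398))⟩] .nil .nil .nil .nil .nil .nil) (.node [⟨.x, T4, (K (.ofNat 4687584307260508134))⟩,
  ⟨.x, T6, (K (.ofNat 4695833351792485614))⟩] .nil .nil .nil .nil .nil .nil) .nil .nil)

def c_031 : Cert := (.node [⟨.x, .z, (B (B (B (K (.negSucc 48404378297809366859)) (K (.negSucc 7956041394917263451)) N N) (B (K (.negSucc 24441298693975260773)) (K (.ofNat 27901964951728755366)) N N) N N) (B (B (K (.negSucc 29611302241023855107)) (K (.ofNat 20965416971514949860)) N N) (B (K (.negSucc 5053608363953071775)) (K (.ofNat 20377693434951906552)) N N) N N) N N)⟩,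
  ⟨.x, T0, (B (B (K (.negSucc 21700751815524190259)) (K (.negSucc 9939241644147209405)) N N) (B (K (.negSucc 37076701071378441587)) (K (.ofNat 21698792962597187568)) N N) N N)⟩,
  ⟨.x, T1, (B (B (K (.ofNat 41571356037573516132)) (K (.ofNat 30689052494462355678)) N N) (B (K (.ofNat 27013472797035580806)) (K (.negSucc 26098747612206654365)) N N) N N)⟩,
  ⟨.x, T4, (B N N (K (.ofNat 6795540534310387926)) (K (.negSucc 15224727299710796723)))⟩,
  ⟨.x, T5, (A1 (K (.negSucc 7626090440659500167)))⟩,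
  ⟨.x, T6, (B N N (K (.negSucc 8667544856522825009)) (K (.ofNat 22152702025562651388)))⟩,
  ⟨.x, T7, (B (K (.negSucc 2562053041592876867)) (K (.ofNat 711604941886544160)) N N)⟩,
  ⟨.x, T8, (B (K (.negSucc 411903371057308061)) (K (.negSucc 13584106425205508249)) N N)⟩,
  ⟨.x, T10, (A1 (K (.negSucc 11352001591860592901)))⟩,
  ⟨.x, T29, (K (.ofNat 11438843710623908160))⟩,
  ⟨.x, T13, (K (.ofNat 5734266323976432180))⟩,
  ⟨.x, T14, (K (.ofNat 8332509782651852772))⟩,
  ⟨.x, T30, (K (.ofNat 7007898616721497002))⟩,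
  ⟨.x, T31, (K (.negSucc 47534596443692459))⟩,
  ⟨.x, T32, (K (.ofNat 10447043263445410356))⟩] (.node [⟨.x, .z, (B (B (K (.ofNat 1781715734951765568)) (K (.ofNat 191074802058629772)) N N) (B (K (.negSucc 26922266716390765319)) (K (.ofNat 58262475630085774308)) N N) N N)⟩,
  ⟨.x, T0, (B (K (.ofNat 27063197977098373704)) (K (.ofNat 13061276838057305040)) N N)⟩,
  ⟨.x, T1, (B (K (.negSucc 20942115219292038419)) (K (.negSucc 20859558599212766591)) N N)⟩,
  ⟨.x, T5, (K (.negSucc 1868880681466726907))⟩,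
  ⟨.x, T7, (K (.ofNat 21937065054001995912))⟩,
  ⟨.x, T8, (K (.negSucc 6606998906762097119))⟩,
  ⟨.x, T10, (K (.ofNat 989308974541009080))⟩] (.node [⟨.x, .z, (B (K (.ofNat 2402530822934539284)) (K (.ofNat 35722017616134930072)) N N)⟩,
  ⟨.x, T0, (K (.negSucc 30037267409323002467))⟩,
  ⟨.x, T1, (K (.negSucc 697211508798029879))⟩] (.node [⟨.x, .z, (K (.ofNat 16973022268198985892))⟩] .nil .nil .nil .nil .nil .nil) (.node [⟨.x, .z, (K (.ofNat 7752849010501953546))⟩] .nil .nil .nil .nil .nil .nil) .nil .nil .nil .nil) (.node [⟨.x, .z, (B (K (.negSucc 13312535202555243293)) (K (.ofNat 15585249577548248424)) N N)⟩,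
  ⟨.x, T0, (K (.negSucc 19738698234319007927))⟩,
  ⟨.x, T1, (K (.ofNat 23186702030712832002))⟩] (.node [⟨.x, .z, (K (.ofNat 7640645361845778480))⟩] .nil .nil .nil .nil .nil .nil) (.node [⟨.x, .z, (K (.negSucc 13157356456552006829))⟩] .nil .nil .nil .nil .nil .nil) .nil .nil .nil .nil) .nil .nil .nil .nil) (.node [⟨.x, .z, (B (B (K (.ofNat 18138807656771992266)) (K (.negSucc 13934871161804078801)) N N) (B (K (.negSucc 41573044917503497727)) (K (.ofNat 80530655342425649148)) N N) N N)⟩,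
  ⟨.x, T0, (B (K (.ofNat 7384853901655118688)) (K (.negSucc 17036063752398834959)) N N)⟩,
  ⟨.x, T1, (B (K (.negSucc 2203270007859023261)) (K (.ofNat 13610794136835710178)) N N)⟩,
  ⟨.x, T5, (K (.negSucc 4439508558746778455))⟩,
  ⟨.x, T7, (K (.ofNat 16254592370267695020))⟩,
  ⟨.x, T8, (K (.ofNat 12042706009283786916))⟩,
  ⟨.x, T10, (K (.negSucc 3781190733244511051))⟩] (.node [⟨.x, .z, (B (K (.negSucc 14310430874039559197)) (K (.ofNat 18278521080674310012)) N N)⟩,
  ⟨.x, T0, (K (.negSucc 24350948636256378299))⟩,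
  ⟨.x, T1, (K (.ofNat 22811102225428149654))⟩] (.node [⟨.x, .z, (K (.ofNat 7006014137768277300))⟩] .nil .nil .nil .nil .nil .nil) (.node [⟨.x, .z, (K (.negSucc 11424558769101794597))⟩] .nil .nil .nil .nil .nil .nil) .nil .nil .nil .nil) (.node [⟨.x, .z, (B (K (.negSucc 13603567863002869721)) (K (.ofNat 648186289831652808)) N N)⟩,
  ⟨.x, T0, (K (.ofNat 3356425483053684852))⟩,
  ⟨.x, T1, (K (.ofNat 7759856525286924666))⟩] (.node [⟨.x, .z, (K (.negSucc 7290673388174403311))⟩] .nil .nil .nil .nil .nil .nil) (.node [⟨.x, .z, (K (.negSucc 18297278463260992811))⟩] .nil .nil .nil .nil .nil .nil) .nil .nil .nil .nil) .nil .nil .nil .nil) (.node [⟨.x, T4, (K (.ofNat 26118225758719263438))⟩,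
  ⟨.x, T6, (K (.negSucc 21757641787019144939))⟩] .nil .nil .nil .nil .nil .nil) (.node [⟨.x, T4, (K (.negSucc 1387664086301463929))⟩,
  ⟨.x, T6, (K (.negSucc 25759116926425597649))⟩] .nil .nil .nil .nil .nil .nil) .nil .nil)

def c_03 : Cert := (.node [⟨.x, .z, (B (B (B (A0 (K (.ofNat 9768649788744401456))) (A1 (K (.negSucc 17854437787312800911))) N N) (B (B (K (.ofNat 43636841622824069200)) (K (.ofNat 13433978135087089576)) N N) (B (K (.negSucc 25433269940742951587)) (K (.negSucc 38955412567875018527)) N N) N N) N N) (B (B (B (K (.ofNat 600235038515592612)) (K (.ofNat 42173555649249078212)) N N) (B (K (.negSucc 1016467038033313679)) (K (.ofNat 670052029247521428)) N N) N N) (B (B (K (.ofNat 14569603379667363768)) (K (.ofNat 12261828280219690500)) N N) (B (K (.ofNat 19168097501649558420)) (K (.negSucc 50910949591359270239)) N N) N N) N N) N N)⟩,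
  ⟨.x, T0, (B (B (B (K (.ofNat 19467261248762163792)) (K (.ofNat 17425769263779366024)) N N) (B (K (.negSucc 5348521652575362743)) (K (.negSucc 15013162239950384879)) N N) N N) (B (B (K (.ofNat 5639403060018003624)) (K (.ofNat 45778477047188576544)) N N) (B (K (.negSucc 9743105797372867547)) (K (.negSucc 11299267677871079771)) N N) N N) N N)⟩,
  ⟨.x, T1, (B (B (B (K (.negSucc 29758133688142004831)) (K (.negSucc 38352567708051518351)) N N) (B (K (.negSucc 8623378289316385931)) (K (.negSucc 36021959898897528623)) N N) N N) (B (B (K (.negSucc 46525120976953723079)) (K (.negSucc 51123173312789149595)) N N) (B (K (.ofNat 15785098475315738232)) (K (.negSucc 9455007537944154707)) N N) N N) N N)⟩,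
  ⟨.x, T4, (B (A2 (K (.ofNat 2534096438527248))) (B N N (K (.ofNat 1002644780030158038)) (K (.negSucc 684588301207467395))) (B (K (.ofNat 4532234801013654210)) (K (.negSucc 14570824046231316341)) N N) (B (K (.ofNat 5994311659820354916)) (K (.ofNat 13892511284571973248)) N N))⟩,
  ⟨.x, T5, (A1 (A1 (K (.ofNat 25113640219498984392))))⟩,
  ⟨.x, T6, (B (A2 (K (.ofNat 37664730388466520))) (B N N (K (.negSucc 1131388944108932243)) (K (.negSucc 2225744673381824195))) (B (K (.negSucc 5284809207375462557)) (K (.ofNat 17024448059801887152)) N N) (B (K (.negSucc 12474728042578675541)) (K (.negSucc 13589201461138631627)) N N))⟩,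
  ⟨.x, T7, (B (B (K (.negSucc 17508401780285025251)) (K (.negSucc 1906088096239595555)) N N) (B (K (.negSucc 12708220833088976087)) (K (.negSucc 42153716268194250803)) N N) N N)⟩,
  ⟨.x, T8, (B (B (K (.negSucc 25022794440901795127)) (K (.negSucc 1115963391997436939)) N N) (B (K (.ofNat 14446658064233343792)) (K (.negSucc 11068853386267016651)) N N) N N)⟩,
  ⟨.x, T10, (A1 (B (K (.ofNat 13328499230792167140)) (K (.ofNat 18963063242885630496)) N N))⟩,
  ⟨.x, T28, (A3 (K (.ofNat 7281833842593525120)))⟩,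
  ⟨.x, T29, (A1 (K (.negSucc 16928943684639727991)))⟩,
  ⟨.x, T12, (B N N (K (.ofNat 1918937682999789816)) (K (.ofNat 366736867809216366)))⟩,
  ⟨.x, T13, (B (K (.ofNat 10777071053819859048)) (K (.negSucc 13587618436110423359)) N N)⟩,
  ⟨.x, T14, (B (K (.ofNat 3130792278645142944)) (K (.negSucc 13406188102695808775)) N N)⟩,
  ⟨.x, T30, (A0 (K (.negSucc 12201935008210569623)))⟩,
  ⟨.x, T31, (A1 (K (.ofNat 2834597753431968744)))⟩,
  ⟨.x, T32, (A1 (K (.negSucc 12338054794119941087)))⟩,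
  ⟨.x, T16, (K (.negSucc 133022667284441279))⟩,
  ⟨.x, T18, (K (.negSucc 275060194290039023))⟩,
  ⟨.x, T34, (K (.ofNat 3198485918751894864))⟩,
  ⟨.x, T43, (K (.negSucc 12912390054125121167))⟩,
  ⟨.x, T45, (K (.negSucc 4345263034574138207))⟩,
  ⟨.x, T35, (K (.ofNat 1193657851749545136))⟩] c_030 c_031 (.node [⟨.x, T4, (B (K (.negSucc 624837212539406515)) (K (.negSucc 3332109332348879937)) N N)⟩,
  ⟨.x, T6, (B (K (.ofNat 9459213887927022946)) (K (.ofNat 6531771907283115734)) N N)⟩,
  ⟨.x, T28, (K (.ofNat 5659415989184276356))⟩,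
  ⟨.x, T12, (K (.negSucc 18279716375736221269))⟩] (.node [⟨.x, T4, (K (.negSucc 8032001212261872287))⟩,
  ⟨.x, T6, (K (.ofNat 8998031753927998030))⟩] .nil .nil .nil .nil .nil .nil) (.node [⟨.x, T4, (K (.negSucc 5054108102106890093))⟩,
  ⟨.x, T6, (K (.ofNat 7827323614566204462))⟩] .nil .nil .nil .nil .nil .nil) .nil .nil .nil .nil) (.node [⟨.x, T4, (B (K (.negSucc 5299603289286369779)) (K (.ofNat 29142144593993185704)) N N)⟩,
  ⟨.x, T6, (B (K (.negSucc 28464611179689879143)) (K (.ofNat 13235465951843152380)) N N)⟩,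
  ⟨.x, T28, (K (.ofNat 36485578105687303392))⟩,
  ⟨.x, T12, (K (.negSucc 15118403144407068851))⟩] (.node [⟨.x, T4, (K (.ofNat 15896000829970204452))⟩,
  ⟨.x, T6, (K (.ofNat 31784961013770923952))⟩] .nil .nil .nil .nil .nil .nil) (.node [⟨.x, T4, (K (.negSucc 36476987061123797627))⟩,
  ⟨.x, T6, (K (.ofNat 32211896033634803460))⟩] .nil .nil .nil .nil .nil .nil) .nil .nil .nil .nil) .nil .nil)

def c_0 : Cert := (.node [⟨.x, .z, (B (B (B (B (A2 (K (.negSucc 456095165770991075))) N (A0 (K (.ofNat 153324666215914248))) N) N (A0 (A0 (K (.negSucc 530351535519136175)))) N) N (B (B (A0 (K (.negSucc 6905670327165877343))) (A1 (K (.negSucc 1446382989179013707))) N N) (B (A0 (K (.negSucc 17118708194899800071))) (B (K (.negSucc 1478262114034321895)) (K (.negSucc 13748515615079897567)) N N) N N) N N) N) (B (B (B (A2 (K (.negSucc 258581025952569659))) N (A0 (K (.negSucc 734023818499103507))) N) N (B (B (K (.negSucc 12051792990688605119)) (K (.ofNat 13062689957808615684)) N N)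 (B (K (.ofNat 9733799356235555988)) (K (.negSucc 12242867219821998623)) N N) N N) N) (B (B (A2 (K (.ofNat 29380186558064124))) N (B (K (.negSucc 1797420164614600763)) (K (.ofNat 1643426952945254076)) N N) N) (B (A2 (K (.negSucc 289632597133015031))) (B N N (K (.negSucc 340997065447019087)) (K (.negSucc 108140822544104819))) (B (K (.ofNat 20405630948940598956)) (K (.negSucc 20067312157677287867)) N N) (B (K (.negSucc 354699698024416199)) (K (.ofNat 206715349936565592)) N N)) (B (B (K (.negSucc 35838716389352484623)) (K (.ofNat 53872590204565180692)) N N) (B (K (.ofNat 29451928800790697016)) (K (.negSucc 19493547623506213415)) N N) N N) (B (B (K (.negSucc 1005017618399741255)) (K (.negSucc 7223905912884256031)) N N) (B (K (.negSucc 7423893964996251527)) (K (.negSucc 562890087065248655)) N N) N N)) (B (B (B (K (.ofNat 5338131275585038752)) (K (.negSucc 21008842120338442187)) N N) (B (K (.negSucc 11819626641357235727)) (K (.ofNat 995075593979035416)) N N) N N) (B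 (B (K (.negSucc 9835482049353460559)) (K (.negSucc 27473911944182296247)) N N) (B (K (.negSucc 68694235607852897399)) (K (.ofNat 48144048419406816156)) N N) N N) N N) (B (B (B (K (.negSucc 4830609726920846399)) (K (.ofNat 1146640959937424040)) N N) (B (K (.ofNat 18617891197734446676)) (K (.negSucc 16321083259337221259)) N N) N N) (B (B (K (.ofNat 10242424849376642508)) (K (.negSucc 29775566289104057771)) N N) (B (K (.negSucc 14667116635764939503)) (K (.negSucc 756346600187237543)) N N) N N) N N)) (B (B (B (A0 (K (.negSucc 1825421176759990159))) (A1 (K (.ofNat 6131942354097726252))) N N) (B (B (K (.ofNat 6796950585692357144)) (K (.negSucc 18731052798461824395)) N N) (B (K (.negSucc 3564375539562024323)) (K (.negSucc 2083886253662264147)) N N) N N) N N) (B (B (B (K (.negSucc 499729051708051103)) (K (.negSucc 1325675299419875791)) N N) (B (K (.negSucc 14669866286450902643)) (K (.ofNat 19491562608517622532)) N N) N N) (B (B (K (.ofNat 16606095510061992144)) (K (.negSucc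 9252563033511575363)) N N) (B (K (.ofNat 13569635575810759404)) (K (.negSucc 8826766759815951719)) N N) N N) N N) N N) (B (B (B (A0 (K (.negSucc 3294687010480188615))) (A1 (K (.ofNat 9211502426469794232))) N N) (B (B (K (.negSucc 18588969094957900159)) (K (.ofNat 38878412546305312)) N N) (B (K (.negSucc 19324042027026546527)) (K (.ofNat 22672934957064791220)) N N) N N) N N) (B (B (B (K (.negSucc 15481357572497642003)) (K (.negSucc 1833468940481267115)) N N) (B (K (.negSucc 20266173574067138327)) (K (.ofNat 27492326737524195108)) N N) N N) (B (B (K (.negSucc 11191840200965769227)) (K (.negSucc 3098185229123517983)) N N) (B (K (.negSucc 7804647913603457039)) (K (.ofNat 3066175956327408)) N N) N N) N N) N N))⟩,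
  ⟨.z, .z, (B (B (B (A0 (A0 (K (.ofNat 2155595913684342920)))) (A1 (A1 (K (.ofNat 1845091877374406298)))) N N) (B (B (A1 (K (.ofNat 5094146039005030234))) (A0 (K (.negSucc 7390685233979707733))) N N) (B (B (K (.negSucc 4774822790182021209)) (K (.ofNat 24426655099184627374)) N N) (B (K (.ofNat 19690129462733747746)) (K (.ofNat 18052403531127745970)) N N) N N) N N) N N) (B (B (B (A0 (K (.ofNat 2250065164738631978))) (A1 (K (.negSucc 9819710026369501635))) N N) (B (B (K (.negSucc 9026313837855491947)) (K (.negSucc 11374454883302949481)) N N) (B (K (.negSucc 3975647190429957739)) (K (.negSucc 1636025345116216361)) N N) N N) N N) (B (B (B (K (.negSucc 14407934000256835607)) (K (.negSucc 23037198505767764875)) N N) (B (K (.negSucc 34146537301712959519)) (K (.negSucc 18053189682132324113)) N N) N N) (B (B (K (.negSucc 13864870138712396279)) (K (.negSucc 3938187644659318357)) N N) (B (K (.negSucc 5725133873025172455)) (K (.negSucc 1583596491734519)) N N) N N) N N) N N)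 N N)⟩,
  ⟨.x, T0, (B (B (B (A2 (K (.negSucc 33848016250120943))) N (A0 (K (.ofNat 13268487586590396))) N) N (B (B (K (.ofNat 54244346899370148)) (K (.ofNat 100278402684162408)) N N) (B (K (.negSucc 65139040992813743)) (K (.ofNat 227136347863262436)) N N) N N) N) (B (B (A2 (K (.negSucc 1069347412763213783))) N (B (K (.ofNat 92191747815111300)) (K (.ofNat 260379253266556104)) N N) N) (B (A2 (K (.ofNat 498778194086948244))) (B N N (K (.ofNat 1165221023840298492)) (K (.negSucc 35773821672955859))) (B (K (.ofNat 1454489455190584668)) (K (.negSucc 1552895898338450003)) N N) (B (K (.ofNat 33029782823274780)) (K (.ofNat 55205302977121320)) N N)) (B (B (K (.ofNat 226947373189733064)) (K (.negSucc 1596906127636762103)) N N) (B (K (.negSucc 1652113187465507243)) (K (.negSucc 205097731142484719)) N N) N N) (B (B (K (.ofNat 1261542660887925660)) (K (.negSucc 550114222963351955)) N N) (B (K (.ofNat 596951309795650716)) (K (.ofNat 738494029995765948)) N N) N N)) (B (B (B (K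 (.ofNat 242460353782210572)) (K (.ofNat 528924316619047248)) N N) (B (K (.ofNat 90720031459578924)) (K (.ofNat 585009040590032052)) N N) N N) (B (B (K (.negSucc 661536490007867147)) (K (.ofNat 1263557422829135172)) N N) (B (K (.negSucc 891353676155418659)) (K (.ofNat 172002127479780720)) N N) N N) N N) (B (B (B (K (.ofNat 6097071304335297264)) (K (.ofNat 1422541117931364552)) N N) (B (K (.ofNat 5142567809639075700)) (K (.negSucc 4309545283504978367)) N N) N N) (B (B (K (.ofNat 9796093166063352492)) (K (.ofNat 5033690594407874340)) N N) (B (K (.ofNat 11323054049041632888)) (K (.ofNat 797974610527979376)) N N) N N) N N))⟩,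
  ⟨.x, T1, (B (B (B (A2 (K (.ofNat 540612737420078436))) N (A0 (K (.negSucc 156869054265278087))) N) N (B (B (K (.ofNat 391675383897051120)) (K (.negSucc 355447324574918927)) N N) (B (K (.ofNat 1432583376326652132)) (K (.ofNat 174599791636033848)) N N) N N) N) (B (B (A2 (K (.ofNat 522561170271866352))) N (B (K (.ofNat 868494288074144532)) (K (.negSucc 768383134766238563)) N N) N) (B (A2 (K (.negSucc 1894672754388921671))) (B N N (K (.negSucc 1768472903294546051)) (K (.negSucc 252341117911886735))) (B (K (.negSucc 1191500949116131475)) (K (.ofNat 1118980715891789640)) N N) (B (K (.ofNat 327827741982003204)) (K (.negSucc 111973429641483107)) N N)) (B (B (K (.ofNat 3371828737071472560)) (K (.ofNat 2355516370781052216)) N N) (B (K (.ofNat 2468006531194749264)) (K (.negSucc 2726816437148294939)) N N) N N) (B (B (K (.ofNat 687967702417090920)) (K (.ofNat 2781302270929881804)) N N) (B (K (.ofNat 4249217738664622032)) (K (.ofNat 90451375013147988)) N N) N N)) (B (B (B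 (K (.ofNat 6663811475460099240)) (K (.ofNat 3110647900603715988)) N N) (B (K (.ofNat 7359693380435381868)) (K (.negSucc 2495674017341627171)) N N) N N) (B (B (K (.ofNat 6403122994724073036)) (K (.ofNat 2292493521673745916)) N N) (B (K (.ofNat 7967466667839678780)) (K (.ofNat 1922683279934452044)) N N) N N) N N) (B (B (B (K (.negSucc 591214417958565875)) (K (.ofNat 1339571209115529252)) N N) (B (K (.negSucc 989200471846550003)) (K (.negSucc 1751871067585142303)) N N) N N) (B (B (K (.negSucc 2257783688500744031)) (K (.negSucc 1443162180935981015)) N N) (A0 (K (.ofNat 308708886649161288))) N N) N N))⟩,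
  ⟨.x, T2, (B (B (B (A0 (K (.ofNat 3962746484168310256))) (A1 (K (.negSucc 4569451184125302287))) N N) (B (B (K (.ofNat 7829084895565457768)) (K (.ofNat 4066320761009277320)) N N) (B (K (.ofNat 5550685275840921672)) (K (.negSucc 1824681397256627963)) N N) N N) N N) (B (B (B (K (.ofNat 5065047305538195252)) (K (.ofNat 1003798991331189688)) N N) (B (K (.ofNat 1380096347707329168)) (K (.negSucc 4912506098356018547)) N N) N N) (B (B (K (.ofNat 6434011231631203080)) (K (.ofNat 3973194833336805048)) N N) (B (K (.ofNat 6818007092475385680)) (K (.negSucc 46927965049438319)) N N) N N) N N) N N)⟩,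
  ⟨.z, T0, (B (B (B (A0 (K (.ofNat 1863609382592874416))) (A1 (K (.negSucc 1723428809179709819))) N N) (B (B (K (.ofNat 4660512326364181972)) (K (.ofNat 3220771061455805188)) N N) (A0 (K (.ofNat 4666246708129179672))) N N) N N) (A0 (A0 (A1 (K (.negSucc 308743403607279051))))) N N)⟩,
  ⟨.x, T4, (B (A2 (A2 (K (.ofNat 256934310316123428)))) (A3 (A3 (K (.ofNat 22249272179135010)))) (B (A2 (K (.ofNat 266531986549213380))) (B N N (K (.ofNat 64615919818915854)) (K (.negSucc 13056066842107463))) (B (K (.negSucc 63252870328994903)) (K (.negSucc 288946321102492157)) N N) N) (B (A2 (K (.negSucc 160463422719916451))) (B N N (K (.ofNat 174257735090056146)) (K (.ofNat 7310122613336406))) (B (K (.negSucc 114412930033427363)) (K (.negSucc 92895205262292401)) N N) (A1 (K (.ofNat 564543198515736)))))⟩,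
  ⟨.x, T5, (B N (B N (B N N (K (.ofNat 203260914662786064)) (K (.ofNat 85775693921112420))) N (A1 (K (.negSucc 37523398888972439)))) N (A1 (A1 (K (.negSucc 1533087978163703)))))⟩,
  ⟨.x, T6, (B (A2 (A2 (K (.negSucc 109238074823807)))) (A3 (A3 (K (.ofNat 18238636023010074)))) (B (A2 (K (.ofNat 3226469879491344))) (B N N (K (.ofNat 393449113097809428)) (K (.ofNat 401079086591716512))) (B (K (.ofNat 31179054993056712)) (K (.negSucc 558777964304100707)) N N) N) (B (A2 (K (.ofNat 286248213512554962))) (B N N (K (.ofNat 1281789725348287902)) (K (.negSucc 27743655263847581))) (B (K (.negSucc 187668703941772679)) (K (.negSucc 966803559522243941)) N N) (B (K (.negSucc 307374624243694529)) (K (.ofNat 23475082052109024)) N N)))⟩,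
  ⟨.x, T7, (B (B (A2 (K (.ofNat 65491637073641568))) N (B (K (.ofNat 38159822266843536)) (K (.negSucc 325575258735208355)) N N) N) (B (A2 (K (.ofNat 154576404830666052))) (B N N (K (.negSucc 192124853870718923)) (K (.negSucc 66887833136448311))) (B (K (.ofNat 1628774816194260)) (K (.negSucc 989995568665526783)) N N) (B (K (.negSucc 516899247638197955)) (K (.ofNat 255296579589011832)) N N)) (B (B (K (.ofNat 68705226263114532)) (K (.ofNat 470516802705411048)) N N) (B (K (.ofNat 373204881899725896)) (K (.ofNat 310618710390474516)) N N) N N) (B (B (K (.ofNat 184318041014132064)) (K (.negSucc 606724308474274979)) N N) (B (K (.ofNat 325486589678266764)) (K (.ofNat 174070854952353588)) N N) N N))⟩,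
  ⟨.x, T8, (B (B (A2 (K (.ofNat 6456019697076456))) N (B (K (.ofNat 77742475235842536)) (K (.negSucc 142680164558374583)) N N) N) (B (A2 (K (.negSucc 466814097673731719))) (B N N (K (.negSucc 1481413689013470731)) (K (.ofNat 19680326067924648))) (B (K (.ofNat 426136594639428444)) (K (.negSucc 751382181621723899)) N N) (B (K (.ofNat 184623966931591332)) (K (.ofNat 38693071991380752)) N N)) (B (B (K (.ofNat 13859377287311916)) (K (.ofNat 465743654797154508)) N N) (B (K (.ofNat 182390289541090224)) (K (.ofNat 434656422847008252)) N N) N N) (B (B (K (.ofNat 727186353631137720)) (K (.ofNat 381723475341386700)) N N) (B (K (.ofNat 1872553075716735384)) (K (.ofNat 135145561310217228)) N N) N N))⟩,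
  ⟨.x, T9, (A0 (B (B (K (.negSucc 273715924815445679)) (K (.negSucc 124071639731507447)) N N) (B (K (.negSucc 30742443219822299)) (K (.ofNat 182347718921816604)) N N) N N))⟩,
  ⟨.x, T10, (A1 (B (A2 (K (.negSucc 380848962033922679))) (B N N (K (.negSucc 629014939185053159)) (K (.ofNat 17867162290561800))) (B (K (.ofNat 117797279855644224)) (K (.negSucc 269915173307890535)) N N) (A1 (K (.negSucc 46951960997725631)))))⟩,
  ⟨.x, T11, (A1 (B (B (K (.negSucc 431350645060783895)) (K (.ofNat 1338892521775584)) N N) (B (K (.negSucc 630700111298684375)) (K (.ofNat 3479344997751792)) N N) N N))⟩,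
  ⟨.x, T28, (A3 (A3 (K (.ofNat 2460147408336648))))⟩,
  ⟨.x, T29, (B N (A3 (K (.negSucc 76787561251868639))) N (A1 (K (.ofNat 14049439895305656))))⟩,
  ⟨.x, T12, (B N N (A2 (K (.ofNat 40511394133036548))) (B N N (K (.ofNat 136112414378240862)) (K (.ofNat 297678068808541242))))⟩,
  ⟨.x, T13, (B (A2 (K (.negSucc 46429334074816019))) (B N N (K (.negSucc 195822266028016499)) (K (.negSucc 173194930816648523))) (B (K (.negSucc 30529010129021711)) (K (.ofNat 254585984552706420)) N N) (B (K (.ofNat 144391758584976828)) (K (.negSucc 16859319359906519)) N N))⟩,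
  ⟨.x, T14, (B (A2 (K (.ofNat 27549921568964508))) (B N N (K (.negSucc 175314792983422427)) (K (.negSucc 356183083384891955))) (B (K (.negSucc 76774644481118975)) (K (.ofNat 329686103442488112)) N N) (B (K (.ofNat 23873655401303904)) (K (.negSucc 103710048401369267)) N N))⟩,
  ⟨.x, T20, (A0 (B (K (.negSucc 31255571033235107)) (K (.negSucc 52264372940471483)) N N))⟩,
  ⟨.x, T30, (B (A2 (K (.negSucc 44404904860447655))) N (B (K (.ofNat 23868698673548268)) (K (.ofNat 225783949403986260)) N N) N)⟩,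
  ⟨.x, T24, (A0 (A0 (K (.ofNat 601502076432468))))⟩,
  ⟨.x, T31, (B N (A3 (K (.ofNat 21415278643004232))) N (A1 (K (.negSucc 24039625250624759))))⟩,
  ⟨.x, T32, (B N (A3 (K (.ofNat 3558897713487936))) N (A1 (K (.ofNat 22914132640608456))))⟩,
  ⟨.x, T15, (B (B (K (.ofNat 98291182010026824)) (K (.ofNat 92975874052719168)) N N) (B (K (.ofNat 46234353468441600)) (K (.negSucc 41628010340741831)) N N) N N)⟩,
  ⟨.x, T33, (A1 (A1 (K (.negSucc 44694186297069239))))⟩,
  ⟨.x, T16, (B N N (K (.negSucc 7486050099886847)) (K (.negSucc 105055235378138303)))⟩,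
  ⟨.x, T18, (B N N (K (.ofNat 2684853906457716)) (K (.negSucc 66286391093734643)))⟩,
  ⟨.x, T34, (A2 (K (.negSucc 109633498647975539)))⟩,
  ⟨.x, T35, (A3 (K (.ofNat 39589030902642228)))⟩,
  ⟨.x, T36, (A0 (K (.ofNat 44285342484890304)))⟩,
  ⟨.z, T16, (A0 (K (.negSucc 20024946705835007)))⟩,
  ⟨.z, T18, (A0 (K (.negSucc 39908446280607743)))⟩,
  ⟨.x, T22, (K (.ofNat 43861789093110912))⟩,
  ⟨.x, T26, (K (.negSucc 413169041424383))⟩,
  ⟨.z, T17, (K (.ofNat 101017027141632))⟩] c_00 c_01 c_02 c_03 .nil .nil)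

def c_1000 : Cert := (.node [⟨.x, .z, (B (A2 (K (.ofNat 608227918099556220))) (B N N (K (.ofNat 2297713778467474452)) (K (.ofNat 1704922322519924400))) (B (K (.ofNat 6093830781093769612)) (K (.negSucc 1641758903927027795)) N N) (B (K (.ofNat 3749149923622928048)) (K (.ofNat 28966167166317120)) N N))⟩,
  ⟨.z, .z, (B (B (K (.ofNat 2850181755646268780)) (K (.negSucc 491133811075930505)) N N) (B (K (.negSucc 2984672208838817887)) (K (.negSucc 521379377606790287)) N N) N N)⟩,
  ⟨.x, T0, (B N N (K (.negSucc 560824164510202079)) (K (.negSucc 1661514541812296327)))⟩,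
  ⟨.x, T1, (B N N (K (.negSucc 972932378149924199)) (K (.negSucc 221656010372280851)))⟩,
  ⟨.x, T2, (B (K (.negSucc 3428884076692171015)) (K (.negSucc 214562232093298667)) N N)⟩,
  ⟨.z, T0, (A0 (K (.ofNat 3084696750986239172)))⟩,
  ⟨.x, T9, (K (.negSucc 95971894168378739))⟩,
  ⟨.x, T11, (K (.ofNat 67140361117259136))⟩] (.node [⟨.x, .z, (B N N (K (.ofNat 1118901389757939540)) (K (.ofNat 294965481265999920)))⟩,
  ⟨.z, .z, (B (K (.ofNat 79108349698123254)) (K (.negSucc 399517526329089335)) N N)⟩,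
  ⟨.x, T2, (K (.negSucc 541059944105910227))⟩,
  ⟨.z, T0, (K (.ofNat 282864697985123148))⟩] (.node [⟨.z, .z, (K (.ofNat 343511782516701408))⟩] .nil .nil .nil .nil .nil .nil) (.node [⟨.z, .z, (K (.negSucc 177264962436786587))⟩] .nil .nil .nil .nil .nil .nil) (.node [⟨.x, .z, (K (.ofNat 220693024130323080))⟩] .nil .nil .nil .nil .nil .nil) (.node [⟨.x, .z, (K (.ofNat 449291648820483936))⟩] .nil .nil .nil .nil .nil .nil) .nil .nil) (.node [⟨.x, .z, (B N N (K (.negSucc 30343484068847519)) (K (.ofNat 257689709113862112)))⟩,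
  ⟨.z, .z, (B (K (.negSucc 3277166097315194419)) (K (.negSucc 221332854424777775)) N N)⟩,
  ⟨.x, T2, (K (.negSucc 849523689164642867))⟩,
  ⟨.z, T0, (K (.negSucc 199190171516205431))⟩] (.node [⟨.z, .z, (K (.ofNat 455426432282464656))⟩] .nil .nil .nil .nil .nil .nil) (.node [⟨.z, .z, (K (.ofNat 511731926638166064))⟩] .nil .nil .nil .nil .nil .nil) (.node [⟨.x, .z, (K (.negSucc 1436039595314955635))⟩] .nil .nil .nil .nil .nil .nil) (.node [⟨.x, .z, (K (.ofNat 769471753783601832))⟩] .nil .nil .nil .nil .nil .nil) .nil .nil) (.node [⟨.x, .z, (B (K (.negSucc 284397574193639183)) (K (.negSucc 409062925266988703)) N N)⟩,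
  ⟨.x, T0, (K (.ofNat 672596910382256640))⟩,
  ⟨.x, T1, (K (.negSucc 28922479251402239))⟩] (.node [⟨.x, .z, (K (.ofNat 28922479251402240))⟩] .nil .nil .nil .nil .nil .nil) (.node [⟨.x, .z, (K (.ofNat 1129398917622319284))⟩] .nil .nil .nil .nil .nil .nil) .nil .nil .nil .nil) (.node [⟨.x, .z, (B (K (.ofNat 2347994483544031340)) (K (.negSucc 1170865935413078843)) N N)⟩,
  ⟨.x, T0, (K (.ofNat 572635230616951164))⟩,
  ⟨.x, T1, (K (.ofNat 996071476419802944))⟩] (.node [⟨.x, .z, (K (.negSucc 976481030000448539))⟩] .nil .nil .nil .nil .nil .nil) (.node [⟨.x, .z, (K (.ofNat 640288804392025848))⟩] .nil .nil .nil .nil .nil .nil) .nil .nil .nil .nil) .nil .nil)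

def c_1001 : Cert := (.node [⟨.x, .z, (B (A2 (K (.negSucc 1267948812623229587))) (B N N (K (.negSucc 3783426575660970695)) (K (.negSucc 1796197049051529131))) (B (K (.ofNat 2854661964103375332)) (K (.ofNat 1094716080608743080)) N N) (B (K (.ofNat 4637125041827084064)) (K (.negSucc 1507980718788259919)) N N))⟩,
  ⟨.z, .z, (B (B (K (.ofNat 3568325178899141382)) (K (.ofNat 3329923644818270816)) N N) (B (K (.ofNat 4667627597642317656)) (K (.ofNat 699897806038725096)) N N) N N)⟩,
  ⟨.x, T0, (B N N (K (.ofNat 645978395090354472)) (K (.ofNat 1304683241927763384)))⟩,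
  ⟨.x, T1, (B N N (K (.ofNat 1807568146367483400)) (K (.ofNat 571898095415285280)))⟩,
  ⟨.x, T2, (B (K (.negSucc 4300653070944629135)) (K (.ofNat 1899143069882659248)) N N)⟩,
  ⟨.z, T0, (A0 (K (.negSucc 2103704470668056387)))⟩,
  ⟨.x, T9, (K (.negSucc 698317022508221351))⟩,
  ⟨.x, T11, (K (.negSucc 928826031270441479))⟩] (.node [⟨.x, .z, (B N N (K (.negSucc 504592687979058173)) (K (.negSucc 508862619426703703)))⟩,
  ⟨.z, .z, (B (K (.negSucc 1231006142996437712)) (K (.negSucc 353639547832178018)) N N)⟩,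
  ⟨.x, T2, (K (.negSucc 678541302971633297))⟩,
  ⟨.z, T0, (K (.negSucc 562225985218124339))⟩] (.node [⟨.z, .z, (K (.ofNat 1388667663325162041))⟩] .nil .nil .nil .nil .nil .nil) (.node [⟨.z, .z, (K (.ofNat 1678105752945440607))⟩] .nil .nil .nil .nil .nil .nil) (.node [⟨.x, .z, (K (.negSucc 410002684570895075))⟩] .nil .nil .nil .nil .nil .nil) (.node [⟨.x, .z, (K (.ofNat 647893515062391048))⟩] .nil .nil .nil .nil .nil .nil) .nil .nil) (.node [⟨.x, .z, (B N N (K (.negSucc 912995487669600447)) (K (.negSucc 1798250691666905299)))⟩,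
  ⟨.z, .z, (B (K (.ofNat 2776088540422823962)) (K (.negSucc 1265310446534901249)) N N)⟩,
  ⟨.x, T2, (K (.ofNat 904113974671936652))⟩,
  ⟨.z, T0, (K (.ofNat 944836633435005976))⟩] (.node [⟨.z, .z, (K (.ofNat 664445654058193122))⟩] .nil .nil .nil .nil .nil .nil) (.node [⟨.z, .z, (K (.negSucc 227891119897124193))⟩] .nil .nil .nil .nil .nil .nil) (.node [⟨.x, .z, (K (.ofNat 1466591231026706676))⟩] .nil .nil .nil .nil .nil .nil) (.node [⟨.x, .z, (K (.negSucc 898386726842233867))⟩] .nil .nil .nil .nil .nil .nil) .nil .nil) (.node [⟨.x, .z, (B (K (.negSucc 11097884288674308755)) (K (.ofNat 1172298182249817852)) N N)⟩,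
  ⟨.x, T0, (K (.negSucc 2874465305901125423))⟩,
  ⟨.x, T1, (K (.ofNat 1493922098703074988))⟩] (.node [⟨.x, .z, (K (.negSucc 1750720450552029143))⟩] .nil .nil .nil .nil .nil .nil) (.node [⟨.x, .z, (K (.negSucc 875710479832488119))⟩] .nil .nil .nil .nil .nil .nil) .nil .nil .nil .nil) (.node [⟨.x, .z, (B (K (.ofNat 4989359055477546708)) (K (.negSucc 926074379256208115)) N N)⟩,
  ⟨.x, T0, (K (.ofNat 583199030447202420))⟩,
  ⟨.x, T1, (K (.negSucc 723697482886231463))⟩] (.node [⟨.x, .z, (K (.ofNat 1038801718686331548))⟩] .nil .nil .nil .nil .nil .nil) (.node [⟨.x, .z, (K (.negSucc 837728407191750971))⟩] .nil .nil .nil .nil .nil .nil) .nil .nil .nil .nil) .nil .nil)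

def c_100 : Cert := (.node [⟨.x, .z, (B (B (A2 (K (.negSucc 692036928762339791))) N (B (K (.ofNat 9024576143702024748)) (K (.negSucc 38346928837516475)) N N) N) (B (A2 (K (.negSucc 563226792054773387))) (B N N (K (.ofNat 476089962095145888)) (K (.ofNat 723131079538779492))) (B (K (.ofNat 18592266256376495544)) (K (.ofNat 468413195332047384)) N N) (B (K (.ofNat 9343693794374393976)) (K (.ofNat 177715789720410768)) N N)) (B (B (K (.negSucc 2161984413301060307)) (K (.negSucc 3128881757841202239)) N N) (B (K (.negSucc 19165917996518262611)) (K (.negSucc 403573278312164435)) N N) N N) (B (B (K (.ofNat 3477799104892895928)) (K (.negSucc 1328710511947264603)) N N) (B (K (.negSucc 300292542913200515)) (K (.ofNat 152992665447248544)) N N) N N))⟩,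
  ⟨.z, .z, (B (B (B (K (.negSucc 5326427713603670147)) (K (.negSucc 1209478516214145619)) N N) (B (K (.negSucc 8741340898880423669)) (K (.ofNat 590856474643929294)) N N) N N) (B (B (K (.negSucc 3707532157006885193)) (K (.ofNat 1509811815031408022)) N N) (B (K (.negSucc 391950866046919673)) (K (.ofNat 697202553307433040)) N N) N N) N N)⟩,
  ⟨.x, T0, (B (A2 (K (.ofNat 654949622253357024))) (B N N (K (.ofNat 1729440454414881480)) (K (.negSucc 161425507885120691))) (B (K (.ofNat 265116949162450800)) (K (.negSucc 1767761004751701611)) N N) (B (K (.negSucc 8561885638102283975)) (K (.negSucc 241664636409844247)) N N))⟩,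
  ⟨.x, T1, (B (A2 (K (.ofNat 860691109015318692))) (B N N (K (.ofNat 734323069297851528)) (K (.ofNat 404793600539128980))) (B (K (.negSucc 8823419346901954259)) (K (.ofNat 273947570509692972)) N N) (B (K (.negSucc 98714088771141899)) (K (.ofNat 21802116731899032)) N N))⟩,
  ⟨.x, T2, (B (B (K (.negSucc 3546262720148913455)) (K (.ofNat 1245460096092209840)) N N) (B (K (.negSucc 343364633324779883)) (K (.ofNat 303129674277132984)) N N) N N)⟩,
  ⟨.z, T0, (A0 (B (K (.negSucc 5796876396836798987)) (K (.negSucc 706009226569897351)) N N))⟩,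
  ⟨.x, T5, (A3 (K (.negSucc 160255214608145579)))⟩,
  ⟨.x, T7, (B N N (K (.ofNat 1072252302772193376)) (K (.ofNat 859541996497609884)))⟩,
  ⟨.x, T8, (B N N (K (.ofNat 1084320575523137508)) (K (.ofNat 498031331939282532)))⟩,
  ⟨.x, T9, (A0 (K (.ofNat 99335608352351892)))⟩,
  ⟨.x, T10, (A3 (K (.ofNat 129932530262149152)))⟩,
  ⟨.x, T11, (A1 (K (.negSucc 211493384259470303)))⟩,
  ⟨.x, T20, (K (.negSucc 96594959600987087))⟩,
  ⟨.x, T24, (K (.negSucc 340941368898479855))⟩,
  ⟨.x, T37, (K (.negSucc 146706821147996255))⟩,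
  ⟨.x, T15, (K (.negSucc 214835519438254439))⟩,
  ⟨.x, T33, (K (.negSucc 111352559739899159))⟩,
  ⟨.z, T13, (K (.ofNat 196831714652327808))⟩] c_1000 c_1001 (.node [⟨.x, .z, (B (B (K (.ofNat 334165035627926640)) (K (.ofNat 188567303027091096)) N N) (B (K (.negSucc 8379646730267967515)) (K (.ofNat 106113097854740712)) N N) N N)⟩,
  ⟨.x, T0, (B (K (.ofNat 8814996802425490188)) (K (.negSucc 551846825117846471)) N N)⟩,
  ⟨.x, T1, (B (K (.negSucc 305439104617464527)) (K (.negSucc 537985861588006727)) N N)⟩,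
  ⟨.x, T5, (K (.ofNat 63663950204410824))⟩,
  ⟨.x, T7, (K (.negSucc 100142664011724695))⟩,
  ⟨.x, T8, (K (.negSucc 283171015978530839))⟩,
  ⟨.x, T10, (K (.ofNat 28704368288371104))⟩] (.node [⟨.x, .z, (B (K (.ofNat 435371634879613680)) (K (.ofNat 339609489384236688)) N N)⟩,
  ⟨.x, T0, (K (.negSucc 37542649047276215))⟩,
  ⟨.x, T1, (K (.negSucc 129910967540058143))⟩] (.node [⟨.x, .z, (K (.ofNat 101206599251687040))⟩] .nil .nil .nil .nil .nil .nil) (.node [⟨.x, .z, (K (.ofNat 280007453606243340))⟩] .nil .nil .nil .nil .nil .nil) .nil .nil .nil .nil) (.node [⟨.x, .z, (B (K (.ofNat 10008698276217429240)) (K (.ofNat 12698140593947940)) N N)⟩,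
  ⟨.x, T0, (K (.ofNat 542729990193490344))⟩,
  ⟨.x, T1, (K (.negSucc 923605349086587767))⟩] (.node [⟨.x, .z, (K (.ofNat 1583670976975564716))⟩] .nil .nil .nil .nil .nil .nil) (.node [⟨.x, .z, (K (.ofNat 888134001335623128))⟩] .nil .nil .nil .nil .nil .nil) .nil .nil .nil .nil) .nil .nil .nil .nil) (.node [⟨.x, .z, (B (B (K (.negSucc 5883038715892818683)) (K (.negSucc 1078528335459043939)) N N) (B (K (.negSucc 7158605208641993195)) (K (.ofNat 2616993498035974584)) N N) N N)⟩,
  ⟨.x, T0, (B (K (.negSucc 1855550670017316407)) (K (.negSucc 1416655667413825091)) N N)⟩,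
  ⟨.x, T1, (B (K (.ofNat 9319879316487499344)) (K (.ofNat 35954899897655412)) N N)⟩,
  ⟨.x, T5, (K (.ofNat 963247418690399088))⟩,
  ⟨.x, T7, (K (.negSucc 52153854919847423))⟩,
  ⟨.x, T8, (K (.ofNat 166194199914438576))⟩,
  ⟨.x, T10, (K (.ofNat 30970571225699460))⟩] (.node [⟨.x, .z, (B (K (.negSucc 9781377365392443359)) (K (.ofNat 48635639162130156)) N N)⟩,
  ⟨.x, T0, (K (.ofNat 276849449434809132))⟩,
  ⟨.x, T1, (K (.ofNat 278216413641130128))⟩] (.node [⟨.x, .z, (K (.negSucc 444473597298690023))⟩] .nil .nil .nil .nil .nil .nil) (.node [⟨.x, .z, (K (.negSucc 459989852642015723))⟩] .nil .nil .nil .nil .nil .nil) .nil .nil .nil .nil) (.node [⟨.x, .z, (B (K (.negSucc 475715295203491655)) (K (.negSucc 535292184633541175)) N N)⟩,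
  ⟨.x, T0, (K (.ofNat 1058137354676370264))⟩,
  ⟨.x, T1, (K (.negSucc 9581750719140755))⟩] (.node [⟨.x, .z, (K (.negSucc 223673029694079743))⟩] .nil .nil .nil .nil .nil .nil) (.node [⟨.x, .z, (K (.negSucc 1103916548264187407))⟩] .nil .nil .nil .nil .nil .nil) .nil .nil .nil .nil) .nil .nil .nil .nil) .nil .nil)

def c_1010 : Cert := (.node [⟨.x, .z, (B (A2 (K (.negSucc 2645938993788550859))) (B N N (K (.negSucc 5409129587632198007)) (K (.negSucc 1353912137661480731))) (B (K (.negSucc 6284284197149901371)) (K (.ofNat 3202458926552755272)) N N) (B (K (.negSucc 5938197003804238787)) (K (.negSucc 1480054304646794375)) N N))⟩,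
  ⟨.z, .z, (B (B (K (.negSucc 1226819436161038229)) (K (.ofNat 2439665204377843236)) N N) (B (K (.ofNat 4402837947990810432)) (K (.ofNat 9485016033880158)) N N) N N)⟩,
  ⟨.x, T0, (B N N (K (.ofNat 1906825835416106664)) (K (.ofNat 1371511436891999724)))⟩,
  ⟨.x, T1, (B N N (K (.ofNat 1547554517037981372)) (K (.ofNat 521881221189187452)))⟩,
  ⟨.x, T2, (B (K (.ofNat 5485284412704179532)) (K (.ofNat 2072288614058326152)) N N)⟩,
  ⟨.z, T0, (A0 (K (.negSucc 2489376012012139139)))⟩,
  ⟨.x, T9, (K (.negSucc 1814315995406323199))⟩,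
  ⟨.x, T11, (K (.negSucc 1002953849854078535))⟩] (.node [⟨.x, .z, (B N N (K (.negSucc 548890642219964217)) (K (.negSucc 236593836695968231)))⟩,
  ⟨.z, .z, (B (K (.negSucc 1279838772392333116)) (K (.ofNat 747483890860790381)) N N)⟩,
  ⟨.x, T2, (K (.ofNat 438332396659255154))⟩,
  ⟨.z, T0, (K (.ofNat 1237779985128652))⟩] (.node [⟨.z, .z, (K (.ofNat 395542441197722139))⟩] .nil .nil .nil .nil .nil .nil) (.node [⟨.z, .z, (K (.ofNat 1479265020594632039))⟩] .nil .nil .nil .nil .nil .nil) (.node [⟨.x, .z, (K (.negSucc 607402619120327291))⟩] .nil .nil .nil .nil .nil .nil) (.node [⟨.x, .z, (K (.negSucc 842911262027046643))⟩] .nil .nil .nil .nil .nil .nil) .nil .nil) (.node [⟨.x, .z, (B N N (K (.negSucc 223528121194747319)) (K (.negSucc 2454527154911758943)))⟩,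
  ⟨.z, .z, (B (K (.ofNat 2707305872757569424)) (K (.negSucc 1237955065059821453)) N N)⟩,
  ⟨.x, T2, (K (.ofNat 1059847153335655812))⟩,
  ⟨.z, T0, (K (.ofNat 1895597462932936440))⟩] (.node [⟨.z, .z, (K (.ofNat 1266092462759516940))⟩] .nil .nil .nil .nil .nil .nil) (.node [⟨.z, .z, (K (.negSucc 49712710489560563))⟩] .nil .nil .nil .nil .nil .nil) (.node [⟨.x, .z, (K (.ofNat 2344513815741330912))⟩] .nil .nil .nil .nil .nil .nil) (.node [⟨.x, .z, (K (.negSucc 1061720377461980051))⟩] .nil .nil .nil .nil .nil .nil) .nil .nil) (.node [⟨.x, .z, (B (K (.negSucc 681596644200669083)) (K (.ofNat 1422136210774320600)) N N)⟩,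
  ⟨.x, T0, (K (.negSucc 1839195922605264203))⟩,
  ⟨.x, T1, (K (.ofNat 391966737189635160))⟩] (.node [⟨.x, .z, (K (.negSucc 417673841384254919))⟩] .nil .nil .nil .nil .nil .nil) (.node [⟨.x, .z, (K (.negSucc 2671206155554859543))⟩] .nil .nil .nil .nil .nil .nil) .nil .nil .nil .nil) (.node [⟨.x, .z, (B (K (.negSucc 3860248984853904311)) (K (.ofNat 2690623084683618444)) N N)⟩,
  ⟨.x, T0, (K (.ofNat 128564927857533876))⟩,
  ⟨.x, T1, (K (.negSucc 2689592584272700187))⟩] (.node [⟨.x, .z, (K (.ofNat 2504481742611840036))⟩] .nil .nil .nil .nil .nil .nil) (.node [⟨.x, .z, (K (.ofNat 330625533376543764))⟩] .nil .nil .nil .nil .nil .nil) .nil .nil .nil .nil) .nil .nil)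

def c_1011 : Cert := (.node [⟨.x, .z, (B (A2 (K (.negSucc 4465991811849856127))) (B N N (K (.negSucc 10583649677535256679)) (K (.negSucc 5407437213731261183))) (B (K (.negSucc 3921916001315442699)) (K (.ofNat 6405776407006848048)) N N) (B (K (.negSucc 9062262153711305431)) (K (.negSucc 3619380198280110755)) N N))⟩,
  ⟨.z, .z, (B (B (K (.negSucc 301034430340064193)) (K (.ofNat 3121201259462147624)) N N) (B (K (.ofNat 124224143087409374)) (K (.ofNat 877600300324257984)) N N) N N)⟩,
  ⟨.x, T0, (B N N (K (.ofNat 1676435172033477528)) (K (.ofNat 4404011146985483304)))⟩,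
  ⟨.x, T1, (B N N (K (.ofNat 4725715135096303656)) (K (.ofNat 1170756685983218832)))⟩,
  ⟨.x, T2, (B (K (.ofNat 9911267890780799372)) (K (.ofNat 3768370255868858196)) N N)⟩,
  ⟨.z, T0, (A0 (K (.ofNat 4760330994409805872)))⟩,
  ⟨.x, T9, (K (.negSucc 1324117985692305647))⟩,
  ⟨.x, T11, (K (.negSucc 1716198554519245643))⟩] (.node [⟨.x, .z, (B N N (K (.negSucc 1727933214827193957)) (K (.negSucc 1641426573274107583)))⟩,
  ⟨.z, .z, (B (K (.negSucc 2621343301119304780)) (K (.ofNat 830701665035700635)) N N)⟩,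
  ⟨.x, T2, (K (.ofNat 169218328899033818))⟩,
  ⟨.z, T0, (K (.negSucc 881746683147050959))⟩] (.node [⟨.z, .z, (K (.ofNat 1718972281437727995))⟩] .nil .nil .nil .nil .nil .nil) (.node [⟨.z, .z, (K (.ofNat 2925449547343243583))⟩] .nil .nil .nil .nil .nil .nil) (.node [⟨.x, .z, (K (.negSucc 1188035247273863243))⟩] .nil .nil .nil .nil .nil .nil) (.node [⟨.x, .z, (K (.ofNat 536259176215989076))⟩] .nil .nil .nil .nil .nil .nil) .nil .nil) (.node [⟨.x, .z, (B N N (K (.negSucc 1361300625346768499)) (K (.negSucc 4520775316380207119)))⟩,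
  ⟨.z, .z, (B (K (.negSucc 3147615625060450347)) (K (.negSucc 1604879795929048193)) N N)⟩,
  ⟨.x, T2, (K (.ofNat 2817530090680322616))⟩,
  ⟨.z, T0, (K (.ofNat 2440476527738814084))⟩] (.node [⟨.z, .z, (K (.ofNat 1308731622052141932))⟩] .nil .nil .nil .nil .nil .nil) (.node [⟨.z, .z, (K (.negSucc 930430772674663901))⟩] .nil .nil .nil .nil .nil .nil) (.node [⟨.x, .z, (K (.ofNat 4386745163949391980))⟩] .nil .nil .nil .nil .nil .nil) (.node [⟨.x, .z, (K (.negSucc 2830461402453705527))⟩] .nil .nil .nil .nil .nil .nil) .nil .nil) (.node [⟨.x, .z, (B (K (.ofNat 6153403371730992612)) (K (.ofNat 583325380351364316)) N N)⟩,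
  ⟨.x, T0, (K (.negSucc 2599544678622257639))⟩,
  ⟨.x, T1, (K (.ofNat 2042017985597622648))⟩] (.node [⟨.x, .z, (K (.negSucc 3835235234797269119))⟩] .nil .nil .nil .nil .nil .nil) (.node [⟨.x, .z, (K (.negSucc 4961783214435963527))⟩] .nil .nil .nil .nil .nil .nil) .nil .nil .nil .nil) (.node [⟨.x, .z, (B (K (.negSucc 5475571982203806871)) (K (.ofNat 541556858739337860)) N N)⟩,
  ⟨.x, T0, (K (.ofNat 1276658225068342800))⟩,
  ⟨.x, T1, (K (.negSucc 4454332905457987187))⟩] (.node [⟨.x, .z, (K (.ofNat 3831848982625960956))⟩] .nil .nil .nil .nil .nil .nil) (.node [⟨.x, .z, (K (.negSucc 1717131784387033931))⟩] .nil .nil .nil .nil .nil .nil) .nil .nil .nil .nil) .nil .nil)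

def c_101 : Cert := (.node [⟨.x, .z, (B (B (A2 (K (.negSucc 385068298829503343))) N (B (K (.negSucc 9232620533145079559)) (K (.negSucc 599462091328956863)) N N) N) (B (A2 (K (.negSucc 2074087196685278627))) (B N N (K (.negSucc 1338760715728714955)) (K (.negSucc 6546105869139635))) (B (K (.negSucc 20511882183504378479)) (K (.ofNat 3101281949609805192)) N N) (B (K (.negSucc 8553094062960908579)) (K (.negSucc 512383574447687183)) N N)) (B (B (K (.negSucc 5165710910985644683)) (K (.negSucc 1977338880431819175)) N N) (B (K (.ofNat 9568945235442755388)) (K (.negSucc 1776948829932974567)) N N) N N) (B (B (K (.negSucc 10934867743379901099)) (K (.negSucc 289202682086798539)) N N) (B (K (.negSucc 6194229854347654919)) (K (.negSucc 291000954108148559)) N N) N N))⟩,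
  ⟨.z, .z, (B (B (B (K (.ofNat 1057851052490414894)) (K (.negSucc 654346591997673357)) N N) (B (K (.ofNat 4367710071536648416)) (K (.ofNat 1939081698369061932)) N N) N N) (B (B (K (.ofNat 3098416479055833028)) (K (.negSucc 1259561754426704229)) N N) (B (K (.ofNat 625729946303379564)) (K (.ofNat 586184130049523088)) N N) N N) N N)⟩,
  ⟨.x, T0, (B (A2 (K (.ofNat 757369772831323584))) (B N N (K (.ofNat 1879880829014332236)) (K (.ofNat 682852100462633016))) (B (K (.negSucc 184438525983205343)) (K (.negSucc 2647002823653773531)) N N) (B (K (.ofNat 9652289944408160196)) (K (.ofNat 313733526095327676)) N N))⟩,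
  ⟨.x, T1, (B (A2 (K (.ofNat 353778119799586464))) (B N N (K (.negSucc 729096014141033495)) (K (.ofNat 820917115303401336))) (B (K (.ofNat 8938804671043175220)) (K (.ofNat 1346856809823598776)) N N) (B (K (.ofNat 600275058723530868)) (K (.negSucc 70979906440551095)) N N))⟩,
  ⟨.x, T2, (B (B (K (.ofNat 10452376012333470016)) (K (.ofNat 2594644496772480944)) N N) (B (K (.ofNat 9170850593006970636)) (K (.ofNat 913669837725750984)) N N) N N)⟩,
  ⟨.z, T0, (A0 (B (K (.ofNat 5373812433512365760)) (K (.ofNat 2248239032444872516)) N N))⟩,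
  ⟨.x, T5, (A3 (K (.negSucc 219539109193514267)))⟩,
  ⟨.x, T7, (B N N (K (.ofNat 451276102731924036)) (K (.ofNat 1447283665886222664)))⟩,
  ⟨.x, T8, (B N N (K (.ofNat 461951098172631876)) (K (.ofNat 1086186553139185812)))⟩,
  ⟨.x, T9, (A0 (K (.ofNat 124596987394419852)))⟩,
  ⟨.x, T10, (A3 (K (.negSucc 489387961545291143)))⟩,
  ⟨.x, T11, (A1 (K (.negSucc 887859299497741775)))⟩,
  ⟨.x, T20, (K (.ofNat 83319937116918876))⟩,
  ⟨.x, T24, (K (.negSucc 257580096291397559))⟩,
  ⟨.x, T37, (K (.negSucc 178709495438425439))⟩,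
  ⟨.x, T15, (K (.negSucc 151020009906798923))⟩,
  ⟨.x, T33, (K (.ofNat 191860160793231228))⟩,
  ⟨.z, T13, (K (.negSucc 132603375661529255))⟩] c_1010 c_1011 (.node [⟨.x, .z, (B (B (K (.ofNat 9494064012030110280)) (K (.ofNat 2886105971365118604)) N N) (B (K (.ofNat 18342940033313620308)) (K (.negSucc 1102521138633508655)) N N) N N)⟩,
  ⟨.x, T0, (B (K (.negSucc 10847572055474986475)) (K (.negSucc 1282447034545240343)) N N)⟩,
  ⟨.x, T1, (B (K (.negSucc 2049542113858144031)) (K (.negSucc 2383595754523114151)) N N)⟩,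
  ⟨.x, T5, (K (.ofNat 416125957736513700))⟩,
  ⟨.x, T7, (K (.negSucc 2726128982976181871))⟩,
  ⟨.x, T8, (K (.negSucc 2653155008258269007))⟩,
  ⟨.x, T10, (K (.negSucc 508041418776345419))⟩] (.node [⟨.x, .z, (B (K (.ofNat 1960566082461754500)) (K (.negSucc 2929313329323489419)) N N)⟩,
  ⟨.x, T0, (K (.ofNat 1676165785572954732))⟩,
  ⟨.x, T1, (K (.ofNat 618901694839426488))⟩] (.node [⟨.x, .z, (K (.negSucc 116248499209436447))⟩] .nil .nil .nil .nil .nil .nil) (.node [⟨.x, .z, (K (.ofNat 1070207978996892936))⟩] .nil .nil .nil .nil .nil .nil) .nil .nil .nil .nil) (.node [⟨.x, .z, (B (K (.negSucc 9402174437112962831)) (K (.ofNat 466024738036464048)) N N)⟩,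
  ⟨.x, T0, (K (.ofNat 1764257110730207484))⟩,
  ⟨.x, T1, (K (.ofNat 507933502730062164))⟩] (.node [⟨.x, .z, (K (.ofNat 2806381253858203512))⟩] .nil .nil .nil .nil .nil .nil) (.node [⟨.x, .z, (K (.ofNat 2765145830596583688))⟩] .nil .nil .nil .nil .nil .nil) .nil .nil .nil .nil) .nil .nil .nil .nil) (.node [⟨.x, .z, (B (B (K (.negSucc 2030590390236047115)) (K (.negSucc 3809804664264945619)) N N) (B (K (.ofNat 1812103644488582880)) (K (.ofNat 1516608787066392744)) N N) N N)⟩,
  ⟨.x, T0, (B (K (.negSucc 3925741648593370523)) (K (.negSucc 633112893153257963)) N N)⟩,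
  ⟨.x, T1, (B (K (.negSucc 8333178947819650859)) (K (.negSucc 681839407109392331)) N N)⟩,
  ⟨.x, T5, (K (.ofNat 1660310969188204956))⟩,
  ⟨.x, T7, (K (.negSucc 1000226088710221967))⟩,
  ⟨.x, T8, (K (.negSucc 490020814311473555))⟩,
  ⟨.x, T10, (K (.negSucc 482784745164503915))⟩] (.node [⟨.x, .z, (B (K (.ofNat 8704779333439038096)) (K (.negSucc 5797292778777929603)) N N)⟩,
  ⟨.x, T0, (K (.ofNat 4138848592451713524))⟩,
  ⟨.x, T1, (K (.ofNat 1439853849566225712))⟩] (.node [⟨.x, .z, (K (.negSucc 473054990854725359))⟩] .nil .nil .nil .nil .nil .nil) (.node [⟨.x, .z, (K (.negSucc 338289479844164111))⟩] .nil .nil .nil .nil .nil .nil) .nil .nil .nil .nil) (.node [⟨.x, .z, (B (K (.negSucc 135733858354171151)) (K (.negSucc 2852715916958138555)) N N)⟩,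
  ⟨.x, T0, (K (.ofNat 2523672750461650488))⟩,
  ⟨.x, T1, (K (.ofNat 357730805754240180))⟩] (.node [⟨.x, .z, (K (.ofNat 1257549599184296964))⟩] .nil .nil .nil .nil .nil .nil) (.node [⟨.x, .z, (K (.negSucc 765966807205537907))⟩] .nil .nil .nil .nil .nil .nil) .nil .nil .nil .nil) .nil .nil .nil .nil) .nil .nil)

def c_102 : Cert := (.node [⟨.x, .z, (B (B (B (K (.negSucc 942822660205315835)) (K (.negSucc 646289459707140815)) N N) (B (K (.negSucc 1350712748151120347)) (K (.ofNat 1386482596647627552)) N N) N N) (B (B (K (.ofNat 6633928174349533176)) (K (.ofNat 3499824777107199360)) N N) (B (K (.ofNat 8327424782260925940)) (K (.ofNat 1008377578615941276)) N N) N N) N N)⟩,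
  ⟨.x, T0, (B (B (K (.negSucc 8007665950763074211)) (K (.negSucc 3412575345225765407)) N N) (B (K (.negSucc 9715960875570765203)) (K (.ofNat 291904763850775668)) N N) N N)⟩,
  ⟨.x, T1, (B (B (K (.ofNat 560001740066391564)) (K (.ofNat 308262039029666088)) N N) (B (K (.ofNat 1476417281798593128)) (K (.negSucc 734619879761977763)) N N) N N)⟩,
  ⟨.x, T4, (B N N (K (.ofNat 286129083129910338)) (K (.negSucc 206364561534545093)))⟩,
  ⟨.x, T5, (A1 (K (.negSucc 260934141834230951)))⟩,
  ⟨.x, T6, (B N N (K (.negSucc 135267172526693201)) (K (.ofNat 60356036748522294)))⟩,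
  ⟨.x, T7, (B (K (.ofNat 716283491447279616)) (K (.ofNat 348155084118171672)) N N)⟩,
  ⟨.x, T8, (B (K (.negSucc 160351748613108767)) (K (.negSucc 253462356769888535)) N N)⟩,
  ⟨.x, T10, (A1 (K (.negSucc 1021359408856186787)))⟩,
  ⟨.x, T29, (K (.ofNat 581882276439446904))⟩,
  ⟨.x, T13, (K (.ofNat 107446290818937408))⟩,
  ⟨.x, T14, (K (.ofNat 77474806648032444))⟩,
  ⟨.x, T30, (K (.ofNat 809267449295662860))⟩,
  ⟨.x, T31, (K (.ofNat 105631872720228408))⟩,
  ⟨.x, T32, (K (.ofNat 262239903904277688))⟩] (.node [⟨.x, .z, (B (B (K (.negSucc 885570128456877767)) (K (.negSucc 670429921708674815)) N N) (B (K (.negSucc 1205105313444336467)) (K (.ofNat 1494969300529681524)) N N) N N)⟩,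
  ⟨.x, T0, (B (K (.ofNat 747053117743431360)) (K (.ofNat 96159915621592464)) N N)⟩,
  ⟨.x, T1, (B (K (.negSucc 378613139430996131)) (K (.negSucc 60796601223430415)) N N)⟩,
  ⟨.x, T5, (K (.ofNat 131910253298942328))⟩,
  ⟨.x, T7, (K (.ofNat 1251181940081706036))⟩,
  ⟨.x, T8, (K (.ofNat 37323652680938400))⟩,
  ⟨.x, T10, (K (.ofNat 31551244066484352))⟩] (.node [⟨.x, .z, (B (K (.ofNat 161126460326498244)) (K (.ofNat 1160640238666582500)) N N)⟩,
  ⟨.x, T0, (K (.negSucc 559167391266341531))⟩,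
  ⟨.x, T1, (K (.negSucc 518246092783468799))⟩] (.node [⟨.x, .z, (K (.ofNat 118823072092478352))⟩] .nil .nil .nil .nil .nil .nil) (.node [⟨.x, .z, (K (.negSucc 153686106846611339))⟩] .nil .nil .nil .nil .nil .nil) .nil .nil .nil .nil) (.node [⟨.x, .z, (B (K (.ofNat 507110327267455488)) (K (.ofNat 77920920091776588)) N N)⟩,
  ⟨.x, T0, (K (.ofNat 144303300257174052))⟩,
  ⟨.x, T1, (K (.negSucc 581339060291000603))⟩] (.node [⟨.x, .z, (K (.negSucc 213222609367168775))⟩] .nil .nil .nil .nil .nil .nil) (.node [⟨.x, .z, (K (.negSucc 480969885855767831))⟩] .nil .nil .nil .nil .nil .nil) .nil .nil .nil .nil) .nil .nil .nil .nil) (.node [⟨.x, .z, (B (B (K (.negSucc 8825230326237527411)) (K (.negSucc 3781723612218727115)) N N) (B (K (.negSucc 9170239176141676703)) (K (.negSucc 275420507183866403)) N N) N N)⟩,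
  ⟨.x, T0, (B (K (.ofNat 2284136762287155264)) (K (.ofNat 205753876471959600)) N N)⟩,
  ⟨.x, T1, (B (K (.negSucc 879806035654226723)) (K (.ofNat 1846589895417054792)) N N)⟩,
  ⟨.x, T5, (K (.negSucc 551861974240492343))⟩,
  ⟨.x, T7, (K (.ofNat 1744656844058934864))⟩,
  ⟨.x, T8, (K (.ofNat 587979136758314604))⟩,
  ⟨.x, T10, (K (.ofNat 160892639414972784))⟩] (.node [⟨.x, .z, (B (K (.negSucc 300202652390000639)) (K (.ofNat 1717975342340389380)) N N)⟩,
  ⟨.x, T0, (K (.negSucc 941382281911587107))⟩,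
  ⟨.x, T1, (K (.negSucc 708430961515420235))⟩] (.node [⟨.x, .z, (K (.negSucc 314950648454444039))⟩] .nil .nil .nil .nil .nil .nil) (.node [⟨.x, .z, (K (.negSucc 1154774354887660175))⟩] .nil .nil .nil .nil .nil .nil) .nil .nil .nil .nil) (.node [⟨.x, .z, (B (K (.negSucc 300196501879981919)) (K (.ofNat 180613583582660964)) N N)⟩,
  ⟨.x, T0, (K (.negSucc 469074705305994023))⟩,
  ⟨.x, T1, (K (.negSucc 484136808834574835))⟩] (.node [⟨.x, .z, (K (.negSucc 1021605541874682515))⟩] .nil .nil .nil .nil .nil .nil) (.node [⟨.x, .z, (K (.negSucc 1026077776226796479))⟩] .nil .nil .nil .nil .nil .nil) .nil .nil .nil .nil) .nil .nil .nil .nil) (.node [⟨.x, T4, (K (.negSucc 183935888312253047))⟩,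
  ⟨.x, T6, (K (.negSucc 993203337607915907))⟩] .nil .nil .nil .nil .nil .nil) (.node [⟨.x, T4, (K (.negSucc 1433317311510634375))⟩,
  ⟨.x, T6, (K (.ofNat 2515513798990777616))⟩] .nil .nil .nil .nil .nil .nil) .nil .nil)

def c_103 : Cert := (.node [⟨.x, .z, (B (B (B (K (.ofNat 31817129087042657904)) (K (.ofNat 22507402490805417800)) N N) (B (K (.ofNat 26288126367710635886)) (K (.negSucc 17584441697808144353)) N N) N N) (B (B (K (.ofNat 47701498010412197592)) (K (.ofNat 23993591606497654284)) N N) (B (K (.ofNat 13337992378791739404)) (K (.negSucc 59173563536671189691)) N N) N N) N N)⟩,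
  ⟨.x, T0, (B (B (K (.negSucc 4754342809098940403)) (K (.negSucc 41192482610678736677)) N N) (B (K (.ofNat 7439007854566012308)) (K (.ofNat 8315627830701284856)) N N) N N)⟩,
  ⟨.x, T1, (B (B (K (.negSucc 25439184449020803719)) (K (.negSucc 11492477049263138021)) N N) (B (K (.negSucc 35496883029898390109)) (K (.ofNat 2202610941897420114)) N N) N N)⟩,
  ⟨.x, T4, (B N N (K (.negSucc 7726361988318422057)) (K (.ofNat 4883056750770020226)))⟩,
  ⟨.x, T5, (A1 (K (.ofNat 22976292114641011848)))⟩,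
  ⟨.x, T6, (B N N (K (.ofNat 8992754807529240834)) (K (.negSucc 7358552927314235273)))⟩,
  ⟨.x, T7, (B (K (.negSucc 20302124521037485127)) (K (.negSucc 39966623596883502971)) N N)⟩,
  ⟨.x, T8, (B (K (.ofNat 2445336827012053074)) (K (.negSucc 15266876849570989445)) N N)⟩,
  ⟨.x, T10, (A1 (K (.ofNat 25838946630829226538)))⟩,
  ⟨.x, T29, (K (.negSucc 18770524332496992335))⟩,
  ⟨.x, T13, (K (.ofNat 521526841285695276))⟩,
  ⟨.x, T14, (K (.ofNat 1467867210993015888))⟩,
  ⟨.x, T30, (K (.negSucc 9854936169829487981))⟩,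
  ⟨.x, T31, (K (.ofNat 3229346012174809044))⟩,
  ⟨.x, T32, (K (.negSucc 12940698918518443307))⟩] (.node [⟨.x, .z, (B (B (K (.ofNat 36477569905246483584)) (K (.ofNat 4255209681397968528)) N N) (B (K (.ofNat 31983504460812923436)) (K (.negSucc 84258651601793199755)) N N) N N)⟩,
  ⟨.x, T0, (B (K (.negSucc 32638296172666682543)) (K (.ofNat 46203620804244295272)) N N)⟩,
  ⟨.x, T1, (B (K (.ofNat 11775327488700977844)) (K (.ofNat 1333445130929779884)) N N)⟩,
  ⟨.x, T5, (K (.negSucc 3361182452184701411))⟩,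
  ⟨.x, T7, (K (.negSucc 33634503818718797375))⟩,
  ⟨.x, T8, (K (.ofNat 1115827534900356360))⟩,
  ⟨.x, T10, (K (.ofNat 3327475669230580944))⟩] (.node [⟨.x, .z, (B (K (.negSucc 15254308486113816767)) (K (.negSucc 54351576842283646259)) N N)⟩,
  ⟨.x, T0, (K (.ofNat 28418422260787101648))⟩,
  ⟨.x, T1, (K (.ofNat 22856787720918689748))⟩] (.node [⟨.x, .z, (K (.negSucc 16084347419960546003))⟩] .nil .nil .nil .nil .nil .nil) (.node [⟨.x, .z, (K (.negSucc 1726716195522938123))⟩] .nil .nil .nil .nil .nil .nil) .nil .nil .nil .nil) (.node [⟨.x, .z, (B (K (.negSucc 4197044771456017073)) (K (.ofNat 17381939006070565020)) N N)⟩,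
  ⟨.x, T0, (K (.ofNat 15205180464233944800))⟩,
  ⟨.x, T1, (K (.negSucc 8161006445684491709))⟩] (.node [⟨.x, .z, (K (.negSucc 2977667145255144803))⟩] .nil .nil .nil .nil .nil .nil) (.node [⟨.x, .z, (K (.ofNat 13015384082649234348))⟩] .nil .nil .nil .nil .nil .nil) .nil .nil .nil .nil) .nil .nil .nil .nil) (.node [⟨.x, .z, (B (B (K (.ofNat 14079745373111316570)) (K (.negSucc 13161774462742978937)) N N) (B (K (.negSucc 2167641174527989499)) (K (.ofNat 4423424390505741912)) N N) N N)⟩,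
  ⟨.x, T0, (B (K (.negSucc 21391387873046760155)) (K (.ofNat 14949527658969612672)) N N)⟩,
  ⟨.x, T1, (B (K (.ofNat 11386880622684876306)) (K (.negSucc 30962117198750981693)) N N)⟩,
  ⟨.x, T5, (K (.ofNat 6300333718543153572))⟩,
  ⟨.x, T7, (K (.negSucc 23563129116495646019))⟩,
  ⟨.x, T8, (K (.negSucc 8882585115183776891))⟩,
  ⟨.x, T10, (K (.ofNat 3948197143048229712))⟩] (.node [⟨.x, .z, (B (K (.negSucc 8371775636278535273)) (K (.negSucc 5248070739911763851)) N N)⟩,
  ⟨.x, T0, (K (.ofNat 28205368517877358092))⟩,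
  ⟨.x, T1, (K (.ofNat 4440452747351907810))⟩] (.node [⟨.x, .z, (K (.negSucc 4679897709406067087))⟩] .nil .nil .nil .nil .nil .nil) (.node [⟨.x, .z, (K (.ofNat 18066613703496600900))⟩] .nil .nil .nil .nil .nil .nil) .nil .nil .nil .nil) (.node [⟨.x, .z, (B (K (.negSucc 916953748415117537)) (K (.ofNat 57002472004366072836)) N N)⟩,
  ⟨.x, T0, (K (.negSucc 11866651596240602171))⟩,
  ⟨.x, T1, (K (.negSucc 6390824190858515333))⟩] (.node [⟨.x, .z, (K (.ofNat 18447499376501590272))⟩] .nil .nil .nil .nil .nil .nil) (.node [⟨.x, .z, (K (.ofNat 21322078107915090204))⟩] .nil .nil .nil .nil .nil .nil) .nil .nil .nil .nil) .nil .nil .nil .nil) (.node [⟨.x, T4, (K (.ofNat 5763391882280842430))⟩,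
  ⟨.x, T6, (K (.ofNat 11900833347976619608))⟩] .nil .nil .nil .nil .nil .nil) (.node [⟨.x, T4, (K (.ofNat 11359971618706265214))⟩,
  ⟨.x, T6, (K (.ofNat 9098055672827030838))⟩] .nil .nil .nil .nil .nil .nil) .nil .nil)

end Pool.Agent.Helper805.Chain.C6b
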