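import Pool.Agent.Helper805.Chain.C6bD0
set_option autoImplicit false
set_option maxRecDepth 100000

/-! Certificate data (found by computer). -/

namespace Pool.Agent.Helper805.Chain.C6b
open Pool.Agent.Helper805.Chain

def c_10 : Cert := (.node [⟨.x, .z, (B (B (B (A2 (K (.ofNat 745794158145831420))) N (A0 (K (.ofNat 581005571758942908))) N) N (B (B (K (.negSucc 7648860614339895383)) (K (.negSucc 4468555790325190847)) N N) (B (K (.negSucc 8662421037769809275)) (K (.negSucc 458917770803560163)) N N) N N) N) (B (B (A2 (K (.ofNat 1030588600301403792))) N (B (K (.ofNat 1162176814542237600)) (K (.negSucc 642053660606271875)) N N) N) (B (A2 (K (.negSucc 1469799324574351727))) (B N N (K (.ofNat 216729073273987056)) (K (.ofNat 452051850352707432))) (B (K (.negSucc 1851822897194392667)) (K (.ofNat 1761822382471275144)) N N) (B (K (.ofNat 886657684476745488)) (K (.ofNat 491213172513762816)) N N)) (B (B (K (.negSucc 14267892939025615343)) (K (.negSucc 7576785724238596787))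 N N) (B (K (.negSucc 15906608164984862159)) (K (.negSucc 1490288967833368991)) N N) N N) (B (B (K (.negSucc 8512455596581473167)) (K (.negSucc 1355854894157340863)) N N) (B (K (.negSucc 6809051707387927463)) (K (.ofNat 568701240023096016)) N N) N N)) (B (B (B (K (.ofNat 1474788889336734552)) (K (.ofNat 789842383201323100)) N N) (B (K (.ofNat 1497229145813358184)) (K (.negSucc 1546967827328027363)) N N) N N) (B (B (K (.ofNat 14340157249260848544)) (K (.ofNat 6566775249229536384)) N N) (B (K (.ofNat 16595075652562871172)) (K (.ofNat 1050018498450960000)) N N) N N) N N) (B (B (B (K (.negSucc 4047276823567088795)) (K (.negSucc 983443640456554659)) N N) (B (K (.negSucc 4245823708887625995)) (K (.negSucc 623734430449326635)) N N) N N) (B (B (K (.negSucc 1568528020386438203)) (K (.negSucc 63284325518093963)) N N) (B (K (.negSucc 1010673550109368931)) (K (.ofNat 563316551702679036)) N N) N N) N N))⟩,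
  ⟨.z, .z, (B (B (B (A0 (K (.ofNat 3789301003962645780))) (A1 (K (.negSucc 3220302493827352045))) N N) (B (B (K (.ofNat 10961060412002711276)) (K (.ofNat 6705337350425086146)) N N) (B (K (.ofNat 9965452305689069856)) (K (.negSucc 2112978796456686025)) N N) N N) N N) (B (B (B (K (.ofNat 7806655071748304978)) (K (.ofNat 3187718849782389214)) N N) (B (K (.ofNat 6402431926301424982)) (K (.negSucc 2590652142052095541)) N N) N N) (B (B (K (.ofNat 5028116131598096960)) (K (.ofNat 3491435637441206024)) N N) (B (K (.ofNat 5548251480932486984)) (K (.negSucc 345423404805226223)) N N) N N) N N) N N)⟩,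
  ⟨.x, T0, (B (B (A2 (K (.negSucc 173347437526713179))) N (B (K (.negSucc 763078916282881211)) (K (.ofNat 339488987647844988)) N N) N) (B (A2 (K (.ofNat 1390054273507833432))) (B N N (K (.negSucc 193532940231381383)) (K (.negSucc 32555805105617183))) (B (K (.ofNat 130466307635919048)) (K (.negSucc 756008645613495899)) N N) (B (K (.negSucc 1236463923137544059)) (K (.ofNat 235174281207498384)) N N)) (B (B (K (.negSucc 47157118868462879)) (K (.ofNat 733448947255928772)) N N) (B (K (.negSucc 940441164216275351)) (K (.negSucc 136390441685385155)) N N) N N) (B (B (K (.ofNat 8041977072643257972)) (K (.ofNat 3280515131988601428)) N N) (B (K (.ofNat 8534454247850296800)) (K (.negSucc 129532356927471251)) N N) N N))⟩,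
  ⟨.x, T1, (B (B (A2 (K (.negSucc 118792522680356195))) N (B (K (.ofNat 133236648770239500)) (K (.negSucc 479579704123306667)) N N) N) (B (A2 (K (.negSucc 190347237204538607))) (B N N (K (.ofNat 463199855062838652)) (K (.negSucc 149238612382956191))) (B (K (.negSucc 134249796162713051)) (K (.negSucc 404663940976773263)) N N) (B (K (.negSucc 283063491551341835)) (K (.ofNat 72524298168126696)) N N)) (B (B (K (.ofNat 7879268536554657924)) (K (.ofNat 4113675848138786256)) N N) (B (K (.ofNat 10091639449299591408)) (K (.ofNat 581101455705278484)) N N) N N) (B (B (K (.negSucc 53628495234308579)) (K (.ofNat 185473017943760604)) N N) (A0 (K (.ofNat 162577752684981780))) N N))⟩,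
  ⟨.x, T2, (B (B (B (K (.ofNat 3010324167226630344)) (K (.ofNat 1815430858218050596)) N N) (B (K (.ofNat 3717494704133710804)) (K (.ofNat 615104355954200436)) N N) N N) (B (B (K (.ofNat 212566695272382216)) (K (.ofNat 517688223971005764)) N N) (B (K (.ofNat 557796956293729488)) (K (.negSucc 498593007944088059)) N N) N N) N N)⟩,
  ⟨.z, T0, (A0 (B (B (K (.ofNat 4338111219496006344)) (K (.ofNat 1909098948291247556)) N N) (B (K (.ofNat 5127214643179347224)) (K (.negSucc 1785006071579621771)) N N) N N))⟩,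
  ⟨.x, T4, (B N N (A2 (K (.ofNat 180919987643505936))) (B N N (K (.ofNat 9307504924938636)) (K (.negSucc 63032680132780163))))⟩,
  ⟨.x, T5, (B N (A3 (K (.negSucc 180087892566859163))) N (A1 (K (.negSucc 406875361275947879))))⟩,
  ⟨.x, T6, (B N N (A2 (K (.negSucc 166405070350051319))) (B N N (K (.negSucc 65889628230598217)) (K (.ofNat 323036678664211770))))⟩,
  ⟨.x, T7, (B (A2 (K (.ofNat 84993982715725452))) (B N N (K (.ofNat 297951283018783488)) (K (.ofNat 681768339999182832))) (B (K (.negSucc 421292112503895383)) (K (.ofNat 15959330879611560)) N N) (B (K (.ofNat 18763991697951768)) (K (.ofNat 854356825276241772)) N N))⟩,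
  ⟨.x, T8, (B (A2 (K (.ofNat 553728007557085176))) (B N N (K (.ofNat 834234775127459868)) (K (.negSucc 126212296735212563))) (B (K (.negSucc 55923411600129995)) (K (.ofNat 39517904314762080)) N N) (B (K (.negSucc 373236870229781975)) (K (.ofNat 580550106536687448)) N N))⟩,
  ⟨.x, T9, (A0 (B (K (.negSucc 178257408100593659)) (K (.negSucc 795245248299193583)) N N))⟩,
  ⟨.x, T10, (B N (B N N (K (.ofNat 106809302404581336)) (K (.negSucc 57819167716456475))) N (A1 (K (.ofNat 24039625250624760))))⟩,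
  ⟨.x, T11, (A1 (B (K (.negSucc 291815028984230975)) (K (.ofNat 378196438259976780)) N N))⟩,
  ⟨.x, T29, (A3 (K (.ofNat 245236850426970384)))⟩,
  ⟨.x, T13, (B N N (K (.negSucc 462541723253860091)) (K (.negSucc 320203796467573475)))⟩,
  ⟨.x, T14, (B N N (K (.negSucc 422328915288170723)) (K (.negSucc 25741245171263855)))⟩,
  ⟨.x, T20, (A0 (K (.negSucc 150515216509297691)))⟩,
  ⟨.x, T30, (A2 (K (.ofNat 289984776085603272)))⟩,
  ⟨.x, T24, (A0 (K (.ofNat 151995232313064552)))⟩,
  ⟨.x, T31, (A3 (K (.ofNat 61118807381871672)))⟩,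
  ⟨.x, T37, (A1 (K (.ofNat 159048128835645384)))⟩,
  ⟨.x, T32, (A3 (K (.ofNat 95611314382057740)))⟩,
  ⟨.x, T15, (B (K (.negSucc 43164172092447827)) (K (.negSucc 253786503165693767)) N N)⟩,
  ⟨.x, T33, (A1 (K (.negSucc 508023113028299375)))⟩,
  ⟨.z, T13, (A0 (K (.negSucc 300202537017100139)))⟩,
  ⟨.x, T21, (K (.ofNat 327948166893320856))⟩,
  ⟨.x, T25, (K (.ofNat 293725836990992088))⟩,
  ⟨.x, T38, (K (.ofNat 17728373359512468))⟩,
  ⟨.x, T39, (K (.negSucc 375272983239864047))⟩,
  ⟨.x, T41, (K (.ofNat 1610131810461120))⟩,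
  ⟨.x, T36, (K (.ofNat 178175921525196660))⟩,
  ⟨.x, T42, (K (.ofNat 162059047424534520))⟩,
  ⟨.z, T16, (K (.negSucc 135718623289308851))⟩,
  ⟨.z, T18, (K (.negSucc 271399511814958439))⟩] c_100 c_101 c_102 c_103 .nil .nil)

def c_1100 : Cert := (.node [⟨.x, .z, (B (A2 (K (.negSucc 1858525191932498567))) (B N N (K (.negSucc 2684159917940519027)) (K (.negSucc 1357829224984588619))) (B (K (.negSucc 6756571954157356799)) (K (.ofNat 3424027550778558876)) N N) (B (K (.negSucc 5804768451105127859)) (K (.negSucc 323283549804831455)) N N))⟩,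
  ⟨.z, .z, (B (B (K (.negSucc 640394804393792219)) (K (.ofNat 1081682777688586794)) N N) (B (K (.ofNat 3880958370242026776)) (K (.ofNat 78624794747955312)) N N) N N)⟩,
  ⟨.x, T0, (B N N (K (.negSucc 252698342294940971)) (K (.ofNat 1172703039388220976)))⟩,
  ⟨.x, T1, (B N N (K (.negSucc 206550445518824639)) (K (.negSucc 14576134841733347)))⟩,
  ⟨.x, T2, (B (K (.ofNat 5093157304998310392)) (K (.ofNat 184525892698495116)) N N)⟩,
  ⟨.z, T0, (A0 (K (.negSucc 4072603841692613459)))⟩,
  ⟨.x, T9, (K (.negSucc 430401001253513699))⟩,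
  ⟨.x, T11, (K (.negSucc 99776711466279071))⟩] (.node [⟨.x, .z, (B N N (K (.negSucc 243397157421326883)) (K (.negSucc 287983748695835047)))⟩,
  ⟨.z, .z, (B (K (.negSucc 539851362268544539)) (K (.ofNat 717203618749582754)) N N)⟩,
  ⟨.x, T2, (K (.ofNat 1326196141084934660))⟩,
  ⟨.z, T0, (K (.ofNat 370213451749131184))⟩] (.node [⟨.z, .z, (K (.negSucc 812684174806927667))⟩] .nil .nil .nil .nil .nil .nil) (.node [⟨.z, .z, (K (.negSucc 243078716695457241))⟩] .nil .nil .nil .nil .nil .nil) (.node [⟨.x, .z, (K (.negSucc 594011735757005663))⟩] .nil .nil .nil .nil .nil .nil) (.node [⟨.x, .z, (K (.negSucc 1233245183374189423))⟩] .nil .nil .nil .nil .nil .nil) .nil .nil) (.node [⟨.x, .z, (B N N (K (.ofNat 725986321773402674)) (K (.negSucc 1551243337032050083)))⟩,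
  ⟨.z, .z, (B (K (.ofNat 1585378780166403409)) (K (.negSucc 1078319801000453166)) N N)⟩,
  ⟨.x, T2, (K (.negSucc 472339667184107937))⟩,
  ⟨.z, T0, (K (.ofNat 982229261044813744))⟩] (.node [⟨.z, .z, (K (.ofNat 1798926277877159913))⟩] .nil .nil .nil .nil .nil .nil) (.node [⟨.z, .z, (K (.ofNat 937586582003685227))⟩] .nil .nil .nil .nil .nil .nil) (.node [⟨.x, .z, (K (.ofNat 3603536961172878960))⟩] .nil .nil .nil .nil .nil .nil) (.node [⟨.x, .z, (K (.ofNat 827933242089745144))⟩] .nil .nil .nil .nil .nil .nil) .nil .nil) (.node [⟨.x, .z, (B (K (.ofNat 255753732236112480)) (K (.negSucc 149856839569233503)) N N)⟩,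
  ⟨.x, T0, (K (.ofNat 417946435117849860))⟩,
  ⟨.x, T1, (K (.ofNat 307939993709328684))⟩] (.node [⟨.x, .z, (K (.negSucc 374258728886199839))⟩] .nil .nil .nil .nil .nil .nil) (.node [⟨.x, .z, (K (.negSucc 2836842277819953755))⟩] .nil .nil .nil .nil .nil .nil) .nil .nil .nil .nil) (.node [⟨.x, .z, (B (K (.negSucc 739105004956468799)) (K (.ofNat 4007372892790272984)) N N)⟩,
  ⟨.x, T0, (K (.ofNat 432605803247652936))⟩,
  ⟨.x, T1, (K (.negSucc 4859643157899181079))⟩] (.node [⟨.x, .z, (K (.ofNat 3729598369616047668))⟩] .nil .nil .nil .nil .nil .nil) (.node [⟨.x, .z, (K (.ofNat 2077150184433442044))⟩] .nil .nil .nil .nil .nil .nil) .nil .nil .nil .nil) .nil .nil)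

def c_1101 : Cert := (.node [⟨.x, .z, (B (A2 (K (.negSucc 40273690541093147))) (B N N (K (.ofNat 330586573174326000)) (K (.negSucc 1350974120045039303))) (B (K (.negSucc 6077634738668660815)) (K (.ofNat 1857913426848758808)) N N) (B (K (.negSucc 3109229889558811959)) (K (.negSucc 2624464505197568747)) N N))⟩,
  ⟨.z, .z, (B (B (K (.negSucc 2021451475274084853)) (K (.negSucc 888752590580211661)) N N) (B (K (.negSucc 664604645102257231)) (K (.negSucc 515994845736705623)) N N) N N)⟩,
  ⟨.x, T0, (B N N (K (.negSucc 2004558834999133847)) (K (.ofNat 173435267731518612)))⟩,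
  ⟨.x, T1, (B N N (K (.ofNat 1436771085724596612)) (K (.negSucc 816048434986152383)))⟩,
  ⟨.x, T2, (B (K (.ofNat 7348569660209333368)) (K (.negSucc 984894850069866599)) N N)⟩,
  ⟨.z, T0, (A0 (K (.ofNat 3167856472178728520)))⟩,
  ⟨.x, T9, (K (.ofNat 1882751312235829920))⟩,
  ⟨.x, T11, (K (.ofNat 312379064089992444))⟩] (.node [⟨.x, .z, (B N N (K (.negSucc 263998824936904919)) (K (.negSucc 367557341469087947)))⟩,
  ⟨.z, .z, (B (K (.negSucc 3255080388564525149)) (K (.ofNat 724607539952558424)) N N)⟩,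
  ⟨.x, T2, (K (.negSucc 38923453841534843))⟩,
  ⟨.z, T0, (K (.ofNat 451235236379854284))⟩] (.node [⟨.z, .z, (K (.ofNat 1268560435070755386))⟩] .nil .nil .nil .nil .nil .nil) (.node [⟨.z, .z, (K (.ofNat 194602238599910388))⟩] .nil .nil .nil .nil .nil .nil) (.node [⟨.x, .z, (K (.negSucc 60417138085268339))⟩] .nil .nil .nil .nil .nil .nil) (.node [⟨.x, .z, (K (.ofNat 3147858070655385228))⟩] .nil .nil .nil .nil .nil .nil) .nil .nil) (.node [⟨.x, .z, (B N N (K (.negSucc 395784368373794237)) (K (.negSucc 926580567196961615)))⟩,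
  ⟨.z, .z, (B (K (.negSucc 5901018687647356942)) (K (.ofNat 761268566067709005)) N N)⟩,
  ⟨.x, T2, (K (.negSucc 315901107252132461))⟩,
  ⟨.z, T0, (K (.negSucc 424156085203455371))⟩] (.node [⟨.z, .z, (K (.ofNat 836772673537378329))⟩] .nil .nil .nil .nil .nil .nil) (.node [⟨.z, .z, (K (.ofNat 181775846643524889))⟩] .nil .nil .nil .nil .nil .nil) (.node [⟨.x, .z, (K (.negSucc 703021320872364191))⟩] .nil .nil .nil .nil .nil .nil) (.node [⟨.x, .z, (K (.ofNat 635625722259361584))⟩] .nil .nil .nil .nil .nil .nil) .nil .nil) (.node [⟨.x, .z, (B (K (.ofNat 2536162788146029008)) (K (.ofNat 336729728762960292)) N N)⟩,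
  ⟨.x, T0, (K (.ofNat 505681369573171800))⟩,
  ⟨.x, T1, (K (.ofNat 2212956608829550476))⟩] (.node [⟨.x, .z, (K (.negSucc 5685960082826376755))⟩] .nil .nil .nil .nil .nil .nil) (.node [⟨.x, .z, (K (.negSucc 1779058687572222875))⟩] .nil .nil .nil .nil .nil .nil) .nil .nil .nil .nil) (.node [⟨.x, .z, (B (K (.negSucc 4138073610802135839)) (K (.ofNat 3623624188099858632)) N N)⟩,
  ⟨.x, T0, (K (.negSucc 1176293710341550979))⟩,
  ⟨.x, T1, (K (.negSucc 3882980430475565855))⟩] (.node [⟨.x, .z, (K (.negSucc 406073275400920391))⟩] .nil .nil .nil .nil .nil .nil) (.node [⟨.x, .z, (K (.ofNat 302858627030584536))⟩] .nil .nil .nil .nil .nil .nil) .nil .nil .nil .nil) .nil .nil)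

def c_110 : Cert := (.node [⟨.x, .z, (B (B (A2 (K (.negSucc 2676120066620739011))) N (B (K (.negSucc 8634031193561044487)) (K (.negSucc 2161436895961897391)) N N) N) (B (A2 (K (.negSucc 3919351522274722343))) (B N N (K (.ofNat 651407990787901872)) (K (.negSucc 1185207606312171947))) (B (K (.negSucc 17661776910068440547)) (K (.ofNat 885666934090203096)) N N) (B (K (.negSucc 6881272206190926419)) (K (.negSucc 1413319893059553551)) N N)) (B (B (K (.ofNat 3480348951779547336)) (K (.ofNat 1317695156370997852)) N N) (B (K (.ofNat 17874589045398084084)) (K (.negSucc 1393668408075698351)) N N) N N) (B (B (K (.negSucc 122008146654140507)) (K (.ofNat 2513391912226046324)) N N) (B (K (.ofNat 3712712082525302460)) (K (.negSucc 1259941227697808135)) N N) N N))⟩,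
  ⟨.z, .z, (B (B (B (K (.ofNat 3901086509471077236)) (K (.ofNat 2824016562636793712)) N N) (B (K (.ofNat 8694065193949207566)) (K (.ofNat 636882230827084398)) N N) N N) (B (B (K (.ofNat 1643722741858078020)) (K (.negSucc 308337514192947451)) N N) (B (K (.ofNat 936608084347984050)) (K (.ofNat 793402770234290952)) N N) N N) N N)⟩,
  ⟨.x, T0, (B (A2 (K (.ofNat 2799670267366093476))) (B N N (K (.ofNat 2627052417312681804)) (K (.ofNat 1837162951280863524))) (B (K (.negSucc 3169546200661808591)) (K (.negSucc 2416953145997057951)) N N) (B (K (.ofNat 8345544178608835272)) (K (.ofNat 1731026273369437728)) N N))⟩,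
  ⟨.x, T1, (B (A2 (K (.ofNat 1376844107188232784))) (B N N (K (.ofNat 1105744009209369408)) (K (.ofNat 2361722745298474344))) (B (K (.ofNat 9755043539583256632)) (K (.ofNat 346104024013693116)) N N) (B (K (.ofNat 643730115429905304)) (K (.negSucc 48068469140204015)) N N))⟩,
  ⟨.x, T2, (B (B (K (.ofNat 835975596887849340)) (K (.negSucc 2155381341448702987)) N N) (B (K (.negSucc 2565769202779252307)) (K (.ofNat 199145434405998600)) N N) N N)⟩,
  ⟨.z, T0, (A0 (B (K (.ofNat 5737912652133098220)) (K (.ofNat 2197396395157211480)) N N))⟩,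
  ⟨.x, T5, (A3 (K (.ofNat 144056644959770424)))⟩,
  ⟨.x, T7, (B N N (K (.ofNat 2101126796265653916)) (K (.ofNat 1391092382891300628)))⟩,
  ⟨.x, T8, (B N N (K (.ofNat 410953436198128548)) (K (.ofNat 2357556383277517224)))⟩,
  ⟨.x, T9, (A0 (K (.ofNat 1087894570720054728)))⟩,
  ⟨.x, T10, (A3 (K (.negSucc 511298028674237543)))⟩,
  ⟨.x, T11, (A1 (K (.negSucc 1372728852025012511)))⟩,
  ⟨.x, T20, (K (.negSucc 740038476379918163))⟩,
  ⟨.x, T24, (K (.negSucc 541495131334763711))⟩,
  ⟨.x, T37, (K (.negSucc 239365426098512759))⟩,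
  ⟨.x, T15, (K (.negSucc 351666626584757831))⟩,
  ⟨.x, T33, (K (.ofNat 537806967252601764))⟩,
  ⟨.z, T13, (K (.ofNat 614524644588464388))⟩] c_1100 c_1101 (.node [⟨.x, .z, (B (B (K (.ofNat 1987335024089407200)) (K (.ofNat 1069868678915319840)) N N) (B (K (.ofNat 9999322889511237012)) (K (.ofNat 510633321558238680)) N N) N N)⟩,
  ⟨.x, T0, (B (K (.negSucc 9151061005945128551)) (K (.negSucc 1421530973313033971)) N N)⟩,
  ⟨.x, T1, (B (K (.negSucc 2979701940801535211)) (K (.negSucc 2728668893426202707)) N N)⟩,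
  ⟨.x, T5, (K (.negSucc 378745067632676555))⟩,
  ⟨.x, T7, (K (.negSucc 1401820927286627087))⟩,
  ⟨.x, T8, (K (.negSucc 2875953016600191695))⟩,
  ⟨.x, T10, (K (.negSucc 461234836545749459))⟩] (.node [⟨.x, .z, (B (K (.ofNat 2088354360915132144)) (K (.negSucc 796304766563661095)) N N)⟩,
  ⟨.x, T0, (K (.negSucc 38174695774220651))⟩,
  ⟨.x, T1, (K (.ofNat 867475721378606748))⟩] (.node [⟨.x, .z, (K (.negSucc 406246275513380039))⟩] .nil .nil .nil .nil .nil .nil) (.node [⟨.x, .z, (K (.negSucc 216580953457267907))⟩] .nil .nil .nil .nil .nil .nil) .nil .nil .nil .nil) (.node [⟨.x, .z, (B (K (.negSucc 6824326313647637687)) (K (.ofNat 1881301815191484276)) N N)⟩,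
  ⟨.x, T0, (K (.negSucc 462842765077618283))⟩,
  ⟨.x, T1, (K (.negSucc 770286408968249639))⟩] (.node [⟨.x, .z, (K (.ofNat 3774678896802267612))⟩] .nil .nil .nil .nil .nil .nil) (.node [⟨.x, .z, (K (.ofNat 4019089611602787480))⟩] .nil .nil .nil .nil .nil .nil) .nil .nil .nil .nil) .nil .nil .nil .nil) (.node [⟨.x, .z, (B (B (K (.ofNat 6579410433735558204)) (K (.ofNat 717461591116665788)) N N) (B (K (.ofNat 11203698896775234540)) (K (.ofNat 5389520605629456576)) N N) N N)⟩,
  ⟨.x, T0, (B (K (.negSucc 4616207414562885047)) (K (.negSucc 4244120243159603255)) N N)⟩,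
  ⟨.x, T1, (B (K (.negSucc 6564521143431451391)) (K (.ofNat 875257482554900772)) N N)⟩,
  ⟨.x, T5, (K (.ofNat 532760540852046516))⟩,
  ⟨.x, T7, (K (.negSucc 158737468223405183))⟩,
  ⟨.x, T8, (K (.ofNat 2776497834006770916))⟩,
  ⟨.x, T10, (K (.ofNat 125822983219068852))⟩] (.node [⟨.x, .z, (B (K (.ofNat 4981175958776404584)) (K (.negSucc 2935758535777814831)) N N)⟩,
  ⟨.x, T0, (K (.ofNat 1919882455184116836))⟩,
  ⟨.x, T1, (K (.ofNat 3263648453454176400))⟩] (.node [⟨.x, .z, (K (.negSucc 2566470209953795631))⟩] .nil .nil .nil .nil .nil .nil) (.node [⟨.x, .z, (K (.negSucc 4895867775686759927))⟩] .nil .nil .nil .nil .nil .nil) .nil .nil .nil .nil) (.node [⟨.x, .z, (B (K (.ofNat 3748684712594517348)) (K (.negSucc 4296470411120787383)) N N)⟩,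
  ⟨.x, T0, (K (.ofNat 3663581386385044884))⟩,
  ⟨.x, T1, (K (.negSucc 1723063794286578803))⟩] (.node [⟨.x, .z, (K (.negSucc 523967193112013087))⟩] .nil .nil .nil .nil .nil .nil) (.node [⟨.x, .z, (K (.negSucc 3159882140597255555))⟩] .nil .nil .nil .nil .nil .nil) .nil .nil .nil .nil) .nil .nil .nil .nil) .nil .nil)

def c_1110 : Cert := (.node [⟨.x, .z, (B (A2 (K (.ofNat 6174694802436733140))) (B N N (K (.ofNat 12694462991705388096)) (K (.ofNat 4660891671118592016))) (B (K (.ofNat 5835368927086678392)) (K (.negSucc 7897620948834286679)) N N) (B (K (.ofNat 7963053783517483008)) (K (.ofNat 871124987367658392)) N N))⟩,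
  ⟨.z, .z, (B (B (K (.ofNat 1461022350080891544)) (K (.negSucc 6296691614386475981)) N N) (B (K (.negSucc 7031811992644511033)) (K (.negSucc 1600153379295184085)) N N) N N)⟩,
  ⟨.x, T0, (B N N (K (.negSucc 2072936576135307611)) (K (.negSucc 4627020884282584379)))⟩,
  ⟨.x, T1, (B N N (K (.negSucc 5321972915382920579)) (K (.negSucc 695043071643107891)))⟩,
  ⟨.x, T2, (B (K (.negSucc 5659859832388328387)) (K (.negSucc 3684545842621834823)) N N)⟩,
  ⟨.z, T0, (A0 (K (.ofNat 1650363453522366720)))⟩,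
  ⟨.x, T9, (K (.ofNat 1707886646975306352))⟩,
  ⟨.x, T11, (K (.ofNat 572762851760462712))⟩] (.node [⟨.x, .z, (B N N (K (.ofNat 3302714890158219160)) (K (.ofNat 1583764278054169016)))⟩,
  ⟨.z, .z, (B (K (.ofNat 626037723037991552)) (K (.negSucc 390527664265266241)) N N)⟩,
  ⟨.x, T2, (K (.negSucc 257338431330834751))⟩,
  ⟨.z, T0, (K (.ofNat 2414109550964574812))⟩] (.node [⟨.z, .z, (K (.negSucc 1089686456583583877))⟩] .nil .nil .nil .nil .nil .nil) (.node [⟨.z, .z, (K (.negSucc 3221105001599264857))⟩] .nil .nil .nil .nil .nil .nil) (.node [⟨.x, .z, (K (.negSucc 688736437299125975))⟩] .nil .nil .nil .nil .nil .nil) (.node [⟨.x, .z, (K (.ofNat 205317662152317320))⟩] .nil .nil .nil .nil .nil .nil) .nil .nil) (.node [⟨.x, .z, (B N N (K (.ofNat 2056878764118764738)) (K (.ofNat 4843929084829615072)))⟩,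
  ⟨.z, .z, (B (K (.negSucc 4462733040600639550)) (K (.ofNat 2352986627785645733)) N N)⟩,
  ⟨.x, T2, (K (.negSucc 3331209492187089273))⟩,
  ⟨.z, T0, (K (.negSucc 2118493032689061823))⟩] (.node [⟨.z, .z, (K (.negSucc 825135242552855108))⟩] .nil .nil .nil .nil .nil .nil) (.node [⟨.z, .z, (K (.ofNat 1499171701351632671))⟩] .nil .nil .nil .nil .nil .nil) (.node [⟨.x, .z, (K (.negSucc 7495215624062312891))⟩] .nil .nil .nil .nil .nil .nil) (.node [⟨.x, .z, (K (.ofNat 2448871370044651204))⟩] .nil .nil .nil .nil .nil .nil) .nil .nil) (.node [⟨.x, .z, (B (K (.negSucc 709763583164547827)) (K (.negSucc 3095273464885687403)) N N)⟩,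
  ⟨.x, T0, (K (.ofNat 4743779151879433584))⟩,
  ⟨.x, T1, (K (.negSucc 527030448658457423))⟩] (.node [⟨.x, .z, (K (.negSucc 4605146044599875))⟩] .nil .nil .nil .nil .nil .nil) (.node [⟨.x, .z, (K (.ofNat 5576624531611461432))⟩] .nil .nil .nil .nil .nil .nil) .nil .nil .nil .nil) (.node [⟨.x, .z, (B (K (.negSucc 1573275967345389551)) (K (.negSucc 2711220020905865627)) N N)⟩,
  ⟨.x, T0, (K (.ofNat 444747161313004764))⟩,
  ⟨.x, T1, (K (.ofNat 4632428022970004640))⟩] (.node [⟨.x, .z, (K (.negSucc 7329103693206347447))⟩] .nil .nil .nil .nil .nil .nil) (.node [⟨.x, .z, (K (.negSucc 1120900869146258687))⟩] .nil .nil .nil .nil .nil .nil) .nil .nil .nil .nil) .nil .nil)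

def c_1111 : Cert := (.node [⟨.x, .z, (B (A2 (K (.ofNat 1296841501839760068))) (B N N (K (.ofNat 2621008846956232788)) (K (.ofNat 1518435942971194920))) (B (K (.ofNat 2101943323169493476)) (K (.negSucc 923997529719870815)) N N) (B (K (.ofNat 7547101809731370712)) (K (.negSucc 1460697944843130563)) N N))⟩,
  ⟨.z, .z, (B (B (K (.ofNat 2444594491586662656)) (K (.negSucc 1194317577358251751)) N N) (B (K (.ofNat 2530910490769258976)) (K (.negSucc 1689056306904175541)) N N) N N)⟩,
  ⟨.x, T0, (B N N (K (.negSucc 1411143089271466679)) (K (.negSucc 1308747203383998155)))⟩,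
  ⟨.x, T1, (B N N (K (.negSucc 1090577720502751931)) (K (.ofNat 485124353322980412)))⟩,
  ⟨.x, T2, (B (K (.negSucc 6833479690676482611)) (K (.negSucc 1149848530877275331)) N N)⟩,
  ⟨.z, T0, (A0 (K (.negSucc 3147905041539671167)))⟩,
  ⟨.x, T9, (K (.ofNat 1529050994245406784))⟩,
  ⟨.x, T11, (K (.ofNat 1167374199805586448))⟩] (.node [⟨.x, .z, (B N N (K (.ofNat 17114481753841156)) (K (.ofNat 1132586556493459040)))⟩,
  ⟨.z, .z, (B (K (.negSucc 24162280094838135)) (K (.ofNat 452886397929434104)) N N)⟩,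
  ⟨.x, T2, (K (.ofNat 987624002038579840))⟩,
  ⟨.z, T0, (K (.ofNat 848085715046386844))⟩] (.node [⟨.z, .z, (K (.negSucc 1334704283233958351))⟩] .nil .nil .nil .nil .nil .nil) (.node [⟨.z, .z, (K (.negSucc 1777471835501808463))⟩] .nil .nil .nil .nil .nil .nil) (.node [⟨.x, .z, (K (.negSucc 1799230975264497707))⟩] .nil .nil .nil .nil .nil .nil) (.node [⟨.x, .z, (K (.negSucc 2942725275579067407))⟩] .nil .nil .nil .nil .nil .nil) .nil .nil) (.node [⟨.x, .z, (B N N (K (.ofNat 239794938974203264)) (K (.ofNat 2444999780797617464)))⟩,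
  ⟨.z, .z, (B (K (.ofNat 2348115176442166522)) (K (.ofNat 534014780530218388)) N N)⟩,
  ⟨.x, T2, (K (.negSucc 892867818522196459))⟩,
  ⟨.z, T0, (K (.negSucc 1039619388906048483))⟩] (.node [⟨.z, .z, (K (.negSucc 910558382948184221))⟩] .nil .nil .nil .nil .nil .nil) (.node [⟨.z, .z, (K (.ofNat 138092675847954124))⟩] .nil .nil .nil .nil .nil .nil) (.node [⟨.x, .z, (K (.negSucc 2622861012899545787))⟩] .nil .nil .nil .nil .nil .nil) (.node [⟨.x, .z, (K (.ofNat 892867818522196460))⟩] .nil .nil .nil .nil .nil .nil) .nil .nil) (.node [⟨.x, .z, (B (K (.negSucc 5510282362305739379)) (K (.ofNat 7244113266363726060)) N N)⟩,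
  ⟨.x, T0, (K (.negSucc 1351724831986827371))⟩,
  ⟨.x, T1, (K (.negSucc 3166103182035386243))⟩] (.node [⟨.x, .z, (K (.ofNat 3114782343432573600))⟩] .nil .nil .nil .nil .nil .nil) (.node [⟨.x, .z, (K (.ofNat 2315840270133593892))⟩] .nil .nil .nil .nil .nil .nil) .nil .nil .nil .nil) (.node [⟨.x, .z, (B (K (.ofNat 6211770368275735240)) (K (.ofNat 214628739295316760)) N N)⟩,
  ⟨.x, T0, (K (.negSucc 1529050994245406783))⟩,
  ⟨.x, T1, (K (.ofNat 621709322400747372))⟩] (.node [⟨.x, .z, (K (.negSucc 187890534085765139))⟩] .nil .nil .nil .nil .nil .nil) (.node [⟨.x, .z, (K (.ofNat 1167374199805586448))⟩] .nil .nil .nil .nil .nil .nil) .nil .nil .nil .nil) .nil .nil)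

def c_111 : Cert := (.node [⟨.x, .z, (B (B (A2 (K (.negSucc 412679474813289611))) N (B (K (.ofNat 9807383375553739320)) (K (.negSucc 1040807236747396403)) N N) N) (B (A2 (K (.ofNat 1443857753688834084))) (B N N (K (.negSucc 270064312904195759)) (K (.negSucc 985067358405055487))) (B (K (.ofNat 19101902577908095008)) (K (.negSucc 7290162741008617355)) N N) (B (K (.ofNat 8155245722802104616)) (K (.negSucc 2781961207852831163)) N N)) (B (B (K (.ofNat 6046885772277903776)) (K (.ofNat 2343842017203011260)) N N) (B (K (.negSucc 7590575037621969035)) (K (.ofNat 4785152827018360116)) N N) N N) (B (B (K (.ofNat 10379770437884574316)) (K (.negSucc 333004337932716771)) N N) (B (K (.ofNat 9104643598207963332)) (K (.negSucc 2622809443610784995)) N N) N N))⟩,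
  ⟨.z, .z, (B (B (B (K (.negSucc 1877898465723396743)) (K (.ofNat 3082178762786920398)) N N) (B (K (.negSucc 4299631042580426903)) (K (.ofNat 1597881793802149144)) N N) N N) (B (B (K (.negSucc 4479524993194241421)) (K (.ofNat 4703866922336582524)) N N) (B (K (.ofNat 294556640324066544)) (K (.ofNat 1384381077437233752)) N N) N N) N N)⟩,
  ⟨.x, T0, (B (A2 (K (.ofNat 602919527567228856))) (B N N (K (.ofNat 1357921072815135816)) (K (.ofNat 197000929126230072))) (B (K (.ofNat 15966059932499316)) (K (.negSucc 1521443342117584259)) N N) (B (K (.negSucc 7325706483893702639)) (K (.ofNat 1965273342631914312)) N N))⟩,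
  ⟨.x, T1, (B (A2 (K (.negSucc 13340879235410267))) (B N N (K (.negSucc 2324054661565600355)) (K (.negSucc 2809505722471644611))) (B (K (.negSucc 10005069497925794567)) (K (.ofNat 5150137322965330308)) N N) (B (K (.negSucc 594196190937647219)) (K (.negSucc 46951062550971839)) N N))⟩,
  ⟨.x, T2, (B (B (K (.negSucc 11760919906557239295)) (K (.negSucc 232097720827268503)) N N) (B (K (.negSucc 8819649938102787827)) (K (.ofNat 2117319117528961572)) N N) N N)⟩,
  ⟨.z, T0, (A0 (B (K (.negSucc 5914619350212578023)) (K (.negSucc 505992203049660423)) N N))⟩,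
  ⟨.x, T5, (A3 (K (.ofNat 152377075504178508)))⟩,
  ⟨.x, T7, (B N N (K (.ofNat 358378731089536896)) (K (.negSucc 687423974479303775)))⟩,
  ⟨.x, T8, (B N N (K (.negSucc 375599218683549467)) (K (.negSucc 1950302775522884351)))⟩,
  ⟨.x, T9, (A0 (K (.negSucc 200585215933242503)))⟩,
  ⟨.x, T10, (A3 (K (.negSucc 1156450596838814735)))⟩,
  ⟨.x, T11, (A1 (K (.negSucc 101444384165395967)))⟩,
  ⟨.x, T20, (K (.negSucc 184733009169932051))⟩,
  ⟨.x, T24, (K (.ofNat 131767945572810468))⟩,
  ⟨.x, T37, (K (.negSucc 263251755978283319))⟩,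
  ⟨.x, T15, (K (.negSucc 289138822613340083))⟩,
  ⟨.x, T33, (K (.ofNat 313510469181211200))⟩,
  ⟨.z, T13, (K (.ofNat 175154164105513068))⟩] c_1110 c_1111 (.node [⟨.x, .z, (B (B (K (.negSucc 4319520882782894231)) (K (.negSucc 9379423409446940951)) N N) (B (K (.negSucc 18314993099245288967)) (K (.negSucc 1030578183503323883)) N N) N N)⟩,
  ⟨.x, T0, (B (K (.ofNat 8358853865239594404)) (K (.ofNat 2251068001416781476)) N N)⟩,
  ⟨.x, T1, (B (K (.negSucc 3485254621171223075)) (K (.ofNat 78486103133589624)) N N)⟩,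
  ⟨.x, T5, (K (.ofNat 208446585972511572))⟩,
  ⟨.x, T7, (K (.ofNat 957468322014803316))⟩,
  ⟨.x, T8, (K (.negSucc 1575022233572947859))⟩,
  ⟨.x, T10, (K (.negSucc 576669915296235131))⟩] (.node [⟨.x, .z, (B (K (.ofNat 3873678272858297964)) (K (.negSucc 4015559343951270443)) N N)⟩,
  ⟨.x, T0, (K (.ofNat 50096280927995748))⟩,
  ⟨.x, T1, (K (.ofNat 996176944307574504))⟩] (.node [⟨.x, .z, (K (.negSucc 107820901454449343))⟩] .nil .nil .nil .nil .nil .nil) (.node [⟨.x, .z, (K (.ofNat 2223102522551123820))⟩] .nil .nil .nil .nil .nil .nil) .nil .nil .nil .nil) (.node [⟨.x, .z, (B (K (.ofNat 7184359291492562016)) (K (.negSucc 5014014240107654891)) N N)⟩,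
  ⟨.x, T0, (K (.ofNat 510323017981990512))⟩,
  ⟨.x, T1, (K (.ofNat 1800119486215265268))⟩] (.node [⟨.x, .z, (K (.ofNat 487284463366440612))⟩] .nil .nil .nil .nil .nil .nil) (.node [⟨.x, .z, (K (.ofNat 1024242196471429404))⟩] .nil .nil .nil .nil .nil .nil) .nil .nil .nil .nil) .nil .nil .nil .nil) (.node [⟨.x, .z, (B (B (K (.ofNat 1649403412869439012)) (K (.ofNat 3425780463718481096)) N N) (B (K (.negSucc 744419538275834867)) (K (.ofNat 387415972002737604)) N N) N N)⟩,
  ⟨.x, T0, (B (K (.ofNat 100302221015132940)) (K (.ofNat 133653553209856824)) N N)⟩,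
  ⟨.x, T1, (B (K (.ofNat 9977862940477943460)) (K (.negSucc 3327336296101069415)) N N)⟩,
  ⟨.x, T5, (K (.ofNat 233936548127966388))⟩,
  ⟨.x, T7, (K (.negSucc 49203538958034335))⟩,
  ⟨.x, T8, (K (.negSucc 305297837935765631))⟩,
  ⟨.x, T10, (K (.negSucc 133653553209856823))⟩] (.node [⟨.x, .z, (B (K (.negSucc 5904195644639459003)) (K (.ofNat 5214060352858209864)) N N)⟩,
  ⟨.x, T0, (K (.negSucc 1298433450851959763))⟩,
  ⟨.x, T1, (K (.negSucc 1813296434080933595))⟩] (.node [⟨.x, .z, (K (.ofNat 3415093899260525520))⟩] .nil .nil .nil .nil .nil .nil) (.node [⟨.x, .z, (K (.ofNat 2968982256130058028))⟩] .nil .nil .nil .nil .nil .nil) .nil .nil .nil .nil) (.node [⟨.x, .z, (B (K (.negSucc 411181252317310691)) (K (.negSucc 207327798546941027)) N N)⟩,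
  ⟨.x, T0, (K (.ofNat 39876339153098340))⟩,
  ⟨.x, T1, (K (.ofNat 553047436772613084))⟩] (.node [⟨.x, .z, (K (.ofNat 1178022328033411188))⟩] .nil .nil .nil .nil .nil .nil) (.node [⟨.x, .z, (K (.ofNat 220019601981513804))⟩] .nil .nil .nil .nil .nil .nil) .nil .nil .nil .nil) .nil .nil .nil .nil) .nil .nil)

def c_112 : Cert := (.node [⟨.x, .z, (B (B (B (K (.negSucc 29181918622390566983)) (K (.negSucc 20662082035130374307)) N N) (B (K (.negSucc 23806509306455547629)) (K (.ofNat 19174933658227408398)) N N) N N) (B (B (K (.negSucc 50500054261299758531)) (K (.negSucc 24154290772067262263)) N N) (B (K (.negSucc 22779722198840652875)) (K (.ofNat 54505940113239983784)) N N) N N) N N)⟩,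
  ⟨.x, T0, (B (B (K (.ofNat 9558532080660652644)) (K (.ofNat 42187447129705005774)) N N) (B (K (.ofNat 4805038237506136020)) (K (.negSucc 8941491622454628311)) N N) N N)⟩,
  ⟨.x, T1, (B (B (K (.ofNat 15843901275276408576)) (K (.ofNat 5667052190896698186)) N N) (B (K (.ofNat 23911127460232623762)) (K (.negSucc 2178554446440163805)) N N) N N)⟩,
  ⟨.x, T4, (B N N (K (.ofNat 6131609951043983166)) (K (.negSucc 4407969519582303095)))⟩,
  ⟨.x, T5, (A1 (K (.negSucc 20271080908015300439)))⟩,
  ⟨.x, T6, (B N N (K (.negSucc 8798523779608962197)) (K (.ofNat 7118948635833967476)))⟩,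
  ⟨.x, T7, (B (K (.ofNat 18075520528308705936)) (K (.ofNat 35026194362662223556)) N N)⟩,
  ⟨.x, T8, (B (K (.negSucc 1925031891372118361)) (K (.ofNat 12774351377950049742)) N N)⟩,
  ⟨.x, T10, (A1 (K (.negSucc 24218908570480207385)))⟩,
  ⟨.x, T29, (K (.ofNat 16830071878691380440))⟩,
  ⟨.x, T13, (K (.negSucc 302068943470336883))⟩,
  ⟨.x, T14, (K (.negSucc 362350738801874867))⟩,
  ⟨.x, T30, (K (.ofNat 9919328406492369642))⟩,
  ⟨.x, T31, (K (.negSucc 2619115612160636435))⟩,
  ⟨.x, T32, (K (.ofNat 11659718777735137188))⟩] (.node [⟨.x, .z, (B (B (K (.negSucc 24626514015137644715)) (K (.negSucc 206755167069818327)) N N) (B (K (.negSucc 20940769589500405595)) (K (.ofNat 72405377012067834420)) N N) N N)⟩,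
  ⟨.x, T0, (B (K (.ofNat 31516256613100428924)) (K (.negSucc 41386902835466208695)) N N)⟩,
  ⟨.x, T1, (B (K (.negSucc 11578876360910000339)) (K (.negSucc 3382771336160640575)) N N)⟩,
  ⟨.x, T5, (K (.ofNat 2360834744208209088))⟩,
  ⟨.x, T7, (K (.ofNat 28217619499008981912))⟩,
  ⟨.x, T8, (K (.negSucc 3299332608131320319))⟩,
  ⟨.x, T10, (K (.negSucc 2806490913511631459))⟩] (.node [⟨.x, .z, (B (K (.ofNat 13987072516017769500)) (K (.ofNat 47206187852091718992)) N N)⟩,
  ⟨.x, T0, (K (.negSucc 24157652032458060023))⟩,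
  ⟨.x, T1, (K (.negSucc 20528905266271048859))⟩] (.node [⟨.x, .z, (K (.ofNat 14255268671471810364))⟩] .nil .nil .nil .nil .nil .nil) (.node [⟨.x, .z, (K (.ofNat 3221089787745296364))⟩] .nil .nil .nil .nil .nil .nil) .nil .nil .nil .nil) (.node [⟨.x, .z, (B (K (.ofNat 2547159201333727998)) (K (.negSucc 18174942208945128095)) N N)⟩,
  ⟨.x, T0, (K (.negSucc 10172772175783815683))⟩,
  ⟨.x, T1, (K (.ofNat 6983743093806575970))⟩] (.node [⟨.x, .z, (K (.ofNat 3671572653329251992))⟩] .nil .nil .nil .nil .nil .nil) (.node [⟨.x, .z, (K (.negSucc 10250037406223710871))⟩] .nil .nil .nil .nil .nil .nil) .nil .nil .nil .nil) .nil .nil .nil .nil) (.node [⟨.x, .z, (B (B (K (.negSucc 6913653507153305669)) (K (.ofNat 16023000694403910738)) N N) (B (K (.ofNat 13811641267364723124)) (K (.ofNat 475049387042367120)) N N) N N)⟩,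
  ⟨.x, T0, (B (K (.ofNat 15742604236589071116)) (K (.negSucc 17814672970607023523)) N N)⟩,
  ⟨.x, T1, (B (K (.negSucc 8317671701339867717)) (K (.ofNat 31636318855317727254)) N N)⟩,
  ⟨.x, T5, (K (.negSucc 4864550271529224671))⟩,
  ⟨.x, T7, (K (.ofNat 21201434279141176788))⟩,
  ⟨.x, T8, (K (.ofNat 11314083756446814684))⟩,
  ⟨.x, T10, (K (.negSucc 2675812112308426607))⟩] (.node [⟨.x, .z, (B (K (.ofNat 3306068921097233934)) (K (.ofNat 3641708149506567420)) N N)⟩,
  ⟨.x, T0, (K (.negSucc 21606104581184707499))⟩,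
  ⟨.x, T1, (K (.negSucc 4762796808411456341))⟩] (.node [⟨.x, .z, (K (.ofNat 2721587534923361484))⟩] .nil .nil .nil .nil .nil .nil) (.node [⟨.x, .z, (K (.negSucc 20084301279801713519))⟩] .nil .nil .nil .nil .nil .nil) .nil .nil .nil .nil) (.node [⟨.x, .z, (B (K (.ofNat 1168149676770624714)) (K (.negSucc 54611456028406881251)) N N)⟩,
  ⟨.x, T0, (K (.ofNat 14110947227954214024))⟩,
  ⟨.x, T1, (K (.ofNat 3873205477416189606))⟩] (.node [⟨.x, .z, (K (.negSucc 19847651854275394847))⟩] .nil .nil .nil .nil .nil .nil) (.node [⟨.x, .z, (K (.negSucc 22719370412203243943))⟩] .nil .nil .nil .nil .nil .nil) .nil .nil .nil .nil) .nil .nil .nil .nil) (.node [⟨.x, T4, (K (.negSucc 4355457827087319491))⟩,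
  ⟨.x, T6, (K (.negSucc 14640156861536502737))⟩] .nil .nil .nil .nil .nil .nil) (.node [⟨.x, T4, (K (.negSucc 5849680275913955485))⟩,
  ⟨.x, T6, (K (.negSucc 17852789848408637425))⟩] .nil .nil .nil .nil .nil .nil) .nil .nil)

def c_113 : Cert := (.node [⟨.x, .z, (B (B (B (K (.negSucc 431395263665777215)) (K (.ofNat 1400635148712890588)) N N) (B (K (.negSucc 1965088366708880585)) (K (.negSucc 1323008995614735345)) N N) N N) (B (B (K (.negSucc 2034898437726081671)) (K (.ofNat 1069372830133616292)) N N) (B (K (.negSucc 1969905297366329255)) (K (.ofNat 1720555774970847108)) N N) N N) N N)⟩,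
  ⟨.x, T0, (B (B (K (.ofNat 42651966636000048)) (K (.negSucc 1343220998970899609)) N N) (B (K (.ofNat 585306562999001520)) (K (.negSucc 725239407206527463)) N N) N N)⟩,
  ⟨.x, T1, (B (B (K (.ofNat 8845901792683127412)) (K (.ofNat 6137331930439696230)) N N) (B (K (.ofNat 12023962175462322114)) (K (.negSucc 19897109876033453)) N N) N N)⟩,
  ⟨.x, T4, (B N N (K (.negSucc 51175304329095419)) (K (.ofNat 192435512249735772)))⟩,
  ⟨.x, T5, (A1 (K (.ofNat 158301901774451952)))⟩,
  ⟨.x, T6, (B N N (K (.negSucc 234873061779695267)) (K (.ofNat 461346009247244988)))⟩,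
  ⟨.x, T7, (B (K (.ofNat 140917726149341292)) (K (.ofNat 113302755183974820)) N N)⟩,
  ⟨.x, T8, (B (K (.ofNat 286972246132429746)) (K (.ofNat 465731151329535210)) N N)⟩,
  ⟨.x, T10, (A1 (K (.ofNat 849831057179578962)))⟩,
  ⟨.x, T29, (K (.negSucc 104394048666119999))⟩,
  ⟨.x, T13, (K (.ofNat 233537679959287548))⟩,
  ⟨.x, T14, (K (.negSucc 98440513126928687))⟩,
  ⟨.x, T30, (K (.negSucc 334403786086535309))⟩,
  ⟨.x, T31, (K (.ofNat 4921069427977524))⟩,
  ⟨.x, T32, (K (.ofNat 66713590272920484))⟩] (.node [⟨.x, .z, (B (B (K (.negSucc 7444895043759815711)) (K (.negSucc 5124810686810236559)) N N) (B (K (.negSucc 8674896736574492615)) (K (.negSucc 2297535938050108847)) N N) N N)⟩,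
  ⟨.x, T0, (B (K (.negSucc 725101048111162403)) (K (.ofNat 4149489736932565860)) N N)⟩,
  ⟨.x, T1, (B (K (.negSucc 1925910168703598507)) (K (.negSucc 1446647213998559315)) N N)⟩,
  ⟨.x, T5, (K (.ofNat 925979900423844420))⟩,
  ⟨.x, T7, (K (.ofNat 350650929214641048))⟩,
  ⟨.x, T8, (K (.negSucc 2475150947884977299))⟩,
  ⟨.x, T10, (K (.negSucc 227983615847879447))⟩] (.node [⟨.x, .z, (B (K (.ofNat 1800616906818192156)) (K (.negSucc 3150658057023695075)) N N)⟩,
  ⟨.x, T0, (K (.ofNat 1012600844180083680))⟩,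
  ⟨.x, T1, (K (.ofNat 254166859922301528))⟩] (.node [⟨.x, .z, (K (.negSucc 443864228149304447))⟩] .nil .nil .nil .nil .nil .nil) (.node [⟨.x, .z, (K (.ofNat 1546696561511488704))⟩] .nil .nil .nil .nil .nil .nil) .nil .nil .nil .nil) (.node [⟨.x, .z, (B (K (.negSucc 1948928156021740745)) (K (.ofNat 361642283717919972)) N N)⟩,
  ⟨.x, T0, (K (.negSucc 1689591812144153399))⟩,
  ⟨.x, T1, (K (.ofNat 2115675351083401794))⟩] (.node [⟨.x, .z, (K (.ofNat 938204388061038060))⟩] .nil .nil .nil .nil .nil .nil) (.node [⟨.x, .z, (K (.ofNat 1955528306663506908))⟩] .nil .nil .nil .nil .nil .nil) .nil .nil .nil .nil) .nil .nil .nil .nil) (.node [⟨.x, .z, (B (B (K (.negSucc 1130968314150162557)) (K (.ofNat 1663063902345603198)) N N) (B (K (.negSucc 904804134931824587)) (K (.ofNat 754806539173848060)) N N) N N)⟩,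
  ⟨.x, T0, (B (K (.negSucc 697540778277458483)) (K (.ofNat 121293915113217372)) N N)⟩,
  ⟨.x, T1, (B (K (.ofNat 1943515677405055986)) (K (.negSucc 1392501550205453309)) N N)⟩,
  ⟨.x, T5, (K (.ofNat 124210158188963028))⟩,
  ⟨.x, T7, (K (.negSucc 274058677642437803))⟩,
  ⟨.x, T8, (K (.ofNat 107939434704764976))⟩,
  ⟨.x, T10, (K (.ofNat 262805990736826380))⟩] (.node [⟨.x, .z, (B (K (.negSucc 1167559889555512205)) (K (.negSucc 506803700406046043)) N N)⟩,
  ⟨.x, T0, (K (.negSucc 30917405012784371))⟩,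
  ⟨.x, T1, (K (.ofNat 798934623275608386))⟩] (.node [⟨.x, .z, (K (.negSucc 147555305906608943))⟩] .nil .nil .nil .nil .nil .nil) (.node [⟨.x, .z, (K (.ofNat 215741219766699216))⟩] .nil .nil .nil .nil .nil .nil) .nil .nil .nil .nil) (.node [⟨.x, .z, (B (K (.negSucc 613241586765499145)) (K (.negSucc 311044327189964123)) N N)⟩,
  ⟨.x, T0, (K (.negSucc 126377155066132115))⟩,
  ⟨.x, T1, (K (.ofNat 531675058177997766))⟩] (.node [⟨.x, .z, (K (.negSucc 195740820900260159))⟩] .nil .nil .nil .nil .nil .nil) (.node [⟨.x, .z, (K (.negSucc 131039276986480655))⟩] .nil .nil .nil .nil .nil .nil) .nil .nil .nil .nil) .nil .nil .nil .nil) (.node [⟨.x, T4, (K (.negSucc 3318377999847009525))⟩,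
  ⟨.x, T6, (K (.ofNat 6504637900350647420))⟩] .nil .nil .nil .nil .nil .nil) (.node [⟨.x, T4, (K (.ofNat 67519084859538474))⟩,
  ⟨.x, T6, (K (.ofNat 277331220973022286))⟩] .nil .nil .nil .nil .nil .nil) .nil .nil)

def c_11 : Cert := (.node [⟨.x, .z, (B (B (B (A2 (K (.negSucc 200928101571152999))) N (A0 (K (.ofNat 782883785699498952))) N) N (B (B (K (.ofNat 8753916243837560916)) (K (.ofNat 4279081620652981164)) N N) (B (K (.ofNat 13118307764286039024)) (K (.negSucc 2409663662665305179)) N N) N N) N) (B (B (A2 (K (.negSucc 1616484693033834707))) N (B (K (.ofNat 3219569847306636816)) (K (.negSucc 2951304487582782923)) N N) N) (B (A2 (K (.ofNat 1371773394717898068))) (B N N (K (.ofNat 724735364361489852)) (K (.negSucc 132964292923706675))) (B (K (.ofNat 4927561646342353836)) (K (.negSucc 5101328426531462015)) N N) (B (K (.negSucc 108186826870992023)) (K (.negSucc 606880808588736599)) N N)) (B (B (K (.ofNat 16346322590430329280)) (K (.ofNat 6594492099280865436)) N N)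 (B (K (.ofNat 15464402076749232696)) (K (.ofNat 2522000054167264164)) N N) N N) (B (B (K (.ofNat 7493357082864207324)) (K (.ofNat 4127089179769303152)) N N) (B (K (.ofNat 9165769259885429652)) (K (.negSucc 1239081798219649091)) N N) N N)) (B (B (B (K (.ofNat 3953407810529425364)) (K (.ofNat 3070629972499378540)) N N) (B (K (.ofNat 6032879688553718508)) (K (.negSucc 1351124079038217283)) N N) N N) (B (B (K (.negSucc 7153355087111701883)) (K (.negSucc 310389322336096571)) N N) (B (K (.negSucc 9508646027415250547)) (K (.ofNat 2631299290658902536)) N N) N N) N N) (B (B (B (K (.ofNat 8314623127130609308)) (K (.ofNat 6866394728853151616)) N N) (B (K (.ofNat 9267627752210306880)) (K (.negSucc 161537703275631747)) N N) N N) (B (B (K (.ofNat 7087239599996661888)) (K (.ofNat 8208248614087733400)) N N) (B (K (.ofNat 11698261696591749696)) (K (.negSucc 425347194263352059)) N N) N N) N N))⟩,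
  ⟨.z, .z, (B (B (B (A0 (K (.negSucc 2685431818534633109))) (A1 (K (.ofNat 3077110333142906706))) N N) (B (B (K (.negSucc 9155181684326746345)) (K (.negSucc 6704563503943694159)) N N) (B (K (.negSucc 9790387621599531205)) (K (.ofNat 3485013331024597348)) N N) N N) N N) (B (B (B (K (.negSucc 10586624908730599595)) (K (.negSucc 5686521938872384105)) N N) (B (K (.negSucc 9769940196495668949)) (K (.ofNat 4189631202004199062)) N N) N N) (B (B (K (.negSucc 7168760147163527719)) (K (.negSucc 6616494837097903823)) N N) (B (K (.negSucc 8901364832197367089)) (K (.negSucc 133098073864248431)) N N) N N) N N) N N)⟩,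
  ⟨.x, T0, (B (B (A2 (K (.negSucc 140195470490346311))) N (B (K (.ofNat 1166729896727255412)) (K (.negSucc 50365075647200207)) N N) N) (B (A2 (K (.negSucc 640928140272722975))) (B N N (K (.ofNat 9298449370616964)) (K (.ofNat 16166903809963836))) (B (K (.ofNat 319729653532963812)) (K (.negSucc 269673193514687099)) N N) (B (K (.negSucc 690613585819780511)) (K (.ofNat 993329937026837760)) N N)) (B (B (K (.negSucc 207580877607438767)) (K (.ofNat 88318506245436168)) N N) (B (K (.ofNat 1721469596076944796)) (K (.negSucc 771077244994674467)) N N) N N) (B (B (K (.negSucc 7414324585044586319)) (K (.negSucc 6094871268552936419)) N N) (B (K (.negSucc 11034441554823660851)) (K (.ofNat 1612587562970532396)) N N) N N))⟩,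
  ⟨.x, T1, (B (B (A2 (K (.ofNat 460434639395364))) N (B (K (.negSucc 1646031151587380723)) (K (.ofNat 959362141155354324)) N N) N) (B (A2 (K (.negSucc 852183527257617587))) (B N N (K (.negSucc 1791522602868775103)) (K (.negSucc 186318462992889587))) (B (K (.negSucc 1674166092092300267)) (K (.ofNat 1869309014347683672)) N N) (B (K (.negSucc 1407613957328828159)) (K (.ofNat 1157458369139293308)) N N)) (B (B (K (.negSucc 8790473178824497643)) (K (.negSucc 5849100608431900643)) N N) (B (K (.negSucc 10729640269052275127)) (K (.negSucc 267302914626816239)) N N) N N) (B (B (K (.negSucc 691121377949363015)) (K (.negSucc 658989755249531963)) N N) (A0 (K (.negSucc 658997841270316091))) N N))⟩,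
  ⟨.x, T2, (B (B (B (K (.negSucc 8486141188718248203)) (K (.negSucc 6894808851392982811)) N N) (B (K (.negSucc 9853982742067935239)) (K (.ofNat 1718374137436757980)) N N) N N) (B (B (K (.negSucc 7092450150771427559)) (K (.negSucc 6563129736303956351)) N N) (B (K (.negSucc 10448965878001723799)) (K (.negSucc 521683502110589939)) N N) N N) N N)⟩,
  ⟨.z, T0, (A0 (B (B (K (.negSucc 3954009312605857831)) (K (.negSucc 2962091864020768659)) N N) (B (K (.negSucc 6214778170516336559)) (K (.ofNat 2188454623999079924)) N N) N N))⟩,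
  ⟨.x, T4, (B N N (A2 (K (.ofNat 3420321755890224))) (B N N (K (.negSucc 231364850267575067)) (K (.ofNat 3990379419749316))))⟩,
  ⟨.x, T5, (B N (A3 (K (.ofNat 118077106117408740))) N (A1 (K (.ofNat 153817474491465192))))⟩,
  ⟨.x, T6, (B N N (A2 (K (.ofNat 233314062367911360))) (B N N (K (.ofNat 505450509266575080)) (K (.negSucc 640446873534439823))))⟩,
  ⟨.x, T7, (B (A2 (K (.negSucc 254588160406140107))) (B N N (K (.negSucc 212143371593909339)) (K (.negSucc 10783590726440891))) (B (K (.ofNat 827196433604923812)) (K (.ofNat 252430907405542104)) N N) (B (K (.negSucc 586668838154376455)) (K (.ofNat 167669593994534100)) N N))⟩,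
  ⟨.x, T8, (B (A2 (K (.negSucc 578618295128092847))) (B N N (K (.negSucc 574232811307080947)) (K (.ofNat 550836643846431720))) (B (K (.ofNat 17803079750025360)) (K (.ofNat 113106936052074372)) N N) (B (K (.negSucc 1397163884188647131)) (K (.ofNat 783592469758295604)) N N))⟩,
  ⟨.x, T9, (A0 (B (K (.ofNat 578724065582965008)) (K (.ofNat 746651936122349940)) N N))⟩,
  ⟨.x, T10, (B N (B N N (K (.negSucc 300706342060907495)) (K (.ofNat 10768281442050228))) N (A1 (K (.ofNat 24048609718162680))))⟩,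
  ⟨.x, T11, (A1 (B (K (.ofNat 290485754034876000)) (K (.negSucc 836541423795022883)) N N))⟩,
  ⟨.x, T29, (A3 (K (.negSucc 188788134923611319)))⟩,
  ⟨.x, T13, (B N N (K (.ofNat 376060108813215180)) (K (.negSucc 42470912288845043)))⟩,
  ⟨.x, T14, (B N N (K (.ofNat 309534872653475328)) (K (.negSucc 465347406715815071)))⟩,
  ⟨.x, T20, (A0 (K (.ofNat 371143187975526240)))⟩,
  ⟨.x, T30, (A2 (K (.negSucc 232874925409560959)))⟩,
  ⟨.x, T24, (A0 (K (.negSucc 244137812594375495)))⟩,
  ⟨.x, T31, (A3 (K (.ofNat 23651158145416152)))⟩,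
  ⟨.x, T37, (A1 (K (.negSucc 90675017356305863)))⟩,
  ⟨.x, T32, (A3 (K (.negSucc 12347978512140323)))⟩,
  ⟨.x, T15, (B (K (.negSucc 372954973560088427)) (K (.negSucc 225412713803909879)) N N)⟩,
  ⟨.x, T33, (A1 (K (.ofNat 396777336681344784)))⟩,
  ⟨.z, T13, (A0 (K (.ofNat 514533548341237932)))⟩,
  ⟨.x, T21, (K (.negSucc 683806073239212119))⟩,
  ⟨.x, T25, (K (.negSucc 113200527171489047))⟩,
  ⟨.x, T38, (K (.ofNat 387563861074877100))⟩,
  ⟨.x, T39, (K (.ofNat 76802601969471024))⟩,
  ⟨.x, T41, (K (.ofNat 67931168277121056))⟩,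
  ⟨.x, T36, (K (.negSucc 149824783904065523))⟩,
  ⟨.x, T42, (K (.negSucc 300382947923614199))⟩,
  ⟨.z, T16, (K (.ofNat 158876769629303028))⟩,
  ⟨.z, T18, (K (.ofNat 317802700102046184))⟩] c_110 c_111 c_112 c_113 .nil .nil)

def c_120 : Cert := (.node [⟨.x, .z, (B (B (B (K (.ofNat 3713385341929324752)) (K (.negSucc 19151042868515051807)) N N) (B (K (.negSucc 1308969716997646571)) (K (.negSucc 3486122833454987579)) N N) N N) (B (B (K (.ofNat 8620362927937936524)) (K (.ofNat 429754836597132636)) N N) (B (K (.negSucc 6318306278173486283)) (K (.ofNat 74899992119237060604)) N N) N N) N N)⟩,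
  ⟨.x, T0, (B (B (K (.negSucc 186940649614224131)) (K (.ofNat 24324121824972457800)) N N) (B (K (.ofNat 19283807050281583980)) (K (.negSucc 69715913129264772359)) N N) N N)⟩,
  ⟨.x, T1, (B (B (K (.negSucc 22885631754382413563)) (K (.negSucc 13185319154517014951)) N N) (B (K (.negSucc 32675236598524847675)) (K (.ofNat 9792072890790194664)) N N) N N)⟩,
  ⟨.x, T4, (B N N (K (.negSucc 1275177878601745889)) (K (.ofNat 5401673866896868362)))⟩,
  ⟨.x, T5, (A1 (K (.ofNat 11705204660472880068)))⟩,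
  ⟨.x, T6, (B N N (K (.ofNat 4483461576964069344)) (K (.negSucc 6295666603415266193)))⟩,
  ⟨.x, T7, (B (K (.negSucc 8810625141340203119)) (K (.ofNat 12081873312087217632)) N N)⟩,
  ⟨.x, T8, (B (K (.negSucc 11519989330338644399)) (K (.ofNat 1313980271825405964)) N N)⟩,
  ⟨.x, T10, (A1 (K (.ofNat 14507072460677499048)))⟩,
  ⟨.x, T29, (K (.negSucc 9350349819221472959))⟩,
  ⟨.x, T13, (K (.ofNat 1762976942661285180))⟩,
  ⟨.x, T14, (K (.negSucc 1940834674885698287))⟩,
  ⟨.x, T30, (K (.negSucc 6874743239026257443))⟩,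
  ⟨.x, T31, (K (.ofNat 6018284347768767672))⟩,
  ⟨.x, T32, (K (.negSucc 8856004437129981539))⟩] (.node [⟨.x, .z, (B (B (K (.ofNat 18403157544834936828)) (K (.ofNat 17896130135027881296)) N N) (B (K (.negSucc 881625544160780351)) (K (.ofNat 31225349517925789392)) N N) N N)⟩,
  ⟨.x, T0, (B (K (.negSucc 13220762363008809671)) (K (.negSucc 31317979741759596683)) N N)⟩,
  ⟨.x, T1, (B (K (.ofNat 10097615650470867000)) (K (.negSucc 16588363788623343563)) N N)⟩,
  ⟨.x, T5, (K (.ofNat 6477232557030163716))⟩,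
  ⟨.x, T7, (K (.negSucc 22240179868023288551))⟩,
  ⟨.x, T8, (K (.negSucc 3685331402169398699))⟩,
  ⟨.x, T10, (K (.negSucc 60271784396423711))⟩] (.node [⟨.x, .z, (B (K (.negSucc 7164020750628167003)) (K (.negSucc 13102700746098958955)) N N)⟩,
  ⟨.x, T0, (K (.ofNat 24855083150159457420))⟩,
  ⟨.x, T1, (K (.ofNat 2741811137903083644))⟩] (.node [⟨.x, .z, (K (.negSucc 15827494835925801923))⟩] .nil .nil .nil .nil .nil .nil) (.node [⟨.x, .z, (K (.negSucc 785660337525164615))⟩] .nil .nil .nil .nil .nil .nil) .nil .nil .nil .nil) (.node [⟨.x, .z, (B (K (.negSucc 5108273310583806563)) (K (.ofNat 11636716703207875080)) N N)⟩,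
  ⟨.x, T0, (K (.ofNat 7900224346961976780))⟩,
  ⟨.x, T1, (K (.negSucc 3030128428126974095))⟩] (.node [⟨.x, .z, (K (.ofNat 215807931730696680))⟩] .nil .nil .nil .nil .nil .nil) (.node [⟨.x, .z, (K (.ofNat 14765006787320362128))⟩] .nil .nil .nil .nil .nil .nil) .nil .nil .nil .nil) .nil .nil .nil .nil) (.node [⟨.x, .z, (B (B (K (.negSucc 34498224031846008707)) (K (.ofNat 15067796126257156512)) N N) (B (K (.ofNat 8295745023374482632)) (K (.negSucc 43376364363477581903)) N N) N N)⟩,
  ⟨.x, T0, (B (K (.negSucc 461540122443065219)) (K (.negSucc 24986091726689470367)) N N)⟩,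
  ⟨.x, T1, (B (K (.ofNat 21715000114292600532)) (K (.negSucc 2888743237178400791)) N N)⟩,
  ⟨.x, T5, (K (.ofNat 5491332294803794260))⟩,
  ⟨.x, T7, (K (.negSucc 14061257153229133871))⟩,
  ⟨.x, T8, (K (.negSucc 7779951643530434579))⟩,
  ⟨.x, T10, (K (.ofNat 6395869133456597472))⟩] (.node [⟨.x, .z, (B (K (.ofNat 8309507948963718468)) (K (.negSucc 1083406026755903975)) N N)⟩,
  ⟨.x, T0, (K (.ofNat 12653466393471495216))⟩,
  ⟨.x, T1, (K (.negSucc 8518111395635993543))⟩] (.node [⟨.x, .z, (K (.negSucc 7657244889348110891))⟩] .nil .nil .nil .nil .nil .nil) (.node [⟨.x, .z, (K (.ofNat 4557712515524211072))⟩] .nil .nil .nil .nil .nil .nil) .nil .nil .nil .nil) (.node [⟨.x, .z, (B (K (.ofNat 8691245898372802512)) (K (.negSucc 10307258748664900223)) N N)⟩,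
  ⟨.x, T0, (K (.negSucc 2060580855364573823))⟩,
  ⟨.x, T1, (K (.ofNat 4228445224646690136))⟩] (.node [⟨.x, .z, (K (.ofNat 5878038669341707824))⟩] .nil .nil .nil .nil .nil .nil) (.node [⟨.x, .z, (K (.ofNat 13609865289674699064))⟩] .nil .nil .nil .nil .nil .nil) .nil .nil .nil .nil) .nil .nil .nil .nil) (.node [⟨.x, T4, (K (.ofNat 1418858247787099350))⟩,
  ⟨.x, T6, (K (.ofNat 11461934202838460382))⟩] .nil .nil .nil .nil .nil .nil) (.node [⟨.x, T4, (K (.ofNat 3601349183647278876))⟩,
  ⟨.x, T6, (K (.ofNat 8650631325608883396))⟩] .nil .nil .nil .nil .nil .nil) .nil .nil)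

def c_121 : Cert := (.node [⟨.x, .z, (B (B (B (K (.ofNat 79896906952557252240)) (K (.ofNat 31902956669252204268)) N N) (B (K (.ofNat 56668037604834819402)) (K (.negSucc 41056228028793141845)) N N) N N) (B (B (K (.ofNat 75546899560226008524)) (K (.ofNat 2225908884622621020)) N N) (B (K (.ofNat 17890546893515606580)) (K (.negSucc 79598237353739386631)) N N) N N) N N)⟩,
  ⟨.x, T0, (B (B (K (.ofNat 17821610903412202692)) (K (.negSucc 31271281679352390257)) N N) (B (K (.ofNat 41689300730780654340)) (K (.negSucc 14386556831930412239)) N N) N N)⟩,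
  ⟨.x, T1, (B (B (K (.negSucc 58559252719306686491)) (K (.negSucc 39664187800520858765)) N N) (B (K (.negSucc 57057831622094351669)) (K (.ofNat 21801982569070065330)) N N) N N)⟩,
  ⟨.x, T4, (B N N (K (.negSucc 14140595398562610143)) (K (.ofNat 19497988439983465404)))⟩,
  ⟨.x, T5, (A1 (K (.ofNat 30743040469703326332)))⟩,
  ⟨.x, T6, (B N N (K (.ofNat 17761470115164386016)) (K (.negSucc 27493293790764137123)))⟩,
  ⟨.x, T7, (B (K (.negSucc 18158647019783890031)) (K (.negSucc 41014799598991808675)) N N)⟩,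
  ⟨.x, T8, (B (K (.ofNat 3163303461317496774)) (K (.negSucc 4977882749055647465)) N N)⟩,
  ⟨.x, T10, (A1 (K (.ofNat 36196973911677271890)))⟩,
  ⟨.x, T29, (K (.negSucc 30647713533929720015))⟩,
  ⟨.x, T13, (K (.negSucc 4555775755931593079))⟩,
  ⟨.x, T14, (K (.negSucc 7174211185795570379))⟩,
  ⟨.x, T30, (K (.negSucc 17884571177530564349))⟩,
  ⟨.x, T31, (K (.ofNat 3548424584022964140))⟩,
  ⟨.x, T32, (K (.negSucc 23387562100072883423))⟩] (.node [⟨.x, .z, (B (B (K (.ofNat 26096737675827243444)) (K (.ofNat 2234372115564424596)) N N) (B (K (.ofNat 47184693052125537948)) (K (.negSucc 142578608384978295059)) N N) N N)⟩,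
  ⟨.x, T0, (B (K (.negSucc 56464852973521667699)) (K (.ofNat 32826791354306391840)) N N)⟩,
  ⟨.x, T1, (B (K (.ofNat 30430380831377011512)) (K (.ofNat 21350756951337781044)) N N)⟩,
  ⟨.x, T5, (K (.negSucc 1814643899318756039))⟩,
  ⟨.x, T7, (K (.negSucc 54172977883348677299))⟩,
  ⟨.x, T8, (K (.ofNat 8494030673966721828))⟩,
  ⟨.x, T10, (K (.ofNat 3980712224632443372))⟩] (.node [⟨.x, .z, (B (K (.negSucc 18973169568568198043)) (K (.negSucc 87477218065386085151)) N N)⟩,
  ⟨.x, T0, (K (.ofNat 55882609804552572012))⟩,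
  ⟨.x, T1, (K (.ofNat 23241838463404125072))⟩] (.node [⟨.x, .z, (K (.negSucc 33855848683119358055))⟩] .nil .nil .nil .nil .nil .nil) (.node [⟨.x, .z, (K (.negSucc 10506078825445304435))⟩] .nil .nil .nil .nil .nil .nil) .nil .nil .nil .nil) (.node [⟨.x, .z, (B (K (.ofNat 6438968531927473962)) (K (.ofNat 3106670039560342296)) N N)⟩,
  ⟨.x, T0, (K (.ofNat 30904215934964517744))⟩,
  ⟨.x, T1, (K (.negSucc 28193129749292468573))⟩] (.node [⟨.x, .z, (K (.negSucc 12352688620656871859))⟩] .nil .nil .nil .nil .nil .nil) (.node [⟨.x, .z, (K (.ofNat 26571705571967868144))⟩] .nil .nil .nil .nil .nil .nil) .nil .nil .nil .nil) .nil .nil .nil .nil) (.node [⟨.x, .z, (B (B (K (.negSucc 1616076312800426453)) (K (.negSucc 896039081784880409)) N N) (B (K (.ofNat 36996161703986977740)) (K (.negSucc 78516536341249163099)) N N) N N)⟩,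
  ⟨.x, T0, (B (K (.negSucc 29959280780943914387)) (K (.ofNat 31340692275607459620)) N N)⟩,
  ⟨.x, T1, (B (K (.ofNat 14794465047645441174)) (K (.negSucc 41866942101010805585)) N N)⟩,
  ⟨.x, T5, (K (.ofNat 10865872712837204664))⟩,
  ⟨.x, T7, (K (.negSucc 41318050543883773835))⟩,
  ⟨.x, T8, (K (.negSucc 19890049397632779311))⟩,
  ⟨.x, T10, (K (.ofNat 11033063536065444084))⟩] (.node [⟨.x, .z, (B (K (.ofNat 4079401057877851086)) (K (.negSucc 22885562144457330923)) N N)⟩,
  ⟨.x, T0, (K (.ofNat 50350325628859410780))⟩,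
  ⟨.x, T1, (K (.negSucc 15843707647263392813))⟩] (.node [⟨.x, .z, (K (.negSucc 12341628611369688143))⟩] .nil .nil .nil .nil .nil .nil) (.node [⟨.x, .z, (K (.ofNat 31524078710275862760))⟩] .nil .nil .nil .nil .nil .nil) .nil .nil .nil .nil) (.node [⟨.x, .z, (B (K (.ofNat 11640763475572981638)) (K (.ofNat 59479044759011158500)) N N)⟩,
  ⟨.x, T0, (K (.negSucc 17260522771759668371))⟩,
  ⟨.x, T1, (K (.negSucc 14386591910085360353))⟩] (.node [⟨.x, .z, (K (.ofNat 26596804891779318384))⟩] .nil .nil .nil .nil .nil .nil) (.node [⟨.x, .z, (K (.ofNat 42105053536979445540))⟩] .nil .nil .nil .nil .nil .nil) .nil .nil .nil .nil) .nil .nil .nil .nil) (.node [⟨.x, T4, (K (.negSucc 20279286344094984467))⟩,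
  ⟨.x, T6, (K (.ofNat 33344148523282075446))⟩] .nil .nil .nil .nil .nil .nil) (.node [⟨.x, T4, (K (.ofNat 11992503621059259666))⟩,
  ⟨.x, T6, (K (.ofNat 37345764463086847566))⟩] .nil .nil .nil .nil .nil .nil) .nil .nil)

def c_12 : Cert := (.node [⟨.x, .z, (B (B (B (A0 (K (.negSucc 6086808478348171235))) (A1 (K (.ofNat 15516520597605769836))) N N) (B (B (K (.negSucc 34407412684900136675)) (K (.negSucc 9576964903337684243)) N N) (B (K (.ofNat 23947401286153610136)) (K (.ofNat 31522386331190882820)) N N) N N) N N) (B (B (B (K (.ofNat 4094010203721181392)) (K (.negSucc 40423477068698793395)) N N) (B (K (.ofNat 1053719307319353516)) (K (.negSucc 1966046422240088327)) N N) N N) (B (B (K (.negSucc 11459507419037468807)) (K (.negSucc 6622782336478019819)) N N) (B (K (.negSucc 17552774143261315379)) (K (.ofNat 50757281395279361148)) N N) N N) N N) N N)⟩,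
  ⟨.x, T0, (B (B (B (K (.negSucc 13363368479112896411)) (K (.negSucc 12830184964860019559)) N N) (B (K (.ofNat 9499067960301465816)) (K (.ofNat 12369441401531613516)) N N) N N) (B (B (K (.ofNat 3207410504258130024)) (K (.negSucc 40169377315101287867)) N N) (B (K (.ofNat 18433468267998421764)) (K (.ofNat 12669503218423975644)) N N) N N) N N)⟩,
  ⟨.x, T1, (B (B (B (K (.ofNat 21684767408506423512)) (K (.ofNat 33415531101926460096)) N N) (B (K (.ofNat 4045152876026320632)) (K (.ofNat 38142690354166210272)) N N) N N) (B (B (K (.ofNat 34936553357570387880)) (K (.ofNat 44904780403573317948)) N N) (B (K (.negSucc 18023653641606946067)) (K (.ofNat 13185229485120572028)) N N) N N) N N)⟩,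
  ⟨.x, T4, (B (A2 (K (.negSucc 708732117883440503))) (B N N (K (.negSucc 1076004920139672233)) (K (.ofNat 1033508759869346406))) (B (K (.negSucc 5002006164643164701)) (K (.ofNat 14780243078672171538)) N N) (B (K (.negSucc 5622248281849099571)) (K (.negSucc 13728888454280192777)) N N))⟩,
  ⟨.x, T5, (A1 (A1 (K (.negSucc 25185863778578867411))))⟩,
  ⟨.x, T6, (B (A2 (K (.ofNat 346569180235685754))) (B N N (K (.ofNat 2329734461563087386)) (K (.ofNat 2220750156384179682))) (B (K (.ofNat 5218692892724211750)) (K (.negSucc 18079395626336023181)) N N) (B (K (.ofNat 10634079665741148936)) (K (.ofNat 10627455339547980546)) N N))⟩,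
  ⟨.x, T7, (B (B (K (.ofNat 17561711635423846116)) (K (.ofNat 2212661039938930308)) N N) (B (K (.ofNat 14058388180019777136)) (K (.ofNat 42555805914480253152)) N N) N N)⟩,
  ⟨.x, T8, (B (B (K (.ofNat 25661046296518729272)) (K (.ofNat 2666088544815759072)) N N) (B (K (.negSucc 7631802573913583303)) (K (.ofNat 14608190271298238208)) N N) N N)⟩,
  ⟨.x, T10, (A1 (B (K (.negSucc 10736138209459809323)) (K (.negSucc 18259866957449064659)) N N))⟩,
  ⟨.x, T28, (A3 (K (.negSucc 6925163411771226671)))⟩,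
  ⟨.x, T29, (A1 (K (.ofNat 16828721916571693536)))⟩,
  ⟨.x, T12, (B N N (K (.negSucc 1688075959431187793)) (K (.ofNat 280571878811748780)))⟩,
  ⟨.x, T13, (B (K (.negSucc 10628860457054666015)) (K (.ofNat 14087671321549270428)) N N)⟩,
  ⟨.x, T14, (B (K (.negSucc 3451899505123603331)) (K (.ofNat 13052456061169417668)) N N)⟩,
  ⟨.x, T30, (A0 (K (.ofNat 12115701991847013276)))⟩,
  ⟨.x, T31, (A1 (K (.negSucc 2770967325714874631)))⟩,
  ⟨.x, T32, (A1 (K (.ofNat 12308627778701755560)))⟩,
  ⟨.x, T16, (K (.negSucc 219616270702426943))⟩,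
  ⟨.x, T18, (K (.negSucc 193262020014364271))⟩,
  ⟨.x, T34, (K (.negSucc 3168332716025103587))⟩,
  ⟨.x, T43, (K (.ofNat 12483635633309682864))⟩,
  ⟨.x, T45, (K (.ofNat 4473484547699302272))⟩,
  ⟨.x, T35, (K (.negSucc 973449999909152027))⟩] c_120 c_121 (.node [⟨.x, T4, (B (K (.ofNat 7397562854549341446)) (K (.ofNat 15733799202710378556)) N N)⟩,
  ⟨.x, T6, (B (K (.negSucc 36350084287686033839)) (K (.negSucc 19548926230175072555)) N N)⟩,
  ⟨.x, T28, (K (.ofNat 24148986824993795880))⟩,
  ⟨.x, T12, (K (.negSucc 2150006227843989737))⟩] (.node [⟨.x, T4, (K (.ofNat 7991836887443424138))⟩,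
  ⟨.x, T6, (K (.ofNat 24936965230599081600))⟩] .nil .nil .nil .nil .nil .nil) (.node [⟨.x, T4, (K (.negSucc 9429976414489950593))⟩,
  ⟨.x, T6, (K (.ofNat 22780758168719348910))⟩] .nil .nil .nil .nil .nil .nil) .nil .nil .nil .nil) (.node [⟨.x, T4, (B (K (.ofNat 10906327936674572842)) (K (.negSucc 20046423751243326069)) N N)⟩,
  ⟨.x, T6, (B (K (.ofNat 10138107038064091126)) (K (.negSucc 22571522687696550141)) N N)⟩,
  ⟨.x, T28, (K (.negSucc 15873918841598314987))⟩,
  ⟨.x, T12, (K (.ofNat 1625210307466839928))⟩] (.node [⟨.x, T4, (K (.negSucc 13484763831470392229))⟩,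
  ⟨.x, T6, (K (.negSucc 11456822034444543721))⟩] .nil .nil .nil .nil .nil .nil) (.node [⟨.x, T4, (K (.ofNat 27626050634515545108))⟩,
  ⟨.x, T6, (K (.negSucc 12072659641568631767))⟩] .nil .nil .nil .nil .nil .nil) .nil .nil .nil .nil) .nil .nil)

def c_130 : Cert := (.node [⟨.x, .z, (B (B (B (K (.negSucc 29088794277098634599)) (K (.negSucc 22338843943580541059)) N N) (B (K (.negSucc 23297579060962240517)) (K (.ofNat 17253321897314768838)) N N) N N) (B (B (K (.negSucc 42178047069394608143)) (K (.negSucc 23574306094976141555)) N N) (B (K (.negSucc 13403561094392255855)) (K (.ofNat 50333793778098512400)) N N) N N) N N)⟩,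
  ⟨.x, T0, (B (B (K (.ofNat 4369172987350812504)) (K (.ofNat 38624796544922943354)) N N) (B (K (.negSucc 4972214147915860391)) (K (.negSucc 6242300081678467691)) N N) N N)⟩,
  ⟨.x, T1, (B (B (K (.ofNat 14472603775033354464)) (K (.ofNat 5303894797152029622)) N N) (B (K (.ofNat 22412146592078084118)) (K (.negSucc 3328421284096307993)) N N) N N)⟩,
  ⟨.x, T4, (B N N (K (.ofNat 5935881156733116510)) (K (.negSucc 4334850666232414385)))⟩,
  ⟨.x, T5, (A1 (K (.negSucc 20063419003087428839)))⟩,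
  ⟨.x, T6, (B N N (K (.negSucc 7690828629317360489)) (K (.ofNat 6336487953623341944)))⟩,
  ⟨.x, T7, (B (K (.ofNat 17926343210560470564)) (K (.ofNat 34566323420542943208)) N N)⟩,
  ⟨.x, T8, (B (K (.negSucc 3068326599356158145)) (K (.ofNat 12587319972312565002)) N N)⟩,
  ⟨.x, T10, (A1 (K (.negSucc 23235012997138914689)))⟩,
  ⟨.x, T29, (K (.ofNat 16506282802566576024))⟩,
  ⟨.x, T13, (K (.negSucc 473425221773639867))⟩,
  ⟨.x, T14, (K (.negSucc 1670757314222527091))⟩,
  ⟨.x, T30, (K (.ofNat 8938406355841740318))⟩,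
  ⟨.x, T31, (K (.negSucc 2626946109025408811))⟩,
  ⟨.x, T32, (K (.ofNat 11409343450207758204))⟩] (.node [⟨.x, .z, (B (B (K (.negSucc 23604867248406758423)) (K (.negSucc 324304659593017079)) N N) (B (K (.negSucc 20873613414791201135)) (K (.ofNat 70185184520876227164)) N N) N N)⟩,
  ⟨.x, T0, (B (K (.ofNat 29228064142103419548)) (K (.negSucc 39496689867426043211)) N N)⟩,
  ⟨.x, T1, (B (K (.negSucc 11090292027069931847)) (K (.negSucc 2102449486456453691)) N N)⟩,
  ⟨.x, T5, (K (.ofNat 2437458734906987772))⟩,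
  ⟨.x, T7, (K (.ofNat 27834314420481460200))⟩,
  ⟨.x, T8, (K (.negSucc 2149498620676680851))⟩,
  ⟨.x, T10, (K (.negSucc 2697372310150124051))⟩] (.node [⟨.x, .z, (B (K (.ofNat 13624820087944322688)) (K (.ofNat 46391859855114230304)) N N)⟩,
  ⟨.x, T0, (K (.negSucc 23503163584088985179))⟩,
  ⟨.x, T1, (K (.negSucc 20099644853957316515))⟩] (.node [⟨.x, .z, (K (.ofNat 14068961022556881564))⟩] .nil .nil .nil .nil .nil .nil) (.node [⟨.x, .z, (K (.ofNat 2990661887185486560))⟩] .nil .nil .nil .nil .nil .nil) .nil .nil .nil .nil) (.node [⟨.x, .z, (B (K (.ofNat 2823491554402101582)) (K (.negSucc 14592842038715898023)) N N)⟩,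
  ⟨.x, T0, (K (.negSucc 11782213472771521019))⟩,
  ⟨.x, T1, (K (.ofNat 6792862292378450526))⟩] (.node [⟨.x, .z, (K (.ofNat 4351628856292988106))⟩] .nil .nil .nil .nil .nil .nil) (.node [⟨.x, .z, (K (.negSucc 9601307049420086555))⟩] .nil .nil .nil .nil .nil .nil) .nil .nil .nil .nil) .nil .nil .nil .nil) (.node [⟨.x, .z, (B (B (K (.negSucc 13768679317936399541)) (K (.ofNat 10887024038145593010)) N N) (B (K (.ofNat 4375713881411082900)) (K (.negSucc 4470969394882978547)) N N) N N)⟩,
  ⟨.x, T0, (B (K (.ofNat 18762542272180314084)) (K (.negSucc 11923259715395496263)) N N)⟩,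
  ⟨.x, T1, (B (K (.negSucc 9200146788873855821)) (K (.ofNat 30256592872101538278)) N N)⟩,
  ⟨.x, T5, (K (.negSucc 5673235580621212547))⟩,
  ⟨.x, T7, (K (.ofNat 21456658653609298236))⟩,
  ⟨.x, T8, (K (.ofNat 8236549803488359980))⟩,
  ⟨.x, T10, (K (.negSucc 3625074442336126799))⟩] (.node [⟨.x, .z, (B (K (.ofNat 7135816632530281326)) (K (.ofNat 4866087632151340056)) N N)⟩,
  ⟨.x, T0, (K (.negSucc 24061370547159048035))⟩,
  ⟨.x, T1, (K (.negSucc 4207292458087084241))⟩] (.node [⟨.x, .z, (K (.ofNat 4061702570222003118))⟩] .nil .nil .nil .nil .nil .nil) (.node [⟨.x, .z, (K (.negSucc 16391836714094715347))⟩] .nil .nil .nil .nil .nil .nil) .nil .nil .nil .nil) (.node [⟨.x, .z, (B (K (.ofNat 1360846616728262130)) (K (.negSucc 48007181478581875463)) N N)⟩,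
  ⟨.x, T0, (K (.ofNat 8692450517568519444))⟩,
  ⟨.x, T1, (K (.ofNat 5169180569021151930))⟩] (.node [⟨.x, .z, (K (.negSucc 16115173630391438501))⟩] .nil .nil .nil .nil .nil .nil) (.node [⟨.x, .z, (K (.negSucc 18784736749275481079))⟩] .nil .nil .nil .nil .nil .nil) .nil .nil .nil .nil) .nil .nil .nil .nil) (.node [⟨.x, T4, (K (.negSucc 4391202264378189863))⟩,
  ⟨.x, T6, (K (.negSucc 13403181324131512949))⟩] .nil .nil .nil .nil .nil .nil) (.node [⟨.x, T4, (K (.negSucc 7485034824711024533))⟩,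
  ⟨.x, T6, (K (.negSucc 12005462300198741021))⟩] .nil .nil .nil .nil .nil .nil) .nil .nil)

def c_131 : Cert := (.node [⟨.x, .z, (B (B (B (K (.ofNat 292825167391841484)) (K (.negSucc 517759332935203235)) N N) (B (K (.negSucc 2549375723761151417)) (K (.negSucc 4028698165717954757)) N N) N N) (B (B (K (.ofNat 566080557764201316)) (K (.negSucc 349513127867306147)) N N) (B (K (.negSucc 356386270728782399)) (K (.negSucc 726038517253232663)) N N) N N) N N)⟩,
  ⟨.x, T0, (B (B (K (.negSucc 15592829686104587)) (K (.ofNat 14857381511724126)) N N) (B (K (.ofNat 1309584679893207924)) (K (.ofNat 705334553520599952)) N N) N N)⟩,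
  ⟨.x, T1, (B (B (K (.ofNat 5749109123877564)) (K (.ofNat 1010505879360854274)) N N) (B (K (.ofNat 1781841269642369370)) (K (.ofNat 3577064667821471646)) N N) N N)⟩,
  ⟨.x, T4, (B N N (K (.ofNat 241399259834335770)) (K (.ofNat 321530488559121540)))⟩,
  ⟨.x, T5, (A1 (K (.negSucc 274314443890676951)))⟩,
  ⟨.x, T6, (B N N (K (.ofNat 34243972714011234)) (K (.negSucc 731786538151326635)))⟩,
  ⟨.x, T7, (B (K (.ofNat 308315005167663204)) (K (.ofNat 249387381919603104)) N N)⟩,
  ⟨.x, T8, (B (K (.ofNat 29589591644512350)) (K (.ofNat 1484240734188552666)) N N)⟩,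
  ⟨.x, T10, (A1 (K (.ofNat 795011311948077798)))⟩,
  ⟨.x, T29, (K (.ofNat 160051453932689952))⟩,
  ⟨.x, T13, (K (.negSucc 318369140146142963))⟩,
  ⟨.x, T14, (K (.ofNat 118868213123112924))⟩,
  ⟨.x, T30, (K (.ofNat 112576030436235894))⟩,
  ⟨.x, T31, (K (.negSucc 258093736246516211))⟩,
  ⟨.x, T32, (K (.negSucc 205558438627893395))⟩] (.node [⟨.x, .z, (B (B (K (.negSucc 166362023723480447)) (K (.ofNat 887050743524568372)) N N) (B (K (.ofNat 893264253937093128)) (K (.ofNat 1041311865691687932)) N N) N N)⟩,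
  ⟨.x, T0, (B (K (.negSucc 376964394922354823)) (K (.ofNat 531683190875048592)) N N)⟩,
  ⟨.x, T1, (B (K (.ofNat 1208359986019134708)) (K (.ofNat 1191949720195991424)) N N)⟩,
  ⟨.x, T5, (K (.ofNat 23075152460504220))⟩,
  ⟨.x, T7, (K (.ofNat 596951510520179064))⟩,
  ⟨.x, T8, (K (.ofNat 418160483888147616))⟩,
  ⟨.x, T10, (K (.negSucc 655293952786096343))⟩] (.node [⟨.x, .z, (B (K (.ofNat 362179991534808012)) (K (.ofNat 1104953849777932104)) N N)⟩,
  ⟨.x, T0, (K (.negSucc 1003897438835945627))⟩,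
  ⟨.x, T1, (K (.ofNat 285298610498275896))⟩] (.node [⟨.x, .z, (K (.ofNat 418178294238617724))⟩] .nil .nil .nil .nil .nil .nil) (.node [⟨.x, .z, (K (.ofNat 73825610709132630))⟩] .nil .nil .nil .nil .nil .nil) .nil .nil .nil .nil) (.node [⟨.x, .z, (B (K (.ofNat 1203740353293172734)) (K (.ofNat 1742772761180718264)) N N)⟩,
  ⟨.x, T0, (K (.negSucc 1161842946439832135))⟩,
  ⟨.x, T1, (K (.negSucc 1222537753903021121))⟩] (.node [⟨.x, .z, (K (.ofNat 173027034237565968))⟩] .nil .nil .nil .nil .nil .nil) (.node [⟨.x, .z, (K (.negSucc 292942674664478897))⟩] .nil .nil .nil .nil .nil .nil) .nil .nil .nil .nil) .nil .nil .nil .nil) (.node [⟨.x, .z, (B (B (K (.negSucc 427824653950405001)) (K (.ofNat 1538643407061696498)) N N) (B (K (.negSucc 259008409369412639)) (K (.ofNat 932315770773983364)) N N) N N)⟩,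
  ⟨.x, T0, (B (K (.ofNat 1788853797666941664)) (K (.ofNat 379896046091389296)) N N)⟩,
  ⟨.x, T1, (B (K (.negSucc 591035900302132481)) (K (.negSucc 1094499821886639713)) N N)⟩,
  ⟨.x, T5, (K (.negSucc 551746402144189895))⟩,
  ⟨.x, T7, (K (.ofNat 796690272714371892))⟩,
  ⟨.x, T8, (K (.negSucc 403956906075262691))⟩,
  ⟨.x, T10, (K (.negSucc 1142710750498000019))⟩] (.node [⟨.x, .z, (B (K (.ofNat 1219017992663705790)) (K (.ofNat 1382361006249280356)) N N)⟩,
  ⟨.x, T0, (K (.negSucc 1168987318956628259))⟩,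
  ⟨.x, T1, (K (.negSucc 694625211262464629))⟩] (.node [⟨.x, .z, (K (.ofNat 373889045898754860))⟩] .nil .nil .nil .nil .nil .nil) (.node [⟨.x, .z, (K (.negSucc 166289549950007993))⟩] .nil .nil .nil .nil .nil .nil) .nil .nil .nil .nil) (.node [⟨.x, .z, (B (K (.ofNat 429618452382895962)) (K (.ofNat 160609833334940568)) N N)⟩,
  ⟨.x, T0, (K (.negSucc 440023688958160019))⟩,
  ⟨.x, T1, (K (.ofNat 13146698914431750))⟩] (.node [⟨.x, .z, (K (.negSucc 152844300275682287))⟩] .nil .nil .nil .nil .nil .nil) (.node [⟨.x, .z, (K (.negSucc 534865108057495283))⟩] .nil .nil .nil .nil .nil .nil) .nil .nil .nil .nil) .nil .nil .nil .nil) (.node [⟨.x, T4, (K (.negSucc 1599689785826711501))⟩,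
  ⟨.x, T6, (K (.ofNat 4913658911353961868))⟩] .nil .nil .nil .nil .nil .nil) (.node [⟨.x, T4, (K (.ofNat 55951814499784170))⟩,
  ⟨.x, T6, (K (.ofNat 43680489290076642))⟩] .nil .nil .nil .nil .nil .nil) .nil .nil)

def c_13 : Cert := (.node [⟨.x, .z, (B (B (B (A0 (K (.negSucc 3085542541386245455))) (A1 (K (.ofNat 2586062219924266512))) N N) (B (B (K (.negSucc 7691022315798392847)) (K (.negSucc 4149782110362296103)) N N) (B (K (.negSucc 2682540880418510363)) (K (.ofNat 4406407525734105888)) N N) N N) N N) (B (B (B (K (.negSucc 9631685866974881507)) (K (.negSucc 4137163261622152771)) N N) (B (K (.negSucc 6093928791023747471)) (K (.ofNat 4722084611161767276)) N N) N N) (B (B (K (.negSucc 9648453813731407031)) (K (.negSucc 7736533797767046947)) N N) (B (K (.negSucc 9495709020945202643)) (K (.negSucc 900844811824570079)) N N) N N) N N) N N)⟩,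
  ⟨.x, T0, (B (B (B (K (.negSucc 83866464220076975)) (K (.negSucc 508501844620085543)) N N) (B (K (.ofNat 643901722298165784)) (K (.negSucc 67684141724309327)) N N) N N) (B (B (K (.negSucc 111124398955180487)) (K (.negSucc 512780072162637887)) N N) (B (K (.ofNat 273947803262292252)) (K (.negSucc 37996698465216803)) N N) N N) N N)⟩,
  ⟨.x, T1, (B (B (B (K (.ofNat 6119609557343367648)) (K (.ofNat 3517495123241543952)) N N) (B (K (.ofNat 4968646374334569324)) (K (.negSucc 2446435417370104175)) N N) N N) (B (B (K (.ofNat 8815267072429868136)) (K (.ofNat 3832215563574749148)) N N) (B (K (.ofNat 5688002176838793672)) (K (.negSucc 2113394657380402763)) N N) N N) N N)⟩,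
  ⟨.x, T4, (B (A2 (K (.ofNat 575579034362342736))) (B N N (K (.ofNat 96504521201170986)) (K (.negSucc 136939141190059355))) (B (K (.ofNat 137907973675850238)) (K (.negSucc 407426618552768825)) N N) (B (K (.negSucc 278635981974938819)) (K (.ofNat 66320794695074112)) N N))⟩,
  ⟨.x, T5, (A1 (A1 (K (.ofNat 254717845740382104))))⟩,
  ⟨.x, T6, (B (A2 (K (.negSucc 73271954028762743))) (B N N (K (.ofNat 10526744881237620)) (K (.negSucc 132377400818979323))) (B (K (.negSucc 3949133271920801)) (K (.ofNat 339970619809415328)) N N) (B (K (.ofNat 601304739233782230)) (K (.ofNat 1130616711035710476)) N N))⟩,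
  ⟨.x, T7, (B (B (K (.ofNat 75261192577059780)) (K (.negSucc 445025329816198907)) N N) (B (K (.negSucc 421891257450637511)) (K (.negSucc 537150071264813291)) N N) N N)⟩,
  ⟨.x, T8, (B (B (K (.negSucc 34588592221084775)) (K (.negSucc 666453369992676371)) N N) (B (K (.negSucc 2019559330369573103)) (K (.negSucc 1998101020587049715)) N N) N N)⟩,
  ⟨.x, T10, (A1 (B (K (.negSucc 1128096872023150691)) (K (.negSucc 408976210823065535)) N N))⟩,
  ⟨.x, T28, (A3 (K (.negSucc 120276744105855839)))⟩,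
  ⟨.x, T29, (A1 (K (.negSucc 74065480133111399)))⟩,
  ⟨.x, T12, (B N N (K (.negSucc 29564964374418551)) (K (.negSucc 140870946960376301)))⟩,
  ⟨.x, T13, (B (K (.negSucc 78594028094921543)) (K (.negSucc 219752143367939135)) N N)⟩,
  ⟨.x, T14, (B (K (.ofNat 121401053648928288)) (K (.ofNat 7511835091443912)) N N)⟩,
  ⟨.x, T30, (A0 (K (.ofNat 145275615843398040)))⟩,
  ⟨.x, T31, (A1 (K (.negSucc 22614615334234727)))⟩,
  ⟨.x, T32, (A1 (K (.negSucc 10206441708309983)))⟩,
  ⟨.x, T16, (K (.ofNat 105026234165504928))⟩,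
  ⟨.x, T18, (K (.ofNat 155647394115202800))⟩,
  ⟨.x, T34, (K (.ofNat 73572703911582768))⟩,
  ⟨.x, T43, (K (.ofNat 63101723476101264))⟩,
  ⟨.x, T45, (K (.negSucc 27928126195896095))⟩,
  ⟨.x, T35, (K (.negSucc 49928461349614703))⟩] c_130 c_131 (.node [⟨.x, T4, (B (K (.negSucc 5180991660987485739)) (K (.negSucc 8860745438477876269)) N N)⟩,
  ⟨.x, T6, (B (K (.ofNat 18274781718875698238)) (K (.ofNat 8943053233489640794)) N N)⟩,
  ⟨.x, T28, (K (.negSucc 20462002839476054499))⟩,
  ⟨.x, T12, (K (.ofNat 13566798715449959222))⟩] (.node [⟨.x, T4, (K (.negSucc 7379228928212351))⟩,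
  ⟨.x, T6, (K (.negSucc 23936168453927173389))⟩] .nil .nil .nil .nil .nil .nil) (.node [⟨.x, T4, (K (.ofNat 11225769940680238638))⟩,
  ⟨.x, T6, (K (.negSucc 24143550628261165133))⟩] .nil .nil .nil .nil .nil .nil) .nil .nil .nil .nil) (.node [⟨.x, T4, (B (K (.negSucc 171549172401339659)) (K (.ofNat 123522923806124760)) N N)⟩,
  ⟨.x, T6, (B (K (.negSucc 130414742902482023)) (K (.negSucc 126513019830906203)) N N)⟩,
  ⟨.x, T28, (K (.ofNat 16323135091578528))⟩,
  ⟨.x, T12, (K (.negSucc 149598003890385755))⟩] (.node [⟨.x, T4, (K (.negSucc 1749724797271872995))⟩,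
  ⟨.x, T6, (K (.ofNat 4133093085835481280))⟩] .nil .nil .nil .nil .nil .nil) (.node [⟨.x, T4, (K (.negSucc 342741545997045683))⟩,
  ⟨.x, T6, (K (.ofNat 118991074068459468))⟩] .nil .nil .nil .nil .nil .nil) .nil .nil .nil .nil) .nil .nil)

def c_1 : Cert := (.node [⟨.x, .z, (B (B (B (B (A2 (K (.ofNat 576043555439494500))) N (A0 (K (.negSucc 120711318361463303))) N) N (A0 (A0 (K (.ofNat 203024532262347312)))) N) N (B (B (A0 (K (.ofNat 5472750075116935968))) (A1 (K (.ofNat 1984153401255003948))) N N) (B (A0 (K (.ofNat 13959346173881101416))) (B (K (.ofNat 1708530850535995080)) (K (.ofNat 11847671525527291104)) N N) N N) N N) N) (B (B (B (A2 (K (.ofNat 498178595852694012))) N (A0 (K (.ofNat 668205116877384084))) N) N (B (B (K (.ofNat 9290655332006455296)) (K (.negSucc 11054842503568600547)) N N) (B (K (.negSucc 7068307270151551187)) (K (.ofNat 10819008064184193696)) N N) N N) N) (B (B (A2 (K (.negSucc 308417092546221755))) N (B (K (.ofNat 1975663407977898492)) (K (.negSucc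 1819019564390301851)) N N) N) (B (A2 (K (.negSucc 165018815246687015))) (B N N (K (.ofNat 266545935970835376)) (K (.ofNat 76027021738955316))) (B (K (.negSucc 15839774521381949963)) (K (.ofNat 15735441949694022396)) N N) (B (K (.ofNat 257345122414141896)) (K (.negSucc 231888927123209687)) N N)) (B (B (K (.ofNat 29038958033896641168)) (K (.negSucc 43947612429598645907)) N N) (B (K (.negSucc 24186307607122686455)) (K (.ofNat 16954443501210136584)) N N) N N) (B (B (K (.ofNat 859979128113170760)) (K (.ofNat 5739626167736504928)) N N) (B (K (.ofNat 5845353712299671880)) (K (.ofNat 425414210728517808)) N N) N N)) (B (B (B (K (.negSucc 5096215610034217055)) (K (.ofNat 17193554792048942412)) N N) (B (K (.ofNat 9228038624313837936)) (K (.ofNat 1086806063697474504)) N N) N N) (B (B (K (.ofNat 8122277979672608784)) (K (.ofNat 23587283763858999000)) N N) (B (K (.ofNat 55942119603838993176)) (K (.negSucc 38832924053077819643)) N N) N N) N N) (B (B (B (K (.ofNat 3992145294798628800))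 (K (.negSucc 574066707294725159)) N N) (B (K (.negSucc 15088461645799184819)) (K (.ofNat 12673141686884126028)) N N) N N) (B (B (K (.negSucc 8016149175926236811)) (K (.ofNat 23803932585281007852)) N N) (B (K (.ofNat 12730301613373891152)) (K (.ofNat 470720908730337288)) N N) N N) N N)) (B (B (B (A0 (K (.ofNat 1557638775824490992))) (A1 (K (.negSucc 4236412193618005931))) N N) (B (B (K (.negSucc 4704209273273035735)) (K (.ofNat 16737250152966269836)) N N) (B (K (.ofNat 4975914352090672356)) (K (.ofNat 2630071440495209748)) N N) N N) N N) (B (B (B (K (.ofNat 2223068913293209056)) (K (.ofNat 1989686439223772816)) N N) (B (K (.ofNat 16079110563594313428)) (K (.negSucc 16513604633790763139)) N N) N N) (B (B (K (.negSucc 11326666008722451887)) (K (.ofNat 6927006361965161124)) N N) (B (K (.negSucc 9737300844414352811)) (K (.ofNat 6322841466332827944)) N N) N N) N N) N N) (B (B (B (A0 (K (.ofNat 2763014468033632744))) (A1 (K (.negSucc 7545767953380727127))) N N) (B (B (K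 (.ofNat 15889186644965163392)) (K (.ofNat 409415903828822720)) N N) (B (K (.ofNat 16409258441883243072)) (K (.negSucc 18919065733504432691)) N N) N N) N N) (B (B (B (K (.ofNat 13452674240361732852)) (K (.ofNat 2304297862367833036)) N N) (B (K (.ofNat 18092253749299027992)) (K (.negSucc 22679275131322792835)) N N) N N) (B (B (K (.ofNat 10401369590018424204)) (K (.ofNat 1820666663422550880)) N N) (B (K (.ofNat 6888148747162860336)) (K (.negSucc 269417691165463631)) N N) N N) N N) N N))⟩,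
  ⟨.z, .z, (B (B (B (A0 (A0 (K (.negSucc 1408265187620068711)))) (A1 (A1 (K (.negSucc 1220598680789849753)))) N N) (B (B (A1 (K (.negSucc 3032502393215795097))) (A0 (K (.ofNat 5322788487618463782))) N N) (B (B (K (.ofNat 2707912901521261066)) (K (.negSucc 15319232238785290077)) N N) (B (K (.negSucc 12253724588490706401)) (K (.negSucc 11283529866668873857)) N N) N N) N N) N N) (B (B (B (A0 (K (.negSucc 1851712593004852489))) (A1 (K (.ofNat 5511399458782717252))) N N) (B (B (K (.ofNat 4995595917802544972)) (K (.ofNat 6495590353894067834)) N N) (B (K (.ofNat 1798509215892900572)) (K (.ofNat 145070280271161882)) N N) N N) N N) (B (B (B (K (.ofNat 8310994596414281208)) (K (.ofNat 14265868250011316636)) N N) (B (K (.ofNat 19710141636991590608)) (K (.ofNat 11033237446117311330)) N N) N N) (B (B (K (.ofNat 7592218199581299432)) (K (.ofNat 3276878942371146518)) N N) (B (K (.ofNat 3153201043172717128)) (K (.ofNat 134751268075518504)) N N) N N) N N) N N) N N)⟩,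
  ⟨.x, T0, (B (B (B (A2 (K (.negSucc 41693711223103823))) N (A0 (K (.negSucc 15803511762425147))) N) N (B (B (K (.ofNat 31638194445254940)) (K (.ofNat 90101191791434328)) N N) (B (K (.ofNat 150294101538034704)) (K (.negSucc 70244723209336931)) N N) N N) N) (B (B (A2 (K (.ofNat 1034694526599496536))) N (B (K (.negSucc 218999276541741155)) (K (.negSucc 84975023138838407)) N N) N) (B (A2 (K (.negSucc 245197289628428339))) (B N N (K (.negSucc 1044385756456464635)) (K (.ofNat 110468293165465428))) (B (K (.negSucc 1480327358408897531)) (K (.ofNat 1494535364927632212)) N N) (B (K (.negSucc 37683884092761371)) (K (.negSucc 43642415716605287)) N N)) (B (B (K (.negSucc 573590941510320839)) (K (.ofNat 1857893438547305496)) N N) (B (K (.ofNat 2196949916507354892)) (K (.ofNat 220662717200913072)) N N) N N) (B (B (K (.negSucc 999395459760750491)) (K (.ofNat 756689775136061172)) N N) (B (K (.negSucc 272864103554922491)) (K (.negSucc 568186021566211931)) N N) N N)) (B (B (B (K (.ofNat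 97705851975162612)) (K (.negSucc 107987320493787311)) N N) (B (K (.ofNat 4442445682136052)) (K (.negSucc 615153729215402867)) N N) N N) (B (B (K (.ofNat 702601964069763852)) (K (.negSucc 1458561042802015715)) N N) (B (K (.ofNat 443979784318968228)) (K (.negSucc 313788811236817583)) N N) N N) N N) (B (B (B (K (.negSucc 5380053819995866415)) (K (.negSucc 1769084233957463879)) N N) (B (K (.negSucc 4286612709456084947)) (K (.ofNat 3289464967058577984)) N N) N N) (B (B (K (.negSucc 8144896351333508459)) (K (.negSucc 4282860101003887427)) N N) (B (K (.negSucc 9737818131775369751)) (K (.negSucc 671987756019646319)) N N) N N) N N))⟩,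
  ⟨.x, T1, (B (B (B (A2 (K (.negSucc 575879197916210531))) N (A0 (K (.ofNat 100632914073777672))) N) N (B (B (K (.negSucc 198647636058064751)) (K (.ofNat 1024613364237095376)) N N) (B (K (.negSucc 1203523987079064995)) (K (.ofNat 310035520486111560)) N N) N N) N) (B (B (A2 (K (.negSucc 304815972501442895))) N (B (K (.negSucc 1379485233463869779)) (K (.ofNat 1445726652031274724)) N N) N) (B (A2 (K (.ofNat 1644539642386799400))) (B N N (K (.ofNat 1260485989531741380)) (K (.ofNat 76784592258726672))) (B (K (.ofNat 607062478909141140)) (K (.negSucc 244547957528216615)) N N) (B (K (.negSucc 179429643641851907)) (K (.ofNat 93638763864732708)) N N)) (B (B (K (.negSucc 3896549325351721871)) (K (.negSucc 1391602390301860151)) N N) (B (K (.negSucc 987913466834913071)) (K (.ofNat 3274418206365972828)) N N) N N) (B (B (K (.negSucc 528338068149867239)) (K (.negSucc 2412597535143978923)) N N) (B (K (.negSucc 3741981474965285615)) (K (.ofNat 13368352824685068)) N N) N N)) (B (B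 (B (K (.negSucc 5571057429168531047)) (K (.negSucc 2730054837084328499)) N N) (B (K (.negSucc 6599926141807964651)) (K (.ofNat 1521665729165212548)) N N) N N) (B (B (K (.negSucc 5002487851568420267)) (K (.negSucc 2084176451384981051)) N N) (B (K (.negSucc 7028064678309575771)) (K (.negSucc 2469117756417664619)) N N) N N) N N) (B (B (B (K (.ofNat 571391419442275956)) (K (.negSucc 1414214829437353091)) N N) (B (K (.ofNat 1280388904858970388)) (K (.ofNat 1859302455912663744)) N N) N N) (B (B (K (.ofNat 2623618437175249632)) (K (.ofNat 1115897638317761880)) N N) (A0 (K (.negSucc 743404817594901863))) N N) N N))⟩,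
  ⟨.x, T2, (B (B (B (A0 (K (.negSucc 3048827270707054479))) (A1 (K (.ofNat 2773358268218664720))) N N) (B (B (K (.negSucc 6884932385309861767)) (K (.negSucc 4579292164449360583)) N N) (B (K (.negSucc 6161895813971822279)) (K (.ofNat 572950951362620700)) N N) N N) N N) (B (B (B (K (.negSucc 4695573850550781491)) (K (.negSucc 1664053667225876055)) N N) (B (K (.negSucc 4180366386115155983)) (K (.ofNat 3089186308100472852)) N N) N N) (B (B (K (.negSucc 6853527255212005223)) (K (.negSucc 2681576413586126807)) N N) (B (K (.negSucc 6613086725826774863)) (K (.ofNat 313255222196222160)) N N) N N) N N) N N)⟩,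
  ⟨.z, T0, (B (B (B (A0 (K (.negSucc 1557638775824490991))) (A1 (K (.ofNat 1393850376399689340))) N N) (B (B (K (.negSucc 4015993565767391283)) (K (.negSucc 2465138364612239331)) N N) (A0 (K (.negSucc 3915127560588469751))) N N) N N) (A0 (A0 (A1 (K (.ofNat 474615133181083852))))) N N)⟩,
  ⟨.x, T4, (B (A2 (A2 (K (.negSucc 316325805939922787)))) (A3 (A3 (K (.negSucc 18643646420279777)))) (B (A2 (K (.negSucc 269969833493974979))) (B N N (K (.negSucc 68629161254814989)) (K (.ofNat 9897846230058696))) (B (K (.ofNat 75640980746384856)) (K (.ofNat 336178761810806334)) N N) N) (B (A2 (K (.ofNat 145505396315257380))) (B N N (K (.negSucc 201977341968040145)) (K (.negSucc 7307427273075029))) (B (K (.ofNat 153444877621703076)) (K (.ofNat 92477078689952562)) N N) (A1 (K (.negSucc 561847858254359)))))⟩,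
  ⟨.x, T5, (B N (B N (B N N (K (.negSucc 205082853032041487)) (K (.negSucc 85766260230197603))) N (A1 (K (.ofNat 37523398888972440)))) N (A1 (A1 (K (.ofNat 1533087978163704)))))⟩,
  ⟨.x, T6, (B (A2 (A2 (K (.ofNat 18149490014217408)))) (A3 (A3 (K (.negSucc 34800730064354393)))) (B (A2 (K (.negSucc 18401835391351631))) (B N N (K (.negSucc 517061667101467475)) (K (.negSucc 405132962970365279))) (B (K (.negSucc 27238629956883911)) (K (.ofNat 675585206844052644)) N N) N) (B (A2 (K (.negSucc 298204387812238673))) (B N N (K (.negSucc 1321070839509795581)) (K (.ofNat 26827495884381342))) (B (K (.ofNat 140136244254696456)) (K (.ofNat 1173025251004232838)) N N) (B (K (.ofNat 306789709446831042)) (K (.negSucc 23466996031324895)) N N)))⟩,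
  ⟨.x, T7, (B (B (A2 (K (.negSucc 131451127044854111))) N (B (K (.negSucc 67008094243968527)) (K (.ofNat 348171469750320804)) N N) N) (B (A2 (K (.negSucc 161081827777247939))) (B N N (K (.ofNat 185146605629336268)) (K (.ofNat 67033677426864696))) (B (K (.negSucc 12499928984421395)) (K (.ofNat 1007250855468573888)) N N) (B (K (.ofNat 540480730033894020)) (K (.negSucc 278878061984707895)) N N)) (B (B (K (.negSucc 31255571033235107)) (K (.negSucc 389126845901202407)) N N) (B (K (.negSucc 252123350799532679)) (K (.negSucc 185377506505048019)) N N) N N) (B (B (K (.negSucc 58450702245092447)) (K (.ofNat 765418940270047332)) N N) (B (K (.negSucc 153490041110780939)) (K (.negSucc 156855094195840499)) N N) N N))⟩,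
  ⟨.x, T8, (B (B (A2 (K (.ofNat 2875551160627800))) N (B (K (.negSucc 104030566528026599)) (K (.ofNat 142037653085738712)) N N) N) (B (A2 (K (.ofNat 336485427953839272))) (B N N (K (.ofNat 1220084085315271500)) (K (.negSucc 72395452036439783))) (B (K (.negSucc 332183091854333819)) (K (.ofNat 677137248722693244)) N N) (B (K (.negSucc 159088830998175971)) (K (.negSucc 57006175046040143)) N N)) (B (B (K (.negSucc 62292263402057579)) (K (.negSucc 385046181781713323)) N N) (B (K (.negSucc 217229314106997743)) (K (.negSucc 265454954657495387)) N N) N N) (B (B (K (.negSucc 565710923903674679)) (K (.negSucc 130826817480087179)) N N) (B (K (.negSucc 1483124889942002327)) (K (.negSucc 31325833472384171)) N N) N N))⟩,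
  ⟨.x, T9, (A0 (B (B (K (.negSucc 66450280941927503)) (K (.negSucc 329687511399861767)) N N) (B (K (.negSucc 365370627956813603)) (K (.negSucc 162792540197285531)) N N) N N))⟩,
  ⟨.x, T10, (A1 (B (A2 (K (.ofNat 194787820272547800))) (B N N (K (.ofNat 442765783008183528)) (K (.negSucc 140740906058343239))) (B (K (.negSucc 166159137580868735)) (K (.ofNat 497116139915733960)) N N) (A1 (K (.ofNat 46951960997725632)))))⟩,
  ⟨.x, T11, (A1 (B (B (K (.ofNat 312638202905105112)) (K (.negSucc 164168348133604127)) N N) (B (K (.ofNat 460648622808099864)) (K (.negSucc 62370944886845231)) N N) N N))⟩,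
  ⟨.x, T28, (A3 (A3 (K (.negSucc 2460147408336647))))⟩,
  ⟨.x, T29, (B N (A3 (K (.ofNat 76787561251868640))) N (A1 (K (.negSucc 14049439895305655))))⟩,
  ⟨.x, T12, (B N N (A2 (K (.negSucc 40040807688883715))) (B N N (K (.negSucc 137084360071154525)) (K (.negSucc 297093154011677753))))⟩,
  ⟨.x, T13, (B (A2 (K (.ofNat 46537147685271060))) (B N N (K (.ofNat 195700975716254580)) (K (.ofNat 173194930816648524))) (B (K (.ofNat 30645808207014672)) (K (.negSucc 254689305929392499)) N N) (B (K (.negSucc 144391758584976827)) (K (.ofNat 16859319359906520)) N N))⟩,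
  ⟨.x, T14, (B (A2 (K (.negSucc 27404373194850203))) (B N N (K (.ofNat 175314792983422428)) (K (.ofNat 356183083384891956))) (B (K (.ofNat 76685698252493568)) (K (.negSucc 329742705587977007)) N N) (B (K (.negSucc 23873655401303903)) (K (.ofNat 103710048401369268)) N N))⟩,
  ⟨.x, T20, (A0 (B (K (.ofNat 31255571033235108)) (K (.ofNat 52264372940471484)) N N))⟩,
  ⟨.x, T30, (B (A2 (K (.ofNat 44404904860447656))) N (B (K (.negSucc 23868698673548267)) (K (.negSucc 225783949403986259)) N N) N)⟩,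
  ⟨.x, T24, (A0 (A0 (K (.negSucc 601502076432467))))⟩,
  ⟨.x, T31, (B N (A3 (K (.negSucc 21415278643004231))) N (A1 (K (.ofNat 24039625250624760))))⟩,
  ⟨.x, T32, (B N (A3 (K (.negSucc 3558897713487935))) N (A1 (K (.negSucc 22914132640608455))))⟩,
  ⟨.x, T15, (B (B (K (.negSucc 98307354051595079)) (K (.negSucc 92975874052719167)) N N) (B (K (.negSucc 46234353468441599)) (K (.ofNat 41628010340741832)) N N) N N)⟩,
  ⟨.x, T33, (A1 (A1 (K (.ofNat 44694186297069240))))⟩,
  ⟨.x, T16, (B N N (K (.ofNat 7461792037534464)) (K (.ofNat 105055235378138304)))⟩,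
  ⟨.x, T18, (B N N (K (.negSucc 2684853906457715)) (K (.ofNat 66286391093734644)))⟩,
  ⟨.x, T34, (A2 (K (.ofNat 109633498647975540)))⟩,
  ⟨.x, T35, (A3 (K (.negSucc 39589030902642227)))⟩,
  ⟨.x, T36, (A0 (K (.negSucc 44285342484890303)))⟩,
  ⟨.z, T16, (A0 (K (.ofNat 20000688643482624)))⟩,
  ⟨.z, T18, (A0 (K (.ofNat 39908446280607744)))⟩,
  ⟨.x, T22, (K (.negSucc 43837531030758527))⟩,
  ⟨.x, T26, (K (.ofNat 413169041424384))⟩,
  ⟨.z, T17, (K (.negSucc 76758964789247))⟩] c_10 c_11 c_12 c_13 .nil .nil)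

def c_200 : Cert := (.node [⟨.x, .z, (B (B (B (K (.negSucc 1496736804777025139)) (K (.ofNat 1125787855356122868)) N N) (B (K (.negSucc 1224142062250994711)) (K (.negSucc 23383742384546795)) N N) N N) (B (B (K (.negSucc 1560025553780851919)) (K (.ofNat 2704719846557204532)) N N) (B (K (.ofNat 4079609632344021888)) (K (.negSucc 1202334018135508859)) N N) N N) N N)⟩,
  ⟨.x, T0, (B (B (K (.ofNat 1729912792765504368)) (K (.negSucc 2626931139070378055)) N N) (B (K (.negSucc 13845438017259995)) (K (.negSucc 755494334238755999)) N N) N N)⟩,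
  ⟨.x, T1, (B (B (K (.ofNat 2206076727235662876)) (K (.ofNat 128058089651223732)) N N) (B (K (.ofNat 2168681751691416444)) (K (.ofNat 799188777422770560)) N N) N N)⟩,
  ⟨.x, T4, (B N N (K (.negSucc 13092937227488999)) (K (.negSucc 69299320632650219)))⟩,
  ⟨.x, T5, (A1 (K (.negSucc 140100560441525879)))⟩,
  ⟨.x, T6, (B N N (K (.ofNat 405421830533423382)) (K (.negSucc 19285452024321335)))⟩,
  ⟨.x, T7, (B (K (.ofNat 4015642961453603928)) (K (.negSucc 809729610042623255)) N N)⟩,
  ⟨.x, T8, (B (K (.ofNat 2287559785107591204)) (K (.ofNat 594043245826669884)) N N)⟩,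
  ⟨.x, T10, (A1 (K (.negSucc 230663335964916455)))⟩,
  ⟨.x, T29, (K (.ofNat 117343326474734808))⟩,
  ⟨.x, T13, (K (.negSucc 1223588684412815615))⟩,
  ⟨.x, T14, (K (.ofNat 261069607723186080))⟩,
  ⟨.x, T30, (K (.ofNat 122940776548942044))⟩,
  ⟨.x, T31, (K (.negSucc 20547758945083103))⟩,
  ⟨.x, T32, (K (.ofNat 107722559415974412))⟩] (.node [⟨.x, .z, (B (B (K (.negSucc 2736538588649582975)) (K (.negSucc 413868800273365163)) N N) (B (K (.ofNat 21626255512672860)) (K (.ofNat 826607134705932300)) N N) N N)⟩,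
  ⟨.x, T0, (B (K (.negSucc 1114887382903259951)) (K (.ofNat 1314233100178901532)) N N)⟩,
  ⟨.x, T1, (B (K (.ofNat 356122143386429196)) (K (.ofNat 285915086318470224)) N N)⟩,
  ⟨.x, T5, (K (.negSucc 58638403137363923))⟩,
  ⟨.x, T7, (K (.ofNat 1958793040868195028))⟩,
  ⟨.x, T8, (K (.ofNat 312579533145658212))⟩,
  ⟨.x, T10, (K (.ofNat 21562722091008))⟩] (.node [⟨.x, .z, (B (K (.negSucc 471830966533650527)) (K (.ofNat 280693169956568628)) N N)⟩,
  ⟨.x, T0, (K (.negSucc 208337768668538543))⟩,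
  ⟨.x, T1, (K (.negSucc 58640777794561283))⟩] (.node [⟨.x, .z, (K (.ofNat 175874458625107116))⟩] .nil .nil .nil .nil .nil .nil) (.node [⟨.x, .z, (K (.negSucc 279642003481780883))⟩] .nil .nil .nil .nil .nil .nil) .nil .nil .nil .nil) (.node [⟨.x, .z, (B (K (.negSucc 1773235972758687695)) (K (.negSucc 1405691959450788239)) N N)⟩,
  ⟨.x, T0, (K (.ofNat 420521812482235884))⟩,
  ⟨.x, T1, (K (.ofNat 454994526818292216))⟩] (.node [⟨.x, .z, (K (.negSucc 1074204478301974319))⟩] .nil .nil .nil .nil .nil .nil) (.node [⟨.x, .z, (K (.negSucc 1281649275762314255))⟩] .nil .nil .nil .nil .nil .nil) .nil .nil .nil .nil) .nil .nil .nil .nil) (.node [⟨.x, .z, (B (B (K (.ofNat 542235505194556068)) (K (.negSucc 367196844661345523)) N N) (B (K (.negSucc 5408668240511544875)) (K (.ofNat 3762957858798880728)) N N) N N)⟩,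
  ⟨.x, T0, (B (K (.ofNat 395651105647266504)) (K (.negSucc 607673864315038163)) N N)⟩,
  ⟨.x, T1, (B (K (.ofNat 1040914306247816700)) (K (.ofNat 1053579686678486520)) N N)⟩,
  ⟨.x, T5, (K (.negSucc 1091421012704001419))⟩,
  ⟨.x, T7, (K (.ofNat 2863732211344642176))⟩,
  ⟨.x, T8, (K (.ofNat 3340819904135111244))⟩,
  ⟨.x, T10, (K (.ofNat 1511384042690996376))⟩] (.node [⟨.x, .z, (B (K (.negSucc 3945364221232016687)) (K (.ofNat 2909932340968643592)) N N)⟩,
  ⟨.x, T0, (K (.negSucc 1027829986247438303))⟩,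
  ⟨.x, T1, (K (.negSucc 494765493364573325))⟩] (.node [⟨.x, .z, (K (.negSucc 1083058347031956077))⟩] .nil .nil .nil .nil .nil .nil) (.node [⟨.x, .z, (K (.negSucc 3017602964328208577))⟩] .nil .nil .nil .nil .nil .nil) .nil .nil .nil .nil) (.node [⟨.x, .z, (B (K (.ofNat 136438057213255392)) (K (.ofNat 35159009091455172)) N N)⟩,
  ⟨.x, T0, (K (.negSucc 218899115303278283))⟩,
  ⟨.x, T1, (K (.negSucc 2196105069409440755))⟩] (.node [⟨.x, .z, (K (.negSucc 2869542505277528723))⟩] .nil .nil .nil .nil .nil .nil) (.node [⟨.x, .z, (K (.negSucc 2807052665841389867))⟩] .nil .nil .nil .nil .nil .nil) .nil .nil .nil .nil) .nil .nil .nil .nil) (.node [⟨.x, T4, (K (.negSucc 43587400235445653))⟩,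
  ⟨.x, T6, (K (.ofNat 62315200719479022))⟩] .nil .nil .nil .nil .nil .nil) (.node [⟨.x, T4, (K (.negSucc 523561727718880493))⟩,
  ⟨.x, T6, (K (.ofNat 1294751211993880578))⟩] .nil .nil .nil .nil .nil .nil) .nil .nil)

def c_201 : Cert := (.node [⟨.x, .z, (B (B (B (K (.negSucc 2040007985741822123)) (K (.negSucc 2144953809445453439)) N N) (B (K (.ofNat 2715723434601998856)) (K (.ofNat 2905420310610216672)) N N) N N) (B (B (K (.negSucc 8295264582876947087)) (K (.negSucc 1201842003834554291)) N N) (B (K (.ofNat 1154214553156299684)) (K (.ofNat 3877484879877219240)) N N) N N) N N)⟩,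
  ⟨.x, T0, (B (B (K (.ofNat 3740090255581929480)) (K (.ofNat 6093798985268192352)) N N) (B (K (.negSucc 675033302137109327)) (K (.ofNat 637817743982866188)) N N) N N)⟩,
  ⟨.x, T1, (B (B (K (.negSucc 506363317164116579)) (K (.negSucc 1090443668089246883)) N N) (B (K (.negSucc 1962868656588296939)) (K (.negSucc 3364201766904612731)) N N) N N)⟩,
  ⟨.x, T4, (B N N (K (.negSucc 781689903385439957)) (K (.negSucc 794338345324435253)))⟩,
  ⟨.x, T5, (A1 (K (.negSucc 2601131486335188911)))⟩,
  ⟨.x, T6, (B N N (K (.negSucc 158209374944653241)) (K (.ofNat 728942618678524194)))⟩,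
  ⟨.x, T7, (B (K (.ofNat 6580253298930963456)) (K (.ofNat 2400799046169984936)) N N)⟩,
  ⟨.x, T8, (B (K (.ofNat 1636763627327262336)) (K (.negSucc 1571124509287828067)) N N)⟩,
  ⟨.x, T10, (A1 (K (.negSucc 4740105523445933087)))⟩,
  ⟨.x, T29, (K (.ofNat 2190641384584017120))⟩,
  ⟨.x, T13, (K (.negSucc 1550282899701076379))⟩,
  ⟨.x, T14, (K (.negSucc 4364884282832891))⟩,
  ⟨.x, T30, (K (.ofNat 1038089921375428572))⟩,
  ⟨.x, T31, (K (.negSucc 563261930297188919))⟩,
  ⟨.x, T32, (K (.ofNat 1450601165331500196))⟩] (.node [⟨.x, .z, (B (B (K (.negSucc 4614008891843436707)) (K (.negSucc 389268685598493623)) N N) (B (K (.negSucc 2910109852028084075)) (K (.ofNat 8746365722404828560)) N N) N N)⟩,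
  ⟨.x, T0, (B (K (.ofNat 1549092032029839108)) (K (.negSucc 4334984357198369195)) N N)⟩,
  ⟨.x, T1, (B (K (.negSucc 1354532542628849807)) (K (.ofNat 1674965143920823776)) N N)⟩,
  ⟨.x, T5, (K (.ofNat 121639841302554960))⟩,
  ⟨.x, T7, (K (.ofNat 4877505120519771516))⟩,
  ⟨.x, T8, (K (.ofNat 1682885176261058196))⟩,
  ⟨.x, T10, (K (.ofNat 626962543854437532))⟩] (.node [⟨.x, .z, (B (K (.ofNat 1777624562178857028)) (K (.ofNat 6699442403676937320)) N N)⟩,
  ⟨.x, T0, (K (.negSucc 1836496802691648971))⟩,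
  ⟨.x, T1, (K (.negSucc 3627675507647428481))⟩] (.node [⟨.x, .z, (K (.ofNat 2724627745624000314))⟩] .nil .nil .nil .nil .nil .nil) (.node [⟨.x, .z, (K (.ofNat 433011782132188434))⟩] .nil .nil .nil .nil .nil .nil) .nil .nil .nil .nil) (.node [⟨.x, .z, (B (K (.ofNat 1854349698149592252)) (K (.negSucc 498331212970406927)) N N)⟩,
  ⟨.x, T0, (K (.negSucc 375827897459878079))⟩,
  ⟨.x, T1, (K (.negSucc 1927389798264595307))⟩] (.node [⟨.x, .z, (K (.ofNat 1025768153424819756))⟩] .nil .nil .nil .nil .nil .nil) (.node [⟨.x, .z, (K (.negSucc 1345388371781765975))⟩] .nil .nil .nil .nil .nil .nil) .nil .nil .nil .nil) .nil .nil .nil .nil) (.node [⟨.x, .z, (B (B (K (.ofNat 823874109238636176)) (K (.negSucc 2662960693709736923)) N N) (B (K (.negSucc 4241884394447216243)) (K (.ofNat 1721955892000082592)) N N) N N)⟩,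
  ⟨.x, T0, (B (K (.ofNat 4374371219375197824)) (K (.negSucc 2338923706345560179)) N N)⟩,
  ⟨.x, T1, (B (K (.negSucc 2620752328868337719)) (K (.ofNat 6778392751999689324)) N N)⟩,
  ⟨.x, T5, (K (.negSucc 2014452019506917423))⟩,
  ⟨.x, T7, (K (.ofNat 4000464469801330188))⟩,
  ⟨.x, T8, (K (.ofNat 3413995452695148552))⟩,
  ⟨.x, T10, (K (.negSucc 66749946656535323))⟩] (.node [⟨.x, .z, (B (K (.negSucc 135798605776138367)) (K (.ofNat 4454194893607659648)) N N)⟩,
  ⟨.x, T0, (K (.negSucc 3848283642387991631))⟩,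
  ⟨.x, T1, (K (.negSucc 1316309878298706185))⟩] (.node [⟨.x, .z, (K (.ofNat 1336499883228711390))⟩] .nil .nil .nil .nil .nil .nil) (.node [⟨.x, .z, (K (.negSucc 3377147635221544169))⟩] .nil .nil .nil .nil .nil .nil) .nil .nil .nil .nil) (.node [⟨.x, .z, (B (K (.ofNat 302086281138373620)) (K (.negSucc 4362566034633658655)) N N)⟩,
  ⟨.x, T0, (K (.ofNat 493406694255469092))⟩,
  ⟨.x, T1, (K (.negSucc 463106923936985327))⟩] (.node [⟨.x, .z, (K (.negSucc 3681630095651015003))⟩] .nil .nil .nil .nil .nil .nil) (.node [⟨.x, .z, (K (.negSucc 4188408679426695779))⟩] .nil .nil .nil .nil .nil .nil) .nil .nil .nil .nil) .nil .nil .nil .nil) (.node [⟨.x, T4, (K (.negSucc 682152057987942065))⟩,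
  ⟨.x, T6, (K (.negSucc 9744289103657819801))⟩] .nil .nil .nil .nil .nil .nil) (.node [⟨.x, T4, (K (.negSucc 404758136978788445))⟩,
  ⟨.x, T6, (K (.negSucc 3729375085118048645))⟩] .nil .nil .nil .nil .nil .nil) .nil .nil)

def c_20 : Cert := (.node [⟨.x, .z, (B (B (B (A0 (K (.ofNat 4559449906480505316))) (A1 (K (.negSucc 962793662116925519))) N N) (B (B (K (.ofNat 7324955067187075164)) (K (.ofNat 10016127533272415268)) N N) (B (K (.ofNat 2865101400449062320)) (K (.negSucc 1130949968890284311)) N N) N N) N N) (B (B (B (K (.ofNat 13297732884077504184)) (K (.ofNat 2633166525723848772)) N N) (B (K (.ofNat 15862062085679582724)) (K (.negSucc 7942323536708622347)) N N) N N) (B (B (K (.ofNat 14368264817572092000)) (K (.ofNat 5387273537506614432)) N N) (B (K (.ofNat 15818983293633994572)) (K (.negSucc 1001035218185294123)) N N) N N) N N) N N)⟩,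
  ⟨.x, T0, (B (B (B (K (.negSucc 1570952457714653243)) (K (.ofNat 3441498791134077408)) N N) (B (K (.negSucc 5126550835482814163)) (K (.ofNat 3470332644241502508)) N N) N N) (B (B (K (.negSucc 2525673000015279911)) (K (.ofNat 3414750642267468084)) N N) (B (K (.negSucc 4406936055772918415)) (K (.ofNat 2909023034048140212)) N N) N N) N N)⟩,
  ⟨.x, T1, (B (B (B (K (.negSucc 796517418269790419)) (K (.negSucc 1382010090778567739)) N N) (B (K (.ofNat 616713507044138196)) (K (.negSucc 755119244339686211)) N N) N N) (B (B (K (.negSucc 1934308914991215335)) (K (.negSucc 1440192872257678475)) N N) (B (K (.ofNat 4864710094505969232)) (K (.negSucc 422167617901341143)) N N) N N) N N)⟩,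
  ⟨.x, T4, (B (A2 (K (.negSucc 763091054485128851))) (B N N (K (.negSucc 692961235462763357)) (K (.ofNat 5027130958399914))) (B (K (.ofNat 799872492265335258)) (K (.ofNat 834158151496522062)) N N) (B (K (.ofNat 309280770534689940)) (K (.ofNat 165029376441861582)) N N))⟩,
  ⟨.x, T5, (A1 (A1 (K (.negSucc 56743120162893191))))⟩,
  ⟨.x, T6, (B (A2 (K (.negSucc 47735659786251401))) (B N N (K (.ofNat 738196926916066968)) (K (.negSucc 731101008430183775))) (B (K (.negSucc 713565398029789913)) (K (.ofNat 132420876691645122)) N N) (B (K (.negSucc 854969232344934629)) (K (.negSucc 1389383609932925543)) N N))⟩,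
  ⟨.x, T7, (B (B (K (.negSucc 38673084787560467)) (K (.ofNat 3003154831735127496)) N N) (B (K (.ofNat 2590350679457344608)) (K (.ofNat 2090496945472673808)) N N) N N)⟩,
  ⟨.x, T8, (B (B (K (.ofNat 1588857643012327884)) (K (.negSucc 169452984183575651)) N N) (B (K (.ofNat 5231351261270325576)) (K (.negSucc 102151757534622263)) N N) N N)⟩,
  ⟨.x, T10, (A1 (B (K (.ofNat 1376034313937206476)) (K (.negSucc 373944807585433475)) N N))⟩,
  ⟨.x, T28, (A3 (K (.ofNat 68181547952007840)))⟩,
  ⟨.x, T29, (A1 (K (.negSucc 9128318738222879)))⟩,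
  ⟨.x, T12, (B N N (K (.negSucc 252957309229929989)) (K (.ofNat 92947318415253288)))⟩,
  ⟨.x, T13, (B (K (.ofNat 45265822013232324)) (K (.negSucc 170225329514736131)) N N)⟩,
  ⟨.x, T14, (B (K (.ofNat 19978937099264304)) (K (.negSucc 212342992032946823)) N N)⟩,
  ⟨.x, T30, (A0 (K (.negSucc 379690332818460299)))⟩,
  ⟨.x, T31, (A1 (K (.negSucc 117634908903256583)))⟩,
  ⟨.x, T32, (A1 (K (.negSucc 14825133106186787)))⟩,
  ⟨.x, T16, (K (.ofNat 49187996014401216))⟩,
  ⟨.x, T18, (K (.ofNat 4898131960100148))⟩,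
  ⟨.x, T34, (K (.negSucc 228832596142821215))⟩,
  ⟨.x, T43, (K (.negSucc 126434508488154719))⟩,
  ⟨.x, T45, (K (.negSucc 61237828377774719))⟩,
  ⟨.x, T35, (K (.negSucc 16752316477075955))⟩] c_200 c_201 (.node [⟨.x, T4, (B (K (.ofNat 497327584832536164)) (K (.ofNat 13849461857938686)) N N)⟩,
  ⟨.x, T6, (B (K (.ofNat 1285754644091395926)) (K (.ofNat 1053714935998968558)) N N)⟩,
  ⟨.x, T28, (K (.ofNat 82920203039901360))⟩,
  ⟨.x, T12, (K (.ofNat 311356938521571726))⟩] (.node [⟨.x, T4, (K (.negSucc 102206935990979945))⟩,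
  ⟨.x, T6, (K (.ofNat 581093092046028240))⟩] .nil .nil .nil .nil .nil .nil) (.node [⟨.x, T4, (K (.ofNat 781712107751959062))⟩,
  ⟨.x, T6, (K (.ofNat 4601647145668416438))⟩] .nil .nil .nil .nil .nil .nil) .nil .nil .nil .nil) (.node [⟨.x, T4, (B (K (.negSucc 6608569491802808291)) (K (.negSucc 14470239672426236621)) N N)⟩,
  ⟨.x, T6, (B (K (.ofNat 25934996028370976694)) (K (.ofNat 16384220760937141602)) N N)⟩,
  ⟨.x, T28, (K (.negSucc 28741469542383270455))⟩,
  ⟨.x, T12, (K (.ofNat 19529378472632064246))⟩] (.node [⟨.x, T4, (K (.ofNat 674266586387551332))⟩,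
  ⟨.x, T6, (K (.negSucc 32439474686534262941))⟩] .nil .nil .nil .nil .nil .nil) (.node [⟨.x, T4, (K (.ofNat 14065664908484406840))⟩,
  ⟨.x, T6, (K (.negSucc 29347999331470066379))⟩] .nil .nil .nil .nil .nil .nil) .nil .nil .nil .nil) .nil .nil)

def c_210 : Cert := (.node [⟨.x, .z, (B (B (B (K (.negSucc 7760323346687793023)) (K (.ofNat 20879425269535461384)) N N) (B (K (.negSucc 501202200442051799)) (K (.ofNat 3559435242048744696)) N N) N N) (B (B (K (.negSucc 16724018781501407339)) (K (.ofNat 1567819006797463536)) N N) (B (K (.ofNat 8730972184330590636)) (K (.negSucc 70708579035008005019)) N N) N N) N N)⟩,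
  ⟨.x, T0, (B (B (K (.ofNat 6653452475647326444)) (K (.negSucc 19870004132632238543)) N N) (B (K (.negSucc 15990144931785594983)) (K (.ofNat 69013948536585862512)) N N) N N)⟩,
  ⟨.x, T1, (B (B (K (.ofNat 20924057573912834460)) (K (.ofNat 11861410106988818676)) N N) (B (K (.ofNat 29791196929966517292)) (K (.negSucc 8469002936075518871)) N N) N N)⟩,
  ⟨.x, T4, (B N N (K (.ofNat 778342834146058944)) (K (.negSucc 5782716215292053945)))⟩,
  ⟨.x, T5, (A1 (K (.negSucc 14240740418308367855)))⟩,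
  ⟨.x, T6, (B N N (K (.negSucc 4336354155190241459)) (K (.ofNat 4434611210875694244)))⟩,
  ⟨.x, T7, (B (K (.ofNat 16050784559446219380)) (K (.negSucc 10190876541421989875)) N N)⟩,
  ⟨.x, T8, (B (K (.ofNat 12327866126416387788)) (K (.ofNat 2317871289131263092)) N N)⟩,
  ⟨.x, T10, (A1 (K (.negSucc 17368231127147713223)))⟩,
  ⟨.x, T29, (K (.ofNat 11491128227696452896))⟩,
  ⟨.x, T13, (K (.negSucc 3557410798709553479))⟩,
  ⟨.x, T14, (K (.ofNat 1367609886036743832))⟩,
  ⟨.x, T30, (K (.ofNat 7229447349025477008))⟩,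
  ⟨.x, T31, (K (.negSucc 6646816334273004863))⟩,
  ⟨.x, T32, (K (.ofNat 10163787415399707456))⟩] (.node [⟨.x, .z, (B (B (K (.negSucc 18752728591674161747)) (K (.negSucc 18710097267275904623)) N N) (B (K (.ofNat 6059509115815731840)) (K (.negSucc 27123073728419318255)) N N) N N)⟩,
  ⟨.x, T0, (B (K (.ofNat 11501079564974439132)) (K (.ofNat 28953763229802510012)) N N)⟩,
  ⟨.x, T1, (B (K (.negSucc 13593579423724808027)) (K (.ofNat 19183789245119182428)) N N)⟩,
  ⟨.x, T5, (K (.negSucc 5280907664960780879))⟩,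
  ⟨.x, T7, (K (.ofNat 24972243710773380168))⟩,
  ⟨.x, T8, (K (.ofNat 4248204155385538884))⟩,
  ⟨.x, T10, (K (.negSucc 844708254746263739))⟩] (.node [⟨.x, .z, (B (K (.ofNat 11490019193362234080)) (K (.ofNat 14449257337194347628)) N N)⟩,
  ⟨.x, T0, (K (.negSucc 25009570827538627727))⟩,
  ⟨.x, T1, (K (.negSucc 4997000153254483907))⟩] (.node [⟨.x, .z, (K (.ofNat 18218514653234403648))⟩] .nil .nil .nil .nil .nil .nil) (.node [⟨.x, .z, (K (.ofNat 2341176498634773672))⟩] .nil .nil .nil .nil .nil .nil) .nil .nil .nil .nil) (.node [⟨.x, .z, (B (K (.ofNat 7691174886835266672)) (K (.negSucc 12568911745391269619)) N N)⟩,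
  ⟨.x, T0, (K (.negSucc 6663850199025590891))⟩,
  ⟨.x, T1, (K (.negSucc 142358193470072681))⟩] (.node [⟨.x, .z, (K (.ofNat 2590083301830649704))⟩] .nil .nil .nil .nil .nil .nil) (.node [⟨.x, .z, (K (.negSucc 14645543518205852741))⟩] .nil .nil .nil .nil .nil .nil) .nil .nil .nil .nil) .nil .nil .nil .nil) (.node [⟨.x, .z, (B (B (K (.ofNat 35411220337074524196)) (K (.negSucc 8936384413766535839)) N N) (B (K (.negSucc 8389376708079718907)) (K (.ofNat 39046826538632035392)) N N) N N)⟩,
  ⟨.x, T0, (B (K (.ofNat 5844438155011614540)) (K (.ofNat 25078778197514675040)) N N)⟩,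
  ⟨.x, T1, (B (K (.negSucc 24283064801053539239)) (K (.ofNat 1211932025121561372)) N N)⟩,
  ⟨.x, T5, (K (.negSucc 7176656415452189663))⟩,
  ⟨.x, T7, (K (.ofNat 17293449926641456116))⟩,
  ⟨.x, T8, (K (.ofNat 8028695893748169672))⟩,
  ⟨.x, T10, (K (.negSucc 7702423602501873011))⟩] (.node [⟨.x, .z, (B (K (.negSucc 3966440538574310723)) (K (.ofNat 3873204452832350952)) N N)⟩,
  ⟨.x, T0, (K (.negSucc 16556584340921012915))⟩,
  ⟨.x, T1, (K (.ofNat 5468797240002463248))⟩] (.node [⟨.x, .z, (K (.ofNat 8904823786179024318))⟩] .nil .nil .nil .nil .nil .nil) (.node [⟨.x, .z, (K (.negSucc 6419321713176857483))⟩] .nil .nil .nil .nil .nil .nil) .nil .nil .nil .nil) (.node [⟨.x, .z, (B (K (.negSucc 8724818112963892823)) (K (.ofNat 8256580541549237760)) N N)⟩,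
  ⟨.x, T0, (K (.ofNat 2288086491163666536))⟩,
  ⟨.x, T1, (K (.negSucc 5411634609787606913))⟩] (.node [⟨.x, .z, (K (.negSucc 7429777509871996247))⟩] .nil .nil .nil .nil .nil .nil) (.node [⟨.x, .z, (K (.negSucc 14930625044317038413))⟩] .nil .nil .nil .nil .nil .nil) .nil .nil .nil .nil) .nil .nil .nil .nil) (.node [⟨.x, T4, (K (.negSucc 872513088247144067))⟩,
  ⟨.x, T6, (K (.negSucc 14095162475294354735))⟩] .nil .nil .nil .nil .nil .nil) (.node [⟨.x, T4, (K (.negSucc 4511154800145380033))⟩,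
  ⟨.x, T6, (K (.negSucc 13647599944072143461))⟩] .nil .nil .nil .nil .nil .nil) .nil .nil)

def c_211 : Cert := (.node [⟨.x, .z, (B (B (B (K (.negSucc 44540918403803830523)) (K (.negSucc 7070152800519879947)) N N) (B (K (.negSucc 28561053958544140583)) (K (.ofNat 24984196018243975872)) N N) N N) (B (B (K (.negSucc 30557207031948799751)) (K (.ofNat 22431197020778662332)) N N) (B (K (.negSucc 3494217568441813955)) (K (.ofNat 25235062850188377372)) N N) N N) N N)⟩,
  ⟨.x, T0, (B (B (K (.negSucc 20848890864213074255)) (K (.negSucc 2719461627604229039)) N N) (B (K (.negSucc 33014328289837136927)) (K (.ofNat 22104452153707417644)) N N) N N)⟩,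
  ⟨.x, T1, (B (B (K (.ofNat 37551227765870668608)) (K (.ofNat 26570828092983541260)) N N) (B (K (.ofNat 26991428273517961848)) (K (.negSucc 22958550806686461491)) N N) N N)⟩,
  ⟨.x, T4, (B N N (K (.ofNat 6603230752321239318)) (K (.negSucc 14976842465393879675)))⟩,
  ⟨.x, T5, (A1 (K (.negSucc 10297768322305445507)))⟩,
  ⟨.x, T6, (B N N (K (.negSucc 9589266097385536481)) (K (.ofNat 17787389882912612508)))⟩,
  ⟨.x, T7, (B (K (.negSucc 37335208931909087)) (K (.ofNat 3999331236682623060)) N N)⟩,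
  ⟨.x, T8, (B (K (.negSucc 176139359229876383)) (K (.negSucc 9406942063504564583)) N N)⟩,
  ⟨.x, T10, (A1 (K (.negSucc 14687361573671076815)))⟩,
  ⟨.x, T29, (K (.ofNat 13619646968402114112))⟩,
  ⟨.x, T13, (K (.ofNat 5319489414373361028))⟩,
  ⟨.x, T14, (K (.ofNat 8370477161128602972))⟩,
  ⟨.x, T30, (K (.ofNat 7890358856364280884))⟩,
  ⟨.x, T31, (K (.negSucc 781712557784841455))⟩,
  ⟨.x, T32, (K (.ofNat 11564150305495467432))⟩] (.node [⟨.x, .z, (B (B (K (.ofNat 3121583292062378424)) (K (.ofNat 1692520619052395724)) N N) (B (K (.negSucc 19571830120729764023)) (K (.ofNat 62574342544329545616)) N N) N N)⟩,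
  ⟨.x, T0, (B (K (.ofNat 22328664089257948668)) (K (.ofNat 9520352798209821816)) N N)⟩,
  ⟨.x, T1, (B (K (.negSucc 16931306775826350803)) (K (.negSucc 17179342749445818971)) N N)⟩,
  ⟨.x, T5, (K (.negSucc 185325088696796315))⟩,
  ⟨.x, T7, (K (.ofNat 23257734510269090844))⟩,
  ⟨.x, T8, (K (.negSucc 4532363594580001295))⟩,
  ⟨.x, T10, (K (.ofNat 200302284072178008))⟩] (.node [⟨.x, .z, (B (K (.ofNat 6526168900682685912)) (K (.ofNat 36770215503143963076)) N N)⟩,
  ⟨.x, T0, (K (.negSucc 30071622073156096787))⟩,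
  ⟨.x, T1, (K (.negSucc 2664486724608537275))⟩] (.node [⟨.x, .z, (K (.ofNat 18299080640844927708))⟩] .nil .nil .nil .nil .nil .nil) (.node [⟨.x, .z, (K (.ofNat 10354521965952768846))⟩] .nil .nil .nil .nil .nil .nil) .nil .nil .nil .nil) (.node [⟨.x, .z, (B (K (.negSucc 5570591484921077375)) (K (.ofNat 14767936590523152636)) N N)⟩,
  ⟨.x, T0, (K (.negSucc 18939952348715432903))⟩,
  ⟨.x, T1, (K (.ofNat 14577589448110450194))⟩] (.node [⟨.x, .z, (K (.ofNat 9788107153015084614))⟩] .nil .nil .nil .nil .nil .nil) (.node [⟨.x, .z, (K (.negSucc 11837093176180845923))⟩] .nil .nil .nil .nil .nil .nil) .nil .nil .nil .nil) .nil .nil .nil .nil) (.node [⟨.x, .z, (B (B (K (.ofNat 15361748509984499688)) (K (.negSucc 5931266412409579511)) N N) (B (K (.negSucc 41855778797757238307)) (K (.ofNat 79929098588694581124)) N N) N N)⟩,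
  ⟨.x, T0, (B (K (.ofNat 15624984501905796636)) (K (.negSucc 18030258213414527147)) N N)⟩,
  ⟨.x, T1, (B (K (.negSucc 6518256349985546087)) (K (.ofNat 9168267308412892680)) N N)⟩,
  ⟨.x, T5, (K (.negSucc 5763333393712756919))⟩,
  ⟨.x, T7, (K (.ofNat 19444779122296826976))⟩,
  ⟨.x, T8, (K (.ofNat 8717304923884766220))⟩,
  ⟨.x, T10, (K (.negSucc 9238553221098640079))⟩] (.node [⟨.x, .z, (B (K (.negSucc 8034624847189747931)) (K (.ofNat 19090535647188904068)) N N)⟩,
  ⟨.x, T0, (K (.negSucc 27298006193549575463))⟩,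
  ⟨.x, T1, (K (.ofNat 17666776736450981376))⟩] (.node [⟨.x, .z, (K (.ofNat 7200741996249891336))⟩] .nil .nil .nil .nil .nil .nil) (.node [⟨.x, .z, (K (.negSucc 13641453242241666401))⟩] .nil .nil .nil .nil .nil .nil) .nil .nil .nil .nil) (.node [⟨.x, .z, (B (K (.negSucc 13207400452115116079)) (K (.negSucc 5136839431606400927)) N N)⟩,
  ⟨.x, T0, (K (.ofNat 4582759777080384192))⟩,
  ⟨.x, T1, (K (.ofNat 8650777907658834852))⟩] (.node [⟨.x, .z, (K (.negSucc 10170727988068480343))⟩] .nil .nil .nil .nil .nil .nil) (.node [⟨.x, .z, (K (.negSucc 21147506279370827579))⟩] .nil .nil .nil .nil .nil .nil) .nil .nil .nil .nil) .nil .nil .nil .nil) (.node [⟨.x, T4, (K (.ofNat 24878105382553232400))⟩,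
  ⟨.x, T6, (K (.negSucc 16128956366849129735))⟩] .nil .nil .nil .nil .nil .nil) (.node [⟨.x, T4, (K (.negSucc 1729366277205353519))⟩,
  ⟨.x, T6, (K (.negSucc 26506525823175380711))⟩] .nil .nil .nil .nil .nil .nil) .nil .nil)

def c_21 : Cert := (.node [⟨.x, .z, (B (B (B (A0 (K (.ofNat 4329184700975010948))) (A1 (K (.negSucc 15505868969086783067))) N N) (B (B (K (.ofNat 38296544009249569956)) (K (.ofNat 4314831878056471596)) N N) (B (K (.negSucc 20689430067437206859)) (K (.negSucc 40361414431402904687)) N N) N N) N N) (B (B (B (K (.negSucc 14136281260679800139)) (K (.ofNat 37694954567881637496)) N N) (B (K (.negSucc 12496532090093159243)) (K (.ofNat 6591635217543030876)) N N) N N) (B (B (K (.negSucc 217931140074390611)) (K (.ofNat 3991408222598004588)) N N) (B (K (.ofNat 6435360373932334284)) (K (.negSucc 51820773125926188335)) N N) N N) N N) N N)⟩,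
  ⟨.x, T0, (B (B (B (K (.ofNat 18756501450287588232)) (K (.ofNat 16567402125437603880)) N N) (B (K (.negSucc 4784257336108273871)) (K (.negSucc 13826607571599630359)) N N) N N) (B (B (K (.ofNat 1053055959635510616)) (K (.ofNat 46344568199610528204)) N N) (B (K (.negSucc 12784892771532506579)) (K (.negSucc 9891929610138101255)) N N) N N) N N)⟩,
  ⟨.x, T1, (B (B (B (K (.negSucc 20021918537602966583)) (K (.negSucc 35121118239283837403)) N N) (B (K (.negSucc 2256806882745728111)) (K (.negSucc 39208038599583363719)) N N) N N) (B (B (K (.negSucc 36306008303662596227)) (K (.negSucc 46128696817192067843)) N N) (B (K (.ofNat 16455266936534306040)) (K (.negSucc 7424384825841309935)) N N) N N) N N)⟩,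
  ⟨.x, T4, (B (A2 (K (.ofNat 656635618971751872))) (B N N (K (.ofNat 1233950355771121686)) (K (.negSucc 849853179719477771))) (B (K (.ofNat 4772480835414788202)) (K (.negSucc 15142428475660817813)) N N) (B (K (.ofNat 4928951455140979716)) (K (.ofNat 14025293847940853292)) N N))⟩,
  ⟨.x, T5, (A1 (A1 (K (.ofNat 24119381895448143756))))⟩,
  ⟨.x, T6, (B (A2 (K (.ofNat 13439503988658720))) (B N N (K (.negSucc 760988279019018071)) (K (.negSucc 2251370630825097719))) (B (K (.negSucc 5291068404175283501)) (K (.ofNat 16807341656945314656)) N N) (B (K (.negSucc 8705545577108432129)) (K (.negSucc 13689252043734457835)) N N))⟩,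
  ⟨.x, T7, (B (B (K (.negSucc 17350709288081612507)) (K (.negSucc 2764011965626878323)) N N) (B (K (.negSucc 13248208182281120723)) (K (.negSucc 41747860155078720935)) N N) N N)⟩,
  ⟨.x, T8, (B (B (K (.negSucc 24772917874416919727)) (K (.negSucc 1864522129803208679)) N N) (B (K (.ofNat 8079992209873636224)) (K (.negSucc 10195329341320890947)) N N) N N)⟩,
  ⟨.x, T10, (A1 (B (K (.ofNat 9859920921977142576)) (K (.ofNat 19269468030415454472)) N N))⟩,
  ⟨.x, T28, (A3 (K (.ofNat 6980345433197976648)))⟩,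
  ⟨.x, T29, (A1 (K (.negSucc 16861366459704268223)))⟩,
  ⟨.x, T12, (B N N (K (.ofNat 1808394730872708480)) (K (.ofNat 567122576362431546)))⟩,
  ⟨.x, T13, (B (K (.ofNat 10588592089312343280)) (K (.negSucc 13756500589536794159)) N N)⟩,
  ⟨.x, T14, (B (K (.ofNat 3298020214297240548)) (K (.negSucc 13159675934746263755)) N N)⟩,
  ⟨.x, T30, (A0 (K (.negSucc 12027611998943088227)))⟩,
  ⟨.x, T31, (A1 (K (.ofNat 2928425012411893704)))⟩,
  ⟨.x, T32, (A1 (K (.negSucc 12270194656743672539)))⟩,
  ⟨.x, T16, (K (.negSucc 50806370945250143))⟩,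
  ⟨.x, T18, (K (.negSucc 25064055385420211))⟩,
  ⟨.x, T34, (K (.ofNat 3262203690803060436))⟩,
  ⟨.x, T43, (K (.negSucc 12539512831799132063))⟩,
  ⟨.x, T45, (K (.negSucc 4348960062363869471))⟩,
  ⟨.x, T35, (K (.ofNat 1041216589877175936))⟩] c_210 c_211 (.node [⟨.x, T4, (B (K (.negSucc 3110787854591009309)) (K (.negSucc 1292240132103106535)) N N)⟩,
  ⟨.x, T6, (B (K (.ofNat 7320149592568633650)) (K (.ofNat 6272741564641823208)) N N)⟩,
  ⟨.x, T28, (K (.ofNat 4360515199159480944))⟩,
  ⟨.x, T12, (K (.negSucc 17158582748287389995))⟩] (.node [⟨.x, T4, (K (.negSucc 8518112609325884189))⟩,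
  ⟨.x, T6, (K (.ofNat 1300678479590669286))⟩] .nil .nil .nil .nil .nil .nil) (.node [⟨.x, T4, (K (.negSucc 4220773369748377847))⟩,
  ⟨.x, T6, (K (.ofNat 4345621432319876508))⟩] .nil .nil .nil .nil .nil .nil) .nil .nil .nil .nil) (.node [⟨.x, T4, (B (K (.negSucc 5786310906131259389)) (K (.ofNat 29154602057403994200)) N N)⟩,
  ⟨.x, T6, (B (K (.negSucc 28788395676011477573)) (K (.ofNat 12739684226708670324)) N N)⟩,
  ⟨.x, T28, (K (.ofNat 36246198011658478464))⟩,
  ⟨.x, T12, (K (.negSucc 14975372623475802599))⟩] (.node [⟨.x, T4, (K (.ofNat 13713334477045562202))⟩,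
  ⟨.x, T6, (K (.ofNat 36616864442668708026))⟩] .nil .nil .nil .nil .nil .nil) (.node [⟨.x, T4, (K (.negSucc 36815439591479451839))⟩,
  ⟨.x, T6, (K (.ofNat 32026442123191291272))⟩] .nil .nil .nil .nil .nil .nil) .nil .nil .nil .nil) .nil .nil)

def c_22 : Cert := (.node [⟨.x, T4, (B (B (K (.ofNat 947132051241321498)) (K (.ofNat 129013867465681590)) N N) (B (K (.ofNat 293296132108084014)) (K (.ofNat 37744841323508004)) N N) N N)⟩,
  ⟨.x, T6, (B (B (K (.ofNat 1868078339231105064)) (K (.negSucc 738892292786370785)) N N) (B (K (.ofNat 2268286462370499018)) (K (.negSucc 1014509827647846683)) N N) N N)⟩,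
  ⟨.x, T28, (A1 (K (.ofNat 48773476535100576)))⟩,
  ⟨.x, T12, (B (K (.ofNat 198891501515572026)) (K (.negSucc 23517805379948963)) N N)⟩] (.node [⟨.x, T4, (B (K (.negSucc 60639890469586343)) (K (.negSucc 36549325759368365)) N N)⟩,
  ⟨.x, T6, (B (K (.ofNat 1376058317939085900)) (K (.negSucc 306977005454800337)) N N)⟩,
  ⟨.x, T28, (K (.negSucc 34624434889946663))⟩,
  ⟨.x, T12, (K (.ofNat 206634496931581446))⟩] (.node [⟨.x, T6, (K (.negSucc 327921465444784469))⟩] .nil .nil .nil .nil .nil .nil) (.node [⟨.x, T4, (K (.ofNat 173589162323119872))⟩,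
  ⟨.x, T6, (K (.ofNat 2249638183911079080))⟩] .nil .nil .nil .nil .nil .nil) .nil .nil .nil .nil) (.node [⟨.x, T4, (B (K (.negSucc 4722248548372190837)) (K (.negSucc 14349291537248633519)) N N)⟩,
  ⟨.x, T6, (B (K (.ofNat 26800572129998818248)) (K (.ofNat 15839414459076655956)) N N)⟩,
  ⟨.x, T28, (K (.negSucc 28515994095685898423))⟩,
  ⟨.x, T12, (K (.ofNat 18889957404535228974))⟩] (.node [⟨.x, T4, (K (.ofNat 690117917804516418))⟩,
  ⟨.x, T6, (K (.negSucc 23107773541648387907))⟩] .nil .nil .nil .nil .nil .nil) (.node [⟨.x, T4, (K (.ofNat 13391085191128062966))⟩,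
  ⟨.x, T6, (K (.negSucc 26652044981920285469))⟩] .nil .nil .nil .nil .nil .nil) .nil .nil .nil .nil) .nil .nil .nil .nil)

def c_23 : Cert := (.node [⟨.x, T4, (B (B (K (.negSucc 3475204520512855949)) (K (.negSucc 3987231461429804885)) N N) (B (K (.negSucc 4678598385448873133)) (K (.ofNat 1165428053987926608)) N N) N N)⟩,
  ⟨.x, T6, (B (B (K (.negSucc 92365212237681065)) (K (.ofNat 1798795188123956148)) N N) (B (K (.ofNat 4402102138693568430)) (K (.ofNat 2332449737737850532)) N N) N N)⟩,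
  ⟨.x, T28, (A1 (K (.ofNat 334296826607572440)))⟩,
  ⟨.x, T12, (B (K (.negSucc 1032625595240637287)) (K (.negSucc 1810934920800359705)) N N)⟩] (.node [⟨.x, T4, (B (K (.ofNat 7020158314165245894)) (K (.ofNat 14208565440190104222)) N N)⟩,
  ⟨.x, T6, (B (K (.negSucc 27959601302298739181)) (K (.negSucc 13776458721699165287)) N N)⟩,
  ⟨.x, T28, (K (.ofNat 28674134590834969392))⟩,
  ⟨.x, T12, (K (.negSucc 20649418444994533379))⟩] (.node [⟨.x, T4, (K (.negSucc 19238905207902617))⟩,
  ⟨.x, T6, (K (.ofNat 34670495269670368758))⟩] .nil .nil .nil .nil .nil .nil) (.node [⟨.x, T4, (K (.negSucc 16904461087943784281))⟩,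
  ⟨.x, T6, (K (.ofNat 37642401081688899534))⟩] .nil .nil .nil .nil .nil .nil) .nil .nil .nil .nil) (.node [⟨.x, T4, (B (K (.ofNat 2067759992450208852)) (K (.ofNat 5840635362043293024)) N N)⟩,
  ⟨.x, T6, (B (K (.negSucc 13411891292695126715)) (K (.negSucc 8598924169555485011)) N N)⟩,
  ⟨.x, T28, (K (.ofNat 13560387391964273760))⟩,
  ⟨.x, T12, (K (.negSucc 10801118649170853611))⟩] (.node [⟨.x, T4, (K (.negSucc 2152331369162808101))⟩,
  ⟨.x, T6, (K (.ofNat 21588505253168323530))⟩] .nil .nil .nil .nil .nil .nil) (.node [⟨.x, T4, (K (.negSucc 6710062239084132935))⟩,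
  ⟨.x, T6, (K (.ofNat 16980235995308227668))⟩] .nil .nil .nil .nil .nil .nil) .nil .nil .nil .nil) .nil .nil .nil .nil)

def c_2 : Cert := (.node [⟨.x, .z, (B (B (B (A0 (A0 (K (.ofNat 3967353547766705124)))) (A1 (A1 (K (.negSucc 205715481032830439)))) N N) (B (B (A1 (K (.ofNat 10697081445315748560))) (A0 (K (.negSucc 10597923840755957159))) N N) (B (B (K (.negSucc 18938530442242673471)) (K (.ofNat 42034613794804085616)) N N) (B (K (.ofNat 26967417897864510276)) (K (.ofNat 30005371753319629296)) N N) N N) N N) N N) (B (B (B (A0 (K (.negSucc 113909234498550779))) (A1 (K (.negSucc 11373874206799319399))) N N) (B (B (K (.negSucc 29415389207189801351)) (K (.negSucc 35117508481891036499)) N N) (B (K (.negSucc 23026692682874358755)) (K (.negSucc 4772851286606837051)) N N) N N) N N) (B (B (B (K (.negSucc 35609828193941327363)) (K (.negSucc 47265737401493431091)) N N) (B (K (.negSucc 70557166541156483291)) (K (.negSucc 25029365700952617971)) N N) N N) (B (B (K (.negSucc 36764743376450200883))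 (K (.negSucc 13795027674985545767)) N N) (B (K (.negSucc 21602959269825694319)) (K (.negSucc 1519154356888453571)) N N) N N) N N) N N) N N)⟩,
  ⟨.x, T0, (B (B (B (A0 (K (.ofNat 117243981662111628))) (A1 (K (.negSucc 796204268627949863))) N N) (B (B (K (.ofNat 5004475992198802152)) (K (.ofNat 10262949926188623984)) N N) (B (K (.ofNat 9783510187408850184)) (K (.ofNat 817361352607007652)) N N) N N) N N) (B (B (B (K (.ofNat 9761107395646660392)) (K (.ofNat 5719727967326168676)) N N) (B (K (.ofNat 15387480340066657080)) (K (.negSucc 3290792078596957631)) N N) N N) (B (B (K (.ofNat 10894090532198449152)) (K (.ofNat 3359624535322103688)) N N) (B (K (.ofNat 11107141421335915116)) (K (.negSucc 676791471159317135)) N N) N N) N N) N N)⟩,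
  ⟨.x, T1, (B (B (B (A0 (K (.negSucc 3967350852426443747))) (A1 (K (.ofNat 283711830545892252))) N N) (B (B (K (.negSucc 3908396665189038455)) (K (.negSucc 5730285242324648291)) N N) (B (K (.negSucc 2234812478332256255)) (K (.negSucc 1409123142470848475)) N N) N N) N N) (B (B (B (K (.negSucc 10328970474266782799)) (K (.negSucc 2334081248753091347)) N N) (B (K (.negSucc 7630376657658451619)) (K (.ofNat 2725144868570925360)) N N) N N) (B (B (K (.negSucc 680765155996755815)) (K (.negSucc 5029676934634476263)) N N) (B (K (.negSucc 1438783837592355995)) (K (.negSucc 2607256092997355351)) N N) N N) N N) N N)⟩,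
  ⟨.x, T4, (B (B (A2 (K (.negSucc 151061162668596935))) N (B (K (.negSucc 1421526776795665091)) (K (.ofNat 524133134471750118)) N N) N) (B (A2 (K (.negSucc 78740772673982201))) (B N N (K (.ofNat 798360101750503152)) (K (.negSucc 78126600716835047))) (B (K (.negSucc 1020833040686225465)) (K (.ofNat 462875565453710220)) N N) (B (K (.ofNat 35356556582686584)) (K (.negSucc 7421591730759401)) N N)) (B (B (K (.negSucc 166260504321213875)) (K (.negSucc 27326509878956861)) N N) (B (K (.ofNat 1654791988335019884)) (K (.negSucc 2183775340592878703)) N N) N N) (B (B (K (.ofNat 713198572332591660)) (K (.negSucc 87607205683271063)) N N) (B (K (.ofNat 298572353256890664)) (K (.negSucc 5884395938960069)) N N) N N))⟩,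
  ⟨.x, T5, (A1 (A1 (B (K (.negSucc 1143431414868944879)) (K (.negSucc 117613533846412547)) N N)))⟩,
  ⟨.x, T6, (B (B (A2 (K (.ofNat 65198148847372800))) N (B (K (.ofNat 50978048278274208)) (K (.ofNat 670059100002337416)) N N) N) (B (A2 (K (.ofNat 837255671021249298))) (B N N (K (.negSucc 35416843435574621)) (K (.ofNat 151152479759587824))) (B (K (.negSucc 685182246824707127)) (K (.ofNat 919065595212372006)) N N) (B (K (.negSucc 1416690161797561517)) (K (.ofNat 743166715302863334)) N N)) (B (B (K (.negSucc 27931075419143231)) (K (.ofNat 90729831291654492)) N N) (B (K (.ofNat 1404940841099637324)) (K (.negSucc 758513971105506167)) N N) N N) (B (B (K (.negSucc 1802442476465302769)) (K (.ofNat 1035309777263909910)) N N) (B (K (.negSucc 2235997927631108507)) (K (.ofNat 914771871745273878)) N N) N N))⟩,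
  ⟨.x, T7, (B (B (B (K (.negSucc 251166621885087131)) (K (.ofNat 473166979920601596)) N N) (B (K (.ofNat 3649809285004288140)) (K (.negSucc 163499599170764303)) N N) N N) (B (B (K (.ofNat 2940691592232775080)) (K (.negSucc 324617001003357971)) N N) (B (K (.ofNat 5014812450102628068)) (K (.negSucc 901660010522077715)) N N) N N) N N)⟩,
  ⟨.x, T8, (B (B (B (K (.negSucc 164639007695533139)) (K (.negSucc 1227446724781748015)) N N) (B (K (.ofNat 1118224934656355820)) (K (.negSucc 1164943988723177207)) N N) N N) (B (B (K (.ofNat 6394289151179841492)) (K (.negSucc 2790640961372719979)) N N) (B (K (.ofNat 5006918713124216784)) (K (.negSucc 2593893829916313035)) N N) N N) N N)⟩,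
  ⟨.x, T10, (A1 (B (B (K (.ofNat 2495040904911189432)) (K (.negSucc 590206807892568467)) N N) (B (K (.ofNat 400710311547288624)) (K (.negSucc 57926399942828759)) N N) N N))⟩,
  ⟨.x, T28, (B N (A3 (K (.negSucc 78126600716835047))) N (A1 (K (.ofNat 11810350514801328))))⟩,
  ⟨.x, T29, (A1 (A1 (K (.ofNat 89415717109142424))))⟩,
  ⟨.x, T12, (B (A2 (K (.negSucc 39740325431878259))) (B N N (K (.negSucc 682316620925532641)) (K (.ofNat 116492815555708410))) (B (K (.ofNat 10023270110227416)) (K (.ofNat 412823471869232424)) N N) (B (K (.negSucc 185769414063569069)) (K (.ofNat 435414714885315606)) N N))⟩,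
  ⟨.x, T13, (B (B (K (.negSucc 69871603315206923)) (K (.negSucc 1244589844864315319)) N N) (B (K (.negSucc 1209852025754751287)) (K (.negSucc 1263427861990171499)) N N) N N)⟩,
  ⟨.x, T14, (B (B (K (.negSucc 123398590282353791)) (K (.negSucc 71331199930064843)) N N) (A0 (K (.negSucc 90696492034457651))) N N)⟩,
  ⟨.x, T30, (A0 (A0 (K (.ofNat 66543486460901184))))⟩,
  ⟨.x, T31, (A1 (A1 (K (.negSucc 42315013900095551))))⟩,
  ⟨.x, T32, (A1 (A1 (K (.ofNat 15600604681687704))))⟩,
  ⟨.x, T16, (B (K (.negSucc 33535579101829055)) (K (.ofNat 106287430562147520)) N N)⟩,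
  ⟨.x, T18, (B (K (.ofNat 4425332388917580)) (K (.ofNat 1954189872485172)) N N)⟩,
  ⟨.x, T34, (A0 (K (.ofNat 108722895516806004)))⟩,
  ⟨.x, T35, (A1 (K (.negSucc 38477810415805235)))⟩,
  ⟨.x, T46, (K (.negSucc 74926903855103))⟩,
  ⟨.x, T48, (K (.ofNat 844353148391424))⟩,
  ⟨.x, T17, (K (.negSucc 46462232044819583))⟩,
  ⟨.x, T19, (K (.negSucc 46526412755055743))⟩] c_20 c_21 c_22 c_23 .nil .nil)

def c_300 : Cert := (.node [⟨.x, .z, (B (B (B (K (.ofNat 5829960847806538740)) (K (.negSucc 20167172869945228595)) N N) (B (K (.ofNat 1763159495214987288)) (K (.negSucc 3228751864917584915)) N N) N N) (B (B (K (.ofNat 10079585181170661456)) (K (.negSucc 2722635439621384787)) N N) (B (K (.negSucc 9589379701539102815)) (K (.ofNat 75908859394221323196)) N N) N N) N N)⟩,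
  ⟨.x, T0, (B (B (K (.negSucc 2432619694533613007)) (K (.ofNat 26894699259905466312)) N N) (B (K (.ofNat 17958415039939880220)) (K (.negSucc 69144823839616011167)) N N) N N)⟩,
  ⟨.x, T1, (B (B (K (.negSucc 25539609970103350043)) (K (.negSucc 13621440534013324115)) N N) (B (K (.negSucc 35215227701377984667)) (K (.ofNat 7689508749638258592)) N N) N N)⟩,
  ⟨.x, T4, (B N N (K (.negSucc 1565501374949591687)) (K (.ofNat 5761705938199605372)))⟩,
  ⟨.x, T5, (A1 (K (.ofNat 12267628932589198200)))⟩,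
  ⟨.x, T6, (B N N (K (.ofNat 4146529060546867578)) (K (.negSucc 5798578835336584727)))⟩,
  ⟨.x, T7, (B (K (.negSucc 13750871405282372759)) (K (.ofNat 12447564519126760920)) N N)⟩,
  ⟨.x, T8, (B (K (.negSucc 14684580848817903011)) (K (.negSucc 1228019179008686843)) N N)⟩,
  ⟨.x, T10, (A1 (K (.ofNat 14952927159679708296)))⟩,
  ⟨.x, T29, (K (.negSucc 9930390278197201463))⟩,
  ⟨.x, T13, (K (.ofNat 3224671252628872608))⟩,
  ⟨.x, T14, (K (.negSucc 1859605576837573823))⟩,
  ⟨.x, T30, (K (.negSucc 6916991266549752827))⟩,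
  ⟨.x, T31, (K (.ofNat 6058181866923670752))⟩,
  ⟨.x, T32, (K (.negSucc 9208932468079397195))⟩] (.node [⟨.x, .z, (B (B (K (.ofNat 21946593357834807360)) (K (.ofNat 18834962751916082220)) N N) (B (K (.ofNat 13504351562020356)) (K (.ofNat 28834676069120779380)) N N) N N)⟩,
  ⟨.x, T0, (B (K (.negSucc 13085153048765561231)) (K (.negSucc 32421543195711825179)) N N)⟩,
  ⟨.x, T1, (B (K (.ofNat 9894537580408578996)) (K (.negSucc 17882949307935889487)) N N)⟩,
  ⟨.x, T5, (K (.ofNat 6524233647596322132))⟩,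
  ⟨.x, T7, (K (.negSucc 25695012914116539923))⟩,
  ⟨.x, T8, (K (.negSucc 4861445699727448163))⟩,
  ⟨.x, T10, (K (.ofNat 43125444182016))⟩] (.node [⟨.x, .z, (B (K (.negSucc 6999112691113627583)) (K (.negSucc 14894243321052807251)) N N)⟩,
  ⟨.x, T0, (K (.ofNat 26109828521829356016))⟩,
  ⟨.x, T1, (K (.ofNat 3406060140974933220))⟩] (.node [⟨.x, .z, (K (.negSucc 16454613687055941515))⟩] .nil .nil .nil .nil .nil .nil) (.node [⟨.x, .z, (K (.ofNat 210539047706156052))⟩] .nil .nil .nil .nil .nil .nil) .nil .nil .nil .nil) (.node [⟨.x, .z, (B (K (.negSucc 4937986493263380527)) (K (.ofNat 12973460585420386032)) N N)⟩,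
  ⟨.x, T0, (K (.ofNat 7909495219778172852))⟩,
  ⟨.x, T1, (K (.negSucc 2551174087863836759))⟩] (.node [⟨.x, .z, (K (.ofNat 1171733595821104944))⟩] .nil .nil .nil .nil .nil .nil) (.node [⟨.x, .z, (K (.ofNat 16668323641564589232))⟩] .nil .nil .nil .nil .nil .nil) .nil .nil .nil .nil) .nil .nil .nil .nil) (.node [⟨.x, .z, (B (B (K (.negSucc 36406994205846561347)) (K (.ofNat 12128668609192739508)) N N) (B (K (.ofNat 14855369267908513740)) (K (.negSucc 44941618659792963383)) N N) N N)⟩,
  ⟨.x, T0, (B (K (.negSucc 4369368762035470343)) (K (.negSucc 25280144272172336267)) N N)⟩,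
  ⟨.x, T1, (B (K (.ofNat 22876577153429730084)) (K (.negSucc 3623532106206943607)) N N)⟩,
  ⟨.x, T5, (K (.ofNat 7630045448107975212))⟩,
  ⟨.x, T7, (K (.negSucc 18545073581051300159))⟩,
  ⟨.x, T8, (K (.negSucc 12053196380009500523))⟩,
  ⟨.x, T10, (K (.ofNat 4379799154888817448))⟩] (.node [⟨.x, .z, (B (K (.ofNat 11023362964271090640)) (K (.negSucc 7242296966255364167)) N N)⟩,
  ⟨.x, T0, (K (.ofNat 16589872646045392704))⟩,
  ⟨.x, T1, (K (.negSucc 6794610120755145233))⟩] (.node [⟨.x, .z, (K (.negSucc 7365633515556775121))⟩] .nil .nil .nil .nil .nil .nil) (.node [⟨.x, .z, (K (.ofNat 7977723189083998146))⟩] .nil .nil .nil .nil .nil .nil) .nil .nil .nil .nil) (.node [⟨.x, .z, (B (K (.ofNat 7129304347807515072)) (K (.negSucc 11672445729354709475)) N N)⟩,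
  ⟨.x, T0, (K (.negSucc 237772698425967347))⟩,
  ⟨.x, T1, (K (.ofNat 7908379319237861940))⟩] (.node [⟨.x, .z, (K (.ofNat 8899158180691807956))⟩] .nil .nil .nil .nil .nil .nil) (.node [⟨.x, .z, (K (.ofNat 16187913249131649516))⟩] .nil .nil .nil .nil .nil .nil) .nil .nil .nil .nil) .nil .nil .nil .nil) (.node [⟨.x, T4, (K (.ofNat 1575367214557079094))⟩,
  ⟨.x, T6, (K (.ofNat 11596062821949600402))⟩] .nil .nil .nil .nil .nil .nil) (.node [⟨.x, T4, (K (.ofNat 4345639036915241454))⟩,
  ⟨.x, T6, (K (.ofNat 8431061602823205822))⟩] .nil .nil .nil .nil .nil .nil) .nil .nil)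

def c_301 : Cert := (.node [⟨.x, .z, (B (B (B (K (.ofNat 46457713501779888012)) (K (.ofNat 9748389105654808416)) N N) (B (K (.ofNat 22953127533936644952)) (K (.negSucc 22079881939261372031)) N N) N N) (B (B (K (.ofNat 31249526220466777584)) (K (.negSucc 21671728231857380171)) N N) (B (K (.ofNat 4973665063252800636)) (K (.negSucc 17304883560514917671)) N N) N N) N N)⟩,
  ⟨.x, T0, (B (B (K (.ofNat 18437621572966474584)) (K (.ofNat 7643818766230469376)) N N) (B (K (.ofNat 33077676679959166416)) (K (.negSucc 24238407147847060331)) N N) N N)⟩,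
  ⟨.x, T1, (B (B (K (.negSucc 38027814281296412603)) (K (.negSucc 29546359962145610651)) N N) (B (K (.negSucc 23875583061823642547)) (K (.ofNat 22993030808810093340)) N N) N N)⟩,
  ⟨.x, T4, (B N N (K (.negSucc 5043952712113493753)) (K (.ofNat 15114466918180280886)))⟩,
  ⟨.x, T5, (A1 (K (.ofNat 8173506845563409520)))⟩,
  ⟨.x, T6, (B N N (K (.ofNat 7848783895036695594)) (K (.negSucc 20592095751578041697)))⟩,
  ⟨.x, T7, (B (K (.negSucc 2776957112713462751)) (K (.ofNat 474795311848076280)) N N)⟩,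
  ⟨.x, T8, (B (K (.negSucc 1068102301542946271)) (K (.ofNat 13193376338180814564)) N N)⟩,
  ⟨.x, T10, (A1 (K (.ofNat 12715854989178793152)))⟩,
  ⟨.x, T29, (K (.negSucc 11883256333549355135))⟩,
  ⟨.x, T13, (K (.negSucc 3806045344350060227))⟩,
  ⟨.x, T14, (K (.negSucc 8320737032178232931))⟩,
  ⟨.x, T30, (K (.negSucc 7702764152558329595))⟩,
  ⟨.x, T31, (K (.ofNat 499411660351941432))⟩,
  ⟨.x, T32, (K (.negSucc 10408764486361508291))⟩] (.node [⟨.x, .z, (B (B (K (.negSucc 340661570937300347)) (K (.ofNat 334817356490632536)) N N) (B (K (.ofNat 26584223040536764428)) (K (.negSucc 59043115625192814479)) N N) N N)⟩,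
  ⟨.x, T0, (B (K (.negSucc 23661715067358947075)) (K (.negSucc 14382867889380300179)) N N)⟩,
  ⟨.x, T1, (B (K (.ofNat 19136228851563092592)) (K (.ofNat 17521681297619774592)) N N)⟩,
  ⟨.x, T5, (K (.ofNat 1708128289465695120))⟩,
  ⟨.x, T7, (K (.negSucc 23462276458786889147))⟩,
  ⟨.x, T8, (K (.ofNat 4411234236503189484))⟩,
  ⟨.x, T10, (K (.negSucc 1129690955759461787))⟩] (.node [⟨.x, .z, (B (K (.negSucc 2356339101686145155)) (K (.negSucc 36304567310093762663)) N N)⟩,
  ⟨.x, T0, (K (.ofNat 28335613352137403436))⟩,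
  ⟨.x, T1, (K (.ofNat 1769206951203595554))⟩] (.node [⟨.x, .z, (K (.negSucc 18317120326027673465))⟩] .nil .nil .nil .nil .nil .nil) (.node [⟨.x, .z, (K (.negSucc 8416532781232888049))⟩] .nil .nil .nil .nil .nil .nil) .nil .nil .nil .nil) (.node [⟨.x, .z, (B (K (.ofNat 10194670250784138468)) (K (.negSucc 18312248930920537583)) N N)⟩,
  ⟨.x, T0, (K (.ofNat 18727932307039558080))⟩,
  ⟨.x, T1, (K (.negSucc 17412914039382600275))⟩] (.node [⟨.x, .z, (K (.negSucc 9146537081228946251))⟩] .nil .nil .nil .nil .nil .nil) (.node [⟨.x, .z, (K (.ofNat 12964396676803559352))⟩] .nil .nil .nil .nil .nil .nil) .nil .nil .nil .nil) .nil .nil .nil .nil) (.node [⟨.x, .z, (B (B (K (.negSucc 19249677648863886575)) (K (.ofNat 13830199732389541884)) N N) (B (K (.ofNat 43933146915807548820)) (K (.negSucc 82134712534652025887)) N N) N N)⟩,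
  ⟨.x, T0, (B (K (.negSucc 12007320034412152319)) (K (.ofNat 16759981514613290196)) N N)⟩,
  ⟨.x, T1, (B (K (.ofNat 5541985403905854168)) (K (.negSucc 15331345512408388427)) N N)⟩,
  ⟨.x, T5, (K (.ofNat 6364703870201068464))⟩,
  ⟨.x, T7, (K (.negSucc 19069426069805955947))⟩,
  ⟨.x, T8, (K (.negSucc 13669469028944199719))⟩,
  ⟨.x, T10, (K (.ofNat 5470441848600839388))⟩] (.node [⟨.x, .z, (B (K (.ofNat 13190240222062653504)) (K (.negSucc 23029762274055927839)) N N)⟩,
  ⟨.x, T0, (K (.ofNat 25942272471490937136))⟩,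
  ⟨.x, T1, (K (.negSucc 19816499681247740693))⟩] (.node [⟨.x, .z, (K (.negSucc 8470606449813471293))⟩] .nil .nil .nil .nil .nil .nil) (.node [⟨.x, .z, (K (.ofNat 13467977026198542954))⟩] .nil .nil .nil .nil .nil .nil) .nil .nil .nil .nil) (.node [⟨.x, .z, (B (K (.ofNat 12407253551330818860)) (K (.negSucc 1991607276216477215)) N N)⟩,
  ⟨.x, T0, (K (.negSucc 1992573641644375235))⟩,
  ⟨.x, T1, (K (.negSucc 6306719765220337583))⟩] (.node [⟨.x, .z, (K (.ofNat 9514775831618680092))⟩] .nil .nil .nil .nil .nil .nil) (.node [⟨.x, .z, (K (.ofNat 21162435588361659396))⟩] .nil .nil .nil .nil .nil .nil) .nil .nil .nil .nil) .nil .nil .nil .nil) (.node [⟨.x, T4, (K (.negSucc 23735290235946419405))⟩,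
  ⟨.x, T6, (K (.ofNat 24410689098317065434))⟩] .nil .nil .nil .nil .nil .nil) (.node [⟨.x, T4, (K (.ofNat 395350218037502622))⟩,
  ⟨.x, T6, (K (.ofNat 28298095261055229318))⟩] .nil .nil .nil .nil .nil .nil) .nil .nil)

def c_30 : Cert := (.node [⟨.x, .z, (B (B (B (A0 (K (.negSucc 10327859853207358595))) (A1 (K (.ofNat 15757923909113761968))) N N) (B (B (K (.negSucc 41016814294761798971)) (K (.negSucc 17623548050978077283)) N N) (B (K (.ofNat 25804547554713899280)) (K (.ofNat 34481766506767785816)) N N) N N) N N) (B (B (B (K (.negSucc 1971424156634420471)) (K (.negSucc 40011449394445914371)) N N) (B (K (.negSucc 7385237634933896195)) (K (.ofNat 1573794432707996460)) N N) N N) (B (B (K (.negSucc 16675212194219402975)) (K (.negSucc 7408655931459483359)) N N) (B (K (.negSucc 22769220992323048619)) (K (.ofNat 52952027556650579148)) N N) N N) N N) N N)⟩,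
  ⟨.x, T0, (B (B (B (K (.negSucc 17162790813673841699)) (K (.negSucc 19465872371296397471)) N N) (B (K (.ofNat 10254692676339032532)) (K (.ofNat 11604035616084286452)) N N) N N) (B (B (K (.negSucc 2764069270174751351)) (K (.negSucc 48425555465921542355)) N N) (B (K (.ofNat 13515267332725144368)) (K (.ofNat 8391952488388388076)) N N) N N) N N)⟩,
  ⟨.x, T1, (B (B (B (K (.ofNat 22860426676855151508)) (K (.ofNat 35213302277085539964)) N N) (B (K (.ofNat 1862690469369157836)) (K (.ofNat 39602511462046607844)) N N) N N) (B (B (K (.ofNat 37924279374312640584)) (K (.ofNat 47136904300053862668)) N N) (B (K (.negSucc 26759942936530997807)) (K (.ofNat 12506909989499508024)) N N) N N) N N)⟩,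
  ⟨.x, T4, (B (A2 (K (.ofNat 144407363873895348))) (B N N (K (.negSucc 450254268060334049)) (K (.ofNat 857016013705938582))) (B (K (.negSucc 5547217564428163385)) (K (.ofNat 14132334668870426274)) N N) (B (K (.negSucc 5994885321129846611)) (K (.negSucc 14069506107247737197)) N N))⟩,
  ⟨.x, T5, (A1 (A1 (K (.negSucc 25257553712688008855))))⟩,
  ⟨.x, T6, (B (A2 (K (.ofNat 129631686767811018))) (B N N (K (.ofNat 570075824633414856)) (K (.ofNat 3000382999321301952))) (B (K (.ofNat 6037933341087315258)) (K (.negSucc 17604031320806510417)) N N) (B (K (.ofNat 12486612430940589894)) (K (.ofNat 13356568830911099880)) N N))⟩,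
  ⟨.x, T7, (B (B (K (.ofNat 17712138858477897780)) (K (.negSucc 429745491158698727)) N N) (B (K (.ofNat 10889862445035183936)) (K (.ofNat 40534715177349954000)) N N) N N)⟩,
  ⟨.x, T8, (B (B (K (.ofNat 23520155665791235860)) (K (.ofNat 2112894680220763236)) N N) (B (K (.negSucc 16685611416499963367)) (K (.ofNat 13805969147296049016)) N N) N N)⟩,
  ⟨.x, T10, (A1 (B (K (.negSucc 12990329129696843819)) (K (.negSucc 18070984402198313723)) N N))⟩,
  ⟨.x, T28, (A3 (K (.negSucc 7165205914512177983)))⟩,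
  ⟨.x, T29, (A1 (K (.ofNat 16958937360325242816)))⟩,
  ⟨.x, T12, (B N N (K (.negSucc 1602265032157064153)) (K (.negSucc 243414175477675175)))⟩,
  ⟨.x, T13, (B (K (.negSucc 10830088741093714979)) (K (.ofNat 14017344907318254468)) N N)⟩,
  ⟨.x, T14, (B (K (.negSucc 3327271193849361839)) (K (.ofNat 13606479394293149064)) N N)⟩,
  ⟨.x, T30, (A0 (K (.ofNat 12310292244069239436)))⟩,
  ⟨.x, T31, (A1 (K (.negSucc 2674440793223474039)))⟩,
  ⟨.x, T32, (A1 (K (.ofNat 12349888893062167716)))⟩,
  ⟨.x, T16, (K (.negSucc 92033321717592863))⟩,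
  ⟨.x, T18, (K (.ofNat 114494577947047116))⟩,
  ⟨.x, T34, (K (.negSucc 3103704340842768479))⟩,
  ⟨.x, T43, (K (.ofNat 12856437928731816864))⟩,
  ⟨.x, T45, (K (.ofNat 4469862446813426112))⟩,
  ⟨.x, T35, (K (.negSucc 1127028572391644747))⟩] c_300 c_301 (.node [⟨.x, T4, (B (K (.ofNat 6862843036430844924)) (K (.ofNat 16548248278956438354)) N N)⟩,
  ⟨.x, T6, (B (K (.negSucc 39224041110760085477)) (K (.negSucc 22433858239354757213)) N N)⟩,
  ⟨.x, T28, (K (.ofNat 25445656860460880496))⟩,
  ⟨.x, T12, (K (.negSucc 3280298474273513501))⟩] (.node [⟨.x, T4, (K (.ofNat 8099646682937844618))⟩,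
  ⟨.x, T6, (K (.ofNat 25105645605221108640))⟩] .nil .nil .nil .nil .nil .nil) (.node [⟨.x, T4, (K (.negSucc 11567278210818448805))⟩,
  ⟨.x, T6, (K (.ofNat 23033712170024516634))⟩] .nil .nil .nil .nil .nil .nil) .nil .nil .nil .nil) (.node [⟨.x, T4, (B (K (.ofNat 11719349099136466212)) (K (.negSucc 16990972557850529777)) N N)⟩,
  ⟨.x, T6, (B (K (.ofNat 8417311014533214330)) (K (.negSucc 26189211868834890401)) N N)⟩,
  ⟨.x, T28, (K (.negSucc 13063401905946951815))⟩,
  ⟨.x, T12, (K (.negSucc 444404626850191301))⟩] (.node [⟨.x, T4, (K (.negSucc 14363968309178928611))⟩,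
  ⟨.x, T6, (K (.negSucc 9153401891647076177))⟩] .nil .nil .nil .nil .nil .nil) (.node [⟨.x, T4, (K (.ofNat 24996927795870492840))⟩,
  ⟨.x, T6, (K (.negSucc 7964645206692107219))⟩] .nil .nil .nil .nil .nil .nil) .nil .nil .nil .nil) .nil .nil)

def c_310 : Cert := (.node [⟨.x, .z, (B (B (B (K (.ofNat 709168253074804320)) (K (.negSucc 2143858197322708103)) N N) (B (K (.negSucc 880717343764438151)) (K (.ofNat 2346082624808062056)) N N) N N) (B (B (K (.ofNat 3204765030394565484)) (K (.negSucc 3896175471326615567)) N N) (B (K (.negSucc 1803983969880264395)) (K (.ofNat 1025364960400797660)) N N) N N) N N)⟩,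
  ⟨.x, T0, (B (B (K (.negSucc 5176719271592723147)) (K (.negSucc 695917885320736847)) N N) (B (K (.negSucc 4403519554411948151)) (K (.negSucc 214535697819851183)) N N) N N)⟩,
  ⟨.x, T1, (B (B (K (.ofNat 4706771672831219460)) (K (.ofNat 2501937866853126828)) N N) (B (K (.ofNat 5455459403080988532)) (K (.negSucc 1896480570940391015)) N N) N N)⟩,
  ⟨.x, T4, (B N N (K (.ofNat 1630844378604362208)) (K (.negSucc 150396977076095525)))⟩,
  ⟨.x, T5, (A1 (K (.ofNat 309901781312836272)))⟩,
  ⟨.x, T6, (B N N (K (.negSucc 728027238116595227)) (K (.ofNat 2390854343347393980)))⟩,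
  ⟨.x, T7, (B (K (.negSucc 5357217981603587315)) (K (.ofNat 1566585936324284820)) N N)⟩,
  ⟨.x, T8, (B (K (.negSucc 49802138967369515)) (K (.negSucc 2181862001873250227)) N N)⟩,
  ⟨.x, T10, (A1 (K (.ofNat 1174609018642203144)))⟩,
  ⟨.x, T29, (K (.negSucc 328383022171116863))⟩,
  ⟨.x, T13, (K (.ofNat 1683146375915844168))⟩,
  ⟨.x, T14, (K (.ofNat 268284450958015464))⟩,
  ⟨.x, T30, (K (.negSucc 328565879443033679))⟩,
  ⟨.x, T31, (K (.ofNat 234654386492600928))⟩,
  ⟨.x, T32, (K (.negSucc 69005693901301247))⟩] (.node [⟨.x, .z, (B (B (K (.negSucc 3123745786734730667)) (K (.ofNat 1758354388386966384)) N N) (B (K (.negSucc 6979296610204759679)) (K (.ofNat 4157646614181427248)) N N) N N)⟩,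
  ⟨.x, T0, (B (K (.ofNat 5685522311486896452)) (K (.negSucc 2029441080287020763)) N N)⟩,
  ⟨.x, T1, (B (K (.ofNat 1960437649782528252)) (K (.negSucc 2537162214042451547)) N N)⟩,
  ⟨.x, T5, (K (.negSucc 1124460761229279599))⟩,
  ⟨.x, T7, (K (.ofNat 983167598293555416))⟩,
  ⟨.x, T8, (K (.negSucc 432970471396341059))⟩,
  ⟨.x, T10, (K (.ofNat 329781151893348540))⟩] (.node [⟨.x, .z, (B (K (.negSucc 2253413420271489503)) (K (.ofNat 5288895437916264468)) N N)⟩,
  ⟨.x, T0, (K (.negSucc 3944435122374910799))⟩,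
  ⟨.x, T1, (K (.ofNat 28285825308969060))⟩] (.node [⟨.x, .z, (K (.negSucc 488251555011767903))⟩] .nil .nil .nil .nil .nil .nil) (.node [⟨.x, .z, (K (.negSucc 1918046160634640903))⟩] .nil .nil .nil .nil .nil .nil) .nil .nil .nil .nil) (.node [⟨.x, .z, (B (K (.negSucc 1255637920439964431)) (K (.ofNat 536113131816104052)) N N)⟩,
  ⟨.x, T0, (K (.negSucc 3738422811740802611))⟩,
  ⟨.x, T1, (K (.ofNat 4430161756016167626))⟩] (.node [⟨.x, .z, (K (.negSucc 2161256353446513959))⟩] .nil .nil .nil .nil .nil .nil) (.node [⟨.x, .z, (K (.negSucc 1733384019193108505))⟩] .nil .nil .nil .nil .nil .nil) .nil .nil .nil .nil) .nil .nil .nil .nil) (.node [⟨.x, .z, (B (B (K (.negSucc 726134945274282515)) (K (.negSucc 3840796910398364447)) N N) (B (K (.negSucc 3543995272135330403)) (K (.ofNat 3102830867337593952)) N N) N N)⟩,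
  ⟨.x, T0, (B (K (.negSucc 207952667561096555)) (K (.negSucc 884966203065550367)) N N)⟩,
  ⟨.x, T1, (B (K (.ofNat 1523194429785861336)) (K (.ofNat 3373589162827475172)) N N)⟩,
  ⟨.x, T5, (K (.negSucc 68100365325832223))⟩,
  ⟨.x, T7, (K (.negSucc 933226995213822707))⟩,
  ⟨.x, T8, (K (.ofNat 807738799219467192))⟩,
  ⟨.x, T10, (K (.ofNat 1778291366700342228))⟩] (.node [⟨.x, .z, (B (K (.negSucc 2847479760781139483)) (K (.ofNat 1251439877409546552)) N N)⟩,
  ⟨.x, T0, (K (.negSucc 1917980664489290603))⟩,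
  ⟨.x, T1, (K (.ofNat 3001226327093982960))⟩] (.node [⟨.x, .z, (K (.negSucc 212658249815327357))⟩] .nil .nil .nil .nil .nil .nil) (.node [⟨.x, .z, (K (.ofNat 813029980010935596))⟩] .nil .nil .nil .nil .nil .nil) .nil .nil .nil .nil) (.node [⟨.x, .z, (B (K (.ofNat 650732272997431800)) (K (.negSucc 197040536335091903)) N N)⟩,
  ⟨.x, T0, (K (.negSucc 1263699178825954247))⟩,
  ⟨.x, T1, (K (.ofNat 1221895090696636482))⟩] (.node [⟨.x, .z, (K (.ofNat 986339790806148408))⟩] .nil .nil .nil .nil .nil .nil) (.node [⟨.x, .z, (K (.ofNat 739499747824484430))⟩] .nil .nil .nil .nil .nil .nil) .nil .nil .nil .nil) .nil .nil .nil .nil) (.node [⟨.x, T4, (K (.negSucc 884616274041723803))⟩,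
  ⟨.x, T6, (K (.ofNat 2541737589768217680))⟩] .nil .nil .nil .nil .nil .nil) (.node [⟨.x, T4, (K (.negSucc 92069501520353405))⟩,
  ⟨.x, T6, (K (.ofNat 3387476361748195206))⟩] .nil .nil .nil .nil .nil .nil) .nil .nil)

def c_311 : Cert := (.node [⟨.x, .z, (B (B (B (K (.negSucc 6606342883480362035)) (K (.negSucc 2625056086018323635)) N N) (B (K (.negSucc 2476329749006460311)) (K (.negSucc 646872634341409391)) N N) N N) (B (B (K (.negSucc 4007493949681274135)) (K (.negSucc 3552869476236213083)) N N) (B (K (.negSucc 1221714141827006267)) (K (.ofNat 1601583116430961860)) N N) N N) N N)⟩,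
  ⟨.x, T0, (B (B (K (.negSucc 316454790375485327)) (K (.negSucc 3121672114408020767)) N N) (B (K (.negSucc 4205639824299789119)) (K (.negSucc 463948775972714507)) N N) N N)⟩,
  ⟨.x, T1, (B (B (K (.ofNat 6461005198420179792)) (K (.ofNat 6819136653911987748)) N N) (B (K (.ofNat 6372941337401224488)) (K (.ofNat 2046963948749883492)) N N) N N)⟩,
  ⟨.x, T4, (B N N (K (.ofNat 1474020530586502458)) (K (.negSucc 238621387609868339)))⟩,
  ⟨.x, T5, (A1 (K (.negSucc 307329428796044507)))⟩,
  ⟨.x, T6, (B N N (K (.negSucc 155135953570941965)) (K (.ofNat 3941323366265515860)))⟩,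
  ⟨.x, T7, (B (K (.negSucc 8925468125990303)) (K (.ofNat 1722754205544689100)) N N)⟩,
  ⟨.x, T8, (B (K (.negSucc 75800956200552239)) (K (.negSucc 513020012857831751)) N N)⟩,
  ⟨.x, T10, (A1 (K (.ofNat 2066599583554731456)))⟩,
  ⟨.x, T29, (K (.ofNat 254322814523795808))⟩,
  ⟨.x, T13, (K (.ofNat 55991675438806716))⟩,
  ⟨.x, T14, (K (.ofNat 207356334800650308))⟩,
  ⟨.x, T30, (K (.ofNat 175988318797457628))⟩,
  ⟨.x, T31, (K (.ofNat 5122492626165264))⟩,
  ⟨.x, T32, (K (.ofNat 204859145089401432))⟩] (.node [⟨.x, .z, (B (B (K (.negSucc 5224863348660240935)) (K (.negSucc 369503969943161003)) N N) (B (K (.negSucc 8043085023924352583)) (K (.ofNat 6477506658341006736)) N N) N N)⟩,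
  ⟨.x, T0, (B (K (.ofNat 7883462116165798596)) (K (.negSucc 1358049726283202231)) N N)⟩,
  ⟨.x, T1, (B (K (.negSucc 3487174298903777243)) (K (.negSucc 2409317372003468387)) N N)⟩,
  ⟨.x, T5, (K (.negSucc 1368627501157632995))⟩,
  ⟨.x, T7, (K (.ofNat 2806124005956684420))⟩,
  ⟨.x, T8, (K (.negSucc 2125121053479842543))⟩,
  ⟨.x, T10, (K (.negSucc 657403602523864055))⟩] (.node [⟨.x, .z, (B (K (.negSucc 1967418705278108375)) (K (.ofNat 6198963092018171580)) N N)⟩,
  ⟨.x, T0, (K (.negSucc 4559452912187457227))⟩,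
  ⟨.x, T1, (K (.ofNat 138047562826731516))⟩] (.node [⟨.x, .z, (K (.ofNat 763385466404011332))⟩] .nil .nil .nil .nil .nil .nil) (.node [⟨.x, .z, (K (.negSucc 2220293908842583181))⟩] .nil .nil .nil .nil .nil .nil) .nil .nil .nil .nil) (.node [⟨.x, .z, (B (K (.negSucc 6239299344316598447)) (K (.ofNat 407427151295206980)) N N)⟩,
  ⟨.x, T0, (K (.negSucc 3716916795652015703))⟩,
  ⟨.x, T1, (K (.ofNat 8577553510790556222))⟩] (.node [⟨.x, .z, (K (.negSucc 1723370693654738309))⟩] .nil .nil .nil .nil .nil .nil) (.node [⟨.x, .z, (K (.negSucc 3325869069009116699))⟩] .nil .nil .nil .nil .nil .nil) .nil .nil .nil .nil) .nil .nil .nil .nil) (.node [⟨.x, .z, (B (B (K (.ofNat 120940876331734872)) (K (.negSucc 4641564580157095415)) N N) (B (K (.negSucc 1479727894657066907)) (K (.ofNat 2173856432875684284)) N N) N N)⟩,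
  ⟨.x, T0, (B (K (.negSucc 2769296369663356763)) (K (.negSucc 171757229879061875)) N N)⟩,
  ⟨.x, T1, (B (K (.ofNat 2618542034173482312)) (K (.ofNat 5020765232749753032)) N N)⟩,
  ⟨.x, T5, (K (.negSucc 141961257266369351))⟩,
  ⟨.x, T7, (K (.ofNat 271977067192740672))⟩,
  ⟨.x, T8, (K (.ofNat 3077217806744108244))⟩,
  ⟨.x, T10, (K (.ofNat 3028456698969401616))⟩] (.node [⟨.x, .z, (B (K (.negSucc 4639082538817345331)) (K (.ofNat 1101067892608012476)) N N)⟩,
  ⟨.x, T0, (K (.negSucc 1650183606698181239))⟩,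
  ⟨.x, T1, (K (.ofNat 4237919766241705488))⟩] (.node [⟨.x, .z, (K (.ofNat 399699325904695992))⟩] .nil .nil .nil .nil .nil .nil) (.node [⟨.x, .z, (K (.negSucc 327752393282202461))⟩] .nil .nil .nil .nil .nil .nil) .nil .nil .nil .nil) (.node [⟨.x, .z, (B (K (.negSucc 1108484005969087103)) (K (.negSucc 1340698194034296383)) N N)⟩,
  ⟨.x, T0, (K (.ofNat 26138352482693472))⟩,
  ⟨.x, T1, (K (.ofNat 1031999055068816940))⟩] (.node [⟨.x, .z, (K (.ofNat 429698448152930040))⟩] .nil .nil .nil .nil .nil .nil) (.node [⟨.x, .z, (K (.negSucc 429195228197551619))⟩] .nil .nil .nil .nil .nil .nil) .nil .nil .nil .nil) .nil .nil .nil .nil) (.node [⟨.x, T4, (K (.negSucc 1234169265145085135))⟩,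
  ⟨.x, T6, (K (.negSucc 383954827664685479))⟩] .nil .nil .nil .nil .nil .nil) (.node [⟨.x, T4, (K (.negSucc 1361821865132860655))⟩,
  ⟨.x, T6, (K (.negSucc 217275125714452343))⟩] .nil .nil .nil .nil .nil .nil) .nil .nil)

def c_31 : Cert := (.node [⟨.x, .z, (B (B (B (A0 (K (.ofNat 1737801104375869596))) (A1 (K (.ofNat 229688362840823964))) N N) (B (B (K (.negSucc 4164634435268735987)) (K (.ofNat 3860348046298209396)) N N) (B (K (.negSucc 6632882508243886019)) (K (.ofNat 8219966897761455312)) N N) N N) N N) (B (B (B (K (.ofNat 3379977387944327436)) (K (.negSucc 492619532817265559)) N N) (B (K (.ofNat 4312990289306708268)) (K (.negSucc 948846569103964187)) N N) N N) (B (B (K (.ofNat 3540944981878814580)) (K (.negSucc 1092639050106722411)) N N) (B (K (.ofNat 1788034630164606516)) (K (.ofNat 420698534004602448)) N N) N N) N N) N N)⟩,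
  ⟨.x, T0, (B (B (B (K (.ofNat 245594421989082264)) (K (.negSucc 689369798382886823)) N N) (B (K (.negSucc 73366355571464927)) (K (.negSucc 979160536894207079)) N N) N N) (B (B (K (.ofNat 3895643983617249864)) (K (.negSucc 2193546567905261771)) N N) (B (K (.ofNat 3097186823559093300)) (K (.negSucc 1860728061302498807)) N N) N N) N N)⟩,
  ⟨.x, T1, (B (B (B (K (.negSucc 1913753425812238247)) (K (.ofNat 1573598845240373532)) N N) (B (K (.negSucc 303475930565865791)) (K (.ofNat 436217654248194504)) N N) N N) (B (B (K (.ofNat 826445403373546068)) (K (.ofNat 829695818001068676)) N N) (B (K (.ofNat 4709864775146624184)) (K (.negSucc 5723337563413393391)) N N) N N) N N)⟩,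
  ⟨.x, T4, (B (A2 (K (.ofNat 233633513607909072))) (B N N (K (.ofNat 16156546390234698)) (K (.negSucc 67391847685097795))) (B (K (.ofNat 56860349932028454)) (K (.ofNat 63508728254606166)) N N) (B (K (.ofNat 672982534746098220)) (K (.negSucc 254784987443382395)) N N))⟩,
  ⟨.x, T5, (A1 (A1 (K (.ofNat 1063556663785444500))))⟩,
  ⟨.x, T6, (B (A2 (K (.negSucc 70043925336083999))) (B N N (K (.negSucc 353640690321696455)) (K (.ofNat 69562910574479112))) (B (K (.negSucc 14486177088454049)) (K (.ofNat 381706017725329920)) N N) (B (K (.negSucc 2689608093863946989)) (K (.ofNat 2360285039510752284)) N N))⟩,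
  ⟨.x, T7, (B (B (K (.ofNat 53745685156683324)) (K (.ofNat 260384077619109780)) N N) (B (K (.negSucc 287893951734219179)) (K (.negSucc 950590656387060695)) N N) N N)⟩,
  ⟨.x, T8, (B (B (K (.negSucc 266271804640504991)) (K (.negSucc 95459280685434455)) N N) (B (K (.ofNat 2666068309304872752)) (K (.negSucc 4079143088399290715)) N N) N N)⟩,
  ⟨.x, T10, (A1 (B (K (.ofNat 1614637273959497760)) (K (.negSucc 1307357104267590599)) N N))⟩,
  ⟨.x, T28, (A3 (K (.ofNat 70015017495779160)))⟩,
  ⟨.x, T29, (A1 (K (.ofNat 43971901909123104)))⟩,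
  ⟨.x, T12, (B N N (K (.ofNat 11924972637978288)) (K (.negSucc 348713177531711033)))⟩,
  ⟨.x, T13, (B (K (.ofNat 170625182082666192)) (K (.negSucc 242407749643165007)) N N)⟩,
  ⟨.x, T14, (B (K (.ofNat 51254892978843708)) (K (.negSucc 190335422311387667)) N N)⟩,
  ⟨.x, T30, (A0 (K (.negSucc 253901814934222475)))⟩,
  ⟨.x, T31, (A1 (K (.negSucc 137467417970404871)))⟩,
  ⟨.x, T32, (A1 (K (.negSucc 1652632868535011)))⟩,
  ⟨.x, T16, (K (.ofNat 140218032051381312))⟩,
  ⟨.x, T18, (K (.negSucc 1437041971261259))⟩,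
  ⟨.x, T34, (K (.negSucc 277077177337515155))⟩,
  ⟨.x, T43, (K (.negSucc 7224524986652063))⟩,
  ⟨.x, T45, (K (.negSucc 96596359139536703))⟩,
  ⟨.x, T35, (K (.ofNat 21851919311374656))⟩] c_310 c_311 (.node [⟨.x, T4, (B (K (.negSucc 3840030195187638113)) (K (.negSucc 11861616773644630535)) N N)⟩,
  ⟨.x, T6, (B (K (.ofNat 22606016743804193358)) (K (.ofNat 9773860910981934216)) N N)⟩,
  ⟨.x, T28, (K (.negSucc 21881694357294673775))⟩,
  ⟨.x, T12, (K (.ofNat 14707382402258549244))⟩] (.node [⟨.x, T4, (K (.ofNat 211943946560845086))⟩,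
  ⟨.x, T6, (K (.negSucc 20636550693959369909))⟩] .nil .nil .nil .nil .nil .nil) (.node [⟨.x, T4, (K (.ofNat 12200513935315898232))⟩,
  ⟨.x, T6, (K (.negSucc 24058048245204186971))⟩] .nil .nil .nil .nil .nil .nil) .nil .nil .nil .nil) (.node [⟨.x, T4, (B (K (.negSucc 44742113914350593)) (K (.negSucc 44186302177008263)) N N)⟩,
  ⟨.x, T6, (B (K (.negSucc 75829888453851209)) (K (.ofNat 15521342237472540)) N N)⟩,
  ⟨.x, T28, (K (.ofNat 114252419862488544))⟩,
  ⟨.x, T12, (K (.negSucc 45286414266054023))⟩] (.node [⟨.x, T4, (K (.negSucc 505297247533379321))⟩,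
  ⟨.x, T6, (K (.negSucc 742920577584989033))⟩] .nil .nil .nil .nil .nil .nil) (.node [⟨.x, T4, (K (.negSucc 258083323376996207))⟩,
  ⟨.x, T6, (K (.negSucc 1563438392500823))⟩] .nil .nil .nil .nil .nil .nil) .nil .nil .nil .nil) .nil .nil)

def c_32 : Cert := (.node [⟨.x, T4, (B (B (K (.ofNat 2606552826031169646)) (K (.ofNat 3319966844136991962)) N N) (B (K (.ofNat 3202784109514460538)) (K (.negSucc 274046178068769635)) N N) N N)⟩,
  ⟨.x, T6, (B (B (K (.negSucc 1710747370739939015)) (K (.negSucc 755149540930529765)) N N) (B (K (.negSucc 5450257761019880369)) (K (.negSucc 1081948706201821139)) N N) N N)⟩,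
  ⟨.x, T28, (A1 (K (.negSucc 365452602571884767)))⟩,
  ⟨.x, T12, (B (K (.ofNat 862798982928022590)) (K (.ofNat 1551777430047417036)) N N)⟩] (.node [⟨.x, T4, (B (K (.negSucc 1164280285307657231)) (K (.ofNat 75195397726614990)) N N)⟩,
  ⟨.x, T6, (B (K (.negSucc 128685085873286483)) (K (.negSucc 1354127751219656357)) N N)⟩,
  ⟨.x, T28, (K (.ofNat 111916578824439912))⟩,
  ⟨.x, T12, (K (.ofNat 762288991139630322))⟩] (.node [⟨.x, T6, (K (.negSucc 3090863936903005457))⟩] .nil .nil .nil .nil .nil .nil) (.node [⟨.x, T4, (K (.ofNat 2776042144177523904))⟩,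
  ⟨.x, T6, (K (.negSucc 5395809544822359287))⟩] .nil .nil .nil .nil .nil .nil) .nil .nil .nil .nil) (.node [⟨.x, T4, (B (K (.ofNat 3741372827525220342)) (K (.ofNat 5312866343066997192)) N N)⟩,
  ⟨.x, T6, (B (K (.negSucc 6597517056345762335)) (K (.negSucc 3012056899875609851)) N N)⟩,
  ⟨.x, T28, (K (.ofNat 8424709954874233464))⟩,
  ⟨.x, T12, (K (.negSucc 3622906562591635685))⟩] (.node [⟨.x, T4, (K (.ofNat 1120598998938776262))⟩,
  ⟨.x, T6, (K (.ofNat 1325710538031985716))⟩] .nil .nil .nil .nil .nil .nil) (.node [⟨.x, T4, (K (.negSucc 4474769126761367333))⟩,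
  ⟨.x, T6, (K (.ofNat 3419758486539242958))⟩] .nil .nil .nil .nil .nil .nil) .nil .nil .nil .nil) .nil .nil .nil .nil)

def c_33 : Cert := (.node [⟨.x, T4, (B (B (K (.negSucc 179479908364184441)) (K (.ofNat 491653395855511302)) N N) (B (K (.ofNat 1151455051504128966)) (K (.negSucc 914314228755188687)) N N) N N)⟩,
  ⟨.x, T6, (B (B (K (.negSucc 47006053458837941)) (K (.negSucc 420667937782247819)) N N) (B (K (.negSucc 1377073596767366021)) (K (.negSucc 173959662319976819)) N N) N N)⟩,
  ⟨.x, T28, (A1 (K (.negSucc 17617700570788247)))⟩,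
  ⟨.x, T12, (B (K (.negSucc 28730499053425679)) (K (.ofNat 282388074437934066)) N N)⟩] (.node [⟨.x, T4, (B (K (.negSucc 5402782893002116493)) (K (.negSucc 12062780084674138397)) N N)⟩,
  ⟨.x, T6, (B (K (.ofNat 21067344270919084566)) (K (.ofNat 12205608204858188640)) N N)⟩,
  ⟨.x, T28, (K (.negSucc 23430096553038245615))⟩,
  ⟨.x, T12, (K (.ofNat 15927605335685482092))⟩] (.node [⟨.x, T4, (K (.ofNat 19237557537771930))⟩,
  ⟨.x, T6, (K (.negSucc 26713908407642836973))⟩] .nil .nil .nil .nil .nil .nil) (.node [⟨.x, T4, (K (.ofNat 11558694332211249018))⟩,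
  ⟨.x, T6, (K (.negSucc 29639233950093137309))⟩] .nil .nil .nil .nil .nil .nil) .nil .nil .nil .nil) (.node [⟨.x, T4, (B (K (.negSucc 1468067544364622291)) (K (.ofNat 495874775784330264)) N N)⟩,
  ⟨.x, T6, (B (K (.ofNat 142709446651836036)) (K (.negSucc 100978059953008307)) N N)⟩,
  ⟨.x, T28, (K (.negSucc 140222950957724543))⟩,
  ⟨.x, T12, (K (.ofNat 83450490245953236))⟩] (.node [⟨.x, T4, (K (.ofNat 457522297444054206))⟩,
  ⟨.x, T6, (K (.negSucc 5316196099917814985))⟩] .nil .nil .nil .nil .nil .nil) (.node [⟨.x, T4, (K (.ofNat 195941538539822376))⟩,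
  ⟨.x, T6, (K (.negSucc 60600044335419539))⟩] .nil .nil .nil .nil .nil .nil) .nil .nil .nil .nil) .nil .nil .nil .nil)

end Pool.Agent.Helper805.Chain.C6b
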