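import Pool.Agent.Helper805.Chain.C6bD1
set_option autoImplicit false
set_option maxRecDepth 100000

/-! Certificate data (found by computer). -/

namespace Pool.Agent.Helper805.Chain.C6b
open Pool.Agent.Helper805.Chain

def c_3 : Cert := (.node [⟨.x, .z, (B (B (B (A0 (A0 (K (.negSucc 3397160145232758851)))) (A1 (A1 (K (.ofNat 359217017051422152)))) N N) (B (B (A1 (K (.negSucc 8657468807455004591))) (A0 (K (.ofNat 8379204660657273576))) N N) (B (B (K (.ofNat 17091617346218126496)) (K (.negSucc 31840478748521894447)) N N) (B (K (.negSucc 18887440254866986883)) (K (.negSucc 22979413280074830479)) N N) N N) N N) N N) (B (B (B (A0 (K (.ofNat 690322573975221276))) (A1 (K (.ofNat 6949704326887734888))) N N) (B (B (K (.ofNat 25671192716776195752)) (K (.ofNat 28273093890588429780)) N N) (B (K (.ofNat 17913200987214129060)) (K (.ofNat 2285680363610716860)) N N) N N) N N) (B (B (B (K (.ofNat 28523345797740516132)) (K (.ofNat 36610541570684548692)) N N) (B (K (.ofNat 50876051468995568796)) (K (.ofNat 17020335071454161172)) N N) N N) (B (B (K (.ofNat 29075944275614604372))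 (K (.ofNat 13620512590102713096)) N N) (B (K (.ofNat 17402142005489123568)) (K (.ofNat 1904474816286069636)) N N) N N) N N) N N) N N)⟩,
  ⟨.x, T0, (B (B (B (A0 (K (.negSucc 94008513130660715))) (A1 (K (.ofNat 1508943894961111560))) N N) (B (B (K (.negSucc 4546817642352036743)) (K (.negSucc 9036349723753590671)) N N) (B (K (.negSucc 8415797500883354567)) (K (.negSucc 84663355605109763)) N N) N N) N N) (B (B (B (K (.negSucc 9391129454645232839)) (K (.negSucc 5312883264573163523)) N N) (B (K (.negSucc 12819282921964492343)) (K (.ofNat 4148945593356114432)) N N) N N) (B (B (K (.negSucc 9601760169122977631)) (K (.negSucc 4085886561039162599)) N N) (B (K (.negSucc 10401478481097989291)) (K (.ofNat 304935975988846608)) N N) N N) N N) N N)⟩,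
  ⟨.x, T1, (B (B (B (A0 (K (.ofNat 3629457040699675908))) (A1 (K (.ofNat 668744714857854372))) N N) (B (B (K (.ofNat 4139982441991490904)) (K (.ofNat 7529630129596358628)) N N) (B (K (.ofNat 3965694131127612000)) (K (.ofNat 2541855505036662300)) N N) N N) N N) (B (B (B (K (.ofNat 11162568951945382800)) (K (.ofNat 3260552291913504468)) N N) (B (K (.ofNat 11267091599719937316)) (K (.negSucc 1982424779419228463)) N N) N N) (B (B (K (.ofNat 2345284282438266984)) (K (.ofNat 4591516205995985640)) N N) (B (K (.ofNat 2525830122970932540)) (K (.ofNat 2681054807260928280)) N N) N N) N N) N N)⟩,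
  ⟨.x, T4, (B (B (A2 (K (.ofNat 205435171050181128))) N (B (K (.ofNat 1491385574597353092)) (K (.negSucc 476378730022874405)) N N) N) (B (A2 (K (.ofNat 66397143206282490))) (B N N (K (.negSucc 816904314483764975)) (K (.ofNat 76258488866746536))) (B (K (.ofNat 1064140156793340858)) (K (.negSucc 469328236657998731)) N N) (B (K (.negSucc 32572986762033143)) (K (.ofNat 4193312103560874)) N N)) (B (B (K (.ofNat 185984325001888308)) (K (.ofNat 75205199085873150)) N N) (B (K (.negSucc 1652486858679857003)) (K (.ofNat 2183798266645839984)) N N) N N) (B (B (K (.negSucc 655156095987439787)) (K (.ofNat 85168819970719128)) N N) (B (K (.negSucc 272498354727723431)) (K (.ofNat 6329768325883590)) N N) N N))⟩,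
  ⟨.x, T5, (A1 (A1 (B (K (.ofNat 1145253353238200304)) (K (.ofNat 117604100155497732)) N N)))⟩,
  ⟨.x, T6, (B (B (A2 (K (.negSucc 22802603620894271))) N (B (K (.negSucc 62817970131231839)) (K (.negSucc 588980323738325735)) N N) N) (B (A2 (K (.negSucc 676163544783256529))) (B N N (K (.ofNat 42543269614669950)) (K (.negSucc 74166274654687151))) (B (K (.ofNat 900660703721416344)) (K (.negSucc 1132572703745441573)) N N) (B (K (.ofNat 1422542371508607342)) (K (.negSucc 721745621460063269)) N N)) (B (B (K (.negSucc 39280095892392767)) (K (.ofNat 14990603701808196)) N N) (B (K (.negSucc 1557118776665658443)) (K (.ofNat 796521705349512408)) N N) N N) (B (B (K (.ofNat 1803112133754243186)) (K (.negSucc 990127984269608981)) N N) (B (K (.ofNat 2319517293485977788)) (K (.negSucc 968908837376585237)) N N) N N))⟩,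
  ⟨.x, T7, (B (B (B (K (.negSucc 89039115529452899)) (K (.negSucc 987944940612387323)) N N) (B (K (.negSucc 4160210821295618123)) (K (.ofNat 50916737424306768)) N N) N N) (B (B (K (.negSucc 2943744560980648487)) (K (.ofNat 339214045636962132)) N N) (B (K (.negSucc 4981649543156855267)) (K (.ofNat 915076009401141588)) N N) N N) N N)⟩,
  ⟨.x, T8, (B (B (B (K (.negSucc 160551999591561899)) (K (.ofNat 544318496310741264)) N N) (B (K (.negSucc 1538940964539580139)) (K (.ofNat 871892143108314552)) N N) N N) (B (B (K (.negSucc 6326132450787584147)) (K (.ofNat 2605968015219091404)) N N) (B (K (.negSucc 5049821390289633551)) (K (.ofNat 2667711411561715596)) N N) N N) N N)⟩,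
  ⟨.x, T10, (A1 (B (B (K (.negSucc 2533344867643846871)) (K (.ofNat 824629807379167860)) N N) (B (K (.negSucc 299044631582418959)) (K (.ofNat 265383619922610168)) N N) N N))⟩,
  ⟨.x, T28, (B N (A3 (K (.ofNat 78126600716835048))) N (A1 (K (.negSucc 11810350514801327))))⟩,
  ⟨.x, T29, (A1 (A1 (K (.negSucc 89415717109142423))))⟩,
  ⟨.x, T12, (B (A2 (K (.ofNat 39295644202459764))) (B N N (K (.ofNat 683013492170660322)) (K (.negSucc 117015438044308985))) (B (K (.negSucc 10248324281193431)) (K (.negSucc 412759189753486631)) N N) (B (K (.ofNat 185794627227242670)) (K (.negSucc 435103060430025749)) N N))⟩,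
  ⟨.x, T13, (B (B (K (.ofNat 69994690520476428)) (K (.ofNat 1244486523487629240)) N N) (B (K (.ofNat 1209973316066513208)) (K (.ofNat 1263467393647338348)) N N) N N)⟩,
  ⟨.x, T14, (B (B (K (.ofNat 123341988136864896)) (K (.ofNat 71298855846928332)) N N) (A0 (K (.ofNat 90696492034457652))) N N)⟩,
  ⟨.x, T30, (A0 (A0 (K (.negSucc 66543486460901183))))⟩,
  ⟨.x, T31, (A1 (A1 (K (.ofNat 42315013900095552))))⟩,
  ⟨.x, T32, (A1 (A1 (K (.negSucc 15600604681687703))))⟩,
  ⟨.x, T16, (B (K (.ofNat 33511321039476672)) (K (.negSucc 106287430562147519)) N N)⟩,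
  ⟨.x, T18, (B (K (.negSucc 4425332388917579)) (K (.negSucc 1929931810132787)) N N)⟩,
  ⟨.x, T34, (A0 (K (.negSucc 108722895516806003)))⟩,
  ⟨.x, T35, (A1 (K (.ofNat 38477810415805236)))⟩,
  ⟨.x, T46, (K (.ofNat 74926903855104))⟩,
  ⟨.x, T48, (K (.negSucc 844353148391423))⟩,
  ⟨.x, T17, (K (.ofNat 46462232044819584))⟩,
  ⟨.x, T19, (K (.ofNat 46502154692703360))⟩] c_30 c_31 c_32 c_33 .nil .nil)

def cert : Cert := (.node [⟨.x, .z, (B (B (B (B (B (A2 (K (.ofNat 84615893335967616))) N (A0 (K (.negSucc 23565740968183679))) N) N (A0 (A0 (K (.negSucc 134299255417802495)))) N) N (A0 (A0 (A0 (K (.negSucc 340150033715804927))))) N) N (B (A0 (A0 (A0 (K (.ofNat 38188205832884256))))) (A1 (A1 (B (K (.negSucc 216920817934121663)) (K (.ofNat 599988868597753920)) N N))) N N) N) (B (B (B (B (A2 (K (.ofNat 60763457271890016))) N (A0 (K (.ofNat 8638144680699072))) N) N (A0 (A0 (K (.negSucc 311126696807842943)))) N) N (B (B (A0 (K (.negSucc 997645457638401695))) (A1 (K (.negSucc 2178112001698690559))) N N) (B (A0 (K (.negSucc 5878288046555881343))) (B (K (.ofNat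 1043233294972747680)) (K (.negSucc 4359651641927839871)) N N) N N) N N) N) (B (B (B (A2 (K (.negSucc 336494942190126719))) N (A0 (K (.ofNat 38317779318966336))) N) N (B (B (K (.negSucc 5308273121357682143)) (K (.ofNat 4810081734726736608)) N N) (B (K (.ofNat 4240902212133969024)) (K (.negSucc 3998817913738563071)) N N) N N) N) (B (B (A2 (K (.negSucc 243153331481922623))) N (B (K (.negSucc 952117503591165695)) (K (.ofNat 763585196295273696)) N N) N) (B (A2 (K (.ofNat 182349235952319744))) (B N N (K (.ofNat 43334057564191296)) (K (.ofNat 3736223700177024))) (B (K (.ofNat 10390649086698642144)) (K (.negSucc 10245924219903103295)) N N) (B (K (.negSucc 87542141303288447)) (K (.ofNat 6474078966096000)) N N)) (B (A1 (K (.negSucc 27044273661593248799))) (B (K (.negSucc 36482026409341047359)) (K (.ofNat 12689261533722141504)) N N) N N) (B (B (K (.negSucc 42859099434860351)) (K (.negSucc 3595430282720605631)) N N) (B (K (.negSucc 3607931476301443775)) (K (.negSucc 901526134892543)) N N) N N)) (B (B (B (K (.negSucc 9838853343193297247)) (K (.ofNat 18612537421456308672))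 N N) (B (K (.negSucc 10542828765310138079)) (K (.ofNat 15002912829169380960)) N N) N N) (B (B (K (.negSucc 29210244090944953823)) (K (.ofNat 51906306374919398016)) N N) (B (K (.ofNat 146175390051861024)) (K (.ofNat 23891199593169737088)) N N) N N) N N) (B (B (B (K (.ofNat 102421642383063360)) (K (.negSucc 11719038168786676895)) N N) (B (K (.negSucc 19114289900313274655)) (K (.ofNat 7859484468810814176)) N N) N N) (B (B (K (.negSucc 7445932392092679935)) (K (.ofNat 17654928991088457888)) N N) (B (K (.ofNat 9904803730329053952)) (K (.negSucc 207478782701872415)) N N) N N) N N)) (B (B (A1 (A1 (K (.negSucc 7663577351587631423)))) (B (A1 (K (.ofNat 47074061579091299712))) (B (K (.ofNat 21602867453113497984)) (K (.ofNat 7671757282625520000)) N N) N N) N N) (B (B (B (K (.negSucc 3957706491299426303)) (K (.ofNat 52884088089200883936)) N N) (B (K (.ofNat 53400895413501313152)) (K (.negSucc 18109264112036569727)) N N) N N) (B (B (K (.ofNat 36215678702731758336)) (K (.ofNat 8144161883556573888)) N N) (B (K (.ofNat 54425850913608850080)) (K (.negSucc 24729857807417987903))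 N N) N N) N N) N N) (B (B (B (A0 (K (.ofNat 383816939356636704))) (A1 (K (.ofNat 11160239640001287552))) N N) (B (B (K (.negSucc 10286937052298171135)) (K (.negSucc 10158334187991513695)) N N) (B (K (.negSucc 16911277799079284063)) (K (.ofNat 19454216031975213792)) N N) N N) N N) (B (B (B (K (.negSucc 9923906166874043615)) (K (.negSucc 13850797907165009471)) N N) (B (K (.negSucc 17788214003086962143)) (K (.ofNat 18427879341507753504)) N N) N N) (B (B (K (.negSucc 8314577072548838207)) (K (.negSucc 16905677463438470783)) N N) (B (K (.negSucc 14897181486596307839)) (K (.negSucc 207459915320042783)) N N) N N) N N) N N)) (B (B (B (A0 (A0 (K (.ofNat 116148447733458528)))) (A1 (A1 (K (.negSucc 13162106460213426239)))) N N) (B (B (A1 (K (.negSucc 6383939658684544511))) (A0 (K (.negSucc 19745327043464638463))) N N) (B (B (K (.negSucc 16495507707981612191)) (K (.ofNat 23304129808651322112)) N N) (B (K (.negSucc 2337328246433568191)) (K (.ofNat 25263431649391575744)) N N) N N) N N) N N) (B (B (B (A0 (K (.negSucc 22878156368061215))) (A1 (K (.ofNat 28397791748767599072)))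 N N) (B (B (K (.negSucc 29847282916607516447)) (K (.negSucc 60672252189023250335)) N N) (B (K (.negSucc 40644320553815396255)) (K (.ofNat 23099650995034123776)) N N) N N) N N) (B (B (B (K (.negSucc 12208142277617535935)) (K (.negSucc 91967624595367967519)) N N) (B (K (.negSucc 48073008748563567071)) (K (.negSucc 13582372608149008319)) N N) N N) (B (B (K (.negSucc 19498405341887407871)) (K (.negSucc 77395758484902247295)) N N) (B (K (.negSucc 49871897523254623103)) (K (.negSucc 1627687523000491775)) N N) N N) N N) N N) N N) (B (B (B (A0 (A0 (K (.ofNat 269562803208122304)))) (A1 (A1 (K (.ofNat 13378137276959374752)))) N N) (B (B (A1 (K (.ofNat 5123163025811947680))) (A0 (K (.ofNat 22423850435657708928))) N N) (B (B (K (.ofNat 18193468726255431744)) (K (.negSucc 33418225984165231967)) N N) (B (K (.negSucc 4866692389487290079)) (K (.negSucc 32555013069302481599)) N N) N N) N N) N N) (B (B (B (A0 (K (.negSucc 301969913903704799))) (A1 (K (.negSucc 26473082479600462847))) N N) (B (B (K (.ofNat 46942340657495462784)) (K (.ofNat 29013851127450614400))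 N N) (B (K (.ofNat 40962712270624330464)) (K (.negSucc 42827163154201913183)) N N) N N) N N) (B (B (B (K (.ofNat 46307813007514141440)) (K (.ofNat 49968560438532700128)) N N) (B (K (.ofNat 56240914219652502144)) (K (.ofNat 1647055242720705600)) N N) N N) (B (B (K (.ofNat 35430835211675334720)) (K (.ofNat 45737171811157031424)) N N) (A0 (K (.ofNat 34097859041240782944))) N N) N N) N N) N N))⟩,
  ⟨.z, .z, (B (B (A0 (A0 (A0 (A0 (K (.negSucc 116148447733458527)))))) (B (A1 (A0 (B (K (.negSucc 102242205679453775)) (K (.negSucc 731026724817160079)) N N))) (B (B (B (K (.negSucc 552630463305590375)) (K (.negSucc 384748698527704583)) N N) (B (K (.negSucc 2965350296300310503)) (K (.negSucc 178068529449454967)) N N) N N) (B (B (K (.negSucc 3135044399654723687)) (K (.negSucc 113598972852177095)) N N) (B (K (.negSucc 1832064388557540911)) (K (.ofNat 23350146863302800)) N N) N N) N N) N N) N N) (B (B (B (A0 (A0 (K (.negSucc 209063223828973727)))) (A1 (A1 (K (.ofNat 124983134765452512)))) N N) (B (B (A1 (K (.negSucc 4236260583811472063))) (A0 (K (.ofNat 179712177275272032)))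 N N) (B (B (K (.ofNat 884197484384901120)) (K (.negSucc 11964539555104396751)) N N) (B (K (.negSucc 11536107003983226671)) (K (.negSucc 8448600435146537903)) N N) N N) N N) N N) (B (B (B (A0 (K (.ofNat 332700502595992632))) (A1 (K (.ofNat 5782152308348952288))) N N) (B (B (K (.ofNat 7550106827501700576)) (K (.ofNat 10466311404242938680)) N N) (B (K (.ofNat 6757675721106990120)) (K (.ofNat 3679227637603062624)) N N) N N) N N) (B (B (B (K (.ofNat 10774217596474039752)) (K (.ofNat 11939011971694321104)) N N) (B (K (.ofNat 21597152814857791440)) (K (.ofNat 7251978886357483224)) N N) N N) (B (B (K (.ofNat 9736728717806341200)) (K (.ofNat 1715828688080160336)) N N) (A0 (K (.ofNat 6201951620006339496))) N N) N N) N N) N N) N N)⟩,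
  ⟨.x, T0, (B (B (A0 (B (A2 (K (.ofNat 87598558494720))) N (A0 (K (.negSucc 59746709127167))) N)) N (B (A1 (A1 (K (.ofNat 26848993439899008)))) (B (A0 (K (.ofNat 401018055693230304))) (B (K (.negSucc 269040027712631615)) (K (.ofNat 232121551211097408)) N N) N N) N N) N) (B (B (B (A2 (K (.ofNat 158057457011905248))) N (A0 (K (.ofNat 3150679911398208))) N) N (B (B (K (.ofNat 270285630638173920)) (K (.negSucc 264602947478423903)) N N) (B (K (.negSucc 179071265968654751)) (K (.negSucc 180133978794128351)) N N) N N) N) (B (B (A2 (K (.negSucc 149423356527236063))) N (B (K (.ofNat 248462882679691008)) (K (.negSucc 210132385460875583)) N N) N) (B (A2 (K (.negSucc 195528114649848959))) (B N N (K (.ofNat 134247203572398336)) (K (.negSucc 42420002025506111))) (B (K (.negSucc 476697645156245183)) (K (.ofNat 473271945265802592)) N N) (B (K (.ofNat 157849804371022848)) (K (.negSucc 9961358778653183)) N N)) (B (B (K (.ofNat 1806665236603313184)) (K (.negSucc 1690120895021219807)) N N) (B (K (.negSucc 1639879492596363647)) (K (.ofNat 56589481989149760)) N N)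 N N) (B (B (K (.ofNat 91115016009123456)) (K (.ofNat 77120205074726688)) N N) (B (K (.ofNat 68769808468851168)) (K (.negSucc 15616371336310079)) N N) N N)) (B (B (B (K (.negSucc 148437653286557375)) (K (.ofNat 1574109439591481856)) N N) (B (K (.ofNat 580297405825148256)) (K (.negSucc 223844648320867391)) N N) N N) (B (B (K (.negSucc 1204015012498535327)) (K (.ofNat 529645564328041728)) N N) (B (K (.ofNat 2003867124401308320)) (K (.negSucc 858107395851590303)) N N) N N) N N) (B (B (B (K (.ofNat 384871100652472896)) (K (.ofNat 303968379631428288)) N N) (B (K (.negSucc 777545200393817183)) (K (.ofNat 696525693048934560)) N N) N N) (B (B (K (.negSucc 917165769493952159)) (K (.ofNat 1267521594617297376)) N N) (B (K (.ofNat 524485322266824576)) (K (.ofNat 159638836948567200)) N N) N N) N N)) (B (B (A1 (A1 (K (.negSucc 50702000144896799)))) (B (B (K (.ofNat 368013804172590240)) (K (.ofNat 1389809720268097632)) N N) (B (K (.ofNat 546037861201527744)) (K (.ofNat 111817339835090400)) N N) N N) N N) (B (B (B (K (.ofNat 237351613902719904)) (K (.negSucc 423350693600669855))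 N N) (B (K (.ofNat 941581624727173248)) (K (.negSucc 406540351971746495)) N N) N N) (B (B (K (.ofNat 494982953661014784)) (K (.ofNat 408026977030211616)) N N) (B (K (.ofNat 123562428939177984)) (K (.ofNat 266769412108137792)) N N) N N) N N) N N) (B (B (B (A0 (K (.negSucc 23239062318466079))) (A1 (K (.negSucc 890602680647033279))) N N) (B (B (K (.negSucc 668466264537378143)) (K (.negSucc 2164319101414164671)) N N) (B (K (.negSucc 1251974775385869119)) (K (.negSucc 1159779818982083903)) N N) N N) N N) (B (B (B (K (.negSucc 1214182321609810751)) (K (.negSucc 1369271312451503711)) N N) (B (K (.negSucc 2963440837884566303)) (K (.negSucc 685268628832255679)) N N) N N) (B (B (K (.negSucc 1708157001697236575)) (K (.ofNat 344200965148876896)) N N) (B (K (.negSucc 1272108348324221183)) (K (.ofNat 207459915320042784)) N N) N N) N N) N N))⟩,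
  ⟨.x, T1, (B (B (B (B (A2 (K (.negSucc 84615893335967615))) N (A0 (K (.ofNat 23544178246092672))) N) N (A0 (A0 (K (.ofNat 134299255417802496)))) N) N (B (B (A0 (K (.ofNat 340150033715804928))) (A1 (K (.ofNat 249510572246021184))) N N) (B (A0 (K (.ofNat 768454231733939520))) (B (K (.ofNat 112652498711501280)) (K (.ofNat 1126988410002892416)) N N) N N) N N) N) (B (B (B (A2 (K (.negSucc 106427912311885247))) N (A0 (K (.ofNat 31645281282185088))) N) N (B (B (K (.ofNat 636476674054330368)) (K (.negSucc 675101409156921599)) N N) (B (K (.negSucc 399762409270341599)) (K (.ofNat 1260248398518725280)) N N) N N) N) (B (B (A2 (K (.ofNat 528721366265922816))) N (B (K (.negSucc 64806720107105087)) (K (.negSucc 161194382662287743)) N N) N) (B (A2 (K (.ofNat 184179932012990592))) (B N N (K (.negSucc 455343723194242175)) (K (.ofNat 80416006978616064))) (B (K (.negSucc 2368515469454174879)) (K (.ofNat 2161023520364398368)) N N) (B (K (.negSucc 253261507804623359)) (K (.negSucc 9933057705908735)) N N)) (B (B (K (.ofNat 1911770341380629856)) (K (.negSucc 3120898810710112991))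 N N) (B (K (.negSucc 55989126281396447)) (K (.ofNat 1081483868746516032)) N N) N N) (B (B (K (.negSucc 268219173751978175)) (K (.ofNat 1510248268267377408)) N N) (B (K (.ofNat 1491932469872456640)) (K (.negSucc 15616371336310079)) N N) N N)) (B (B (B (K (.negSucc 1142234448042663359)) (K (.ofNat 180123555530306304)) N N) (B (K (.ofNat 1057357824280702560)) (K (.ofNat 617946453469828224)) N N) N N) (B (B (K (.ofNat 1732231943797253472)) (K (.ofNat 223545228031363392)) N N) (B (K (.ofNat 2613519356187426624)) (K (.negSucc 4380590380542699455)) N N) N N) N N) (B (B (B (K (.ofNat 323320055317749504)) (K (.ofNat 528469571750676192)) N N) (B (K (.negSucc 741212799234072479)) (K (.ofNat 1516136591147683680)) N N) N N) (B (B (K (.negSucc 1025922751114713983)) (K (.ofNat 1735296903921095424)) N N) (B (K (.ofNat 144616228431528672)) (K (.ofNat 218530436837660640)) N N) N N) N N)) (B (B (B (A0 (K (.negSucc 38188205832884255))) (A1 (K (.negSucc 1172969621546827967))) N N) (B (B (K (.negSucc 2497348637197293023)) (K (.negSucc 1885437199191731903)) N N) (B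 (K (.negSucc 2547830363433971039)) (K (.negSucc 503375491496391551)) N N) N N) N N) (B (B (B (K (.negSucc 2012593441035658175)) (K (.negSucc 1111517909598821471)) N N) (B (K (.negSucc 4542962783895093311)) (K (.negSucc 1793391724183714271)) N N) N N) (B (B (K (.negSucc 4715021103150225023)) (K (.ofNat 779683481183276352)) N N) (B (K (.negSucc 2843447308134943103)) (K (.ofNat 1246271415692317056)) N N) N N) N N) N N) (B (B (B (A0 (K (.negSucc 37271298421727999))) (A1 (K (.negSucc 29037926206860479))) N N) (B (B (K (.ofNat 1497357144785605824)) (K (.ofNat 86165086107078720)) N N) (B (K (.ofNat 704352814072602912)) (K (.negSucc 1756385711176235327)) N N) N N) N N) (B (B (B (K (.ofNat 1497362535466128576)) (K (.ofNat 379260802780449408)) N N) (B (K (.ofNat 1160005660776529056)) (K (.negSucc 2284840982402183519)) N N) N N) (A0 (B (K (.ofNat 191595056237415936)) (K (.negSucc 528455271225948191)) N N)) N N) N N))⟩,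
  ⟨.x, T2, (B (B (B (A0 (A0 (K (.negSucc 232296895466917055)))) (A1 (A1 (K (.negSucc 155928938134261823)))) N N) (B (B (A1 (K (.negSucc 588371065602055775))) (A0 (K (.negSucc 114623933207587775))) N N) (B (B (K (.ofNat 237805144539801120)) (K (.negSucc 473401565124320735)) N N) (B (K (.negSucc 613653664696410527)) (K (.negSucc 440672911368013727)) N N) N N) N N) N N) (B (B (B (A0 (K (.ofNat 301977999924488928))) (A1 (K (.ofNat 512719561414389024))) N N) (B (B (K (.ofNat 1407371945678282880)) (K (.ofNat 793839270646348992)) N N) (B (K (.negSucc 469675506599798111)) (K (.negSucc 275689918921946111)) N N) N N) N N) (B (B (B (K (.ofNat 1105960423548172896)) (K (.ofNat 959143183259472576)) N N) (B (K (.ofNat 659140494048028224)) (K (.ofNat 381436518531865536)) N N) N N) (B (B (K (.ofNat 875094277994962848)) (K (.ofNat 454782704343471648)) N N) (A1 (K (.negSucc 8086020784127))) N N) N N) N N) N N)⟩,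
  ⟨.z, T0, (B (B (B (A0 (A0 (K (.negSucc 116148447733458527)))) (A1 (A1 (K (.negSucc 57674476496016575)))) N N) (B (B (A1 (K (.ofNat 397671631613224704))) (A0 (K (.negSucc 230435055367449407))) N N) (B (B (K (.negSucc 326488404892408127)) (K (.ofNat 865761592903128288)) N N) (B (K (.ofNat 567405936026375904)) (K (.ofNat 546244072913024928)) N N) N N) N N) N N) (A0 (A0 (A1 (A1 (K (.ofNat 155883588260695200)))))) N N)⟩,
  ⟨.x, T4, (B (B (A2 (A2 (K (.ofNat 36813162249650304)))) N (B (A2 (K (.negSucc 30542873844760703))) N (B (K (.ofNat 7946112246266880)) (K (.negSucc 12272271695776511)) N N) N) N) (B (A2 (A2 (K (.ofNat 24522462329529024)))) N (A1 (A3 (K (.ofNat 13290835699040256)))) (B (A2 (K (.negSucc 4569033006461951))) (A2 (K (.ofNat 11419891019228160))) N (B (K (.ofNat 3611016439377984)) (K (.negSucc 5390680522751)) N N))) (B (B (A2 (K (.negSucc 65776206833438975))) N (B (K (.negSucc 28846924306994303)) (K (.negSucc 25648246769874623)) N N) N) (B (A2 (K (.negSucc 20514450287346623))) (B N N (K (.negSucc 3564773778521087)) (K (.negSucc 11422723848951743)))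 (B (K (.negSucc 28850929475497919)) (K (.ofNat 4298998724987904)) N N) (B (K (.negSucc 5436569692947455)) (K (.negSucc 8183525371245503)) N N)) (B (B (K (.ofNat 37449655229879424)) (K (.negSucc 11115221218520831)) N N) (B (K (.ofNat 26248409900314560)) (K (.ofNat 9424549110384576)) N N) N N) N) (B (B (A2 (K (.negSucc 31681252202685119))) N (B (K (.negSucc 26361224142466751)) (K (.ofNat 2438385712551936)) N N) N) (B (A2 (K (.negSucc 11617811897549759))) (A2 (K (.ofNat 10689095492554752))) (B (K (.negSucc 14456186631617471)) (K (.negSucc 11137163219739647)) N N) (A1 (K (.ofNat 2695340261376)))) N N))⟩,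
  ⟨.x, T5, (A1 (A1 (B (A2 (K (.negSucc 1821938369255423))) N N (A1 (K (.ofNat 9433690914816))))))⟩,
  ⟨.x, T6, (B (B (A2 (A2 (K (.ofNat 12129031176192)))) N (B (A2 (K (.ofNat 4043010392064))) N (B (K (.ofNat 5390680522752)) (K (.negSucc 18743024974447871)) N N) N) N) (B (A2 (A2 (K (.negSucc 36773843222926655)))) (A3 (A3 (K (.ofNat 7254376961892480)))) (A1 (A3 (K (.ofNat 90602608854413376)))) (B (A2 (K (.negSucc 5666274587336831))) (B N N (K (.negSucc 21672003310110719)) (K (.negSucc 16172041568255))) N (A0 (K (.negSucc 9323889121020095))))) (B (B (A2 (K (.ofNat 51211464966144))) N (B (K (.ofNat 10332137668608)) (K (.negSucc 19168687642055615)) N N) N) (B (A2 (K (.negSucc 3987033002918783))) (B N N (K (.ofNat 65793823630488576)) (K (.negSucc 59188784691919679))) (B (K (.negSucc 57280890537388223)) (K (.negSucc 85224101758012223)) N N) (B (K (.ofNat 19403608230280512)) (K (.ofNat 269776849140288)) N N)) (B (A1 (K (.ofNat 14461239625701120))) (B (K (.ofNat 67785982308725184)) (K (.ofNat 10090325037385152)) N N) N N) N) (B (B (A2 (K (.negSucc 42307946667983807)))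 N (B (K (.ofNat 11786913494483904)) (K (.negSucc 24596091226411487)) N N) N) (B (A2 (K (.negSucc 77849803651209407))) (B N N (K (.negSucc 51245101935834911)) (K (.negSucc 122916869211963455))) (B (K (.negSucc 158093346535881119)) (K (.ofNat 208152859499020800)) N N) (B (K (.negSucc 929636080773119)) (K (.negSucc 2695340261375)) N N)) (B (B (K (.ofNat 67149627708901248)) (K (.negSucc 115486355633985503)) N N) (B (K (.ofNat 58458157227421056)) (K (.ofNat 20148772620350304)) N N) N N) (B (B (K (.negSucc 18636996880994687)) (K (.ofNat 47454369943440096)) N N) (A0 (K (.ofNat 47459760623962848))) N N)))⟩,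
  ⟨.x, T7, (B (B (B (A2 (K (.ofNat 142853033852928))) N (A0 (K (.negSucc 41328550674431))) N) N (B (A1 (K (.negSucc 45105542404251839))) (B (K (.ofNat 187203836708570304)) (K (.negSucc 87844465075651199)) N N) N N) N) (B (B (A2 (K (.negSucc 65918161420538111))) N (B (K (.ofNat 203408997223977216)) (K (.negSucc 224317157377396607)) N N) N) (B (A2 (K (.negSucc 83436768835834175))) (B N N (K (.negSucc 67581981745161407)) (K (.negSucc 38683778325329087))) (B (K (.ofNat 233643591879824448)) (K (.negSucc 104007623640556607)) N N) (B (K (.ofNat 27863402979875904)) (K (.negSucc 3477846121642367)) N N)) (B (B (K (.ofNat 276170262669683424)) (K (.negSucc 95713450168738751)) N N) (B (K (.negSucc 273887189228064383)) (K (.ofNat 146182929153180192)) N N) N N) (B (B (K (.negSucc 67149627708901247)) (K (.negSucc 12661634025972287)) N N) (B (K (.negSucc 43465149300424319)) (K (.negSucc 16517897471202623)) N N) N N)) (B (B (A1 (K (.ofNat 28704368288371104))) (B (K (.ofNat 85932038843344512)) (K (.ofNat 89123783214362400)) N N) N N) (B (B (K (.negSucc 181492936884830591))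 (K (.ofNat 121832844776342784)) N N) (B (K (.negSucc 26120376533831327)) (K (.ofNat 118510145024953248)) N N) N N) N N) (B (B (B (K (.ofNat 340128470993713920)) (K (.ofNat 531195306849234720)) N N) (B (K (.ofNat 237265660739415168)) (K (.ofNat 111303543607746336)) N N) N N) (B (B (K (.negSucc 161941307069164895)) (K (.ofNat 196262352162160704)) N N) (B (K (.ofNat 132191065967976288)) (K (.negSucc 47839945753305215)) N N) N N) N N))⟩,
  ⟨.x, T8, (B (B (B (A2 (K (.ofNat 87598558494720))) N (A0 (K (.negSucc 65137389649919))) N) N (B (A1 (K (.negSucc 131311514968748351))) (B (K (.ofNat 108360271180945728)) (K (.negSucc 151712943683325695)) N N) N N) N) (B (B (A2 (K (.ofNat 91972184495161824))) N (B (K (.ofNat 213874466494296384)) (K (.negSucc 434088243899247167)) N N) N) (B (A2 (K (.negSucc 12500259711099551))) (B N N (K (.negSucc 126015135647208191)) (K (.ofNat 80416006978616064))) (B (K (.ofNat 404827242425684064)) (K (.negSucc 534863483644331519)) N N) (B (K (.negSucc 130401240738148799)) (K (.negSucc 9951925087738367)) N N)) (B (B (K (.ofNat 278554534954442208))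 (K (.negSucc 84349882442857247)) N N) (B (K (.negSucc 384465047206705919)) (K (.ofNat 80470148611329792)) N N) N N) (B (B (K (.negSucc 22433951452756031)) (K (.negSucc 19419958238742431)) N N) (B (K (.negSucc 37733061293401823)) (K (.negSucc 15616371336310079)) N N) N N)) (B (B (A1 (K (.ofNat 60255612354855456))) (B (K (.ofNat 129371614462806912)) (K (.ofNat 139947656655104928)) N N) N N) (B (B (K (.negSucc 302721302671667711)) (K (.ofNat 111894136997045760)) N N) (B (K (.negSucc 28092547042590239)) (K (.ofNat 233261257767283872)) N N) N N) N N) (B (B (B (K (.ofNat 325168546118250240)) (K (.ofNat 754143700980979008)) N N) (B (K (.ofNat 182984144239471680)) (K (.ofNat 304817132643083424)) N N) N N) (B (B (K (.negSucc 327402632211734015)) (K (.ofNat 610628807716645536)) N N) (B (K (.ofNat 231267590731679040)) (K (.ofNat 218530436837660640)) N N) N N) N N))⟩,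
  ⟨.x, T9, (A0 (B (A1 (A1 (K (.ofNat 100849944488650560)))) (B (B (K (.negSucc 279099843556427711)) (K (.negSucc 226061582686051391)) N N) (B (K (.negSucc 196400216397397823)) (K (.ofNat 41563379446214976)) N N) N N) N N))⟩,
  ⟨.x, T10, (A1 (B (B (A2 (K (.ofNat 82663074806302368))) N (B (K (.ofNat 490771636786368)) (K (.negSucc 186551913398161247)) N N) N) (B (A2 (K (.negSucc 25565212958642783))) (A2 (K (.negSucc 151653740448270815))) (B (K (.ofNat 46784058122600064)) (K (.negSucc 55814260892556095)) N N) (B (K (.negSucc 122884525128826943)) (K (.ofNat 10781361045504)) N N)) (A0 (B (K (.negSucc 44849883710431295)) (K (.negSucc 47871086088438143)) N N)) N))⟩,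
  ⟨.x, T11, (A1 (B (B (B (K (.negSucc 61066362200945471)) (K (.negSucc 227697568445317823)) N N) (B (K (.negSucc 170051488490584511)) (K (.negSucc 58891599889093439)) N N) N N) (B (A0 (K (.ofNat 45212774209130304))) (A1 (K (.negSucc 16172041568255))) N N) N N))⟩,
  ⟨.x, T12, (B (A2 (A2 (K (.ofNat 763654783868928)))) (A3 (A3 (K (.ofNat 1557676321818624)))) (B (A2 (K (.negSucc 352515566591999))) (B N N (K (.ofNat 392839102236672)) (K (.negSucc 1632097661257727))) (B (K (.negSucc 51535904071679)) (K (.negSucc 281855971289087)) N N) N) (B (A2 (K (.negSucc 705854709374975))) (B N N (K (.negSucc 1077581316188159)) (K (.negSucc 972761524955135))) (B (K (.ofNat 704899608053760)) (K (.ofNat 1738688385853440)) N N) N))⟩,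
  ⟨.x, T13, (B (B (A2 (K (.negSucc 110508950716415))) N (B (K (.negSucc 36836316905471)) (K (.ofNat 103321376686080)) N N) N) (B (A2 (K (.negSucc 41328550674431))) (A2 (K (.negSucc 39531657166847))) (A0 (K (.negSucc 79961761087487))) N) N N)⟩,
  ⟨.x, T14, (A0 (B (A2 (K (.negSucc 32344083136511))) N (B (K (.ofNat 88946228625408)) (K (.ofNat 56602145488896)) N N) N))⟩,
  ⟨.x, T15, (A0 (A0 (A1 (K (.negSucc 16172041568255)))))⟩,
  ⟨.x, T17, (A2 (K (.negSucc 32344083136511)))⟩,
  ⟨.x, T19, (A2 (K (.ofNat 8086020784128)))⟩,
  ⟨.z, T17, (A0 (K (.ofNat 24258062352384)))⟩,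
  ⟨.x, T23, (K (.ofNat 8086020784128))⟩,
  ⟨.x, T27, (K (.ofNat 16172041568256))⟩] c_0 c_1 c_2 c_3 .nil .nil)

end Pool.Agent.Helper805.Chain.C6b
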