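import Pool.Agent.Helper805.Chain.D5E0
import Pool.Agent.Helper805.Chain.D5E1
import Pool.Agent.Helper805.Chain.D5E2
import Pool.Agent.Helper805.Chain.D5E3
import Pool.Agent.Helper805.Chain.D5E4
import Pool.Agent.Helper805.Chain.D5E5
set_option autoImplicit false

namespace Pool.Agent.Helper805.Chain.D5
open Pool.Agent.Helper805.Chain

theorem check : Tri.isZ (Tri.add (Tri.smul (Int.ofNat 6772211712) tD5) (total true cert)) = true :=
  isZ_split pol ck ck0 ck1 ck2 ck3 ck4 ck5

end Pool.Agent.Helper805.Chain.D5
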