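import Pool.Agent.Helper805.Chain.S6E
set_option autoImplicit false

/-! The kernel check of the certificate, in pieces. -/

namespace Pool.Agent.Helper805.Chain.S6
open Pool.Agent.Helper805.Chain

theorem ck3 : Tri.isZ (c3 pol) = true := by decide +kernel

end Pool.Agent.Helper805.Chain.S6
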