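import Pool.Agent.Helper805.Chain.PFs
import Pool.Agent.Helper805.Chain.S6Chk
import Pool.Agent.Helper805.Chain.D5Chk
import Pool.Agent.Helper805.Chain.C5Chk
import Pool.Agent.Helper805.Chain.C6aChk
import Pool.Agent.Helper805.Chain.C6bChk
set_option autoImplicit false

/-! The two natural families with their certificates. -/

namespace Pool.Agent.Helper805.Chain
open Pool.Agent.Helper805.Nuc.Tens Pool.Agent.Helper805.Nuc.Ext Pool.Agent.Helper805.Chain.Var

theorem C6_comb {R : Type} [NonUnitalNonAssocRing R] {P : ℕ → AddSubgroup R} {x z : R} (hP : SuperAlt R P)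
    (hx : x ∈ P 1) (hz : z ∈ P 0) (u : R) (hu : u ∈ P 0) :
    (1741824 : ℤ) • (u * Ex.P6.val x z 0 - Ex.P6.val x z 0 * u) = 0 := by
  have h1 := C6_id hP hx hz (AddSubgroup.zero_mem _) C6a.check u hu
  have h2 := C6_id hP hx hz (AddSubgroup.zero_mem _) C6b.check u hu
  have h1' : (139905045504 : ℤ) • (u * Ex.P6.val x z 0 - Ex.P6.val x z 0 * u) = 0 := h1
  have h2' : (898446753792 : ℤ) • (u * Ex.P6.val x z 0 - Ex.P6.val x z 0 * u) = 0 := h2
  generalize (u * Ex.P6.val x z 0 - Ex.P6.val x z 0 * u) = r at h1' h2' ⊢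
  have e : (1741824 : ℤ) = (-195487) * 139905045504 + 30441 * 898446753792 := by norm_num
  rw [e, add_smul, mul_smul, mul_smul, h1', h2', smul_zero, smul_zero, add_zero]

/-- the family with five arguments, with multiplier `6772211712 * 381024` -/
noncomputable def PF_five : PF 5 := PF5 (D := 6772211712) (D' := 381024) D5.check C5.check

theorem PF_five_F (R : Type) [NonUnitalNonAssocRing R] (v : Fin 5 → R) (z w : R) :
    PF_five.F R v z w = ((6772211712 : ℤ) * 381024) • F5 v z w := rfl

/-- the family with six arguments, with multiplier `2016 * 1741824` -/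
noncomputable def PF_six : PF 6 where
  F := fun R _ v z _ => ((2016 : ℤ) * 1741824) • F6 v z
  map := by
    intro R S _ _ g v z w
    rw [map_zsmul]
    congr 1
    unfold F6
    rw [Fv_map, map_zero, amap_te]
    rfl
  ad := fun Φ _ R _ _ _ _ hR z w =>
    AD_of 2016 1741824 (Fv_add Function.injective_id _ (Free.nil id z) (zero_free id))
      (Fv_smul Function.injective_id _ (Free.nil id z) (zero_free id))
      (Fv_alt Function.injective_id _ (Free.nil id z) (zero_free id)) (F6_der hR S6.check z)
      (F6_com hR C6_comb z)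

theorem PF_six_F (R : Type) [NonUnitalNonAssocRing R] (v : Fin 6 → R) (z w : R) :
    PF_six.F R v z w = ((2016 : ℤ) * 1741824) • F6 v z := rfl

end Pool.Agent.Helper805.Chain
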