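import Pool.Agent.Helper805.Chain.D5M
set_option autoImplicit false
set_option maxRecDepth 100000

/-! Certificate data (found by computer). -/

namespace Pool.Agent.Helper805.Chain.D5
open Pool.Agent.Helper805.Chain

def c_000 : Cert := (.node [⟨.x, .z, (C N N (A4 (K (.negSucc 1077622499242637))) (C N N N N (K (.negSucc 1000371198077204)) (K (.negSucc 390062081202740))) (B N N (K (.negSucc 645446309410241)) (K (.ofNat 733387810317627))) (B N N (K (.negSucc 293007110109650)) (K (.negSucc 66878416403891))))⟩,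
  ⟨.x, .w, (B N N (B N N (K (.ofNat 302816539536078)) (K (.ofNat 892941634228062))) (B N N (K (.ofNat 609525359576604)) (K (.ofNat 563950031360064))))⟩,
  ⟨.z, .w, (B (A2 (K (.negSucc 46538169355037))) (B N N (K (.negSucc 431417908600337)) (K (.ofNat 684512209647816))) (B (K (.negSucc 125366934891137)) (K (.negSucc 846593194105289)) N N) (B (K (.negSucc 309759636393965)) (K (.negSucc 1321303912725887)) N N))⟩,
  ⟨.x, T3, (C N N N N (K (.ofNat 242486085072981)) (K (.negSucc 367318346688980)))⟩,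
  ⟨.x, T4, (B N N (K (.ofNat 781427433825258)) (K (.negSucc 519953579664875)))⟩,
  ⟨.x, T6, (B N N (K (.ofNat 68217104628870)) (K (.negSucc 42924453934787)))⟩,
  ⟨.z, T0, (C N N N N (K (.negSucc 784730482016597)) (K (.negSucc 379446812038556)))⟩,
  ⟨.z, T1, (B N N (K (.negSucc 430842047935097)) (K (.negSucc 717536994504035)))⟩,
  ⟨.z, T4, (B (K (.ofNat 39945647599386)) (K (.ofNat 1310108365606416)) N N)⟩,
  ⟨.z, T5, (A2 (K (.negSucc 294700279701509)))⟩,
  ⟨.z, T6, (A1 (K (.negSucc 97130329420607)))⟩,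
  ⟨.x, T13, (K (.ofNat 4698816527520))⟩,
  ⟨.x, T26, (K (.negSucc 22354313545991))⟩,
  ⟨.x, T28, (K (.negSucc 110351570652791))⟩,
  ⟨.x, T31, (K (.negSucc 3528070172927))⟩,
  ⟨.z, T19, (K (.negSucc 5543510440655))⟩,
  ⟨.z, T21, (K (.negSucc 99984866927327))⟩,
  ⟨.z, T24, (K (.negSucc 120930145575515))⟩,
  ⟨.z, T27, (K (.ofNat 63773387193780))⟩] (.node [⟨.z, .w, (B N N (K (.negSucc 84759145107989)) (K (.ofNat 1039184875165608)))⟩,
  ⟨.z, T4, (K (.negSucc 1098746560225979))⟩,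
  ⟨.z, T6, (K (.ofNat 21104409600144))⟩] .nil .nil (.node [⟨.z, .w, (K (.negSucc 16542040479119))⟩] .nil .nil .nil .nil .nil .nil) (.node [⟨.z, .w, (K (.negSucc 277859204286956))⟩] .nil .nil .nil .nil .nil .nil) .nil .nil) (.node [⟨.z, .w, (B N N (K (.negSucc 159138698718179)) (K (.ofNat 571432291764108)))⟩,
  ⟨.z, T4, (K (.negSucc 88764808366577))⟩,
  ⟨.z, T6, (K (.negSucc 228418864179563))⟩] .nil .nil (.node [⟨.z, .w, (K (.ofNat 339918941726157))⟩] .nil .nil .nil .nil .nil .nil) (.node [⟨.z, .w, (K (.negSucc 39579689078735))⟩] .nil .nil .nil .nil .nil .nil) .nil .nil) (.node [⟨.x, .z, (C N N N N (K (.ofNat 371612684873881)) (K (.negSucc 264716958524163)))⟩,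
  ⟨.x, .w, (B N N (K (.ofNat 569848882335442)) (K (.negSucc 325145447024937)))⟩,
  ⟨.z, .w, (B (K (.negSucc 340450266057939)) (K (.negSucc 645092905370305)) N N)⟩,
  ⟨.x, T4, (K (.ofNat 646189299170330))⟩,
  ⟨.x, T6, (K (.ofNat 245713383774628))⟩,
  ⟨.z, T1, (K (.ofNat 384343060565734))⟩,
  ⟨.z, T5, (K (.negSucc 275148602633931))⟩] (.node [⟨.z, .w, (K (.negSucc 245713383774627))⟩] .nil .nil .nil .nil .nil .nil) (.node [⟨.z, .w, (K (.negSucc 418747599415588))⟩] .nil .nil .nil .nil .nil .nil) (.node [⟨.x, .w, (K (.ofNat 275148602633932))⟩] .nil .nil .nil .nil .nil .nil) (.node [⟨.x, .w, (K (.ofNat 823195204265516))⟩] .nil .nil .nil .nil .nil .nil) (.node [⟨.x, .z, (K (.negSucc 257270464951611))⟩] .nil .nil .nil .nil .nil .nil) (.node [⟨.x, .z, (K (.negSucc 605336384885845))⟩] .nil .nil .nil .nil .nil .nil)) (.node [⟨.x, .z, (C N N N N (K (.ofNat 528215879496863)) (K (.ofNat 672843551272429)))⟩,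
  ⟨.x, .w, (B N N (K (.negSucc 168250790594259)) (K (.ofNat 150082081675876)))⟩,
  ⟨.z, .w, (B (K (.ofNat 162774449428750)) (K (.negSucc 462210448986303)) N N)⟩,
  ⟨.x, T4, (K (.negSucc 597734170148104))⟩,
  ⟨.x, T6, (K (.negSucc 268261174213779))⟩,
  ⟨.z, T1, (K (.ofNat 877411150976018))⟩,
  ⟨.z, T5, (K (.ofNat 532937680914409))⟩] (.node [⟨.z, .w, (K (.negSucc 16819785100723))⟩] .nil .nil .nil .nil .nil .nil) (.node [⟨.z, .w, (K (.ofNat 1034648260611542))⟩] .nil .nil .nil .nil .nil .nil) (.node [⟨.x, .w, (K (.negSucc 194502615757557))⟩] .nil .nil .nil .nil .nil .nil) (.node [⟨.x, .w, (K (.negSucc 857160689205322))⟩] .nil .nil .nil .nil .nil .nil) (.node [⟨.x, .z, (K (.negSucc 5105440367506))⟩] .nil .nil .nil .nil .nil .nil) (.node [⟨.x, .z, (K (.ofNat 707868219331457))⟩] .nil .nil .nil .nil .nil .nil)) (.node [⟨.x, .z, (B N N (K (.negSucc 171837154240997)) (K (.ofNat 168405133721946)))⟩,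
  ⟨.x, T3, (K (.ofNat 230153461041174))⟩,
  ⟨.z, T0, (K (.ofNat 226625390868246))⟩] .nil .nil .nil (.node [⟨.x, .z, (K (.ofNat 361619781933522))⟩] .nil .nil .nil .nil .nil .nil) .nil .nil) (.node [⟨.x, .z, (B N N (K (.ofNat 500493129332574)) (K (.ofNat 627818200765062)))⟩,
  ⟨.x, T3, (K (.ofNat 109477008692082))⟩,
  ⟨.z, T0, (K (.ofNat 998825128935888))⟩] .nil .nil (.node [⟨.x, .z, (K (.negSucc 42924453934787))⟩] .nil .nil .nil .nil .nil .nil) (.node [⟨.x, .z, (K (.negSucc 110128173756305))⟩] .nil .nil .nil .nil .nil .nil) .nil .nil))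

def c_001 : Cert := (.node [⟨.x, .z, (C N N (A4 (K (.negSucc 228366941066324))) (C N N N N (K (.negSucc 149148714298925)) (K (.negSucc 206382683262995))) (B N N (K (.negSucc 4622099045933)) (K (.ofNat 140220683707542))) (B N N (K (.ofNat 64042414693632)) (K (.negSucc 175146769628051))))⟩,
  ⟨.x, .w, (B N N (B N N (K (.ofNat 96674218064946)) (K (.ofNat 107527897454862))) (B N N (K (.ofNat 142534014820344)) (K (.ofNat 112268594781012))))⟩,
  ⟨.z, .w, (B (A2 (K (.ofNat 109806099181668))) (B N N (K (.ofNat 234148754176674)) (K (.ofNat 251830399048158))) (B (K (.negSucc 65285825948213)) (K (.negSucc 534809790104093)) N N) (B (K (.ofNat 265087904395686)) (K (.negSucc 154451033955527)) N N))⟩,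
  ⟨.x, T3, (C N N N N (K (.negSucc 59866503490847)) (K (.negSucc 259231852458110)))⟩,
  ⟨.x, T4, (B N N (K (.ofNat 28318647301890)) (K (.negSucc 26932908903557)))⟩,
  ⟨.x, T6, (B N N (K (.negSucc 152555607204635)) (K (.ofNat 213983255312856)))⟩,
  ⟨.z, T0, (C N N N N (K (.negSucc 303922732108910)) (K (.negSucc 76610358596774)))⟩,
  ⟨.z, T1, (B N N (K (.negSucc 104546648770409)) (K (.negSucc 119956960423073)))⟩,
  ⟨.z, T4, (B (K (.ofNat 110991286399608)) (K (.ofNat 129782525657358)) N N)⟩,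
  ⟨.z, T5, (A2 (K (.negSucc 67583298894671)))⟩,
  ⟨.z, T6, (A1 (K (.ofNat 100981712719020)))⟩,
  ⟨.x, T13, (K (.negSucc 2124207338705))⟩,
  ⟨.x, T26, (K (.negSucc 16769969638199))⟩,
  ⟨.x, T28, (K (.negSucc 6901555345835))⟩,
  ⟨.x, T31, (K (.ofNat 87444192996048))⟩,
  ⟨.z, T19, (K (.ofNat 21864181265448))⟩,
  ⟨.z, T21, (K (.negSucc 70084196406083))⟩,
  ⟨.z, T24, (K (.negSucc 98992328431415))⟩,
  ⟨.z, T27, (K (.ofNat 86287841632788))⟩] (.node [⟨.z, .w, (B N N (K (.ofNat 246719292402162)) (K (.negSucc 2125293952559)))⟩,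
  ⟨.z, T4, (K (.negSucc 26655338945891))⟩,
  ⟨.z, T6, (K (.negSucc 63664570648361))⟩] .nil .nil (.node [⟨.z, .w, (K (.negSucc 21641728685687))⟩] .nil .nil .nil .nil .nil .nil) (.node [⟨.z, .w, (K (.negSucc 188987448161117))⟩] .nil .nil .nil .nil .nil .nil) .nil .nil) (.node [⟨.z, .w, (B N N (K (.ofNat 349614822315450)) (K (.ofNat 69460422435660)))⟩,
  ⟨.z, T4, (K (.ofNat 26739062809884))⟩,
  ⟨.z, T6, (K (.negSucc 356823435070733))⟩] .nil .nil (.node [⟨.z, .w, (K (.ofNat 94197138285888))⟩] .nil .nil .nil .nil .nil .nil) (.node [⟨.z, .w, (K (.ofNat 8462338046268))⟩] .nil .nil .nil .nil .nil .nil) .nil .nil) (.node [⟨.x, .z, (C N N N N (K (.ofNat 402650391073901)) (K (.negSucc 181045031322427)))⟩,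
  ⟨.x, .w, (B N N (K (.ofNat 203912001718574)) (K (.negSucc 55960146863401)))⟩,
  ⟨.z, .w, (B (K (.negSucc 397956809452282)) (K (.negSucc 122318590087917)) N N)⟩,
  ⟨.x, T4, (K (.negSucc 20335517263120))⟩,
  ⟨.x, T6, (K (.ofNat 36059592427310))⟩,
  ⟨.z, T1, (K (.ofNat 70306890358388))⟩,
  ⟨.z, T5, (K (.ofNat 10377632401567))⟩] (.node [⟨.z, .w, (K (.negSucc 69310099048942))⟩] .nil .nil .nil .nil .nil .nil) (.node [⟨.z, .w, (K (.negSucc 177811318606083))⟩] .nil .nil .nil .nil .nil .nil) (.node [⟨.x, .w, (K (.ofNat 12338199813812))⟩] .nil .nil .nil .nil .nil .nil) (.node [⟨.x, .w, (K (.ofNat 357077486235331))⟩] .nil .nil .nil .nil .nil .nil) (.node [⟨.x, .z, (K (.ofNat 37427903480449))⟩] .nil .nil .nil .nil .nil .nil) (.node [⟨.x, .z, (K (.negSucc 401047698997164))⟩] .nil .nil .nil .nil .nil .nil)) (.node [⟨.x, .z, (C N N N N (K (.ofNat 48231919109782)) (K (.ofNat 9553957985495)))⟩,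
  ⟨.x, .w, (B N N (K (.ofNat 19952738682958)) (K (.ofNat 194676472657322)))⟩,
  ⟨.z, .w, (B (K (.negSucc 416879249931765)) (K (.negSucc 77166411189085)) N N)⟩,
  ⟨.x, T4, (K (.ofNat 41422401814838))⟩,
  ⟨.x, T6, (K (.ofNat 219816318256684))⟩,
  ⟨.z, T1, (K (.negSucc 7316014821439))⟩,
  ⟨.z, T5, (K (.negSucc 14603758916955))⟩] (.node [⟨.z, .w, (K (.negSucc 259592987069007))⟩] .nil .nil .nil .nil .nil .nil) (.node [⟨.z, .w, (K (.negSucc 174998348527825))⟩] .nil .nil .nil .nil .nil .nil) (.node [⟨.x, .w, (K (.ofNat 211103798135578))⟩] .nil .nil .nil .nil .nil .nil) (.node [⟨.x, .w, (K (.ofNat 253941087149012))⟩] .nil .nil .nil .nil .nil .nil) (.node [⟨.x, .z, (K (.negSucc 21092550113439))⟩] .nil .nil .nil .nil .nil .nil) (.node [⟨.x, .z, (K (.negSucc 34189667624329))⟩] .nil .nil .nil .nil .nil .nil)) (.node [⟨.x, .z, (B N N (K (.ofNat 300766455327426)) (K (.ofNat 78648563544)))⟩,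
  ⟨.x, T3, (K (.ofNat 146089159035588))⟩,
  ⟨.z, T0, (K (.ofNat 444919379087892))⟩] .nil .nil (.node [⟨.x, .z, (K (.ofNat 54852199326774))⟩] .nil .nil .nil .nil .nil .nil) (.node [⟨.x, .z, (K (.ofNat 22323229965348))⟩] .nil .nil .nil .nil .nil .nil) .nil .nil) (.node [⟨.x, .z, (B N N (K (.negSucc 130051840032227)) (K (.negSucc 245678639222609)))⟩,
  ⟨.x, T3, (K (.negSucc 271825003350365))⟩,
  ⟨.z, T0, (K (.negSucc 264382149114281))⟩] .nil .nil (.node [⟨.x, .z, (K (.ofNat 268835454639630))⟩] .nil .nil .nil .nil .nil .nil) (.node [⟨.x, .z, (K (.ofNat 274818185076696))⟩] .nil .nil .nil .nil .nil .nil) .nil .nil))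

def c_002 : Cert := (.node [⟨.x, .z, (C (A4 (K (.ofNat 34684234160160))) (C N N N N (K (.negSucc 277713116721308)) (K (.ofNat 57142848627168))) N N (B (K (.ofNat 33365523987798)) (K (.ofNat 8652389147007)) N N) (B (K (.negSucc 131585854364903)) (K (.negSucc 23769428512025)) N N))⟩,
  ⟨.x, .w, (B (A2 (K (.ofNat 66023884638738))) (B N N (K (.ofNat 162438808636914)) (K (.negSucc 154665980538473))) (B (K (.negSucc 13306494021647)) (K (.negSucc 69184401423617)) N N) (B (K (.negSucc 47583887058221)) (K (.ofNat 118268562788370)) N N))⟩,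
  ⟨.z, .w, (B (B (K (.negSucc 116089405556759)) (K (.negSucc 36822921852551)) N N) (B (K (.negSucc 130984149032597)) (K (.ofNat 80905980288480)) N N) N N)⟩,
  ⟨.x, T0, (C N N N N (K (.negSucc 203653442837285)) (K (.ofNat 46223361263256)))⟩,
  ⟨.x, T1, (B N N (K (.negSucc 186101133007235)) (K (.ofNat 120836939434968)))⟩,
  ⟨.x, T2, (C N N N N (K (.ofNat 24244262388465)) (K (.negSucc 9571943297735)))⟩,
  ⟨.x, T4, (B (K (.negSucc 16874899206899)) (K (.negSucc 134434768722857)) N N)⟩,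
  ⟨.x, T5, (B N N (K (.negSucc 130282613865575)) (K (.ofNat 26055475315050)))⟩,
  ⟨.x, T6, (B (K (.ofNat 207882772668768)) (K (.ofNat 60197666458116)) N N)⟩,
  ⟨.z, T1, (A0 (K (.ofNat 19942539260070)))⟩,
  ⟨.z, T5, (A0 (K (.ofNat 72663212744700)))⟩,
  ⟨.x, T12, (K (.negSucc 4925195358623))⟩,
  ⟨.x, T19, (K (.negSucc 37494233801057))⟩,
  ⟨.x, T21, (K (.ofNat 39531616501050))⟩,
  ⟨.x, T24, (K (.ofNat 109420898488650))⟩,
  ⟨.x, T27, (K (.ofNat 26280312072042))⟩,
  ⟨.x, T30, (K (.ofNat 2205887095296))⟩,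
  ⟨.z, T16, (K (.ofNat 107477314759242))⟩,
  ⟨.z, T20, (K (.ofNat 25936115830122))⟩] (.node [⟨.x, .z, (C N N N N (K (.ofNat 90550279187161)) (K (.ofNat 82865686973456)))⟩,
  ⟨.x, .w, (B N N (K (.ofNat 44183028109192)) (K (.negSucc 60060242921967)))⟩,
  ⟨.z, .w, (B (K (.negSucc 113266344149127)) (K (.negSucc 5661605788273)) N N)⟩,
  ⟨.x, T4, (K (.negSucc 23952815224047))⟩,
  ⟨.x, T6, (K (.negSucc 92437630271191))⟩,
  ⟨.z, T1, (K (.ofNat 64335344222440))⟩,
  ⟨.z, T5, (K (.ofNat 83893698661088))⟩] (.node [⟨.z, .w, (K (.ofNat 90231743175896))⟩] .nil .nil .nil .nil .nil .nil) (.node [⟨.z, .w, (K (.ofNat 173733468835276))⟩] .nil .nil .nil .nil .nil .nil) (.node [⟨.x, .w, (K (.negSucc 83920787507935))⟩] .nil .nil .nil .nil .nil .nil) (.node [⟨.x, .w, (K (.negSucc 199798465744131))⟩] .nil .nil .nil .nil .nil .nil) (.node [⟨.x, .z, (K (.ofNat 84237894903008))⟩] .nil .nil .nil .nil .nil .nil) (.node [⟨.x, .z, (K (.negSucc 2129748937849))⟩]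 .nil .nil .nil .nil .nil .nil)) (.node [⟨.x, .z, (C N N N N (K (.ofNat 275533723781741)) (K (.negSucc 217291451618518)))⟩,
  ⟨.x, .w, (B N N (K (.ofNat 371579611685348)) (K (.negSucc 758449600021)))⟩,
  ⟨.z, .w, (B (K (.negSucc 472883978201071)) (K (.negSucc 19729739264523)) N N)⟩,
  ⟨.x, T4, (K (.ofNat 41090486483485))⟩,
  ⟨.x, T6, (K (.ofNat 126212435487740))⟩,
  ⟨.z, T1, (K (.negSucc 199061784145539))⟩,
  ⟨.z, T5, (K (.negSucc 188630235120304))⟩] (.node [⟨.z, .w, (K (.negSucc 113069874736480))⟩] .nil .nil .nil .nil .nil .nil) (.node [⟨.z, .w, (K (.negSucc 330361326354999))⟩] .nil .nil .nil .nil .nil .nil) (.node [⟨.x, .w, (K (.ofNat 114707856271457))⟩] .nil .nil .nil .nil .nil .nil) (.node [⟨.x, .w, (K (.ofNat 377250067437568))⟩] .nil .nil .nil .nil .nil .nil) (.node [⟨.x, .z, (K (.negSucc 34922914990798))⟩] .nil .nil .nil .nil .nil .nil) (.node [⟨.x, .z, (K (.negSucc 189105118696902))⟩] .nil .nil .nil .nil .nil .nil)) (.node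 [⟨.x, .w, (B (K (.negSucc 90912635515787)) (K (.ofNat 12224394651846)) N N)⟩,
  ⟨.x, T1, (K (.ofNat 13684632331428))⟩,
  ⟨.x, T5, (K (.ofNat 18249422771088))⟩] (.node [⟨.x, .w, (K (.negSucc 18276511617935))⟩] .nil .nil .nil .nil .nil .nil) (.node [⟨.x, .w, (K (.negSucc 71886575505458))⟩] .nil .nil .nil .nil .nil .nil) .nil .nil .nil .nil) (.node [⟨.x, .w, (B (K (.negSucc 112968004010069)) (K (.negSucc 191096118405071)) N N)⟩,
  ⟨.x, T1, (K (.negSucc 185550948844055))⟩,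
  ⟨.x, T5, (K (.ofNat 341853090654558))⟩] (.node [⟨.x, .w, (K (.negSucc 358244352033791))⟩] .nil .nil .nil .nil .nil .nil) (.node [⟨.x, .w, (K (.negSucc 430432620694607))⟩] .nil .nil .nil .nil .nil .nil) .nil .nil .nil .nil) (.node [⟨.x, .z, (B (K (.ofNat 64206860661282)) (K (.ofNat 79903184666262)) N N)⟩,
  ⟨.x, T0, (K (.ofNat 106210585585152))⟩,
  ⟨.x, T2, (K (.ofNat 27088846848))⟩] (.node [⟨.x, .z, (K (.ofNat 27088846848))⟩] .nil .nil .nil .nil .nil .nil) (.node [⟨.x, .z, (K (.negSucc 108696729272885))⟩] .nil .nil .nil .nil .nil .nil) .nil .nil .nil .nil) (.node [⟨.x, .z, (B (K (.negSucc 62482420220663)) (K (.ofNat 97506484345794)) N N)⟩,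
  ⟨.x, T0, (K (.negSucc 159311858202521))⟩,
  ⟨.x, T2, (K (.negSucc 173228228322251))⟩] (.node [⟨.x, .z, (K (.negSucc 147118575313505))⟩] .nil .nil .nil .nil .nil .nil) (.node [⟨.x, .z, (K (.negSucc 300895358995331))⟩] .nil .nil .nil .nil .nil .nil) .nil .nil .nil .nil))

def c_003 : Cert := (.node [⟨.x, .z, (C (A4 (K (.ofNat 1940067063410904))) (C N N N N (K (.ofNat 6200291403289449)) (K (.ofNat 5145905648649630))) N N (B (K (.ofNat 781144493771451)) (K (.negSucc 3766843231984538)) N N) (B (K (.ofNat 1648550908813605)) (K (.ofNat 4690344283594392)) N N))⟩,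
  ⟨.x, .w, (B (A2 (K (.negSucc 5260296988825037))) (B N N (K (.negSucc 5633973296004215)) (K (.negSucc 4772775858575399))) (B (K (.ofNat 2282247493491441)) (K (.negSucc 1526244103679477)) N N) (B (K (.negSucc 2541688600879787)) (K (.ofNat 615769522413099)) N N))⟩,
  ⟨.z, .w, (B (B (K (.ofNat 2005269382008336)) (K (.ofNat 4855334652216873)) N N) (B (K (.ofNat 2419383146668026)) (K (.ofNat 4985981421803319)) N N) N N)⟩,
  ⟨.x, T0, (C N N N N (K (.negSucc 1250452054283783)) (K (.ofNat 4896222918372426)))⟩,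
  ⟨.x, T1, (B N N (K (.negSucc 928676427014006)) (K (.ofNat 1321883600999226)))⟩,
  ⟨.x, T2, (C N N N N (K (.negSucc 1771162520414912)) (K (.ofNat 134439897900507)))⟩,
  ⟨.x, T4, (B (K (.ofNat 4553191388242638)) (K (.negSucc 197871223593155)) N N)⟩,
  ⟨.x, T5, (B N N (K (.ofNat 5084502402356784)) (K (.negSucc 479328875227625)))⟩,
  ⟨.x, T6, (B (K (.negSucc 1755492545381108)) (K (.negSucc 3130167785676188)) N N)⟩,
  ⟨.z, T1, (A0 (K (.ofNat 1082629385981001)))⟩,
  ⟨.z, T5, (A0 (K (.negSucc 2468821241374433)))⟩,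
  ⟨.x, T12, (K (.negSucc 2290769244957167))⟩,
  ⟨.x, T19, (K (.ofNat 3031609323573393))⟩,
  ⟨.x, T21, (K (.ofNat 1637840054806593))⟩,
  ⟨.x, T24, (K (.negSucc 1598208435563108))⟩,
  ⟨.x, T27, (K (.negSucc 323554964487737))⟩,
  ⟨.x, T30, (K (.negSucc 77318367796250))⟩,
  ⟨.z, T16, (K (.ofNat 341803929874437))⟩,
  ⟨.z, T20, (K (.negSucc 2045451048736178))⟩] (.node [⟨.x, .z, (C N N N N (K (.negSucc 4108610877491988)) (K (.negSucc 2080436209435813)))⟩,
  ⟨.x, .w, (B N N (K (.negSucc 2633239675982349)) (K (.ofNat 1013969912605531)))⟩,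
  ⟨.z, .w, (B (K (.negSucc 461635250361664)) (K (.ofNat 2862330494240747)) N N)⟩,
  ⟨.x, T4, (K (.negSucc 114987853605799))⟩,
  ⟨.x, T6, (K (.ofNat 2230544444242853))⟩,
  ⟨.z, T1, (K (.negSucc 353615207564088))⟩,
  ⟨.z, T5, (K (.negSucc 2465274787570819))⟩] (.node [⟨.z, .w, (K (.negSucc 2126823992002324))⟩] .nil .nil .nil .nil .nil .nil) (.node [⟨.z, .w, (K (.negSucc 1025524401784524))⟩] .nil .nil .nil .nil .nil .nil) (.node [⟨.x, .w, (K (.ofNat 2473381456437395))⟩] .nil .nil .nil .nil .nil .nil) (.node [⟨.x, .w, (K (.ofNat 4894586928127264))⟩] .nil .nil .nil .nil .nil .nil) (.node [⟨.x, .z, (K (.negSucc 751979844146938))⟩] .nil .nil .nil .nil .nil .nil) (.node [⟨.x, .z, (K (.ofNat 591583178427794))⟩] .nil .nil .nil .nil .nil .nil)) (.node [⟨.x, .z, (C N N N N (K (.ofNat 605251128841354)) (K (.negSucc 1984383621840543)))⟩,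
  ⟨.x, .w, (B N N (K (.negSucc 5141111596151719)) (K (.negSucc 2170957390108098)))⟩,
  ⟨.z, .w, (B (K (.negSucc 1595684755179435)) (K (.ofNat 2853353747352451)) N N)⟩,
  ⟨.x, T4, (K (.negSucc 2309671496653548))⟩,
  ⟨.x, T6, (K (.ofNat 1965721080796450))⟩,
  ⟨.z, T1, (K (.ofNat 2891035494915955))⟩,
  ⟨.z, T5, (K (.ofNat 3039358433411129))⟩] (.node [⟨.z, .w, (K (.ofNat 1397053538893943))⟩] .nil .nil .nil .nil .nil .nil) (.node [⟨.z, .w, (K (.negSucc 577534337419723))⟩] .nil .nil .nil .nil .nil .nil) (.node [⟨.x, .w, (K (.negSucc 7469615264762974))⟩] .nil .nil .nil .nil .nil .nil) (.node [⟨.x, .w, (K (.negSucc 733607011428327))⟩] .nil .nil .nil .nil .nil .nil) (.node [⟨.x, .z, (K (.ofNat 5601827800401842))⟩] .nil .nil .nil .nil .nil .nil) (.node [⟨.x, .z, (K (.ofNat 2590001719064311))⟩] .nil .nil .nil .nil .nil .nil)) (.node [⟨.x, .w, (B (K (.ofNat 2409217514759643)) (K (.ofNat 1095873598653312)) N N)⟩,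
  ⟨.x, T1, (K (.negSucc 1754240649677291))⟩,
  ⟨.x, T5, (K (.ofNat 271383404765484))⟩] (.node [⟨.x, .w, (K (.negSucc 254398525633001))⟩] .nil .nil .nil .nil .nil .nil) (.node [⟨.x, .w, (K (.negSucc 3129436174593413))⟩] .nil .nil .nil .nil .nil .nil) .nil .nil .nil .nil) (.node [⟨.x, .w, (B (K (.ofNat 5447198902802751)) (K (.ofNat 4792450004318283)) N N)⟩,
  ⟨.x, T1, (K (.negSucc 2951467563847421))⟩,
  ⟨.x, T5, (K (.negSucc 4873021854668657))⟩] (.node [⟨.x, .w, (K (.ofNat 6801275228681868))⟩] .nil .nil .nil .nil .nil .nil) (.node [⟨.x, .w, (K (.ofNat 2011945819928412))⟩] .nil .nil .nil .nil .nil .nil) .nil .nil .nil .nil) (.node [⟨.x, .z, (B (K (.negSucc 236072998508498)) (K (.negSucc 2994358242472220)) N N)⟩,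
  ⟨.x, T0, (K (.negSucc 5327866318631699))⟩,
  ⟨.x, T2, (K (.negSucc 1927127881287860))⟩] (.node [⟨.x, .z, (K (.negSucc 1924799344526516))⟩] .nil .nil .nil .nil .nil .nil) (.node [⟨.x, .z, (K (.negSucc 3255425350810166))⟩] .nil .nil .nil .nil .nil .nil) .nil .nil .nil .nil) (.node [⟨.x, .z, (B (K (.negSucc 7559618260541030)) (K (.negSucc 4027743540583088)) N N)⟩,
  ⟨.x, T0, (K (.negSucc 2082008325850844))⟩,
  ⟨.x, T2, (K (.ofNat 2876918540045601))⟩] (.node [⟨.x, .z, (K (.ofNat 2399823390615351))⟩] .nil .nil .nil .nil .nil .nil) (.node [⟨.x, .z, (K (.ofNat 1611855282542109))⟩] .nil .nil .nil .nil .nil .nil) .nil .nil .nil .nil))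

def c_004 : Cert := (.node [⟨.x, .z, (B (A2 (K (.negSucc 47737637232845))) (B N N (K (.ofNat 16513676984544)) (K (.negSucc 23759217553607))) (B (K (.ofNat 35676162301782)) (K (.ofNat 51702596767566)) N N) (B (K (.negSucc 35054575649807)) (K (.negSucc 88921917612785)) N N))⟩,
  ⟨.x, T0, (B N N (K (.negSucc 47561398986965)) (K (.negSucc 67555277267687)))⟩,
  ⟨.x, T2, (B N N (K (.ofNat 66588879286866)) (K (.ofNat 6400489840674)))⟩,
  ⟨.x, T3, (B (K (.negSucc 158231255761631)) (K (.negSucc 201772853228543)) N N)⟩,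
  ⟨.z, T0, (A0 (K (.ofNat 93810733059186)))⟩,
  ⟨.x, T11, (K (.ofNat 543423147264))⟩,
  ⟨.x, T18, (K (.ofNat 100016998171980))⟩,
  ⟨.x, T23, (K (.negSucc 96200230660667))⟩,
  ⟨.x, T25, (K (.ofNat 5835161086158))⟩,
  ⟨.z, T15, (K (.negSucc 90082405197251))⟩,
  ⟨.z, T17, (K (.negSucc 282664377257))⟩] (.node [⟨.x, .z, (B N N (K (.negSucc 83964579733835)) (K (.negSucc 146403777726245)))⟩,
  ⟨.x, T3, (K (.negSucc 150553459020701))⟩,
  ⟨.z, T0, (K (.negSucc 144435633557285))⟩] .nil .nil (.node [⟨.x, .z, (K (.negSucc 6117825463415))⟩] .nil .nil .nil .nil .nil .nil) (.node [⟨.x, .z, (K (.ofNat 154458319872834))⟩] .nil .nil .nil .nil .nil .nil) .nil .nil) (.node [⟨.x, .z, (B N N (K (.ofNat 15294423010578)) (K (.ofNat 290077723498704)))⟩,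
  ⟨.x, T3, (K (.ofNat 220837987830414))⟩,
  ⟨.z, T0, (K (.ofNat 166941355588392))⟩] .nil .nil (.node [⟨.x, .z, (K (.ofNat 67148215899840))⟩] .nil .nil .nil .nil .nil .nil) (.node [⟨.x, .z, (K (.negSucc 300785186719505))⟩] .nil .nil .nil .nil .nil .nil) .nil .nil) (.node [⟨.x, .z, (B (K (.negSucc 11952986549573)) (K (.ofNat 54070563982776)) N N)⟩,
  ⟨.x, T0, (K (.ofNat 60188389446192))⟩,
  ⟨.x, T2, (K (.ofNat 6117825463416))⟩] (.node [⟨.x, .z, (K (.ofNat 6117825463416))⟩] .nil .nil .nil .nil .nil .nil) (.node [⟨.x, .z, (K (.ofNat 128547942087468))⟩] .nil .nil .nil .nil .nil .nil) .nil .nil .nil .nil) (.node [⟨.x, .z, (B (K (.negSucc 145313892524033)) (K (.negSucc 79036249841909)) N N)⟩,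
  ⟨.x, T0, (K (.ofNat 62147095382598))⟩,
  ⟨.x, T2, (K (.ofNat 154815005866392))⟩] (.node [⟨.x, .z, (K (.ofNat 148158940495308))⟩] .nil .nil .nil .nil .nil .nil) (.node [⟨.x, .z, (K (.ofNat 224399790646230))⟩] .nil .nil .nil .nil .nil .nil) .nil .nil .nil .nil) .nil .nil)

def c_005 : Cert := (.node [⟨.x, .z, (B (A2 (K (.ofNat 1380995489560038))) (B N N (K (.negSucc 544792510458212)) (K (.negSucc 1199924828352512))) (B (K (.negSucc 1758169398109058)) (K (.negSucc 838990682395022)) N N) (B (K (.negSucc 68218140194249)) (K (.ofNat 901641241906242)) N N))⟩,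
  ⟨.x, T0, (B N N (K (.negSucc 113314423106882)) (K (.negSucc 1563882416242985)))⟩,
  ⟨.x, T2, (B N N (K (.negSucc 1147640012132882)) (K (.ofNat 10691049927333)))⟩,
  ⟨.x, T3, (B (K (.negSucc 148882722796670)) (K (.ofNat 812297110961901)) N N)⟩,
  ⟨.z, T0, (A0 (K (.negSucc 2091866122689290)))⟩,
  ⟨.x, T11, (K (.ofNat 225139653541140))⟩,
  ⟨.x, T18, (K (.negSucc 129739230974579))⟩,
  ⟨.x, T23, (K (.ofNat 322228676346918))⟩,
  ⟨.x, T25, (K (.negSucc 57779464356620))⟩,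
  ⟨.z, T15, (K (.negSucc 160666561071602))⟩,
  ⟨.z, T17, (K (.negSucc 281995339165193))⟩] (.node [⟨.x, .z, (B N N (K (.ofNat 188413271491680)) (K (.ofNat 1084101957554136)))⟩,
  ⟨.x, T3, (K (.ofNat 1373540873781453))⟩,
  ⟨.z, T0, (K (.ofNat 1100979138609330))⟩] .nil .nil (.node [⟨.x, .z, (K (.negSucc 222247730639612))⟩] .nil .nil .nil .nil .nil .nil) (.node [⟨.x, .z, (K (.negSucc 1421613208419830))⟩] .nil .nil .nil .nil .nil .nil) .nil .nil) (.node [⟨.x, .z, (B N N (K (.negSucc 1971998722543274)) (K (.negSucc 341272482997307)))⟩,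
  ⟨.x, T3, (K (.negSucc 176515872418775))⟩,
  ⟨.z, T0, (K (.negSucc 2540241863660858))⟩] .nil .nil (.node [⟨.x, .z, (K (.ofNat 1288021384342821))⟩] .nil .nil .nil .nil .nil .nil) (.node [⟨.x, .z, (K (.ofNat 50797902818370))⟩] .nil .nil .nil .nil .nil .nil) .nil .nil) (.node [⟨.x, .z, (B (K (.ofNat 395787006157776)) (K (.negSucc 1022404777809884)) N N)⟩,
  ⟨.x, T0, (K (.negSucc 1116256104419327))⟩,
  ⟨.x, T2, (K (.negSucc 85367816357642))⟩] (.node [⟨.x, .z, (K (.negSucc 85421994051338))⟩] .nil .nil .nil .nil .nil .nil) (.node [⟨.x, .z, (K (.ofNat 1198859177299797))⟩] .nil .nil .nil .nil .nil .nil) .nil .nil .nil .nil) (.node [⟨.x, .z, (B (K (.ofNat 1388199469444374)) (K (.ofNat 674063871910512)) N N)⟩,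
  ⟨.x, T0, (K (.ofNat 128083676612082))⟩,
  ⟨.x, T2, (K (.negSucc 1248014168795069))⟩] (.node [⟨.x, .z, (K (.negSucc 1540836002121836))⟩] .nil .nil .nil .nil .nil .nil) (.node [⟨.x, .z, (K (.ofNat 48189846099972))⟩] .nil .nil .nil .nil .nil .nil) .nil .nil .nil .nil) .nil .nil)

def c_00 : Cert := (.node [⟨.x, .z, (C (C N N (A4 (K (.ofNat 331719348447138))) N (A2 (K (.ofNat 307417326792132))) N) (C N N N (A5 (K (.ofNat 170246799691440))) (A3 (K (.negSucc 99657251619674))) (B N N (K (.negSucc 2543328353714)) (K (.ofNat 198246745420704)))) (C (A4 (K (.negSucc 426224939238884))) (C N N N N (K (.ofNat 205578818007216)) (K (.ofNat 4977791687619))) N N (B (K (.negSucc 167893873500677)) (K (.ofNat 97988289639078)) N N) N) (C (A4 (K (.ofNat 228593978282904))) (C N N N N (K (.negSucc 452596782245105)) (K (.negSucc 421785325362371))) N N (B (K (.ofNat 350997162722892)) (K (.ofNat 269174433229632)) N N) (B (K (.negSucc 91390324555724)) (K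 (.ofNat 80848201983894)) N N)) (B (A2 (K (.ofNat 346146857968434))) (B N N (K (.negSucc 292144889211290)) (K (.negSucc 325452907340219))) (B (K (.negSucc 20295373289957)) (K (.ofNat 184767864810525)) N N) (B (K (.negSucc 441515522690099)) (K (.negSucc 157610577723392)) N N)) (B (A2 (K (.negSucc 60262203595340))) (B N N (K (.ofNat 50264423613603)) (K (.ofNat 144797588536284))) (B (K (.ofNat 193859856509406)) (K (.ofNat 6158461076475)) N N) (B (K (.negSucc 122536757618495)) (K (.negSucc 914900085503)) N N)))⟩,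
  ⟨.x, .w, (B (A2 (A2 (K (.negSucc 54198802724423)))) (B N N (A3 (K (.ofNat 193780926319974))) (B N N (K (.negSucc 23736168421601)) (K (.ofNat 45208541590332)))) (B (A2 (K (.negSucc 56233268159489))) (B N N (K (.negSucc 90581788432877)) (K (.negSucc 127973650748417))) (B (K (.ofNat 132183067047282)) (K (.ofNat 45660171715056)) N N) (B (K (.negSucc 470534754437525)) (K (.negSucc 311734126717259)) N N)) (B (A2 (K (.ofNat 67653964439832))) (B N N (K (.negSucc 578425784550059)) (K (.negSucc 374592147771701))) (B (K (.negSucc 120539407655741)) (K (.negSucc 374654130702383)) N N) (B (K (.ofNat 72493574638344)) (K (.negSucc 81713893661159)) N N)))⟩,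
  ⟨.z, .w, (B (B (A2 (K (.negSucc 48257883318137))) N (B (K (.negSucc 110470127213345)) (K (.negSucc 558992536966211)) N N) N) (B (A2 (K (.ofNat 231879285594228))) (B N N (K (.negSucc 901050547627169)) (K (.negSucc 336032335995827))) (B (K (.ofNat 236984814692706)) (K (.ofNat 39371480011332)) N N) (B (K (.ofNat 360572638187064)) (K (.negSucc 52851350491643)) N N)) (B (B (K (.ofNat 164744228911548)) (K (.ofNat 415171329515310)) N N) (B (K (.ofNat 503416357915122)) (K (.ofNat 508041508747926)) N N) N N) (B (B (K (.negSucc 108831174092987)) (K (.ofNat 487212622717872)) N N) (B (K (.ofNat 496441904742084)) (K (.ofNat 337155770297646)) N N) N N))⟩,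
  ⟨.x, T0, (C N N (A4 (K (.ofNat 18617356904439))) (C N N N N (K (.negSucc 289163292751151)) (K (.ofNat 150452196234171))) (B N N (K (.negSucc 21844559882897)) (K (.ofNat 136433890106118))) (B N N (K (.ofNat 12667736419950)) (K (.ofNat 198590093643168))))⟩,
  ⟨.x, T1, (B N N (B N N (K (.ofNat 34468223867178)) (K (.ofNat 188772975788460))) (B N N (K (.ofNat 292530800566710)) (K (.negSucc 49677176805683))))⟩,
  ⟨.x, T2, (C N N (A4 (K (.negSucc 194308894016126))) (C N N N N (K (.ofNat 85713924609981)) (K (.negSucc 18110452519745))) (B N N (K (.negSucc 154120876848881)) (K (.negSucc 85448996482637))) (B N N (K (.ofNat 163420769458968)) (K (.ofNat 201036598272))))⟩,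
  ⟨.x, T3, (C (A4 (K (.ofNat 189775163663073))) (C N N N N (K (.negSucc 180294284408291)) (K (.negSucc 368240080741298))) N N (B (K (.negSucc 144381721454369)) (K (.negSucc 266028091350290)) N N) (B (K (.negSucc 250278504568748)) (K (.ofNat 84450831278310)) N N))⟩,
  ⟨.x, T4, (B (A2 (K (.negSucc 294076575777167))) (B N N (K (.ofNat 119067813703434)) (K (.ofNat 223827798123432))) (B (K (.negSucc 110153479326017)) (K (.negSucc 318446987429093)) N N) (B (K (.negSucc 119001397190645)) (K (.ofNat 82388070755592)) N N))⟩,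
  ⟨.x, T5, (B N N (B N N (K (.negSucc 7081960886471)) (K (.ofNat 210142287482622))) (B N N (K (.negSucc 72802345775993)) (K (.negSucc 16271859688847))))⟩,
  ⟨.x, T6, (B (A2 (K (.negSucc 21678935273831))) (B N N (K (.negSucc 228011430521105)) (K (.negSucc 186002940884057))) (B (K (.ofNat 30630052607826)) (K (.negSucc 47771141723441)) N N) (B (K (.ofNat 252585547749816)) (K (.ofNat 8483510251800)) N N))⟩,
  ⟨.z, T0, (C (A4 (K (.negSucc 137256149092646))) (A5 (K (.negSucc 423667506945398))) N N (B (K (.negSucc 218762541731471)) (K (.negSucc 91359603078806)) N N) (A1 (K (.ofNat 80854457433750))))⟩,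
  ⟨.z, T1, (B (A2 (K (.negSucc 39384950017799))) (A3 (K (.ofNat 370520384703294))) (B (K (.negSucc 152677676678165)) (K (.negSucc 278411749922435)) N N) (A1 (K (.ofNat 61723789913904))))⟩,
  ⟨.z, T4, (B (B (K (.ofNat 85232591794956)) (K (.negSucc 100216864424249)) N N) (B (K (.negSucc 105976140347861)) (K (.negSucc 313173792662957)) N N) N N)⟩,
  ⟨.z, T5, (B (A2 (K (.ofNat 64258729226838))) (A3 (K (.ofNat 142864998478812))) (A0 (K (.negSucc 57150831627755))) N)⟩,
  ⟨.z, T6, (A1 (B (K (.ofNat 115295840431188)) (K (.negSucc 204464479967)) N N))⟩,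
  ⟨.x, T11, (C N N N N (K (.negSucc 1943890491983)) (K (.ofNat 758929637376)))⟩,
  ⟨.x, T12, (A3 (K (.ofNat 6524886831264)))⟩,
  ⟨.x, T13, (B (K (.ofNat 19974362262894)) (K (.ofNat 13215961791480)) N N)⟩,
  ⟨.x, T18, (C N N N N (K (.ofNat 58344856063572)) (K (.negSucc 35319928108622)))⟩,
  ⟨.x, T19, (B N N (K (.negSucc 33620519367773)) (K (.negSucc 20433113609537)))⟩,
  ⟨.x, T21, (B N N (K (.negSucc 64978398587075)) (K (.negSucc 54852199326773)))⟩,
  ⟨.x, T23, (C N N N N (K (.negSucc 142504729360931)) (K (.ofNat 10152453330477)))⟩,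
  ⟨.x, T24, (B N N (K (.negSucc 169501647995075)) (K (.ofNat 6215688357624)))⟩,
  ⟨.x, T25, (C N N N N (K (.ofNat 57732073425765)) (K (.ofNat 16984879132482)))⟩,
  ⟨.x, T26, (B (K (.ofNat 52358528230482)) (K (.ofNat 14484652493184)) N N)⟩,
  ⟨.x, T27, (B N N (K (.negSucc 84733447965431)) (K (.negSucc 238492781567)))⟩,
  ⟨.x, T28, (B (K (.ofNat 129500089817208)) (K (.ofNat 16534422956520)) N N)⟩,
  ⟨.x, T30, (A3 (K (.negSucc 1968144168959)))⟩,
  ⟨.x, T31, (B (K (.ofNat 92348205751344)) (K (.ofNat 11232060697248)) N N)⟩,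
  ⟨.z, T15, (C N N N N (K (.negSucc 66614698100642)) (K (.ofNat 9124441642845)))⟩,
  ⟨.z, T16, (A2 (K (.negSucc 43309450106681)))⟩,
  ⟨.z, T17, (C N N N N (K (.ofNat 28868842903944)) (K (.ofNat 8234504324730)))⟩,
  ⟨.z, T20, (A2 (K (.negSucc 34752392701733)))⟩,
  ⟨.x, T78, (K (.ofNat 1190377451520))⟩,
  ⟨.x, T36, (K (.negSucc 14240729105399))⟩,
  ⟨.x, T48, (K (.ofNat 4149589846320))⟩,
  ⟨.x, T50, (K (.negSucc 8965812790223))⟩,
  ⟨.x, T79, (K (.negSucc 11785489130399))⟩,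
  ⟨.x, T87, (K (.negSucc 5945660429471))⟩,
  ⟨.x, T80, (K (.ofNat 15203653397640))⟩,
  ⟨.x, T81, (K (.ofNat 13592669285304))⟩,
  ⟨.x, T82, (K (.negSucc 26850806393471))⟩,
  ⟨.x, T103, (K (.negSucc 17878137682319))⟩,
  ⟨.x, T104, (K (.ofNat 2178798248448))⟩,
  ⟨.x, T105, (K (.negSucc 810748403711))⟩,
  ⟨.x, T83, (K (.negSucc 276097890815))⟩,
  ⟨.z, T41, (K (.ofNat 9842905235088))⟩,
  ⟨.z, T43, (K (.ofNat 467738558496))⟩,
  ⟨.z, T46, (K (.negSucc 10490789658095))⟩] c_000 c_001 c_002 c_003 c_004 c_005)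

def c_010 : Cert := (.node [⟨.x, .z, (C N N (A4 (K (.ofNat 669675204711048))) (C N N N N (K (.ofNat 49039353789447)) (K (.negSucc 65138964642152))) (B N N (K (.ofNat 752680363786350)) (K (.ofNat 47527121971587))) (B N N (K (.ofNat 170826062948697)) (K (.negSucc 70289813811875))))⟩,
  ⟨.x, .w, (B N N (B N N (K (.ofNat 24572770516002)) (K (.ofNat 82086361485966))) (B N N (K (.ofNat 23174433599004)) (K (.negSucc 11253024740921))))⟩,
  ⟨.z, .w, (B (A2 (K (.ofNat 127746788720304))) (B N N (K (.ofNat 319432652646972)) (K (.negSucc 377978356493243))) (B (K (.ofNat 74043330144)) (K (.ofNat 46017100592262)) N N) (B (K (.ofNat 811846502670762)) (K (.ofNat 400605558867672)) N N))⟩,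
  ⟨.x, T3, (C N N N N (K (.negSucc 149672658966767)) (K (.ofNat 26042860028412)))⟩,
  ⟨.x, T4, (B N N (K (.negSucc 620318591410289)) (K (.ofNat 157913514488358)))⟩,
  ⟨.x, T6, (B N N (K (.negSucc 385008365883077)) (K (.negSucc 12941246796575)))⟩,
  ⟨.z, T0, (C N N N N (K (.ofNat 245774349575640)) (K (.negSucc 27017320204664)))⟩,
  ⟨.z, T1, (B N N (K (.ofNat 92105873800458)) (K (.negSucc 7480381718483)))⟩,
  ⟨.z, T4, (B (K (.negSucc 57400071086879)) (K (.negSucc 418906701394649)) N N)⟩,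
  ⟨.z, T5, (A2 (K (.ofNat 249907185904656)))⟩,
  ⟨.z, T6, (A1 (K (.negSucc 31764705374135)))⟩,
  ⟨.x, T13, (K (.negSucc 22320661866047))⟩,
  ⟨.x, T26, (K (.negSucc 68907097035569))⟩,
  ⟨.x, T28, (K (.negSucc 128830335544307))⟩,
  ⟨.x, T31, (K (.ofNat 1090112801184))⟩,
  ⟨.z, T19, (K (.ofNat 15938923415640))⟩,
  ⟨.z, T21, (K (.negSucc 72070651041923))⟩,
  ⟨.z, T24, (K (.negSucc 45652419491207))⟩,
  ⟨.z, T27, (K (.ofNat 106792454261076))⟩] (.node [⟨.z, .w, (B N N (K (.ofNat 254381077812132)) (K (.negSucc 657361216754345)))⟩,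
  ⟨.z, T4, (K (.ofNat 335707359762228))⟩,
  ⟨.z, T6, (K (.ofNat 158793345050562))⟩] .nil .nil (.node [⟨.z, .w, (K (.negSucc 163911385819601))⟩] .nil .nil .nil .nil .nil .nil) (.node [⟨.z, .w, (K (.negSucc 2952230112689))⟩] .nil .nil .nil .nil .nil .nil) .nil .nil) (.node [⟨.z, .w, (B N N (K (.ofNat 182063585600682)) (K (.negSucc 632682175969565)))⟩,
  ⟨.z, T4, (K (.negSucc 163899101988245))⟩,
  ⟨.z, T6, (K (.negSucc 263212752137))⟩] .nil .nil (.node [⟨.z, .w, (K (.ofNat 145132639779258))⟩] .nil .nil .nil .nil .nil .nil) (.node [⟨.z, .w, (K (.ofNat 117393441114033))⟩] .nil .nil .nil .nil .nil .nil) .nil .nil) (.node [⟨.x, .z, (C N N N N (K (.negSucc 209625352508919)) (K (.ofNat 198799144673353)))⟩,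
  ⟨.x, .w, (B N N (K (.negSucc 451849190906871)) (K (.ofNat 254663260954684)))⟩,
  ⟨.z, .w, (B (K (.ofNat 351512577277489)) (K (.ofNat 293615123172794)) N N)⟩,
  ⟨.x, T4, (K (.negSucc 339415381589713))⟩,
  ⟨.x, T6, (K (.negSucc 328194795572907))⟩,
  ⟨.z, T1, (K (.negSucc 19687781005551))⟩,
  ⟨.z, T5, (K (.ofNat 146105461618378))⟩] (.node [⟨.z, .w, (K (.ofNat 292575984557308))⟩] .nil .nil .nil .nil .nil .nil) (.node [⟨.z, .w, (K (.ofNat 580599683053451))⟩] .nil .nil .nil .nil .nil .nil) (.node [⟨.x, .w, (K (.negSucc 139545685031145))⟩] .nil .nil .nil .nil .nil .nil) (.node [⟨.x, .w, (K (.negSucc 378065029254157))⟩] .nil .nil .nil .nil .nil .nil) (.node [⟨.x, .z, (K (.ofNat 167988762572506))⟩] .nil .nil .nil .nil .nil .nil) (.node [⟨.x, .z, (K (.ofNat 335500588980914))⟩] .nil .nil .nil .nil .nil .nil)) (.node [⟨.x, .z, (C N N N N (K (.ofNat 87527761289746)) (K (.negSucc 477895459913883)))⟩,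
  ⟨.x, .w, (B N N (K (.ofNat 252924594676819)) (K (.ofNat 403164243408596)))⟩,
  ⟨.z, .w, (B (K (.negSucc 761477990699382)) (K (.negSucc 448761630012268)) N N)⟩,
  ⟨.x, T4, (K (.ofNat 596784498760922))⟩,
  ⟨.x, T6, (K (.ofNat 659370910723453))⟩,
  ⟨.z, T1, (K (.negSucc 99799778077561))⟩,
  ⟨.z, T5, (K (.negSucc 708114735103611))⟩] (.node [⟨.z, .w, (K (.negSucc 750389848294038))⟩] .nil .nil .nil .nil .nil .nil) (.node [⟨.z, .w, (K (.negSucc 1196272140670249))⟩] .nil .nil .nil .nil .nil .nil) (.node [⟨.x, .w, (K (.ofNat 680444788347160))⟩] .nil .nil .nil .nil .nil .nil) (.node [⟨.x, .w, (K (.ofNat 1199864102964596))⟩] .nil .nil .nil .nil .nil .nil) (.node [⟨.x, .z, (K (.negSucc 672170842372899))⟩] .nil .nil .nil .nil .nil .nil) (.node [⟨.x, .z, (K (.negSucc 422224364621557))⟩] .nil .nil .nil .nil .nil .nil)) (.node [⟨.x, .z, (B N N (K (.ofNat 289414746085218)) (K (.ofNat 91694034458262)))⟩,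
  ⟨.x, T3, (K (.ofNat 306459677103504))⟩,
  ⟨.z, T0, (K (.ofNat 314151457186464))⟩] .nil .nil (.node [⟨.x, .z, (K (.negSucc 6820032920543))⟩] .nil .nil .nil .nil .nil .nil) (.node [⟨.x, .z, (K (.negSucc 90180139283171))⟩] .nil .nil .nil .nil .nil .nil) .nil .nil) (.node [⟨.x, .z, (B N N (K (.negSucc 198737107026359)) (K (.negSucc 818366133918707)))⟩,
  ⟨.x, T3, (K (.negSucc 681907974944261))⟩,
  ⟨.z, T0, (K (.negSucc 778325715632651))⟩] .nil .nil (.node [⟨.x, .z, (K (.negSucc 19761279717119))⟩] .nil .nil .nil .nil .nil .nil) (.node [⟨.x, .z, (K (.ofNat 662420763599310))⟩] .nil .nil .nil .nil .nil .nil) .nil .nil))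

def c_011 : Cert := (.node [⟨.x, .z, (C N N (A4 (K (.negSucc 392658965160671))) (C N N N N (K (.negSucc 1165489004770976)) (K (.negSucc 223698981261995))) (B N N (K (.negSucc 200535473820701)) (K (.ofNat 929633352769221))) (B N N (K (.negSucc 190161056324648)) (K (.ofNat 596797776993162))))⟩,
  ⟨.x, .w, (B N N (B N N (K (.ofNat 367524023089458)) (K (.ofNat 867323331772878))) (B N N (K (.ofNat 1066539959172252)) (K (.ofNat 724591717548558))))⟩,
  ⟨.z, .w, (B (A2 (K (.negSucc 94930121433347))) (B N N (K (.negSucc 449943509056895)) (K (.negSucc 71590796717831))) (B (K (.negSucc 38869652053271)) (K (.negSucc 431648058498899)) N N) (B (K (.negSucc 256147900802327)) (K (.negSucc 911470457447027)) N N))⟩,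
  ⟨.x, T3, (C N N N N (K (.ofNat 302578949038842)) (K (.negSucc 21421283839250)))⟩,
  ⟨.x, T4, (B N N (K (.ofNat 328593756815850)) (K (.negSucc 724179166108265)))⟩,
  ⟨.x, T6, (B N N (K (.negSucc 116025643092863)) (K (.negSucc 636430836603845)))⟩,
  ⟨.z, T0, (C N N N N (K (.negSucc 304503115866905)) (K (.negSucc 96763579902851)))⟩,
  ⟨.z, T1, (B N N (K (.negSucc 91321750155149)) (K (.negSucc 11967414658955)))⟩,
  ⟨.z, T4, (B (K (.negSucc 60998247527027)) (K (.ofNat 859733557624332)) N N)⟩,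
  ⟨.z, T5, (A2 (K (.negSucc 325682807588387)))⟩,
  ⟨.z, T6, (A1 (K (.ofNat 165743021535354)))⟩,
  ⟨.x, T13, (K (.negSucc 26955969687575))⟩,
  ⟨.x, T26, (K (.negSucc 165981334841291))⟩,
  ⟨.x, T28, (K (.negSucc 84683634232427))⟩,
  ⟨.x, T31, (K (.negSucc 25202656103159))⟩,
  ⟨.z, T19, (K (.ofNat 71563288245408))⟩,
  ⟨.z, T21, (K (.ofNat 137721596096364))⟩,
  ⟨.z, T24, (K (.ofNat 107298025461588))⟩,
  ⟨.z, T27, (K (.negSucc 54500900299391))⟩] (.node [⟨.z, .w, (B N N (K (.negSucc 456012278483801)) (K (.ofNat 665234269926894)))⟩,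
  ⟨.z, T4, (K (.negSucc 932472275457845))⟩,
  ⟨.z, T6, (K (.ofNat 213117550365072))⟩] .nil .nil (.node [⟨.z, .w, (K (.negSucc 262001210865362))⟩] .nil .nil .nil .nil .nil .nil) (.node [⟨.z, .w, (K (.negSucc 180067999941989))⟩] .nil .nil .nil .nil .nil .nil) .nil .nil) (.node [⟨.z, .w, (B N N (K (.negSucc 220907407461539)) (K (.ofNat 576494797895802)))⟩,
  ⟨.z, T4, (K (.ofNat 35633414445288))⟩,
  ⟨.z, T6, (K (.ofNat 15505861597404))⟩] .nil .nil (.node [⟨.z, .w, (K (.ofNat 106404064960110))⟩] .nil .nil .nil .nil .nil .nil) (.node [⟨.z, .w, (K (.ofNat 31790235171132))⟩] .nil .nil .nil .nil .nil .nil) .nil .nil) (.node [⟨.x, .z, (C N N N N (K (.negSucc 51520127675701)) (K (.ofNat 261877687988645)))⟩,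
  ⟨.x, .w, (B N N (K (.ofNat 381842500646929)) (K (.negSucc 27014135257053)))⟩,
  ⟨.z, .w, (B (K (.ofNat 426429433877672)) (K (.ofNat 81627638193301)) N N)⟩,
  ⟨.x, T4, (K (.ofNat 351310635094718))⟩,
  ⟨.x, T6, (K (.negSucc 419185989459778))⟩,
  ⟨.z, T1, (K (.ofNat 290771115910258))⟩,
  ⟨.z, T5, (K (.ofNat 157892924725736))⟩] (.node [⟨.z, .w, (K (.ofNat 294112345249832))⟩] .nil .nil .nil .nil .nil .nil) (.node [⟨.z, .w, (K (.ofNat 374394920508757))⟩] .nil .nil .nil .nil .nil .nil) (.node [⟨.x, .w, (K (.negSucc 39554775726532))⟩] .nil .nil .nil .nil .nil .nil) (.node [⟨.x, .w, (K (.negSucc 268223903311014))⟩] .nil .nil .nil .nil .nil .nil) (.node [⟨.x, .z, (K (.negSucc 176705968655625))⟩] .nil .nil .nil .nil .nil .nil) (.node [⟨.x, .z, (K (.ofNat 933448539751138))⟩] .nil .nil .nil .nil .nil .nil)) (.node [⟨.x, .z, (C N N N N (K (.ofNat 597623876707250)) (K (.ofNat 474294464426899)))⟩,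
  ⟨.x, .w, (B N N (K (.negSucc 14697745090293)) (K (.negSucc 267132744186703)))⟩,
  ⟨.z, .w, (B (K (.ofNat 202043263098868)) (K (.negSucc 411095865670767)) N N)⟩,
  ⟨.x, T4, (K (.negSucc 500003723694739))⟩,
  ⟨.x, T6, (K (.negSucc 233581391431551))⟩,
  ⟨.z, T1, (K (.ofNat 441833583852692))⟩,
  ⟨.z, T5, (K (.ofNat 332020759938184))⟩] (.node [⟨.z, .w, (K (.negSucc 125977428777610))⟩] .nil .nil .nil .nil .nil .nil) (.node [⟨.z, .w, (K (.ofNat 455805757873724))⟩] .nil .nil .nil .nil .nil .nil) (.node [⟨.x, .w, (K (.negSucc 143489721788913))⟩] .nil .nil .nil .nil .nil .nil) (.node [⟨.x, .w, (K (.negSucc 522727054090255))⟩] .nil .nil .nil .nil .nil .nil) (.node [⟨.x, .z, (K (.negSucc 722540153703091))⟩] .nil .nil .nil .nil .nil .nil) (.node [⟨.x, .z, (K (.ofNat 584687357927168))⟩] .nil .nil .nil .nil .nil .nil)) (.node [⟨.x, .z, (B N N (K (.negSucc 488865763412735)) (K (.ofNat 192202548903870)))⟩,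
  ⟨.x, T3, (K (.ofNat 800484213925428))⟩,
  ⟨.z, T0, (K (.ofNat 243537472656390))⟩] .nil .nil (.node [⟨.x, .z, (K (.negSucc 228245805066383))⟩] .nil .nil .nil .nil .nil .nil) (.node [⟨.x, .z, (K (.ofNat 745672692615552))⟩] .nil .nil .nil .nil .nil .nil) .nil .nil) (.node [⟨.x, .z, (B N N (K (.ofNat 730800655091340)) (K (.ofNat 763218484536072)))⟩,
  ⟨.x, T3, (K (.ofNat 99745953582612))⟩,
  ⟨.z, T0, (K (.ofNat 889386452916648))⟩] .nil .nil (.node [⟨.x, .z, (K (.negSucc 864676641670229))⟩] .nil .nil .nil .nil .nil .nil) (.node [⟨.x, .z, (K (.ofNat 79587409016160))⟩] .nil .nil .nil .nil .nil .nil) .nil .nil))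

def c_012 : Cert := (.node [⟨.x, .z, (C (A4 (K (.negSucc 2314441612518773))) (C N N N N (K (.negSucc 6533125775827937)) (K (.negSucc 5211829958137865))) N N (B (K (.negSucc 917997081560282)) (K (.ofNat 3885893779941912)) N N) (B (K (.negSucc 2138899455466205)) (K (.negSucc 4644821681293643)) N N))⟩,
  ⟨.x, .w, (B (A2 (K (.ofNat 5198121944123406))) (B N N (K (.ofNat 5249472323592312)) (K (.ofNat 4734205949259450))) (B (K (.negSucc 2082976964988764)) (K (.ofNat 1902141067569282)) N N) (B (K (.ofNat 1685696335059840)) (K (.negSucc 809198418516212)) N N))⟩,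
  ⟨.z, .w, (B (B (K (.negSucc 2246091903641591)) (K (.negSucc 5083561090202174)) N N) (B (K (.negSucc 2682109095571217)) (K (.negSucc 5029006373026670)) N N) N N)⟩,
  ⟨.x, T0, (C N N N N (K (.ofNat 1367889915026478)) (K (.negSucc 5046525124705052)))⟩,
  ⟨.x, T1, (B N N (K (.ofNat 1409879435643441)) (K (.negSucc 1415248447841807)))⟩,
  ⟨.x, T2, (C N N N N (K (.ofNat 1911918098914419)) (K (.ofNat 5109552253233)))⟩,
  ⟨.x, T4, (B (K (.negSucc 4329273903135455)) (K (.ofNat 664442911868790)) N N)⟩,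
  ⟨.x, T5, (B N N (K (.negSucc 5053335419316539)) (K (.ofNat 225231459954210)))⟩,
  ⟨.x, T6, (B (K (.ofNat 2054864345424153)) (K (.ofNat 3277200972398151)) N N)⟩,
  ⟨.z, T1, (A0 (K (.negSucc 1330309339707488)))⟩,
  ⟨.z, T5, (A0 (K (.ofNat 2445044880186348)))⟩,
  ⟨.x, T12, (K (.ofNat 2327399170937856))⟩,
  ⟨.x, T19, (K (.negSucc 2722444953383492))⟩,
  ⟨.x, T21, (K (.negSucc 1371733022522372))⟩,
  ⟨.x, T24, (K (.ofNat 1548328934876091))⟩,
  ⟨.x, T27, (K (.ofNat 319288233184290))⟩,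
  ⟨.x, T30, (K (.ofNat 73825360594371))⟩,
  ⟨.z, T16, (K (.negSucc 407739315051974))⟩,
  ⟨.z, T20, (K (.ofNat 2004572669815845))⟩] (.node [⟨.x, .z, (C N N N N (K (.ofNat 4093481561317994)) (K (.ofNat 2121542330529157)))⟩,
  ⟨.x, .w, (B N N (K (.ofNat 2720252446634318)) (K (.negSucc 527248121993224)))⟩,
  ⟨.z, .w, (B (K (.ofNat 254402077984876)) (K (.negSucc 2603401765444314)) N N)⟩,
  ⟨.x, T4, (K (.ofNat 120856996568971))⟩,
  ⟨.x, T6, (K (.negSucc 2111774977665654))⟩,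
  ⟨.z, T1, (K (.ofNat 145927746131327))⟩,
  ⟨.z, T5, (K (.ofNat 2231548263334249))⟩] (.node [⟨.z, .w, (K (.ofNat 2055586643043820))⟩] .nil .nil .nil .nil .nil .nil) (.node [⟨.z, .w, (K (.ofNat 565862000517650))⟩] .nil .nil .nil .nil .nil .nil) (.node [⟨.x, .w, (K (.negSucc 2204925489917520))⟩] .nil .nil .nil .nil .nil .nil) (.node [⟨.x, .w, (K (.negSucc 4767620131581763))⟩] .nil .nil .nil .nil .nil .nil) (.node [⟨.x, .z, (K (.ofNat 543946096352878))⟩] .nil .nil .nil .nil .nil .nil) (.node [⟨.x, .z, (K (.negSucc 302617347671484))⟩] .nil .nil .nil .nil .nil .nil)) (.node [⟨.x, .z, (C N N N N (K (.negSucc 656501379054487)) (K (.ofNat 2579259499721519)))⟩,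
  ⟨.x, .w, (B N N (K (.ofNat 4620628986639757)) (K (.ofNat 2391599528332793)))⟩,
  ⟨.z, .w, (B (K (.ofNat 2279779453918988)) (K (.negSucc 2642538813715315)) N N)⟩,
  ⟨.x, T4, (K (.ofNat 1858550321386697))⟩,
  ⟨.x, T6, (K (.negSucc 2663930129860852))⟩,
  ⟨.z, T1, (K (.negSucc 2529149661058114))⟩,
  ⟨.z, T5, (K (.negSucc 2416327377554766))⟩] (.node [⟨.z, .w, (K (.negSucc 1080508789766991))⟩] .nil .nil .nil .nil .nil .nil) (.node [⟨.z, .w, (K (.ofNat 1499476191532255))⟩] .nil .nil .nil .nil .nil .nil) (.node [⟨.x, .w, (K (.ofNat 7186241041249693))⟩] .nil .nil .nil .nil .nil .nil) (.node [⟨.x, .w, (K (.negSucc 507725092899495))⟩] .nil .nil .nil .nil .nil .nil) (.node [⟨.x, .z, (K (.negSucc 5298163678272087))⟩] .nil .nil .nil .nil .nil .nil) (.node [⟨.x, .z, (K (.negSucc 1712188119444304))⟩] .nil .nil .nil .nil .nil .nil)) (.node [⟨.x, .w, (B (K (.negSucc 2643585895504796)) (K (.negSucc 1584851268401423)) N N)⟩,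
  ⟨.x, T1, (K (.ofNat 1862088125131314))⟩,
  ⟨.x, T5, (K (.ofNat 75594809472876))⟩] (.node [⟨.x, .w, (K (.negSucc 99680644494395))⟩] .nil .nil .nil .nil .nil .nil) (.node [⟨.x, .w, (K (.ofNat 3006674896167669))⟩] .nil .nil .nil .nil .nil .nil) .nil .nil .nil .nil) (.node [⟨.x, .w, (B (K (.negSucc 5148355603177466)) (K (.negSucc 4713236150526392)) N N)⟩,
  ⟨.x, T1, (K (.ofNat 2553489540750336))⟩,
  ⟨.x, T5, (K (.ofNat 5142543076746324))⟩] (.node [⟨.x, .w, (K (.negSucc 7176284044990073))⟩] .nil .nil .nil .nil .nil .nil) (.node [⟨.x, .w, (K (.negSucc 2125568530769723))⟩] .nil .nil .nil .nil .nil .nil) .nil .nil .nil .nil) (.node [⟨.x, .z, (B (K (.ofNat 699126104210991)) (K (.ofNat 3098149938236571)) N N)⟩,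
  ⟨.x, T0, (K (.ofNat 5186443105166892))⟩,
  ⟨.x, T2, (K (.ofNat 1742052786085701))⟩] (.node [⟨.x, .z, (K (.ofNat 1744075107948357))⟩] .nil .nil .nil .nil .nil .nil) (.node [⟨.x, .z, (K (.ofNat 2938120453954785))⟩] .nil .nil .nil .nil .nil .nil) .nil .nil .nil .nil) (.node [⟨.x, .z, (B (K (.ofNat 6272450156114781)) (K (.ofNat 3326370832705869)) N N)⟩,
  ⟨.x, T0, (K (.ofNat 2287795370857719))⟩,
  ⟨.x, T2, (K (.negSucc 2134479490963682))⟩] (.node [⟨.x, .z, (K (.negSucc 1907225709146816))⟩] .nil .nil .nil .nil .nil .nil) (.node [⟨.x, .z, (K (.negSucc 710480113196786))⟩] .nil .nil .nil .nil .nil .nil) .nil .nil .nil .nil))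

def c_013 : Cert := (.node [⟨.x, .z, (C (A4 (K (.negSucc 313918484691209))) (C N N N N (K (.ofNat 378604159518468)) (K (.ofNat 110968545739347))) N N (B (K (.ofNat 29658758005650)) (K (.negSucc 261405640105865)) N N) (B (K (.ofNat 200903864301030)) (K (.negSucc 16561148598881)) N N))⟩,
  ⟨.x, .w, (B (A2 (K (.negSucc 47117738745095))) (B N N (K (.negSucc 364095621486749)) (K (.ofNat 293193399159102))) (B (K (.negSucc 43447148767241)) (K (.negSucc 519235625322647)) N N) (B (K (.ofNat 297263241031812)) (K (.negSucc 6108826348685)) N N))⟩,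
  ⟨.z, .w, (B (B (K (.negSucc 12928289867435)) (K (.ofNat 57146610775164)) N N) (B (K (.negSucc 34810522363133)) (K (.negSucc 84399348016229)) N N) N N)⟩,
  ⟨.x, T0, (C N N N N (K (.negSucc 149398643000777)) (K (.ofNat 15106312761381)))⟩,
  ⟨.x, T1, (B N N (K (.negSucc 122811469299227)) (K (.negSucc 130188097575443)))⟩,
  ⟨.x, T2, (C N N N N (K (.ofNat 282837004121124)) (K (.negSucc 127174374507254)))⟩,
  ⟨.x, T4, (B (K (.negSucc 114870873010895)) (K (.ofNat 33374454221748)) N N)⟩,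
  ⟨.x, T5, (B N N (K (.ofNat 206473948429566)) (K (.ofNat 457718981943792)))⟩,
  ⟨.x, T6, (B (K (.negSucc 33854089330811)) (K (.ofNat 28170254777094)) N N)⟩,
  ⟨.z, T1, (A0 (K (.ofNat 86179766480796)))⟩,
  ⟨.z, T5, (A0 (K (.ofNat 64043678663754)))⟩,
  ⟨.x, T12, (K (.ofNat 36222030431136))⟩,
  ⟨.x, T19, (K (.negSucc 25757452508123))⟩,
  ⟨.x, T21, (K (.negSucc 9714124499633))⟩,
  ⟨.x, T24, (K (.negSucc 20756094851429))⟩,
  ⟨.x, T27, (K (.negSucc 35201107250537))⟩,
  ⟨.x, T30, (K (.negSucc 11413210157927))⟩,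
  ⟨.z, T16, (K (.ofNat 27750678118626))⟩,
  ⟨.z, T20, (K (.ofNat 16737342537132))⟩] (.node [⟨.x, .z, (C N N N N (K (.ofNat 402895362205144)) (K (.negSucc 326151542462952)))⟩,
  ⟨.x, .w, (B N N (K (.ofNat 161631888356887)) (K (.negSucc 192385320878175)))⟩,
  ⟨.z, .w, (B (K (.negSucc 242910008164992)) (K (.negSucc 621877559630578)) N N)⟩,
  ⟨.x, T4, (K (.ofNat 200763937708958))⟩,
  ⟨.x, T6, (K (.ofNat 299562139292533))⟩,
  ⟨.z, T1, (K (.ofNat 263967531871150))⟩,
  ⟨.z, T5, (K (.negSucc 402879689581209))⟩] (.node [⟨.z, .w, (K (.negSucc 284641689869430))⟩] .nil .nil .nil .nil .nil .nil) (.node [⟨.z, .w, (K (.negSucc 596714701345264))⟩] .nil .nil .nil .nil .nil .nil) (.node [⟨.x, .w, (K (.ofNat 310957819995031))⟩] .nil .nil .nil .nil .nil .nil) (.node [⟨.x, .w, (K (.ofNat 850006501413371))⟩] .nil .nil .nil .nil .nil .nil) (.node [⟨.x, .z, (K (.negSucc 295182971148495))⟩] .nil .nil .nil .nil .nil .nil) (.node [⟨.x, .z, (K (.negSucc 730910944504219))⟩]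 .nil .nil .nil .nil .nil .nil)) (.node [⟨.x, .z, (C N N N N (K (.negSucc 121339302815937)) (K (.negSucc 57652506189646)))⟩,
  ⟨.x, .w, (B N N (K (.ofNat 73161562117532)) (K (.ofNat 172452824661322)))⟩,
  ⟨.z, .w, (B (K (.ofNat 203819462490880)) (K (.ofNat 18432205562408)) N N)⟩,
  ⟨.x, T4, (K (.negSucc 8138004588979))⟩,
  ⟨.x, T6, (K (.negSucc 81783474450939))⟩,
  ⟨.z, T1, (K (.ofNat 25730807276282))⟩,
  ⟨.z, T5, (K (.negSucc 71646289461133))⟩] (.node [⟨.z, .w, (K (.ofNat 122222753865937))⟩] .nil .nil .nil .nil .nil .nil) (.node [⟨.z, .w, (K (.ofNat 43118890293296))⟩] .nil .nil .nil .nil .nil .nil) (.node [⟨.x, .w, (K (.negSucc 127361932354854))⟩] .nil .nil .nil .nil .nil .nil) (.node [⟨.x, .w, (K (.ofNat 25496265496828))⟩] .nil .nil .nil .nil .nil .nil) (.node [⟨.x, .z, (K (.ofNat 359201634410488))⟩] .nil .nil .nil .nil .nil .nil) (.node [⟨.x, .z, (K (.ofNat 38389124048414))⟩] .nil .nil .nil .nil .nil .nil)) (.node [⟨.x, .w, (B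 (K (.negSucc 30735649866287)) (K (.ofNat 66700461685386)) N N)⟩,
  ⟨.x, T1, (K (.negSucc 130463553194249))⟩,
  ⟨.x, T5, (K (.ofNat 51566907105384))⟩] (.node [⟨.x, .w, (K (.ofNat 9362451312228))⟩] .nil .nil .nil .nil .nil .nil) (.node [⟨.x, .w, (K (.negSucc 165145686893789))⟩] .nil .nil .nil .nil .nil .nil) .nil .nil .nil .nil) (.node [⟨.x, .w, (B (K (.negSucc 167811643144841)) (K (.negSucc 72947620678841)) N N)⟩,
  ⟨.x, T1, (K (.ofNat 14537819564754))⟩,
  ⟨.x, T5, (K (.ofNat 31794810004266))⟩] (.node [⟨.x, .w, (K (.ofNat 139815380005101))⟩] .nil .nil .nil .nil .nil .nil) (.node [⟨.x, .w, (K (.negSucc 37743627828275))⟩] .nil .nil .nil .nil .nil .nil) .nil .nil .nil .nil) (.node [⟨.x, .z, (B (K (.ofNat 831055887161412)) (K (.ofNat 533195891675166)) N N)⟩,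
  ⟨.x, T0, (K (.negSucc 438840885904727))⟩,
  ⟨.x, T2, (K (.negSucc 953636110758143))⟩] (.node [⟨.x, .z, (K (.negSucc 835063561007873))⟩] .nil .nil .nil .nil .nil .nil) (.node [⟨.x, .z, (K (.negSucc 982592712867011))⟩] .nil .nil .nil .nil .nil .nil) .nil .nil .nil .nil) (.node [⟨.x, .z, (B (K (.ofNat 94000131897534)) (K (.negSucc 1683730936493)) N N)⟩,
  ⟨.x, T0, (K (.ofNat 32395690053516))⟩,
  ⟨.x, T2, (K (.ofNat 86237298715218))⟩] (.node [⟨.x, .z, (K (.ofNat 662691363490368))⟩] .nil .nil .nil .nil .nil .nil) (.node [⟨.x, .z, (K (.negSucc 3018687262793))⟩] .nil .nil .nil .nil .nil .nil) .nil .nil .nil .nil))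

def c_014 : Cert := (.node [⟨.x, .z, (B (A2 (K (.negSucc 919631750006345))) (B N N (K (.ofNat 1397581820953020)) (K (.ofNat 1356714386627748))) (B (K (.ofNat 1446833724973302)) (K (.ofNat 661627203695958)) N N) (B (K (.ofNat 448864433575836)) (K (.negSucc 660613735823801)) N N))⟩,
  ⟨.x, T0, (B N N (K (.ofNat 480552335075490)) (K (.ofNat 1584230677183746)))⟩,
  ⟨.x, T2, (B N N (K (.ofNat 912482382291948)) (K (.ofNat 6069967796592)))⟩,
  ⟨.x, T3, (B (K (.ofNat 136895024102820)) (K (.negSucc 477675516891965)) N N)⟩,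
  ⟨.z, T0, (A0 (K (.ofNat 1872825853223466)))⟩,
  ⟨.x, T11, (K (.negSucc 212192488436723))⟩,
  ⟨.x, T18, (K (.ofNat 55197176272254))⟩,
  ⟨.x, T23, (K (.negSucc 262147237963727))⟩,
  ⟨.x, T25, (K (.ofNat 102263513750244))⟩,
  ⟨.z, T15, (K (.ofNat 203990872795068))⟩,
  ⟨.z, T17, (K (.ofNat 235169768048616))⟩] (.node [⟨.x, .z, (B N N (K (.ofNat 75911356715394)) (K (.negSucc 505336334492345)))⟩,
  ⟨.x, T3, (K (.negSucc 760210194526421))⟩,
  ⟨.z, T0, (K (.negSucc 198218866093295))⟩] .nil .nil (.node [⟨.x, .z, (K (.ofNat 132906254298372))⟩] .nil .nil .nil .nil .nil .nil) (.node [⟨.x, .z, (K (.ofNat 959428199566212))⟩] .nil .nil .nil .nil .nil .nil) .nil .nil) (.node [⟨.x, .z, (B N N (K (.ofNat 1440661071096378)) (K (.negSucc 80310254944577)))⟩,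
  ⟨.x, T3, (K (.negSucc 650404272036995))⟩,
  ⟨.z, T0, (K (.ofNat 1506698106147924))⟩] .nil .nil (.node [⟨.x, .z, (K (.negSucc 1338773795490185))⟩] .nil .nil .nil .nil .nil .nil) (.node [⟨.x, .z, (K (.ofNat 325904821836738))⟩] .nil .nil .nil .nil .nil .nil) .nil .nil) (.node [⟨.x, .z, (B (K (.negSucc 155239515008603)) (K (.ofNat 655855558545366)) N N)⟩,
  ⟨.x, T0, (K (.ofNat 906478882499196))⟩,
  ⟨.x, T2, (K (.ofNat 241173267841368))⟩] (.node [⟨.x, .z, (K (.ofNat 241173267841368))⟩] .nil .nil .nil .nil .nil .nil) (.node [⟨.x, .z, (K (.negSucc 1331839674190385))⟩] .nil .nil .nil .nil .nil .nil) .nil .nil .nil .nil) (.node [⟨.x, .z, (B (K (.negSucc 2405318937136181)) (K (.negSucc 1296983605940903)) N N)⟩,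
  ⟨.x, T0, (K (.ofNat 535399180372776))⟩,
  ⟨.x, T2, (K (.ofNat 2275028872817814))⟩] (.node [⟨.x, .z, (K (.ofNat 2504142217493262))⟩] .nil .nil .nil .nil .nil .nil) (.node [⟨.x, .z, (K (.ofNat 923625045755388))⟩] .nil .nil .nil .nil .nil .nil) .nil .nil .nil .nil) .nil .nil)

def c_015 : Cert := (.node [⟨.x, .z, (B (A2 (K (.ofNat 349788580388448))) (B N N (K (.negSucc 41862882085109)) (K (.negSucc 385504699686737))) (B (K (.ofNat 45160212229986)) (K (.ofNat 164309896757268)) N N) (B (K (.ofNat 8423442028824)) (K (.ofNat 25288822592940)) N N))⟩,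
  ⟨.x, T0, (B N N (K (.ofNat 71456259168570)) (K (.negSucc 130280825238881)))⟩,
  ⟨.x, T2, (B N N (K (.negSucc 483342171726623)) (K (.negSucc 240331252575473)))⟩,
  ⟨.x, T3, (B (K (.negSucc 5485628442515)) (K (.negSucc 6363990581957)) N N)⟩,
  ⟨.z, T0, (A0 (K (.ofNat 112706564403276)))⟩,
  ⟨.x, T11, (K (.negSucc 3476667606719))⟩,
  ⟨.x, T18, (K (.ofNat 11855307352932))⟩,
  ⟨.x, T23, (K (.ofNat 66951541505880))⟩,
  ⟨.x, T25, (K (.negSucc 40068257650067))⟩,
  ⟨.z, T15, (K (.negSucc 50678369961239))⟩,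
  ⟨.z, T17, (K (.ofNat 8154615787452))⟩] (.node [⟨.x, .z, (B N N (K (.negSucc 312015547329329)) (K (.ofNat 39070703395182)))⟩,
  ⟨.x, T3, (K (.ofNat 384141208335438))⟩,
  ⟨.z, T0, (K (.negSucc 63679858585583))⟩] .nil .nil (.node [⟨.x, .z, (K (.ofNat 40021009152960))⟩] .nil .nil .nil .nil .nil .nil) (.node [⟨.x, .z, (K (.negSucc 70984345257797))⟩] .nil .nil .nil .nil .nil .nil) .nil .nil) (.node [⟨.x, .z, (B N N (K (.ofNat 173084627656722)) (K (.ofNat 250045173717936)))⟩,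
  ⟨.x, T3, (K (.negSucc 13365897858755))⟩,
  ⟨.z, T0, (K (.negSucc 2249614380449))⟩] .nil .nil (.node [⟨.x, .z, (K (.negSucc 105880529985347))⟩] .nil .nil .nil .nil .nil .nil) (.node [⟨.x, .z, (K (.negSucc 82309567403795))⟩] .nil .nil .nil .nil .nil .nil) .nil .nil) (.node [⟨.x, .z, (B (K (.ofNat 834936006523206)) (K (.ofNat 593951542713024)) N N)⟩,
  ⟨.x, T0, (K (.negSucc 268281000838529))⟩,
  ⟨.x, T2, (K (.negSucc 894419392246475))⟩] (.node [⟨.x, .z, (K (.negSucc 894446481093323))⟩] .nil .nil .nil .nil .nil .nil) (.node [⟨.x, .z, (K (.negSucc 766684987408637))⟩] .nil .nil .nil .nil .nil .nil) .nil .nil .nil .nil) (.node [⟨.x, .z, (B (K (.negSucc 151608429536705)) (K (.negSucc 122152965882107)) N N)⟩,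
  ⟨.x, T0, (K (.ofNat 49952923910844))⟩,
  ⟨.x, T2, (K (.ofNat 134899566439866))⟩] (.node [⟨.x, .z, (K (.ofNat 383358345955944))⟩] .nil .nil .nil .nil .nil .nil) (.node [⟨.x, .z, (K (.ofNat 55603807726212))⟩] .nil .nil .nil .nil .nil .nil) .nil .nil .nil .nil) .nil .nil)

def c_01 : Cert := (.node [⟨.x, .z, (C (C N N (A4 (K (.negSucc 403629353850863))) N (A2 (K (.negSucc 600431295957995))) N) (C N N N (A5 (K (.negSucc 40758111900140))) (A3 (K (.negSucc 51368859196085))) (B N N (K (.negSucc 95391887245220)) (K (.negSucc 497744844141257)))) (C (A4 (K (.ofNat 196094130064806))) (C N N N N (K (.ofNat 849875978240166)) (K (.ofNat 379324954522944))) N N (B (K (.negSucc 180763467471875)) (K (.negSucc 282671435380097)) N N) N) (C (A4 (K (.ofNat 313767001233840))) (C N N N N (K (.ofNat 237599149687833)) (K (.ofNat 35599117865379))) N N (B (K (.negSucc 629053540303436)) (K (.negSucc 1207565917910549)) N N) (B (K (.negSucc 54711930980999))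 (K (.negSucc 16860030255989)) N N)) (B (A2 (K (.negSucc 19937164829429))) (B N N (K (.negSucc 655772438537108)) (K (.negSucc 140327835740477))) (B (K (.negSucc 25933505905799)) (K (.ofNat 217941984971811)) N N) (B (K (.ofNat 695208126581541)) (K (.ofNat 404359347912123)) N N)) (B (A2 (K (.negSucc 192867836806106))) (B N N (K (.negSucc 834754460022899)) (K (.negSucc 463026628615109))) (B (K (.negSucc 2150453353991)) (K (.negSucc 579011102171933)) N N) (B (K (.ofNat 177706334239146)) (K (.negSucc 56104694576891)) N N)))⟩,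
  ⟨.x, .w, (B (A2 (A2 (K (.ofNat 206876234234418)))) (B N N (A3 (K (.ofNat 107569294103442))) (B N N (K (.ofNat 213286570917936)) (K (.ofNat 410510962800444)))) (B (A2 (K (.ofNat 109126355915658))) (B N N (K (.ofNat 263954212590498)) (K (.ofNat 177547738138134))) (B (K (.ofNat 81967968892134)) (K (.ofNat 406785389158494)) N N) (B (K (.ofNat 602456871126774)) (K (.ofNat 492981847059192)) N N)) (B (A2 (K (.ofNat 195968100848790))) (B N N (K (.negSucc 727797512620409)) (K (.negSucc 398407240905599))) (B (K (.ofNat 471091024920984)) (K (.ofNat 521827706708958)) N N) (B (K (.ofNat 236192879127090)) (K (.negSucc 37697869171685)) N N)))⟩,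
  ⟨.z, .w, (B (B (A2 (K (.negSucc 279645962941337))) N (B (K (.negSucc 35550381715355)) (K (.ofNat 155927379670428)) N N) N) (B (A2 (K (.negSucc 115360010487167))) (B N N (K (.negSucc 90151105396877)) (K (.negSucc 430019258150705))) (B (K (.ofNat 33175109576946)) (K (.negSucc 466904481950273)) N N) (B (K (.ofNat 448965977910966)) (K (.ofNat 15466782702054)) N N)) (B (B (K (.ofNat 37880664635724)) (K (.negSucc 603769147402157)) N N) (B (K (.negSucc 621493718823035)) (K (.negSucc 737405482911911)) N N) N N) (B (B (K (.negSucc 346301797638377)) (K (.negSucc 31530200832761)) N N) (B (K (.negSucc 180998762645633)) (K (.ofNat 75244425953274)) N N) N N))⟩,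
  ⟨.x, T0, (C N N (A4 (K (.ofNat 4957624567752))) (C N N N N (K (.ofNat 496629349876575)) (K (.ofNat 27890942094651))) (B N N (K (.negSucc 14821520236361)) (K (.negSucc 159228361969100))) (B N N (K (.negSucc 253242602653484)) (K (.negSucc 452741490106361))))⟩,
  ⟨.x, T1, (B N N (B N N (K (.ofNat 35049379451502)) (K (.negSucc 151354582266677))) (B N N (K (.negSucc 726113224257641)) (K (.negSucc 441885326525777))))⟩,
  ⟨.x, T2, (C N N (A4 (K (.ofNat 549223495422030))) (C N N N N (K (.negSucc 200299266699092)) (K (.negSucc 85036901916059))) (B N N (K (.ofNat 735522969436290)) (K (.ofNat 375758217372405))) (B N N (K (.negSucc 42994487955308)) (K (.negSucc 847488324095))))⟩,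
  ⟨.x, T3, (C (A4 (K (.ofNat 164072530205802))) (C N N N N (K (.negSucc 230934729479804)) (K (.ofNat 155456131400748))) N N (B (K (.negSucc 68892076565531)) (K (.negSucc 83021830262090)) N N) (B (K (.negSucc 109100423203514)) (K (.ofNat 10967122420506)) N N))⟩,
  ⟨.x, T4, (B (A2 (K (.ofNat 141448437205422))) (B N N (K (.ofNat 953087428773240)) (K (.ofNat 751640384019522))) (B (K (.ofNat 46652410648536)) (K (.ofNat 196848195230472)) N N) (B (K (.negSucc 393333380188475)) (K (.ofNat 3515347272342)) N N))⟩,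
  ⟨.x, T5, (B N N (B N N (K (.negSucc 212223325625465)) (K (.negSucc 426044373128231))) (B N N (K (.negSucc 136453752888011)) (K (.negSucc 126527992341101))))⟩,
  ⟨.x, T6, (B (A2 (K (.ofNat 176825040619236))) (B N N (K (.ofNat 687485748298986)) (K (.ofNat 662149198607766))) (B (K (.ofNat 23534756519064)) (K (.ofNat 253182714499188)) N N) (B (K (.negSucc 287775998803193)) (K (.negSucc 22736792582459)) N N))⟩,
  ⟨.z, T0, (C (A4 (K (.ofNat 300143377678548))) (A5 (K (.ofNat 445464503553705))) N N (B (K (.negSucc 269828250381551)) (K (.ofNat 27277917247398)) N N) (A1 (K (.negSucc 22902810939413))))⟩,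
  ⟨.z, T1, (B (A2 (K (.negSucc 138596346386597))) (A3 (K (.negSucc 204828051847559))) (B (K (.negSucc 93129320376413)) (K (.ofNat 129628690057428)) N N) (A1 (K (.negSucc 26452260064463))))⟩,
  ⟨.z, T4, (B (B (K (.negSucc 31281273277967)) (K (.negSucc 195975456112853)) N N) (B (K (.negSucc 22709799917117)) (K (.negSucc 38954204832149)) N N) N N)⟩,
  ⟨.z, T5, (B (A2 (K (.negSucc 112542571257401))) (A3 (K (.negSucc 275631701365571))) (A0 (K (.negSucc 92314953123317))) N)⟩,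
  ⟨.z, T6, (A1 (B (K (.negSucc 65936983781057)) (K (.negSucc 140492360104019)) N N))⟩,
  ⟨.x, T11, (C N N N N (K (.ofNat 19438690140168)) (K (.negSucc 5729294988575)))⟩,
  ⟨.x, T12, (A3 (K (.negSucc 4217145848351)))⟩,
  ⟨.x, T13, (B (K (.ofNat 23611964914728)) (K (.ofNat 30376990774914)) N N)⟩,
  ⟨.x, T18, (C N N N N (K (.negSucc 211963323092573)) (K (.ofNat 7484119747863)))⟩,
  ⟨.x, T19, (B N N (K (.negSucc 56586378344597)) (K (.ofNat 221975434435188)))⟩,
  ⟨.x, T21, (B N N (K (.ofNat 147355050148296)) (K (.ofNat 221425772145840)))⟩,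
  ⟨.x, T23, (C N N N N (K (.negSucc 126289095505421)) (K (.negSucc 129428139601700)))⟩,
  ⟨.x, T24, (B N N (K (.negSucc 120812809399583)) (K (.negSucc 161844543182807)))⟩,
  ⟨.x, T25, (C N N N N (K (.ofNat 186935771187162)) (K (.ofNat 85015193439132)))⟩,
  ⟨.x, T26, (B (K (.negSucc 41256886704671)) (K (.negSucc 84029064841673)) N N)⟩,
  ⟨.x, T27, (B N N (K (.negSucc 172965472742477)) (K (.negSucc 116658583275005)))⟩,
  ⟨.x, T28, (B (K (.negSucc 66207273714239)) (K (.negSucc 120501945301751)) N N)⟩,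
  ⟨.x, T30, (A3 (K (.ofNat 8201864284560)))⟩,
  ⟨.x, T31, (B (K (.negSucc 16591013784479)) (K (.negSucc 30274115891279)) N N)⟩,
  ⟨.z, T15, (C N N N N (K (.ofNat 146509291144446)) (K (.negSucc 22149750113873)))⟩,
  ⟨.z, T16, (A2 (K (.ofNat 184303523502726)))⟩,
  ⟨.z, T17, (C N N N N (K (.ofNat 5090059059720)) (K (.ofNat 10998624197898)))⟩,
  ⟨.z, T20, (A2 (K (.ofNat 39268274346822)))⟩,
  ⟨.x, T78, (K (.ofNat 32571113472))⟩,
  ⟨.x, T36, (K (.negSucc 11870262709367))⟩,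
  ⟨.x, T48, (K (.ofNat 52458566413968))⟩,
  ⟨.x, T50, (K (.ofNat 45488368971504))⟩,
  ⟨.x, T79, (K (.ofNat 4217608749696))⟩,
  ⟨.x, T87, (K (.ofNat 4726826597520))⟩,
  ⟨.x, T80, (K (.negSucc 24164307155231))⟩,
  ⟨.x, T81, (K (.negSucc 23815415384495))⟩,
  ⟨.x, T82, (K (.negSucc 15529951699631))⟩,
  ⟨.x, T103, (K (.negSucc 13603941930095))⟩,
  ⟨.x, T104, (K (.negSucc 5159266824959))⟩,
  ⟨.x, T105, (K (.ofNat 5007416528016))⟩,
  ⟨.x, T83, (K (.ofNat 4558569758352))⟩,
  ⟨.z, T41, (K (.negSucc 7338298228559))⟩,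
  ⟨.z, T43, (K (.negSucc 7965785712815))⟩,
  ⟨.z, T46, (K (.negSucc 5257880083727))⟩] c_010 c_011 c_012 c_013 c_014 c_015)

def c_020 : Cert := (.node [⟨.x, .z, (C (A4 (K (.ofNat 1419006979584))) (C N N N N (K (.negSucc 123309754532360)) (K (.negSucc 54029978260721))) N N (B (K (.negSucc 157020157300457)) (K (.negSucc 43897709087261)) N N) (B (K (.ofNat 20813702122317)) (K (.negSucc 27648066246641)) N N))⟩,
  ⟨.x, .w, (B (A2 (K (.negSucc 6320336805539))) (B N N (K (.ofNat 38837633429538)) (K (.negSucc 74367815761223))) (B (K (.negSucc 296870479845119)) (K (.negSucc 135286899240239)) N N) (B (K (.negSucc 126425699975291)) (K (.ofNat 62061738497154)) N N))⟩,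
  ⟨.z, .w, (B (B (K (.ofNat 161149735579920)) (K (.negSucc 21967205251529)) N N) (B (K (.negSucc 214268180819891)) (K (.ofNat 20468411167320)) N N) N N)⟩,
  ⟨.x, T0, (C N N N N (K (.negSucc 49375007768645)) (K (.negSucc 65894116103945)))⟩,
  ⟨.x, T1, (B N N (K (.negSucc 10948976791343)) (K (.ofNat 125867723256162)))⟩,
  ⟨.x, T2, (C N N N N (K (.negSucc 22732558970885)) (K (.ofNat 233798068224)))⟩,
  ⟨.x, T4, (B (K (.negSucc 50748114954209)) (K (.ofNat 19801662845526)) N N)⟩,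
  ⟨.x, T5, (B N N (K (.negSucc 55159069230449)) (K (.ofNat 35611707376602)))⟩,
  ⟨.x, T6, (B (K (.ofNat 33481506178824)) (K (.ofNat 114836939734068)) N N)⟩,
  ⟨.z, T1, (A0 (K (.ofNat 108928783979052)))⟩,
  ⟨.z, T5, (A0 (K (.ofNat 146025258591954)))⟩,
  ⟨.x, T12, (K (.negSucc 5469948575135))⟩,
  ⟨.x, T19, (K (.ofNat 54554978815038))⟩,
  ⟨.x, T21, (K (.ofNat 90151557888402))⟩,
  ⟨.x, T24, (K (.ofNat 55692520419258))⟩,
  ⟨.x, T27, (K (.ofNat 37192104727002))⟩,
  ⟨.x, T30, (K (.ofNat 2630881264896))⟩,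
  ⟨.z, T16, (K (.ofNat 46221236779554))⟩,
  ⟨.z, T20, (K (.ofNat 29128014009666))⟩] (.node [⟨.x, .z, (C N N N N (K (.ofNat 34765255128690)) (K (.ofNat 108358091549838)))⟩,
  ⟨.x, .w, (B N N (K (.negSucc 45870136850051)) (K (.negSucc 64223364094487)))⟩,
  ⟨.z, .w, (B (K (.ofNat 66555899344110)) (K (.ofNat 6501600798012)) N N)⟩,
  ⟨.x, T4, (K (.negSucc 37169473506173))⟩,
  ⟨.x, T6, (K (.negSucc 98286943506677))⟩,
  ⟨.z, T1, (K (.ofNat 64954499259672))⟩,
  ⟨.z, T5, (K (.ofNat 97517905566966))⟩] (.node [⟨.z, .w, (K (.ofNat 94775642993142))⟩] .nil .nil .nil .nil .nil .nil) (.node [⟨.z, .w, (K (.ofNat 50494221954792))⟩] .nil .nil .nil .nil .nil .nil) (.node [⟨.x, .w, (K (.negSucc 97517905566965))⟩] .nil .nil .nil .nil .nil .nil) (.node [⟨.x, .w, (K (.negSucc 233230751868869))⟩] .nil .nil .nil .nil .nil .nil) (.node [⟨.x, .z, (K (.ofNat 101445300406422))⟩] .nil .nil .nil .nil .nil .nil) (.node [⟨.x, .z, (K (.ofNat 1557766129572))⟩] .nil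 .nil .nil .nil .nil .nil)) (.node [⟨.x, .z, (C N N N N (K (.negSucc 167332057137545)) (K (.ofNat 81396945312396)))⟩,
  ⟨.x, .w, (B N N (K (.negSucc 117342579576137)) (K (.negSucc 151897240015733)))⟩,
  ⟨.z, .w, (B (K (.ofNat 682585305612900)) (K (.ofNat 37649280139482)) N N)⟩,
  ⟨.x, T4, (K (.negSucc 16021707850379))⟩,
  ⟨.x, T6, (K (.negSucc 93670334449727))⟩,
  ⟨.z, T1, (K (.negSucc 17071313459585))⟩,
  ⟨.z, T5, (K (.ofNat 92309520619806))⟩] (.node [⟨.z, .w, (K (.ofNat 9884994768996))⟩] .nil .nil .nil .nil .nil .nil) (.node [⟨.z, .w, (K (.ofNat 92024872309488))⟩] .nil .nil .nil .nil .nil .nil) (.node [⟨.x, .w, (K (.negSucc 60867485280572))⟩] .nil .nil .nil .nil .nil .nil) (.node [⟨.x, .w, (K (.negSucc 209187941539538))⟩] .nil .nil .nil .nil .nil .nil) (.node [⟨.x, .z, (K (.ofNat 241034853838740))⟩] .nil .nil .nil .nil .nil .nil) (.node [⟨.x, .z, (K (.negSucc 66873927817085))⟩] .nil .nil .nil .nil .nil .nil)) (.node [⟨.x, .w, (B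 (K (.negSucc 155269380326249)) (K (.ofNat 50726708256060)) N N)⟩,
  ⟨.x, T1, (K (.negSucc 22778725263353))⟩,
  ⟨.x, T5, (K (.ofNat 9244121734296))⟩] (.node [⟨.x, .w, (K (.negSucc 9244121734295))⟩] .nil .nil .nil .nil .nil .nil) (.node [⟨.x, .w, (K (.negSucc 19947285433727))⟩] .nil .nil .nil .nil .nil .nil) .nil .nil .nil .nil) (.node [⟨.x, .w, (B (K (.negSucc 144053519375429)) (K (.ofNat 26290716765993)) N N)⟩,
  ⟨.x, T1, (K (.negSucc 16876202764877))⟩,
  ⟨.x, T5, (K (.ofNat 16240754271087))⟩] (.node [⟨.x, .w, (K (.negSucc 55458482075504))⟩] .nil .nil .nil .nil .nil .nil) (.node [⟨.x, .w, (K (.negSucc 13421661989174))⟩] .nil .nil .nil .nil .nil .nil) .nil .nil .nil .nil) (.node [⟨.x, .z, (B (K (.ofNat 130180432213038)) (K (.ofNat 53794115216442)) N N)⟩,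
  ⟨.x, T0, (K (.ofNat 86633059990644))⟩] (.node [⟨.x, .z, (K (.ofNat 1281609340416))⟩] .nil .nil .nil .nil .nil .nil) (.node [⟨.x, .z, (K (.negSucc 126000531418967))⟩] .nil .nil .nil .nil .nil .nil) .nil .nil .nil .nil) (.node [⟨.x, .z, (B (K (.negSucc 113574093951731)) (K (.ofNat 71976470330052)) N N)⟩,
  ⟨.x, T0, (K (.ofNat 104291063070102))⟩,
  ⟨.x, T2, (K (.ofNat 55884051418194))⟩] (.node [⟨.x, .z, (K (.ofNat 92901793528620))⟩] .nil .nil .nil .nil .nil .nil) (.node [⟨.x, .z, (K (.negSucc 68742322146575))⟩] .nil .nil .nil .nil .nil .nil) .nil .nil .nil .nil))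

def c_021 : Cert := (.node [⟨.x, .z, (C (A4 (K (.negSucc 2238840321914471))) (C N N N N (K (.negSucc 6864873707372639)) (K (.negSucc 5259472038249197))) N N (B (K (.negSucc 1174948909330418)) (K (.ofNat 3976788064869882)) N N) (B (K (.negSucc 2264137012189451)) (K (.negSucc 4798029277366691)) N N))⟩,
  ⟨.x, .w, (B (A2 (K (.ofNat 5373499657939764))) (B N N (K (.ofNat 5913804560547252)) (K (.ofNat 4823899883161110))) (B (K (.negSucc 2190315052968206)) (K (.ofNat 2064382211284878)) N N) (B (K (.ofNat 1808923382853666)) (K (.negSucc 864870552787586)) N N))⟩,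
  ⟨.z, .w, (B (B (K (.negSucc 2203189116264125)) (K (.negSucc 5285038763362778)) N N) (B (K (.negSucc 2740643223011813)) (K (.negSucc 5149512815935520)) N N) N N)⟩,
  ⟨.x, T0, (C N N N N (K (.ofNat 1192221769473708)) (K (.negSucc 5047933564874966)))⟩,
  ⟨.x, T1, (B N N (K (.ofNat 951146305452087)) (K (.negSucc 1614265807807157)))⟩,
  ⟨.x, T2, (C N N N N (K (.ofNat 1978898675796819)) (K (.ofNat 53300573551062)))⟩,
  ⟨.x, T4, (B (K (.negSucc 4416434703033347)) (K (.ofNat 553411601922462)) N N)⟩,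
  ⟨.x, T5, (B N N (K (.negSucc 5209520927016767)) (K (.ofNat 340218927830454)))⟩,
  ⟨.x, T6, (B (K (.ofNat 2208807557397975)) (K (.ofNat 3259851763976859)) N N)⟩,
  ⟨.z, T1, (A0 (K (.negSucc 1591493847655778)))⟩,
  ⟨.z, T5, (A0 (K (.ofNat 2583766392378372)))⟩,
  ⟨.x, T12, (K (.ofNat 2318580060204528))⟩,
  ⟨.x, T19, (K (.negSucc 2946166790229302))⟩,
  ⟨.x, T21, (K (.negSucc 1543665670873256))⟩,
  ⟨.x, T24, (K (.ofNat 1667613471238911))⟩,
  ⟨.x, T27, (K (.ofNat 390027746618214))⟩,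
  ⟨.x, T30, (K (.ofNat 62830491716259))⟩,
  ⟨.z, T16, (K (.negSucc 333541500778148))⟩,
  ⟨.z, T20, (K (.ofNat 2039669540179395))⟩] (.node [⟨.x, .z, (C N N N N (K (.ofNat 3999971248413564)) (K (.ofNat 2322868351539534)))⟩,
  ⟨.x, .w, (B N N (K (.ofNat 2494812479474844)) (K (.negSucc 748640467721954)))⟩,
  ⟨.z, .w, (B (K (.ofNat 630503629496430)) (K (.negSucc 2584435963126862)) N N)⟩,
  ⟨.x, T4, (K (.negSucc 106837298947514))⟩,
  ⟨.x, T6, (K (.negSucc 2256181037333150))⟩,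
  ⟨.z, T1, (K (.ofNat 166249769486889))⟩,
  ⟨.z, T5, (K (.ofNat 2568393354196113))⟩] (.node [⟨.z, .w, (K (.ofNat 2270656635137628))⟩] .nil .nil .nil .nil .nil .nil) (.node [⟨.z, .w, (K (.ofNat 1153605796759071))⟩] .nil .nil .nil .nil .nil .nil) (.node [⟨.x, .w, (K (.negSucc 2482537266169727))⟩] .nil .nil .nil .nil .nil .nil) (.node [⟨.x, .w, (K (.negSucc 5275991801317202))⟩] .nil .nil .nil .nil .nil .nil) (.node [⟨.x, .z, (K (.ofNat 900720529959768))⟩] .nil .nil .nil .nil .nil .nil) (.node [⟨.x, .z, (K (.negSucc 250957299085688))⟩] .nil .nil .nil .nil .nil .nil)) (.node [⟨.x, .z, (C N N N N (K (.negSucc 420492863927225)) (K (.ofNat 2229449560297203)))⟩,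
  ⟨.x, .w, (B N N (K (.ofNat 4892366094437124)) (K (.ofNat 2141770399755753)))⟩,
  ⟨.z, .w, (B (K (.ofNat 1768634200994664)) (K (.negSucc 3116111009455268)) N N)⟩,
  ⟨.x, T4, (K (.ofNat 2013451571944335))⟩,
  ⟨.x, T6, (K (.negSucc 2162967712956227))⟩,
  ⟨.z, T1, (K (.negSucc 2648909182826966))⟩,
  ⟨.z, T5, (K (.negSucc 2833286948674922))⟩] (.node [⟨.z, .w, (K (.negSucc 1325306370873644))⟩] .nil .nil .nil .nil .nil .nil) (.node [⟨.z, .w, (K (.ofNat 905661401790918))⟩] .nil .nil .nil .nil .nil .nil) (.node [⟨.x, .w, (K (.ofNat 7630390061779395))⟩] .nil .nil .nil .nil .nil .nil) (.node [⟨.x, .w, (K (.ofNat 216667659678915))⟩] .nil .nil .nil .nil .nil .nil) (.node [⟨.x, .z, (K (.negSucc 5775128552698787))⟩] .nil .nil .nil .nil .nil .nil) (.node [⟨.x, .z, (K (.negSucc 2359411565271236))⟩] .nil .nil .nil .nil .nil .nil)) (.node [⟨.x, .w, (B (K (.negSucc 2640520930396976)) (K (.negSucc 1448690734695566)) N N)⟩,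
  ⟨.x, T1, (K (.ofNat 1994380922276910))⟩,
  ⟨.x, T5, (K (.negSucc 256683146871014))⟩] (.node [⟨.x, .w, (K (.ofNat 250387164214632))⟩] .nil .nil .nil .nil .nil .nil) (.node [⟨.x, .w, (K (.ofNat 3373524604389195))⟩] .nil .nil .nil .nil .nil .nil) .nil .nil .nil .nil) (.node [⟨.x, .w, (B (K (.negSucc 5268783489522326)) (K (.negSucc 4823517654804728)) N N)⟩,
  ⟨.x, T1, (K (.ofNat 2750274759041004))⟩,
  ⟨.x, T5, (K (.ofNat 5216264096179956))⟩] (.node [⟨.x, .w, (K (.negSucc 7315530192566795))⟩] .nil .nil .nil .nil .nil .nil) (.node [⟨.x, .w, (K (.negSucc 2250924841771790))⟩] .nil .nil .nil .nil .nil .nil) .nil .nil .nil .nil) (.node [⟨.x, .z, (B (K (.ofNat 499652784876261)) (K (.ofNat 3025210818332913)) N N)⟩,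
  ⟨.x, T0, (K (.ofNat 5506455272183130))⟩,
  ⟨.x, T2, (K (.ofNat 2195698871056005))⟩] (.node [⟨.x, .z, (K (.ofNat 2212749597433347))⟩] .nil .nil .nil .nil .nil .nil) (.node [⟨.x, .z, (K (.ofNat 3797820986293329))⟩] .nil .nil .nil .nil .nil .nil) .nil .nil .nil .nil) (.node [⟨.x, .z, (B (K (.ofNat 7184683636141257)) (K (.ofNat 3963596117118609)) N N)⟩,
  ⟨.x, T0, (K (.ofNat 2092182634730625))⟩,
  ⟨.x, T2, (K (.negSucc 3123695086949096))⟩] (.node [⟨.x, .z, (K (.negSucc 2766303532930484))⟩] .nil .nil .nil .nil .nil .nil) (.node [⟨.x, .z, (K (.negSucc 1492256652953780))⟩] .nil .nil .nil .nil .nil .nil) .nil .nil .nil .nil))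

def c_02 : Cert := (.node [⟨.x, .z, (C (C (A4 (K (.ofNat 121576984527672))) N N N (B (K (.ofNat 429802455682662)) (K (.ofNat 152982532537740)) N N) N) (C (A4 (K (.negSucc 104689494293003))) (C N N N N (K (.ofNat 613653493310892)) (K (.ofNat 281987301537396))) N N (B (K (.ofNat 539189672880147)) (K (.ofNat 265724677390167)) N N) (B (K (.ofNat 260524648893516)) (K (.ofNat 96686365525326)) N N)) N N (B (B (K (.negSucc 1124748512405)) (K (.ofNat 86321523707373)) N N) (B (K (.negSucc 183669429488561)) (K (.negSucc 42648737800634)) N N) N N) (B (B (K (.ofNat 204584119108869)) (K (.negSucc 863027117939)) N N) (B (K (.negSucc 151534772004125)) (K (.ofNat 1192801539024)) N N) N N))⟩,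
  ⟨.x, .w, (B (B (A2 (K (.ofNat 85672210232952))) N (B (K (.negSucc 256594189682891)) (K (.ofNat 2650020820902)) N N) N) (B (A2 (K (.negSucc 255164066545139))) (B N N (K (.ofNat 1110896175989112)) (K (.ofNat 574254813537930))) (B (K (.negSucc 651549511988993)) (K (.negSucc 214199752790663)) N N) (B (K (.negSucc 447676275976505)) (K (.negSucc 107790328893413)) N N)) (B (B (K (.negSucc 148048899125027)) (K (.ofNat 7885202901294)) N N) (B (K (.negSucc 300365494082075)) (K (.ofNat 15704524788048)) N N) N N) (B (B (K (.ofNat 242092365802320)) (K (.negSucc 186703392972431)) N N) (B (K (.negSucc 139277366229773)) (K (.ofNat 1476640665072)) N N) N N))⟩,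
  ⟨.z, .w, (B (B (B (K (.ofNat 194241042216192)) (K (.ofNat 43208882322360)) N N) (B (K (.ofNat 211856401802460)) (K (.ofNat 20585528621766)) N N) N N) (B (B (K (.ofNat 272555606632338)) (K (.ofNat 3962261466498)) N N) (B (K (.ofNat 3219820908816)) (K (.negSucc 1615498575623)) N N) N N) N N)⟩,
  ⟨.x, T0, (C (A4 (K (.negSucc 279007221530897))) (C N N N N (K (.ofNat 406740361276332)) (K (.ofNat 198121709299860))) N N (B (K (.ofNat 230592765056448)) (K (.ofNat 173950526414529)) N N) (B (K (.ofNat 298349505038382)) (K (.ofNat 92865776568318)) N N))⟩,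
  ⟨.x, T1, (B (A2 (K (.ofNat 268515032893182))) (B N N (K (.negSucc 578069206595927)) (K (.negSucc 471516678407105))) (B (K (.ofNat 325552636031430)) (K (.ofNat 236431679375268)) N N) (B (K (.ofNat 386022552357336)) (K (.ofNat 103985974265418)) N N))⟩,
  ⟨.x, T2, (C (A4 (K (.negSucc 84381491030111))) (C N N N N (K (.ofNat 118867115214117)) (K (.negSucc 14183428340312))) N N (B (K (.negSucc 270368478478151)) (K (.negSucc 90670990394087)) N N) (B (K (.ofNat 54529006369365)) (K (.negSucc 2962684400975)) N N))⟩,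
  ⟨.x, T4, (B (B (K (.negSucc 281648929745903)) (K (.ofNat 75205101924330)) N N) (B (K (.negSucc 125807432858483)) (K (.negSucc 9327050403767)) N N) N N)⟩,
  ⟨.x, T5, (B (A2 (K (.ofNat 60598986787350))) (B N N (K (.ofNat 142016431123422)) (K (.negSucc 13530644621909))) (B (K (.ofNat 152595683269422)) (K (.ofNat 69217228871964)) N N) (B (K (.ofNat 106991489483652)) (K (.ofNat 4432299375816)) N N))⟩,
  ⟨.x, T6, (B (B (K (.negSucc 194631241758743)) (K (.negSucc 67167020318639)) N N) (B (K (.negSucc 56515119146633)) (K (.ofNat 10019420264592)) N N) N N)⟩,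
  ⟨.z, T1, (A0 (B (K (.ofNat 76258275005784)) (K (.ofNat 138570367358784)) N N))⟩,
  ⟨.z, T5, (A0 (B (K (.ofNat 148075987971876)) (K (.negSucc 37255885810373)) N N))⟩,
  ⟨.x, T9, (C N N N N (K (.ofNat 9317376873612)) (K (.negSucc 775280139263)))⟩,
  ⟨.x, T10, (A3 (K (.negSucc 5501750051231)))⟩,
  ⟨.x, T12, (A1 (K (.ofNat 654652917504)))⟩,
  ⟨.x, T15, (C N N N N (K (.ofNat 182199717883242)) (K (.ofNat 83322773285472)))⟩,
  ⟨.x, T16, (B N N (K (.ofNat 200119230432684)) (K (.negSucc 4087332548009)))⟩,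
  ⟨.x, T17, (C N N N N (K (.negSucc 108312281946521)) (K (.ofNat 3559933070145)))⟩,
  ⟨.x, T19, (B (K (.negSucc 175238092169777)) (K (.negSucc 4122762851879)) N N)⟩,
  ⟨.x, T20, (B N N (K (.ofNat 177354232880562)) (K (.negSucc 14363082303101)))⟩,
  ⟨.x, T21, (A0 (K (.negSucc 143499004159955)))⟩,
  ⟨.x, T22, (A5 (K (.negSucc 9837349974935)))⟩,
  ⟨.x, T24, (B (K (.ofNat 109842290318724)) (K (.ofNat 11736692624016)) N N)⟩,
  ⟨.x, T27, (B (K (.ofNat 62860113458004)) (K (.ofNat 3892069846584)) N N)⟩,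
  ⟨.x, T29, (A3 (K (.ofNat 1527934544640)))⟩,
  ⟨.x, T30, (A1 (K (.ofNat 2923988900544)))⟩,
  ⟨.z, T16, (A0 (K (.ofNat 64978191297402)))⟩,
  ⟨.z, T20, (A0 (K (.ofNat 38931050677494)))⟩,
  ⟨.x, T35, (K (.negSucc 1180031016959))⟩,
  ⟨.x, T41, (K (.negSucc 8882692679015))⟩,
  ⟨.x, T43, (K (.ofNat 11152834500960))⟩,
  ⟨.x, T46, (K (.ofNat 1404914872824))⟩,
  ⟨.x, T49, (K (.ofNat 1761265198224))⟩,
  ⟨.x, T52, (K (.negSucc 2688928880831))⟩,
  ⟨.x, T55, (K (.ofNat 5303203950240))⟩,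
  ⟨.x, T58, (K (.ofNat 12713547340728))⟩,
  ⟨.x, T60, (K (.ofNat 1300175092008))⟩,
  ⟨.x, T61, (K (.negSucc 1281609340415))⟩,
  ⟨.x, T63, (K (.ofNat 742932228096))⟩,
  ⟨.x, T65, (K (.ofNat 137487020544))⟩,
  ⟨.z, T38, (K (.ofNat 1197137878560))⟩,
  ⟨.z, T42, (K (.negSucc 2836520785871))⟩] c_020 c_021 (.node [⟨.x, .w, (B (B (K (.negSucc 2861133824507)) (K (.ofNat 221037267825012)) N N) (B (K (.ofNat 381749434548366)) (K (.ofNat 22895624120742)) N N) N N)⟩,
  ⟨.x, T1, (B (K (.negSucc 160821331276265)) (K (.negSucc 197727506015183)) N N)⟩,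
  ⟨.x, T5, (B (K (.negSucc 146496463487783)) (K (.negSucc 173971120886549)) N N)⟩,
  ⟨.x, T10, (K (.ofNat 5700654097056))⟩,
  ⟨.x, T16, (K (.negSucc 176952819464441))⟩,
  ⟨.x, T20, (K (.negSucc 179067476580533))⟩,
  ⟨.x, T29, (K (.negSucc 1281609340415))⟩] (.node [⟨.x, .w, (B (K (.ofNat 156333813462720)) (K (.ofNat 5995514774520)) N N)⟩,
  ⟨.x, T1, (K (.negSucc 5391216371447))⟩,
  ⟨.x, T5, (K (.negSucc 9837349974935))⟩] (.node [⟨.x, .w, (K (.ofNat 11118959315352))⟩] .nil .nil .nil .nil .nil .nil) (.node [⟨.x, .w, (K (.ofNat 160583762505789))⟩] .nil .nil .nil .nil .nil .nil) .nil .nil .nil .nil) (.node [⟨.x, .w, (B (K (.negSucc 185578466627771)) (K (.ofNat 58730124064455)) N N)⟩,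
  ⟨.x, T1, (K (.ofNat 165856420855656))⟩,
  ⟨.x, T5, (K (.negSucc 158903007500186))⟩] (.node [⟨.x, .w, (K (.ofNat 341386229402145))⟩] .nil .nil .nil .nil .nil .nil) (.node [⟨.x, .w, (K (.ofNat 378045491985873))⟩] .nil .nil .nil .nil .nil .nil) .nil .nil .nil .nil) .nil .nil .nil .nil) (.node [⟨.x, .w, (B (B (K (.negSucc 57434752883699)) (K (.ofNat 144695382863550)) N N) (B (K (.ofNat 175317295701648)) (K (.ofNat 125466691145814)) N N) N N)⟩,
  ⟨.x, T1, (B (K (.ofNat 193073649558324)) (K (.negSucc 31035477875237)) N N)⟩,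
  ⟨.x, T5, (B (K (.negSucc 227641203676643)) (K (.negSucc 173936883282335)) N N)⟩,
  ⟨.x, T10, (K (.negSucc 16760173313807))⟩,
  ⟨.x, T16, (K (.negSucc 95270001051689))⟩,
  ⟨.x, T20, (K (.negSucc 69481471029353))⟩,
  ⟨.x, T29, (K (.negSucc 7345940278895))⟩] (.node [⟨.x, .w, (B (K (.ofNat 119979152537880)) (K (.negSucc 9176170192352)) N N)⟩,
  ⟨.x, T1, (K (.ofNat 104883682450446))⟩,
  ⟨.x, T5, (K (.ofNat 4346078365377))⟩] (.node [⟨.x, .w, (K (.negSucc 4000967275544))⟩] .nil .nil .nil .nil .nil .nil) (.node [⟨.x, .w, (K (.ofNat 33300537160977))⟩] .nil .nil .nil .nil .nil .nil) .nil .nil .nil .nil) (.node [⟨.x, .w, (B (K (.ofNat 17816747597250)) (K (.ofNat 67736290666158)) N N)⟩,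
  ⟨.x, T1, (K (.ofNat 207454457575512))⟩,
  ⟨.x, T5, (K (.negSucc 200123121400955))⟩] (.node [⟨.x, .w, (K (.ofNat 269174423380878))⟩] .nil .nil .nil .nil .nil .nil) (.node [⟨.x, .w, (K (.ofNat 380038281574518))⟩] .nil .nil .nil .nil .nil .nil) .nil .nil .nil .nil) .nil .nil .nil .nil) (.node [⟨.x, .z, (B (B (K (.ofNat 12990251825562)) (K (.negSucc 114556720197683)) N N) (B (K (.negSucc 154520948778251)) (K (.negSucc 11738631271229)) N N) N N)⟩,
  ⟨.x, T0, (B (K (.negSucc 20276612348033)) (K (.negSucc 80256915567467)) N N)⟩,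
  ⟨.x, T2, (B (K (.ofNat 70944013347894)) (K (.ofNat 71686945575990)) N N)⟩,
  ⟨.x, T9, (K (.negSucc 440209624319))⟩,
  ⟨.x, T15, (K (.ofNat 74914551569142))⟩,
  ⟨.x, T17, (K (.negSucc 71384222972213))⟩] (.node [⟨.x, .z, (B (K (.ofNat 72665832312630)) (K (.ofNat 2024541568512)) N N)⟩,
  ⟨.x, T2, (K (.negSucc 440209624319))⟩] (.node [⟨.x, .z, (K (.negSucc 440209624319))⟩] .nil .nil .nil .nil .nil .nil) (.node [⟨.x, .z, (K (.negSucc 52344541355543))⟩] .nil .nil .nil .nil .nil .nil) .nil .nil .nil .nil) (.node [⟨.x, .z, (B (K (.ofNat 190002809568054)) (K (.ofNat 175097346651180)) N N)⟩,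
  ⟨.x, T0, (K (.negSucc 169065456604847))⟩,
  ⟨.x, T2, (K (.negSucc 398116857100121))⟩] (.node [⟨.x, .z, (K (.negSucc 464262371323631))⟩] .nil .nil .nil .nil .nil .nil) (.node [⟨.x, .z, (K (.negSucc 464363954499311))⟩] .nil .nil .nil .nil .nil .nil) .nil .nil .nil .nil) .nil .nil .nil .nil) (.node [⟨.x, .z, (B (B (K (.negSucc 91089040611779)) (K (.negSucc 438579612917879)) N N) (B (K (.ofNat 737337679530084)) (K (.ofNat 935583862866486)) N N) N N)⟩,
  ⟨.x, T0, (B (K (.ofNat 325273477862490)) (K (.ofNat 63230165865528)) N N)⟩,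
  ⟨.x, T2, (B (K (.negSucc 308680012482713)) (K (.ofNat 144967570749282)) N N)⟩,
  ⟨.x, T9, (K (.negSucc 35253461065649))⟩,
  ⟨.x, T15, (K (.ofNat 620254829665014))⟩,
  ⟨.x, T17, (K (.negSucc 438181240048787))⟩,
  ⟨.x, T22, (K (.negSucc 387438263994965))⟩] (.node [⟨.x, .z, (B (K (.negSucc 213230706816875)) (K (.negSucc 489341321682341)) N N)⟩,
  ⟨.x, T0, (K (.negSucc 576290973272123))⟩,
  ⟨.x, T2, (K (.ofNat 12988851821910))⟩] (.node [⟨.x, .z, (K (.ofNat 399021081083052))⟩] .nil .nil .nil .nil .nil .nil) (.node [⟨.x, .z, (K (.negSucc 421157622814877))⟩] .nil .nil .nil .nil .nil .nil) .nil .nil .nil .nil) (.node [⟨.x, .z, (B (K (.negSucc 659203685055683)) (K (.ofNat 995192749771950)) N N)⟩,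
  ⟨.x, T0, (K (.negSucc 292159723687319))⟩,
  ⟨.x, T2, (K (.negSucc 859395152026391))⟩] (.node [⟨.x, .z, (K (.negSucc 906164312573621))⟩] .nil .nil .nil .nil .nil .nil) (.node [⟨.x, .z, (K (.negSucc 907379236719083))⟩] .nil .nil .nil .nil .nil .nil) .nil .nil .nil .nil) .nil .nil .nil .nil))

def c_030 : Cert := (.node [⟨.x, .z, (C (A4 (K (.ofNat 866476486958568))) (C N N N N (K (.ofNat 6818553439293372)) (K (.ofNat 6209802149134425))) N N (B (K (.ofNat 728899324663887)) (K (.negSucc 5064008347594025)) N N) (B (K (.ofNat 2311249456112232)) (K (.ofNat 4618052422066428)) N N))⟩,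
  ⟨.x, .w, (B (A2 (K (.negSucc 5798788179581363))) (B N N (K (.negSucc 5963939663234663)) (K (.negSucc 4155031644059591))) (B (K (.ofNat 3575159542019493)) (K (.negSucc 2282988378674531)) N N) (B (K (.negSucc 2255138504489723)) (K (.ofNat 765358038160935)) N N))⟩,
  ⟨.z, .w, (B (B (K (.ofNat 900562130254362)) (K (.ofNat 3942114956164533)) N N) (B (K (.ofNat 1985644458863490)) (K (.ofNat 5264874162024051)) N N) N N)⟩,
  ⟨.x, T0, (C N N N N (K (.negSucc 1134996711937025)) (K (.ofNat 6058768671143817)))⟩,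
  ⟨.x, T1, (B N N (K (.negSucc 998851194116240)) (K (.ofNat 791708985220974)))⟩,
  ⟨.x, T2, (C N N N N (K (.negSucc 1038992832363050)) (K (.negSucc 25280719934732)))⟩,
  ⟨.x, T4, (B (K (.ofNat 5275254541562814)) (K (.negSucc 100739594214761)) N N)⟩,
  ⟨.x, T5, (B N N (K (.ofNat 6337384871073432)) (K (.ofNat 173229798780642)))⟩,
  ⟨.x, T6, (B (K (.negSucc 2185057663707548)) (K (.negSucc 3041705597926736)) N N)⟩,
  ⟨.z, T1, (A0 (K (.ofNat 482843332544745)))⟩,
  ⟨.z, T5, (A0 (K (.negSucc 2805213493487783)))⟩,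
  ⟨.x, T12, (K (.negSucc 2624382871644635))⟩,
  ⟨.x, T19, (K (.ofNat 3632780699517093))⟩,
  ⟨.x, T21, (K (.ofNat 1587935613616221))⟩,
  ⟨.x, T24, (K (.negSucc 1524607435682912))⟩,
  ⟨.x, T27, (K (.ofNat 112398493341378))⟩,
  ⟨.x, T30, (K (.negSucc 188066933353322))⟩,
  ⟨.z, T16, (K (.ofNat 302072653391721))⟩,
  ⟨.z, T20, (K (.negSucc 1836347307084896))⟩] (.node [⟨.x, .z, (C N N N N (K (.negSucc 4497173500188251)) (K (.negSucc 3279361576621055)))⟩,
  ⟨.x, .w, (B N N (K (.negSucc 2484327338966429)) (K (.ofNat 1836789970879731)))⟩,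
  ⟨.z, .w, (B (K (.negSucc 1212819339907676)) (K (.ofNat 2826641572264605)) N N)⟩,
  ⟨.x, T4, (K (.negSucc 410035934630642))⟩,
  ⟨.x, T6, (K (.ofNat 3262788110469867))⟩,
  ⟨.z, T1, (K (.negSucc 1366202287298936))⟩,
  ⟨.z, T5, (K (.negSucc 3583631935607306))⟩] (.node [⟨.z, .w, (K (.negSucc 2999813567764811))⟩] .nil .nil .nil .nil .nil .nil) (.node [⟨.z, .w, (K (.negSucc 2035738337963642))⟩] .nil .nil .nil .nil .nil .nil) (.node [⟨.x, .w, (K (.ofNat 3573718061207667))⟩] .nil .nil .nil .nil .nil .nil) (.node [⟨.x, .w, (K (.ofNat 6769333067939289))⟩] .nil .nil .nil .nil .nil .nil) (.node [⟨.x, .z, (K (.negSucc 1456919148948503))⟩] .nil .nil .nil .nil .nil .nil) (.node [⟨.x, .z, (K (.ofNat 236810998762761))⟩] .nil .nil .nil .nil .nil .nil)) (.node [⟨.x, .z, (C N N N N (K (.ofNat 1002829761222732)) (K (.negSucc 1677872555321750)))⟩,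
  ⟨.x, .w, (B N N (K (.negSucc 6066546363765551)) (K (.negSucc 2216138993424728)))⟩,
  ⟨.z, .w, (B (K (.negSucc 3059357988286070)) (K (.ofNat 2547323599877835)) N N)⟩,
  ⟨.x, T4, (K (.negSucc 3074716499183990))⟩,
  ⟨.x, T6, (K (.ofNat 2321514117389988))⟩,
  ⟨.z, T1, (K (.ofNat 3458016096248991))⟩,
  ⟨.z, T5, (K (.ofNat 3777364823081739))⟩] (.node [⟨.z, .w, (K (.ofNat 1403242782525813))⟩] .nil .nil .nil .nil .nil .nil) (.node [⟨.z, .w, (K (.negSucc 450093117352451))⟩] .nil .nil .nil .nil .nil .nil) (.node [⟨.x, .w, (K (.negSucc 9211781218170884))⟩] .nil .nil .nil .nil .nil .nil) (.node [⟨.x, .w, (K (.negSucc 1410842190713831))⟩] .nil .nil .nil .nil .nil .nil) (.node [⟨.x, .z, (K (.ofNat 5977055705216766))⟩] .nil .nil .nil .nil .nil .nil) (.node [⟨.x, .z, (K (.ofNat 2913716981284485))⟩] .nil .nil .nil .nil .nil .nil)) (.node [⟨.x, .w, (B (K (.ofNat 2853213405001491)) (K (.ofNat 1170485357536992)) N N)⟩,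
  ⟨.x, T1, (K (.negSucc 1143817677148607))⟩,
  ⟨.x, T5, (K (.ofNat 78462236612592))⟩] (.node [⟨.x, .w, (K (.negSucc 68209036670807))⟩] .nil .nil .nil .nil .nil .nil) (.node [⟨.x, .w, (K (.negSucc 3741286747142177))⟩] .nil .nil .nil .nil .nil .nil) .nil .nil .nil .nil) (.node [⟨.x, .w, (B (K (.ofNat 6001061474561457)) (K (.ofNat 5263918216389399)) N N)⟩,
  ⟨.x, T1, (K (.negSucc 2454483234387845))⟩,
  ⟨.x, T5, (K (.negSucc 5611585927614611))⟩] (.node [⟨.x, .w, (K (.ofNat 7655239748439498))⟩] .nil .nil .nil .nil .nil .nil) (.node [⟨.x, .w, (K (.ofNat 1438527410307042))⟩] .nil .nil .nil .nil .nil .nil) .nil .nil .nil .nil) (.node [⟨.x, .z, (B (K (.negSucc 936213615148334)) (K (.negSucc 3932572864186328)) N N)⟩,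
  ⟨.x, T0, (K (.negSucc 6286732522843979))⟩,
  ⟨.x, T2, (K (.negSucc 1934839797981506))⟩] (.node [⟨.x, .z, (K (.negSucc 1951404115110506))⟩] .nil .nil .nil .nil .nil .nil) (.node [⟨.x, .z, (K (.negSucc 2572999893077666))⟩] .nil .nil .nil .nil .nil .nil) .nil .nil .nil .nil) (.node [⟨.x, .z, (B (K (.negSucc 6453565169395238)) (K (.negSucc 2763776147201066)) N N)⟩,
  ⟨.x, T0, (K (.negSucc 2190798070509632))⟩,
  ⟨.x, T2, (K (.ofNat 1420668872329383))⟩] (.node [⟨.x, .z, (K (.ofNat 1544418444638289))⟩] .nil .nil .nil .nil .nil .nil) (.node [⟨.x, .z, (K (.ofNat 710761876027131))⟩] .nil .nil .nil .nil .nil .nil) .nil .nil .nil .nil))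

def c_031 : Cert := (.node [⟨.x, .z, (C (A4 (K (.negSucc 461755218230675))) (C N N N N (K (.negSucc 1683344594791934)) (K (.negSucc 1868779634054696))) N N (B (K (.ofNat 217232284953792)) (K (.ofNat 1382634560744649)) N N) (B (K (.ofNat 626846132403915)) (K (.negSucc 1584521514665189)) N N))⟩,
  ⟨.x, .w, (B (A2 (K (.ofNat 1426799276871876))) (B N N (K (.ofNat 1904540676599016)) (K (.ofNat 510303502475694))) (B (K (.negSucc 515134709911901)) (K (.ofNat 577431341239464)) N N) (B (K (.ofNat 51974823008418)) (K (.negSucc 899712918025307)) N N))⟩,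
  ⟨.z, .w, (B (B (K (.negSucc 709148611075589)) (K (.negSucc 2810037811921667)) N N) (B (K (.negSucc 3089697845591927)) (K (.negSucc 304265758191173)) N N) N N)⟩,
  ⟨.x, T0, (C N N N N (K (.ofNat 287087345295354)) (K (.negSucc 1031786966010851)))⟩,
  ⟨.x, T1, (B N N (K (.ofNat 211272094807128)) (K (.negSucc 410131924506881)))⟩,
  ⟨.x, T2, (C N N N N (K (.ofNat 913430535703488)) (K (.ofNat 57558148259382)))⟩,
  ⟨.x, T4, (B (K (.ofNat 212019432714492)) (K (.negSucc 18501750281627)) N N)⟩,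
  ⟨.x, T5, (B N N (K (.negSucc 1577373966627335)) (K (.ofNat 184049365507182)))⟩,
  ⟨.x, T6, (B (K (.ofNat 103725518798748)) (K (.ofNat 1513926300097296)) N N)⟩,
  ⟨.z, T1, (A0 (K (.ofNat 332872691783742)))⟩,
  ⟨.z, T5, (A0 (K (.ofNat 300257335472040)))⟩,
  ⟨.x, T12, (K (.negSucc 330018121028699))⟩,
  ⟨.x, T19, (K (.ofNat 241349387066334))⟩,
  ⟨.x, T21, (K (.negSucc 58802487900227))⟩,
  ⟨.x, T24, (K (.negSucc 95730762662225))⟩,
  ⟨.x, T27, (K (.ofNat 164436099778206))⟩,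
  ⟨.x, T30, (K (.negSucc 162709938706391))⟩,
  ⟨.z, T16, (K (.ofNat 66489722852328))⟩,
  ⟨.z, T20, (K (.negSucc 72274966230383))⟩] (.node [⟨.x, .z, (C N N N N (K (.ofNat 120586626032214)) (K (.ofNat 1221977288165820)))⟩,
  ⟨.x, .w, (B N N (K (.ofNat 415665635178900)) (K (.ofNat 28939501981518)))⟩,
  ⟨.z, .w, (B (K (.negSucc 1487643314953184)) (K (.ofNat 440041003531644)) N N)⟩,
  ⟨.x, T4, (K (.negSucc 762038821134929))⟩,
  ⟨.x, T6, (K (.negSucc 486550738370291))⟩,
  ⟨.z, T1, (K (.negSucc 60224003342051))⟩,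
  ⟨.z, T5, (K (.ofNat 937656906864270))⟩] (.node [⟨.z, .w, (K (.negSucc 311017879066655))⟩] .nil .nil .nil .nil .nil .nil) (.node [⟨.z, .w, (K (.negSucc 439527670026413))⟩] .nil .nil .nil .nil .nil .nil) (.node [⟨.x, .w, (K (.negSucc 696174000096821))⟩] .nil .nil .nil .nil .nil .nil) (.node [⟨.x, .w, (K (.negSucc 832969877284559))⟩] .nil .nil .nil .nil .nil .nil) (.node [⟨.x, .z, (K (.ofNat 931991291228490))⟩] .nil .nil .nil .nil .nil .nil) (.node [⟨.x, .z, (K (.ofNat 187587082375320))⟩] .nil .nil .nil .nil .nil .nil)) (.node [⟨.x, .z, (C N N N N (K (.negSucc 41633725755197)) (K (.ofNat 1348406555393910)))⟩,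
  ⟨.x, .w, (B N N (K (.ofNat 638342982973356)) (K (.ofNat 573753974724048)))⟩,
  ⟨.z, .w, (B (K (.ofNat 342925126057758)) (K (.negSucc 1108121967044921)) N N)⟩,
  ⟨.x, T4, (K (.negSucc 56651828202113))⟩,
  ⟨.x, T6, (K (.negSucc 673182219188315))⟩,
  ⟨.z, T1, (K (.negSucc 30643199112107))⟩,
  ⟨.z, T5, (K (.negSucc 555051725946113))⟩] (.node [⟨.z, .w, (K (.negSucc 1312163538667817))⟩] .nil .nil .nil .nil .nil .nil) (.node [⟨.z, .w, (K (.negSucc 178549645582469))⟩] .nil .nil .nil .nil .nil .nil) (.node [⟨.x, .w, (K (.ofNat 1720758798898134))⟩] .nil .nil .nil .nil .nil .nil) (.node [⟨.x, .w, (K (.negSucc 144138257890187))⟩] .nil .nil .nil .nil .nil .nil) (.node [⟨.x, .z, (K (.negSucc 780924130653497))⟩] .nil .nil .nil .nil .nil .nil) (.node [⟨.x, .z, (K (.negSucc 97003817303771))⟩] .nil .nil .nil .nil .nil .nil)) (.node [⟨.x, .w, (B (K (.ofNat 2670343902342432)) (K (.negSucc 767835525135203)) N N)⟩,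
  ⟨.x, T1, (K (.negSucc 290314200844583))⟩,
  ⟨.x, T5, (K (.negSucc 727109794810259))⟩] (.node [⟨.x, .w, (K (.ofNat 1578532047210486))⟩] .nil .nil .nil .nil .nil .nil) (.node [⟨.x, .w, (K (.ofNat 1696812542910180))⟩] .nil .nil .nil .nil .nil .nil) .nil .nil .nil .nil) (.node [⟨.x, .w, (B (K (.negSucc 1862631807405239)) (K (.negSucc 341458755144389)) N N)⟩,
  ⟨.x, T1, (K (.ofNat 75129532780932))⟩,
  ⟨.x, T5, (K (.ofNat 1801775680762302))⟩] (.node [⟨.x, .w, (K (.negSucc 935636610391073))⟩] .nil .nil .nil .nil .nil .nil) (.node [⟨.x, .w, (K (.ofNat 106579330578864))⟩] .nil .nil .nil .nil .nil .nil) .nil .nil .nil .nil) (.node [⟨.x, .z, (B (K (.negSucc 2343567021212663)) (K (.ofNat 1322849295384480)) N N)⟩,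
  ⟨.x, T0, (K (.ofNat 1277576730576252))⟩,
  ⟨.x, T2, (K (.ofNat 1036444866010200))⟩] (.node [⟨.x, .z, (K (.ofNat 1424163124061604))⟩] .nil .nil .nil .nil .nil .nil) (.node [⟨.x, .z, (K (.ofNat 762596856542682))⟩] .nil .nil .nil .nil .nil .nil) .nil .nil .nil .nil) (.node [⟨.x, .z, (B (K (.ofNat 528455418321048)) (K (.ofNat 375408050046660)) N N)⟩,
  ⟨.x, T0, (K (.negSucc 126504889184051))⟩,
  ⟨.x, T2, (K (.negSucc 898642794457979))⟩] (.node [⟨.x, .z, (K (.negSucc 326888715322817))⟩] .nil .nil .nil .nil .nil .nil) (.node [⟨.x, .z, (K (.negSucc 98542603666997))⟩] .nil .nil .nil .nil .nil .nil) .nil .nil .nil .nil))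

def c_03 : Cert := (.node [⟨.x, .z, (C (C (A4 (K (.ofNat 634783700286072))) N N N (B (K (.negSucc 595042582402409)) (K (.ofNat 320690657693781)) N N) N) (C (A4 (K (.ofNat 1172014715588004))) (C N N N N (K (.ofNat 336056605372638)) (K (.ofNat 1086832785312))) N N (B (K (.negSucc 1639541960656601)) (K (.ofNat 672125638752180)) N N) (B (K (.negSucc 1787269869727025)) (K (.ofNat 1421234455639320)) N N)) N N (B (B (K (.negSucc 425983357668863)) (K (.ofNat 229679241686046)) N N) (B (K (.ofNat 985939726583952)) (K (.negSucc 1134484017787439)) N N) N N) (B (B (K (.negSucc 1566649218345389)) (K (.negSucc 126524144882969)) N N) (B (K (.negSucc 1529203724901743)) (K (.ofNat 766880426060694)) N N) N N))⟩,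
  ⟨.x, .w, (B (B (A2 (K (.ofNat 676385495061768))) N (B (K (.ofNat 1133769162228510)) (K (.negSucc 1354924302695171)) N N) N) (B (A2 (K (.ofNat 662325646938480))) (B N N (K (.ofNat 809861197449450)) (K (.ofNat 687625442925720))) (B (K (.ofNat 2066564690141844)) (K (.negSucc 723004192460105)) N N) (B (K (.ofNat 1030430572130466)) (K (.negSucc 638689928942507)) N N)) (B (B (K (.negSucc 1011435436013405)) (K (.ofNat 821680597456074)) N N) (B (K (.ofNat 1196954164456914)) (K (.negSucc 20159845113113)) N N) N N) (B (B (K (.negSucc 1529247483807911)) (K (.negSucc 761943930007931)) N N) (B (K (.negSucc 1078599384345587)) (K (.ofNat 387052095153312)) N N) N N))⟩,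
  ⟨.z, .w, (B (B (B (K (.negSucc 1391163402826277)) (K (.ofNat 145235444991984)) N N) (B (K (.negSucc 2070599979847349)) (K (.ofNat 757749734570682)) N N) N N) (B (B (K (.negSucc 1877830272272747)) (K (.ofNat 296295556765842)) N N) (B (K (.negSucc 777274174920773)) (K (.ofNat 623852813521296)) N N) N N) N N)⟩,
  ⟨.x, T0, (C (A4 (K (.ofNat 366028211255850))) (C N N N N (K (.ofNat 622609013868057)) (K (.ofNat 473712302911023))) N N (B (K (.ofNat 35541929199462)) (K (.negSucc 673800095754530)) N N) (B (K (.negSucc 1320082020893858)) (K (.ofNat 1649271507955524)) N N))⟩,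
  ⟨.x, T1, (B (A2 (K (.negSucc 306282885068033))) (B N N (K (.negSucc 609997100787233)) (K (.negSucc 265055018377229))) (B (K (.negSucc 361261866013859)) (K (.negSucc 686580902069111)) N N) (B (K (.negSucc 676381002701873)) (K (.ofNat 302229103828950)) N N))⟩,
  ⟨.x, T2, (C (A4 (K (.negSucc 657166090441841))) (C N N N N (K (.ofNat 105739852317390)) (K (.negSucc 401752768984523))) N N (B (K (.ofNat 808505635711896)) (K (.ofNat 132336260367111)) N N) (B (K (.ofNat 164040032396160)) (K (.negSucc 14637990337793)) N N))⟩,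
  ⟨.x, T4, (B (B (K (.ofNat 637652264006880)) (K (.ofNat 1539593423527356)) N N) (B (K (.ofNat 1179500262345204)) (K (.ofNat 386741077784046)) N N) N N)⟩,
  ⟨.x, T5, (B (A2 (K (.negSucc 513109451561021))) (B N N (K (.negSucc 751976805519665)) (K (.negSucc 864515944482461))) (B (K (.negSucc 988745402190641)) (K (.ofNat 1222374001725900)) N N) (B (K (.negSucc 71927046634583)) (K (.ofNat 276245500455846)) N N))⟩,
  ⟨.x, T6, (B (B (K (.ofNat 1389223160239806)) (K (.negSucc 197966184536717)) N N) (B (K (.ofNat 1292748520948248)) (K (.negSucc 324390830930477)) N N) N N)⟩,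
  ⟨.z, T1, (A0 (B (K (.negSucc 354263063866673)) (K (.ofNat 351206883403776)) N N))⟩,
  ⟨.z, T5, (A0 (B (K (.ofNat 940710724630746)) (K (.negSucc 636409523935061)) N N))⟩,
  ⟨.x, T9, (C N N N N (K (.ofNat 117856655408070)) (K (.ofNat 39329317752048)))⟩,
  ⟨.x, T10, (A3 (K (.negSucc 109154980910231)))⟩,
  ⟨.x, T12, (A1 (K (.negSucc 612890439090227)))⟩,
  ⟨.x, T15, (C N N N N (K (.negSucc 314586924642107)) (K (.negSucc 520575671410181)))⟩,
  ⟨.x, T16, (B N N (K (.negSucc 346397480589833)) (K (.negSucc 277072357625045)))⟩,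
  ⟨.x, T17, (C N N N N (K (.ofNat 155766202022322)) (K (.ofNat 669498041770650)))⟩,
  ⟨.x, T19, (B (K (.ofNat 277167712987308)) (K (.ofNat 861615254594178)) N N)⟩,
  ⟨.x, T20, (B N N (K (.negSucc 230279754959351)) (K (.negSucc 451770137464499)))⟩,
  ⟨.x, T21, (A0 (K (.ofNat 100403563855362)))⟩,
  ⟨.x, T22, (A5 (K (.negSucc 8301999394295)))⟩,
  ⟨.x, T24, (B (K (.ofNat 28083405905454)) (K (.ofNat 222920269492050)) N N)⟩,
  ⟨.x, T27, (B (K (.ofNat 156286991253768)) (K (.ofNat 472919992512030)) N N)⟩,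
  ⟨.x, T29, (A3 (K (.negSucc 47311484779583)))⟩,
  ⟨.x, T30, (A1 (K (.negSucc 432925863017327)))⟩,
  ⟨.z, T16, (A0 (K (.negSucc 21157472714891)))⟩,
  ⟨.z, T20, (A0 (K (.ofNat 164423236599600)))⟩,
  ⟨.x, T35, (K (.ofNat 99580845954330))⟩,
  ⟨.x, T41, (K (.ofNat 95104189397844))⟩,
  ⟨.x, T43, (K (.ofNat 340616398628916))⟩,
  ⟨.x, T46, (K (.negSucc 61732242435617))⟩,
  ⟨.x, T49, (K (.negSucc 142529210136395))⟩,
  ⟨.x, T52, (K (.ofNat 213323413208022))⟩,
  ⟨.x, T55, (K (.ofNat 235971040893858))⟩,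
  ⟨.x, T58, (K (.negSucc 30721775369903))⟩,
  ⟨.x, T60, (K (.negSucc 194463396482903))⟩,
  ⟨.x, T61, (K (.ofNat 14490386400816))⟩,
  ⟨.x, T63, (K (.negSucc 175463344556513))⟩,
  ⟨.x, T65, (K (.ofNat 104794100682318))⟩,
  ⟨.z, T38, (K (.negSucc 14209425861209))⟩,
  ⟨.z, T42, (K (.negSucc 19763974223))⟩] c_030 c_031 (.node [⟨.x, .w, (B (B (K (.negSucc 270964093011827)) (K (.ofNat 1201037965187544)) N N) (B (K (.ofNat 60752692442814)) (K (.ofNat 785926347228810)) N N) N N)⟩,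
  ⟨.x, T1, (B (K (.ofNat 763084043340480)) (K (.negSucc 536112357839783)) N N)⟩,
  ⟨.x, T5, (B (K (.negSucc 718065181974599)) (K (.negSucc 562684175895257)) N N)⟩,
  ⟨.x, T10, (K (.ofNat 135505002782826))⟩,
  ⟨.x, T16, (K (.negSucc 387405397490075))⟩,
  ⟨.x, T20, (K (.negSucc 687756818788307))⟩,
  ⟨.x, T29, (K (.negSucc 45255741734609))⟩] (.node [⟨.x, .w, (B (K (.ofNat 609536399868450)) (K (.negSucc 113909413734071)) N N)⟩,
  ⟨.x, T1, (K (.ofNat 91592614706760))⟩,
  ⟨.x, T5, (K (.ofNat 35045039062476))⟩] (.node [⟨.x, .w, (K (.ofNat 10210702672134))⟩] .nil .nil .nil .nil .nil .nil) (.node [⟨.x, .w, (K (.ofNat 12988248496326))⟩] .nil .nil .nil .nil .nil .nil) .nil .nil .nil .nil) (.node [⟨.x, .w, (B (K (.ofNat 1787533340150610)) (K (.negSucc 35606852922419)) N N)⟩,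
  ⟨.x, T1, (K (.negSucc 346500553886009))⟩,
  ⟨.x, T5, (K (.negSucc 400757652914597))⟩] (.node [⟨.x, .w, (K (.ofNat 1173817687894668))⟩] .nil .nil .nil .nil .nil .nil) (.node [⟨.x, .w, (K (.ofNat 1201652862926868))⟩] .nil .nil .nil .nil .nil .nil) .nil .nil .nil .nil) .nil .nil .nil .nil) (.node [⟨.x, .w, (B (B (K (.negSucc 549453305938379)) (K (.ofNat 2059880607033084)) N N) (B (K (.ofNat 340398508321752)) (K (.ofNat 1642149036218412)) N N) N N)⟩,
  ⟨.x, T1, (B (K (.negSucc 201180961422599)) (K (.negSucc 147736294538669)) N N)⟩,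
  ⟨.x, T5, (B (K (.ofNat 1137922942121646)) (K (.negSucc 1296453729955535)) N N)⟩,
  ⟨.x, T10, (K (.ofNat 133908208888338))⟩,
  ⟨.x, T16, (K (.ofNat 71104273808004))⟩,
  ⟨.x, T20, (K (.ofNat 133039928099232))⟩,
  ⟨.x, T29, (K (.negSucc 3860621972801))⟩] (.node [⟨.x, .w, (B (K (.negSucc 1804996751520287)) (K (.ofNat 524754506726388)) N N)⟩,
  ⟨.x, T1, (K (.ofNat 661795100283420))⟩,
  ⟨.x, T5, (K (.ofNat 436797808047000))⟩] (.node [⟨.x, .w, (K (.negSucc 441219421494269))⟩] .nil .nil .nil .nil .nil .nil) (.node [⟨.x, .w, (K (.negSucc 549116749090439))⟩] .nil .nil .nil .nil .nil .nil) .nil .nil .nil .nil) (.node [⟨.x, .w, (B (K (.ofNat 690955827038976)) (K (.ofNat 211415724479412)) N N)⟩,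
  ⟨.x, T1, (K (.ofNat 156091921626528))⟩,
  ⟨.x, T5, (K (.negSucc 526289443766837))⟩] (.node [⟨.x, .w, (K (.ofNat 428084324637984))⟩] .nil .nil .nil .nil .nil .nil) (.node [⟨.x, .w, (K (.negSucc 66763273124861))⟩] .nil .nil .nil .nil .nil .nil) .nil .nil .nil .nil) .nil .nil .nil .nil) (.node [⟨.x, .z, (B (B (K (.ofNat 372810405641622)) (K (.negSucc 1137654868565681)) N N) (B (K (.negSucc 256004259798155)) (K (.negSucc 2841275414976197)) N N) N N)⟩,
  ⟨.x, T0, (B (K (.ofNat 1426763906133318)) (K (.negSucc 1962963474859013)) N N)⟩,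
  ⟨.x, T2, (B (K (.ofNat 1216159493269716)) (K (.ofNat 267566468574102)) N N)⟩,
  ⟨.x, T9, (K (.ofNat 239157044640618))⟩,
  ⟨.x, T15, (K (.negSucc 377336576503571))⟩,
  ⟨.x, T17, (K (.ofNat 39317918399814))⟩,
  ⟨.x, T22, (K (.ofNat 491645187069936))⟩] (.node [⟨.x, .z, (B (K (.ofNat 1126996859226942)) (K (.ofNat 580804741665600)) N N)⟩,
  ⟨.x, T0, (K (.ofNat 732113344467012))⟩,
  ⟨.x, T2, (K (.negSucc 48230754666047))⟩] (.node [⟨.x, .z, (K (.negSucc 538097419494959))⟩] .nil .nil .nil .nil .nil .nil) (.node [⟨.x, .z, (K (.ofNat 545732748305850))⟩] .nil .nil .nil .nil .nil .nil) .nil .nil .nil .nil) (.node [⟨.x, .z, (B (K (.ofNat 2336041842668298)) (K (.negSucc 833269340540747)) N N)⟩,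
  ⟨.x, T0, (K (.ofNat 71881196230632))⟩,
  ⟨.x, T2, (K (.ofNat 124629856565802))⟩] (.node [⟨.x, .z, (K (.negSucc 222531323493767))⟩] .nil .nil .nil .nil .nil .nil) (.node [⟨.x, .z, (K (.negSucc 221975858941583))⟩] .nil .nil .nil .nil .nil .nil) .nil .nil .nil .nil) .nil .nil .nil .nil) (.node [⟨.x, .z, (B (B (K (.ofNat 179502522786144)) (K (.negSucc 1765513065700367)) N N) (B (K (.negSucc 592085021054279)) (K (.negSucc 388213443209933)) N N) N N)⟩,
  ⟨.x, T0, (B (K (.negSucc 773619446017361)) (K (.negSucc 159865384928813)) N N)⟩,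
  ⟨.x, T2, (B (K (.negSucc 952348339734137)) (K (.ofNat 305484815104578)) N N)⟩,
  ⟨.x, T9, (K (.negSucc 277159346923571))⟩,
  ⟨.x, T15, (K (.ofNat 32815651545360))⟩,
  ⟨.x, T17, (K (.negSucc 266415059107223))⟩,
  ⟨.x, T22, (K (.negSucc 133799874478865))⟩] (.node [⟨.x, .z, (B (K (.negSucc 2010930824142101)) (K (.negSucc 951406715373875)) N N)⟩,
  ⟨.x, T0, (K (.negSucc 569600315564039))⟩,
  ⟨.x, T2, (K (.ofNat 816183606640734))⟩] (.node [⟨.x, .z, (K (.ofNat 999249565644720))⟩] .nil .nil .nil .nil .nil .nil) (.node [⟨.x, .z, (K (.ofNat 705919288101030))⟩] .nil .nil .nil .nil .nil .nil) .nil .nil .nil .nil) (.node [⟨.x, .z, (B (K (.ofNat 37750817813784)) (K (.ofNat 340881747306300)) N N)⟩,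
  ⟨.x, T0, (K (.negSucc 220432786748963))⟩,
  ⟨.x, T2, (K (.negSucc 448199390814047))⟩] (.node [⟨.x, .z, (K (.negSucc 422379965583629))⟩] .nil .nil .nil .nil .nil .nil) (.node [⟨.x, .z, (K (.negSucc 201407269827671))⟩] .nil .nil .nil .nil .nil .nil) .nil .nil .nil .nil) .nil .nil .nil .nil))

def c_040 : Cert := (.node [⟨.x, .z, (B (A2 (K (.negSucc 43085737044737))) (B N N (K (.negSucc 81557601987137)) (K (.negSucc 104813479201043))) (B (K (.negSucc 150832622731187)) (K (.negSucc 52473411814907)) N N) (B (K (.negSucc 233565096504041)) (K (.ofNat 67741033435326)) N N))⟩,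
  ⟨.x, T0, (B N N (K (.negSucc 47442421591217)) (K (.negSucc 142091060708069)))⟩,
  ⟨.x, T2, (B N N (K (.negSucc 59673070266203)) (K (.ofNat 17962013933652)))⟩,
  ⟨.x, T3, (B (K (.negSucc 136322281946108)) (K (.ofNat 57020975167494)) N N)⟩,
  ⟨.z, T0, (A0 (K (.negSucc 281389842756467)))⟩,
  ⟨.x, T11, (K (.negSucc 625045766399))⟩,
  ⟨.x, T18, (K (.negSucc 8358952747163))⟩,
  ⟨.x, T23, (K (.ofNat 47391988340202))⟩,
  ⟨.x, T25, (K (.negSucc 19824781234259))⟩,
  ⟨.z, T15, (K (.ofNat 46516031924586))⟩,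
  ⟨.z, T17, (K (.negSucc 19035546751955))⟩] (.node [⟨.x, .z, (B N N (K (.ofNat 43522869891516)) (K (.ofNat 102773726779032)))⟩,
  ⟨.x, T3, (K (.ofNat 103195940157720))⟩,
  ⟨.z, T0, (K (.ofNat 94598804547072))⟩] .nil .nil (.node [⟨.x, .z, (K (.ofNat 9813052556568))⟩] .nil .nil .nil .nil .nil .nil) (.node [⟨.x, .z, (K (.negSucc 142950879494591))⟩] .nil .nil .nil .nil .nil .nil) .nil .nil) (.node [⟨.x, .z, (B N N (K (.ofNat 26278090824972)) (K (.ofNat 232224099582654)))⟩,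
  ⟨.x, T3, (K (.ofNat 237328953528750))⟩,
  ⟨.z, T0, (K (.ofNat 202961843891370))⟩] .nil .nil (.node [⟨.x, .z, (K (.ofNat 88256631845286))⟩] .nil .nil .nil .nil .nil .nil) (.node [⟨.x, .z, (K (.negSucc 306186262950737))⟩] .nil .nil .nil .nil .nil .nil) .nil .nil) (.node [⟨.x, .z, (B (K (.ofNat 33503979177885)) (K (.negSucc 73864486043573)) N N)⟩,
  ⟨.x, T0, (K (.negSucc 74863059466037))⟩,
  ⟨.x, T2, (K (.negSucc 875956415615))⟩] (.node [⟨.x, .z, (K (.negSucc 875956415615))⟩] .nil .nil .nil .nil .nil .nil) (.node [⟨.x, .z, (K (.ofNat 33043354165086))⟩] .nil .nil .nil .nil .nil .nil) .nil .nil .nil .nil) (.node [⟨.x, .z, (B (K (.ofNat 203152274564139)) (K (.negSucc 219080874828167)) N N)⟩,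
  ⟨.x, T0, (K (.negSucc 193352909777321))⟩,
  ⟨.x, T2, (K (.negSucc 50419130562515))⟩] (.node [⟨.x, .z, (K (.negSucc 70047463386059))⟩] .nil .nil .nil .nil .nil .nil) (.node [⟨.x, .z, (K (.ofNat 89411225572974))⟩] .nil .nil .nil .nil .nil .nil) .nil .nil .nil .nil) .nil .nil)

def c_041 : Cert := (.node [⟨.x, .z, (B (A2 (K (.ofNat 1234526113537794))) (B N N (K (.negSucc 1098661760460986)) (K (.negSucc 1313192197893620))) (B (K (.negSucc 1352153479136813)) (K (.negSucc 695294754495392)) N N) (B (K (.negSucc 127163672875151)) (K (.ofNat 803478830191434)) N N))⟩,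
  ⟨.x, T0, (B N N (K (.negSucc 184978250403830)) (K (.negSucc 1413190806348941)))⟩,
  ⟨.x, T2, (B N N (K (.negSucc 1075629474307676)) (K (.ofNat 167541545453709)))⟩,
  ⟨.x, T3, (B (K (.negSucc 24584910848252)) (K (.ofNat 631214539022055)) N N)⟩,
  ⟨.z, T0, (A0 (K (.negSucc 1765412593894313)))⟩,
  ⟨.x, T11, (K (.ofNat 204584182491132))⟩,
  ⟨.x, T18, (K (.negSucc 129525354438593))⟩,
  ⟨.x, T23, (K (.ofNat 361150181833506))⟩,
  ⟨.x, T25, (K (.negSucc 129649244665142))⟩,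
  ⟨.z, T15, (K (.negSucc 100437867182036))⟩,
  ⟨.z, T17, (K (.negSucc 287502170967875))⟩] (.node [⟨.x, .z, (B N N (K (.ofNat 137355023403384)) (K (.ofNat 1066519614075768)))⟩,
  ⟨.x, T3, (K (.ofNat 1226385786281463))⟩,
  ⟨.z, T0, (K (.ofNat 782680584780540))⟩] .nil .nil (.node [⟨.x, .z, (K (.negSucc 112651377300224))⟩] .nil .nil .nil .nil .nil .nil) (.node [⟨.x, .z, (K (.negSucc 1582532300697818))⟩] .nil .nil .nil .nil .nil .nil) .nil .nil) (.node [⟨.x, .z, (B N N (K (.negSucc 1496659747795016)) (K (.negSucc 17412048027467)))⟩,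
  ⟨.x, T3, (K (.ofNat 11025123127548))⟩,
  ⟨.z, T0, (K (.negSucc 1973656956295502))⟩] .nil .nil (.node [⟨.x, .z, (K (.ofNat 1338431729837283))⟩] .nil .nil .nil .nil .nil .nil) (.node [⟨.x, .z, (K (.negSucc 316077077522207))⟩] .nil .nil .nil .nil .nil .nil) .nil .nil) (.node [⟨.x, .z, (B (K (.ofNat 449514525267219)) (K (.negSucc 631206378636134)) N N)⟩,
  ⟨.x, T0, (K (.negSucc 1003671372244667))⟩,
  ⟨.x, T2, (K (.negSucc 407517799162256))⟩] (.node [⟨.x, .z, (K (.negSucc 443025777206816))⟩] .nil .nil .nil .nil .nil .nil) (.node [⟨.x, .z, (K (.ofNat 824691468354333))⟩] .nil .nil .nil .nil .nil .nil) .nil .nil .nil .nil) (.node [⟨.x, .z, (B (K (.ofNat 1683578451436044)) (K (.ofNat 753154456201704)) N N)⟩,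
  ⟨.x, T0, (K (.negSucc 145653054479501))⟩,
  ⟨.x, T2, (K (.negSucc 1432823413572011))⟩] (.node [⟨.x, .z, (K (.negSucc 1923293841497612))⟩] .nil .nil .nil .nil .nil .nil) (.node [⟨.x, .z, (K (.negSucc 342656300658929))⟩] .nil .nil .nil .nil .nil .nil) .nil .nil .nil .nil) .nil .nil)

def c_04 : Cert := (.node [⟨.x, .z, (B (B (A2 (K (.ofNat 53758112073912))) N (B (K (.negSucc 155540705501945)) (K (.negSucc 102469467884147)) N N) N) (B (A2 (K (.ofNat 48533796892116))) (B N N (K (.negSucc 474766225282787)) (K (.negSucc 238717164806903))) (B (K (.ofNat 174150528708687)) (K (.negSucc 168546306814811)) N N) (B (K (.ofNat 131933990473275)) (K (.ofNat 42690417987288)) N N)) (B (B (K (.ofNat 151394078131395)) (K (.ofNat 72229520231532)) N N) (B (K (.ofNat 221229166545273)) (K (.negSucc 85716111838319)) N N) N N) (B (B (K (.ofNat 101538232812)) (K (.ofNat 298793170195812)) N N) (B (K (.ofNat 124200244489950)) (K (.ofNat 8015638273704)) N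 N) N N))⟩,
  ⟨.x, T0, (B (A2 (K (.negSucc 39717465863777))) (B N N (K (.negSucc 123010210679309)) (K (.negSucc 227282727313025))) (B (K (.ofNat 63464887042731)) (K (.ofNat 16480574817264)) N N) (B (K (.ofNat 24035160092724)) (K (.ofNat 32436267598404)) N N))⟩,
  ⟨.x, T2, (B (A2 (K (.negSucc 141553660040495))) (B N N (K (.negSucc 35965664625743)) (K (.ofNat 61199862682968))) (B (K (.ofNat 108510380606901)) (K (.ofNat 3623032904328)) N N) (B (K (.negSucc 148845262386170)) (K (.ofNat 8903093621400)) N N))⟩,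
  ⟨.x, T3, (B (B (K (.ofNat 16342297845033)) (K (.ofNat 100136140042014)) N N) (B (K (.negSucc 94402604715158)) (K (.negSucc 5910046982747)) N N) N N)⟩,
  ⟨.z, T0, (A0 (B (K (.ofNat 193876174719801)) (K (.ofNat 68092513388370)) N N))⟩,
  ⟨.x, T9, (B N N (K (.negSucc 2969601136505)) (K (.negSucc 197576402687)))⟩,
  ⟨.x, T11, (A1 (K (.ofNat 490059134208)))⟩,
  ⟨.x, T15, (B N N (K (.negSucc 29068811064773)) (K (.ofNat 88938626972724)))⟩,
  ⟨.x, T17, (B N N (K (.ofNat 37736305118010)) (K (.negSucc 52958472447167)))⟩,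
  ⟨.x, T18, (B (K (.ofNat 62339197015968)) (K (.negSucc 24912505999259)) N N)⟩,
  ⟨.x, T22, (A3 (K (.ofNat 8372498634648)))⟩,
  ⟨.x, T23, (B (K (.negSucc 73839617690927)) (K (.ofNat 29938312711080)) N N)⟩,
  ⟨.x, T25, (B (K (.ofNat 18869048197617)) (K (.negSucc 27647205292079)) N N)⟩,
  ⟨.z, T15, (A0 (K (.negSucc 62377087254836)))⟩,
  ⟨.z, T17, (A0 (K (.ofNat 40696107799890)))⟩,
  ⟨.x, T34, (K (.negSucc 86721933311))⟩,
  ⟨.x, T40, (K (.negSucc 29053337118983))⟩,
  ⟨.x, T45, (K (.ofNat 33996964808088))⟩,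
  ⟨.x, T47, (K (.negSucc 18500770210967))⟩,
  ⟨.x, T54, (K (.ofNat 383264856576))⟩,
  ⟨.x, T57, (K (.negSucc 4254154664615))⟩,
  ⟨.x, T59, (K (.ofNat 9023818074264))⟩,
  ⟨.z, T37, (K (.ofNat 3850289386992))⟩] c_040 c_041 (.node [⟨.x, .z, (B (B (K (.ofNat 44864620131984)) (K (.ofNat 80211764258640)) N N) (B (K (.ofNat 235304724998121)) (K (.ofNat 9670470948)) N N) N N)⟩,
  ⟨.x, T0, (B (K (.ofNat 161442785092200)) (K (.ofNat 99763148087712)) N N)⟩,
  ⟨.x, T2, (B (K (.negSucc 63733668329600)) (K (.negSucc 60937057601207)) N N)⟩,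
  ⟨.x, T9, (K (.ofNat 624230592768))⟩,
  ⟨.x, T15, (K (.negSucc 109193163573779))⟩,
  ⟨.x, T17, (K (.ofNat 61145420311224))⟩,
  ⟨.x, T22, (K (.negSucc 27088846847))⟩] (.node [⟨.x, .z, (B (K (.negSucc 55388258541800)) (K (.ofNat 8553772497816)) N N)⟩,
  ⟨.x, T0, (K (.ofNat 8969640380568))⟩,
  ⟨.x, T2, (K (.negSucc 8372498634647))⟩] (.node [⟨.x, .z, (K (.negSucc 8345409787799))⟩] .nil .nil .nil .nil .nil .nil) (.node [⟨.x, .z, (K (.ofNat 105560906567904))⟩] .nil .nil .nil .nil .nil .nil) .nil .nil .nil .nil) (.node [⟨.x, .z, (B (K (.ofNat 437110942656207)) (K (.ofNat 286780059900522)) N N)⟩,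
  ⟨.x, T0, (K (.ofNat 155619861304914))⟩,
  ⟨.x, T2, (K (.negSucc 235091421033497))⟩] (.node [⟨.x, .z, (K (.negSucc 174062310584417))⟩] .nil .nil .nil .nil .nil .nil) (.node [⟨.x, .z, (K (.negSucc 174106329960545))⟩] .nil .nil .nil .nil .nil .nil) .nil .nil .nil .nil) .nil .nil .nil .nil) (.node [⟨.x, .z, (B (B (K (.negSucc 164877882572519)) (K (.negSucc 345131334050453)) N N) (B (K (.ofNat 928225392627828)) (K (.ofNat 1047175375004106)) N N) N N)⟩,
  ⟨.x, T0, (B (K (.ofNat 189369224560116)) (K (.ofNat 95603012681550)) N N)⟩,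
  ⟨.x, T2, (B (K (.negSucc 499136983879163)) (K (.ofNat 23469336758604)) N N)⟩,
  ⟨.x, T9, (K (.negSucc 41207748459431))⟩,
  ⟨.x, T15, (K (.ofNat 509434603673460))⟩,
  ⟨.x, T17, (K (.negSucc 402705625540259))⟩,
  ⟨.x, T22, (K (.negSucc 372419056444307))⟩] (.node [⟨.x, .z, (B (K (.negSucc 379880244355742)) (K (.negSucc 591997418905991)) N N)⟩,
  ⟨.x, T0, (K (.negSucc 514649393811155))⟩,
  ⟨.x, T2, (K (.ofNat 52793502989760))⟩] (.node [⟨.x, .z, (K (.ofNat 433706957879532))⟩] .nil .nil .nil .nil .nil .nil) (.node [⟨.x, .z, (K (.negSucc 341676250413131))⟩] .nil .nil .nil .nil .nil .nil) .nil .nil .nil .nil) (.node [⟨.x, .z, (B (K (.negSucc 667631218794647)) (K (.ofNat 954138744224166)) N N)⟩,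
  ⟨.x, T0, (K (.negSucc 11232048187307))⟩,
  ⟨.x, T2, (K (.negSucc 607412097283181))⟩] (.node [⟨.x, .z, (K (.negSucc 629496655300325))⟩] .nil .nil .nil .nil .nil .nil) (.node [⟨.x, .z, (K (.negSucc 540995475781289))⟩] .nil .nil .nil .nil .nil .nil) .nil .nil .nil .nil) .nil .nil .nil .nil) .nil .nil)

def c_050 : Cert := (.node [⟨.x, .z, (B (A2 (K (.negSucc 4418831626903808))) (B N N (K (.ofNat 793222785539811)) (K (.ofNat 4125281282363124))) (B (K (.ofNat 3763908857000400)) (K (.ofNat 1783063606770414)) N N) (B (K (.negSucc 125127089498627)) (K (.negSucc 1283338279066040)) N N))⟩,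
  ⟨.x, T0, (B N N (K (.ofNat 409275565155747)) (K (.ofNat 4793780774720169)))⟩,
  ⟨.x, T2, (B N N (K (.ofNat 4397667359213088)) (K (.ofNat 121517874379926)))⟩,
  ⟨.x, T3, (B (K (.negSucc 833646510331658)) (K (.negSucc 1982513855621087)) N N)⟩,
  ⟨.z, T0, (A0 (K (.ofNat 4693228452252882)))⟩,
  ⟨.x, T11, (K (.negSucc 463741846476830))⟩,
  ⟨.x, T18, (K (.ofNat 1511911706799897))⟩,
  ⟨.x, T23, (K (.negSucc 748041906071249))⟩,
  ⟨.x, T25, (K (.negSucc 101885664670937))⟩,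
  ⟨.z, T15, (K (.negSucc 234489962216708))⟩,
  ⟨.z, T17, (K (.ofNat 281330141451813))⟩] (.node [⟨.x, .z, (B N N (K (.negSucc 1223991896278940)) (K (.negSucc 4978950681237695)))⟩,
  ⟨.x, T3, (K (.negSucc 5586408616414364))⟩,
  ⟨.z, T0, (K (.negSucc 4862582356833485))⟩] .nil .nil (.node [⟨.x, .z, (K (.ofNat 639768021505371))⟩] .nil .nil .nil .nil .nil .nil) (.node [⟨.x, .z, (K (.ofNat 5361027934931757))⟩] .nil .nil .nil .nil .nil .nil) .nil .nil) (.node [⟨.x, .z, (B N N (K (.ofNat 4908477649187070)) (K (.ofNat 532899859861872)))⟩,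
  ⟨.x, T3, (K (.negSucc 917060155961858))⟩,
  ⟨.z, T0, (K (.ofNat 4675397671702314))⟩] .nil .nil (.node [⟨.x, .z, (K (.negSucc 3838958128361699))⟩] .nil .nil .nil .nil .nil .nil) (.node [⟨.x, .z, (K (.ofNat 392313236844303))⟩] .nil .nil .nil .nil .nil .nil) .nil .nil) (.node [⟨.x, .z, (B (K (.ofNat 258668829807156)) (K (.ofNat 3326150434371831)) N N)⟩,
  ⟨.x, T0, (K (.ofNat 4145169200390613))⟩,
  ⟨.x, T2, (K (.ofNat 305948805268419))⟩] (.node [⟨.x, .z, (K (.ofNat 305948805268419))⟩] .nil .nil .nil .nil .nil .nil) (.node [⟨.x, .z, (K (.negSucc 3499818556263992))⟩] .nil .nil .nil .nil .nil .nil) .nil .nil .nil .nil) (.node [⟨.x, .z, (B (K (.negSucc 4559751531680279)) (K (.negSucc 3046822692756911)) N N)⟩,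
  ⟨.x, T0, (K (.ofNat 590825654898552))⟩,
  ⟨.x, T2, (K (.ofNat 4383486868120515))⟩] (.node [⟨.x, .z, (K (.ofNat 4853503048176360))⟩] .nil .nil .nil .nil .nil .nil) (.node [⟨.x, .z, (K (.negSucc 118707957296414))⟩] .nil .nil .nil .nil .nil .nil) .nil .nil .nil .nil) .nil .nil)

def c_051 : Cert := (.node [⟨.x, .z, (B (A2 (K (.ofNat 2294377180769016))) (B N N (K (.negSucc 55450804871795)) (K (.negSucc 2217352134861677))) (B (K (.negSucc 2592152444325638)) (K (.negSucc 1391030430536171)) N N) (B (K (.negSucc 527961037894883)) (K (.ofNat 1571885100389799)) N N))⟩,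
  ⟨.x, T0, (B N N (K (.negSucc 16817175413378)) (K (.negSucc 1475588475384812)))⟩,
  ⟨.x, T2, (B N N (K (.negSucc 1581645773788265)) (K (.negSucc 38922107592407)))⟩,
  ⟨.x, T3, (B (K (.negSucc 401735475389120)) (K (.ofNat 2111804100977952)) N N)⟩,
  ⟨.z, T0, (A0 (K (.negSucc 2168355044197430)))⟩,
  ⟨.x, T11, (K (.negSucc 274800431319794))⟩,
  ⟨.x, T18, (K (.ofNat 317455853206872))⟩,
  ⟨.x, T23, (K (.negSucc 459214297884578))⟩,
  ⟨.x, T25, (K (.ofNat 122172237439728))⟩,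
  ⟨.z, T15, (K (.ofNat 485699557791921))⟩,
  ⟨.z, T17, (K (.negSucc 275414698434107))⟩] (.node [⟨.x, .z, (B N N (K (.negSucc 45789993662942)) (K (.ofNat 2240794799389152)))⟩,
  ⟨.x, T3, (K (.ofNat 1406613598160436))⟩,
  ⟨.z, T0, (K (.ofNat 1492057499683302))⟩] .nil .nil (.node [⟨.x, .z, (K (.negSucc 200302832128085))⟩] .nil .nil .nil .nil .nil .nil) (.node [⟨.x, .z, (K (.negSucc 848511112522091))⟩] .nil .nil .nil .nil .nil .nil) .nil .nil) (.node [⟨.x, .z, (B N N (K (.negSucc 1619567149188758)) (K (.ofNat 835059593254824)))⟩,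
  ⟨.x, T3, (K (.ofNat 107278465118568))⟩,
  ⟨.z, T0, (K (.negSucc 1604682828464462))⟩] .nil .nil (.node [⟨.x, .z, (K (.ofNat 1358469305100207))⟩] .nil .nil .nil .nil .nil .nil) (.node [⟨.x, .z, (K (.negSucc 169062230526851))⟩] .nil .nil .nil .nil .nil .nil) .nil .nil) (.node [⟨.x, .z, (B (K (.ofNat 580759569423192)) (K (.negSucc 414419411434487)) N N)⟩,
  ⟨.x, T0, (K (.negSucc 1750922739300857))⟩,
  ⟨.x, T2, (K (.negSucc 286741928424239))⟩] (.node [⟨.x, .z, (K (.ofNat 670984245932904))⟩] .nil .nil .nil .nil .nil .nil) (.node [⟨.x, .z, (K (.ofNat 1103556072809067))⟩] .nil .nil .nil .nil .nil .nil) .nil .nil .nil .nil) (.node [⟨.x, .z, (B (K (.ofNat 2487966738715773)) (K (.ofNat 353232858607128)) N N)⟩,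
  ⟨.x, T0, (K (.negSucc 224389467676076))⟩,
  ⟨.x, T2, (K (.negSucc 2380119420670751))⟩] (.node [⟨.x, .z, (K (.negSucc 1658885837155307))⟩] .nil .nil .nil .nil .nil .nil) (.node [⟨.x, .z, (K (.negSucc 222273647056598))⟩] .nil .nil .nil .nil .nil .nil) .nil .nil .nil .nil) .nil .nil)

def c_05 : Cert := (.node [⟨.x, .z, (B (B (A2 (K (.negSucc 407653835537627))) N (B (K (.ofNat 845371650181611)) (K (.ofNat 1859068080922833)) N N) N) (B (A2 (K (.negSucc 379843623700091))) (B N N (K (.negSucc 637706745967520)) (K (.negSucc 703303051080839))) (B (K (.ofNat 1028521353368532)) (K (.negSucc 105158369017826)) N N) (B (K (.negSucc 128070010363763)) (K (.negSucc 1121668218214436)) N N)) (B (B (K (.negSucc 93367248766448)) (K (.negSucc 1494871860004811)) N N) (B (K (.ofNat 189298912397667)) (K (.negSucc 1343250330469388)) N N) N N) (B (B (K (.negSucc 165769707413375)) (K (.ofNat 218923832134926)) N N) (B (K (.ofNat 228488955722163)) (K (.ofNat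 200858799632265)) N N) N N))⟩,
  ⟨.x, T0, (B (A2 (K (.negSucc 72902227896458))) (B N N (K (.ofNat 522753475505409)) (K (.ofNat 460950091011090))) (B (K (.ofNat 62090441944938)) (K (.ofNat 129455069365692)) N N) (B (K (.negSucc 395310651899948)) (K (.negSucc 1750750224588602)) N N))⟩,
  ⟨.x, T2, (B (A2 (K (.ofNat 105978058014168))) (B N N (K (.negSucc 165231636002171)) (K (.ofNat 144093782099052))) (B (K (.negSucc 1136476351847621)) (K (.negSucc 2536994449038797)) N N) (B (K (.ofNat 368032081479978)) (K (.negSucc 194702368979024)) N N))⟩,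
  ⟨.x, T3, (B (B (K (.negSucc 416688687844049)) (K (.ofNat 61805431142469)) N N) (B (K (.negSucc 209484463286777)) (K (.ofNat 785426449630860)) N N) N N)⟩,
  ⟨.z, T0, (A0 (B (K (.negSucc 651504061855313)) (K (.negSucc 1873624982286923)) N N))⟩,
  ⟨.x, T9, (B N N (K (.ofNat 189463032957717)) (K (.ofNat 95567627794680)))⟩,
  ⟨.x, T11, (A1 (K (.ofNat 451734129315306)))⟩,
  ⟨.x, T15, (B N N (K (.negSucc 406173832477226)) (K (.negSucc 611115643941263)))⟩,
  ⟨.x, T17, (B N N (K (.ofNat 112403624906871)) (K (.ofNat 647481628102914)))⟩,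
  ⟨.x, T18, (B (K (.negSucc 43729961405522)) (K (.negSucc 808799022539153)) N N)⟩,
  ⟨.x, T22, (A3 (K (.ofNat 53792340247098)))⟩,
  ⟨.x, T23, (B (K (.ofNat 408654933099540)) (K (.ofNat 730966276099971)) N N)⟩,
  ⟨.x, T25, (B (K (.negSucc 365008885309307)) (K (.negSucc 45902977917308)) N N)⟩,
  ⟨.z, T15, (A0 (K (.negSucc 117353880693794)))⟩,
  ⟨.z, T17, (A0 (K (.ofNat 354148202255613)))⟩,
  ⟨.x, T34, (K (.ofNat 247766861357658))⟩,
  ⟨.x, T40, (K (.negSucc 173680130585861))⟩,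
  ⟨.x, T45, (K (.ofNat 628282984505184))⟩,
  ⟨.x, T47, (K (.negSucc 302583595088699))⟩,
  ⟨.x, T54, (K (.ofNat 395481871868652))⟩,
  ⟨.x, T57, (K (.negSucc 320761076276195))⟩,
  ⟨.x, T59, (K (.ofNat 256425117160284))⟩,
  ⟨.z, T37, (K (.negSucc 135529817392889))⟩] c_050 c_051 (.node [⟨.x, .z, (B (B (K (.ofNat 508011632933733)) (K (.negSucc 283515525730277)) N N) (B (K (.negSucc 177459083082692)) (K (.negSucc 2190819520773077)) N N) N N)⟩,
  ⟨.x, T0, (B (K (.ofNat 427538506255416)) (K (.negSucc 1883276922762680)) N N)⟩,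
  ⟨.x, T2, (B (K (.ofNat 700044208414929)) (K (.ofNat 654732289575105)) N N)⟩,
  ⟨.x, T9, (K (.ofNat 422676577320684))⟩,
  ⟨.x, T15, (K (.negSucc 499347081244517))⟩,
  ⟨.x, T17, (K (.negSucc 165831698350625))⟩,
  ⟨.x, T22, (K (.ofNat 549094326040770))⟩] (.node [⟨.x, .z, (B (K (.ofNat 753890726355723)) (K (.ofNat 762817998419619)) N N)⟩,
  ⟨.x, T0, (K (.ofNat 1025509065914856))⟩,
  ⟨.x, T2, (K (.negSucc 53873606787641))⟩] (.node [⟨.x, .z, (K (.negSucc 602913755134715))⟩] .nil .nil .nil .nil .nil .nil) (.node [⟨.x, .z, (K (.negSucc 771471570902117))⟩] .nil .nil .nil .nil .nil .nil) .nil .nil .nil .nil) (.node [⟨.x, .z, (B (K (.ofNat 876991567504257)) (K (.ofNat 1038444327293838)) N N)⟩,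
  ⟨.x, T0, (K (.ofNat 685470643666014))⟩,
  ⟨.x, T2, (K (.ofNat 859746183599778))⟩] (.node [⟨.x, .z, (K (.ofNat 240508432700598))⟩] .nil .nil .nil .nil .nil .nil) (.node [⟨.x, .z, (K (.ofNat 247196727179670))⟩] .nil .nil .nil .nil .nil .nil) .nil .nil .nil .nil) .nil .nil .nil .nil) (.node [⟨.x, .z, (B (B (K (.ofNat 343172587100277)) (K (.ofNat 1179740683994697)) N N) (B (K (.ofNat 64175258646765)) (K (.ofNat 1574795440148589)) N N) N N)⟩,
  ⟨.x, T0, (B (K (.negSucc 193148921733467)) (K (.negSucc 169942218520949)) N N)⟩,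
  ⟨.x, T2, (B (K (.negSucc 393993593079950)) (K (.negSucc 1293718693434344)) N N)⟩,
  ⟨.x, T9, (K (.negSucc 212923430768798))⟩,
  ⟨.x, T15, (K (.ofNat 76619179138473))⟩,
  ⟨.x, T17, (K (.negSucc 428810933597876))⟩,
  ⟨.x, T22, (K (.negSucc 99153167557679))⟩] (.node [⟨.x, .z, (B (K (.negSucc 808572449068163)) (K (.negSucc 2261232215272295)) N N)⟩,
  ⟨.x, T0, (K (.negSucc 485892515669948))⟩,
  ⟨.x, T2, (K (.ofNat 90403025027634))⟩] (.node [⟨.x, .z, (K (.ofNat 243294355138716))⟩] .nil .nil .nil .nil .nil .nil) (.node [⟨.x, .z, (K (.negSucc 189446426065232))⟩] .nil .nil .nil .nil .nil .nil) .nil .nil .nil .nil) (.node [⟨.x, .z, (B (K (.negSucc 383020188940967)) (K (.ofNat 298716363604431)) N N)⟩,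
  ⟨.x, T0, (K (.ofNat 395267098697955))⟩,
  ⟨.x, T2, (K (.ofNat 382193729274960))⟩] (.node [⟨.x, .z, (K (.ofNat 201619345550589))⟩] .nil .nil .nil .nil .nil .nil) (.node [⟨.x, .z, (K (.negSucc 455489031691052))⟩] .nil .nil .nil .nil .nil .nil) .nil .nil .nil .nil) .nil .nil .nil .nil) .nil .nil)

def c_0 : Cert := (.node [⟨.x, .z, (C (C (C N N (A4 (K (.negSucc 178827802417637))) N (A2 (K (.negSucc 230695643413547))) N) N (C (A4 (K (.ofNat 217152829327230))) N N N (A0 (K (.ofNat 65895481142550))) N) N (B (A2 (K (.negSucc 312853859587529))) N (B (K (.negSucc 26916553739825)) (K (.negSucc 1198772702075492)) N N) N) N) (C (C N N (A4 (K (.negSucc 734968397144510))) N (A2 (K (.ofNat 28918699955361))) N) (C N N N (A5 (K (.ofNat 4364987222016))) N (A3 (K (.negSucc 35070422856767)))) N (C (A4 (K (.ofNat 350711359941888))) (C N N N N (K (.ofNat 3498411920348952)) (K (.ofNat 274259041629318))) N N N (B (K (.ofNat 108455286373515)) (K (.negSucc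 6810856450001)) N N)) (B (A2 (K (.ofNat 550910493452907))) (B N N (K (.ofNat 964049327065863)) (K (.negSucc 3074290436503034))) N (B (K (.negSucc 3960751616462753)) (K (.negSucc 507292268001695)) N N)) (B (A2 (K (.negSucc 207183285838016))) (B N N (K (.ofNat 1888931379067830)) (K (.ofNat 170407799485218))) (B (K (.negSucc 697015200163958)) (K (.ofNat 4278662058012678)) N N) (B (K (.ofNat 292591765443744)) (K (.ofNat 64771983910188)) N N))) (C (C (A4 (K (.negSucc 192866595289883))) N N N (B (K (.negSucc 30991197477725)) (K (.ofNat 2355573041463033)) N N) N) (C (A4 (K (.ofNat 1648003452588945))) (C N N N N (K (.ofNat 2503788899700915)) (K (.negSucc 60476241310802))) N N (B (K (.negSucc 1371426123154337)) (K (.ofNat 1788663254814603)) N N) (B (K (.negSucc 944538233957252)) (K (.ofNat 2614848269728932)) N N)) N N (B (B (K (.ofNat 44342288222544)) (K (.negSucc 1567317835187540)) N N) (B (K (.negSucc 364367443087070)) (K (.negSucc 4567647894247745))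 N N) N N) N) (C (C (A4 (K (.negSucc 21191277050909))) N N N (B (K (.negSucc 213490875736133)) (K (.negSucc 1321951109462162)) N N) N) (C (A4 (K (.negSucc 1038206492948168))) (C N N N N (K (.negSucc 1154877057160487)) (K (.negSucc 364399597821788))) N N (B (K (.negSucc 3806437230768329)) (K (.ofNat 2012748790669344)) N N) (B (K (.negSucc 103397047847324)) (K (.ofNat 22449748308372)) N N)) N N (B (B (K (.ofNat 4512470522146398)) (K (.negSucc 2014660771901081)) N N) (B (K (.ofNat 1771485291793899)) (K (.negSucc 2413258400236076)) N N) N N) (B (B (K (.ofNat 4248535664376)) (K (.ofNat 1213552893442275)) N N) (B (K (.ofNat 1207890697508163)) (K (.negSucc 101932583803955)) N N) N N)) (B (B (A2 (K (.negSucc 135522366048035))) N (B (K (.negSucc 167640707418989)) (K (.negSucc 2145585201638579)) N N) N) (B (A2 (K (.ofNat 904868825125617))) (B N N (K (.negSucc 2627885197207181)) (K (.ofNat 3226515247071975))) (B (K (.ofNat 1927990889215470))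 (K (.negSucc 2097113365076390)) N N) (B (K (.ofNat 4451184867991626)) (K (.negSucc 2351304027145289)) N N)) (B (B (K (.ofNat 68478272144676)) (K (.ofNat 1949123529483453)) N N) (B (K (.ofNat 3778790612654853)) (K (.ofNat 23413766912928)) N N) N N) (B (B (K (.negSucc 4341632046695765)) (K (.ofNat 616027969107099)) N N) (B (K (.ofNat 792540120736134)) (K (.ofNat 784445312440476)) N N) N N)) (B (B (A2 (K (.negSucc 133803203158223))) N (B (K (.negSucc 185882780970749)) (K (.ofNat 714396876683616)) N N) N) (B (A2 (K (.negSucc 965928450351815))) (B N N (K (.negSucc 1217598753237818)) (K (.negSucc 93378901576889))) (B (K (.negSucc 1137269230638200)) (K (.negSucc 2412782233273592)) N N) (B (K (.ofNat 413129208292254)) (K (.ofNat 12747877198212)) N N)) (B (B (K (.ofNat 193589784436815)) (K (.negSucc 1069339885283006)) N N) (B (K (.negSucc 2150752067990603)) (K (.negSucc 1482426855059543)) N N) N N) (B (B (K (.negSucc 292586040383183)) (K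 (.ofNat 1397204701938558)) N N) (A0 (K (.ofNat 1462834639507626))) N N)))⟩,
  ⟨.x, .w, (B (B (A2 (A2 (K (.negSucc 59855168730095)))) N (B (A2 (K (.ofNat 9311832751572))) N (A0 (K (.ofNat 74646013898358))) N) N) (B (A2 (A2 (K (.negSucc 267045254410247)))) (A3 (A3 (K (.negSucc 54492136028225)))) (B (A2 (K (.ofNat 426804052638798))) (A2 (K (.negSucc 919775981026025))) N (B (K (.negSucc 258711430187519)) (K (.negSucc 598414212667907)) N N)) (B (A2 (K (.negSucc 33377185402055))) (B N N (K (.negSucc 1212795403568837)) (K (.negSucc 484660154991743))) (B (K (.negSucc 511228468503593)) (K (.negSucc 1049886710903159)) N N) (B (K (.negSucc 144593438039639)) (K (.negSucc 55169284332221)) N N))) (B (B (A2 (K (.ofNat 85180670366418))) N (B (K (.negSucc 152883836760425)) (K (.ofNat 253684814439348)) N N) N) (B (A2 (K (.ofNat 322365023223588))) (B N N (K (.negSucc 822467320640219)) (K (.ofNat 246559070086536))) (B (K (.negSucc 581026874725961))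 (K (.negSucc 171689171302997)) N N) (B (K (.ofNat 478722474584856)) (K (.ofNat 241289901507390)) N N)) (B (B (K (.ofNat 19124627107824)) (K (.ofNat 441417778334568)) N N) (B (K (.negSucc 86191169057891)) (K (.ofNat 408962139668442)) N N) N N) (B (B (K (.negSucc 95189316167807)) (K (.ofNat 547026939661734)) N N) (B (K (.negSucc 429786257706125)) (K (.negSucc 271666098725993)) N N) N N)) (B (B (A2 (K (.negSucc 123005423849777))) N (B (K (.negSucc 385434317876087)) (K (.negSucc 520139378369231)) N N) N) (B (A2 (K (.negSucc 58353591162815))) (B N N (K (.ofNat 21575122950252)) (K (.ofNat 313673623469358))) (B (K (.ofNat 493357791173220)) (K (.ofNat 663949695286134)) N N) (B (K (.ofNat 298134013223628)) (K (.ofNat 61457390799042)) N N)) (B (B (K (.negSucc 43457610120659)) (K (.ofNat 831780639472770)) N N) (B (K (.ofNat 300168833654862)) (K (.ofNat 916372824941124)) N N) N N) (B (B (K (.negSucc 292151821174199)) (K (.ofNat 141948482722290))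 N N) (B (K (.ofNat 209653340645016)) (K (.ofNat 103210413474744)) N N) N N)))⟩,
  ⟨.z, .w, (B (B (B (A2 (K (.negSucc 37893341886713))) N (A0 (K (.negSucc 38308447339391))) N) N (B (B (K (.ofNat 69625084786524)) (K (.ofNat 200376470622558)) N N) (B (K (.negSucc 93339929727953)) (K (.ofNat 186641187218604)) N N) N N) N) (B (B (A2 (K (.ofNat 409380972281622))) N (B (K (.ofNat 201434219077992)) (K (.negSucc 588577662691919)) N N) N) (B (A2 (K (.ofNat 337594053617958))) (B N N (K (.negSucc 199783189344173)) (K (.ofNat 234646876362180))) (B (K (.negSucc 579163760711435)) (K (.ofNat 662259334784850)) N N) (B (K (.ofNat 212441864720052)) (K (.ofNat 61515759811326)) N N)) (B (B (K (.negSucc 1656289500278993)) (K (.ofNat 35752840339158)) N N) (B (K (.ofNat 999580353623286)) (K (.ofNat 1630718346940740)) N N) N N) (B (B (K (.ofNat 307337873860782)) (K (.negSucc 364978999999325)) N N) (B (K (.negSucc 342849040799135)) (K (.ofNat 102338602317288))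 N N) N N)) (B (B (B (K (.ofNat 3907395229752)) (K (.negSucc 409927916880797)) N N) (B (K (.ofNat 907482623995086)) (K (.negSucc 92451792195119)) N N) N N) (B (B (K (.negSucc 373474992814061)) (K (.negSucc 877616131132925)) N N) (B (K (.ofNat 509189277282258)) (K (.ofNat 216736466441622)) N N) N N) N N) (B (B (B (K (.ofNat 283465313259912)) (K (.negSucc 49409386419059)) N N) (B (K (.negSucc 890258777294333)) (K (.negSucc 1050512650103045)) N N) N N) (B (B (K (.negSucc 643533331056521)) (K (.negSucc 522898661125379)) N N) (B (K (.ofNat 312886762848396)) (K (.negSucc 193735457696897)) N N) N N) N N))⟩,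
  ⟨.x, T0, (C (C N N (A4 (K (.ofNat 9290748108384))) N (A2 (K (.negSucc 42012764549855))) N) (C N N N (A5 (K (.ofNat 65375937315630))) (A3 (K (.ofNat 36622828873116))) (B N N (K (.negSucc 17088759242711)) (K (.ofNat 42860163517344)))) (C (A4 (K (.negSucc 37651711384547))) (C N N N N (K (.negSucc 83147527883276)) (K (.ofNat 49954318011504))) N N (B (K (.ofNat 14482873700820)) (K (.ofNat 87010492073022)) N N) N) (C (A4 (K (.negSucc 254442216445667))) (C N N N N (K (.ofNat 436914425704347)) (K (.ofNat 241662271426263))) N N (B (K (.negSucc 211291894134044)) (K (.ofNat 178184174718060)) N N) (B (K (.ofNat 49268248957485)) (K (.negSucc 2638886452847)) N N)) (B (A2 (K (.negSucc 13450190404679))) (B N N (K (.ofNat 104925327938964)) (K (.ofNat 61916550232626))) (B (K (.ofNat 6315970506984)) (K (.ofNat 18858359441592)) N N) (B (K (.ofNat 331576674017499)) (K (.negSucc 53007627718583)) N N)) (B (A2 (K (.ofNat 36385797330666))) (B N N (K (.ofNat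 197108373960216)) (K (.ofNat 170335932635682))) (B (K (.negSucc 54988045891658)) (K (.negSucc 22267555438121)) N N) (B (K (.ofNat 247242402812016)) (K (.ofNat 64807757491500)) N N)))⟩,
  ⟨.x, T1, (B (A2 (A2 (K (.negSucc 5324757350471)))) (B N N (A3 (K (.negSucc 117484310498741))) (B N N (K (.negSucc 61946561237075)) (K (.ofNat 31465124809182)))) (B (A2 (K (.negSucc 3364558005167))) (B N N (K (.ofNat 13070243950416)) (K (.ofNat 105902912622870))) (B (K (.negSucc 1191735907055)) (K (.negSucc 90189430252559)) N N) (B (K (.ofNat 406043685617436)) (K (.negSucc 97075891618955)) N N)) (B (A2 (K (.negSucc 259633206726191))) (B N N (K (.ofNat 772588637100288)) (K (.ofNat 428753333598408))) (B (K (.ofNat 198686396637450)) (K (.negSucc 220716409405157)) N N) (B (K (.ofNat 172317293174646)) (K (.ofNat 55173480572862)) N N)))⟩,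
  ⟨.x, T2, (C (C N N (A4 (K (.ofNat 177617578054518))) N (A2 (K (.ofNat 227776765378572))) N) (C N N N (A5 (K (.negSucc 25452176255756))) (A3 (K (.negSucc 233219244433121))) (B N N (K (.ofNat 54110985353136)) (K (.negSucc 45683863336943)))) (C (A4 (K (.negSucc 283465139285753))) (C N N N N (K (.ofNat 435822881701248)) (K (.ofNat 273001442027868))) N N (B (K (.negSucc 168790345198253)) (K (.ofNat 135123391470978)) N N) N) (C (A4 (K (.ofNat 47414144684124))) (C N N N N (K (.negSucc 154099631811239)) (K (.negSucc 19234114588403))) N N (B (K (.ofNat 259100114758938)) (K (.ofNat 101095371955431)) N N) (B (K (.ofNat 73037855384154)) (K (.negSucc 3157556248655)) N N)) (B (A2 (K (.ofNat 346362485887656))) (B N N (K (.negSucc 548736850825739)) (K (.negSucc 445627079778095))) (B (K (.negSucc 64572267142187)) (K (.ofNat 382435503744348)) N N) (B (K (.negSucc 346310227000979)) (K (.ofNat 72901288019214)) N N)) (B (A2 (K (.ofNat 62563214358126)))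 (B N N (K (.negSucc 45443519545337)) (K (.negSucc 54177693695))) (B (K (.ofNat 90124973432262)) (K (.negSucc 52716058203851)) N N) (A0 (K (.ofNat 249912304128)))))⟩,
  ⟨.x, T3, (C (C (A4 (K (.negSucc 20774485009367))) N N N (B (K (.negSucc 110392341206003)) (K (.negSucc 22207106461778)) N N) N) (C (A4 (K (.ofNat 184976650061964))) (C N N N N (K (.negSucc 536100873660989)) (K (.negSucc 279844881513767))) N N (B (K (.ofNat 66334470616332)) (K (.negSucc 150189635169737)) N N) (B (K (.negSucc 196586049028319)) (K (.ofNat 7223112537912)) N N)) N N (B (B (K (.ofNat 25403980580928)) (K (.ofNat 127067584404132)) N N) (B (K (.ofNat 58302929492550)) (K (.negSucc 70373954368169)) N N) N N) (B (B (K (.negSucc 71256425073353)) (K (.negSucc 66597979777577)) N N) (B (K (.negSucc 103363203823001)) (K (.negSucc 102011999407667)) N N) N N))⟩,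
  ⟨.x, T4, (B (B (A2 (K (.ofNat 173251925463402))) N (B (K (.ofNat 94648438433760)) (K (.ofNat 498046679500536)) N N) N) (B (A2 (K (.ofNat 131421786641226))) (B N N (K (.ofNat 169208607842022)) (K (.negSucc 133700908548827))) (B (K (.negSucc 329978227718483)) (K (.ofNat 360028664205246)) N N) (B (K (.negSucc 576456620283485)) (K (.negSucc 50553666273947)) N N)) (B (B (K (.negSucc 50145600248315)) (K (.negSucc 120857085303119)) N N) (B (K (.negSucc 464770369520117)) (K (.negSucc 244783281238775)) N N) N N) (B (B (K (.ofNat 174219221194578)) (K (.negSucc 271064497310333)) N N) (B (K (.negSucc 318269672592731)) (K (.negSucc 102918876892775)) N N) N N))⟩,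
  ⟨.x, T5, (B (A2 (A2 (K (.ofNat 61228216264464)))) (B N N (A3 (K (.negSucc 233249576254397))) (B N N (K (.negSucc 43146451283921)) (K (.negSucc 21696732483515)))) (B (A2 (K (.negSucc 8025461067347))) (B N N (K (.ofNat 24741062206254)) (K (.ofNat 205881154529508))) (B (K (.negSucc 73892841778565)) (K (.negSucc 188291179428497)) N N) (B (K (.ofNat 432986187531528)) (K (.negSucc 112167957924917)) N N)) (B (A2 (K (.negSucc 135219804540245))) (B N N (K (.ofNat 224473266074682)) (K (.ofNat 3065489929728))) (B (K (.ofNat 249572883977694)) (K (.ofNat 165420740564946)) N N) (B (K (.ofNat 119269237446054)) (K (.ofNat 247537700352)) N N)))⟩,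
  ⟨.x, T6, (B (B (A2 (K (.ofNat 69936818591970))) N (B (K (.ofNat 79840074605520)) (K (.ofNat 390433613105682)) N N) N) (B (A2 (K (.negSucc 74593846233179))) (B N N (K (.ofNat 425640941805750)) (K (.ofNat 92973381575034))) (B (K (.negSucc 295839344982491)) (K (.ofNat 168344772118416)) N N) (B (K (.negSucc 583530886077677)) (K (.ofNat 4590290104674)) N N)) (B (B (K (.negSucc 72923772952691)) (K (.negSucc 218487090046949)) N N) (B (K (.negSucc 459323636700365)) (K (.negSucc 144067726546703)) N N) N N) (B (B (K (.ofNat 293979718845432)) (K (.negSucc 169961111019305)) N N) (B (K (.negSucc 153744635764781)) (K (.ofNat 1630468824480)) N N) N N))⟩,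
  ⟨.z, T0, (C (C (A4 (K (.negSucc 214281360045179))) N N N (B (K (.negSucc 151044708837329)) (K (.ofNat 360074048107536)) N N) N) (C N (C N N N N (K (.negSucc 1038616446412646)) (K (.negSucc 388015453378223))) N N N (B (K (.negSucc 492350980978214)) (K (.ofNat 29779274554182)) N N)) N N (B (B (K (.ofNat 43514280348768)) (K (.ofNat 207505161398412)) N N) (A0 (K (.ofNat 171700465867830))) N N) (A1 (A1 (K (.negSucc 101932583803955)))))⟩,
  ⟨.z, T1, (B (B (A2 (K (.negSucc 102790050233525))) N (B (K (.negSucc 12293442640643)) (K (.negSucc 316906093971665)) N N) N) (B N (B N N (K (.negSucc 778606825228787)) (K (.negSucc 364532741875949))) N (B (K (.ofNat 292347662664852)) (K (.negSucc 68053770782345)) N N)) (B (B (K (.ofNat 54444589573356)) (K (.ofNat 166503226132746)) N N) (A0 (K (.ofNat 122946283282518))) N N) (A1 (A1 (K (.negSucc 96080959951343)))))⟩,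
  ⟨.z, T4, (B (B (B (K (.ofNat 5727901665168)) (K (.negSucc 69345630286613)) N N) (B (K (.ofNat 140589399226464)) (K (.ofNat 79143845230224)) N N) N N) (B (B (K (.ofNat 55381094711010)) (K (.ofNat 81150828027480)) N N) (B (K (.ofNat 198720138296754)) (K (.ofNat 193899257429202)) N N) N N) N N)⟩,
  ⟨.z, T5, (B (B (A2 (K (.negSucc 146298285867149))) N (B (K (.ofNat 103118087164830)) (K (.negSucc 46081675853225)) N N) N) (B N (B N N (K (.negSucc 334311778316273)) (K (.negSucc 94710484345529))) N (B (K (.ofNat 239072565099132)) (K (.ofNat 14061375541380)) N N)) N N)⟩,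
  ⟨.z, T6, (A1 (B (B (K (.negSucc 15558186616775)) (K (.negSucc 5816766230585)) N N) (B (K (.ofNat 116838531000234)) (K (.ofNat 4122949544352)) N N) N N))⟩,
  ⟨.x, T9, (C N N (A4 (K (.ofNat 4157877357576))) (C N N N N (K (.negSucc 21947914684709)) (K (.negSucc 143729220095))) (B N N (K (.negSucc 23632102403135)) (K (.ofNat 9175608504486))) (B N N (K (.negSucc 3822689657501)) (K (.negSucc 206649874943))))⟩,
  ⟨.x, T10, (A3 (B N N (K (.ofNat 21997534636116)) (K (.ofNat 6051758412960))))⟩,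
  ⟨.x, T11, (C N (C N N N N (K (.ofNat 23655291326928)) (K (.negSucc 774431186687))) N N (B (K (.ofNat 29506664062080)) (K (.negSucc 17100353219687)) N N) (A1 (K (.ofNat 347345708544))))⟩,
  ⟨.x, T12, (B N (B N N (K (.negSucc 3798891617183)) (K (.ofNat 459785362176))) N (A1 (K (.negSucc 6528004571807))))⟩,
  ⟨.x, T13, (B (B (K (.ofNat 1011332949408)) (K (.negSucc 8446818591917)) N N) (B (K (.negSucc 27051303098663)) (K (.ofNat 1732490048808)) N N) N N)⟩,
  ⟨.x, T15, (C N N (A4 (K (.ofNat 14594000653944))) (C N N N N (K (.negSucc 54733986214847)) (K (.negSucc 61193001992237))) (B N N (K (.ofNat 9149487803496)) (K (.negSucc 116508425751269))) (B N N (K (.ofNat 47238182291502)) (K (.negSucc 77796857027807))))⟩,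
  ⟨.x, T16, (B N N (B N N (K (.negSucc 17312519351087)) (K (.negSucc 98135046564713))) (B N N (K (.ofNat 103046816542158)) (K (.negSucc 17023442108867))))⟩,
  ⟨.x, T17, (C N N (A4 (K (.negSucc 8917503776927))) (C N N N N (K (.ofNat 54566823194226)) (K (.ofNat 15198976313973))) (B N N (K (.negSucc 7490009484287)) (K (.ofNat 87362121271518))) (B N N (K (.negSucc 55977032569049)) (K (.ofNat 45738041030640))))⟩,
  ⟨.x, T18, (C (A4 (K (.ofNat 45688740561144))) (C N N N N (K (.negSucc 41778761084576)) (K (.negSucc 47153651088464))) N N (B (K (.ofNat 92904088362732)) (K (.negSucc 5210244405368)) N N) (B (K (.negSucc 25403716627226)) (K (.ofNat 17379852381612)) N N))⟩,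
  ⟨.x, T19, (B (A2 (K (.negSucc 3509196939359))) (B N N (K (.ofNat 18967044412206)) (K (.ofNat 73634549742504))) (B (K (.ofNat 22082327773992)) (K (.ofNat 107541024103962)) N N) (B (K (.negSucc 182567154502547)) (K (.ofNat 20725858482570)) N N))⟩,
  ⟨.x, T20, (B N N (B N N (K (.negSucc 3705967065383)) (K (.negSucc 95662002910553))) (B N N (K (.ofNat 111675586669236)) (K (.negSucc 17465035658435))))⟩,
  ⟨.x, T21, (B (A2 (K (.ofNat 55683312869214))) N (B (K (.negSucc 88333230169853)) (K (.ofNat 93505155974784)) N N) (B (K (.negSucc 188197266583007)) (K (.ofNat 9450056112462)) N N))⟩,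
  ⟨.x, T22, (C N N N (C N N N N (K (.negSucc 46218843922337)) (K (.negSucc 233798068223))) N (A3 (K (.negSucc 298788009983))))⟩,
  ⟨.x, T23, (C (A4 (K (.ofNat 59053146082812))) (C N N N N (K (.ofNat 55150137201447)) (K (.negSucc 4516800421760))) N N (B (K (.ofNat 97218004632048)) (K (.ofNat 102906387384759)) N N) (B (K (.ofNat 116168314914243)) (K (.negSucc 7329526245809)) N N))⟩,
  ⟨.x, T24, (B (A2 (K (.negSucc 49137316071965))) (B N N (K (.negSucc 81294422349293)) (K (.negSucc 50804940712895))) (B (K (.ofNat 81418344588918)) (K (.ofNat 67448856019122)) N N) (B (K (.ofNat 156210994755936)) (K (.negSucc 6823541888711)) N N))⟩,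
  ⟨.x, T25, (C (A4 (K (.negSucc 39308840870327))) (C N N N N (K (.ofNat 33674596557084)) (K (.ofNat 43347038456772))) N N (B (K (.negSucc 83075363905787)) (K (.negSucc 103777285038686)) N N) (B (K (.negSucc 73483743043673)) (K (.ofNat 3103378554960)) N N))⟩,
  ⟨.x, T26, (B (B (K (.ofNat 3232546698528)) (K (.negSucc 74848641541667)) N N) (B (K (.negSucc 2022359150753)) (K (.ofNat 14727996955872)) N N) N N)⟩,
  ⟨.x, T27, (B (A2 (K (.negSucc 57304296121733))) (B N N (K (.negSucc 45195297362261)) (K (.ofNat 1032476751360))) (B (K (.ofNat 94669629584310)) (K (.ofNat 88606903676292)) N N) (B (K (.ofNat 121246379877798)) (K (.ofNat 247537700352)) N N))⟩,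
  ⟨.x, T28, (B (B (K (.ofNat 2192291080488)) (K (.negSucc 102344286953591)) N N) (A1 (K (.ofNat 13559195851488))) N N)⟩,
  ⟨.x, T29, (A3 (B N N (K (.ofNat 35250639077664)) (K (.negSucc 1862767300607))))⟩,
  ⟨.x, T30, (B N (B N N (K (.negSucc 38416462048151)) (K (.negSucc 1331582768639))) N (A1 (K (.negSucc 35773581311))))⟩,
  ⟨.x, T31, (B (B (K (.ofNat 527749792488)) (K (.negSucc 25834376785535)) N N) (A1 (K (.negSucc 115650519551))) N N)⟩,
  ⟨.z, T15, (C (A4 (K (.negSucc 37956783777803))) (A5 (K (.ofNat 43585517661255))) N N (B (K (.negSucc 96019287110135)) (K (.ofNat 27341423776377)) N N) (A1 (K (.negSucc 4567969142369))))⟩,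
  ⟨.z, T16, (B (A2 (K (.ofNat 65547964180350))) (A3 (K (.negSucc 51540929408447))) (A0 (K (.negSucc 90562480777277))) N)⟩,
  ⟨.z, T17, (C (A4 (K (.negSucc 30098496808331))) (A5 (K (.ofNat 8743317380316))) N N (A0 (K (.negSucc 5789792071043))) N)⟩,
  ⟨.x, T34, (A5 (K (.negSucc 72895334399)))⟩,
  ⟨.x, T35, (A3 (K (.negSucc 384941113343)))⟩,
  ⟨.x, T78, (A1 (K (.negSucc 525531691007)))⟩,
  ⟨.x, T36, (A0 (K (.ofNat 444311257968)))⟩,
  ⟨.x, T40, (C N N N N (K (.negSucc 27718287696503)) (K (.ofNat 17426074253040)))⟩,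
  ⟨.x, T41, (B N N (K (.ofNat 5321132492616)) (K (.ofNat 7894417910688)))⟩,
  ⟨.x, T43, (B N N (K (.ofNat 13219050998736)) (K (.negSucc 6820032920543)))⟩,
  ⟨.x, T45, (C N N N N (K (.negSucc 1753834238567)) (K (.negSucc 36875973358511)))⟩,
  ⟨.x, T46, (A2 (K (.ofNat 18139406788152)))⟩,
  ⟨.x, T47, (C N N N N (K (.ofNat 4976212735944)) (K (.ofNat 24058746174672)))⟩,
  ⟨.x, T48, (A0 (K (.negSucc 30286892436479)))⟩,
  ⟨.x, T49, (A2 (K (.ofNat 15903811221984)))⟩,
  ⟨.x, T50, (A0 (K (.negSucc 20497874129999)))⟩,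
  ⟨.x, T52, (A2 (K (.ofNat 2177717752368)))⟩,
  ⟨.x, T79, (A0 (K (.negSucc 1173193520975)))⟩,
  ⟨.x, T54, (A5 (K (.negSucc 698392730879)))⟩,
  ⟨.x, T55, (A3 (K (.negSucc 5862225504671)))⟩,
  ⟨.x, T57, (C N N N N (K (.ofNat 21098991250368)) (K (.ofNat 10625811553944)))⟩,
  ⟨.x, T58, (B N N (K (.negSucc 26568640136735)) (K (.negSucc 10424798843543)))⟩,
  ⟨.x, T59, (A5 (K (.negSucc 10253199941783)))⟩,
  ⟨.x, T80, (B (K (.ofNat 19604373723576)) (K (.ofNat 2021211874296)) N N)⟩,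
  ⟨.x, T60, (B N N (K (.negSucc 16963904221055)) (K (.negSucc 2263552656119)))⟩,
  ⟨.x, T81, (B (K (.ofNat 17795588797584)) (K (.ofNat 6878134575000)) N N)⟩,
  ⟨.x, T82, (A0 (K (.ofNat 7482861594216)))⟩,
  ⟨.x, T61, (A3 (K (.ofNat 1968144168960)))⟩,
  ⟨.x, T63, (A3 (K (.ofNat 66468003840)))⟩,
  ⟨.x, T65, (A3 (K (.ofNat 60630218496)))⟩,
  ⟨.x, T83, (A1 (K (.negSucc 20028301055)))⟩,
  ⟨.z, T37, (A4 (K (.ofNat 4218172367616)))⟩,
  ⟨.z, T38, (A2 (K (.ofNat 2903974626816)))⟩,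
  ⟨.z, T42, (A2 (K (.negSucc 10499797344239)))⟩,
  ⟨.x, T84, (K (.ofNat 962191277352))⟩,
  ⟨.x, T72, (K (.ofNat 14673767159952))⟩,
  ⟨.x, T85, (K (.ofNat 11928727027008))⟩,
  ⟨.x, T86, (K (.negSucc 135678820607))⟩,
  ⟨.x, T88, (K (.negSucc 5708292617375))⟩,
  ⟨.x, T89, (K (.negSucc 3168444155687))⟩,
  ⟨.x, T90, (K (.negSucc 1009976615423))⟩,
  ⟨.x, T91, (K (.negSucc 7075275829703))⟩,
  ⟨.x, T92, (K (.negSucc 834285422591))⟩,
  ⟨.x, T94, (K (.ofNat 474619170816))⟩,
  ⟨.x, T95, (K (.negSucc 2258426824271))⟩,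
  ⟨.x, T96, (K (.negSucc 6414512918687))⟩,
  ⟨.x, T97, (K (.negSucc 227161905407))⟩,
  ⟨.x, T98, (K (.negSucc 1349271924479))⟩,
  ⟨.x, T99, (K (.negSucc 30380894207))⟩,
  ⟨.x, T101, (K (.negSucc 11569195007))⟩,
  ⟨.x, T102, (K (.ofNat 94497435648))⟩,
  ⟨.z, T67, (K (.negSucc 2301943435343))⟩,
  ⟨.z, T68, (K (.negSucc 4102921243295))⟩] c_00 c_01 c_02 c_03 c_04 c_05)

def c_100 : Cert := (.node [⟨.x, .z, (C N N (A4 (K (.ofNat 1200209145376878))) (C N N N N (K (.ofNat 1280364344977317)) (K (.ofNat 448897319604261))) (B N N (K (.ofNat 546749509262418)) (K (.negSucc 730092555339050))) (B N N (K (.ofNat 324962986567491)) (K (.ofNat 31149193110660))))⟩,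
  ⟨.x, .w, (B N N (B N N (K (.negSucc 514782873904493)) (K (.negSucc 912684627826733))) (B N N (K (.negSucc 762962624628155)) (K (.negSucc 594190458130703))))⟩,
  ⟨.z, .w, (B (A2 (K (.ofNat 198030638990478))) (B N N (K (.ofNat 200849357411202)) (K (.negSucc 729973494714119))) (B (K (.ofNat 38202971243730)) (K (.ofNat 780918954583818)) N N) (B (K (.ofNat 170785516221534)) (K (.ofNat 1326113012040336)) N N))⟩,
  ⟨.x, T3, (C N N N N (K (.ofNat 118728192164955)) (K (.ofNat 434165346802197)))⟩,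
  ⟨.x, T4, (B N N (K (.negSucc 667074851661497)) (K (.ofNat 554701128742332)))⟩,
  ⟨.x, T6, (B N N (K (.negSucc 114082007026469)) (K (.ofNat 69784895748132)))⟩,
  ⟨.z, T0, (C N N N N (K (.ofNat 1119514031146854)) (K (.ofNat 437829919571421)))⟩,
  ⟨.z, T1, (B N N (K (.ofNat 640432534967994)) (K (.ofNat 757222876540500)))⟩,
  ⟨.z, T4, (B (K (.ofNat 153160948594470)) (K (.negSucc 1303870742156543)) N N)⟩,
  ⟨.z, T5, (A2 (K (.ofNat 367104107039382)))⟩,
  ⟨.z, T6, (A1 (K (.ofNat 70733795798160)))⟩,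
  ⟨.x, T13, (K (.negSucc 5945676105887))⟩,
  ⟨.x, T26, (K (.negSucc 5188315862183))⟩,
  ⟨.x, T28, (K (.ofNat 100774066943592))⟩,
  ⟨.x, T31, (K (.ofNat 7881921001728))⟩,
  ⟨.z, T19, (K (.negSucc 4474250055599))⟩,
  ⟨.z, T21, (K (.ofNat 89052456331008))⟩,
  ⟨.z, T24, (K (.ofNat 148435021885500))⟩,
  ⟨.z, T27, (K (.negSucc 27924531593363))⟩] (.node [⟨.z, .w, (B N N (K (.ofNat 97283129394534)) (K (.negSucc 1066734393006887)))⟩,
  ⟨.z, T4, (K (.ofNat 1084451408818524))⟩,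
  ⟨.z, T6, (K (.negSucc 3106410973919))⟩] .nil .nil (.node [⟨.z, .w, (K (.negSucc 14238445713983))⟩] .nil .nil .nil .nil .nil .nil) (.node [⟨.z, .w, (K (.ofNat 332065310064381))⟩] .nil .nil .nil .nil .nil .nil) .nil .nil) (.node [⟨.z, .w, (B N N (K (.ofNat 353784982957572)) (K (.negSucc 636193684944059)))⟩,
  ⟨.z, T4, (K (.ofNat 7869857735298))⟩,
  ⟨.z, T6, (K (.ofNat 266475038563452))⟩] .nil .nil (.node [⟨.z, .w, (K (.negSucc 336865609541324))⟩] .nil .nil .nil .nil .nil .nil) (.node [⟨.z, .w, (K (.ofNat 99826915286400))⟩] .nil .nil .nil .nil .nil .nil) .nil .nil) (.node [⟨.x, .z, (C N N N N (K (.negSucc 450938612347704)) (K (.ofNat 280909215096676)))⟩,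
  ⟨.x, .w, (B N N (K (.negSucc 640274157141873)) (K (.ofNat 341771678945962)))⟩,
  ⟨.z, .w, (B (K (.ofNat 314810549214148)) (K (.ofNat 682139661043730)) N N)⟩,
  ⟨.x, T4, (K (.negSucc 661986135092425))⟩,
  ⟨.x, T6, (K (.negSucc 274631615060307))⟩,
  ⟨.z, T1, (K (.negSucc 379069547375589))⟩,
  ⟨.z, T5, (K (.ofNat 277648576338652))⟩] (.node [⟨.z, .w, (K (.ofNat 274878800787796))⟩] .nil .nil .nil .nil .nil .nil) (.node [⟨.z, .w, (K (.ofNat 494806074794213))⟩] .nil .nil .nil .nil .nil .nil) (.node [⟨.x, .w, (K (.negSucc 277618101385947))⟩] .nil .nil .nil .nil .nil .nil) (.node [⟨.x, .w, (K (.negSucc 906512787063643))⟩] .nil .nil .nil .nil .nil .nil) (.node [⟨.x, .z, (K (.ofNat 291184796151628))⟩] .nil .nil .nil .nil .nil .nil) (.node [⟨.x, .z, (K (.ofNat 600875891038454))⟩] .nil .nil .nil .nil .nil .nil)) (.node [⟨.x, .z, (C N N N N (K (.negSucc 670821215013118)) (K (.negSucc 587422097778972)))⟩,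
  ⟨.x, .w, (B N N (K (.negSucc 195090712680571)) (K (.negSucc 402451363635939)))⟩,
  ⟨.z, .w, (B (K (.negSucc 94937297848989)) (K (.ofNat 544190901452224)) N N)⟩,
  ⟨.x, T4, (K (.ofNat 551004068317481))⟩,
  ⟨.x, T6, (K (.ofNat 191623272916324))⟩,
  ⟨.z, T1, (K (.negSucc 811694447430337))⟩,
  ⟨.z, T5, (K (.negSucc 167799793838856))⟩] (.node [⟨.z, .w, (K (.ofNat 112240111770932))⟩] .nil .nil .nil .nil .nil .nil) (.node [⟨.z, .w, (K (.negSucc 907981350661429))⟩] .nil .nil .nil .nil .nil .nil) (.node [⟨.x, .w, (K (.negSucc 201204405313561))⟩] .nil .nil .nil .nil .nil .nil) (.node [⟨.x, .w, (K (.ofNat 376446407946347))⟩] .nil .nil .nil .nil .nil .nil) (.node [⟨.x, .z, (K (.ofNat 374985686526707))⟩] .nil .nil .nil .nil .nil .nil) (.node [⟨.x, .z, (K (.negSucc 651978790446544))⟩] .nil .nil .nil .nil .nil .nil)) (.node [⟨.x, .z, (B N N (K (.ofNat 209444000233974)) (K (.negSucc 142874184518681)))⟩,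
  ⟨.x, T3, (K (.negSucc 172951306938149))⟩,
  ⟨.z, T0, (K (.negSucc 161846505349925))⟩] .nil .nil (.node [⟨.x, .z, (K (.ofNat 10158317568))⟩] .nil .nil .nil .nil .nil .nil) (.node [⟨.x, .z, (K (.negSucc 417369080164241))⟩] .nil .nil .nil .nil .nil .nil) .nil .nil) (.node [⟨.x, .z, (B N N (K (.negSucc 154574191003997)) (K (.negSucc 229690502505221)))⟩,
  ⟨.x, T3, (K (.ofNat 322916616750078))⟩,
  ⟨.z, T0, (K (.negSucc 574394093417999))⟩] .nil .nil (.node [⟨.x, .z, (K (.ofNat 69795054065700))⟩] .nil .nil .nil .nil .nil .nil) (.node [⟨.x, .z, (K (.negSucc 323032478410685))⟩] .nil .nil .nil .nil .nil .nil) .nil .nil))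

end Pool.Agent.Helper805.Chain.D5
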