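import Pool.Agent.Helper805.Chain.D5D0
set_option autoImplicit false
set_option maxRecDepth 100000

/-! Certificate data (found by computer). -/

namespace Pool.Agent.Helper805.Chain.D5
open Pool.Agent.Helper805.Chain

def c_101 : Cert := (.node [⟨.x, .z, (C N N (A4 (K (.negSucc 120196643742746))) (C N N N N (K (.negSucc 13078935782897)) (K (.ofNat 251517950262468))) (B N N (K (.negSucc 170537936547425)) (K (.negSucc 132158530773941))) (B N N (K (.negSucc 252641421487151)) (K (.ofNat 221647849430244))))⟩,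
  ⟨.x, .w, (B N N (B N N (K (.negSucc 88222618881809)) (K (.negSucc 51678645783581))) (B N N (K (.negSucc 185411677536935)) (K (.negSucc 97534028563571))))⟩,
  ⟨.z, .w, (B (A2 (K (.negSucc 247818295437443))) (B N N (K (.negSucc 211745527194497)) (K (.negSucc 268800354821117))) (B (K (.ofNat 165882565926150)) (K (.ofNat 377802969848334)) N N) (B (K (.negSucc 318895219184693)) (K (.negSucc 3172400901479)) N N))⟩,
  ⟨.x, T3, (C N N N N (K (.ofNat 94453988078208)) (K (.ofNat 311265173465967)))⟩,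
  ⟨.x, T4, (B N N (K (.ofNat 150483904436190)) (K (.ofNat 32021392407126)))⟩,
  ⟨.x, T6, (B N N (K (.ofNat 315281296335900)) (K (.negSucc 246524891673527)))⟩,
  ⟨.z, T0, (C N N N N (K (.negSucc 30129114837152)) (K (.ofNat 82150944593943)))⟩,
  ⟨.z, T1, (B N N (K (.negSucc 106893439321541)) (K (.ofNat 51275688381570)))⟩,
  ⟨.z, T4, (B (K (.negSucc 109929128093351)) (K (.negSucc 81590345181821)) N N)⟩,
  ⟨.z, T5, (A2 (K (.ofNat 81186816549504)))⟩,
  ⟨.z, T6, (A1 (K (.negSucc 21525848576507)))⟩,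
  ⟨.x, T13, (K (.ofNat 64439354846322))⟩,
  ⟨.x, T26, (K (.negSucc 14857964529767))⟩,
  ⟨.x, T28, (K (.ofNat 4439068242972))⟩,
  ⟨.x, T31, (K (.negSucc 45042912432767))⟩,
  ⟨.z, T19, (K (.negSucc 21196803499367))⟩,
  ⟨.z, T21, (K (.ofNat 72070651041924))⟩,
  ⟨.z, T24, (K (.ofNat 40394539407480))⟩,
  ⟨.z, T27, (K (.negSucc 106792454261075))⟩] (.node [⟨.z, .w, (B N N (K (.negSucc 335465804343521)) (K (.negSucc 16675475800799)))⟩,
  ⟨.z, T4, (K (.ofNat 1760725519284))⟩,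
  ⟨.z, T6, (K (.ofNat 99675555946842))⟩] .nil .nil (.node [⟨.z, .w, (K (.negSucc 70210439696951))⟩] .nil .nil .nil .nil .nil .nil) (.node [⟨.z, .w, (K (.ofNat 255591131020014))⟩] .nil .nil .nil .nil .nil .nil) .nil .nil) (.node [⟨.z, .w, (B N N (K (.negSucc 572119054143689)) (K (.negSucc 119558097667739)))⟩,
  ⟨.z, T4, (K (.ofNat 25286858006004))⟩,
  ⟨.z, T6, (K (.ofNat 396078011257758))⟩] .nil .nil (.node [⟨.z, .w, (K (.negSucc 130731987294863))⟩] .nil .nil .nil .nil .nil .nil) (.node [⟨.z, .w, (K (.negSucc 15479972542139))⟩] .nil .nil .nil .nil .nil .nil) .nil .nil) (.node [⟨.x, .z, (C N N N N (K (.negSucc 330996631876924)) (K (.ofNat 42417025004780)))⟩,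
  ⟨.x, .w, (B N N (K (.ofNat 104105583222178)) (K (.ofNat 380763173692922)))⟩,
  ⟨.z, .w, (B (K (.ofNat 306638747071451)) (K (.negSucc 58942960058689)) N N)⟩,
  ⟨.x, T4, (K (.ofNat 211486989036929))⟩,
  ⟨.x, T6, (K (.ofNat 130185329249122))⟩,
  ⟨.z, T1, (K (.negSucc 156139241179315))⟩,
  ⟨.z, T5, (K (.negSucc 525894253551150))⟩] (.node [⟨.z, .w, (K (.negSucc 119376144806928))⟩] .nil .nil .nil .nil .nil .nil) (.node [⟨.z, .w, (K (.negSucc 213048148770811))⟩] .nil .nil .nil .nil .nil .nil) (.node [⟨.x, .w, (K (.ofNat 615180392062204))⟩] .nil .nil .nil .nil .nil .nil) (.node [⟨.x, .w, (K (.ofNat 371964454358381))⟩] .nil .nil .nil .nil .nil .nil) (.node [⟨.x, .z, (K (.negSucc 610739865971712))⟩] .nil .nil .nil .nil .nil .nil) (.node [⟨.x, .z, (K (.ofNat 285058369832557))⟩] .nil .nil .nil .nil .nil .nil)) (.node [⟨.x, .z, (C N N N N (K (.ofNat 74049441124346)) (K (.ofNat 21489337031209)))⟩,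
  ⟨.x, .w, (B N N (K (.ofNat 139685574629042)) (K (.negSucc 159698692589497)))⟩,
  ⟨.z, .w, (B (K (.ofNat 438333990444262)) (K (.ofNat 30682317740366)) N N)⟩,
  ⟨.x, T4, (K (.negSucc 108737176323541))⟩,
  ⟨.x, T6, (K (.negSucc 264430501657611))⟩,
  ⟨.z, T1, (K (.ofNat 84483741403472))⟩,
  ⟨.z, T5, (K (.ofNat 15932604100876))⟩] (.node [⟨.z, .w, (K (.ofNat 285319979651824))⟩] .nil .nil .nil .nil .nil .nil) (.node [⟨.z, .w, (K (.ofNat 235833738278834))⟩] .nil .nil .nil .nil .nil .nil) (.node [⟨.x, .w, (K (.negSucc 137234931991161))⟩] .nil .nil .nil .nil .nil .nil) (.node [⟨.x, .w, (K (.negSucc 205050255270355))⟩] .nil .nil .nil .nil .nil .nil) (.node [⟨.x, .z, (K (.negSucc 25605413589679))⟩] .nil .nil .nil .nil .nil .nil) (.node [⟨.x, .z, (K (.ofNat 104338741350842))⟩] .nil .nil .nil .nil .nil .nil)) (.node [⟨.x, .z, (B N N (K (.negSucc 571479709077761)) (K (.negSucc 475347961551335)))⟩,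
  ⟨.x, T3, (K (.negSucc 616315426801667))⟩,
  ⟨.z, T0, (K (.negSucc 955784079519491))⟩] .nil .nil (.node [⟨.x, .z, (K (.negSucc 75108256036325))⟩] .nil .nil .nil .nil .nil .nil) (.node [⟨.x, .z, (K (.ofNat 501940077418524))⟩] .nil .nil .nil .nil .nil .nil) .nil .nil) (.node [⟨.x, .z, (B N N (K (.negSucc 1280031782459)) (K (.ofNat 218730090261474)))⟩,
  ⟨.x, T3, (K (.ofNat 189105455317614))⟩,
  ⟨.z, T0, (K (.ofNat 261136627984074))⟩] .nil .nil (.node [⟨.x, .z, (K (.negSucc 321633147709853))⟩] .nil .nil .nil .nil .nil .nil) (.node [⟨.x, .z, (K (.negSucc 254323800742631))⟩] .nil .nil .nil .nil .nil .nil) .nil .nil))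

def c_102 : Cert := (.node [⟨.x, .z, (C (A4 (K (.negSucc 204006184804559))) (C N N N N (K (.negSucc 67678705090130)) (K (.negSucc 152702629534607))) N N (B (K (.negSucc 115874131203653)) (K (.negSucc 8517650386046)) N N) (B (K (.ofNat 51617453349720)) (K (.negSucc 4730729427077)) N N))⟩,
  ⟨.x, .w, (B (A2 (K (.ofNat 62874071987598))) (B N N (K (.ofNat 255527903364798)) (K (.ofNat 353620081334154))) (B (K (.ofNat 13894176995376)) (K (.ofNat 196691858964066)) N N) (B (K (.ofNat 31825470599790)) (K (.negSucc 126307430235953)) N N))⟩,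
  ⟨.z, .w, (B (B (K (.ofNat 110073383586072)) (K (.negSucc 24968974915847)) N N) (B (K (.ofNat 127576160705622)) (K (.negSucc 97824294116591)) N N) N N)⟩,
  ⟨.x, T0, (C N N N N (K (.negSucc 46213150458761)) (K (.negSucc 163691359715111)))⟩,
  ⟨.x, T1, (B N N (K (.negSucc 91882081114139)) (K (.negSucc 290955194198903)))⟩,
  ⟨.x, T2, (C N N N N (K (.ofNat 60181693463055)) (K (.negSucc 7481992667831)))⟩,
  ⟨.x, T4, (B (K (.ofNat 54186328107060)) (K (.ofNat 172884543957738)) N N)⟩,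
  ⟨.x, T5, (B N N (K (.ofNat 63994666558968)) (K (.negSucc 43206967580393)))⟩,
  ⟨.x, T6, (B (K (.negSucc 148776324298751)) (K (.negSucc 8469290296595)) N N)⟩,
  ⟨.z, T1, (A0 (K (.negSucc 123779951713829)))⟩,
  ⟨.z, T5, (A0 (K (.negSucc 141118638038699)))⟩,
  ⟨.x, T12, (K (.ofNat 14943712225968))⟩,
  ⟨.x, T19, (K (.ofNat 78646571778306))⟩,
  ⟨.x, T21, (K (.negSucc 17643176177561))⟩,
  ⟨.x, T24, (K (.negSucc 94155789557753))⟩,
  ⟨.x, T27, (K (.negSucc 43917488255945))⟩,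
  ⟨.x, T30, (K (.ofNat 8599047632928))⟩,
  ⟨.z, T16, (K (.negSucc 100543048346537))⟩,
  ⟨.z, T20, (K (.negSucc 28492977201545))⟩] (.node [⟨.x, .z, (C N N N N (K (.negSucc 46039582231944)) (K (.negSucc 101936254959343)))⟩,
  ⟨.x, .w, (B N N (K (.ofNat 40703146427144)) (K (.ofNat 133367040228736)))⟩,
  ⟨.z, .w, (B (K (.ofNat 63760636864360)) (K (.ofNat 20402519766050)) N N)⟩,
  ⟨.x, T4, (K (.negSucc 3551029353151))⟩,
  ⟨.x, T6, (K (.ofNat 93542483025848))⟩,
  ⟨.z, T1, (K (.negSucc 114684049691847))⟩,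
  ⟨.z, T5, (K (.negSucc 114909076708255))⟩] (.node [⟨.z, .w, (K (.negSucc 102195708352471))⟩] .nil .nil .nil .nil .nil .nil) (.node [⟨.z, .w, (K (.negSucc 361323040794651))⟩] .nil .nil .nil .nil .nil .nil) (.node [⟨.x, .w, (K (.ofNat 115129173588896))⟩] .nil .nil .nil .nil .nil .nil) (.node [⟨.x, .w, (K (.ofNat 227406266760148))⟩] .nil .nil .nil .nil .nil .nil) (.node [⟨.x, .z, (K (.negSucc 130387765456351))⟩] .nil .nil .nil .nil .nil .nil) (.node [⟨.x, .z, (K (.ofNat 46896763028330))⟩] .nil .nil .nil .nil .nil .nil)) (.node [⟨.x, .z, (C N N N N (K (.negSucc 168089816653804)) (K (.ofNat 197910234208295)))⟩,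
  ⟨.x, .w, (B N N (K (.negSucc 172709157413539)) (K (.ofNat 410508347437766)))⟩,
  ⟨.z, .w, (B (K (.ofNat 389039606012336)) (K (.negSucc 104201441209459)) N N)⟩,
  ⟨.x, T4, (K (.ofNat 46302321144995))⟩,
  ⟨.x, T6, (K (.negSucc 35363186791723))⟩,
  ⟨.z, T1, (K (.ofNat 150085870050772))⟩,
  ⟨.z, T5, (K (.negSucc 261264792143742))⟩] (.node [⟨.z, .w, (K (.negSucc 148549338914862))⟩] .nil .nil .nil .nil .nil .nil) (.node [⟨.z, .w, (K (.ofNat 49387984140280))⟩] .nil .nil .nil .nil .nil .nil) (.node [⟨.x, .w, (K (.ofNat 481353685905823))⟩] .nil .nil .nil .nil .nil .nil) (.node [⟨.x, .w, (K (.ofNat 136897518786464))⟩] .nil .nil .nil .nil .nil .nil) (.node [⟨.x, .z, (K (.negSucc 622110578453472))⟩] .nil .nil .nil .nil .nil .nil) (.node [⟨.x, .z, (K (.ofNat 133904474548231))⟩] .nil .nil .nil .nil .nil .nil)) (.node [⟨.x, .w, (B (K (.ofNat 127612422215916)) (K (.negSucc 50853013156325)) N N)⟩,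
  ⟨.x, T1, (K (.ofNat 8493764693004))⟩,
  ⟨.x, T5, (K (.ofNat 12893369340672))⟩] (.node [⟨.x, .w, (K (.negSucc 12920458187519))⟩] .nil .nil .nil .nil .nil .nil) (.node [⟨.x, .w, (K (.ofNat 122904415988067))⟩] .nil .nil .nil .nil .nil .nil) .nil .nil .nil .nil) (.node [⟨.x, .w, (B (K (.ofNat 68684012503734)) (K (.ofNat 147940647490224)) N N)⟩,
  ⟨.x, T1, (K (.ofNat 45721581391656))⟩,
  ⟨.x, T5, (K (.negSucc 197248322429165))⟩] (.node [⟨.x, .w, (K (.ofNat 233223292298544))⟩] .nil .nil .nil .nil .nil .nil) (.node [⟨.x, .w, (K (.ofNat 402291334440048))⟩] .nil .nil .nil .nil .nil .nil) .nil .nil .nil .nil) (.node [⟨.x, .z, (B (K (.negSucc 99480040490369)) (K (.negSucc 87376113630293)) N N)⟩,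
  ⟨.x, T0, (K (.negSucc 112931919358991))⟩,
  ⟨.x, T2, (K (.ofNat 16157717705808))⟩] (.node [⟨.x, .z, (K (.ofNat 16211895399504))⟩] .nil .nil .nil .nil .nil .nil) (.node [⟨.x, .z, (K (.ofNat 242291124410598))⟩] .nil .nil .nil .nil .nil .nil) .nil .nil .nil .nil) (.node [⟨.x, .z, (B (K (.ofNat 190191629384616)) (K (.negSucc 185757618658817)) N N)⟩,
  ⟨.x, T0, (K (.negSucc 75798903870485))⟩,
  ⟨.x, T2, (K (.ofNat 26683517925996))⟩] (.node [⟨.x, .z, (K (.negSucc 16469271960701))⟩] .nil .nil .nil .nil .nil .nil) (.node [⟨.x, .z, (K (.ofNat 323098281699588))⟩] .nil .nil .nil .nil .nil .nil) .nil .nil .nil .nil))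

def c_103 : Cert := (.node [⟨.x, .z, (C (A4 (K (.negSucc 1608580116298295))) (C N N N N (K (.negSucc 5219846376118856)) (K (.negSucc 4426073268892589))) N N (B (K (.negSucc 691533574476554)) (K (.ofNat 3186945423884331)) N N) (B (K (.negSucc 1300428068665604)) (K (.negSucc 4099497288698855)) N N))⟩,
  ⟨.x, .w, (B (A2 (K (.ofNat 4635699802319790))) (B N N (K (.ofNat 5078074612606968)) (K (.ofNat 4047100758475272))) (B (K (.negSucc 2125261558539632)) (K (.ofNat 1445895654704358)) N N) (B (K (.ofNat 1900995672080364)) (K (.negSucc 633560879540426)) N N))⟩,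
  ⟨.z, .w, (B (B (K (.negSucc 1693031034711935)) (K (.negSucc 4229420148369656)) N N) (B (K (.negSucc 2137916904606185)) (K (.negSucc 4291037391794726)) N N) N N)⟩,
  ⟨.x, T0, (C N N N N (K (.ofNat 948864140228616)) (K (.negSucc 4255087796456969)))⟩,
  ⟨.x, T1, (B N N (K (.ofNat 735348301412823)) (K (.negSucc 1219056073524185)))⟩,
  ⟨.x, T2, (C N N N N (K (.ofNat 1433912175002529)) (K (.negSucc 224326775370506)))⟩,
  ⟨.x, T4, (B (K (.negSucc 3745074371821325)) (K (.ofNat 279466685838420)) N N)⟩,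
  ⟨.x, T5, (B N N (K (.negSucc 4557449934077327)) (K (.ofNat 454763073911658)))⟩,
  ⟨.x, T6, (B (K (.ofNat 1455411956883333)) (K (.ofNat 2679651756020733)) N N)⟩,
  ⟨.z, T1, (A0 (K (.negSucc 921391759803608)))⟩,
  ⟨.z, T5, (A0 (K (.ofNat 2292070203703314)))⟩,
  ⟨.x, T12, (K (.ofNat 1876358962779264))⟩,
  ⟨.x, T19, (K (.negSucc 2494175518599440))⟩,
  ⟨.x, T21, (K (.negSucc 1415060137827680))⟩,
  ⟨.x, T24, (K (.ofNat 1278787844292981))⟩,
  ⟨.x, T27, (K (.ofNat 283879651218522))⟩,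
  ⟨.x, T30, (K (.ofNat 105758596594107))⟩,
  ⟨.z, T16, (K (.negSucc 274477223913956))⟩,
  ⟨.z, T20, (K (.ofNat 1713829879117299))⟩] (.node [⟨.x, .z, (C N N N N (K (.ofNat 3397939595346997)) (K (.ofNat 1800286697953094)))⟩,
  ⟨.x, .w, (B N N (K (.ofNat 2135203116598270)) (K (.negSucc 1145975535985722)))⟩,
  ⟨.z, .w, (B (K (.ofNat 525225767891873)) (K (.negSucc 2310585457369834)) N N)⟩,
  ⟨.x, T4, (K (.negSucc 30356300521815))⟩,
  ⟨.x, T6, (K (.negSucc 1972260681896548))⟩,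
  ⟨.z, T1, (K (.ofNat 323616400453369))⟩,
  ⟨.z, T5, (K (.ofNat 2435924922228452))⟩] (.node [⟨.z, .w, (K (.ofNat 1819449810916805))⟩] .nil .nil .nil .nil .nil .nil) (.node [⟨.z, .w, (K (.ofNat 885251569709341))⟩] .nil .nil .nil .nil .nil .nil) (.node [⟨.x, .w, (K (.negSucc 2454742042822450))⟩] .nil .nil .nil .nil .nil .nil) (.node [⟨.x, .w, (K (.negSucc 4476692952954543))⟩] .nil .nil .nil .nil .nil .nil) (.node [⟨.x, .z, (K (.ofNat 1018814646393995))⟩] .nil .nil .nil .nil .nil .nil) (.node [⟨.x, .z, (K (.negSucc 420383356787617))⟩] .nil .nil .nil .nil .nil .nil)) (.node [⟨.x, .z, (C N N N N (K (.negSucc 504829960399737)) (K (.ofNat 1708020337885216)))⟩,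
  ⟨.x, .w, (B N N (K (.ofNat 4404149147391512)) (K (.ofNat 1951352983953763)))⟩,
  ⟨.z, .w, (B (K (.ofNat 1475878222920028)) (K (.negSucc 2517391653700530)) N N)⟩,
  ⟨.x, T4, (K (.ofNat 1939823959431805))⟩,
  ⟨.x, T6, (K (.negSucc 1708337324703921))⟩,
  ⟨.z, T1, (K (.negSucc 2420442705386130))⟩,
  ⟨.z, T5, (K (.negSucc 2711088714644392))⟩] (.node [⟨.z, .w, (K (.negSucc 1284689993183638))⟩] .nil .nil .nil .nil .nil .nil) (.node [⟨.z, .w, (K (.ofNat 390040486264268))⟩] .nil .nil .nil .nil .nil .nil) (.node [⟨.x, .w, (K (.ofNat 6439098786224639))⟩] .nil .nil .nil .nil .nil .nil) (.node [⟨.x, .w, (K (.ofNat 709831367726968))⟩] .nil .nil .nil .nil .nil .nil) (.node [⟨.x, .z, (K (.negSucc 4903656292603441))⟩] .nil .nil .nil .nil .nil .nil) (.node [⟨.x, .z, (K (.negSucc 2197205484234870))⟩] .nil .nil .nil .nil .nil .nil)) (.node [⟨.x, .w, (B (K (.negSucc 2284580784811514)) (K (.negSucc 1006709060970191)) N N)⟩,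
  ⟨.x, T1, (K (.ofNat 1477967703644604))⟩,
  ⟨.x, T5, (K (.negSucc 177739045072139))⟩] (.node [⟨.x, .w, (K (.ofNat 201381877516026))⟩] .nil .nil .nil .nil .nil .nil) (.node [⟨.x, .w, (K (.ofNat 2684012056408614))⟩] .nil .nil .nil .nil .nil .nil) .nil .nil .nil .nil) (.node [⟨.x, .w, (B (K (.negSucc 4899754843363646)) (K (.negSucc 4015422211724474)) N N)⟩,
  ⟨.x, T1, (K (.ofNat 2446936980042414))⟩,
  ⟨.x, T5, (K (.ofNat 4246743305122146))⟩] (.node [⟨.x, .w, (K (.negSucc 5712461359979099))⟩] .nil .nil .nil .nil .nil .nil) (.node [⟨.x, .w, (K (.negSucc 1665927055228187))⟩] .nil .nil .nil .nil .nil .nil) .nil .nil .nil .nil) (.node [⟨.x, .z, (B (K (.ofNat 465948469460403)) (K (.ofNat 2904806409775149)) N N)⟩,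
  ⟨.x, T0, (K (.ofNat 4777541051256948))⟩,
  ⟨.x, T2, (K (.ofNat 1562848267664661))⟩] (.node [⟨.x, .z, (K (.ofNat 1559343671707749))⟩] .nil .nil .nil .nil .nil .nil) (.node [⟨.x, .z, (K (.ofNat 2784935325233703))⟩] .nil .nil .nil .nil .nil .nil) .nil .nil .nil .nil) (.node [⟨.x, .z, (B (K (.ofNat 6295332763759239)) (K (.ofNat 3159796573373649)) N N)⟩,
  ⟨.x, T0, (K (.ofNat 1656661843192029))⟩,
  ⟨.x, T2, (K (.negSucc 2418973602564800))⟩] (.node [⟨.x, .z, (K (.negSucc 1967755757880326))⟩] .nil .nil .nil .nil .nil .nil) (.node [⟨.x, .z, (K (.negSucc 1277068956572876))⟩] .nil .nil .nil .nil .nil .nil) .nil .nil .nil .nil))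

def c_104 : Cert := (.node [⟨.x, .z, (B (A2 (K (.ofNat 132331382728494))) (B N N (K (.negSucc 194078870556791)) (K (.negSucc 111530656839887))) (B (K (.negSucc 171511217277941)) (K (.negSucc 195110362234349)) N N) (B (K (.ofNat 3146759633904)) (K (.ofNat 155863533143442)) N N))⟩,
  ⟨.x, T0, (B N N (K (.negSucc 69660863831153)) (K (.negSucc 78217918118999)))⟩,
  ⟨.x, T2, (B N N (K (.negSucc 133075961588873)) (K (.ofNat 46589111689206)))⟩,
  ⟨.x, T3, (B (K (.ofNat 68533864071960)) (K (.ofNat 253873116539304)) N N)⟩,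
  ⟨.z, T0, (A0 (K (.negSucc 306384126365105)))⟩,
  ⟨.x, T11, (K (.negSucc 7743292577783))⟩,
  ⟨.x, T18, (K (.negSucc 142046754974915))⟩,
  ⟨.x, T23, (K (.ofNat 120983286179556))⟩,
  ⟨.x, T25, (K (.negSucc 31663224464213))⟩,
  ⟨.z, T15, (K (.ofNat 127304466579036))⟩,
  ⟨.z, T17, (K (.negSucc 33870985377149))⟩] (.node [⟨.x, .z, (B N N (K (.ofNat 127780303842036)) (K (.ofNat 277291815245238)))⟩,
  ⟨.x, T3, (K (.ofNat 261776403865470))⟩,
  ⟨.z, T0, (K (.ofNat 269506325793270))⟩] .nil .nil (.node [⟨.x, .z, (K (.negSucc 2207760912935))⟩] .nil .nil .nil .nil .nil .nil) (.node [⟨.x, .z, (K (.negSucc 346343477808689))⟩] .nil .nil .nil .nil .nil .nil) .nil .nil) (.node [⟨.x, .z, (B N N (K (.ofNat 40306058463918)) (K (.ofNat 169678561310688)))⟩,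
  ⟨.x, T3, (K (.ofNat 183946981367850))⟩,
  ⟨.z, T0, (K (.ofNat 149884226722248))⟩] .nil .nil (.node [⟨.x, .z, (K (.ofNat 102140980213392))⟩] .nil .nil .nil .nil .nil .nil) (.node [⟨.x, .z, (K (.negSucc 192845204874437))⟩] .nil .nil .nil .nil .nil .nil) .nil .nil) (.node [⟨.x, .z, (B (K (.ofNat 19338941510238)) (K (.negSucc 194127347976503)) N N)⟩,
  ⟨.x, T0, (K (.negSucc 179665073278079))⟩,
  ⟨.x, T2, (K (.ofNat 12718126312056))⟩] (.node [⟨.x, .z, (K (.ofNat 12718126312056))⟩] .nil .nil .nil .nil .nil .nil) (.node [⟨.x, .z, (K (.negSucc 12307989092339))⟩] .nil .nil .nil .nil .nil .nil) .nil .nil .nil .nil) (.node [⟨.x, .z, (B (K (.ofNat 217478449858122)) (K (.negSucc 94016840383385)) N N)⟩,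
  ⟨.x, T0, (K (.negSucc 214209914139077))⟩,
  ⟨.x, T2, (K (.negSucc 220646682301679))⟩] (.node [⟨.x, .z, (K (.negSucc 300890068593251))⟩] .nil .nil .nil .nil .nil .nil) (.node [⟨.x, .z, (K (.negSucc 175111078310453))⟩] .nil .nil .nil .nil .nil .nil) .nil .nil .nil .nil) .nil .nil)

def c_105 : Cert := (.node [⟨.x, .z, (B (A2 (K (.negSucc 1463065865086901))) (B N N (K (.ofNat 243492554884749)) (K (.ofNat 1087103644307433))) (B (K (.ofNat 1682192802896811)) (K (.ofNat 755800780877175)) N N) (B (K (.ofNat 109269924512298)) (K (.negSucc 1003301568495617)) N N))⟩,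
  ⟨.x, T0, (B N N (K (.ofNat 163008452129979)) (K (.ofNat 1537627812998682)))⟩,
  ⟨.x, T2, (B N N (K (.ofNat 1408678875875787)) (K (.ofNat 3138009665523)))⟩,
  ⟨.x, T3, (B (K (.ofNat 170503683690471)) (K (.negSucc 831529354399508)) N N)⟩,
  ⟨.z, T0, (A0 (K (.ofNat 1993216540835907)))⟩,
  ⟨.x, T11, (K (.negSucc 298280907259763))⟩,
  ⟨.x, T18, (K (.ofNat 129721677367380))⟩,
  ⟨.x, T23, (K (.negSucc 353108827821029))⟩,
  ⟨.x, T25, (K (.ofNat 49306459692501))⟩,
  ⟨.z, T15, (K (.ofNat 158330941303707))⟩,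
  ⟨.z, T17, (K (.ofNat 341326501912218))⟩] (.node [⟨.x, .z, (B N N (K (.negSucc 371237705301455)) (K (.negSucc 1483447407027143)))⟩,
  ⟨.x, T3, (K (.negSucc 1816506176591444))⟩,
  ⟨.z, T0, (K (.negSucc 1477332360379985))⟩] .nil .nil (.node [⟨.x, .z, (K (.ofNat 282522368747829))⟩] .nil .nil .nil .nil .nil .nil) (.node [⟨.x, .z, (K (.ofNat 1872102220805439))⟩] .nil .nil .nil .nil .nil .nil) .nil .nil) (.node [⟨.x, .z, (B N N (K (.ofNat 2054214147825459)) (K (.ofNat 385632910559292)))⟩,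
  ⟨.x, T3, (K (.ofNat 121678990696920))⟩,
  ⟨.z, T0, (K (.ofNat 2590533969134019))⟩] .nil .nil (.node [⟨.x, .z, (K (.negSucc 1191456039110492))⟩] .nil .nil .nil .nil .nil .nil) (.node [⟨.x, .z, (K (.negSucc 31398734465633))⟩] .nil .nil .nil .nil .nil .nil) .nil .nil) (.node [⟨.x, .z, (B (K (.negSucc 433354250021279)) (K (.ofNat 1264680941236965)) N N)⟩,
  ⟨.x, T0, (K (.ofNat 1378425497772960))⟩,
  ⟨.x, T2, (K (.ofNat 114717473936595))⟩] (.node [⟨.x, .z, (K (.ofNat 114690385089747))⟩] .nil .nil .nil .nil .nil .nil) (.node [⟨.x, .z, (K (.negSucc 1085498959670684))⟩] .nil .nil .nil .nil .nil .nil) .nil .nil .nil .nil) (.node [⟨.x, .z, (B (K (.negSucc 1469833979327237)) (K (.negSucc 789794157268319)) N N)⟩,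
  ⟨.x, T0, (K (.negSucc 218976092582657))⟩,
  ⟨.x, T2, (K (.ofNat 1260921385420686))⟩] (.node [⟨.x, .z, (K (.ofNat 1599164055361077))⟩] .nil .nil .nil .nil .nil .nil) (.node [⟨.x, .z, (K (.ofNat 851513855244))⟩] .nil .nil .nil .nil .nil .nil) .nil .nil .nil .nil) .nil .nil)

def c_10 : Cert := (.node [⟨.x, .z, (C (C N N (A4 (K (.negSucc 131350707464897))) N (A2 (K (.negSucc 35097091957523))) N) (C N N N (A5 (K (.negSucc 232953572503247))) (A3 (K (.negSucc 340277632178132))) (B N N (K (.negSucc 154040761259516)) (K (.negSucc 205225495525727)))) (C (A4 (K (.ofNat 273959135349861))) (C N N N N (K (.negSucc 571057775406527)) (K (.negSucc 264157841698658))) N N (B (K (.ofNat 255194919785526)) (K (.ofNat 301990058633274)) N N) N) (C (A4 (K (.negSucc 117821760833399))) (C N N N N (K (.negSucc 13150299750845)) (K (.ofNat 425870867357124))) N N (B (K (.ofNat 227512555925220)) (K (.ofNat 227229807730752)) N N) (B (K (.ofNat 133387887682077))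 (K (.ofNat 7892795383722)) N N)) (B (A2 (K (.negSucc 176277567367121))) (B N N (K (.ofNat 644251317101163)) (K (.ofNat 515235607220748))) (B (K (.ofNat 16738127304966)) (K (.ofNat 172671817791555)) N N) (B (K (.negSucc 107856817827227)) (K (.ofNat 135449145450849)) N N)) (B (A2 (K (.ofNat 230038490353485))) (B N N (K (.negSucc 51252894662930)) (K (.negSucc 150061668784523))) (B (K (.negSucc 218229306904733)) (K (.ofNat 8843812469445)) N N) (B (K (.ofNat 141230034942912)) (K (.ofNat 8175971067696)) N N)))⟩,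
  ⟨.x, .w, (B (A2 (A2 (K (.negSucc 102657175954823)))) (B N N (A3 (K (.ofNat 275413030867866))) (B N N (K (.ofNat 242220467214834)) (K (.negSucc 27457579407515)))) (B (A2 (K (.ofNat 149438702840130))) (B N N (K (.ofNat 189507403817934)) (K (.ofNat 144094379227506))) (B (K (.negSucc 267971101922177)) (K (.negSucc 31613863571567)) N N) (B (K (.negSucc 72138500766905)) (K (.ofNat 280571127711324)) N N)) (B (A2 (K (.ofNat 151382907750120))) (B N N (K (.ofNat 45377093633196)) (K (.ofNat 386815050106230))) (B (K (.negSucc 489587955275873)) (K (.negSucc 105922036586399)) N N) (B (K (.negSucc 60730097114903)) (K (.ofNat 18384922918968)) N N)))⟩,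
  ⟨.z, .w, (B (B (A2 (K (.ofNat 138815591791578))) N (B (K (.ofNat 131509072314834)) (K (.ofNat 429250923027204)) N N) N) (B (A2 (K (.negSucc 176939103203795))) (B N N (K (.ofNat 563387037089922)) (K (.ofNat 295338999836868))) (B (K (.ofNat 74088471662430)) (K (.negSucc 342217455178931)) N N) (B (K (.negSucc 354693927442727)) (K (.ofNat 14031409283436)) N N)) (B (B (K (.negSucc 104742220836827)) (K (.negSucc 304255568886077)) N N) (B (K (.negSucc 43435167732449)) (K (.negSucc 374602249001477)) N N) N N) (B (B (K (.ofNat 111997480956108)) (K (.negSucc 41221207758143)) N N) (B (K (.ofNat 39159158053596)) (K (.negSucc 88826087370509)) N N) N N))⟩,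
  ⟨.x, T0, (C N N (A4 (K (.negSucc 23308597513190))) (C N N N N (K (.ofNat 136338705193248)) (K (.negSucc 191694287624810))) (B N N (K (.ofNat 23016219872562)) (K (.negSucc 249681829585013))) (B N N (K (.ofNat 120840644692050)) (K (.negSucc 205518041385407))))⟩,
  ⟨.x, T1, (B N N (B N N (K (.negSucc 12613944809417)) (K (.negSucc 291630685477883))) (B N N (K (.negSucc 109567150837829)) (K (.ofNat 32408855867796))))⟩,
  ⟨.x, T2, (C N N (A4 (K (.negSucc 9432475587008))) (C N N N N (K (.negSucc 165361804685324)) (K (.negSucc 24137517427181))) (B N N (K (.negSucc 72684905199389)) (K (.ofNat 103803864666942))) (B N N (K (.negSucc 225108596880455)) (K (.negSucc 597576019967))))⟩,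
  ⟨.x, T3, (C (A4 (K (.negSucc 8067111661664))) (C N N N N (K (.ofNat 278080984187604)) (K (.ofNat 376171400511891))) N N (B (K (.ofNat 154527374494818)) (K (.ofNat 221306275327059)) N N) (B (K (.ofNat 280097003263869)) (K (.negSucc 987020925749)) N N))⟩,
  ⟨.x, T4, (B (A2 (K (.ofNat 114818460166656))) (B N N (K (.negSucc 113625437831561)) (K (.negSucc 170963523647207))) (B (K (.ofNat 99448226005362)) (K (.ofNat 327622998508710)) N N) (B (K (.ofNat 151992327788310)) (K (.negSucc 28128254151623)) N N))⟩,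
  ⟨.x, T5, (B N N (B N N (K (.ofNat 136804257732504)) (K (.negSucc 173386035075965))) (B N N (K (.ofNat 74728034344458)) (K (.negSucc 14308403949503))))⟩,
  ⟨.x, T6, (B (A2 (K (.negSucc 85338318321383))) (B N N (K (.ofNat 256862406078450)) (K (.ofNat 229909852897722))) (B (K (.ofNat 1348397933550)) (K (.ofNat 124850893516146)) N N) (B (K (.negSucc 269751248597111)) (K (.ofNat 2717065786968)) N N))⟩,
  ⟨.z, T0, (C (A4 (K (.ofNat 87022308235575))) (A5 (K (.ofNat 490718059109511))) N N (B (K (.ofNat 332999597730768)) (K (.ofNat 147079766889111)) N N) (A1 (K (.ofNat 7512210634410))))⟩,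
  ⟨.z, T1, (B (A2 (K (.ofNat 66290054144232))) (A3 (K (.negSucc 404864644899053))) (B (K (.ofNat 221172061117590)) (K (.ofNat 278195091236052)) N N) (A1 (K (.negSucc 21678308156687))))⟩,
  ⟨.z, T4, (B (B (K (.negSucc 126656036907851)) (K (.negSucc 35610241817141)) N N) (B (K (.negSucc 217794130167257)) (K (.ofNat 101008395228222)) N N) N N)⟩,
  ⟨.z, T5, (B (A2 (K (.negSucc 123530187187925))) (A3 (K (.negSucc 135427575540779))) (A0 (K (.ofNat 137419871604876))) N)⟩,
  ⟨.z, T6, (A1 (B (K (.negSucc 12120926980451)) (K (.negSucc 13714113328847)) N N))⟩,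
  ⟨.x, T11, (C N N N N (K (.ofNat 51701400692304)) (K (.negSucc 6156380466719)))⟩,
  ⟨.x, T12, (A3 (K (.negSucc 11204935782335)))⟩,
  ⟨.x, T13, (B (K (.ofNat 41772138163506)) (K (.ofNat 11772506268168)) N N)⟩,
  ⟨.x, T18, (C N N N N (K (.negSucc 139015841395475)) (K (.ofNat 69827072538399)))⟩,
  ⟨.x, T19, (B N N (K (.negSucc 21084400611809)) (K (.ofNat 74632507339458)))⟩,
  ⟨.x, T21, (B N N (K (.ofNat 76424788514868)) (K (.ofNat 75118414353894)))⟩,
  ⟨.x, T23, (C N N N N (K (.ofNat 135350567490180)) (K (.negSucc 48452246502092)))⟩,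
  ⟨.x, T24, (B N N (K (.ofNat 137535463969716)) (K (.negSucc 10929526355015)))⟩,
  ⟨.x, T25, (C N N N N (K (.ofNat 30410413733979)) (K (.ofNat 23669921290734)))⟩,
  ⟨.x, T26, (B (K (.negSucc 71674764529745)) (K (.negSucc 8656038885455)) N N)⟩,
  ⟨.x, T27, (B N N (K (.ofNat 39005190018600)) (K (.ofNat 1539304895664)))⟩,
  ⟨.x, T28, (B (K (.negSucc 130258097740247)) (K (.negSucc 11279523773159)) N N)⟩,
  ⟨.x, T30, (A3 (K (.ofNat 9497673471888)))⟩,
  ⟨.x, T31, (B (K (.negSucc 41252197049039)) (K (.negSucc 4419710804687)) N N)⟩,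
  ⟨.z, T15, (C N N N N (K (.ofNat 77086192448211)) (K (.negSucc 33101070158780)))⟩,
  ⟨.z, T16, (A2 (K (.ofNat 75646561200810)))⟩,
  ⟨.z, T17, (C N N N N (K (.negSucc 33997373325479)) (K (.ofNat 19741941578214)))⟩,
  ⟨.z, T20, (A2 (K (.ofNat 42467417852646)))⟩,
  ⟨.x, T78, (K (.negSucc 492960577535))⟩,
  ⟨.x, T36, (K (.negSucc 11425951451399))⟩,
  ⟨.x, T48, (K (.ofNat 23973134920848))⟩,
  ⟨.x, T50, (K (.ofNat 26000471456928))⟩,
  ⟨.x, T79, (K (.ofNat 3044415228720))⟩,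
  ⟨.x, T87, (K (.ofNat 10909738385712))⟩,
  ⟨.x, T80, (K (.negSucc 72058477895))⟩,
  ⟨.x, T81, (K (.ofNat 3217556527992))⟩,
  ⟨.x, T82, (K (.negSucc 1198976181119))⟩,
  ⟨.x, T103, (K (.negSucc 13603941930095))⟩,
  ⟨.x, T104, (K (.negSucc 6508538749439))⟩,
  ⟨.x, T105, (K (.ofNat 5018985723024))⟩,
  ⟨.x, T83, (K (.ofNat 4526972262288))⟩,
  ⟨.z, T41, (K (.negSucc 5036354793215))⟩,
  ⟨.z, T43, (K (.negSucc 3862864469519))⟩,
  ⟨.z, T46, (K (.negSucc 5257880083727))⟩] c_100 c_101 c_102 c_103 c_104 c_105)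

def c_110 : Cert := (.node [⟨.x, .z, (C N N (A4 (K (.negSucc 547855106296583))) (C N N N N (K (.negSucc 90126220678886)) (K (.negSucc 36096863424182))) (B N N (K (.negSucc 375545665370381)) (K (.negSucc 25713532289666))) (B N N (K (.negSucc 34575623594120)) (K (.ofNat 75442567612596))))⟩,
  ⟨.x, .w, (B N N (B N N (K (.ofNat 190954362076206)) (K (.negSucc 2792384897741))) (B N N (K (.ofNat 37498166327844)) (K (.ofNat 102613034923818))))⟩,
  ⟨.z, .w, (B (A2 (K (.negSucc 192485646501023))) (B N N (K (.negSucc 228016467538475)) (K (.ofNat 316541634259644))) (B (K (.negSucc 60200383780031)) (K (.ofNat 1117613071962)) N N) (B (K (.negSucc 148110697519577)) (K (.ofNat 349012534728)) N N))⟩,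
  ⟨.x, T3, (C N N N N (K (.negSucc 149322496934015)) (K (.negSucc 159501706115723)))⟩,
  ⟨.x, T4, (B N N (K (.ofNat 239015775492546)) (K (.negSucc 216459809177957)))⟩,
  ⟨.x, T6, (B N N (K (.ofNat 219472186064022)) (K (.ofNat 15353647916640)))⟩,
  ⟨.z, T0, (C N N N N (K (.negSucc 312609740737751)) (K (.negSucc 74961390821030)))⟩,
  ⟨.z, T1, (B N N (K (.negSucc 174570140476697)) (K (.negSucc 120702754510379)))⟩,
  ⟨.z, T4, (B (K (.negSucc 355293819083087)) (K (.ofNat 44849861919018)) N N)⟩,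
  ⟨.z, T5, (A2 (K (.negSucc 150218634083087)))⟩,
  ⟨.z, T6, (A1 (K (.negSucc 34407843039959)))⟩,
  ⟨.x, T13, (K (.ofNat 22150707090624))⟩,
  ⟨.x, T26, (K (.ofNat 94251691919586))⟩,
  ⟨.x, T28, (K (.ofNat 120112326015492))⟩,
  ⟨.x, T31, (K (.ofNat 7339098858048))⟩,
  ⟨.z, T19, (K (.negSucc 12189592487975))⟩,
  ⟨.z, T21, (K (.ofNat 47607046126932))⟩,
  ⟨.z, T24, (K (.negSucc 9353821785239))⟩,
  ⟨.z, T27, (K (.negSucc 106712848922099))⟩] (.node [⟨.z, .w, (B N N (K (.negSucc 32854776740387)) (K (.ofNat 435307888228314)))⟩,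
  ⟨.z, T4, (K (.negSucc 137490029193731))⟩,
  ⟨.z, T6, (K (.negSucc 225031059719009))⟩] .nil .nil (.node [⟨.z, .w, (K (.ofNat 194614108322994))⟩] .nil .nil .nil .nil .nil .nil) (.node [⟨.z, .w, (K (.negSucc 69378426400061))⟩] .nil .nil .nil .nil .nil .nil) .nil .nil) (.node [⟨.z, .w, (B N N (K (.negSucc 188245249275641)) (K (.ofNat 307656133819758)))⟩,
  ⟨.z, T4, (K (.ofNat 222617441743158))⟩,
  ⟨.z, T6, (K (.negSucc 103480561516133))⟩] .nil .nil (.node [⟨.z, .w, (K (.negSucc 148096145653721))⟩] .nil .nil .nil .nil .nil .nil) (.node [⟨.z, .w, (K (.negSucc 225218202960032))⟩] .nil .nil .nil .nil .nil .nil) .nil .nil) (.node [⟨.x, .z, (C N N N N (K (.ofNat 197365042337224)) (K (.negSucc 151841380435368)))⟩,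
  ⟨.x, .w, (B N N (K (.ofNat 259843016377000)) (K (.negSucc 189638717403147)))⟩,
  ⟨.z, .w, (B (K (.negSucc 301741137531504)) (K (.negSucc 182947331236345)) N N)⟩,
  ⟨.x, T4, (K (.ofNat 226979192062322))⟩,
  ⟨.x, T6, (K (.ofNat 283943765281804))⟩,
  ⟨.z, T1, (K (.negSucc 28322100522079))⟩,
  ⟨.z, T5, (K (.negSucc 64206452476761))⟩] (.node [⟨.z, .w, (K (.negSucc 247715258137179))⟩] .nil .nil .nil .nil .nil .nil) (.node [⟨.z, .w, (K (.negSucc 502140223933882))⟩] .nil .nil .nil .nil .nil .nil) (.node [⟨.x, .w, (K (.ofNat 59527896944506))⟩] .nil .nil .nil .nil .nil .nil) (.node [⟨.x, .w, (K (.ofNat 354757746408878))⟩] .nil .nil .nil .nil .nil .nil) (.node [⟨.x, .z, (K (.negSucc 115198960064937))⟩] .nil .nil .nil .nil .nil .nil) (.node [⟨.x, .z, (K (.negSucc 198050134914337))⟩] .nil .nil .nil .nil .nil .nil)) (.node [⟨.x, .z, (C N N N N (K (.negSucc 112990243807617)) (K (.ofNat 302073740091244)))⟩,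
  ⟨.x, .w, (B N N (K (.negSucc 113509619730978)) (K (.negSucc 107855692715731)))⟩,
  ⟨.z, .w, (B (K (.ofNat 573592149369367)) (K (.ofNat 87605588382989)) N N)⟩,
  ⟨.x, T4, (K (.negSucc 356778573294361))⟩,
  ⟨.x, T6, (K (.negSucc 439127394090156))⟩,
  ⟨.z, T1, (K (.ofNat 242803488133802))⟩,
  ⟨.z, T5, (K (.ofNat 169497026604796))⟩] (.node [⟨.z, .w, (K (.ofNat 541056500048455))⟩] .nil .nil .nil .nil .nil .nil) (.node [⟨.z, .w, (K (.ofNat 926374029510842))⟩] .nil .nil .nil .nil .nil .nil) (.node [⟨.x, .w, (K (.negSucc 74725378358055))⟩] .nil .nil .nil .nil .nil .nil) (.node [⟨.x, .w, (K (.negSucc 420278688536659))⟩] .nil .nil .nil .nil .nil .nil) (.node [⟨.x, .z, (K (.ofNat 104794606036372))⟩] .nil .nil .nil .nil .nil .nil) (.node [⟨.x, .z, (K (.ofNat 207808388945318))⟩] .nil .nil .nil .nil .nil .nil)) (.node [⟨.x, .z, (B N N (K (.negSucc 153583920479777)) (K (.negSucc 93995436798485)))⟩,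
  ⟨.x, T3, (K (.negSucc 297778279619183))⟩,
  ⟨.z, T0, (K (.negSucc 298074159958703))⟩] .nil .nil (.node [⟨.x, .z, (K (.ofNat 5469727892256))⟩] .nil .nil .nil .nil .nil .nil) (.node [⟨.x, .z, (K (.ofNat 178742837978100))⟩] .nil .nil .nil .nil .nil .nil) .nil .nil) (.node [⟨.x, .z, (B N N (K (.negSucc 120990064218743)) (K (.ofNat 300341699330436)))⟩,
  ⟨.x, T3, (K (.ofNat 125368198961766))⟩,
  ⟨.z, T0, (K (.ofNat 345873603486444))⟩] .nil .nil (.node [⟨.x, .z, (K (.ofNat 20823375808896))⟩] .nil .nil .nil .nil .nil .nil) (.node [⟨.x, .z, (K (.negSucc 85914903330845))⟩] .nil .nil .nil .nil .nil .nil) .nil .nil))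

def c_111 : Cert := (.node [⟨.x, .z, (C N N (A4 (K (.ofNat 211171656845856))) (C N N N N (K (.ofNat 766193125945809)) (K (.ofNat 118861148499804))) (B N N (K (.ofNat 106253502492270)) (K (.negSucc 487723144438004))) (B N N (K (.ofNat 270992126115849)) (K (.negSucc 276163530492377))))⟩,
  ⟨.x, .w, (B N N (B N N (K (.negSucc 90959001242465)) (K (.negSucc 507850536252269))) (B N N (K (.negSucc 538896412982699)) (K (.negSucc 346460485735949))))⟩,
  ⟨.z, .w, (B (A2 (K (.ofNat 161971253771796))) (B N N (K (.ofNat 282915580863024)) (K (.ofNat 198158962769784))) (B (K (.negSucc 298702033557575)) (K (.ofNat 338273192069124)) N N) (B (K (.ofNat 171657535883160)) (K (.ofNat 653826587233284)) N N))⟩,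
  ⟨.x, T3, (C N N N N (K (.negSucc 299689669619081)) (K (.negSucc 95673156687164)))⟩,
  ⟨.x, T4, (B N N (K (.negSucc 231790863939113)) (K (.ofNat 272072942752458)))⟩,
  ⟨.x, T6, (B N N (K (.negSucc 40831507745375)) (K (.ofNat 322699411840566)))⟩,
  ⟨.z, T0, (C N N N N (K (.ofNat 118940637530010)) (K (.ofNat 48998752501812)))⟩,
  ⟨.z, T1, (B N N (K (.ofNat 54503931799422)) (K (.ofNat 69316642527372)))⟩,
  ⟨.z, T4, (B (K (.ofNat 91047281141652)) (K (.negSucc 415315405621835)) N N)⟩,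
  ⟨.z, T5, (A2 (K (.ofNat 17530672783140)))⟩,
  ⟨.z, T6, (A1 (K (.negSucc 315057508161641)))⟩,
  ⟨.x, T13, (K (.negSucc 31121816191271))⟩,
  ⟨.x, T26, (K (.ofNat 161379678441468))⟩,
  ⟨.x, T28, (K (.ofNat 76150779844428))⟩,
  ⟨.x, T31, (K (.negSucc 26873431882583))⟩,
  ⟨.z, T19, (K (.negSucc 67311035275535))⟩,
  ⟨.z, T21, (K (.negSucc 104312035220891))⟩,
  ⟨.z, T24, (K (.negSucc 22547670303827))⟩,
  ⟨.z, T27, (K (.ofNat 39077051988288))⟩] (.node [⟨.z, .w, (B N N (K (.ofNat 380821142204970)) (K (.negSucc 215530371194813)))⟩,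
  ⟨.z, T4, (K (.ofNat 479789992714278))⟩,
  ⟨.z, T6, (K (.negSucc 286926159039743))⟩] .nil .nil (.node [⟨.z, .w, (K (.ofNat 292532461022691))⟩] .nil .nil .nil .nil .nil .nil) (.node [⟨.z, .w, (K (.ofNat 33764576738742))⟩] .nil .nil .nil .nil .nil .nil) .nil .nil) (.node [⟨.z, .w, (B N N (K (.ofNat 272433468268068)) (K (.negSucc 185715033092729)))⟩,
  ⟨.z, T4, (K (.negSucc 45450770117351))⟩,
  ⟨.z, T6, (K (.negSucc 143947030551899))⟩] .nil .nil (.node [⟨.z, .w, (K (.negSucc 52609263567773))⟩] .nil .nil .nil .nil .nil .nil) (.node [⟨.z, .w, (K (.negSucc 50304651750251))⟩] .nil .nil .nil .nil .nil .nil) .nil .nil) (.node [⟨.x, .z, (C N N N N (K (.ofNat 208212175343318)) (K (.negSucc 225427571902324)))⟩,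
  ⟨.x, .w, (B N N (K (.negSucc 162574705139808)) (K (.negSucc 260694847311361)))⟩,
  ⟨.z, .w, (B (K (.negSucc 486957636496279)) (K (.ofNat 251644043942267)) N N)⟩,
  ⟨.x, T4, (K (.negSucc 296328354253597))⟩,
  ⟨.x, T6, (K (.ofNat 308567764889267))⟩,
  ⟨.z, T1, (K (.negSucc 325266746764305))⟩,
  ⟨.z, T5, (K (.ofNat 329218123046152))⟩] (.node [⟨.z, .w, (K (.negSucc 116160491558983))⟩] .nil .nil .nil .nil .nil .nil) (.node [⟨.z, .w, (K (.negSucc 177205512370644))⟩] .nil .nil .nil .nil .nil .nil) (.node [⟨.x, .w, (K (.negSucc 518160704241834))⟩] .nil .nil .nil .nil .nil .nil) (.node [⟨.x, .w, (K (.negSucc 209824411175944))⟩] .nil .nil .nil .nil .nil .nil) (.node [⟨.x, .z, (K (.ofNat 613798072462330))⟩] .nil .nil .nil .nil .nil .nil) (.node [⟨.x, .z, (K (.negSucc 348982623963873))⟩] .nil .nil .nil .nil .nil .nil)) (.node [⟨.x, .z, (C N N N N (K (.negSucc 415935733247281)) (K (.negSucc 338526482443074)))⟩,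
  ⟨.x, .w, (B N N (K (.negSucc 42884632495417)) (K (.ofNat 2117987131328)))⟩,
  ⟨.z, .w, (B (K (.negSucc 167715911907699)) (K (.ofNat 293012289636400)) N N)⟩,
  ⟨.x, T4, (K (.ofNat 274332187137236))⟩,
  ⟨.x, T6, (K (.ofNat 185862742229584))⟩,
  ⟨.z, T1, (K (.negSucc 251260843573411))⟩,
  ⟨.z, T5, (K (.negSucc 150193052020503))⟩] (.node [⟨.z, .w, (K (.ofNat 159855318823403))⟩] .nil .nil .nil .nil .nil .nil) (.node [⟨.z, .w, (K (.negSucc 208956021730987))⟩] .nil .nil .nil .nil .nil .nil) (.node [⟨.x, .w, (K (.ofNat 7415079683314))⟩] .nil .nil .nil .nil .nil .nil) (.node [⟨.x, .w, (K (.ofNat 228937067059808))⟩] .nil .nil .nil .nil .nil .nil) (.node [⟨.x, .z, (K (.ofNat 415614745340708))⟩] .nil .nil .nil .nil .nil .nil) (.node [⟨.x, .z, (K (.negSucc 350482966981663))⟩] .nil .nil .nil .nil .nil .nil)) (.node [⟨.x, .z, (B N N (K (.ofNat 459437018250480)) (K (.ofNat 130699167719538)))⟩,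
  ⟨.x, T3, (K (.negSucc 176777123284355))⟩,
  ⟨.z, T0, (K (.ofNat 108355665995898))⟩] .nil .nil (.node [⟨.x, .z, (K (.ofNat 176020945617888))⟩] .nil .nil .nil .nil .nil .nil) (.node [⟨.x, .z, (K (.negSucc 576215455332671))⟩] .nil .nil .nil .nil .nil .nil) .nil .nil) (.node [⟨.x, .z, (B N N (K (.negSucc 373131405876587)) (K (.negSucc 335357259758471)))⟩,
  ⟨.x, T3, (K (.negSucc 30049413010355))⟩,
  ⟨.z, T0, (K (.negSucc 409871398937351))⟩] .nil .nil (.node [⟨.x, .z, (K (.ofNat 498720357458454))⟩] .nil .nil .nil .nil .nil .nil) (.node [⟨.x, .z, (K (.negSucc 59040205920431))⟩] .nil .nil .nil .nil .nil .nil) .nil .nil))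

def c_112 : Cert := (.node [⟨.x, .z, (C (A4 (K (.ofNat 2272822221097734))) (C N N N N (K (.ofNat 5868768796451586)) (K (.ofNat 4505103142842330))) N N (B (K (.ofNat 983465192817003)) (K (.negSucc 3318946386548375)) N N) (B (K (.ofNat 1733095970227518)) (K (.ofNat 3865121530951644)) N N))⟩,
  ⟨.x, .w, (B (A2 (K (.negSucc 4585580573945837))) (B N N (K (.negSucc 4916175500057111)) (K (.negSucc 4090775442559433))) (B (K (.ofNat 2152009578204429)) (K (.negSucc 1667516322600017)) N N) (B (K (.negSucc 1138497323436815)) (K (.ofNat 652538677376613)) N N))⟩,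
  ⟨.z, .w, (B (B (K (.ofNat 1787019417561960)) (K (.ofNat 4288893334759215)) N N) (B (K (.ofNat 2321674347036594)) (K (.ofNat 4237262980628079)) N N) N N)⟩,
  ⟨.x, T0, (C N N N N (K (.negSucc 928187697043469)) (K (.ofNat 4414048759404477)))⟩,
  ⟨.x, T1, (B N N (K (.negSucc 819665094930272)) (K (.ofNat 1624703617921056)))⟩,
  ⟨.x, T2, (C N N N N (K (.negSucc 1810113933533330)) (K (.ofNat 36042422278095)))⟩,
  ⟨.x, T4, (B (K (.ofNat 3622810679327712)) (K (.negSucc 599582931049109)) N N)⟩,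
  ⟨.x, T5, (B N N (K (.ofNat 4343151683575884)) (K (.negSucc 291545584859393)))⟩,
  ⟨.x, T6, (B (K (.negSucc 1641599641686920)) (K (.negSucc 2648937806374934)) N N)⟩,
  ⟨.z, T1, (A0 (K (.ofNat 1225879499580801)))⟩,
  ⟨.z, T5, (A0 (K (.negSucc 2343346155964283)))⟩,
  ⟨.x, T12, (K (.negSucc 1818985006877759))⟩,
  ⟨.x, T19, (K (.ofNat 2161250465552757))⟩,
  ⟨.x, T21, (K (.ofNat 1206040898528565))⟩,
  ⟨.x, T24, (K (.negSucc 1297532585796458))⟩,
  ⟨.x, T27, (K (.negSucc 358915562120897))⟩,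
  ⟨.x, T30, (K (.negSucc 30002821204274))⟩,
  ⟨.z, T16, (K (.ofNat 346750371194151))⟩,
  ⟨.z, T20, (K (.negSucc 1624567102591508))⟩] (.node [⟨.x, .z, (C N N N N (K (.negSucc 3452780463384601)) (K (.negSucc 1684328474532804)))⟩,
  ⟨.x, .w, (B N N (K (.negSucc 2568311161774573)) (K (.ofNat 320437962695609)))⟩,
  ⟨.z, .w, (B (K (.negSucc 212529151208475)) (K (.ofNat 2061541347389227)) N N)⟩,
  ⟨.x, T4, (K (.ofNat 77130225474245))⟩,
  ⟨.x, T6, (K (.ofNat 1716209508107815))⟩,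
  ⟨.z, T1, (K (.ofNat 92718114508513))⟩,
  ⟨.z, T5, (K (.negSucc 1759893993715704))⟩] (.node [⟨.z, .w, (K (.negSucc 1704074933293611))⟩] .nil .nil .nil .nil .nil .nil) (.node [⟨.z, .w, (K (.negSucc 178469798010481))⟩] .nil .nil .nil .nil .nil .nil) (.node [⟨.x, .w, (K (.ofNat 1732809424436449))⟩] .nil .nil .nil .nil .nil .nil) (.node [⟨.x, .w, (K (.ofNat 3938400453546356))⟩] .nil .nil .nil .nil .nil .nil) (.node [⟨.x, .z, (K (.negSucc 492318483112365))⟩] .nil .nil .nil .nil .nil .nil) (.node [⟨.x, .z, (K (.ofNat 187089219397837))⟩] .nil .nil .nil .nil .nil .nil)) (.node [⟨.x, .z, (C N N N N (K (.ofNat 396115754372216)) (K (.negSucc 2200132538642974)))⟩,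
  ⟨.x, .w, (B N N (K (.negSucc 3886811307665484)) (K (.negSucc 2107460983701544)))⟩,
  ⟨.z, .w, (B (K (.negSucc 2155945409591227)) (K (.ofNat 2543426663446100)) N N)⟩,
  ⟨.x, T4, (K (.negSucc 1464697772202856))⟩,
  ⟨.x, T6, (K (.ofNat 2210398020393461))⟩,
  ⟨.z, T1, (K (.ofNat 1774609766456627))⟩,
  ⟨.z, T5, (K (.ofNat 2482470350710735))⟩] (.node [⟨.z, .w, (K (.ofNat 1057554696092368))⟩] .nil .nil .nil .nil .nil .nil) (.node [⟨.z, .w, (K (.negSucc 1142739541982286))⟩] .nil .nil .nil .nil .nil .nil) (.node [⟨.x, .w, (K (.negSucc 6560681786877756))⟩] .nil .nil .nil .nil .nil .nil) (.node [⟨.x, .w, (K (.ofNat 80570797135768))⟩] .nil .nil .nil .nil .nil .nil) (.node [⟨.x, .z, (K (.ofNat 5074076078030008))⟩] .nil .nil .nil .nil .nil .nil) (.node [⟨.x, .z, (K (.ofNat 1642601030479601))⟩] .nil .nil .nil .nil .nil .nil)) (.node [⟨.x, .w, (B (K (.ofNat 2585099708564685)) (K (.ofNat 1453303597691376)) N N)⟩,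
  ⟨.x, T1, (K (.negSucc 1762479916804961))⟩,
  ⟨.x, T5, (K (.negSucc 135445627077083))⟩] (.node [⟨.x, .w, (K (.ofNat 159504373251756))⟩] .nil .nil .nil .nil .nil .nil) (.node [⟨.x, .w, (K (.negSucc 2692256005751924))⟩] .nil .nil .nil .nil .nil .nil) .nil .nil .nil .nil) (.node [⟨.x, .w, (B (K (.ofNat 4712554615182363)) (K (.ofNat 3955103034650169)) N N)⟩,
  ⟨.x, T1, (K (.negSucc 2061421503557855))⟩,
  ⟨.x, T5, (K (.negSucc 4446432672456851))⟩] (.node [⟨.x, .w, (K (.ofNat 6059043187791786))⟩] .nil .nil .nil .nil .nil .nil) (.node [⟨.x, .w, (K (.ofNat 1664078989079340))⟩] .nil .nil .nil .nil .nil .nil) .nil .nil .nil .nil) (.node [⟨.x, .z, (B (K (.negSucc 1023206177668622)) (K (.negSucc 2859072579997322)) N N)⟩,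
  ⟨.x, T0, (K (.negSucc 4532325558449387))⟩,
  ⟨.x, T2, (K (.negSucc 1287150376172084))⟩] (.node [⟨.x, .z, (K (.negSucc 1289129211656756))⟩] .nil .nil .nil .nil .nil .nil) (.node [⟨.x, .z, (K (.negSucc 2732801285810864))⟩] .nil .nil .nil .nil .nil .nil) .nil .nil .nil .nil) (.node [⟨.x, .z, (B (K (.negSucc 5273980573772012)) (K (.negSucc 2573851720508396)) N N)⟩,
  ⟨.x, T0, (K (.negSucc 1494568962233366))⟩,
  ⟨.x, T2, (K (.ofNat 2138982221536899))⟩] (.node [⟨.x, .z, (K (.ofNat 1845430712345985))⟩] .nil .nil .nil .nil .nil .nil) (.node [⟨.x, .z, (K (.ofNat 506786020862787))⟩] .nil .nil .nil .nil .nil .nil) .nil .nil .nil .nil))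

def c_113 : Cert := (.node [⟨.x, .z, (C (A4 (K (.ofNat 72959981083386))) (C N N N N (K (.negSucc 849355122673235)) (K (.negSucc 385107244573778))) N N (B (K (.ofNat 296970206627742)) (K (.ofNat 686018483511066)) N N) (B (K (.negSucc 257673244498949)) (K (.negSucc 85682384867501)) N N))⟩,
  ⟨.x, .w, (B (A2 (K (.ofNat 130996642431624))) (B N N (K (.ofNat 447195113281038)) (K (.negSucc 353012525612669))) (B (K (.ofNat 55122254157978)) (K (.ofNat 472747454347032)) N N) (B (K (.negSucc 331851177146435)) (K (.ofNat 55190050980510)) N N))⟩,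
  ⟨.z, .w, (B (B (K (.negSucc 11889721575779)) (K (.negSucc 304714069294235)) N N) (B (K (.negSucc 218003220813473)) (K (.negSucc 158110373022473)) N N) N N)⟩,
  ⟨.x, T0, (C N N N N (K (.ofNat 99144691777770)) (K (.negSucc 297956854688804)))⟩,
  ⟨.x, T1, (B N N (K (.ofNat 83843972027868)) (K (.ofNat 83713217597364)))⟩,
  ⟨.x, T2, (C N N N N (K (.negSucc 86060992080419)) (K (.ofNat 231232742362599)))⟩,
  ⟨.x, T4, (B (K (.negSucc 241289998274591)) (K (.negSucc 52852622125907)) N N)⟩,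
  ⟨.x, T5, (B N N (K (.negSucc 172976946005549)) (K (.negSucc 177493623271247)))⟩,
  ⟨.x, T6, (B (K (.ofNat 34414461094764)) (K (.ofNat 180471153201210)) N N)⟩,
  ⟨.z, T1, (A0 (K (.ofNat 187697214100788)))⟩,
  ⟨.z, T5, (A0 (K (.ofNat 285446205183270)))⟩,
  ⟨.x, T12, (K (.ofNat 9694644137280))⟩,
  ⟨.x, T19, (K (.ofNat 40219051384524))⟩,
  ⟨.x, T21, (K (.negSucc 725109949853))⟩,
  ⟨.x, T24, (K (.negSucc 18657310612409))⟩,
  ⟨.x, T27, (K (.ofNat 40485820296570))⟩,
  ⟨.x, T30, (K (.ofNat 63171664227000))⟩,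
  ⟨.z, T16, (K (.negSucc 70222250586449))⟩,
  ⟨.z, T20, (K (.negSucc 1652746997771))⟩] (.node [⟨.x, .z, (C N N N N (K (.negSucc 241058516232807)) (K (.ofNat 372931545270649)))⟩,
  ⟨.x, .w, (B N N (K (.negSucc 1320619070598)) (K (.ofNat 166516573900480)))⟩,
  ⟨.z, .w, (B (K (.ofNat 380730758970433)) (K (.ofNat 63650662185779)) N N)⟩,
  ⟨.x, T4, (K (.negSucc 77194913473981))⟩,
  ⟨.x, T6, (K (.negSucc 303738342082692))⟩,
  ⟨.z, T1, (K (.ofNat 61588656885554))⟩,
  ⟨.z, T5, (K (.ofNat 57682361806810))⟩] (.node [⟨.z, .w, (K (.ofNat 270670411693015))⟩] .nil .nil .nil .nil .nil .nil) (.node [⟨.z, .w, (K (.ofNat 409353088173185))⟩] .nil .nil .nil .nil .nil .nil) (.node [⟨.x, .w, (K (.ofNat 42436170621065))⟩] .nil .nil .nil .nil .nil .nil) (.node [⟨.x, .w, (K (.negSucc 619126561863610))⟩] .nil .nil .nil .nil .nil .nil) (.node [⟨.x, .z, (K (.negSucc 33916097163631))⟩] .nil .nil .nil .nil .nil .nil) (.node [⟨.x, .z, (K (.ofNat 348114568067852))⟩]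 .nil .nil .nil .nil .nil .nil)) (.node [⟨.x, .z, (C N N N N (K (.ofNat 41474445340306)) (K (.ofNat 138439332516239)))⟩,
  ⟨.x, .w, (B N N (K (.ofNat 100706674551556)) (K (.negSucc 59153325913017)))⟩,
  ⟨.z, .w, (B (K (.ofNat 284684841776816)) (K (.negSucc 55542763326199)) N N)⟩,
  ⟨.x, T4, (K (.ofNat 121422817117124))⟩,
  ⟨.x, T6, (K (.ofNat 8252160535324))⟩,
  ⟨.z, T1, (K (.negSucc 100851954923929))⟩,
  ⟨.z, T5, (K (.negSucc 141078037365729))⟩] (.node [⟨.z, .w, (K (.negSucc 338713535095632))⟩] .nil .nil .nil .nil .nil .nil) (.node [⟨.z, .w, (K (.negSucc 153741761326783))⟩] .nil .nil .nil .nil .nil .nil) (.node [⟨.x, .w, (K (.ofNat 730015474147543))⟩] .nil .nil .nil .nil .nil .nil) (.node [⟨.x, .w, (K (.ofNat 108844377604484))⟩] .nil .nil .nil .nil .nil .nil) (.node [⟨.x, .z, (K (.negSucc 335625351626055))⟩] .nil .nil .nil .nil .nil .nil) (.node [⟨.x, .z, (K (.negSucc 167025638073181))⟩] .nil .nil .nil .nil .nil .nil)) (.node [⟨.x,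 .w, (B (K (.negSucc 296827357652591)) (K (.negSucc 6380107148873)) N N)⟩,
  ⟨.x, T1, (K (.ofNat 197417894810298))⟩,
  ⟨.x, T5, (K (.negSucc 104240791844519))⟩] (.node [⟨.x, .w, (K (.ofNat 2696657868060))⟩] .nil .nil .nil .nil .nil .nil) (.node [⟨.x, .w, (K (.ofNat 497033251823454))⟩] .nil .nil .nil .nil .nil .nil) .nil .nil .nil .nil) (.node [⟨.x, .w, (B (K (.negSucc 458256219162293)) (K (.negSucc 2390869428821)) N N)⟩,
  ⟨.x, T1, (K (.ofNat 21116233729614))⟩,
  ⟨.x, T5, (K (.ofNat 188116033628262))⟩] (.node [⟨.x, .w, (K (.negSucc 519213074122700))⟩] .nil .nil .nil .nil .nil .nil) (.node [⟨.x, .w, (K (.ofNat 49078928009988))⟩] .nil .nil .nil .nil .nil .nil) .nil .nil .nil .nil) (.node [⟨.x, .z, (B (K (.negSucc 402520795120211)) (K (.negSucc 271675760039741)) N N)⟩,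
  ⟨.x, T0, (K (.ofNat 421421303421096))⟩,
  ⟨.x, T2, (K (.ofNat 524805070378176))⟩] (.node [⟨.x, .z, (K (.ofNat 402494091875154))⟩] .nil .nil .nil .nil .nil .nil) (.node [⟨.x, .z, (K (.ofNat 572585353813140))⟩] .nil .nil .nil .nil .nil .nil) .nil .nil .nil .nil) (.node [⟨.x, .z, (B (K (.ofNat 291713550246162)) (K (.ofNat 74724162418494)) N N)⟩,
  ⟨.x, T0, (K (.negSucc 63831096588971))⟩,
  ⟨.x, T2, (K (.negSucc 89918301404273))⟩] (.node [⟨.x, .z, (K (.negSucc 389709358755119))⟩] .nil .nil .nil .nil .nil .nil) (.node [⟨.x, .z, (K (.negSucc 5113314454373))⟩] .nil .nil .nil .nil .nil .nil) .nil .nil .nil .nil))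

def c_114 : Cert := (.node [⟨.x, .z, (B (A2 (K (.ofNat 908679238790442))) (B N N (K (.negSucc 947324657382515)) (K (.negSucc 1119303017910779))) (B (K (.negSucc 1480769632740413)) (K (.negSucc 668157464070893)) N N) (B (K (.negSucc 426345282202523)) (K (.ofNat 772992124111338)) N N))⟩,
  ⟨.x, T0, (B N N (K (.negSucc 163700025710441)) (K (.negSucc 1277666780534945)))⟩,
  ⟨.x, T2, (B N N (K (.negSucc 904054547163779)) (K (.ofNat 39119499683064)))⟩,
  ⟨.x, T3, (B (K (.negSucc 196760106892859)) (K (.ofNat 477035124573750)) N N)⟩,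
  ⟨.z, T0, (A0 (K (.negSucc 1844706401239265)))⟩,
  ⟨.x, T11, (K (.ofNat 193981064019876))⟩,
  ⟨.x, T18, (K (.ofNat 13177232480034))⟩,
  ⟨.x, T23, (K (.ofNat 286692896504256))⟩,
  ⟨.x, T25, (K (.negSucc 178369859346875))⟩,
  ⟨.z, T15, (K (.negSucc 211766832833555))⟩,
  ⟨.z, T17, (K (.negSucc 260102761927271))⟩] (.node [⟨.x, .z, (B N N (K (.negSucc 200893918355057)) (K (.ofNat 440270538848538)))⟩,
  ⟨.x, T3, (K (.ofNat 660662441378430))⟩,
  ⟨.z, T0, (K (.ofNat 61554901765200))⟩] .nil .nil (.node [⟨.x, .z, (K (.negSucc 81732902580395))⟩] .nil .nil .nil .nil .nil .nil) (.node [⟨.x, .z, (K (.negSucc 999034669870763))⟩] .nil .nil .nil .nil .nil .nil) .nil .nil) (.node [⟨.x, .z, (B N N (K (.negSucc 1473682938125777)) (K (.negSucc 34432629101309)))⟩,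
  ⟨.x, T3, (K (.ofNat 127123225085556))⟩,
  ⟨.z, T0, (K (.negSucc 1659352241286059))⟩] .nil .nil (.node [⟨.x, .z, (K (.ofNat 1065838423483314))⟩] .nil .nil .nil .nil .nil .nil) (.node [⟨.x, .z, (K (.negSucc 236374474639361))⟩] .nil .nil .nil .nil .nil .nil) .nil .nil) (.node [⟨.x, .z, (B (K (.ofNat 211942276327980)) (K (.negSucc 736828911960893)) N N)⟩,
  ⟨.x, T0, (K (.negSucc 943336862103419))⟩,
  ⟨.x, T2, (K (.negSucc 220820446987631))⟩] (.node [⟨.x, .z, (K (.negSucc 220820446987631))⟩] .nil .nil .nil .nil .nil .nil) (.node [⟨.x, .z, (K (.ofNat 981746448856362))⟩] .nil .nil .nil .nil .nil .nil) .nil .nil .nil .nil) (.node [⟨.x, .z, (B (K (.ofNat 2198800583320806)) (K (.ofNat 1298581655040264)) N N)⟩,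
  ⟨.x, T0, (K (.negSucc 67975829861447))⟩,
  ⟨.x, T2, (K (.negSucc 1747328722348661))⟩] (.node [⟨.x, .z, (K (.negSucc 2046429084148181))⟩] .nil .nil .nil .nil .nil .nil) (.node [⟨.x, .z, (K (.negSucc 712531918374875))⟩] .nil .nil .nil .nil .nil .nil) .nil .nil .nil .nil) .nil .nil)

def c_115 : Cert := (.node [⟨.x, .z, (B (A2 (K (.negSucc 205722691171007))) (B N N (K (.ofNat 342855635270526)) (K (.ofNat 679424758888506))) (B (K (.ofNat 266300092731246)) (K (.ofNat 169685424775980)) N N) (B (K (.ofNat 64954964101080)) (K (.negSucc 99622394939963)) N N))⟩,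
  ⟨.x, T0, (B N N (K (.negSucc 68502409729409)) (K (.ofNat 287310769295586)))⟩,
  ⟨.x, T2, (B N N (K (.ofNat 253378779474840)) (K (.negSucc 109454544120869)))⟩,
  ⟨.x, T3, (B (K (.ofNat 115881059265756)) (K (.negSucc 114531663764321)) N N)⟩,
  ⟨.z, T0, (A0 (K (.ofNat 499744643965812)))⟩,
  ⟨.x, T11, (K (.ofNat 29043252955896))⟩,
  ⟨.x, T18, (K (.negSucc 90054912215915))⟩,
  ⟨.x, T23, (K (.negSucc 39166830490175))⟩,
  ⟨.x, T25, (K (.ofNat 56851900789404))⟩,
  ⟨.z, T15, (K (.ofNat 70867735517136))⟩,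
  ⟨.z, T17, (K (.negSucc 27366427357811))⟩] (.node [⟨.x, .z, (B N N (K (.ofNat 425432898534378)) (K (.ofNat 3995799429570)))⟩,
  ⟨.x, T3, (K (.negSucc 17071936911245))⟩,
  ⟨.z, T0, (K (.ofNat 124210844414016))⟩] .nil .nil (.node [⟨.x, .z, (K (.negSucc 95129318062415))⟩] .nil .nil .nil .nil .nil .nil) (.node [⟨.x, .z, (K (.ofNat 25489674002022))⟩] .nil .nil .nil .nil .nil .nil) .nil .nil) (.node [⟨.x, .z, (B N N (K (.negSucc 46405589775041)) (K (.negSucc 237020238205151)))⟩,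
  ⟨.x, T3, (K (.ofNat 90179790545772))⟩,
  ⟨.z, T0, (K (.ofNat 160426184786706))⟩] .nil .nil (.node [⟨.x, .z, (K (.negSucc 425887825496891))⟩] .nil .nil .nil .nil .nil .nil) (.node [⟨.x, .z, (K (.ofNat 75930329005980))⟩] .nil .nil .nil .nil .nil .nil) .nil .nil) (.node [⟨.x, .z, (B (K (.negSucc 702799963599197)) (K (.negSucc 320567749640303)) N N)⟩,
  ⟨.x, T0, (K (.ofNat 153262952598546))⟩,
  ⟨.x, T2, (K (.ofNat 429870341578668))⟩] (.node [⟨.x, .z, (K (.ofNat 429870341578668))⟩] .nil .nil .nil .nil .nil .nil) (.node [⟨.x, .z, (K (.ofNat 118733814520758))⟩] .nil .nil .nil .nil .nil .nil) .nil .nil .nil .nil) (.node [⟨.x, .z, (B (K (.negSucc 58880958566453)) (K (.ofNat 136450123873836)) N N)⟩,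
  ⟨.x, T0, (K (.negSucc 72480669426923))⟩,
  ⟨.x, T2, (K (.ofNat 62297040453726))⟩] (.node [⟨.x, .z, (K (.ofNat 144385157216784))⟩] .nil .nil .nil .nil .nil .nil) (.node [⟨.x, .z, (K (.negSucc 59957641877651))⟩] .nil .nil .nil .nil .nil .nil) .nil .nil .nil .nil) .nil .nil)

def c_11 : Cert := (.node [⟨.x, .z, (C (C N N (A4 (K (.ofNat 191984212909344))) N (A2 (K (.ofNat 158668832636796))) N) (C N N N (A5 (K (.ofNat 130591707251325))) (A3 (K (.ofNat 169722038935830))) (B N N (K (.ofNat 82448269668021)) (K (.ofNat 217348258718106)))) (C (A4 (K (.negSucc 101982993274613))) (C N N N N (K (.negSucc 62909495740901)) (K (.negSucc 32655440072735))) N N (B (K (.negSucc 233370827351915)) (K (.negSucc 550543456047101)) N N) N) (C (A4 (K (.ofNat 11052714582240))) (C N N N N (K (.ofNat 466385684630919)) (K (.negSucc 80000296747682))) N N (B (K (.negSucc 151871367985442)) (K (.negSucc 237724457083721)) N N) (B (K (.ofNat 5992707791640)) (K (.negSucc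 91104855555401)) N N)) (B (A2 (K (.negSucc 104435464064441))) (B N N (K (.negSucc 100262989024730)) (K (.negSucc 30564710945441))) (B (K (.negSucc 280520482230935)) (K (.negSucc 715841166229730)) N N) (B (K (.ofNat 111912137069211)) (K (.ofNat 53570465216277)) N N)) (B (A2 (K (.negSucc 86888844857780))) (B N N (K (.ofNat 186756788465748)) (K (.ofNat 373664690545974))) (B (K (.negSucc 103486498785767)) (K (.negSucc 54220899449009)) N N) (B (K (.ofNat 98738844526566)) (K (.ofNat 79922224183644)) N N)))⟩,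
  ⟨.x, .w, (B (A2 (A2 (K (.ofNat 113797171836030)))) (B N N (A3 (K (.negSucc 263815567468913))) (B N N (K (.negSucc 276832145768063)) (K (.negSucc 104011208257115)))) (B (A2 (K (.negSucc 214560753683033))) (B N N (K (.negSucc 323781752203025)) (K (.negSucc 46952915648549))) (B (K (.ofNat 63395166447450)) (K (.negSucc 118500892155053)) N N) (B (K (.ofNat 222703245574746)) (K (.negSucc 24920870073575)) N N)) (B (A2 (K (.negSucc 117815673791477))) (B N N (K (.ofNat 854046371787738)) (K (.ofNat 244655273409456))) (B (K (.ofNat 237408218261976)) (K (.ofNat 297327943731138)) N N) (B (K (.ofNat 67359942975534)) (K (.ofNat 162630992616006)) N N)))⟩,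
  ⟨.z, .w, (B (B (A2 (K (.ofNat 39578006477850))) N (B (K (.negSucc 41746736920163)) (K (.ofNat 47119902380772)) N N) N) (B (A2 (K (.negSucc 177942528626015))) (B N N (K (.negSucc 43817706960497)) (K (.ofNat 175068417448482))) (B (K (.negSucc 132674240899649)) (K (.ofNat 126686102731890)) N N) (B (K (.negSucc 206714457091205)) (K (.ofNat 96589378462938)) N N)) (B (B (K (.negSucc 63937519776779)) (K (.ofNat 59279078741598)) N N) (B (K (.negSucc 51227611323875)) (K (.ofNat 150057162260280)) N N) N N) (B (B (K (.negSucc 1913847595205)) (K (.negSucc 260547299088149)) N N) (B (K (.negSucc 298280292798701)) (K (.negSucc 279905723002169)) N N) N N))⟩,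
  ⟨.x, T0, (C N N (A4 (K (.negSucc 14395970616935))) (C N N N N (K (.negSucc 329608747501118)) (K (.ofNat 49174281450789))) (B N N (K (.negSucc 10094709535397)) (K (.ofNat 158454830289357))) (B N N (K (.negSucc 73504814570690)) (K (.ofNat 184720548230010))))⟩,
  ⟨.x, T1, (B N N (B N N (K (.negSucc 65377778202749)) (K (.ofNat 135119911404678))) (B N N (K (.ofNat 315930765192570)) (K (.ofNat 133354244307810))))⟩,
  ⟨.x, T2, (C N N (A4 (K (.negSucc 354054597474941))) (C N N N N (K (.ofNat 323946253917333)) (K (.ofNat 125787880895580))) (B N N (K (.negSucc 321959553930161)) (K (.negSucc 126787489244372))) (B N N (K (.ofNat 127921164907965)) (K (.negSucc 548700314111))))⟩,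
  ⟨.x, T3, (C (A4 (K (.negSucc 218848684912217))) (C N N N N (K (.ofNat 46625068500237)) (K (.negSucc 228877323619787))) N N (B (K (.ofNat 94310524648476)) (K (.ofNat 88658728371819)) N N) (B (K (.ofNat 55185835213467)) (K (.negSucc 131826689707481)) N N))⟩,
  ⟨.x, T4, (B (A2 (K (.negSucc 32723846551661))) (B N N (K (.negSucc 496489639813367)) (K (.negSucc 478153759198241))) (B (K (.ofNat 252928982427384)) (K (.ofNat 22143768365352)) N N) (B (K (.ofNat 669259463676)) (K (.negSucc 148496785714037)) N N))⟩,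
  ⟨.x, T5, (B N N (B N N (K (.negSucc 107031743994917)) (K (.ofNat 131896025593368))) (B N N (K (.ofNat 146627868540492)) (K (.ofNat 157297348105182))))⟩,
  ⟨.x, T6, (B (A2 (K (.ofNat 19647129258588))) (B N N (K (.negSucc 357120942060185)) (K (.negSucc 566528497800773))) (B (K (.ofNat 107225559284520)) (K (.negSucc 73693480873715)) N N) (B (K (.negSucc 28829691224597)) (K (.negSucc 29647863815075)) N N))⟩,
  ⟨.z, T0, (C (A4 (K (.negSucc 231225108981635))) (A5 (K (.negSucc 484258301078792))) N N (B (K (.negSucc 137842417556735)) (K (.negSucc 257707209170549)) N N) (A1 (K (.negSucc 107245349936729))))⟩,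
  ⟨.z, T1, (B (A2 (K (.ofNat 47238555807606))) (A3 (K (.ofNat 310144940153160))) (B (K (.negSucc 172585831089041)) (K (.negSucc 303077907575987)) N N) (A1 (K (.negSucc 64459374507839))))⟩,
  ⟨.z, T4, (B (B (K (.ofNat 40772932299408)) (K (.ofNat 211791115993590)) N N) (B (K (.ofNat 433505060380350)) (K (.ofNat 267145812733734)) N N) N N)⟩,
  ⟨.z, T5, (B (A2 (K (.ofNat 216999095397258))) (A3 (K (.ofNat 174650610491268))) (A0 (K (.negSucc 79248111680537))) N)⟩,
  ⟨.z, T6, (A1 (B (K (.negSucc 57514239257645)) (K (.ofNat 69416507628468)) N N))⟩,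
  ⟨.x, T11, (C N N N N (K (.negSucc 65863119199559)) (K (.negSucc 10431495840383)))⟩,
  ⟨.x, T12, (A3 (K (.negSucc 9154905192575)))⟩,
  ⟨.x, T13, (B (K (.negSucc 82777010789447)) (K (.negSucc 53784182726177)) N N)⟩,
  ⟨.x, T18, (C N N N N (K (.ofNat 217880335497342)) (K (.negSucc 27951486880118)))⟩,
  ⟨.x, T19, (B N N (K (.ofNat 50721072729606)) (K (.negSucc 183267609129443)))⟩,
  ⟨.x, T21, (B N N (K (.negSucc 147675068616839)) (K (.negSucc 170551217725631)))⟩,
  ⟨.x, T23, (C N N N N (K (.ofNat 140694623423070)) (K (.ofNat 159381410035365)))⟩,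
  ⟨.x, T24, (B N N (K (.ofNat 157335974678688)) (K (.ofNat 135701629667784)))⟩,
  ⟨.x, T25, (C N N N N (K (.negSucc 248628850277129)) (K (.negSucc 125575791304283)))⟩,
  ⟨.x, T26, (B (K (.ofNat 20331770425824)) (K (.ofNat 53787010310154)) N N)⟩,
  ⟨.x, T27, (B N N (K (.ofNat 195050870878350)) (K (.ofNat 120291509748078)))⟩,
  ⟨.x, T28, (B (K (.ofNat 39494749432704)) (K (.ofNat 68019672264840)) N N)⟩,
  ⟨.x, T30, (A3 (K (.ofNat 10910989915200)))⟩,
  ⟨.x, T31, (B (K (.negSucc 18398929575839)) (K (.ofNat 4310775870144)) N N)⟩,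
  ⟨.z, T15, (C N N N N (K (.negSucc 136705273246013)) (K (.ofNat 46694140684290)))⟩,
  ⟨.z, T16, (A2 (K (.negSucc 193966651429781)))⟩,
  ⟨.z, T17, (C N N N N (K (.ofNat 404174555256)) (K (.negSucc 32090269575977)))⟩,
  ⟨.z, T20, (A2 (K (.negSucc 42839778300005)))⟩,
  ⟨.x, T78, (K (.negSucc 1092664111103))⟩,
  ⟨.x, T36, (K (.ofNat 36194759881080))⟩,
  ⟨.x, T48, (K (.negSucc 46571105936879))⟩,
  ⟨.x, T50, (K (.negSucc 13917401067167))⟩,
  ⟨.x, T79, (K (.ofNat 20364034932912))⟩,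
  ⟨.x, T87, (K (.ofNat 8901854367840))⟩,
  ⟨.x, T80, (K (.negSucc 2326238397503))⟩,
  ⟨.x, T81, (K (.negSucc 23797713913631))⟩,
  ⟨.x, T82, (K (.ofNat 52406317972944))⟩,
  ⟨.x, T103, (K (.ofNat 41168243319408))⟩,
  ⟨.x, T104, (K (.negSucc 5089911812639))⟩,
  ⟨.x, T105, (K (.ofNat 8270829355104))⟩,
  ⟨.x, T83, (K (.ofNat 7501742706528))⟩,
  ⟨.z, T41, (K (.negSucc 9297159729695))⟩,
  ⟨.z, T43, (K (.negSucc 1277839543103))⟩,
  ⟨.z, T46, (K (.ofNat 19657750992912))⟩] c_110 c_111 c_112 c_113 c_114 c_115)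

def c_120 : Cert := (.node [⟨.x, .z, (C (A4 (K (.ofNat 1304735344002918))) (C N N N N (K (.ofNat 145972368640305)) (K (.negSucc 1260035464244327))) N N (B (K (.ofNat 517787683973562)) (K (.ofNat 1197246928950486)) N N) (B (K (.negSucc 183022998305978)) (K (.ofNat 67021313374854)) N N))⟩,
  ⟨.x, .w, (B (A2 (K (.ofNat 877780873387386))) (B N N (K (.ofNat 94476107466810)) (K (.negSucc 753145087788089))) (B (K (.negSucc 1207685519430515)) (K (.ofNat 354495933307710)) N N) (B (K (.ofNat 162528137733282)) (K (.ofNat 71424290941326)) N N))⟩,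
  ⟨.z, .w, (B (B (K (.ofNat 1134768303749964)) (K (.ofNat 1444420840969506)) N N) (B (K (.ofNat 574573590624444)) (K (.negSucc 441783400609745)) N N) N N)⟩,
  ⟨.x, T0, (C N N N N (K (.ofNat 44813844515682)) (K (.negSucc 1351041322276367)))⟩,
  ⟨.x, T1, (B N N (K (.ofNat 133472162212416)) (K (.ofNat 1031734329910776)))⟩,
  ⟨.x, T2, (C N N N N (K (.negSucc 1081805437091519)) (K (.negSucc 3888785414879)))⟩,
  ⟨.x, T4, (B (K (.negSucc 1137666792784349)) (K (.negSucc 500539403910149)) N N)⟩,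
  ⟨.x, T5, (B N N (K (.negSucc 1472454074963285)) (K (.negSucc 398454540550037)))⟩,
  ⟨.x, T6, (B (K (.ofNat 119151193821366)) (K (.negSucc 141304233382415)) N N)⟩,
  ⟨.z, T1, (A0 (K (.ofNat 1088908645563048)))⟩,
  ⟨.z, T5, (A0 (K (.ofNat 577825932459552)))⟩,
  ⟨.x, T12, (K (.ofNat 333305444475900))⟩,
  ⟨.x, T19, (K (.negSucc 816021807957701))⟩,
  ⟨.x, T21, (K (.negSucc 95739624740969))⟩,
  ⟨.x, T24, (K (.ofNat 73968313668462))⟩,
  ⟨.x, T27, (K (.negSucc 376559497753685))⟩,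
  ⟨.x, T30, (K (.ofNat 96432713467344))⟩,
  ⟨.z, T16, (K (.ofNat 71399937499308))⟩,
  ⟨.z, T20, (K (.negSucc 195920181136061))⟩] (.node [⟨.x, .z, (C N N N N (K (.ofNat 488462683191426)) (K (.ofNat 1316890226816028)))⟩,
  ⟨.x, .w, (B N N (K (.negSucc 73654128730925)) (K (.negSucc 1387875060610361)))⟩,
  ⟨.z, .w, (B (K (.ofNat 1253828064095466)) (K (.negSucc 209583487040903)) N N)⟩,
  ⟨.x, T4, (K (.ofNat 389802134291778))⟩,
  ⟨.x, T6, (K (.negSucc 1330305293601827))⟩,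
  ⟨.z, T1, (K (.ofNat 1366223498755452))⟩,
  ⟨.z, T5, (K (.ofNat 1396079274155616))⟩] (.node [⟨.z, .w, (K (.ofNat 1180249275216384))⟩] .nil .nil .nil .nil .nil .nil) (.node [⟨.z, .w, (K (.ofNat 1363009360584888))⟩] .nil .nil .nil .nil .nil .nil) (.node [⟨.x, .w, (K (.negSucc 1396052185308767))⟩] .nil .nil .nil .nil .nil .nil) (.node [⟨.x, .w, (K (.negSucc 2346643059163469))⟩] .nil .nil .nil .nil .nil .nil) (.node [⟨.x, .z, (K (.ofNat 1008590441925960))⟩] .nil .nil .nil .nil .nil .nil) (.node [⟨.x, .z, (K (.ofNat 8701281964116))⟩] .nil .nil .nil .nil .nil .nil)) (.node [⟨.x, .z, (C N N N N (K (.negSucc 781549247463725)) (K (.negSucc 557082879994877)))⟩,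
  ⟨.x, .w, (B N N (K (.ofNat 1589653819605102)) (K (.ofNat 67730786040504)))⟩,
  ⟨.z, .w, (B (K (.ofNat 1212657192016302)) (K (.ofNat 530950617983994)) N N)⟩,
  ⟨.x, T4, (K (.ofNat 1308205768788480))⟩,
  ⟨.x, T6, (K (.negSucc 156365126323949))⟩,
  ⟨.z, T1, (K (.negSucc 1196420105554067))⟩,
  ⟨.z, T5, (K (.negSucc 1193020276382249))⟩] (.node [⟨.z, .w, (K (.negSucc 231526887564029))⟩] .nil .nil .nil .nil .nil .nil) (.node [⟨.z, .w, (K (.negSucc 622028551394873))⟩] .nil .nil .nil .nil .nil .nil) (.node [⟨.x, .w, (K (.ofNat 2133002609303613))⟩] .nil .nil .nil .nil .nil .nil) (.node [⟨.x, .w, (K (.ofNat 1318207654239897))⟩] .nil .nil .nil .nil .nil .nil) (.node [⟨.x, .z, (K (.negSucc 236451298887419))⟩] .nil .nil .nil .nil .nil .nil) (.node [⟨.x, .z, (K (.negSucc 899548844156489))⟩] .nil .nil .nil .nil .nil .nil)) (.node [⟨.x, .w, (B (K (.negSucc 546430326390005)) (K (.ofNat 640176435658044)) N N)⟩,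
  ⟨.x, T1, (K (.negSucc 986040349860455))⟩,
  ⟨.x, T5, (K (.negSucc 31103257147433))⟩] (.node [⟨.x, .w, (K (.ofNat 31103257147434))⟩] .nil .nil .nil .nil .nil .nil) (.node [⟨.x, .w, (K (.ofNat 970010536906854))⟩] .nil .nil .nil .nil .nil .nil) .nil .nil .nil .nil) (.node [⟨.x, .w, (B (K (.negSucc 1579493684194145)) (K (.negSucc 801778418123264)) N N)⟩,
  ⟨.x, T1, (K (.negSucc 198175859604287))⟩,
  ⟨.x, T5, (K (.ofNat 743981562427995))⟩] (.node [⟨.x, .w, (K (.negSucc 743108592847508))⟩] .nil .nil .nil .nil .nil .nil) (.node [⟨.x, .w, (K (.ofNat 769945063732155))⟩] .nil .nil .nil .nil .nil .nil) .nil .nil .nil .nil) (.node [⟨.x, .z, (B (K (.ofNat 904309075512096)) (K (.ofNat 1039128907467726)) N N)⟩,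
  ⟨.x, T0, (K (.ofNat 1188334088895132))⟩,
  ⟨.x, T2, (K (.ofNat 83927503921644))⟩] (.node [⟨.x, .z, (K (.ofNat 102715492597308))⟩] .nil .nil .nil .nil .nil .nil) (.node [⟨.x, .z, (K (.negSucc 987744288145409))⟩] .nil .nil .nil .nil .nil .nil) .nil .nil .nil .nil) (.node [⟨.x, .z, (B (K (.negSucc 466521542787647)) (K (.negSucc 1093501011832973)) N N)⟩,
  ⟨.x, T0, (K (.ofNat 309060703504818))⟩,
  ⟨.x, T2, (K (.ofNat 1622561373594324))⟩] (.node [⟨.x, .z, (K (.ofNat 1235492602668846))⟩] .nil .nil .nil .nil .nil .nil) (.node [⟨.x, .z, (K (.ofNat 452882984360094))⟩] .nil .nil .nil .nil .nil .nil) .nil .nil .nil .nil))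

def c_121 : Cert := (.node [⟨.x, .z, (C (A4 (K (.ofNat 1875594183728190))) (C N N N N (K (.ofNat 7468981259141418)) (K (.ofNat 6718967342447388))) N N (B (K (.ofNat 125912828797497)) (K (.negSucc 5060425299973469)) N N) (B (K (.ofNat 1196574522482118)) (K (.ofNat 6067392619521912)) N N))⟩,
  ⟨.x, .w, (B (A2 (K (.negSucc 6513276230282363))) (B N N (K (.negSucc 7144055504448437)) (K (.negSucc 4042882080282347))) (B (K (.ofNat 3043019234847885)) (K (.negSucc 2153857157672411)) N N) (B (K (.negSucc 1434733165237091)) (K (.ofNat 1381002488298195)) N N))⟩,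
  ⟨.z, .w, (B (B (K (.ofNat 2756240655525468)) (K (.ofNat 7852731518367927)) N N) (B (K (.ofNat 5561061696911226)) (K (.ofNat 4675325753977581)) N N) N N)⟩,
  ⟨.x, T0, (C N N N N (K (.negSucc 1288226850813941)) (K (.ofNat 5707711682791413)))⟩,
  ⟨.x, T1, (B N N (K (.negSucc 1070344928614334)) (K (.ofNat 1473638859508902)))⟩,
  ⟨.x, T2, (C N N N N (K (.negSucc 2195168278188554)) (K (.negSucc 31365771715925)))⟩,
  ⟨.x, T4, (B (K (.ofNat 4018238429866464)) (K (.negSucc 246090614846315)) N N)⟩,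
  ⟨.x, T5, (B N N (K (.ofNat 6520030181992716)) (K (.negSucc 349231519066901)))⟩,
  ⟨.x, T6, (B (K (.negSucc 1884630139123952)) (K (.negSucc 4737715548605912)) N N)⟩,
  ⟨.z, T1, (A0 (K (.ofNat 287902198805229)))⟩,
  ⟨.z, T5, (A0 (K (.negSucc 3317760488362481)))⟩,
  ⟨.x, T12, (K (.negSucc 1527516085269347))⟩,
  ⟨.x, T19, (K (.ofNat 2213514651881121))⟩,
  ⟨.x, T21, (K (.ofNat 1313613934048911))⟩,
  ⟨.x, T24, (K (.negSucc 1118670139519670))⟩,
  ⟨.x, T27, (K (.negSucc 358960296186005))⟩,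
  ⟨.x, T30, (K (.ofNat 103022349505821))⟩,
  ⟨.z, T16, (K (.ofNat 4668189109143))⟩,
  ⟨.z, T20, (K (.negSucc 1714655419073042))⟩] (.node [⟨.x, .z, (C N N N N (K (.negSucc 3431989183719377)) (K (.negSucc 3660459154892105)))⟩,
  ⟨.x, .w, (B N N (K (.negSucc 2415228401927177)) (K (.ofNat 1060930884757701)))⟩,
  ⟨.z, .w, (B (K (.ofNat 191898341449770)) (K (.ofNat 1862225272126119)) N N)⟩,
  ⟨.x, T4, (K (.ofNat 959690120867085))⟩,
  ⟨.x, T6, (K (.ofNat 2895534352291515))⟩,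
  ⟨.z, T1, (K (.negSucc 545653218518372))⟩,
  ⟨.z, T5, (K (.negSucc 3595105176514430))⟩] (.node [⟨.z, .w, (K (.negSucc 1975472444155235))⟩] .nil .nil .nil .nil .nil .nil) (.node [⟨.z, .w, (K (.negSucc 947491442014454))⟩] .nil .nil .nil .nil .nil .nil) (.node [⟨.x, .w, (K (.ofNat 3357919654701180))⟩] .nil .nil .nil .nil .nil .nil) (.node [⟨.x, .w, (K (.ofNat 6079730725252953))⟩] .nil .nil .nil .nil .nil .nil) (.node [⟨.x, .z, (K (.negSucc 2119746444306647))⟩] .nil .nil .nil .nil .nil .nil) (.node [⟨.x, .z, (K (.negSucc 337939612091402))⟩] .nil .nil .nil .nil .nil .nil)) (.node [⟨.x, .z, (C N N N N (K (.ofNat 841140494346846)) (K (.negSucc 3312270174934190)))⟩,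
  ⟨.x, .w, (B N N (K (.negSucc 5197169492511263)) (K (.negSucc 2566294485996944)))⟩,
  ⟨.z, .w, (B (K (.negSucc 2625286758742667)) (K (.ofNat 3991842752831469)) N N)⟩,
  ⟨.x, T4, (K (.negSucc 2013129246075698))⟩,
  ⟨.x, T6, (K (.ofNat 2547389321165856))⟩,
  ⟨.z, T1, (K (.ofNat 2593770926838171))⟩,
  ⟨.z, T5, (K (.ofNat 3366001076580525))⟩] (.node [⟨.z, .w, (K (.ofNat 2958090394497489))⟩] .nil .nil .nil .nil .nil .nil) (.node [⟨.z, .w, (K (.negSucc 162859721652137))⟩] .nil .nil .nil .nil .nil .nil) (.node [⟨.x, .w, (K (.negSucc 8983215717962852))⟩] .nil .nil .nil .nil .nil .nil) (.node [⟨.x, .w, (K (.negSucc 503346749136572))⟩] .nil .nil .nil .nil .nil .nil) (.node [⟨.x, .z, (K (.ofNat 5965699427113188))⟩] .nil .nil .nil .nil .nil .nil) (.node [⟨.x, .z, (K (.ofNat 2322258623784729))⟩] .nil .nil .nil .nil .nil .nil)) (.node [⟨.x, .w, (B (K (.ofNat 357527109363435)) (K (.ofNat 1588585595647395)) N N)⟩,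
  ⟨.x, T1, (K (.negSucc 1226306332695707))⟩,
  ⟨.x, T5, (K (.ofNat 1306097731362771))⟩] (.node [⟨.x, .w, (K (.negSucc 2231345541935051))⟩] .nil .nil .nil .nil .nil .nil) (.node [⟨.x, .w, (K (.negSucc 5179582894413824))⟩] .nil .nil .nil .nil .nil .nil) .nil .nil .nil .nil) (.node [⟨.x, .w, (B (K (.ofNat 7667180242624647)) (K (.ofNat 4334075604061077)) N N)⟩,
  ⟨.x, T1, (K (.negSucc 2300024884079729))⟩,
  ⟨.x, T5, (K (.negSucc 6677201809379777))⟩] (.node [⟨.x, .w, (K (.ofNat 7497975189596466))⟩] .nil .nil .nil .nil .nil .nil) (.node [⟨.x, .w, (K (.ofNat 1795641847394199))⟩] .nil .nil .nil .nil .nil .nil) .nil .nil .nil .nil) (.node [⟨.x, .z, (B (K (.ofNat 996477924197787)) (K (.negSucc 4444611713992076)) N N)⟩,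
  ⟨.x, T0, (K (.negSucc 6588786651635099))⟩,
  ⟨.x, T2, (K (.negSucc 2628032360555762))⟩] (.node [⟨.x, .z, (K (.negSucc 2900960763942878))⟩] .nil .nil .nil .nil .nil .nil) (.node [⟨.x, .z, (K (.negSucc 3570762695079416))⟩] .nil .nil .nil .nil .nil .nil) .nil .nil .nil .nil) (.node [⟨.x, .z, (B (K (.negSucc 6640565504068448)) (K (.negSucc 3219438874205126)) N N)⟩,
  ⟨.x, T0, (K (.negSucc 1562560802585132))⟩,
  ⟨.x, T2, (K (.ofNat 2872883099947527))⟩] (.node [⟨.x, .z, (K (.ofNat 2250790899610629))⟩] .nil .nil .nil .nil .nil .nil) (.node [⟨.x, .z, (K (.ofNat 1126383559168629))⟩] .nil .nil .nil .nil .nil .nil) .nil .nil .nil .nil))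

def c_12 : Cert := (.node [⟨.x, .z, (C (C (A4 (K (.negSucc 364756911943931))) N N N (B (K (.ofNat 485031870424668)) (K (.negSucc 687265516105937)) N N) N) (C (A4 (K (.negSucc 681091998370217))) (C N N N N (K (.negSucc 325748254020533)) (K (.negSucc 187558376535521))) N N (B (K (.ofNat 1189221918320325)) (K (.negSucc 1136431712127464)) N N) (B (K (.ofNat 1552174180811058)) (K (.negSucc 1721185638389657)) N N)) N N (B (B (K (.ofNat 474898225246722)) (K (.negSucc 270427861735220)) N N) (B (K (.negSucc 1008233768258693)) (K (.ofNat 1040733158189661)) N N) N N) (B (B (K (.ofNat 1263196480767765)) (K (.ofNat 105120681809844)) N N) (B (K (.ofNat 1391779407383976)) (K (.negSucc 834503209115597)) N N) N N))⟩,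
  ⟨.x, .w, (B (B (A2 (K (.negSucc 720845692695089))) N (B (K (.negSucc 683218016668337)) (K (.ofNat 1793766481847172)) N N) N) (B (A2 (K (.negSucc 466313424348383))) (B N N (K (.negSucc 904567122025745)) (K (.negSucc 774046186642649))) (B (K (.negSucc 1438127474391869)) (K (.ofNat 1242213005816208)) N N) (B (K (.negSucc 1121039021117897)) (K (.ofNat 556895639567658)) N N)) (B (B (K (.ofNat 739334027400792)) (K (.negSucc 1207388489334725)) N N) (B (K (.negSucc 1231109835589427)) (K (.ofNat 76169798004708)) N N) N N) (B (B (K (.ofNat 1229825413684086)) (K (.ofNat 644739202120080)) N N) (B (K (.ofNat 1256461717303884)) (K (.negSucc 153102405646655)) N N) N N))⟩,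
  ⟨.z, .w, (B (B (B (K (.ofNat 1252743210639978)) (K (.negSucc 169241526977261)) N N) (B (K (.ofNat 1942606120605936)) (K (.negSucc 743175306791315)) N N) N N) (B (B (K (.ofNat 1513344616510194)) (K (.negSucc 502505560100999)) N N) (B (K (.ofNat 456757572042456)) (K (.negSucc 777486173496155)) N N) N N) N N)⟩,
  ⟨.x, T0, (C (A4 (K (.negSucc 81145770683111))) (C N N N N (K (.negSucc 1011200605011071)) (K (.negSucc 716102511308819))) N N (B (K (.negSucc 200090542975175)) (K (.ofNat 685402738570467)) N N) (B (K (.ofNat 784092787713480)) (K (.negSucc 1942678409208083)) N N))⟩,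
  ⟨.x, T1, (B (A2 (K (.ofNat 65976027425694))) (B N N (K (.ofNat 932729825953908)) (K (.ofNat 572610660222924))) (B (K (.negSucc 55882958889809)) (K (.ofNat 371358238995450)) N N) (B (K (.ofNat 719951024282340)) (K (.negSucc 100534495236677)) N N))⟩,
  ⟨.x, T2, (C (A4 (K (.ofNat 355009495206222))) (C N N N N (K (.ofNat 307011027176343)) (K (.ofNat 739897890976665))) N N (B (K (.negSucc 1012038217705277)) (K (.negSucc 107796580624493)) N N) (B (K (.negSucc 67014549601604)) (K (.ofNat 17101859698944)) N N))⟩,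
  ⟨.x, T4, (B (B (K (.negSucc 528360197311811)) (K (.negSucc 1926748069917629)) N N) (B (K (.negSucc 1128174347267075)) (K (.negSucc 530509483312577)) N N) N N)⟩,
  ⟨.x, T5, (B (A2 (K (.ofNat 551959541624376))) (B N N (K (.ofNat 376726311561078)) (K (.ofNat 541642930724556))) (B (K (.ofNat 675703500321648)) (K (.negSucc 1504943134022879)) N N) (B (K (.negSucc 28291771087301)) (K (.negSucc 224846695026647)) N N))⟩,
  ⟨.x, T6, (B (B (K (.negSucc 1257525447921041)) (K (.ofNat 162700494075654)) N N) (B (K (.negSucc 1198020094402595)) (K (.ofNat 476961073736850)) N N) N N)⟩,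
  ⟨.z, T1, (A0 (B (K (.ofNat 548097069511932)) (K (.ofNat 37564641387294)) N N))⟩,
  ⟨.z, T5, (A0 (B (K (.negSucc 724671857953895)) (K (.ofNat 1181970643768356)) N N))⟩,
  ⟨.x, T9, (C N N N N (K (.negSucc 126949610919041)) (K (.negSucc 24738842620529)))⟩,
  ⟨.x, T10, (A3 (K (.ofNat 97528225313700)))⟩,
  ⟨.x, T12, (A1 (K (.ofNat 620670088300644)))⟩,
  ⟨.x, T15, (C N N N N (K (.ofNat 137520069409746)) (K (.ofNat 546571268727408)))⟩,
  ⟨.x, T16, (B N N (K (.ofNat 127109108734470)) (K (.ofNat 156280764992490)))⟩,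
  ⟨.x, T17, (C N N N N (K (.negSucc 45762212416823)) (K (.negSucc 726311813601824)))⟩,
  ⟨.x, T19, (B (K (.negSucc 20109278855147)) (K (.negSucc 906546331389743)) N N)⟩,
  ⟨.x, T20, (B N N (K (.ofNat 39210095153430)) (K (.ofNat 303156339381036)))⟩,
  ⟨.x, T21, (A0 (K (.negSucc 78292278119333)))⟩,
  ⟨.x, T22, (A5 (K (.ofNat 10205967098664)))⟩,
  ⟨.x, T24, (B (K (.ofNat 65223794131662)) (K (.negSucc 35022984767945)) N N)⟩,
  ⟨.x, T27, (B (K (.ofNat 23961198302394)) (K (.negSucc 295948825628075)) N N)⟩,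
  ⟨.x, T29, (A3 (K (.ofNat 11453491741680)))⟩,
  ⟨.x, T30, (A1 (K (.ofNat 474425405007840)))⟩,
  ⟨.z, T16, (A0 (K (.negSucc 264417708065747)))⟩,
  ⟨.z, T20, (A0 (K (.negSucc 256662070032251)))⟩,
  ⟨.x, T35, (K (.negSucc 99244801821977))⟩,
  ⟨.x, T41, (K (.negSucc 105609803923331))⟩,
  ⟨.x, T43, (K (.negSucc 349727627437019))⟩,
  ⟨.x, T46, (K (.ofNat 5432473047618))⟩,
  ⟨.x, T49, (K (.ofNat 82095780807108))⟩,
  ⟨.x, T52, (K (.negSucc 209250430259597))⟩,
  ⟨.x, T55, (K (.negSucc 246878370896849))⟩,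
  ⟨.x, T58, (K (.ofNat 71248664020680))⟩,
  ⟨.x, T60, (K (.ofNat 227984130438480))⟩,
  ⟨.x, T61, (K (.negSucc 18842166369359))⟩,
  ⟨.x, T63, (K (.ofNat 166581216164034))⟩,
  ⟨.x, T65, (K (.negSucc 112822467011693))⟩,
  ⟨.z, T38, (K (.ofNat 26136823996026))⟩,
  ⟨.z, T42, (K (.ofNat 21080437132752))⟩] c_120 c_121 (.node [⟨.x, .w, (B (B (K (.negSucc 103684233396827)) (K (.negSucc 1716085476943535)) N N) (B (K (.negSucc 123000506084387)) (K (.negSucc 468205539593543)) N N) N N)⟩,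
  ⟨.x, T1, (B (K (.negSucc 634813923965291)) (K (.ofNat 392867523097344)) N N)⟩,
  ⟨.x, T5, (B (K (.ofNat 853555240899558)) (K (.ofNat 565355412678582)) N N)⟩,
  ⟨.x, T10, (K (.negSucc 172254417089849))⟩,
  ⟨.x, T16, (K (.ofNat 381169997704170))⟩,
  ⟨.x, T20, (K (.ofNat 714520378433574))⟩,
  ⟨.x, T29, (K (.ofNat 24762954398562))⟩] (.node [⟨.x, .w, (B (K (.negSucc 863761207998221)) (K (.ofNat 112973010557994)) N N)⟩,
  ⟨.x, T1, (K (.negSucc 137312584439471))⟩,
  ⟨.x, T5, (K (.ofNat 10205967098664))⟩] (.node [⟨.x, .w, (K (.negSucc 34968921497225))⟩] .nil .nil .nil .nil .nil .nil) (.node [⟨.x, .w, (K (.ofNat 821189269809))⟩] .nil .nil .nil .nil .nil .nil) .nil .nil .nil .nil) (.node [⟨.x, .w, (B (K (.negSucc 1352573874217025)) (K (.ofNat 215946238218435)) N N)⟩,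
  ⟨.x, T1, (K (.ofNat 199084655640384))⟩,
  ⟨.x, T5, (K (.ofNat 627690894709671))⟩] (.node [⟨.x, .w, (K (.negSucc 1412877689649008))⟩] .nil .nil .nil .nil .nil .nil) (.node [⟨.x, .w, (K (.negSucc 1449682751859488))⟩] .nil .nil .nil .nil .nil .nil) .nil .nil .nil .nil) .nil .nil .nil .nil) (.node [⟨.x, .w, (B (B (K (.ofNat 166026959436276)) (K (.negSucc 2923917076334525)) N N) (B (K (.negSucc 512707786397705)) (K (.negSucc 1660737797582705)) N N) N N)⟩,
  ⟨.x, T1, (B (K (.ofNat 249816937170540)) (K (.ofNat 182908887824340)) N N)⟩,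
  ⟨.x, T5, (B (K (.negSucc 676757688598289)) (K (.ofNat 1716117110152974)) N N)⟩,
  ⟨.x, T10, (K (.negSucc 167153745219857))⟩,
  ⟨.x, T16, (K (.ofNat 57943834250238))⟩,
  ⟨.x, T20, (K (.ofNat 790180160706))⟩,
  ⟨.x, T29, (K (.negSucc 20858017266557))⟩] (.node [⟨.x, .w, (B (K (.ofNat 1531190235139692)) (K (.negSucc 606808922845724)) N N)⟩,
  ⟨.x, T1, (K (.negSucc 625927924303163))⟩,
  ⟨.x, T5, (K (.negSucc 729691923878000))⟩] (.node [⟨.x, .w, (K (.ofNat 739675471110471))⟩] .nil .nil .nil .nil .nil .nil) (.node [⟨.x, .w, (K (.ofNat 717347177237349))⟩] .nil .nil .nil .nil .nil .nil) .nil .nil .nil .nil) (.node [⟨.x, .w, (B (K (.negSucc 629383869357755)) (K (.negSucc 444461060737889)) N N)⟩,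
  ⟨.x, T1, (K (.negSucc 303205445381519))⟩,
  ⟨.x, T5, (K (.ofNat 743616292729338))⟩] (.node [⟨.x, .w, (K (.negSucc 759161768278103))⟩] .nil .nil .nil .nil .nil .nil) (.node [⟨.x, .w, (K (.negSucc 242122949890559))⟩] .nil .nil .nil .nil .nil .nil) .nil .nil .nil .nil) .nil .nil .nil .nil) (.node [⟨.x, .z, (B (B (K (.negSucc 131644255851641)) (K (.ofNat 1800650121570444)) N N) (B (K (.negSucc 555914602090505)) (K (.ofNat 1789195009404132)) N N) N N)⟩,
  ⟨.x, T0, (B (K (.negSucc 1295303634425723)) (K (.ofNat 2170523377491966)) N N)⟩,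
  ⟨.x, T2, (B (K (.negSucc 750584597018939)) (K (.negSucc 442904309605871)) N N)⟩,
  ⟨.x, T9, (K (.negSucc 177685369601543))⟩,
  ⟨.x, T15, (K (.negSucc 339853533874487))⟩,
  ⟨.x, T17, (K (.ofNat 526420131151122))⟩,
  ⟨.x, T22, (K (.negSucc 111664666747187))⟩] (.node [⟨.x, .z, (B (K (.negSucc 745191155407067)) (K (.negSucc 102143564661365)) N N)⟩,
  ⟨.x, T0, (K (.negSucc 302771672259371))⟩,
  ⟨.x, T2, (K (.ofNat 13394547063792))⟩] (.node [⟨.x, .z, (K (.ofNat 125113391504676))⟩] .nil .nil .nil .nil .nil .nil) (.node [⟨.x, .z, (K (.ofNat 139609865597490))⟩] .nil .nil .nil .nil .nil .nil) .nil .nil .nil .nil) (.node [⟨.x, .z, (B (K (.negSucc 1600719401648981)) (K (.negSucc 231035770261205)) N N)⟩,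
  ⟨.x, T0, (K (.ofNat 214106884459992))⟩,
  ⟨.x, T2, (K (.ofNat 495702419919732))⟩] (.node [⟨.x, .z, (K (.ofNat 1036779377851926))⟩] .nil .nil .nil .nil .nil .nil) (.node [⟨.x, .z, (K (.ofNat 1036894505451030))⟩] .nil .nil .nil .nil .nil .nil) .nil .nil .nil .nil) .nil .nil .nil .nil) (.node [⟨.x, .z, (B (B (K (.negSucc 84587348207735)) (K (.ofNat 2597055926052426)) N N) (B (K (.negSucc 174375963815471)) (K (.negSucc 258475761127139)) N N) N N)⟩,
  ⟨.x, T0, (B (K (.ofNat 256422337914288)) (K (.ofNat 315777067233186)) N N)⟩,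
  ⟨.x, T2, (B (K (.ofNat 1367954320302738)) (K (.negSucc 249837426464735)) N N)⟩,
  ⟨.x, T9, (K (.ofNat 286634486913846))⟩,
  ⟨.x, T15, (K (.negSucc 598379616822101))⟩,
  ⟨.x, T17, (K (.ofNat 601696170461118))⟩,
  ⟨.x, T22, (K (.ofNat 482642279652318))⟩] (.node [⟨.x, .z, (B (K (.ofNat 1879466007793560)) (K (.ofNat 1123834549565886)) N N)⟩,
  ⟨.x, T0, (K (.ofNat 932265874830954))⟩,
  ⟨.x, T2, (K (.negSucc 528356739048155))⟩] (.node [⟨.x, .z, (K (.negSucc 1022384788325033))⟩] .nil .nil .nil .nil .nil .nil) (.node [⟨.x, .z, (K (.negSucc 35567791313585))⟩] .nil .nil .nil .nil .nil .nil) .nil .nil .nil .nil) (.node [⟨.x, .z, (B (K (.ofNat 525376673148402)) (K (.negSucc 1227670778673821)) N N)⟩,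
  ⟨.x, T0, (K (.ofNat 452362693236708))⟩,
  ⟨.x, T2, (K (.ofNat 1068674575785882))⟩] (.node [⟨.x, .z, (K (.ofNat 1078746749539302))⟩] .nil .nil .nil .nil .nil .nil) (.node [⟨.x, .z, (K (.ofNat 939399362498316))⟩] .nil .nil .nil .nil .nil .nil) .nil .nil .nil .nil) .nil .nil .nil .nil))

def c_130 : Cert := (.node [⟨.x, .z, (C (A4 (K (.negSucc 1745634139237085))) (C N N N N (K (.negSucc 5697461916773411)) (K (.negSucc 4206147630288638))) N N (B (K (.negSucc 766143535885118)) (K (.ofNat 3277187618007330)) N N) (B (K (.negSucc 1666622221890905)) (K (.negSucc 3991292988001583)) N N))⟩,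
  ⟨.x, .w, (B (A2 (K (.ofNat 4276421608151310))) (B N N (K (.ofNat 4960534788973884)) (K (.ofNat 3806605334873322))) (B (K (.negSucc 2009982796665200)) (K (.ofNat 1639599245559894)) N N) (B (K (.ofNat 1503839626270278)) (K (.negSucc 783915877366070)) N N))⟩,
  ⟨.z, .w, (B (B (K (.negSucc 1726524542144981)) (K (.negSucc 4414400829945164)) N N) (B (K (.negSucc 2066446734340313)) (K (.negSucc 4212634843624088)) N N) N N)⟩,
  ⟨.x, T0, (C N N N N (K (.ofNat 924427756580982)) (K (.negSucc 4031961622264526)))⟩,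
  ⟨.x, T1, (B N N (K (.ofNat 714981704614305)) (K (.negSucc 1449108901781303)))⟩,
  ⟨.x, T2, (C N N N N (K (.ofNat 1682061621880977)) (K (.ofNat 18095035310397)))⟩,
  ⟨.x, T4, (B (K (.negSucc 3532517894395325)) (K (.ofNat 558713294257290)) N N)⟩,
  ⟨.x, T5, (B N N (K (.negSucc 4181577460175759)) (K (.ofNat 219287451818922)))⟩,
  ⟨.x, T6, (B (K (.ofNat 1554298518328383)) (K (.ofNat 2617479014718477)) N N)⟩,
  ⟨.z, T1, (A0 (K (.negSucc 1114056590720924)))⟩,
  ⟨.z, T5, (A0 (K (.ofNat 2201929115753190)))⟩,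
  ⟨.x, T12, (K (.ofNat 1839289683719088))⟩,
  ⟨.x, T19, (K (.negSucc 2339419945698428))⟩,
  ⟨.x, T21, (K (.negSucc 1371570612252788))⟩,
  ⟨.x, T24, (K (.ofNat 1138182683629449))⟩,
  ⟨.x, T27, (K (.ofNat 257321461699482))⟩,
  ⟨.x, T30, (K (.ofNat 87741842473611))⟩,
  ⟨.z, T16, (K (.negSucc 354286933412342))⟩,
  ⟨.z, T20, (K (.ofNat 1654491415396029))⟩] (.node [⟨.x, .z, (C N N N N (K (.ofNat 3278420167235736)) (K (.ofNat 1638293141740182)))⟩,
  ⟨.x, .w, (B N N (K (.ofNat 2262701167805808)) (K (.negSucc 444374030984384)))⟩,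
  ⟨.z, .w, (B (K (.ofNat 197216427354213)) (K (.negSucc 2214751634525072)) N N)⟩,
  ⟨.x, T4, (K (.negSucc 5415512312432))⟩,
  ⟨.x, T6, (K (.negSucc 1630985886510368))⟩,
  ⟨.z, T1, (K (.ofNat 23698382467557))⟩,
  ⟨.z, T5, (K (.ofNat 1835743244788581))⟩] (.node [⟨.z, .w, (K (.ofNat 1554249715029942))⟩] .nil .nil .nil .nil .nil .nil) (.node [⟨.z, .w, (K (.ofNat 616124130010011))⟩] .nil .nil .nil .nil .nil .nil) (.node [⟨.x, .w, (K (.negSucc 1825591377759692))⟩] .nil .nil .nil .nil .nil .nil) (.node [⟨.x, .w, (K (.negSucc 3752312008899572))⟩] .nil .nil .nil .nil .nil .nil) (.node [⟨.x, .z, (K (.ofNat 462656794090506))⟩] .nil .nil .nil .nil .nil .nil) (.node [⟨.x, .z, (K (.negSucc 213965403282992))⟩] .nil .nil .nil .nil .nil .nil)) (.node [⟨.x, .z, (C N N N N (K (.negSucc 120028780966643)) (K (.ofNat 1818969881154777)))⟩,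
  ⟨.x, .w, (B N N (K (.ofNat 3988046423359164)) (K (.ofNat 1922915078465895)))⟩,
  ⟨.z, .w, (B (K (.ofNat 1286313864501573)) (K (.negSucc 2648035971151070)) N N)⟩,
  ⟨.x, T4, (K (.ofNat 1578487409440947))⟩,
  ⟨.x, T6, (K (.negSucc 1706509834698869))⟩,
  ⟨.z, T1, (K (.negSucc 2003093318661752))⟩,
  ⟨.z, T5, (K (.negSucc 2397455060982494))⟩] (.node [⟨.z, .w, (K (.negSucc 1177771123906202))⟩] .nil .nil .nil .nil .nil .nil) (.node [⟨.z, .w, (K (.ofNat 633391301848542))⟩] .nil .nil .nil .nil .nil .nil) (.node [⟨.x, .w, (K (.ofNat 6274100292990837))⟩] .nil .nil .nil .nil .nil .nil) (.node [⟨.x, .w, (K (.ofNat 408513522561138))⟩] .nil .nil .nil .nil .nil .nil) (.node [⟨.x, .z, (K (.negSucc 4920831196236437))⟩] .nil .nil .nil .nil .nil .nil) (.node [⟨.x, .z, (K (.negSucc 1801700500118252))⟩] .nil .nil .nil .nil .nil .nil)) (.node [⟨.x, .w, (B (K (.negSucc 2283775487233346)) (K (.negSucc 1417764484201943)) N N)⟩,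
  ⟨.x, T1, (K (.ofNat 1710826286809842))⟩,
  ⟨.x, T5, (K (.negSucc 26960744382461))⟩] (.node [⟨.x, .w, (K (.ofNat 17274112509798))⟩] .nil .nil .nil .nil .nil .nil) (.node [⟨.x, .w, (K (.ofNat 2521010624029020))⟩] .nil .nil .nil .nil .nil .nil) .nil .nil .nil .nil) (.node [⟨.x, .w, (B (K (.negSucc 4273269284468504)) (K (.negSucc 3732632940814094)) N N)⟩,
  ⟨.x, T1, (K (.ofNat 2225445820761828))⟩,
  ⟨.x, T5, (K (.ofNat 4226465335339770))⟩] (.node [⟨.x, .w, (K (.negSucc 5873999542707107))⟩] .nil .nil .nil .nil .nil .nil) (.node [⟨.x, .w, (K (.negSucc 1832584997199029))⟩] .nil .nil .nil .nil .nil .nil) .nil .nil .nil .nil) (.node [⟨.x, .z, (B (K (.ofNat 435602945886081)) (K (.ofNat 2589600217862049)) N N)⟩,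
  ⟨.x, T0, (K (.ofNat 4401875855250012))⟩,
  ⟨.x, T2, (K (.ofNat 1451451243738663))⟩] (.node [⟨.x, .z, (K (.ofNat 1459015659157743))⟩] .nil .nil .nil .nil .nil .nil) (.node [⟨.x, .z, (K (.ofNat 2864794298405037))⟩] .nil .nil .nil .nil .nil .nil) .nil .nil .nil .nil) (.node [⟨.x, .z, (B (K (.ofNat 5689317647632779)) (K (.ofNat 2652518665511877)) N N)⟩,
  ⟨.x, T0, (K (.ofNat 1285117163775753))⟩,
  ⟨.x, T2, (K (.negSucc 2386231871467148))⟩] (.node [⟨.x, .z, (K (.negSucc 2123516812838042))⟩] .nil .nil .nil .nil .nil .nil) (.node [⟨.x, .z, (K (.negSucc 877175778971000))⟩] .nil .nil .nil .nil .nil .nil) .nil .nil .nil .nil))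

def c_131 : Cert := (.node [⟨.x, .z, (C (A4 (K (.ofNat 237698930074590))) (C N N N N (K (.negSucc 388506065148890)) (K (.negSucc 454781504518676))) N N (B (K (.ofNat 334033966945050)) (K (.ofNat 376495518474891)) N N) (B (K (.negSucc 89653693580852)) (K (.negSucc 390737484127133)) N N))⟩,
  ⟨.x, .w, (B (A2 (K (.ofNat 529579287729972))) (B N N (K (.ofNat 651832115925114)) (K (.ofNat 67273936825032))) (B (K (.negSucc 303858577899023)) (K (.ofNat 199755534620646)) N N) (B (K (.ofNat 32060317628064)) (K (.ofNat 20589833051532)) N N))⟩,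
  ⟨.z, .w, (B (B (K (.negSucc 253924868719655)) (K (.negSucc 755058130409159)) N N) (B (K (.negSucc 416351318317979)) (K (.negSucc 92361138323525)) N N) N N)⟩,
  ⟨.x, T0, (C N N N N (K (.ofNat 41573158010928)) (K (.negSucc 408766674286457)))⟩,
  ⟨.x, T1, (B N N (K (.ofNat 2014686708912)) (K (.negSucc 54404228562029)))⟩,
  ⟨.x, T2, (C N N N N (K (.negSucc 98013391028567)) (K (.negSucc 34710823919429)))⟩,
  ⟨.x, T4, (B (K (.negSucc 257215967184407)) (K (.ofNat 32921417223018)) N N)⟩,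
  ⟨.x, T5, (B N N (K (.negSucc 527441982213923)) (K (.negSucc 179466412707197)))⟩,
  ⟨.x, T6, (B (K (.ofNat 117108330118782)) (K (.ofNat 527271320252142)) N N)⟩,
  ⟨.z, T1, (A0 (K (.ofNat 319192741030536)))⟩,
  ⟨.z, T5, (A0 (K (.ofNat 391078058053878)))⟩,
  ⟨.x, T12, (K (.ofNat 4553304278976))⟩,
  ⟨.x, T19, (K (.negSucc 6977530166183))⟩,
  ⟨.x, T21, (K (.ofNat 127285616097486))⟩,
  ⟨.x, T24, (K (.negSucc 177940356091253))⟩,
  ⟨.x, T27, (K (.negSucc 164563169816861))⟩,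
  ⟨.x, T30, (K (.ofNat 60056773272072))⟩,
  ⟨.z, T16, (K (.ofNat 166885559171190))⟩,
  ⟨.z, T20, (K (.ofNat 79156541247120))⟩] (.node [⟨.x, .z, (C N N N N (K (.ofNat 124450247855328)) (K (.ofNat 443397964058400)))⟩,
  ⟨.x, .w, (B N N (K (.negSucc 69096246430421)) (K (.negSucc 178494003084335)))⟩,
  ⟨.z, .w, (B (K (.ofNat 317932744080249)) (K (.negSucc 20821403966051)) N N)⟩,
  ⟨.x, T4, (K (.negSucc 130778705903135))⟩,
  ⟨.x, T6, (K (.negSucc 396129794118023))⟩,
  ⟨.z, T1, (K (.ofNat 320756669265984))⟩,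
  ⟨.z, T5, (K (.ofNat 434208684224064))⟩] (.node [⟨.z, .w, (K (.ofNat 214629725772408))⟩] .nil .nil .nil .nil .nil .nil) (.node [⟨.z, .w, (K (.ofNat 170455158096918))⟩] .nil .nil .nil .nil .nil .nil) (.node [⟨.x, .w, (K (.negSucc 462827714861189))⟩] .nil .nil .nil .nil .nil .nil) (.node [⟨.x, .w, (K (.negSucc 554586000137429))⟩] .nil .nil .nil .nil .nil .nil) (.node [⟨.x, .z, (K (.ofNat 246197355633318))⟩] .nil .nil .nil .nil .nil .nil) (.node [⟨.x, .z, (K (.ofNat 328205496075468))⟩] .nil .nil .nil .nil .nil .nil)) (.node [⟨.x, .z, (C N N N N (K (.negSucc 241141668260261)) (K (.ofNat 284897142284838)))⟩,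
  ⟨.x, .w, (B N N (K (.ofNat 315820149292848)) (K (.ofNat 418595851486392)))⟩,
  ⟨.z, .w, (B (K (.ofNat 458960064457398)) (K (.negSucc 323686870680605)) N N)⟩,
  ⟨.x, T4, (K (.ofNat 251067920680806))⟩,
  ⟨.x, T6, (K (.negSucc 193144782005087))⟩,
  ⟨.z, T1, (K (.negSucc 100259179399031))⟩,
  ⟨.z, T5, (K (.negSucc 311446146087119))⟩] (.node [⟨.z, .w, (K (.negSucc 535984591346489))⟩] .nil .nil .nil .nil .nil .nil) (.node [⟨.z, .w, (K (.negSucc 262664463683669))⟩] .nil .nil .nil .nil .nil .nil) (.node [⟨.x, .w, (K (.ofNat 821614607277276))⟩] .nil .nil .nil .nil .nil .nil) (.node [⟨.x, .w, (K (.ofNat 269729308517478))⟩] .nil .nil .nil .nil .nil .nil) (.node [⟨.x, .z, (K (.negSucc 739068347582453))⟩] .nil .nil .nil .nil .nil .nil) (.node [⟨.x, .z, (K (.negSucc 91901396528663))⟩] .nil .nil .nil .nil .nil .nil)) (.node [⟨.x, .w, (B (K (.negSucc 181088257409081)) (K (.ofNat 85247386003584)) N N)⟩,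
  ⟨.x, T1, (K (.ofNat 72083202862662))⟩,
  ⟨.x, T5, (K (.negSucc 343820778746039))⟩] (.node [⟨.x, .w, (K (.ofNat 459502948383390))⟩] .nil .nil .nil .nil .nil .nil) (.node [⟨.x, .w, (K (.ofNat 607593592599138))⟩] .nil .nil .nil .nil .nil .nil) .nil .nil .nil .nil) (.node [⟨.x, .w, (B (K (.negSucc 769862956764695)) (K (.negSucc 59863143952565)) N N)⟩,
  ⟨.x, T1, (K (.negSucc 132682261762205))⟩,
  ⟨.x, T5, (K (.ofNat 492900488844624))⟩] (.node [⟨.x, .w, (K (.negSucc 421664036534963))⟩] .nil .nil .nil .nil .nil .nil) (.node [⟨.x, .w, (K (.negSucc 930256262711))⟩] .nil .nil .nil .nil .nil .nil) .nil .nil .nil .nil) (.node [⟨.x, .z, (B (K (.ofNat 446034976623000)) (K (.ofNat 736063907301900)) N N)⟩,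
  ⟨.x, T0, (K (.ofNat 670295002258278))⟩,
  ⟨.x, T2, (K (.negSucc 162050021891513))⟩] (.node [⟨.x, .z, (K (.negSucc 178604603501543))⟩] .nil .nil .nil .nil .nil .nil) (.node [⟨.x, .z, (K (.ofNat 34276484125422))⟩] .nil .nil .nil .nil .nil .nil) .nil .nil .nil .nil) (.node [⟨.x, .z, (B (K (.ofNat 301181548591200)) (K (.negSucc 32345267037965)) N N)⟩,
  ⟨.x, T0, (K (.ofNat 15559451268624))⟩,
  ⟨.x, T2, (K (.ofNat 125343428141790))⟩] (.node [⟨.x, .z, (K (.negSucc 70772377139405))⟩] .nil .nil .nil .nil .nil .nil) (.node [⟨.x, .z, (K (.ofNat 161120116303398))⟩] .nil .nil .nil .nil .nil .nil) .nil .nil .nil .nil))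

def c_13 : Cert := (.node [⟨.x, .z, (C (C (A4 (K (.negSucc 280595736583955))) N N N (B (K (.negSucc 126161376661559)) (K (.ofNat 330394058729937)) N N) N) (C (A4 (K (.negSucc 312021188777789))) (C N N N N (K (.negSucc 417104165639411)) (K (.negSucc 42395889218417))) N N (B (K (.negSucc 59608952416829)) (K (.ofNat 376042200906510)) N N) (B (K (.negSucc 73303209391691)) (K (.ofNat 172704811760532)) N N)) N N (B (B (K (.ofNat 44986184318964)) (K (.ofNat 124098016346874)) N N) (B (K (.ofNat 204362227566072)) (K (.ofNat 99339466018158)) N N) N N) (B (B (K (.ofNat 93164398318404)) (K (.ofNat 43276419251802)) N N) (B (K (.ofNat 156895272936870)) (K (.ofNat 68082000434856)) N N) N N))⟩,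
  ⟨.x, .w, (B (B (A2 (K (.negSucc 18980382621437))) N (B (K (.negSucc 64274818624319)) (K (.negSucc 277965085058837)) N N) N) (B (A2 (K (.negSucc 94143990702203))) (B N N (K (.negSucc 611900983773119)) (K (.negSucc 356143149806135))) (B (K (.ofNat 152015999690940)) (K (.negSucc 490069145788397)) N N) (B (K (.ofNat 291273743974194)) (K (.ofNat 7158227244504)) N N)) (B (B (K (.ofNat 253389606146970)) (K (.ofNat 244944904252878)) N N) (B (K (.ofNat 241731565056798)) (K (.negSucc 193155502858793)) N N) N N) (B (B (K (.ofNat 40791744104994)) (K (.ofNat 255627346253724)) N N) (B (K (.negSucc 32926088811305)) (K (.negSucc 160766415529343)) N N) N N))⟩,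
  ⟨.z, .w, (B (B (B (K (.negSucc 82459270394387)) (K (.negSucc 8413716633641)) N N) (B (K (.negSucc 159691389557621)) (K (.ofNat 76065788513412)) N N) N N) (B (B (K (.ofNat 70335919628760)) (K (.ofNat 267120228116772)) N N) (B (K (.ofNat 225962523311358)) (K (.ofNat 119597157134964)) N N) N N) N N)⟩,
  ⟨.x, T0, (C (A4 (K (.negSucc 33503875831871))) (C N N N N (K (.ofNat 111136559484267)) (K (.ofNat 114216985483857))) N N (B (K (.negSucc 118437205040285)) (K (.negSucc 87040071107648)) N N) (B (K (.ofNat 131383948060221)) (K (.ofNat 173969095391730)) N N))⟩,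
  ⟨.x, T1, (B (A2 (K (.ofNat 49801539974454))) (B N N (K (.ofNat 38500634278278)) (K (.ofNat 67764899996676))) (B (K (.negSucc 47893432137503)) (K (.ofNat 119306121356826)) N N) (B (K (.negSucc 299138141451305)) (K (.negSucc 105702271187417)) N N))⟩,
  ⟨.x, T2, (C (A4 (K (.ofNat 277321119841476))) (C N N N N (K (.negSucc 434855355344441)) (K (.negSucc 279866360279267))) N N (B (K (.ofNat 254486885451822)) (K (.negSucc 79501428565712)) N N) (B (K (.negSucc 157053621413519)) (K (.negSucc 887561141741)) N N))⟩,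
  ⟨.x, T4, (B (B (K (.ofNat 124910965659348)) (K (.ofNat 167779865075112)) N N) (B (K (.ofNat 126294097288404)) (K (.ofNat 69649568642844)) N N) N N)⟩,
  ⟨.x, T5, (B (A2 (K (.negSucc 41191878506831))) (B N N (K (.ofNat 119429823847662)) (K (.ofNat 305860611179016))) (B (K (.ofNat 11042844591588)) (K (.ofNat 161864796854664)) N N) (B (K (.ofNat 66113155123914)) (K (.negSucc 45040918647509)) N N))⟩,
  ⟨.x, T6, (B (B (K (.ofNat 77356830750012)) (K (.ofNat 40204425744936)) N N) (B (K (.ofNat 81466737184230)) (K (.negSucc 105337640766707)) N N) N N)⟩,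
  ⟨.z, T1, (A0 (B (K (.negSucc 138842577857729)) (K (.negSucc 267919795223693)) N N))⟩,
  ⟨.z, T5, (A0 (B (K (.negSucc 206135308886549)) (K (.negSucc 327611402528903)) N N))⟩,
  ⟨.x, T9, (C N N N N (K (.ofNat 15478178452416)) (K (.ofNat 3769559221986)))⟩,
  ⟨.x, T10, (A3 (K (.ofNat 24764916206772)))⟩,
  ⟨.x, T12, (A1 (K (.negSucc 3023198073359)))⟩,
  ⟨.x, T15, (C N N N N (K (.negSucc 39181430246687)) (K (.negSucc 112501977923177)))⟩,
  ⟨.x, T16, (B N N (K (.ofNat 7652577897432)) (K (.ofNat 65995131103542)))⟩,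
  ⟨.x, T17, (C N N N N (K (.ofNat 45011776777920)) (K (.ofNat 90528343122582)))⟩,
  ⟨.x, T19, (B (K (.negSucc 11763445929437)) (K (.ofNat 27100905288390)) N N)⟩,
  ⟨.x, T20, (B N N (K (.ofNat 3919753519056)) (K (.ofNat 65460100625478)))⟩,
  ⟨.x, T21, (A0 (K (.ofNat 128880012238104)))⟩,
  ⟨.x, T22, (A5 (K (.ofNat 11274301010376)))⟩,
  ⟨.x, T24, (B (K (.negSucc 165350451428831)) (K (.negSucc 125882189677511)) N N)⟩,
  ⟨.x, T27, (B (K (.negSucc 169309009548581)) (K (.negSucc 125919578326841)) N N)⟩,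
  ⟨.x, T29, (A3 (K (.ofNat 41435914560336)))⟩,
  ⟨.x, T30, (A1 (K (.negSucc 67368804068879)))⟩,
  ⟨.z, T16, (A0 (K (.ofNat 176226252466326)))⟩,
  ⟨.z, T20, (A0 (K (.ofNat 36555420062982)))⟩,
  ⟨.x, T35, (K (.ofNat 1165841620992))⟩,
  ⟨.x, T41, (K (.ofNat 17437971354696))⟩,
  ⟨.x, T43, (K (.ofNat 12974562260856))⟩,
  ⟨.x, T46, (K (.ofNat 13023531251784))⟩,
  ⟨.x, T49, (K (.ofNat 13135225381416))⟩,
  ⟨.x, T52, (K (.ofNat 10741985104680))⟩,
  ⟨.x, T55, (K (.negSucc 4295808860975))⟩,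
  ⟨.x, T58, (K (.negSucc 37568850007247))⟩,
  ⟨.x, T60, (K (.negSucc 18169511712335))⟩,
  ⟨.x, T61, (K (.negSucc 5396645664719))⟩,
  ⟨.x, T63, (K (.negSucc 7807455400031))⟩,
  ⟨.x, T65, (K (.negSucc 7165692602207))⟩,
  ⟨.z, T38, (K (.negSucc 6633315557711))⟩,
  ⟨.z, T42, (K (.negSucc 10435771198655))⟩] c_130 c_131 (.node [⟨.x, .w, (B (B (K (.ofNat 160261626429780)) (K (.ofNat 134852882457456)) N N) (B (K (.negSucc 293097083736659)) (K (.negSucc 119856907010015)) N N) N N)⟩,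
  ⟨.x, T1, (B (K (.ofNat 99322461557226)) (K (.ofNat 145925006997528)) N N)⟩,
  ⟨.x, T5, (B (K (.negSucc 1989035055485)) (K (.ofNat 97996298818446)) N N)⟩,
  ⟨.x, T10, (K (.negSucc 38474716947155))⟩,
  ⟨.x, T16, (K (.ofNat 213856871606640))⟩,
  ⟨.x, T20, (K (.ofNat 120771396363600))⟩,
  ⟨.x, T29, (K (.negSucc 49616157498047))⟩] (.node [⟨.x, .w, (B (K (.ofNat 109571963785380)) (K (.ofNat 101853275737410)) N N)⟩,
  ⟨.x, T1, (K (.negSucc 86925431531843))⟩,
  ⟨.x, T5, (K (.negSucc 34457518290491))⟩] (.node [⟨.x, .w, (K (.ofNat 84073675788540))⟩] .nil .nil .nil .nil .nil .nil) (.node [⟨.x, .w, (K (.negSucc 163574818379567))⟩] .nil .nil .nil .nil .nil .nil) .nil .nil .nil .nil) (.node [⟨.x, .w, (B (K (.negSucc 43422971751935)) (K (.negSucc 218419460252513)) N N)⟩,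
  ⟨.x, T1, (K (.negSucc 7045310352581))⟩,
  ⟨.x, T5, (K (.negSucc 46995659854037))⟩] (.node [⟨.x, .w, (K (.negSucc 10143036869399))⟩] .nil .nil .nil .nil .nil .nil) (.node [⟨.x, .w, (K (.negSucc 39461406514847))⟩] .nil .nil .nil .nil .nil .nil) .nil .nil .nil .nil) .nil .nil .nil .nil) (.node [⟨.x, .w, (B (B (K (.ofNat 143041043854860)) (K (.ofNat 441336907780092)) N N) (B (K (.negSucc 119275477917557)) (K (.negSucc 58010545432655)) N N) N N)⟩,
  ⟨.x, T1, (B (K (.negSucc 5759802590879)) (K (.ofNat 77494762046304)) N N)⟩,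
  ⟨.x, T5, (B (K (.negSucc 108899718923687)) (K (.negSucc 251101043093861)) N N)⟩,
  ⟨.x, T10, (K (.negSucc 44452254079943))⟩,
  ⟨.x, T16, (K (.ofNat 57562495161408))⟩,
  ⟨.x, T20, (K (.negSucc 17098965043199))⟩,
  ⟨.x, T29, (K (.negSucc 82891407711023))⟩] (.node [⟨.x, .w, (B (K (.ofNat 91954947112284)) (K (.ofNat 220634694847026)) N N)⟩,
  ⟨.x, T1, (K (.negSucc 296298148287797))⟩,
  ⟨.x, T5, (K (.ofNat 245408841988776))⟩] (.node [⟨.x, .w, (K (.negSucc 140807362068719))⟩] .nil .nil .nil .nil .nil .nil) (.node [⟨.x, .w, (K (.negSucc 193059431287973))⟩] .nil .nil .nil .nil .nil .nil) .nil .nil .nil .nil) (.node [⟨.x, .w, (B (K (.ofNat 24563183926866)) (K (.ofNat 10828736663112)) N N)⟩,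
  ⟨.x, T1, (K (.negSucc 55050457563143))⟩,
  ⟨.x, T5, (K (.ofNat 22843350390312))⟩] (.node [⟨.x, .w, (K (.ofNat 102710836148850))⟩] .nil .nil .nil .nil .nil .nil) (.node [⟨.x, .w, (K (.negSucc 40330976120495))⟩] .nil .nil .nil .nil .nil .nil) .nil .nil .nil .nil) .nil .nil .nil .nil) (.node [⟨.x, .z, (B (B (K (.negSucc 132342884445893)) (K (.negSucc 412900660081241)) N N) (B (K (.ofNat 977803768867542)) (K (.ofNat 782980689349500)) N N) N N)⟩,
  ⟨.x, T0, (B (K (.ofNat 121018004818596)) (K (.negSucc 217771756643603)) N N)⟩,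
  ⟨.x, T2, (B (K (.negSucc 528288453398429)) (K (.negSucc 40090606248263)) N N)⟩,
  ⟨.x, T9, (K (.ofNat 1029862333938))⟩,
  ⟨.x, T15, (K (.ofNat 494097317018142))⟩,
  ⟨.x, T17, (K (.negSucc 312822452380925))⟩,
  ⟨.x, T22, (K (.negSucc 338338783967819))⟩] (.node [⟨.x, .z, (B (K (.negSucc 440694318833783)) (K (.negSucc 388424098683581)) N N)⟩,
  ⟨.x, T0, (K (.negSucc 333544083426227))⟩,
  ⟨.x, T2, (K (.ofNat 41485245273648))⟩] (.node [⟨.x, .z, (K (.ofNat 377601394135164))⟩] .nil .nil .nil .nil .nil .nil) (.node [⟨.x, .z, (K (.negSucc 355849768809263))⟩] .nil .nil .nil .nil .nil .nil) .nil .nil .nil .nil) (.node [⟨.x, .z, (B (K (.negSucc 735080595115877)) (K (.ofNat 420245226419502)) N N)⟩,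
  ⟨.x, T0, (K (.negSucc 256147180049243))⟩,
  ⟨.x, T2, (K (.negSucc 256974156892211))⟩] (.node [⟨.x, .z, (K (.negSucc 252434256514553))⟩] .nil .nil .nil .nil .nil .nil) (.node [⟨.x, .z, (K (.negSucc 251673034205873))⟩] .nil .nil .nil .nil .nil .nil) .nil .nil .nil .nil) .nil .nil .nil .nil) (.node [⟨.x, .z, (B (B (K (.negSucc 31528407870179)) (K (.negSucc 303668092464065)) N N) (B (K (.negSucc 17026582013867)) (K (.negSucc 62045312347691)) N N) N N)⟩,
  ⟨.x, T0, (B (K (.ofNat 113649394794024)) (K (.ofNat 37240919724852)) N N)⟩,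
  ⟨.x, T2, (B (K (.negSucc 27879440539949)) (K (.ofNat 94862567375244)) N N)⟩,
  ⟨.x, T9, (K (.ofNat 18903606173712))⟩,
  ⟨.x, T15, (K (.negSucc 25578692122391))⟩,
  ⟨.x, T17, (K (.negSucc 27103961593457))⟩,
  ⟨.x, T22, (K (.ofNat 61318626939882))⟩] (.node [⟨.x, .z, (B (K (.ofNat 467910578939466)) (K (.ofNat 538902514954332)) N N)⟩,
  ⟨.x, T0, (K (.ofNat 311874089848074))⟩,
  ⟨.x, T2, (K (.negSucc 264490493504471))⟩] (.node [⟨.x, .z, (K (.negSucc 369372859147025))⟩] .nil .nil .nil .nil .nil .nil) (.node [⟨.x, .z, (K (.negSucc 357884012275541))⟩] .nil .nil .nil .nil .nil .nil) .nil .nil .nil .nil) (.node [⟨.x, .z, (B (K (.ofNat 9281942311818)) (K (.ofNat 7835096376540)) N N)⟩,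
  ⟨.x, T0, (K (.ofNat 48248173213632))⟩,
  ⟨.x, T2, (K (.ofNat 172487585665854))⟩] (.node [⟨.x, .z, (K (.ofNat 15831153187038))⟩] .nil .nil .nil .nil .nil .nil) (.node [⟨.x, .z, (K (.negSucc 1235480603111))⟩] .nil .nil .nil .nil .nil .nil) .nil .nil .nil .nil) .nil .nil .nil .nil))

def c_140 : Cert := (.node [⟨.x, .z, (B (A2 (K (.ofNat 3510691404265773))) (B N N (K (.ofNat 267814197924261)) (K (.negSucc 3207162178825646))) (B (K (.negSucc 2352204217606424)) (K (.negSucc 1199649301210049)) N N) (B (K (.ofNat 175852408367448)) (K (.ofNat 536736892494924)) N N))⟩,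
  ⟨.x, T0, (B N N (K (.negSucc 216366176420774)) (K (.negSucc 3869597598210944)))⟩,
  ⟨.x, T2, (B N N (K (.negSucc 3739405015458500)) (K (.negSucc 140388370892957)))⟩,
  ⟨.x, T3, (B (K (.ofNat 855546896296479)) (K (.ofNat 1442033883704535)) N N)⟩,
  ⟨.z, T0, (A0 (K (.negSucc 3182748849714275)))⟩,
  ⟨.x, T11, (K (.ofNat 233730937600227))⟩,
  ⟨.x, T18, (K (.negSucc 1422738982205831))⟩,
  ⟨.x, T23, (K (.ofNat 504494334998949))⟩,
  ⟨.x, T25, (K (.ofNat 138780360266718))⟩,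
  ⟨.z, T15, (K (.ofNat 404231075410296))⟩,
  ⟨.z, T17, (K (.negSucc 3243409300886))⟩] (.node [⟨.x, .z, (B N N (K (.ofNat 1134249465341406)) (K (.ofNat 4463211283028946)))⟩,
  ⟨.x, T3, (K (.ofNat 4873654480799907))⟩,
  ⟨.z, T0, (K (.ofNat 4568331676877100))⟩] .nil .nil (.node [⟨.x, .z, (K (.negSucc 411400613675816))⟩] .nil .nil .nil .nil .nil .nil) (.node [⟨.x, .z, (K (.negSucc 4592567111592998))⟩] .nil .nil .nil .nil .nil .nil) .nil .nil) (.node [⟨.x, .z, (B N N (K (.negSucc 3936346260073526)) (K (.negSucc 605636078219225)))⟩,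
  ⟨.x, T3, (K (.ofNat 794949141897318))⟩,
  ⟨.z, T0, (K (.negSucc 3336429098378483))⟩] .nil .nil (.node [⟨.x, .z, (K (.ofNat 3023067534403455))⟩] .nil .nil .nil .nil .nil .nil) (.node [⟨.x, .z, (K (.negSucc 175279799275745))⟩] .nil .nil .nil .nil .nil .nil) .nil .nil) (.node [⟨.x, .z, (B (K (.negSucc 742972669332707)) (K (.negSucc 2972993719445318)) N N)⟩,
  ⟨.x, T0, (K (.negSucc 3490214194641179))⟩,
  ⟨.x, T2, (K (.negSucc 66824582435036))⟩] (.node [⟨.x, .z, (K (.negSucc 66824582435036))⟩] .nil .nil .nil .nil .nil .nil) (.node [⟨.x, .z, (K (.ofNat 3027778998939633))⟩] .nil .nil .nil .nil .nil .nil) .nil .nil .nil .nil) (.node [⟨.x, .z, (B (K (.ofNat 3489610595854806)) (K (.ofNat 2403598901450544)) N N)⟩,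
  ⟨.x, T0, (K (.negSucc 570246394066445))⟩,
  ⟨.x, T2, (K (.negSucc 3153861913404542))⟩] (.node [⟨.x, .z, (K (.negSucc 3288761558095427))⟩] .nil .nil .nil .nil .nil .nil) (.node [⟨.x, .z, (K (.ofNat 754464537568419))⟩] .nil .nil .nil .nil .nil .nil) .nil .nil .nil .nil) .nil .nil)

def c_141 : Cert := (.node [⟨.x, .z, (B (A2 (K (.negSucc 4349082832125434))) (B N N (K (.ofNat 679992776457666)) (K (.ofNat 4134699369951645))) (B (K (.ofNat 4963880542826214)) (K (.ofNat 2461351468782288)) N N) (B (K (.ofNat 609069474267084)) (K (.negSucc 3063580675817489)) N N))⟩,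
  ⟨.x, T0, (B N N (K (.ofNat 224996756569830)) (K (.ofNat 3533182336748574)))⟩,
  ⟨.x, T2, (B N N (K (.ofNat 3515156756439177)) (K (.ofNat 103238350657404)))⟩,
  ⟨.x, T3, (B (K (.ofNat 574913442156336)) (K (.negSucc 3442158047702963)) N N)⟩,
  ⟨.z, T0, (A0 (K (.ofNat 5169870113915394)))⟩,
  ⟨.x, T11, (K (.ofNat 12178531657431))⟩,
  ⟨.x, T18, (K (.negSucc 90900412236956))⟩,
  ⟨.x, T23, (K (.ofNat 174425533482504))⟩,
  ⟨.x, T25, (K (.negSucc 123780477302465))⟩,
  ⟨.z, T15, (K (.negSucc 506856208977968))⟩,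
  ⟨.z, T17, (K (.ofNat 652609038053010))⟩] (.node [⟨.x, .z, (B N N (K (.negSucc 243606489884897)) (K (.negSucc 4243607221844960)))⟩,
  ⟨.x, T3, (K (.negSucc 3617830404833561))⟩,
  ⟨.z, T0, (K (.negSucc 3263452299323108))⟩] .nil .nil (.node [⟨.x, .z, (K (.ofNat 499057797410199))⟩] .nil .nil .nil .nil .nil .nil) (.node [⟨.x, .z, (K (.ofNat 2945680988920755))⟩] .nil .nil .nil .nil .nil .nil) .nil .nil) (.node [⟨.x, .z, (B N N (K (.ofNat 3952863072396762)) (K (.negSucc 739764080656433)))⟩,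
  ⟨.x, T3, (K (.negSucc 234150256790060))⟩,
  ⟨.z, T0, (K (.ofNat 4274023906638999))⟩] .nil .nil (.node [⟨.x, .z, (K (.negSucc 3054666665983436))⟩] .nil .nil .nil .nil .nil .nil) (.node [⟨.x, .z, (K (.ofNat 351544083642219))⟩] .nil .nil .nil .nil .nil .nil) .nil .nil) (.node [⟨.x, .z, (B (K (.negSucc 939614101752125)) (K (.ofNat 2067982733438556)) N N)⟩,
  ⟨.x, T0, (K (.ofNat 3586536893721417))⟩,
  ⟨.x, T2, (K (.ofNat 66812890497849))⟩] (.node [⟨.x, .z, (K (.negSucc 984693397535927))⟩] .nil .nil .nil .nil .nil .nil) (.node [⟨.x, .z, (K (.negSucc 2858181346828814))⟩] .nil .nil .nil .nil .nil .nil) .nil .nil .nil .nil) (.node [⟨.x, .z, (B (K (.negSucc 4882068171184928)) (K (.negSucc 1417275310752890)) N N)⟩,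
  ⟨.x, T0, (K (.ofNat 256828731494316))⟩,
  ⟨.x, T2, (K (.ofNat 4623820975746831))⟩] (.node [⟨.x, .z, (K (.ofNat 4121604108568116))⟩] .nil .nil .nil .nil .nil .nil) (.node [⟨.x, .z, (K (.ofNat 691673666900370))⟩] .nil .nil .nil .nil .nil .nil) .nil .nil .nil .nil) .nil .nil)

def c_14 : Cert := (.node [⟨.x, .z, (B (B (A2 (K (.ofNat 682341720126516))) N (B (K (.negSucc 1044878236298285)) (K (.negSucc 1745373995413586)) N N) N) (B (A2 (K (.ofNat 623286337476159))) (B N N (K (.ofNat 777131241800019)) (K (.ofNat 590634967010574))) (B (K (.negSucc 987711528119117)) (K (.ofNat 155072339016633)) N N) (B (K (.ofNat 409459691011704)) (K (.ofNat 1457265185271420)) N N)) (B (B (K (.ofNat 393829291069617)) (K (.ofNat 1693322073627723)) N N) (B (K (.negSucc 168508266770936)) (K (.ofNat 1135020521280708)) N N) N N) (B (B (K (.ofNat 69695429138226)) (K (.negSucc 163759344134570)) N N) (B (K (.negSucc 554332980882473)) (K (.negSucc 455905523463101))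 N N) N N))⟩,
  ⟨.x, T0, (B (A2 (K (.ofNat 135212453111709))) (B N N (K (.negSucc 500954922237806)) (K (.negSucc 369137903956811))) (B (K (.negSucc 212622107806196)) (K (.negSucc 314465298602444)) N N) (B (K (.ofNat 968037799649319)) (K (.ofNat 2144165405644656)) N N))⟩,
  ⟨.x, T2, (B (A2 (K (.negSucc 432363440708405))) (B N N (K (.ofNat 937439801604738)) (K (.ofNat 520015891744161))) (B (K (.ofNat 1523789565443709)) (K (.ofNat 2692715061744027)) N N) (B (K (.negSucc 400257554852255)) (K (.ofNat 160166874874356)) N N))⟩,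
  ⟨.x, T3, (B (B (K (.ofNat 590122318024464)) (K (.ofNat 75962672610462)) N N) (B (K (.ofNat 150659496273369)) (K (.negSucc 1071485180878310)) N N) N N)⟩,
  ⟨.z, T0, (A0 (B (K (.ofNat 1049158014472107)) (K (.ofNat 2659053631889601)) N N))⟩,
  ⟨.x, T9, (B N N (K (.negSucc 185609647683170)) (K (.negSucc 76807197758807)))⟩,
  ⟨.x, T11, (A1 (K (.negSucc 462153647905505)))⟩,
  ⟨.x, T15, (B N N (K (.ofNat 415980186897105)) (K (.ofNat 694943409776580)))⟩,
  ⟨.x, T17, (B N N (K (.negSucc 111151607285672)) (K (.negSucc 779705481372452)))⟩,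
  ⟨.x, T18, (B (K (.negSucc 169303775635751)) (K (.ofNat 875466095725755)) N N)⟩,
  ⟨.x, T22, (A3 (K (.negSucc 2451051399959)))⟩,
  ⟨.x, T23, (B (K (.negSucc 518930957615960)) (K (.negSucc 923038042786631)) N N)⟩,
  ⟨.x, T25, (B (K (.ofNat 529977957628506)) (K (.ofNat 159987318163056)) N N)⟩,
  ⟨.z, T15, (A0 (K (.ofNat 344084605718595)))⟩,
  ⟨.z, T17, (A0 (K (.negSucc 410415777980732)))⟩,
  ⟨.x, T34, (K (.negSucc 247654179279449))⟩,
  ⟨.x, T40, (K (.ofNat 197442439165278))⟩,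
  ⟨.x, T45, (K (.negSucc 672794920401479))⟩,
  ⟨.x, T47, (K (.ofNat 341006366815668))⟩,
  ⟨.x, T54, (K (.negSucc 390729255140699))⟩,
  ⟨.x, T57, (K (.ofNat 323001851408028))⟩,
  ⟨.x, T59, (K (.negSucc 269376844108211))⟩,
  ⟨.z, T37, (K (.ofNat 137355843342474))⟩] c_140 c_141 (.node [⟨.x, .z, (B (B (K (.negSucc 607867399004981)) (K (.ofNat 462657234140847)) N N) (B (K (.negSucc 640975344497654)) (K (.ofNat 1427163698733309)) N N) N N)⟩,
  ⟨.x, T0, (B (K (.negSucc 407798204595026)) (K (.ofNat 2125324712027295)) N N)⟩,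
  ⟨.x, T2, (B (K (.negSucc 105351086666231)) (K (.negSucc 805865799111578)) N N)⟩,
  ⟨.x, T9, (K (.negSucc 389674797405893))⟩,
  ⟨.x, T15, (K (.negSucc 175077468310607))⟩,
  ⟨.x, T17, (K (.ofNat 664399729605843))⟩,
  ⟨.x, T22, (K (.negSucc 180322702906643))⟩] (.node [⟨.x, .z, (B (K (.negSucc 107775049219343)) (K (.negSucc 266611947909641)) N N)⟩,
  ⟨.x, T0, (K (.negSucc 572502729406193))⟩,
  ⟨.x, T2, (K (.ofNat 2396873706264))⟩] (.node [⟨.x, .z, (K (.ofNat 182773754306604))⟩] .nil .nil .nil .nil .nil .nil) (.node [⟨.x, .z, (K (.ofNat 1369749064619448))⟩] .nil .nil .nil .nil .nil .nil) .nil .nil .nil .nil) (.node [⟨.x, .z, (B (K (.negSucc 639610475846996)) (K (.negSucc 2225120118707213)) N N)⟩,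
  ⟨.x, T0, (K (.negSucc 565197527622212))⟩,
  ⟨.x, T2, (K (.negSucc 470557993997807))⟩] (.node [⟨.x, .z, (K (.ofNat 297411418449567))⟩] .nil .nil .nil .nil .nil .nil) (.node [⟨.x, .z, (K (.ofNat 297336924120735))⟩] .nil .nil .nil .nil .nil .nil) .nil .nil .nil .nil) .nil .nil .nil .nil) (.node [⟨.x, .z, (B (B (K (.negSucc 568418599521089)) (K (.negSucc 1128189825134486)) N N) (B (K (.negSucc 929330421062582)) (K (.negSucc 2246863564106546)) N N) N N)⟩,
  ⟨.x, T0, (B (K (.negSucc 316797109641728)) (K (.ofNat 298312039448823)) N N)⟩,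
  ⟨.x, T2, (B (K (.ofNat 1215081768987906)) (K (.ofNat 1676651824899375)) N N)⟩,
  ⟨.x, T9, (K (.ofNat 210691541021775))⟩,
  ⟨.x, T15, (K (.negSucc 543673043857940))⟩,
  ⟨.x, T17, (K (.ofNat 682204738096407))⟩,
  ⟨.x, T22, (K (.ofNat 431711981282814))⟩] (.node [⟨.x, .z, (B (K (.ofNat 954304814858616)) (K (.ofNat 2436535274129907)) N N)⟩,
  ⟨.x, T0, (K (.ofNat 922491905457828))⟩,
  ⟨.x, T2, (K (.ofNat 522433082085561))⟩] (.node [⟨.x, .z, (K (.ofNat 88337771519907))⟩] .nil .nil .nil .nil .nil .nil) (.node [⟨.x, .z, (K (.ofNat 1125399887658336))⟩] .nil .nil .nil .nil .nil .nil) .nil .nil .nil .nil) (.node [⟨.x, .z, (B (K (.ofNat 844482388801713)) (K (.negSucc 1017471191468267)) N N)⟩,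
  ⟨.x, T0, (K (.negSucc 319799069226230))⟩,
  ⟨.x, T2, (K (.ofNat 64480354934154))⟩] (.node [⟨.x, .z, (K (.ofNat 235741951435827))⟩] .nil .nil .nil .nil .nil .nil) (.node [⟨.x, .z, (K (.ofNat 923670000610095))⟩] .nil .nil .nil .nil .nil .nil) .nil .nil .nil .nil) .nil .nil .nil .nil) .nil .nil)

def c_150 : Cert := (.node [⟨.x, .z, (B (A2 (K (.ofNat 1105293738694518))) (B N N (K (.negSucc 743452053339149)) (K (.negSucc 1049064331397912))) (B (K (.negSucc 1498897840258778)) (K (.negSucc 621093026719079)) N N) (B (K (.negSucc 77844506184377)) (K (.ofNat 812289337350975)) N N))⟩,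
  ⟨.x, T0, (B N N (K (.negSucc 121578031036385)) (K (.negSucc 1065017908874753)))⟩,
  ⟨.x, T2, (B N N (K (.negSucc 868000136053382)) (K (.ofNat 68252923056348)))⟩,
  ⟨.x, T3, (B (K (.negSucc 190682257729166)) (K (.ofNat 515856905467947)) N N)⟩,
  ⟨.z, T0, (A0 (K (.negSucc 1757754895148225)))⟩,
  ⟨.x, T11, (K (.ofNat 234458860672620))⟩,
  ⟨.x, T18, (K (.negSucc 27484274033108))⟩,
  ⟨.x, T23, (K (.ofNat 231728071681971))⟩,
  ⟨.x, T25, (K (.negSucc 78225408350279))⟩,
  ⟨.z, T15, (K (.negSucc 210757376326724))⟩,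
  ⟨.z, T17, (K (.negSucc 299868040813625))⟩] (.node [⟨.x, .z, (B N N (K (.negSucc 25036840390220)) (K (.ofNat 632362556773926)))⟩,
  ⟨.x, T3, (K (.ofNat 805809111708906))⟩,
  ⟨.z, T0, (K (.ofNat 379141538355522))⟩] .nil .nil (.node [⟨.x, .z, (K (.negSucc 215338145247521))⟩] .nil .nil .nil .nil .nil .nil) (.node [⟨.x, .z, (K (.negSucc 950263428199949))⟩] .nil .nil .nil .nil .nil .nil) .nil .nil) (.node [⟨.x, .z, (B N N (K (.negSucc 1256996468297834)) (K (.negSucc 109179686592755)))⟩,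
  ⟨.x, T3, (K (.negSucc 131092197204320))⟩,
  ⟨.z, T0, (K (.negSucc 1800367881510311))⟩] .nil .nil (.node [⟨.x, .z, (K (.ofNat 1006545691161207))⟩] .nil .nil .nil .nil .nil .nil) (.node [⟨.x, .z, (K (.negSucc 22679738907722))⟩] .nil .nil .nil .nil .nil .nil) .nil .nil) (.node [⟨.x, .z, (B (K (.ofNat 470467139133699)) (K (.negSucc 606152516170337)) N N)⟩,
  ⟨.x, T0, (K (.negSucc 895411294094114))⟩,
  ⟨.x, T2, (K (.negSucc 221302175080157))⟩] (.node [⟨.x, .z, (K (.negSucc 221302175080157))⟩] .nil .nil .nil .nil .nil .nil) (.node [⟨.x, .z, (K (.ofNat 686048291065602))⟩] .nil .nil .nil .nil .nil .nil) .nil .nil .nil .nil) (.node [⟨.x, .z, (B (K (.ofNat 1346990314854039)) (K (.ofNat 1119482614539720)) N N)⟩,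
  ⟨.x, T0, (K (.ofNat 347866656161184))⟩,
  ⟨.x, T2, (K (.negSucc 1371545174298239))⟩] (.node [⟨.x, .z, (K (.negSucc 1786922555636879))⟩] .nil .nil .nil .nil .nil .nil) (.node [⟨.x, .z, (K (.negSucc 666602924919137))⟩] .nil .nil .nil .nil .nil .nil) .nil .nil .nil .nil) .nil .nil)

def c_151 : Cert := (.node [⟨.x, .z, (B (A2 (K (.ofNat 670673389547457))) (B N N (K (.ofNat 313148668491429)) (K (.negSucc 366048727869569))) (B (K (.negSucc 584037095366552)) (K (.negSucc 117828187541402)) N N) (B (K (.ofNat 112489162751304)) (K (.ofNat 376663961150289)) N N))⟩,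
  ⟨.x, T0, (B N N (K (.ofNat 17840507203260)) (K (.negSucc 374938678510514)))⟩,
  ⟨.x, T2, (B N N (K (.negSucc 588210982914425)) (K (.negSucc 253021280440808)))⟩,
  ⟨.x, T3, (B (K (.ofNat 1364171660934)) (K (.ofNat 496943577637845)) N N)⟩,
  ⟨.z, T0, (A0 (K (.negSucc 700443406645928)))⟩,
  ⟨.x, T11, (K (.ofNat 61265072269008))⟩,
  ⟨.x, T18, (K (.negSucc 150813081766712))⟩,
  ⟨.x, T23, (K (.negSucc 83857123611446))⟩,
  ⟨.x, T25, (K (.ofNat 177735919530513))⟩,
  ⟨.z, T15, (K (.ofNat 104808292401405))⟩,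
  ⟨.z, T17, (K (.negSucc 52206647598689))⟩] (.node [⟨.x, .z, (B N N (K (.ofNat 247572987233673)) (K (.ofNat 693510727047561)))⟩,
  ⟨.x, T3, (K (.ofNat 764113506088311))⟩,
  ⟨.z, T0, (K (.ofNat 806278206590163))⟩] .nil .nil (.node [⟨.x, .z, (K (.negSucc 201524142201191))⟩] .nil .nil .nil .nil .nil .nil) (.node [⟨.x, .z, (K (.negSucc 227313941395907))⟩] .nil .nil .nil .nil .nil .nil) .nil .nil) (.node [⟨.x, .z, (B N N (K (.negSucc 529137211652705)) (K (.negSucc 114783796014857)))⟩,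
  ⟨.x, T3, (K (.ofNat 152932297756953))⟩,
  ⟨.z, T0, (K (.negSucc 436553377805024))⟩] .nil .nil (.node [⟨.x, .z, (K (.ofNat 98291990655603))⟩] .nil .nil .nil .nil .nil .nil) (.node [⟨.x, .z, (K (.ofNat 196133735711289))⟩] .nil .nil .nil .nil .nil .nil) .nil .nil) (.node [⟨.x, .z, (B (K (.negSucc 285025446790364)) (K (.negSucc 916611126116420)) N N)⟩,
  ⟨.x, T0, (K (.negSucc 614105585752754))⟩,
  ⟨.x, T2, (K (.ofNat 563475981607776))⟩] (.node [⟨.x, .z, (K (.ofNat 680493184490169))⟩] .nil .nil .nil .nil .nil .nil) (.node [⟨.x, .z, (K (.ofNat 682726326682575))⟩] .nil .nil .nil .nil .nil .nil) .nil .nil .nil .nil) (.node [⟨.x, .z, (B (K (.ofNat 420690907975608)) (K (.ofNat 127286412680043)) N N)⟩,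
  ⟨.x, T0, (K (.negSucc 88878539260784))⟩,
  ⟨.x, T2, (K (.negSucc 562527783018914))⟩] (.node [⟨.x, .z, (K (.negSucc 244695947294402))⟩] .nil .nil .nil .nil .nil .nil) (.node [⟨.x, .z, (K (.negSucc 122778549224696))⟩] .nil .nil .nil .nil .nil .nil) .nil .nil .nil .nil) .nil .nil)

def c_15 : Cert := (.node [⟨.x, .z, (B (B (A2 (K (.negSucc 275967083522735))) N (B (K (.ofNat 107384705679165)) (K (.negSucc 196722035905769)) N N) N) (B (A2 (K (.negSucc 150740734427414))) (B N N (K (.ofNat 145156949453010)) (K (.ofNat 281898802218210))) (B (K (.negSucc 272434307669876)) (K (.ofNat 108730599017238)) N N) (B (K (.negSucc 162865804575038)) (K (.negSucc 196721962400894)) N N)) (B (B (K (.negSucc 232527126231794)) (K (.negSucc 55526589609578)) N N) (B (K (.negSucc 124338413734610)) (K (.ofNat 346799136394377)) N N) N N) (B (B (K (.ofNat 92826170447490)) (K (.negSucc 264109984454870)) N N) (B (K (.ofNat 137026669437657)) (K (.ofNat 198652821111837))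 N N) N N))⟩,
  ⟨.x, T0, (B (A2 (K (.ofNat 19357537569264))) (B N N (K (.ofNat 67281374945340)) (K (.ofNat 145793541417660))) (B (K (.ofNat 28675254497904)) (K (.ofNat 154404860328081)) N N) (B (K (.negSucc 397835827877069)) (K (.negSucc 259933156978184)) N N))⟩,
  ⟨.x, T2, (B (A2 (K (.ofNat 333088416998622))) (B N N (K (.negSucc 584531353928933)) (K (.negSucc 656855454565124))) (B (K (.negSucc 205953573220475)) (K (.negSucc 46933437645764)) N N) (B (K (.ofNat 149935997025681)) (K (.ofNat 20555997995781)) N N))⟩,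
  ⟨.x, T3, (B (B (K (.negSucc 153018769611542)) (K (.negSucc 189598706569520)) N N) (B (K (.ofNat 48109303066776)) (K (.ofNat 172119895669719)) N N) N N)⟩,
  ⟨.z, T0, (A0 (B (K (.negSucc 363360283900433)) (K (.negSucc 529668514611494)) N N))⟩,
  ⟨.x, T9, (B N N (K (.ofNat 17458494311736)) (K (.negSucc 9052907071103)))⟩,
  ⟨.x, T11, (A1 (K (.ofNat 5809560434712)))⟩,
  ⟨.x, T15, (B N N (K (.negSucc 15537676954751)) (K (.negSucc 151253505155735)))⟩,
  ⟨.x, T17, (B N N (K (.ofNat 14902844367816)) (K (.ofNat 164151720540243)))⟩,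
  ⟨.x, T18, (B (K (.ofNat 128806999604907)) (K (.negSucc 23173716263660)) N N)⟩,
  ⟨.x, T22, (A3 (K (.negSucc 53663547697865)))⟩,
  ⟨.x, T23, (B (K (.ofNat 164773813237941)) (K (.ofNat 146412323664813)) N N)⟩,
  ⟨.x, T25, (B (K (.negSucc 158565783455726)) (K (.negSucc 80855664895106)) N N)⟩,
  ⟨.z, T15, (A0 (K (.negSucc 153226045394474)))⟩,
  ⟨.z, T17, (A0 (K (.ofNat 18902802287550)))⟩,
  ⟨.x, T34, (K (.ofNat 651072909312))⟩,
  ⟨.x, T40, (K (.negSucc 1468143080927))⟩,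
  ⟨.x, T45, (K (.ofNat 1195107767856))⟩,
  ⟨.x, T47, (K (.negSucc 6405805592783))⟩,
  ⟨.x, T54, (K (.ofNat 3959244047664))⟩,
  ⟨.x, T57, (K (.ofNat 5999747730336))⟩,
  ⟨.x, T59, (K (.ofNat 6529030040016))⟩,
  ⟨.z, T37, (K (.negSucc 5835180136319))⟩] c_150 c_151 (.node [⟨.x, .z, (B (B (K (.ofNat 12762202704201)) (K (.negSucc 276065328763664)) N N) (B (K (.ofNat 654146930831067)) (K (.ofNat 680449060459545)) N N) N N)⟩,
  ⟨.x, T0, (B (K (.ofNat 8782152322779)) (K (.negSucc 314686281062477)) N N)⟩,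
  ⟨.x, T2, (B (K (.negSucc 525918926365775)) (K (.ofNat 26716273588794)) N N)⟩,
  ⟨.x, T9, (K (.negSucc 31694921870837))⟩,
  ⟨.x, T15, (K (.ofNat 689482792107510))⟩,
  ⟨.x, T17, (K (.negSucc 386127660909728))⟩,
  ⟨.x, T22, (K (.negSucc 393952952149277))⟩] (.node [⟨.x, .z, (B (K (.negSucc 579555385216793)) (K (.negSucc 504935345780672)) N N)⟩,
  ⟨.x, T0, (K (.negSucc 479365599411677))⟩,
  ⟨.x, T2, (K (.ofNat 53636458851018))⟩] (.node [⟨.x, .z, (K (.ofNat 447643588693992))⟩] .nil .nil .nil .nil .nil .nil) (.node [⟨.x, .z, (K (.negSucc 505858644926633))⟩] .nil .nil .nil .nil .nil .nil) .nil .nil .nil .nil) (.node [⟨.x, .z, (B (K (.negSucc 695112786924650)) (K (.ofNat 476879425961178)) N N)⟩,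
  ⟨.x, T0, (K (.negSucc 369499178875070))⟩,
  ⟨.x, T2, (K (.negSucc 184538556649751))⟩] (.node [⟨.x, .z, (K (.negSucc 185901898891034))⟩] .nil .nil .nil .nil .nil .nil) (.node [⟨.x, .z, (K (.negSucc 191347146380090))⟩] .nil .nil .nil .nil .nil .nil) .nil .nil .nil .nil) .nil .nil .nil .nil) (.node [⟨.x, .z, (B (B (K (.ofNat 98342224100133)) (K (.ofNat 147267532038636)) N N) (B (K (.negSucc 200410847702801)) (K (.negSucc 88331782020299)) N N) N N)⟩,
  ⟨.x, T0, (B (K (.ofNat 51790044285969)) (K (.negSucc 70005775284926)) N N)⟩,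
  ⟨.x, T2, (B (K (.negSucc 154301043230582)) (K (.negSucc 174716935061273)) N N)⟩,
  ⟨.x, T9, (K (.negSucc 54343458259775))⟩,
  ⟨.x, T15, (K (.ofNat 71092206780120))⟩,
  ⟨.x, T17, (K (.negSucc 16231570922069))⟩,
  ⟨.x, T22, (K (.negSucc 53140062300137))⟩] (.node [⟨.x, .z, (B (K (.ofNat 364890603380715)) (K (.ofNat 408879384396885)) N N)⟩,
  ⟨.x, T0, (K (.negSucc 29419050751370))⟩,
  ⟨.x, T2, (K (.negSucc 603137729173562))⟩] (.node [⟨.x, .z, (K (.negSucc 603647670147866))⟩] .nil .nil .nil .nil .nil .nil) (.node [⟨.x, .z, (K (.negSucc 681626319422426))⟩] .nil .nil .nil .nil .nil .nil) .nil .nil .nil .nil) (.node [⟨.x, .z, (B (K (.ofNat 12689901521511)) (K (.ofNat 9213253585335)) N N)⟩,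
  ⟨.x, T0, (K (.negSucc 59299788681287))⟩,
  ⟨.x, T2, (K (.ofNat 75481677018180))⟩] (.node [⟨.x, .z, (K (.ofNat 50153465704590))⟩] .nil .nil .nil .nil .nil .nil) (.node [⟨.x, .z, (K (.negSucc 56767459521311))⟩] .nil .nil .nil .nil .nil .nil) .nil .nil .nil .nil) .nil .nil .nil .nil) .nil .nil)

def c_1 : Cert := (.node [⟨.x, .z, (C (C (C N N (A4 (K (.ofNat 191508889073094))) N (A2 (K (.ofNat 212908823208972))) N) N (C (A4 (K (.negSucc 160923649964813))) N N N (A0 (K (.negSucc 22009282075637))) N) N (B (A2 (K (.ofNat 222624947473578))) N (B (K (.ofNat 114622233776802)) (K (.ofNat 969052047328197)) N N) N) N) (C (C N N (A4 (K (.ofNat 566663316298479))) N (A2 (K (.negSucc 51646652561888))) N) (C N N N (A5 (K (.ofNat 517977974448))) N (A3 (K (.ofNat 36726735304512)))) N (C (A4 (K (.negSucc 379567093111343))) (C N N N N (K (.negSucc 2795324408341559)) (K (.negSucc 203288873971157))) N N N (B (K (.negSucc 95923544250842)) (K (.negSucc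 6706561452173)) N N)) (B (A2 (K (.negSucc 472115198721914))) (B N N (K (.negSucc 726954216008390)) (K (.ofNat 2330874254723643))) N (B (K (.ofNat 2897648061264594)) (K (.ofNat 355572529022016)) N N)) (B (A2 (K (.ofNat 134839605312801))) (B N N (K (.negSucc 1528849029446837)) (K (.negSucc 215165963536577))) (B (K (.ofNat 500871367748871)) (K (.negSucc 3629991662772389)) N N) (B (K (.negSucc 274906864724255)) (K (.negSucc 73140079962635)) N N))) (C (C (A4 (K (.ofNat 119735152253244))) N N N (B (K (.ofNat 22825002397878)) (K (.negSucc 1843177870079900)) N N) N) (C (A4 (K (.negSucc 1322438667645428))) (C N N N N (K (.negSucc 1998370973250026)) (K (.ofNat 99220257520659))) N N (B (K (.ofNat 928966444453026)) (K (.negSucc 1539844787274650)) N N) (B (K (.ofNat 605168990421741)) (K (.negSucc 2275495476451019)) N N)) N N (B (B (K (.negSucc 53740983037463)) (K (.ofNat 1158300993662145)) N N) (B (K (.ofNat 324895241539575)) (K (.ofNat 3725346592297062))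 N N) N N) N) (C (C (A4 (K (.ofNat 20020933890558))) N N N (B (K (.ofNat 191147863340286)) (K (.ofNat 1116855087304455)) N N) N) (C (A4 (K (.ofNat 891866801317005))) (C N N N N (K (.ofNat 899736078593808)) (K (.ofNat 241808410546749))) N N (B (K (.ofNat 2917036362892554)) (K (.negSucc 1693038711767327)) N N) (B (K (.ofNat 77735842876485)) (K (.negSucc 54474974191259)) N N)) N N (B (B (K (.negSucc 3428779396812821)) (K (.ofNat 1668860487843246)) N N) (B (K (.negSucc 1246323128026274)) (K (.ofNat 1749773304784233)) N N) N N) (B (B (K (.negSucc 1681064414855)) (K (.negSucc 946328338450610)) N N) (B (K (.negSucc 968753852056754)) (K (.ofNat 50230202592708)) N N) N N)) (B (B (A2 (K (.ofNat 29236533828264))) N (B (K (.ofNat 126938841128538)) (K (.ofNat 1674098164373976)) N N) N) (B (A2 (K (.negSucc 645332244516008))) (B N N (K (.ofNat 2127588037890186)) (K (.negSucc 2447258981929094))) (B (K (.negSucc 1339084936749221)) (K (.ofNat 1942157277222255))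 N N) (B (K (.negSucc 3388260774506921)) (K (.ofNat 1980626342743938)) N N)) (B (B (K (.negSucc 62996757954299)) (K (.negSucc 1623004611544808)) N N) (B (K (.negSucc 2992866069616820)) (K (.ofNat 228049115649588)) N N) N N) (B (B (K (.ofNat 3281181607843110)) (K (.negSucc 489665416776362)) N N) (B (K (.negSucc 565017499175741)) (K (.negSucc 378643576422059)) N N) N N)) (B (B (A2 (K (.ofNat 51225743845764))) N (B (K (.ofNat 178026397881762)) (K (.negSucc 431449122044159)) N N) N) (B (A2 (K (.ofNat 691839365648724))) (B N N (K (.ofNat 964597366270239)) (K (.ofNat 34943657352906))) (B (K (.ofNat 998406824405409)) (K (.ofNat 1755842890376241)) N N) (B (K (.negSucc 403614066170069)) (K (.ofNat 21166331687340)) N N)) (B (B (K (.negSucc 159604310501486)) (K (.ofNat 700149448381959)) N N) (B (K (.ofNat 1636383504975012)) (K (.ofNat 1068794410271256)) N N) N N) (B (B (K (.ofNat 268813376200800)) (K (.negSucc 924721454386205)) N N) (B (K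 (.negSucc 1054283819514641)) (K (.ofNat 20979464990544)) N N) N N)))⟩,
  ⟨.x, .w, (B (B (A2 (A2 (K (.ofNat 35737679148336)))) N (B (A2 (K (.ofNat 27164206724076))) N (A0 (K (.negSucc 119866083771365))) N) N) (B (A2 (A2 (K (.ofNat 196159319390808)))) (A3 (A3 (K (.ofNat 52353293155218)))) (B (A2 (K (.negSucc 281512795878413))) (A2 (K (.ofNat 693260745415290))) N (B (K (.ofNat 344497500249840)) (K (.ofNat 524274450874596)) N N)) (B (A2 (K (.ofNat 150217550138376))) (B N N (K (.ofNat 1122036366151494)) (K (.ofNat 449920887771600))) (B (K (.ofNat 469731598749594)) (K (.ofNat 1161531677976552)) N N) (B (K (.ofNat 137324408216472)) (K (.ofNat 49636087049214)) N N))) (B (B (A2 (K (.negSucc 123342103690109))) N (B (K (.ofNat 100403772728190)) (K (.negSucc 208428236936675)) N N) N) (B (A2 (K (.negSucc 152983850923799))) (B N N (K (.ofNat 813061282475136)) (K (.negSucc 251485118817095))) (B (K (.ofNat 501723337580946)) (K (.ofNat 277223432996430))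 N N) (B (K (.negSucc 506222654006159)) (K (.negSucc 277276718028893)) N N)) (B (A1 (K (.negSucc 443615908753871))) (B (K (.negSucc 62845008114707)) (K (.negSucc 279340162533305)) N N) N N) (B (B (K (.ofNat 12915005273424)) (K (.negSucc 427049890110485)) N N) (B (K (.ofNat 423603419332662)) (K (.ofNat 453710198651850)) N N) N N)) (B (B (A2 (K (.ofNat 41808175147926))) N (B (K (.ofNat 359992950030660)) (K (.ofNat 599202673601076)) N N) N) (B (A2 (K (.negSucc 75541895947367))) (B N N (K (.negSucc 2332463517551)) (K (.negSucc 235304899726973))) (B (K (.negSucc 327888231567371)) (K (.negSucc 768059093416013)) N N) (B (K (.negSucc 309879867276827)) (K (.negSucc 59369514128921)) N N)) (B (B (K (.negSucc 33084653920307)) (K (.negSucc 863578020397661)) N N) (B (K (.negSucc 369232299738125)) (K (.negSucc 666814421124287)) N N) N N) (B (B (K (.ofNat 266279951423448)) (K (.ofNat 44199315342270)) N N) (B (K (.negSucc 59704622701775)) (K (.negSucc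 31377308497271)) N N) N N)))⟩,
  ⟨.z, .w, (B (B (B (A2 (K (.ofNat 16161006755178))) N (A0 (K (.ofNat 114211391623320))) N) N (B (B (K (.negSucc 37386477739475)) (K (.negSucc 88093029012869)) N N) (B (K (.ofNat 140276069478486)) (K (.negSucc 206299888703171)) N N) N N) N) (B (B (A2 (K (.negSucc 321726339346661))) N (B (K (.negSucc 133989855228743)) (K (.ofNat 515585795362668)) N N) N) (B (A2 (K (.negSucc 328738001462165))) (B N N (K (.ofNat 83201301233250)) (K (.negSucc 199285091942483))) (B (K (.ofNat 549962749364160)) (K (.negSucc 723689100715337)) N N) (B (K (.negSucc 163620977611835)) (K (.negSucc 79406752113797)) N N)) (B (B (K (.ofNat 1420937177239026)) (K (.ofNat 19092613769082)) N N) (B (K (.negSucc 825506592696869)) (K (.negSucc 1482276374271971)) N N) N N) (B (B (K (.negSucc 320082532369829)) (K (.ofNat 392783709403434)) N N) (B (K (.ofNat 353097154324644)) (K (.negSucc 43591272045479)) N N) N N)) (B (B (B (K (.ofNat 832602326760))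 (K (.ofNat 413321791706430)) N N) (B (K (.negSucc 679688078797229)) (K (.ofNat 144592046783760)) N N) N N) (B (B (K (.ofNat 342227192821134)) (K (.ofNat 762352952795982)) N N) (B (K (.negSucc 470842500420929)) (K (.negSucc 254509209696245)) N N) N N) N N) (B (B (B (K (.negSucc 281782383330887)) (K (.ofNat 22816794346020)) N N) (B (K (.ofNat 735686165908302)) (K (.ofNat 991910554321854)) N N) N N) (B (B (K (.ofNat 643576165521882)) (K (.ofNat 667549914682692)) N N) (B (K (.negSucc 104590599260003)) (K (.ofNat 161523573077970)) N N) N N) N N))⟩,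
  ⟨.x, T0, (C (C N N (A4 (K (.negSucc 16671512655791))) N (A2 (K (.ofNat 33033433886784))) N) (C N N N (A5 (K (.negSucc 42330137583149))) (A3 (K (.negSucc 28337459033051))) (B N N (K (.negSucc 1444570326215)) (K (.negSucc 35308070618543)))) (C (A4 (K (.ofNat 33334177819428))) (C N N N N (K (.ofNat 64256311934541)) (K (.negSucc 48380537162303))) N N (B (K (.negSucc 15988252153427)) (K (.negSucc 69210591642413)) N N) N) (C (A4 (K (.ofNat 189316669336596))) (C N N N N (K (.negSucc 312302820832586)) (K (.negSucc 171824391219446))) N N (B (K (.ofNat 145205851861917)) (K (.negSucc 121503728290427)) N N) (B (K (.negSucc 60283939810940)) (K (.negSucc 5753847287951)) N N)) (B (A2 (K (.ofNat 17200391364360))) (B N N (K (.negSucc 77967946644083)) (K (.negSucc 74125997930177))) (B (K (.negSucc 7718320080359)) (K (.ofNat 6054505505928)) N N) (B (K (.negSucc 310553263697786)) (K (.ofNat 45885973440024)) N N)) (B (A2 (K (.negSucc 50700492867401)))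 (B N N (K (.negSucc 163356659262359)) (K (.negSucc 213618691680497))) (B (K (.ofNat 115814386013499)) (K (.ofNat 34513044248970)) N N) (B (K (.negSucc 240532616422367)) (K (.negSucc 76932217210427)) N N)))⟩,
  ⟨.x, T1, (B (A2 (A2 (K (.ofNat 6961261362264)))) (B N N (A3 (K (.ofNat 88514018623638))) (B N N (K (.ofNat 64456635911220)) (K (.negSucc 20119179454541)))) (B (A2 (K (.ofNat 2510975775024))) (B N N (K (.negSucc 1472926840127)) (K (.negSucc 117142972114229))) (B (K (.negSucc 305643269375)) (K (.ofNat 104512402199520)) N N) (B (K (.negSucc 373200088275035)) (K (.ofNat 90659913269868)) N N)) (B (A2 (K (.ofNat 172742218139232))) (B N N (K (.negSucc 595044548380655)) (K (.negSucc 395069084807543))) (B (K (.negSucc 60078741838649)) (K (.ofNat 189155068194006)) N N) (B (K (.negSucc 151686654932933)) (K (.negSucc 59173985009645)) N N)))⟩,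
  ⟨.x, T2, (C (C N N (A4 (K (.negSucc 192473747484533))) N (A2 (K (.negSucc 211308105166955))) N) (C N N N (A5 (K (.ofNat 21943187455005))) (A3 (K (.ofNat 215752199994306))) (B N N (K (.negSucc 49834475172431)) (K (.ofNat 29557398942000)))) (C (A4 (K (.ofNat 224358915438666))) (C N N N N (K (.negSucc 345805491012191)) (K (.negSucc 235219390108523))) N N (B (K (.ofNat 106007129201070)) (K (.negSucc 59963614347329)) N N) N) (C (A4 (K (.negSucc 65288968194059))) (C N N N N (K (.ofNat 118002910063464)) (K (.ofNat 21754339666740))) N N (B (K (.negSucc 220303609334729)) (K (.negSucc 85024016730854)) N N) (B (K (.negSucc 73125410439401)) (K (.ofNat 5737733769888)) N N)) (B (A2 (K (.negSucc 251772396764471))) (B N N (K (.ofNat 424704510471132)) (K (.ofNat 443479410818496))) (B (K (.negSucc 40075443752291)) (K (.negSucc 289680485039675)) N N) (B (K (.ofNat 323133873071652)) (K (.negSucc 57898377423629)) N N)) (B (A2 (K (.negSucc 44671490230589)))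 (B N N (K (.ofNat 58697100997146)) (K (.negSucc 81266540543))) (B (K (.negSucc 85704668390357)) (K (.ofNat 51480935092620)) N N) N))⟩,
  ⟨.x, T3, (C (C (A4 (K (.ofNat 44382271190472))) N N N (B (K (.ofNat 78648344996796)) (K (.ofNat 15317032252743)) N N) N) (C (A4 (K (.negSucc 127039940094311))) (C N N N N (K (.ofNat 375687826480710)) (K (.ofNat 158438610979992))) N N (B (K (.negSucc 14483310501131)) (K (.ofNat 133616978525466)) N N) (B (K (.ofNat 184750355043576)) (K (.negSucc 22374623997503)) N N)) N N (B (B (K (.negSucc 6997069241927)) (K (.negSucc 71608937473871)) N N) (B (K (.ofNat 59285109019410)) (K (.ofNat 72930808533942)) N N) N N) (B (B (K (.ofNat 71808165603882)) (K (.ofNat 41372603183178)) N N) (B (K (.ofNat 38287140146586)) (K (.ofNat 54376715046564)) N N) N N))⟩,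
  ⟨.x, T4, (B (B (A2 (K (.negSucc 60049892891213))) N (B (K (.negSucc 67643584602395)) (K (.negSucc 436327167834251)) N N) N) (B (A2 (K (.negSucc 70606559705777))) (B N N (K (.negSucc 169593695304545)) (K (.ofNat 103750854671388))) (B (K (.ofNat 196154376098508)) (K (.negSucc 267400742401637)) N N) (B (K (.ofNat 517679786153502)) (K (.ofNat 44562488263620)) N N)) (B (B (K (.ofNat 46656285286788)) (K (.ofNat 217352230713324)) N N) (B (K (.ofNat 558556142115222)) (K (.ofNat 199744077398148)) N N) N N) (B (B (K (.negSucc 153345316684481)) (K (.ofNat 95038283893086)) N N) (B (K (.ofNat 163514330637588)) (K (.ofNat 33919098719688)) N N) N N))⟩,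
  ⟨.x, T5, (B (A2 (A2 (K (.negSucc 35760013188911)))) (B N N (A3 (K (.ofNat 219840134939550))) (B N N (K (.ofNat 49491033701922)) (K (.ofNat 8364474667692)))) (B (A2 (K (.negSucc 27215864060651))) (B N N (K (.ofNat 1976220092610)) (K (.negSucc 252284622755363))) (B (K (.ofNat 120171727040742)) (K (.ofNat 172131707046258)) N N) (B (K (.negSucc 414688354451783)) (K (.ofNat 100224839086614)) N N)) (B (A2 (K (.ofNat 131820572828646))) (B N N (K (.negSucc 208270233438569)) (K (.negSucc 3991393907999))) (B (K (.negSucc 221625046977965)) (K (.negSucc 151488277584497)) N N) (B (K (.negSucc 119609935605125)) (K (.ofNat 4257774257328)) N N)))⟩,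
  ⟨.x, T6, (B (B (A2 (K (.ofNat 4236062472810))) N (B (K (.negSucc 79101496602515)) (K (.negSucc 401972290932977)) N N) N) (B (A2 (K (.ofNat 88747741334880))) (B N N (K (.negSucc 323067562359737)) (K (.negSucc 35871511850057))) (B (K (.ofNat 205153142737284)) (K (.negSucc 88610911071191)) N N) (B (K (.ofNat 574999652815254)) (K (.negSucc 16486094419025)) N N)) (B (B (K (.ofNat 46912439790468)) (K (.ofNat 265415258528622)) N N) (B (K (.ofNat 443138053705686)) (K (.ofNat 99243867285936)) N N) N N) (B (B (K (.negSucc 274824640985111)) (K (.ofNat 15434279682426)) N N) (B (K (.ofNat 59322321158166)) (K (.negSucc 23122061947439)) N N) N N))⟩,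
  ⟨.z, T0, (C (C (A4 (K (.ofNat 153246973486572))) N N N (B (K (.ofNat 99091284339042)) (K (.negSucc 236060662054895)) N N) N) (C N (C N N N N (K (.ofNat 786263394891015)) (K (.ofNat 307470255129216))) N N N (B (K (.ofNat 390408963337431)) (K (.negSucc 37550523584069)) N N)) N N (B (B (K (.negSucc 33759909166463)) (K (.negSucc 204911354797739)) N N) (A0 (K (.negSucc 122338728577349))) N N) (A1 (A1 (K (.ofNat 58044710534436)))))⟩,
  ⟨.z, T1, (B (B (A2 (K (.ofNat 62629415294166))) N (B (K (.ofNat 61488598314084)) (K (.ofNat 240179758262514)) N N) N) (B N (B N N (K (.ofNat 571846177199028)) (K (.ofNat 319075814070078))) N (B (K (.negSucc 235041484405139)) (K (.ofNat 66493649440506)) N N)) (B (B (K (.negSucc 45538590200939)) (K (.negSucc 160727822421641)) N N) (A0 (K (.negSucc 70169085825461))) N N) (A1 (A1 (K (.ofNat 53381427521184)))))⟩,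
  ⟨.z, T4, (B (B (B (K (.negSucc 1637447198831)) (K (.ofNat 28886909269446)) N N) (B (K (.negSucc 123398262992015)) (K (.negSucc 158873030557307)) N N) N N) (B (B (K (.negSucc 55272961432745)) (K (.negSucc 108027708425567)) N N) (B (K (.negSucc 167013017993645)) (K (.negSucc 137613787027361)) N N) N N) N N)⟩,
  ⟨.z, T5, (B (B (A2 (K (.ofNat 123338320448382))) N (B (K (.negSucc 100125955283837)) (K (.negSucc 12755035991861)) N N) N) (B N (B N N (K (.ofNat 271053726284706)) (K (.ofNat 46891560604602))) N (B (K (.negSucc 183120927272603)) (K (.negSucc 4730005169651)) N N)) N N)⟩,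
  ⟨.z, T6, (A1 (B (B (K (.ofNat 3992887523448)) (K (.negSucc 23135753746853)) N N) (B (K (.negSucc 114218854524953)) (K (.negSucc 27618563562335)) N N) N N))⟩,
  ⟨.x, T9, (C N N (A4 (K (.negSucc 10553037732071))) (C N N N N (K (.ofNat 27161164885014)) (K (.ofNat 2512862156304))) (B N N (K (.ofNat 17411802397344)) (K (.negSucc 9830891964869))) (B N N (K (.ofNat 6076820085822)) (K (.negSucc 30829351679))))⟩,
  ⟨.x, T10, (A3 (B N N (K (.negSucc 20430505909331)) (K (.negSucc 6004436911775))))⟩,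
  ⟨.x, T11, (C N (C N N N N (K (.negSucc 32384997431567)) (K (.negSucc 2482168302719))) N N (B (K (.negSucc 29476463835455)) (K (.ofNat 21040828892136)) N N) (A1 (K (.ofNat 190869882624))))⟩,
  ⟨.x, T12, (B N (B N N (K (.ofNat 9837540413856)) (K (.negSucc 491362702847))) N (A1 (K (.ofNat 6496427231136))))⟩,
  ⟨.x, T13, (B (B (K (.negSucc 444574199807)) (K (.ofNat 8842804504974)) N N) (B (K (.ofNat 27447289011720)) (K (.negSucc 2459057322023)) N N) N N)⟩,
  ⟨.x, T15, (C N N (A4 (K (.negSucc 5283711466199))) (C N N N N (K (.ofNat 56405618004672)) (K (.ofNat 43626588767406))) (B N N (K (.ofNat 4696923384504)) (K (.ofNat 129254789250486))) (B N N (K (.negSucc 21163503015773)) (K (.ofNat 68911424815104))))⟩,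
  ⟨.x, T16, (B N N (B N N (K (.ofNat 21888120243312)) (K (.ofNat 111749947429050))) (B N N (K (.negSucc 76216134108509)) (K (.ofNat 22174680268260))))⟩,
  ⟨.x, T17, (C N N (A4 (K (.ofNat 2625604632432))) (C N N N N (K (.negSucc 63921322712033)) (K (.negSucc 12702443241860))) (B N N (K (.negSucc 2336693453855)) (K (.negSucc 91603752605981))) (B N N (K (.ofNat 15020025560010)) (K (.negSucc 29226220097327))))⟩,
  ⟨.x, T18, (C (A4 (K (.negSucc 56065414869287))) (C N N N N (K (.ofNat 44877821032737)) (K (.ofNat 45376795455489))) N N (B (K (.negSucc 91889165460923)) (K (.ofNat 4556065879593)) N N) (B (K (.ofNat 9736615391355)) (K (.negSucc 39375937760507)) N N))⟩,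
  ⟨.x, T19, (B (A2 (K (.ofNat 8926642765152))) (B N N (K (.negSucc 20981122845245)) (K (.negSucc 70316898247511))) (B (K (.negSucc 26722432514663)) (K (.negSucc 115509753081737)) N N) (B (K (.ofNat 165449754987732)) (K (.negSucc 18636803492057)) N N))⟩,
  ⟨.x, T20, (B N N (B N N (K (.ofNat 6886379975256)) (K (.ofNat 101767892438106))) (B N N (K (.negSucc 80636626360547)) (K (.ofNat 4344315400116))))⟩,
  ⟨.x, T21, (B (A2 (K (.negSucc 56476625923133))) N (B (K (.ofNat 82790874439758)) (K (.negSucc 98978433169535)) N N) (B (K (.ofNat 187641873364608)) (K (.ofNat 12568348458738)) N N))⟩,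
  ⟨.x, T22, (C N N N (C N N N N (K (.ofNat 45608415269490)) (K (.negSucc 233798068223))) N (A3 (K (.negSucc 298788009983))))⟩,
  ⟨.x, T23, (C (A4 (K (.negSucc 60719786665595))) (C N N N N (K (.negSucc 61544044737926)) (K (.ofNat 6300299122641))) N N (B (K (.negSucc 77101895571407)) (K (.negSucc 96999522568406)) N N) (B (K (.negSucc 99372199641794)) (K (.ofNat 9248220027522)) N N))⟩,
  ⟨.x, T24, (B (A2 (K (.ofNat 46925859954510))) (B N N (K (.ofNat 52295867999550)) (K (.ofNat 48841699981968))) (B (K (.negSucc 63459544691861)) (K (.negSucc 64520867915441)) N N) (B (K (.negSucc 137523019173119)) (K (.ofNat 8847457446456)) N N))⟩,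
  ⟨.x, T25, (C (A4 (K (.ofNat 41401368402120))) (C N N N N (K (.negSucc 35595872357003)) (K (.negSucc 45731819300867))) N N (B (K (.ofNat 74588775993756)) (K (.ofNat 101604142119519)) N N) (B (K (.ofNat 73125410439402)) (K (.negSucc 5819000310431)) N N))⟩,
  ⟨.x, T26, (B (B (K (.negSucc 2310771660911)) (K (.ofNat 74209577891940)) N N) (B (K (.ofNat 1383295501026)) (K (.negSucc 11441441906495)) N N) N N)⟩,
  ⟨.x, T27, (B (A2 (K (.ofNat 55935493764966))) (B N N (K (.ofNat 43027448374998)) (K (.negSucc 2088118748447))) (B (K (.negSucc 86017689040805)) (K (.negSucc 86610866414723)) N N) (B (K (.negSucc 121642948783493)) (K (.ofNat 4257774257328)) N N))⟩,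
  ⟨.x, T28, (B (B (K (.negSucc 4184490309335)) (K (.ofNat 102344286953592)) N N) (A1 (K (.negSucc 14044235137055))) N N)⟩,
  ⟨.x, T29, (A3 (B N N (K (.negSucc 37154183954255)) (K (.ofNat 2138390046720))))⟩,
  ⟨.x, T30, (B N (B N N (K (.ofNat 68613202004472)) (K (.ofNat 1260035606016))) N (A1 (K (.negSucc 35773581311))))⟩,
  ⟨.x, T31, (B (B (K (.negSucc 2547043110503)) (K (.ofNat 25834376785536)) N N) (A1 (K (.negSucc 4129608238559))) N N)⟩,
  ⟨.z, T15, (C (A4 (K (.ofNat 44887077250236))) (A5 (K (.negSucc 39809961832742))) N N (B (K (.ofNat 89304610469256)) (K (.negSucc 31162186352888)) N N) (A1 (K (.ofNat 4397559058818))))⟩,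
  ⟨.z, T16, (B (A2 (K (.negSucc 68982553341917))) (A3 (K (.ofNat 47935783663488))) (A0 (K (.ofNat 83522745870750))) N)⟩,
  ⟨.z, T17, (C (A4 (K (.ofNat 30318470937036))) (A5 (K (.negSucc 8743317380315))) N N (A0 (K (.ofNat 5569817942340))) N)⟩,
  ⟨.x, T34, (A5 (K (.ofNat 84182353920)))⟩,
  ⟨.x, T35, (A3 (K (.ofNat 452663230464)))⟩,
  ⟨.x, T78, (A1 (K (.ofNat 525531691008)))⟩,
  ⟨.x, T36, (A0 (K (.negSucc 444311257967)))⟩,
  ⟨.x, T40, (C N N N N (K (.ofNat 27523166332536)) (K (.negSucc 19265533335791)))⟩,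
  ⟨.x, T41, (B N N (K (.negSucc 7878055319495)) (K (.negSucc 9303878921183)))⟩,
  ⟨.x, T43, (B N N (K (.negSucc 15016903193807)) (K (.ofNat 5459569574688)))⟩,
  ⟨.x, T45, (C N N N N (K (.negSucc 100155015575)) (K (.ofNat 36991298032560)))⟩,
  ⟨.x, T46, (A2 (K (.negSucc 18991838035511)))⟩,
  ⟨.x, T47, (C N N N N (K (.negSucc 3793596510023)) (K (.negSucc 24058746174671)))⟩,
  ⟨.x, T48, (A0 (K (.ofNat 30286892436480)))⟩,
  ⟨.x, T49, (A2 (K (.negSucc 16168403090015)))⟩,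
  ⟨.x, T50, (A0 (K (.ofNat 20497874130000)))⟩,
  ⟨.x, T52, (A2 (K (.negSucc 2459318438447)))⟩,
  ⟨.x, T79, (A0 (K (.ofNat 1173193520976)))⟩,
  ⟨.x, T54, (A5 (K (.ofNat 188788278528)))⟩,
  ⟨.x, T55, (A3 (K (.ofNat 5835042599328)))⟩,
  ⟨.x, T57, (C N N N N (K (.negSucc 20950351952831)) (K (.negSucc 10239072131735)))⟩,
  ⟨.x, T58, (B N N (K (.ofNat 27381985226784)) (K (.ofNat 10704341813400)))⟩,
  ⟨.x, T59, (A5 (K (.ofNat 9686631872664)))⟩,
  ⟨.x, T80, (B (K (.negSucc 19604373723575)) (K (.negSucc 2021211874295)) N N)⟩,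
  ⟨.x, T60, (B N N (K (.ofNat 17037457964928)) (K (.ofNat 1978147826424)))⟩,
  ⟨.x, T81, (B (K (.negSucc 17795588797583)) (K (.negSucc 6878134574999)) N N)⟩,
  ⟨.x, T82, (A0 (K (.negSucc 7482861594215)))⟩,
  ⟨.x, T61, (A3 (K (.negSucc 2033013178367)))⟩,
  ⟨.x, T63, (A3 (K (.negSucc 162815256575)))⟩,
  ⟨.x, T65, (A3 (K (.negSucc 61727567615)))⟩,
  ⟨.x, T83, (A1 (K (.ofNat 20028301056)))⟩,
  ⟨.z, T37, (A4 (K (.negSucc 4218172367615)))⟩,
  ⟨.z, T38, (A2 (K (.negSucc 2903974626815)))⟩,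
  ⟨.z, T42, (A2 (K (.ofNat 10499797344240)))⟩,
  ⟨.x, T84, (K (.negSucc 962191277351))⟩,
  ⟨.x, T72, (K (.negSucc 14942398224527))⟩,
  ⟨.x, T85, (K (.negSucc 11928727027007))⟩,
  ⟨.x, T86, (K (.ofNat 135678820608))⟩,
  ⟨.x, T88, (K (.ofNat 5708292617376))⟩,
  ⟨.x, T89, (K (.ofNat 3168444155688))⟩,
  ⟨.x, T90, (K (.ofNat 1009976615424))⟩,
  ⟨.x, T91, (K (.ofNat 7075275829704))⟩,
  ⟨.x, T92, (K (.ofNat 834285422592))⟩,
  ⟨.x, T94, (K (.negSucc 474619170815))⟩,
  ⟨.x, T95, (K (.ofNat 2258426824272))⟩,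
  ⟨.x, T96, (K (.ofNat 6414512918688))⟩,
  ⟨.x, T97, (K (.ofNat 227161905408))⟩,
  ⟨.x, T98, (K (.ofNat 1349271924480))⟩,
  ⟨.x, T99, (K (.ofNat 30380894208))⟩,
  ⟨.x, T101, (K (.ofNat 11569195008))⟩,
  ⟨.x, T102, (K (.negSucc 94497435647))⟩,
  ⟨.z, T67, (K (.ofNat 2301943435344))⟩,
  ⟨.z, T68, (K (.ofNat 4102921243296))⟩] c_10 c_11 c_12 c_13 c_14 c_15)

def c_200 : Cert := (.node [⟨.x, .z, (C (A4 (K (.ofNat 50830452227808))) (C N N N N (K (.ofNat 87102750517632)) (K (.ofNat 26928488755008))) N N (B (K (.negSucc 9155619003815)) (K (.negSucc 53452702590335)) N N) (B (K (.negSucc 22712616630035)) (K (.ofNat 6328139097744)) N N))⟩,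
  ⟨.x, .w, (B (A2 (K (.negSucc 2343452951519))) (B N N (K (.negSucc 40519885952159)) (K (.negSucc 85491969104879))) (B (K (.ofNat 2987626114296)) (K (.negSucc 64029247543007)) N N) (B (K (.negSucc 62261926499843)) (K (.ofNat 20453873134464)) N N))⟩,
  ⟨.z, .w, (B (B (K (.ofNat 44734023418668)) (K (.ofNat 33187912208952)) N N) (B (K (.negSucc 109389209866055)) (K (.ofNat 25693925295024)) N N) N N)⟩,
  ⟨.x, T0, (C N N N N (K (.negSucc 5914121602895)) (K (.ofNat 26753168010816)))⟩,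
  ⟨.x, T1, (B N N (K (.negSucc 29775077747855)) (K (.ofNat 107182589036400)))⟩,
  ⟨.x, T2, (C N N N N (K (.negSucc 95326341252479)) (K (.ofNat 809600292864)))⟩,
  ⟨.x, T4, (B (K (.ofNat 53010021525768)) (K (.ofNat 2284187057568)) N N)⟩,
  ⟨.x, T5, (B N N (K (.ofNat 42346596639024)) (K (.negSucc 11508099849359)))⟩,
  ⟨.x, T6, (B (K (.ofNat 20432158756164)) (K (.ofNat 65421019356912)) N N)⟩,
  ⟨.z, T1, (A0 (K (.ofNat 91158162608196)))⟩,
  ⟨.z, T5, (A0 (K (.negSucc 26466485225939)))⟩,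
  ⟨.x, T12, (K (.ofNat 2318357915136))⟩,
  ⟨.x, T19, (K (.ofNat 28607416098480))⟩,
  ⟨.x, T21, (K (.ofNat 71889852608640))⟩,
  ⟨.x, T24, (K (.ofNat 20017178573184))⟩,
  ⟨.x, T27, (K (.negSucc 10340212082831))⟩,
  ⟨.x, T30, (K (.ofNat 1216812554496))⟩,
  ⟨.z, T16, (K (.ofNat 21572461931904))⟩,
  ⟨.z, T20, (K (.negSucc 7651550721167))⟩] (.node [⟨.x, .z, (C N N N N (K (.negSucc 37427325405983)) (K (.ofNat 19342053114912)))⟩,
  ⟨.x, .w, (B N N (K (.negSucc 63052149518927)) (K (.negSucc 57588250308191)))⟩,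
  ⟨.z, .w, (B (K (.negSucc 2221476316451)) (K (.negSucc 32904295205039)) N N)⟩,
  ⟨.x, T4, (K (.ofNat 42127476614208))⟩,
  ⟨.x, T6, (K (.negSucc 18185476442399))⟩,
  ⟨.z, T1, (K (.ofNat 56859000978528))⟩,
  ⟨.z, T5, (K (.ofNat 18318704516640))⟩] (.node [⟨.z, .w, (K (.ofNat 15798628079136))⟩] .nil .nil .nil .nil .nil .nil) (.node [⟨.z, .w, (K (.negSucc 7971147000575))⟩] .nil .nil .nil .nil .nil .nil) (.node [⟨.x, .w, (K (.negSucc 18291615669791))⟩] .nil .nil .nil .nil .nil .nil) (.node [⟨.x, .w, (K (.negSucc 27424494183599))⟩] .nil .nil .nil .nil .nil .nil) (.node [⟨.x, .z, (K (.ofNat 15867118527264))⟩] .nil .nil .nil .nil .nil .nil) (.node [⟨.x, .z, (K (.negSucc 31903060431023))⟩] .nil .nil .nil .nil .nil .nil)) (.node [⟨.x, .z, (C N N N N (K (.negSucc 77143106679935)) (K (.negSucc 20108914676975)))⟩,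
  ⟨.x, .w, (B N N (K (.negSucc 32907925727087)) (K (.negSucc 13272213477503)))⟩,
  ⟨.z, .w, (B (K (.ofNat 57149377719540)) (K (.negSucc 78306007814447)) N N)⟩,
  ⟨.x, T4, (K (.ofNat 91493023850736))⟩,
  ⟨.x, T6, (K (.ofNat 63603981783696))⟩,
  ⟨.z, T1, (K (.negSucc 21829845097823))⟩,
  ⟨.z, T5, (K (.negSucc 9479222804207))⟩] (.node [⟨.z, .w, (K (.negSucc 139107195249455))⟩] .nil .nil .nil .nil .nil .nil) (.node [⟨.z, .w, (K (.negSucc 158275236818975))⟩] .nil .nil .nil .nil .nil .nil) (.node [⟨.x, .w, (K (.ofNat 37842722391216))⟩] .nil .nil .nil .nil .nil .nil) (.node [⟨.x, .w, (K (.ofNat 83467704816096))⟩] .nil .nil .nil .nil .nil .nil) (.node [⟨.x, .z, (K (.ofNat 31538391202032))⟩] .nil .nil .nil .nil .nil .nil) (.node [⟨.x, .z, (K (.negSucc 77637281567855))⟩] .nil .nil .nil .nil .nil .nil)) (.node [⟨.x, .w, (B (K (.ofNat 27967590890964)) (K (.ofNat 89220816205776)) N N)⟩,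
  ⟨.x, T1, (K (.negSucc 98059922623583))⟩,
  ⟨.x, T5, (K (.negSucc 1501105665023))⟩] (.node [⟨.x, .w, (K (.ofNat 1528194511872))⟩] .nil .nil .nil .nil .nil .nil) (.node [⟨.x, .w, (K (.ofNat 4168481387472))⟩] .nil .nil .nil .nil .nil .nil) .nil .nil .nil .nil) (.node [⟨.x, .w, (B (K (.negSucc 7033552138295)) (K (.ofNat 7578192785760)) N N)⟩,
  ⟨.x, T1, (K (.negSucc 39295469375711))⟩,
  ⟨.x, T5, (K (.ofNat 15777507379248))⟩] (.node [⟨.x, .w, (K (.negSucc 13470538033151))⟩] .nil .nil .nil .nil .nil .nil) (.node [⟨.x, .w, (K (.negSucc 32830236905327))⟩] .nil .nil .nil .nil .nil .nil) .nil .nil .nil .nil) (.node [⟨.x, .z, (B (K (.ofNat 11503640960748)) (K (.negSucc 36580225733423)) N N)⟩,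
  ⟨.x, T0, (K (.negSucc 44882690920127))⟩,
  ⟨.x, T2, (K (.negSucc 27088846847))⟩] (.node [⟨.x, .z, (K (.ofNat 1216812554496))⟩] .nil .nil .nil .nil .nil .nil) (.node [⟨.x, .z, (K (.negSucc 25453421144495))⟩] .nil .nil .nil .nil .nil .nil) .nil .nil .nil .nil) (.node [⟨.x, .z, (B (K (.negSucc 111326672985191)) (K (.negSucc 29865313347263)) N N)⟩,
  ⟨.x, T0, (K (.negSucc 25023710107007))⟩,
  ⟨.x, T2, (K (.ofNat 33074826684912))⟩] (.node [⟨.x, .z, (K (.ofNat 22376222992224))⟩] .nil .nil .nil .nil .nil .nil) (.node [⟨.x, .z, (K (.negSucc 70217221854527))⟩] .nil .nil .nil .nil .nil .nil) .nil .nil .nil .nil))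

def c_201 : Cert := (.node [⟨.x, .z, (C (A4 (K (.negSucc 80739598929983))) (C N N N N (K (.negSucc 82608878640671)) (K (.negSucc 33731529929999))) N N (B (K (.negSucc 43734831866819)) (K (.ofNat 69260164914528)) N N) (B (K (.negSucc 98954414079047)) (K (.negSucc 39288175154927)) N N))⟩,
  ⟨.x, .w, (B (A2 (K (.ofNat 11772410591664))) (B N N (K (.ofNat 54836288485632)) (K (.ofNat 32884013244096))) (B (K (.ofNat 57510984224268)) (K (.ofNat 37243824492816)) N N) (B (K (.negSucc 141237001032263)) (K (.negSucc 77455361294351)) N N))⟩,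
  ⟨.z, .w, (B (B (K (.negSucc 24059374762523)) (K (.ofNat 1853260415400)) N N) (B (K (.negSucc 35658724442327)) (K (.ofNat 34548095696112)) N N) N N)⟩,
  ⟨.x, T0, (C N N N N (K (.ofNat 8291611039536)) (K (.negSucc 5913703094543)))⟩,
  ⟨.x, T1, (B N N (K (.negSucc 23572559156111)) (K (.negSucc 13695688388159)))⟩,
  ⟨.x, T2, (C N N N N (K (.ofNat 98444907486864)) (K (.ofNat 1192312851264)))⟩,
  ⟨.x, T4, (B (K (.ofNat 97622226711396)) (K (.ofNat 31495906970640)) N N)⟩,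
  ⟨.x, T5, (B N N (K (.negSucc 17336262546287)) (K (.ofNat 818425113408)))⟩,
  ⟨.x, T6, (B (K (.ofNat 78346865639448)) (K (.ofNat 21123232981632)) N N)⟩,
  ⟨.z, T1, (A0 (K (.negSucc 94079069549171)))⟩,
  ⟨.z, T5, (A0 (K (.negSucc 19339927252523)))⟩,
  ⟨.x, T12, (K (.negSucc 16636795288847))⟩,
  ⟨.x, T19, (K (.ofNat 30802268149200))⟩,
  ⟨.x, T21, (K (.ofNat 34437927291120))⟩,
  ⟨.x, T24, (K (.negSucc 2871339789167))⟩,
  ⟨.x, T27, (K (.ofNat 2840801697072))⟩,
  ⟨.x, T30, (K (.ofNat 14274944966160))⟩,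
  ⟨.z, T16, (K (.negSucc 17233859945807))⟩,
  ⟨.z, T20, (K (.negSucc 26404443283823))⟩] (.node [⟨.x, .z, (C N N N N (K (.negSucc 22903684769663)) (K (.negSucc 13464440458559)))⟩,
  ⟨.x, .w, (B N N (K (.negSucc 20591091932111)) (K (.ofNat 30713889789504)))⟩,
  ⟨.z, .w, (B (K (.negSucc 1701140947451)) (K (.ofNat 43524707119776)) N N)⟩,
  ⟨.x, T4, (K (.ofNat 6991499288448))⟩,
  ⟨.x, T6, (K (.ofNat 54929787963120))⟩,
  ⟨.z, T1, (K (.negSucc 17654369516639))⟩,
  ⟨.z, T5, (K (.ofNat 9799229103408))⟩] (.node [⟨.z, .w, (K (.negSucc 97328939958431))⟩] .nil .nil .nil .nil .nil .nil) (.node [⟨.z, .w, (K (.negSucc 135198464964047))⟩] .nil .nil .nil .nil .nil .nil) (.node [⟨.x, .w, (K (.ofNat 16998786806544))⟩] .nil .nil .nil .nil .nil .nil) (.node [⟨.x, .w, (K (.ofNat 97150645813536))⟩] .nil .nil .nil .nil .nil .nil) (.node [⟨.x, .z, (K (.ofNat 39927538108080))⟩] .nil .nil .nil .nil .nil .nil) (.node [⟨.x, .z, (K (.negSucc 68223250737935))⟩]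 .nil .nil .nil .nil .nil .nil)) (.node [⟨.x, .z, (C N N N N (K (.ofNat 24533995126128)) (K (.ofNat 38800797196944)))⟩,
  ⟨.x, .w, (B N N (K (.negSucc 41265991897103)) (K (.ofNat 53611076346528)))⟩,
  ⟨.z, .w, (B (K (.negSucc 19246997907779)) (K (.negSucc 32595398522255)) N N)⟩,
  ⟨.x, T4, (K (.negSucc 23708768964287))⟩,
  ⟨.x, T6, (K (.ofNat 1626697292064))⟩,
  ⟨.z, T1, (K (.ofNat 38933370220992))⟩,
  ⟨.z, T5, (K (.ofNat 14848728948192))⟩] (.node [⟨.z, .w, (K (.negSucc 82698071945423))⟩] .nil .nil .nil .nil .nil .nil) (.node [⟨.z, .w, (K (.negSucc 42252762722879))⟩] .nil .nil .nil .nil .nil .nil) (.node [⟨.x, .w, (K (.ofNat 16214501210496))⟩] .nil .nil .nil .nil .nil .nil) (.node [⟨.x, .w, (K (.negSucc 4473559549391))⟩] .nil .nil .nil .nil .nil .nil) (.node [⟨.x, .z, (K (.ofNat 32113319101536))⟩] .nil .nil .nil .nil .nil .nil) (.node [⟨.x, .z, (K (.ofNat 20780832521616))⟩] .nil .nil .nil .nil .nil .nil)) (.node [⟨.x, .w, (B (K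 (.ofNat 58363022674080)) (K (.negSucc 9410481071567)) N N)⟩,
  ⟨.x, T1, (K (.negSucc 14216655966335))⟩,
  ⟨.x, T5, (K (.negSucc 86429729151071))⟩] (.node [⟨.x, .w, (K (.ofNat 122467604941008))⟩] .nil .nil .nil .nil .nil .nil) (.node [⟨.x, .w, (K (.ofNat 78380886076992))⟩] .nil .nil .nil .nil .nil .nil) .nil .nil .nil .nil) (.node [⟨.x, .w, (B (K (.ofNat 42590492292996)) (K (.negSucc 52011911635199)) N N)⟩,
  ⟨.x, T1, (K (.negSucc 1112639432543))⟩,
  ⟨.x, T5, (K (.ofNat 32832038309040))⟩] (.node [⟨.x, .w, (K (.ofNat 28289295890928))⟩] .nil .nil .nil .nil .nil .nil) (.node [⟨.x, .w, (K (.ofNat 35449489530432))⟩] .nil .nil .nil .nil .nil .nil) .nil .nil .nil .nil) (.node [⟨.x, .z, (B (K (.ofNat 30146228157024)) (K (.ofNat 10184546691072)) N N)⟩,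
  ⟨.x, T0, (K (.negSucc 5847699437135))⟩,
  ⟨.x, T2, (K (.ofNat 111611737911456))⟩] (.node [⟨.x, .z, (K (.ofNat 168482569118976))⟩] .nil .nil .nil .nil .nil .nil) (.node [⟨.x, .z, (K (.ofNat 50840954417088))⟩] .nil .nil .nil .nil .nil .nil) .nil .nil .nil .nil) (.node [⟨.x, .z, (B (K (.negSucc 59254868714435)) (K (.ofNat 35019144599904)) N N)⟩,
  ⟨.x, T0, (K (.negSucc 11023230514463))⟩,
  ⟨.x, T2, (K (.negSucc 61982048611583))⟩] (.node [⟨.x, .z, (K (.negSucc 4306336714079))⟩] .nil .nil .nil .nil .nil .nil) (.node [⟨.x, .z, (K (.ofNat 8638648677792))⟩] .nil .nil .nil .nil .nil .nil) .nil .nil .nil .nil))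

end Pool.Agent.Helper805.Chain.D5
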