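import Pool.Agent.Helper805.Chain.D5D1
set_option autoImplicit false
set_option maxRecDepth 100000

/-! Certificate data (found by computer). -/

namespace Pool.Agent.Helper805.Chain.D5
open Pool.Agent.Helper805.Chain

def c_20 : Cert := (.node [⟨.x, .z, (C (C (A4 (K (.ofNat 98304166913040))) N N N (B (K (.ofNat 155079620299116)) (K (.ofNat 76003017297840)) N N) N) (C (A4 (K (.ofNat 93298225338576))) (C N N N N (K (.negSucc 53227358108927)) (K (.ofNat 13548203377920))) N N (B (K (.ofNat 206240209752744)) (K (.ofNat 45948809184624)) N N) (B (K (.negSucc 34766081142371)) (K (.ofNat 25057330487712)) N N)) N N (B (B (K (.ofNat 35837661777924)) (K (.ofNat 13125986405328)) N N) (B (K (.negSucc 100767435782039)) (K (.negSucc 67623662212127)) N N) N N) (B (B (K (.ofNat 66491158793424)) (K (.ofNat 4200567809352)) N N) (B (K (.negSucc 59971095670319)) (K (.negSucc 3011335530335)) N N) N N))⟩,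
  ⟨.x, .w, (B (B (A2 (K (.ofNat 33654394535904))) N (B (K (.negSucc 51732700892027)) (K (.negSucc 48177556355375)) N N) N) (B (A2 (K (.ofNat 31749511696128))) (B N N (K (.ofNat 6718052724192)) (K (.ofNat 9792037574064))) (B (K (.negSucc 215090389143719)) (K (.negSucc 4781906055935)) N N) (B (K (.negSucc 60716669874299)) (K (.negSucc 62341946873279)) N N)) (B (B (K (.negSucc 86551780674155)) (K (.negSucc 73583426292143)) N N) (B (K (.negSucc 140257229965559)) (K (.negSucc 34551526017743)) N N) N N) (B (B (K (.ofNat 80661515407872)) (K (.negSucc 99165861297335)) N N) (B (K (.negSucc 27739424640095)) (K (.negSucc 295044880319)) N N) N N))⟩,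
  ⟨.z, .w, (B (B (B (K (.ofNat 105977250558336)) (K (.ofNat 80275846848408)) N N) (B (K (.ofNat 175157865776676)) (K (.ofNat 73134630530124)) N N) N N) (B (B (K (.ofNat 179608178565120)) (K (.ofNat 22129580228016)) N N) (B (K (.negSucc 9008531249471)) (K (.ofNat 1723030081920)) N N) N N) N N)⟩,
  ⟨.x, T0, (C (A4 (K (.ofNat 26703237711600))) (C N N N N (K (.negSucc 28902723054047)) (K (.ofNat 39469320783504))) N N (B (K (.ofNat 31965803519904)) (K (.negSucc 41622907391279)) N N) (B (K (.ofNat 1967984763372)) (K (.ofNat 24247826306208)) N N))⟩,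
  ⟨.x, T1, (B (A2 (K (.negSucc 11442034974671))) (B N N (K (.negSucc 94857857733023)) (K (.negSucc 88868195138015))) (B (K (.ofNat 29624168591424)) (K (.negSucc 103900632485759)) N N) (B (K (.ofNat 96630478855164)) (K (.ofNat 64108984845312)) N N))⟩,
  ⟨.x, T2, (C (A4 (K (.negSucc 63473052729887))) (C N N N N (K (.negSucc 67622624657999)) (K (.negSucc 43727279364719))) N N (B (K (.negSucc 110050133261147)) (K (.ofNat 14340763799856)) N N) (B (K (.negSucc 1019932566479)) (K (.ofNat 27088846848)) N N))⟩,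
  ⟨.x, T4, (B (B (K (.negSucc 86818878270659)) (K (.ofNat 118633864216272)) N N) (B (K (.ofNat 25006000289616)) (K (.ofNat 43348678762896)) N N) N N)⟩,
  ⟨.x, T5, (B (A2 (K (.negSucc 41173179496271))) (B N N (K (.negSucc 54620556281855)) (K (.negSucc 54007885085183))) (B (K (.ofNat 23476976262108)) (K (.negSucc 21870158470703)) N N) (B (K (.ofNat 27095602397040)) (K (.ofNat 2004908876640)) N N))⟩,
  ⟨.x, T6, (B (B (K (.negSucc 65139093327983)) (K (.negSucc 772771415927)) N N) (B (K (.negSucc 971010530063)) (K (.ofNat 4486463372160)) N N) N N)⟩,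
  ⟨.z, T1, (A0 (B (K (.ofNat 62016227467212)) (K (.ofNat 155744838780888)) N N))⟩,
  ⟨.z, T5, (A0 (B (K (.ofNat 62745331917012)) (K (.ofNat 9145008667320)) N N))⟩,
  ⟨.x, T9, (C N N N N (K (.ofNat 1178298012384)) (K (.negSucc 755841383423)))⟩,
  ⟨.x, T10, (A3 (K (.ofNat 253345999104)))⟩,
  ⟨.x, T12, (A1 (K (.ofNat 1701538534656)))⟩,
  ⟨.x, T15, (C N N N N (K (.negSucc 18062906690879)) (K (.negSucc 26534215316879)))⟩,
  ⟨.x, T16, (B N N (K (.negSucc 12886593661295)) (K (.negSucc 78562381330799)))⟩,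
  ⟨.x, T17, (C N N N N (K (.negSucc 4068819059759)) (K (.ofNat 44186658259824)))⟩,
  ⟨.x, T19, (B (K (.negSucc 46607497365311)) (K (.ofNat 38137352923008)) N N)⟩,
  ⟨.x, T20, (B N N (K (.negSucc 8681319225647)) (K (.negSucc 57725602533215)))⟩,
  ⟨.x, T21, (A0 (K (.negSucc 72312263461439)))⟩,
  ⟨.x, T22, (A5 (K (.negSucc 107969448959)))⟩,
  ⟨.x, T24, (B (K (.ofNat 3656363669712)) (K (.ofNat 2468502970704)) N N)⟩,
  ⟨.x, T27, (B (K (.ofNat 29014587231840)) (K (.ofNat 1488218407776)) N N)⟩,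
  ⟨.x, T29, (A3 (K (.negSucc 597182803199)))⟩,
  ⟨.x, T30, (A1 (K (.negSucc 276483193775)))⟩,
  ⟨.z, T16, (A0 (K (.negSucc 37254793142159)))⟩,
  ⟨.z, T20, (A0 (K (.negSucc 1584013376879)))⟩,
  ⟨.x, T35, (K (.negSucc 1214644543487))⟩,
  ⟨.x, T41, (K (.ofNat 5585112482544))⟩,
  ⟨.x, T43, (K (.ofNat 1415740539168))⟩,
  ⟨.x, T46, (K (.negSucc 2891531790863))⟩,
  ⟨.x, T49, (K (.ofNat 975644421120))⟩,
  ⟨.x, T52, (K (.ofNat 999836138160))⟩,
  ⟨.x, T55, (K (.negSucc 1837592842751))⟩,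
  ⟨.x, T58, (K (.ofNat 518105747520))⟩,
  ⟨.x, T60, (K (.ofNat 4291322921568))⟩,
  ⟨.x, T61, (K (.ofNat 162777558528))⟩,
  ⟨.x, T63, (K (.ofNat 915759489024))⟩,
  ⟨.x, T65, (K (.ofNat 278606117376))⟩,
  ⟨.z, T38, (K (.ofNat 690079203648))⟩,
  ⟨.z, T42, (K (.ofNat 2228595283296))⟩] c_200 c_201 (.node [⟨.x, .w, (B (B (K (.negSucc 25154660306435)) (K (.ofNat 44611128279480)) N N) (B (K (.ofNat 137661116137020)) (K (.ofNat 49912306923888)) N N) N N)⟩,
  ⟨.x, T1, (B (K (.negSucc 85861986945083)) (K (.negSucc 115436211299999)) N N)⟩,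
  ⟨.x, T5, (B (K (.negSucc 37427894052047)) (K (.negSucc 53648167497839)) N N)⟩,
  ⟨.x, T10, (K (.negSucc 1954758189311))⟩,
  ⟨.x, T16, (K (.negSucc 65083389401231))⟩,
  ⟨.x, T20, (K (.negSucc 52535059474031))⟩,
  ⟨.x, T29, (K (.ofNat 162777558528))⟩] (.node [⟨.x, .w, (B (K (.ofNat 37535863501008)) (K (.ofNat 1058299914240)) N N)⟩,
  ⟨.x, T1, (K (.negSucc 1899950079743))⟩,
  ⟨.x, T5, (K (.negSucc 107969448959))⟩] (.node [⟨.x, .w, (K (.negSucc 54808109567))⟩] .nil .nil .nil .nil .nil .nil) (.node [⟨.x, .w, (K (.ofNat 14062119237072))⟩] .nil .nil .nil .nil .nil .nil) .nil .nil .nil .nil) (.node [⟨.x, .w, (B (K (.negSucc 6779984210747)) (K (.ofNat 36658459880208)) N N)⟩,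
  ⟨.x, T1, (K (.negSucc 9803374847))⟩,
  ⟨.x, T5, (K (.negSucc 44181367049519))⟩] (.node [⟨.x, .w, (K (.ofNat 93479762668608))⟩] .nil .nil .nil .nil .nil .nil) (.node [⟨.x, .w, (K (.ofNat 89344061187120))⟩] .nil .nil .nil .nil .nil .nil) .nil .nil .nil .nil) .nil .nil .nil .nil) (.node [⟨.x, .w, (B (B (K (.ofNat 7230781684392)) (K (.ofNat 18214252324944)) N N) (B (K (.ofNat 124736901031116)) (K (.ofNat 171734332412880)) N N) N N)⟩,
  ⟨.x, T1, (B (K (.ofNat 49953400100496)) (K (.negSucc 119559699142415)) N N)⟩,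
  ⟨.x, T5, (B (K (.negSucc 62593803025307)) (K (.ofNat 27622656005472)) N N)⟩,
  ⟨.x, T10, (K (.negSucc 33420282227279))⟩,
  ⟨.x, T16, (K (.ofNat 15451082093376))⟩,
  ⟨.x, T20, (K (.ofNat 79151452017552))⟩,
  ⟨.x, T29, (K (.ofNat 17721927810288))⟩] (.node [⟨.x, .w, (B (K (.ofNat 14525430169212)) (K (.ofNat 42909250604832)) N N)⟩,
  ⟨.x, T1, (K (.negSucc 11738043684143))⟩,
  ⟨.x, T5, (K (.ofNat 43367301077616))⟩] (.node [⟨.x, .w, (K (.negSucc 70996942371167))⟩] .nil .nil .nil .nil .nil .nil) (.node [⟨.x, .w, (K (.negSucc 126731268374831))⟩] .nil .nil .nil .nil .nil .nil) .nil .nil .nil .nil) (.node [⟨.x, .w, (B (K (.ofNat 173486534712912)) (K (.negSucc 18645943746527)) N N)⟩,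
  ⟨.x, T1, (K (.ofNat 47168708933520))⟩,
  ⟨.x, T5, (K (.negSucc 57586715673983))⟩] (.node [⟨.x, .w, (K (.negSucc 50544656211455))⟩] .nil .nil .nil .nil .nil .nil) (.node [⟨.x, .w, (K (.negSucc 84140724189023))⟩] .nil .nil .nil .nil .nil .nil) .nil .nil .nil .nil) .nil .nil .nil .nil) (.node [⟨.x, .z, (B (B (K (.negSucc 23178033324299)) (K (.negSucc 55743669339383)) N N) (B (K (.negSucc 95745197545883)) (K (.negSucc 28726437117599)) N N) N N)⟩,
  ⟨.x, T0, (B (K (.negSucc 13027509357659)) (K (.negSucc 57926491450991)) N N)⟩,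
  ⟨.x, T2, (B (K (.ofNat 31589687577312)) (K (.ofNat 32451269372640)) N N)⟩,
  ⟨.x, T9, (K (.negSucc 624271650047))⟩,
  ⟨.x, T15, (K (.ofNat 28960088308272))⟩,
  ⟨.x, T17, (K (.negSucc 32186870380511))⟩,
  ⟨.x, T22, (K (.negSucc 27088846847))⟩] (.node [⟨.x, .z, (B (K (.ofNat 30590325015264)) (K (.ofNat 1293446900736)) N N)⟩,
  ⟨.x, T0, (K (.negSucc 54177693695))⟩,
  ⟨.x, T2, (K (.negSucc 597182803199))⟩] (.node [⟨.x, .z, (K (.negSucc 570093956351))⟩] .nil .nil .nil .nil .nil .nil) (.node [⟨.x, .z, (K (.ofNat 20485639656000))⟩] .nil .nil .nil .nil .nil .nil) .nil .nil .nil .nil) (.node [⟨.x, .z, (B (K (.negSucc 107046875371355)) (K (.ofNat 11558820493728)) N N)⟩,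
  ⟨.x, T0, (K (.negSucc 9773734357583))⟩,
  ⟨.x, T2, (K (.negSucc 64449125449631))⟩] (.node [⟨.x, .z, (K (.negSucc 96399525492863))⟩] .nil .nil .nil .nil .nil .nil) (.node [⟨.x, .z, (K (.negSucc 98776223300303))⟩] .nil .nil .nil .nil .nil .nil) .nil .nil .nil .nil) .nil .nil .nil .nil) (.node [⟨.x, .z, (B (B (K (.negSucc 45133487263031)) (K (.negSucc 218854176233999)) N N) (B (K (.negSucc 145628877992795)) (K (.negSucc 152468170166015)) N N) N N)⟩,
  ⟨.x, T0, (B (K (.ofNat 65836052077392)) (K (.negSucc 76989807294911)) N N)⟩,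
  ⟨.x, T2, (B (K (.ofNat 162312863834700)) (K (.ofNat 123753516411312)) N N)⟩,
  ⟨.x, T9, (K (.ofNat 15254031314592))⟩,
  ⟨.x, T15, (K (.ofNat 5511396307968))⟩,
  ⟨.x, T17, (K (.negSucc 24129621402191))⟩,
  ⟨.x, T22, (K (.ofNat 473954444352))⟩] (.node [⟨.x, .z, (B (K (.ofNat 133878553251516)) (K (.ofNat 69450616474272)) N N)⟩,
  ⟨.x, T0, (K (.ofNat 21227591570976))⟩,
  ⟨.x, T2, (K (.ofNat 53425015782912))⟩] (.node [⟨.x, .z, (K (.ofNat 53595101882304))⟩] .nil .nil .nil .nil .nil .nil) (.node [⟨.x, .z, (K (.ofNat 25000481106288))⟩] .nil .nil .nil .nil .nil .nil) .nil .nil .nil .nil) (.node [⟨.x, .z, (B (K (.ofNat 126749782459872)) (K (.ofNat 166307291587296)) N N)⟩,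
  ⟨.x, T0, (K (.ofNat 17225292875472))⟩,
  ⟨.x, T2, (K (.negSucc 88408696961951))⟩] (.node [⟨.x, .z, (K (.negSucc 112557367663919))⟩] .nil .nil .nil .nil .nil .nil) (.node [⟨.x, .z, (K (.negSucc 30220774920575))⟩] .nil .nil .nil .nil .nil .nil) .nil .nil .nil .nil) .nil .nil .nil .nil))

def c_210 : Cert := (.node [⟨.x, .z, (C (A4 (K (.ofNat 1088622599118534))) (C N N N N (K (.negSucc 276482972659463)) (K (.negSucc 1318701692184281))) N N (B (K (.ofNat 386048647335720)) (K (.ofNat 1437251702691960)) N N) (B (K (.negSucc 338927022597449)) (K (.ofNat 52749176308164)) N N))⟩,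
  ⟨.x, .w, (B (A2 (K (.ofNat 929828435057910))) (B N N (K (.ofNat 374119645287564)) (K (.negSucc 650519330016401))) (B (K (.negSucc 1347419839094123)) (K (.ofNat 486300868884558)) N N) (B (K (.negSucc 39285751941893)) (K (.ofNat 113689412391456)) N N))⟩,
  ⟨.z, .w, (B (B (K (.ofNat 1034738954479488)) (K (.ofNat 1091118465207360)) N N) (B (K (.ofNat 220523704422816)) (K (.negSucc 325878173172233)) N N) N N)⟩,
  ⟨.x, T0, (C N N N N (K (.negSucc 36726683564627)) (K (.negSucc 1430137801843433)))⟩,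
  ⟨.x, T1, (B N N (K (.ofNat 53561555414352)) (K (.ofNat 935510529061386)))⟩,
  ⟨.x, T2, (C N N N N (K (.negSucc 887383627756181)) (K (.negSucc 1929209670863)))⟩,
  ⟨.x, T4, (B (K (.negSucc 1064811599426279)) (K (.negSucc 483627684334463)) N N)⟩,
  ⟨.x, T5, (B N N (K (.negSucc 1528012789585991)) (K (.negSucc 384208058379851)))⟩,
  ⟨.x, T6, (B (K (.ofNat 277657405895370)) (K (.negSucc 10903006442411)) N N)⟩,
  ⟨.z, T1, (A0 (K (.ofNat 996758511089232)))⟩,
  ⟨.z, T5, (A0 (K (.ofNat 623165800904502)))⟩,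
  ⟨.x, T12, (K (.ofNat 309497162077260))⟩,
  ⟨.x, T19, (K (.negSucc 691897097689271))⟩,
  ⟨.x, T21, (K (.ofNat 83784139781400))⟩,
  ⟨.x, T24, (K (.ofNat 96377125499784))⟩,
  ⟨.x, T27, (K (.negSucc 360514574962955))⟩,
  ⟨.x, T30, (K (.ofNat 112615186754016))⟩,
  ⟨.z, T16, (K (.ofNat 111835721960622))⟩,
  ⟨.z, T20, (K (.negSucc 188413453527515))⟩] (.node [⟨.x, .z, (C N N N N (K (.ofNat 563987807903316)) (K (.ofNat 1373649321073866)))⟩,
  ⟨.x, .w, (B N N (K (.negSucc 69740286439361)) (K (.negSucc 1323455039407505)))⟩,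
  ⟨.z, .w, (B (K (.ofNat 1184219919363612)) (K (.ofNat 2663577182100)) N N)⟩,
  ⟨.x, T4, (K (.ofNat 271180775165172))⟩,
  ⟨.x, T6, (K (.negSucc 1377526492545881))⟩,
  ⟨.z, T1, (K (.ofNat 1319909402456148))⟩,
  ⟨.z, T5, (K (.ofNat 1459070886727590))⟩] (.node [⟨.z, .w, (K (.ofNat 1214479117635558))⟩] .nil .nil .nil .nil .nil .nil) (.node [⟨.z, .w, (K (.ofNat 1211993767543296))⟩] .nil .nil .nil .nil .nil .nil) (.node [⟨.x, .w, (K (.negSucc 1453752138808661))⟩] .nil .nil .nil .nil .nil .nil) (.node [⟨.x, .w, (K (.negSucc 2456691023165123))⟩] .nil .nil .nil .nil .nil .nil) (.node [⟨.x, .z, (K (.ofNat 1052714387109822))⟩] .nil .nil .nil .nil .nil .nil) (.node [⟨.x, .z, (K (.ofNat 100088927635512))⟩] .nil .nil .nil .nil .nil .nil)) (.node [⟨.x, .z, (C N N N N (K (.negSucc 888689938671623)) (K (.negSucc 358929627120545)))⟩,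
  ⟨.x, .w, (B N N (K (.ofNat 1376146414461012)) (K (.ofNat 51830984106498)))⟩,
  ⟨.z, .w, (B (K (.ofNat 1732131462834942)) (K (.ofNat 484300781290788)) N N)⟩,
  ⟨.x, T4, (K (.ofNat 1192165471084980))⟩,
  ⟨.x, T6, (K (.negSucc 297895737422765))⟩,
  ⟨.z, T1, (K (.negSucc 1070607486944981))⟩,
  ⟨.z, T5, (K (.negSucc 1084514615094875))⟩] (.node [⟨.z, .w, (K (.negSucc 336689190923513))⟩] .nil .nil .nil .nil .nil .nil) (.node [⟨.z, .w, (K (.negSucc 529152395048921))⟩] .nil .nil .nil .nil .nil .nil) (.node [⟨.x, .w, (K (.ofNat 2160335545461456))⟩] .nil .nil .nil .nil .nil .nil) (.node [⟨.x, .w, (K (.ofNat 1070126112345078))⟩] .nil .nil .nil .nil .nil .nil) (.node [⟨.x, .z, (K (.negSucc 246835301434151))⟩] .nil .nil .nil .nil .nil .nil) (.node [⟨.x, .z, (K (.negSucc 835839227117207))⟩] .nil .nil .nil .nil .nil .nil)) (.node [⟨.x, .w, (B (K (.negSucc 630547988867987)) (K (.ofNat 491921793270648)) N N)⟩,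
  ⟨.x, T1, (K (.negSucc 865228824621233))⟩,
  ⟨.x, T5, (K (.negSucc 25458525989873))⟩] (.node [⟨.x, .w, (K (.ofNat 28322853036066))⟩] .nil .nil .nil .nil .nil .nil) (.node [⟨.x, .w, (K (.ofNat 1037239784276454))⟩] .nil .nil .nil .nil .nil .nil) .nil .nil .nil .nil) (.node [⟨.x, .w, (B (K (.negSucc 1616219086020959)) (K (.negSucc 916230626184743)) N N)⟩,
  ⟨.x, T1, (K (.negSucc 262559247715565))⟩,
  ⟨.x, T5, (K (.ofNat 810312271662042))⟩] (.node [⟨.x, .w, (K (.negSucc 827643375888965))⟩] .nil .nil .nil .nil .nil .nil) (.node [⟨.x, .w, (K (.ofNat 729038742940548))⟩] .nil .nil .nil .nil .nil .nil) .nil .nil .nil .nil) (.node [⟨.x, .z, (B (K (.ofNat 911624810482050)) (K (.ofNat 1131538265634600)) N N)⟩,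
  ⟨.x, T0, (K (.ofNat 1259975700594432))⟩,
  ⟨.x, T2, (K (.ofNat 98638847010828))⟩] (.node [⟨.x, .z, (K (.ofNat 124253739101340))⟩] .nil .nil .nil .nil .nil .nil) (.node [⟨.x, .z, (K (.negSucc 884260652379641))⟩] .nil .nil .nil .nil .nil .nil) .nil .nil .nil .nil) (.node [⟨.x, .z, (B (K (.negSucc 384022127481467)) (K (.negSucc 731422853663705)) N N)⟩,
  ⟨.x, T0, (K (.ofNat 399609530434152))⟩,
  ⟨.x, T2, (K (.ofNat 1471794035552982))⟩] (.node [⟨.x, .z, (K (.ofNat 1106453859456186))⟩] .nil .nil .nil .nil .nil .nil) (.node [⟨.x, .z, (K (.ofNat 396227748972366))⟩] .nil .nil .nil .nil .nil .nil) .nil .nil .nil .nil))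

def c_211 : Cert := (.node [⟨.x, .z, (C (A4 (K (.negSucc 47931394820489))) (C N N N N (K (.ofNat 1666367124077034)) (K (.ofNat 2187139744379070))) N N (B (K (.negSucc 631352022392117)) (K (.negSucc 1568669093233667)) N N) (B (K (.negSucc 575246199554429)) (K (.ofNat 1920556956800628)) N N))⟩,
  ⟨.x, .w, (B (A2 (K (.negSucc 1864340427629303))) (B N N (K (.negSucc 2124601347138353)) (K (.negSucc 347978540613509))) (B (K (.ofNat 920829678440226)) (K (.negSucc 483189275084093)) N N) (B (K (.negSucc 233473560901673)) (K (.ofNat 695305509583536)) N N))⟩,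
  ⟨.z, .w, (B (B (K (.ofNat 858399232213050)) (K (.ofNat 3172789022939604)) N N) (B (K (.ofNat 3103513724495004)) (K (.ofNat 327504059520300)) N N) N N)⟩,
  ⟨.x, T0, (C N N N N (K (.negSucc 410622274807289)) (K (.ofNat 1352145834562014)))⟩,
  ⟨.x, T1, (B N N (K (.negSucc 333547499417687)) (K (.ofNat 241320705471072)))⟩,
  ⟨.x, T2, (C N N N N (K (.negSucc 556267686858359)) (K (.negSucc 2007311243327)))⟩,
  ⟨.x, T4, (B (K (.ofNat 211922512688568)) (K (.ofNat 164064162119202)) N N)⟩,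
  ⟨.x, T5, (B N N (K (.ofNat 2020473558466668)) (K (.negSucc 27702963173087)))⟩,
  ⟨.x, T6, (B (K (.negSucc 137186724111185)) (K (.negSucc 1953092901441725)) N N)⟩,
  ⟨.z, T1, (A0 (K (.negSucc 756070566883265)))⟩,
  ⟨.z, T5, (A0 (K (.negSucc 742962644061809)))⟩,
  ⟨.x, T12, (K (.ofNat 328480700830812))⟩,
  ⟨.x, T19, (K (.negSucc 143037832976837))⟩,
  ⟨.x, T21, (K (.ofNat 9374936427702))⟩,
  ⟨.x, T24, (K (.ofNat 205263730260360))⟩,
  ⟨.x, T27, (K (.ofNat 8957117946960))⟩,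
  ⟨.x, T30, (K (.ofNat 182918758847472))⟩,
  ⟨.z, T16, (K (.negSucc 281999469983165))⟩,
  ⟨.z, T20, (K (.negSucc 51451871468543))⟩] (.node [⟨.x, .z, (C N N N N (K (.negSucc 202104381994709)) (K (.negSucc 1631094641130971)))⟩,
  ⟨.x, .w, (B N N (K (.negSucc 280050596209805)) (K (.ofNat 334697372048274)))⟩,
  ⟨.z, .w, (B (K (.ofNat 902323525835844)) (K (.negSucc 298815516855815)) N N)⟩,
  ⟨.x, T4, (K (.ofNat 851654180072850))⟩,
  ⟨.x, T6, (K (.ofNat 973895519477388))⟩,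
  ⟨.z, T1, (K (.negSucc 379796737402571))⟩,
  ⟨.z, T5, (K (.negSucc 1390440072638765))⟩] (.node [⟨.z, .w, (K (.negSucc 102131749883063))⟩] .nil .nil .nil .nil .nil .nil) (.node [⟨.z, .w, (K (.negSucc 15923340950855))⟩] .nil .nil .nil .nil .nil .nil) (.node [⟨.x, .w, (K (.ofNat 1255726901324604))⟩] .nil .nil .nil .nil .nil .nil) (.node [⟨.x, .w, (K (.ofNat 1632922266053670))⟩] .nil .nil .nil .nil .nil .nil) (.node [⟨.x, .z, (K (.negSucc 1262382585254831))⟩] .nil .nil .nil .nil .nil .nil) (.node [⟨.x, .z, (K (.negSucc 588696289515779))⟩] .nil .nil .nil .nil .nil .nil)) (.node [⟨.x, .z, (C N N N N (K (.ofNat 382095333621780)) (K (.negSucc 1420275548598251)))⟩,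
  ⟨.x, .w, (B N N (K (.negSucc 1015847810253371)) (K (.negSucc 780895306938119)))⟩,
  ⟨.z, .w, (B (K (.negSucc 822916092015071)) (K (.ofNat 1315991216652648)) N N)⟩,
  ⟨.x, T4, (K (.negSucc 266110327029731))⟩,
  ⟨.x, T6, (K (.ofNat 762660367772316))⟩,
  ⟨.z, T1, (K (.ofNat 294514343627316))⟩,
  ⟨.z, T5, (K (.ofNat 835017908079378))⟩] (.node [⟨.z, .w, (K (.ofNat 1643433139110036))⟩] .nil .nil .nil .nil .nil .nil) (.node [⟨.z, .w, (K (.ofNat 414770983593180))⟩] .nil .nil .nil .nil .nil .nil) (.node [⟨.x, .w, (K (.negSucc 2332868431992689))⟩] .nil .nil .nil .nil .nil .nil) (.node [⟨.x, .w, (K (.negSucc 158015846339321))⟩] .nil .nil .nil .nil .nil .nil) (.node [⟨.x, .z, (K (.ofNat 1176638960067600))⟩] .nil .nil .nil .nil .nil .nil) (.node [⟨.x, .z, (K (.ofNat 240921318302772))⟩] .nil .nil .nil .nil .nil .nil)) (.node [⟨.x, .w, (B (K (.negSucc 2095112154045269)) (K (.ofNat 632383102575396)) N N)⟩,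
  ⟨.x, T1, (K (.ofNat 246152704475394))⟩,
  ⟨.x, T5, (K (.ofNat 1033813569386844))⟩] (.node [⟨.x, .w, (K (.negSucc 1893994531784387))⟩] .nil .nil .nil .nil .nil .nil) (.node [⟨.x, .w, (K (.negSucc 2161865258079893))⟩] .nil .nil .nil .nil .nil .nil) .nil .nil .nil .nil) (.node [⟨.x, .w, (B (K (.ofNat 2656349424347052)) (K (.ofNat 339895374414444)) N N)⟩,
  ⟨.x, T1, (K (.negSucc 33728343411365))⟩,
  ⟨.x, T5, (K (.negSucc 2170916824245389))⟩] (.node [⟨.x, .w, (K (.ofNat 1364167955712870))⟩] .nil .nil .nil .nil .nil .nil) (.node [⟨.x, .w, (K (.ofNat 3563770320504))⟩] .nil .nil .nil .nil .nil .nil) .nil .nil .nil .nil) (.node [⟨.x, .z, (B (K (.ofNat 1511632961764752)) (K (.negSucc 2024635199831963)) N N)⟩,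
  ⟨.x, T0, (K (.negSucc 1934397880071425))⟩,
  ⟨.x, T2, (K (.negSucc 780520263458813))⟩] (.node [⟨.x, .z, (K (.negSucc 1022874841348235))⟩] .nil .nil .nil .nil .nil .nil) (.node [⟨.x, .z, (K (.negSucc 492772082173847))⟩] .nil .nil .nil .nil .nil .nil) .nil .nil .nil .nil) (.node [⟨.x, .z, (B (K (.negSucc 773662426726403)) (K (.negSucc 315128373533045)) N N)⟩,
  ⟨.x, T0, (K (.negSucc 19424721646187))⟩,
  ⟨.x, T2, (K (.ofNat 512500940235774))⟩] (.node [⟨.x, .z, (K (.ofNat 242497576866960))⟩] .nil .nil .nil .nil .nil .nil) (.node [⟨.x, .z, (K (.ofNat 24214543385040))⟩] .nil .nil .nil .nil .nil .nil) .nil .nil .nil .nil))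

def c_21 : Cert := (.node [⟨.x, .z, (C (C (A4 (K (.negSucc 213479083281203))) N N N (B (K (.ofNat 739086760822230)) (K (.negSucc 639206106920981)) N N) N) (C (A4 (K (.negSucc 681601095643013))) (C N N N N (K (.ofNat 148311779191110)) (K (.ofNat 21718621238706))) N N (B (K (.ofNat 1519943622745968)) (K (.negSucc 1191018016722401)) N N) (B (K (.ofNat 1711836753428034)) (K (.negSucc 1620296117318411)) N N)) N N (B (B (K (.ofNat 355337957046288)) (K (.negSucc 363851607950063)) N N) (B (K (.negSucc 1092540102973451)) (K (.ofNat 1101090274848882)) N N) N N) (B (B (K (.ofNat 1261721107090914)) (K (.negSucc 154194621037199)) N N) (B (K (.ofNat 1188555483351150)) (K (.negSucc 820563267009293)) N N) N N))⟩,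
  ⟨.x, .w, (B (B (A2 (K (.negSucc 606660555794633))) N (B (K (.negSucc 916082791702145)) (K (.ofNat 1730684556178362)) N N) N) (B (A2 (K (.negSucc 560987490782627))) (B N N (K (.negSucc 50132957188265)) (K (.negSucc 268947657333071))) (B (K (.negSucc 1951124515114103)) (K (.ofNat 1329876292222728)) N N) (B (K (.negSucc 1274830589703527)) (K (.ofNat 584158155859764)) N N)) (B (B (K (.ofNat 620316717077784)) (K (.negSucc 1139322972808079)) N N) (B (K (.negSucc 1297540185568595)) (K (.ofNat 279888942056580)) N N) N N) (B (B (K (.ofNat 1304687625688734)) (K (.ofNat 270361160594496)) N N) (B (K (.ofNat 994325442035922)) (K (.negSucc 185999662877471)) N N) N N))⟩,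
  ⟨.z, .w, (B (B (B (K (.ofNat 1321318142371098)) (K (.negSucc 233164602308333)) N N) (B (K (.ofNat 2057097974439336)) (K (.negSucc 821723635177061)) N N) N N) (B (B (K (.ofNat 1671189324435516)) (K (.negSucc 601579894670333)) N N) (B (K (.ofNat 454964503096620)) (K (.negSucc 778009273369955)) N N) N N) N N)⟩,
  ⟨.x, T0, (C (A4 (K (.negSucc 292174313241977))) (C N N N N (K (.negSucc 697710292199027)) (K (.negSucc 551371276979855))) N N (B (K (.ofNat 55547783903304)) (K (.ofNat 740519699926644)) N N) (B (K (.ofNat 990129270103866)) (K (.negSucc 1872708358518053)) N N))⟩,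
  ⟨.x, T1, (B (A2 (K (.ofNat 249461120981484))) (B N N (K (.ofNat 496039051960524)) (K (.ofNat 113199521288490))) (B (K (.ofNat 371168849485332)) (K (.ofNat 510717339007902)) N N) (B (K (.ofNat 831679632391104)) (K (.negSucc 161217900798587)) N N))⟩,
  ⟨.x, T2, (C (A4 (K (.ofNat 248830786099998))) (C N N N N (K (.ofNat 366399782365068)) (K (.ofNat 655177679485488))) N N (B (K (.negSucc 1099174207047497)) (K (.negSucc 19623791944421)) N N) (B (K (.negSucc 5170894332191)) (K (.ofNat 6477837515136)) N N))⟩,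
  ⟨.x, T4, (B (B (K (.negSucc 661211360733431)) (K (.negSucc 1619496869479739)) N N) (B (K (.negSucc 1109586278613131)) (K (.negSucc 465567091144793)) N N) N N)⟩,
  ⟨.x, T5, (B (A2 (K (.ofNat 566281317447342))) (B N N (K (.ofNat 527731961031252)) (K (.ofNat 521952077383254))) (B (K (.ofNat 802642224632418)) (K (.negSucc 1435381692678035)) N N) (B (K (.ofNat 36619624856286)) (K (.negSucc 219605035899599)) N N))⟩,
  ⟨.x, T6, (B (B (K (.negSucc 1317739274221217)) (K (.ofNat 296189105409126)) N N) (B (K (.negSucc 1203782905393073)) (K (.ofNat 477587608415298)) N N) N N)⟩,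
  ⟨.z, T1, (A0 (B (K (.ofNat 496989215076792)) (K (.negSucc 47309561839385)) N N))⟩,
  ⟨.z, T5, (A0 (B (K (.negSucc 609996145480391)) (K (.ofNat 1096428174956550)) N N))⟩,
  ⟨.x, T9, (C N N N N (K (.negSucc 118695269218373)) (K (.negSucc 25146970086257)))⟩,
  ⟨.x, T10, (A3 (K (.ofNat 91516620547332)))⟩,
  ⟨.x, T12, (A1 (K (.ofNat 605394902298708)))⟩,
  ⟨.x, T15, (C N N N N (K (.ofNat 324385719564492)) (K (.ofNat 578189065454784)))⟩,
  ⟨.x, T16, (B N N (K (.ofNat 312201554838498)) (K (.ofNat 161191480835664)))⟩,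
  ⟨.x, T17, (C N N N N (K (.negSucc 159975155910257)) (K (.negSucc 652608778147919)))⟩,
  ⟨.x, T19, (B (K (.negSucc 201211300225997)) (K (.negSucc 874402818544439)) N N)⟩,
  ⟨.x, T20, (B N N (K (.ofNat 201329943924600)) (K (.ofNat 280941459623694)))⟩,
  ⟨.x, T21, (A0 (K (.negSucc 204478491643433)))⟩,
  ⟨.x, T22, (A5 (K (.negSucc 490436289647)))⟩,
  ⟨.x, T24, (B (K (.ofNat 145317801222306)) (K (.negSucc 20273078170889)) N N)⟩,
  ⟨.x, T27, (B (K (.ofNat 52021591988526)) (K (.negSucc 291979902846419)) N N)⟩,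
  ⟨.x, T29, (A3 (K (.ofNat 12904267526640)))⟩,
  ⟨.x, T30, (A1 (K (.ofNat 454437472562064)))⟩,
  ⟨.z, T16, (A0 (K (.negSucc 162594756356201)))⟩,
  ⟨.z, T20, (A0 (K (.negSucc 212947862472053)))⟩,
  ⟨.x, T35, (K (.negSucc 99593315423513))⟩,
  ⟨.x, T41, (K (.negSucc 101651185508795))⟩,
  ⟨.x, T43, (K (.negSucc 335161150652267))⟩,
  ⟨.x, T46, (K (.ofNat 8055940964490))⟩,
  ⟨.x, T49, (K (.ofNat 90704998932516))⟩,
  ⟨.x, T52, (K (.negSucc 216966024504989))⟩,
  ⟨.x, T55, (K (.negSucc 241123222405169))⟩,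
  ⟨.x, T58, (K (.ofNat 78050077444944))⟩,
  ⟨.x, T60, (K (.ofNat 229583807916840))⟩,
  ⟨.x, T61, (K (.negSucc 19664821757519))⟩,
  ⟨.x, T63, (K (.ofNat 166468398223554))⟩,
  ⟨.x, T65, (K (.negSucc 113022293353325))⟩,
  ⟨.z, T38, (K (.ofNat 25363230574266))⟩,
  ⟨.z, T42, (K (.ofNat 9627882165072))⟩] c_210 c_211 (.node [⟨.x, .w, (B (B (K (.negSucc 162246444248003)) (K (.negSucc 1473294055463783)) N N) (B (K (.ofNat 90393268188942)) (K (.negSucc 761338297348217)) N N) N N)⟩,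
  ⟨.x, T1, (B (K (.negSucc 587688822794429)) (K (.ofNat 475751343850272)) N N)⟩,
  ⟨.x, T5, (B (K (.ofNat 738745463707830)) (K (.ofNat 337964258586204)) N N)⟩,
  ⟨.x, T10, (K (.negSucc 94296797271269))⟩,
  ⟨.x, T16, (K (.ofNat 190660216139676))⟩,
  ⟨.x, T20, (K (.ofNat 405872666757684))⟩,
  ⟨.x, T29, (K (.ofNat 38945563939890))⟩] (.node [⟨.x, .w, (B (K (.negSucc 787327529373413)) (K (.negSucc 77336093804777)) N N)⟩,
  ⟨.x, T1, (K (.negSucc 44884201422563))⟩,
  ⟨.x, T5, (K (.negSucc 13060639428911))⟩] (.node [⟨.x, .w, (K (.negSucc 33456073261985))⟩] .nil .nil .nil .nil .nil .nil) (.node [⟨.x, .w, (K (.ofNat 220627592394858))⟩] .nil .nil .nil .nil .nil .nil) .nil .nil .nil .nil) (.node [⟨.x, .w, (B (K (.negSucc 1629598134094757)) (K (.ofNat 540301367197206)) N N)⟩,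
  ⟨.x, T1, (K (.ofNat 191035044780048))⟩,
  ⟨.x, T5, (K (.ofNat 490834664935452))⟩] (.node [⟨.x, .w, (K (.negSucc 978593333826275))⟩] .nil .nil .nil .nil .nil .nil) (.node [⟨.x, .w, (K (.negSucc 970931605530563))⟩] .nil .nil .nil .nil .nil .nil) .nil .nil .nil .nil) .nil .nil .nil .nil) (.node [⟨.x, .w, (B (B (K (.ofNat 293691114587256)) (K (.negSucc 2489851183239251)) N N) (B (K (.negSucc 221370387953597)) (K (.negSucc 1556993550018563)) N N) N N)⟩,
  ⟨.x, T1, (B (K (.ofNat 297937062029484)) (K (.ofNat 109654942637646)) N N)⟩,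
  ⟨.x, T5, (B (K (.negSucc 885550438192481)) (K (.ofNat 1568086668532170)) N N)⟩,
  ⟨.x, T10, (K (.negSucc 133489241182061))⟩,
  ⟨.x, T16, (K (.negSucc 71374956703487))⟩,
  ⟨.x, T20, (K (.negSucc 85249556287811))⟩,
  ⟨.x, T29, (K (.ofNat 16250250827826))⟩] (.node [⟨.x, .w, (B (K (.ofNat 1499855386367664)) (K (.negSucc 816293513840201)) N N)⟩,
  ⟨.x, T1, (K (.negSucc 410794767685385))⟩,
  ⟨.x, T5, (K (.negSucc 668238318914399))⟩] (.node [⟨.x, .w, (K (.ofNat 634298600880846))⟩] .nil .nil .nil .nil .nil .nil) (.node [⟨.x, .w, (K (.ofNat 704200398323202))⟩] .nil .nil .nil .nil .nil .nil) .nil .nil .nil .nil) (.node [⟨.x, .w, (B (K (.negSucc 646214211606365)) (K (.negSucc 312871256491031)) N N)⟩,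
  ⟨.x, T1, (K (.negSucc 139077867563999))⟩,
  ⟨.x, T5, (K (.ofNat 521465949532206))⟩] (.node [⟨.x, .w, (K (.negSucc 495897518555117))⟩] .nil .nil .nil .nil .nil .nil) (.node [⟨.x, .w, (K (.ofNat 75736506411378))⟩] .nil .nil .nil .nil .nil .nil) .nil .nil .nil .nil) .nil .nil .nil .nil) (.node [⟨.x, .z, (B (B (K (.negSucc 101867369563883)) (K (.ofNat 1915825764248172)) N N) (B (K (.negSucc 725887276497953)) (K (.ofNat 2043801111920202)) N N) N N)⟩,
  ⟨.x, T0, (B (K (.negSucc 1437402172743917)) (K (.ofNat 2213860507491546)) N N)⟩,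
  ⟨.x, T2, (B (K (.negSucc 760027432068197)) (K (.negSucc 478239256080845)) N N)⟩,
  ⟨.x, T9, (K (.negSucc 267514417334843))⟩,
  ⟨.x, T15, (K (.negSucc 232433279471753))⟩,
  ⟨.x, T17, (K (.ofNat 417587680330920))⟩,
  ⟨.x, T22, (K (.negSucc 177576268510979))⟩] (.node [⟨.x, .z, (B (K (.negSucc 830743950918581)) (K (.negSucc 406429796161601)) N N)⟩,
  ⟨.x, T0, (K (.negSucc 478898200508975))⟩,
  ⟨.x, T2, (K (.ofNat 24648945157440))⟩] (.node [⟨.x, .z, (K (.ofNat 202326249102660))⟩] .nil .nil .nil .nil .nil .nil) (.node [⟨.x, .z, (K (.ofNat 74524555300374))⟩] .nil .nil .nil .nil .nil .nil) .nil .nil .nil .nil) (.node [⟨.x, .z, (B (K (.negSucc 1185370479377927)) (K (.ofNat 311300704484190)) N N)⟩,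
  ⟨.x, T0, (K (.ofNat 192021472262772))⟩,
  ⟨.x, T2, (K (.ofNat 16830639994842))⟩] (.node [⟨.x, .z, (K (.ofNat 520616125476738))⟩] .nil .nil .nil .nil .nil .nil) (.node [⟨.x, .z, (K (.ofNat 522643943263266))⟩] .nil .nil .nil .nil .nil .nil) .nil .nil .nil .nil) .nil .nil .nil .nil) (.node [⟨.x, .z, (B (B (K (.negSucc 152108881997891)) (K (.ofNat 2079494947465650)) N N) (B (K (.ofNat 471462576380748)) (K (.ofNat 518398335891702)) N N) N N)⟩,
  ⟨.x, T0, (B (K (.ofNat 528897596302674)) (K (.ofNat 205569018155826)) N N)⟩,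
  ⟨.x, T2, (B (K (.ofNat 890495942340852)) (K (.negSucc 421821827927765)) N N)⟩,
  ⟨.x, T9, (K (.ofNat 220514596645428))⟩,
  ⟨.x, T15, (K (.negSucc 29088621824003))⟩,
  ⟨.x, T17, (K (.ofNat 319286225545938))⟩,
  ⟨.x, T22, (K (.ofNat 57267488259720))⟩] (.node [⟨.x, .z, (B (K (.ofNat 1371746332368504)) (K (.ofNat 349145983278792)) N N)⟩,
  ⟨.x, T0, (K (.ofNat 251119270755774))⟩,
  ⟨.x, T2, (K (.negSucc 497282815590677))⟩] (.node [⟨.x, .z, (K (.negSucc 567421258059917))⟩] .nil .nil .nil .nil .nil .nil) (.node [⟨.x, .z, (K (.negSucc 277718873617655))⟩] .nil .nil .nil .nil .nil .nil) .nil .nil .nil .nil) (.node [⟨.x, .z, (B (K (.ofNat 37948011290622)) (K (.negSucc 369548662075307)) N N)⟩,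
  ⟨.x, T0, (K (.ofNat 163337601544920))⟩,
  ⟨.x, T2, (K (.ofNat 195139782857970))⟩] (.node [⟨.x, .z, (K (.ofNat 352767433870152))⟩] .nil .nil .nil .nil .nil .nil) (.node [⟨.x, .z, (K (.ofNat 209196177921576))⟩] .nil .nil .nil .nil .nil .nil) .nil .nil .nil .nil) .nil .nil .nil .nil))

def c_22 : Cert := (.node [⟨.x, .w, (B (B (B (K (.ofNat 26643519072552)) (K (.ofNat 53032726264488)) N N) (B (K (.negSucc 39826623740267)) (K (.negSucc 45012004790171)) N N) N N) (B (B (K (.negSucc 56705700834647)) (K (.ofNat 122161155446808)) N N) (B (K (.ofNat 62809763171148)) (K (.ofNat 46734532306704)) N N) N N) N N)⟩,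
  ⟨.x, T1, (B (B (K (.negSucc 18685989967031)) (K (.negSucc 210796819731863)) N N) (B (K (.negSucc 4624546197563)) (K (.negSucc 26882136052703)) N N) N N)⟩,
  ⟨.x, T5, (B (B (K (.ofNat 34470308520288)) (K (.ofNat 25334377425216)) N N) (B (K (.ofNat 30113752241376)) (K (.ofNat 49611675772656)) N N) N N)⟩,
  ⟨.x, T8, (C N N N N (K (.ofNat 5277306682440)) (K (.ofNat 801914370048)))⟩,
  ⟨.x, T10, (A1 (K (.negSucc 83461985279)))⟩,
  ⟨.x, T14, (C N N N N (K (.ofNat 17342285591880)) (K (.negSucc 13931818515071)))⟩,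
  ⟨.x, T16, (B (K (.ofNat 75760872495264)) (K (.ofNat 24685554993264)) N N)⟩,
  ⟨.x, T20, (B (K (.ofNat 63223685494992)) (K (.ofNat 57726857796624)) N N)⟩,
  ⟨.x, T29, (A1 (K (.negSucc 1228476163535)))⟩,
  ⟨.x, T33, (K (.ofNat 1141843267584))⟩,
  ⟨.x, T38, (K (.negSucc 3036391881119))⟩,
  ⟨.x, T42, (K (.negSucc 8159352938783))⟩,
  ⟨.x, T51, (K (.ofNat 769690172880))⟩,
  ⟨.x, T62, (K (.negSucc 856972929023))⟩,
  ⟨.x, T64, (K (.negSucc 162945520127))⟩] (.node [⟨.x, .w, (B (B (K (.negSucc 48225980106719)) (K (.negSucc 27592335678239)) N N) (B (K (.ofNat 20126297348208)) (K (.negSucc 9075258988559)) N N) N N)⟩,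
  ⟨.x, T1, (B (K (.ofNat 13011856160112)) (K (.ofNat 31455528996816)) N N)⟩,
  ⟨.x, T5, (B (K (.ofNat 14388829524864)) (K (.ofNat 12554951013792)) N N)⟩,
  ⟨.x, T10, (K (.negSucc 369807586559))⟩,
  ⟨.x, T16, (K (.ofNat 21593631559104))⟩,
  ⟨.x, T20, (K (.ofNat 11530195083936))⟩,
  ⟨.x, T29, (K (.negSucc 1406678959871))⟩] (.node [⟨.x, .w, (B (K (.negSucc 13876759956095)) (K (.ofNat 13049235221904)) N N)⟩,
  ⟨.x, T1, (K (.negSucc 11823251030927))⟩,
  ⟨.x, T5, (K (.ofNat 1527767329536))⟩] (.node [⟨.x, .w, (K (.ofNat 898830079488))⟩] .nil .nil .nil .nil .nil .nil) (.node [⟨.x, .w, (K (.ofNat 2695688920800))⟩] .nil .nil .nil .nil .nil .nil) .nil .nil .nil .nil) (.node [⟨.x, .w, (B (K (.negSucc 1725789573503)) (K (.ofNat 43479943792704)) N N)⟩,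
  ⟨.x, T1, (K (.negSucc 32095400853023))⟩,
  ⟨.x, T5, (K (.negSucc 14062824392975))⟩] (.node [⟨.x, .w, (K (.negSucc 2547788921279))⟩] .nil .nil .nil .nil .nil .nil) (.node [⟨.x, .w, (K (.negSucc 2657906039231))⟩] .nil .nil .nil .nil .nil .nil) .nil .nil .nil .nil) .nil .nil .nil .nil) (.node [⟨.x, .w, (B (B (K (.negSucc 45887235941807)) (K (.ofNat 1427665377132)) N N) (B (K (.negSucc 29693084096447)) (K (.negSucc 130241644974503)) N N) N N)⟩,
  ⟨.x, T1, (B (K (.negSucc 27087000133715)) (K (.ofNat 101396110131504)) N N)⟩,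
  ⟨.x, T5, (B (K (.ofNat 22514168415096)) (K (.negSucc 77103456750179)) N N)⟩,
  ⟨.x, T10, (K (.ofNat 71730396401076))⟩,
  ⟨.x, T16, (K (.negSucc 14148990570131))⟩,
  ⟨.x, T20, (K (.negSucc 92681484007211))⟩,
  ⟨.x, T29, (K (.ofNat 15554970960336))⟩] (.node [⟨.x, .w, (B (K (.negSucc 103409274638951)) (K (.negSucc 125809575281675)) N N)⟩,
  ⟨.x, T1, (K (.ofNat 97573181563620))⟩,
  ⟨.x, T5, (K (.negSucc 12186464939855))⟩] (.node [⟨.x, .w, (K (.negSucc 26926235546831))⟩] .nil .nil .nil .nil .nil .nil) (.node [⟨.x, .w, (K (.ofNat 82914048160812))⟩] .nil .nil .nil .nil .nil .nil) .nil .nil .nil .nil) (.node [⟨.x, .w, (B (K (.negSucc 196378618701203)) (K (.ofNat 138373188315516)) N N)⟩,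
  ⟨.x, T1, (K (.negSucc 57647063781287))⟩,
  ⟨.x, T5, (K (.negSucc 29697250008095))⟩] (.node [⟨.x, .w, (K (.ofNat 82409060599596))⟩] .nil .nil .nil .nil .nil .nil) (.node [⟨.x, .w, (K (.ofNat 85683368402748))⟩] .nil .nil .nil .nil .nil .nil) .nil .nil .nil .nil) .nil .nil .nil .nil) .nil .nil (.node [⟨.x, T8, (K (.ofNat 509959224576))⟩,
  ⟨.x, T14, (K (.negSucc 259730948303))⟩] .nil .nil .nil .nil .nil .nil) (.node [⟨.x, T8, (K (.negSucc 48259459938911))⟩,
  ⟨.x, T14, (K (.ofNat 22782822227304))⟩] .nil .nil .nil .nil .nil .nil))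

def c_23 : Cert := (.node [⟨.x, .w, (B (B (B (K (.ofNat 40301819040336)) (K (.ofNat 79750427921328)) N N) (B (K (.negSucc 80785758821855)) (K (.negSucc 18177787312463)) N N) N N) (B (B (K (.negSucc 40782696302663)) (K (.ofNat 69633636011784)) N N) (B (K (.negSucc 6573448673747)) (K (.ofNat 16507215287712)) N N) N N) N N)⟩,
  ⟨.x, T1, (B (B (K (.negSucc 31585241983103)) (K (.negSucc 29557757207159)) N N) (B (K (.ofNat 14017581256896)) (K (.ofNat 22300957369296)) N N) N N)⟩,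
  ⟨.x, T5, (B (B (K (.negSucc 53984511142919)) (K (.negSucc 141330040139663)) N N) (B (K (.negSucc 35687539027619)) (K (.negSucc 27289919853863)) N N) N N)⟩,
  ⟨.x, T8, (C N N N N (K (.ofNat 10727016410952)) (K (.negSucc 12056841118583)))⟩,
  ⟨.x, T10, (A1 (K (.ofNat 203763606480)))⟩,
  ⟨.x, T14, (C N N N N (K (.ofNat 310117015800)) (K (.negSucc 5786492139719)))⟩,
  ⟨.x, T16, (B (K (.negSucc 11847974964335)) (K (.negSucc 9395377189775)) N N)⟩,
  ⟨.x, T20, (B (K (.negSucc 10894628682215)) (K (.ofNat 2420171238456)) N N)⟩,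
  ⟨.x, T29, (A1 (K (.ofNat 2325215710008)))⟩,
  ⟨.x, T33, (K (.ofNat 86748807168))⟩,
  ⟨.x, T38, (K (.ofNat 702192408480))⟩,
  ⟨.x, T42, (K (.ofNat 1035744024816))⟩,
  ⟨.x, T51, (K (.ofNat 2920929204888))⟩,
  ⟨.x, T62, (K (.ofNat 3949153938576))⟩,
  ⟨.x, T64, (K (.ofNat 3676018890384))⟩] (.node [⟨.x, .w, (B (B (K (.ofNat 116788774308552)) (K (.ofNat 93895965919656)) N N) (B (K (.ofNat 91231517217132)) (K (.ofNat 137060149835376)) N N) N N)⟩,
  ⟨.x, T1, (B (K (.negSucc 46827859545071)) (K (.negSucc 94624251027551)) N N)⟩,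
  ⟨.x, T5, (B (K (.negSucc 51457661278415)) (K (.ofNat 48024352835136)) N N)⟩,
  ⟨.x, T10, (K (.negSucc 20868813171503))⟩,
  ⟨.x, T16, (K (.negSucc 7207437228767))⟩,
  ⟨.x, T20, (K (.ofNat 71712403020288))⟩,
  ⟨.x, T29, (K (.ofNat 26966639766096))⟩] (.node [⟨.x, .w, (B (K (.ofNat 60755826889152)) (K (.ofNat 76929345393840)) N N)⟩,
  ⟨.x, T1, (K (.negSucc 7803233087759))⟩,
  ⟨.x, T5, (K (.negSucc 27468475127423))⟩] (.node [⟨.x, .w, (K (.negSucc 11466018109583))⟩] .nil .nil .nil .nil .nil .nil) (.node [⟨.x, .w, (K (.negSucc 62837560602863))⟩] .nil .nil .nil .nil .nil .nil) .nil .nil .nil .nil) (.node [⟨.x, .w, (B (K (.ofNat 152872611673032)) (K (.negSucc 49823493465455)) N N)⟩,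
  ⟨.x, T1, (K (.ofNat 77212373552784))⟩,
  ⟨.x, T5, (K (.negSucc 56919429310535))⟩] (.node [⟨.x, .w, (K (.negSucc 47737772307215))⟩] .nil .nil .nil .nil .nil .nil) (.node [⟨.x, .w, (K (.negSucc 71115046774703))⟩] .nil .nil .nil .nil .nil .nil) .nil .nil .nil .nil) .nil .nil .nil .nil) (.node [⟨.x, .w, (B (B (K (.negSucc 9082873253231)) (K (.ofNat 38359331413308)) N N) (B (K (.ofNat 58576799569068)) (K (.ofNat 1037979143064)) N N) N N)⟩,
  ⟨.x, T1, (B (K (.negSucc 62119012111379)) (K (.negSucc 16649056417679)) N N)⟩,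
  ⟨.x, T5, (B (K (.ofNat 18867675270816)) (K (.negSucc 8866826172971)) N N)⟩,
  ⟨.x, T10, (K (.ofNat 38163720709476))⟩,
  ⟨.x, T16, (K (.negSucc 32169520775123))⟩,
  ⟨.x, T20, (K (.negSucc 34718702313275))⟩,
  ⟨.x, T29, (K (.ofNat 32229620188128))⟩] (.node [⟨.x, .w, (B (K (.negSucc 17234140875263)) (K (.negSucc 83683932643403)) N N)⟩,
  ⟨.x, T1, (K (.ofNat 107337868653204))⟩,
  ⟨.x, T5, (K (.negSucc 23089345862759))⟩] (.node [⟨.x, .w, (K (.negSucc 36043348114511))⟩] .nil .nil .nil .nil .nil .nil) (.node [⟨.x, .w, (K (.ofNat 6525311519196))⟩] .nil .nil .nil .nil .nil .nil) .nil .nil .nil .nil) (.node [⟨.x, .w, (B (K (.negSucc 35144057208923)) (K (.ofNat 70750892463228)) N N)⟩,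
  ⟨.x, T1, (K (.ofNat 20358203139144))⟩,
  ⟨.x, T5, (K (.negSucc 24169052789351))⟩] (.node [⟨.x, .w, (K (.ofNat 4388101884540))⟩] .nil .nil .nil .nil .nil .nil) (.node [⟨.x, .w, (K (.ofNat 11488194151452))⟩] .nil .nil .nil .nil .nil .nil) .nil .nil .nil .nil) .nil .nil .nil .nil) .nil .nil (.node [⟨.x, T8, (K (.ofNat 45128812866504))⟩,
  ⟨.x, T14, (K (.negSucc 32234970368327))⟩] .nil .nil .nil .nil .nil .nil) (.node [⟨.x, T8, (K (.ofNat 7926738140232))⟩,
  ⟨.x, T14, (K (.negSucc 991740394871))⟩] .nil .nil .nil .nil .nil .nil))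

def c_24 : Cert := (.node [⟨.x, .z, (B (B (B (K (.ofNat 29482729824984)) (K (.negSucc 13510981632263)) N N) (B (K (.ofNat 90191833543596)) (K (.ofNat 17331820114524)) N N) N N) (B (B (K (.ofNat 61609133627064)) (K (.negSucc 78225263114327)) N N) (B (K (.negSucc 10426618503467)) (K (.negSucc 49537524316031)) N N) N N) N N)⟩,
  ⟨.x, T0, (B (B (K (.negSucc 31133261391047)) (K (.negSucc 137022842647223)) N N) (B (K (.ofNat 6378066081396)) (K (.negSucc 24056660828735)) N N) N N)⟩,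
  ⟨.x, T2, (B (B (K (.negSucc 62733567183695)) (K (.negSucc 40610373173135)) N N) (B (K (.negSucc 61311452026175)) (K (.negSucc 34507604229119)) N N) N N)⟩,
  ⟨.x, T8, (B N N (K (.ofNat 7504802443368)) (K (.ofNat 139955122944)))⟩,
  ⟨.x, T9, (A1 (K (.negSucc 551390499071)))⟩,
  ⟨.x, T14, (B N N (K (.ofNat 554316363432)) (K (.ofNat 14264664801984)))⟩,
  ⟨.x, T15, (B (K (.negSucc 48253281236495)) (K (.negSucc 32555891578175)) N N)⟩,
  ⟨.x, T17, (B (K (.ofNat 65685482939232)) (K (.ofNat 44433013587120)) N N)⟩,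
  ⟨.x, T22, (A1 (K (.negSucc 1904580374543)))⟩,
  ⟨.x, T32, (K (.ofNat 62642958336))⟩,
  ⟨.x, T37, (K (.negSucc 3491620474463))⟩,
  ⟨.x, T39, (K (.ofNat 11549248856496))⟩,
  ⟨.x, T44, (K (.negSucc 2951915755535))⟩,
  ⟨.x, T53, (K (.negSucc 482465217023))⟩,
  ⟨.x, T56, (K (.negSucc 1047335380991))⟩] (.node [⟨.x, .z, (B (B (K (.negSucc 49879612233359)) (K (.negSucc 17943135482015)) N N) (B (K (.ofNat 18070453068768)) (K (.ofNat 18902839858704)) N N) N N)⟩,
  ⟨.x, T0, (B (K (.negSucc 4963067781407)) (K (.ofNat 14718537565344)) N N)⟩,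
  ⟨.x, T2, (B (K (.negSucc 15913556146367)) (K (.negSucc 4921529415695)) N N)⟩,
  ⟨.x, T9, (K (.ofNat 779824247040))⟩,
  ⟨.x, T15, (K (.ofNat 4180112771184))⟩,
  ⟨.x, T17, (K (.ofNat 5054399731728))⟩,
  ⟨.x, T22, (K (.ofNat 27088846848))⟩] (.node [⟨.x, .z, (B (K (.negSucc 13642244462015)) (K (.negSucc 13715401225679)) N N)⟩,
  ⟨.x, T0, (K (.negSucc 13488269553359))⟩,
  ⟨.x, T2, (K (.ofNat 815378358528))⟩] (.node [⟨.x, .z, (K (.negSucc 741511086335))⟩] .nil .nil .nil .nil .nil .nil) (.node [⟨.x, .z, (K (.negSucc 9811821033647))⟩] .nil .nil .nil .nil .nil .nil) .nil .nil .nil .nil) (.node [⟨.x, .z, (B (K (.negSucc 3767048175167)) (K (.negSucc 40953717374543)) N N)⟩,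
  ⟨.x, T0, (K (.negSucc 38699230536143))⟩,
  ⟨.x, T2, (K (.negSucc 22048167242303))⟩] (.node [⟨.x, .z, (K (.ofNat 11122552716624))⟩] .nil .nil .nil .nil .nil .nil) (.node [⟨.x, .z, (K (.ofNat 12340304549712))⟩] .nil .nil .nil .nil .nil .nil) .nil .nil .nil .nil) .nil .nil .nil .nil) (.node [⟨.x, .z, (B (B (K (.ofNat 8356757782968)) (K (.negSucc 286515482843771)) N N) (B (K (.ofNat 23038656209208)) (K (.negSucc 212314015054835)) N N) N N)⟩,
  ⟨.x, T0, (B (K (.ofNat 205050154597164)) (K (.negSucc 101809196745623)) N N)⟩,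
  ⟨.x, T2, (B (K (.ofNat 95168850543936)) (K (.ofNat 130099974025716)) N N)⟩,
  ⟨.x, T9, (K (.ofNat 89847318969396))⟩,
  ⟨.x, T15, (K (.ofNat 7831433847384))⟩,
  ⟨.x, T17, (K (.negSucc 31011527521115))⟩,
  ⟨.x, T22, (K (.ofNat 66394066980816))⟩] (.node [⟨.x, .z, (B (K (.ofNat 134398084311072)) (K (.ofNat 213389882242956)) N N)⟩,
  ⟨.x, T0, (K (.ofNat 127651534872804))⟩,
  ⟨.x, T2, (K (.negSucc 17364906326735))⟩] (.node [⟨.x, .z, (K (.negSucc 42353090653535))⟩] .nil .nil .nil .nil .nil .nil) (.node [⟨.x, .z, (K (.negSucc 6697413159659))⟩] .nil .nil .nil .nil .nil .nil) .nil .nil .nil .nil) (.node [⟨.x, .z, (B (K (.ofNat 102475995525828)) (K (.ofNat 59475506926824)) N N)⟩,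
  ⟨.x, T0, (K (.ofNat 8963746670772))⟩,
  ⟨.x, T2, (K (.ofNat 49204805937408))⟩] (.node [⟨.x, .z, (K (.negSucc 6325985116907))⟩] .nil .nil .nil .nil .nil .nil) (.node [⟨.x, .z, (K (.negSucc 7345204955963))⟩] .nil .nil .nil .nil .nil .nil) .nil .nil .nil .nil) .nil .nil .nil .nil) (.node [⟨.x, T8, (K (.negSucc 764900299007))⟩,
  ⟨.x, T14, (K (.ofNat 2187015456528))⟩] .nil .nil .nil .nil .nil .nil) (.node [⟨.x, T8, (K (.negSucc 55674834297215))⟩,
  ⟨.x, T14, (K (.ofNat 29827371526296))⟩] .nil .nil .nil .nil .nil .nil) .nil .nil)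

def c_25 : Cert := (.node [⟨.x, .z, (B (B (B (K (.negSucc 265472825588663)) (K (.negSucc 152194962812771)) N N) (B (K (.ofNat 78258907204368)) (K (.ofNat 191269653343212)) N N) N N) (B (B (K (.negSucc 696771688975379)) (K (.negSucc 45000626429051)) N N) (B (K (.negSucc 233660462446655)) (K (.ofNat 793729971398268)) N N) N N) N N)⟩,
  ⟨.x, T0, (B (B (K (.negSucc 310246102777859)) (K (.negSucc 98021271257135)) N N) (B (K (.ofNat 229153565797308)) (K (.ofNat 186977442506328)) N N) N N)⟩,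
  ⟨.x, T2, (B (B (K (.ofNat 171373014840600)) (K (.ofNat 475053656028804)) N N) (B (K (.ofNat 192970231802928)) (K (.ofNat 293412680345052)) N N) N N)⟩,
  ⟨.x, T8, (B N N (K (.negSucc 157178927445497)) (K (.ofNat 53177059605852)))⟩,
  ⟨.x, T9, (A1 (K (.negSucc 125487761047415)))⟩,
  ⟨.x, T14, (B N N (K (.ofNat 81229198275486)) (K (.negSucc 67970240394155)))⟩,
  ⟨.x, T15, (B (K (.ofNat 75548395044828)) (K (.ofNat 438929114663520)) N N)⟩,
  ⟨.x, T17, (B (K (.ofNat 227410887438252)) (K (.negSucc 350359558926479)) N N)⟩,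
  ⟨.x, T22, (A1 (K (.negSucc 119950118859419)))⟩,
  ⟨.x, T32, (K (.negSucc 212217878670695))⟩,
  ⟨.x, T37, (K (.negSucc 57662494626347))⟩,
  ⟨.x, T39, (K (.negSucc 34301328096347))⟩,
  ⟨.x, T44, (K (.negSucc 23048232820307))⟩,
  ⟨.x, T53, (K (.negSucc 18143345151071))⟩,
  ⟨.x, T56, (K (.ofNat 114191044929720))⟩] (.node [⟨.x, .z, (B (B (K (.ofNat 286489174236480)) (K (.ofNat 286771964162832)) N N) (B (K (.ofNat 200008194609852)) (K (.negSucc 725473185365411)) N N) N N)⟩,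
  ⟨.x, T0, (B (K (.ofNat 261254354304024)) (K (.negSucc 320916284782343)) N N)⟩,
  ⟨.x, T2, (B (K (.ofNat 45042287301000)) (K (.negSucc 166156922799323)) N N)⟩,
  ⟨.x, T9, (K (.negSucc 97066090587887))⟩,
  ⟨.x, T15, (K (.negSucc 435467633021099))⟩,
  ⟨.x, T17, (K (.ofNat 109889922598956))⟩,
  ⟨.x, T22, (K (.negSucc 2050409003759))⟩] (.node [⟨.x, .z, (B (K (.ofNat 72252186601032)) (K (.ofNat 500321201040684)) N N)⟩,
  ⟨.x, T0, (K (.ofNat 336692074457484))⟩,
  ⟨.x, T2, (K (.negSucc 219054179282543))⟩] (.node [⟨.x, .z, (K (.negSucc 121153012381223))⟩] .nil .nil .nil .nil .nil .nil) (.node [⟨.x, .z, (K (.ofNat 107878493742876))⟩] .nil .nil .nil .nil .nil .nil) .nil .nil .nil .nil) (.node [⟨.x, .z, (B (K (.ofNat 299295049945464)) (K (.negSucc 276866763170471)) N N)⟩,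
  ⟨.x, T0, (K (.ofNat 368483607396648))⟩,
  ⟨.x, T2, (K (.ofNat 101362203975348))⟩] (.node [⟨.x, .z, (K (.ofNat 62575397693280))⟩] .nil .nil .nil .nil .nil .nil) (.node [⟨.x, .z, (K (.ofNat 200586123387288))⟩] .nil .nil .nil .nil .nil .nil) .nil .nil .nil .nil) .nil .nil .nil .nil) (.node [⟨.x, .z, (B (B (K (.ofNat 330723731052396)) (K (.negSucc 442161613555163)) N N) (B (K (.negSucc 190216782055619)) (K (.ofNat 119477723431212)) N N) N N)⟩,
  ⟨.x, T0, (B (K (.ofNat 232143266991780)) (K (.negSucc 100894276685303)) N N)⟩,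
  ⟨.x, T2, (B (K (.ofNat 100233771816132)) (K (.negSucc 28762664673851)) N N)⟩,
  ⟨.x, T9, (K (.ofNat 5172307505568))⟩,
  ⟨.x, T15, (K (.negSucc 172451750821631))⟩,
  ⟨.x, T17, (K (.negSucc 1297074469319))⟩,
  ⟨.x, T22, (K (.ofNat 58273969223520))⟩] (.node [⟨.x, .z, (B (K (.ofNat 363259156801320)) (K (.ofNat 36756774000108)) N N)⟩,
  ⟨.x, T0, (K (.ofNat 448124328726012))⟩,
  ⟨.x, T2, (K (.ofNat 10650866963292))⟩] (.node [⟨.x, .z, (K (.negSucc 98847532133387))⟩] .nil .nil .nil .nil .nil .nil) (.node [⟨.x, .z, (K (.ofNat 64970585215812))⟩] .nil .nil .nil .nil .nil .nil) .nil .nil .nil .nil) (.node [⟨.x, .z, (B (K (.ofNat 124290076243752)) (K (.negSucc 689118789752927)) N N)⟩,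
  ⟨.x, T0, (K (.negSucc 78431643284975))⟩,
  ⟨.x, T2, (K (.ofNat 179921183951700))⟩] (.node [⟨.x, .z, (K (.ofNat 87836626896516))⟩] .nil .nil .nil .nil .nil .nil) (.node [⟨.x, .z, (K (.ofNat 104316552474516))⟩] .nil .nil .nil .nil .nil .nil) .nil .nil .nil .nil) .nil .nil .nil .nil) (.node [⟨.x, T8, (K (.ofNat 87721402881084))⟩,
  ⟨.x, T14, (K (.ofNat 47533122019704))⟩] .nil .nil .nil .nil .nil .nil) (.node [⟨.x, T8, (K (.ofNat 240278925102606))⟩,
  ⟨.x, T14, (K (.ofNat 101983137357474))⟩] .nil .nil .nil .nil .nil .nil) .nil .nil)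

def c_2 : Cert := (.node [⟨.x, .z, (C (C (C (A4 (K (.negSucc 34658279597663))) N N N (A0 (K (.negSucc 80127607946543))) N) N N N (B (B (K (.ofNat 4305608099064)) (K (.ofNat 135053638558200)) N N) (B (K (.ofNat 18678442329756)) (K (.negSucc 15324307263791)) N N) N N) N) (C (C (A4 (K (.negSucc 83240433179711))) N N N (B (K (.negSucc 41147542629575)) (K (.negSucc 66415306459859)) N N) N) (C (A4 (K (.ofNat 95199479301708))) (C N N N N (K (.ofNat 114881304629880)) (K (.ofNat 25948283018688))) N N (B (K (.ofNat 183641617072944)) (K (.negSucc 250062289023599)) N N) (B (K (.negSucc 16227533059415)) (K (.ofNat 33667685638344)) N N)) N N (B (B (K (.negSucc 65633524453079)) (K (.ofNat 97109275688028)) N N) (B (K (.negSucc 146294631836207)) (K (.ofNat 230290906210884)) N N) N N) (B (B (K (.ofNat 99850764449160)) (K (.ofNat 17798557760424)) N N) (B (K (.negSucc 137536539006707)) (K (.ofNat 40182960726432)) N N) N N)) N N (B (B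 (B (K (.ofNat 21004230393480)) (K (.ofNat 94828246838376)) N N) (B (K (.negSucc 69298884880427)) (K (.ofNat 37258410141876)) N N) N N) (B (B (K (.negSucc 24161819303879)) (K (.ofNat 33652725871464)) N N) (B (K (.negSucc 5862953120795)) (K (.ofNat 1030476775248)) N N) N N) N N) (B (B (B (K (.ofNat 41472552463872)) (K (.ofNat 80221983152448)) N N) (B (K (.ofNat 97538797457256)) (K (.ofNat 108317610494124)) N N) N N) (B (B (K (.ofNat 130625877101328)) (K (.ofNat 160230895753104)) N N) (B (K (.ofNat 22169100639312)) (K (.ofNat 4078041837984)) N N) N N) N N))⟩,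
  ⟨.x, .w, (B (B (B (A2 (K (.ofNat 7544216645892))) N (A0 (K (.negSucc 23913469596851))) N) N (B (B (K (.negSucc 36712365514847)) (K (.negSucc 125891124284951)) N N) (B (K (.negSucc 29992776300971)) (K (.ofNat 18772647375960)) N N) N N) N) (B (B (A2 (K (.ofNat 72418776232284))) N (B (K (.ofNat 58810722468660)) (K (.negSucc 85011288029603)) N N) N) (B (A2 (K (.negSucc 33982364999051))) (B N N (K (.negSucc 47561563390139)) (K (.negSucc 42533686727423))) (B (K (.ofNat 44810513049924)) (K (.negSucc 78571850164919)) N N) (B (K (.negSucc 8583172757279)) (K (.negSucc 1579102506719)) N N)) (B (B (K (.negSucc 48587282937719)) (K (.negSucc 143158391416691)) N N) (B (K (.ofNat 73521639717336)) (K (.negSucc 202921719566867)) N N) N N) (B (B (K (.negSucc 48062074083911)) (K (.negSucc 292231976014583)) N N) (B (K (.negSucc 85509162133955)) (K (.negSucc 72451757168207)) N N) N N)) (B (B (B (K (.ofNat 60093909143688)) (K (.ofNat 69994882588776))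 N N) (B (K (.negSucc 18499735867403)) (K (.negSucc 18505378170635)) N N) N N) (B (B (K (.negSucc 69148464004727)) (K (.negSucc 166833347287031)) N N) (B (K (.negSucc 97217340540731)) (K (.negSucc 65809283275871)) N N) N N) N N) (B (B (B (K (.ofNat 36955302661392)) (K (.ofNat 104523698372592)) N N) (B (K (.ofNat 80149646544744)) (K (.ofNat 49133931729612)) N N) N N) (B (B (K (.ofNat 13015413027360)) (K (.ofNat 84907427306256)) N N) (B (K (.negSucc 5398192086911)) (K (.negSucc 2142687098447)) N N) N N) N N))⟩,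
  ⟨.z, .w, (B (B (B (A0 (K (.ofNat 41756106565392))) (A1 (K (.negSucc 83952040266995))) N N) (B (B (K (.ofNat 146482004751456)) (K (.ofNat 154145202427656)) N N) (B (K (.ofNat 41185496878884)) (K (.negSucc 42513630947615)) N N) N N) N N) (B (B (B (K (.ofNat 98582058171024)) (K (.ofNat 168065406032568)) N N) (B (K (.ofNat 42551357061408)) (K (.negSucc 36985793114303)) N N) N N) (B (B (K (.ofNat 68529645646752)) (K (.ofNat 127214385907512)) N N) (B (K (.ofNat 32930086739520)) (K (.ofNat 1462018422096)) N N) N N) N N) N N)⟩,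
  ⟨.x, T0, (C (C (A4 (K (.negSucc 8490839634431))) N N N (B (K (.ofNat 19146071259432)) (K (.negSucc 720595718819)) N N) N) (C (A4 (K (.ofNat 60214104730188))) (C N N N N (K (.ofNat 31931394522840)) (K (.ofNat 26355580523568))) N N (B (K (.negSucc 4241887018127)) (K (.negSucc 57399129820655)) N N) (B (K (.negSucc 38469100322663)) (K (.ofNat 5285168847000)) N N)) N N (B (B (K (.negSucc 27392431647095)) (K (.negSucc 66240417299651)) N N) (B (K (.negSucc 90819013935095)) (K (.ofNat 42266336019444)) N N) N N) (B (B (K (.ofNat 39653293835880)) (K (.ofNat 112387396281624)) N N) (B (K (.negSucc 14758291794995)) (K (.ofNat 40216716155808)) N N) N N))⟩,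
  ⟨.x, T1, (B (B (A2 (K (.negSucc 50808156975035))) N (B (K (.negSucc 80017626824531)) (K (.ofNat 7553298123540)) N N) N) (B (A2 (K (.ofNat 60938317432440))) (B N N (K (.ofNat 44380164248604)) (K (.ofNat 45783210845520))) (B (K (.ofNat 38235602077704)) (K (.ofNat 94915945822104)) N N) (B (K (.ofNat 74434358544480)) (K (.ofNat 31028163806520)) N N)) (B (B (K (.negSucc 9916682066999)) (K (.negSucc 60742637347931)) N N) (B (K (.negSucc 78479896619087)) (K (.ofNat 142439320565316)) N N) N N) (B (B (K (.negSucc 8830634059799)) (K (.ofNat 243540116859960)) N N) (B (K (.ofNat 50074840994004)) (K (.ofNat 69052600661760)) N N) N N))⟩,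
  ⟨.x, T2, (C (C (A4 (K (.ofNat 33528214204848))) N N N (B (K (.ofNat 74513970237024)) (K (.ofNat 29547072914544)) N N) N) (C (A4 (K (.ofNat 18449979842016))) (C N N N N (K (.negSucc 55599094466927)) (K (.ofNat 6494772159216))) N N (B (K (.ofNat 27529853975136)) (K (.ofNat 56276616335328)) N N) (B (K (.ofNat 62166837476592)) (K (.ofNat 48279997973376)) N N)) N N (B (B (K (.ofNat 11834314610040)) (K (.negSucc 164553605131463)) N N) (B (K (.negSucc 83736473613515)) (K (.negSucc 95233022412767)) N N) N N) (B (B (K (.negSucc 37911513455)) (K (.ofNat 35886490914672)) N N) (B (K (.ofNat 43801762935456)) (K (.ofNat 59387302656)) N N) N N))⟩,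
  ⟨.x, T4, (B (B (B (K (.negSucc 6734392950935)) (K (.negSucc 58298661648887)) N N) (B (K (.negSucc 114790006111091)) (K (.negSucc 22896864526871)) N N) N N) (B (B (K (.negSucc 59670405977039)) (K (.negSucc 87675548795135)) N N) (B (K (.negSucc 39176951358527)) (K (.negSucc 17220998726495)) N N) N N) N N)⟩,
  ⟨.x, T5, (B (B (A2 (K (.ofNat 7516025911152))) N (B (K (.ofNat 27037029225888)) (K (.ofNat 6031072194480)) N N) N) (B (A2 (K (.ofNat 27872626179168))) (B N N (K (.negSucc 9008978528159)) (K (.ofNat 11241669195504))) (B (K (.ofNat 15207167385216)) (K (.ofNat 33733071929808)) N N) (B (K (.ofNat 65676472119072)) (K (.ofNat 36647948308320)) N N)) (B (B (K (.ofNat 23833537603992)) (K (.ofNat 130115510578872)) N N) (B (K (.ofNat 31081688968140)) (K (.ofNat 53850969949968)) N N) N N) (B (B (K (.negSucc 29825046209807)) (K (.negSucc 37846567361951)) N N) (B (K (.negSucc 35152240010399)) (K (.negSucc 4547834352287)) N N)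 N N))⟩,
  ⟨.x, T6, (B (B (B (K (.negSucc 40838157230351)) (K (.negSucc 79395105983519)) N N) (B (K (.negSucc 63236513681687)) (K (.negSucc 29137091707067)) N N) N N) (B (B (K (.negSucc 69171966201167)) (K (.negSucc 24865572124511)) N N) (B (K (.negSucc 6358696602623)) (K (.negSucc 5272581412079)) N N) N N) N N)⟩,
  ⟨.z, T1, (A0 (B (B (K (.negSucc 2781127224167)) (K (.ofNat 108222305615016)) N N) (B (K (.negSucc 13702471872347)) (K (.ofNat 51621593632068)) N N) N N))⟩,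
  ⟨.z, T5, (A0 (B (B (K (.negSucc 60093909143687)) (K (.negSucc 69385869848615)) N N) (B (K (.ofNat 7504347920556)) (K (.negSucc 15904705871459)) N N) N N))⟩,
  ⟨.x, T8, (C N N (A4 (K (.negSucc 12542172736463))) (C N N N N (K (.ofNat 15673975498440)) (K (.ofNat 99213424128))) (B N N (K (.negSucc 8868074938991)) (K (.negSucc 11810289836159))) (B N N (K (.ofNat 7479580418424)) (K (.ofNat 77345570304))))⟩,
  ⟨.x, T9, (C N (C N N N N (K (.negSucc 21903279675551)) (K (.ofNat 708407347968))) N N (B (K (.negSucc 5226272625023)) (K (.ofNat 12785989076352)) N N) (A1 (K (.negSucc 230269008383))))⟩,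
  ⟨.x, T10, (B N (A3 (K (.negSucc 657428203007))) N (A1 (K (.ofNat 61808002560))))⟩,
  ⟨.x, T12, (A1 (B (K (.ofNat 14228300384784)) (K (.negSucc 898679100671)) N N))⟩,
  ⟨.x, T14, (C N N (A4 (K (.ofNat 483524633952))) (C N N N N (K (.negSucc 18757987561223)) (K (.ofNat 1839411800784))) (B N N (K (.ofNat 1863980208)) (K (.ofNat 5087996559216))) (B N N (K (.ofNat 6325191650376)) (K (.negSucc 3468957994223))))⟩,
  ⟨.x, T15, (C (A4 (K (.ofNat 297294506928))) (C N N N N (K (.ofNat 37254390487056)) (K (.ofNat 4244406272928))) N N (B (K (.negSucc 1741688330111)) (K (.negSucc 17405134543871)) N N) (B (K (.ofNat 34779608420688)) (K (.ofNat 28919440757808)) N N))⟩,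
  ⟨.x, T16, (B (A2 (K (.ofNat 12715698841056))) (B N N (K (.ofNat 17671775037696)) (K (.ofNat 24231866034240))) (B (K (.negSucc 296046687887)) (K (.ofNat 23704418925792)) N N) (B (K (.ofNat 72865641079296)) (K (.ofNat 13453781331600)) N N))⟩,
  ⟨.x, T17, (C (A4 (K (.negSucc 1551063200399))) (C N N N N (K (.ofNat 6108111509184)) (K (.negSucc 12318194301119))) N N (B (K (.negSucc 6482455842095)) (K (.ofNat 25050822362208)) N N) (B (K (.negSucc 62513558689391)) (K (.negSucc 47998974888575)) N N))⟩,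
  ⟨.x, T19, (B (B (K (.negSucc 12430256728895)) (K (.negSucc 8283360261887)) N N) (B (K (.negSucc 57773482295471)) (K (.negSucc 14572829368511)) N N) N N)⟩,
  ⟨.x, T20, (B (A2 (K (.ofNat 4965716498976))) (B N N (K (.negSucc 10859679714383)) (K (.ofNat 11730364129872))) (B (K (.negSucc 9324631396799)) (K (.ofNat 1846522978848)) N N) (B (K (.ofNat 65577182322528)) (K (.ofNat 42156544287744)) N N))⟩,
  ⟨.x, T21, (A0 (B (K (.ofNat 23233915563696)) (K (.ofNat 36799864168464)) N N))⟩,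
  ⟨.x, T22, (C N (C N N N N (K (.negSucc 25315281195119)) (K (.ofNat 560232930816))) N N N (A1 (K (.ofNat 167783000832))))⟩,
  ⟨.x, T24, (B (B (K (.negSucc 23616760813919)) (K (.negSucc 9096343834031)) N N) (B (K (.negSucc 35545093509023)) (K (.negSucc 12315257311967)) N N) N N)⟩,
  ⟨.x, T27, (B (B (K (.negSucc 25313271186959)) (K (.negSucc 32445353154671)) N N) (B (K (.negSucc 31458124813679)) (K (.negSucc 18300567537359)) N N) N N)⟩,
  ⟨.x, T29, (B N (B N N (K (.negSucc 1779791073695)) (K (.ofNat 1341448459776))) N (A1 (K (.ofNat 1967836799232))))⟩,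
  ⟨.x, T30, (A1 (B (K (.ofNat 23188404540096)) (K (.ofNat 85938485760)) N N))⟩,
  ⟨.z, T16, (A0 (B (K (.ofNat 13477514239728)) (K (.ofNat 18414733047408)) N N))⟩,
  ⟨.x, T32, (A5 (K (.ofNat 89449629696)))⟩,
  ⟨.x, T33, (A3 (K (.ofNat 462727489536)))⟩,
  ⟨.x, T35, (A1 (K (.ofNat 383127128064)))⟩,
  ⟨.x, T37, (C N N N N (K (.ofNat 266672738160)) (K (.ofNat 4100805779472)))⟩,
  ⟨.x, T38, (B N N (K (.negSucc 203949540575)) (K (.negSucc 1637129290319)))⟩,
  ⟨.x, T39, (C N N N N (K (.ofNat 3691588510368)) (K (.negSucc 6451039587023)))⟩,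
  ⟨.x, T41, (B (K (.ofNat 9529152524784)) (K (.negSucc 5137596535967)) N N)⟩,
  ⟨.x, T42, (B N N (K (.negSucc 3243539965679)) (K (.ofNat 4692380030784)))⟩,
  ⟨.x, T43, (A0 (K (.negSucc 3574536636383)))⟩,
  ⟨.x, T44, (A4 (K (.negSucc 3066634062287)))⟩,
  ⟨.x, T46, (A0 (K (.negSucc 1940822640863)))⟩,
  ⟨.x, T49, (A0 (K (.negSucc 4209795960623)))⟩,
  ⟨.x, T51, (A2 (K (.negSucc 3200137907615)))⟩,
  ⟨.x, T52, (A0 (K (.ofNat 4026829226400)))⟩,
  ⟨.x, T53, (A5 (K (.ofNat 594437190912)))⟩,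
  ⟨.x, T55, (A1 (K (.ofNat 995130862848)))⟩,
  ⟨.x, T56, (A5 (K (.negSucc 355430260223)))⟩,
  ⟨.x, T58, (B (K (.negSucc 1136130043823)) (K (.ofNat 7244390316528)) N N)⟩,
  ⟨.x, T60, (B (K (.ofNat 1575275763600)) (K (.negSucc 2552299683839)) N N)⟩,
  ⟨.x, T61, (A1 (K (.negSucc 2028410470655)))⟩,
  ⟨.x, T62, (A3 (K (.negSucc 50666176511)))⟩,
  ⟨.x, T64, (A3 (K (.ofNat 2712953088)))⟩,
  ⟨.x, T65, (A1 (K (.negSucc 25631873279)))⟩,
  ⟨.z, T38, (A0 (K (.negSucc 2823021614591)))⟩,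
  ⟨.z, T42, (A0 (K (.ofNat 10491112609776)))⟩,
  ⟨.x, T67, (K (.negSucc 3435893627471))⟩,
  ⟨.x, T68, (K (.ofNat 1194539574096))⟩,
  ⟨.x, T70, (K (.negSucc 10526907230351))⟩,
  ⟨.x, T106, (K (.negSucc 15726965962031))⟩,
  ⟨.x, T73, (K (.ofNat 60306612480))⟩,
  ⟨.x, T107, (K (.ofNat 9601698560832))⟩,
  ⟨.x, T108, (K (.ofNat 3613801387680))⟩,
  ⟨.x, T109, (K (.ofNat 766657363968))⟩,
  ⟨.x, T111, (K (.negSucc 376139925503))⟩,
  ⟨.x, T75, (K (.ofNat 2483989735248))⟩,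
  ⟨.x, T112, (K (.ofNat 6403476721824))⟩,
  ⟨.x, T113, (K (.ofNat 1406678959872))⟩,
  ⟨.x, T114, (K (.ofNat 34895702016))⟩,
  ⟨.x, T116, (K (.ofNat 25113618432))⟩,
  ⟨.x, T76, (K (.negSucc 84339118079))⟩,
  ⟨.z, T77, (K (.ofNat 2261686399056))⟩,
  ⟨.z, T117, (K (.ofNat 4103673711264))⟩] c_20 c_21 c_22 c_23 c_24 c_25)

def c_300 : Cert := (.node [⟨.x, .z, (C (A4 (K (.negSucc 1041504744426245))) (C N N N N (K (.ofNat 278931689874000)) (K (.ofNat 1321829482554306))) N N (B (K (.negSucc 281743949841227)) (K (.negSucc 1390234025106647)) N N) (B (K (.ofNat 311036145049098)) (K (.negSucc 32523751421963)) N N))⟩,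
  ⟨.x, .w, (B (A2 (K (.negSucc 917959062788621))) (B N N (K (.negSucc 419044096443275)) (K (.ofNat 601046070552450))) (B (K (.ofNat 1391348993901336)) (K (.negSucc 484392767894837)) N N) (B (K (.ofNat 42810950999466)) (K (.negSucc 94234737642047)) N N))⟩,
  ⟨.z, .w, (B (B (K (.negSucc 1100396981400179)) (K (.negSucc 1016756218123655)) N N) (B (K (.negSucc 127432787217155)) (K (.ofNat 436082169956850)) N N) N N)⟩,
  ⟨.x, T0, (C N N N N (K (.ofNat 59452899215292)) (K (.ofNat 1431591703927650)))⟩,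
  ⟨.x, T1, (B N N (K (.negSucc 47614503089231)) (K (.negSucc 908892182287097)))⟩,
  ⟨.x, T2, (C N N N N (K (.ofNat 883696485055590)) (K (.ofNat 3760351029504)))⟩,
  ⟨.x, T4, (B (K (.ofNat 964802838245148)) (K (.ofNat 383296221075168)) N N)⟩,
  ⟨.x, T5, (B N N (K (.ofNat 1517395950186624)) (K (.ofNat 389489192492292)))⟩,
  ⟨.x, T6, (B (K (.negSucc 313213391950553)) (K (.negSucc 41292224635931)) N N)⟩,
  ⟨.z, T1, (A0 (K (.negSucc 995005665906803)))⟩,
  ⟨.z, T5, (A0 (K (.negSucc 605325110622893)))⟩,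
  ⟨.x, T12, (K (.negSucc 334514439460331))⟩,
  ⟨.x, T19, (K (.ofNat 679420521471168))⟩,
  ⟨.x, T21, (K (.negSucc 69076637247815))⟩,
  ⟨.x, T24, (K (.negSucc 95917101998615))⟩,
  ⟨.x, T27, (K (.ofNat 371589835765428))⟩,
  ⟨.x, T30, (K (.negSucc 111522424367951))⟩,
  ⟨.z, T16, (K (.negSucc 100597775407037))⟩,
  ⟨.z, T20, (K (.ofNat 182179619041860))⟩] (.node [⟨.x, .z, (C N N N N (K (.negSucc 573357079187531)) (K (.negSucc 1321384208885297)))⟩,
  ⟨.x, .w, (B N N (K (.ofNat 54932846993298)) (K (.ofNat 1310805166493178)))⟩,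
  ⟨.z, .w, (B (K (.negSucc 1051373408714099)) (K (.ofNat 134165372733108)) N N)⟩,
  ⟨.x, T4, (K (.negSucc 314548704137987))⟩,
  ⟨.x, T6, (K (.ofNat 1323911250573714))⟩,
  ⟨.z, T1, (K (.negSucc 1270404268355627))⟩,
  ⟨.z, T5, (K (.negSucc 1390163918999597))⟩] (.node [⟨.z, .w, (K (.negSucc 1141827638933933))⟩] .nil .nil .nil .nil .nil .nil) (.node [⟨.z, .w, (K (.negSucc 1109802811505111))⟩] .nil .nil .nil .nil .nil .nil) (.node [⟨.x, .w, (K (.ofNat 1390367085350958))⟩] .nil .nil .nil .nil .nil .nil) (.node [⟨.x, .w, (K (.ofNat 2337660926633484))⟩] .nil .nil .nil .nil .nil .nil) (.node [⟨.x, .z, (K (.negSucc 1000840237335845))⟩] .nil .nil .nil .nil .nil .nil) (.node [⟨.x, .z, (K (.negSucc 73948852958975))⟩] .nil .nil .nil .nil .nil .nil)) (.node [⟨.x, .z, (C N N N N (K (.ofNat 832162545598056)) (K (.ofNat 393438740387106)))⟩,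
  ⟨.x, .w, (B N N (K (.negSucc 1328383005292163)) (K (.negSucc 18168106103105)))⟩,
  ⟨.z, .w, (B (K (.negSucc 1781076626754665)) (K (.negSucc 376316813681795)) N N)⟩,
  ⟨.x, T4, (K (.negSucc 1176681470314883))⟩,
  ⟨.x, T6, (K (.ofNat 285721803482910))⟩,
  ⟨.z, T1, (K (.ofNat 1032478791838998))⟩,
  ⟨.z, T5, (K (.ofNat 1082540626197132))⟩] (.node [⟨.z, .w, (K (.ofNat 315641279821026))⟩] .nil .nil .nil .nil .nil .nil) (.node [⟨.z, .w, (K (.ofNat 533608638875682))⟩] .nil .nil .nil .nil .nil .nil) (.node [⟨.x, .w, (K (.negSucc 2118328452041015))⟩] .nil .nil .nil .nil .nil .nil) (.node [⟨.x, .w, (K (.negSucc 1049203663897253))⟩] .nil .nil .nil .nil .nil .nil) (.node [⟨.x, .z, (K (.ofNat 217135942924440))⟩] .nil .nil .nil .nil .nil .nil) (.node [⟨.x, .z, (K (.ofNat 804937645628304))⟩] .nil .nil .nil .nil .nil .nil)) (.node [⟨.x, .w, (B (K (.ofNat 573675563203164)) (K (.negSucc 455695983941111)) N N)⟩,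
  ⟨.x, T1, (K (.ofNat 796073421464154))⟩,
  ⟨.x, T5, (K (.ofNat 31568280879186))⟩] (.node [⟨.x, .w, (K (.negSucc 31568280879185))⟩] .nil .nil .nil .nil .nil .nil) (.node [⟨.x, .w, (K (.negSucc 1023388153464293))⟩] .nil .nil .nil .nil .nil .nil) .nil .nil .nil .nil) (.node [⟨.x, .w, (B (K (.ofNat 1487457298172448)) (K (.ofNat 775839297004056)) N N)⟩,
  ⟨.x, T1, (K (.ofNat 244625328938862))⟩,
  ⟨.x, T5, (K (.negSucc 797417777345345))⟩] (.node [⟨.x, .w, (K (.ofNat 815474092350582))⟩] .nil .nil .nil .nil .nil .nil) (.node [⟨.x, .w, (K (.negSucc 757650477353291))⟩] .nil .nil .nil .nil .nil .nil) .nil .nil .nil .nil) (.node [⟨.x, .z, (B (K (.negSucc 888402287380553)) (K (.negSucc 1070999186085359)) N N)⟩,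
  ⟨.x, T0, (K (.negSucc 1235759056930511))⟩,
  ⟨.x, T2, (K (.negSucc 102055868736587))⟩] (.node [⟨.x, .z, (K (.negSucc 118628752602491))⟩] .nil .nil .nil .nil .nil .nil) (.node [⟨.x, .z, (K (.ofNat 827067265277994))⟩] .nil .nil .nil .nil .nil .nil) .nil .nil .nil .nil) (.node [⟨.x, .z, (B (K (.ofNat 544981767377616)) (K (.ofNat 889942778318322)) N N)⟩,
  ⟨.x, T0, (K (.negSucc 329270872408055))⟩,
  ⟨.x, T2, (K (.negSucc 1472315645632517))⟩] (.node [⟨.x, .z, (K (.negSucc 1096279183557665))⟩] .nil .nil .nil .nil .nil .nil) (.node [⟨.x, .z, (K (.negSucc 430481674018637))⟩] .nil .nil .nil .nil .nil .nil) .nil .nil .nil .nil))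

def c_301 : Cert := (.node [⟨.x, .z, (C (A4 (K (.negSucc 21017699877077))) (C N N N N (K (.negSucc 1717564943108321)) (K (.negSucc 2152746751036517))) N N (B (K (.ofNat 620452335116178)) (K (.ofNat 1550110471822620)) N N) (B (K (.ofNat 633743896797738)) (K (.negSucc 1876832927102483)) N N))⟩,
  ⟨.x, .w, (B (A2 (K (.ofNat 1827126423425664))) (B N N (K (.ofNat 2177143232777370)) (K (.ofNat 348621766901766))) (B (K (.negSucc 945870479258273)) (K (.ofNat 532458720644526)) N N) (B (K (.ofNat 202701453818310)) (K (.negSucc 743177039936615)) N N))⟩,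
  ⟨.z, .w, (B (B (K (.negSucc 894365330388617)) (K (.negSucc 3296773357478219)) N N) (B (K (.negSucc 3258249787201607)) (K (.negSucc 301568043943115)) N N) N N)⟩,
  ⟨.x, T0, (C N N N N (K (.ofNat 341753623601058)) (K (.negSucc 1308339694319237)))⟩,
  ⟨.x, T1, (B N N (K (.ofNat 290130820041168)) (K (.negSucc 308038786192079)))⟩,
  ⟨.x, T2, (C N N N N (K (.ofNat 591507550241064)) (K (.ofNat 6476240475072)))⟩,
  ⟨.x, T4, (B (K (.negSucc 136561148729747)) (K (.negSucc 93582080767601)) N N)⟩,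
  ⟨.x, T5, (B N N (K (.negSucc 1978346933672291)) (K (.ofNat 43673207556672)))⟩,
  ⟨.x, T6, (B (K (.ofNat 108321647381622)) (K (.ofNat 1931730181927830)) N N)⟩,
  ⟨.z, T1, (A0 (K (.ofNat 824461766281494)))⟩,
  ⟨.z, T5, (A0 (K (.ofNat 728725527784458)))⟩,
  ⟨.x, T12, (K (.negSucc 357707590703243))⟩,
  ⟨.x, T19, (K (.ofNat 199636312095846))⟩,
  ⟨.x, T21, (K (.negSucc 2635434775421))⟩,
  ⟨.x, T24, (K (.negSucc 233468221813631))⟩,
  ⟨.x, T27, (K (.ofNat 16822190218608))⟩,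
  ⟨.x, T30, (K (.negSucc 172067310834191))⟩,
  ⟨.z, T16, (K (.ofNat 260609347518318))⟩,
  ⟨.z, T20, (K (.ofNat 14387069024136))⟩] (.node [⟨.x, .z, (C N N N N (K (.ofNat 172875670242102)) (K (.ofNat 1616934484188828)))⟩,
  ⟨.x, .w, (B N N (K (.ofNat 329506471303398)) (K (.negSucc 244040967429209)))⟩,
  ⟨.z, .w, (B (K (.negSucc 1054979968723451)) (K (.ofNat 355981148551728)) N N)⟩,
  ⟨.x, T4, (K (.negSucc 897126927195617))⟩,
  ⟨.x, T6, (K (.negSucc 927769564613771))⟩,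
  ⟨.z, T1, (K (.ofNat 303231684657636))⟩,
  ⟨.z, T5, (K (.ofNat 1345870592800038))⟩] (.node [⟨.z, .w, (K (.ofNat 55158593609592))⟩] .nil .nil .nil .nil .nil .nil) (.node [⟨.z, .w, (K (.negSucc 16863616015415))⟩] .nil .nil .nil .nil .nil .nil) (.node [⟨.x, .w, (K (.negSucc 1176586999422731))⟩] .nil .nil .nil .nil .nil .nil) (.node [⟨.x, .w, (K (.negSucc 1514506794009893))⟩] .nil .nil .nil .nil .nil .nil) (.node [⟨.x, .z, (K (.ofNat 1179556350049368))⟩] .nil .nil .nil .nil .nil .nil) (.node [⟨.x, .z, (K (.ofNat 570147523834212))⟩] .nil .nil .nil .nil .nil .nil)) (.node [⟨.x, .z, (C N N N N (K (.negSucc 343695679463579)) (K (.ofNat 1464591788444724)))⟩,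
  ⟨.x, .w, (B N N (K (.ofNat 952801320893700)) (K (.ofNat 792725289857376)))⟩,
  ⟨.z, .w, (B (K (.ofNat 737293771618620)) (K (.negSucc 1326147515002103)) N N)⟩,
  ⟨.x, T4, (K (.ofNat 191425740291924))⟩,
  ⟨.x, T6, (K (.negSucc 777554017941155))⟩,
  ⟨.z, T1, (K (.negSucc 214473844883795))⟩,
  ⟨.z, T5, (K (.negSucc 795820089401561))⟩] (.node [⟨.z, .w, (K (.negSucc 1612008320591531))⟩] .nil .nil .nil .nil .nil .nil) (.node [⟨.z, .w, (K (.negSucc 358628744429483))⟩] .nil .nil .nil .nil .nil .nil) (.node [⟨.x, .w, (K (.ofNat 2263117743989706))⟩] .nil .nil .nil .nil .nil .nil) (.node [⟨.x, .w, (K (.ofNat 105771365454642))⟩] .nil .nil .nil .nil .nil .nil) (.node [⟨.x, .z, (K (.negSucc 1226526999634487))⟩] .nil .nil .nil .nil .nil .nil) (.node [⟨.x, .z, (K (.negSucc 196928930511779))⟩] .nil .nil .nil .nil .nil .nil)) (.node [⟨.x, .w, (B (K (.ofNat 2235143913408018)) (K (.negSucc 626630887935539)) N N)⟩,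
  ⟨.x, T1, (K (.negSucc 218971972922345))⟩,
  ⟨.x, T5, (K (.negSucc 1011849146198459))⟩] (.node [⟨.x, .w, (K (.ofNat 1896559129989252))⟩] .nil .nil .nil .nil .nil .nil) (.node [⟨.x, .w, (K (.ofNat 2142772920143334))⟩] .nil .nil .nil .nil .nil .nil) .nil .nil .nil .nil) (.node [⟨.x, .w, (B (K (.negSucc 2603946827388455)) (K (.negSucc 244127217000923)) N N)⟩,
  ⟨.x, T1, (K (.negSucc 42569179752833))⟩,
  ⟨.x, T5, (K (.ofNat 2141850350040822))⟩] (.node [⟨.x, .w, (K (.negSucc 1278145892195189))⟩] .nil .nil .nil .nil .nil .nil) (.node [⟨.x, .w, (K (.ofNat 36724220292816))⟩] .nil .nil .nil .nil .nil .nil) .nil .nil .nil .nil) (.node [⟨.x, .z, (B (K (.negSucc 1762552878728471)) (K (.ofNat 1978442893538532)) N N)⟩,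
  ⟨.x, T0, (K (.ofNat 1865035288408554))⟩,
  ⟨.x, T2, (K (.ofNat 732262245937398))⟩] (.node [⟨.x, .z, (K (.ofNat 1013566764415572))⟩] .nil .nil .nil .nil .nil .nil) (.node [⟨.x, .z, (K (.ofNat 560682373911552))⟩] .nil .nil .nil .nil .nil .nil) .nil .nil .nil .nil) (.node [⟨.x, .z, (B (K (.ofNat 750693495156048)) (K (.ofNat 246161394315558)) N N)⟩,
  ⟨.x, T0, (K (.negSucc 48499595891963))⟩,
  ⟨.x, T2, (K (.negSucc 572010776919269))⟩] (.node [⟨.x, .z, (K (.negSucc 247005962037575))⟩] .nil .nil .nil .nil .nil .nil) (.node [⟨.x, .z, (K (.ofNat 17359616597832))⟩] .nil .nil .nil .nil .nil .nil) .nil .nil .nil .nil))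

def c_30 : Cert := (.node [⟨.x, .z, (C (C (A4 (K (.ofNat 186271240827060))) N N N (B (K (.negSucc 824966121721445)) (K (.ofNat 699452408092518)) N N) N) (C (A4 (K (.ofNat 692538380481510))) (C N N N N (K (.negSucc 109085550518573)) (K (.negSucc 40466999039921))) N N (B (K (.negSucc 1691055104065667)) (K (.ofNat 1119846767920002)) N N) (B (K (.negSucc 1739453397167573)) (K (.ofNat 1622684906191980)) N N)) N N (B (B (K (.negSucc 389588011210811)) (K (.ofNat 283611793769592)) N N) (B (K (.ofNat 1111722578660052)) (K (.negSucc 1037250666587249)) N N) N N) (B (B (K (.negSucc 1416101193683357)) (K (.negSucc 10265958148487)) N N) (B (K (.negSucc 1225551784912865)) (K (.ofNat 820798047534366)) N N) N N))⟩,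
  ⟨.x, .w, (B (B (A2 (K (.ofNat 597961545025482))) N (B (K (.ofNat 983558615539734)) (K (.negSucc 1746260990091017)) N N) N) (B (A2 (K (.ofNat 575813166642036))) (B N N (K (.negSucc 2238656984189)) (K (.ofNat 278667372327552))) (B (K (.ofNat 2168667095804172)) (K (.negSucc 1291690603768175)) N N) (B (K (.ofNat 1393733973911256)) (K (.negSucc 589232284385651)) N N)) (B (B (K (.negSucc 596132134156775)) (K (.ofNat 1145769012829536)) N N) (B (K (.ofNat 1455206098063140)) (K (.negSucc 204909775522955)) N N) N N) (B (B (K (.negSucc 1459402502206001)) (K (.negSucc 452538902268527)) N N) (B (K (.negSucc 1089644630995277)) (K (.ofNat 168366945903264)) N N) N N))⟩,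
  ⟨.z, .w, (B (B (B (K (.negSucc 1473954163571909)) (K (.ofNat 202074517715526)) N N) (B (K (.negSucc 2164213923265811)) (K (.ofNat 808129147383714)) N N) N N) (B (B (K (.negSucc 1812812418290603)) (K (.ofNat 517637774432598)) N N) (B (K (.negSucc 506090951369999)) (K (.ofNat 752846036471028)) N N) N N) N N)⟩,
  ⟨.x, T0, (C (A4 (K (.ofNat 296136624800970))) (C N N N N (K (.ofNat 762104097806580)) (K (.ofNat 537152846106240))) N N (B (K (.negSucc 111177559031615)) (K (.negSucc 725533632795851)) N N) (B (K (.negSucc 1059264870689501)) (K (.ofNat 1847780685268182)) N N))⟩,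
  ⟨.x, T1, (B (A2 (K (.negSucc 246970091233835))) (B N N (K (.negSucc 455921464595507)) (K (.negSucc 97182370619369))) (B (K (.negSucc 427688252511659)) (K (.negSucc 447643433789045)) N N) (B (K (.negSucc 1007260797441743)) (K (.ofNat 151427960014860)) N N))⟩,
  ⟨.x, T2, (C (A4 (K (.negSucc 242695307045069))) (C N N N N (K (.negSucc 349036489191851)) (K (.negSucc 673350818606927))) N N (B (K (.ofNat 1136572194214314)) (K (.negSucc 42411007546361)) N N) (B (K (.ofNat 2667476908080)) (K (.negSucc 4490289268703)) N N))⟩,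
  ⟨.x, T4, (B (B (K (.ofNat 797560013075124)) (K (.ofNat 1696101996748980)) N N) (B (K (.ofNat 1301190995286720)) (K (.ofNat 472055045406858)) N N) N N)⟩,
  ⟨.x, T5, (B (A2 (K (.negSucc 528821522432477))) (B N N (K (.negSucc 526057705105451)) (K (.negSucc 537212282610437))) (B (K (.negSucc 826699433369381)) (K (.ofNat 1450240998179436)) N N) (B (K (.negSucc 26373910657733)) (K (.ofNat 228532331693376)) N N))⟩,
  ⟨.x, T6, (B (B (K (.ofNat 1413664551044430)) (K (.negSucc 210145526619293)) N N) (B (K (.ofNat 1289279641044726)) (K (.negSucc 462512908526345)) N N) N N)⟩,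
  ⟨.z, T1, (A0 (B (K (.negSucc 537191881685651)) (K (.negSucc 18688251778949)) N N))⟩,
  ⟨.z, T5, (A0 (B (K (.ofNat 609250484472024)) (K (.negSucc 1016528938498373)) N N))⟩,
  ⟨.x, T9, (C N N N N (K (.ofNat 118812100614750)) (K (.ofNat 35738855721810)))⟩,
  ⟨.x, T10, (A3 (K (.negSucc 86569028453699)))⟩,
  ⟨.x, T12, (A1 (K (.negSucc 616405806487763)))⟩,
  ⟨.x, T15, (C N N N N (K (.negSucc 311061719254067)) (K (.negSucc 584134960491503)))⟩,
  ⟨.x, T16, (B N N (K (.negSucc 331914784751657)) (K (.negSucc 125796349891007)))⟩,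
  ⟨.x, T17, (C N N N N (K (.ofNat 177315011481618)) (K (.ofNat 676917047610288)))⟩,
  ⟨.x, T19, (B (K (.ofNat 302761707360750)) (K (.ofNat 853976229545880)) N N)⟩,
  ⟨.x, T20, (B N N (K (.negSucc 210531972550823)) (K (.negSucc 308665763499437)))⟩,
  ⟨.x, T21, (A0 (K (.ofNat 275481679219866)))⟩,
  ⟨.x, T22, (A5 (K (.ofNat 1520305513632)))⟩,
  ⟨.x, T24, (B (K (.negSucc 150110458517897)) (K (.ofNat 74637788375178)) N N)⟩,
  ⟨.x, T27, (B (K (.negSucc 41709186355733)) (K (.ofNat 338870869641036)) N N)⟩,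
  ⟨.x, T29, (A3 (K (.negSucc 12127317998111)))⟩,
  ⟨.x, T30, (A1 (K (.negSucc 472529118052583)))⟩,
  ⟨.z, T16, (A0 (K (.ofNat 185479155551610)))⟩,
  ⟨.z, T20, (A0 (K (.ofNat 204707467605654)))⟩,
  ⟨.x, T35, (K (.ofNat 100064803790106))⟩,
  ⟨.x, T41, (K (.ofNat 101787985162476))⟩,
  ⟨.x, T43, (K (.ofNat 350140769413812))⟩,
  ⟨.x, T46, (K (.negSucc 41488363930121))⟩,
  ⟨.x, T49, (K (.negSucc 122211371309579))⟩,
  ⟨.x, T52, (K (.ofNat 216253093759974))⟩,
  ⟨.x, T55, (K (.ofNat 236318979506850))⟩,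
  ⟨.x, T58, (K (.negSucc 63587278676447))⟩,
  ⟨.x, T60, (K (.negSucc 217838578608647))⟩,
  ⟨.x, T61, (K (.ofNat 15206838176304))⟩,
  ⟨.x, T63, (K (.negSucc 175473356560865))⟩,
  ⟨.x, T65, (K (.ofNat 104809959056718))⟩,
  ⟨.z, T38, (K (.negSucc 17203257238121))⟩,
  ⟨.z, T42, (K (.negSucc 15584677387631))⟩] c_300 c_301 (.node [⟨.x, .w, (B (B (K (.ofNat 2962278696084)) (K (.ofNat 1356417433103028)) N N) (B (K (.negSucc 214634116952909)) (K (.ofNat 618295160494026)) N N) N N)⟩,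
  ⟨.x, T1, (B (K (.ofNat 725005180051866)) (K (.negSucc 323908514756783)) N N)⟩,
  ⟨.x, T5, (B (K (.negSucc 652864202495837)) (K (.negSucc 388176326029007)) N N)⟩,
  ⟨.x, T10, (K (.ofNat 152745009915258))⟩,
  ⟨.x, T16, (K (.negSucc 150997254603767))⟩,
  ⟨.x, T20, (K (.negSucc 514780696808207))⟩,
  ⟨.x, T29, (K (.negSucc 36753140055905))⟩] (.node [⟨.x, .w, (B (K (.ofNat 650777328913086)) (K (.negSucc 96476064815249)) N N)⟩,
  ⟨.x, T1, (K (.ofNat 118078743442104))⟩,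
  ⟨.x, T5, (K (.ofNat 2086873582752))⟩] (.node [⟨.x, .w, (K (.ofNat 34666266473154))⟩] .nil .nil .nil .nil .nil .nil) (.node [⟨.x, .w, (K (.negSucc 134057475579581))⟩] .nil .nil .nil .nil .nil .nil) .nil .nil .nil .nil) (.node [⟨.x, .w, (B (K (.ofNat 1565595186334614)) (K (.negSucc 294637766738777)) N N)⟩,
  ⟨.x, T1, (K (.negSucc 321381833591591))⟩,
  ⟨.x, T5, (K (.negSucc 460597156612091))⟩] (.node [⟨.x, .w, (K (.ofNat 1063521402176304))⟩] .nil .nil .nil .nil .nil .nil) (.node [⟨.x, .w, (K (.ofNat 1065150847613952))⟩] .nil .nil .nil .nil .nil .nil) .nil .nil .nil .nil) .nil .nil .nil .nil) (.node [⟨.x, .w, (B (B (K (.negSucc 294548717710967)) (K (.ofNat 2572786130159604)) N N) (B (K (.ofNat 162739488762342)) (K (.ofNat 1477490943173004)) N N) N N)⟩,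
  ⟨.x, T1, (B (K (.negSucc 259989652429883)) (K (.negSucc 32806796597261)) N N)⟩,
  ⟨.x, T5, (B (K (.ofNat 972177265365174)) (K (.negSucc 1601707365850121)) N N)⟩,
  ⟨.x, T10, (K (.ofNat 139782417951870))⟩,
  ⟨.x, T16, (K (.ofNat 92007386983080))⟩,
  ⟨.x, T20, (K (.ofNat 27095803367940))⟩,
  ⟨.x, T29, (K (.negSucc 52081933095521))⟩] (.node [⟨.x, .w, (B (K (.negSucc 1643697422302067)) (K (.ofNat 721919294688762)) N N)⟩,
  ⟨.x, T1, (K (.ofNat 379649560536522))⟩,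
  ⟨.x, T5, (K (.ofNat 672667810053120))⟩] (.node [⟨.x, .w, (K (.negSucc 594853045132013))⟩] .nil .nil .nil .nil .nil .nil) (.node [⟨.x, .w, (K (.negSucc 643931908380881))⟩] .nil .nil .nil .nil .nil .nil) .nil .nil .nil .nil) (.node [⟨.x, .w, (B (K (.ofNat 515110265886510)) (K (.ofNat 313662968268480)) N N)⟩,
  ⟨.x, T1, (K (.ofNat 64149137347896))⟩,
  ⟨.x, T5, (K (.negSucc 484798791053501))⟩] (.node [⟨.x, .w, (K (.ofNat 571222112188446))⟩] .nil .nil .nil .nil .nil .nil) (.node [⟨.x, .w, (K (.negSucc 8725896156833))⟩] .nil .nil .nil .nil .nil .nil) .nil .nil .nil .nil) .nil .nil .nil .nil) (.node [⟨.x, .z, (B (B (K (.ofNat 175581611631444)) (K (.negSucc 1530814282460303)) N N) (B (K (.ofNat 743947922294910)) (K (.negSucc 1815321101246981)) N N) N N)⟩,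
  ⟨.x, T0, (B (K (.ofNat 1322351988173622)) (K (.negSucc 2071496943739745)) N N)⟩,
  ⟨.x, T2, (B (K (.ofNat 625525296715854)) (K (.ofNat 311684726130354)) N N)⟩,
  ⟨.x, T9, (K (.ofNat 195110799151176))⟩,
  ⟨.x, T15, (K (.ofNat 199480537043730))⟩,
  ⟨.x, T17, (K (.negSucc 395119492778339))⟩,
  ⟨.x, T22, (K (.ofNat 110853631990980))⟩] (.node [⟨.x, .z, (B (K (.ofNat 624158176962366)) (K (.ofNat 120895544931750)) N N)⟩,
  ⟨.x, T0, (K (.ofNat 318411015028524))⟩,
  ⟨.x, T2, (K (.negSucc 12324684075551))⟩] (.node [⟨.x, .z, (K (.negSucc 123218949336803))⟩] .nil .nil .nil .nil .nil .nil) (.node [⟨.x, .z, (K (.negSucc 9404719833617))⟩] .nil .nil .nil .nil .nil .nil) .nil .nil .nil .nil) (.node [⟨.x, .z, (B (K (.ofNat 1416111462827316)) (K (.negSucc 222628690657709)) N N)⟩,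
  ⟨.x, T0, (K (.negSucc 155578253790167))⟩,
  ⟨.x, T2, (K (.negSucc 112019493864329))⟩] (.node [⟨.x, .z, (K (.negSucc 531967584210029))⟩] .nil .nil .nil .nil .nil .nil) (.node [⟨.x, .z, (K (.negSucc 528816623084189))⟩] .nil .nil .nil .nil .nil .nil) .nil .nil .nil .nil) .nil .nil .nil .nil) (.node [⟨.x, .z, (B (B (K (.ofNat 164777564812272)) (K (.negSucc 2076168649391129)) N N) (B (K (.negSucc 551984441356655)) (K (.negSucc 459190680355637)) N N) N N)⟩,
  ⟨.x, T0, (B (K (.negSucc 686199815917289)) (K (.negSucc 156539637966833)) N N)⟩,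
  ⟨.x, T2, (B (K (.negSucc 1063114797657131)) (K (.ofNat 312070543121430)) N N)⟩,
  ⟨.x, T9, (K (.negSucc 259790377964651))⟩,
  ⟨.x, T15, (K (.ofNat 43147057725756))⟩,
  ⟨.x, T17, (K (.negSucc 280815032716865))⟩,
  ⟨.x, T22, (K (.negSucc 88585875039959))⟩] (.node [⟨.x, .z, (B (K (.negSucc 1619931366116135)) (K (.negSucc 539425192308119)) N N)⟩,
  ⟨.x, T0, (K (.negSucc 349671574435085))⟩,
  ⟨.x, T2, (K (.ofNat 519471212716566))⟩] (.node [⟨.x, .z, (K (.ofNat 620428439589390))⟩] .nil .nil .nil .nil .nil .nil) (.node [⟨.x, .z, (K (.ofNat 340911358324920))⟩] .nil .nil .nil .nil .nil .nil) .nil .nil .nil .nil) (.node [⟨.x, .z, (B (K (.negSucc 81436289093765)) (K (.ofNat 238032233625276)) N N)⟩,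
  ⟨.x, T0, (K (.negSucc 196298534132855))⟩,
  ⟨.x, T2, (K (.negSucc 204852466210481))⟩] (.node [⟨.x, .z, (K (.negSucc 298315345876919))⟩] .nil .nil .nil .nil .nil .nil) (.node [⟨.x, .z, (K (.negSucc 187777106730647))⟩] .nil .nil .nil .nil .nil .nil) .nil .nil .nil .nil) .nil .nil .nil .nil))

def c_310 : Cert := (.node [⟨.x, .z, (C (A4 (K (.ofNat 18455707425024))) (C N N N N (K (.ofNat 49150053970200)) (K (.negSucc 19435938611543))) N N (B (K (.negSucc 22289383659539)) (K (.negSucc 841678574111)) N N) (B (K (.ofNat 78319915424868)) (K (.ofNat 38185976069064)) N N))⟩,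
  ⟨.x, .w, (B (A2 (K (.ofNat 12952198561464))) (B N N (K (.negSucc 27605042105615)) (K (.negSucc 26025484603967))) (B (K (.negSucc 41802250743443)) (K (.ofNat 18284059445688)) N N) (B (K (.ofNat 37470570716064)) (K (.ofNat 24851094458832)) N N))⟩,
  ⟨.z, .w, (B (B (K (.ofNat 13806489461784)) (K (.ofNat 11912629728384)) N N) (B (K (.ofNat 13930813095756)) (K (.negSucc 32820604034183)) N N) N N)⟩,
  ⟨.x, T0, (C N N N N (K (.ofNat 34343551822104)) (K (.ofNat 4156729412616)))⟩,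
  ⟨.x, T1, (B N N (K (.ofNat 63947842733664)) (K (.ofNat 29177951097456)))⟩,
  ⟨.x, T2, (C N N N N (K (.negSucc 13310049294575)) (K (.ofNat 2298608006544)))⟩,
  ⟨.x, T4, (B (K (.negSucc 23007953732315)) (K (.ofNat 32244966758160)) N N)⟩,
  ⟨.x, T5, (B N N (K (.negSucc 26751555598103)) (K (.ofNat 33181348451544)))⟩,
  ⟨.x, T6, (B (K (.negSucc 22850498322371)) (K (.negSucc 50450898825431)) N N)⟩,
  ⟨.z, T1, (A0 (K (.ofNat 13244809592832)))⟩,
  ⟨.z, T5, (A0 (K (.ofNat 70137159888396)))⟩,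
  ⟨.x, T12, (K (.negSucc 28820242523231))⟩,
  ⟨.x, T19, (K (.negSucc 27960055555319))⟩,
  ⟨.x, T21, (K (.negSucc 80375995445615))⟩,
  ⟨.x, T24, (K (.ofNat 28503890502624))⟩,
  ⟨.x, T27, (K (.ofNat 38041324658280))⟩,
  ⟨.x, T30, (K (.negSucc 38352506218703))⟩,
  ⟨.z, T16, (K (.ofNat 11610488849760))⟩,
  ⟨.z, T20, (K (.ofNat 6975826570152))⟩] (.node [⟨.x, .z, (C N N N N (K (.ofNat 25561128249528)) (K (.ofNat 11295711188760)))⟩,
  ⟨.x, .w, (B N N (K (.ofNat 35006836928784)) (K (.negSucc 4230312152423)))⟩,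
  ⟨.z, .w, (B (K (.negSucc 29943904661507)) (K (.negSucc 93448245514151)) N N)⟩,
  ⟨.x, T4, (K (.negSucc 71950501717151))⟩,
  ⟨.x, T6, (K (.negSucc 3864365853959))⟩,
  ⟨.z, T1, (K (.negSucc 21679053892247))⟩,
  ⟨.z, T5, (K (.ofNat 22324987227144))⟩] (.node [⟨.z, .w, (K (.ofNat 56333527795992))⟩] .nil .nil .nil .nil .nil .nil) (.node [⟨.z, .w, (K (.ofNat 103939208360376))⟩] .nil .nil .nil .nil .nil .nil) (.node [⟨.x, .w, (K (.negSucc 30291728012183))⟩] .nil .nil .nil .nil .nil .nil) (.node [⟨.x, .w, (K (.negSucc 89048657153255))⟩] .nil .nil .nil .nil .nil .nil) (.node [⟨.x, .z, (K (.ofNat 80609078120520))⟩] .nil .nil .nil .nil .nil .nil) (.node [⟨.x, .z, (K (.ofNat 40926172262568))⟩] .nil .nil .nil .nil .nil .nil)) (.node [⟨.x, .z, (C N N N N (K (.ofNat 66987051119040)) (K (.negSucc 3210395751263)))⟩,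
  ⟨.x, .w, (B N N (K (.ofNat 39434124368208)) (K (.negSucc 39092872075247)))⟩,
  ⟨.z, .w, (B (K (.negSucc 41822403501191)) (K (.negSucc 20804404572959)) N N)⟩,
  ⟨.x, T4, (K (.negSucc 80100862038479))⟩,
  ⟨.x, T6, (K (.negSucc 38559837605279))⟩,
  ⟨.z, T1, (K (.ofNat 12849803507424))⟩,
  ⟨.z, T5, (K (.ofNat 34426809418128))⟩] (.node [⟨.z, .w, (K (.ofNat 173745356125992))⟩] .nil .nil .nil .nil .nil .nil) (.node [⟨.z, .w, (K (.ofNat 162652394040168))⟩] .nil .nil .nil .nil .nil .nil) (.node [⟨.x, .w, (K (.negSucc 124433611818359))⟩] .nil .nil .nil .nil .nil .nil) (.node [⟨.x, .w, (K (.negSucc 110795419595855))⟩] .nil .nil .nil .nil .nil .nil) (.node [⟨.x, .z, (K (.ofNat 148292379713040))⟩] .nil .nil .nil .nil .nil .nil) (.node [⟨.x, .z, (K (.ofNat 40192445861544))⟩] .nil .nil .nil .nil .nil .nil)) (.node [⟨.x, .w, (B (K (.negSucc 57292955828219)) (K (.negSucc 4869554513615)) N N)⟩,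
  ⟨.x, T1, (K (.ofNat 77889140424216))⟩,
  ⟨.x, T5, (K (.ofNat 20356290977040))⟩] (.node [⟨.x, .w, (K (.negSucc 22355383249727))⟩] .nil .nil .nil .nil .nil .nil) (.node [⟨.x, .w, (K (.negSucc 43186923068543))⟩] .nil .nil .nil .nil .nil .nil) .nil .nil .nil .nil) (.node [⟨.x, .w, (B (K (.negSucc 9269476515527)) (K (.ofNat 95516595114624)) N N)⟩,
  ⟨.x, T1, (K (.ofNat 40359471088608))⟩,
  ⟨.x, T5, (K (.ofNat 17265705916536))⟩] (.node [⟨.x, .w, (K (.negSucc 21354320698415))⟩] .nil .nil .nil .nil .nil .nil) (.node [⟨.x, .w, (K (.negSucc 9863527620167))⟩] .nil .nil .nil .nil .nil .nil) .nil .nil .nil .nil) (.node [⟨.x, .z, (B (K (.ofNat 100044063271884)) (K (.ofNat 44498525591304)) N N)⟩,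
  ⟨.x, T0, (K (.ofNat 76642549594416))⟩,
  ⟨.x, T2, (K (.negSucc 62499584169647))⟩] (.node [⟨.x, .z, (K (.negSucc 60641146560095))⟩] .nil .nil .nil .nil .nil .nil) (.node [⟨.x, .z, (K (.negSucc 73640940504479))⟩] .nil .nil .nil .nil .nil .nil) .nil .nil .nil .nil) (.node [⟨.x, .z, (B (K (.negSucc 65251284940379)) (K (.negSucc 104160946048199)) N N)⟩,
  ⟨.x, T0, (K (.ofNat 26214666311088))⟩,
  ⟨.x, T2, (K (.ofNat 6262042362624))⟩] (.node [⟨.x, .z, (K (.ofNat 36949258140120))⟩] .nil .nil .nil .nil .nil .nil) (.node [⟨.x, .z, (K (.negSucc 18130854275135))⟩] .nil .nil .nil .nil .nil .nil) .nil .nil .nil .nil))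

def c_311 : Cert := (.node [⟨.x, .z, (C (A4 (K (.ofNat 155747193665328))) (C N N N N (K (.ofNat 353875060966824)) (K (.ofNat 194421799456200))) N N (B (K (.negSucc 10653715370759)) (K (.negSucc 212717539220183)) N N) (B (K (.ofNat 159506278861308)) (K (.ofNat 177840791457408)) N N))⟩,
  ⟨.x, .w, (B (A2 (K (.negSucc 206527191193367))) (B N N (K (.negSucc 354870556144775)) (K (.negSucc 127974226029407))) (B (K (.ofNat 55780989393684)) (K (.negSucc 177384007487087)) N N) (B (K (.ofNat 181351964576796)) (K (.ofNat 133932251230200)) N N))⟩,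
  ⟨.z, .w, (B (B (K (.ofNat 189057409240476)) (K (.ofNat 299661094376208)) N N) (B (K (.ofNat 151790316851748)) (K (.ofNat 42113534404896)) N N) N N)⟩,
  ⟨.x, T0, (C N N N N (K (.ofNat 47687541356664)) (K (.ofNat 181933572201336)))⟩,
  ⟨.x, T1, (B N N (K (.ofNat 47831363976024)) (K (.ofNat 116747396273952)))⟩,
  ⟨.x, T2, (C N N N N (K (.negSucc 150479639579231)) (K (.ofNat 2412896231808)))⟩,
  ⟨.x, T4, (B (K (.ofNat 13035636913416)) (K (.negSucc 39810226892687)) N N)⟩,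
  ⟨.x, T5, (B N N (K (.ofNat 198701858841048)) (K (.ofNat 50605179347232)))⟩,
  ⟨.x, T6, (B (K (.negSucc 146068688943131)) (K (.negSucc 169663693392935)) N N)⟩,
  ⟨.z, T1, (A0 (K (.ofNat 36738430531968)))⟩,
  ⟨.z, T5, (A0 (K (.negSucc 107523806526299)))⟩,
  ⟨.x, T12, (K (.negSucc 43346279845151))⟩,
  ⟨.x, T19, (K (.ofNat 3515890495680))⟩,
  ⟨.x, T21, (K (.negSucc 53954236192391))⟩,
  ⟨.x, T24, (K (.ofNat 42091291831464))⟩,
  ⟨.x, T27, (K (.ofNat 54650203725888))⟩,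
  ⟨.x, T30, (K (.negSucc 44081438286383))⟩,
  ⟨.z, T16, (K (.negSucc 5486393490479))⟩,
  ⟨.z, T20, (K (.negSucc 4105641430295))⟩] (.node [⟨.x, .z, (C N N N N (K (.negSucc 69057401529647)) (K (.negSucc 93829058861423)))⟩,
  ⟨.x, .w, (B N N (K (.negSucc 39780765874775)) (K (.ofNat 13328066521848)))⟩,
  ⟨.z, .w, (B (K (.negSucc 43254708229259)) (K (.negSucc 97187021155847)) N N)⟩,
  ⟨.x, T4, (K (.negSucc 2921819916335))⟩,
  ⟨.x, T6, (K (.ofNat 54061484222256))⟩,
  ⟨.z, T1, (K (.negSucc 7514224180391))⟩,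
  ⟨.z, T5, (K (.negSucc 87126447954407))⟩] (.node [⟨.z, .w, (K (.ofNat 29171575632864))⟩] .nil .nil .nil .nil .nil .nil) (.node [⟨.z, .w, (K (.ofNat 109394096051904))⟩] .nil .nil .nil .nil .nil .nil) (.node [⟨.x, .w, (K (.ofNat 62271668192352))⟩] .nil .nil .nil .nil .nil .nil) (.node [⟨.x, .w, (K (.ofNat 31012524394320))⟩] .nil .nil .nil .nil .nil .nil) (.node [⟨.x, .z, (K (.ofNat 1387728414696))⟩] .nil .nil .nil .nil .nil .nil) (.node [⟨.x, .z, (K (.negSucc 50183381859887))⟩] .nil .nil .nil .nil .nil .nil)) (.node [⟨.x, .z, (C N N N N (K (.ofNat 45366754989720)) (K (.negSucc 118074618547607)))⟩,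
  ⟨.x, .w, (B N N (K (.negSucc 78376747466183)) (K (.negSucc 155303814969479)))⟩,
  ⟨.z, .w, (B (K (.negSucc 105655064809319)) (K (.ofNat 101909538705360)) N N)⟩,
  ⟨.x, T4, (K (.negSucc 84315227287871))⟩,
  ⟨.x, T6, (K (.ofNat 78663015378264))⟩,
  ⟨.z, T1, (K (.negSucc 5365964987951))⟩,
  ⟨.z, T5, (K (.ofNat 108928440203496))⟩] (.node [⟨.z, .w, (K (.ofNat 222707953085496))⟩] .nil .nil .nil .nil .nil .nil) (.node [⟨.z, .w, (K (.ofNat 86851454864160))⟩] .nil .nil .nil .nil .nil .nil) (.node [⟨.x, .w, (K (.negSucc 368008277354663))⟩] .nil .nil .nil .nil .nil .nil) (.node [⟨.x, .w, (K (.negSucc 85619701026839))⟩] .nil .nil .nil .nil .nil .nil) (.node [⟨.x, .z, (K (.ofNat 364741014500088))⟩] .nil .nil .nil .nil .nil .nil) (.node [⟨.x, .z, (K (.ofNat 23085108953904))⟩] .nil .nil .nil .nil .nil .nil)) (.node [⟨.x, .w, (B (K (.ofNat 2900142872004)) (K (.ofNat 113575661963568)) N N)⟩,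
  ⟨.x, T1, (K (.negSucc 13610136476519))⟩,
  ⟨.x, T5, (K (.ofNat 96292988101440))⟩] (.node [⟨.x, .w, (K (.negSucc 138276553040639))⟩] .nil .nil .nil .nil .nil .nil) (.node [⟨.x, .w, (K (.negSucc 220095399545423))⟩] .nil .nil .nil .nil .nil .nil) .nil .nil .nil .nil) (.node [⟨.x, .w, (B (K (.ofNat 198526188294744)) (K (.ofNat 93767897009088)) N N)⟩,
  ⟨.x, T1, (K (.ofNat 47320143890616))⟩,
  ⟨.x, T5, (K (.negSucc 176951876298119))⟩] (.node [⟨.x, .w, (K (.ofNat 136633967710560))⟩] .nil .nil .nil .nil .nil .nil) (.node [⟨.x, .w, (K (.negSucc 37273814598599))⟩] .nil .nil .nil .nil .nil .nil) .nil .nil .nil .nil) (.node [⟨.x, .z, (B (K (.ofNat 730256665992)) (K (.negSucc 169826131936007)) N N)⟩,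
  ⟨.x, T0, (K (.negSucc 130187471571575))⟩,
  ⟨.x, T2, (K (.negSucc 118816557733799))⟩] (.node [⟨.x, .z, (K (.negSucc 118086987314951))⟩] .nil .nil .nil .nil .nil .nil) (.node [⟨.x, .z, (K (.negSucc 232214607879479))⟩] .nil .nil .nil .nil .nil .nil) .nil .nil .nil .nil) (.node [⟨.x, .z, (B (K (.negSucc 110732640090647)) (K (.negSucc 25636880474207)) N N)⟩,
  ⟨.x, T0, (K (.ofNat 24807495863160))⟩,
  ⟨.x, T2, (K (.ofNat 70008520767912))⟩] (.node [⟨.x, .z, (K (.ofNat 121397448227688))⟩] .nil .nil .nil .nil .nil .nil) (.node [⟨.x, .z, (K (.negSucc 42640329354839))⟩] .nil .nil .nil .nil .nil .nil) .nil .nil .nil .nil))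

def c_31 : Cert := (.node [⟨.x, .z, (C (C (A4 (K (.negSucc 21481247276063))) N N N (B (K (.negSucc 23665922077355)) (K (.negSucc 88841987289071)) N N) N) (C (A4 (K (.negSucc 12889598724143))) (C N N N N (K (.ofNat 10434218525784)) (K (.negSucc 12858701621759))) N N (B (K (.negSucc 29960204013107)) (K (.negSucc 117949984472015)) N N) (B (K (.negSucc 44878184330759)) (K (.negSucc 111483047238191)) N N)) N N (B (B (K (.ofNat 35455259163336)) (K (.negSucc 30841499995271)) N N) (B (K (.negSucc 16956873252359)) (K (.ofNat 54729656224704)) N N) N N) (B (B (K (.ofNat 79385869114788)) (K (.ofNat 23232667890600)) N N) (B (K (.negSucc 53024066651015)) (K (.negSucc 53874007391231)) N N) N N))⟩,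
  ⟨.x, .w, (B (B (A2 (K (.negSucc 29305149156431))) N (B (K (.ofNat 91222562493000)) (K (.ofNat 113598621248688)) N N) N) (B (A2 (K (.negSucc 39425698040399))) (B N N (K (.ofNat 13978344281112)) (K (.negSucc 21085094242223))) (B (K (.ofNat 107126249144292)) (K (.ofNat 117714302770968)) N N) (B (K (.ofNat 2427739075548)) (K (.ofNat 88848340367616)) N N)) (B (B (K (.negSucc 12834810292331)) (K (.negSucc 42201095894999)) N N) (B (K (.negSucc 19470614679539)) (K (.ofNat 47587511467368)) N N) N N) (B (B (K (.ofNat 27927421578228)) (K (.negSucc 4674180191975)) N N) (B (K (.negSucc 28800995628779)) (K (.negSucc 56137248061055)) N N) N N))⟩,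
  ⟨.z, .w, (B (B (B (K (.negSucc 2723033348459)) (K (.ofNat 20744418729288)) N N) (B (K (.negSucc 94410489008363)) (K (.negSucc 129127690452935)) N N) N N) (B (B (K (.negSucc 122794259101031)) (K (.negSucc 132449312140847)) N N) (B (K (.negSucc 55370818723319)) (K (.negSucc 77444628695279)) N N) N N) N N)⟩,
  ⟨.x, T0, (C (A4 (K (.ofNat 5942778680592))) (C N N N N (K (.ofNat 3523061455776)) (K (.negSucc 12947331192047))) N N (B (K (.negSucc 4091729789735)) (K (.ofNat 16300543257432)) N N) (B (K (.negSucc 15539699252663)) (K (.negSucc 78731070486767)) N N))⟩,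
  ⟨.x, T1, (B (A2 (K (.ofNat 4678487084016))) (B N N (K (.ofNat 26326189451016)) (K (.ofNat 23422834540080))) (B (K (.negSucc 36655337247335)) (K (.ofNat 20248184083176)) N N) (B (K (.ofNat 28618495009668)) (K (.negSucc 47365163254367)) N N))⟩,
  ⟨.x, T2, (C (A4 (K (.ofNat 17848421824464))) (C N N N N (K (.ofNat 72276317515296)) (K (.ofNat 47054659279824))) N N (B (K (.ofNat 18036901424700)) (K (.ofNat 33608239374816)) N N) (B (K (.negSucc 5366488441967)) (K (.ofNat 6282965667456)) N N))⟩,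
  ⟨.x, T4, (B (B (K (.negSucc 2631136093943)) (K (.negSucc 31434282884519)) N N) (B (K (.ofNat 17100102671316)) (K (.ofNat 38252059149888)) N N) N N)⟩,
  ⟨.x, T5, (B (A2 (K (.ofNat 16460277532704))) (B N N (K (.negSucc 14536600674407)) (K (.negSucc 260814856607))) (B (K (.negSucc 73054440925847)) (K (.negSucc 99756657534887)) N N) (B (K (.ofNat 23063727373416)) (K (.negSucc 14928183206927)) N N))⟩,
  ⟨.x, T6, (B (B (K (.negSucc 8270828018003)) (K (.ofNat 9871696808712)) N N) (B (K (.ofNat 40207375022040)) (K (.ofNat 52766614771272)) N N) N N)⟩,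
  ⟨.z, T1, (A0 (B (K (.ofNat 29029878877200)) (K (.negSucc 30338164614023)) N N))⟩,
  ⟨.z, T5, (A0 (B (K (.ofNat 16676386085388)) (K (.ofNat 33899695044408)) N N))⟩,
  ⟨.x, T9, (C N N N N (K (.ofNat 7189873229592)) (K (.ofNat 9872224492320)))⟩,
  ⟨.x, T10, (A3 (K (.ofNat 4058309234016)))⟩,
  ⟨.x, T12, (A1 (K (.ofNat 20586494167200)))⟩,
  ⟨.x, T15, (C N N N N (K (.negSucc 311130056231)) (K (.ofNat 25293209844096)))⟩,
  ⟨.x, T16, (B N N (K (.ofNat 4290051344472)) (K (.negSucc 10148111144783)))⟩,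
  ⟨.x, T17, (C N N N N (K (.ofNat 7511266472256)) (K (.negSucc 47311601179967)))⟩,
  ⟨.x, T19, (B (K (.ofNat 38798951289696)) (K (.negSucc 17799559492751)) N N)⟩,
  ⟨.x, T20, (B N N (K (.negSucc 23458491620351)) (K (.ofNat 3329122668336)))⟩,
  ⟨.x, T21, (A0 (K (.ofNat 8234572764240)))⟩,
  ⟨.x, T22, (A5 (K (.ofNat 1604855341872)))⟩,
  ⟨.x, T24, (B (K (.ofNat 1074778660584)) (K (.negSucc 14188810761359)) N N)⟩,
  ⟨.x, T27, (B (K (.ofNat 27688482409320)) (K (.negSucc 2633739579575)) N N)⟩,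
  ⟨.x, T29, (A3 (K (.ofNat 2227344324480)))⟩,
  ⟨.x, T30, (A1 (K (.ofNat 24066614111112)))⟩,
  ⟨.z, T16, (A0 (K (.negSucc 30000343070159)))⟩,
  ⟨.z, T20, (A0 (K (.negSucc 6927954448895)))⟩,
  ⟨.x, T35, (K (.ofNat 1132733030400))⟩,
  ⟨.x, T41, (K (.negSucc 8345684702447))⟩,
  ⟨.x, T43, (K (.negSucc 1437254272439))⟩,
  ⟨.x, T46, (K (.negSucc 5307829511183))⟩,
  ⟨.x, T49, (K (.negSucc 15022893486311))⟩,
  ⟨.x, T52, (K (.ofNat 11653880345784))⟩,
  ⟨.x, T55, (K (.negSucc 3381629330735))⟩,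
  ⟨.x, T58, (K (.ofNat 1687222275408))⟩,
  ⟨.x, T60, (K (.ofNat 884730283344))⟩,
  ⟨.x, T61, (K (.negSucc 6607003454927))⟩,
  ⟨.x, T63, (K (.negSucc 7857452716127))⟩,
  ⟨.x, T65, (K (.negSucc 7027593828191))⟩,
  ⟨.z, T38, (K (.negSucc 2358832084127))⟩,
  ⟨.z, T42, (K (.ofNat 11516581113264))⟩] c_310 c_311 (.node [⟨.x, .w, (B (B (K (.ofNat 128260520011932)) (K (.negSucc 41206747811435)) N N) (B (K (.ofNat 33357775605912)) (K (.ofNat 55955899074816)) N N) N N)⟩,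
  ⟨.x, T1, (B (K (.negSucc 123704108618687)) (K (.negSucc 26345554009487)) N N)⟩,
  ⟨.x, T5, (B (K (.negSucc 68398074024407)) (K (.ofNat 24815598499332)) N N)⟩,
  ⟨.x, T10, (K (.negSucc 34284964381523))⟩,
  ⟨.x, T16, (K (.negSucc 8135702788787))⟩,
  ⟨.x, T20, (K (.ofNat 103968518469660))⟩,
  ⟨.x, T29, (K (.negSucc 15666243060527))⟩] (.node [⟨.x, .w, (B (K (.ofNat 115803731257416)) (K (.ofNat 176467965099948)) N N)⟩,
  ⟨.x, T1, (K (.negSucc 60011512210547))⟩,
  ⟨.x, T5, (K (.ofNat 20575396405440))⟩] (.node [⟨.x, .w, (K (.ofNat 3718695579408))⟩] .nil .nil .nil .nil .nil .nil) (.node [⟨.x, .w, (K (.negSucc 53092257771275))⟩] .nil .nil .nil .nil .nil .nil) .nil .nil .nil .nil) (.node [⟨.x, .w, (B (K (.ofNat 142315171406316)) (K (.negSucc 147861421773515)) N N)⟩,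
  ⟨.x, T1, (K (.ofNat 113375326487976))⟩,
  ⟨.x, T5, (K (.ofNat 38921537595312))⟩] (.node [⟨.x, .w, (K (.negSucc 120274816841099))⟩] .nil .nil .nil .nil .nil .nil) (.node [⟨.x, .w, (K (.negSucc 124678282226219))⟩] .nil .nil .nil .nil .nil .nil) .nil .nil .nil .nil) .nil .nil .nil .nil) (.node [⟨.x, .w, (B (B (K (.negSucc 112512022261727)) (K (.negSucc 155454371151911)) N N) (B (K (.negSucc 59876493652007)) (K (.negSucc 70494308254295)) N N) N N)⟩,
  ⟨.x, T1, (B (K (.negSucc 17426509271423)) (K (.ofNat 1793359373616)) N N)⟩,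
  ⟨.x, T5, (B (K (.ofNat 93481481348280)) (K (.ofNat 98373600742752)) N N)⟩,
  ⟨.x, T10, (K (.ofNat 7678031946336))⟩,
  ⟨.x, T16, (K (.negSucc 9115286218775))⟩,
  ⟨.x, T20, (K (.negSucc 5718189768191))⟩,
  ⟨.x, T29, (K (.negSucc 5093098894079))⟩] (.node [⟨.x, .w, (B (K (.ofNat 20600406568872)) (K (.negSucc 56976845301071)) N N)⟩,
  ⟨.x, T1, (K (.ofNat 30016844374752))⟩,
  ⟨.x, T5, (K (.negSucc 26479262874383))⟩] (.node [⟨.x, .w, (K (.ofNat 30288484921392))⟩] .nil .nil .nil .nil .nil .nil) (.node [⟨.x, .w, (K (.ofNat 46425782795040))⟩] .nil .nil .nil .nil .nil .nil) .nil .nil .nil .nil) (.node [⟨.x, .w, (B (K (.negSucc 32657571937295)) (K (.negSucc 11186418824567)) N N)⟩,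
  ⟨.x, T1, (K (.ofNat 10872292260024))⟩,
  ⟨.x, T5, (K (.ofNat 38014762282416))⟩] (.node [⟨.x, .w, (K (.negSucc 18649622114927))⟩] .nil .nil .nil .nil .nil .nil) (.node [⟨.x, .w, (K (.ofNat 10397033026992))⟩] .nil .nil .nil .nil .nil .nil) .nil .nil .nil .nil) .nil .nil .nil .nil) (.node [⟨.x, .z, (B (B (K (.negSucc 124737378267155)) (K (.ofNat 56234425722408)) N N) (B (K (.ofNat 101444008874508)) (K (.ofNat 39887903089404)) N N) N N)⟩,
  ⟨.x, T0, (B (K (.ofNat 91504212696144)) (K (.ofNat 142960716842472)) N N)⟩,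
  ⟨.x, T2, (B (K (.ofNat 95955169570560)) (K (.ofNat 53546806290528)) N N)⟩,
  ⟨.x, T9, (K (.ofNat 44778871090944))⟩,
  ⟨.x, T15, (K (.negSucc 107936122975307))⟩,
  ⟨.x, T17, (K (.ofNat 57646860747696))⟩,
  ⟨.x, T22, (K (.ofNat 33450165105408))⟩] (.node [⟨.x, .z, (B (K (.ofNat 168837028117632)) (K (.ofNat 216851008996512)) N N)⟩,
  ⟨.x, T0, (K (.ofNat 81688864037040))⟩,
  ⟨.x, T2, (K (.negSucc 7309256218559))⟩] (.node [⟨.x, .z, (K (.negSucc 40488298642367))⟩] .nil .nil .nil .nil .nil .nil) (.node [⟨.x, .z, (K (.ofNat 39933586116576))⟩] .nil .nil .nil .nil .nil .nil) .nil .nil .nil .nil) (.node [⟨.x, .z, (B (K (.ofNat 33513716569212)) (K (.ofNat 42950073648996)) N N)⟩,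
  ⟨.x, T0, (K (.ofNat 73514499440292))⟩,
  ⟨.x, T2, (K (.ofNat 80461547698752))⟩] (.node [⟨.x, .z, (K (.ofNat 100696954512528))⟩] .nil .nil .nil .nil .nil .nil) (.node [⟨.x, .z, (K (.ofNat 97119073800432))⟩] .nil .nil .nil .nil .nil .nil) .nil .nil .nil .nil) .nil .nil .nil .nil) (.node [⟨.x, .z, (B (B (K (.ofNat 47573436259356)) (K (.ofNat 88095094690104)) N N) (B (K (.ofNat 41007811703256)) (K (.ofNat 16369846989984)) N N) N N)⟩,
  ⟨.x, T0, (B (K (.ofNat 19132657015608)) (K (.ofNat 24507462202704)) N N)⟩,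
  ⟨.x, T2, (B (K (.negSucc 36707138415251)) (K (.negSucc 57964999301855)) N N)⟩,
  ⟨.x, T9, (K (.ofNat 25277999744520))⟩,
  ⟨.x, T15, (K (.negSucc 33764925187655))⟩,
  ⟨.x, T17, (K (.ofNat 13843416964608))⟩,
  ⟨.x, T22, (K (.ofNat 27321485724000))⟩] (.node [⟨.x, .z, (B (K (.ofNat 54652151211876)) (K (.ofNat 43294842659664)) N N)⟩,
  ⟨.x, T0, (K (.ofNat 72528582392928))⟩,
  ⟨.x, T2, (K (.negSucc 7095846843935))⟩] (.node [⟨.x, .z, (K (.negSucc 36346465363967))⟩] .nil .nil .nil .nil .nil .nil) (.node [⟨.x, .z, (K (.negSucc 2554669948031))⟩] .nil .nil .nil .nil .nil .nil) .nil .nil .nil .nil) (.node [⟨.x, .z, (B (K (.negSucc 5903221122791)) (K (.ofNat 489360193056)) N N)⟩,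
  ⟨.x, T0, (K (.ofNat 32243271789744))⟩,
  ⟨.x, T2, (K (.ofNat 43847165669328))⟩] (.node [⟨.x, .z, (K (.ofNat 24180463756944))⟩] .nil .nil .nil .nil .nil .nil) (.node [⟨.x, .z, (K (.ofNat 33094107758304))⟩] .nil .nil .nil .nil .nil .nil) .nil .nil .nil .nil) .nil .nil .nil .nil))

def c_32 : Cert := (.node [⟨.x, .w, (B (B (B (K (.negSucc 16164078197735)) (K (.negSucc 79643266492487)) N N) (B (K (.ofNat 33605694327108)) (K (.ofNat 20186871030132)) N N) N N) (B (B (K (.ofNat 48997024996824)) (K (.ofNat 68233970979000)) N N) (B (K (.ofNat 74525883015708)) (K (.ofNat 53435755922832)) N N) N N) N N)⟩,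
  ⟨.x, T1, (B (B (K (.ofNat 23989087809000)) (K (.ofNat 31740458426064)) N N) (B (K (.negSucc 114589118526443)) (K (.negSucc 35540142126191)) N N) N N)⟩,
  ⟨.x, T5, (B (B (K (.negSucc 49991340013199)) (K (.negSucc 29172480671591)) N N) (B (K (.negSucc 33773975712503)) (K (.negSucc 37208653406135)) N N) N N)⟩,
  ⟨.x, T8, (C N N N N (K (.negSucc 6159869699759)) (K (.negSucc 4809342014207)))⟩,
  ⟨.x, T10, (A1 (K (.negSucc 1517590664495)))⟩,
  ⟨.x, T14, (C N N N N (K (.negSucc 19631759540111)) (K (.ofNat 9810406152000)))⟩,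
  ⟨.x, T16, (B (K (.negSucc 68835147446159)) (K (.negSucc 15504510969791)) N N)⟩,
  ⟨.x, T20, (B (K (.negSucc 66906301001399)) (K (.negSucc 44079101234711)) N N)⟩,
  ⟨.x, T29, (A1 (K (.ofNat 2064801350808)))⟩,
  ⟨.x, T33, (K (.negSucc 217181067263))⟩,
  ⟨.x, T38, (K (.ofNat 9975805468848))⟩,
  ⟨.x, T42, (K (.ofNat 11748630528432))⟩,
  ⟨.x, T51, (K (.negSucc 1873957625351))⟩,
  ⟨.x, T62, (K (.ofNat 3837036211344))⟩,
  ⟨.x, T64, (K (.ofNat 3523159091088))⟩] (.node [⟨.x, .w, (B (B (K (.ofNat 58149424091088)) (K (.ofNat 28749807017136)) N N) (B (K (.negSucc 5720652971567)) (K (.ofNat 12166196353920)) N N) N N)⟩,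
  ⟨.x, T1, (B (K (.negSucc 29476181543327)) (K (.negSucc 35073221059871)) N N)⟩,
  ⟨.x, T5, (B (K (.negSucc 13872070574495)) (K (.negSucc 9016357744655)) N N)⟩,
  ⟨.x, T10, (K (.ofNat 11610988605216))⟩,
  ⟨.x, T16, (K (.negSucc 32527182466511))⟩,
  ⟨.x, T20, (K (.negSucc 13159475796959))⟩,
  ⟨.x, T29, (K (.ofNat 9841894759008))⟩] (.node [⟨.x, .w, (B (K (.ofNat 13111216331760)) (K (.negSucc 18772489633535)) N N)⟩,
  ⟨.x, T1, (K (.ofNat 27173281704048))⟩,
  ⟨.x, T5, (K (.negSucc 13959536362127))⟩] (.node [⟨.x, .w, (K (.negSucc 3242553699311))⟩] .nil .nil .nil .nil .nil .nil) (.node [⟨.x, .w, (K (.ofNat 5139068690448))⟩] .nil .nil .nil .nil .nil .nil) .nil .nil .nil .nil) (.node [⟨.x, .w, (B (K (.ofNat 7017024075768)) (K (.negSucc 50048113675535)) N N)⟩,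
  ⟨.x, T1, (K (.ofNat 25943295588336))⟩,
  ⟨.x, T5, (K (.negSucc 11167852120199))⟩] (.node [⟨.x, .w, (K (.ofNat 15393472209936))⟩] .nil .nil .nil .nil .nil .nil) (.node [⟨.x, .w, (K (.ofNat 13448860604208))⟩] .nil .nil .nil .nil .nil .nil) .nil .nil .nil .nil) .nil .nil .nil .nil) (.node [⟨.x, .w, (B (B (K (.ofNat 122458963448952)) (K (.ofNat 12051225199368)) N N) (B (K (.ofNat 167764705822512)) (K (.ofNat 109979079936336)) N N) N N)⟩,
  ⟨.x, T1, (B (K (.negSucc 167274389360735)) (K (.negSucc 97324385393663)) N N)⟩,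
  ⟨.x, T5, (B (K (.negSucc 50905808471303)) (K (.ofNat 48858954319224)) N N)⟩,
  ⟨.x, T10, (K (.ofNat 8083999361088))⟩,
  ⟨.x, T16, (K (.negSucc 39014839561823))⟩,
  ⟨.x, T20, (K (.ofNat 56414625941952))⟩,
  ⟨.x, T29, (K (.ofNat 29290395393216))⟩] (.node [⟨.x, .w, (B (K (.ofNat 124475421267576)) (K (.ofNat 24800676241536)) N N)⟩,
  ⟨.x, T1, (K (.ofNat 25380110671344))⟩,
  ⟨.x, T5, (K (.ofNat 4250666327400))⟩] (.node [⟨.x, .w, (K (.negSucc 27051443910863))⟩] .nil .nil .nil .nil .nil .nil) (.node [⟨.x, .w, (K (.negSucc 63794358488015))⟩] .nil .nil .nil .nil .nil .nil) .nil .nil .nil .nil) (.node [⟨.x, .w, (B (K (.ofNat 180265402894680)) (K (.negSucc 66974832691775)) N N)⟩,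
  ⟨.x, T1, (K (.ofNat 80249802944112))⟩,
  ⟨.x, T5, (K (.negSucc 12326025336839))⟩] (.node [⟨.x, .w, (K (.negSucc 63052341977231))⟩] .nil .nil .nil .nil .nil .nil) (.node [⟨.x, .w, (K (.negSucc 61575115424975))⟩] .nil .nil .nil .nil .nil .nil) .nil .nil .nil .nil) .nil .nil .nil .nil) .nil .nil (.node [⟨.x, T8, (K (.negSucc 3024708735311))⟩,
  ⟨.x, T14, (K (.negSucc 2062634710103))⟩] .nil .nil .nil .nil .nil .nil) (.node [⟨.x, T8, (K (.ofNat 4108641468828))⟩,
  ⟨.x, T14, (K (.ofNat 6030739100640))⟩] .nil .nil .nil .nil .nil .nil))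

def c_33 : Cert := (.node [⟨.x, .w, (B (B (B (K (.negSucc 17213298607103)) (K (.negSucc 98224079104703)) N N) (B (K (.ofNat 97502214971976)) (K (.negSucc 16685364090839)) N N) N N) (B (B (K (.ofNat 70624451247984)) (K (.ofNat 46034925230736)) N N) (B (K (.ofNat 82675603957104)) (K (.ofNat 30791406450960)) N N) N N) N N)⟩,
  ⟨.x, T1, (B (B (K (.ofNat 8184058689168)) (K (.ofNat 14796995203728)) N N) (B (K (.negSucc 28827573569279)) (K (.negSucc 5460077252447)) N N) N N)⟩,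
  ⟨.x, T5, (B (B (K (.ofNat 20760395900832)) (K (.ofNat 57949352456256)) N N) (B (K (.negSucc 44997272929007)) (K (.ofNat 28188339656688)) N N) N N)⟩,
  ⟨.x, T8, (C N N N N (K (.negSucc 22544136215711)) (K (.negSucc 727459163495)))⟩,
  ⟨.x, T10, (A1 (K (.negSucc 1923464213855)))⟩,
  ⟨.x, T14, (C N N N N (K (.negSucc 5565861357695)) (K (.negSucc 12603653214695)))⟩,
  ⟨.x, T16, (B (K (.negSucc 9882748520351)) (K (.ofNat 2654172823392)) N N)⟩,
  ⟨.x, T20, (B (K (.negSucc 3178723373855)) (K (.ofNat 22541807862720)) N N)⟩,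
  ⟨.x, T29, (A1 (K (.ofNat 10613704229856)))⟩,
  ⟨.x, T33, (K (.negSucc 933517135871))⟩,
  ⟨.x, T38, (K (.ofNat 14068678758480))⟩,
  ⟨.x, T42, (K (.ofNat 4601397119904))⟩,
  ⟨.x, T51, (K (.negSucc 5962787650943))⟩,
  ⟨.x, T62, (K (.ofNat 7299267797088))⟩,
  ⟨.x, T64, (K (.ofNat 6726909718368))⟩] (.node [⟨.x, .w, (B (B (K (.negSucc 86765125552631)) (K (.ofNat 29960773706484)) N N) (B (K (.negSucc 22231369749491)) (K (.negSucc 84405787363943)) N N) N N)⟩,
  ⟨.x, T1, (B (K (.ofNat 27062415002412)) (K (.ofNat 37271081280960)) N N)⟩,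
  ⟨.x, T5, (B (K (.ofNat 61139664154440)) (K (.negSucc 43419766590899)) N N)⟩,
  ⟨.x, T10, (K (.ofNat 50977224134100))⟩,
  ⟨.x, T16, (K (.negSucc 34062760027331))⟩,
  ⟨.x, T20, (K (.negSucc 91746875148443))⟩,
  ⟨.x, T29, (K (.ofNat 22669583077152))⟩] (.node [⟨.x, .w, (B (K (.negSucc 74118176975447)) (K (.negSucc 123132460098635)) N N)⟩,
  ⟨.x, T1, (K (.ofNat 88469720078724))⟩,
  ⟨.x, T5, (K (.negSucc 13210578524447))⟩] (.node [⟨.x, .w, (K (.negSucc 20199201599519))⟩] .nil .nil .nil .nil .nil .nil) (.node [⟨.x, .w, (K (.ofNat 106876647779868))⟩] .nil .nil .nil .nil .nil .nil) .nil .nil .nil .nil) (.node [⟨.x, .w, (B (K (.negSucc 165018384855539)) (K (.ofNat 115187852542428)) N N)⟩,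
  ⟨.x, T1, (K (.negSucc 67726346234327))⟩,
  ⟨.x, T5, (K (.negSucc 32734602177983))⟩] (.node [⟨.x, .w, (K (.ofNat 87283803400668))⟩] .nil .nil .nil .nil .nil .nil) (.node [⟨.x, .w, (K (.ofNat 107633797380252))⟩] .nil .nil .nil .nil .nil .nil) .nil .nil .nil .nil) .nil .nil .nil .nil) (.node [⟨.x, .w, (B (B (K (.ofNat 49035442216896)) (K (.ofNat 57217946258016)) N N) (B (K (.ofNat 30249256910400)) (K (.ofNat 20747825783424)) N N) N N)⟩,
  ⟨.x, T1, (B (K (.negSucc 2060567297711)) (K (.negSucc 9919650972815)) N N)⟩,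
  ⟨.x, T5, (B (K (.negSucc 60139828633823)) (K (.negSucc 57450881306159)) N N)⟩,
  ⟨.x, T10, (K (.ofNat 4170289605984))⟩,
  ⟨.x, T16, (K (.negSucc 270407996351))⟩,
  ⟨.x, T20, (K (.negSucc 9639672230591))⟩,
  ⟨.x, T29, (K (.negSucc 601773700175))⟩] (.node [⟨.x, .w, (B (K (.ofNat 43466026099248)) (K (.ofNat 34678659628368)) N N)⟩,
  ⟨.x, T1, (K (.negSucc 20086421277743))⟩,
  ⟨.x, T5, (K (.negSucc 17458287826031))⟩] (.node [⟨.x, .w, (K (.negSucc 16491555278927))⟩] .nil .nil .nil .nil .nil .nil) (.node [⟨.x, .w, (K (.negSucc 8192253563567))⟩] .nil .nil .nil .nil .nil .nil) .nil .nil .nil .nil) (.node [⟨.x, .w, (B (K (.ofNat 5058784748448)) (K (.negSucc 6749893636847)) N N)⟩,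
  ⟨.x, T1, (K (.negSucc 2887676771471))⟩,
  ⟨.x, T5, (K (.negSucc 5468933486015))⟩] (.node [⟨.x, .w, (K (.negSucc 11574349041887))⟩] .nil .nil .nil .nil .nil .nil) (.node [⟨.x, .w, (K (.negSucc 5534034932303))⟩] .nil .nil .nil .nil .nil .nil) .nil .nil .nil .nil) .nil .nil .nil .nil) .nil .nil (.node [⟨.x, T8, (K (.negSucc 20427856607147))⟩,
  ⟨.x, T14, (K (.ofNat 7214910173952))⟩] .nil .nil .nil .nil .nil .nil) (.node [⟨.x, T8, (K (.negSucc 7273377712511))⟩,
  ⟨.x, T14, (K (.negSucc 5970311024255))⟩] .nil .nil .nil .nil .nil .nil))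

def c_34 : Cert := (.node [⟨.x, .z, (B (B (B (K (.ofNat 238195985798352)) (K (.ofNat 71460034504764)) N N) (B (K (.negSucc 124832026928315)) (K (.negSucc 252686558416055)) N N) N N) (B (B (K (.ofNat 704531428794828)) (K (.negSucc 42489789123707)) N N) (B (K (.ofNat 151681749605892)) (K (.negSucc 847719549717515)) N N) N N) N N)⟩,
  ⟨.x, T0, (B (B (K (.ofNat 360687224093364)) (K (.ofNat 200178181836504)) N N) (B (K (.negSucc 284294227639643)) (K (.negSucc 158214270364199)) N N) N N)⟩,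
  ⟨.x, T2, (B (B (K (.negSucc 87580474365167)) (K (.negSucc 250240904719523)) N N) (B (K (.negSucc 68867416919915)) (K (.negSucc 185000994091907)) N N) N N)⟩,
  ⟨.x, T8, (B N N (K (.ofNat 160088606221770)) (K (.negSucc 62917881080867)))⟩,
  ⟨.x, T9, (A1 (K (.ofNat 134980796658888)))⟩,
  ⟨.x, T14, (B N N (K (.negSucc 79739068315949)) (K (.ofNat 58303115018532)))⟩,
  ⟨.x, T15, (B (K (.negSucc 27892989851435)) (K (.negSucc 432388224949391)) N N)⟩,
  ⟨.x, T17, (B (K (.negSucc 298263026681459)) (K (.ofNat 306386733439368)) N N)⟩,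
  ⟨.x, T22, (A1 (K (.ofNat 137401169300100)))⟩,
  ⟨.x, T32, (K (.ofNat 212017157840232))⟩,
  ⟨.x, T37, (K (.ofNat 66940953060492))⟩,
  ⟨.x, T39, (K (.ofNat 28423353506796))⟩,
  ⟨.x, T44, (K (.ofNat 17858558338092))⟩,
  ⟨.x, T53, (K (.ofNat 13204179072720))⟩,
  ⟨.x, T56, (K (.negSucc 118854559521863))⟩] (.node [⟨.x, .z, (B (B (K (.negSucc 186428429033975)) (K (.negSucc 30618513885815)) N N) (B (K (.negSucc 116494251995519)) (K (.ofNat 861318816545700)) N N) N N)⟩,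
  ⟨.x, T0, (B (K (.negSucc 273272218298279)) (K (.ofNat 400849196245128)) N N)⟩,
  ⟨.x, T2, (B (K (.negSucc 102520083437207)) (K (.ofNat 119796090123276)) N N)⟩,
  ⟨.x, T9, (K (.ofNat 90312390644400))⟩,
  ⟨.x, T15, (K (.ofNat 419539216150044))⟩,
  ⟨.x, T17, (K (.negSucc 98929462866587))⟩,
  ⟨.x, T22, (K (.ofNat 10760580956880))⟩] (.node [⟨.x, .z, (B (K (.negSucc 135648146860343)) (K (.negSucc 606151870942715)) N N)⟩,
  ⟨.x, T0, (K (.negSucc 357896229137963))⟩,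
  ⟨.x, T2, (K (.ofNat 244320468934032))⟩] (.node [⟨.x, .z, (K (.ofNat 127950140798280))⟩] .nil .nil .nil .nil .nil .nil) (.node [⟨.x, .z, (K (.negSucc 81460053845963))⟩] .nil .nil .nil .nil .nil .nil) .nil .nil .nil .nil) (.node [⟨.x, .z, (B (K (.negSucc 370418642399087)) (K (.ofNat 171723910930920)) N N)⟩,
  ⟨.x, T0, (K (.negSucc 411701516862695))⟩,
  ⟨.x, T2, (K (.negSucc 70260269940971))⟩] (.node [⟨.x, .z, (K (.negSucc 34879076883071))⟩] .nil .nil .nil .nil .nil .nil) (.node [⟨.x, .z, (K (.negSucc 187190919307367))⟩] .nil .nil .nil .nil .nil .nil) .nil .nil .nil .nil) .nil .nil .nil .nil) (.node [⟨.x, .z, (B (B (K (.negSucc 266037451998443)) (K (.ofNat 431905542113448)) N N) (B (K (.ofNat 262344566024316)) (K (.negSucc 110105439720191)) N N) N N)⟩,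
  ⟨.x, T0, (B (K (.negSucc 175573670023079)) (K (.ofNat 117354822930144)) N N)⟩,
  ⟨.x, T2, (B (K (.negSucc 113095765906523)) (K (.ofNat 41462156938968)) N N)⟩,
  ⟨.x, T9, (K (.ofNat 22025571001380))⟩,
  ⟨.x, T15, (K (.ofNat 188147029683528))⟩,
  ⟨.x, T17, (K (.ofNat 27127524887532))⟩,
  ⟨.x, T22, (K (.negSucc 22179624329087))⟩] (.node [⟨.x, .z, (B (K (.negSucc 439485720365663)) (K (.negSucc 53318644540559)) N N)⟩,
  ⟨.x, T0, (K (.negSucc 392249781389015))⟩,
  ⟨.x, T2, (K (.ofNat 11294523344988))⟩] (.node [⟨.x, .z, (K (.ofNat 54967703583852))⟩] .nil .nil .nil .nil .nil .nil) (.node [⟨.x, .z, (K (.negSucc 65947246866287))⟩] .nil .nil .nil .nil .nil .nil) .nil .nil .nil .nil) (.node [⟨.x, .z, (B (K (.negSucc 261117273789323)) (K (.ofNat 513268089838200)) N N)⟩,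
  ⟨.x, T0, (K (.ofNat 51327822598740))⟩,
  ⟨.x, T2, (K (.negSucc 124093910285531))⟩] (.node [⟨.x, .z, (K (.negSucc 66470295385007))⟩] .nil .nil .nil .nil .nil .nil) (.node [⟨.x, .z, (K (.negSucc 77357892812975))⟩] .nil .nil .nil .nil .nil .nil) .nil .nil .nil .nil) .nil .nil .nil .nil) (.node [⟨.x, T8, (K (.negSucc 48207714773363))⟩,
  ⟨.x, T14, (K (.negSucc 78211372577759))⟩] .nil .nil .nil .nil .nil .nil) (.node [⟨.x, T8, (K (.negSucc 232736930677505))⟩,
  ⟨.x, T14, (K (.negSucc 103469639355185))⟩] .nil .nil .nil .nil .nil .nil) .nil .nil)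

def c_35 : Cert := (.node [⟨.x, .z, (B (B (B (K (.negSucc 6194659538135)) (K (.ofNat 43882682071944)) N N) (B (K (.negSucc 109703139768203)) (K (.ofNat 10228928634960)) N N) N N) (B (B (K (.negSucc 83213365394591)) (K (.negSucc 16861296494015)) N N) (B (K (.negSucc 42636388761791)) (K (.ofNat 19870451403120)) N N) N N) N N)⟩,
  ⟨.x, T0, (B (B (K (.negSucc 22657115648879)) (K (.negSucc 25085365324199)) N N) (B (K (.negSucc 15171686411039)) (K (.negSucc 12683299898735)) N N) N N)⟩,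
  ⟨.x, T2, (B (B (K (.negSucc 4724029071143)) (K (.ofNat 23009290805664)) N N) (B (K (.ofNat 77936237825364)) (K (.ofNat 6972931982376)) N N) N N)⟩,
  ⟨.x, T8, (B N N (K (.negSucc 19186890872903)) (K (.negSucc 210928099319)))⟩,
  ⟨.x, T9, (A1 (K (.negSucc 12002781832559)))⟩,
  ⟨.x, T14, (B N N (K (.negSucc 9396298425815)) (K (.negSucc 14030666645975)))⟩,
  ⟨.x, T15, (B (K (.ofNat 20409168568320)) (K (.ofNat 37086660438624)) N N)⟩,
  ⟨.x, T17, (B (K (.negSucc 10196312506919)) (K (.negSucc 8082767710727)) N N)⟩,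
  ⟨.x, T22, (A1 (K (.negSucc 21660478478999)))⟩,
  ⟨.x, T32, (K (.negSucc 505094123519))⟩,
  ⟨.x, T37, (K (.ofNat 5906529099648))⟩,
  ⟨.x, T39, (K (.negSucc 11056635348623))⟩,
  ⟨.x, T44, (K (.ofNat 5881389699240))⟩,
  ⟨.x, T53, (K (.negSucc 3543286025519))⟩,
  ⟨.x, T56, (K (.negSucc 2193350839343))⟩] (.node [⟨.x, .z, (B (B (K (.negSucc 68956220668751)) (K (.ofNat 51520375935504)) N N) (B (K (.negSucc 4937331215051)) (K (.negSucc 18959204953619)) N N) N N)⟩,
  ⟨.x, T0, (B (K (.ofNat 3134617882920)) (K (.negSucc 180817318871)) N N)⟩,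
  ⟨.x, T2, (B (K (.ofNat 75711227280408)) (K (.ofNat 7616057196168)) N N)⟩,
  ⟨.x, T9, (K (.ofNat 8205603645024))⟩,
  ⟨.x, T15, (K (.negSucc 61952803605755))⟩,
  ⟨.x, T17, (K (.ofNat 17051265472392))⟩,
  ⟨.x, T22, (K (.ofNat 9962352064512))⟩] (.node [⟨.x, .z, (B (K (.ofNat 80920458210024)) (K (.ofNat 94852692138096)) N N)⟩,
  ⟨.x, T0, (K (.ofNat 48121301130624))⟩,
  ⟨.x, T2, (K (.ofNat 6108047717616))⟩] (.node [⟨.x, .z, (K (.negSucc 9428173917551))⟩] .nil .nil .nil .nil .nil .nil) (.node [⟨.x, .z, (K (.ofNat 31335250607352))⟩] .nil .nil .nil .nil .nil .nil) .nil .nil .nil .nil) (.node [⟨.x, .z, (B (K (.ofNat 77382041057496)) (K (.ofNat 66480994461276)) N N)⟩,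
  ⟨.x, T0, (K (.ofNat 87912666836964))⟩,
  ⟨.x, T2, (K (.ofNat 43930914036408))⟩] (.node [⟨.x, .z, (K (.ofNat 16908633965304))⟩] .nil .nil .nil .nil .nil .nil) (.node [⟨.x, .z, (K (.ofNat 26748284739048))⟩] .nil .nil .nil .nil .nil .nil) .nil .nil .nil .nil) .nil .nil .nil .nil) (.node [⟨.x, .z, (B (B (K (.ofNat 29139961178376)) (K (.ofNat 21276970906248)) N N) (B (K (.negSucc 16678490658479)) (K (.ofNat 40509440062416)) N N) N N)⟩,
  ⟨.x, T0, (B (K (.negSucc 79267119221807)) (K (.negSucc 54825354808559)) N N)⟩,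
  ⟨.x, T2, (B (K (.negSucc 88194265536455)) (K (.negSucc 87982423864631)) N N)⟩,
  ⟨.x, T9, (K (.negSucc 37615241202623))⟩,
  ⟨.x, T15, (K (.ofNat 36438928668864))⟩,
  ⟨.x, T17, (K (.negSucc 5275060718831))⟩,
  ⟨.x, T22, (K (.negSucc 25109197465679))⟩] (.node [⟨.x, .z, (B (K (.negSucc 67779780318791)) (K (.negSucc 91931094595151)) N N)⟩,
  ⟨.x, T0, (K (.negSucc 26161553983103))⟩,
  ⟨.x, T2, (K (.ofNat 29534119339896))⟩] (.node [⟨.x, .z, (K (.ofNat 3895986619008))⟩] .nil .nil .nil .nil .nil .nil) (.node [⟨.x, .z, (K (.negSucc 27415697965487))⟩] .nil .nil .nil .nil .nil .nil) .nil .nil .nil .nil) (.node [⟨.x, .z, (B (K (.ofNat 4827279727944)) (K (.negSucc 18047376995039)) N N)⟩,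
  ⟨.x, T0, (K (.negSucc 28223177346863))⟩,
  ⟨.x, T2, (K (.negSucc 28131238590407))⟩] (.node [⟨.x, .z, (K (.negSucc 56056709229695))⟩] .nil .nil .nil .nil .nil .nil) (.node [⟨.x, .z, (K (.negSucc 50102829159551))⟩] .nil .nil .nil .nil .nil .nil) .nil .nil .nil .nil) .nil .nil .nil .nil) (.node [⟨.x, T8, (K (.negSucc 4122420837035))⟩,
  ⟨.x, T14, (K (.negSucc 4045026552743))⟩] .nil .nil .nil .nil .nil .nil) (.node [⟨.x, T8, (K (.ofNat 24552446043240))⟩,
  ⟨.x, T14, (K (.negSucc 4400322895079))⟩] .nil .nil .nil .nil .nil .nil) .nil .nil)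

def c_3 : Cert := (.node [⟨.x, .z, (C (C (C (A4 (K (.ofNat 43373505380256))) N N N (A0 (K (.ofNat 23229455231448))) N) N N N (B (B (K (.ofNat 2015768865456)) (K (.ofNat 77267175391584)) N N) (B (K (.ofNat 215407350896688)) (K (.ofNat 37030697684280)) N N) N N) N) (C (C (A4 (K (.ofNat 78697409580288))) N N N (B (K (.ofNat 87673460991912)) (K (.ofNat 16055531377560)) N N) N) (C (A4 (K (.negSucc 96130052802971))) (C N N N N (K (.negSucc 98413752425363)) (K (.ofNat 13041551195424))) N N (B (K (.negSucc 224288756257283)) (K (.ofNat 219975306819336)) N N) (B (K (.negSucc 5277307386095)) (K (.ofNat 5377279732128)) N N)) N N (B (B (K (.ofNat 112484949662304)) (K (.ofNat 79082650979820)) N N) (B (K (.ofNat 246701996946900)) (K (.negSucc 141472844428499)) N N) N N) (B (B (K (.negSucc 117387695519495)) (K (.ofNat 115712098630668)) N N) (B (K (.ofNat 253264623245028)) (K (.negSucc 1463244520463)) N N) N N)) N N (B (B (B (K (.negSucc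 22973269221263)) (K (.ofNat 15270426302304)) N N) (B (K (.ofNat 144197314663512)) (K (.ofNat 32314934644188)) N N) N N) (B (B (K (.negSucc 1509948368279)) (K (.negSucc 130865112931895)) N N) (B (K (.negSucc 72924872493275)) (K (.negSucc 22075914507119)) N N) N N) N N) (B (B (B (K (.negSucc 56695566005159)) (K (.ofNat 11961978020520)) N N) (B (K (.negSucc 87870581044859)) (K (.negSucc 58475932492235)) N N) N N) (B (B (K (.negSucc 182776523022719)) (K (.negSucc 132666769804607)) N N) (B (K (.negSucc 11670388384895)) (K (.ofNat 3666640977792)) N N) N N) N N))⟩,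
  ⟨.x, .w, (B (B (B (A2 (K (.ofNat 47577723860376))) N (A0 (K (.ofNat 44849147688072))) N) N (B (B (K (.ofNat 1339149000528)) (K (.negSucc 6917743982591)) N N) (B (K (.negSucc 126394095133583)) (K (.negSucc 75668013017135)) N N) N N) N) (B (B (A2 (K (.ofNat 45746895640860))) N (B (K (.ofNat 68910101531964)) (K (.ofNat 56939016561552)) N N) N) (B (A2 (K (.negSucc 31237502338403))) (B N N (K (.negSucc 16033863396419)) (K (.negSucc 31557158489375))) (B (K (.ofNat 343083458016)) (K (.negSucc 4825815455447)) N N) (B (K (.negSucc 23097422157335)) (K (.ofNat 35732576026512)) N N)) (B (B (K (.ofNat 55132783434792)) (K (.negSucc 6256425930767)) N N) (B (K (.negSucc 12044977015427)) (K (.negSucc 51984403964207)) N N) N N) (B (B (K (.ofNat 91046772505224)) (K (.ofNat 897086346120)) N N) (B (K (.negSucc 57157320263219)) (K (.negSucc 47725220101679)) N N) N N)) (B (B (B (K (.negSucc 63092817680807)) (K (.negSucc 109215023412119))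 N N) (B (K (.ofNat 7486643466300)) (K (.negSucc 32528317353923)) N N) N N) (B (B (K (.ofNat 102649232208600)) (K (.negSucc 31878958854311)) N N) (B (K (.negSucc 33538181940107)) (K (.negSucc 51596428048271)) N N) N N) N N) (B (B (B (K (.negSucc 57748581443111)) (K (.negSucc 24060792385271)) N N) (B (K (.negSucc 33478852165499)) (K (.negSucc 42185965110827)) N N) N N) (B (B (K (.negSucc 43330081669703)) (K (.negSucc 13285538096615)) N N) (B (K (.ofNat 45368120219868)) (K (.ofNat 23557966234704)) N N) N N) N N))⟩,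
  ⟨.z, .w, (B (B (B (A0 (K (.negSucc 56157078860519))) (A1 (K (.ofNat 18384470036268))) N N) (B (B (K (.negSucc 100506412606403)) (K (.negSucc 21433504848911)) N N) (B (K (.ofNat 67773352496040)) (K (.ofNat 39228651627528)) N N) N N) N N) (B (B (B (K (.negSucc 64529481865775)) (K (.negSucc 53499373822355)) N N) (B (K (.ofNat 72031180628640)) (K (.negSucc 9612290667239)) N N) N N) (B (B (K (.negSucc 26047576931519)) (K (.negSucc 82599148165259)) N N) (B (K (.ofNat 14216576667216)) (K (.negSucc 13798264710671)) N N) N N) N N) N N)⟩,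
  ⟨.x, T0, (C (C (A4 (K (.negSucc 3413779955711))) N N N (B (K (.ofNat 16166706177600)) (K (.negSucc 7687099353455)) N N) N) (C (A4 (K (.negSucc 73464755064479))) (C N N N N (K (.negSucc 10752548704271)) (K (.ofNat 12723450438240))) N N (B (K (.ofNat 4633856606448)) (K (.ofNat 43748401365504)) N N) (B (K (.ofNat 56293352869968)) (K (.ofNat 32310855888768)) N N)) N N (B (B (K (.ofNat 4143744991872)) (K (.negSucc 4174466187167)) N N) (B (K (.negSucc 40241284483967)) (K (.negSucc 48252243741983)) N N) N N) (B (B (K (.negSucc 52778481428879)) (K (.negSucc 38988665600399)) N N) (B (K (.ofNat 97498022618592)) (K (.negSucc 1720246856975)) N N) N N))⟩,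
  ⟨.x, T1, (B (B (A2 (K (.negSucc 16750819261583))) N (B (K (.ofNat 6131824574544)) (K (.negSucc 7513957704959)) N N) N) (B (A2 (K (.negSucc 3340144762559))) (B N N (K (.ofNat 21128449899168)) (K (.negSucc 16369496407871))) (B (K (.negSucc 56151088749503)) (K (.negSucc 64369849145615)) N N) (B (K (.negSucc 78789796049231)) (K (.negSucc 42970802403599)) N N)) (B (B (K (.ofNat 4493765460384)) (K (.negSucc 34298907716591)) N N) (B (K (.negSucc 105069730566095)) (K (.negSucc 80185378200911)) N N) N N) (B (B (K (.negSucc 26991596450951)) (K (.negSucc 9318910611815)) N N) (B (K (.ofNat 67712223009996)) (K (.ofNat 34892165891520)) N N) N N))⟩,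
  ⟨.x, T2, (C (C (A4 (K (.negSucc 45513291968495))) N N N (B (K (.negSucc 21611897413415)) (K (.negSucc 20986137109043)) N N) N) (C (A4 (K (.negSucc 8336945124755))) (C N N N N (K (.ofNat 87940220822856)) (K (.ofNat 24195204646848))) N N (B (K (.negSucc 5872866628175)) (K (.negSucc 129569104091663)) N N) (B (K (.negSucc 60575658289415)) (K (.negSucc 34818533772839)) N N)) N N (B (B (K (.negSucc 11415406985855)) (K (.negSucc 60324577274843)) N N) (B (K (.negSucc 165881700708227)) (K (.ofNat 50084516660868)) N N) N N) (B (B (K (.negSucc 1431389828159)) (K (.negSucc 57367489565519)) N N) (B (K (.negSucc 40826894631551)) (K (.ofNat 8203756896864)) N N) N N))⟩,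
  ⟨.x, T4, (B (B (B (K (.ofNat 16421091079008)) (K (.negSucc 42945873307679)) N N) (B (K (.ofNat 52117857440376)) (K (.negSucc 2666995868039)) N N) N N) (B (B (K (.ofNat 64721262392280)) (K (.ofNat 5778779292792)) N N) (B (K (.negSucc 3955966117739)) (K (.negSucc 6549954912143)) N N) N N) N N)⟩,
  ⟨.x, T5, (B (B (A2 (K (.negSucc 67494667576427))) N (B (K (.negSucc 80157438017675)) (K (.ofNat 7017027445152)) N N) N) (B (A2 (K (.ofNat 27167232348540))) (B N N (K (.ofNat 26655317953812)) (K (.negSucc 7900290694511))) (B (K (.negSucc 46786947794711)) (K (.negSucc 21759719183783)) N N) (B (K (.negSucc 63382708019447)) (K (.negSucc 21373478249327)) N N)) (B (B (K (.negSucc 11234057368319)) (K (.negSucc 83340985029767)) N N) (B (K (.negSucc 50045871100679)) (K (.ofNat 34989497352576)) N N) N N) (B (B (K (.ofNat 13715998123824)) (K (.ofNat 77581941054192)) N N) (B (K (.ofNat 27906178219992)) (K (.ofNat 24082601311872)) N N)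 N N))⟩,
  ⟨.x, T6, (B (B (B (K (.ofNat 56391313255656)) (K (.ofNat 11743155711624)) N N) (B (K (.ofNat 18103883449836)) (K (.ofNat 24430398974988)) N N) N N) (B (B (K (.ofNat 85508676744048)) (K (.ofNat 58961067691104)) N N) (B (K (.ofNat 3288148839792)) (K (.ofNat 16778253856176)) N N) N N) N N)⟩,
  ⟨.z, T1, (A0 (B (B (K (.negSucc 10075912031423)) (K (.ofNat 33554519674032)) N N) (B (K (.ofNat 55314891985080)) (K (.ofNat 48924798920232)) N N) N N))⟩,
  ⟨.z, T5, (A0 (B (B (K (.ofNat 58795222908504)) (K (.ofNat 97811275084008)) N N) (B (K (.ofNat 4212126789396)) (K (.ofNat 36907824764532)) N N) N N))⟩,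
  ⟨.x, T8, (C N N (A4 (K (.ofNat 16724502638640))) (C N N N N (K (.negSucc 19048980125591)) (K (.negSucc 1873291888511))) (B N N (K (.ofNat 4051161234000)) (K (.ofNat 12531440031552))) (B N N (K (.negSucc 7404157710359)) (K (.ofNat 373795576848))))⟩,
  ⟨.x, T9, (C N (C N N N N (K (.ofNat 27928124027136)) (K (.ofNat 1995877878192))) N N (B (K (.ofNat 9994647620448)) (K (.negSucc 11597280795071)) N N) (A1 (K (.negSucc 1856572810703))))⟩,
  ⟨.x, T10, (B N (A3 (K (.ofNat 2180589278976))) N (A1 (K (.negSucc 161483694335))))⟩,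
  ⟨.x, T12, (A1 (B (K (.negSucc 17163962736911)) (K (.negSucc 3998577073535)) N N))⟩,
  ⟨.x, T14, (C N N (A4 (K (.negSucc 1859456624975))) (C N N N N (K (.ofNat 29503922672232)) (K (.ofNat 301952384496))) (B N N (K (.negSucc 2335725365327)) (K (.negSucc 14133280692095))) (B N N (K (.negSucc 3791832892487)) (K (.negSucc 1235364261839))))⟩,
  ⟨.x, T15, (C (A4 (K (.negSucc 5429257451423))) (C N N N N (K (.negSucc 41627982773231)) (K (.negSucc 420625413503))) N N (B (K (.negSucc 12982568114447)) (K (.ofNat 4367766392064)) N N) (B (K (.negSucc 39823363201103)) (K (.negSucc 27967550102927)) N N))⟩,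
  ⟨.x, T16, (B (A2 (K (.negSucc 14021541355823))) (B N N (K (.negSucc 32170925207807)) (K (.negSucc 25007929367039))) (B (K (.negSucc 8128601420975)) (K (.negSucc 39291352438607)) N N) (B (K (.negSucc 55800158005151)) (K (.negSucc 23243130768527)) N N))⟩,
  ⟨.x, T17, (C (A4 (K (.ofNat 7747164143856))) (C N N N N (K (.negSucc 4652562584735)) (K (.ofNat 21173855131008))) N N (B (K (.ofNat 15071908742496)) (K (.negSucc 10014898485167)) N N) (B (K (.ofNat 67224303342144)) (K (.ofNat 62299117257696)) N N))⟩,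
  ⟨.x, T19, (B (B (K (.ofNat 16733535637968)) (K (.ofNat 13316729754960)) N N) (B (K (.ofNat 72134801320752)) (K (.ofNat 18092777732352)) N N) N N)⟩,
  ⟨.x, T20, (B (A2 (K (.negSucc 9782215884431))) (B N N (K (.negSucc 11391417716975)) (K (.negSucc 3922848647279))) (B (K (.ofNat 3283075022832)) (K (.negSucc 12263561722799)) N N) (B (K (.negSucc 59243493766895)) (K (.negSucc 48852252445823)) N N))⟩,
  ⟨.x, T21, (A0 (B (K (.negSucc 13397771019311)) (K (.negSucc 28103429263535)) N N))⟩,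
  ⟨.x, T22, (C N (C N N N N (K (.ofNat 29934764674560)) (K (.negSucc 4211057236463))) N N N (A1 (K (.ofNat 167783000832))))⟩,
  ⟨.x, T24, (B (B (K (.ofNat 12157856668224)) (K (.ofNat 8309723277456)) N N) (B (K (.ofNat 19473655613904)) (K (.ofNat 15685068738816)) N N) N N)⟩,
  ⟨.x, T27, (B (B (K (.ofNat 19059235126992)) (K (.ofNat 28625673220272)) N N) (B (K (.ofNat 32331442539600)) (K (.ofNat 16821161921376)) N N) N N)⟩,
  ⟨.x, T29, (B N (B N N (K (.negSucc 7859169330911)) (K (.ofNat 3767882465232))) N (A1 (K (.negSucc 4977862888751))))⟩,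
  ⟨.x, T30, (A1 (B (K (.negSucc 21533801166431)) (K (.negSucc 7899472120607)) N N))⟩,
  ⟨.z, T16, (A0 (B (K (.negSucc 5650589013551)) (K (.negSucc 14164973356463)) N N))⟩,
  ⟨.x, T32, (A5 (K (.negSucc 66875590655)))⟩,
  ⟨.x, T33, (A3 (K (.negSucc 462727489535)))⟩,
  ⟨.x, T35, (A1 (K (.negSucc 450849245183)))⟩,
  ⟨.x, T37, (C N N N N (K (.ofNat 1298161803600)) (K (.negSucc 1977179697359)))⟩,
  ⟨.x, T38, (B N N (K (.ofNat 4155063988896)) (K (.ofNat 2316581644752)))⟩,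
  ⟨.x, T39, (C N N N N (K (.negSucc 4417932664223)) (K (.ofNat 5639982507216)))⟩,
  ⟨.x, T41, (B (K (.negSucc 9753493468463)) (K (.ofNat 5669674763616)) N N)⟩,
  ⟨.x, T42, (B N N (K (.ofNat 5737618000368)) (K (.negSucc 3287709191807)))⟩,
  ⟨.x, T43, (A0 (K (.ofNat 3563748742752)))⟩,
  ⟨.x, T44, (A4 (K (.ofNat 3142044808272)))⟩,
  ⟨.x, T46, (A0 (K (.ofNat 1701283645152)))⟩,
  ⟨.x, T49, (A0 (K (.ofNat 4226478653232)))⟩,
  ⟨.x, T51, (A2 (K (.ofNat 3296485160352)))⟩,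
  ⟨.x, T52, (A0 (K (.negSucc 3841575793055)))⟩,
  ⟨.x, T53, (A5 (K (.ofNat 34496140032)))⟩,
  ⟨.x, T55, (A1 (K (.negSucc 871600704767)))⟩,
  ⟨.x, T56, (A5 (K (.ofNat 783197102592)))⟩,
  ⟨.x, T58, (B (K (.ofNat 338586781104)) (K (.negSucc 7419685119983)) N N)⟩,
  ⟨.x, T60, (B (K (.negSucc 2146179481487)) (K (.ofNat 2853318223872)) N N)⟩,
  ⟨.x, T61, (A1 (K (.ofNat 1900584974592)))⟩,
  ⟨.x, T62, (A3 (K (.ofNat 147013429248)))⟩,
  ⟨.x, T64, (A3 (K (.ofNat 69931558656)))⟩,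
  ⟨.x, T65, (A1 (K (.negSucc 45915289343)))⟩,
  ⟨.z, T38, (A0 (K (.ofNat 2823021614592)))⟩,
  ⟨.z, T42, (A0 (K (.negSucc 10491112609775)))⟩,
  ⟨.x, T67, (K (.ofNat 3399210814032))⟩,
  ⟨.x, T68, (K (.negSucc 1194539574095))⟩,
  ⟨.x, T70, (K (.ofNat 10855923849360))⟩,
  ⟨.x, T106, (K (.ofNat 15726965962032))⟩,
  ⟨.x, T73, (K (.negSucc 129157431551))⟩,
  ⟨.x, T107, (K (.negSucc 9601698560831))⟩,
  ⟨.x, T108, (K (.negSucc 3613801387679))⟩,
  ⟨.x, T109, (K (.negSucc 766657363967))⟩,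
  ⟨.x, T111, (K (.ofNat 376139925504))⟩,
  ⟨.x, T75, (K (.negSucc 2507692476239))⟩,
  ⟨.x, T112, (K (.negSucc 6403476721823))⟩,
  ⟨.x, T113, (K (.negSucc 1406678959871))⟩,
  ⟨.x, T114, (K (.negSucc 34895702015))⟩,
  ⟨.x, T116, (K (.negSucc 25113618431))⟩,
  ⟨.x, T76, (K (.ofNat 108041859072))⟩,
  ⟨.z, T77, (K (.negSucc 2139786588239))⟩,
  ⟨.z, T117, (K (.negSucc 4103673711263))⟩] c_30 c_31 c_32 c_33 c_34 c_35)

def c_400 : Cert := (.node [⟨.x, .z, (B (A2 (K (.negSucc 30979680689807))) (B N N (K (.ofNat 680279792544)) (K (.ofNat 34924267654848))) (B (K (.negSucc 6903701250695)) (K (.ofNat 748529659440)) N N) (B (K (.negSucc 52515995872319)) (K (.negSucc 6664132106063)) N N))⟩,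
  ⟨.x, T0, (B N N (K (.ofNat 7086678812496)) (K (.ofNat 42105243952656)))⟩,
  ⟨.x, T2, (B N N (K (.ofNat 35248957068096)) (K (.ofNat 656291884032)))⟩,
  ⟨.x, T3, (B (K (.negSucc 62845999942391)) (K (.negSucc 12474772774127)) N N)⟩,
  ⟨.z, T0, (A0 (K (.negSucc 28786099447151)))⟩,
  ⟨.x, T11, (K (.negSucc 60411121919))⟩,
  ⟨.x, T18, (K (.ofNat 5864673506976))⟩,
  ⟨.x, T23, (K (.negSucc 6606367720271))⟩,
  ⟨.x, T25, (K (.ofNat 6388291584))⟩,
  ⟨.z, T15, (K (.negSucc 6057447003215))⟩,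
  ⟨.z, T17, (K (.negSucc 280485455615))⟩] (.node [⟨.x, .z, (B N N (K (.negSucc 9649053055583)) (K (.negSucc 44532450659231)))⟩,
  ⟨.x, T3, (K (.negSucc 44898010123679))⟩,
  ⟨.z, T0, (K (.negSucc 44734232260511))⟩] .nil .nil (.node [⟨.x, .z, (K (.ofNat 219091350528))⟩] .nil .nil .nil .nil .nil .nil) (.node [⟨.x, .z, (K (.ofNat 45115238524320))⟩] .nil .nil .nil .nil .nil .nil) .nil .nil) (.node [⟨.x, .z, (B N N (K (.ofNat 43359351541920)) (K (.ofNat 3372472033200)))⟩,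
  ⟨.x, T3, (K (.negSucc 12862319499359))⟩,
  ⟨.z, T0, (K (.ofNat 28107917455248))⟩] .nil .nil (.node [⟨.x, .z, (K (.negSucc 33946329980735))⟩] .nil .nil .nil .nil .nil .nil) (.node [⟨.x, .z, (K (.ofNat 4591854471456))⟩] .nil .nil .nil .nil .nil .nil) .nil .nil) (.node [⟨.x, .z, (B (K (.ofNat 13074667390584)) (K (.ofNat 33937383532464)) N N)⟩,
  ⟨.x, T0, (K (.ofNat 34477733915568))⟩,
  ⟨.x, T2, (K (.ofNat 548920717056))⟩] (.node [⟨.x, .z, (K (.ofNat 548920717056))⟩] .nil .nil .nil .nil .nil .nil) (.node [⟨.x, .z, (K (.negSucc 21216351910175))⟩] .nil .nil .nil .nil .nil .nil) .nil .nil .nil .nil) (.node [⟨.x, .z, (B (K (.ofNat 10481381229240)) (K (.negSucc 7730624727935)) N N)⟩,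
  ⟨.x, T0, (K (.ofNat 13871648731680))⟩,
  ⟨.x, T2, (K (.ofNat 28827589007088))⟩] (.node [⟨.x, .z, (K (.ofNat 27288674743536))⟩] .nil .nil .nil .nil .nil .nil) (.node [⟨.x, .z, (K (.negSucc 14863896507743))⟩] .nil .nil .nil .nil .nil .nil) .nil .nil .nil .nil) .nil .nil)

def c_401 : Cert := (.node [⟨.x, .z, (B (A2 (K (.ofNat 49782340219392))) (B N N (K (.ofNat 11164753656792)) (K (.negSucc 40455801841751))) (B (K (.negSucc 12184543116719)) (K (.negSucc 18635616782783)) N N) (B (K (.negSucc 547349673455)) (K (.ofNat 27627374314224)) N N))⟩,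
  ⟨.x, T0, (B N N (K (.negSucc 2353288624487)) (K (.negSucc 36940140060335)))⟩,
  ⟨.x, T2, (B N N (K (.negSucc 53736400040471)) (K (.negSucc 10224515200535)))⟩,
  ⟨.x, T3, (B (K (.negSucc 15572702687039)) (K (.ofNat 40506445101960)) N N)⟩,
  ⟨.z, T0, (A0 (K (.negSucc 32265078988823)))⟩,
  ⟨.x, T11, (K (.ofNat 7944251472648))⟩,
  ⟨.x, T18, (K (.negSucc 10848522905063))⟩,
  ⟨.x, T23, (K (.negSucc 9929713017815))⟩,
  ⟨.x, T25, (K (.ofNat 13584316419288))⟩,
  ⟨.z, T15, (K (.ofNat 8971870792248))⟩,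
  ⟨.z, T17, (K (.negSucc 578384300519))⟩] (.node [⟨.x, .z, (B N N (K (.ofNat 16679450212344)) (K (.ofNat 57501225561600)))⟩,
  ⟨.x, T3, (K (.ofNat 58361393435184))⟩,
  ⟨.z, T0, (K (.ofNat 49715967649968))⟩] .nil .nil (.node [⟨.x, .z, (K (.negSucc 25551338722415))⟩] .nil .nil .nil .nil .nil .nil) (.node [⟨.x, .z, (K (.negSucc 28091651631407))⟩] .nil .nil .nil .nil .nil .nil) .nil .nil) (.node [⟨.x, .z, (B N N (K (.negSucc 46301382931823)) (K (.negSucc 11674025147951)))⟩,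
  ⟨.x, T3, (K (.ofNat 3023087947992))⟩,
  ⟨.z, T0, (K (.negSucc 50063831599103))⟩] .nil .nil (.node [⟨.x, .z, (K (.ofNat 14748602556672))⟩] .nil .nil .nil .nil .nil .nil) (.node [⟨.x, .z, (K (.ofNat 19417077682776))⟩] .nil .nil .nil .nil .nil .nil) .nil .nil) (.node [⟨.x, .z, (B (K (.negSucc 39809126733047)) (K (.negSucc 21526346493071)) N N)⟩,
  ⟨.x, T0, (K (.negSucc 42714883596815))⟩,
  ⟨.x, T2, (K (.ofNat 16220241240336))⟩] (.node [⟨.x, .z, (K (.ofNat 23738082736608))⟩] .nil .nil .nil .nil .nil .nil) (.node [⟨.x, .z, (K (.ofNat 33259485553992))⟩] .nil .nil .nil .nil .nil .nil) .nil .nil .nil .nil) (.node [⟨.x, .z, (B (K (.ofNat 58396852042416)) (K (.ofNat 34469334220320)) N N)⟩,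
  ⟨.x, T0, (K (.ofNat 1572126344496))⟩,
  ⟨.x, T2, (K (.negSucc 53301461885351))⟩] (.node [⟨.x, .z, (K (.negSucc 36828255083687))⟩] .nil .nil .nil .nil .nil .nil) (.node [⟨.x, .z, (K (.negSucc 9767247426575))⟩] .nil .nil .nil .nil .nil .nil) .nil .nil .nil .nil) .nil .nil)

def c_40 : Cert := (.node [⟨.x, .z, (B (B (A2 (K (.negSucc 11086714384991))) N (B (K (.negSucc 9979570490111)) (K (.ofNat 25521959181312)) N N) N) (B (A2 (K (.negSucc 14057986600799))) (B N N (K (.negSucc 13797612401039)) (K (.ofNat 5326780029264))) (B (K (.ofNat 4347149961960)) (K (.ofNat 5850909431424)) N N) (B (K (.ofNat 17582856469488)) (K (.negSucc 27553511482559)) N N)) (B (B (K (.negSucc 10950438617423)) (K (.negSucc 42933153245759)) N N) (B (K (.ofNat 16440806332008)) (K (.ofNat 10020109908816)) N N) N N) (B (B (K (.negSucc 164988034271)) (K (.negSucc 23901067370447)) N N) (B (K (.ofNat 7616617752168)) (K (.ofNat 3694257279360)) N N) N N))⟩,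
  ⟨.x, T0, (B (A2 (K (.ofNat 1177165314720))) (B N N (K (.ofNat 13911438772512)) (K (.ofNat 22068106972560))) (B (K (.ofNat 2043486058248)) (K (.ofNat 6230527145280)) N N) (B (K (.ofNat 21460039182000)) (K (.negSucc 31046329242431)) N N))⟩,
  ⟨.x, T2, (B (A2 (K (.ofNat 10711866235392))) (B N N (K (.negSucc 9251023935455)) (K (.negSucc 7469224824527))) (B (K (.ofNat 11037900276432)) (K (.negSucc 30991561648847)) N N) (B (K (.ofNat 10815779992392)) (K (.negSucc 130184796671)) N N))⟩,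
  ⟨.x, T3, (B (B (K (.negSucc 30275455506911)) (K (.negSucc 33848744809967)) N N) (B (K (.negSucc 35656052743871)) (K (.negSucc 1728213655535)) N N) N N)⟩,
  ⟨.z, T0, (A0 (B (K (.ofNat 1041427855944)) (K (.negSucc 69305581948607)) N N))⟩,
  ⟨.x, T9, (B N N (K (.negSucc 58183020143)) (K (.ofNat 118998927360)))⟩,
  ⟨.x, T11, (A1 (K (.ofNat 117358315776)))⟩,
  ⟨.x, T15, (B N N (K (.negSucc 12171924202607)) (K (.negSucc 19946980942271)))⟩,
  ⟨.x, T17, (B N N (K (.ofNat 3006321556896)) (K (.ofNat 7388579555280)))⟩,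
  ⟨.x, T18, (B (K (.ofNat 38006780789160)) (K (.ofNat 11361295770912)) N N)⟩,
  ⟨.x, T22, (A3 (K (.ofNat 82646065152)))⟩,
  ⟨.x, T23, (B (K (.negSucc 3287618370791)) (K (.ofNat 9211020691392)) N N)⟩,
  ⟨.x, T25, (B (K (.negSucc 13904912212487)) (K (.negSucc 5063924594303)) N N)⟩,
  ⟨.z, T15, (A0 (K (.negSucc 23147445625343)))⟩,
  ⟨.z, T17, (A0 (K (.negSucc 796024546703)))⟩,
  ⟨.x, T34, (K (.ofNat 262046969856))⟩,
  ⟨.x, T40, (K (.ofNat 6206768564400))⟩,
  ⟨.x, T45, (K (.ofNat 5462585718336))⟩,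
  ⟨.x, T47, (K (.negSucc 5194109390975))⟩,
  ⟨.x, T54, (K (.negSucc 12160979711))⟩,
  ⟨.x, T57, (K (.negSucc 3591390690431))⟩,
  ⟨.x, T59, (K (.negSucc 7561817855))⟩,
  ⟨.z, T37, (K (.negSucc 3430697721983))⟩] c_400 c_401 (.node [⟨.x, .z, (B (B (K (.ofNat 30133374274584)) (K (.ofNat 568349821152)) N N) (B (K (.ofNat 24973588077192)) (K (.negSucc 27356645925503)) N N) N N)⟩,
  ⟨.x, T0, (B (K (.ofNat 18564996701304)) (K (.negSucc 45213345220607)) N N)⟩,
  ⟨.x, T2, (B (K (.ofNat 1650808059048)) (K (.ofNat 10056747856032)) N N)⟩,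
  ⟨.x, T9, (K (.negSucc 198563270399))⟩,
  ⟨.x, T15, (K (.ofNat 17140631965056))⟩,
  ⟨.x, T17, (K (.negSucc 10482840494495))⟩] (.node [⟨.x, .z, (B (K (.ofNat 1841809511592)) (K (.negSucc 343446573311)) N N)⟩,
  ⟨.x, T0, (K (.negSucc 224272592639))⟩,
  ⟨.x, T2, (K (.negSucc 191001452543))⟩] (.node [⟨.x, .z, (K (.negSucc 82646065151))⟩] .nil .nil .nil .nil .nil .nil) (.node [⟨.x, .z, (K (.negSucc 19185569010863))⟩] .nil .nil .nil .nil .nil .nil) .nil .nil .nil .nil) (.node [⟨.x, .z, (B (K (.negSucc 23872223597543)) (K (.ofNat 27302648518800)) N N)⟩,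
  ⟨.x, T0, (K (.ofNat 3408283693152))⟩,
  ⟨.x, T2, (K (.ofNat 16786042381152))⟩] (.node [⟨.x, .z, (K (.ofNat 6434710593984))⟩] .nil .nil .nil .nil .nil .nil) (.node [⟨.x, .z, (K (.ofNat 6673056900336))⟩] .nil .nil .nil .nil .nil .nil) .nil .nil .nil .nil) .nil .nil .nil .nil) (.node [⟨.x, .z, (B (B (K (.negSucc 29958430785047)) (K (.ofNat 39147950344896)) N N) (B (K (.ofNat 37131866092224)) (K (.ofNat 21750326251056)) N N) N N)⟩,
  ⟨.x, T0, (B (K (.ofNat 69197896136016)) (K (.negSucc 21079177638191)) N N)⟩,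
  ⟨.x, T2, (B (K (.ofNat 9263394459072)) (K (.negSucc 26609968141631)) N N)⟩,
  ⟨.x, T9, (K (.ofNat 10170768913488))⟩,
  ⟨.x, T15, (K (.ofNat 3751976994624))⟩,
  ⟨.x, T17, (K (.negSucc 4868730133775))⟩,
  ⟨.x, T22, (K (.ofNat 1842477437376))⟩] (.node [⟨.x, .z, (B (K (.ofNat 6043692819384)) (K (.negSucc 16236480545855)) N N)⟩,
  ⟨.x, T0, (K (.ofNat 10857465939456))⟩,
  ⟨.x, T2, (K (.negSucc 7342855555535))⟩] (.node [⟨.x, .z, (K (.negSucc 10239401767823))⟩] .nil .nil .nil .nil .nil .nil) (.node [⟨.x, .z, (K (.negSucc 14279411941919))⟩] .nil .nil .nil .nil .nil .nil) .nil .nil .nil .nil) (.node [⟨.x, .z, (B (K (.negSucc 39380512315679)) (K (.negSucc 24143029414415)) N N)⟩,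
  ⟨.x, T0, (K (.negSucc 2212874491391))⟩,
  ⟨.x, T2, (K (.ofNat 23863751117136))⟩] (.node [⟨.x, .z, (K (.ofNat 16281245358720))⟩] .nil .nil .nil .nil .nil .nil) (.node [⟨.x, .z, (K (.negSucc 2444438780927))⟩] .nil .nil .nil .nil .nil .nil) .nil .nil .nil .nil) .nil .nil .nil .nil) .nil .nil)

def c_410 : Cert := (.node [⟨.x, .z, (B (A2 (K (.negSucc 3385763577047978))) (B N N (K (.negSucc 142027513867394)) (K (.ofNat 3203960627627307))) (B (K (.ofNat 2401745116971429)) (K (.ofNat 1261785433429494)) N N) (B (K (.negSucc 586569638069)) (K (.negSucc 605876049129041)) N N))⟩,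
  ⟨.x, T0, (B N N (K (.ofNat 264036225898089)) (K (.ofNat 3899055390667335)))⟩,
  ⟨.x, T2, (B N N (K (.ofNat 3679882524911241)) (K (.ofNat 119768938717914)))⟩,
  ⟨.x, T3, (B (K (.negSucc 767385076783985)) (K (.negSucc 1493602202697812)) N N)⟩,
  ⟨.z, T0, (A0 (K (.ofNat 3301180458790104)))⟩,
  ⟨.x, T11, (K (.negSucc 225044282045402))⟩,
  ⟨.x, T18, (K (.ofNat 1434296893598532))⟩,
  ⟨.x, T23, (K (.negSucc 552763871716958))⟩,
  ⟨.x, T25, (K (.negSucc 115954408341017))⟩,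
  ⟨.z, T15, (K (.negSucc 452893074590393))⟩,
  ⟨.z, T17, (K (.ofNat 24103690711443))⟩] (.node [⟨.x, .z, (B N N (K (.negSucc 1188450207925577)) (K (.negSucc 4465148278732937)))⟩,
  ⟨.x, T3, (K (.negSucc 4868520996311378))⟩,
  ⟨.z, T0, (K (.negSucc 4570543327964075))⟩] .nil .nil (.node [⟨.x, .z, (K (.ofNat 402179267558457))⟩] .nil .nil .nil .nil .nil .nil) (.node [⟨.x, .z, (K (.ofNat 4639418038032543))⟩] .nil .nil .nil .nil .nil .nil) .nil .nil) (.node [⟨.x, .z, (B N N (K (.ofNat 3814089696693243)) (K (.ofNat 368652723347340)))⟩,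
  ⟨.x, T3, (K (.negSucc 1019893499690003))⟩,
  ⟨.z, T0, (K (.ofNat 3022389665584578))⟩] .nil .nil (.node [⟨.x, .z, (K (.negSucc 3017015742113540))⟩] .nil .nil .nil .nil .nil .nil) (.node [⟨.x, .z, (K (.ofNat 469741898144772))⟩] .nil .nil .nil .nil .nil .nil) .nil .nil) (.node [⟨.x, .z, (B (K (.ofNat 675101737837431)) (K (.ofNat 2931440724867141)) N N)⟩,
  ⟨.x, T0, (K (.ofNat 3445980093033498))⟩,
  ⟨.x, T2, (K (.ofNat 68550454582965))⟩] (.node [⟨.x, .z, (K (.ofNat 67349976060789))⟩] .nil .nil .nil .nil .nil .nil) (.node [⟨.x, .z, (K (.negSucc 2953720508346062))⟩] .nil .nil .nil .nil .nil .nil) .nil .nil .nil .nil) (.node [⟨.x, .z, (B (K (.negSucc 3505724057716928)) (K (.negSucc 2080944107074439)) N N)⟩,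
  ⟨.x, T0, (K (.ofNat 758719568472264))⟩,
  ⟨.x, T2, (K (.ofNat 3106682427048219))⟩] (.node [⟨.x, .z, (K (.ofNat 3263864331231792))⟩] .nil .nil .nil .nil .nil .nil) (.node [⟨.x, .z, (K (.negSucc 826240929935552))⟩] .nil .nil .nil .nil .nil .nil) .nil .nil .nil .nil) .nil .nil)

def c_411 : Cert := (.node [⟨.x, .z, (B (A2 (K (.ofNat 3068759360261169))) (B N N (K (.ofNat 243873725362497)) (K (.negSucc 2679150498117335))) (B (K (.negSucc 3411211423199687)) (K (.negSucc 1592276935643630)) N N) (B (K (.negSucc 401932924403147)) (K (.ofNat 2037575873504736)) N N))⟩,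
  ⟨.x, T0, (B N N (K (.negSucc 32697459618974)) (K (.negSucc 1955871501918263)))⟩,
  ⟨.x, T2, (B N N (K (.negSucc 2302122807078443)) (K (.negSucc 317980533148208)))⟩,
  ⟨.x, T3, (B (K (.negSucc 396266189661386)) (K (.ofNat 2713866405452181)) N N)⟩,
  ⟨.z, T0, (A0 (K (.negSucc 3101242720026095)))⟩,
  ⟨.x, T11, (K (.negSucc 210376085105114))⟩,
  ⟨.x, T18, (K (.ofNat 158036901073695))⟩,
  ⟨.x, T23, (K (.negSucc 557593695185129))⟩,
  ⟨.x, T25, (K (.ofNat 315789989329521))⟩,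
  ⟨.z, T15, (K (.ofNat 609578310364974))⟩,
  ⟨.z, T17, (K (.negSucc 327893779578149))⟩] (.node [⟨.x, .z, (B N N (K (.ofNat 200388981865050)) (K (.ofNat 3064987124899137)))⟩,
  ⟨.x, T3, (K (.ofNat 2316100952527587))⟩,
  ⟨.z, T0, (K (.ofNat 2416503844292481))⟩] .nil .nil (.node [⟨.x, .z, (K (.negSucc 420956125993853))⟩] .nil .nil .nil .nil .nil .nil) (.node [⟨.x, .z, (K (.negSucc 1190669011811423))⟩] .nil .nil .nil .nil .nil .nil) .nil .nil) (.node [⟨.x, .z, (B N N (K (.negSucc 2271458100424040)) (K (.ofNat 698169441135150)))⟩,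
  ⟨.x, T3, (K (.ofNat 263202641200449))⟩,
  ⟨.z, T0, (K (.negSucc 2147379847483463))⟩] .nil .nil (.node [⟨.x, .z, (K (.ofNat 1532724832105722))⟩] .nil .nil .nil .nil .nil .nil) (.node [⟨.x, .z, (K (.ofNat 42668129058885))⟩] .nil .nil .nil .nil .nil .nil) .nil .nil) (.node [⟨.x, .z, (B (K (.ofNat 357256808505747)) (K (.negSucc 1356612477702740)) N N)⟩,
  ⟨.x, T0, (K (.negSucc 2400898538676212))⟩,
  ⟨.x, T2, (K (.ofNat 347016572386272))⟩] (.node [⟨.x, .z, (K (.ofNat 1413239915348217))⟩] .nil .nil .nil .nil .nil .nil) (.node [⟨.x, .z, (K (.ofNat 1921750458816618))⟩] .nil .nil .nil .nil .nil .nil) .nil .nil .nil .nil) (.node [⟨.x, .z, (B (K (.ofNat 3032569320952005)) (K (.ofNat 510529056582699)) N N)⟩,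
  ⟨.x, T0, (K (.negSucc 328920542514773))⟩,
  ⟨.x, T2, (K (.negSucc 3062836726515746))⟩] (.node [⟨.x, .z, (K (.negSucc 2006526629983742))⟩] .nil .nil .nil .nil .nil .nil) (.node [⟨.x, .z, (K (.negSucc 367381004997815))⟩] .nil .nil .nil .nil .nil .nil) .nil .nil .nil .nil) .nil .nil)

def c_41 : Cert := (.node [⟨.x, .z, (B (B (A2 (K (.negSucc 751425637250123))) N (B (K (.ofNat 1169257914727416)) (K (.ofNat 1721974590834903)) N N) N) (B (A2 (K (.negSucc 654959919584474))) (B N N (K (.negSucc 429656959064078)) (K (.negSucc 358009145044037))) (B (K (.ofNat 809085337814799)) (K (.negSucc 19602719839628)) N N) (B (K (.negSucc 455786235150218)) (K (.negSucc 1401302158541243)) N N)) (B (B (K (.negSucc 508366295778851)) (K (.negSucc 1648098994510718)) N N) (B (K (.ofNat 23772977188704)) (K (.negSucc 982298684642795)) N N) N N) (B (B (K (.negSucc 57533212577645)) (K (.negSucc 79021148258816)) N N) (B (K (.ofNat 471565321522956))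 (K (.ofNat 425732043462606)) N N) N N))⟩,
  ⟨.x, T0, (B (A2 (K (.negSucc 74278851662186))) (B N N (K (.ofNat 593867971991277)) (K (.ofNat 632618188161966))) (B (K (.ofNat 90664124550570)) (K (.ofNat 294757627430997)) N N) (B (K (.negSucc 941481483235154)) (K (.negSucc 2087731903231691)) N N))⟩,
  ⟨.x, T2, (B (A2 (K (.ofNat 560270560916934))) (B N N (K (.negSucc 918191115992753)) (K (.negSucc 560549051281664))) (B (K (.negSucc 1591945391828033)) (K (.negSucc 2600647027805402)) N N) (B (K (.ofNat 533016511285419)) (K (.negSucc 183301639402931)) N N))⟩,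
  ⟨.x, T3, (B (B (K (.negSucc 602318225440880)) (K (.negSucc 151099691042339)) N N) (B (K (.negSucc 55254665260025)) (K (.ofNat 1032083629808715)) N N) N N)⟩,
  ⟨.z, T0, (A0 (B (K (.negSucc 1197515789071883)) (K (.negSucc 2584844448560234)) N N))⟩,
  ⟨.x, T9, (B N N (K (.ofNat 190376108013069)) (K (.ofNat 76986386472024)))⟩,
  ⟨.x, T11, (A1 (K (.ofNat 463318345130850)))⟩,
  ⟨.x, T15, (B N N (K (.negSucc 412393316466410)) (K (.negSucc 775417630459607)))⟩,
  ⟨.x, T17, (B N N (K (.ofNat 108532770747327)) (K (.ofNat 813010491339453)))⟩,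
  ⟨.x, T18, (B (K (.ofNat 106577244176904)) (K (.negSucc 828694408495814)) N N)⟩,
  ⟨.x, T22, (A3 (K (.negSucc 5537835257471)))⟩,
  ⟨.x, T23, (B (K (.ofNat 579901782592809)) (K (.ofNat 894841333537608)) N N)⟩,
  ⟨.x, T25, (B (K (.negSucc 534665095392266)) (K (.negSucc 129319507738871)) N N)⟩,
  ⟨.z, T15, (A0 (K (.negSucc 271443007851677)))⟩,
  ⟨.z, T17, (A0 (K (.ofNat 367316551221723)))⟩,
  ⟨.x, T34, (K (.ofNat 247378587886170))⟩,
  ⟨.x, T40, (K (.negSucc 169688785692149))⟩,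
  ⟨.x, T45, (K (.ofNat 644079236816736))⟩,
  ⟨.x, T47, (K (.negSucc 322159045102235))⟩,
  ⟨.x, T54, (K (.ofNat 390443180144220))⟩,
  ⟨.x, T57, (K (.negSucc 321009199566659))⟩,
  ⟨.x, T59, (K (.ofNat 259978254248988))⟩,
  ⟨.z, T37, (K (.negSucc 142580246295545))⟩] c_410 c_411 (.node [⟨.x, .z, (B (B (K (.ofNat 573735144735198)) (K (.negSucc 644015700427454)) N N) (B (K (.ofNat 435270077949222)) (K (.negSucc 1435387853572532)) N N) N N)⟩,
  ⟨.x, T0, (B (K (.ofNat 284126564922003)) (K (.negSucc 2224709201535542)) N N)⟩,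
  ⟨.x, T2, (B (K (.ofNat 187372833452289)) (K (.ofNat 899179528252491)) N N)⟩,
  ⟨.x, T9, (K (.ofNat 388416699815382))⟩,
  ⟨.x, T15, (K (.ofNat 334767519268272))⟩,
  ⟨.x, T17, (K (.negSucc 739115964466010))⟩,
  ⟨.x, T22, (K (.ofNat 178794988948548))⟩] (.node [⟨.x, .z, (B (K (.ofNat 194845413265929)) (K (.ofNat 293844217430970)) N N)⟩,
  ⟨.x, T0, (K (.ofNat 568557984639114))⟩,
  ⟨.x, T2, (K (.ofNat 1571110325424))⟩] (.node [⟨.x, .z, (K (.negSucc 178441860003731))⟩] .nil .nil .nil .nil .nil .nil) (.node [⟨.x, .z, (K (.negSucc 1473532284172751))⟩] .nil .nil .nil .nil .nil .nil) .nil .nil .nil .nil) (.node [⟨.x, .z, (B (K (.ofNat 90526034497734)) (K (.ofNat 1721976048427176)) N N)⟩,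
  ⟨.x, T0, (K (.ofNat 308436875296839))⟩,
  ⟨.x, T2, (K (.ofNat 744658870983498))⟩] (.node [⟨.x, .z, (K (.negSucc 97230283751420))⟩] .nil .nil .nil .nil .nil .nil) (.node [⟨.x, .z, (K (.negSucc 97614799038044))⟩] .nil .nil .nil .nil .nil .nil) .nil .nil .nil .nil) .nil .nil .nil .nil) (.node [⟨.x, .z, (B (B (K (.ofNat 636396631440066)) (K (.ofNat 1360014658600689)) N N) (B (K (.ofNat 539270150391)) (K (.ofNat 1427975098606701)) N N) N N)⟩,
  ⟨.x, T0, (B (K (.negSucc 450991355678)) (K (.negSucc 294050802891284)) N N)⟩,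
  ⟨.x, T2, (B (K (.negSucc 693624665987765)) (K (.negSucc 1489809108566510)) N N)⟩,
  ⟨.x, T9, (K (.negSucc 213201030660650))⟩,
  ⟨.x, T15, (K (.ofNat 156123161321481))⟩,
  ⟨.x, T17, (K (.negSucc 453851523903590))⟩,
  ⟨.x, T22, (K (.negSucc 98646265221065))⟩] (.node [⟨.x, .z, (B (K (.negSucc 545533475384600)) (K (.negSucc 1876994924270606)) N N)⟩,
  ⟨.x, T0, (K (.negSucc 520417771443899))⟩,
  ⟨.x, T2, (K (.negSucc 559438451352656))⟩] (.node [⟨.x, .z, (K (.negSucc 467019770256134))⟩] .nil .nil .nil .nil .nil .nil) (.node [⟨.x, .z, (K (.negSucc 941445821985695))⟩] .nil .nil .nil .nil .nil .nil) .nil .nil .nil .nil) (.node [⟨.x, .z, (B (K (.negSucc 404475550728236)) (K (.ofNat 238527398147958)) N N)⟩,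
  ⟨.x, T0, (K (.ofNat 331361232345135))⟩,
  ⟨.x, T2, (K (.ofNat 535127106597012))⟩] (.node [⟨.x, .z, (K (.ofNat 250459989030351))⟩] .nil .nil .nil .nil .nil .nil) (.node [⟨.x, .z, (K (.negSucc 518087833872200))⟩] .nil .nil .nil .nil .nil .nil) .nil .nil .nil .nil) .nil .nil .nil .nil) .nil .nil)

def c_42 : Cert := (.node [⟨.x, .z, (B (B (B (K (.ofNat 18111885288696)) (K (.ofNat 1773445249152)) N N) (B (K (.negSucc 2182240062215)) (K (.negSucc 16007486989823)) N N) N N) (B (B (K (.negSucc 16998945046343)) (K (.ofNat 4766532834240)) N N) (B (K (.ofNat 169304505480)) (K (.ofNat 18414161791344)) N N) N N) N N)⟩,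
  ⟨.x, T0, (B (B (K (.negSucc 21691595729447)) (K (.ofNat 15149303373888)) N N) (B (K (.negSucc 23991934502735)) (K (.ofNat 12372590219184)) N N) N N)⟩,
  ⟨.x, T2, (B (B (K (.negSucc 761172780095)) (K (.ofNat 3811334858208)) N N) (B (K (.ofNat 8761474311552)) (K (.ofNat 11952122312736)) N N) N N)⟩,
  ⟨.x, T8, (B N N (K (.ofNat 417069510192)) (K (.ofNat 77285477376)))⟩,
  ⟨.x, T9, (A1 (K (.ofNat 187783121664)))⟩,
  ⟨.x, T14, (B N N (K (.ofNat 1954092757248)) (K (.ofNat 5765409652896)))⟩,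
  ⟨.x, T15, (B (K (.ofNat 21153606598944)) (K (.ofNat 4685704424208)) N N)⟩,
  ⟨.x, T17, (B (K (.negSucc 13739469952823)) (K (.negSucc 10923185844575)) N N)⟩,
  ⟨.x, T22, (A1 (K (.ofNat 1152031937472)))⟩,
  ⟨.x, T32, (K (.negSucc 115315716095))⟩,
  ⟨.x, T37, (K (.negSucc 1310026694831))⟩,
  ⟨.x, T39, (K (.ofNat 640484770752))⟩,
  ⟨.x, T44, (K (.ofNat 1360575112896))⟩,
  ⟨.x, T53, (K (.ofNat 428369824512))⟩,
  ⟨.x, T56, (K (.ofNat 208543175424))⟩] (.node [⟨.x, .z, (B (B (K (.ofNat 6152001346656)) (K (.ofNat 8275820150880)) N N) (B (K (.ofNat 1652025274344)) (K (.ofNat 4249772764128)) N N) N N)⟩,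
  ⟨.x, T0, (B (K (.ofNat 956785665888)) (K (.ofNat 6665991343776)) N N)⟩,
  ⟨.x, T2, (B (K (.negSucc 5639348126879)) (K (.negSucc 4513775512031)) N N)⟩,
  ⟨.x, T9, (K (.negSucc 167837495039))⟩,
  ⟨.x, T15, (K (.negSucc 2795143495103))⟩,
  ⟨.x, T17, (K (.ofNat 4946341577184))⟩] (.node [⟨.x, .z, (B (K (.negSucc 6116494000031)) (K (.negSucc 554859936863)) N N)⟩,
  ⟨.x, T0, (K (.negSucc 842209388639))⟩,
  ⟨.x, T2, (K (.negSucc 796680126719))⟩] (.node [⟨.x, .z, (K (.negSucc 159767126783))⟩] .nil .nil .nil .nil .nil .nil) (.node [⟨.x, .z, (K (.negSucc 901549725119))⟩] .nil .nil .nil .nil .nil .nil) .nil .nil .nil .nil) (.node [⟨.x, .z, (B (K (.negSucc 22450723566047)) (K (.negSucc 19328681269295)) N N)⟩,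
  ⟨.x, T0, (K (.negSucc 1589391462095))⟩,
  ⟨.x, T2, (K (.negSucc 6093064353455))⟩] (.node [⟨.x, .z, (K (.ofNat 4520569350096))⟩] .nil .nil .nil .nil .nil .nil) (.node [⟨.x, .z, (K (.ofNat 3710045268432))⟩] .nil .nil .nil .nil .nil .nil) .nil .nil .nil .nil) .nil .nil .nil .nil) (.node [⟨.x, .z, (B (B (K (.ofNat 10139758857504)) (K (.negSucc 110693988016487)) N N) (B (K (.ofNat 660506477544)) (K (.negSucc 92387456201051)) N N) N N)⟩,
  ⟨.x, T0, (B (K (.negSucc 9728719711775)) (K (.negSucc 84564288377495)) N N)⟩,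
  ⟨.x, T2, (B (K (.ofNat 18062738617320)) (K (.ofNat 38245750634952)) N N)⟩,
  ⟨.x, T9, (K (.negSucc 967691610863))⟩,
  ⟨.x, T15, (K (.ofNat 48746928203100))⟩,
  ⟨.x, T17, (K (.negSucc 11509221848327))⟩,
  ⟨.x, T22, (K (.negSucc 1983172629455))⟩] (.node [⟨.x, .z, (B (K (.negSucc 872902744559)) (K (.ofNat 14979552574608)) N N)⟩,
  ⟨.x, T0, (K (.negSucc 5936276650751))⟩,
  ⟨.x, T2, (K (.negSucc 5481798347231))⟩] (.node [⟨.x, .z, (K (.ofNat 8111549326896))⟩] .nil .nil .nil .nil .nil .nil) (.node [⟨.x, .z, (K (.negSucc 5307540736679))⟩] .nil .nil .nil .nil .nil .nil) .nil .nil .nil .nil) (.node [⟨.x, .z, (B (K (.negSucc 11825934684407)) (K (.negSucc 5737898567627)) N N)⟩,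
  ⟨.x, T0, (K (.negSucc 39683039449139))⟩,
  ⟨.x, T2, (K (.negSucc 6614057542319))⟩] (.node [⟨.x, .z, (K (.negSucc 5120834622119))⟩] .nil .nil .nil .nil .nil .nil) (.node [⟨.x, .z, (K (.negSucc 5892425976023))⟩] .nil .nil .nil .nil .nil .nil) .nil .nil .nil .nil) .nil .nil .nil .nil) (.node [⟨.x, T8, (K (.ofNat 318456499968))⟩,
  ⟨.x, T14, (K (.negSucc 1042118612927))⟩] .nil .nil .nil .nil .nil .nil) (.node [⟨.x, T8, (K (.ofNat 5381910922752))⟩,
  ⟨.x, T14, (K (.negSucc 5825416325615))⟩] .nil .nil .nil .nil .nil .nil) .nil .nil)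

def c_43 : Cert := (.node [⟨.x, .z, (B (B (B (K (.negSucc 249717588980111)) (K (.negSucc 48053227340195)) N N) (B (K (.ofNat 27254423271456)) (K (.ofNat 215144875739484)) N N) N N) (B (B (K (.negSucc 762061114910555)) (K (.ofNat 29767776939756)) N N) (B (K (.negSucc 217083775315715)) (K (.ofNat 851481054305820)) N N) N N) N N)⟩,
  ⟨.x, T0, (B (B (K (.negSucc 298684557785483)) (K (.negSucc 123595091296919)) N N) (B (K (.ofNat 224425854787140)) (K (.ofNat 156066327064872)) N N) N N)⟩,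
  ⟨.x, T2, (B (B (K (.ofNat 138522496088376)) (K (.ofNat 317591956313604)) N N) (B (K (.ofNat 141653156345676)) (K (.ofNat 254617613783892)) N N) N N)⟩,
  ⟨.x, T8, (B N N (K (.negSucc 167397572628449)) (K (.ofNat 62603042917860)))⟩,
  ⟨.x, T9, (A1 (K (.negSucc 137921102067527)))⟩,
  ⟨.x, T14, (B N N (K (.ofNat 80993621363238)) (K (.negSucc 70623613508291)))⟩,
  ⟨.x, T15, (B (K (.ofNat 72454725332604)) (K (.ofNat 466916241582144)) N N)⟩,
  ⟨.x, T17, (B (K (.ofNat 228549074368644)) (K (.negSucc 361303347105287)) N N)⟩,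
  ⟨.x, T22, (A1 (K (.negSucc 139589157863843)))⟩,
  ⟨.x, T32, (K (.negSucc 211828100263271))⟩,
  ⟨.x, T37, (K (.negSucc 62988060810347))⟩,
  ⟨.x, T39, (K (.negSucc 34074160918379))⟩,
  ⟨.x, T44, (K (.negSucc 21791102693579))⟩,
  ⟨.x, T53, (K (.negSucc 13296752228303))⟩,
  ⟨.x, T56, (K (.ofNat 119939575594824))⟩] (.node [⟨.x, .z, (B (B (K (.ofNat 215446079313648)) (K (.ofNat 57788253736056)) N N) (B (K (.ofNat 144589559594760)) (K (.negSucc 863838050768531)) N N) N N)⟩,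
  ⟨.x, T0, (B (K (.ofNat 326550870430848)) (K (.negSucc 435245729741063)) N N)⟩,
  ⟨.x, T2, (B (K (.ofNat 107160385151088)) (K (.negSucc 112610800328363)) N N)⟩,
  ⟨.x, T9, (K (.negSucc 80782847613647))⟩,
  ⟨.x, T15, (K (.negSucc 421972090142075))⟩,
  ⟨.x, T17, (K (.ofNat 83856516393852))⟩,
  ⟨.x, T22, (K (.negSucc 9027838431503))⟩] (.node [⟨.x, .z, (B (K (.ofNat 139384233227664)) (K (.ofNat 621278612852796)) N N)⟩,
  ⟨.x, T0, (K (.ofNat 384899704896492))⟩,
  ⟨.x, T2, (K (.negSucc 246077343865871))⟩] (.node [⟨.x, .z, (K (.negSucc 129417794710919))⟩] .nil .nil .nil .nil .nil .nil) (.node [⟨.x, .z, (K (.ofNat 77990084661132))⟩] .nil .nil .nil .nil .nil .nil) .nil .nil .nil .nil) (.node [⟨.x, .z, (B (K (.ofNat 336677811877944)) (K (.negSucc 169530226115687)) N N)⟩,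
  ⟨.x, T0, (K (.ofNat 425747153266488))⟩,
  ⟨.x, T2, (K (.ofNat 91226198272860))⟩] (.node [⟨.x, .z, (K (.ofNat 25859552026320))⟩] .nil .nil .nil .nil .nil .nil) (.node [⟨.x, .z, (K (.ofNat 178126804380024))⟩] .nil .nil .nil .nil .nil .nil) .nil .nil .nil .nil) .nil .nil .nil .nil) (.node [⟨.x, .z, (B (B (K (.ofNat 329059974753396)) (K (.negSucc 473316361458983)) N N) (B (K (.negSucc 270408420201671)) (K (.ofNat 126198806347764)) N N) N N)⟩,
  ⟨.x, T0, (B (K (.ofNat 107825679882288)) (K (.negSucc 182359601676935)) N N)⟩,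
  ⟨.x, T2, (B (K (.ofNat 41209006649796)) (K (.negSucc 96901455582719)) N N)⟩,
  ⟨.x, T9, (K (.negSucc 63447098174243))⟩,
  ⟨.x, T15, (K (.negSucc 118934974961819))⟩,
  ⟨.x, T17, (K (.negSucc 22356012536531))⟩,
  ⟨.x, T22, (K (.negSucc 7376763467519))⟩] (.node [⟨.x, .z, (B (K (.ofNat 308323476751896)) (K (.negSucc 75134048159663)) N N)⟩,
  ⟨.x, T0, (K (.ofNat 343466970591816))⟩,
  ⟨.x, T2, (K (.negSucc 1224910868507))⟩] (.node [⟨.x, .z, (K (.negSucc 40054293200843))⟩] .nil .nil .nil .nil .nil .nil) (.node [⟨.x, .z, (K (.ofNat 54989307032616))⟩] .nil .nil .nil .nil .nil .nil) .nil .nil .nil .nil) (.node [⟨.x, .z, (B (K (.ofNat 105000560324604)) (K (.negSucc 650494439531315)) N N)⟩,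
  ⟨.x, T0, (K (.negSucc 129233386571111))⟩,
  ⟨.x, T2, (K (.ofNat 108974138743116))⟩] (.node [⟨.x, .z, (K (.ofNat 60751870617240))⟩] .nil .nil .nil .nil .nil .nil) (.node [⟨.x, .z, (K (.ofNat 73463714651448))⟩] .nil .nil .nil .nil .nil .nil) .nil .nil .nil .nil) .nil .nil .nil .nil) (.node [⟨.x, T8, (K (.ofNat 54208848189348))⟩,
  ⟨.x, T14, (K (.ofNat 76204010870784))⟩] .nil .nil .nil .nil .nil .nil) (.node [⟨.x, T8, (K (.ofNat 258772791607974))⟩,
  ⟨.x, T14, (K (.ofNat 103366024207002))⟩] .nil .nil .nil .nil .nil .nil) .nil .nil)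

end Pool.Agent.Helper805.Chain.D5
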