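import Pool.Agent.Helper805.Chain.D5D2
set_option autoImplicit false
set_option maxRecDepth 100000

/-! Certificate data (found by computer). -/

namespace Pool.Agent.Helper805.Chain.D5
open Pool.Agent.Helper805.Chain

def c_4 : Cert := (.node [⟨.x, .z, (B (B (B (A2 (K (.negSucc 14997182502707))) N (A0 (K (.negSucc 32852687851115))) N) N (B (B (K (.ofNat 38718599285952)) (K (.ofNat 25016994391248)) N N) (B (K (.ofNat 25250659405632)) (K (.ofNat 802832324904)) N N) N N) N) (B (B (A2 (K (.negSucc 38398875044075))) N (B (K (.negSucc 47630932700147)) (K (.negSucc 4868452099439)) N N) N) (B (A2 (K (.ofNat 39662637623280))) (B N N (K (.ofNat 13224651092100)) (K (.ofNat 5412281252832))) (B (K (.negSucc 21674019656195)) (K (.ofNat 890416024344)) N N) (B (K (.ofNat 11352158463096)) (K (.ofNat 10162766833416)) N N)) (B (B (K (.negSucc 30161553521111)) (K (.negSucc 2143335935447)) N N) (B (K (.negSucc 38010823270343)) (K (.ofNat 84308512780368)) N N) N N) (B (B (K (.negSucc 31495797369575))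 (K (.ofNat 50485966241472)) N N) (B (K (.negSucc 19109271907583)) (K (.ofNat 34669566449712)) N N) N N)) (B (B (B (K (.negSucc 20281581399959)) (K (.ofNat 22358965089024)) N N) (B (K (.ofNat 16823834615304)) (K (.ofNat 50461952998752)) N N) N N) (B (B (K (.negSucc 38400920481239)) (K (.ofNat 34181315237664)) N N) (B (K (.ofNat 13702939763256)) (K (.ofNat 48134532920688)) N N) N N) N N) (B (B (B (K (.ofNat 1998588318336)) (K (.ofNat 10498204056960)) N N) (B (K (.negSucc 23097942606599)) (K (.ofNat 19260377894880)) N N) N N) (B (B (K (.ofNat 3454209866088)) (K (.ofNat 28069756989696)) N N) (B (K (.ofNat 28656833421816)) (K (.ofNat 222497425152)) N N) N N) N N))⟩,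
  ⟨.x, T0, (B (B (A2 (K (.negSucc 48025828877867))) N (B (K (.negSucc 52840405637387)) (K (.ofNat 13092062133888)) N N) N) (B (A2 (K (.ofNat 55291417154028))) (B N N (K (.ofNat 37080184318596)) (K (.negSucc 7562001765743))) (B (K (.negSucc 2418607729079)) (K (.ofNat 23908904534520)) N N) (B (K (.ofNat 14584059269640)) (K (.ofNat 27735834312144)) N N)) (B (B (K (.ofNat 19395622990944)) (K (.negSucc 27731503640663)) N N) (B (K (.negSucc 54494630807039)) (K (.ofNat 74467367065296)) N N) N N) (B (B (K (.negSucc 36341522109071)) (K (.ofNat 63476812454544)) N N) (B (K (.negSucc 13424709628655)) (K (.ofNat 35351683514928)) N N) N N))⟩,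
  ⟨.x, T2, (B (B (A2 (K (.ofNat 2789382972960))) N (B (K (.ofNat 22084861070880)) (K (.ofNat 1839746844432)) N N) N) (B (A2 (K (.ofNat 7147368639648))) (B N N (K (.ofNat 2209290106608)) (K (.negSucc 3707355969935))) (B (K (.negSucc 4869535386527)) (K (.negSucc 18006052919327)) N N) (B (K (.negSucc 6750225629927)) (K (.negSucc 6880855488335)) N N)) (B (B (K (.negSucc 29568281438303)) (K (.ofNat 6571515523248)) N N) (B (K (.ofNat 96366905928)) (K (.ofNat 14535424217376)) N N) N N) (B (B (K (.ofNat 20079173408184)) (K (.ofNat 17713440211104)) N N) (B (K (.ofNat 4116354542712)) (K (.ofNat 160483576320)) N N) N N))⟩,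
  ⟨.x, T3, (B (B (B (K (.negSucc 18664499185847)) (K (.negSucc 2925580478255)) N N) (B (K (.negSucc 7923376678823)) (K (.ofNat 4549998397968)) N N) N N) (B (B (K (.negSucc 8155408664735)) (K (.negSucc 14495625203903)) N N) (B (K (.ofNat 11963644579800)) (K (.negSucc 7995130958447)) N N) N N) N N)⟩,
  ⟨.z, T0, (A0 (B (B (K (.negSucc 37863709931375)) (K (.ofNat 21344177681424)) N N) (B (K (.negSucc 21907841482583)) (K (.ofNat 34929237813120)) N N) N N))⟩,
  ⟨.x, T8, (B N N (B N N (K (.negSucc 1497534286463)) (K (.ofNat 1837757454624))) (B N N (K (.ofNat 2023213259232)) (K (.negSucc 217174908671))))⟩,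
  ⟨.x, T9, (B N (B N N (K (.negSucc 4170050684063)) (K (.ofNat 147336475392))) (B (K (.ofNat 86075600832)) (K (.negSucc 745335436319)) N N) (A1 (K (.ofNat 152102105856))))⟩,
  ⟨.x, T11, (A1 (B (K (.ofNat 1772114675328)) (K (.negSucc 223069241087)) N N))⟩,
  ⟨.x, T14, (B N N (B N N (K (.negSucc 951991422767)) (K (.negSucc 7212651179759))) (B N N (K (.negSucc 4414269511151)) (K (.negSucc 3419898439103))))⟩,
  ⟨.x, T15, (B (A2 (K (.ofNat 1239702704784))) (B N N (K (.ofNat 5467433747184)) (K (.negSucc 4835544463151))) (B (K (.negSucc 9385257686255)) (K (.ofNat 553662322272)) N N) (B (K (.negSucc 23953677869231)) (K (.ofNat 733701369168)) N N))⟩,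
  ⟨.x, T17, (B (A2 (K (.negSucc 5410051694783))) (B N N (K (.negSucc 432225041327)) (K (.ofNat 4338273347280))) (B (K (.ofNat 2955811426560)) (K (.ofNat 12026916417600)) N N) (B (K (.ofNat 8447591061432)) (K (.ofNat 6116085452880)) N N))⟩,
  ⟨.x, T18, (B (B (K (.ofNat 17602083711720)) (K (.ofNat 2315721886128)) N N) (B (K (.negSucc 4081820018615)) (K (.ofNat 7491719974752)) N N) N N)⟩,
  ⟨.x, T22, (B N (B N N (K (.negSucc 1469612542319)) (K (.negSucc 36888286463))) N (A1 (K (.negSucc 4196240639))))⟩,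
  ⟨.x, T23, (B (B (K (.ofNat 17582128531416)) (K (.negSucc 1100288720591)) N N) (B (K (.ofNat 13595933705400)) (K (.negSucc 1007711186687)) N N) N N)⟩,
  ⟨.x, T25, (B (B (K (.negSucc 17987625508535)) (K (.negSucc 5315663238911)) N N) (B (K (.negSucc 7741316303927)) (K (.ofNat 342877743360)) N N) N N)⟩,
  ⟨.z, T15, (A0 (B (K (.negSucc 9172651107383)) (K (.negSucc 4125931875359)) N N))⟩,
  ⟨.x, T32, (A3 (K (.ofNat 95845607424)))⟩,
  ⟨.x, T34, (A1 (K (.negSucc 100266356735)))⟩,
  ⟨.x, T37, (B N N (K (.ofNat 2467668592512)) (K (.negSucc 333063211823)))⟩,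
  ⟨.x, T39, (B N N (K (.ofNat 3338551830384)) (K (.ofNat 1200478522176)))⟩,
  ⟨.x, T40, (B (K (.ofNat 4309514519328)) (K (.negSucc 1521972862991)) N N)⟩,
  ⟨.x, T44, (A2 (K (.negSucc 4891222919663)))⟩,
  ⟨.x, T45, (A0 (K (.ofNat 10743866941680)))⟩,
  ⟨.x, T47, (A0 (K (.negSucc 4847557888511)))⟩,
  ⟨.x, T53, (A3 (K (.negSucc 90860507135)))⟩,
  ⟨.x, T56, (A3 (K (.negSucc 342705489407)))⟩,
  ⟨.x, T57, (B (K (.negSucc 5561632796111)) (K (.ofNat 1215030108672)) N N)⟩,
  ⟨.x, T59, (A1 (K (.negSucc 382333602815)))⟩,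
  ⟨.z, T37, (A0 (K (.negSucc 4804811288063)))⟩,
  ⟨.x, T66, (K (.ofNat 787027746816))⟩,
  ⟨.x, T69, (K (.negSucc 875871595007))⟩,
  ⟨.x, T71, (K (.ofNat 456643920384))⟩,
  ⟨.x, T118, (K (.negSucc 695446124543))⟩,
  ⟨.x, T119, (K (.ofNat 40539211776))⟩,
  ⟨.x, T120, (K (.negSucc 125568092159))⟩,
  ⟨.x, T74, (K (.ofNat 297317786112))⟩,
  ⟨.x, T121, (K (.negSucc 513526915583))⟩] c_40 c_41 c_42 c_43 .nil .nil)

def c_500 : Cert := (.node [⟨.x, .z, (B (A2 (K (.ofNat 3279249187039971))) (B N N (K (.ofNat 145217488160547)) (K (.negSucc 3122211518469314))) (B (K (.negSucc 2333028257355716)) (K (.negSucc 1207183036178357)) N N) (B (K (.ofNat 91742438794554)) (K (.ofNat 569839916531250)) N N))⟩,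
  ⟨.x, T0, (B N N (K (.negSucc 265839501704984)) (K (.negSucc 3799407406666526)))⟩,
  ⟨.x, T2, (B N N (K (.negSucc 3595115844930608)) (K (.negSucc 138919456072313)))⟩,
  ⟨.x, T3, (B (K (.ofNat 848541549868254)) (K (.ofNat 1428823425248253)) N N)⟩,
  ⟨.z, T0, (A0 (K (.negSucc 3098095028080883)))⟩,
  ⟨.x, T11, (K (.ofNat 240059162935899))⟩,
  ⟨.x, T18, (K (.negSucc 1399436562713651))⟩,
  ⟨.x, T23, (K (.ofNat 521623831282695))⟩,
  ⟨.x, T25, (K (.ofNat 135490567369338))⟩,
  ⟨.z, T15, (K (.ofNat 424523527765146))⟩,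
  ⟨.z, T17, (K (.negSucc 14008843852298))⟩] (.node [⟨.x, .z, (B N N (K (.ofNat 1160877320968842)) (K (.ofNat 4346832933747162)))⟩,
  ⟨.x, T3, (K (.ofNat 4755993165899451))⟩,
  ⟨.z, T0, (K (.ofNat 4434052791214476))⟩] .nil .nil (.node [⟨.x, .z, (K (.negSucc 406016861352416))⟩] .nil .nil .nil .nil .nil .nil) (.node [⟨.x, .z, (K (.negSucc 4483145944524230))⟩] .nil .nil .nil .nil .nil .nil) .nil .nil) (.node [⟨.x, .z, (B N N (K (.negSucc 3700561472750762)) (K (.negSucc 396220870373867)))⟩,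
  ⟨.x, T3, (K (.ofNat 982288120728348))⟩,
  ⟨.z, T0, (K (.negSucc 2965919530897385))⟩] .nil .nil (.node [⟨.x, .z, (K (.ofNat 2941436275536429))⟩] .nil .nil .nil .nil .nil .nil) (.node [⟨.x, .z, (K (.negSucc 406020932916227))⟩] .nil .nil .nil .nil .nil .nil) .nil .nil) (.node [⟨.x, .z, (B (K (.negSucc 688077032227766)) (K (.negSucc 2827238864507108)) N N)⟩,
  ⟨.x, T0, (K (.negSucc 3345444332255897))⟩,
  ⟨.x, T2, (K (.negSucc 70640342714636))⟩] (.node [⟨.x, .z, (K (.negSucc 70640342714636))⟩] .nil .nil .nil .nil .nil .nil) (.node [⟨.x, .z, (K (.ofNat 2882329727849271))⟩] .nil .nil .nil .nil .nil .nil) .nil .nil .nil .nil) (.node [⟨.x, .z, (B (K (.ofNat 3364287834892293)) (K (.ofNat 2127960782517312)) N N)⟩,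
  ⟨.x, T0, (K (.negSucc 690866914276583))⟩,
  ⟨.x, T2, (K (.negSucc 3060321557350994))⟩] (.node [⟨.x, .z, (K (.negSucc 3190597681393727))⟩] .nil .nil .nil .nil .nil .nil) (.node [⟨.x, .z, (K (.ofNat 783411922103769))⟩] .nil .nil .nil .nil .nil .nil) .nil .nil .nil .nil) .nil .nil)

def c_501 : Cert := (.node [⟨.x, .z, (B (A2 (K (.negSucc 3039492484102256))) (B N N (K (.negSucc 243307492858088)) (K (.ofNat 2664463559616144))) (B (K (.ofNat 3277477685864844)) (K (.ofNat 1610133538127391)) N N) (B (K (.ofNat 398318127642108)) (K (.negSucc 2013558783585407)) N N))⟩,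
  ⟨.x, T0, (B N N (K (.ofNat 22774536719055)) (K (.ofNat 1937510695073592)))⟩,
  ⟨.x, T2, (B N N (K (.ofNat 2275359640600356)) (K (.ofNat 274702220328537)))⟩,
  ⟨.x, T3, (B (K (.ofNat 420946827016851)) (K (.negSucc 2674481206325300)) N N)⟩,
  ⟨.z, T0, (A0 (K (.ofNat 3001335092726868)))⟩,
  ⟨.x, T11, (K (.ofNat 229814671391595))⟩,
  ⟨.x, T18, (K (.negSucc 171580443546302))⟩,
  ⟨.x, T23, (K (.ofNat 532558292394186))⟩,
  ⟨.x, T25, (K (.negSucc 274715500850072))⟩,
  ⟨.z, T15, (K (.negSucc 591155121634181))⟩,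
  ⟨.z, T17, (K (.ofNat 319038665081886))⟩] (.node [⟨.x, .z, (B N N (K (.negSucc 165243499911161)) (K (.negSucc 3022729653656960)))⟩,
  ⟨.x, T3, (K (.negSucc 2264437762426322))⟩,
  ⟨.z, T0, (K (.negSucc 2393274727092536))⟩] .nil .nil (.node [⟨.x, .z, (K (.ofNat 382255865604054))⟩] .nil .nil .nil .nil .nil .nil) (.node [⟨.x, .z, (K (.ofNat 1234878129865440))⟩] .nil .nil .nil .nil .nil .nil) .nil .nil) (.node [⟨.x, .z, (B N N (K (.ofNat 2242637844293097)) (K (.negSucc 728227381024637)))⟩,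
  ⟨.x, T3, (K (.negSucc 246487522057640))⟩,
  ⟨.z, T0, (K (.ofNat 2112132193561512))⟩] .nil .nil (.node [⟨.x, .z, (K (.negSucc 1555268109991073))⟩] .nil .nil .nil .nil .nil .nil) (.node [⟨.x, .z, (K (.ofNat 4111777509723))⟩] .nil .nil .nil .nil .nil .nil) .nil .nil) (.node [⟨.x, .z, (B (K (.negSucc 305318988966734)) (K (.ofNat 1357966480767381)) N N)⟩,
  ⟨.x, T0, (K (.ofNat 2389474546024653))⟩,
  ⟨.x, T2, (K (.negSucc 327632336724167))⟩] (.node [⟨.x, .z, (K (.negSucc 1370125970544392))⟩] .nil .nil .nil .nil .nil .nil) (.node [⟨.x, .z, (K (.negSucc 1927652696159273))⟩] .nil .nil .nil .nil .nil .nil) .nil .nil .nil .nil) (.node [⟨.x, .z, (B (K (.negSucc 2976159197661812)) (K (.negSucc 468430934843186)) N N)⟩,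
  ⟨.x, T0, (K (.ofNat 325872392104638))⟩,
  ⟨.x, T2, (K (.ofNat 3000227494602555))⟩] (.node [⟨.x, .z, (K (.ofNat 2002151572076223))⟩] .nil .nil .nil .nil .nil .nil) (.node [⟨.x, .z, (K (.ofNat 339329552907744))⟩] .nil .nil .nil .nil .nil .nil) .nil .nil .nil .nil) .nil .nil)

def c_50 : Cert := (.node [⟨.x, .z, (B (B (A2 (K (.ofNat 712946844354492))) N (B (K (.negSucc 994620052153907)) (K (.negSucc 1689153774920486)) N N) N) (B (A2 (K (.ofNat 606262933089891))) (B N N (K (.ofNat 394714049678703)) (K (.ofNat 370071247702662))) (B (K (.negSucc 765592704939014)) (K (.ofNat 26424742143717)) N N) (B (K (.ofNat 343766407550463)) (K (.ofNat 1378515651945156)) N N)) (B (B (K (.ofNat 359999995879584)) (K (.ofNat 1616467704147279)) N N) (B (K (.negSucc 15957876744143)) (K (.ofNat 1027264622964012)) N N) N N) (B (B (K (.ofNat 53213247791478)) (K (.negSucc 55595891980718)) N N) (B (K (.negSucc 425894280363035)) (K (.negSucc 433707013589957)) N N) N N))⟩,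
  ⟨.x, T0, (B (A2 (K (.ofNat 58202105439195))) (B N N (K (.negSucc 594882643775156)) (K (.negSucc 606470834111597))) (B (K (.negSucc 81532616432849)) (K (.negSucc 281443481594252)) N N) (B (K (.ofNat 822414150184887)) (K (.ofNat 2058264093123540)) N N))⟩,
  ⟨.x, T2, (B (A2 (K (.negSucc 518507628240293))) (B N N (K (.ofNat 876667254545466)) (K (.ofNat 531709848102969))) (B (K (.ofNat 1438932791306142)) (K (.ofNat 2558994516112059)) N N) (B (K (.negSucc 507774281271290)) (K (.ofNat 185237580731292)) N N))⟩,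
  ⟨.x, T3, (B (B (K (.ofNat 559810684630089)) (K (.ofNat 6083237278908)) N N) (B (K (.ofNat 67518025627122)) (K (.negSucc 1040222725533962)) N N) N N)⟩,
  ⟨.z, T0, (A0 (B (K (.ofNat 1025171512799112)) (K (.ofNat 2407205012444307)) N N))⟩,
  ⟨.x, T9, (B N N (K (.negSucc 193040013812372)) (K (.negSucc 82557496386935)))⟩,
  ⟨.x, T11, (A1 (K (.negSucc 457955436898385)))⟩,
  ⟨.x, T15, (B N N (K (.ofNat 392118557580027)) (K (.ofNat 750473702292456)))⟩,
  ⟨.x, T17, (B N N (K (.negSucc 98439865404110)) (K (.negSucc 787063097935844)))⟩,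
  ⟨.x, T18, (B (K (.negSucc 79695476668367)) (K (.ofNat 829829356043103)) N N)⟩,
  ⟨.x, T22, (A3 (K (.ofNat 576773436672)))⟩,
  ⟨.x, T23, (B (K (.negSucc 568919862540440)) (K (.negSucc 860852749451975)) N N)⟩,
  ⟨.x, T25, (B (K (.ofNat 511558631776539)) (K (.ofNat 113111827990200)) N N)⟩,
  ⟨.z, T15, (A0 (K (.ofNat 267658353660510)))⟩,
  ⟨.z, T17, (A0 (K (.negSucc 367134869355146)))⟩,
  ⟨.x, T34, (K (.negSucc 247838910165593))⟩,
  ⟨.x, T40, (K (.ofNat 178589200240494))⟩,
  ⟨.x, T45, (K (.negSucc 621212581922903))⟩,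
  ⟨.x, T47, (K (.ofNat 305401714041348))⟩,
  ⟨.x, T54, (K (.negSucc 394829902044395))⟩,
  ⟨.x, T57, (K (.ofNat 306939015775908))⟩,
  ⟨.x, T59, (K (.negSucc 255980220474203))⟩,
  ⟨.z, T37, (K (.ofNat 137296918038906))⟩] c_500 c_501 (.node [⟨.x, .z, (B (B (K (.negSucc 520762165301213)) (K (.ofNat 538899485008959)) N N) (B (K (.negSucc 563398638753689)) (K (.ofNat 1322650626457833)) N N) N N)⟩,
  ⟨.x, T0, (B (K (.negSucc 425858389187750)) (K (.ofNat 2109216633267663)) N N)⟩,
  ⟨.x, T2, (B (K (.negSucc 169878714634520)) (K (.negSucc 820416962642426)) N N)⟩,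
  ⟨.x, T9, (K (.negSucc 396023176350917))⟩,
  ⟨.x, T15, (K (.negSucc 259120120973147))⟩,
  ⟨.x, T17, (K (.ofNat 697913059390803))⟩,
  ⟨.x, T22, (K (.negSucc 171466323173891))⟩] (.node [⟨.x, .z, (B (K (.negSucc 169329030044696)) (K (.negSucc 261447489948689)) N N)⟩,
  ⟨.x, T0, (K (.negSucc 566858548394441))⟩,
  ⟨.x, T2, (K (.negSucc 522595742975))⟩] (.node [⟨.x, .z, (K (.ofNat 170889549737220))⟩] .nil .nil .nil .nil .nil .nil) (.node [⟨.x, .z, (K (.ofNat 1403304365359296))⟩] .nil .nil .nil .nil .nil .nil) .nil .nil .nil .nil) (.node [⟨.x, .z, (B (K (.negSucc 52573867322057)) (K (.negSucc 1728430409123387)) N N)⟩,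
  ⟨.x, T0, (K (.negSucc 355347826092242))⟩,
  ⟨.x, T2, (K (.negSucc 695479588379801))⟩] (.node [⟨.x, .z, (K (.ofNat 91406539750725))⟩] .nil .nil .nil .nil .nil .nil) (.node [⟨.x, .z, (K (.ofNat 92395356305877))⟩] .nil .nil .nil .nil .nil .nil) .nil .nil .nil .nil) .nil .nil .nil .nil) (.node [⟨.x, .z, (B (B (K (.negSucc 490707950271677)) (K (.negSucc 1214207392527224)) N N) (B (K (.ofNat 131859990891693)) (K (.negSucc 1419271485294932)) N N) N N)⟩,
  ⟨.x, T0, (B (K (.ofNat 57747795315687)) (K (.ofNat 287359619892381)) N N)⟩,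
  ⟨.x, T2, (B (K (.ofNat 569321664410106)) (K (.ofNat 1478615424884271)) N N)⟩,
  ⟨.x, T9, (K (.ofNat 230039077115187))⟩,
  ⟨.x, T15, (K (.negSucc 175485560465528))⟩,
  ⟨.x, T17, (K (.ofNat 457939777114359))⟩,
  ⟨.x, T22, (K (.ofNat 119024116359354))⟩] (.node [⟨.x, .z, (B (K (.ofNat 430815420148077)) (K (.ofNat 1908479185231815)) N N)⟩,
  ⟨.x, T0, (K (.ofNat 549486592437636))⟩,
  ⟨.x, T2, (K (.ofNat 533838434171481))⟩] (.node [⟨.x, .z, (K (.ofNat 416561109514911))⟩] .nil .nil .nil .nil .nil .nil) (.node [⟨.x, .z, (K (.ofNat 912358970293464))⟩] .nil .nil .nil .nil .nil .nil) .nil .nil .nil .nil) (.node [⟨.x, .z, (B (K (.ofNat 382285472878773)) (K (.negSucc 291263685117317)) N N)⟩,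
  ⟨.x, T0, (K (.negSucc 333736422238214))⟩,
  ⟨.x, T2, (K (.negSucc 483053911106147))⟩] (.node [⟨.x, .z, (K (.negSucc 224976200646302))⟩] .nil .nil .nil .nil .nil .nil) (.node [⟨.x, .z, (K (.ofNat 523694838823497))⟩] .nil .nil .nil .nil .nil .nil) .nil .nil .nil .nil) .nil .nil .nil .nil) .nil .nil)

def c_510 : Cert := (.node [⟨.x, .z, (B (A2 (K (.ofNat 22158408732840))) (B N N (K (.ofNat 240360602184)) (K (.negSucc 36648569452463))) (B (K (.ofNat 12131018809128)) (K (.ofNat 19611011151360)) N N) (B (K (.negSucc 46735752711779)) (K (.ofNat 13218849432000)) N N))⟩,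
  ⟨.x, T0, (B N N (K (.negSucc 5204771451431)) (K (.negSucc 62919350294183)))⟩,
  ⟨.x, T2, (B N N (K (.negSucc 35255557133999)) (K (.negSucc 7335889926695)))⟩,
  ⟨.x, T3, (B (K (.negSucc 13535430078059)) (K (.ofNat 31694467978512)) N N)⟩,
  ⟨.z, T0, (A0 (K (.negSucc 50211177117443)))⟩,
  ⟨.x, T11, (K (.ofNat 12937203086328))⟩,
  ⟨.x, T18, (K (.negSucc 21521088501047))⟩,
  ⟨.x, T23, (K (.ofNat 21146740860816))⟩,
  ⟨.x, T25, (K (.ofNat 6755053330440))⟩,
  ⟨.z, T15, (K (.ofNat 5205663608616))⟩,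
  ⟨.z, T17, (K (.ofNat 532597742928))⟩] (.node [⟨.x, .z, (B N N (K (.ofNat 22466717217864)) (K (.ofNat 57684148263792)))⟩,
  ⟨.x, T3, (K (.ofNat 70207656423480))⟩,
  ⟨.z, T0, (K (.ofNat 52223166134208))⟩] .nil .nil (.node [⟨.x, .z, (K (.negSucc 14396000150519))⟩] .nil .nil .nil .nil .nil .nil) (.node [⟨.x, .z, (K (.negSucc 54420511855175))⟩] .nil .nil .nil .nil .nil .nil) .nil .nil) (.node [⟨.x, .z, (B N N (K (.negSucc 56591898602975)) (K (.negSucc 7238326251311)))⟩,
  ⟨.x, T3, (K (.ofNat 32726983105872))⟩,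
  ⟨.z, T0, (K (.negSucc 28774030020119))⟩] .nil .nil (.node [⟨.x, .z, (K (.ofNat 40767281603496))⟩] .nil .nil .nil .nil .nil .nil) (.node [⟨.x, .z, (K (.negSucc 11860192107863))⟩] .nil .nil .nil .nil .nil .nil) .nil .nil) (.node [⟨.x, .z, (B (K (.negSucc 20615112881279)) (K (.negSucc 20664216515087)) N N)⟩,
  ⟨.x, T0, (K (.negSucc 23440595491871))⟩,
  ⟨.x, T2, (K (.negSucc 3652360133255))⟩] (.node [⟨.x, .z, (K (.negSucc 2308301923463))⟩] .nil .nil .nil .nil .nil .nil) (.node [⟨.x, .z, (K (.ofNat 17845114970016))⟩] .nil .nil .nil .nil .nil .nil) .nil .nil .nil .nil) (.node [⟨.x, .z, (B (K (.ofNat 110763851554044)) (K (.ofNat 88552064834136)) N N)⟩,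
  ⟨.x, T0, (K (.ofNat 40296072604320))⟩,
  ⟨.x, T2, (K (.negSucc 29274375793103))⟩] (.node [⟨.x, .z, (K (.negSucc 30585789152711))⟩] .nil .nil .nil .nil .nil .nil) (.node [⟨.x, .z, (K (.ofNat 22666569100488))⟩] .nil .nil .nil .nil .nil .nil) .nil .nil .nil .nil) .nil .nil)

def c_511 : Cert := (.node [⟨.x, .z, (B (A2 (K (.negSucc 92934641316095))) (B N N (K (.ofNat 1204717512312)) (K (.ofNat 62873800269624))) (B (K (.ofNat 152310556168524)) (K (.ofNat 49070340319392)) N N) (B (K (.negSucc 5465563041599)) (K (.negSucc 63018480800447)) N N))⟩,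
  ⟨.x, T0, (B N N (K (.ofNat 6473279172096)) (K (.ofNat 44862735646224)))⟩,
  ⟨.x, T2, (B N N (K (.ofNat 63744525567864)) (K (.negSucc 967489175591)))⟩,
  ⟨.x, T3, (B (K (.ofNat 12615029502912)) (K (.negSucc 51478306003439)) N N)⟩,
  ⟨.z, T0, (A0 (K (.ofNat 146236946465556)))⟩,
  ⟨.x, T11, (K (.ofNat 12141510871680))⟩,
  ⟨.x, T18, (K (.ofNat 5421843207648))⟩,
  ⟨.x, T23, (K (.ofNat 17952222011184))⟩,
  ⟨.x, T25, (K (.negSucc 6469662241367))⟩,
  ⟨.z, T15, (K (.negSucc 32505517683575))⟩,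
  ⟨.z, T17, (K (.ofNat 17741853521496))⟩] (.node [⟨.x, .z, (B N N (K (.negSucc 24368592516623)) (K (.negSucc 76338384482447)))⟩,
  ⟨.x, T3, (K (.negSucc 60344361039599))⟩,
  ⟨.z, T0, (K (.negSucc 67212594758663))⟩] .nil .nil (.node [⟨.x, .z, (K (.ofNat 39149128775016))⟩] .nil .nil .nil .nil .nil .nil) (.node [⟨.x, .z, (K (.ofNat 43125204880656))⟩] .nil .nil .nil .nil .nil .nil) .nil .nil) (.node [⟨.x, .z, (B N N (K (.ofNat 58430167736976)) (K (.negSucc 7202142799631)))⟩,
  ⟨.x, T3, (K (.ofNat 513962292024))⟩,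
  ⟨.z, T0, (K (.ofNat 55436571397728))⟩] .nil .nil (.node [⟨.x, .z, (K (.negSucc 13150758288167))⟩] .nil .nil .nil .nil .nil .nil) (.node [⟨.x, .z, (K (.negSucc 5332978830815))⟩] .nil .nil .nil .nil .nil .nil) .nil .nil) (.node [⟨.x, .z, (B (K (.negSucc 89933833078883)) (K (.ofNat 9432589597200)) N N)⟩,
  ⟨.x, T0, (K (.ofNat 9431512020936))⟩,
  ⟨.x, T2, (K (.negSucc 16210512744407))⟩] (.node [⟨.x, .z, (K (.negSucc 44010058028831))⟩] .nil .nil .nil .nil .nil .nil) (.node [⟨.x, .z, (K (.negSucc 25966722649247))⟩] .nil .nil .nil .nil .nil .nil) .nil .nil .nil .nil) (.node [⟨.x, .z, (B (K (.negSucc 57675613844375)) (K (.ofNat 11519324257320)) N N)⟩,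
  ⟨.x, T0, (K (.ofNat 25893120216168))⟩,
  ⟨.x, T2, (K (.ofNat 77870093233896))⟩] (.node [⟨.x, .z, (K (.ofNat 68779890646560))⟩] .nil .nil .nil .nil .nil .nil) (.node [⟨.x, .z, (K (.ofNat 21605607614952))⟩] .nil .nil .nil .nil .nil .nil) .nil .nil .nil .nil) .nil .nil)

def c_51 : Cert := (.node [⟨.x, .z, (B (B (A2 (K (.ofNat 33218271404640))) N (B (K (.negSucc 81809517185459)) (K (.negSucc 50005361450591)) N N) N) (B (A2 (K (.ofNat 76204509310440))) (B N N (K (.ofNat 34848677113920)) (K (.ofNat 7825935463200))) (B (K (.negSucc 44014631919695)) (K (.ofNat 25569637401096)) N N) (B (K (.ofNat 84550100334588)) (K (.ofNat 19612174279320)) N N)) (B (B (K (.ofNat 77876149831164)) (K (.ofNat 145174325061672)) N N) (B (K (.ofNat 31514283384660)) (K (.ofNat 8297076135888)) N N) N N) (B (B (K (.negSucc 16202368326383)) (K (.negSucc 27747172916135)) N N) (B (K (.negSucc 135605911085315)) (K (.negSucc 33274973971367)) N N) N N))⟩,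
  ⟨.x, T0, (B (A2 (K (.negSucc 3202891390943))) (B N N (K (.negSucc 72940833747431)) (K (.negSucc 34215697166831))) (B (K (.negSucc 4063699853135)) (K (.negSucc 46438915777415)) N N) (B (K (.ofNat 104284899924732)) (K (.ofNat 36769834292040)) N N))⟩,
  ⟨.x, T2, (B (A2 (K (.negSucc 31389296115167))) (B N N (K (.ofNat 39977534666376)) (K (.ofNat 3173745858408))) (B (K (.ofNat 94074769952388)) (K (.ofNat 47643451084368)) N N) (B (K (.negSucc 27409982015735)) (K (.negSucc 5018360536727)) N N))⟩,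
  ⟨.x, T3, (B (B (K (.ofNat 23807907688608)) (K (.ofNat 21931979155776)) N N) (B (K (.negSucc 47012545401299)) (K (.negSucc 23625731957039)) N N) N N)⟩,
  ⟨.z, T0, (A0 (B (K (.ofNat 95592582727164)) (K (.ofNat 177853748805144)) N N))⟩,
  ⟨.x, T9, (B N N (K (.negSucc 7867958884631)) (K (.negSucc 4278278541599)))⟩,
  ⟨.x, T11, (A1 (K (.ofNat 5928038382672)))⟩,
  ⟨.x, T15, (B N N (K (.ofNat 23141977845552)) (K (.ofNat 37330623477936)))⟩,
  ⟨.x, T17, (B N N (K (.negSucc 9055746271295)) (K (.negSucc 18497744444375)))⟩,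
  ⟨.x, T18, (B (K (.negSucc 19299866639183)) (K (.negSucc 6547286286791)) N N)⟩,
  ⟨.x, T22, (A3 (K (.negSucc 3601625090975)))⟩,
  ⟨.x, T23, (B (K (.negSucc 29010455928647)) (K (.negSucc 33518341142639)) N N)⟩,
  ⟨.x, T25, (B (K (.ofNat 21538157983416)) (K (.ofNat 27643925742336)) N N)⟩,
  ⟨.z, T15, (A0 (K (.ofNat 15804507441024)))⟩,
  ⟨.z, T17, (A0 (K (.negSucc 2716991682191)))⟩,
  ⟨.x, T34, (K (.negSucc 490044764159))⟩,
  ⟨.x, T40, (K (.negSucc 5737583937815))⟩,
  ⟨.x, T45, (K (.negSucc 18730322343719))⟩,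
  ⟨.x, T47, (K (.ofNat 8329766136840))⟩,
  ⟨.x, T54, (K (.negSucc 4696242752303))⟩,
  ⟨.x, T57, (K (.ofNat 12120618659184))⟩,
  ⟨.x, T59, (K (.negSucc 7044233958863))⟩,
  ⟨.z, T37, (K (.ofNat 8872890778368))⟩] c_510 c_511 (.node [⟨.x, .z, (B (B (K (.negSucc 4898103825959)) (K (.negSucc 177939039914819)) N N) (B (K (.ofNat 10878468178860)) (K (.negSucc 25202760113411)) N N) N N)⟩,
  ⟨.x, T0, (B (K (.ofNat 75936538368288)) (K (.ofNat 13184750306232)) N N)⟩,
  ⟨.x, T2, (B (K (.negSucc 4311370282247)) (K (.ofNat 21719930563116)) N N)⟩,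
  ⟨.x, T9, (K (.ofNat 8349794633700))⟩,
  ⟨.x, T15, (K (.ofNat 24262880164992))⟩,
  ⟨.x, T17, (K (.negSucc 8482411459259))⟩,
  ⟨.x, T22, (K (.ofNat 25690914652176))⟩] (.node [⟨.x, .z, (B (K (.negSucc 8175619360943)) (K (.ofNat 38437586048916)) N N)⟩,
  ⟨.x, T0, (K (.ofNat 46061212270356))⟩,
  ⟨.x, T2, (K (.ofNat 6796623450960))⟩] (.node [⟨.x, .z, (K (.negSucc 17710728511679))⟩] .nil .nil .nil .nil .nil .nil) (.node [⟨.x, .z, (K (.ofNat 12427360067916))⟩] .nil .nil .nil .nil .nil .nil) .nil .nil .nil .nil) (.node [⟨.x, .z, (B (K (.negSucc 99388231017551)) (K (.negSucc 112313917756655)) N N)⟩,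
  ⟨.x, T0, (K (.negSucc 88580458783763))⟩,
  ⟨.x, T2, (K (.ofNat 6331921880832))⟩] (.node [⟨.x, .z, (K (.negSucc 30976910117099))⟩] .nil .nil .nil .nil .nil .nil) (.node [⟨.x, .z, (K (.negSucc 32812671662603))⟩] .nil .nil .nil .nil .nil .nil) .nil .nil .nil .nil) .nil .nil .nil .nil) (.node [⟨.x, .z, (B (B (K (.negSucc 62754543947267)) (K (.negSucc 27764364692879)) N N) (B (K (.negSucc 299121992855)) (K (.ofNat 14125691898648)) N N) N N)⟩,
  ⟨.x, T0, (B (K (.negSucc 22037139239111)) (K (.negSucc 2530371604679)) N N)⟩,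
  ⟨.x, T2, (B (K (.ofNat 69117618709116)) (K (.ofNat 24403819262976)) N N)⟩,
  ⟨.x, T9, (K (.negSucc 5078183631911))⟩,
  ⟨.x, T15, (K (.ofNat 11069265294144))⟩,
  ⟨.x, T17, (K (.negSucc 9082989601775))⟩,
  ⟨.x, T22, (K (.negSucc 1938212547407))⟩] (.node [⟨.x, .z, (B (K (.ofNat 97547145177924)) (K (.ofNat 60591955950360)) N N)⟩,
  ⟨.x, T0, (K (.ofNat 36577263196008))⟩,
  ⟨.x, T2, (K (.ofNat 9889102768824))⟩] (.node [⟨.x, .z, (K (.ofNat 9449886185064))⟩] .nil .nil .nil .nil .nil .nil) (.node [⟨.x, .z, (K (.negSucc 7186880503799))⟩] .nil .nil .nil .nil .nil .nil) .nil .nil .nil .nil) (.node [⟨.x, .z, (B (K (.negSucc 6415008419159)) (K (.ofNat 763562032128)) N N)⟩,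
  ⟨.x, T0, (K (.negSucc 29751524492903))⟩,
  ⟨.x, T2, (K (.negSucc 29289407381999))⟩] (.node [⟨.x, .z, (K (.negSucc 43171315413839))⟩] .nil .nil .nil .nil .nil .nil) (.node [⟨.x, .z, (K (.negSucc 3623915089151))⟩] .nil .nil .nil .nil .nil .nil) .nil .nil .nil .nil) .nil .nil .nil .nil) .nil .nil)

def c_52 : Cert := (.node [⟨.x, .z, (B (B (B (K (.ofNat 262458412950240)) (K (.ofNat 33294476717748)) N N) (B (K (.negSucc 40778225623007)) (K (.negSucc 248557227418115)) N N) N N) (B (B (K (.ofNat 772072672106700)) (K (.ofNat 66175078987260)) N N) (B (K (.ofNat 274763299901544)) (K (.negSucc 825159074479163)) N N) N N) N N)⟩,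
  ⟨.x, T0, (B (B (K (.ofNat 342702555294996)) (K (.ofNat 233995357550376)) N N) (B (K (.negSucc 138648838930415)) (K (.negSucc 138582804732551)) N N) N N)⟩,
  ⟨.x, T2, (B (B (K (.negSucc 166621009910399)) (K (.negSucc 299090893243931)) N N) (B (K (.negSucc 139439060236259)) (K (.negSucc 216908975469131)) N N) N N)⟩,
  ⟨.x, T8, (B N N (K (.ofNat 168815783237994)) (K (.negSucc 57337001723555)))⟩,
  ⟨.x, T9, (A1 (K (.ofNat 134132507174808)))⟩,
  ⟨.x, T14, (B N N (K (.negSucc 78787209806333)) (K (.ofNat 71029227153924)))⟩,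
  ⟨.x, T15, (B (K (.negSucc 87318934705547)) (K (.negSucc 463458450255695)) N N)⟩,
  ⟨.x, T17, (B (K (.negSucc 217967548316867)) (K (.ofNat 348645839303808)) N N)⟩,
  ⟨.x, T22, (A1 (K (.ofNat 135221532376572)))⟩,
  ⟨.x, T32, (K (.ofNat 212146206096744))⟩,
  ⟨.x, T37, (K (.ofNat 56168292220236))⟩,
  ⟨.x, T39, (K (.ofNat 43739206651116))⟩,
  ⟨.x, T44, (K (.ofNat 14956082980884))⟩,
  ⟨.x, T53, (K (.ofNat 17345950441056))⟩,
  ⟨.x, T56, (K (.negSucc 116039863392695))⟩] (.node [⟨.x, .z, (B (B (K (.negSucc 250878425788871)) (K (.negSucc 57811623339815)) N N) (B (K (.negSucc 108508943698199)) (K (.ofNat 881747474611716)) N N) N N)⟩,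
  ⟨.x, T0, (B (K (.negSucc 289373698393271)) (K (.ofNat 408651399840024)) N N)⟩,
  ⟨.x, T2, (B (K (.negSucc 111661924914359)) (K (.ofNat 116887864258764)) N N)⟩,
  ⟨.x, T9, (K (.ofNat 81191168144496))⟩,
  ⟨.x, T15, (K (.ofNat 438140229684156))⟩,
  ⟨.x, T17, (K (.negSucc 102822937334315))⟩,
  ⟨.x, T22, (K (.ofNat 1468485110448))⟩] (.node [⟨.x, .z, (B (K (.negSucc 145739268165383)) (K (.negSucc 627588639751931)) N N)⟩,
  ⟨.x, T0, (K (.negSucc 387716080576859))⟩,
  ⟨.x, T2, (K (.ofNat 231410991460608))⟩] (.node [⟨.x, .z, (K (.ofNat 131302771092216))⟩] .nil .nil .nil .nil .nil .nil) (.node [⟨.x, .z, (K (.negSucc 98444998855979))⟩] .nil .nil .nil .nil .nil .nil) .nil .nil .nil .nil) (.node [⟨.x, .z, (B (K (.negSucc 359479346976647)) (K (.ofNat 128615806977336)) N N)⟩,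
  ⟨.x, T0, (K (.negSucc 451848216235031))⟩,
  ⟨.x, T2, (K (.negSucc 107230121916083))⟩] (.node [⟨.x, .z, (K (.negSucc 36958519254959))⟩] .nil .nil .nil .nil .nil .nil) (.node [⟨.x, .z, (K (.negSucc 186344740219319))⟩] .nil .nil .nil .nil .nil .nil) .nil .nil .nil .nil) .nil .nil .nil .nil) (.node [⟨.x, .z, (B (B (K (.negSucc 346301474164091)) (K (.ofNat 240403443921504)) N N) (B (K (.ofNat 156316871234124)) (K (.negSucc 198076487899391)) N N) N N)⟩,
  ⟨.x, T0, (B (K (.negSucc 150057954855359)) (K (.ofNat 94916654780688)) N N)⟩,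
  ⟨.x, T2, (B (K (.negSucc 10570463714051)) (K (.ofNat 145087836835824)) N N)⟩,
  ⟨.x, T9, (K (.ofNat 35135168242068))⟩,
  ⟨.x, T15, (K (.ofNat 197865444282264))⟩,
  ⟨.x, T17, (K (.negSucc 23388621456563))⟩,
  ⟨.x, T22, (K (.negSucc 9332210057903))⟩] (.node [⟨.x, .z, (B (K (.negSucc 289825340982047)) (K (.ofNat 37754609856768)) N N)⟩,
  ⟨.x, T0, (K (.negSucc 390169073309543))⟩,
  ⟨.x, T2, (K (.negSucc 13256975747195))⟩] (.node [⟨.x, .z, (K (.ofNat 68290621454268))⟩] .nil .nil .nil .nil .nil .nil) (.node [⟨.x, .z, (K (.negSucc 79097441295599))⟩] .nil .nil .nil .nil .nil .nil) .nil .nil .nil .nil) (.node [⟨.x, .z, (B (K (.negSucc 164143735750475)) (K (.ofNat 651327447067560)) N N)⟩,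
  ⟨.x, T0, (K (.ofNat 74148586957908))⟩,
  ⟨.x, T2, (K (.negSucc 119968093104659))⟩] (.node [⟨.x, .z, (K (.negSucc 79222789917935))⟩] .nil .nil .nil .nil .nil .nil) (.node [⟨.x, .z, (K (.negSucc 97415434526687))⟩] .nil .nil .nil .nil .nil .nil) .nil .nil .nil .nil) .nil .nil .nil .nil) (.node [⟨.x, T8, (K (.negSucc 45379945306403))⟩,
  ⟨.x, T14, (K (.negSucc 71207293279175))⟩] .nil .nil .nil .nil .nil .nil) (.node [⟨.x, T8, (K (.negSucc 250977268757501))⟩,
  ⟨.x, T14, (K (.negSucc 95638639458545))⟩] .nil .nil .nil .nil .nil .nil) .nil .nil)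

def c_53 : Cert := (.node [⟨.x, .z, (B (B (B (K (.negSucc 1573822243007)) (K (.negSucc 85106366402471)) N N) (B (K (.negSucc 44860651377011)) (K (.negSucc 44811129002471)) N N) N N) (B (B (K (.ofNat 5935879843632)) (K (.ofNat 18523671980400)) N N) (B (K (.ofNat 12680484272928)) (K (.ofNat 5691681190080)) N N) N N) N N)⟩,
  ⟨.x, T0, (B (B (K (.negSucc 7662246795719)) (K (.ofNat 21757701891816)) N N) (B (K (.ofNat 8479443808584)) (K (.ofNat 321916993200)) N N) N N)⟩,
  ⟨.x, T2, (B (B (K (.negSucc 6196671154079)) (K (.ofNat 101628874412496)) N N) (B (K (.ofNat 51024828088548)) (K (.ofNat 41714626126680)) N N) N N)⟩,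
  ⟨.x, T8, (B N N (K (.ofNat 5306814612504)) (K (.ofNat 1787986531584)))⟩,
  ⟨.x, T9, (A1 (K (.negSucc 761743613231)))⟩,
  ⟨.x, T14, (B N N (K (.negSucc 2781705926231)) (K (.ofNat 6054654147408)))⟩,
  ⟨.x, T15, (B (K (.negSucc 220876463951)) (K (.negSucc 1434184223183)) N N)⟩,
  ⟨.x, T17, (B (K (.ofNat 2652590726568)) (K (.negSucc 18301710110183)) N N)⟩,
  ⟨.x, T22, (A1 (K (.ofNat 10983786901992)))⟩,
  ⟨.x, T32, (K (.ofNat 417807839232))⟩,
  ⟨.x, T37, (K (.negSucc 5120498823983))⟩,
  ⟨.x, T39, (K (.negSucc 4198829590511))⟩,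
  ⟨.x, T44, (K (.ofNat 7602448534920))⟩,
  ⟨.x, T53, (K (.ofNat 4368020405040))⟩,
  ⟨.x, T56, (K (.ofNat 3877783044912))⟩] (.node [⟨.x, .z, (B (B (K (.negSucc 28019842751951)) (K (.ofNat 171011530875276)) N N) (B (K (.negSucc 1762930356623)) (K (.ofNat 67764020070996)) N N) N N)⟩,
  ⟨.x, T0, (B (K (.negSucc 73034223602579)) (K (.ofNat 48524224481640)) N N)⟩,
  ⟨.x, T2, (B (K (.ofNat 3954612991896)) (K (.negSucc 56115977218739)) N N)⟩,
  ⟨.x, T9, (K (.negSucc 32719812067043))⟩,
  ⟨.x, T15, (K (.negSucc 29577953289095))⟩,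
  ⟨.x, T17, (K (.ofNat 25773434909532))⟩,
  ⟨.x, T22, (K (.negSucc 35455040997551))⟩] (.node [⟨.x, .z, (B (K (.negSucc 7471621293335)) (K (.negSucc 88133218891451)) N N)⟩,
  ⟨.x, T0, (K (.negSucc 90743104595411))⟩,
  ⟨.x, T2, (K (.negSucc 3820860019727))⟩] (.node [⟨.x, .z, (K (.ofNat 38966149032192))⟩] .nil .nil .nil .nil .nil .nil) (.node [⟨.x, .z, (K (.ofNat 25796109725532))⟩] .nil .nil .nil .nil .nil .nil) .nil .nil .nil .nil) (.node [⟨.x, .z, (B (K (.ofNat 18253786992300)) (K (.negSucc 11520475237079)) N N)⟩,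
  ⟨.x, T0, (K (.negSucc 4902072861347))⟩,
  ⟨.x, T2, (K (.negSucc 29415897396503))⟩] (.node [⟨.x, .z, (K (.ofNat 27908230514940))⟩] .nil .nil .nil .nil .nil .nil) (.node [⟨.x, .z, (K (.ofNat 22710001519260))⟩] .nil .nil .nil .nil .nil .nil) .nil .nil .nil .nil) .nil .nil .nil .nil) (.node [⟨.x, .z, (B (B (K (.negSucc 7326313193375)) (K (.negSucc 28738470139271)) N N) (B (K (.negSucc 18045150310151)) (K (.ofNat 15505503595056)) N N) N N)⟩,
  ⟨.x, T0, (B (K (.negSucc 19431206617535)) (K (.negSucc 4219681914719)) N N)⟩,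
  ⟨.x, T2, (B (K (.ofNat 10532801088216)) (K (.ofNat 33973664021064)) N N)⟩,
  ⟨.x, T9, (K (.negSucc 10992561153983))⟩,
  ⟨.x, T15, (K (.ofNat 16192364618160))⟩,
  ⟨.x, T17, (K (.negSucc 23373629820287))⟩,
  ⟨.x, T22, (K (.ofNat 3098241293472))⟩] (.node [⟨.x, .z, (B (K (.ofNat 7896716188920)) (K (.negSucc 41740134704783)) N N)⟩,
  ⟨.x, T0, (K (.negSucc 21820025371247))⟩,
  ⟨.x, T2, (K (.ofNat 1213625967192))⟩] (.node [⟨.x, .z, (K (.ofNat 5918072742720))⟩] .nil .nil .nil .nil .nil .nil) (.node [⟨.x, .z, (K (.negSucc 10182477875615))⟩] .nil .nil .nil .nil .nil .nil) .nil .nil .nil .nil) (.node [⟨.x, .z, (B (K (.negSucc 12050950415111)) (K (.negSucc 5894330819327)) N N)⟩,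
  ⟨.x, T0, (K (.negSucc 5765937581519))⟩,
  ⟨.x, T2, (K (.ofNat 11694491215128))⟩] (.node [⟨.x, .z, (K (.negSucc 11298442035887))⟩] .nil .nil .nil .nil .nil .nil) (.node [⟨.x, .z, (K (.negSucc 15880681527407))⟩] .nil .nil .nil .nil .nil .nil) .nil .nil .nil .nil) .nil .nil .nil .nil) (.node [⟨.x, T8, (K (.ofNat 4785133761936))⟩,
  ⟨.x, T14, (K (.negSucc 4194553519943))⟩] .nil .nil .nil .nil .nil .nil) (.node [⟨.x, T8, (K (.ofNat 3935267188200))⟩,
  ⟨.x, T14, (K (.ofNat 2007212329368))⟩] .nil .nil .nil .nil .nil .nil) .nil .nil)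

def c_5 : Cert := (.node [⟨.x, .z, (B (B (B (A2 (K (.negSucc 44679052832039))) N (A0 (K (.negSucc 43560528934175))) N) N (B (B (K (.negSucc 9808979819975)) (K (.negSucc 115249111720559)) N N) (B (K (.negSucc 102325012202303)) (K (.ofNat 28109512545480)) N N) N N) N) (B (B (A2 (K (.negSucc 70687643406731))) N (B (K (.negSucc 38080097900747)) (K (.negSucc 1491373589975)) N N) N) (B (A2 (K (.ofNat 14372530323408))) (B N N (K (.ofNat 31797093692952)) (K (.ofNat 17396176826016))) (B (K (.negSucc 36883793624147)) (K (.ofNat 27036065116080)) N N) (B (K (.negSucc 6171981037127)) (K (.negSucc 2778904907567)) N N)) (B (B (K (.negSucc 12305417045327)) (K (.negSucc 11743249669163)) N N) (B (K (.negSucc 102559171319711)) (K (.ofNat 69711229308708)) N N) N N) (B (B (K (.ofNat 4979966452488)) (K (.ofNat 132661793217276)) N N) (B (K (.ofNat 68216810418648)) (K (.ofNat 41080305032352)) N N) N N)) (B (B (B (K (.ofNat 16428102650640)) (K (.ofNat 127768721679000)) N N) (B (K (.ofNat 60883138873044))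 (K (.ofNat 66680897103360)) N N) N N) (B (B (K (.negSucc 17441954206055)) (K (.ofNat 84739975391376)) N N) (B (K (.ofNat 46809494119800)) (K (.ofNat 42705600803712)) N N) N N) N N) (B (B (B (K (.ofNat 1901798447904)) (K (.negSucc 8882162174447)) N N) (B (K (.negSucc 19695124644839)) (K (.ofNat 24848439169248)) N N) N N) (B (B (K (.negSucc 13686835374143)) (K (.negSucc 63487615652855)) N N) (B (K (.negSucc 49205548318931)) (K (.negSucc 11975422441823)) N N) N N) N N))⟩,
  ⟨.x, T0, (B (B (A2 (K (.negSucc 10895685433055))) N (B (K (.ofNat 11238981471216)) (K (.negSucc 9647784410687)) N N) N) (B (A2 (K (.ofNat 7905907121760))) (B N N (K (.ofNat 1003840424784)) (K (.negSucc 9471299153039))) (B (K (.ofNat 2394073079856)) (K (.negSucc 21659337664991)) N N) (B (K (.ofNat 4993754019552)) (K (.negSucc 2025711291887)) N N)) (B (B (K (.ofNat 879263618832)) (K (.negSucc 156242097071)) N N) (B (K (.ofNat 7656392873448)) (K (.negSucc 8235981241775)) N N) N N) (B (B (K (.ofNat 8705578409352))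 (K (.ofNat 107369952976728)) N N) (B (K (.ofNat 54305487166068)) (K (.ofNat 23640837469920)) N N) N N))⟩,
  ⟨.x, T2, (B (B (A2 (K (.ofNat 64623085394940))) N (B (K (.ofNat 83373929950500)) (K (.ofNat 5480795985948)) N N) N) (B (A2 (K (.negSucc 79930533117959))) (B N N (K (.negSucc 47882657192219)) (K (.negSucc 38564107188479))) (B (K (.ofNat 69241156712280)) (K (.negSucc 73515964559831)) N N) (B (K (.ofNat 74471766120)) (K (.ofNat 5453353640088)) N N)) (B (B (K (.ofNat 12991270230144)) (K (.ofNat 170100480299652)) N N) (B (K (.ofNat 265428688537188)) (K (.negSucc 59650450322867)) N N) N N) (B (B (K (.negSucc 1778455689047)) (K (.negSucc 30223176248591)) N N) (B (K (.ofNat 5286315815712)) (K (.negSucc 26894304163583)) N N) N N))⟩,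
  ⟨.x, T3, (B (B (B (K (.ofNat 6966140154840)) (K (.negSucc 9561488250959)) N N) (B (K (.negSucc 3316559259671)) (K (.negSucc 5423876641295)) N N) N N) (B (B (K (.negSucc 4546112992775)) (K (.negSucc 110002687512551)) N N) (B (K (.negSucc 53806717672451)) (K (.negSucc 24700411355615)) N N) N N) N N)⟩,
  ⟨.z, T0, (A0 (B (B (K (.ofNat 15318206918568)) (K (.ofNat 147376326328200)) N N) (B (K (.ofNat 64246710564900)) (K (.ofNat 80020009827036)) N N) N N))⟩,
  ⟨.x, T8, (B N N (B N N (K (.negSucc 9180696138623)) (K (.negSucc 1125299549375))) (B N N (K (.negSucc 3143083150079)) (K (.ofNat 1377278795520))))⟩,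
  ⟨.x, T9, (B N (B N N (K (.negSucc 1356540498143)) (K (.negSucc 2304226791215))) (B (K (.ofNat 5937873087744)) (K (.ofNat 4413356805312)) N N) (A1 (K (.negSucc 2506861349711))))⟩,
  ⟨.x, T11, (A1 (B (K (.ofNat 2585929128192)) (K (.ofNat 6175571341824)) N N))⟩,
  ⟨.x, T14, (B N N (B N N (K (.negSucc 56882062079)) (K (.ofNat 274870982304))) (B N N (K (.negSucc 866496165551)) (K (.negSucc 681345952991))))⟩,
  ⟨.x, T15, (B (A2 (K (.ofNat 5618746910448))) (B N N (K (.ofNat 14721600188880)) (K (.negSucc 1821078916559))) (B (K (.ofNat 4555815664608)) (K (.negSucc 2541799150991)) N N) (B (K (.negSucc 2614033607471)) (K (.ofNat 9538582260528)) N N))⟩,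
  ⟨.x, T17, (B (A2 (K (.negSucc 5486414258159))) (B N N (K (.negSucc 27943813317167)) (K (.negSucc 496411066511))) (B (K (.ofNat 374968876320)) (K (.negSucc 4519287825983)) N N) (B (K (.ofNat 3656587839912)) (K (.negSucc 42864881615)) N N))⟩,
  ⟨.x, T18, (B (B (K (.negSucc 7597324785095)) (K (.ofNat 9381982793184)) N N) (B (K (.negSucc 6409252193975)) (K (.negSucc 11163047574527)) N N) N N)⟩,
  ⟨.x, T22, (B N (B N N (K (.ofNat 8443514271168)) (K (.negSucc 2739377327903))) N (A1 (K (.ofNat 4749508627056))))⟩,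
  ⟨.x, T23, (B (B (K (.negSucc 3187699040231)) (K (.ofNat 5016548158704)) N N) (B (K (.ofNat 3937445314056)) (K (.ofNat 7264135416960)) N N) N N)⟩,
  ⟨.x, T25, (B (B (K (.ofNat 7643013832152)) (K (.negSucc 3567139734527)) N N) (B (K (.ofNat 6155467372296)) (K (.negSucc 2138581003247)) N N) N N)⟩,
  ⟨.z, T15, (A0 (B (K (.negSucc 2247522467111)) (K (.negSucc 3838595751647)) N N))⟩,
  ⟨.x, T32, (A3 (K (.negSucc 118419646463)))⟩,
  ⟨.x, T34, (A1 (K (.ofNat 88979337216)))⟩,
  ⟨.x, T37, (B N N (K (.ofNat 779696409600)) (K (.negSucc 870396908687)))⟩,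
  ⟨.x, T39, (B N N (K (.negSucc 5401444350959)) (K (.negSucc 1344058209791)))⟩,
  ⟨.x, T40, (B (K (.negSucc 4432962329567)) (K (.ofNat 3544765997904)) N N)⟩,
  ⟨.x, T44, (A2 (K (.ofNat 4662679063536)))⟩,
  ⟨.x, T45, (A0 (K (.negSucc 10464811993583)))⟩,
  ⟨.x, T47, (A0 (K (.ofNat 4742079496704)))⟩,
  ⟨.x, T53, (A3 (K (.ofNat 67878881280)))⟩,
  ⟨.x, T56, (A3 (K (.ofNat 656334586368)))⟩,
  ⟨.x, T57, (B (K (.ofNat 4951533559248)) (K (.negSucc 2294962730495)) N N)⟩,
  ⟨.x, T59, (A1 (K (.negSucc 70307232767)))⟩,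
  ⟨.z, T37, (A0 (K (.ofNat 4804811288064)))⟩,
  ⟨.x, T66, (K (.negSucc 688266326015))⟩,
  ⟨.x, T69, (K (.ofNat 510736513536))⟩,
  ⟨.x, T71, (K (.negSucc 209458192895))⟩,
  ⟨.x, T118, (K (.ofNat 695446124544))⟩,
  ⟨.x, T119, (K (.negSucc 40539211775))⟩,
  ⟨.x, T120, (K (.ofNat 125568092160))⟩,
  ⟨.x, T74, (K (.negSucc 432762020351))⟩,
  ⟨.x, T121, (K (.ofNat 513526915584))⟩] c_50 c_51 c_52 c_53 .nil .nil)

def cert : Cert := (.node [⟨.x, .z, (C (C (C (C N N (A4 (K (.ofNat 3126453295392))) N (A2 (K (.ofNat 1696228677504))) N) N (C (A4 (K (.ofNat 6515268881328))) N N N (A0 (K (.ofNat 9316221950448))) N) N (B (A2 (K (.negSucc 5355482581871))) N (A0 (K (.ofNat 7340853023424))) N) N) N (C (C (A4 (K (.ofNat 4558981730832))) N N N (A0 (K (.negSucc 32677680024935))) N) N N N (A0 (A0 (K (.ofNat 18399665702376)))) N) N (B (B (A2 (K (.ofNat 61198043579820))) N (A0 (K (.ofNat 77928546356820))) N) N (B (B (K (.ofNat 4045149576792)) (K (.ofNat 155238257148552)) N N) (B (K (.ofNat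 212847336841356)) (K (.negSucc 92274733183391)) N N) N N) N) N) (C (C (C N N (A4 (K (.negSucc 1238229577871))) N (A2 (K (.negSucc 707406082991))) N) N (C (A4 (K (.ofNat 7527808286208))) N N N (A0 (K (.ofNat 61106336800884))) N) N (B (A2 (K (.ofNat 63393149690460))) N (B (K (.ofNat 13216889477592)) (K (.negSucc 13898742262811)) N N) N) N) (C (C N N (A4 (K (.negSucc 834201210779))) N (A2 (K (.ofNat 23745686176260))) N) (C N N N (A5 (K (.negSucc 4352187428351))) N (A3 (K (.ofNat 361658133792)))) N (C (A4 (K (.ofNat 37634643885312))) (A5 (K (.negSucc 2949965898479))) N N N (B (K (.negSucc 1738122322031)) (K (.ofNat 221960694528)) N N)) N (B (A2 (K (.negSucc 39354248119535))) (B N N (K (.ofNat 25837367670990)) (K (.ofNat 5151657248208))) N (B (K (.ofNat 3678559143696)) (K (.negSucc 3077277914159)) N N))) N (C (C (A4 (K (.negSucc 2203679685887))) N N N (A0 (K (.ofNat 33179546520072))) N) (C (A4 (K (.negSucc 4044547456487))) (C N N N N (K (.ofNat 8015750535474)) (K (.ofNat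 43872749992800))) N N (B (K (.negSucc 160037749674701)) (K (.ofNat 122749121898486)) N N) (B (K (.ofNat 6019271983800)) (K (.ofNat 26689955947704)) N N)) N N N (B (A0 (K (.negSucc 5240427789455))) (B (K (.ofNat 8972394284448)) (K (.ofNat 8144369594208)) N N) N N)) (B (A2 (B (K (.negSucc 175781574025847)) (K (.negSucc 43025522527259)) N N)) (B (A2 (K (.ofNat 62729426452410))) (B N N (K (.ofNat 634969858528548)) (K (.ofNat 191423957138748))) (B (K (.ofNat 112488498014832)) (K (.ofNat 100141008507486)) N N) (B (K (.ofNat 29624093958240)) (K (.negSucc 131359487739821)) N N)) N (B (B (K (.negSucc 427442340636179)) (K (.negSucc 782189704222127)) N N) (B (K (.negSucc 506022080828669)) (K (.negSucc 18203464740923)) N N) N N)) (B (B (A2 (K (.ofNat 51095616094764))) N (B (K (.ofNat 51921792637812)) (K (.negSucc 48085131247649)) N N) N) (B (A2 (K (.negSucc 45847030727105))) (B N N (K (.negSucc 70289040311045)) (K (.ofNat 10742045339376))) (B (K (.ofNat 21963409543764)) (K (.negSucc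 24285526922753)) N N) (B (K (.ofNat 222428107944)) (K (.negSucc 24582838513823)) N N)) (B (B (K (.negSucc 257444894052215)) (K (.negSucc 89593384667777)) N N) (B (K (.negSucc 50081595694307)) (K (.ofNat 504035175775860)) N N) N N) (B (B (K (.ofNat 5703847847136)) (K (.ofNat 36126239654214)) N N) (B (K (.ofNat 95625802734174)) (K (.negSucc 21033642684239)) N N) N N))) (C (C (C (A4 (K (.negSucc 11750852277215))) N N N (A0 (K (.ofNat 35356542565176))) N) N N N (B (B (K (.negSucc 17342924237207)) (K (.negSucc 139487492658437)) N N) (B (K (.negSucc 212772397152329)) (K (.ofNat 91201622337666)) N N) N N) N) (C (C (A4 (K (.negSucc 3979164082175))) N N N (B (K (.negSucc 11229664160015)) (K (.ofNat 100056337721622)) N N) N) (C (A4 (K (.ofNat 8842864911264))) (C N N N N (K (.ofNat 8950784248440)) (K (.ofNat 7198818739344))) N N (B (K (.negSucc 63785535571799)) (K (.ofNat 126773218591452)) N N) (B (K (.ofNat 32531952464208)) (K (.ofNat 22699951730622)) N N)) N N (B (B (K (.negSucc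 169318312433819)) (K (.negSucc 291319705529801)) N N) (B (K (.negSucc 380293114874525)) (K (.ofNat 497351856929040)) N N) N N) (B (B (K (.negSucc 244372607408879)) (K (.negSucc 81056815714493)) N N) (B (K (.negSucc 49088203466003)) (K (.ofNat 532706271931692)) N N) N N)) N N (B (B (B (K (.ofNat 2822972976144)) (K (.ofNat 49677882831234)) N N) (B (K (.ofNat 189408899306250)) (K (.negSucc 72745803792179)) N N) N N) (B (B (K (.ofNat 261096015995388)) (K (.ofNat 57783328240914)) N N) (B (K (.ofNat 268399872026082)) (K (.negSucc 662373122549075)) N N) N N) N N) N) (C (C (C (A4 (K (.negSucc 3171555279935))) N N N (A0 (K (.ofNat 5965518090528))) N) N N N (B (B (K (.negSucc 3746196223775)) (K (.ofNat 159256090683054)) N N) (B (K (.ofNat 144937307162502)) (K (.ofNat 43641291915918)) N N) N N) N) (C (C (A4 (K (.negSucc 657825195023))) N N N (B (K (.negSucc 14238823552775)) (K (.negSucc 25473615077105)) N N) N) (C (A4 (K (.negSucc 41382312327503))) (C N N N N (K (.negSucc 26714629784573))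 (K (.negSucc 37042470882863))) N N (B (K (.negSucc 9999225616877)) (K (.ofNat 15952469755050)) N N) (B (K (.negSucc 7101059304743)) (K (.negSucc 30417045531191)) N N)) N N (B (B (K (.negSucc 150072174867599)) (K (.negSucc 396349657136945)) N N) (B (K (.negSucc 182077383089105)) (K (.ofNat 569182875857136)) N N) N N) (B (B (K (.ofNat 490372843968)) (K (.negSucc 60800050450475)) N N) (B (K (.negSucc 68795541965627)) (K (.negSucc 16231073922431)) N N) N N)) N N (B (B (B (K (.ofNat 48225953934540)) (K (.ofNat 583782115141674)) N N) (B (K (.ofNat 148985327628342)) (K (.negSucc 522599854278365)) N N) N N) (B (B (K (.ofNat 85204099747242)) (K (.ofNat 143150559487092)) N N) (B (K (.ofNat 305632184105340)) (K (.negSucc 822242297354471)) N N) N N) N N) (B (B (B (K (.ofNat 1575926585856)) (K (.negSucc 98658942516215)) N N) (B (K (.negSucc 109826984900177)) (K (.ofNat 10893643945074)) N N) N N) (B (B (K (.negSucc 4115598210665)) (K (.ofNat 149005104653520)) N N) (B (K (.ofNat 130296952766718))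 (K (.negSucc 19250355259871)) N N) N N) N N)) (B (B (B (A2 (K (.ofNat 23541029394228))) N (A0 (K (.ofNat 32459540777892))) N) N (B (B (K (.ofNat 9242718700464)) (K (.ofNat 279958229754912)) N N) (B (K (.ofNat 160297191265734)) (K (.ofNat 238453091487540)) N N) N N) N) (B (B (A2 (K (.ofNat 61074334731852))) N (B (K (.ofNat 381210117437826)) (K (.negSucc 78562284289811)) N N) N) (B (A2 (K (.negSucc 252592788650417))) (B N N (K (.negSucc 573350244378857)) (K (.negSucc 210597705398843))) (B (K (.ofNat 683837971558110)) (K (.negSucc 829655443653173)) N N) (B (K (.negSucc 5605899173639)) (K (.ofNat 124098360096294)) N N)) (B (B (K (.ofNat 333207509738616)) (K (.ofNat 777795514231140)) N N) (B (K (.ofNat 1143954099658926)) (K (.negSucc 807370871143859)) N N) N N) (B (B (K (.ofNat 411622584287364)) (K (.ofNat 964251348688206)) N N) (B (K (.ofNat 806360701236678)) (K (.negSucc 119168320021343)) N N) N N)) (B (B (B (K (.ofNat 3379645437264)) (K (.ofNat 113190296801652)) N N)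 (B (K (.negSucc 7384036671953)) (K (.ofNat 213905524594140)) N N) N N) (B (B (K (.ofNat 183094989925050)) (K (.ofNat 1077440787940914)) N N) (B (K (.ofNat 398438424452934)) (K (.ofNat 27552364749306)) N N) N N) N N) (B (B (B (K (.negSucc 52703607566123)) (K (.negSucc 500158417308695)) N N) (B (K (.negSucc 216816658652411)) (K (.ofNat 665165646179046)) N N) N N) (B (B (K (.negSucc 71061317553833)) (K (.ofNat 489775214866302)) N N) (B (K (.ofNat 46321580285712)) (K (.ofNat 246560788813968)) N N) N N) N N)) (B (B (B (A2 (K (.ofNat 33482091147624))) N (A0 (K (.ofNat 47521941376032))) N) N (B (B (K (.negSucc 1441484066087)) (K (.negSucc 196906936436927)) N N) (B (K (.negSucc 56681824336397)) (K (.negSucc 351556362134999)) N N) N N) N) (B (B (A2 (K (.ofNat 66256442824572))) N (B (K (.negSucc 123436274492969)) (K (.ofNat 93623270625846)) N N) N) (B (A2 (K (.ofNat 173137176631746))) (B N N (K (.negSucc 156955573823921)) (K (.ofNat 17291379453264))) (B (K (.negSucc 564319540044665))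 (K (.ofNat 492438130750026)) N N) (B (K (.ofNat 9706512770784)) (K (.negSucc 17740742734871)) N N)) (B (B (K (.negSucc 93026614301855)) (K (.negSucc 522256510881449)) N N) (B (K (.negSucc 618048080833769)) (K (.ofNat 2186177004360)) N N) N N) (B (B (K (.ofNat 330783495336)) (K (.negSucc 249370057117259)) N N) (B (K (.negSucc 224858765766059)) (K (.ofNat 54177693696)) N N) N N)) (B (B (B (K (.ofNat 399295500480)) (K (.negSucc 73482891057143)) N N) (B (K (.ofNat 40224965573790)) (K (.negSucc 189442786531589)) N N) N N) (B (B (K (.ofNat 9347284522134)) (K (.negSucc 928120596665633)) N N) (B (K (.negSucc 256252945489325)) (K (.negSucc 634114296195731)) N N) N N) N N) (B (B (B (K (.negSucc 5350882143455)) (K (.negSucc 51509502509399)) N N) (B (K (.ofNat 42752434660002)) (K (.negSucc 125272413431999)) N N) N N) (B (B (K (.ofNat 153761500249362)) (K (.negSucc 120679297502777)) N N) (A0 (K (.ofNat 25572580919766))) N N) N N)))⟩,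
  ⟨.x, .w, (B (B (B (A2 (A2 (K (.ofNat 1373047534368)))) N (B (A2 (K (.ofNat 1286371684224))) N (A0 (K (.ofNat 700624773360))) N) N) N (B (B (A2 (K (.negSucc 61117615500731))) N (A0 (K (.negSucc 49765749595595))) N) N (A0 (A0 (K (.ofNat 19124627107824)))) N) N) (B (B (A2 (A2 (K (.negSucc 374112429407)))) N (B (A2 (K (.ofNat 76850103106620))) N (A0 (K (.ofNat 21321238524408))) N) N) (B (A2 (A2 (K (.ofNat 87705727147548)))) (A3 (A3 (K (.negSucc 2126722728959)))) N (B (A2 (K (.ofNat 112889944944))) (A3 (K (.ofNat 1865516793120))) N (B (K (.ofNat 1854003040992)) (K (.negSucc 4749508627055)) N N))) (B N (B (A2 (K (.ofNat 166147801681608))) (B N N (K (.negSucc 378560976508979)) (K (.negSucc 282801265728893))) (B (K (.ofNat 104459856256296)) (K (.ofNat 144967448212308)) N N) N) N (B (B (K (.ofNat 84726777154662)) (K (.ofNat 79042388121558)) N N) (B (K (.ofNat 5046004529010)) (K (.negSucc 352418437935341)) N N) N N)) (B (B (A2 (K (.negSucc 47248088051915))) N (B (K (.negSucc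 82273964929451)) (K (.negSucc 72711276849197)) N N) N) (B (A2 (K (.ofNat 158498811763146))) (B N N (K (.negSucc 110740623338645)) (K (.ofNat 35417191937904))) (B (K (.negSucc 45830286438047)) (K (.ofNat 314459757832338)) N N) (B (K (.negSucc 2995048146239)) (K (.negSucc 1109527556183)) N N)) (B (B (K (.ofNat 10563785486532)) (K (.ofNat 187504821182304)) N N) (B (K (.ofNat 43108726534344)) (K (.negSucc 59497036553555)) N N) N N) (B (B (K (.negSucc 9312475998527)) (K (.negSucc 914125620689)) N N) (B (K (.negSucc 52579326140009)) (K (.ofNat 28897233220080)) N N) N N))) (B (B (B (A2 (K (.ofNat 15060242557044))) N (A0 (K (.ofNat 3147889426668))) N) N (B (B (K (.negSucc 12878827910855)) (K (.ofNat 115929234274554)) N N) (B (K (.negSucc 84067082830583)) (K (.ofNat 183355857203724)) N N) N N) N) (B (B (A2 (K (.ofNat 61760401092684))) N (B (K (.ofNat 235089299056590)) (K (.negSucc 230983873395785)) N N) N) (B (A2 (K (.ofNat 131149846841598))) (B N N (K (.negSucc 546950635099523))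 (K (.negSucc 295879136189741))) (B (K (.ofNat 401437232594334)) (K (.negSucc 228988072944899)) N N) (B (K (.negSucc 13913776557575)) (K (.negSucc 2854598262551)) N N)) (B (B (K (.negSucc 256803983307323)) (K (.ofNat 386484590519856)) N N) (B (K (.ofNat 783806018389866)) (K (.ofNat 132286918339188)) N N) N N) (B (B (K (.ofNat 69517387156410)) (K (.negSucc 47945041955819)) N N) (B (K (.negSucc 37678875846587)) (K (.ofNat 194039757214038)) N N) N N)) (B (B (A1 (K (.ofNat 171493412020740))) (B (K (.ofNat 102744454505220)) (K (.ofNat 250497911251332)) N N) N N) (B (B (K (.negSucc 306428313715019)) (K (.ofNat 385256640010302)) N N) (B (K (.ofNat 217281489910722)) (K (.ofNat 407331064915848)) N N) N N) N N) (B (B (B (K (.ofNat 45773406744894)) (K (.ofNat 57986445557196)) N N) (B (K (.negSucc 233135489025737)) (K (.ofNat 624529539091188)) N N) N N) (B (B (K (.negSucc 319234030270739)) (K (.ofNat 198832638038076)) N N) (B (K (.ofNat 264468069063756)) (K (.negSucc 2271338796023))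 N N) N N) N N)) (B (B (B (A2 (K (.ofNat 27844132093416))) N (A0 (K (.ofNat 42885799240896))) N) N (B (B (K (.negSucc 4570025341895)) (K (.negSucc 25923385225601)) N N) (B (K (.ofNat 110503512401580)) (K (.negSucc 173564059980815)) N N) N N) N) (B (B (A2 (K (.ofNat 61508413983276))) N (B (K (.negSucc 126551080475333)) (K (.ofNat 21069390470508)) N N) N) (B (A2 (K (.ofNat 98648821378836))) (B N N (K (.negSucc 104116646400029)) (K (.negSucc 25155318063167))) (B (K (.negSucc 154613578777253)) (K (.ofNat 396882740795994)) N N) (B (K (.ofNat 12764060760024)) (K (.ofNat 13703060799936)) N N)) (B (B (K (.ofNat 84951307954890)) (K (.negSucc 53417437759925)) N N) (B (K (.negSucc 311663069295119)) (K (.ofNat 889772577662448)) N N) N N) (B (B (K (.ofNat 1090696689144)) (K (.negSucc 293246004306419)) N N) (B (K (.negSucc 275528059051139)) (K (.negSucc 16103379130559)) N N) N N)) (B (B (B (K (.ofNat 50071001517198)) (K (.negSucc 85128268559309)) N N) (B (K (.negSucc 90137901848993))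 (K (.ofNat 427242442086288)) N N) N N) (B (B (K (.ofNat 20690059833936)) (K (.negSucc 388627307528417)) N N) (B (K (.negSucc 268286145914033)) (K (.ofNat 405832437111132)) N N) N N) N N) (B (B (B (K (.negSucc 4940199235295)) (K (.ofNat 42486663498336)) N N) (B (K (.ofNat 26767477720548)) (K (.negSucc 161020330928747)) N N) N N) (B (B (K (.ofNat 37583297625996)) (K (.negSucc 169944436847897)) N N) (B (K (.ofNat 20101111240770)) (K (.ofNat 18728821345248)) N N) N N) N N)))⟩,
  ⟨.z, .w, (B (B (B (B (A2 (K (.ofNat 32043476705256))) N (A0 (K (.ofNat 41531627266128))) N) N (A0 (A0 (K (.negSucc 3298688166167)))) N) N (B (B (A0 (K (.ofNat 4297594772304))) (A1 (K (.ofNat 14942018929824))) N N) (B (A0 (K (.negSucc 23215698203507))) (B (K (.ofNat 470287390284)) (K (.negSucc 41628773841551)) N N) N N) N N) N) (B (B (B (A2 (K (.negSucc 44940323446919))) N (A0 (K (.negSucc 26809732526363))) N) N (B (B (K (.ofNat 1031217984252)) (K (.negSucc 35832490084583)) N N) (B (K (.ofNat 5012830885536))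 (K (.negSucc 21609477992195)) N N) N N) N) (B (B (A2 (K (.negSucc 11761122224339))) N (B (K (.negSucc 11310019044803)) (K (.negSucc 30501243963611)) N N) N) (B (A2 (K (.ofNat 40474575022104))) (B N N (K (.negSucc 25018890181235)) (K (.negSucc 8310496436207))) (B (K (.ofNat 338179543575984)) (K (.negSucc 337948327280915)) N N) (B (K (.ofNat 3771446253768)) (K (.negSucc 4424314608215)) N N)) (B (B (K (.ofNat 198485695414368)) (K (.negSucc 543790156037363)) N N) (B (K (.negSucc 143764951214303)) (K (.ofNat 49623808727412)) N N) N N) (B (B (K (.negSucc 7728808234031)) (K (.ofNat 51412624604280)) N N) (B (K (.ofNat 75759995820888)) (K (.negSucc 15839950956479)) N N) N N)) (B (B (B (K (.ofNat 566352188626212)) (K (.negSucc 118389574555523)) N N) (B (K (.ofNat 21292461569844)) (K (.ofNat 214767363947544)) N N) N N) (B (B (K (.negSucc 399068969666435)) (K (.negSucc 118781818087139)) N N) (B (K (.negSucc 935458483113035)) (K (.ofNat 630914904091944)) N N) N N) N N) (B (B (B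 (K (.negSucc 7292279020535)) (K (.ofNat 100144964241468)) N N) (B (K (.ofNat 250848686025648)) (K (.negSucc 187699336311059)) N N) N N) (B (B (K (.ofNat 182568831835932)) (K (.negSucc 209134335479003)) N N) (B (K (.negSucc 5741538343127)) (K (.ofNat 19083158362080)) N N) N N) N N)) (B (B (B (A0 (K (.ofNat 917949335040))) (A1 (K (.negSucc 16404867099935))) N N) (B (B (K (.negSucc 361662144589943)) (K (.ofNat 53559122176332)) N N) (B (K (.negSucc 227276674862255)) (K (.ofNat 60221773263384)) N N) N N) N N) (B (B (B (K (.ofNat 196665472834236)) (K (.negSucc 79162623485351)) N N) (B (K (.ofNat 72355653697032)) (K (.negSucc 41632875428939)) N N) N N) (B (B (K (.negSucc 312479652281759)) (K (.ofNat 32767777294992)) N N) (B (K (.negSucc 487409875241795)) (K (.ofNat 194485002387768)) N N) N N) N N) N N) (B (B (B (A0 (K (.ofNat 5470218860256))) (A1 (K (.negSucc 77039469786059))) N N) (B (B (K (.ofNat 344903291240328)) (K (.negSucc 13749512579603)) N N) (B (K (.ofNat 299029689511632))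 (K (.negSucc 244184990402231)) N N) N N) N N) (B (B (B (K (.ofNat 400675877890560)) (K (.ofNat 48702979258308)) N N) (B (K (.ofNat 283086829917612)) (K (.negSucc 165218302857887)) N N) N N) (B (B (K (.negSucc 77818615646327)) (K (.negSucc 59725375017443)) N N) (B (K (.negSucc 141303492230075)) (K (.negSucc 45160887623471)) N N) N N) N N) N N))⟩,
  ⟨.x, T0, (C (C (C N N (A4 (K (.ofNat 1005548214528))) N (A2 (K (.ofNat 523671236352))) N) N (C (A4 (K (.negSucc 2402163729215))) N N N (A0 (K (.negSucc 2688670267775))) N) N (B (A2 (K (.ofNat 1977024220992))) N (B (K (.negSucc 2561442927551)) (K (.ofNat 8503959873168)) N N) N) N) (C (C N N (A4 (K (.negSucc 5015791477007))) N (A2 (K (.negSucc 16532761938479))) N) (C N N N (A5 (K (.negSucc 1531179484991))) N (A3 (K (.negSucc 2217614307695)))) N (C (A4 (K (.negSucc 803687940863))) (C N N N N (K (.ofNat 10052814567744)) (K (.ofNat 2430526534992))) N N N (B (K (.negSucc 4456952727263)) (K (.ofNat 6033916126080)) N N)) (B (A2 (K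 (.negSucc 2436611628239))) (B N N (K (.ofNat 10156693698144)) (K (.negSucc 11984604399647))) N (B (K (.negSucc 16104736890143)) (K (.negSucc 8154597225743)) N N)) (B (A2 (K (.ofNat 6656272463088))) (B N N (K (.negSucc 7550777982383)) (K (.ofNat 1446184167120))) (B (K (.negSucc 6919513017839)) (K (.ofNat 431670543408)) N N) (B (K (.negSucc 47434783247)) (K (.negSucc 3863684410415)) N N))) (C (C (A4 (K (.ofNat 654119359488))) N N N (B (K (.ofNat 278008547328)) (K (.negSucc 3869559678671)) N N) N) (C (A4 (K (.negSucc 3282901281935))) (C N N N N (K (.ofNat 5065301556720)) (K (.negSucc 4163030691839))) N N (B (K (.negSucc 10964258227727)) (K (.ofNat 12920301469728)) N N) (B (K (.negSucc 2788908717743)) (K (.ofNat 11127858266736)) N N)) N N (B (B (K (.negSucc 230228697599)) (K (.negSucc 13123171880783)) N N) (B (K (.negSucc 6185613905855)) (K (.negSucc 18573285133583)) N N) N N) N) (C (C (A4 (K (.negSucc 5632936324559))) N N N (B (K (.ofNat 35689507278408)) (K (.ofNat 11280725456796))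 N N) N) (C (A4 (K (.ofNat 11597822184492))) (C N N N N (K (.ofNat 23346109946952)) (K (.ofNat 43781547567168))) N N (B (K (.ofNat 2395204937568)) (K (.negSucc 31748934411791)) N N) (B (K (.ofNat 6865049295000)) (K (.ofNat 27203188767192)) N N)) N N (B (B (K (.negSucc 10120891797287)) (K (.negSucc 57338732602403)) N N) (B (K (.negSucc 126706736849687)) (K (.ofNat 19942409549268)) N N) N N) (B (B (K (.negSucc 16104114143)) (K (.negSucc 1084775988959)) N N) (B (K (.ofNat 13633890663744)) (K (.ofNat 7873895244384)) N N) N N)) (B (B (A2 (K (.negSucc 434149383167))) N (B (K (.negSucc 94619114495)) (K (.negSucc 6385675527215)) N N) N) (B (A2 (K (.ofNat 9107341833168))) (B N N (K (.ofNat 4481225360928)) (K (.ofNat 8609349820752))) (B (K (.negSucc 3427860591359)) (K (.ofNat 15221460544704)) N N) (B (K (.ofNat 4795750167552)) (K (.negSucc 7785973853999)) N N)) (B (B (K (.ofNat 337421044224)) (K (.ofNat 14187726217152)) N N) (B (K (.ofNat 5918701929552)) (K (.ofNat 7818996211344))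 N N) N N) (B (B (K (.negSucc 12083243580431)) (K (.negSucc 16261159278095)) N N) (B (K (.negSucc 719483053391)) (K (.negSucc 2330167036031)) N N) N N)) (B (B (A2 (K (.ofNat 57866946503436))) N (B (K (.ofNat 47984909962716)) (K (.negSucc 15498988230671)) N N) N) (B (A2 (K (.negSucc 52476766048763))) (B N N (K (.negSucc 53362558000835)) (K (.ofNat 10742045339376))) (B (K (.ofNat 24846112485288)) (K (.negSucc 43740949968647)) N N) (B (K (.ofNat 1734641339256)) (K (.negSucc 24511291351199)) N N)) (B (B (K (.negSucc 19783466426735)) (K (.ofNat 20658078285768)) N N) (B (K (.ofNat 61585632428616)) (K (.negSucc 65323475861759)) N N) N N) (B (B (K (.ofNat 2975407354368)) (K (.negSucc 35331907945103)) N N) (B (K (.ofNat 20339744305752)) (K (.negSucc 21033642684239)) N N) N N)))⟩,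
  ⟨.x, T1, (B (B (A2 (A2 (K (.negSucc 22334040575)))) N (B (A2 (K (.negSucc 51657336575))) N (A0 (K (.ofNat 358190615808))) N) N) (B (A2 (A2 (K (.negSucc 1204322018831)))) (A3 (A3 (K (.negSucc 2227834653119)))) (B (A2 (K (.negSucc 9385696803887))) (A2 (K (.negSucc 15322403317535))) N (B (K (.ofNat 5776643271600)) (K (.ofNat 15490274766480)) N N)) (B (A2 (K (.negSucc 6948672565535))) (B N N (K (.ofNat 4157335946016)) (K (.negSucc 1873893198815))) (B (K (.ofNat 16255489482864)) (K (.ofNat 17376516446400)) N N) (B (K (.negSucc 5108200425503)) (K (.ofNat 9546290441712)) N N))) (B (B (A2 (K (.negSucc 3783241727))) N (B (K (.ofNat 277817444352)) (K (.negSucc 6978716350703)) N N) N) (B (A2 (K (.negSucc 2998909208879))) (B N N (K (.ofNat 3175959396384)) (K (.ofNat 2632167145728))) (B (K (.negSucc 6971955147215)) (K (.ofNat 32391116859600)) N N) (B (K (.negSucc 17829857552255)) (K (.ofNat 14802699456)) N N)) (B (A1 (K (.ofNat 11106671047488))) (B (K (.ofNat 4167522989424)) (K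 (.ofNat 22476575016288)) N N) N N) (B (B (K (.negSucc 4422114180143)) (K (.negSucc 18794719500479)) N N) (B (K (.ofNat 10371715155072)) (K (.ofNat 9405784345104)) N N) N N)) (B (B (A2 (K (.ofNat 56918742929676))) N (B (K (.ofNat 79261762198212)) (K (.ofNat 3120240055932)) N N) N) (B (A2 (K (.negSucc 68370110364599))) (B N N (K (.negSucc 78813051886331)) (K (.negSucc 35121678759215))) (B (K (.ofNat 31981295219256)) (K (.negSucc 88017079398983)) N N) (B (K (.ofNat 5316247160352)) (K (.ofNat 1117920037464)) N N)) (B (B (K (.ofNat 2119928327784)) (K (.ofNat 78019069912380)) N N) (B (K (.ofNat 195558172246800)) (K (.negSucc 77552103119363)) N N) N N) (B (B (K (.ofNat 101089749600)) (K (.negSucc 35148555643967)) N N) (B (K (.ofNat 6974550674280)) (K (.negSucc 28951410913775)) N N) N N)))⟩,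
  ⟨.x, T2, (C (C (C N N (A4 (K (.negSucc 3072275601695))) N (A2 (K (.negSucc 1601417713535))) N) N (C (A4 (K (.negSucc 6542357728175))) N N N (A0 (K (.negSucc 9289133103599))) N) N (B (A2 (K (.ofNat 5406274169712))) N (B (K (.negSucc 7340853023423)) (K (.negSucc 11497603916159)) N N) N) N) (C (C N N (A4 (K (.negSucc 5261875700399))) N (A2 (K (.ofNat 8614317295440))) N) (C N N N (A5 (K (.negSucc 3455363025503))) N (A3 (K (.ofNat 4201132888368)))) N (C (A4 (K (.negSucc 7434273943151))) (C N N N N (K (.ofNat 4437151408944)) (K (.ofNat 2065605043392))) N N N (B (K (.negSucc 379533089375)) (K (.negSucc 4544466962399)) N N)) (B (A2 (K (.ofNat 16922162462112))) (B N N (K (.negSucc 9137722912703)) (K (.negSucc 42743430956879))) N (B (K (.negSucc 59391739103759)) (K (.negSucc 3917907479663)) N N)) (B (A2 (K (.negSucc 5001778863215))) (B N N (K (.ofNat 10508547847248)) (K (.negSucc 1620568618703))) (B (K (.negSucc 31985354762351)) (K (.ofNat 27821620833696)) N N) (B (K (.negSucc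 1299861019871)) (K (.ofNat 3827910829104)) N N))) (C (C (A4 (K (.negSucc 794356866575))) N N N (B (K (.ofNat 37462730978952)) (K (.ofNat 30176029542924)) N N) N) (C (A4 (K (.ofNat 24268348079388))) (C N N N N (K (.ofNat 39695459206248)) (K (.ofNat 33250315279824))) N N (B (K (.negSucc 17730519162623)) (K (.negSucc 22292578114559)) N N) (B (K (.negSucc 28147161511367)) (K (.ofNat 36876794354424)) N N)) N N (B (B (K (.negSucc 18253194252551)) (K (.negSucc 57272938928099)) N N) (B (K (.negSucc 95396006493143)) (K (.negSucc 16419395520107)) N N) N N) N) (C (C (A4 (K (.negSucc 1612092803327))) N N N (B (K (.ofNat 649788213024)) (K (.negSucc 16456325132447)) N N) N) (C (A4 (K (.negSucc 9733437899999))) (C N N N N (K (.negSucc 1873537032095)) (K (.negSucc 499183554815))) N N (B (K (.negSucc 32176089906335)) (K (.ofNat 1968766410960)) N N) (B (K (.ofNat 2355593223744)) (K (.ofNat 622844536320)) N N)) N N (B (B (K (.ofNat 36531557649360)) (K (.negSucc 17931388876271)) N N) (B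 (K (.ofNat 21595898913408)) (K (.negSucc 5995667709647)) N N) N N) (B (B (K (.ofNat 813782173824)) (K (.ofNat 7300786343616)) N N) (B (K (.ofNat 10612163788560)) (K (.ofNat 59387302656)) N N) N N)) (B (B (A2 (K (.negSucc 58154802333515))) N (B (K (.negSucc 81363135518387)) (K (.negSucc 10792176169067)) N N) N) (B (A2 (K (.ofNat 57251232834840))) (B N N (K (.ofNat 40289303366028)) (K (.ofNat 73576527847488))) (B (K (.negSucc 4830164887031)) (K (.ofNat 69984113391576)) N N) (B (K (.ofNat 58746694613616)) (K (.negSucc 2323495618775)) N N)) (B (B (K (.negSucc 4018060729943)) (K (.negSucc 53250110529083)) N N) (B (K (.negSucc 124126834490639)) (K (.ofNat 114395896287252)) N N) N N) (B (B (K (.negSucc 41038011529487)) (K (.ofNat 47812364155728)) N N) (B (K (.negSucc 268076075255)) (K (.ofNat 32653000819872)) N N) N N)) (B (B (A2 (K (.negSucc 1438614442367))) N (B (K (.negSucc 5854869875663)) (K (.ofNat 14053808331360)) N N) N) (B (A2 (K (.negSucc 7797931510751))) (B N N (K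 (.ofNat 6366549887568)) (K (.ofNat 54177693696))) (B (K (.negSucc 31720975827119)) (K (.negSucc 2900797058159)) N N) (A0 (K (.negSucc 27088846847)))) (B (B (K (.negSucc 1857204100079)) (K (.negSucc 17359124996015)) N N) (B (K (.negSucc 36246882479327)) (K (.negSucc 1122977351519)) N N) N N) (B (B (K (.negSucc 847488324095)) (K (.negSucc 2641645418399)) N N) (B (K (.negSucc 2641645418399)) (K (.negSucc 54177693695)) N N) N N)))⟩,
  ⟨.x, T3, (C (C (C (A4 (K (.ofNat 3391751791872))) N N N (A0 (K (.ofNat 4019782632480))) N) N N N (B (B (K (.ofNat 289097374752)) (K (.ofNat 5603878297728)) N N) (B (K (.ofNat 2390016682800)) (K (.ofNat 17347597586640)) N N) N N) N) (C (C (A4 (K (.ofNat 16962782450976))) N N N (B (K (.negSucc 35032377323879)) (K (.ofNat 5431046626836)) N N) N) (C (A4 (K (.negSucc 18594912934187))) (C N N N N (K (.negSucc 42474669880823)) (K (.negSucc 43729110065807))) N N (B (K (.negSucc 27659351878703)) (K (.ofNat 60705932258448)) N N) (B (K (.negSucc 3282983380295))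 (K (.negSucc 29234366252279)) N N)) N N (B (B (K (.ofNat 4715876072088)) (K (.ofNat 71206513811748)) N N) (B (K (.ofNat 135869991357672)) (K (.ofNat 9748060789500)) N N) N N) (B (B (K (.ofNat 657523075392)) (K (.ofNat 8342293226400)) N N) (B (K (.negSucc 9001348413551)) (K (.negSucc 3688023788927)) N N) N N)) N N (B (B (A1 (K (.negSucc 8435215799135))) (B (K (.negSucc 12330660462479)) (K (.negSucc 14883894745055)) N N) N N) (B (B (K (.ofNat 8824005898992)) (K (.negSucc 22037230319039)) N N) (B (K (.ofNat 14992552666800)) (K (.negSucc 25632664848287)) N N) N N) N N) (B (B (B (K (.negSucc 835490650751)) (K (.negSucc 2841895181375)) N N) (B (K (.negSucc 4386827735423)) (K (.negSucc 15539550399791)) N N) N N) (B (B (K (.ofNat 11837398257792)) (K (.negSucc 17082198258767)) N N) (B (K (.negSucc 5171284345247)) (K (.negSucc 19250355259871)) N N) N N) N N))⟩,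
  ⟨.x, T4, (B (B (B (A2 (K (.negSucc 19889854869203))) N (A0 (K (.negSucc 35356322868227))) N) N (B (B (K (.negSucc 9921997214639)) (K (.negSucc 84261035717063)) N N) (B (K (.negSucc 77828617383011)) (K (.ofNat 1975228960752)) N N) N N) N) (B (B (A2 (K (.negSucc 69860034546299))) N (B (K (.negSucc 83104737824627)) (K (.ofNat 50875924471272)) N N) N) (B (A2 (K (.ofNat 28122659727516))) (B N N (K (.ofNat 68406788823912)) (K (.ofNat 13472442362736))) (B (K (.negSucc 82866716462087)) (K (.ofNat 117326717073792)) N N) (B (K (.negSucc 30376984178807)) (K (.ofNat 5522552698680)) N N)) (B (B (K (.ofNat 34508797924680)) (K (.negSucc 111509714636459)) N N) (B (K (.negSucc 218583026804879)) (K (.ofNat 61951868382708)) N N) N N) (B (B (K (.ofNat 2884749634296)) (K (.ofNat 2894472908964)) N N) (B (K (.negSucc 9380026940939)) (K (.ofNat 10001187985248)) N N) N N)) (B (B (B (K (.negSucc 4297594772303)) (K (.negSucc 10760580956879)) N N) (B (K (.negSucc 51240159060623)) (K (.negSucc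 18192328048655)) N N) N N) (B (B (K (.ofNat 26477554724784)) (K (.negSucc 25010362347119)) N N) (B (K (.ofNat 6049178450640)) (K (.negSucc 20516025640607)) N N) N N) N N) (B (B (B (K (.ofNat 4211663109984)) (K (.negSucc 52211122982495)) N N) (B (K (.ofNat 15482564731584)) (K (.negSucc 65995467737435)) N N) N N) (B (B (K (.ofNat 19805246238744)) (K (.negSucc 116775331280711)) N N) (B (K (.negSucc 76602496293179)) (K (.negSucc 19083158362079)) N N) N N) N N))⟩,
  ⟨.x, T5, (B (B (A2 (A2 (K (.negSucc 1373047534367)))) N (B (A2 (K (.negSucc 1286371684223))) N (A0 (K (.negSucc 700624773359))) N) N) (B (A2 (A2 (K (.negSucc 1769494004351)))) (A3 (A3 (K (.negSucc 2683994704127)))) (B (A2 (K (.ofNat 10822496830704))) (A2 (K (.negSucc 4500324851183))) N (B (K (.negSucc 7159365959183)) (K (.ofNat 5841278644608)) N N)) (B (A2 (K (.negSucc 7054367468399))) (B N N (K (.negSucc 21566403039455)) (K (.negSucc 47187332783))) (B (K (.negSucc 19107552309119)) (K (.negSucc 6562582403039))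 N N) (B (K (.negSucc 3900011473151)) (K (.ofNat 7052305319856)) N N))) (B (B (A2 (K (.ofNat 61117615500732))) N (B (K (.ofNat 49765749595596)) (K (.negSucc 26459960802911)) N N) N) (B (A2 (K (.negSucc 38229616452203))) (B N N (K (.negSucc 40772440874627)) (K (.ofNat 2846255356944))) (B (K (.ofNat 26835435755352)) (K (.negSucc 38527705952855)) N N) (B (K (.ofNat 13252859119080)) (K (.negSucc 30327449237711)) N N)) (B (B (K (.negSucc 19124627107823)) (K (.ofNat 27699156229320)) N N) (B (K (.ofNat 75513396351528)) (K (.negSucc 86662836133199)) N N) N N) (B (B (K (.negSucc 9723502459439)) (K (.negSucc 57717142449551)) N N) (B (K (.ofNat 1134659525976)) (K (.negSucc 22655127431087)) N N) N N)) (B (B (A2 (K (.negSucc 4175540427743))) N (B (K (.ofNat 4357884205008)) (K (.ofNat 6796410555312)) N N) N) (B (A2 (K (.negSucc 3853503568367))) (B N N (K (.negSucc 436669831007)) (K (.ofNat 396602687232))) (B (K (.ofNat 7708480977744)) (K (.negSucc 8399213202959)) N N) (B (K (.negSucc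 1083608349983)) (K (.ofNat 378240192000)) N N)) (B (B (K (.negSucc 11309608258271)) (K (.negSucc 9506267017199)) N N) (B (K (.ofNat 2308140938016)) (K (.negSucc 11162904326783)) N N) N N) (B (B (K (.ofNat 815724618624)) (K (.ofNat 4029634171296)) N N) (B (K (.ofNat 8156705936976)) (K (.negSucc 46717399295)) N N) N N)))⟩,
  ⟨.x, T6, (B (B (B (A2 (K (.negSucc 32070565552103))) N (A0 (K (.negSucc 41531627266127))) N) N (B (B (K (.ofNat 3325777013016)) (K (.negSucc 62466998543063)) N N) (B (K (.negSucc 40190585199443)) (K (.ofNat 23242922696088)) N N) N N) N) (B (B (A2 (K (.negSucc 56640908617883))) N (B (K (.negSucc 55507878115307)) (K (.ofNat 53053258853268)) N N) N) (B (A2 (K (.negSucc 1096941316859))) (B N N (K (.ofNat 26768010294144)) (K (.negSucc 17281221135695))) (B (K (.negSucc 54779398695827)) (K (.ofNat 76143648531168)) N N) (B (K (.negSucc 9285580565855)) (K (.ofNat 15996594348504)) N N)) (B (B (K (.ofNat 47848373651808)) (K (.negSucc 46653072318503)) N N) (B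 (K (.negSucc 95975290176839)) (K (.ofNat 67897851864912)) N N) N N) (B (B (K (.ofNat 2505775100184)) (K (.ofNat 12195286530084)) N N) (B (K (.negSucc 17665600122107)) (K (.ofNat 5443795281312)) N N) N N)) (B (B (B (K (.negSucc 4297594772303)) (K (.negSucc 1468485110447)) N N) (B (K (.negSucc 39790617645311)) (K (.negSucc 5678382451535)) N N) N N) (B (B (K (.ofNat 18831893425344)) (K (.negSucc 10581554199599)) N N) (B (K (.negSucc 13418780508575)) (K (.negSucc 3775730272703)) N N) N N) N N) (B (B (B (K (.ofNat 4786503920352)) (K (.negSucc 50276307045023)) N N) (B (K (.ofNat 22947387801408)) (K (.negSucc 49112602285355)) N N) N N) (B (B (K (.ofNat 11497698142488)) (K (.negSucc 101980007551223)) N N) (B (K (.negSucc 74004661371995)) (K (.negSucc 354337016831)) N N) N N) N N))⟩,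
  ⟨.z, T0, (C (C (C (A4 (K (.negSucc 8769949488863))) N N N (A0 (K (.ofNat 39416111568216))) N) N N N (B (B (K (.negSucc 16966224089783)) (K (.negSucc 85923984334535)) N N) (B (K (.negSucc 103290098588243)) (K (.ofNat 19122141664296)) N N) N N) N) (C (A4 (A1 (K (.negSucc 6421033293731)))) (C (A4 (K (.negSucc 12269035464191))) (C N N N N (K (.negSucc 1829514889331)) (K (.negSucc 37201057822799))) N N (B (K (.ofNat 46402305690852)) (K (.negSucc 29428555708007)) N N) (B (K (.ofNat 37654194407544)) (K (.negSucc 30526657248023)) N N)) N N N (B (B (K (.negSucc 2855684062151)) (K (.negSucc 67713412341275)) N N) (B (K (.negSucc 51564538720259)) (K (.negSucc 16560935574911)) N N) N N)) N N (A0 (B (B (K (.ofNat 2822972976144)) (K (.negSucc 2282095400975)) N N) (A0 (K (.ofNat 27271551810096))) N N)) (A1 (A1 (A1 (K (.negSucc 19250355259871))))))⟩,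
  ⟨.z, T1, (B (B (B (A2 (K (.ofNat 20369980381140))) N (A0 (K (.ofNat 35109895020804))) N) N (B (B (K (.ofNat 9553050897840)) (K (.ofNat 68609196777240)) N N) (B (K (.ofNat 63718847134020)) (K (.negSucc 21222726339743)) N N) N N) N) (B (A2 (A1 (K (.negSucc 11590973511587)))) (B (A2 (K (.ofNat 26589642172812))) (B N N (K (.ofNat 3506870861892)) (K (.ofNat 25670384486784))) (B (K (.ofNat 36039338736336)) (K (.negSucc 38214426368087)) N N) (B (K (.ofNat 23189198805864)) (K (.negSucc 13316428126655)) N N)) N (B (B (K (.negSucc 1538565654023)) (K (.ofNat 58423286707740)) N N) (B (K (.ofNat 40846464107460)) (K (.ofNat 15894128650176)) N N) N N)) (A0 (B (B (K (.ofNat 3379645437264)) (K (.ofNat 2336664810672)) N N) (A0 (K (.ofNat 27829701573840))) N N)) (A1 (A1 (A1 (K (.negSucc 18728821345247))))))⟩,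
  ⟨.z, T4, (B (B (B (A0 (K (.negSucc 683714939903))) (A1 (K (.ofNat 17053309941840))) N N) (B (B (K (.ofNat 5822301347712)) (K (.ofNat 14793704137728)) N N) (B (K (.negSucc 6278270503103)) (K (.ofNat 6311922462432)) N N) N N) N N) (B (B (B (K (.ofNat 1731846881376)) (K (.ofNat 43107325688592)) N N) (B (K (.ofNat 3539024918784)) (K (.ofNat 69173329729212)) N N) N N) (B (B (K (.ofNat 16890312822120)) (K (.ofNat 97782081399720)) N N) (B (K (.ofNat 61251352567308)) (K (.ofNat 44806550606640)) N N) N N) N N) N N)⟩,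
  ⟨.z, T5, (B (B (B (A2 (K (.negSucc 15060242557043))) N (A0 (K (.negSucc 3147889426667))) N) N (B (B (K (.ofNat 12878827910856)) (K (.ofNat 23618214706032)) N N) (B (K (.ofNat 39316990650192)) (K (.ofNat 9599510191608)) N N) N N) N) (B (A2 (A1 (K (.negSucc 2797936656767)))) (B (A2 (K (.negSucc 8820958863563))) (B N N (K (.negSucc 3962854963727)) (K (.ofNat 17345557146960))) (B (K (.negSucc 3419574972731)) (K (.ofNat 16946606388528)) N N) (B (K (.ofNat 20394380416464)) (K (.negSucc 17812289897495)) N N)) N N) N N)⟩,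
  ⟨.z, T6, (A1 (B (B (B (K (.ofNat 10961813855088)) (K (.ofNat 6745542226128)) N N) (B (K (.ofNat 12217106992752)) (K (.negSucc 23495614017983)) N N) N N) (A0 (A0 (K (.ofNat 6103571297184)))) N N))⟩,
  ⟨.x, T8, (C N N (C N N (A4 (K (.ofNat 2297359889856))) N (B N N (K (.ofNat 4812862717440)) (K (.ofNat 2033902027008))) N) (C N N (A4 (K (.ofNat 223742472912))) (C N N N N (K (.negSucc 3219344734319)) (K (.ofNat 339842863872))) (B N N (K (.negSucc 1794896670959)) (K (.negSucc 78439531679))) (B N N (K (.negSucc 2261848468607)) (K (.ofNat 24437852928)))) (B N N (B N N (K (.ofNat 2823635433024)) (K (.ofNat 4024871721216))) (B N N (K (.ofNat 4224674902032)) (K (.ofNat 2282220293904)))) (B N N (B N N (K (.negSucc 1067345678015)) (K (.ofNat 697721047776))) (B N N (K (.ofNat 1126620159984)) (K (.negSucc 57187565567)))))⟩,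
  ⟨.x, T9, (C N (C N N N (A5 (K (.negSucc 171509508863))) (A3 (K (.negSucc 2476134976895))) (B N N (K (.negSucc 5392767187727)) (K (.ofNat 496140090624)))) (C (A4 (K (.negSucc 2085646812479))) (C N N N N (K (.negSucc 6803932683167)) (K (.negSucc 7649665977023))) N N (B (K (.negSucc 2302100300159)) (K (.ofNat 2967851321856)) N N) N) (C (A4 (K (.ofNat 2786686116624))) (C N N N N (K (.negSucc 793288654127)) (K (.negSucc 122755855103))) N N (B (K (.ofNat 5132201240016)) (K (.ofNat 3018933576576)) N N) (B (K (.ofNat 2675526807312)) (K (.negSucc 221960694527)) N N)) (B (A2 (K (.ofNat 2080575720000))) (B N N (K (.ofNat 5233859538336)) (K (.ofNat 4418443151280))) (A0 (K (.negSucc 2014151438015))) (A0 (K (.negSucc 3644257364783)))) (B N (B N N (K (.negSucc 1792645319375)) (K (.negSucc 42326323199))) N (A1 (K (.ofNat 60573671424)))))⟩,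
  ⟨.x, T10, (B N (A3 (B N N (K (.ofNat 1567028726784)) (K (.ofNat 95594784768)))) N (B N (A3 (K (.negSucc 3328439039))) N (A1 (K (.negSucc 4196240639)))))⟩,
  ⟨.x, T11, (C N (C (A4 (K (.negSucc 1828668099455))) (C N N N N (K (.negSucc 2730675234815)) (K (.ofNat 316892590848))) N N (B (K (.negSucc 1182150241343)) (K (.negSucc 3000503865599)) N N) (B (K (.negSucc 2718383898239)) (K (.negSucc 538215591167)) N N)) N N (B (B (K (.ofNat 109092204864)) (K (.ofNat 348773268096)) N N) (A0 (K (.ofNat 1500723282816))) N N) N)⟩,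
  ⟨.x, T12, (B N (B (A2 (K (.negSucc 3108286690559))) (B N N (K (.negSucc 2042339059583)) (K (.ofNat 206400731904))) (A1 (K (.ofNat 2930362106112))) (A1 (K (.negSucc 31577340671)))) N (A1 (A1 (K (.negSucc 162533081087)))))⟩,
  ⟨.x, T13, (B (B (B (K (.ofNat 442639282176)) (K (.negSucc 615209748479)) N N) (B (K (.negSucc 21999612959)) (K (.negSucc 939170059775)) N N) N N) (B (B (K (.ofNat 931218622848)) (K (.ofNat 417985526016)) N N) (A0 (K (.ofNat 630588312576))) N N) N N)⟩,
  ⟨.x, T14, (C N N (C N N (A4 (K (.ofNat 154016494848))) N (B N N (K (.ofNat 256325637888)) (K (.negSucc 98602493615))) N) (C N N (A4 (K (.ofNat 2515449287232))) (C N N N N (K (.negSucc 5682483951983)) (K (.negSucc 106044795647))) (B N N (K (.ofNat 3539223402480)) (K (.ofNat 3570634647792))) (B N N (K (.ofNat 768991662144)) (K (.ofNat 274350157056)))) (B N N (B N N (K (.ofNat 76013074944)) (K (.ofNat 135607360464))) (B N N (K (.negSucc 784803883391)) (K (.ofNat 355844358144)))) (B N N (B N N (K (.ofNat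 607800966192)) (K (.ofNat 3644592966576))) (B N N (K (.ofNat 3615214077360)) (K (.negSucc 48189302783)))))⟩,
  ⟨.x, T15, (C (C N N (A4 (K (.negSucc 644250868991))) N (A2 (K (.negSucc 1044725071103))) N) (C N N N (A5 (K (.negSucc 2653863756479))) (A3 (K (.ofNat 3284790879744))) (B N N (K (.ofNat 9809877028464)) (K (.ofNat 3974052721680)))) (C (A4 (K (.ofNat 1729862526528))) (C N N N N (K (.ofNat 10598478544368)) (K (.ofNat 13964130928368))) N N (B (K (.ofNat 2504496454272)) (K (.negSucc 3811829591951)) N N) N) (C (A4 (K (.ofNat 99046849248))) (C N N N N (K (.negSucc 62631617039)) (K (.negSucc 5367804054335))) N N (B (K (.negSucc 230759607887)) (K (.negSucc 4281599410703)) N N) (B (K (.ofNat 3698290944576)) (K (.negSucc 6033916126079)) N N)) (B (A2 (K (.negSucc 2050340952383))) (B N N (K (.negSucc 15357632466095)) (K (.negSucc 7002952533071))) (B (K (.ofNat 2419118612928)) (K (.negSucc 3201410771855)) N N) (B (K (.ofNat 7689341651040)) (K (.ofNat 9652396767552)) N N))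 (B (A2 (K (.negSucc 5764897920383))) (B N N (K (.negSucc 4532612567039)) (K (.ofNat 3639444016896))) (B (K (.negSucc 1343946208175)) (K (.negSucc 3099778954703)) N N) (B (K (.ofNat 293062949424)) (K (.ofNat 846980167680)) N N)))⟩,
  ⟨.x, T16, (B (A2 (A2 (K (.ofNat 151165440000)))) (B N N (A3 (K (.ofNat 2338979099904))) (B N N (K (.negSucc 1556963333711)) (K (.negSucc 6086124464831)))) (B (A2 (K (.negSucc 30680612351))) (B N N (K (.negSucc 6010787601215)) (K (.ofNat 1805392355472))) (B (K (.ofNat 438563787264)) (K (.negSucc 1973281927679)) N N) (B (K (.ofNat 1815839084880)) (K (.ofNat 9292318595136)) N N)) (B (A2 (K (.negSucc 501248597327))) (B N N (K (.negSucc 6626471417423)) (K (.negSucc 11704844735))) (B (K (.negSucc 5141328898031)) (K (.negSucc 1136457993599)) N N) (B (K (.negSucc 7261004602367)) (K (.ofNat 4792585574016)) N N)))⟩,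
  ⟨.x, T17, (C (C N N (A4 (K (.ofNat 441700190208))) N (A2 (K (.ofNat 654083900928))) N) (C N N N (A5 (K (.ofNat 4100875006176))) (A3 (K (.negSucc 9174565476287))) (B N N (K (.negSucc 10320698989871)) (K (.negSucc 3682843281647)))) (C (A4 (K (.negSucc 1606719986495))) (C N N N N (K (.negSucc 15246565062623)) (K (.negSucc 19482628038479))) N N (B (K (.negSucc 2565399890303)) (K (.ofNat 12195310522608)) N N) N) (C (A4 (K (.ofNat 2920844985840))) (C N N N N (K (.ofNat 2533401816192)) (K (.negSucc 2523817725119))) N N (B (K (.ofNat 2992594735296)) (K (.ofNat 2899693323648)) N N) (B (K (.negSucc 66354570143)) (K (.ofNat 4436111575008)) N N)) (B (A2 (K (.ofNat 2225526767424))) (B N N (K (.ofNat 18525810621456)) (K (.ofNat 13971157476192))) (B (K (.negSucc 2561442927551)) (K (.ofNat 10857442547952)) N N) (B (K (.negSucc 6128853720911)) (K (.negSucc 9492075874223)) N N)) (B (A2 (K (.ofNat 10627783006896))) (B N N (K (.ofNat 6305871153312)) (K (.ofNat 1512213231312))) (B (K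 (.ofNat 3169949035680)) (K (.negSucc 1329967878767)) N N) (B (K (.ofNat 1576862170848)) (K (.negSucc 3827910829103)) N N)))⟩,
  ⟨.x, T18, (C (C (A4 (K (.negSucc 3277432274687))) N N N (B (K (.negSucc 4399686390815)) (K (.negSucc 12206862527471)) N N) N) (C (A4 (K (.negSucc 2817865108367))) (C N N N N (K (.ofNat 2954161795680)) (K (.ofNat 5915552811552))) N N (B (K (.negSucc 3523245098831)) (K (.ofNat 8094961719648)) N N) (B (K (.negSucc 2316166366175)) (K (.negSucc 2507763706559)) N N)) N N (B (B (K (.negSucc 92402397215)) (K (.negSucc 2416644131615)) N N) (B (K (.ofNat 8963673733728)) (K (.negSucc 4599064409759)) N N) N N) (B (B (K (.ofNat 1271685801024)) (K (.ofNat 4481948168640)) N N) (B (K (.ofNat 9868787465328)) (K (.negSucc 12602437436159)) N N) N N))⟩,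
  ⟨.x, T19, (B (B (A2 (K (.ofNat 656671442688))) N (B (K (.ofNat 315109585152)) (K (.ofNat 6901338879360)) N N) N) (B (A2 (K (.ofNat 496998518256))) (B N N (K (.ofNat 2942689235616)) (K (.ofNat 5847332131008))) (B (K (.ofNat 2214669040128)) (K (.negSucc 6895535943455)) N N) (B (K (.ofNat 3932605273104)) (K (.ofNat 3324803264928)) N N)) (B (B (K (.negSucc 1021135984127)) (K (.ofNat 1942902641808)) N N) (B (K (.ofNat 11012886816192)) (K (.negSucc 11936307556079)) N N) N N) (B (B (K (.ofNat 4106443590288)) (K (.ofNat 8071503743808)) N N) (B (K (.ofNat 9766117575504)) (K (.negSucc 6001296052319)) N N) N N))⟩,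
  ⟨.x, T20, (B (A2 (A2 (K (.ofNat 96597702144)))) (B N N (A3 (K (.negSucc 2285414155007))) (B N N (K (.negSucc 687651510095)) (K (.negSucc 3544645199039)))) (B (A2 (K (.negSucc 51657336575))) (B N N (K (.negSucc 4347714770351)) (K (.ofNat 3517576375392))) (B (K (.ofNat 358190615808)) (K (.negSucc 1554815772287)) N N) (B (K (.ofNat 2290510954944)) (K (.ofNat 8776374773040)) N N)) (B (A2 (K (.negSucc 7435812191471))) (B N N (K (.negSucc 9576645404255)) (K (.negSucc 267723153071))) (B (K (.negSucc 3333441186575)) (K (.negSucc 287082642959)) N N) (B (K (.negSucc 3909009735935)) (K (.ofNat 7052305319856)) N N)))⟩,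
  ⟨.x, T21, (B (B (A2 (K (.ofNat 3359657386080))) N (B (K (.negSucc 3273842818655)) (K (.negSucc 1763618330447)) N N) N) N (B (A1 (K (.negSucc 596305648367))) (B (K (.negSucc 629112737519)) (K (.negSucc 11295241391951)) N N) N N) (B (B (K (.ofNat 2890736289216)) (K (.ofNat 5349595300992)) N N) (A1 (K (.ofNat 5497972975008))) N N))⟩,
  ⟨.x, T22, (C N (C N N N (A5 (K (.negSucc 212089591295))) (A3 (K (.ofNat 2315006949024))) (B N N (K (.negSucc 3072721753583)) (K (.ofNat 602878007808)))) N (C (A4 (K (.negSucc 4951214268479))) (C N N N N (K (.negSucc 4753704867695)) (K (.ofNat 54177693696))) N N (A0 (K (.ofNat 1295947245024))) (A1 (K (.negSucc 54177693695)))) N (A1 (A3 (K (.negSucc 54177693695)))))⟩,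
  ⟨.x, T23, (C (C (A4 (K (.negSucc 2980902788351))) N N N (B (K (.negSucc 4279543131743)) (K (.negSucc 2523681680111)) N N) N) (C (A4 (K (.negSucc 3028074306047))) (C N N N N (K (.ofNat 1462460655744)) (K (.ofNat 405772667424))) N N (B (K (.negSucc 7334892502991)) (K (.negSucc 97110528047)) N N) (B (K (.negSucc 1333439581535)) (K (.ofNat 517285312992)) N N)) N N (B (B (K (.negSucc 376700147423)) (K (.negSucc 6141490600895)) N N) (B (K (.negSucc 10590544878191)) (K (.negSucc 8710168931855)) N N) N N) (B (B (K (.negSucc 3898299271823)) (K (.ofNat 5759020390608)) N N) (B (K (.ofNat 7787325889152)) (K (.ofNat 329861652480)) N N) N N))⟩,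
  ⟨.x, T24, (B (B (A2 (K (.negSucc 3425822125919))) N (B (K (.ofNat 2650354242912)) (K (.ofNat 965966400720)) N N) N) (B (A2 (K (.negSucc 1555365767471))) (B N N (K (.ofNat 1872707703552)) (K (.ofNat 460888729920))) (B (K (.ofNat 4628385737136)) (K (.negSucc 6229484380655)) N N) (B (K (.ofNat 969867511056)) (K (.ofNat 386632673280)) N N)) (B (B (K (.ofNat 283243350528)) (K (.negSucc 3845827633823)) N N) (B (K (.negSucc 11257134301727)) (K (.negSucc 5750286786575)) N N) N N) (B (B (K (.negSucc 4477653631583)) (K (.ofNat 3501540095184)) N N) (B (K (.ofNat 5138822979648)) (K (.negSucc 155072786687)) N N) N N))⟩,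
  ⟨.x, T25, (C (C (A4 (K (.ofNat 3391751791872))) N N N (B (K (.ofNat 4019782632480)) (K (.ofNat 7827192646704)) N N) N) (C (A4 (K (.ofNat 6417863268336))) (C N N N N (K (.negSucc 2864340856799)) (K (.ofNat 499183554816))) N N (B (K (.ofNat 4699707061392)) (K (.negSucc 8287377331103)) N N) (B (K (.negSucc 2328504376895)) (K (.negSucc 622844536319)) N N)) N N (B (B (K (.ofNat 289097374752)) (K (.ofNat 5869804111344)) N N) (B (K (.ofNat 1612066455648)) (K (.ofNat 14207607566064)) N N) N N) (B (B (K (.negSucc 835490650751)) (K (.negSucc 6667611181343)) N N) (B (K (.negSucc 10006077473135)) (K (.negSucc 59387302655)) N N) N N))⟩,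
  ⟨.x, T26, (B (B (B (K (.negSucc 241075657727)) (K (.ofNat 695568083328)) N N) (B (K (.ofNat 889883987184)) (K (.ofNat 14204820912048)) N N) N N) (B (B (K (.ofNat 1344841203744)) (K (.negSucc 255113162495)) N N) (B (K (.negSucc 10819042008335)) (K (.negSucc 354337016831)) N N) N N) N N)⟩,
  ⟨.x, T27, (B (B (A2 (K (.negSucc 2933709567839))) N (B (K (.ofNat 3027414971232)) (K (.ofNat 6251518757520)) N N) N) (B (A2 (K (.negSucc 4128283248335))) (B N N (K (.ofNat 2674547836128)) (K (.ofNat 277555984128))) (B (K (.ofNat 4054479402384)) (K (.negSucc 6745465893023)) N N) (B (K (.negSucc 1148477359391)) (K (.ofNat 378240192000)) N N)) (B (B (K (.negSucc 314768623103)) (K (.negSucc 2701463577551)) N N) (B (K (.negSucc 481887298223)) (K (.negSucc 11535840870767)) N N) N N) (B (B (K (.ofNat 1017480092544)) (K (.ofNat 5010132364704)) N N) (B (K (.ofNat 9137204130384)) (K (.ofNat 7460294400)) N N) N N))⟩,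
  ⟨.x, T28, (B (B (B (K (.ofNat 234234395136)) (K (.ofNat 9234950902416)) N N) (B (K (.ofNat 12145099466304)) (K (.ofNat 10571445184464)) N N) N N) (A1 (B (K (.negSucc 10702147453199)) (K (.negSucc 354337016831)) N N)) N N)⟩,
  ⟨.x, T29, (B N (B N N (A3 (K (.negSucc 2115828804383))) (B N N (K (.ofNat 2993502120624)) (K (.ofNat 96378605568)))) N (B (A2 (K (.negSucc 2957513751935))) (B N N (K (.negSucc 3016704242735)) (K (.negSucc 64869009407))) N N))⟩,
  ⟨.x, T30, (B N (B (A2 (K (.negSucc 646568833679))) (B N N (K (.ofNat 670751197056)) (K (.ofNat 54177693696))) (B (K (.negSucc 748190855663)) (K (.ofNat 8555831994528)) N N) (A1 (K (.negSucc 71547162623)))) N (A1 (A1 (K (.negSucc 54177693695)))))⟩,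
  ⟨.x, T31, (A0 (B (B (K (.ofNat 917949335040)) (K (.ofNat 7934022338832)) N N) (B (K (.ofNat 10871264991888)) (K (.negSucc 4245258758111)) N N) N N))⟩,
  ⟨.z, T15, (C (C (A4 (K (.ofNat 3077536508928))) N N N (B (K (.ofNat 4607602882848)) (K (.ofNat 4355775489888)) N N) N) (C N (C N N N N (K (.ofNat 1253507078592)) (K (.ofNat 439347631392))) N N N (B (K (.ofNat 1572060844656)) (K (.ofNat 170410083552)) N N)) N N (B (B (K (.ofNat 146471449824)) (K (.ofNat 504193126176)) N N) (A0 (K (.negSucc 993878860751))) N N) (A1 (A1 (K (.ofNat 270474349824)))))⟩,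
  ⟨.z, T16, (B (B (A2 (K (.ofNat 3396713074272))) N (B (K (.negSucc 3434589161567)) (K (.negSucc 3605145744959)) N N) N) (A1 (B N N (K (.ofNat 310127797440)) (K (.ofNat 68508597312)))) N N)⟩,
  ⟨.z, T17, (A0 (A4 (A0 (K (.ofNat 219974128704)))))⟩,
  ⟨.x, T32, (C N N N (A5 (K (.negSucc 133186830335))) N (A3 (K (.ofNat 155760869376))))⟩,
  ⟨.x, T33, (A3 (A3 (K (.negSucc 47405481983))))⟩,
  ⟨.x, T34, (C N (A5 (K (.ofNat 207681159168))) N N N (A1 (K (.negSucc 196394139647))))⟩,
  ⟨.x, T35, (A1 (A3 (K (.negSucc 67722117119))))⟩,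
  ⟨.x, T36, (A0 (A0 (K (.negSucc 213889019903))))⟩,
  ⟨.x, T37, (C N N (A4 (K (.negSucc 178796616191))) (C N N N N (K (.negSucc 129059873855)) (K (.ofNat 205466865408))) (B N N (K (.negSucc 408246345215)) (K (.ofNat 2162988023040))) (B N N (K (.negSucc 2619124419455)) (K (.ofNat 1054401058944))))⟩,
  ⟨.x, T38, (B N N (B N N (K (.negSucc 40284656639)) (K (.ofNat 1838249385984))) (B N N (K (.negSucc 1713304571327)) (K (.ofNat 1779756385536))))⟩,
  ⟨.x, T39, (C N N (A4 (K (.ofNat 347504898816))) (C N N N N (K (.ofNat 447449142528)) (K (.ofNat 857601571968))) (B N N (K (.ofNat 307462106880)) (K (.negSucc 2043056908799))) (B N N (K (.ofNat 1612216089216)) (K (.negSucc 138766094783))))⟩,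
  ⟨.x, T40, (C (A4 (K (.ofNat 732206386944))) (C N N N N (K (.negSucc 474874472447)) (K (.negSucc 1191533447231))) N N (B (K (.ofNat 66234910464)) (K (.negSucc 24316733951)) N N) (B (K (.ofNat 612846482112)) (K (.negSucc 1044061342847)) N N))⟩,
  ⟨.x, T41, (B (A2 (K (.negSucc 134639698175))) (B N N (K (.ofNat 715974671232)) (K (.negSucc 478985472575))) (B (K (.negSucc 404967174911)) (K (.negSucc 1137199129343)) N N) (B (K (.ofNat 301973914944)) (K (.negSucc 2258142515135)) N N))⟩,
  ⟨.x, T42, (B N N (B N N (K (.negSucc 42029964287)) (K (.ofNat 1408741528320))) (B N N (K (.negSucc 920138434559)) (K (.ofNat 764271889344))))⟩,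
  ⟨.x, T43, (B (A2 (K (.ofNat 40838929920))) N (B (K (.negSucc 438563787263)) (K (.negSucc 1259756976383)) N N) (B (K (.ofNat 393843358080)) (K (.negSucc 1744148386367)) N N))⟩,
  ⟨.x, T44, (C N N (A4 (K (.negSucc 455492636927))) N (B N N (K (.ofNat 174432040704)) (K (.ofNat 452818594944))) N)⟩,
  ⟨.x, T45, (C (A4 (K (.ofNat 75425022720))) N N N (B (K (.ofNat 447473403648)) (K (.negSucc 2376887680511)) N N) (B (K (.negSucc 292348922111)) (K (.ofNat 407673596160)) N N))⟩,
  ⟨.x, T46, (B (A2 (K (.ofNat 257382302976))) N (B (K (.ofNat 689615804160)) (K (.negSucc 1284664748543)) N N) N)⟩,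
  ⟨.x, T47, (C (A4 (K (.ofNat 525168520704))) N N N (B (K (.negSucc 419690128895)) (K (.ofNat 1077137834112)) N N) N)⟩,
  ⟨.x, T48, (A0 (A0 (K (.ofNat 12325395456))))⟩,
  ⟨.x, T49, (B (A2 (K (.negSucc 87882361343))) N (B (K (.ofNat 184476704256)) (K (.negSucc 536950933631)) N N) N)⟩,
  ⟨.x, T50, (A0 (A0 (K (.ofNat 683714939904))))⟩,
  ⟨.x, T51, (A2 (A2 (K (.ofNat 118931742720))))⟩,
  ⟨.x, T52, (B (A2 (K (.ofNat 3783241728))) N (A0 (K (.negSucc 277817444351))) N)⟩,
  ⟨.x, T53, (C N N N (A5 (K (.ofNat 233798068224))) N (A3 (K (.ofNat 298788009984))))⟩,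
  ⟨.x, T54, (A5 (A1 (K (.negSucc 509604452351))))⟩,
  ⟨.x, T55, (A1 (A3 (K (.ofNat 27182905344))))⟩,
  ⟨.x, T56, (C N N N (A5 (K (.ofNat 445887659520))) N (A3 (K (.negSucc 249912304127))))⟩,
  ⟨.x, T57, (C (A4 (K (.negSucc 741266049023))) (A5 (K (.ofNat 348145205760))) N N (B (K (.negSucc 177448071167)) (K (.ofNat 1067353417728)) N N) (A1 (K (.ofNat 174038450688))))⟩,
  ⟨.x, T58, (B (A2 (K (.negSucc 326382981119))) (B N N (K (.negSucc 598139251199)) (K (.ofNat 200009793024))) (A1 (K (.negSucc 134879883263))) (B (K (.ofNat 471160281600)) (K (.ofNat 8392481280)) N N))⟩,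
  ⟨.x, T59, (A1 (A5 (K (.negSucc 566568069119))))⟩,
  ⟨.x, T60, (B (A2 (K (.negSucc 281861959679))) (A3 (K (.ofNat 285404829696))) (A1 (K (.negSucc 208308215807))) N)⟩,
  ⟨.x, T61, (A1 (A3 (K (.ofNat 64869009408))))⟩,
  ⟨.x, T62, (A3 (A3 (K (.ofNat 105376868352))))⟩,
  ⟨.x, T63, (A3 (A1 (K (.negSucc 96347252735))))⟩,
  ⟨.x, T64, (A3 (A3 (K (.ofNat 8998262784))))⟩,
  ⟨.x, T65, (A3 (A1 (K (.negSucc 24800090111))))⟩,
  ⟨.x, T66, (C N N N N (K (.negSucc 129236373503)) (K (.ofNat 30474952704)))⟩,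
  ⟨.x, T67, (B N N (K (.negSucc 104404930559)) (K (.ofNat 67722117120)))⟩,
  ⟨.x, T68, (B N N (K (.ofNat 10158317568)) (K (.negSucc 10158317567)))⟩,
  ⟨.x, T69, (C N N N N (K (.ofNat 117949353984)) (K (.ofNat 247185727488)))⟩,
  ⟨.x, T70, (A2 (K (.ofNat 329016619008)))⟩,
  ⟨.x, T71, (A4 (K (.negSucc 247185727487)))⟩,
  ⟨.x, T72, (A0 (K (.negSucc 268631064575)))⟩,
  ⟨.x, T73, (A2 (K (.negSucc 68850819071)))⟩,
  ⟨.x, T74, (A5 (K (.ofNat 135444234240)))⟩,
  ⟨.x, T75, (A2 (K (.negSucc 23702740991)))⟩,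
  ⟨.x, T76, (A3 (K (.ofNat 23702740992)))⟩,
  ⟨.z, T77, (A2 (K (.ofNat 121899810816)))⟩] c_0 c_1 c_2 c_3 c_4 c_5)

end Pool.Agent.Helper805.Chain.D5
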