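import Pool.Agent.Helper805.Chain.Target
set_option autoImplicit false
set_option maxRecDepth 100000

/-! Certificate data (found by computer). -/

namespace Pool.Agent.Helper805.Chain.D5
open Pool.Agent.Helper805.Chain

def T0 : Tr := .m .x .z
def T1 : Tr := .m .x .w
def T2 : Tr := .m .z .x
def T3 : Tr := .m .z .z
def T4 : Tr := .m .z .w
def T5 : Tr := .m .w .x
def T6 : Tr := .m .w .z
def T7 : Tr := .m .x .x
def T8 : Tr := .m T7 .x
def T9 : Tr := .m T7 .z
def T10 : Tr := .m T7 .w
def T11 : Tr := .m T0 .z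
def T12 : Tr := .m T0 .w
def T13 : Tr := .m T3 .w
def T14 : Tr := .m .x T7
def T15 : Tr := .m .x T0
def T16 : Tr := .m .x T1
def T17 : Tr := .m .x T2
def T18 : Tr := .m .x T3
def T19 : Tr := .m .x T4
def T20 : Tr := .m .x T5
def T21 : Tr := .m .x T6
def T22 : Tr := .m .z T7
def T23 : Tr := .m .z T0
def T24 : Tr := .m .z T1
def T25 : Tr := .m .z T2
def T26 : Tr := .m .z T4
def T27 : Tr := .m .z T5
def T28 : Tr := .m .z T6
def T29 : Tr := .m .w T7
def T30 : Tr := .m .w T0
def T31 : Tr := .m .w T3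
def T32 : Tr := .m T7 T0
def T33 : Tr := .m T7 T1
def T34 : Tr := .m T7 T3
def T35 : Tr := .m T7 T4
def T36 : Tr := .m .x T13
def T37 : Tr := .m .x T15
def T38 : Tr := .m .x T16
def T39 : Tr := .m .x T17
def T40 : Tr := .m .x T18
def T41 : Tr := .m .x T19
def T42 : Tr := .m .x T20
def T43 : Tr := .m .x T21
def T44 : Tr := .m .x T22
def T45 : Tr := .m .x T23
def T46 : Tr := .m .x T24
def T47 : Tr := .m .x T25
def T48 : Tr := .m .x T26
def T49 : Tr := .m .x T27
def T50 : Tr := .m .x T28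
def T51 : Tr := .m .x T29
def T52 : Tr := .m .x T30
def T53 : Tr := .m .z T8
def T54 : Tr := .m .z T9
def T55 : Tr := .m .z T10
def T56 : Tr := .m .z T14
def T57 : Tr := .m .z T15
def T58 : Tr := .m .z T16
def T59 : Tr := .m .z T17
def T60 : Tr := .m .z T20
def T61 : Tr := .m .z T29
def T62 : Tr := .m .w T8
def T63 : Tr := .m .w T9
def T64 : Tr := .m .w T14
def T65 : Tr := .m .w T15
def T66 : Tr := .m .x T40
def T67 : Tr := .m .x T41
def T68 : Tr := .m .x T43
def T69 : Tr := .m .x T45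
def T70 : Tr := .m .x T46
def T71 : Tr := .m .x T47
def T72 : Tr := .m .x T48
def T73 : Tr := .m .x T52
def T74 : Tr := .m .z T37
def T75 : Tr := .m .z T38
def T76 : Tr := .m .w T37
def T77 : Tr := .m .x T38
def T78 : Tr := .m T0 T4
def T79 : Tr := .m .x T31
def T80 : Tr := .m .z T19
def T81 : Tr := .m .z T21
def T82 : Tr := .m .z T24
def T83 : Tr := .m .w T18
def T84 : Tr := .m .x T36
def T85 : Tr := .m .x T50
def T86 : Tr := .m .x T79
def T87 : Tr := .m .z T12
def T88 : Tr := .m .x T87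
def T89 : Tr := .m .x T80
def T90 : Tr := .m .x T81
def T91 : Tr := .m .x T82
def T92 : Tr := .m .z T35
def T93 : Tr := .m .x T12
def T94 : Tr := .m .z T93
def T95 : Tr := .m .z T41
def T96 : Tr := .m .z T43
def T97 : Tr := .m .z T46
def T98 : Tr := .m .z T52
def T99 : Tr := .m .w T34
def T100 : Tr := .m .x T11
def T101 : Tr := .m .w T100
def T102 : Tr := .m .w T40
def T103 : Tr := .m .z T27
def T104 : Tr := .m .z T30
def T105 : Tr := .m .w T11
def T106 : Tr := .m .x T49
def T107 : Tr := .m .x T58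
def T108 : Tr := .m .x T60
def T109 : Tr := .m .z T33
def T110 : Tr := .m .x T10
def T111 : Tr := .m .z T110
def T112 : Tr := .m .z T42
def T113 : Tr := .m .z T51
def T114 : Tr := .m .w T32
def T115 : Tr := .m .x T9
def T116 : Tr := .m .w T115
def T117 : Tr := .m .x T42
def T118 : Tr := .m .x T57
def T119 : Tr := .m .z T32
def T120 : Tr := .m .z T115
def T121 : Tr := .m .z T39

end Pool.Agent.Helper805.Chain.D5
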