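import Pool.Agent.Helper805.Chain.Cert
set_option autoImplicit false

/-! Expressions in an odd letter `x`, a letter `z` of parity `p` and an even letter `w`,
their derivatives with respect to `x`, and the operator polynomials. -/

namespace Pool.Agent.Helper805.Chain
open Pool.Agent.Helper805.Nuc.Tens

/-- expressions -/
inductive Ex
  | x : Ex
  | z : Ex
  | w : Ex
  | mu : Ex → Ex → Ex
  | ad : Ex → Ex → Ex
  | sm : ℤ → Ex → Ex

namespace Ex

/-- degree (number of odd letters) -/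
def deg (p : Bool) : Ex → ℕ
  | x => 1
  | z => dg p
  | w => 0
  | mu a b => a.deg p + b.deg p
  | ad a _ => a.deg p
  | sm _ a => a.deg p

/-- are all sums homogeneous? -/
def ok (p : Bool) : Ex → Prop
  | x => True
  | z => True
  | w => True
  | mu a b => a.ok p ∧ b.ok p
  | ad a b => a.ok p ∧ b.ok p ∧ a.deg p = b.deg p
  | sm _ a => a.ok p

/-- parity -/
noncomputable def odd (p : Bool) (t : Ex) : Bool :=
  Ex.rec (motive := fun _ => Bool) true p false (fun _ _ a b => Bool.xor a b) (fun _ _ a _ => a) (fun _ _ a => a) t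

/-- the polynomials of right and twisted left multiplication by an expression -/
noncomputable def RL (p : Bool) (t : Ex) : Tri × Tri :=
  Ex.rec (motive := fun _ => Tri × Tri) (lrx, llx) (lrz, llz) (lrw, llw)
    (fun a b iha ihb => RLm (sgb (a.odd p) (b.odd p)) iha ihb)
    (fun _ _ iha ihb => (Tri.add iha.1 ihb.1, Tri.add iha.2 ihb.2))
    (fun c _ iha => (Tri.smul c iha.1, Tri.smul c iha.2)) t

/-- the polynomial of the derivative with respect to `x` -/
noncomputable def dq (p : Bool) (t : Ex) : Tri :=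
  Ex.rec (motive := fun _ => Tri) l1 .nil .nil
    (fun a b iha ihb => Tri.add (Tri.mul (b.RL p).1 iha) (Tri.smul (sgb (a.odd p) (b.odd p)) (Tri.mul (a.RL p).2 ihb)))
    (fun _ _ iha ihb => Tri.add iha ihb)
    (fun c _ iha => Tri.smul c iha) t

theorem odd_iff (p : Bool) (a : Ex) : a.odd p = true ↔ Odd (a.deg p) := by
  induction a with
  | x => simp [odd, deg]
  | z => cases p <;> simp [odd, deg, dg]
  | w => simp [odd, deg]
  | mu a b iha ihb =>
    have : (Ex.mu a b).odd p = Bool.xor (a.odd p) (b.odd p) := rfl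
    rw [this, deg, Nat.odd_add, ← iha, ← Nat.not_odd_iff_even, ← ihb]
    cases a.odd p <;> cases b.odd p <;> simp
  | ad a b iha _ =>
    have : (Ex.ad a b).odd p = a.odd p := rfl
    rw [this, deg, iha]
  | sm c a iha =>
    have : (Ex.sm c a).odd p = a.odd p := rfl
    rw [this, deg, iha]

section
variable {R : Type} [NonUnitalNonAssocRing R]

/-- value -/
def val (x' z' w' : R) : Ex → R
  | x => x'
  | z => z'
  | w => w'
  | mu a b => a.val x' z' w' * b.val x' z' w'
  | ad a b => a.val x' z' w' + b.val x' z' w'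
  | sm c a => c • a.val x' z' w'

/-- derivative in the direction `x ↦ u` (`u` of the same parity as `x`) -/
def dv (x' z' w' u : R) : Ex → R
  | x => u
  | z => 0
  | w => 0
  | mu a b => a.dv x' z' w' u * b.val x' z' w' + a.val x' z' w' * b.dv x' z' w' u
  | ad a b => a.dv x' z' w' u + b.dv x' z' w' u
  | sm c a => c • a.dv x' z' w' u

/-- signed derivative in the direction `x ↦ u`, `u` even -/
def d0 (p : Bool) (x' z' w' u : R) : Ex → R
  | x => u
  | z => 0
  | w => 0
  | mu a b => a.d0 p x' z' w' u * b.val x' z' w' + ((-1 : ℤ) ^ a.deg p) • (a.val x' z' w' * b.d0 p x' z' w' u)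
  | ad a b => a.d0 p x' z' w' u + b.d0 p x' z' w' u
  | sm c a => c • a.d0 p x' z' w' u

variable {P : ℕ → AddSubgroup R} {p : Bool} {x' z' w' : R}
variable (hP : SuperAlt R P) (hx : x' ∈ P 1) (hz : z' ∈ P (dg p % 2)) (hw : w' ∈ P 0)
include hP hx hz hw

theorem RL_sound (t : Ex) (ht : t.ok p) : Rep P p x' z' w' (t.RL p) (t.deg p) (t.val x' z' w') := by
  induction t with
  | x => exact rep_x hP hx
  | z => exact rep_z hP hz
  | w => exact rep_w hP hw
  | mu a b iha ihb =>
    have h := (iha ht.1).mul hP (ihb ht.2)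
    rw [← sgb_eq (odd_iff p a) (odd_iff p b)] at h
    exact h
  | ad a b iha ihb =>
    have h1 := iha ht.1
    have h2 := ihb ht.2.1
    rw [← ht.2.2] at h2
    exact h1.add h2
  | sm c a iha => exact (iha ht).smul c

theorem dq_sound (t : Ex) (ht : t.ok p) :
    (∃ (d : ℕ) (g : ℕ → R → R), d + 1 = t.deg p ∧ Op P p x' z' w' (t.dq p) d g ∧
      ∀ u ∈ P 0, g 0 u = t.d0 p x' z' w' u) ∨ (t.dq p = .nil ∧ ∀ u, t.d0 p x' z' w' u = 0) := by
  induction t with
  | x => exact Or.inl ⟨0, _, rfl, Op.one, fun _ _ => rfl⟩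
  | z => exact Or.inr ⟨rfl, fun _ => rfl⟩
  | w => exact Or.inr ⟨rfl, fun _ => rfl⟩
  | mu a b iha ihb =>
    have ra := RL_sound hP hx hz hw a ht.1
    have rb := RL_sound hP hx hz hw b ht.2
    have hs : sgb (a.odd p) (b.odd p) = (-1) ^ (a.deg p * b.deg p) := sgb_eq (odd_iff p a) (odd_iff p b)
    have e1 : (Ex.mu a b).dq p = Tri.add (Tri.mul (b.RL p).1 (a.dq p))
      (Tri.smul (sgb (a.odd p) (b.odd p)) (Tri.mul (a.RL p).2 (b.dq p))) := rfl
    have key : ∀ (d : ℕ) (g : ℕ → R → R), d + 1 = b.deg p → Op P p x' z' w' (b.dq p) d g →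
        (∀ u ∈ P 0, g 0 u = b.d0 p x' z' w' u) →
        ∃ g', Op P p x' z' w' (Tri.smul (sgb (a.odd p) (b.odd p)) (Tri.mul (a.RL p).2 (b.dq p))) (d + a.deg p) g' ∧
          ∀ u ∈ P 0, g' 0 u = ((-1 : ℤ) ^ a.deg p) • (a.val x' z' w' * b.d0 p x' z' w' u) := by
      intro d g hd hg hu
      refine ⟨_, (hg.mul ra.l).smul _, fun u hu' => ?_⟩
      show sgb (a.odd p) (b.odd p) • (((-1 : ℤ) ^ ((0 + d) * a.deg p)) • (a.val x' z' w' * g 0 u)) = _
      rw [hs, hu u hu', ← hd, zero_add, smul_smul]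
      congr 1
      rw [mul_add, mul_one, pow_add, mul_comm d (a.deg p)]
      obtain h | h := neg_one_pow_eq_or ℤ (a.deg p * d) <;> rw [h] <;> ring
    rcases iha ht.1 with ⟨d, g, hd, hg, hu⟩ | ⟨hn, hu⟩
    · have A := hg.mul rb.r
      rcases ihb ht.2 with ⟨d', g', hd', hg', hu'⟩ | ⟨hn', hu'⟩
      · obtain ⟨g'', hg'', hu''⟩ := key d' g' hd' hg' hu'
        have hdd : d' + a.deg p = d + b.deg p := by omega
        rw [hdd] at hg''
        refine Or.inl ⟨d + b.deg p, _, by show _ = a.deg p + b.deg p; omega, by rw [e1]; exact A.add hg'', fun u hu1 => ?_⟩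
        show g 0 u * _ + g'' 0 u = _
        rw [hu u hu1, hu'' u hu1]; rfl
      · refine Or.inl ⟨d + b.deg p, _, by show _ = a.deg p + b.deg p; omega,
          by rw [e1, hn']; exact A.add (Op.nil _), fun u hu1 => ?_⟩
        show g 0 u * _ + 0 = _ * _ + _ • (_ * b.d0 p x' z' w' u)
        rw [hu u hu1, hu' u, mul_zero, smul_zero]
    · rcases ihb ht.2 with ⟨d', g', hd', hg', hu'⟩ | ⟨hn', hu'⟩
      · obtain ⟨g'', hg'', hu''⟩ := key d' g' hd' hg' hu'
        refine Or.inl ⟨d' + a.deg p, _, by show _ = a.deg p + b.deg p; omega, by rw [e1, hn]; exact (Op.nil _).add hg'', fun u hu1 => ?_⟩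
        show 0 + g'' 0 u = a.d0 p x' z' w' u * _ + _
        rw [hu u, hu'' u hu1, zero_mul]
      · refine Or.inr ⟨by rw [e1, hn, hn']; rfl, fun u => ?_⟩
        show a.d0 p x' z' w' u * _ + _ • (_ * b.d0 p x' z' w' u) = 0
        rw [hu u, hu' u, zero_mul, mul_zero, smul_zero, add_zero]
  | ad a b iha ihb =>
    have e1 : (Ex.ad a b).dq p = Tri.add (a.dq p) (b.dq p) := rfl
    have hdeg := ht.2.2
    rcases iha ht.1 with ⟨d, g, hd, hg, hu⟩ | ⟨hn, hu⟩
    · rcases ihb ht.2.1 with ⟨d', g', hd', hg', hu'⟩ | ⟨hn', hu'⟩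
      · have hdd : d' = d := by omega
        subst hdd
        exact Or.inl ⟨d', _, hd, by rw [e1]; exact hg.add hg', fun u hu1 => by
          show g 0 u + g' 0 u = a.d0 p x' z' w' u + b.d0 p x' z' w' u
          rw [hu u hu1, hu' u hu1]⟩
      · exact Or.inl ⟨d, _, hd, by rw [e1, hn']; exact hg.add (Op.nil _), fun u hu1 => by
          show g 0 u + 0 = a.d0 p x' z' w' u + b.d0 p x' z' w' u
          rw [hu u hu1, hu' u]⟩
    · rcases ihb ht.2.1 with ⟨d', g', hd', hg', hu'⟩ | ⟨hn', hu'⟩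
      · exact Or.inl ⟨d', _, by rw [hd', ← hdeg]; rfl, by rw [e1, hn]; exact (Op.nil _).add hg', fun u hu1 => by
          show 0 + g' 0 u = a.d0 p x' z' w' u + b.d0 p x' z' w' u
          rw [hu u, hu' u hu1]⟩
      · exact Or.inr ⟨by rw [e1, hn, hn']; rfl, fun u => by
          show a.d0 p x' z' w' u + b.d0 p x' z' w' u = 0
          rw [hu u, hu' u, add_zero]⟩
  | sm c a iha =>
    have e1 : (Ex.sm c a).dq p = Tri.smul c (a.dq p) := rfl
    rcases iha ht with ⟨d, g, hd, hg, hu⟩ | ⟨hn, hu⟩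
    · exact Or.inl ⟨d, _, hd, by rw [e1]; exact hg.smul c, fun u hu1 => by
        show c • g 0 u = c • a.d0 p x' z' w' u
        rw [hu u hu1]⟩
    · exact Or.inr ⟨by rw [e1, hn]; rfl, fun u => by
        show c • a.d0 p x' z' w' u = 0
        rw [hu u, smul_zero]⟩

end

/-- commutator, Jordan product, associator -/
def sb (p q : Ex) : Ex := .ad p (.sm (-1) q)
def br (p q : Ex) : Ex := sb (.mu p q) (.mu q p)
def jo (p q : Ex) : Ex := .ad (.mu p q) (.mu q p)
def as (p q r : Ex) : Ex := sb (.mu (.mu p q) r) (.mu p (.mu q r))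

section
variable {R : Type} [NonUnitalNonAssocRing R] (x' z' w' : R)
theorem val_sb (p q : Ex) : (sb p q).val x' z' w' = p.val x' z' w' - q.val x' z' w' := by
  show _ + (-1 : ℤ) • _ = _; rw [neg_one_zsmul, sub_eq_add_neg]
theorem val_br (p q : Ex) : (br p q).val x' z' w' = Nuc.Tens.br (p.val x' z' w') (q.val x' z' w') := by
  unfold br Nuc.Tens.br; rw [val_sb]; rfl
theorem val_jo (p q : Ex) : (jo p q).val x' z' w' = Nuc.Tens.jo (p.val x' z' w') (q.val x' z' w') := rfl
theorem val_as (p q r : Ex) : (as p q r).val x' z' w' = Nuc.Tens.as (p.val x' z' w') (q.val x' z' w') (r.val x' z' w') := by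
  unfold as Nuc.Tens.as; rw [val_sb]; rfl
end

end Ex

end Pool.Agent.Helper805.Chain
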