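import Pool.Agent.Helper805.Chain.Grass
import Pool.Agent.Helper805.Chain.Var
set_option autoImplicit false
open scoped TensorProduct

/-! Alternating functions from expressions: the coefficient of the product of all exterior generators. -/

namespace Pool.Agent.Helper805.Chain
open Pool.Agent.Helper805.Nuc.Tens Pool.Agent.Helper805.Nuc.Ext

section
variable {A : Type} [NonUnitalNonAssocRing A] {m n : ℕ} (c : Fin m → Fin n)

/-- the generic odd element -/
noncomputable def XX (v : Fin m → A) : TS A n := ∑ i, te (v i) [c i]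

theorem te_zero (l : List (Fin n)) : te (0 : A) l = 0 := tm_zero _

theorem XX_update (v : Fin m → A) (i : Fin m) (a : A) :
    XX c (Function.update v i a) = XX c (Function.update v i 0) + lam (c i) (te a []) := by
  unfold XX
  rw [← te_single, ← Finset.add_sum_erase _ _ (Finset.mem_univ i), ← Finset.add_sum_erase _ _ (Finset.mem_univ i)]
  simp only [Function.update_self, te_zero, zero_add]
  rw [add_comm]
  congr 1
  refine Finset.sum_congr rfl fun j hj => ?_
  have : j ≠ i := (Finset.mem_erase.mp hj).1
  rw [Function.update_of_ne this, Function.update_of_ne this]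

theorem XX_mem (v : Fin m → A) : XX c v ∈ PP (A := A) (n := n) 1 := by
  unfold XX
  exact AddSubgroup.sum_mem _ (fun i _ => te_mem (v i) [c i])

theorem te_nil_mem (a : A) : te a [] ∈ PP (A := A) (n := n) 0 := te_mem a []

/-- kill the generator `j` -/
def M0 (j : Fin n) : Matrix (Fin n) (Fin n) ℤ := Matrix.diagonal (fun k => if k = j then 0 else 1)
/-- subtract the generator `i` from the generator `j` -/
def M1 (i j : Fin n) : Matrix (Fin n) (Fin n) ℤ := Matrix.transvection i j (-1)

theorem det_M0 (j : Fin n) : (M0 j).det = 0 := by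
  unfold M0
  rw [Matrix.det_diagonal]
  exact Finset.prod_eq_zero (Finset.mem_univ j) (if_pos rfl)

theorem det_M1 {i j : Fin n} (h : i ≠ j) : (M1 i j).det = 1 := Matrix.det_transvection_of_ne i j h _

theorem gmap_gen (M : Matrix (Fin n) (Fin n) ℤ) (k : Fin n) :
    gmap M (gen ℤ n k) = ExteriorAlgebra.ι ℤ (M.mulVec (Pi.single k 1)) := by
  unfold gmap gen
  rw [ExteriorAlgebra.map_apply_ι]; rfl

theorem gmap_M0 (j k : Fin n) : gmap (M0 j) (gen ℤ n k) = if k = j then 0 else gen ℤ n k := by
  rw [gmap_gen]
  have : (M0 j).mulVec (Pi.single k 1) = if k = j then 0 else Pi.single k 1 := by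
    unfold M0
    ext l
    rw [Matrix.mulVec_diagonal]
    by_cases hk : k = j
    · rw [if_pos hk]
      by_cases hl : l = k
      · subst hl; rw [if_pos hk, zero_mul]; rfl
      · rw [Pi.single_eq_of_ne hl, mul_zero]; rfl
    · rw [if_neg hk]
      by_cases hl : l = k
      · subst hl; rw [if_neg hk, one_mul]
      · rw [Pi.single_eq_of_ne hl, mul_zero]
  rw [this]
  split_ifs with h
  · rw [map_zero]
  · rfl

theorem gmap_M1 (i j k : Fin n) : gmap (M1 i j) (gen ℤ n k) = if k = j then gen ℤ n j - gen ℤ n i else gen ℤ n k := by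
  rw [gmap_gen]
  have : (M1 i j).mulVec (Pi.single k 1) = if k = j then Pi.single j 1 - Pi.single i 1 else Pi.single k 1 := by
    unfold M1 Matrix.transvection
    rw [Matrix.add_mulVec, Matrix.one_mulVec, Matrix.single_mulVec]
    by_cases hk : k = j
    · subst hk; rw [if_pos rfl, Pi.single_eq_same]
      ext l
      by_cases hl : l = i
      · subst hl; simp [sub_eq_add_neg]
      · simp [Function.update_of_ne hl, Pi.single_eq_of_ne hl]
    · rw [if_neg hk, Pi.single_eq_of_ne (Ne.symm hk)]
      simp
  rw [this]
  split_ifs with h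
  · rw [map_sub]; rfl
  · rfl

theorem mmap_tm (M : Matrix (Fin n) (Fin n) ℤ) (a : A) (u : Lam n) : mmap M (tm a u) = tm a (gmap M u) := lmap_tm _ _ _

theorem tm_subr (a : A) (u v : Lam n) : tm a (u - v) = tm a u - tm a v := by
  rw [sub_eq_add_neg, tm_addr, tm_negr, ← sub_eq_add_neg]

theorem te_one (a : A) (k : Fin n) : te a [k] = tm a (gen ℤ n k) := by
  unfold te; rw [E_cons, E_nil, mul_one]

theorem mmap_te_nil (M : Matrix (Fin n) (Fin n) ℤ) (a : A) : mmap M (te a []) = te a [] := by
  unfold te; rw [mmap_tm, E_nil, map_one]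

theorem mmap_M0 (j k : Fin n) (a : A) : mmap (M0 j) (te a [k]) = if k = j then 0 else te a [k] := by
  rw [te_one, mmap_tm, gmap_M0]
  split_ifs with h
  · exact tm_zeror a
  · rfl

theorem mmap_M1 (i j k : Fin n) (a : A) :
    mmap (M1 i j) (te a [k]) = if k = j then te a [j] - te a [i] else te a [k] := by
  rw [te_one, mmap_tm, gmap_M1]
  split_ifs with h
  · rw [tm_subr, te_one, te_one]
  · rfl

/-- elements not involving the generators in the range of `c` -/
structure Free (c : Fin m → Fin n) (z : TS A n) : Prop where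
  m0 : ∀ i, mmap (M0 (c i)) z = z
  m1 : ∀ i j, mmap (M1 (c i) (c j)) z = z

theorem Free.nil (a : A) : Free c (te a [] : TS A n) := ⟨fun _ => mmap_te_nil _ a, fun _ _ => mmap_te_nil _ a⟩
theorem Free.gen (a : A) (k : Fin n) (hk : ∀ i, k ≠ c i) : Free c (te a [k] : TS A n) :=
  ⟨fun i => by rw [mmap_M0, if_neg (hk i)], fun i j => by rw [mmap_M1, if_neg (hk j)]⟩
theorem Free.add {c : Fin m → Fin n} {z w : TS A n} (hz : Free c z) (hw : Free c w) : Free c (z + w) :=
  ⟨fun i => by rw [map_add, hz.m0, hw.m0], fun i j => by rw [map_add, hz.m1, hw.m1]⟩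

/-- the alternating function of an expression -/
noncomputable def Fv (t : Ex) (z w : TS A n) (v : Fin m → A) : A := ext (t.val (XX c v) z w)

variable {c} (hc : Function.Injective c) (t : Ex) {z w : TS A n} (hz : Free c z) (hw : Free c w)
include hc

theorem M0_XX (v : Fin m → A) (i : Fin m) : mmap (M0 (c i)) (XX c v) = XX c (Function.update v i 0) := by
  unfold XX
  rw [map_sum]
  refine Finset.sum_congr rfl fun j _ => ?_
  rw [mmap_M0]
  by_cases h : j = i
  · subst h; rw [if_pos rfl, Function.update_self, te_zero]
  · rw [if_neg (fun e => h (hc e)), Function.update_of_ne h]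

include hz hw

theorem Fv_zero (v : Fin m → A) (i : Fin m) : Fv c t z w (Function.update v i 0) = 0 := by
  unfold Fv
  have h := ext_mmap (A := A) (M0 (c i)) (t.val (XX c (Function.update v i 0)) z w)
  rw [det_M0, zero_smul, Ex.val_map (mmap (M0 (c i))) (mmap_mul _), hz.m0, hw.m0, M0_XX hc,
    Function.update_idem] at h
  exact h

theorem Fv_update (v : Fin m → A) (i : Fin m) (a : A) :
    Fv c t z w (Function.update v i a) = ext (t.dv (XX c (Function.update v i 0)) z w (lam (c i) (te a []))) := by
  have h0 := Fv_zero hc t hz hw v i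
  unfold Fv at h0 ⊢
  rw [XX_update, Ex.val_add_lam, map_add, h0, zero_add]

theorem Fv_add (v : Fin m → A) (i : Fin m) (a b : A) : Fv c t z w (Function.update v i (a + b)) =
    Fv c t z w (Function.update v i a) + Fv c t z w (Function.update v i b) := by
  rw [Fv_update hc t hz hw, Fv_update hc t hz hw, Fv_update hc t hz hw, ← te_add, map_add, Ex.dv_add, map_add]

theorem Fv_smul {Φ : Type} [CommRing Φ] [Module Φ A] [IsScalarTower Φ A A] [SMulCommClass Φ A A]
    (v : Fin m → A) (i : Fin m) (r : Φ) (a : A) : Fv c t z w (Function.update v i (r • a)) =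
    r • Fv c t z w (Function.update v i a) := by
  rw [Fv_update hc t hz hw, Fv_update hc t hz hw]
  let φ : A →+ A := DistribSMul.toAddMonoidHom A r
  have h0 : ∀ a : A, φ a = r • a := fun _ => rfl
  have h1 : ∀ r s : TS A n, amap φ (r * s) = amap φ r * s := by
    intro r s
    refine bi_ind (f := fun r s => amap φ (r * s)) (g := fun r s => amap φ r * s) ?_ ?_ ?_ ?_ ?_ r s
    · intro r r' s; simp only [add_mul, map_add]
    · intro r s s'; simp only [mul_add, map_add]
    · intro r r' s; simp only [add_mul, map_add]
    · intro r s s'; simp only [mul_add]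
    · intro a b u v
      show amap φ (tm a u * tm b v) = amap φ (tm a u) * tm b v
      rw [tm_mul, amap_tm, amap_tm, tm_mul, h0, h0, smul_mul_assoc]
  have h2 : ∀ r s : TS A n, amap φ (r * s) = r * amap φ s := by
    intro r s
    refine bi_ind (f := fun r s => amap φ (r * s)) (g := fun r s => r * amap φ s) ?_ ?_ ?_ ?_ ?_ r s
    · intro r r' s; simp only [add_mul, map_add]
    · intro r s s'; simp only [mul_add, map_add]
    · intro r r' s; simp only [add_mul]
    · intro r s s'; simp only [mul_add, map_add]
    · intro a b u v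
      show amap φ (tm a u * tm b v) = tm a u * amap φ (tm b v)
      rw [tm_mul, amap_tm, amap_tm, tm_mul, h0, h0, mul_smul_comm]
  have h3 : lam (c i) (te (r • a) []) = amap φ (lam (c i) (te a [])) := by
    unfold te
    rw [lam_tm, lam_tm, amap_tm]; rfl
  rw [h3, Ex.dv_cen _ h1 h2, ext_amap]; rfl

theorem Fv_alt (v : Fin m → A) (i j : Fin m) (hij : i ≠ j) (hv : v i = v j) : Fv c t z w v = 0 := by
  have h := ext_mmap (A := A) (M1 (c i) (c j)) (t.val (XX c v) z w)
  rw [det_M1 (fun e => hij (hc e)), one_smul, Ex.val_map (mmap (M1 (c i) (c j))) (mmap_mul _), hz.m1, hw.m1] at h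
  have h2 : mmap (M1 (c i) (c j)) (XX c v) = XX c (Function.update v i 0) := by
    have hi : XX c v = XX c (Function.update v i 0) + te (v i) [c i] := by
      have := XX_update c v i (v i)
      rwa [Function.update_eq_self, ← te_single] at this
    have hj : XX c v = XX c (Function.update v j 0) + te (v j) [c j] := by
      have := XX_update c v j (v j)
      rwa [Function.update_eq_self, ← te_single] at this
    have hs : mmap (M1 (c i) (c j)) (XX c (Function.update v j 0)) = XX c (Function.update v j 0) := by
      unfold XX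
      rw [map_sum]
      refine Finset.sum_congr rfl fun k _ => ?_
      rw [mmap_M1]
      by_cases hk : k = j
      · subst hk; rw [if_pos rfl, Function.update_self, te_zero, te_zero, sub_zero]
      · rw [if_neg (fun e => hk (hc e))]
    have hd : XX c (Function.update v i 0) = XX c (Function.update v j 0) + te (v j) [c j] - te (v i) [c i] := by
      rw [← hj, hi]; abel
    rw [hd, ← hv]
    conv_lhs => rw [hj, map_add, hs, mmap_M1, if_pos rfl]
    rw [← hv]
    abel
  rw [h2] at h
  have h3 := Fv_zero hc t hz hw v i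
  unfold Fv at h3 ⊢
  rw [← h, h3]

end

end Pool.Agent.Helper805.Chain
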