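import Pool.Agent.Helper805.Chain.Mul
set_option autoImplicit false
open scoped TensorProduct

/-! Expansion of expressions in one exterior generator. -/

namespace Pool.Agent.Helper805.Chain
open Pool.Agent.Helper805.Nuc.Tens Pool.Agent.Helper805.Nuc.Ext

section val
variable {R S : Type} [NonUnitalNonAssocRing R] [NonUnitalNonAssocRing S]

theorem Ex.val_map (h : R →+ S) (hm : ∀ r s, h (r * s) = h r * h s) (x z w : R) (t : Ex) :
    h (t.val x z w) = t.val (h x) (h z) (h w) := by
  induction t with
  | x => rfl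
  | z => rfl
  | w => rfl
  | mu a b iha ihb => show h (_ * _) = _ * _; rw [hm, iha, ihb]
  | ad a b iha ihb => show h (_ + _) = _ + _; rw [map_add, iha, ihb]
  | sm c a iha => show h (_ • _) = _ • _; rw [map_zsmul, iha]

theorem Ex.dv_add (x z w u v : R) (t : Ex) : t.dv x z w (u + v) = t.dv x z w u + t.dv x z w v := by
  induction t with
  | x => rfl
  | z => exact (add_zero _).symm
  | w => exact (add_zero _).symm
  | mu a b iha ihb =>
    show a.dv x z w (u + v) * _ + _ * b.dv x z w (u + v) = (_ * _ + _ * _) + (_ * _ + _ * _)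
    rw [iha, ihb, add_mul, mul_add]; abel
  | ad a b iha ihb =>
    show a.dv x z w (u + v) + b.dv x z w (u + v) = (_ + _) + (_ + _)
    rw [iha, ihb]; abel
  | sm c a iha =>
    show c • a.dv x z w (u + v) = c • _ + c • _
    rw [iha, smul_add]

/-- the derivative commutes with central multiplications -/
theorem Ex.dv_cen (h : R →+ R) (h1 : ∀ r s, h (r * s) = h r * s) (h2 : ∀ r s, h (r * s) = r * h s) (x z w u : R) (t : Ex) :
    t.dv x z w (h u) = h (t.dv x z w u) := by
  induction t with
  | x => rfl
  | z => exact (map_zero h).symm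
  | w => exact (map_zero h).symm
  | mu a b iha ihb =>
    show a.dv x z w (h u) * _ + _ * b.dv x z w (h u) = h (_ * _ + _ * _)
    rw [iha, ihb, map_add, h1, h2 (a.val x z w)]
  | ad a b iha ihb =>
    show a.dv x z w (h u) + b.dv x z w (h u) = h (_ + _)
    rw [iha, ihb, map_add]
  | sm c a iha =>
    show c • a.dv x z w (h u) = h (c • _)
    rw [iha, map_zsmul]

end val

section
variable {A : Type} [NonUnitalNonAssocRing A] {n : ℕ}

/-- the grading automorphism of `Λ` -/
noncomputable def inv (n : ℕ) : Lam n →ₐ[ℤ] Lam n := ExteriorAlgebra.map (-LinearMap.id)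

theorem gen_mul (k : Fin n) (u : Lam n) : gen ℤ n k * u = inv n u * gen ℤ n k := by
  induction u using ExteriorAlgebra.induction with
  | algebraMap r => rw [AlgHom.commutes]; exact (Algebra.commutes r _).symm
  | ι m =>
    have h1 : inv n (ExteriorAlgebra.ι ℤ m) = - ExteriorAlgebra.ι ℤ m := by
      rw [inv, ExteriorAlgebra.map_apply_ι]; simp
    rw [h1, neg_mul]
    exact eq_neg_of_add_eq_zero_left (ExteriorAlgebra.ι_add_mul_swap (R := ℤ) _ _)
  | mul a b ha hb => rw [map_mul, ← mul_assoc, ha, mul_assoc, hb, mul_assoc]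
  | add a b ha hb => rw [map_add, mul_add, add_mul, ha, hb]

theorem inv_inv (u : Lam n) : inv n (inv n u) = u := by
  induction u using ExteriorAlgebra.induction with
  | algebraMap r => simp
  | ι m =>
    have h1 : ∀ m, inv n (ExteriorAlgebra.ι ℤ m) = - ExteriorAlgebra.ι ℤ m := by
      intro m; rw [inv, ExteriorAlgebra.map_apply_ι]; simp
    rw [h1, map_neg, h1, neg_neg]
  | mul a b ha hb => rw [map_mul, map_mul, ha, hb]
  | add a b ha hb => rw [map_add, map_add, ha, hb]

theorem mul_gen (k : Fin n) (u : Lam n) : u * gen ℤ n k = gen ℤ n k * inv n u := by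
  rw [gen_mul, inv_inv]

theorem gen_sq (k : Fin n) : gen ℤ n k * gen ℤ n k = 0 := ExteriorAlgebra.ι_sq_zero _

/-- left multiplication by a generator -/
noncomputable def lam (k : Fin n) : TS A n →+ TS A n := lmap (LinearMap.mulLeft ℤ (gen ℤ n k))

/-- the grading automorphism -/
noncomputable def sig : TS A n →+ TS A n := lmap (inv n).toLinearMap

theorem lam_tm (k : Fin n) (a : A) (u : Lam n) : lam k (tm a u) = tm a (gen ℤ n k * u) := lmap_tm _ _ _
theorem sig_tm (a : A) (u : Lam n) : sig (tm a u) = tm a (inv n u) := lmap_tm _ _ _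

theorem te_single (a : A) (k : Fin n) : te a [k] = lam k (te a []) := by
  unfold te; rw [lam_tm]; rfl

/-- bilinear relations need only be checked on pure tensors -/
theorem bi_ind {M : Type} [AddCommGroup M] {f g : TS A n → TS A n → M}
    (f1 : ∀ r r' s, f (r + r') s = f r s + f r' s) (f2 : ∀ r s s', f r (s + s') = f r s + f r s')
    (g1 : ∀ r r' s, g (r + r') s = g r s + g r' s) (g2 : ∀ r s s', g r (s + s') = g r s + g r s')
    (h : ∀ (a b : A) (u v : Lam n), f (tm a u) (tm b v) = g (tm a u) (tm b v)) (r s : TS A n) : f r s = g r s := by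
  have h1 : ∀ (a : A) (u : Lam n), AddMonoidHom.mk' (f (tm a u)) (f2 _) = AddMonoidHom.mk' (g (tm a u)) (g2 _) :=
    fun a u => tsext (fun b v => h a b u v)
  have h2 : AddMonoidHom.mk' (fun r => f r s) (fun r r' => f1 r r' s) = AddMonoidHom.mk' (fun r => g r s) (fun r r' => g1 r r' s) :=
    tsext (fun a u => congrArg (fun l => l s) (h1 a u))
  exact congrArg (fun l => l r) h2

theorem lam_mul (k : Fin n) (r s : TS A n) : lam k (r * s) = lam k r * s := by
  refine bi_ind (f := fun r s => lam k (r * s)) (g := fun r s => lam k r * s) ?_ ?_ ?_ ?_ ?_ r s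
  · intro r r' s; simp only [add_mul, map_add]
  · intro r s s'; simp only [mul_add, map_add]
  · intro r r' s; simp only [add_mul, map_add]
  · intro r s s'; simp only [mul_add]
  · intro a b u v
    show lam k (tm a u * tm b v) = lam k (tm a u) * tm b v
    rw [tm_mul, lam_tm, lam_tm, tm_mul, mul_assoc]

theorem mul_lam (k : Fin n) (r s : TS A n) : r * lam k s = lam k (sig r * s) := by
  refine bi_ind (f := fun r s => r * lam k s) (g := fun r s => lam k (sig r * s)) ?_ ?_ ?_ ?_ ?_ r s
  · intro r r' s; simp only [add_mul]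
  · intro r s s'; simp only [mul_add, map_add]
  · intro r r' s; simp only [add_mul, map_add]
  · intro r s s'; simp only [mul_add, map_add]
  · intro a b u v
    show tm a u * lam k (tm b v) = lam k (sig (tm a u) * tm b v)
    rw [sig_tm, lam_tm, tm_mul, tm_mul, lam_tm, ← mul_assoc, mul_gen, mul_assoc]

theorem lam_mul_lam (k : Fin n) (r s : TS A n) : lam k r * lam k s = 0 := by
  rw [mul_lam, lam_mul]
  have h : ∀ r : TS A n, lam k (sig (lam k r)) = 0 := by
    intro r
    have : ((lam k).comp ((sig (A := A)).comp (lam k))) = 0 := tsext (fun a u => by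
      show lam k (sig (lam k (tm a u))) = 0
      rw [lam_tm, sig_tm, lam_tm, map_mul]
      have h1 : inv n (gen ℤ n k) = - gen ℤ n k := by
        unfold gen; rw [inv, ExteriorAlgebra.map_apply_ι]; simp
      rw [h1, neg_mul, mul_neg, ← mul_assoc, gen_sq, zero_mul, neg_zero, tm_zeror])
    exact congrArg (fun l => l r) this
  rw [h, zero_mul]

theorem sig_te (a : A) (l : List (Fin n)) : sig (te a l) = ((-1 : ℤ) ^ l.length) • te a l := by
  unfold te
  rw [sig_tm]
  have h : inv n (E ℤ n l) = ((-1 : ℤ) ^ l.length) • E ℤ n l := by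
    induction l with
    | nil => simp [E]
    | cons i l ih =>
      have h1 : inv n (gen ℤ n i) = - gen ℤ n i := by
        unfold gen; rw [inv, ExteriorAlgebra.map_apply_ι]; simp
      rw [E_cons, map_mul, ih, h1, List.length_cons, pow_succ, neg_mul, mul_smul_comm]
      simp
  rw [h]
  have h5 : ∀ (m : ℤ) (a : A) (u : Lam n), tm a (m • u) = m • tm a u := by
    intro m a u
    exact map_zsmul (AddMonoidHom.mk' (fun u => (tm a u : TS A n)) (fun u v => tm_addr a u v)) m u
  exact h5 _ _ _

theorem sig_PP {d : ℕ} {r : TS A n} (hr : r ∈ PP (A := A) (n := n) (d % 2)) : sig r = ((-1 : ℤ) ^ d) • r := by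
  induction hr using AddSubgroup.closure_induction with
  | mem u hu =>
    obtain ⟨a, l, hl, rfl⟩ := hu
    rw [sig_te]
    congr 1
    rcases Nat.even_or_odd d with h | h
    · have : Even l.length := by rw [Nat.even_iff]; rw [Nat.even_iff] at h; omega
      rw [h.neg_one_pow, this.neg_one_pow]
    · have : Odd l.length := by rw [Nat.odd_iff]; rw [Nat.odd_iff] at h; omega
      rw [h.neg_one_pow, this.neg_one_pow]
  | zero => rw [map_zero, smul_zero]
  | add x y _ _ hx hy => rw [map_add, hx, hy, smul_add]
  | neg x _ hx => rw [map_neg, hx, smul_neg]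

theorem Ex.dv_range (k : Fin n) (x z w b : TS A n) (t : Ex) : ∃ c, t.dv x z w (lam k b) = lam k c := by
  induction t with
  | x => exact ⟨b, rfl⟩
  | z => exact ⟨0, (map_zero _).symm⟩
  | w => exact ⟨0, (map_zero _).symm⟩
  | mu a b iha ihb =>
    obtain ⟨c, hc⟩ := iha
    obtain ⟨d, hd⟩ := ihb
    refine ⟨c * b.val x z w + sig (a.val x z w) * d, ?_⟩
    show a.dv x z w _ * _ + _ * b.dv x z w _ = _
    rw [hc, hd, mul_lam, map_add, lam_mul k c, lam_mul]
  | ad a b iha ihb =>
    obtain ⟨c, hc⟩ := iha
    obtain ⟨d, hd⟩ := ihb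
    refine ⟨c + d, ?_⟩
    show a.dv x z w _ + b.dv x z w _ = _
    rw [hc, hd, map_add]
  | sm m a iha =>
    obtain ⟨c, hc⟩ := iha
    refine ⟨m • c, ?_⟩
    show m • a.dv x z w _ = _
    rw [hc, map_zsmul]

/-- expansion in one exterior generator -/
theorem Ex.val_add_lam (k : Fin n) (x z w u : TS A n) (t : Ex) :
    t.val (x + lam k u) z w = t.val x z w + t.dv x z w (lam k u) := by
  induction t with
  | x => rfl
  | z => exact (add_zero _).symm
  | w => exact (add_zero _).symm
  | mu a b iha ihb =>
    obtain ⟨c, hc⟩ := Ex.dv_range k x z w u a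
    obtain ⟨d, hd⟩ := Ex.dv_range k x z w u b
    show a.val _ z w * b.val _ z w = _ * _ + (a.dv x z w _ * _ + _ * b.dv x z w _)
    rw [iha, ihb, add_mul, mul_add, mul_add]
    have : a.dv x z w (lam k u) * b.dv x z w (lam k u) = 0 := by rw [hc, hd, lam_mul_lam]
    rw [this]; abel
  | ad a b iha ihb =>
    show a.val _ z w + b.val _ z w = (_ + _) + (a.dv x z w _ + b.dv x z w _)
    rw [iha, ihb]; abel
  | sm m a iha =>
    show m • a.val _ z w = m • _ + m • a.dv x z w _
    rw [iha, smul_add]

/-- the plain derivative in the direction `e_k b` from the signed derivative in the direction `b` -/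
theorem Ex.dv_lam {p : Bool} (k : Fin n) {x z w : TS A n} (hA : IsAlt A) (hx : x ∈ PP (A := A) (n := n) 1)
    (hz : z ∈ PP (A := A) (n := n) (dg p % 2)) (hw : w ∈ PP (A := A) (n := n) 0) (u : TS A n) (t : Ex) (ht : t.ok p) :
    t.dv x z w (lam k u) = lam k (t.d0 p x z w u) := by
  induction t with
  | x => rfl
  | z => exact (map_zero _).symm
  | w => exact (map_zero _).symm
  | mu a b iha ihb =>
    show a.dv x z w _ * _ + _ * b.dv x z w _ = lam k (_ * _ + _ • (_ * _))
    have hm := (Ex.RL_sound (superAlt hA) hx hz hw a ht.1).mem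
    rw [iha ht.1, ihb ht.2, mul_lam, sig_PP hm, map_add, lam_mul k (a.d0 p x z w u), smul_mul_assoc]
  | ad a b iha ihb =>
    show a.dv x z w _ + b.dv x z w _ = lam k (_ + _)
    rw [iha ht.1, ihb ht.2.1, map_add]
  | sm m a iha =>
    show m • a.dv x z w _ = lam k (m • _)
    rw [iha ht, map_zsmul]

theorem te_nil_lam (k : Fin n) (a : A) (r : TS A n) : lam k (te a [] * r) = te a [] * lam k r := by
  rw [mul_lam, sig_te]; simp

theorem ext_te_mul (a : A) (r : TS A n) : ext (te a [] * r) = a * ext r := by
  have : (ext (A := A) (n := n)).comp (AddMonoidHom.mulLeft (te a [])) = (AddMonoidHom.mulLeft a).comp ext := tsext (fun b u => by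
    show ext (te a [] * tm b u) = a * ext (tm b u)
    unfold te
    rw [tm_mul, ext_tm, ext_tm, E_nil, one_mul, mul_smul_comm])
  exact congrArg (fun l => l r) this

theorem ext_mul_te (a : A) (r : TS A n) : ext (r * te a []) = ext r * a := by
  have : (ext (A := A) (n := n)).comp (AddMonoidHom.mulRight (te a [])) = (AddMonoidHom.mulRight a).comp ext := tsext (fun b u => by
    show ext (tm b u * te a []) = ext (tm b u) * a
    unfold te
    rw [tm_mul, ext_tm, ext_tm, E_nil, mul_one, smul_mul_assoc])
  exact congrArg (fun l => l r) this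

end

end Pool.Agent.Helper805.Chain
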