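import Pool.Agent.Helper805.Chain.Target
set_option autoImplicit false

/-! The identities obtained from the certificates. -/

namespace Pool.Agent.Helper805.Chain
open Pool.Agent.Helper805.Nuc.Tens

variable {R : Type} [NonUnitalNonAssocRing R] {P : ℕ → AddSubgroup R} {p : Bool} {x z w : R}

theorem Op.sub {s t : Tri} {d : ℕ} {g h : ℕ → R → R} (hs : Op P p x z w s d g) (ht : Op P p x z w t d h) :
    Op P p x z w (Chain.sub s t) d (fun e m => g e m - h e m) :=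
  (hs.add (ht.smul (.negSucc 0))).congr rfl (fun e m _ => by
    show g e m + (-1 : ℤ) • h e m = _
    rw [neg_one_zsmul, sub_eq_add_neg])

theorem P5_ok : Ex.P5.ok true := by
  simp [Ex.P5, Ex.K, Ex.sb, Ex.br, Ex.jo, Ex.as, Ex.ok, Ex.deg, dg]
theorem Q0_ok : Ex.Q0.ok true := by
  simp [Ex.Q0, Ex.ok, Ex.deg, dg]
theorem V6_ok : Ex.V6.ok false := by
  simp [Ex.V6, Ex.K, Ex.sb, Ex.br, Ex.jo, Ex.as, Ex.ok, Ex.deg, dg]
theorem P6_ok : Ex.P6.ok false := by
  simp [Ex.P6, Ex.V6, Ex.K, Ex.sb, Ex.br, Ex.jo, Ex.as, Ex.ok, Ex.deg, dg]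

theorem P5_deg : Ex.P5.deg true = 7 := by
  simp [Ex.P5, Ex.K, Ex.sb, Ex.br, Ex.jo, Ex.as, Ex.deg, dg]
theorem V6_deg : Ex.V6.deg false = 5 := by
  simp [Ex.V6, Ex.K, Ex.sb, Ex.br, Ex.jo, Ex.as, Ex.deg, dg]
theorem P6_deg : Ex.P6.deg false = 6 := by
  simp [Ex.P6, Ex.V6, Ex.K, Ex.sb, Ex.br, Ex.jo, Ex.as, Ex.deg, dg]
theorem Q0_deg : Ex.Q0.deg true = 6 := by
  simp [Ex.Q0, Ex.deg, dg]

theorem Q0_val (x z w : R) : Ex.Q0.val x z w = Ex.P5.d0 true x z w w := by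
  simp [Ex.Q0, Ex.P5, Ex.K, Ex.sb, Ex.br, Ex.jo, Ex.as, Ex.val, Ex.d0, Ex.deg, dg]

section central
variable (hP : SuperAlt R P) (hx : x ∈ P 1) (hz : z ∈ P (dg p % 2)) (hw : w ∈ P 0)
include hP hx hz hw

theorem central_op (t : Ex) (ht : t.ok p) :
    Op P p x z w (Chain.sub (t.RL p).1 (t.RL p).2) (t.deg p)
      (fun e m => m * t.val x z w - ((-1 : ℤ) ^ (e * t.deg p)) • (t.val x z w * m)) :=
  (Ex.RL_sound hP hx hz hw t ht).r.sub (Ex.RL_sound hP hx hz hw t ht).l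

end central

section d5
variable (hP : SuperAlt R P) (hx : x ∈ P 1) (hz : z ∈ P 1) (hw : w ∈ P 0)
include hP hx hz hw

theorem D5_op : ∃ g : ℕ → R → R, Op P true x z w tD5 6 g ∧ ∀ u ∈ P 0, g 0 u =
    Ex.P5.d0 true x z w (u * w) - (u * Ex.P5.d0 true x z w w + Ex.P5.d0 true x z w u * w) := by
  have hz' : z ∈ P (dg true % 2) := hz
  have rw' := rep_w (p := true) (x := x) (z := z) hP hw
  have rq := Ex.RL_sound hP hx hz' hw Ex.Q0 Q0_ok
  rw [Q0_deg] at rq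
  have huw : ∀ u ∈ P 0, u * w ∈ P 0 := fun u hu => hP.mul_mem hu hw
  rcases Ex.dq_sound hP hx hz' hw Ex.P5 P5_ok with ⟨d, g, hd, hg, hu⟩ | ⟨hn, hu⟩
  · rw [P5_deg] at hd
    obtain rfl : d = 6 := by omega
    refine ⟨_, ((rw'.r.mul hg).congr rfl (fun _ _ _ => rfl)).sub (rq.r.add (hg.mul rw'.r)), fun u hu0 => ?_⟩
    show g 0 (u * w) - (u * Ex.Q0.val x z w + g 0 u * w) = _
    rw [hu _ (huw u hu0), hu u hu0, Q0_val]
  · have e : tD5 = Chain.sub (Tri.mul .nil lrw) (Tri.add (Ex.Q0.RL true).1 (Tri.mul lrw .nil)) := by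
      unfold tD5; rw [hn]
    have o : Op P true x z w (Chain.sub (Tri.mul .nil lrw) (Tri.add (Ex.Q0.RL true).1 (Tri.mul lrw .nil))) 6 _ :=
      ((rw'.r.mul (Op.nil 6)).congr rfl (fun _ _ _ => rfl)).sub (rq.r.add ((Op.nil 6).mul rw'.r))
    rw [← e] at o
    refine ⟨_, o, fun u hu0 => ?_⟩
    show 0 - (u * Ex.Q0.val x z w + 0 * w) = _
    rw [hu (u * w), hu u, Q0_val, hu w]

theorem D5_id {c : Cert} {D : ℤ} (hc : Tri.isZ (Tri.add (Tri.smul D tD5) (total true c)) = true) (u : R) (hu : u ∈ P 0) :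
    D • (Ex.P5.d0 true x z w (u * w) - (u * Ex.P5.d0 true x z w w + Ex.P5.d0 true x z w u * w)) = 0 := by
  obtain ⟨g, hg, h⟩ := D5_op hP hx hz hw
  rw [← h u hu]
  exact cert_sound hP hx (p := true) hz hw c _ D 6 g hg hc 0 u hu

theorem C5_id {c : Cert} {D : ℤ} (hc : Tri.isZ (Tri.add (Tri.smul D tC5) (total true c)) = true) (u : R) (hu : u ∈ P 0) :
    D • (u * Ex.P5.val x z w - Ex.P5.val x z w * u) = 0 := by
  have h := cert_sound hP hx (p := true) hz hw c _ D _ _ (central_op hP hx (p := true) hz hw Ex.P5 P5_ok) hc 0 u hu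
  rwa [zero_mul, pow_zero, one_smul] at h

end d5

section s6
variable (hP : SuperAlt R P) (hx : x ∈ P 1) (hz : z ∈ P 0) (hw : w ∈ P 0)
include hP hx hz hw

theorem C6_id {c : Cert} {D : ℤ} (hc : Tri.isZ (Tri.add (Tri.smul D tC6) (total false c)) = true) (u : R) (hu : u ∈ P 0) :
    D • (u * Ex.P6.val x z w - Ex.P6.val x z w * u) = 0 := by
  have h := cert_sound hP hx (p := false) hz hw c _ D _ _ (central_op hP hx (p := false) hz hw Ex.P6 P6_ok) hc 0 u hu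
  rwa [zero_mul, pow_zero, one_smul] at h

theorem S6_op : ∃ g : ℕ → R → R, Op P false x z w tS6 5 g ∧ ∀ u ∈ P 0, g 0 u =
    (br (br z (Ex.V6.d0 false x z w u)) x - (3 : ℤ) • as z (Ex.V6.d0 false x z w u) x) +
      ((5 : ℤ) • br (br z (Ex.V6.val x z w)) u + (15 : ℤ) • as z u (Ex.V6.val x z w)) := by
  have hz' : z ∈ P (dg false % 2) := hz
  have rz := rep_z (p := false) (x := x) (w := w) hP hz'
  have rx := rep_x (p := false) (z := z) (w := w) hP hx
  have rV := Ex.RL_sound hP hx hz' hw Ex.V6 V6_ok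
  have rW := Ex.RL_sound hP hx hz' hw (Ex.br .z Ex.V6) (by
    simp [Ex.V6, Ex.K, Ex.sb, Ex.br, Ex.jo, Ex.as, Ex.ok, Ex.deg, dg])
  have dW : (Ex.br .z Ex.V6).deg false = 5 := by
    simp [Ex.V6, Ex.K, Ex.sb, Ex.br, Ex.jo, Ex.as, Ex.deg, dg]
  rw [dW, Ex.val_br] at rW
  rw [V6_deg] at rV
  have X1 : Op P false x z w (Xp (.ofNat 1) llz lrx) 1 (fun _ m => as z m x) :=
    (rz.X rx).congr rfl (fun e m _ => by
      show ((-1 : ℤ) ^ (e * 0)) • as z m x = _
      rw [mul_zero, pow_zero, one_smul])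
  have X2 : Op P false x z w (Xp (.ofNat 1) llz (Ex.V6.RL false).1) 5 (fun _ m => as z m (Ex.V6.val x z w)) :=
    (rz.X rV).congr rfl (fun e m _ => by
      show ((-1 : ℤ) ^ (e * 0)) • as z m (Ex.V6.val x z w) = _
      rw [mul_zero, pow_zero, one_smul])
  have LR : Op P false x z w (Chain.sub llz lrz) 0 (fun _ m => br z m) :=
    (rz.l.sub rz.r).congr rfl (fun e m _ => by
      show ((-1 : ℤ) ^ (e * 0)) • (z * m) - m * z = _
      rw [mul_zero, pow_zero, one_smul]; rfl)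
  have main : ∀ (q : Tri) (g : ℕ → R → R), Op P false x z w q 4 g →
      (∀ u ∈ P 0, g 0 u = Ex.V6.d0 false x z w u) → Ex.V6.dq false = q →
      ∃ g : ℕ → R → R, Op P false x z w tS6 5 g ∧ ∀ u ∈ P 0, g 0 u =
      (br (br z (Ex.V6.d0 false x z w u)) x - (3 : ℤ) • as z (Ex.V6.d0 false x z w u) x) +
      ((5 : ℤ) • br (br z (Ex.V6.val x z w)) u + (15 : ℤ) • as z u (Ex.V6.val x z w)) := by
    intro q g hg hu e
    refine ⟨_, by
      unfold tS6; rw [e]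
      exact ((((hg.mul LR).mul (rx.r.sub rx.l)).congr rfl (fun _ _ _ => rfl)).add
        (((hg.mul X1).smul (.negSucc 2)).congr rfl (fun _ _ _ => rfl))).add
        (((rW.r.sub rW.l).smul (.negSucc 4)).add (X2.smul (.ofNat 15))), fun u hu0 => ?_⟩
    show ((br z (g 0 u)) * x - ((-1 : ℤ) ^ ((0 + 4 + 0) * 1)) • (x * (br z (g 0 u))) + (-3 : ℤ) • as z (g 0 u) x) +
      ((-5 : ℤ) • (u * br z (Ex.V6.val x z w) - ((-1 : ℤ) ^ (0 * 5)) • (br z (Ex.V6.val x z w) * u)) +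
        (15 : ℤ) • as z u (Ex.V6.val x z w)) = _
    rw [hu u hu0]
    set v' := Ex.V6.d0 false x z w u
    set V := Ex.V6.val x z w
    have e1 : ((-1 : ℤ) ^ ((0 + 4 + 0) * 1)) = 1 := by norm_num
    have e2 : ((-1 : ℤ) ^ (0 * 5)) = 1 := by norm_num
    rw [e1, e2, one_smul, one_smul]
    have e3 : br (br z V) u = br z V * u - u * br z V := rfl
    have e4 : br (br z v') x = br z v' * x - x * br z v' := rfl
    rw [e3, e4]
    abel
  rcases Ex.dq_sound hP hx hz' hw Ex.V6 V6_ok with ⟨d, g, hd, hg, hu⟩ | ⟨hn, hu⟩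
  · rw [V6_deg] at hd
    obtain rfl : d = 4 := by omega
    exact main _ g hg hu rfl
  · exact main .nil _ (Op.nil 4) (fun u _ => (hu u).symm) hn

theorem S6_id {c : Cert} {D : ℤ} (hc : Tri.isZ (Tri.add (Tri.smul D tS6) (total false c)) = true) (u : R) (hu : u ∈ P 0) :
    D • ((br (br z (Ex.V6.d0 false x z w u)) x - (3 : ℤ) • as z (Ex.V6.d0 false x z w u) x) +
      ((5 : ℤ) • br (br z (Ex.V6.val x z w)) u + (15 : ℤ) • as z u (Ex.V6.val x z w))) = 0 := by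
  obtain ⟨g, hg, h⟩ := S6_op hP hx hz hw
  rw [← h u hu]
  exact cert_sound hP hx (p := false) hz hw c _ D 5 g hg hc 0 u hu

/-- the signed derivative of `P6` -/
theorem P6_d0 {c : Cert} {D : ℤ} (hc : Tri.isZ (Tri.add (Tri.smul D tS6) (total false c)) = true) (u : R) (hu : u ∈ P 0) :
    D • Ex.P6.d0 false x z w u =
      (-6 * D) • (br (br z (Ex.V6.val x z w)) u - (3 : ℤ) • as z (Ex.V6.val x z w) u) := by
  have h := S6_id hP hx hz hw hc u hu
  have hz' : z ∈ P (dg false % 2) := hz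
  have hV : Ex.V6.val x z w ∈ P (5 % 2) := by
    have := (Ex.RL_sound hP hx hz' hw Ex.V6 V6_ok).mem
    rwa [V6_deg] at this
  have hs : as z u (Ex.V6.val x z w) = - as z (Ex.V6.val x z w) u := by
    rw [right' hP (i := 0) (j := 0) (k := 5) hz hu hV]; simp
  set V := Ex.V6.val x z w with hVd
  set v' := Ex.V6.d0 false x z w u with hvd
  have e : Ex.P6.d0 false x z w u =
      (br (br z v') x - (3 : ℤ) • as z v' x) - (br (br z V) u - (3 : ℤ) • as z V u) := by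
    simp only [Ex.P6, Ex.sb, Ex.br, Ex.jo, Ex.as, Ex.d0, Ex.deg, Ex.val, dg, V6_deg]
    rw [← hVd, ← hvd]
    unfold br as
    simp only [mul_sub, sub_mul, mul_add, add_mul, smul_sub, smul_add, mul_neg, neg_mul, zero_add, add_zero, pow_zero,
      pow_succ, one_smul, neg_smul, smul_neg, mul_one, one_mul, neg_neg, smul_smul, mul_zero, zero_mul, sub_zero]
    abel
  rw [hs] at h
  rw [e]
  have h2 : D • (br (br z v') x - (3 : ℤ) • as z v' x) = - (D • ((5 : ℤ) • br (br z V) u + (15 : ℤ) • -as z V u)) := by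
    rw [smul_add] at h
    exact eq_neg_of_add_eq_zero_left h
  rw [smul_sub, h2]
  module

end s6

end Pool.Agent.Helper805.Chain
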