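import Pool.Agent.Helper805.Chain.Expr
set_option autoImplicit false
open scoped TensorProduct

/-! Evaluating expressions in `A ⊗ Λ`: the effect of linear maps of `Λ`, of ring homomorphisms of
`A`, and the expansion in one exterior generator. -/

namespace Pool.Agent.Helper805.Chain
open Pool.Agent.Helper805.Nuc.Tens Pool.Agent.Helper805.Nuc.Ext

section
variable {A B : Type} [NonUnitalNonAssocRing A] [NonUnitalNonAssocRing B] {n : ℕ}

abbrev Lam (n : ℕ) : Type := ExteriorAlgebra ℤ (Fin n → ℤ)

/-- two additive maps agree if they agree on pure tensors -/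
theorem tsext {M : Type} [AddCommGroup M] {f g : TS A n →+ M} (h : ∀ (a : A) (u : Lam n), f (tm a u) = g (tm a u)) :
    f = g := by
  have h1 : f.toIntLinearMap = g.toIntLinearMap := by
    apply TensorProduct.ext'
    intro a u
    exact h a u
  ext r
  exact congrArg (fun l => l r) h1

/-- an additive map is multiplicative if it is so on pure tensors -/
theorem ts_mul_ind {M : Type} [NonUnitalNonAssocRing M] {f : TS A n →+ M}
    (h : ∀ (a b : A) (u v : Lam n), f (tm a u * tm b v) = f (tm a u) * f (tm b v)) (r s : TS A n) :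
    f (r * s) = f r * f s := by
  have h1 : ∀ (a : A) (u : Lam n), f.comp (AddMonoidHom.mulLeft (tm a u)) = (AddMonoidHom.mulLeft (f (tm a u))).comp f :=
    fun a u => tsext (fun b v => h a b u v)
  have h2 : f.comp (AddMonoidHom.mulRight s) = (AddMonoidHom.mulRight (f s)).comp f :=
    tsext (fun a u => congrArg (fun l => l s) (h1 a u))
  exact congrArg (fun l => l r) h2

/-- the map `id ⊗ φ` for an additive map of `Λ` -/
noncomputable def lmap (φ : Lam n →ₗ[ℤ] Lam n) : TS A n →+ TS A n :=
  (TensorProduct.map (LinearMap.id : A →ₗ[ℤ] A) φ).toAddMonoidHom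

theorem lmap_tm (φ : Lam n →ₗ[ℤ] Lam n) (a : A) (u : Lam n) : lmap φ (tm a u) = tm a (φ u) :=
  TensorProduct.map_tmul _ _ _ _

/-- the map `f ⊗ id` for an additive map -/
noncomputable def amap (f : A →+ B) : TS A n →+ TS B n :=
  (TensorProduct.map (f.toIntLinearMap) (LinearMap.id : Lam n →ₗ[ℤ] Lam n)).toAddMonoidHom

theorem amap_tm (f : A →+ B) (a : A) (u : Lam n) : amap f (tm a u) = tm (f a) u :=
  TensorProduct.map_tmul _ _ _ _

theorem ext_tm (a : A) (u : Lam n) : ext (tm a u) = (top ℤ n u) • a := by
  show (TensorProduct.rid ℤ A) (TensorProduct.map LinearMap.id (top ℤ n) (a ⊗ₜ[ℤ] u)) = _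
  rw [TensorProduct.map_tmul, TensorProduct.rid_tmul]
  rfl

theorem ext_amap (f : A →+ B) (r : TS A n) : ext (amap f r) = f (ext r) := by
  have : (ext (A := B) (n := n)).comp (amap f) = f.comp ext := tsext (fun a u => by
    show ext (amap f (tm a u)) = f (ext (tm a u))
    rw [amap_tm, ext_tm, ext_tm, map_zsmul])
  exact congrArg (fun l => l r) this

/-- a linear map of the generators -/
noncomputable def gmap (M : Matrix (Fin n) (Fin n) ℤ) : Lam n →ₐ[ℤ] Lam n := ExteriorAlgebra.map (Matrix.mulVecLin M)

theorem top_gmap (M : Matrix (Fin n) (Fin n) ℤ) (u : Lam n) : top ℤ n (gmap M u) = M.det * top ℤ n u := by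
  have h : (top ℤ n).comp (gmap M).toLinearMap = (M.det : ℤ) • top ℤ n := by
    apply ExteriorAlgebra.lhom_ext
    intro i
    ext v
    show top ℤ n (gmap M (ExteriorAlgebra.ιMulti ℤ i v)) = M.det * top ℤ n (ExteriorAlgebra.ιMulti ℤ i v)
    have h1 : gmap M (ExteriorAlgebra.ιMulti ℤ i v) = ExteriorAlgebra.ιMulti ℤ i (fun j => M.mulVec (v j)) := by
      rw [gmap, ExteriorAlgebra.map_apply_ιMulti]; rfl
    rw [h1]
    unfold top
    rw [ExteriorAlgebra.liftAlternating_apply_ιMulti, ExteriorAlgebra.liftAlternating_apply_ιMulti]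
    unfold topAlt
    by_cases hi : i = n
    · subst hi
      rw [dif_pos rfl]
      show Matrix.det (fun j => M.mulVec (v j)) = M.det * Matrix.det v
      have h2 : (fun j => M.mulVec (v j)) = Matrix.of v * M.transpose := by
        funext j k
        rw [Matrix.mul_apply]
        simp only [Matrix.mulVec, dotProduct, Matrix.transpose_apply, Matrix.of_apply]
        exact Finset.sum_congr rfl (fun t _ => mul_comm _ _)
      rw [h2, Matrix.det_mul, Matrix.det_transpose, mul_comm]
      rfl
    · rw [dif_neg hi]; simp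
  exact congrArg (fun l => l u) h

/-- the ring homomorphism induced by a linear map of the generators -/
noncomputable def mmap (M : Matrix (Fin n) (Fin n) ℤ) : TS A n →+ TS A n := lmap (gmap M).toLinearMap

theorem mmap_mul (M : Matrix (Fin n) (Fin n) ℤ) (r s : TS A n) : mmap M (r * s) = mmap M r * mmap M s := by
  refine ts_mul_ind ?_ r s
  intro a b u v
  unfold mmap
  rw [tm_mul, lmap_tm, lmap_tm, lmap_tm, tm_mul]
  show tm (a * b) (gmap M (u * v)) = tm (a * b) (gmap M u * gmap M v)
  rw [map_mul]

theorem ext_mmap (M : Matrix (Fin n) (Fin n) ℤ) (r : TS A n) : ext (mmap M r) = M.det • ext r := by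
  have : (ext (A := A) (n := n)).comp (mmap M) = M.det • (ext (A := A) (n := n)) := tsext (fun a u => by
    show ext (mmap M (tm a u)) = M.det • ext (tm a u)
    unfold mmap
    rw [lmap_tm, ext_tm, ext_tm, smul_smul]
    congr 1
    exact top_gmap M u)
  exact congrArg (fun l => l r) this

theorem amap_mul (f : A →ₙ+* B) (r s : TS A n) : amap (f : A →+ B) (r * s) = amap (f : A →+ B) r * amap (f : A →+ B) s := by
  refine ts_mul_ind ?_ r s
  intro a b u v
  rw [tm_mul, amap_tm, amap_tm, amap_tm, tm_mul]
  show tm (f (a * b)) (u * v) = _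
  rw [map_mul]; rfl

end

end Pool.Agent.Helper805.Chain
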