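import Pool.Agent.Helper805.Chain.Fam
import Pool.Agent.Helper805.Chain.Ids
set_option autoImplicit false

/-! The natural families with five and six arguments. -/

namespace Pool.Agent.Helper805.Chain
open Pool.Agent.Helper805.Nuc.Tens Pool.Agent.Helper805.Nuc.Ext Pool.Agent.Helper805.Chain.Var
open Pool.Agent.Helper805.Chain.Alt

/-- from derivations and commuting values up to integer multiples to exact ones -/
theorem AD_of {Φ : Type} [CommRing Φ] {A : Type} [NonUnitalNonAssocRing A] [Module Φ A] {n : ℕ} {f : (Fin n → A) → A}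
    (D1 D2 : ℤ)
    (add : ∀ (v : Fin n → A) (i : Fin n) (a b : A),
      f (Function.update v i (a + b)) = f (Function.update v i a) + f (Function.update v i b))
    (smul : ∀ (v : Fin n → A) (i : Fin n) (r : Φ) (a : A), f (Function.update v i (r • a)) = r • f (Function.update v i a))
    (alt : ∀ (v : Fin n → A) (i j : Fin n), i ≠ j → v i = v j → f v = 0)
    (der : ∀ (v : Fin n → A) (i : Fin n) (a b : A),
      D1 • f (Function.update v i (a * b)) = D1 • (a * f (Function.update v i b) + f (Function.update v i a) * b))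
    (com : ∀ (v : Fin n → A) (a : A), D2 • (a * f v) = D2 • (f v * a)) :
    AD Φ A n (fun v => (D1 * D2) • f v) where
  add v i a b := by rw [add, smul_add]
  smul v i r a := by rw [smul, smul_comm]
  alt v i j h h' := by rw [alt v i j h h', smul_zero]
  der v i a b := by
    have h1 := der v i a b
    have h2 := com (Function.update v i a) b
    rw [mul_comm D1 D2, mul_smul, h1, smul_add, smul_add, ← mul_smul, ← mul_smul, mul_comm D2 D1, mul_smul_comm,
      mul_smul_comm]
    congr 1
    rw [mul_smul, mul_smul, h2]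
  com v a := by
    unfold br
    have h := com v a
    rw [mul_smul, smul_mul_assoc, mul_smul_comm, smul_mul_assoc, mul_smul_comm, h, sub_self]

section five
variable {A : Type} [NonUnitalNonAssocRing A]

/-- the five exterior generators used for the arguments -/
def emb5 : Fin 5 → Fin 7 := Fin.castLE (by norm_num)

theorem emb5_inj : Function.Injective emb5 := Fin.castLE_injective _

/-- the parameters -/
noncomputable def par5 (z w : A) : TS A 7 := te z [5] + te w [6]

theorem par5_mem (z w : A) : par5 z w ∈ PP (A := A) (n := 7) 1 :=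
  AddSubgroup.add_mem _ (te_mem z [5]) (te_mem w [6])

theorem par5_free (z w : A) : Free emb5 (par5 z w) :=
  (Free.gen emb5 z 5 (fun i h => by
    have := congrArg Fin.val h; have := i.isLt; simp [emb5] at *; omega)).add
  (Free.gen emb5 w 6 (fun i h => by
    have := congrArg Fin.val h; have := i.isLt; simp [emb5] at *; omega))

theorem P5_val_w {R : Type} [NonUnitalNonAssocRing R] (x z w w' : R) : Ex.P5.val x z w = Ex.P5.val x z w' := by
  simp [Ex.P5, Ex.K, Ex.sb, Ex.br, Ex.jo, Ex.as, Ex.val]
theorem P5_d0_w {R : Type} [NonUnitalNonAssocRing R] (x z w w' u : R) :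
    Ex.P5.d0 true x z w u = Ex.P5.d0 true x z w' u := by
  simp [Ex.P5, Ex.K, Ex.sb, Ex.br, Ex.jo, Ex.as, Ex.val, Ex.d0, Ex.deg, dg]

/-- the function of degree `(5, 2)` -/
noncomputable def F5 (v : Fin 5 → A) (z w : A) : A := Fv emb5 Ex.P5 (par5 z w) 0 v

theorem zero_free {n m : ℕ} (c : Fin m → Fin n) : Free c (0 : TS A n) := ⟨fun _ => map_zero _, fun _ _ => map_zero _⟩

theorem F5_upd (hA : IsAlt A) (v : Fin 5 → A) (i : Fin 5) (a z w : A) :
    F5 (Function.update v i a) z w =
      ext (lam (emb5 i) (Ex.P5.d0 true (XX emb5 (Function.update v i 0)) (par5 z w) 0 (te a []))) := by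
  unfold F5
  rw [Fv_update emb5_inj Ex.P5 (par5_free z w) (zero_free emb5),
    Ex.dv_lam (emb5 i) hA (XX_mem emb5 _) (p := true) (par5_mem z w) (AddSubgroup.zero_mem _) _ Ex.P5 P5_ok]

theorem te_mul_nil {n : ℕ} (a b : A) : te (a * b) ([] : List (Fin n)) = te a [] * te b [] := by
  rw [te_mul]; rfl

theorem F5_der (hA : IsAlt A) {c : Cert} {D : ℤ} (hc : Tri.isZ (Tri.add (Tri.smul D tD5) (total true c)) = true)
    (z w : A) (v : Fin 5 → A) (i : Fin 5) (a b : A) :
    D • F5 (Function.update v i (a * b)) z w =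
      D • (a * F5 (Function.update v i b) z w + F5 (Function.update v i a) z w * b) := by
  rw [F5_upd hA, F5_upd hA, F5_upd hA, te_mul_nil]
  have h := D5_id (superAlt (n := 7) hA) (XX_mem emb5 (Function.update v i 0)) (par5_mem z w) (te_nil_mem b) hc
    (te a []) (te_nil_mem a)
  have h2 := congrArg (fun r => ext (lam (emb5 i) r)) h
  simp only [map_zsmul, map_sub, map_add, map_zero] at h2
  rw [te_nil_lam, lam_mul, ext_te_mul, ext_mul_te, P5_d0_w _ _ (te b []) 0, P5_d0_w _ _ (te b []) 0,
    P5_d0_w _ _ (te b []) 0, smul_sub] at h2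
  exact sub_eq_zero.mp h2

theorem F5_com (hA : IsAlt A) {c : Cert} {D : ℤ} (hc : Tri.isZ (Tri.add (Tri.smul D tC5) (total true c)) = true)
    (z w : A) (v : Fin 5 → A) (a : A) : D • (a * F5 v z w) = D • (F5 v z w * a) := by
  have h := C5_id (superAlt (n := 7) hA) (XX_mem emb5 v) (par5_mem z w) (AddSubgroup.zero_mem _) hc
    (te a []) (te_nil_mem a)
  have h2 := congrArg (fun r => ext r) h
  simp only [map_zsmul, map_sub, map_zero] at h2
  rw [ext_te_mul, ext_mul_te, smul_sub] at h2
  exact sub_eq_zero.mp h2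

theorem F5_AD (hA : IsAlt A) {c c' : Cert} {D D' : ℤ}
    (hc : Tri.isZ (Tri.add (Tri.smul D tD5) (total true c)) = true)
    (hc' : Tri.isZ (Tri.add (Tri.smul D' tC5) (total true c')) = true)
    (Φ : Type) [CommRing Φ] [Module Φ A] [IsScalarTower Φ A A] [SMulCommClass Φ A A] (z w : A) :
    AD Φ A 5 (fun v => (D * D') • F5 v z w) :=
  AD_of D D' (Fv_add emb5_inj _ (par5_free z w) (zero_free emb5)) (Fv_smul emb5_inj _ (par5_free z w) (zero_free emb5))
    (Fv_alt emb5_inj _ (par5_free z w) (zero_free emb5)) (F5_der hA hc z w) (F5_com hA hc' z w)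

theorem amap_te {B : Type} [NonUnitalNonAssocRing B] {n : ℕ} (f : A →+ B) (a : A) (l : List (Fin n)) :
    amap f (te a l) = te (f a) l := amap_tm _ _ _

theorem Fv_map {B : Type} [NonUnitalNonAssocRing B] {m n : ℕ} (c : Fin m → Fin n) (t : Ex) (g : A →ₙ+* B)
    (z w : TS A n) (v : Fin m → A) :
    g (Fv c t z w v) = Fv c t (amap (g : A →+ B) z) (amap (g : A →+ B) w) (fun i => g (v i)) := by
  unfold Fv
  have h1 : (g : A →+ B) (ext (t.val (XX c v) z w)) = _ := (ext_amap (g : A →+ B) (t.val (XX c v) z w)).symm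
  have h2 : g (ext (t.val (XX c v) z w)) = (g : A →+ B) (ext (t.val (XX c v) z w)) := rfl
  rw [h2, h1, Ex.val_map _ (amap_mul g)]
  congr 2
  unfold XX
  rw [map_sum]
  exact Finset.sum_congr rfl (fun i _ => amap_te _ _ _)

/-- the family -/
noncomputable def PF5 {c c' : Cert} {D D' : ℤ}
    (hc : Tri.isZ (Tri.add (Tri.smul D tD5) (total true c)) = true)
    (hc' : Tri.isZ (Tri.add (Tri.smul D' tC5) (total true c')) = true) : PF 5 where
  F := fun R _ v z w => (D * D') • F5 v z w
  map := by
    intro R S _ _ g v z w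
    rw [map_zsmul]
    congr 1
    unfold F5
    rw [Fv_map, map_zero]
    unfold par5
    rw [map_add, amap_te, amap_te]
    rfl
  ad := fun Φ _ R _ _ _ _ hR z w => F5_AD hR hc hc' Φ z w

end five

section six
variable {A : Type} [NonUnitalNonAssocRing A]

theorem P6_val_w {R : Type} [NonUnitalNonAssocRing R] (x z w w' : R) : Ex.P6.val x z w = Ex.P6.val x z w' := by
  simp [Ex.P6, Ex.V6, Ex.K, Ex.sb, Ex.br, Ex.jo, Ex.as, Ex.val]

/-- the function of degree `(6, 2)` -/
noncomputable def F6 (v : Fin 6 → A) (z : A) : A := Fv (n := 6) id Ex.P6 (te z []) 0 v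

/-- inner derivations -/
theorem inner (hA : IsAlt A) (y v a b : A) :
    br (br y v) (a * b) - (3 : ℤ) • as y v (a * b) = a * (br (br y v) b - (3 : ℤ) • as y v b) +
      (br (br y v) a - (3 : ℤ) • as y v a) * b := by
  have h1 := LemV.three_as hA a b (br y v)
  have h2 := LemV.F_comm hA b a y v
  have e1 : as y v (a * b) = as (a * b) y v := pc2 hA _ _ _
  have e2 : as y v b = as b y v := pc2 hA _ _ _
  have e3 : as y v a = as a y v := pc2 hA _ _ _
  have e4 : as a b (br y v) = as (br y v) a b := pc2 hA _ _ _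
  have e5 : as (br y v) b a = - as (br y v) a b := p23 hA _ _ _
  have e6 : as (a * b) y v = as (b * a) y v + as (br a b) y v := by
    unfold br; rw [as_sub1]; abel
  have e7 : as (br b a) y v = - as (br a b) y v := by
    have : br b a = - br a b := by unfold br; abel
    rw [this, as_neg1]
  have e8 : ∀ c, br (br y v) c = - br c (br y v) := fun c => by unfold br; abel
  rw [e1, e2, e3, e8 (a * b), e8 a, e8 b]
  rw [e4] at h1
  rw [e5, e7] at h2
  rw [e6]
  have h3 : br (a * b) (br y v) = (as (br y v) a b + as (br y v) a b + as (br y v) a b) + a * br b (br y v) +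
      br a (br y v) * b := by rw [h1]; abel
  have h4 : as (b * a) y v = a * as b y v + as a y v * b + (- as (br a b) y v + - as (br y v) a b) := by
    rw [← h2]; abel
  rw [h3, h4]
  simp only [mul_sub, sub_mul, mul_neg, neg_mul, mul_smul_comm, smul_mul_assoc, smul_add, smul_neg]
  abel

theorem inner_ext (i : Fin 6) (V : TS A 6) (z a : A) :
    ext (lam i (br (br (te z []) V) (te a []) - (3 : ℤ) • as (te z []) V (te a []))) =
      br (br z (ext (lam i V))) a - (3 : ℤ) • as z (ext (lam i V)) a := by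
  have hl : ∀ r : TS A 6, lam i (te z [] * r) = te z [] * lam i r := te_nil_lam i z
  have hl' : ∀ r : TS A 6, lam i (te a [] * r) = te a [] * lam i r := te_nil_lam i a
  unfold br as
  simp only [map_sub, map_zsmul, mul_sub, sub_mul, lam_mul, hl, hl', ext_te_mul, ext_mul_te]

theorem F6_upd0 (hA : IsAlt A) (v : Fin 6 → A) (i : Fin 6) (z a : A) :
    F6 (Function.update v i a) z =
      ext (lam i (Ex.P6.d0 false (XX id (Function.update v i 0)) (te z []) 0 (te a []))) := by
  unfold F6
  rw [Fv_update Function.injective_id Ex.P6 (Free.nil id z) (zero_free id)]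
  exact congrArg ext (Ex.dv_lam i hA (XX_mem id (Function.update v i 0)) (p := false) (te_nil_mem z)
    (AddSubgroup.zero_mem _) (te a []) Ex.P6 P6_ok)

theorem F6_upd (hA : IsAlt A) {c : Cert} {D : ℤ} (hc : Tri.isZ (Tri.add (Tri.smul D tS6) (total false c)) = true)
    (v : Fin 6 → A) (i : Fin 6) (z : A) : ∃ V : A, ∀ a : A, D • F6 (Function.update v i a) z =
      (-6 * D) • (br (br z V) a - (3 : ℤ) • as z V a) := by
  refine ⟨ext (lam i (Ex.V6.val (XX id (Function.update v i 0)) (te z []) 0)), fun a => ?_⟩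
  rw [F6_upd0 hA, ← inner_ext]
  have h := P6_d0 (superAlt (n := 6) hA) (XX_mem id (Function.update v i 0)) (te_nil_mem z)
    (AddSubgroup.zero_mem _) hc (te a []) (te_nil_mem a)
  rw [← map_zsmul, ← map_zsmul, ← map_zsmul, ← map_zsmul]
  exact congrArg (fun r => ext (lam i r)) h

theorem F6_der (hA : IsAlt A) {c : Cert} {D : ℤ} (hc : Tri.isZ (Tri.add (Tri.smul D tS6) (total false c)) = true)
    (z : A) (v : Fin 6 → A) (i : Fin 6) (a b : A) :
    D • F6 (Function.update v i (a * b)) z =
      D • (a * F6 (Function.update v i b) z + F6 (Function.update v i a) z * b) := by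
  obtain ⟨V, hV⟩ := F6_upd hA hc v i z
  rw [smul_add, ← mul_smul_comm, ← smul_mul_assoc, hV, hV, hV, inner hA, smul_add, mul_smul_comm, smul_mul_assoc]

theorem F6_com (hA : IsAlt A) {D : ℤ}
    (hc : ∀ {R : Type} [NonUnitalNonAssocRing R] {P : ℕ → AddSubgroup R} {x z : R} (_ : SuperAlt R P) (_ : x ∈ P 1)
      (_ : z ∈ P 0) (u : R) (_ : u ∈ P 0), D • (u * Ex.P6.val x z 0 - Ex.P6.val x z 0 * u) = 0)
    (z : A) (v : Fin 6 → A) (a : A) : D • (a * F6 v z) = D • (F6 v z * a) := by
  have h := hc (superAlt (n := 6) hA) (XX_mem id v) (te_nil_mem z) (te a []) (te_nil_mem a)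
  have h2 := congrArg (fun r => ext r) h
  simp only [map_zsmul, map_sub, map_zero] at h2
  rw [ext_te_mul, ext_mul_te, smul_sub] at h2
  exact sub_eq_zero.mp h2

end six

end Pool.Agent.Helper805.Chain
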