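import Pool.Agent.Helper805.Chain.S6M
set_option autoImplicit false
set_option maxRecDepth 100000

/-! Certificate data (found by computer). -/

namespace Pool.Agent.Helper805.Chain.S6
open Pool.Agent.Helper805.Chain

def c_000 : Cert := (.node [⟨.x, .z, (B (A2 (K (.negSucc 4353179))) (B N N (K (.negSucc 11843843)) (K (.negSucc 687503))) (B (K (.ofNat 43602212)) (K (.ofNat 5776020)) N N) (B (K (.ofNat 19841824)) (K (.negSucc 392255)) N N))⟩,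
  ⟨.z, .z, (B (B (K (.ofNat 28323700)) (K (.ofNat 6299970)) N N) (B (K (.negSucc 15425199)) (K (.negSucc 770975)) N N) N N)⟩,
  ⟨.x, T0, (B N N (K (.ofNat 6390864)) (K (.ofNat 1292376)))⟩,
  ⟨.x, T1, (B N N (K (.ofNat 2498088)) (K (.negSucc 686651)))⟩,
  ⟨.x, T2, (B (K (.negSucc 19249335)) (K (.ofNat 6660588)) N N)⟩,
  ⟨.z, T0, (A0 (K (.ofNat 23655676)))⟩,
  ⟨.x, T9, (K (.negSucc 6879083))⟩] (.node [⟨.x, .z, (B N N (K (.negSucc 1196851)) (K (.negSucc 457215)))⟩,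
  ⟨.z, .z, (B (K (.negSucc 1712637)) (K (.ofNat 729232)) N N)⟩,
  ⟨.x, T2, (K (.ofNat 630100))⟩,
  ⟨.z, T0, (K (.negSucc 598683))⟩] (.node [⟨.z, .z, (K (.ofNat 335568))⟩] .nil .nil .nil .nil .nil .nil) (.node [⟨.z, .z, (K (.ofNat 4357444))⟩] .nil .nil .nil .nil .nil .nil) (.node [⟨.x, .z, (K (.negSucc 31415))⟩] .nil .nil .nil .nil .nil .nil) (.node [⟨.x, .z, (K (.negSucc 865455))⟩] .nil .nil .nil .nil .nil .nil) .nil .nil) (.node [⟨.x, .z, (B N N (K (.negSucc 782719)) (K (.negSucc 11487)))⟩,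
  ⟨.z, .z, (B (K (.negSucc 26119675)) (K (.ofNat 989488)) N N)⟩,
  ⟨.x, T2, (K (.ofNat 1397428))⟩,
  ⟨.z, T0, (K (.ofNat 1522760))⟩] (.node [⟨.z, .z, (K (.ofNat 269400))⟩] .nil .nil .nil .nil .nil .nil) (.node [⟨.z, .z, (K (.ofNat 199048))⟩] .nil .nil .nil .nil .nil .nil) (.node [⟨.x, .z, (K (.negSucc 793067))⟩] .nil .nil .nil .nil .nil .nil) (.node [⟨.x, .z, (K (.negSucc 1952919))⟩] .nil .nil .nil .nil .nil .nil) .nil .nil) (.node [⟨.x, .z, (B (K (.negSucc 268319)) (K (.ofNat 3138720)) N N)⟩,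
  ⟨.x, T0, (K (.negSucc 2920223))⟩] .nil (.node [⟨.x, .z, (K (.negSucc 2661491))⟩] .nil .nil .nil .nil .nil .nil) .nil .nil .nil .nil) (.node [⟨.x, .z, (B (K (.ofNat 19428916)) (K (.negSucc 10474355)) N N)⟩,
  ⟨.x, T0, (K (.ofNat 10728756))⟩,
  ⟨.x, T1, (K (.negSucc 342719))⟩] (.node [⟨.x, .z, (K (.negSucc 226115))⟩] .nil .nil .nil .nil .nil .nil) (.node [⟨.x, .z, (K (.ofNat 2274600))⟩] .nil .nil .nil .nil .nil .nil) .nil .nil .nil .nil) .nil .nil)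

def c_001 : Cert := (.node [⟨.x, .z, (B (A2 (K (.negSucc 9743099))) (B N N (K (.negSucc 24620279)) (K (.negSucc 13160435))) (B (K (.ofNat 22045292)) (K (.ofNat 13749816)) N N) (B (K (.ofNat 32838640)) (K (.negSucc 3654575)) N N))⟩,
  ⟨.z, .z, (B (B (K (.ofNat 23397922)) (K (.ofNat 23858240)) N N) (B (K (.ofNat 30048800)) (K (.ofNat 1810728)) N N) N N)⟩,
  ⟨.x, T0, (B N N (K (.ofNat 8293416)) (K (.ofNat 8856024)))⟩,
  ⟨.x, T1, (B N N (K (.ofNat 6820152)) (K (.ofNat 2333040)))⟩,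
  ⟨.x, T2, (B (K (.negSucc 33648351)) (K (.ofNat 8262528)) N N)⟩,
  ⟨.z, T0, (A0 (K (.negSucc 19782475)))⟩,
  ⟨.x, T9, (K (.negSucc 8159111))⟩,
  ⟨.x, T11, (K (.negSucc 4380503))⟩] (.node [⟨.x, .z, (B N N (K (.negSucc 1098577)) (K (.ofNat 169496)))⟩,
  ⟨.z, .z, (B (K (.negSucc 7276134)) (K (.ofNat 4826131)) N N)⟩,
  ⟨.x, T2, (K (.negSucc 3287341))⟩,
  ⟨.z, T0, (K (.negSucc 3477867))⟩] (.node [⟨.z, .z, (K (.ofNat 3800271))⟩] .nil .nil .nil .nil .nil .nil) (.node [⟨.z, .z, (K (.ofNat 10038241))⟩] .nil .nil .nil .nil .nil .nil) (.node [⟨.x, .z, (K (.ofNat 2027124))⟩] .nil .nil .nil .nil .nil .nil) (.node [⟨.x, .z, (K (.ofNat 87464))⟩] .nil .nil .nil .nil .nil .nil) .nil .nil) (.node [⟨.x, .z, (B N N (K (.negSucc 2431983)) (K (.negSucc 8897515)))⟩,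
  ⟨.z, .z, (B (K (.ofNat 21801054)) (K (.negSucc 386709)) N N)⟩,
  ⟨.x, T2, (K (.ofNat 6394964))⟩,
  ⟨.z, T0, (K (.ofNat 5275816))⟩] (.node [⟨.z, .z, (K (.ofNat 2622990))⟩] .nil .nil .nil .nil .nil .nil) (.node [⟨.z, .z, (K (.negSucc 1949541))⟩] .nil .nil .nil .nil .nil .nil) (.node [⟨.x, .z, (K (.ofNat 13260540))⟩] .nil .nil .nil .nil .nil .nil) (.node [⟨.x, .z, (K (.negSucc 6378835))⟩] .nil .nil .nil .nil .nil .nil) .nil .nil) (.node [⟨.x, .z, (B (K (.negSucc 74153723)) (K (.ofNat 866820)) N N)⟩,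
  ⟨.x, T0, (K (.negSucc 5850287))⟩,
  ⟨.x, T1, (K (.ofNat 6668388))⟩] (.node [⟨.x, .z, (K (.negSucc 5082263))⟩] .nil .nil .nil .nil .nil .nil) (.node [⟨.x, .z, (K (.negSucc 17071463))⟩] .nil .nil .nil .nil .nil .nil) .nil .nil .nil .nil) (.node [⟨.x, .z, (B (K (.ofNat 37207804)) (K (.negSucc 9019451)) N N)⟩,
  ⟨.x, T0, (K (.ofNat 12076524))⟩,
  ⟨.x, T1, (K (.negSucc 3077063))⟩] (.node [⟨.x, .z, (K (.ofNat 7016388))⟩] .nil .nil .nil .nil .nil .nil) (.node [⟨.x, .z, (K (.negSucc 3997283))⟩] .nil .nil .nil .nil .nil .nil) .nil .nil .nil .nil) .nil .nil)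

def c_00 : Cert := (.node [⟨.x, .z, (B (B (A2 (K (.ofNat 1265568))) N (B (K (.ofNat 68464548)) (K (.ofNat 2292972)) N N) N) (B (A2 (K (.ofNat 434316))) (B N N (K (.negSucc 3321359)) (K (.ofNat 677964))) (B (K (.ofNat 144412632)) (K (.ofNat 6421896)) N N) (B (K (.ofNat 68653368)) (K (.ofNat 1197072)) N N)) (B (B (K (.negSucc 16640555)) (K (.negSucc 24806895)) N N) (B (K (.negSucc 140126891)) (K (.negSucc 3605195)) N N) N N) (B (B (K (.ofNat 32374104)) (K (.negSucc 9584755)) N N) (B (K (.ofNat 2141748)) (K (.ofNat 541536)) N N) N N))⟩,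
  ⟨.z, .z, (B (B (B (K (.negSucc 43578275)) (K (.negSucc 13858531)) N N) (B (K (.negSucc 69186809)) (K (.ofNat 1329642)) N N) N N) (B (B (K (.negSucc 31507565)) (K (.ofNat 10117898)) N N) (B (K (.negSucc 6663533)) (K (.ofNat 513072)) N N) N N) N N)⟩,
  ⟨.x, T0, (B (A2 (K (.negSucc 3256751))) (B N N (K (.ofNat 3629736)) (K (.negSucc 2038475))) (B (K (.negSucc 3534239)) (K (.negSucc 6769619)) N N) (B (K (.negSucc 65844551)) (K (.negSucc 1818695)) N N))⟩,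
  ⟨.x, T1, (B (A2 (K (.ofNat 2547564))) (B N N (K (.ofNat 1846008)) (K (.negSucc 1189907))) (B (K (.negSucc 66906923)) (K (.negSucc 3702011)) N N) (B (K (.negSucc 559523)) (K (.ofNat 54216)) N N))⟩,
  ⟨.x, T2, (B (B (K (.negSucc 33019631)) (K (.ofNat 9749072)) N N) (B (K (.negSucc 11967827)) (K (.ofNat 5255784)) N N) N N)⟩,
  ⟨.z, T0, (A0 (B (K (.negSucc 42997139)) (K (.negSucc 12558439)) N N))⟩,
  ⟨.x, T5, (A3 (K (.negSucc 35027)))⟩,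
  ⟨.x, T7, (B N N (K (.negSucc 4040831)) (K (.negSucc 721019)))⟩,
  ⟨.x, T8, (B N N (K (.ofNat 1423596)) (K (.negSucc 1534835)))⟩,
  ⟨.x, T9, (A0 (K (.ofNat 9893820)))⟩,
  ⟨.x, T10, (A3 (K (.ofNat 302160)))⟩,
  ⟨.x, T11, (A1 (K (.negSucc 528047)))⟩,
  ⟨.x, T17, (K (.ofNat 5021136))⟩,
  ⟨.x, T19, (K (.negSucc 794687))⟩,
  ⟨.x, T32, (K (.negSucc 423695))⟩,
  ⟨.x, T22, (K (.ofNat 162936))⟩,
  ⟨.x, T23, (K (.ofNat 77496))⟩,
  ⟨.z, T15, (K (.negSucc 179135))⟩] c_000 c_001 (.node [⟨.x, .z, (B (B (K (.ofNat 2138592)) (K (.ofNat 2300136)) N N) (B (K (.negSucc 64515683)) (K (.negSucc 3029639)) N N) N N)⟩,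
  ⟨.x, T0, (B (K (.ofNat 66956436)) (K (.ofNat 674232)) N N)⟩,
  ⟨.x, T1, (B (K (.negSucc 2138591)) (K (.negSucc 2484791)) N N)⟩,
  ⟨.x, T5, (K (.ofNat 258696))⟩,
  ⟨.x, T7, (K (.negSucc 2002919))⟩,
  ⟨.x, T8, (K (.negSucc 2397287))⟩] (.node [⟨.x, .z, (B (K (.ofNat 2319792)) (K (.ofNat 389664)) N N)⟩,
  ⟨.x, T0, (K (.negSucc 43463))⟩,
  ⟨.x, T1, (K (.negSucc 181199))⟩] (.node [⟨.x, .z, (K (.ofNat 181200))⟩] .nil .nil .nil .nil .nil .nil) (.node [⟨.x, .z, (K (.ofNat 1389972))⟩] .nil .nil .nil .nil .nil .nil) .nil .nil .nil .nil) (.node [⟨.x, .z, (B (K (.ofNat 73464888)) (K (.ofNat 3045276)) N N)⟩,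
  ⟨.x, T0, (K (.ofNat 416808))⟩,
  ⟨.x, T1, (K (.negSucc 360791))⟩] (.node [⟨.x, .z, (K (.ofNat 3769236))⟩] .nil .nil .nil .nil .nil .nil) (.node [⟨.x, .z, (K (.ofNat 5750280))⟩] .nil .nil .nil .nil .nil .nil) .nil .nil .nil .nil) .nil .nil .nil .nil) (.node [⟨.x, .z, (B (B (K (.negSucc 32564675)) (K (.ofNat 2416636)) N N) (B (K (.negSucc 58583507)) (K (.ofNat 1740456)) N N) N N)⟩,
  ⟨.x, T0, (B (K (.negSucc 5214263)) (K (.negSucc 7825667)) N N)⟩,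
  ⟨.x, T1, (B (K (.ofNat 69189456)) (K (.negSucc 4462523)) N N)⟩,
  ⟨.x, T5, (K (.ofNat 1447728))⟩,
  ⟨.x, T7, (K (.negSucc 5249639))⟩,
  ⟨.x, T8, (K (.negSucc 7421303))⟩,
  ⟨.x, T10, (K (.ofNat 4557612))⟩] (.node [⟨.x, .z, (B (K (.negSucc 67507439)) (K (.ofNat 1537332)) N N)⟩,
  ⟨.x, T0, (K (.ofNat 2832900))⟩,
  ⟨.x, T1, (K (.negSucc 1911455))⟩] (.node [⟨.x, .z, (K (.negSucc 2723255))⟩] .nil .nil .nil .nil .nil .nil) (.node [⟨.x, .z, (K (.ofNat 5665044))⟩] .nil .nil .nil .nil .nil .nil) .nil .nil .nil .nil) (.node [⟨.x, .z, (B (K (.negSucc 13001711)) (K (.ofNat 10824768)) N N)⟩,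
  ⟨.x, T0, (K (.ofNat 2091576))⟩,
  ⟨.x, T1, (K (.negSucc 3710843))⟩] (.node [⟨.x, .z, (K (.ofNat 6553368))⟩] .nil .nil .nil .nil .nil .nil) (.node [⟨.x, .z, (K (.ofNat 11347752))⟩] .nil .nil .nil .nil .nil .nil) .nil .nil .nil .nil) .nil .nil .nil .nil) .nil .nil)

def c_010 : Cert := (.node [⟨.x, .z, (B (A2 (K (.negSucc 15105539))) (B N N (K (.negSucc 35741159)) (K (.negSucc 12529619))) (B (K (.negSucc 44660947)) (K (.ofNat 23508360)) N N) (B (K (.negSucc 35869707)) (K (.negSucc 3974423)) N N))⟩,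
  ⟨.z, .z, (B (B (K (.negSucc 15604401)) (K (.ofNat 15484932)) N N) (B (K (.ofNat 27370336)) (K (.ofNat 3925674)) N N) N N)⟩,
  ⟨.x, T0, (B N N (K (.ofNat 8770152)) (K (.ofNat 7956660)))⟩,
  ⟨.x, T1, (B N N (K (.ofNat 11081988)) (K (.ofNat 2346564)))⟩,
  ⟨.x, T2, (B (K (.ofNat 35028004)) (K (.ofNat 10389720)) N N)⟩,
  ⟨.z, T0, (A0 (K (.negSucc 15530331)))⟩,
  ⟨.x, T9, (K (.negSucc 8137823))⟩,
  ⟨.x, T11, (K (.negSucc 1822199))⟩] (.node [⟨.x, .z, (B N N (K (.negSucc 6660693)) (K (.negSucc 3242647)))⟩,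
  ⟨.z, .z, (B (K (.negSucc 7630186)) (K (.ofNat 4065251)) N N)⟩,
  ⟨.x, T2, (K (.ofNat 268478))⟩,
  ⟨.z, T0, (K (.negSucc 5636203))⟩] (.node [⟨.z, .z, (K (.ofNat 4836333))⟩] .nil .nil .nil .nil .nil .nil) (.node [⟨.z, .z, (K (.ofNat 11356889))⟩] .nil .nil .nil .nil .nil .nil) (.node [⟨.x, .z, (K (.ofNat 5380236))⟩] .nil .nil .nil .nil .nil .nil) (.node [⟨.x, .z, (K (.negSucc 4806811))⟩] .nil .nil .nil .nil .nil .nil) .nil .nil) (.node [⟨.x, .z, (B N N (K (.negSucc 4792535)) (K (.negSucc 16474799)))⟩,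
  ⟨.z, .z, (B (K (.ofNat 16683280)) (K (.negSucc 2674817)) N N)⟩,
  ⟨.x, T2, (K (.ofNat 9578508))⟩,
  ⟨.z, T0, (K (.ofNat 6278088))⟩] (.node [⟨.z, .z, (K (.ofNat 4861140))⟩] .nil .nil .nil .nil .nil .nil) (.node [⟨.z, .z, (K (.negSucc 3237467))⟩] .nil .nil .nil .nil .nil .nil) (.node [⟨.x, .z, (K (.ofNat 16751952))⟩] .nil .nil .nil .nil .nil .nil) (.node [⟨.x, .z, (K (.negSucc 9594587))⟩] .nil .nil .nil .nil .nil .nil) .nil .nil) (.node [⟨.x, .z, (B (K (.negSucc 1030019)) (K (.ofNat 7403352)) N N)⟩,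
  ⟨.x, T0, (K (.negSucc 12633827))⟩,
  ⟨.x, T1, (K (.ofNat 3407880))⟩] (.node [⟨.x, .z, (K (.negSucc 3239))⟩] .nil .nil .nil .nil .nil .nil) (.node [⟨.x, .z, (K (.negSucc 16678631))⟩] .nil .nil .nil .nil .nil .nil) .nil .nil .nil .nil) (.node [⟨.x, .z, (B (K (.negSucc 26317911)) (K (.ofNat 4658436)) N N)⟩,
  ⟨.x, T0, (K (.ofNat 9452412))⟩,
  ⟨.x, T1, (K (.negSucc 12620435))⟩] (.node [⟨.x, .z, (K (.ofNat 16502604))⟩] .nil .nil .nil .nil .nil .nil) (.node [⟨.x, .z, (K (.negSucc 1892963))⟩] .nil .nil .nil .nil .nil .nil) .nil .nil .nil .nil) .nil .nil)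

def c_011 : Cert := (.node [⟨.x, .z, (B (A2 (K (.negSucc 9281903))) (B N N (K (.negSucc 25910711)) (K (.negSucc 15297071))) (B (K (.negSucc 21892339)) (K (.ofNat 17590416)) N N) (B (K (.negSucc 48130935)) (K (.negSucc 4028027)) N N))⟩,
  ⟨.z, .z, (B (B (K (.negSucc 18800341)) (K (.negSucc 1348799)) N N) (B (K (.negSucc 16241509)) (K (.ofNat 2939856)) N N) N N)⟩,
  ⟨.x, T0, (B N N (K (.ofNat 4228968)) (K (.ofNat 8413464)))⟩,
  ⟨.x, T1, (B N N (K (.ofNat 10021368)) (K (.ofNat 4023504)))⟩,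
  ⟨.x, T2, (B (K (.ofNat 50066308)) (K (.ofNat 6632508)) N N)⟩,
  ⟨.z, T0, (A0 (K (.ofNat 24085856)))⟩,
  ⟨.x, T9, (K (.negSucc 3934751))⟩,
  ⟨.x, T11, (K (.negSucc 3989987))⟩] (.node [⟨.x, .z, (B N N (K (.negSucc 3208665)) (K (.negSucc 6157855)))⟩,
  ⟨.z, .z, (B (K (.negSucc 7993834)) (K (.ofNat 3889925)) N N)⟩,
  ⟨.x, T2, (K (.negSucc 1363449))⟩,
  ⟨.z, T0, (K (.negSucc 3645055))⟩] (.node [⟨.z, .z, (K (.ofNat 6344373))⟩] .nil .nil .nil .nil .nil .nil) (.node [⟨.z, .z, (K (.ofNat 8451929))⟩] .nil .nil .nil .nil .nil .nil) (.node [⟨.x, .z, (K (.ofNat 880956))⟩] .nil .nil .nil .nil .nil .nil) (.node [⟨.x, .z, (K (.negSucc 428755))⟩] .nil .nil .nil .nil .nil .nil) .nil .nil) (.node [⟨.x, .z, (B N N (K (.negSucc 3050939)) (K (.negSucc 15904751)))⟩,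
  ⟨.z, .z, (B (K (.negSucc 21454651)) (K (.negSucc 338861)) N N)⟩,
  ⟨.x, T2, (K (.ofNat 7451256))⟩,
  ⟨.z, T0, (K (.ofNat 5735244))⟩] (.node [⟨.z, .z, (K (.ofNat 3736308))⟩] .nil .nil .nil .nil .nil .nil) (.node [⟨.z, .z, (K (.negSucc 3208697))⟩] .nil .nil .nil .nil .nil .nil) (.node [⟨.x, .z, (K (.ofNat 13325988))⟩] .nil .nil .nil .nil .nil .nil) (.node [⟨.x, .z, (K (.negSucc 7459319))⟩] .nil .nil .nil .nil .nil .nil) .nil .nil) (.node [⟨.x, .z, (B (K (.ofNat 55008828)) (K (.negSucc 4983899)) N N)⟩,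
  ⟨.x, T0, (K (.negSucc 6652535))⟩,
  ⟨.x, T1, (K (.ofNat 7882728))⟩] (.node [⟨.x, .z, (K (.negSucc 9248831))⟩] .nil .nil .nil .nil .nil .nil) (.node [⟨.x, .z, (K (.negSucc 12556103))⟩] .nil .nil .nil .nil .nil .nil) .nil .nil .nil .nil) (.node [⟨.x, .z, (B (K (.negSucc 41051511)) (K (.ofNat 2371500)) N N)⟩,
  ⟨.x, T0, (K (.ofNat 3934752))⟩,
  ⟨.x, T1, (K (.negSucc 9014795))⟩] (.node [⟨.x, .z, (K (.ofNat 11670180))⟩] .nil .nil .nil .nil .nil .nil) (.node [⟨.x, .z, (K (.negSucc 4006115))⟩] .nil .nil .nil .nil .nil .nil) .nil .nil .nil .nil) .nil .nil)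

def c_01 : Cert := (.node [⟨.x, .z, (B (B (A2 (K (.ofNat 599160))) N (B (K (.negSucc 59841311)) (K (.ofNat 875712)) N N) N) (B (A2 (K (.negSucc 1184315))) (B N N (K (.negSucc 5293523)) (K (.ofNat 3481572))) (B (K (.negSucc 123925439)) (K (.ofNat 15851304)) N N) (B (K (.negSucc 58301003)) (K (.ofNat 4921104)) N N)) (B (B (K (.negSucc 43893459)) (K (.negSucc 12973991)) N N) (B (K (.ofNat 55721172)) (K (.negSucc 9450887)) N N) N N) (B (B (K (.negSucc 75834019)) (K (.negSucc 19087043)) N N) (B (K (.negSucc 57296999)) (K (.negSucc 2587583)) N N) N N))⟩,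
  ⟨.z, .z, (B (B (B (K (.ofNat 2486370)) (K (.negSucc 2866441)) N N) (B (K (.ofNat 25611280)) (K (.ofNat 7985508)) N N) N N) (B (B (K (.ofNat 22174580)) (K (.negSucc 13299713)) N N) (B (K (.negSucc 298235)) (K (.negSucc 1557599)) N N) N N) N N)⟩,
  ⟨.x, T0, (B (A2 (K (.negSucc 243455))) (B N N (K (.ofNat 4612260)) (K (.ofNat 3254424))) (B (K (.negSucc 3711743)) (K (.negSucc 8502611)) N N) (B (K (.ofNat 63560748)) (K (.negSucc 1240283)) N N))⟩,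
  ⟨.x, T1, (B (A2 (K (.ofNat 409128))) (B N N (K (.negSucc 641687)) (K (.ofNat 1514568))) (B (K (.ofNat 62594436)) (K (.ofNat 3632712)) N N) (B (K (.ofNat 1739820)) (K (.negSucc 671975)) N N))⟩,
  ⟨.x, T2, (B (B (K (.ofNat 75836528)) (K (.ofNat 21686544)) N N) (B (K (.ofNat 61587684)) (K (.ofNat 893544)) N N) N N)⟩,
  ⟨.z, T0, (A0 (B (K (.ofNat 38052928)) (K (.ofNat 13201452)) N N))⟩,
  ⟨.x, T5, (A3 (K (.negSucc 1737155)))⟩,
  ⟨.x, T7, (B N N (K (.negSucc 1934435)) (K (.ofNat 5512632)))⟩,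
  ⟨.x, T8, (B N N (K (.ofNat 1172844)) (K (.ofNat 2806956)))⟩,
  ⟨.x, T9, (A0 (K (.ofNat 6109860)))⟩,
  ⟨.x, T10, (A3 (K (.negSucc 1735271)))⟩,
  ⟨.x, T11, (A1 (K (.negSucc 3091679)))⟩,
  ⟨.x, T17, (K (.ofNat 2260740))⟩,
  ⟨.x, T19, (K (.negSucc 955895))⟩,
  ⟨.x, T32, (K (.ofNat 3264))⟩,
  ⟨.x, T22, (K (.ofNat 404748))⟩,
  ⟨.x, T23, (K (.ofNat 10788))⟩,
  ⟨.z, T15, (K (.negSucc 598823))⟩] c_010 c_011 (.node [⟨.x, .z, (B (B (K (.ofNat 54534840)) (K (.ofNat 27170124)) N N) (B (K (.ofNat 136854540)) (K (.negSucc 2750591)) N N) N N)⟩,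
  ⟨.x, T0, (B (K (.negSucc 76231043)) (K (.ofNat 9784032)) N N)⟩,
  ⟨.x, T1, (B (K (.negSucc 9051407)) (K (.negSucc 4223183)) N N)⟩,
  ⟨.x, T5, (K (.ofNat 5661132))⟩,
  ⟨.x, T7, (K (.negSucc 5289335))⟩,
  ⟨.x, T8, (K (.negSucc 4462871))⟩,
  ⟨.x, T10, (K (.negSucc 4770851))⟩] (.node [⟨.x, .z, (B (K (.ofNat 10655004)) (K (.negSucc 11784563)) N N)⟩,
  ⟨.x, T0, (K (.ofNat 2631636))⟩,
  ⟨.x, T1, (K (.ofNat 1080072))⟩] (.node [⟨.x, .z, (K (.ofNat 3605376))⟩] .nil .nil .nil .nil .nil .nil) (.node [⟨.x, .z, (K (.ofNat 5463648))⟩] .nil .nil .nil .nil .nil .nil) .nil .nil .nil .nil) (.node [⟨.x, .z, (B (K (.negSucc 55692743)) (K (.negSucc 1754855)) N N)⟩,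
  ⟨.x, T0, (K (.ofNat 5818356))⟩,
  ⟨.x, T1, (K (.ofNat 3863580))⟩] (.node [⟨.x, .z, (K (.ofNat 7335120))⟩] .nil .nil .nil .nil .nil .nil) (.node [⟨.x, .z, (K (.ofNat 962112))⟩] .nil .nil .nil .nil .nil .nil) .nil .nil .nil .nil) .nil .nil .nil .nil) (.node [⟨.x, .z, (B (B (K (.negSucc 14536675)) (K (.negSucc 22280675)) N N) (B (K (.ofNat 9877296)) (K (.ofNat 5571672)) N N) N N)⟩,
  ⟨.x, T0, (B (K (.negSucc 20296979)) (K (.negSucc 1031195)) N N)⟩,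
  ⟨.x, T1, (B (K (.negSucc 57391139)) (K (.ofNat 1856100)) N N)⟩,
  ⟨.x, T5, (K (.ofNat 6968052))⟩,
  ⟨.x, T7, (K (.negSucc 2178791))⟩,
  ⟨.x, T8, (K (.negSucc 603299))⟩,
  ⟨.x, T10, (K (.ofNat 2033820))⟩] (.node [⟨.x, .z, (B (K (.ofNat 60923712)) (K (.negSucc 18642539)) N N)⟩,
  ⟨.x, T0, (K (.ofNat 11728764))⟩,
  ⟨.x, T1, (K (.ofNat 2745840))⟩] (.node [⟨.x, .z, (K (.negSucc 3004799))⟩] .nil .nil .nil .nil .nil .nil) (.node [⟨.x, .z, (K (.ofNat 4502712))⟩] .nil .nil .nil .nil .nil .nil) .nil .nil .nil .nil) (.node [⟨.x, .z, (B (K (.ofNat 1659816)) (K (.ofNat 1303044)) N N)⟩,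
  ⟨.x, T0, (K (.ofNat 1173384))⟩,
  ⟨.x, T1, (K (.negSucc 4134851))⟩] (.node [⟨.x, .z, (K (.ofNat 6287652))⟩] .nil .nil .nil .nil .nil .nil) (.node [⟨.x, .z, (K (.ofNat 2545932))⟩] .nil .nil .nil .nil .nil .nil) .nil .nil .nil .nil) .nil .nil .nil .nil) .nil .nil)

def c_02 : Cert := (.node [⟨.x, .z, (B (B (B (K (.negSucc 4820147)) (K (.ofNat 1240848)) N N) (B (K (.negSucc 1257467)) (K (.ofNat 6694344)) N N) N N) (B (B (K (.ofNat 50762040)) (K (.ofNat 33065616)) N N) (B (K (.ofNat 60591804)) (K (.ofNat 1631604)) N N) N N) N N)⟩,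
  ⟨.x, T0, (B (B (K (.negSucc 52242443)) (K (.negSucc 36011207)) N N) (B (K (.negSucc 60214811)) (K (.negSucc 5032499)) N N) N N)⟩,
  ⟨.x, T1, (B (B (K (.ofNat 5017860)) (K (.negSucc 792575)) N N) (B (K (.ofNat 5186064)) (K (.negSucc 5819075)) N N) N N)⟩,
  ⟨.x, T4, (B N N (K (.ofNat 233526)) (K (.negSucc 174905)))⟩,
  ⟨.x, T5, (A1 (K (.ofNat 287736)))⟩,
  ⟨.x, T6, (B N N (K (.ofNat 3602154)) (K (.negSucc 201845)))⟩,
  ⟨.x, T7, (B (K (.ofNat 8787744)) (K (.negSucc 1150871)) N N)⟩,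
  ⟨.x, T8, (B (K (.ofNat 4651944)) (K (.negSucc 1614431)) N N)⟩,
  ⟨.x, T10, (A1 (K (.negSucc 140579)))⟩,
  ⟨.x, T13, (K (.negSucc 22823))⟩,
  ⟨.x, T15, (K (.negSucc 3090047))⟩,
  ⟨.x, T16, (K (.negSucc 3777899))⟩,
  ⟨.x, T18, (K (.ofNat 365916))⟩,
  ⟨.x, T20, (K (.ofNat 27624))⟩,
  ⟨.x, T21, (K (.negSucc 225335))⟩] (.node [⟨.x, .z, (B (B (K (.negSucc 4775207)) (K (.negSucc 2871167)) N N) (B (K (.negSucc 590987)) (K (.ofNat 452988)) N N) N N)⟩,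
  ⟨.x, T0, (B (K (.negSucc 3510287)) (K (.ofNat 4228416)) N N)⟩,
  ⟨.x, T1, (B (K (.ofNat 152772)) (K (.ofNat 3859056)) N N)⟩,
  ⟨.x, T5, (K (.negSucc 252503))⟩,
  ⟨.x, T7, (K (.ofNat 4075452))⟩,
  ⟨.x, T8, (K (.ofNat 4160352))⟩] (.node [⟨.x, .z, (B (K (.negSucc 78755)) (K (.ofNat 614364)) N N)⟩,
  ⟨.x, T0, (K (.negSucc 616019))⟩,
  ⟨.x, T1, (K (.ofNat 321408))⟩] (.node [⟨.x, .z, (K (.negSucc 123695))⟩] .nil .nil .nil .nil .nil .nil) (.node [⟨.x, .z, (K (.negSucc 4184531))⟩] .nil .nil .nil .nil .nil .nil) .nil .nil .nil .nil) (.node [⟨.x, .z, (B (K (.ofNat 3874296)) (K (.ofNat 12010644)) N N)⟩,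
  ⟨.x, T0, (K (.negSucc 7880051))⟩,
  ⟨.x, T1, (K (.negSucc 196331))⟩] (.node [⟨.x, .z, (K (.negSucc 671111))⟩] .nil .nil .nil .nil .nil .nil) (.node [⟨.x, .z, (K (.negSucc 1071767))⟩] .nil .nil .nil .nil .nil .nil) .nil .nil .nil .nil) .nil .nil .nil .nil) (.node [⟨.x, .z, (B (B (K (.negSucc 51296867)) (K (.negSucc 28907915)) N N) (B (K (.negSucc 74147423)) (K (.negSucc 2102651)) N N) N N)⟩,
  ⟨.x, T0, (B (K (.ofNat 15956400)) (K (.negSucc 2441471)) N N)⟩,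
  ⟨.x, T1, (B (K (.ofNat 1047660)) (K (.negSucc 3726287)) N N)⟩,
  ⟨.x, T5, (K (.negSucc 5882663))⟩,
  ⟨.x, T7, (K (.ofNat 881808))⟩,
  ⟨.x, T8, (K (.negSucc 2634683))⟩,
  ⟨.x, T10, (K (.ofNat 2231328))⟩] (.node [⟨.x, .z, (B (K (.negSucc 3276167)) (K (.ofNat 15630012)) N N)⟩,
  ⟨.x, T0, (K (.negSucc 7305419))⟩,
  ⟨.x, T1, (K (.ofNat 360804))⟩] (.node [⟨.x, .z, (K (.ofNat 981576))⟩] .nil .nil .nil .nil .nil .nil) (.node [⟨.x, .z, (K (.ofNat 5491728))⟩] .nil .nil .nil .nil .nil .nil) .nil .nil .nil .nil) (.node [⟨.x, .z, (B (K (.negSucc 9569831)) (K (.ofNat 17352204)) N N)⟩,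
  ⟨.x, T0, (K (.negSucc 7201079))⟩,
  ⟨.x, T1, (K (.negSucc 1814531))⟩] (.node [⟨.x, .z, (K (.ofNat 5722452))⟩] .nil .nil .nil .nil .nil .nil) (.node [⟨.x, .z, (K (.ofNat 8471712))⟩] .nil .nil .nil .nil .nil .nil) .nil .nil .nil .nil) .nil .nil .nil .nil) (.node [⟨.x, T4, (K (.ofNat 98856))⟩,
  ⟨.x, T6, (K (.negSucc 267059))⟩] .nil .nil .nil .nil .nil .nil) (.node [⟨.x, T4, (K (.negSucc 11858455))⟩,
  ⟨.x, T6, (K (.ofNat 17362832))⟩] .nil .nil .nil .nil .nil .nil) .nil .nil)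

def c_03 : Cert := (.node [⟨.x, .z, (B (B (B (K (.ofNat 229743424)) (K (.ofNat 182727392)) N N) (B (K (.ofNat 205248458)) (K (.negSucc 121956797)) N N) N N) (B (B (K (.ofNat 324287064)) (K (.ofNat 173399004)) N N) (B (K (.ofNat 113807820)) (K (.negSucc 404876483)) N N) N N) N N)⟩,
  ⟨.x, T0, (B (B (K (.negSucc 16707635)) (K (.negSucc 302405681)) N N) (B (K (.ofNat 40088244)) (K (.ofNat 39535656)) N N) N N)⟩,
  ⟨.x, T1, (B (B (K (.negSucc 160412855)) (K (.negSucc 86295377)) N N) (B (K (.negSucc 249335057)) (K (.ofNat 5647854)) N N) N N)⟩,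
  ⟨.x, T4, (B N N (K (.negSucc 38425781)) (K (.ofNat 44732526)))⟩,
  ⟨.x, T5, (A1 (K (.ofNat 159142968)))⟩,
  ⟨.x, T6, (B N N (K (.ofNat 76533846)) (K (.negSucc 51845765)))⟩,
  ⟨.x, T7, (B (K (.negSucc 140972639)) (K (.negSucc 273770123)) N N)⟩,
  ⟨.x, T8, (B (K (.ofNat 43101894)) (K (.negSucc 98200001)) N N)⟩,
  ⟨.x, T10, (A1 (K (.ofNat 196062630)))⟩,
  ⟨.x, T13, (K (.negSucc 147673583))⟩,
  ⟨.x, T15, (K (.negSucc 899843))⟩,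
  ⟨.x, T16, (K (.ofNat 1732680))⟩,
  ⟨.x, T18, (K (.negSucc 87007073))⟩,
  ⟨.x, T20, (K (.ofNat 10027116))⟩,
  ⟨.x, T21, (K (.negSucc 99838979))⟩] (.node [⟨.x, .z, (B (B (K (.ofNat 253319040)) (K (.ofNat 51481152)) N N) (B (K (.ofNat 252262860)) (K (.negSucc 582594947)) N N) N N)⟩,
  ⟨.x, T0, (B (K (.negSucc 232249271)) (K (.ofNat 330473136)) N N)⟩,
  ⟨.x, T1, (B (K (.ofNat 94102860)) (K (.ofNat 37636140)) N N)⟩,
  ⟨.x, T5, (K (.negSucc 37851179))⟩,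
  ⟨.x, T7, (K (.negSucc 219767879))⟩,
  ⟨.x, T8, (K (.ofNat 37361088))⟩,
  ⟨.x, T10, (K (.ofNat 6551040))⟩] (.node [⟨.x, .z, (B (K (.negSucc 104446415)) (K (.negSucc 347899595)) N N)⟩,
  ⟨.x, T0, (K (.ofNat 144835632))⟩,
  ⟨.x, T1, (K (.ofNat 189973356))⟩] (.node [⟨.x, .z, (K (.negSucc 105952619))⟩] .nil .nil .nil .nil .nil .nil) (.node [⟨.x, .z, (K (.negSucc 40766075))⟩] .nil .nil .nil .nil .nil .nil) .nil .nil .nil .nil) (.node [⟨.x, .z, (B (K (.negSucc 12020237)) (K (.ofNat 138167028)) N N)⟩,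
  ⟨.x, T0, (K (.ofNat 39431136))⟩,
  ⟨.x, T1, (K (.negSucc 21972545))⟩] (.node [⟨.x, .z, (K (.negSucc 42563099))⟩] .nil .nil .nil .nil .nil .nil) (.node [⟨.x, .z, (K (.ofNat 62400996))⟩] .nil .nil .nil .nil .nil .nil) .nil .nil .nil .nil) .nil .nil .nil .nil) (.node [⟨.x, .z, (B (B (K (.ofNat 138737934)) (K (.negSucc 43409501)) N N) (B (K (.negSucc 49872563)) (K (.ofNat 25637976)) N N) N N)⟩,
  ⟨.x, T0, (B (K (.negSucc 145388963)) (K (.ofNat 108004824)) N N)⟩,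
  ⟨.x, T1, (B (K (.ofNat 94081758)) (K (.negSucc 278018753)) N N)⟩,
  ⟨.x, T5, (K (.ofNat 44336172))⟩,
  ⟨.x, T7, (K (.negSucc 196415435))⟩,
  ⟨.x, T8, (K (.negSucc 94175507))⟩,
  ⟨.x, T10, (K (.ofNat 17333472))⟩] (.node [⟨.x, .z, (B (K (.negSucc 60348965)) (K (.negSucc 41881595)) N N)⟩,
  ⟨.x, T0, (K (.ofNat 171409068))⟩,
  ⟨.x, T1, (K (.ofNat 71548830))⟩] (.node [⟨.x, .z, (K (.negSucc 16704743))⟩] .nil .nil .nil .nil .nil .nil) (.node [⟨.x, .z, (K (.ofNat 184419780))⟩] .nil .nil .nil .nil .nil .nil) .nil .nil .nil .nil) (.node [⟨.x, .z, (B (K (.negSucc 41349773)) (K (.ofNat 433252740)) N N)⟩,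
  ⟨.x, T0, (K (.negSucc 106714475))⟩,
  ⟨.x, T1, (K (.negSucc 27151193))⟩] (.node [⟨.x, .z, (K (.ofNat 187059864))⟩] .nil .nil .nil .nil .nil .nil) (.node [⟨.x, .z, (K (.ofNat 199081020))⟩] .nil .nil .nil .nil .nil .nil) .nil .nil .nil .nil) .nil .nil .nil .nil) (.node [⟨.x, T4, (K (.ofNat 56568818))⟩,
  ⟨.x, T6, (K (.ofNat 118310824))⟩] .nil .nil .nil .nil .nil .nil) (.node [⟨.x, T4, (K (.ofNat 83058354))⟩,
  ⟨.x, T6, (K (.ofNat 74263938))⟩] .nil .nil .nil .nil .nil .nil) .nil .nil)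

def c_0 : Cert := (.node [⟨.x, .z, (B (B (B (A2 (K (.ofNat 4069428))) N (A0 (K (.negSucc 213995))) N) N (B (B (K (.negSucc 54069623)) (K (.negSucc 44745695)) N N) (B (K (.negSucc 62168099)) (K (.negSucc 8779451)) N N) N N) N) (B (B (A2 (K (.negSucc 647279))) N (B (K (.ofNat 6454128)) (K (.negSucc 15936683)) N N) N) (B (A2 (K (.negSucc 9399023))) (B N N (K (.ofNat 3215280)) (K (.negSucc 820199))) (B (K (.negSucc 2997539)) (K (.ofNat 2365032)) N N) (B (K (.ofNat 1455984)) (K (.negSucc 2159615)) N N)) (B (B (K (.negSucc 83786975)) (K (.negSucc 81968123)) N N) (B (K (.negSucc 129411215)) (K (.negSucc 14196143)) N N) N N) (B (B (K (.negSucc 56928287)) (K (.negSucc 19584383)) N N) (B (K (.negSucc 52061927)) (K (.negSucc 1727423)) N N) N N)) (B (B (B (K (.ofNat 14572376)) (K (.negSucc 8054779)) N N) (B (K (.ofNat 20678872)) (K (.negSucc 13544411)) N N) N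 N) (B (B (K (.ofNat 101186064)) (K (.ofNat 66751584)) N N) (B (K (.ofNat 122221164)) (K (.ofNat 13502112)) N N) N N) N N) (B (B (B (K (.negSucc 21315571)) (K (.negSucc 19408347)) N N) (B (K (.negSucc 37770963)) (K (.negSucc 9075251)) N N) N N) (B (B (K (.negSucc 16543859)) (K (.ofNat 1683996)) N N) (B (K (.ofNat 273876)) (K (.ofNat 507828)) N N) N N) N N))⟩,
  ⟨.z, .z, (B (B (B (A0 (K (.ofNat 28863772))) (A1 (K (.negSucc 20686417))) N N) (B (B (K (.ofNat 82741556)) (K (.ofNat 64643502)) N N) (B (K (.ofNat 73831536)) (K (.negSucc 12731653)) N N) N N) N N) (B (B (B (K (.ofNat 59401006)) (K (.ofNat 38307514)) N N) (B (K (.ofNat 50936026)) (K (.negSucc 17387689)) N N) N N) (B (B (K (.ofNat 44228240)) (K (.ofNat 33900224)) N N) (B (K (.ofNat 46732064)) (K (.negSucc 277943)) N N) N N) N N) N N)⟩,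
  ⟨.x, T0, (B (B (A2 (K (.negSucc 7187))) N (B (K (.ofNat 996156)) (K (.ofNat 5845956)) N N) N) (B (A2 (K (.ofNat 6065112))) (B N N (K (.negSucc 2435783)) (K (.ofNat 5022096))) (B (K (.negSucc 5446343)) (K (.ofNat 695724)) N N) (B (K (.negSucc 5576243)) (K (.ofNat 5440896)) N N)) (B (B (K (.negSucc 5430047)) (K (.ofNat 2150556)) N N) (B (K (.ofNat 604056)) (K (.negSucc 2222603)) N N) N N) (B (B (K (.ofNat 51483468)) (K (.ofNat 33180060)) N N) (B (K (.ofNat 65028576)) (K (.ofNat 2098308)) N N) N N))⟩,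
  ⟨.x, T1, (B (B (A2 (K (.negSucc 3401579))) N (B (K (.negSucc 1127147)) (K (.ofNat 3973788)) N N) N) (B (A2 (K (.ofNat 4245504))) (B N N (K (.ofNat 7611204)) (K (.ofNat 3182064))) (B (K (.ofNat 3264444)) (K (.negSucc 7793903)) N N) (B (K (.negSucc 1971491)) (K (.ofNat 3368952)) N N)) (B (B (K (.ofNat 59517660)) (K (.ofNat 39806400)) N N) (B (K (.ofNat 66553488)) (K (.ofNat 1408716)) N N) N N) (B (B (K (.ofNat 482388)) (K (.negSucc 3756491)) N N) (A0 (K (.negSucc 3917411))) N N))⟩,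
  ⟨.x, T2, (B (B (B (K (.ofNat 18488216)) (K (.ofNat 23325772)) N N) (B (K (.ofNat 25265068)) (K (.ofNat 7225788)) N N) N N) (B (B (K (.negSucc 1525559)) (K (.ofNat 8560044)) N N) (B (K (.ofNat 2326128)) (K (.negSucc 157043)) N N) N N) N N)⟩,
  ⟨.z, T0, (A0 (B (B (K (.ofNat 35550424)) (K (.ofNat 14119004)) N N) (B (K (.ofNat 35504888)) (K (.negSucc 8530835)) N N) N N))⟩,
  ⟨.x, T4, (B N N (A2 (K (.ofNat 207984))) (B N N (K (.ofNat 11052)) (K (.negSucc 139163))))⟩,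
  ⟨.x, T5, (B N (A3 (K (.negSucc 893603))) N (A1 (K (.negSucc 26279))))⟩,
  ⟨.x, T6, (B N N (A2 (K (.negSucc 172151))) (B N N (K (.negSucc 3543533)) (K (.ofNat 1286262))))⟩,
  ⟨.x, T7, (B (A2 (K (.negSucc 335051))) (B N N (K (.negSucc 1983695)) (K (.ofNat 1252224))) (B (K (.ofNat 2041656)) (K (.ofNat 4065432)) N N) (B (K (.negSucc 3576071)) (K (.ofNat 3593076)) N N))⟩,
  ⟨.x, T8, (B (A2 (K (.ofNat 983592))) (B N N (K (.negSucc 78971)) (K (.ofNat 54372))) (B (K (.ofNat 396972)) (K (.ofNat 401472)) N N) (B (K (.negSucc 2366807)) (K (.ofNat 3837624)) N N))⟩,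
  ⟨.x, T9, (A0 (B (K (.ofNat 2199276)) (K (.negSucc 5973359)) N N))⟩,
  ⟨.x, T10, (B N (B N N (K (.negSucc 328439)) (K (.negSucc 598067))) N (A1 (K (.ofNat 249480))))⟩,
  ⟨.x, T11, (A1 (B (K (.negSucc 1059407)) (K (.ofNat 986628)) N N))⟩,
  ⟨.x, T13, (A3 (K (.ofNat 798720)))⟩,
  ⟨.x, T15, (B N N (K (.negSucc 1077347)) (K (.ofNat 2558340)))⟩,
  ⟨.x, T16, (B N N (K (.negSucc 1050827)) (K (.ofNat 3324000)))⟩,
  ⟨.x, T17, (A0 (K (.negSucc 3230771)))⟩,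
  ⟨.x, T18, (A2 (K (.ofNat 345720)))⟩,
  ⟨.x, T19, (A0 (K (.negSucc 272567)))⟩,
  ⟨.x, T20, (A3 (K (.negSucc 22919)))⟩,
  ⟨.x, T32, (A1 (K (.negSucc 170087)))⟩,
  ⟨.x, T21, (A3 (K (.ofNat 488964)))⟩,
  ⟨.x, T22, (B (K (.ofNat 31860)) (K (.negSucc 203399)) N N)⟩,
  ⟨.x, T23, (A1 (K (.negSucc 486815)))⟩,
  ⟨.z, T15, (A0 (K (.negSucc 544787)))⟩,
  ⟨.x, T33, (K (.ofNat 640152))⟩,
  ⟨.x, T29, (K (.ofNat 870696))⟩,
  ⟨.x, T34, (K (.negSucc 53027))⟩,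
  ⟨.x, T35, (K (.negSucc 524879))⟩,
  ⟨.x, T37, (K (.ofNat 213840))⟩,
  ⟨.x, T28, (K (.ofNat 198972))⟩,
  ⟨.x, T38, (K (.ofNat 345816))⟩,
  ⟨.z, T24, (K (.negSucc 241307))⟩,
  ⟨.z, T25, (K (.negSucc 391895))⟩] c_00 c_01 c_02 c_03 .nil .nil)

def c_100 : Cert := (.node [⟨.x, .z, (B (A2 (K (.negSucc 13061207))) (B N N (K (.negSucc 24177179)) (K (.negSucc 9492611))) (B (K (.negSucc 50558847)) (K (.ofNat 21867492)) N N) (B (K (.negSucc 29901787)) (K (.ofNat 438576)) N N))⟩,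
  ⟨.z, .z, (B (B (K (.negSucc 17551051)) (K (.ofNat 11119878)) N N) (B (K (.ofNat 26652032)) (K (.ofNat 5768328)) N N) N N)⟩,
  ⟨.x, T0, (B N N (K (.ofNat 3161292)) (K (.ofNat 6597792)))⟩,
  ⟨.x, T1, (B N N (K (.ofNat 7134816)) (K (.ofNat 938052)))⟩,
  ⟨.x, T2, (B (K (.ofNat 31744424)) (K (.ofNat 4178340)) N N)⟩,
  ⟨.z, T0, (A0 (K (.negSucc 21075451)))⟩,
  ⟨.x, T9, (K (.negSucc 2554139))⟩,
  ⟨.x, T11, (K (.ofNat 2315808))⟩] (.node [⟨.x, .z, (B N N (K (.negSucc 6908011)) (K (.negSucc 1970295)))⟩,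
  ⟨.z, .z, (B (K (.negSucc 6180195)) (K (.ofNat 1227574)) N N)⟩,
  ⟨.x, T2, (K (.ofNat 3522460))⟩,
  ⟨.z, T0, (K (.negSucc 3470127))⟩] (.node [⟨.z, .z, (K (.negSucc 1727963))⟩] .nil .nil .nil .nil .nil .nil) (.node [⟨.z, .z, (K (.ofNat 3711754))⟩] .nil .nil .nil .nil .nil .nil) (.node [⟨.x, .z, (K (.ofNat 25872))⟩] .nil .nil .nil .nil .nil .nil) (.node [⟨.x, .z, (K (.negSucc 3240687))⟩] .nil .nil .nil .nil .nil .nil) .nil .nil) (.node [⟨.x, .z, (B N N (K (.ofNat 1329422)) (K (.negSucc 7265851)))⟩,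
  ⟨.z, .z, (B (K (.ofNat 14373735)) (K (.negSucc 4246728)) N N)⟩,
  ⟨.x, T2, (K (.negSucc 191277))⟩,
  ⟨.z, T0, (K (.ofNat 1032592))⟩] (.node [⟨.z, .z, (K (.ofNat 5290983))⟩] .nil .nil .nil .nil .nil .nil) (.node [⟨.z, .z, (K (.ofNat 1783253))⟩] .nil .nil .nil .nil .nil .nil) (.node [⟨.x, .z, (K (.ofNat 14287488))⟩] .nil .nil .nil .nil .nil .nil) (.node [⟨.x, .z, (K (.ofNat 1287544))⟩] .nil .nil .nil .nil .nil .nil) .nil .nil) (.node [⟨.x, .z, (B (K (.negSucc 4782527)) (K (.ofNat 3187056)) N N)⟩,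
  ⟨.x, T0, (K (.negSucc 7516547))⟩,
  ⟨.x, T1, (K (.negSucc 414923))⟩] (.node [⟨.x, .z, (K (.ofNat 137472))⟩] .nil .nil .nil .nil .nil .nil) (.node [⟨.x, .z, (K (.negSucc 11837747))⟩] .nil .nil .nil .nil .nil .nil) .nil .nil .nil .nil) (.node [⟨.x, .z, (B (K (.negSucc 10765327)) (K (.ofNat 21307032)) N N)⟩,
  ⟨.x, T0, (K (.negSucc 1049735))⟩,
  ⟨.x, T1, (K (.negSucc 19996007))⟩] (.node [⟨.x, .z, (K (.ofNat 18611484))⟩] .nil .nil .nil .nil .nil .nil) (.node [⟨.x, .z, (K (.ofNat 9004932))⟩] .nil .nil .nil .nil .nil .nil) .nil .nil .nil .nil) .nil .nil)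

def c_101 : Cert := (.node [⟨.x, .z, (B (A2 (K (.ofNat 12497340))) (B N N (K (.ofNat 32117568)) (K (.ofNat 11438904))) (B (K (.negSucc 25236943)) (K (.negSucc 12081095)) N N) (B (K (.negSucc 19278375)) (K (.ofNat 8001180)) N N))⟩,
  ⟨.z, .z, (B (B (K (.negSucc 27167265)) (K (.negSucc 22566409)) N N) (B (K (.negSucc 27220135)) (K (.negSucc 935567)) N N) N N)⟩,
  ⟨.x, T0, (B N N (K (.negSucc 4570343)) (K (.negSucc 18137459)))⟩,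
  ⟨.x, T1, (B N N (K (.negSucc 12132083)) (K (.negSucc 2111231)))⟩,
  ⟨.x, T2, (B (K (.ofNat 37205272)) (K (.negSucc 17397863)) N N)⟩,
  ⟨.z, T0, (A0 (K (.ofNat 16705448)))⟩,
  ⟨.x, T9, (K (.ofNat 4857936))⟩,
  ⟨.x, T11, (K (.ofNat 3203604))⟩] (.node [⟨.x, .z, (B N N (K (.ofNat 9837544)) (K (.ofNat 3020396)))⟩,
  ⟨.z, .z, (B (K (.negSucc 7782921)) (K (.ofNat 1053040)) N N)⟩,
  ⟨.x, T2, (K (.negSucc 7703683))⟩,
  ⟨.z, T0, (K (.ofNat 1868036))⟩] (.node [⟨.z, .z, (K (.ofNat 2322054))⟩] .nil .nil .nil .nil .nil .nil) (.node [⟨.z, .z, (K (.negSucc 5013451))⟩] .nil .nil .nil .nil .nil .nil) (.node [⟨.x, .z, (K (.ofNat 1630164))⟩] .nil .nil .nil .nil .nil .nil) (.node [⟨.x, .z, (K (.ofNat 18673748))⟩] .nil .nil .nil .nil .nil .nil) .nil .nil) (.node [⟨.x, .z, (B N N (K (.ofNat 4870350)) (K (.ofNat 6463488)))⟩,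
  ⟨.z, .z, (B (K (.negSucc 31740832)) (K (.ofNat 9468315)) N N)⟩,
  ⟨.x, T2, (K (.negSucc 13707617))⟩,
  ⟨.z, T0, (K (.negSucc 8623379))⟩] (.node [⟨.z, .z, (K (.ofNat 364503))⟩] .nil .nil .nil .nil .nil .nil) (.node [⟨.z, .z, (K (.ofNat 4666599))⟩] .nil .nil .nil .nil .nil .nil) (.node [⟨.x, .z, (K (.negSucc 18674975))⟩] .nil .nil .nil .nil .nil .nil) (.node [⟨.x, .z, (K (.ofNat 14573472))⟩] .nil .nil .nil .nil .nil .nil) .nil .nil) (.node [⟨.x, .z, (B (K (.ofNat 38273040)) (K (.negSucc 26566643)) N N)⟩,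
  ⟨.x, T0, (K (.ofNat 18933336))⟩,
  ⟨.x, T1, (K (.ofNat 8309316))⟩] (.node [⟨.x, .z, (K (.negSucc 18914315))⟩] .nil .nil .nil .nil .nil .nil) (.node [⟨.x, .z, (K (.ofNat 8967516))⟩] .nil .nil .nil .nil .nil .nil) .nil .nil .nil .nil) (.node [⟨.x, .z, (B (K (.negSucc 43934991)) (K (.ofNat 12112920)) N N)⟩,
  ⟨.x, T0, (K (.negSucc 4571819))⟩,
  ⟨.x, T1, (K (.ofNat 4868928))⟩] (.node [⟨.x, .z, (K (.negSucc 17575079))⟩] .nil .nil .nil .nil .nil .nil) (.node [⟨.x, .z, (K (.ofNat 2932920))⟩] .nil .nil .nil .nil .nil .nil) .nil .nil .nil .nil) .nil .nil)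

def c_10 : Cert := (.node [⟨.x, .z, (B (B (A2 (K (.negSucc 4532291))) N (B (K (.negSucc 65005967)) (K (.negSucc 193967)) N N) N) (B (A2 (K (.negSucc 8641511))) (B N N (K (.negSucc 1017743)) (K (.negSucc 3181475))) (B (K (.negSucc 128563019)) (K (.ofNat 20436120)) N N) (B (K (.negSucc 57565643)) (K (.ofNat 5310096)) N N)) (B (B (K (.ofNat 14866008)) (K (.ofNat 19071412)) N N) (B (K (.ofNat 124555452)) (K (.negSucc 16317551)) N N) N N) (B (B (K (.negSucc 10812131)) (K (.ofNat 22744700)) N N) (B (K (.ofNat 11718564)) (K (.negSucc 822887)) N N) N N))⟩,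
  ⟨.z, .z, (B (B (B (K (.ofNat 36469740)) (K (.ofNat 12656192)) N N) (B (K (.ofNat 63523530)) (K (.negSucc 3801653)) N N) N N) (B (B (K (.ofNat 19928484)) (K (.negSucc 11043259)) N N) (B (K (.ofNat 1772334)) (K (.negSucc 1986359)) N N) N N) N N)⟩,
  ⟨.x, T0, (B (A2 (K (.ofNat 1828620))) (B N N (K (.ofNat 5884308)) (K (.ofNat 9511116))) (B (K (.negSucc 9219647)) (K (.negSucc 9043727)) N N) (B (K (.ofNat 65403240)) (K (.negSucc 923471)) N N))⟩,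
  ⟨.x, T1, (B (A2 (K (.ofNat 4633992))) (B N N (K (.ofNat 3548112)) (K (.ofNat 6677544))) (B (K (.ofNat 72014208)) (K (.negSucc 7114667)) N N) (B (K (.ofNat 1974216)) (K (.negSucc 492911)) N N))⟩,
  ⟨.x, T2, (B (B (K (.ofNat 18051252)) (K (.negSucc 20921635)) N N) (B (K (.negSucc 9676811)) (K (.negSucc 2453159)) N N) N N)⟩,
  ⟨.z, T0, (A0 (B (K (.ofNat 43176324)) (K (.ofNat 10592120)) N N))⟩,
  ⟨.x, T5, (A3 (K (.negSucc 1615991)))⟩,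
  ⟨.x, T7, (B N N (K (.negSucc 1368827)) (K (.ofNat 4053420)))⟩,
  ⟨.x, T8, (B N N (K (.ofNat 221964)) (K (.ofNat 8288472)))⟩,
  ⟨.x, T9, (A0 (K (.ofNat 9645960)))⟩,
  ⟨.x, T10, (A3 (K (.negSucc 1852727)))⟩,
  ⟨.x, T11, (A1 (K (.negSucc 2222111)))⟩,
  ⟨.x, T17, (K (.ofNat 1362996))⟩,
  ⟨.x, T19, (K (.negSucc 683327))⟩,
  ⟨.x, T32, (K (.ofNat 484392))⟩,
  ⟨.x, T22, (K (.ofNat 476424))⟩,
  ⟨.x, T23, (K (.ofNat 105708))⟩,
  ⟨.z, T15, (K (.negSucc 54035))⟩] c_100 c_101 (.node [⟨.x, .z, (B (B (K (.ofNat 1636176)) (K (.ofNat 5150328)) N N) (B (K (.ofNat 70658124)) (K (.negSucc 5048951)) N N) N N)⟩,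
  ⟨.x, T0, (B (K (.negSucc 64286231)) (K (.ofNat 7901676)) N N)⟩,
  ⟨.x, T1, (B (K (.negSucc 10913315)) (K (.negSucc 12748739)) N N)⟩,
  ⟨.x, T5, (K (.negSucc 738947))⟩,
  ⟨.x, T7, (K (.negSucc 4175687))⟩,
  ⟨.x, T8, (K (.negSucc 10363751))⟩,
  ⟨.x, T10, (K (.negSucc 2567147))⟩] (.node [⟨.x, .z, (B (K (.ofNat 6816240)) (K (.negSucc 2470103)) N N)⟩,
  ⟨.x, T0, (K (.negSucc 1654931))⟩,
  ⟨.x, T1, (K (.ofNat 1785732))⟩] (.node [⟨.x, .z, (K (.ofNat 708840))⟩] .nil .nil .nil .nil .nil .nil) (.node [⟨.x, .z, (K (.ofNat 2475708))⟩] .nil .nil .nil .nil .nil .nil) .nil .nil .nil .nil) (.node [⟨.x, .z, (B (K (.negSucc 53825087)) (K (.ofNat 21669108)) N N)⟩,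
  ⟨.x, T0, (K (.negSucc 6933587))⟩,
  ⟨.x, T1, (K (.negSucc 2716583))⟩] (.node [⟨.x, .z, (K (.ofNat 16810620))⟩] .nil .nil .nil .nil .nil .nil) (.node [⟨.x, .z, (K (.ofNat 17272464))⟩] .nil .nil .nil .nil .nil .nil) .nil .nil .nil .nil) .nil .nil .nil .nil) (.node [⟨.x, .z, (B (B (K (.ofNat 44494260)) (K (.ofNat 26548676)) N N) (B (K (.ofNat 68598756)) (K (.ofNat 14791728)) N N) N N)⟩,
  ⟨.x, T0, (B (K (.negSucc 16639079)) (K (.negSucc 7694711)) N N)⟩,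
  ⟨.x, T1, (B (K (.negSucc 58783295)) (K (.ofNat 2342700)) N N)⟩,
  ⟨.x, T5, (K (.ofNat 2216988))⟩,
  ⟨.x, T7, (K (.negSucc 2177519))⟩,
  ⟨.x, T8, (K (.ofNat 1869420))⟩,
  ⟨.x, T10, (K (.ofNat 4039692))⟩] (.node [⟨.x, .z, (B (K (.ofNat 51658776)) (K (.negSucc 17146319)) N N)⟩,
  ⟨.x, T0, (K (.ofNat 9309132))⟩,
  ⟨.x, T1, (K (.ofNat 8504112))⟩] (.node [⟨.x, .z, (K (.negSucc 10699871))⟩] .nil .nil .nil .nil .nil .nil) (.node [⟨.x, .z, (K (.negSucc 5824055))⟩] .nil .nil .nil .nil .nil .nil) .nil .nil .nil .nil) (.node [⟨.x, .z, (B (K (.ofNat 7580556)) (K (.ofNat 16375656)) N N)⟩,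
  ⟨.x, T0, (K (.ofNat 69084))⟩,
  ⟨.x, T1, (K (.negSucc 11326763))⟩] (.node [⟨.x, .z, (K (.ofNat 8903040))⟩] .nil .nil .nil .nil .nil .nil) (.node [⟨.x, .z, (K (.ofNat 1806756))⟩] .nil .nil .nil .nil .nil .nil) .nil .nil .nil .nil) .nil .nil .nil .nil) .nil .nil)

def c_110 : Cert := (.node [⟨.x, .z, (B (A2 (K (.ofNat 28193580))) (B N N (K (.ofNat 60857664)) (K (.ofNat 33469776))) (B (K (.ofNat 46365288)) (K (.negSucc 45496295)) N N) (B (K (.ofNat 47978256)) (K (.ofNat 6474408)) N N))⟩,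
  ⟨.z, .z, (B (B (K (.ofNat 10880736)) (K (.negSucc 32586737)) N N) (B (K (.negSucc 42350933)) (K (.negSucc 3245441)) N N) N N)⟩,
  ⟨.x, T0, (B N N (K (.negSucc 3117971)) (K (.negSucc 34865987)))⟩,
  ⟨.x, T1, (B N N (K (.negSucc 31183403)) (K (.negSucc 1551755)))⟩,
  ⟨.x, T2, (B (K (.negSucc 36924923)) (K (.negSucc 13235831)) N N)⟩,
  ⟨.z, T0, (A0 (K (.ofNat 12040080)))⟩,
  ⟨.x, T9, (K (.ofNat 3029856))⟩,
  ⟨.x, T11, (K (.ofNat 4104168))⟩] (.node [⟨.x, .z, (B N N (K (.ofNat 17731144)) (K (.ofNat 11180360)))⟩,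
  ⟨.z, .z, (B (K (.ofNat 1868792)) (K (.negSucc 5182381)) N N)⟩,
  ⟨.x, T2, (K (.negSucc 8299807))⟩,
  ⟨.z, T0, (K (.ofNat 9277028))⟩] (.node [⟨.z, .z, (K (.negSucc 2514353))⟩] .nil .nil .nil .nil .nil .nil) (.node [⟨.z, .z, (K (.negSucc 12705253))⟩] .nil .nil .nil .nil .nil .nil) (.node [⟨.x, .z, (K (.negSucc 597431))⟩] .nil .nil .nil .nil .nil .nil) (.node [⟨.x, .z, (K (.ofNat 7996808))⟩] .nil .nil .nil .nil .nil .nil) .nil .nil) (.node [⟨.x, .z, (B N N (K (.ofNat 10599214)) (K (.ofNat 22754336)))⟩,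
  ⟨.z, .z, (B (K (.negSucc 27654792)) (K (.ofNat 9146347)) N N)⟩,
  ⟨.x, T2, (K (.negSucc 22959157))⟩,
  ⟨.z, T0, (K (.negSucc 11458239))⟩] (.node [⟨.z, .z, (K (.ofNat 220533))⟩] .nil .nil .nil .nil .nil .nil) (.node [⟨.z, .z, (K (.ofNat 11533177))⟩] .nil .nil .nil .nil .nil .nil) (.node [⟨.x, .z, (K (.negSucc 40720883))⟩] .nil .nil .nil .nil .nil .nil) (.node [⟨.x, .z, (K (.ofNat 20222444))⟩] .nil .nil .nil .nil .nil .nil) .nil .nil) (.node [⟨.x, .z, (B (K (.negSucc 4304411)) (K (.negSucc 22034243)) N N)⟩,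
  ⟨.x, T0, (K (.ofNat 27559200))⟩,
  ⟨.x, T1, (K (.negSucc 3542927))⟩] (.node [⟨.x, .z, (K (.ofNat 2161812))⟩] .nil .nil .nil .nil .nil .nil) (.node [⟨.x, .z, (K (.ofNat 29915352))⟩] .nil .nil .nil .nil .nil .nil) .nil .nil .nil .nil) (.node [⟨.x, .z, (B (K (.ofNat 3300432)) (K (.negSucc 12157091)) N N)⟩,
  ⟨.x, T0, (K (.ofNat 4148964))⟩,
  ⟨.x, T1, (K (.ofNat 27065664))⟩] (.node [⟨.x, .z, (K (.negSucc 33696215))⟩] .nil .nil .nil .nil .nil .nil) (.node [⟨.x, .z, (K (.ofNat 2892096))⟩] .nil .nil .nil .nil .nil .nil) .nil .nil .nil .nil) .nil .nil)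

def c_111 : Cert := (.node [⟨.x, .z, (B (A2 (K (.negSucc 3136595))) (B N N (K (.negSucc 129683)) (K (.negSucc 2024999))) (B (K (.ofNat 15205068)) (K (.negSucc 246623)) N N) (B (K (.ofNat 52114920)) (K (.negSucc 11426555)) N N))⟩,
  ⟨.z, .z, (B (B (K (.ofNat 19859944)) (K (.ofNat 6316056)) N N) (B (K (.ofNat 25889376)) (K (.negSucc 2231705)) N N) N N)⟩,
  ⟨.x, T0, (B N N (K (.negSucc 6569687)) (K (.negSucc 4313459)))⟩,
  ⟨.x, T1, (B N N (K (.ofNat 3048732)) (K (.ofNat 1657668)))⟩,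
  ⟨.x, T2, (B (K (.negSucc 42021995)) (K (.ofNat 1513908)) N N)⟩,
  ⟨.z, T0, (A0 (K (.negSucc 20547647)))⟩,
  ⟨.x, T9, (K (.ofNat 6414432))⟩,
  ⟨.x, T11, (K (.ofNat 6625872))⟩] (.node [⟨.x, .z, (B N N (K (.negSucc 4389043)) (K (.negSucc 952767)))⟩,
  ⟨.z, .z, (B (K (.negSucc 6136407)) (K (.ofNat 3504016)) N N)⟩,
  ⟨.x, T2, (K (.ofNat 1488880))⟩,
  ⟨.z, T0, (K (.negSucc 2128491))⟩] (.node [⟨.z, .z, (K (.negSucc 1258127))⟩] .nil .nil .nil .nil .nil .nil) (.node [⟨.z, .z, (K (.negSucc 2598127))⟩] .nil .nil .nil .nil .nil .nil) (.node [⟨.x, .z, (K (.negSucc 8836259))⟩] .nil .nil .nil .nil .nil .nil) (.node [⟨.x, .z, (K (.negSucc 2535615))⟩] .nil .nil .nil .nil .nil .nil) .nil .nil) (.node [⟨.x, .z, (B N N (K (.negSucc 3095439)) (K (.negSucc 691639)))⟩,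
  ⟨.z, .z, (B (K (.ofNat 17499622)) (K (.ofNat 296972)) N N)⟩,
  ⟨.x, T2, (K (.negSucc 804675))⟩,
  ⟨.z, T0, (K (.negSucc 3354907))⟩] (.node [⟨.z, .z, (K (.negSucc 3150545))⟩] .nil .nil .nil .nil .nil .nil) (.node [⟨.z, .z, (K (.negSucc 2308971))⟩] .nil .nil .nil .nil .nil .nil) (.node [⟨.x, .z, (K (.negSucc 11512211))⟩] .nil .nil .nil .nil .nil .nil) (.node [⟨.x, .z, (K (.ofNat 804676))⟩] .nil .nil .nil .nil .nil .nil) .nil .nil) (.node [⟨.x, .z, (B (K (.negSucc 63566651)) (K (.ofNat 34203876)) N N)⟩,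
  ⟨.x, T0, (K (.negSucc 12218339))⟩,
  ⟨.x, T1, (K (.negSucc 2826923))⟩] (.node [⟨.x, .z, (K (.negSucc 1230383))⟩] .nil .nil .nil .nil .nil .nil) (.node [⟨.x, .z, (K (.ofNat 4341756))⟩] .nil .nil .nil .nil .nil .nil) .nil .nil .nil .nil) (.node [⟨.x, .z, (B (K (.ofNat 47004552)) (K (.ofNat 3677256)) N N)⟩,
  ⟨.x, T0, (K (.negSucc 6414431))⟩,
  ⟨.x, T1, (K (.negSucc 4982555))⟩] (.node [⟨.x, .z, (K (.ofNat 2627268))⟩] .nil .nil .nil .nil .nil .nil) (.node [⟨.x, .z, (K (.ofNat 6625872))⟩] .nil .nil .nil .nil .nil .nil) .nil .nil .nil .nil) .nil .nil)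

def c_11 : Cert := (.node [⟨.x, .z, (B (B (A2 (K (.negSucc 3920555))) N (B (K (.ofNat 65887440)) (K (.negSucc 15706331)) N N) N) (B (A2 (K (.ofNat 3188316))) (B N N (K (.negSucc 349199)) (K (.ofNat 598032))) (B (K (.ofNat 132879024)) (K (.negSucc 36367907)) N N) (B (K (.ofNat 63722232)) (K (.negSucc 17273603)) N N)) (B (B (K (.ofNat 41017648)) (K (.ofNat 7712244)) N N) (B (K (.negSucc 65780195)) (K (.ofNat 22843404)) N N) N N) (B (B (K (.ofNat 80899316)) (K (.ofNat 9196260)) N N) (B (K (.ofNat 68698668)) (K (.negSucc 15931931)) N N) N N))⟩,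
  ⟨.z, .z, (B (B (B (K (.negSucc 5709967)) (K (.ofNat 12152586)) N N) (B (K (.negSucc 30329143)) (K (.ofNat 8005016)) N N) N N) (B (B (K (.negSucc 24752209)) (K (.ofNat 29708220)) N N) (B (K (.ofNat 1747992)) (K (.ofNat 4181664)) N N) N N) N N)⟩,
  ⟨.x, T0, (B (A2 (K (.ofNat 995928))) (B N N (K (.ofNat 10122744)) (K (.ofNat 6575304))) (B (K (.ofNat 260028)) (K (.negSucc 9966635)) N N) (B (K (.negSucc 54019343)) (K (.ofNat 17344104)) N N))⟩,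
  ⟨.x, T1, (B (A2 (K (.ofNat 2726004))) (B N N (K (.negSucc 965147)) (K (.negSucc 5239883))) (B (K (.negSucc 65599391)) (K (.ofNat 22466844)) N N) (B (K (.negSucc 1834571)) (K (.negSucc 368063)) N N))⟩,
  ⟨.x, T2, (B (B (K (.negSucc 81202111)) (K (.negSucc 11017319)) N N) (B (K (.negSucc 67091243)) (K (.ofNat 10850508)) N N) N N)⟩,
  ⟨.z, T0, (A0 (B (K (.negSucc 40886871)) (K (.negSucc 2712887)) N N))⟩,
  ⟨.x, T5, (A3 (K (.negSucc 2503835)))⟩,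
  ⟨.x, T7, (B N N (K (.ofNat 1013664)) (K (.ofNat 4761888)))⟩,
  ⟨.x, T8, (B N N (K (.negSucc 293507)) (K (.negSucc 993263)))⟩,
  ⟨.x, T9, (A0 (K (.negSucc 702407)))⟩,
  ⟨.x, T10, (A3 (K (.negSucc 3841775)))⟩,
  ⟨.x, T11, (A1 (K (.negSucc 2715839)))⟩,
  ⟨.x, T17, (K (.negSucc 442379))⟩,
  ⟨.x, T19, (K (.ofNat 331404))⟩,
  ⟨.x, T32, (K (.ofNat 84792))⟩,
  ⟨.x, T22, (K (.negSucc 179675))⟩,
  ⟨.x, T23, (K (.negSucc 208607))⟩,
  ⟨.z, T15, (K (.ofNat 510804))⟩] c_110 c_111 (.node [⟨.x, .z, (B (B (K (.negSucc 48657047)) (K (.negSucc 61485383)) N N) (B (K (.negSucc 119312471)) (K (.ofNat 10462476)) N N) N N)⟩,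
  ⟨.x, T0, (B (K (.ofNat 60310764)) (K (.negSucc 1004963)) N N)⟩,
  ⟨.x, T1, (B (K (.negSucc 15813323)) (K (.ofNat 1226520)) N N)⟩,
  ⟨.x, T5, (K (.ofNat 2504796))⟩,
  ⟨.x, T7, (K (.negSucc 381827))⟩,
  ⟨.x, T8, (K (.negSucc 4351355))⟩,
  ⟨.x, T10, (K (.negSucc 5359859))⟩] (.node [⟨.x, .z, (B (K (.ofNat 15896196)) (K (.negSucc 21351203)) N N)⟩,
  ⟨.x, T0, (K (.negSucc 1184963))⟩,
  ⟨.x, T1, (K (.ofNat 2595864))⟩] (.node [⟨.x, .z, (K (.ofNat 2781408))⟩] .nil .nil .nil .nil .nil .nil) (.node [⟨.x, .z, (K (.ofNat 4009092))⟩] .nil .nil .nil .nil .nil .nil) .nil .nil .nil .nil) (.node [⟨.x, .z, (B (K (.ofNat 63657456)) (K (.negSucc 32932979)) N N)⟩,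
  ⟨.x, T0, (K (.ofNat 2927424))⟩,
  ⟨.x, T1, (K (.ofNat 4691436))⟩] (.node [⟨.x, .z, (K (.ofNat 7745916))⟩] .nil .nil .nil .nil .nil .nil) (.node [⟨.x, .z, (K (.ofNat 9409428))⟩] .nil .nil .nil .nil .nil .nil) .nil .nil .nil .nil) .nil .nil .nil .nil) (.node [⟨.x, .z, (B (B (K (.ofNat 15784316)) (K (.ofNat 31351800)) N N) (B (K (.ofNat 1195476)) (K (.ofNat 8924124)) N N) N N)⟩,
  ⟨.x, T0, (B (K (.ofNat 1063620)) (K (.ofNat 91848)) N N)⟩,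
  ⟨.x, T1, (B (K (.ofNat 65325948)) (K (.negSucc 20426327)) N N)⟩,
  ⟨.x, T5, (K (.negSucc 269363))⟩,
  ⟨.x, T7, (K (.ofNat 711744))⟩,
  ⟨.x, T8, (K (.ofNat 481392))⟩,
  ⟨.x, T10, (K (.negSucc 91847))⟩] (.node [⟨.x, .z, (B (K (.negSucc 58343699)) (K (.ofNat 21200040)) N N)⟩,
  ⟨.x, T0, (K (.negSucc 7253915))⟩,
  ⟨.x, T1, (K (.negSucc 2492819))⟩] (.node [⟨.x, .z, (K (.ofNat 6439824))⟩] .nil .nil .nil .nil .nil .nil) (.node [⟨.x, .z, (K (.ofNat 7151844))⟩] .nil .nil .nil .nil .nil .nil) .nil .nil .nil .nil) (.node [⟨.x, .z, (B (K (.ofNat 3885588)) (K (.ofNat 688356)) N N)⟩,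
  ⟨.x, T0, (K (.negSucc 904643))⟩,
  ⟨.x, T1, (K (.negSucc 3520955))⟩] (.node [⟨.x, .z, (K (.ofNat 9598524))⟩] .nil .nil .nil .nil .nil .nil) (.node [⟨.x, .z, (K (.ofNat 23508))⟩] .nil .nil .nil .nil .nil .nil) .nil .nil .nil .nil) .nil .nil .nil .nil) .nil .nil)

def c_12 : Cert := (.node [⟨.x, .z, (B (B (B (K (.negSucc 230312327)) (K (.negSucc 169460867)) N N) (B (K (.negSucc 199804913)) (K (.ofNat 141426810)) N N) N N) (B (B (K (.negSucc 380034923)) (K (.negSucc 195920447)) N N) (B (K (.negSucc 169229291)) (K (.ofNat 413715288)) N N) N N) N N)⟩,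
  ⟨.x, T0, (B (B (K (.ofNat 64119108)) (K (.ofNat 337791090)) N N) (B (K (.ofNat 23929188)) (K (.negSucc 48489239)) N N) N N)⟩,
  ⟨.x, T1, (B (B (K (.ofNat 103067520)) (K (.ofNat 46761654)) N N) (B (K (.ofNat 184652310)) (K (.negSucc 7275737)) N N) N N)⟩,
  ⟨.x, T4, (B N N (K (.ofNat 39976458)) (K (.negSucc 44291351)))⟩,
  ⟨.x, T5, (A1 (K (.negSucc 157935911)))⟩,
  ⟨.x, T6, (B N N (K (.negSucc 77493209)) (K (.ofNat 51704604)))⟩,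
  ⟨.x, T7, (B (K (.ofNat 145556904)) (K (.ofNat 272927460)) N N)⟩,
  ⟨.x, T8, (B (K (.negSucc 36288581)) (K (.ofNat 94574370)) N N)⟩,
  ⟨.x, T10, (A1 (K (.negSucc 194702189)))⟩,
  ⟨.x, T13, (K (.ofNat 147782232))⟩,
  ⟨.x, T15, (K (.ofNat 2030556))⟩,
  ⟨.x, T16, (K (.ofNat 408444))⟩,
  ⟨.x, T18, (K (.ofNat 87438654))⟩,
  ⟨.x, T20, (K (.negSucc 9721259))⟩,
  ⟨.x, T21, (K (.ofNat 99719820))⟩] (.node [⟨.x, .z, (B (B (K (.negSucc 194810723)) (K (.negSucc 23777255)) N N) (B (K (.negSucc 172963259)) (K (.ofNat 573771852)) N N) N N)⟩,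
  ⟨.x, T0, (B (K (.ofNat 235083324)) (K (.negSucc 323595743)) N N)⟩,
  ⟨.x, T1, (B (K (.negSucc 95914283)) (K (.negSucc 37014167)) N N)⟩,
  ⟨.x, T5, (K (.ofNat 37522416))⟩,
  ⟨.x, T7, (K (.ofNat 220402848))⟩,
  ⟨.x, T8, (K (.negSucc 35122295))⟩,
  ⟨.x, T10, (K (.negSucc 12050315))⟩] (.node [⟨.x, .z, (B (K (.ofNat 104850900)) (K (.ofNat 349580640)) N N)⟩,
  ⟨.x, T0, (K (.negSucc 153468407))⟩,
  ⟨.x, T1, (K (.negSucc 188939027))⟩] (.node [⟨.x, .z, (K (.ofNat 110937108))⟩] .nil .nil .nil .nil .nil .nil) (.node [⟨.x, .z, (K (.ofNat 37988940))⟩] .nil .nil .nil .nil .nil .nil) .nil .nil .nil .nil) (.node [⟨.x, .z, (B (K (.ofNat 13087578)) (K (.negSucc 158170655)) N N)⟩,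
  ⟨.x, T0, (K (.negSucc 38254523))⟩,
  ⟨.x, T1, (K (.ofNat 27317094))⟩] (.node [⟨.x, .z, (K (.ofNat 37700184))⟩] .nil .nil .nil .nil .nil .nil) (.node [⟨.x, .z, (K (.negSucc 70074551))⟩] .nil .nil .nil .nil .nil .nil) .nil .nil .nil .nil) .nil .nil .nil .nil) (.node [⟨.x, .z, (B (B (K (.negSucc 73255625)) (K (.ofNat 101810358)) N N) (B (K (.ofNat 119427276)) (K (.negSucc 8185727)) N N) N N)⟩,
  ⟨.x, T0, (B (K (.ofNat 129201636)) (K (.negSucc 124926107)) N N)⟩,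
  ⟨.x, T1, (B (K (.negSucc 84987905)) (K (.ofNat 275008602)) N N)⟩,
  ⟨.x, T5, (K (.negSucc 41042687))⟩,
  ⟨.x, T7, (K (.ofNat 193329444))⟩,
  ⟨.x, T8, (K (.ofNat 97343004))⟩,
  ⟨.x, T10, (K (.negSucc 10036031))⟩] (.node [⟨.x, .z, (B (K (.ofNat 40239498)) (K (.ofNat 43331484)) N N)⟩,
  ⟨.x, T0, (K (.negSucc 159842075))⟩,
  ⟨.x, T1, (K (.negSucc 71194721))⟩] (.node [⟨.x, .z, (K (.ofNat 6312444))⟩] .nil .nil .nil .nil .nil .nil) (.node [⟨.x, .z, (K (.negSucc 189703727))⟩] .nil .nil .nil .nil .nil .nil) .nil .nil .nil .nil) (.node [⟨.x, .z, (B (K (.ofNat 36331542)) (K (.negSucc 419645867)) N N)⟩,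
  ⟨.x, T0, (K (.ofNat 112610544))⟩,
  ⟨.x, T1, (K (.ofNat 17642274))⟩] (.node [⟨.x, .z, (K (.negSucc 189613007))⟩] .nil .nil .nil .nil .nil .nil) (.node [⟨.x, .z, (K (.negSucc 199685591))⟩] .nil .nil .nil .nil .nil .nil) .nil .nil .nil .nil) .nil .nil .nil .nil) (.node [⟨.x, T4, (K (.negSucc 45728099))⟩,
  ⟨.x, T6, (K (.negSucc 130607117))⟩] .nil .nil .nil .nil .nil .nil) (.node [⟨.x, T4, (K (.negSucc 61950881))⟩,
  ⟨.x, T6, (K (.negSucc 163614709))⟩] .nil .nil .nil .nil .nil .nil) .nil .nil)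

def c_13 : Cert := (.node [⟨.x, .z, (B (B (B (K (.ofNat 6970192)) (K (.ofNat 471156)) N N) (B (K (.negSucc 1324677)) (K (.negSucc 7044589)) N N) N N) (B (B (K (.negSucc 7028663)) (K (.ofNat 7261836)) N N) (B (K (.negSucc 8791319)) (K (.ofNat 5653788)) N N) N N) N N)⟩,
  ⟨.x, T0, (B (B (K (.negSucc 269279)) (K (.negSucc 6616613)) N N) (B (K (.negSucc 304895)) (K (.negSucc 2666759)) N N) N N)⟩,
  ⟨.x, T1, (B (B (K (.ofNat 63359916)) (K (.ofNat 39552666)) N N) (B (K (.ofNat 76116174)) (K (.negSucc 4446401)) N N) N N)⟩,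
  ⟨.x, T4, (B N N (K (.ofNat 595116)) (K (.ofNat 939420)))⟩,
  ⟨.x, T5, (A1 (K (.ofNat 1408272)))⟩,
  ⟨.x, T6, (B N N (K (.negSucc 625979)) (K (.ofNat 1810380)))⟩,
  ⟨.x, T7, (B (K (.negSucc 592667)) (K (.negSucc 1030115)) N N)⟩,
  ⟨.x, T8, (B (K (.negSucc 153761)) (K (.ofNat 893718)) N N)⟩,
  ⟨.x, T10, (A1 (K (.ofNat 2690334)))⟩,
  ⟨.x, T13, (K (.negSucc 410543))⟩,
  ⟨.x, T15, (K (.ofNat 561060))⟩,
  ⟨.x, T16, (K (.ofNat 472608))⟩,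
  ⟨.x, T18, (K (.negSucc 369665))⟩,
  ⟨.x, T20, (K (.negSucc 215075))⟩,
  ⟨.x, T21, (K (.negSucc 183011))⟩] (.node [⟨.x, .z, (B (B (K (.negSucc 55809935)) (K (.negSucc 47735495)) N N) (B (K (.negSucc 54531047)) (K (.negSucc 5126927)) N N) N N)⟩,
  ⟨.x, T0, (B (K (.negSucc 7442699)) (K (.ofNat 9691476)) N N)⟩,
  ⟨.x, T1, (B (K (.negSucc 6479123)) (K (.ofNat 3366156)) N N)⟩,
  ⟨.x, T5, (K (.ofNat 4420668))⟩,
  ⟨.x, T7, (K (.ofNat 1194480))⟩,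
  ⟨.x, T8, (K (.negSucc 1965587))⟩,
  ⟨.x, T10, (K (.negSucc 1877687))⟩] (.node [⟨.x, .z, (B (K (.ofNat 5761044)) (K (.negSucc 13486811)) N N)⟩,
  ⟨.x, T0, (K (.ofNat 2710128))⟩,
  ⟨.x, T1, (K (.ofNat 1477992))⟩] (.node [⟨.x, .z, (K (.ofNat 7680))⟩] .nil .nil .nil .nil .nil .nil) (.node [⟨.x, .z, (K (.negSucc 450263))⟩] .nil .nil .nil .nil .nil .nil) .nil .nil .nil .nil) (.node [⟨.x, .z, (B (K (.negSucc 109757)) (K (.negSucc 14894603)) N N)⟩,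
  ⟨.x, T0, (K (.negSucc 602951))⟩,
  ⟨.x, T1, (K (.ofNat 6158910))⟩] (.node [⟨.x, .z, (K (.negSucc 2160947))⟩] .nil .nil .nil .nil .nil .nil) (.node [⟨.x, .z, (K (.ofNat 1336476))⟩] .nil .nil .nil .nil .nil .nil) .nil .nil .nil .nil) .nil .nil .nil .nil) (.node [⟨.x, .z, (B (B (K (.negSucc 3530225)) (K (.ofNat 6490722)) N N) (B (K (.negSucc 435635)) (K (.ofNat 130404)) N N) N N)⟩,
  ⟨.x, T0, (B (K (.negSucc 3649067)) (K (.ofNat 147156)) N N)⟩,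
  ⟨.x, T1, (B (K (.ofNat 5793678)) (K (.negSucc 5935985)) N N)⟩,
  ⟨.x, T5, (K (.ofNat 1328124))⟩,
  ⟨.x, T7, (K (.negSucc 1784867))⟩,
  ⟨.x, T8, (K (.ofNat 87888))⟩,
  ⟨.x, T10, (K (.ofNat 1649460))⟩] (.node [⟨.x, .z, (B (K (.negSucc 3610385)) (K (.negSucc 927347)) N N)⟩,
  ⟨.x, T0, (K (.ofNat 1706772))⟩,
  ⟨.x, T1, (K (.ofNat 2415966))⟩] (.node [⟨.x, .z, (K (.negSucc 970607))⟩] .nil .nil .nil .nil .nil .nil) (.node [⟨.x, .z, (K (.ofNat 2247312))⟩] .nil .nil .nil .nil .nil .nil) .nil .nil .nil .nil) (.node [⟨.x, .z, (B (K (.negSucc 842645)) (K (.ofNat 635052)) N N)⟩,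
  ⟨.x, T0, (K (.ofNat 875268))⟩,
  ⟨.x, T1, (K (.negSucc 317861))⟩] (.node [⟨.x, .z, (K (.ofNat 1034880))⟩] .nil .nil .nil .nil .nil .nil) (.node [⟨.x, .z, (K (.ofNat 964944))⟩] .nil .nil .nil .nil .nil .nil) .nil .nil .nil .nil) .nil .nil .nil .nil) (.node [⟨.x, T4, (K (.negSucc 18850841))⟩,
  ⟨.x, T6, (K (.ofNat 58308788))⟩] .nil .nil .nil .nil .nil .nil) (.node [⟨.x, T4, (K (.negSucc 146633))⟩,
  ⟨.x, T6, (K (.ofNat 199458))⟩] .nil .nil .nil .nil .nil .nil) .nil .nil)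

def c_1 : Cert := (.node [⟨.x, .z, (B (B (B (A2 (K (.ofNat 291840))) N (A0 (K (.ofNat 3456432))) N) N (B (B (K (.ofNat 63211500)) (K (.ofNat 32285844)) N N) (B (K (.ofNat 78989496)) (K (.negSucc 15590051)) N N) N N) N) (B (B (A2 (K (.negSucc 4797155))) N (B (K (.ofNat 9654048)) (K (.negSucc 12479819)) N N) N) (B (A2 (K (.negSucc 245627))) (B N N (K (.ofNat 1961316)) (K (.negSucc 1841723))) (B (K (.ofNat 5209692)) (K (.negSucc 2881919)) N N) (B (K (.negSucc 3660119)) (K (.negSucc 5130695)) N N)) (B (B (K (.ofNat 133951944)) (K (.ofNat 67846716)) N N) (B (K (.ofNat 123274824)) (K (.negSucc 13120595)) N N) N N) (B (B (K (.ofNat 59952900)) (K (.ofNat 48644280)) N N) (B (K (.ofNat 76604532)) (K (.negSucc 8330843)) N N) N N)) (B (B (B (K (.ofNat 34841948)) (K (.ofNat 15035364)) N N) (B (K (.ofNat 47903740)) (K (.negSucc 10517259)) N N) N N) (B (B (K (.negSucc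 61336931)) (K (.negSucc 36814019)) N N) (B (K (.negSucc 63825179)) (K (.ofNat 11494632)) N N) N N) N N) (B (B (B (K (.ofNat 67779652)) (K (.ofNat 41344032)) N N) (B (K (.ofNat 62945408)) (K (.negSucc 10868299)) N N) N N) (B (B (K (.ofNat 51345264)) (K (.ofNat 44206464)) N N) (B (K (.ofNat 73633224)) (K (.negSucc 3887267)) N N) N N) N N))⟩,
  ⟨.z, .z, (B (B (B (A0 (K (.negSucc 21871305))) (A1 (K (.ofNat 18376078))) N N) (B (B (K (.negSucc 71154613)) (K (.negSucc 52139375)) N N) (B (K (.negSucc 67075977)) (K (.ofNat 23820948)) N N) N N) N N) (B (B (B (K (.negSucc 83097539)) (K (.negSucc 38905709)) N N) (B (K (.negSucc 74880537)) (K (.ofNat 33092802)) N N) N N) (B (B (K (.negSucc 58612063)) (K (.negSucc 40528887)) N N) (B (K (.negSucc 63465061)) (K (.ofNat 1718832)) N N) N N) N N) N N)⟩,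
  ⟨.x, T0, (B (B (A2 (K (.negSucc 1337879))) N (B (K (.ofNat 1117548)) (K (.ofNat 443088)) N N) N) (B (A2 (K (.negSucc 142943))) (B N N (K (.ofNat 3192108)) (K (.ofNat 1948308))) (B (K (.negSucc 30131)) (K (.negSucc 1864067)) N N) (B (K (.negSucc 1352303)) (K (.ofNat 5192880)) N N)) (B (B (K (.ofNat 127920)) (K (.ofNat 740184)) N N) (B (K (.ofNat 4252356)) (K (.negSucc 2194619)) N N) N N) (B (B (K (.negSucc 55529807)) (K (.negSucc 43007387)) N N) (B (K (.negSucc 69968555)) (K (.ofNat 8676996)) N N) N N))⟩,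
  ⟨.x, T1, (B (B (A2 (K (.negSucc 115883))) N (B (K (.negSucc 4241267)) (K (.ofNat 4296060)) N N) N) (B (A2 (K (.negSucc 1909763))) (B N N (K (.negSucc 1173071)) (K (.negSucc 741419))) (B (K (.negSucc 6291179)) (K (.ofNat 8780424)) N N) (B (K (.negSucc 5528687)) (K (.ofNat 6581364)) N N)) (B (B (K (.negSucc 63066851)) (K (.negSucc 38192075)) N N) (B (K (.negSucc 72600599)) (K (.ofNat 1856112)) N N) N N) (B (B (K (.negSucc 1860791)) (K (.negSucc 310307)) N N) (A0 (K (.negSucc 286115))) N N))⟩,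
  ⟨.x, T2, (B (B (B (K (.negSucc 69932019)) (K (.negSucc 36642131)) N N) (B (K (.negSucc 74230327)) (K (.ofNat 14320004)) N N) N N) (B (B (K (.negSucc 56279255)) (K (.negSucc 41936639)) N N) (B (K (.negSucc 67372583)) (K (.ofNat 3048468)) N N) N N) N N)⟩,
  ⟨.z, T0, (A0 (B (B (K (.negSucc 34604887)) (K (.negSucc 16426235)) N N) (B (K (.negSucc 40482735)) (K (.ofNat 13245052)) N N) N N))⟩,
  ⟨.x, T4, (B N N (A2 (K (.negSucc 466319))) (B N N (K (.negSucc 658619)) (K (.ofNat 262092))))⟩,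
  ⟨.x, T5, (B N (A3 (K (.ofNat 438300))) N (A1 (K (.ofNat 206280))))⟩,
  ⟨.x, T6, (B N N (A2 (K (.negSucc 239855))) (B N N (K (.ofNat 539136)) (K (.negSucc 1960319))))⟩,
  ⟨.x, T7, (B (A2 (K (.negSucc 1227635))) (B N N (K (.negSucc 196931)) (K (.negSucc 844163))) (B (K (.ofNat 469020)) (K (.negSucc 647735)) N N) (B (K (.negSucc 4367879)) (K (.negSucc 576995)) N N))⟩,
  ⟨.x, T8, (B (A2 (K (.negSucc 1248335))) (B N N (K (.negSucc 729275)) (K (.ofNat 947592))) (B (K (.ofNat 32256)) (K (.ofNat 114636)) N N) (B (K (.negSucc 5270099)) (K (.ofNat 6249420)) N N))⟩,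
  ⟨.x, T9, (A0 (B (K (.ofNat 485184)) (K (.ofNat 2387820)) N N))⟩,
  ⟨.x, T10, (B N (B N N (K (.negSucc 331799)) (K (.ofNat 17916))) N (A1 (K (.ofNat 217224))))⟩,
  ⟨.x, T11, (A1 (B (K (.ofNat 2085312)) (K (.negSucc 6235979)) N N))⟩,
  ⟨.x, T13, (A3 (K (.negSucc 523415)))⟩,
  ⟨.x, T15, (B N N (K (.ofNat 1179732)) (K (.negSucc 224315)))⟩,
  ⟨.x, T16, (B N N (K (.ofNat 1381056)) (K (.negSucc 1180271)))⟩,
  ⟨.x, T17, (A0 (K (.ofNat 613104)))⟩,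
  ⟨.x, T18, (A2 (K (.negSucc 156143)))⟩,
  ⟨.x, T19, (A0 (K (.ofNat 272568)))⟩,
  ⟨.x, T20, (A3 (K (.negSucc 108119)))⟩,
  ⟨.x, T32, (A1 (K (.ofNat 170088)))⟩,
  ⟨.x, T21, (A3 (K (.negSucc 244475)))⟩,
  ⟨.x, T22, (B (K (.ofNat 4428)) (K (.ofNat 148968)) N N)⟩,
  ⟨.x, T23, (A1 (K (.ofNat 486816)))⟩,
  ⟨.z, T15, (A0 (K (.ofNat 544788)))⟩,
  ⟨.x, T33, (K (.negSucc 549431))⟩,
  ⟨.x, T29, (K (.negSucc 961415))⟩,
  ⟨.x, T34, (K (.ofNat 53028))⟩,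
  ⟨.x, T35, (K (.ofNat 524880))⟩,
  ⟨.x, T37, (K (.negSucc 213839))⟩,
  ⟨.x, T28, (K (.negSucc 180827))⟩,
  ⟨.x, T38, (K (.negSucc 345815))⟩,
  ⟨.z, T24, (K (.ofNat 150588))⟩,
  ⟨.z, T25, (K (.ofNat 391896))⟩] c_10 c_11 c_12 c_13 .nil .nil)

def c_20 : Cert := (.node [⟨.x, .z, (B (B (B (K (.negSucc 871439)) (K (.ofNat 5366496)) N N) (B (K (.negSucc 3381755)) (K (.ofNat 2689092)) N N) N N) (B (B (K (.ofNat 3775716)) (K (.ofNat 2278932)) N N) (B (K (.ofNat 1449180)) (K (.negSucc 346043)) N N) N N) N N)⟩,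
  ⟨.x, T0, (B (B (K (.ofNat 2464644)) (K (.negSucc 219695)) N N) (B (K (.ofNat 515076)) (K (.negSucc 4978919)) N N) N N)⟩,
  ⟨.x, T1, (B (B (K (.ofNat 873372)) (K (.ofNat 837984)) N N) (B (K (.negSucc 2852171)) (K (.ofNat 540096)) N N) N N)⟩,
  ⟨.x, T4, (B N N (K (.ofNat 267354)) (K (.negSucc 106697)))⟩,
  ⟨.x, T5, (A1 (K (.ofNat 241116)))⟩,
  ⟨.x, T6, (B N N (K (.ofNat 309816)) (K (.negSucc 1379981)))⟩,
  ⟨.x, T7, (B (K (.negSucc 2111231)) (K (.negSucc 4615199)) N N)⟩,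
  ⟨.x, T8, (B (K (.negSucc 843479)) (K (.ofNat 279900)) N N)⟩,
  ⟨.x, T10, (A1 (K (.ofNat 939072)))⟩,
  ⟨.x, T13, (K (.negSucc 242735))⟩,
  ⟨.x, T15, (K (.negSucc 371051))⟩,
  ⟨.x, T16, (K (.negSucc 56735))⟩,
  ⟨.x, T18, (K (.negSucc 596435))⟩,
  ⟨.x, T20, (K (.negSucc 131975))⟩,
  ⟨.x, T21, (K (.negSucc 322475))⟩] (.node [⟨.x, .z, (B (B (K (.negSucc 677003)) (K (.negSucc 603023)) N N) (B (K (.negSucc 619775)) (K (.negSucc 775823)) N N) N N)⟩,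
  ⟨.x, T0, (B (K (.ofNat 256200)) (K (.ofNat 2735004)) N N)⟩,
  ⟨.x, T1, (B (K (.ofNat 621816)) (K (.ofNat 775212)) N N)⟩,
  ⟨.x, T5, (K (.negSucc 469955))⟩,
  ⟨.x, T7, (K (.ofNat 1498008))⟩,
  ⟨.x, T8, (K (.ofNat 1245900))⟩,
  ⟨.x, T10, (K (.negSucc 120959))⟩] (.node [⟨.x, .z, (B (K (.negSucc 445763)) (K (.ofNat 462684)) N N)⟩,
  ⟨.x, T0, (K (.negSucc 1141163))⟩,
  ⟨.x, T1, (K (.ofNat 742932))⟩] (.node [⟨.x, .z, (K (.ofNat 257460))⟩] .nil .nil .nil .nil .nil .nil) (.node [⟨.x, .z, (K (.negSucc 450167))⟩] .nil .nil .nil .nil .nil .nil) .nil .nil .nil .nil) (.node [⟨.x, .z, (B (K (.ofNat 5547516)) (K (.ofNat 3484968)) N N)⟩,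
  ⟨.x, T0, (K (.negSucc 637259))⟩,
  ⟨.x, T1, (K (.negSucc 1937927))⟩] (.node [⟨.x, .z, (K (.negSucc 214103))⟩] .nil .nil .nil .nil .nil .nil) (.node [⟨.x, .z, (K (.negSucc 880271))⟩] .nil .nil .nil .nil .nil .nil) .nil .nil .nil .nil) .nil .nil .nil .nil) (.node [⟨.x, .z, (B (B (K (.ofNat 577908)) (K (.negSucc 794015)) N N) (B (K (.negSucc 16130135)) (K (.negSucc 8699759)) N N) N N)⟩,
  ⟨.x, T0, (B (K (.ofNat 15676980)) (K (.ofNat 2334072)) N N)⟩,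
  ⟨.x, T1, (B (K (.negSucc 5201027)) (K (.negSucc 1135991)) N N)⟩,
  ⟨.x, T5, (K (.negSucc 5947427))⟩,
  ⟨.x, T7, (K (.ofNat 2609880))⟩,
  ⟨.x, T8, (K (.ofNat 3888252))⟩,
  ⟨.x, T10, (K (.ofNat 475680))⟩] (.node [⟨.x, .z, (B (K (.ofNat 2167764)) (K (.ofNat 10523496)) N N)⟩,
  ⟨.x, T0, (K (.negSucc 8687855))⟩,
  ⟨.x, T1, (K (.negSucc 1802879))⟩] (.node [⟨.x, .z, (K (.ofNat 1179660))⟩] .nil .nil .nil .nil .nil .nil) (.node [⟨.x, .z, (K (.negSucc 2577815))⟩] .nil .nil .nil .nil .nil .nil) .nil .nil .nil .nil) (.node [⟨.x, .z, (B (K (.ofNat 5090784)) (K (.negSucc 1260455)) N N)⟩,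
  ⟨.x, T0, (K (.negSucc 343535))⟩,
  ⟨.x, T1, (K (.negSucc 2605823))⟩] (.node [⟨.x, .z, (K (.negSucc 2451623))⟩] .nil .nil .nil .nil .nil .nil) (.node [⟨.x, .z, (K (.negSucc 2317775))⟩] .nil .nil .nil .nil .nil .nil) .nil .nil .nil .nil) .nil .nil .nil .nil) (.node [⟨.x, T4, (K (.ofNat 237306))⟩,
  ⟨.x, T6, (K (.ofNat 839322))⟩] .nil .nil .nil .nil .nil .nil) (.node [⟨.x, T4, (K (.negSucc 1933307))⟩,
  ⟨.x, T6, (K (.negSucc 7353299))⟩] .nil .nil .nil .nil .nil .nil) .nil .nil)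

def c_21 : Cert := (.node [⟨.x, .z, (B (B (B (K (.ofNat 232523640)) (K (.ofNat 170024748)) N N) (B (K (.ofNat 210288246)) (K (.negSucc 135538073)) N N) N N) (B (B (K (.ofNat 314128692)) (K (.ofNat 163644588)) N N) (B (K (.ofNat 103927668)) (K (.negSucc 405334439)) N N) N N) N N)⟩,
  ⟨.x, T0, (B (B (K (.negSucc 9357035)) (K (.negSucc 297777557)) N N) (B (K (.ofNat 39754836)) (K (.ofNat 39337536)) N N) N N)⟩,
  ⟨.x, T1, (B (B (K (.negSucc 101680619)) (K (.negSucc 50846825)) N N) (B (K (.negSucc 185366033)) (K (.ofNat 1248126)) N N) N N)⟩,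
  ⟨.x, T4, (B N N (K (.negSucc 39207071)) (K (.ofNat 43829436)))⟩,
  ⟨.x, T5, (A1 (K (.ofNat 157389252)))⟩,
  ⟨.x, T6, (B N N (K (.ofNat 76275576)) (K (.negSucc 46158755)))⟩,
  ⟨.x, T7, (B (K (.negSucc 142021271)) (K (.negSucc 272722787)) N N)⟩,
  ⟨.x, T8, (B (K (.ofNat 41307618)) (K (.negSucc 105519437)) N N)⟩,
  ⟨.x, T10, (A1 (K (.ofNat 192113790)))⟩,
  ⟨.x, T13, (K (.negSucc 147498863))⟩,
  ⟨.x, T15, (K (.negSucc 1098527))⟩,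
  ⟨.x, T16, (K (.ofNat 1346580))⟩,
  ⟨.x, T18, (K (.negSucc 87293969))⟩,
  ⟨.x, T20, (K (.ofNat 9891780))⟩,
  ⟨.x, T21, (K (.negSucc 99270767))⟩] (.node [⟨.x, .z, (B (B (K (.ofNat 191792964)) (K (.ofNat 27697380)) N N) (B (K (.ofNat 163149324)) (K (.negSucc 580537739)) N N) N N)⟩,
  ⟨.x, T0, (B (K (.negSucc 215672387)) (K (.ofNat 318878160)) N N)⟩,
  ⟨.x, T1, (B (K (.ofNat 89622144)) (K (.ofNat 34720044)) N N)⟩,
  ⟨.x, T5, (K (.negSucc 43215719))⟩,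
  ⟨.x, T7, (K (.negSucc 217331867))⟩,
  ⟨.x, T8, (K (.ofNat 34704444))⟩,
  ⟨.x, T10, (K (.ofNat 12637812))⟩] (.node [⟨.x, .z, (B (K (.negSucc 106844867)) (K (.negSucc 340092191)) N N)⟩,
  ⟨.x, T0, (K (.ofNat 142937892))⟩,
  ⟨.x, T1, (K (.ofNat 187858608))⟩] (.node [⟨.x, .z, (K (.negSucc 109488503))⟩] .nil .nil .nil .nil .nil .nil) (.node [⟨.x, .z, (K (.negSucc 39985787))⟩] .nil .nil .nil .nil .nil .nil) .nil .nil .nil .nil) (.node [⟨.x, .z, (B (K (.negSucc 22790801)) (K (.ofNat 144660720)) N N)⟩,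
  ⟨.x, T0, (K (.ofNat 37815456))⟩,
  ⟨.x, T1, (K (.negSucc 18909281))⟩] (.node [⟨.x, .z, (K (.negSucc 41807411))⟩] .nil .nil .nil .nil .nil .nil) (.node [⟨.x, .z, (K (.ofNat 68073768))⟩] .nil .nil .nil .nil .nil .nil) .nil .nil .nil .nil) .nil .nil .nil .nil) (.node [⟨.x, .z, (B (B (K (.ofNat 132004950)) (K (.negSucc 56752325)) N N) (B (K (.negSucc 69514187)) (K (.ofNat 15976044)) N N) N N)⟩,
  ⟨.x, T0, (B (K (.negSucc 133197803)) (K (.ofNat 106666812)) N N)⟩,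
  ⟨.x, T1, (B (K (.ofNat 93124674)) (K (.negSucc 263807381)) N N)⟩,
  ⟨.x, T5, (K (.ofNat 38721672))⟩,
  ⟨.x, T7, (K (.negSucc 195063851))⟩,
  ⟨.x, T8, (K (.negSucc 89069495))⟩,
  ⟨.x, T10, (K (.ofNat 19845756))⟩] (.node [⟨.x, .z, (B (K (.negSucc 58351949)) (K (.negSucc 35993723)) N N)⟩,
  ⟨.x, T0, (K (.ofNat 160140588))⟩,
  ⟨.x, T1, (K (.ofNat 75651486))⟩] (.node [⟨.x, .z, (K (.negSucc 11810423))⟩] .nil .nil .nil .nil .nil .nil) (.node [⟨.x, .z, (K (.ofNat 186942312))⟩] .nil .nil .nil .nil .nil .nil) .nil .nil .nil .nil) (.node [⟨.x, .z, (B (K (.negSucc 42507437)) (K (.ofNat 427307004)) N N)⟩,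
  ⟨.x, T0, (K (.negSucc 107584259))⟩,
  ⟨.x, T1, (K (.negSucc 23551805))⟩] (.node [⟨.x, .z, (K (.ofNat 185824368))⟩] .nil .nil .nil .nil .nil .nil) (.node [⟨.x, .z, (K (.ofNat 196507212))⟩] .nil .nil .nil .nil .nil .nil) .nil .nil .nil .nil) .nil .nil .nil .nil) (.node [⟨.x, T4, (K (.ofNat 43197636))⟩,
  ⟨.x, T6, (K (.ofNat 162267930))⟩] .nil .nil .nil .nil .nil .nil) (.node [⟨.x, T4, (K (.ofNat 80578326))⟩,
  ⟨.x, T6, (K (.ofNat 102916770))⟩] .nil .nil .nil .nil .nil .nil) .nil .nil)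

def c_2 : Cert := (.node [⟨.x, .z, (B (B (B (A0 (K (.negSucc 897659))) (A1 (K (.negSucc 2271755))) N N) (B (B (K (.negSucc 7275731)) (K (.negSucc 17408987)) N N) (B (K (.negSucc 23496095)) (K (.negSucc 6368099)) N N) N N) N N) (B (B (B (K (.negSucc 61886111)) (K (.negSucc 12782939)) N N) (B (K (.negSucc 62204843)) (K (.ofNat 29885784)) N N) N N) (B (B (K (.negSucc 64875911)) (K (.negSucc 31489859)) N N) (B (K (.negSucc 70701467)) (K (.negSucc 1568027)) N N) N N) N N) N N)⟩,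
  ⟨.x, T0, (B (B (B (K (.ofNat 44067996)) (K (.ofNat 6738600)) N N) (B (K (.ofNat 37799808)) (K (.negSucc 17267579)) N N) N N) (B (B (K (.ofNat 59507496)) (K (.ofNat 31545468)) N N) (B (K (.ofNat 66288444)) (K (.ofNat 6215700)) N N) N N) N N)⟩,
  ⟨.x, T1, (B (B (B (K (.ofNat 442440)) (K (.negSucc 4842527)) N N) (B (K (.ofNat 6552864)) (K (.negSucc 3766703)) N N) N N) (B (B (K (.negSucc 1045103)) (K (.negSucc 5264747)) N N) (B (K (.ofNat 13753260)) (K (.ofNat 452916)) N N) N N) N N)⟩,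
  ⟨.x, T4, (B (A2 (K (.negSucc 702047))) (B N N (K (.negSucc 546797)) (K (.ofNat 492834))) (B (K (.negSucc 81977)) (K (.ofNat 60558)) N N) (B (K (.ofNat 16692)) (K (.ofNat 233994)) N N))⟩,
  ⟨.x, T5, (A1 (A1 (K (.negSucc 131435))))⟩,
  ⟨.x, T6, (B (A2 (K (.ofNat 552294))) (B N N (K (.ofNat 1105710)) (K (.negSucc 512969))) (B (K (.negSucc 2464181)) (K (.negSucc 4162817)) N N) (B (K (.negSucc 3092999)) (K (.negSucc 2266385)) N N))⟩,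
  ⟨.x, T7, (B (B (K (.negSucc 60899)) (K (.negSucc 4611251)) N N) (B (K (.ofNat 5682432)) (K (.ofNat 1237872)) N N) N N)⟩,
  ⟨.x, T8, (B (B (K (.ofNat 3808080)) (K (.negSucc 2102543)) N N) (B (K (.ofNat 13344624)) (K (.negSucc 1676975)) N N) N N)⟩,
  ⟨.x, T10, (A1 (B (K (.ofNat 1822500)) (K (.negSucc 493067)) N N))⟩,
  ⟨.x, T12, (A3 (K (.ofNat 480528)))⟩,
  ⟨.x, T13, (A1 (K (.negSucc 17807)))⟩,
  ⟨.x, T14, (B N N (K (.negSucc 356861)) (K (.ofNat 666468)))⟩,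
  ⟨.x, T15, (B (K (.ofNat 2726496)) (K (.ofNat 2709972)) N N)⟩,
  ⟨.x, T16, (B (K (.ofNat 2369268)) (K (.ofNat 2038284)) N N)⟩,
  ⟨.x, T18, (A0 (K (.ofNat 85836)))⟩,
  ⟨.x, T20, (A1 (K (.negSucc 85175)))⟩,
  ⟨.x, T21, (A1 (K (.ofNat 117768)))⟩,
  ⟨.x, T24, (K (.negSucc 361583))⟩,
  ⟨.x, T25, (K (.negSucc 289727))⟩,
  ⟨.x, T26, (K (.negSucc 5579))⟩,
  ⟨.x, T39, (K (.negSucc 502703))⟩,
  ⟨.x, T41, (K (.negSucc 19007))⟩,
  ⟨.x, T27, (K (.ofNat 96732))⟩] c_20 c_21 (.node [⟨.x, T4, (B (K (.ofNat 776610)) (K (.negSucc 255635)) N N)⟩,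
  ⟨.x, T6, (B (K (.ofNat 1895040)) (K (.ofNat 2132532)) N N)⟩,
  ⟨.x, T12, (K (.ofNat 22872))⟩,
  ⟨.x, T14, (K (.ofNat 323370))⟩] (.node [⟨.x, T4, (K (.negSucc 252809))⟩,
  ⟨.x, T6, (K (.ofNat 997200))⟩] .nil .nil .nil .nil .nil .nil) (.node [⟨.x, T4, (K (.ofNat 1926138))⟩,
  ⟨.x, T6, (K (.negSucc 35349509))⟩] .nil .nil .nil .nil .nil .nil) .nil .nil .nil .nil) (.node [⟨.x, T4, (B (K (.ofNat 49975238)) (K (.ofNat 113009734)) N N)⟩,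
  ⟨.x, T6, (B (K (.negSucc 224813061)) (K (.negSucc 134448001)) N N)⟩,
  ⟨.x, T12, (K (.ofNat 243937148))⟩,
  ⟨.x, T14, (K (.negSucc 169424391))⟩] (.node [⟨.x, T4, (K (.ofNat 2187438))⟩,
  ⟨.x, T6, (K (.ofNat 277279682))⟩] .nil .nil .nil .nil .nil .nil) (.node [⟨.x, T4, (K (.negSucc 106175147))⟩,
  ⟨.x, T6, (K (.ofNat 242186832))⟩] .nil .nil .nil .nil .nil .nil) .nil .nil .nil .nil) .nil .nil)

def c_30 : Cert := (.node [⟨.x, .z, (B (B (B (K (.negSucc 238785191)) (K (.negSucc 176997635)) N N) (B (K (.negSucc 206916761)) (K (.ofNat 138095058)) N N) N N) (B (B (K (.negSucc 324689519)) (K (.negSucc 176001923)) N N) (B (K (.negSucc 110140439)) (K (.ofNat 403250544)) N N) N N) N N)⟩,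
  ⟨.x, T0, (B (B (K (.ofNat 14046864)) (K (.ofNat 309944838)) N N) (B (K (.negSucc 40587983)) (K (.negSucc 37661651)) N N) N N)⟩,
  ⟨.x, T1, (B (B (K (.ofNat 99391440)) (K (.ofNat 45389082)) N N) (B (K (.ofNat 180163938)) (K (.negSucc 10078397)) N N) N N)⟩,
  ⟨.x, T4, (B N N (K (.ofNat 37604802)) (K (.negSucc 44959445)))⟩,
  ⟨.x, T5, (A1 (K (.negSucc 158795687)))⟩,
  ⟨.x, T6, (B N N (K (.negSucc 75606365)) (K (.ofNat 47403072)))⟩,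
  ⟨.x, T7, (B (K (.ofNat 142181796)) (K (.ofNat 272935680)) N N)⟩,
  ⟨.x, T8, (B (K (.negSucc 44829389)) (K (.ofNat 96199974)) N N)⟩,
  ⟨.x, T10, (A1 (K (.negSucc 195880037)))⟩,
  ⟨.x, T13, (K (.ofNat 147665304))⟩,
  ⟨.x, T15, (K (.ofNat 1306932))⟩,
  ⟨.x, T16, (K (.negSucc 2093507))⟩,
  ⟨.x, T18, (K (.ofNat 86867946))⟩,
  ⟨.x, T20, (K (.negSucc 9374963))⟩,
  ⟨.x, T21, (K (.ofNat 99772404))⟩] (.node [⟨.x, .z, (B (B (K (.negSucc 193881719)) (K (.negSucc 27019967)) N N) (B (K (.negSucc 179689703)) (K (.ofNat 572451396)) N N) N N)⟩,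
  ⟨.x, T0, (B (K (.ofNat 227311164)) (K (.negSucc 323695475)) N N)⟩,
  ⟨.x, T1, (B (K (.negSucc 97023143)) (K (.negSucc 31022867)) N N)⟩,
  ⟨.x, T5, (K (.ofNat 37325940))⟩,
  ⟨.x, T7, (K (.ofNat 216709896))⟩,
  ⟨.x, T8, (K (.negSucc 31518971))⟩,
  ⟨.x, T10, (K (.negSucc 10927451))⟩] (.node [⟨.x, .z, (B (K (.ofNat 106750128)) (K (.ofNat 346816224)) N N)⟩,
  ⟨.x, T0, (K (.negSucc 148360115))⟩,
  ⟨.x, T1, (K (.negSucc 190413755))⟩] (.node [⟨.x, .z, (K (.ofNat 110476452))⟩] .nil .nil .nil .nil .nil .nil) (.node [⟨.x, .z, (K (.ofNat 37955232))⟩] .nil .nil .nil .nil .nil .nil) .nil .nil .nil .nil) (.node [⟨.x, .z, (B (K (.ofNat 21031170)) (K (.negSucc 148219631)) N N)⟩,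
  ⟨.x, T0, (K (.negSucc 36099155))⟩,
  ⟨.x, T1, (K (.ofNat 19802778))⟩] (.node [⟨.x, .z, (K (.ofNat 40260654))⟩] .nil .nil .nil .nil .nil .nil) (.node [⟨.x, .z, (K (.negSucc 70096187))⟩] .nil .nil .nil .nil .nil .nil) .nil .nil .nil .nil) .nil .nil .nil .nil) (.node [⟨.x, .z, (B (B (K (.negSucc 137465249)) (K (.ofNat 42956118)) N N) (B (K (.ofNat 55828332)) (K (.negSucc 26964539)) N N) N N)⟩,
  ⟨.x, T0, (B (K (.ofNat 137619708)) (K (.negSucc 112495031)) N N)⟩,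
  ⟨.x, T1, (B (K (.negSucc 88698833)) (K (.ofNat 285195498)) N N)⟩,
  ⟨.x, T5, (K (.negSucc 43401371))⟩,
  ⟨.x, T7, (K (.ofNat 192244524))⟩,
  ⟨.x, T8, (K (.ofNat 95407068))⟩,
  ⟨.x, T10, (K (.negSucc 15533327))⟩] (.node [⟨.x, .z, (B (K (.ofNat 58435050)) (K (.ofNat 41451984)) N N)⟩,
  ⟨.x, T0, (K (.negSucc 164624915))⟩,
  ⟨.x, T1, (K (.negSucc 76424405))⟩] (.node [⟨.x, .z, (K (.ofNat 11670714))⟩] .nil .nil .nil .nil .nil .nil) (.node [⟨.x, .z, (K (.negSucc 190457627))⟩] .nil .nil .nil .nil .nil .nil) .nil .nil .nil .nil) (.node [⟨.x, .z, (B (K (.ofNat 41542734)) (K (.negSucc 432113735)) N N)⟩,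
  ⟨.x, T0, (K (.ofNat 109416036))⟩,
  ⟨.x, T1, (K (.ofNat 22368414))⟩] (.node [⟨.x, .z, (K (.negSucc 191290553))⟩] .nil .nil .nil .nil .nil .nil) (.node [⟨.x, .z, (K (.negSucc 199729511))⟩] .nil .nil .nil .nil .nil .nil) .nil .nil .nil .nil) .nil .nil .nil .nil) (.node [⟨.x, T4, (K (.negSucc 45208799))⟩,
  ⟨.x, T6, (K (.negSucc 132061913))⟩] .nil .nil .nil .nil .nil .nil) (.node [⟨.x, T4, (K (.negSucc 77853905))⟩,
  ⟨.x, T6, (K (.negSucc 115447649))⟩] .nil .nil .nil .nil .nil .nil) .nil .nil)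

def c_31 : Cert := (.node [⟨.x, .z, (B (B (B (K (.negSucc 5446067)) (K (.negSucc 657851)) N N) (B (K (.negSucc 10132877)) (K (.negSucc 3017561)) N N) N N) (B (B (K (.negSucc 4330499)) (K (.negSucc 3531563)) N N) (B (K (.negSucc 2952335)) (K (.ofNat 1391688)) N N) N N) N N)⟩,
  ⟨.x, T0, (B (B (K (.ofNat 931404)) (K (.ofNat 3224754)) N N) (B (K (.ofNat 2063004)) (K (.ofNat 2017872)) N N) N N)⟩,
  ⟨.x, T1, (B (B (K (.ofNat 5131596)) (K (.negSucc 380129)) N N) (B (K (.ofNat 9135534)) (K (.ofNat 1541682)) N N) N N)⟩,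
  ⟨.x, T4, (B N N (K (.ofNat 119838)) (K (.ofNat 288468)))⟩,
  ⟨.x, T5, (A1 (K (.negSucc 1462439)))⟩,
  ⟨.x, T6, (B N N (K (.ofNat 28950)) (K (.negSucc 1310411)))⟩,
  ⟨.x, T7, (B (K (.ofNat 1457100)) (K (.ofNat 2728464)) N N)⟩,
  ⟨.x, T8, (B (K (.ofNat 935346)) (K (.ofNat 2179878)) N N)⟩,
  ⟨.x, T10, (A1 (K (.negSucc 384341)))⟩,
  ⟨.x, T13, (K (.ofNat 125712))⟩,
  ⟨.x, T15, (K (.negSucc 802907))⟩,
  ⟨.x, T16, (K (.negSucc 596843))⟩,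
  ⟨.x, T18, (K (.ofNat 221178))⟩,
  ⟨.x, T20, (K (.negSucc 372203))⟩,
  ⟨.x, T21, (K (.ofNat 194580))⟩] (.node [⟨.x, .z, (B (B (K (.negSucc 1049879)) (K (.ofNat 892404)) N N) (B (K (.ofNat 2735304)) (K (.ofNat 1839444)) N N) N N)⟩,
  ⟨.x, T0, (B (K (.negSucc 9108743)) (K (.negSucc 7684679)) N N)⟩,
  ⟨.x, T1, (B (K (.ofNat 3292164)) (K (.ofNat 8287320)) N N)⟩,
  ⟨.x, T5, (K (.ofNat 926196))⟩,
  ⟨.x, T7, (K (.negSucc 3169967))⟩,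
  ⟨.x, T8, (K (.ofNat 2351496))⟩,
  ⟨.x, T10, (K (.ofNat 1025640))⟩] (.node [⟨.x, .z, (B (K (.ofNat 4486788)) (K (.ofNat 1317384)) N N)⟩,
  ⟨.x, T0, (K (.ofNat 2576220))⟩,
  ⟨.x, T1, (K (.negSucc 737735))⟩] (.node [⟨.x, .z, (K (.negSucc 2099915))⟩] .nil .nil .nil .nil .nil .nil) (.node [⟨.x, .z, (K (.negSucc 1862381))⟩] .nil .nil .nil .nil .nil .nil) .nil .nil .nil .nil) (.node [⟨.x, .z, (B (K (.ofNat 2027082)) (K (.ofNat 132672)) N N)⟩,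
  ⟨.x, T0, (K (.ofNat 3333336))⟩,
  ⟨.x, T1, (K (.negSucc 2067533))⟩] (.node [⟨.x, .z, (K (.negSucc 2982647))⟩] .nil .nil .nil .nil .nil .nil) (.node [⟨.x, .z, (K (.negSucc 1307045))⟩] .nil .nil .nil .nil .nil .nil) .nil .nil .nil .nil) .nil .nil .nil .nil) (.node [⟨.x, .z, (B (B (K (.negSucc 2854397)) (K (.ofNat 567006)) N N) (B (K (.negSucc 396815)) (K (.negSucc 2016323)) N N) N N)⟩,
  ⟨.x, T0, (B (K (.negSucc 136175)) (K (.negSucc 1609775)) N N)⟩,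
  ⟨.x, T1, (B (K (.ofNat 1755402)) (K (.ofNat 1595202)) N N)⟩,
  ⟨.x, T5, (K (.ofNat 1176504))⟩,
  ⟨.x, T7, (K (.negSucc 1342355))⟩,
  ⟨.x, T8, (K (.negSucc 2455259))⟩,
  ⟨.x, T10, (K (.negSucc 990011))⟩] (.node [⟨.x, .z, (B (K (.ofNat 3921714)) (K (.negSucc 390995)) N N)⟩,
  ⟨.x, T0, (K (.ofNat 2034708))⟩,
  ⟨.x, T1, (K (.negSucc 1342265))⟩] (.node [⟨.x, .z, (K (.negSucc 610571))⟩] .nil .nil .nil .nil .nil .nil) (.node [⟨.x, .z, (K (.ofNat 865146))⟩] .nil .nil .nil .nil .nil .nil) .nil .nil .nil .nil) (.node [⟨.x, .z, (B (K (.negSucc 3207209)) (K (.negSucc 2918807)) N N)⟩,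
  ⟨.x, T0, (K (.ofNat 1923012))⟩,
  ⟨.x, T1, (K (.ofNat 1187178))⟩] (.node [⟨.x, .z, (K (.negSucc 527183))⟩] .nil .nil .nil .nil .nil .nil) (.node [⟨.x, .z, (K (.ofNat 1271748))⟩] .nil .nil .nil .nil .nil .nil) .nil .nil .nil .nil) .nil .nil .nil .nil) (.node [⟨.x, T4, (K (.negSucc 4492841))⟩,
  ⟨.x, T6, (K (.ofNat 39352668))⟩] .nil .nil .nil .nil .nil .nil) (.node [⟨.x, T4, (K (.negSucc 285329))⟩,
  ⟨.x, T6, (K (.ofNat 431766))⟩] .nil .nil .nil .nil .nil .nil) .nil .nil)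

def c_3 : Cert := (.node [⟨.x, .z, (B (B (B (A0 (K (.negSucc 24388287))) (A1 (K (.ofNat 12250704))) N N) (B (B (K (.negSucc 54723559)) (K (.negSucc 53001127)) N N) (B (K (.negSucc 45763739)) (K (.ofNat 8019984)) N N) N N) N N) (B (B (B (K (.negSucc 83283515)) (K (.negSucc 25000203)) N N) (B (K (.negSucc 74403839)) (K (.ofNat 40445076)) N N) N N) (B (B (K (.negSucc 83800871)) (K (.negSucc 47815691)) N N) (B (K (.negSucc 84009947)) (K (.negSucc 863615)) N N) N N) N N) N N)⟩,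
  ⟨.x, T0, (B (B (B (K (.negSucc 873551)) (K (.negSucc 2830919)) N N) (B (K (.negSucc 1068623)) (K (.negSucc 1198751)) N N) N N) (B (B (K (.ofNat 248424)) (K (.negSucc 1258991)) N N) (B (K (.ofNat 1931220)) (K (.negSucc 705707)) N N) N N) N N)⟩,
  ⟨.x, T1, (B (B (B (K (.ofNat 50999472)) (K (.ofNat 10521744)) N N) (B (K (.ofNat 43008348)) (K (.negSucc 19084079)) N N) N N) (B (B (K (.ofNat 62968224)) (K (.ofNat 33907140)) N N) (B (K (.ofNat 56034096)) (K (.negSucc 28259)) N N) N N) N N)⟩,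
  ⟨.x, T4, (B (A2 (K (.ofNat 1941432))) (B N N (K (.ofNat 1579734)) (K (.ofNat 455796))) (B (K (.negSucc 267581)) (K (.negSucc 3147557)) N N) (B (K (.negSucc 2089235)) (K (.ofNat 632472)) N N))⟩,
  ⟨.x, T5, (A1 (A1 (K (.ofNat 592920))))⟩,
  ⟨.x, T6, (B (A2 (K (.ofNat 107472))) (B N N (K (.ofNat 79548)) (K (.ofNat 540132))) (B (K (.ofNat 30114)) (K (.negSucc 547583)) N N) (B (K (.ofNat 3978834)) (K (.ofNat 4124604)) N N))⟩,
  ⟨.x, T7, (B (B (K (.negSucc 127475)) (K (.negSucc 2655155)) N N) (B (K (.negSucc 868487)) (K (.negSucc 265619)) N N) N N)⟩,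
  ⟨.x, T8, (B (B (K (.ofNat 151200)) (K (.negSucc 544475)) N N) (B (K (.negSucc 3950519)) (K (.negSucc 1988171)) N N) N N)⟩,
  ⟨.x, T10, (A1 (B (K (.negSucc 2747747)) (K (.ofNat 32256)) N N))⟩,
  ⟨.x, T12, (A3 (K (.negSucc 510815)))⟩,
  ⟨.x, T13, (A1 (K (.ofNat 293112)))⟩,
  ⟨.x, T14, (B N N (K (.negSucc 51383)) (K (.ofNat 903438)))⟩,
  ⟨.x, T15, (B (K (.negSucc 182087)) (K (.negSucc 454319)) N N)⟩,
  ⟨.x, T16, (B (K (.ofNat 469008)) (K (.ofNat 487224)) N N)⟩,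
  ⟨.x, T18, (A0 (K (.ofNat 287616)))⟩,
  ⟨.x, T20, (A1 (K (.negSucc 45863)))⟩,
  ⟨.x, T21, (A1 (K (.ofNat 36000)))⟩,
  ⟨.x, T24, (K (.ofNat 71280))⟩,
  ⟨.x, T25, (K (.ofNat 471168))⟩,
  ⟨.x, T26, (K (.negSucc 14831))⟩,
  ⟨.x, T39, (K (.ofNat 502704))⟩,
  ⟨.x, T41, (K (.ofNat 19008))⟩,
  ⟨.x, T27, (K (.negSucc 24911))⟩] c_30 c_31 (.node [⟨.x, T4, (B (K (.negSucc 50770627)) (K (.negSucc 112655073)) N N)⟩,
  ⟨.x, T6, (B (K (.ofNat 221128426)) (K (.ofNat 131173958)) N N)⟩,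
  ⟨.x, T12, (K (.negSucc 243960715))⟩,
  ⟨.x, T14, (K (.ofNat 168816682))⟩] (.node [⟨.x, T4, (K (.ofNat 228240))⟩,
  ⟨.x, T6, (K (.negSucc 270149857))⟩] .nil .nil .nil .nil .nil .nil) (.node [⟨.x, T4, (K (.ofNat 111348186))⟩,
  ⟨.x, T6, (K (.negSucc 280280777))⟩] .nil .nil .nil .nil .nil .nil) .nil .nil .nil .nil) (.node [⟨.x, T4, (B (K (.ofNat 610140)) (K (.negSucc 51671)) N N)⟩,
  ⟨.x, T6, (B (K (.negSucc 503159)) (K (.negSucc 495779)) N N)⟩,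
  ⟨.x, T12, (K (.ofNat 15840))⟩,
  ⟨.x, T14, (K (.negSucc 368771))⟩] (.node [⟨.x, T4, (K (.negSucc 5047859))⟩,
  ⟨.x, T6, (K (.ofNat 41268696))⟩] .nil .nil .nil .nil .nil .nil) (.node [⟨.x, T4, (K (.negSucc 283091))⟩,
  ⟨.x, T6, (K (.ofNat 282732))⟩] .nil .nil .nil .nil .nil .nil) .nil .nil .nil .nil) .nil .nil)

def cert : Cert := (.node [⟨.x, .z, (B (B (B (B (A2 (K (.ofNat 446700))) N (A0 (K (.negSucc 2416103))) N) N (A0 (A0 (K (.ofNat 5663712)))) N) N (B (B (A0 (K (.ofNat 50122800))) (A1 (K (.ofNat 22812996))) N N) (B (A0 (K (.ofNat 112730232))) (B (K (.negSucc 6464927)) (K (.ofNat 94772880)) N N) N N) N N) N) (B (B (B (A2 (K (.ofNat 4450860))) N (A0 (K (.ofNat 3295428))) N) N (B (B (K (.ofNat 93607536)) (K (.negSucc 89482715)) N N) (B (K (.negSucc 60262451)) (K (.ofNat 84875112)) N N) N N) N) (B (B (A2 (K (.negSucc 4911995))) N (B (K (.ofNat 17418492))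 (K (.negSucc 10532027)) N N) N) (B (A2 (K (.negSucc 7944311))) (B N N (K (.ofNat 3124776)) (K (.negSucc 1222883))) (B (K (.negSucc 150963203)) (K (.ofNat 149466228)) N N) (B (K (.ofNat 3419880)) (K (.negSucc 2232263)) N N)) (B (B (K (.ofNat 300187800)) (K (.negSucc 389021147)) N N) (B (K (.negSucc 250042511)) (K (.ofNat 107228592)) N N) N N) (B (B (K (.ofNat 6357768)) (K (.ofNat 46083912)) N N) (B (K (.ofNat 46645632)) (K (.negSucc 539279)) N N) N N)) (B (B (B (K (.negSucc 46311311)) (K (.ofNat 121757748)) N N) (B (K (.ofNat 83535192)) (K (.negSucc 36037919)) N N) N N) (B (B (K (.negSucc 853295)) (K (.ofNat 165337464)) N N) (B (K (.ofNat 496825992)) (K (.negSucc 334440803)) N N) N N) N N) (B (B (B (K (.ofNat 37201584)) (K (.negSucc 30250199)) N N) (B (K (.negSucc 160153331)) (K (.ofNat 101623980)) N N) N N) (B (B (K (.negSucc 95718107)) (K (.ofNat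 199546788)) N N) (B (K (.ofNat 110875512)) (K (.ofNat 1698120)) N N) N N) N N)) (B (B (B (A0 (K (.ofNat 13094704))) (A1 (K (.negSucc 16410755))) N N) (B (B (K (.negSucc 29407407)) (K (.ofNat 181323476)) N N) (B (K (.ofNat 64349220)) (K (.ofNat 35274396)) N N) N N) N N) (B (B (B (K (.ofNat 39227784)) (K (.ofNat 52039648)) N N) (B (K (.ofNat 192991068)) (K (.negSucc 107703755)) N N) N N) (B (B (K (.negSucc 48190103)) (K (.ofNat 101624748)) N N) (B (K (.negSucc 33878147)) (K (.ofNat 79248792)) N N) N N) N N) N N) (B (B (B (A0 (K (.ofNat 24151544))) (A1 (K (.negSucc 60073559))) N N) (B (B (K (.ofNat 118385704)) (K (.ofNat 18547072)) N N) (B (K (.ofNat 138684720)) (K (.negSucc 138050603)) N N) N N) N N) (B (B (B (K (.ofNat 112028148)) (K (.ofNat 30915764)) N N) (B (K (.ofNat 167793888)) (K (.negSucc 165914675)) N N) N N) (B (B (K (.ofNat 95856204)) (K (.ofNat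 30323040)) N N) (B (K (.ofNat 60997464)) (K (.negSucc 9647)) N N) N N) N N) N N))⟩,
  ⟨.z, .z, (B (B (B (A0 (A0 (K (.negSucc 13072311)))) (A1 (A1 (K (.negSucc 7783349)))) N N) (B (B (A1 (K (.negSucc 40919533))) (A0 (K (.ofNat 54374202))) N N) (B (B (K (.ofNat 39100814)) (K (.negSucc 188463865)) N N) (B (K (.negSucc 153306997)) (K (.negSucc 131503893)) N N) N N) N N) N N) (B (B (B (A0 (K (.negSucc 9453573))) (A1 (K (.ofNat 67066724))) N N) (B (B (K (.ofNat 79200364)) (K (.ofNat 84611830)) N N) (B (K (.ofNat 28631500)) (K (.ofNat 16434678)) N N) N N) N N) (B (B (B (K (.ofNat 114542592)) (K (.ofNat 169899772)) N N) (B (K (.ofNat 256225216)) (K (.ofNat 127749654)) N N) N N) (B (B (K (.ofNat 110064072)) (K (.ofNat 23601730)) N N) (B (K (.ofNat 42390296)) (K (.negSucc 40535)) N N) N N) N N) N N) N N)⟩,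
  ⟨.x, T0, (B (B (B (A2 (K (.ofNat 276144))) N (A0 (K (.ofNat 280044))) N) N (B (B (K (.negSucc 223739)) (K (.negSucc 2616023)) N N) (B (K (.negSucc 2928887)) (K (.negSucc 1895579)) N N) N N) N) (B (B (A2 (K (.ofNat 1026768))) N (B (K (.negSucc 2240123)) (K (.negSucc 5988671)) N N) N) (B (A2 (K (.ofNat 1003548))) (B N N (K (.negSucc 849779)) (K (.negSucc 554867))) (B (K (.ofNat 879252)) (K (.negSucc 1571843)) N N) (B (K (.negSucc 5372675)) (K (.negSucc 2787767)) N N)) (B (B (K (.negSucc 6247487)) (K (.ofNat 1509552)) N N) (B (K (.negSucc 4304267)) (K (.ofNat 889968)) N N) N N) (B (B (K (.negSucc 5454467)) (K (.ofNat 1221444)) N N) (B (K (.negSucc 9598715)) (K (.negSucc 98339)) N N) N N)) (B (B (B (K (.ofNat 335340)) (K (.negSucc 1407119)) N N) (B (K (.negSucc 2749019)) (K (.negSucc 57611)) N N) N N) (B (B (K (.ofNat 8625252)) (K (.ofNat 2518452)) N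 N) (B (K (.ofNat 7796268)) (K (.ofNat 1177968)) N N) N N) N N) (B (B (B (K (.negSucc 43511087)) (K (.negSucc 2963111)) N N) (B (K (.negSucc 36395147)) (K (.ofNat 20878032)) N N) N N) (B (B (K (.negSucc 57197939)) (K (.negSucc 28593923)) N N) (B (K (.negSucc 62572607)) (K (.negSucc 1977839)) N N) N N) N N))⟩,
  ⟨.x, T1, (B (B (B (A2 (K (.negSucc 507179))) N (A0 (K (.ofNat 2401992))) N) N (B (B (K (.negSucc 5645567)) (K (.ofNat 5513232)) N N) (B (K (.negSucc 8464739)) (K (.ofNat 2303448)) N N) N N) N) (B (B (A2 (K (.ofNat 3659424))) N (B (K (.negSucc 8477075)) (K (.ofNat 2869620)) N N) N) (B (A2 (K (.negSucc 23735))) (B N N (K (.negSucc 5456243)) (K (.negSucc 919439))) (B (K (.negSucc 12589379)) (K (.ofNat 6864408)) N N) (B (K (.negSucc 3053771)) (K (.negSucc 1957859)) N N)) (B (B (K (.negSucc 13286855)) (K (.ofNat 5386032)) N N) (B (K (.ofNat 13186896))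 (K (.ofNat 10114596)) N N) N N) (B (B (K (.negSucc 4243943)) (K (.ofNat 5878404)) N N) (B (K (.negSucc 5378087)) (K (.ofNat 4730964)) N N) N N)) (B (B (B (K (.negSucc 50221079)) (K (.negSucc 10643195)) N N) (B (K (.negSucc 46310363)) (K (.ofNat 14256780)) N N) N N) (B (B (K (.negSucc 47525027)) (K (.negSucc 40623347)) N N) (B (K (.negSucc 57259523)) (K (.negSucc 13498691)) N N) N N) N N) (B (B (B (K (.ofNat 1874892)) (K (.negSucc 771851)) N N) (B (K (.ofNat 5061180)) (K (.ofNat 6047376)) N N) N N) (B (B (K (.ofNat 5185248)) (K (.negSucc 1002623)) N N) (A0 (K (.negSucc 7049999))) N N) N N))⟩,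
  ⟨.x, T2, (B (B (B (A0 (K (.negSucc 26144623))) (A1 (K (.ofNat 18078672))) N N) (B (B (K (.negSucc 54643335)) (K (.negSucc 52769463)) N N) (B (K (.negSucc 49877831)) (K (.ofNat 2881764)) N N) N N) N N) (B (B (B (K (.negSucc 48786107)) (K (.negSucc 21716647)) N N) (B (K (.negSucc 43470767)) (K (.ofNat 26391276)) N N) N N) (B (B (K (.negSucc 60374039)) (K (.negSucc 31738727)) N N) (B (K (.negSucc 60402863)) (K (.ofNat 9648)) N N) N N) N N) N N)⟩,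
  ⟨.z, T0, (B (B (B (A0 (K (.negSucc 13094703))) (A1 (K (.ofNat 7480596))) N N) (B (B (K (.negSucc 29573659)) (K (.negSucc 23994667)) N N) (A0 (K (.negSucc 28361591))) N N) N N) (A0 (A0 (A1 (K (.negSucc 3388491))))) N N)⟩,
  ⟨.x, T4, (B (A2 (A2 (K (.negSucc 432323)))) (A3 (A3 (K (.negSucc 126605)))) (B (A2 (K (.negSucc 964043))) (B N N (K (.negSucc 1110305)) (K (.negSucc 437975))) (B (K (.negSucc 84815)) (K (.ofNat 2849826)) N N) N) (B (A2 (K (.ofNat 589308))) (B N N (K (.ofNat 77370)) (K (.ofNat 49974))) (B (K (.ofNat 1483236)) (K (.negSucc 1064369)) N N) (A1 (K (.negSucc 46295)))))⟩,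
  ⟨.x, T5, (B N (B N (B N N (K (.negSucc 1067471)) (K (.ofNat 346932))) N (A1 (K (.ofNat 254232)))) N (A1 (A1 (K (.ofNat 4824)))))⟩,
  ⟨.x, T6, (B (A2 (A2 (K (.negSucc 110375)))) (A3 (A3 (K (.negSucc 77237)))) (B (A2 (K (.negSucc 5759))) (B N N (K (.ofNat 36900)) (K (.negSucc 331631))) (B (K (.ofNat 72576)) (K (.ofNat 418668)) N N) N) (B (A2 (K (.negSucc 273245))) (B N N (K (.negSucc 1635881)) (K (.ofNat 64434))) (B (K (.ofNat 2680560)) (K (.ofNat 4839258)) N N) (B (K (.ofNat 890046)) (K (.negSucc 203183)) N N)))⟩,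
  ⟨.x, T7, (B (B (A2 (K (.negSucc 302831))) N (B (K (.ofNat 221760)) (K (.negSucc 1129043)) N N) N) (B (A2 (K (.negSucc 2692667))) (B N N (K (.negSucc 438491)) (K (.negSucc 2167895))) (B (K (.ofNat 3670548)) (K (.ofNat 4526880)) N N) (B (K (.ofNat 2341164)) (K (.negSucc 2331623)) N N)) (B (B (K (.negSucc 290555)) (K (.negSucc 2202743)) N N) (B (K (.negSucc 3279959)) (K (.negSucc 389483)) N N) N N) (B (B (K (.ofNat 3408)) (K (.ofNat 5199564)) N N) (B (K (.negSucc 4907459)) (K (.negSucc 632795)) N N) N N))⟩,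
  ⟨.x, T8, (B (B (A2 (K (.ofNat 105120))) N (B (K (.ofNat 190512)) (K (.negSucc 236807)) N N) N) (B (A2 (K (.ofNat 31968))) (B N N (K (.negSucc 217499)) (K (.negSucc 872759))) (B (K (.ofNat 359124)) (K (.ofNat 760164)) N N) (B (K (.negSucc 955019)) (K (.negSucc 46943)) N N)) (B (B (K (.negSucc 303875)) (K (.negSucc 527795)) N N) (B (K (.negSucc 271247)) (K (.negSucc 468611)) N N) N N) (B (B (K (.negSucc 4395239)) (K (.ofNat 3595500)) N N) (B (K (.negSucc 7797719)) (K (.ofNat 4441596)) N N) N N))⟩,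
  ⟨.x, T9, (A0 (B (B (K (.negSucc 44783)) (K (.ofNat 1457640)) N N) (B (K (.ofNat 2559636)) (K (.negSucc 273395)) N N) N N))⟩,
  ⟨.x, T10, (A1 (B (A2 (K (.ofNat 634992))) (B N N (K (.negSucc 256679)) (K (.ofNat 110280))) (B (K (.ofNat 458424)) (K (.negSucc 433175)) N N) (A1 (K (.ofNat 378144)))))⟩,
  ⟨.x, T11, (A1 (B (B (K (.ofNat 2011800)) (K (.negSucc 1025903)) N N) (B (K (.ofNat 3563640)) (K (.ofNat 81072)) N N) N N))⟩,
  ⟨.x, T12, (A3 (A3 (K (.ofNat 15144))))⟩,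
  ⟨.x, T13, (B N (A3 (K (.negSucc 201071))) N (A1 (K (.negSucc 74231))))⟩,
  ⟨.x, T14, (B N N (A2 (K (.negSucc 32747))) (B N N (K (.ofNat 473742)) (K (.negSucc 949541))))⟩,
  ⟨.x, T15, (B (A2 (K (.ofNat 533916))) (B N N (K (.ofNat 539388)) (K (.ofNat 484596))) (B (K (.negSucc 133055)) (K (.negSucc 861947)) N N) (B (K (.negSucc 3108563)) (K (.negSucc 2508407)) N N))⟩,
  ⟨.x, T16, (B (A2 (K (.negSucc 311219))) (B N N (K (.ofNat 167076)) (K (.negSucc 66995))) (B (K (.negSucc 171359)) (K (.negSucc 195407)) N N) (B (K (.negSucc 2246831)) (K (.negSucc 2266883)) N N))⟩,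
  ⟨.x, T17, (A0 (B (K (.ofNat 290556)) (K (.ofNat 2617668)) N N))⟩,
  ⟨.x, T18, (B (A2 (K (.negSucc 291983))) N (B (K (.negSucc 81467)) (K (.ofNat 183876)) N N) N)⟩,
  ⟨.x, T19, (A0 (A0 (K (.ofNat 237060))))⟩,
  ⟨.x, T20, (B N (A3 (K (.negSucc 106343))) N (A1 (K (.ofNat 237384))))⟩,
  ⟨.x, T21, (B N (A3 (K (.negSucc 95663))) N (A1 (K (.negSucc 148823))))⟩,
  ⟨.x, T22, (B (B (K (.negSucc 98279)) (K (.ofNat 163296)) N N) (B (K (.ofNat 217728)) (K (.ofNat 279720)) N N) N N)⟩,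
  ⟨.x, T23, (A1 (A1 (K (.ofNat 289368))))⟩,
  ⟨.x, T24, (B N N (K (.ofNat 250992)) (K (.ofNat 39312)))⟩,
  ⟨.x, T25, (B N N (K (.negSucc 180683)) (K (.ofNat 180684)))⟩,
  ⟨.x, T26, (A2 (K (.ofNat 20412)))⟩,
  ⟨.x, T27, (A3 (K (.negSucc 162539)))⟩,
  ⟨.x, T28, (A0 (K (.negSucc 18143)))⟩,
  ⟨.x, T30, (K (.negSucc 90719))⟩,
  ⟨.z, T31, (K (.ofNat 90720))⟩] c_0 c_1 c_2 c_3 .nil .nil)

end Pool.Agent.Helper805.Chain.S6
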