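import Pool.Agent.Helper805.Chain.Target
set_option autoImplicit false
set_option maxRecDepth 100000

/-! Certificate data (found by computer). -/

namespace Pool.Agent.Helper805.Chain.S6
open Pool.Agent.Helper805.Chain

def T0 : Tr := .m .x .z
def T1 : Tr := .m .z .x
def T2 : Tr := .m .z .z
def T3 : Tr := .m .x .x
def T4 : Tr := .m T3 .x
def T5 : Tr := .m T3 .z
def T6 : Tr := .m .x T3
def T7 : Tr := .m .x T0
def T8 : Tr := .m .x T1
def T9 : Tr := .m .x T2
def T10 : Tr := .m .z T3
def T11 : Tr := .m .z T0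
def T12 : Tr := .m T3 T3
def T13 : Tr := .m T3 T0
def T14 : Tr := .m .x T6
def T15 : Tr := .m .x T7
def T16 : Tr := .m .x T8
def T17 : Tr := .m .x T9
def T18 : Tr := .m .x T10
def T19 : Tr := .m .x T11
def T20 : Tr := .m .z T4
def T21 : Tr := .m .z T6
def T22 : Tr := .m .z T7
def T23 : Tr := .m .z T8
def T24 : Tr := .m .x T15
def T25 : Tr := .m .x T16
def T26 : Tr := .m .x T18
def T27 : Tr := .m .z T14
def T28 : Tr := .m .z T15
def T29 : Tr := .m .x T19
def T30 : Tr := .m .x T29
def T31 : Tr := .m .x T24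
def T32 : Tr := .m .z T5
def T33 : Tr := .m .x T17
def T34 : Tr := .m .x T22
def T35 : Tr := .m .z T13
def T36 : Tr := .m .x T5
def T37 : Tr := .m .z T36
def T38 : Tr := .m .z T16
def T39 : Tr := .m .z T12
def T40 : Tr := .m .x T4
def T41 : Tr := .m .z T40

end Pool.Agent.Helper805.Chain.S6
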