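import Pool.Agent.Helper805.Chain.Word
set_option autoImplicit false

/-! Soundness of the operator words in super-alternative rings. -/

namespace Pool.Agent.Helper805.Chain
open Pool.Agent.Helper805.Nuc.Tens
open Tri

variable {R : Type} [NonUnitalNonAssocRing R]

/-- `s` represents the operator family `g` of degree `d` on homogeneous elements -/
structure Op (P : ℕ → AddSubgroup R) (p : Bool) (x z w : R) (s : Tri) (d : ℕ) (g : ℕ → R → R) : Prop where
  mem : ∀ e m, m ∈ P (e % 2) → g e m ∈ P ((e + d) % 2)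
  eval : ∀ (f : ℕ → R → R), Addi f → ∀ e m, m ∈ P (e % 2) → ev p x z w f s e m = f (e + d) (g e m)

variable {P : ℕ → AddSubgroup R} {p : Bool} {x z w : R}

theorem Op.add {s t : Tri} {d : ℕ} {g h : ℕ → R → R} (hs : Op P p x z w s d g) (ht : Op P p x z w t d h) :
    Op P p x z w (Tri.add s t) d (fun e m => g e m + h e m) where
  mem e m hm := AddSubgroup.add_mem _ (hs.mem e m hm) (ht.mem e m hm)
  eval f hf e m hm := by rw [ev_add, hs.eval f hf e m hm, ht.eval f hf e m hm, hf]

theorem Op.smul {s : Tri} {d : ℕ} {g : ℕ → R → R} (c : ℤ) (hs : Op P p x z w s d g) :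
    Op P p x z w (Tri.smul c s) d (fun e m => c • g e m) where
  mem e m hm := AddSubgroup.zsmul_mem _ (hs.mem e m hm) c
  eval f hf e m hm := by rw [ev_smul, hs.eval f hf e m hm, hf.smul]

theorem Op.mul {s v : Tri} {d d' : ℕ} {g h : ℕ → R → R} (hs : Op P p x z w s d g) (hv : Op P p x z w v d' h) :
    Op P p x z w (Tri.mul v s) (d + d') (fun e m => h (e + d) (g e m)) where
  mem e m hm := by
    have := hv.mem (e + d) (g e m) (hs.mem e m hm)
    rwa [add_assoc] at this
  eval f hf e m hm := by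
    rw [ev_mul, hs.eval _ (ev_addi p x z w hf v) e m hm, hv.eval f hf _ _ (hs.mem e m hm), add_assoc]

theorem Op.congr {s : Tri} {d d' : ℕ} {g g' : ℕ → R → R} (hs : Op P p x z w s d g) (hd : d = d')
    (h : ∀ e m, m ∈ P (e % 2) → g e m = g' e m) : Op P p x z w s d' g' := by
  subst hd
  refine ⟨fun e m hm => ?_, fun f hf e m hm => ?_⟩
  · rw [← h e m hm]; exact hs.mem e m hm
  · rw [← h e m hm]; exact hs.eval f hf e m hm

/-- the operators form a family closed under integer combinations and composition; here is the identity -/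
theorem Op.one : Op P p x z w l1 0 (fun _ m => m) where
  mem e m hm := hm
  eval f hf e m hm := by simp [l1, ev]

theorem Op.nil (d : ℕ) : Op P p x z w .nil d (fun _ _ => 0) where
  mem e m hm := AddSubgroup.zero_mem _
  eval f hf e m hm := by rw [ev, hf.zero]

variable (hP : SuperAlt R P) (hx : x ∈ P 1) (hz : z ∈ P (dg p % 2)) (hw : w ∈ P 0)
include hP

theorem mul_mem' {i j : ℕ} {a b : R} (ha : a ∈ P (i % 2)) (hb : b ∈ P (j % 2)) : a * b ∈ P ((i + j) % 2) := by
  have := hP.mul_mem ha hb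
  rwa [← Nat.add_mod] at this

theorem left' {i j k : ℕ} {a b c : R} (ha : a ∈ P (i % 2)) (hb : b ∈ P (j % 2)) (hc : c ∈ P (k % 2)) :
    as a b c = - (((-1 : ℤ) ^ (i * j)) • as b a c) := by
  rw [hP.left (Nat.mod_lt _ two_pos) (Nat.mod_lt _ two_pos) ha hb hc, sign_pow rfl rfl, neg_smul, neg_neg]

theorem right' {i j k : ℕ} {a b c : R} (ha : a ∈ P (i % 2)) (hb : b ∈ P (j % 2)) (hc : c ∈ P (k % 2)) :
    as a b c = - (((-1 : ℤ) ^ (j * k)) • as a c b) := by
  rw [hP.right (Nat.mod_lt _ two_pos) (Nat.mod_lt _ two_pos) ha hb hc, sign_pow rfl rfl, neg_smul, neg_neg]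

theorem Op.rgt (d : ℕ) (u : R) (hu : u ∈ P (d % 2)) {s : Tri}
    (hs : ∀ (f : ℕ → R → R) (e : ℕ) (m : R), ev p x z w f s e m = f (e + d) (m * u)) :
    Op P p x z w s d (fun _ m => m * u) where
  mem e m hm := mul_mem' hP hm hu
  eval f _ _ _ _ := hs f _ _

theorem Op.lft (d : ℕ) (u : R) (hu : u ∈ P (d % 2)) {s : Tri}
    (hs : ∀ (f : ℕ → R → R) e m, ev p x z w f s e m = f (e + d) (Lm d u e m)) :
    Op P p x z w s d (fun e m => ((-1 : ℤ) ^ (e * d)) • (u * m)) where
  mem e m hm := by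
    rw [add_comm]
    exact AddSubgroup.zsmul_mem _ (mul_mem' hP hu hm) _
  eval f _ e m _ := by rw [hs f e m]; rfl

/-- the pair `A` represents right and twisted left multiplication by the element `u` of degree `d` -/
structure Rep (P : ℕ → AddSubgroup R) (p : Bool) (x z w : R) (A : Tri × Tri) (d : ℕ) (u : R) : Prop where
  mem : u ∈ P (d % 2)
  r : Op P p x z w A.1 d (fun _ m => m * u)
  l : Op P p x z w A.2 d (fun e m => ((-1 : ℤ) ^ (e * d)) • (u * m))

include hx in
theorem rep_x : Rep P p x z w (lrx, llx) 1 x where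
  mem := hx
  r := Op.rgt hP 1 x hx (fun f e m => by simp [lrx, l1, ev])
  l := Op.lft hP 1 x hx (fun f e m => by simp [llx, l1, ev])

include hz in
theorem rep_z : Rep P p x z w (lrz, llz) (dg p) z where
  mem := hz
  r := Op.rgt hP (dg p) z hz (fun f e m => by simp [lrz, l1, ev])
  l := Op.lft hP (dg p) z hz (fun f e m => by simp [llz, l1, ev])

include hw in
theorem rep_w : Rep P p x z w (lrw, llw) 0 w where
  mem := hw
  r := Op.rgt hP 0 w hw (fun f e m => by simp [lrw, l1, ev])
  l := Op.lft hP 0 w hw (fun f e m => by simp [llw, l1, ev])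

omit hP in
/-- the associator operator `m ↦ ± (A, m, B)` -/
theorem Rep.X {A B : Tri × Tri} {d d' : ℕ} {u v : R} (ha : Rep P p x z w A d u) (hb : Rep P p x z w B d' v) :
    Op P p x z w (Xp ((-1) ^ (d * d')) A.2 B.1) (d + d') (fun e m => ((-1 : ℤ) ^ (e * d)) • as u m v) := by
  refine ((ha.l.mul hb.r).add (((hb.r.mul ha.l).smul (Int.neg ((-1) ^ (d * d')))).congr (add_comm _ _) (fun _ _ _ => rfl))).congr rfl ?_
  intro e m _
  rw [show Int.neg ((-1) ^ (d * d')) = -((-1 : ℤ) ^ (d * d')) from rfl, add_mul, pow_add, mul_comm d' d]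
  obtain h | h := neg_one_pow_eq_or ℤ (d * d') <;> rw [h] <;> unfold as <;>
    simp only [smul_mul_assoc, smul_sub, neg_smul, smul_smul, mul_one, mul_neg, neg_mul, one_smul, neg_neg, one_mul] <;>
    abel

theorem Rep.mul {A B : Tri × Tri} {d d' : ℕ} {u v : R} (ha : Rep P p x z w A d u) (hb : Rep P p x z w B d' v) :
    Rep P p x z w (RLm ((-1) ^ (d * d')) A B) (d + d') (u * v) := by
  have X := ha.X hb
  refine ⟨mul_mem' hP ha.mem hb.mem, ?_, ?_⟩
  · refine ((ha.r.mul hb.r).add X).congr rfl ?_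
    intro e m hm
    have h1 := left' hP hm ha.mem hb.mem
    show m * u * v + ((-1 : ℤ) ^ (e * d)) • as u m v = m * (u * v)
    have h2 : as m u v = m * u * v - m * (u * v) := rfl
    rw [h2] at h1
    rw [sub_eq_iff_eq_add] at h1
    rw [h1]; abel
  · refine ((((hb.l.mul ha.l).smul ((-1) ^ (d * d'))).congr (add_comm _ _) (fun _ _ _ => rfl)).add
      (X.smul (Int.negSucc 0))).congr rfl ?_
    intro e m hm
    have h1 := right' hP ha.mem hb.mem hm
    show (-1 : ℤ) ^ (d * d') • ((-1 : ℤ) ^ ((e + d') * d)) • (u * (((-1 : ℤ) ^ (e * d')) • (v * m))) +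
        (-1 : ℤ) • ((-1 : ℤ) ^ (e * d)) • as u m v =
      ((-1 : ℤ) ^ (e * (d + d'))) • ((u * v) * m)
    have h2 : as u v m = u * v * m - u * (v * m) := rfl
    rw [h2, sub_eq_iff_eq_add] at h1
    rw [h1, add_mul, mul_add, pow_add, pow_add, mul_comm d' d, mul_comm d' e]
    obtain h | h := neg_one_pow_eq_or ℤ (d * d') <;> obtain h' | h' := neg_one_pow_eq_or ℤ (e * d') <;>
    obtain h'' | h'' := neg_one_pow_eq_or ℤ (e * d) <;> rw [h, h', h''] <;> simp <;> abel

omit hP in
theorem Rep.add {A B : Tri × Tri} {d : ℕ} {u v : R} (ha : Rep P p x z w A d u) (hb : Rep P p x z w B d v) :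
    Rep P p x z w (Tri.add A.1 B.1, Tri.add A.2 B.2) d (u + v) where
  mem := AddSubgroup.add_mem _ ha.mem hb.mem
  r := (ha.r.add hb.r).congr rfl (fun _ _ _ => (mul_add _ _ _).symm)
  l := (ha.l.add hb.l).congr rfl (fun _ _ _ => by
    show _ • (u * _) + _ • (v * _) = _ • ((u + v) * _)
    rw [add_mul, smul_add])

omit hP in
theorem Rep.smul {A : Tri × Tri} {d : ℕ} {u : R} (c : ℤ) (ha : Rep P p x z w A d u) :
    Rep P p x z w (Tri.smul c A.1, Tri.smul c A.2) d (c • u) where
  mem := AddSubgroup.zsmul_mem _ ha.mem c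
  r := (ha.r.smul c).congr rfl (fun _ _ _ => (mul_smul_comm _ _ _).symm)
  l := (ha.l.smul c).congr rfl (fun _ _ _ => by
    show c • _ • (u * _) = _ • ((c • u) * _)
    rw [smul_mul_assoc, smul_comm])

include hx hz hw in
theorem RL_sound (t : Tr) : Rep P p x z w (RL p t) (t.deg p) (t.val x z w) := by
  induction t with
  | x => exact rep_x hP hx
  | z => exact rep_z hP hz
  | w => exact rep_w hP hw
  | m a b iha ihb =>
    have h := iha.mul hP ihb
    rw [← sgb_eq (odd_iff p a) (odd_iff p b)] at h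
    exact h

include hx hz hw in
theorem skew_sound (a b : Tr) : Op P p x z w (skew p a b) (a.deg p + b.deg p) (fun _ _ => 0) := by
  have ha := RL_sound hP hx hz hw a
  have hb := RL_sound hP hx hz hw b
  have A := ha.X hb
  have B := hb.X ha
  have hs : sgb (a.odd p) (b.odd p) = (-1) ^ (a.deg p * b.deg p) := sgb_eq (odd_iff p a) (odd_iff p b)
  rw [mul_comm (b.deg p)] at B
  rw [← hs] at A B
  unfold skew
  refine (A.add ((B.smul (sgb (a.odd p) (b.odd p))).congr (add_comm _ _) (fun _ _ _ => rfl))).congr rfl ?_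
  intro e m hm
  have va := ha.mem
  have vb := hb.mem
  have h1 := left' hP va hm vb
  have h2 := right' hP hm va vb
  have h3 := left' hP hm vb va
  show ((-1 : ℤ) ^ (e * a.deg p)) • as (a.val x z w) m (b.val x z w) +
    sgb (a.odd p) (b.odd p) • ((-1 : ℤ) ^ (e * b.deg p)) • as (b.val x z w) m (a.val x z w) = 0
  rw [h1, h2, h3, hs, mul_comm (a.deg p) e]
  obtain h | h := neg_one_pow_eq_or ℤ (a.deg p * b.deg p) <;> obtain h' | h' := neg_one_pow_eq_or ℤ (e * b.deg p) <;>
    obtain h'' | h'' := neg_one_pow_eq_or ℤ (e * a.deg p) <;> rw [h, h', h''] <;> simp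

end Pool.Agent.Helper805.Chain
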