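import Pool.Agent.Helper805.Chain.Expr
set_option autoImplicit false

/-! The expressions `P5`, `V6`, `P6` and the polynomials of the four identities. -/

namespace Pool.Agent.Helper805.Chain
open Pool.Agent.Helper805.Nuc.Tens

namespace Ex

/-- `(z, x, x)` -/
def K : Ex := as z x x

/-- degree `(5, 2)`, both letters odd -/
def P5 : Ex := sb (.ad (.sm (-3) (br (jo K x) K)) (.sm 4 (br (as (jo z x) x x) (br (.mu x x) z)))) (.sm 9 (br (.mu K K) x))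

/-- degree `(5, 1)`, second letter even -/
def V6 : Ex := .ad (sb (.sm 2 (br (br (.mu x x) z) (br (.mu x x) x))) (br (jo (br K x) x) x))
  (.sm 2 (as (br (jo (br z x) x) x) x x))

/-- degree `(6, 2)`, second letter even -/
def P6 : Ex := sb (jo (br z V6) x) (.sm 3 (as z V6 x))

/-- the signed derivative of `P5` in the direction `x ↦ w` -/
def Q0 : Ex := (.ad
  (.ad (.sm (-3)
  (.ad (.ad (.mu
  (.ad (.ad (.mu
  (.ad (.ad (.mu (.sm (-1) (.mu .z .w)) .x) (.mu (.mu .z .x) .w)) (.sm (-1) (.sm (-1) (.mu .z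
  (.ad (.mu .w .x) (.sm (-1) (.mu .x .w))))))) .x) (.sm (-1) (.mu
  (.ad (.mu (.mu .z .x) .x) (.sm (-1) (.mu .z (.mu .x .x)))) .w)))
  (.ad (.mu .w
  (.ad (.mu (.mu .z .x) .x) (.sm (-1) (.mu .z (.mu .x .x))))) (.sm (-1) (.mu .x
  (.ad (.ad (.mu (.sm (-1) (.mu .z .w)) .x) (.mu (.mu .z .x) .w)) (.sm (-1) (.sm (-1) (.mu .z
  (.ad (.mu .w .x) (.sm (-1) (.mu .x .w)))))))))))
  (.ad (.mu (.mu .z .x) .x) (.sm (-1) (.mu .z (.mu .x .x))))) (.mu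
  (.ad (.mu
  (.ad (.mu (.mu .z .x) .x) (.sm (-1) (.mu .z (.mu .x .x)))) .x) (.mu .x
  (.ad (.mu (.mu .z .x) .x) (.sm (-1) (.mu .z (.mu .x .x))))))
  (.ad (.ad (.mu (.sm (-1) (.mu .z .w)) .x) (.mu (.mu .z .x) .w)) (.sm (-1) (.sm (-1) (.mu .z
  (.ad (.mu .w .x) (.sm (-1) (.mu .x .w))))))))) (.sm (-1)
  (.ad (.mu
  (.ad (.ad (.mu (.sm (-1) (.mu .z .w)) .x) (.mu (.mu .z .x) .w)) (.sm (-1) (.sm (-1) (.mu .z
  (.ad (.mu .w .x) (.sm (-1) (.mu .x .w)))))))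
  (.ad (.mu
  (.ad (.mu (.mu .z .x) .x) (.sm (-1) (.mu .z (.mu .x .x)))) .x) (.mu .x
  (.ad (.mu (.mu .z .x) .x) (.sm (-1) (.mu .z (.mu .x .x))))))) (.sm (-1) (.mu
  (.ad (.mu (.mu .z .x) .x) (.sm (-1) (.mu .z (.mu .x .x))))
  (.ad (.ad (.mu
  (.ad (.ad (.mu (.sm (-1) (.mu .z .w)) .x) (.mu (.mu .z .x) .w)) (.sm (-1) (.sm (-1) (.mu .z
  (.ad (.mu .w .x) (.sm (-1) (.mu .x .w))))))) .x) (.sm (-1) (.mu
  (.ad (.mu (.mu .z .x) .x) (.sm (-1) (.mu .z (.mu .x .x)))) .w)))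
  (.ad (.mu .w
  (.ad (.mu (.mu .z .x) .x) (.sm (-1) (.mu .z (.mu .x .x))))) (.sm (-1) (.mu .x
  (.ad (.ad (.mu (.sm (-1) (.mu .z .w)) .x) (.mu (.mu .z .x) .w)) (.sm (-1) (.sm (-1) (.mu .z
  (.ad (.mu .w .x) (.sm (-1) (.mu .x .w))))))))))))))))) (.sm (4)
  (.ad (.ad (.mu
  (.ad (.ad (.mu
  (.ad (.mu
  (.ad (.sm (-1) (.mu .z .w)) (.mu .w .z)) .x) (.mu
  (.ad (.mu .z .x) (.mu .x .z)) .w)) .x) (.sm (-1) (.mu (.mu
  (.ad (.mu .z .x) (.mu .x .z)) .x) .w))) (.sm (-1)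
  (.ad (.mu
  (.ad (.sm (-1) (.mu .z .w)) (.mu .w .z)) (.mu .x .x)) (.mu
  (.ad (.mu .z .x) (.mu .x .z))
  (.ad (.mu .w .x) (.sm (-1) (.mu .x .w)))))))
  (.ad (.mu (.mu .x .x) .z) (.sm (-1) (.mu .z (.mu .x .x))))) (.mu
  (.ad (.mu (.mu
  (.ad (.mu .z .x) (.mu .x .z)) .x) .x) (.sm (-1) (.mu
  (.ad (.mu .z .x) (.mu .x .z)) (.mu .x .x))))
  (.ad (.mu
  (.ad (.mu .w .x) (.sm (-1) (.mu .x .w))) .z) (.sm (-1) (.sm (-1) (.mu .z
  (.ad (.mu .w .x) (.sm (-1) (.mu .x .w))))))))) (.sm (-1)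
  (.ad (.mu
  (.ad (.mu
  (.ad (.mu .w .x) (.sm (-1) (.mu .x .w))) .z) (.sm (-1) (.sm (-1) (.mu .z
  (.ad (.mu .w .x) (.sm (-1) (.mu .x .w)))))))
  (.ad (.mu (.mu
  (.ad (.mu .z .x) (.mu .x .z)) .x) .x) (.sm (-1) (.mu
  (.ad (.mu .z .x) (.mu .x .z)) (.mu .x .x))))) (.sm (-1) (.mu
  (.ad (.mu (.mu .x .x) .z) (.sm (-1) (.mu .z (.mu .x .x))))
  (.ad (.ad (.mu
  (.ad (.mu
  (.ad (.sm (-1) (.mu .z .w)) (.mu .w .z)) .x) (.mu
  (.ad (.mu .z .x) (.mu .x .z)) .w)) .x) (.sm (-1) (.mu (.mu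
  (.ad (.mu .z .x) (.mu .x .z)) .x) .w))) (.sm (-1)
  (.ad (.mu
  (.ad (.sm (-1) (.mu .z .w)) (.mu .w .z)) (.mu .x .x)) (.mu
  (.ad (.mu .z .x) (.mu .x .z))
  (.ad (.mu .w .x) (.sm (-1) (.mu .x .w)))))))))))))) (.sm (-1) (.sm (9)
  (.ad (.ad (.mu
  (.ad (.mu
  (.ad (.ad (.mu (.sm (-1) (.mu .z .w)) .x) (.mu (.mu .z .x) .w)) (.sm (-1) (.sm (-1) (.mu .z
  (.ad (.mu .w .x) (.sm (-1) (.mu .x .w)))))))
  (.ad (.mu (.mu .z .x) .x) (.sm (-1) (.mu .z (.mu .x .x))))) (.sm (-1) (.mu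
  (.ad (.mu (.mu .z .x) .x) (.sm (-1) (.mu .z (.mu .x .x))))
  (.ad (.ad (.mu (.sm (-1) (.mu .z .w)) .x) (.mu (.mu .z .x) .w)) (.sm (-1) (.sm (-1) (.mu .z
  (.ad (.mu .w .x) (.sm (-1) (.mu .x .w)))))))))) .x) (.mu (.mu
  (.ad (.mu (.mu .z .x) .x) (.sm (-1) (.mu .z (.mu .x .x))))
  (.ad (.mu (.mu .z .x) .x) (.sm (-1) (.mu .z (.mu .x .x))))) .w)) (.sm (-1)
  (.ad (.mu .w (.mu
  (.ad (.mu (.mu .z .x) .x) (.sm (-1) (.mu .z (.mu .x .x))))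
  (.ad (.mu (.mu .z .x) .x) (.sm (-1) (.mu .z (.mu .x .x)))))) (.sm (-1) (.mu .x
  (.ad (.mu
  (.ad (.ad (.mu (.sm (-1) (.mu .z .w)) .x) (.mu (.mu .z .x) .w)) (.sm (-1) (.sm (-1) (.mu .z
  (.ad (.mu .w .x) (.sm (-1) (.mu .x .w)))))))
  (.ad (.mu (.mu .z .x) .x) (.sm (-1) (.mu .z (.mu .x .x))))) (.sm (-1) (.mu
  (.ad (.mu (.mu .z .x) .x) (.sm (-1) (.mu .z (.mu .x .x))))
  (.ad (.ad (.mu (.sm (-1) (.mu .z .w)) .x) (.mu (.mu .z .x) .w)) (.sm (-1) (.sm (-1) (.mu .z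
  (.ad (.mu .w .x) (.sm (-1) (.mu .x .w))))))))))))))))))

end Ex
open Ex

/-- abbreviations for polynomials -/
@[reducible] def N : Tri := .nil
@[reducible] def K (k : ℤ) : Tri := .node k .nil .nil .nil .nil .nil .nil
@[reducible] def A0 (t : Tri) : Tri := .node (.ofNat 0) t .nil .nil .nil .nil .nil
@[reducible] def A1 (t : Tri) : Tri := .node (.ofNat 0) .nil t .nil .nil .nil .nil
@[reducible] def A2 (t : Tri) : Tri := .node (.ofNat 0) .nil .nil t .nil .nil .nil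
@[reducible] def A3 (t : Tri) : Tri := .node (.ofNat 0) .nil .nil .nil t .nil .nil
@[reducible] def A4 (t : Tri) : Tri := .node (.ofNat 0) .nil .nil .nil .nil t .nil
@[reducible] def A5 (t : Tri) : Tri := .node (.ofNat 0) .nil .nil .nil .nil .nil t
@[reducible] def B (a b c d : Tri) : Tri := .node (.ofNat 0) a b c d .nil .nil
@[reducible] def C (a b c d g h : Tri) : Tri := .node (.ofNat 0) a b c d g h

/-- difference -/
noncomputable def sub (s t : Tri) : Tri := Tri.add s (Tri.smul (.negSucc 0) t)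

/-- centrality of `P5` -/
noncomputable def tC5 : Tri := sub (P5.RL true).1 (P5.RL true).2
/-- centrality of `P6` -/
noncomputable def tC6 : Tri := sub (P6.RL false).1 (P6.RL false).2
/-- the derivation property of `P5` -/
noncomputable def tD5 : Tri := sub (Tri.mul (P5.dq true) lrw) (Tri.add (Q0.RL true).1 (Tri.mul lrw (P5.dq true)))
/-- skewness of the derivation given by `P6` -/
noncomputable def tS6 : Tri :=
  Tri.add (Tri.add (Tri.mul (sub lrx llx) (Tri.mul (sub llz lrz) (V6.dq false)))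
    (Tri.smul (.negSucc 2) (Tri.mul (Xp (.ofNat 1) llz lrx) (V6.dq false))))
  (Tri.add (Tri.smul (.negSucc 4) (sub ((br z V6).RL false).1 ((br z V6).RL false).2))
    (Tri.smul (.ofNat 15) (Xp (.ofNat 1) llz (V6.RL false).1)))

end Pool.Agent.Helper805.Chain
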