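import Pool.Agent.Helper805.Nuc.Tens
set_option autoImplicit false

/-!
Operator words in super-alternative rings, for an odd letter `x`, a letter `z` of parity `p` and an
even letter `w` (the two-letter version is by helper928).

Polynomials in six non-commuting letters (right and twisted left multiplications) are stored as
trees `Tri`.  Every monomial `T` (a `Tr`) acts by right and twisted left multiplication; `Rp T` and
`Lp T` are the corresponding polynomials in the letters; `skew T S` acts as zero.
-/

namespace Pool.Agent.Helper805.Chain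
open Pool.Agent.Helper805.Nuc.Tens

/-- polynomials in six non-commuting letters: coefficient of the empty word, and the six
polynomials following each first letter -/
inductive Tri
  | nil : Tri
  | node : ℤ → Tri → Tri → Tri → Tri → Tri → Tri → Tri

namespace Tri

/-- sum -/
noncomputable def add (s : Tri) : Tri → Tri :=
  Tri.rec (motive := fun _ => Tri → Tri) (fun t => t)
    (fun k a b c d g h iha ihb ihc ihd ihg ihh t =>
      Tri.casesOn (motive := fun _ => Tri) t (node k a b c d g h)
        (fun k' a' b' c' d' g' h' =>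
          node (Int.add k k') (iha a') (ihb b') (ihc c') (ihd d') (ihg g') (ihh h'))) s

theorem nil_add (t : Tri) : add nil t = t := rfl
theorem node_add_nil (k : ℤ) (a b c d g h : Tri) : add (node k a b c d g h) nil = node k a b c d g h := rfl
theorem node_add_node (k : ℤ) (a b c d g h : Tri) (k' : ℤ) (a' b' c' d' g' h' : Tri) :
    add (node k a b c d g h) (node k' a' b' c' d' g' h') =
      node (k + k') (add a a') (add b b') (add c c') (add d d') (add g g') (add h h') := rfl

/-- multiplication by an integer -/
noncomputable def smul (z : ℤ) (s : Tri) : Tri :=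
  Tri.rec (motive := fun _ => Tri) nil
    (fun k _ _ _ _ _ _ iha ihb ihc ihd ihg ihh => node (Int.mul z k) iha ihb ihc ihd ihg ihh) s

theorem smul_nil (z : ℤ) : smul z nil = nil := rfl
theorem smul_node (z k : ℤ) (a b c d g h : Tri) :
    smul z (node k a b c d g h) =
      node (z * k) (smul z a) (smul z b) (smul z c) (smul z d) (smul z g) (smul z h) := rfl

/-- is this integer `0`? -/
def isz : ℤ → Bool
  | .ofNat n => Nat.beq n 0
  | .negSucc _ => false

theorem isz_eq {k : ℤ} (h : isz k = true) : k = 0 := by
  cases k with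
  | ofNat n =>
    simp only [isz] at h
    have := Nat.eq_of_beq_eq_true h
    subst this; rfl
  | negSucc n => simp [isz] at h

/-- `mul v s` is the product `s * v` -/
noncomputable def mul (v s : Tri) : Tri :=
  Tri.rec (motive := fun _ => Tri) nil
    (fun k _ _ _ _ _ _ iha ihb ihc ihd ihg ihh =>
      Bool.rec (motive := fun _ => Tri) (add (smul k v) (node (.ofNat 0) iha ihb ihc ihd ihg ihh))
        (node (.ofNat 0) iha ihb ihc ihd ihg ihh) (isz k)) s

theorem mul_nil (v : Tri) : mul v nil = nil := rfl
theorem mul_node (v : Tri) (k : ℤ) (a b c d g h : Tri) :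
    mul v (node k a b c d g h) =
      Bool.rec (motive := fun _ => Tri)
        (add (smul k v) (node 0 (mul v a) (mul v b) (mul v c) (mul v d) (mul v g) (mul v h)))
        (node 0 (mul v a) (mul v b) (mul v c) (mul v d) (mul v g) (mul v h)) (isz k) := rfl

/-- is this the zero polynomial? -/
noncomputable def isZ (s : Tri) : Bool :=
  Tri.rec (motive := fun _ => Bool) true
    (fun k _ _ _ _ _ _ iha ihb ihc ihd ihg ihh =>
      isz k && (iha && (ihb && (ihc && (ihd && (ihg && ihh)))))) s

theorem isZ_node (k : ℤ) (a b c d g h : Tri) :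
    isZ (node k a b c d g h) = (isz k && (isZ a && (isZ b && (isZ c && (isZ d && (isZ g && isZ h)))))) := rfl

end Tri
open Tri

/-- the parity of the second letter as a number -/
def dg (p : Bool) : ℕ := Bool.rec 0 1 p

section eval
variable {R : Type} [NonUnitalNonAssocRing R]

/-- twisted left multiplication by an element of degree `d` -/
def Lm (d : ℕ) (x : R) (e : ℕ) (m : R) : R := ((-1 : ℤ) ^ (e * d)) • (x * m)

/-- evaluation of a polynomial at `m` (of parity `e`), followed by `f` -/
noncomputable def ev (p : Bool) (x z w : R) (f : ℕ → R → R) : Tri → ℕ → R → R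
  | nil, _, _ => 0
  | node k a b c d g h, e, m =>
    k • f e m + ev p x z w f a (e + 1) (m * x) + ev p x z w f b (e + 1) (Lm 1 x e m) +
      ev p x z w f c (e + dg p) (m * z) + ev p x z w f d (e + dg p) (Lm (dg p) z e m) +
      ev p x z w f g (e + 0) (m * w) + ev p x z w f h (e + 0) (Lm 0 w e m)

variable (p : Bool) (x z w : R) (f : ℕ → R → R)

theorem ev_add (s : Tri) : ∀ (t : Tri) (e : ℕ) (m : R),
    ev p x z w f (add s t) e m = ev p x z w f s e m + ev p x z w f t e m := by
  induction s with
  | nil => intro t e m; rw [nil_add, ev, zero_add]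
  | node k a b c d g h iha ihb ihc ihd ihg ihh =>
    intro t e m
    cases t with
    | nil =>
      rw [node_add_nil]
      have h0 : ev p x z w f nil e m = 0 := by rw [ev]
      rw [h0]; exact (add_zero _).symm
    | node k' a' b' c' d' g' h' =>
      rw [node_add_node]
      simp only [ev, iha, ihb, ihc, ihd, ihg, ihh, add_smul]
      abel

theorem ev_smul (c : ℤ) (s : Tri) : ∀ (e : ℕ) (m : R),
    ev p x z w f (smul c s) e m = c • ev p x z w f s e m := by
  induction s with
  | nil => intro e m; rw [smul_nil, ev, smul_zero]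
  | node k a b c' d g h iha ihb ihc ihd ihg ihh =>
    intro e m
    rw [smul_node]
    simp only [ev, iha, ihb, ihc, ihd, ihg, ihh, smul_add, mul_smul]

theorem ev_mul (v s : Tri) : ∀ (e : ℕ) (m : R),
    ev p x z w f (mul v s) e m = ev p x z w (fun e' m' => ev p x z w f v e' m') s e m := by
  induction s with
  | nil => intro e m; rw [mul_nil, ev, ev]
  | node k a b c d g h iha ihb ihc ihd ihg ihh =>
    intro e m
    rw [mul_node]
    cases hk : isz k with
    | false =>
      simp only [ev_add, ev_smul, ev, iha, ihb, ihc, ihd, ihg, ihh, zero_smul, zero_add]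
      abel
    | true =>
      have := isz_eq hk
      subst this
      simp only [ev, iha, ihb, ihc, ihd, ihg, ihh, zero_smul, zero_add]

theorem ev_isZ (s : Tri) : isZ s = true → ∀ (e : ℕ) (m : R), ev p x z w f s e m = 0 := by
  induction s with
  | nil => intro _ e m; rw [ev]
  | node k a b c d g h iha ihb ihc ihd ihg ihh =>
    intro h e m
    rw [isZ_node] at h
    simp only [Bool.and_eq_true] at h
    obtain ⟨hk, ha, hb, hc, hd, hg, hh⟩ := h
    rw [ev, iha ha, ihb hb, ihc hc, ihd hd, ihg hg, ihh hh, isz_eq hk]
    simp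

/-- a family of additive maps -/
def Addi (f : ℕ → R → R) : Prop := ∀ e a b, f e (a + b) = f e a + f e b

variable {f}

theorem Addi.zero (hf : Addi f) (e : ℕ) : f e 0 = 0 := by
  have := hf e 0 0
  rw [add_zero] at this
  exact left_eq_add.mp this

theorem Addi.smul (hf : Addi f) (e : ℕ) (c : ℤ) (a : R) : f e (c • a) = c • f e a :=
  map_zsmul (AddMonoidHom.mk' (f e) (hf e)) c a

theorem ev_addi (hf : Addi f) (s : Tri) : Addi (fun e m => ev p x z w f s e m) := by
  induction s with
  | nil => intro e a b; simp only [ev, add_zero]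
  | node k a b c d g h iha ihb ihc ihd ihg ihh =>
    intro e m m'
    have h1 := iha (e + 1) (m * x) (m' * x)
    have h2 := ihb (e + 1) (Lm 1 x e m) (Lm 1 x e m')
    have h3 := ihc (e + dg p) (m * z) (m' * z)
    have h4 := ihd (e + dg p) (Lm (dg p) z e m) (Lm (dg p) z e m')
    have h5 := ihg (e + 0) (m * w) (m' * w)
    have h6 := ihh (e + 0) (Lm 0 w e m) (Lm 0 w e m')
    simp only at h1 h2 h3 h4 h5 h6
    have e1 : ∀ (d : ℕ) (y : R), Lm d y e (m + m') = Lm d y e m + Lm d y e m' := by
      intro d y; unfold Lm; rw [mul_add, smul_add]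
    simp only [ev]
    rw [e1, e1, e1, add_mul, add_mul, add_mul, h1, h2, h3, h4, h5, h6, hf, smul_add]
    abel

end eval

/-- non-associative monomials in three letters -/
inductive Tr
  | x : Tr
  | z : Tr
  | w : Tr
  | m : Tr → Tr → Tr

namespace Tr
/-- degree (number of odd letters) -/
def deg (p : Bool) : Tr → ℕ
  | x => 1
  | z => dg p
  | w => 0
  | m a b => a.deg p + b.deg p

/-- degree modulo `2`: is it odd? -/
noncomputable def odd (p : Bool) (t : Tr) : Bool :=
  Tr.rec (motive := fun _ => Bool) true p false (fun _ _ a b => Bool.xor a b) t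

/-- value -/
def val {R : Type} [NonUnitalNonAssocRing R] (u v w' : R) : Tr → R
  | x => u
  | z => v
  | w => w'
  | m a b => a.val u v w' * b.val u v w'
end Tr

/-- the sign of two parities -/
def sgb (a b : Bool) : ℤ := Bool.rec (Int.ofNat 1) (Int.negSucc 0) (and a b)

theorem odd_iff (p : Bool) (a : Tr) : a.odd p = true ↔ Odd (a.deg p) := by
  induction a with
  | x => simp [Tr.odd, Tr.deg]
  | z => cases p <;> simp [Tr.odd, Tr.deg, dg]
  | w => simp [Tr.odd, Tr.deg]
  | m a b iha ihb =>
    have : (Tr.m a b).odd p = Bool.xor (a.odd p) (b.odd p) := rfl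
    rw [this, Tr.deg, Nat.odd_add, ← iha, ← Nat.not_odd_iff_even, ← ihb]
    cases a.odd p <;> cases b.odd p <;> simp

theorem sgb_eq {a b : Bool} {m n : ℕ} (ha : a = true ↔ Odd m) (hb : b = true ↔ Odd n) :
    sgb a b = (-1) ^ (m * n) := by
  have h : (a && b) = true ↔ Odd (m * n) := by
    rw [Bool.and_eq_true, ha, hb, Nat.odd_mul]
  by_cases h1 : (a && b) = true
  · rw [(h.mp h1).neg_one_pow]
    unfold sgb
    rw [h1]; rfl
  · have := mt h.mpr h1
    rw [Nat.not_odd_iff_even] at this
    rw [this.neg_one_pow]
    unfold sgb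
    rw [Bool.eq_false_iff.mpr h1]; rfl

/-- the unit -/
def l1 : Tri := .node (.ofNat 1) .nil .nil .nil .nil .nil .nil
/-- the six letters -/
def lrx : Tri := .node (.ofNat 0) l1 .nil .nil .nil .nil .nil
def llx : Tri := .node (.ofNat 0) .nil l1 .nil .nil .nil .nil
def lrz : Tri := .node (.ofNat 0) .nil .nil l1 .nil .nil .nil
def llz : Tri := .node (.ofNat 0) .nil .nil .nil l1 .nil .nil
def lrw : Tri := .node (.ofNat 0) .nil .nil .nil .nil l1 .nil
def llw : Tri := .node (.ofNat 0) .nil .nil .nil .nil .nil l1

/-- the operator `m ↦ ± (A, m, B)` from the polynomials of `A` and `B` -/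
noncomputable def Xp (s : ℤ) (la rb : Tri) : Tri := add (mul rb la) (smul (Int.neg s) (mul la rb))

/-- the polynomials of right and twisted left multiplication by a product -/
noncomputable def RLm (s : ℤ) (A B : Tri × Tri) : Tri × Tri :=
  (add (mul B.1 A.1) (Xp s A.2 B.1), add (smul s (mul A.2 B.2)) (smul (.negSucc 0) (Xp s A.2 B.1)))

/-- the polynomials of right and twisted left multiplication by a monomial -/
noncomputable def RL (p : Bool) (t : Tr) : Tri × Tri :=
  Tr.rec (motive := fun _ => Tri × Tri) (lrx, llx) (lrz, llz) (lrw, llw)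
    (fun a b iha ihb => RLm (sgb (a.odd p) (b.odd p)) iha ihb) t

/-- the skew-symmetry relation -/
noncomputable def skew (p : Bool) (a b : Tr) : Tri :=
  add (Xp (sgb (a.odd p) (b.odd p)) (RL p a).2 (RL p b).1)
    (smul (sgb (a.odd p) (b.odd p)) (Xp (sgb (a.odd p) (b.odd p)) (RL p b).2 (RL p a).1))

end Pool.Agent.Helper805.Chain
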